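import Pool.Agent.SH.Top

/-!
# Homotopy extension and related statements for realizations of finite posets
-/

set_option autoImplicit false

open Set Topology

namespace Pool.Agent.SH

theorem HEP (hR : Stmt_RET) : Stmt_HEP := by
  classical
  intro Z _ _ _ P _ Q A H g hA hH hHQ hg hgQ hgH
  obtain ⟨ε, hε, r, hrc, hrQ, hrid, _⟩ := hR P Q
  set e1 : Set.Icc (0 : ℝ) 1 := ⟨1, zero_le_one, le_refl 1⟩ with he1
  have hC1 : IsClosed (A ×ˢ (univ : Set (Set.Icc (0 : ℝ) 1))) := hA.prod isClosed_univ
  have hC2 : IsClosed ((univ : Set Z) ×ˢ ({e1} : Set (Set.Icc (0 : ℝ) 1))) := isClosed_univ.prod isClosed_singleton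
  set f : Z × Set.Icc (0 : ℝ) 1 → P → ℝ := fun z => if z.1 ∈ A then H z else g z.1 with hf
  have hfc : ContinuousOn f ((A ×ˢ univ) ∪ (univ ×ˢ {e1})) := by
    refine glue2 hC1 hC2 hH (g := fun z => g z.1) (hg.comp continuous_fst).continuousOn ?_ ?_
    · rintro ⟨z, t⟩ hz
      rw [hf]
      exact if_pos hz.1
    · rintro ⟨z, t⟩ hz
      have ht : t = e1 := hz.2
      subst ht
      rw [hf]
      by_cases hzA : z ∈ A
      · simp only [hzA, if_true]
        exact (hgH z hzA).symm
      · simp only [hzA, if_false]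
  obtain ⟨F, hFc, hF⟩ := tietze (hC1.union hC2) hfc
  have hO := tube (F := F) hFc (isOpen_NB Q ε)
  set V : Set Z := {z | ∀ t, F (z, t) ∈ NB Q ε} with hV
  have hAV : A ⊆ V := by
    intro z hz t
    rw [hF (z, t) (Or.inl ⟨hz, mem_univ t⟩)]
    have : f (z, t) = H (z, t) := by
      rw [hf]
      exact if_pos hz
    rw [this]
    exact Rz_subset_NB Q hε (hHQ (z, t) ⟨hz, mem_univ t⟩)
  have hdisj : Disjoint A Vᶜ := disjoint_compl_right_iff_subset.2 hAV
  obtain ⟨u, hu0, hu1, hu⟩ := exists_continuous_zero_one_of_isClosed hA hO.isClosed_compl hdisj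
  have hmem : ∀ z, F (z, ⟨u z, hu z⟩) ∈ NB Q ε := by
    intro z
    by_cases hz : z ∈ V
    · exact hz _
    · have h1 : u z = 1 := hu1 hz
      have h2 : (⟨u z, hu z⟩ : Set.Icc (0 : ℝ) 1) = e1 := Subtype.ext h1
      rw [h2, hF (z, e1) (Or.inr ⟨mem_univ z, rfl⟩)]
      have : f (z, e1) = g z := by
        rw [hf]
        by_cases hzA : z ∈ A
        · simp only [hzA, if_true]
          exact (hgH z hzA).symm
        · simp only [hzA, if_false]
      rw [this]
      exact Rz_subset_NB Q hε (hgQ z)
  refine ⟨fun z => r (F (z, ⟨u z, hu z⟩)), ?_, ?_, ?_⟩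
  · refine hrc.comp_continuous ?_ hmem
    exact hFc.comp (continuous_id.prodMk (Continuous.subtype_mk u.continuous _))
  · intro z
    exact hrQ _ (hmem z)
  · intro z hz
    have h1 : u z = 0 := hu0 hz
    have h2 : (⟨u z, hu z⟩ : Set.Icc (0 : ℝ) 1) = 0 := Subtype.ext h1
    have h3 : F (z, ⟨u z, hu z⟩) = H (z, 0) := by
      rw [h2, hF (z, 0) (Or.inl ⟨hz, mem_univ _⟩)]
      rw [hf]
      exact if_pos hz
    show r (F (z, ⟨u z, hu z⟩)) = H (z, 0)
    rw [h3]
    exact hrid _ (hHQ (z, 0) ⟨hz, mem_univ _⟩)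

theorem CLS (hR : Stmt_RET) : Stmt_CLS := by
  intro P _ Q
  obtain ⟨ε, hε, r, hrc, hrQ, hrid, _⟩ := hR P Q
  refine ⟨ε, hε, ?_⟩
  intro Z _ A f g hf hg hfQ hgQ hfg
  have hmem : ∀ z ∈ A ×ˢ (univ : Set (Set.Icc (0 : ℝ) 1)),
      (fun a => (1 - (z.2 : ℝ)) * f z.1 a + z.2 * g z.1 a) ∈ NB Q ε := by
    rintro ⟨z, t⟩ ⟨hz, -⟩
    refine ⟨f z, hfQ z hz, ?_⟩
    intro a ha
    have h1 := hfg z hz a ha
    have h2 : (1 - (t : ℝ)) * f z a + t * g z a - f z a = - ((t : ℝ) * (f z a - g z a)) := by ring
    show |(1 - (t : ℝ)) * f z a + t * g z a - f z a| < ε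
    rw [h2, abs_neg, abs_mul, abs_of_nonneg t.2.1]
    calc (t : ℝ) * |f z a - g z a| ≤ 1 * |f z a - g z a| :=
          mul_le_mul_of_nonneg_right t.2.2 (abs_nonneg _)
      _ < ε := by rw [one_mul]; exact h1
  refine ⟨fun z => r (fun a => (1 - (z.2 : ℝ)) * f z.1 a + z.2 * g z.1 a), ?_, ?_, ?_⟩
  · refine hrc.comp ?_ hmem
    rw [continuousOn_pi]
    intro a
    have h1 : ContinuousOn (fun z : Z × Set.Icc (0 : ℝ) 1 => f z.1 a) (A ×ˢ univ) := by
      refine (continuous_apply a).comp_continuousOn ?_
      exact hf.comp continuous_fst.continuousOn fun z hz => hz.1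
    have h2 : ContinuousOn (fun z : Z × Set.Icc (0 : ℝ) 1 => g z.1 a) (A ×ˢ univ) := by
      refine (continuous_apply a).comp_continuousOn ?_
      exact hg.comp continuous_fst.continuousOn fun z hz => hz.1
    have h3 : Continuous fun z : Z × Set.Icc (0 : ℝ) 1 => (z.2 : ℝ) :=
      continuous_subtype_val.comp continuous_snd
    exact ((continuous_const.sub h3).continuousOn.mul h1).add (h3.continuousOn.mul h2)
  · intro z hz
    exact hrQ _ (hmem z hz)
  · intro z hz
    constructor
    · have : (fun a => (1 - ((0 : Set.Icc (0 : ℝ) 1) : ℝ)) * f z a +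
          ((0 : Set.Icc (0 : ℝ) 1) : ℝ) * g z a) = f z := by
        ext a
        simp
      show r (fun a => (1 - ((0 : Set.Icc (0 : ℝ) 1) : ℝ)) * f z a +
          ((0 : Set.Icc (0 : ℝ) 1) : ℝ) * g z a) = f z
      rw [this]
      exact hrid _ (hfQ z hz)
    · have : (fun a => (1 - ((1 : Set.Icc (0 : ℝ) 1) : ℝ)) * f z a +
          ((1 : Set.Icc (0 : ℝ) 1) : ℝ) * g z a) = g z := by
        ext a
        simp
      show r (fun a => (1 - ((1 : Set.Icc (0 : ℝ) 1) : ℝ)) * f z a +
          ((1 : Set.Icc (0 : ℝ) 1) : ℝ) * g z a) = g z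
      rw [this]
      exact hrid _ (hgQ z hz)

theorem CON (hR : Stmt_RET) : Stmt_CON := by
  classical
  intro Z _ _ _ P _ Q t A f htQ htop hA hf hfQ
  obtain ⟨ε, hε, r, hrc, hrQ, hrid, _⟩ := hR P Q
  obtain ⟨F, hFc, hF⟩ := tietze hA hf
  have hO : IsOpen (F ⁻¹' (NB Q ε)) := (isOpen_NB Q ε).preimage hFc
  have hAO : A ⊆ F ⁻¹' (NB Q ε) := by
    intro z hz
    show F z ∈ NB Q ε
    rw [hF z hz]
    exact Rz_subset_NB Q hε (hfQ z hz)
  obtain ⟨W, hWo, hAW, hWO⟩ := normal_exists_closure_subset hA hO hAO
  have hdisj : Disjoint A Wᶜ := disjoint_compl_right_iff_subset.2 hAW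
  obtain ⟨u, hu0, hu1, hu⟩ := exists_continuous_zero_one_of_isClosed hA hWo.isClosed_compl hdisj
  set g : Z → P → ℝ := fun z a => u z * (if a = t then 1 else 0) +
    (if z ∈ closure W then (1 - u z) * r (F z) a else 0) with hg
  have hcl : ∀ z, z ∉ closure W → u z = 1 := fun z hz =>
    hu1 (fun h => hz (subset_closure h))
  refine ⟨g, ?_, ?_, ?_⟩
  · rw [continuous_pi_iff]
    intro a
    refine Continuous.add (u.continuous.mul continuous_const) ?_
    rw [← continuousOn_univ]
    have hun : (univ : Set Z) = closure W ∪ Wᶜ := by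
      ext z
      simp only [mem_univ, mem_union, mem_compl_iff, true_iff]
      by_cases hz : z ∈ W
      · exact Or.inl (subset_closure hz)
      · exact Or.inr hz
    rw [hun]
    refine glue2 isClosed_closure hWo.isClosed_compl (f := fun z => (1 - u z) * r (F z) a)
      (g := fun _ => 0) ?_ continuousOn_const ?_ ?_
    · refine ContinuousOn.mul (continuous_const.sub u.continuous).continuousOn ?_
      refine (continuous_apply a).comp_continuousOn ?_
      exact hrc.comp hFc.continuousOn hWO
    · intro z hz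
      exact if_pos hz
    · intro z hz
      by_cases hz' : z ∈ closure W
      · rw [if_pos hz', hu1 hz]
        simp
      · rw [if_neg hz']
  · intro z
    by_cases hz : z ∈ closure W
    · have hr := hrQ _ (hWO hz)
      obtain ⟨r1, r2, r3, r4⟩ := hr
      have hgz : ∀ a, g z a = u z * (if a = t then 1 else 0) + (1 - u z) * r (F z) a := by
        intro a
        rw [hg]
        simp only [hz, if_true]
      refine ⟨?_, ?_, ?_, ?_⟩
      · intro a
        rw [hgz]
        have := hu z
        refine add_nonneg (mul_nonneg this.1 ?_) (mul_nonneg (by linarith [this.2]) (r1 a))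
        split_ifs <;> norm_num
      · intro a ha
        rw [hgz, r2 a ha, if_neg (fun h : a = t => ha (h ▸ htQ))]
        ring
      · simp only [hgz]
        rw [Finset.sum_add_distrib, ← Finset.mul_sum, ← Finset.mul_sum, r3]
        rw [Finset.sum_ite_eq' Q t (fun _ => (1 : ℝ)), if_pos htQ]
        ring
      · intro a b ha hb
        by_cases hat : a = t
        · subst hat
          by_cases hbQ : b ∈ Q
          · exact Or.inr (htop b hbQ)
          · exfalso
            apply hb
            rw [hgz, r2 b hbQ, if_neg (fun h : b = a => hbQ (h ▸ htQ))]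
            ring
        · by_cases hbt : b = t
          · subst hbt
            by_cases haQ : a ∈ Q
            · exact Or.inl (htop a haQ)
            · exfalso
              apply ha
              rw [hgz, r2 a haQ, if_neg hat]
              ring
          · refine r4 a b ?_ ?_
            · intro h
              apply ha
              rw [hgz, h, if_neg hat]
              ring
            · intro h
              apply hb
              rw [hgz, h, if_neg hbt]
              ring
    · have hgz : ∀ a, g z a = if a = t then 1 else 0 := by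
        intro a
        rw [hg]
        simp only [hz, if_false, hcl z hz]
        ring
      refine ⟨?_, ?_, ?_, ?_⟩
      · intro a
        rw [hgz]
        split_ifs <;> norm_num
      · intro a ha
        rw [hgz, if_neg (fun h : a = t => ha (h ▸ htQ))]
      · simp only [hgz]
        rw [Finset.sum_ite_eq' Q t (fun _ => (1 : ℝ)), if_pos htQ]
      · intro a b ha hb
        rw [hgz] at ha hb
        have h1 : a = t := by
          by_contra h
          exact ha (if_neg h)
        have h2 : b = t := by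
          by_contra h
          exact hb (if_neg h)
        rw [h1, h2]
        exact Or.inl (le_refl t)
  · intro z hz
    have hzW : z ∈ closure W := subset_closure (hAW hz)
    have hu0' : u z = 0 := hu0 hz
    ext a
    rw [hg]
    simp only [hzW, if_true, hu0']
    rw [hF z hz, hrid _ (hfQ z hz)]
    ring

end Pool.Agent.SH
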