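import Mathlib

/-!
# MP_2d0b73_an, block TE: T-equivalences for a Kan complex T (definitions)

`Hty f g`: one-step homotopy. `W T f`: `f : X ⟶ Y` induces bijections of homotopy classes
`[Y ⊗ K, T] → [X ⊗ K, T]` for all simplicial sets `K`. `REXT T i`: relative extension property.
`F2Iso f`: isomorphism on homology with coefficients in `ZMod 2`. `diagF`: diagonal of a
bisimplicial set. `WClass P`: the list of closure properties shared by `W T` and `F2Iso`.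
-/

open CategoryTheory MonoidalCategory Simplicial SSet HomotopicalAlgebra Opposite Limits
open SSet.modelCategoryQuillen

namespace Pool.Agent.SH

/-- One-step homotopy of maps of simplicial sets (Mathlib's `SSet.Homotopy`, a map
`A ⊗ Δ[1] ⟶ T`). -/
def Hty {A T : SSet.{0}} (f g : A ⟶ T) : Prop := Nonempty (SSet.Homotopy f g)

theorem Hty_iff {A T : SSet.{0}} (f g : A ⟶ T) :
    Hty f g ↔ ∃ h : A ⊗ Δ[1] ⟶ T, ι₀ ≫ h = f ∧ ι₁ ≫ h = g := by
  constructor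
  · rintro ⟨H⟩
    exact ⟨H.h, H.h₀, H.h₁⟩
  · rintro ⟨h, h0, h1⟩
    refine ⟨{ h := h, h₀ := h0, h₁ := h1, rel := ?_ }⟩
    ext n x
    exact x.1.2.elim

theorem Hty.refl {A T : SSet.{0}} (f : A ⟶ T) : Hty f f :=
  (Hty_iff f f).2 ⟨CartesianMonoidalCategory.fst A Δ[1] ≫ f, by
    rw [← Category.assoc, ι₀_fst, Category.id_comp], by
    rw [← Category.assoc, ι₁_fst, Category.id_comp]⟩

theorem Hty.pre {A B T : SSet.{0}} {f g : B ⟶ T} (h : Hty f g) (u : A ⟶ B) :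
    Hty (u ≫ f) (u ≫ g) := by
  obtain ⟨H, h0, h1⟩ := (Hty_iff f g).1 h
  refine (Hty_iff _ _).2 ⟨u ▷ Δ[1] ≫ H, ?_, ?_⟩
  · rw [← Category.assoc, ι₀_comp, Category.assoc, h0]
  · rw [← Category.assoc, ι₁_comp, Category.assoc, h1]

theorem Hty.post {A T U : SSet.{0}} {f g : A ⟶ T} (h : Hty f g) (v : T ⟶ U) :
    Hty (f ≫ v) (g ≫ v) := by
  obtain ⟨H, h0, h1⟩ := (Hty_iff f g).1 h
  refine (Hty_iff _ _).2 ⟨H ≫ v, ?_, ?_⟩
  · rw [← Category.assoc, h0]
  · rw [← Category.assoc, h1]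

/-- `T`-equivalences: maps `f : X ⟶ Y` inducing bijections of homotopy classes
`[Y ⊗ K, T] → [X ⊗ K, T]` for all `K`. -/
def W (T : SSet.{0}) : MorphismProperty SSet.{0} := fun X Y f =>
  (∀ (K : SSet.{0}) (a : X ⊗ K ⟶ T), ∃ b : Y ⊗ K ⟶ T, Hty (f ▷ K ≫ b) a) ∧
  (∀ (K : SSet.{0}) (b b' : Y ⊗ K ⟶ T), Hty (f ▷ K ≫ b) (f ▷ K ≫ b') → Hty b b')

/-- Relative extension property of `T` for the pushout products of `i` with all
monomorphisms. -/
def REXT (T : SSet.{0}) {X Y : SSet.{0}} (i : X ⟶ Y) : Prop :=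
  ∀ (K L : SSet.{0}) (j : K ⟶ L) [Mono j] (u : Y ⊗ K ⟶ T) (v : X ⊗ L ⟶ T),
    i ▷ K ≫ u = X ◁ j ≫ v → ∃ w : Y ⊗ L ⟶ T, Y ◁ j ≫ w = u ∧ i ▷ L ≫ w = v

/-- The same with boundary inclusions only. -/
def REXTB (T : SSet.{0}) {X Y : SSet.{0}} (i : X ⟶ Y) : Prop :=
  ∀ (n : ℕ) (u : Y ⊗ (∂Δ[n] : SSet.{0}) ⟶ T) (v : X ⊗ Δ[n] ⟶ T),
    i ▷ (∂Δ[n] : SSet.{0}) ≫ u = X ◁ (∂Δ[n] : (Δ[n] : SSet.{0}).Subcomplex).ι ≫ v →
      ∃ w : Y ⊗ Δ[n] ⟶ T,
        Y ◁ (∂Δ[n] : (Δ[n] : SSet.{0}).Subcomplex).ι ≫ w = u ∧ i ▷ Δ[n] ≫ w = v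

/-- Coefficients. -/
noncomputable abbrev F2 : ModuleCat.{0} (ZMod 2) := ModuleCat.of (ZMod 2) (ZMod 2)

/-- Isomorphisms on homology with coefficients in `F_2`. -/
def F2Iso : MorphismProperty SSet.{0} := fun _ _ f => ∀ n : ℕ, IsIso (SSet.homologyMap f F2 n)

/-- Diagonal of a bisimplicial set (a simplicial object in `SSet`). -/
def diagF : SimplicialObject SSet.{0} ⥤ SSet.{0} where
  obj X :=
    { obj := fun n => (X.obj n).obj n
      map := fun f => (X.map f).app _ ≫ (X.obj _).map f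
      map_id := by intro n; simp
      map_comp := by
        intro a b c f g
        simp only [Functor.map_comp, Category.assoc, NatTrans.comp_app]
        simp [NatTrans.naturality_assoc] }
  map f :=
    { app := fun n => (f.app n).app n
      naturality := by
        intro a b g
        rw [Category.assoc, (f.app b).naturality, ← Category.assoc, ← Category.assoc,
          ← NatTrans.comp_app, ← NatTrans.comp_app, f.naturality] }
  map_id := by intro X; rfl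
  map_comp := by intro X Y Z f g; rfl

/-- Closure properties shared by the `T`-equivalences of a Kan complex `T` and by the
`F_2`-homology isomorphisms. -/
structure WClass (P : MorphismProperty SSet.{0}) : Prop where
  iso : ∀ {X Y : SSet.{0}} (f : X ⟶ Y), IsIso f → P f
  comp : ∀ {X Y Z : SSet.{0}} (f : X ⟶ Y) (g : Y ⟶ Z), P f → P g → P (f ≫ g)
  cancelL : ∀ {X Y Z : SSet.{0}} (f : X ⟶ Y) (g : Y ⟶ Z), P f → P (f ≫ g) → P g
  cancelR : ∀ {X Y Z : SSet.{0}} (f : X ⟶ Y) (g : Y ⟶ Z), P g → P (f ≫ g) → P f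
  six : ∀ {X Y Z U : SSet.{0}} (f : X ⟶ Y) (g : Y ⟶ Z) (h : Z ⟶ U),
    P (f ≫ g) → P (g ≫ h) → P g
  proj : ∀ (X : SSet.{0}) (n : ℕ), P (CartesianMonoidalCategory.fst X (Δ[n] : SSet.{0}))
  glue : ∀ {A B C D A' B' C' D' : SSet.{0}}
      (i : A ⟶ B) (f : A ⟶ C) (g : B ⟶ D) (j : C ⟶ D)
      (i' : A' ⟶ B') (f' : A' ⟶ C') (g' : B' ⟶ D') (j' : C' ⟶ D')
      (a : A ⟶ A') (b : B ⟶ B') (c : C ⟶ C') (d : D ⟶ D'),
      IsPushout i f g j → IsPushout i' f' g' j' → Mono i → Mono i' →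
      i ≫ b = a ≫ i' → f ≫ c = a ≫ f' → g ≫ d = b ≫ g' → j ≫ d = c ≫ j' →
      P a → P b → P c → P d
  copr : ∀ (J : Type) (X Y : J → SSet.{0}) (f : ∀ j, X j ⟶ Y j), (∀ j, P (f j)) →
    P (Limits.Sigma.map f)
  seq : ∀ (F G : ℕ ⥤ SSet.{0}) (α : F ⟶ G)
    (cF : Cocone F) (cG : Cocone G), IsColimit cF → IsColimit cG →
    (∀ n : ℕ, Mono (F.map (homOfLE (Nat.le_succ n)))) →
    (∀ n : ℕ, Mono (G.map (homOfLE (Nat.le_succ n)))) →
    (∀ n : ℕ, P (α.app n)) →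
    ∀ f : cF.pt ⟶ cG.pt, (∀ n : ℕ, cF.ι.app n ≫ f = α.app n ≫ cG.ι.app n) → P f

/-- Kan complexes have the extension property for anodyne maps. -/
theorem Kan.ext {A B T : SSet.{0}} (hT : SSet.KanComplex T) (i : A ⟶ B)
    (hi : anodyneExtensions i) (u : A ⟶ T) : ∃ v : B ⟶ T, i ≫ v = u := by
  have h1 : HasLiftingProperty i (terminal.from T) := by
    apply hi
    rw [← HomotopicalAlgebra.fibration_iff]
    infer_instance
  have sq : CommSq u i (terminal.from T) (terminal.from B) := ⟨by simp⟩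
  exact ⟨sq.lift, sq.fac_left⟩

end Pool.Agent.SH
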