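import Pool.Agent.SH.DefsN2
import Pool.Agent.SH.DefsTE

/-!
# MP_2d0b73_an, Part III-N: statements

Every statement is about a class `P` of maps with the closure properties `WClass P` (DefsTE).
-/

set_option autoImplicit false

open CategoryTheory MonoidalCategory CartesianMonoidalCategory Simplicial Opposite

namespace Pool.Agent.SH

/-- `X` is acyclic for the class `P`. -/
def Acy (P : MorphismProperty SSet.{0}) (X : SSet.{0}) : Prop := P (toUnit X)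

/-- The input: `B ℤ/2` is acyclic (the quotient of the simplicial set of all sequences of Booleans by
the simultaneous negation). -/
def BInput (P : MorphismProperty SSet.{0}) : Prop :=
  ∀ (V : SSet.{0}) (q : EE Bool ⟶ V), (∀ n, Function.Surjective (q.app n)) →
    (∀ (n : SimplexCategoryᵒᵖ) (x y : Fin (n.unop.len + 1) → Bool),
      q.app n x = q.app n y ↔ y = x ∨ y = fun i => !(x i)) → Acy P V

/-- The stabiliser of a simplex. -/
def Act.stab {G : Type} [Group G] {Y : SSet.{0}} (b : Act G Y) {n : SimplexCategoryᵒᵖ}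
    (y : Y.obj n) : Subgroup G where
  carrier := {g | b.ap g y = y}
  one_mem' := b.ap_one y
  mul_mem' := by
    intro g h hg hh
    show b.ap (g * h) y = y
    rw [b.ap_mul, show b.ap h y = y from hh]
    exact hg
  inv_mem' := by
    intro g hg
    show b.ap g⁻¹ y = y
    have h : b.ap g y = y := hg
    conv_lhs => rw [← h]
    rw [← b.ap_mul, inv_mul_cancel, b.ap_one]

/-! ## Groups -/

/-- (N1) quotients exist. -/
def N_QEX_Stmt : Prop := ∀ (G : Type) [Group G] (W : SSet.{0}) (a : Act G W),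
  ∃ (V : SSet.{0}) (q : W ⟶ V), IsQuo a q

/-- (N2) invariant maps descend to the quotient; two maps on the quotient which agree on `W` are
equal. -/
def N_QDESC_Stmt : Prop := ∀ (G : Type) [Group G] (W V U : SSet.{0}) (a : Act G W) (q : W ⟶ V),
  IsQuo a q → (∀ f : W ⟶ U, (∀ g, a.act g ≫ f = f) → ∃ f' : V ⟶ U, q ≫ f' = f) ∧
    ∀ f g : V ⟶ U, q ≫ f = q ≫ g → f = g

/-- (N3) the simplicial set of all sequences is acyclic. -/
def N_EE_Stmt : Prop := ∀ P : MorphismProperty SSet.{0}, WClass P → ∀ (X : Type), Nonempty X →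
  Acy P (EE X)

/-- (N4) the projections of `(W₁ × W₂) / G`. -/
def N_QPROJ_Stmt : Prop := ∀ P : MorphismProperty SSet.{0}, WClass P → ∀ (G : Type) [Group G]
  (W₁ W₂ : SSet.{0}) (a₁ : Act G W₁) (a₂ : Act G W₂) (Q : SSet.{0}) (q : W₁ ⊗ W₂ ⟶ Q),
  IsQuo (a₁.prod a₂) q →
  (∀ (V : SSet.{0}) (p : W₁ ⟶ V) (π : Q ⟶ V), a₁.Free → IsQuo a₁ p → q ≫ π = fst W₁ W₂ ≫ p →
    Acy P W₂ → P π) ∧
  (∀ (V : SSet.{0}) (p : W₂ ⟶ V) (π : Q ⟶ V), a₂.Free → IsQuo a₂ p → q ≫ π = snd W₁ W₂ ≫ p →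
    Acy P W₁ → P π)

/-- (N5) quotients by free involutions. -/
def N_INV_Stmt : Prop := ∀ P : MorphismProperty SSet.{0}, WClass P → BInput P →
  ∀ (V V' : SSet.{0}) (τ : V ⟶ V) (q : V ⟶ V'), τ ≫ τ = 𝟙 V →
  (∀ (n : SimplexCategoryᵒᵖ) (x : V.obj n), τ.app n x ≠ x) →
  (∀ n, Function.Surjective (q.app n)) →
  (∀ (n : SimplexCategoryᵒᵖ) (x y : V.obj n), q.app n x = q.app n y ↔ y = x ∨ y = τ.app n x) →
  Acy P V → Acy P V'

/-- (N6) quotients by free actions of finite `2`-groups. -/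
def N_TWO_Stmt : Prop := ∀ P : MorphismProperty SSet.{0}, WClass P → BInput P →
  ∀ (G : Type) [Group G] (k : ℕ), Nat.card G = 2 ^ k → ∀ (W V : SSet.{0}) (a : Act G W)
  (q : W ⟶ V), a.Free → IsQuo a q → Acy P W → Acy P V

/-- (N7) `(W × Y) / G → Y / G`, whose open fibres are the quotients of `W` by stabilisers. -/
def N_ORB_Stmt : Prop := ∀ P : MorphismProperty SSet.{0}, WClass P → ∀ (G : Type) [Group G]
  (W Y : SSet.{0}) (a : Act G W) (b : Act G Y) (E B : SSet.{0}) (q : W ⊗ Y ⟶ E) (r : Y ⟶ B)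
  (π : E ⟶ B), a.Free → IsQuo (a.prod b) q → IsQuo b r → q ≫ π = snd W Y ≫ r →
  (∀ (n : SimplexCategoryᵒᵖ) (y : Y.obj n) (V : SSet.{0}) (p : W ⟶ V),
    IsQuo (a.restr (b.stab y)) p → Acy P V) → P π

/-- (N8) the quotient of the simplicial set of all sequences in `G ⧸ S` is `F₂`-acyclic if the index
is odd. -/
def N_SYL_Stmt : Prop := ∀ (G : Type) [Group G] [Finite G] (S : Subgroup G), Odd S.index →
  ∀ (V : SSet.{0}) (q : EE (G ⧸ S) ⟶ V), IsQuo (EEact G (G ⧸ S)) q → Ac2 V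

/-- (N9) quotients by free actions of finite groups. -/
def N_FIN_Stmt : Prop := ∀ P : MorphismProperty SSet.{0}, WClass P →
  (∀ X : SSet.{0}, Ac2 X → Acy P X) → BInput P →
  ∀ (G : Type) [Group G] [Finite G] (W V : SSet.{0}) (a : Act G W) (q : W ⟶ V), a.Free →
  IsQuo a q → Acy P W → Acy P V

/-! ## The simplicial sets `FM` -/

/-- (F1) the projection `A[W/Z] → A[W/Z']` has open fibres `A[Z'/Z]`. -/
def N_FMC_Stmt : Prop := ∀ P : MorphismProperty SSet.{0}, WClass P → ∀ (A : Type)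
  [AddCommMonoid A] (A₀ : AddSubmonoid A) (X : SSet.{0}) (Y W Z Z' : X.Subcomplex) (h : Z ≤ Z'),
  Acy P (FM A A₀ Y (W ⊓ Z') Z) →
  P (FMmap A₀ (𝟙 X) (le_refl Y) (le_refl W) h : FM A A₀ Y W Z ⟶ FM A A₀ Y W Z')

/-- (F2) reduction modulo one: open fibres with integral coefficients. -/
def N_FMD_Stmt : Prop := ∀ P : MorphismProperty SSet.{0}, WClass P → ∀ (X : SSet.{0})
  (Y W Z : X.Subcomplex), Acy P (FM Qd Nd ⊥ W Z) → P (FMco Nd md md_Nd Y W Z)

/-- (F3) excision: `A[W/Z]` only depends on the simplices in `W` and off `Z`. -/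
def N_EXC_Stmt : Prop := ∀ (A : Type) [AddCommMonoid A] (A₀ : AddSubmonoid A) (X : SSet.{0})
  (Y Y' W W' Z Z' : X.Subcomplex) (hY : Y ≤ Y') (hW : W ≤ W') (hZ : Z ≤ Z'),
  (∀ (n : SimplexCategoryᵒᵖ) (x : X.obj n), (x ∈ W.obj n ∧ x ∉ Z.obj n) ↔
    (x ∈ W'.obj n ∧ x ∉ Z'.obj n)) →
  (∀ (n : SimplexCategoryᵒᵖ) (x : X.obj n), x ∈ W.obj n → x ∉ Z.obj n →
    (x ∈ Y.obj n ↔ x ∈ Y'.obj n)) →
  IsIso (FMmap A₀ (𝟙 X) hY hW hZ : FM A A₀ Y W Z ⟶ FM A A₀ Y' W' Z')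

/-- (F4) change of coefficients: `ℕ` and the submonoid `Nd` of `Qd`. -/
def N_COEF_Stmt : Prop := ∀ (X : SSet.{0}) (W Z : X.Subcomplex),
  Nonempty (FM ℕ ⊤ ⊤ W Z ≅ FM Qd Nd ⊥ W Z)

/-- Homotopies of endomorphisms which preserve `Y` and `Z`. -/
def PHty {X : SSet.{0}} (Y Z : X.Subcomplex) (u v : X ⟶ X) : Prop :=
  ∃ h : X ⊗ Δ[1] ⟶ X, SSet.ι₀ ≫ h = u ∧ SSet.ι₁ ≫ h = v ∧
    ∀ (n : SimplexCategoryᵒᵖ) (x : X.obj n) (t : (Δ[1] : SSet.{0}).obj n),
      (x ∈ Y.obj n → h.app n (x, t) ∈ Y.obj n) ∧ (x ∈ Z.obj n → h.app n (x, t) ∈ Z.obj n)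

/-- (F5) contractible pairs. -/
def N_CTR_Stmt : Prop := ∀ P : MorphismProperty SSet.{0}, WClass P → ∀ (A : Type)
  [AddCommMonoid A] (A₀ : AddSubmonoid A) (X : SSet.{0}) (Y Z : X.Subcomplex) (u : X ⟶ X),
  Relation.EqvGen (PHty Y Z) (𝟙 X) u → SSet.Subcomplex.range u ≤ Z →
  Acy P (FM A A₀ Y ⊤ Z)

/-- (F6) the simplicial set `FM` of a subcomplex `W`, inside `W`. -/
def N_RES_Stmt : Prop := ∀ (A : Type) [AddCommMonoid A] (A₀ : AddSubmonoid A) (X X' : SSet.{0})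
  (i : X' ⟶ X) (Y Z : X.Subcomplex), Mono i →
  Nonempty (FM A A₀ (Y.preimage i) ⊤ (Z.preimage i) ≅ FM A A₀ Y (SSet.Subcomplex.range i) Z)

/-- (F7a) comparable order preserving maps induce homotopic maps of nerves. -/
def N_NOH_Stmt : Prop := ∀ (S S' : Type) [PartialOrder S] [PartialOrder S'] (f g : S →o S'),
  f ≤ g → ∃ h : NO S ⊗ Δ[1] ⟶ NO S', SSet.ι₀ ≫ h = NOmap f ∧ SSet.ι₁ ≫ h = NOmap g ∧
    ∀ (n : SimplexCategoryᵒᵖ) (x : Fin (n.unop.len + 1) →o S) (t : (Δ[1] : SSet.{0}).obj n)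
      (y : Fin (n.unop.len + 1) →o S'), h.app n (x, t) = y →
      ∀ i, y i = f (x i) ∨ y i = g (x i)

/-- (F7) contractible pairs of posets: a zigzag of order preserving maps of `U` which preserve `E`,
from the identity to a map with values in `E`. -/
def N_PCTR_Stmt : Prop := ∀ P : MorphismProperty SSet.{0}, WClass P → ∀ (A : Type)
  [AddCommMonoid A] (A₀ : AddSubmonoid A) (S : Type) [PartialOrder S] (U E : Set S)
  (f : U →o U), Relation.EqvGen (fun g g' : U →o U => g ≤ g' ∧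
    ∀ x : U, (x : S) ∈ E → ((g x : U) : S) ∈ E ∧ ((g' x : U) : S) ∈ E) OrderHom.id f →
  (∀ x : U, ((f x : U) : S) ∈ E) → ∀ Y : (NO S).Subcomplex, (Y = ⊥ ∨ Y = ⊤) →
  Acy P (FM A A₀ Y (NOs U) (NOs E))

/-- (F8) cones: the circle with one pole, pointed by `0`. -/
def N_CONE_Stmt : Prop := ∀ P : MorphismProperty SSet.{0}, WClass P → ∀ (A : Type)
  [AddCommMonoid A] (A₀ : AddSubmonoid A) (e : Bool),
  Acy P (FM A A₀ ⊥ (NOs (UC e)) (NOs UZ))

/-- (F9) a simplicial commutative monoid in which multiplication by two is bijective has no Moore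
cycles over `F₂` in positive degrees, up to boundaries. -/
def N_UD_Stmt : Prop := ∀ (X : SSet.{0}) (_ : ∀ n, AddCommMonoid (X.obj n)),
  (∀ (n m : SimplexCategoryᵒᵖ) (θ : n ⟶ m) (x y : X.obj n), X.map θ (x + y) = X.map θ x + X.map θ y) →
  (∀ n, Function.Bijective (fun x : X.obj n => x + x)) →
  ∀ (n : ℕ) (z : X _⦋n + 1⦌ →₀ ZMod 2), (∀ i : Fin (n + 2), dF i z = 0) →
    ∃ w : X _⦋n + 2⦌ →₀ ZMod 2, dF 0 w = z ∧ ∀ i : Fin (n + 2), dF i.succ w = 0

/-- (F10) the dyadic coefficients on the circle. -/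
def N_QY_Stmt : Prop := Ac2 (FM Qd Nd (NOs US) (NOs US) (NOs UZ))

/-- the edge of the circle which does not touch the base point, with its two ends -/
def U3 : Set (Sph 2) := {x | x.sgn = true ∧ x.lev ≠ Fin.last 2}

/-- the two ends of the edge -/
def Z3 : (NO (Sph 2)).Subcomplex := NOs {x | x.sgn = true ∧ x.lev = 0} ⊔
  NOs {x | x.sgn = true ∧ x.lev = 1}

/-- (F11) `D[Δ¹/∂Δ¹]` is the quotient of all sequences in `D` by translations. -/
def N_BDQ_Stmt : Prop := ∀ (D : Type) [AddCommGroup D],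
  ∃ q : EE (Multiplicative D) ⟶ FM D ⊤ ⊤ (NOs U3) Z3,
    IsQuo (EEact (Multiplicative D) (Multiplicative D)) q

/-- (F12) `B D` is acyclic for `D = ℤ[1/2]/ℤ`. -/
def N_BD_Stmt : Prop := ∀ P : MorphismProperty SSet.{0}, WClass P → BInput P →
  Acy P (FM Dd ⊤ ⊤ (NOs U3) Z3)

/-- (F13) `D[circle]` is acyclic. -/
def N_DY_Stmt : Prop := ∀ P : MorphismProperty SSet.{0}, WClass P → BInput P →
  Acy P (FM Dd ⊤ ⊤ (NOs US) (NOs UZ))

/-- (F14) the free commutative monoid on the sphere of dimension two is acyclic. -/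
def N_NN_Stmt : Prop := ∀ P : MorphismProperty SSet.{0}, WClass P →
  (∀ X : SSet.{0}, Ac2 X → Acy P X) → BInput P → Acy P (FM ℕ ⊤ ⊤ ⊤ (NOs UZ))

/-! ## Result of part III-N -/

/-- the labelled configurations are acyclic -/
def N_MAIN_Stmt : Prop := ∀ P : MorphismProperty SSet.{0}, WClass P →
  (∀ (X Y : SSet.{0}) (f : X ⟶ Y), F2Iso f → P f) → BInput P → Acy P (NO (LL (Sph 2)))

end Pool.Agent.SH
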