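import Mathlib
import Pool.Agent.SH.DefsTE

/-!
# MP_2d0b73_an, block TE: statements
-/

open CategoryTheory MonoidalCategory Simplicial SSet HomotopicalAlgebra Opposite Limits
open SSet.modelCategoryQuillen

namespace Pool.Agent.SH

/-! ## Kan complexes -/

/-- (K1) homotopy is an equivalence relation on maps to a Kan complex. -/
def TE_HTY_Stmt : Prop :=
  ∀ (A T : SSet.{0}), SSet.KanComplex T → Equivalence (Hty (A := A) (T := T))

/-- (K2) homotopy extension property, both ends. -/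
def TE_HEP_Stmt : Prop :=
  ∀ (T : SSet.{0}), SSet.KanComplex T → ∀ (A B : SSet.{0}) (i : A ⟶ B), Mono i →
    (∀ (f : B ⟶ T) (h : A ⊗ Δ[1] ⟶ T), ι₀ ≫ h = i ≫ f →
      ∃ H : B ⊗ Δ[1] ⟶ T, ι₀ ≫ H = f ∧ i ▷ Δ[1] ≫ H = h) ∧
    (∀ (f : B ⟶ T) (h : A ⊗ Δ[1] ⟶ T), ι₁ ≫ h = i ≫ f →
      ∃ H : B ⊗ Δ[1] ⟶ T, ι₁ ≫ H = f ∧ i ▷ Δ[1] ≫ H = h)

/-- (K3) boundary inclusions suffice. -/
def TE_BDRY_Stmt : Prop :=
  ∀ (T X Y : SSet.{0}) (i : X ⟶ Y), REXTB T i → REXT T i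

/-- (K4) a Kan fibration `p` onto a Kan complex which is bijective on homotopy classes
`[K, E] → [K, B]` for all `K` is a trivial fibration. -/
def TE_TRIV_Stmt : Prop :=
  ∀ (E B : SSet.{0}) (p : E ⟶ B), SSet.KanComplex B →
    HomotopicalAlgebra.Fibration p →
    (∀ (K : SSet.{0}) (a : K ⟶ B), ∃ b : K ⟶ E, Hty (b ≫ p) a) →
    (∀ (K : SSet.{0}) (b b' : K ⟶ E), Hty (b ≫ p) (b' ≫ p) → Hty b b') →
    ∀ (K L : SSet.{0}) (j : K ⟶ L), Mono j → HasLiftingProperty j p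

/-- (K5) key lemma, easy direction (`i` arbitrary). -/
def TE_KEYE_Stmt : Prop :=
  ∀ (T : SSet.{0}), SSet.KanComplex T → ∀ (X Y : SSet.{0}) (i : X ⟶ Y), REXT T i → W T i

/-- (K6) key lemma: for monomorphisms, `W T` implies the relative extension property. -/
def TE_KEY_Stmt : Prop :=
  ∀ (T : SSet.{0}), SSet.KanComplex T → ∀ (X Y : SSet.{0}) (i : X ⟶ Y), Mono i →
    W T i → REXT T i

/-- (K7) relative extension: closure under pushouts (no `Mono` needed). -/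
def TE_RPUSH_Stmt : Prop :=
  ∀ (T A B C D : SSet.{0}) (i : A ⟶ B) (f : A ⟶ C) (g : B ⟶ D) (j : C ⟶ D),
    IsPushout i f g j → REXT T i → REXT T j

/-- (K8) relative extension: closure under sequential composition. -/
def TE_RSEQ_Stmt : Prop :=
  ∀ (T : SSet.{0}) (F : ℕ ⥤ SSet.{0}) (c : Cocone F), IsColimit c →
    (∀ n : ℕ, REXT T (F.map (homOfLE (Nat.le_succ n)))) → REXT T (c.ι.app 0)

/-- (K9) formal properties of `W T`. -/
def TE_23_Stmt : Prop :=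
  ∀ (T : SSet.{0}), SSet.KanComplex T →
    (∀ (X Y : SSet.{0}) (f : X ⟶ Y), IsIso f → W T f) ∧
    (∀ (X Y Z : SSet.{0}) (f : X ⟶ Y) (g : Y ⟶ Z), W T f → W T g → W T (f ≫ g)) ∧
    (∀ (X Y Z : SSet.{0}) (f : X ⟶ Y) (g : Y ⟶ Z), W T f → W T (f ≫ g) → W T g) ∧
    (∀ (X Y Z : SSet.{0}) (f : X ⟶ Y) (g : Y ⟶ Z), W T g → W T (f ≫ g) → W T f) ∧
    (∀ (X Y Z U : SSet.{0}) (f : X ⟶ Y) (g : Y ⟶ Z) (h : Z ⟶ U),
      W T (f ≫ g) → W T (g ≫ h) → W T g) ∧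
    (∀ (X : SSet.{0}) (n : ℕ), W T (CartesianMonoidalCategory.fst X (Δ[n] : SSet.{0}))) ∧
    (∀ (J : Type) (X Y : J → SSet.{0}) (f : ∀ j, X j ⟶ Y j), (∀ j, W T (f j)) →
      W T (Limits.Sigma.map f))

/-- (K10) left properness: pushout of a map in `W T` along a monomorphism. -/
def TE_LPR_Stmt : Prop :=
  ∀ (T : SSet.{0}), SSet.KanComplex T → ∀ (A B C D : SSet.{0}) (i : A ⟶ B) (f : A ⟶ C)
    (g : B ⟶ D) (j : C ⟶ D), IsPushout i f g j → Mono i → W T f → W T g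

/-- (K11) the gluing lemma. -/
def TE_GLUE_Stmt : Prop :=
  ∀ (T : SSet.{0}), SSet.KanComplex T →
    ∀ (A B C D A' B' C' D' : SSet.{0})
      (i : A ⟶ B) (f : A ⟶ C) (g : B ⟶ D) (j : C ⟶ D)
      (i' : A' ⟶ B') (f' : A' ⟶ C') (g' : B' ⟶ D') (j' : C' ⟶ D')
      (a : A ⟶ A') (b : B ⟶ B') (c : C ⟶ C') (d : D ⟶ D'),
      IsPushout i f g j → IsPushout i' f' g' j' → Mono i → Mono i' →
      i ≫ b = a ≫ i' → f ≫ c = a ≫ f' → g ≫ d = b ≫ g' → j ≫ d = c ≫ j' →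
      W T a → W T b → W T c → W T d

/-- (K12) sequential colimits along monomorphisms. -/
def TE_SEQ_Stmt : Prop :=
  ∀ (T : SSet.{0}), SSet.KanComplex T → ∀ (F G : ℕ ⥤ SSet.{0}) (α : F ⟶ G)
    (cF : Cocone F) (cG : Cocone G), IsColimit cF → IsColimit cG →
    (∀ n : ℕ, Mono (F.map (homOfLE (Nat.le_succ n)))) →
    (∀ n : ℕ, Mono (G.map (homOfLE (Nat.le_succ n)))) →
    (∀ n : ℕ, W T (α.app n)) →
    ∀ f : cF.pt ⟶ cG.pt, (∀ n : ℕ, cF.ι.app n ≫ f = α.app n ≫ cG.ι.app n) → W T f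

/-- (K13) `W T` is a `WClass`. -/
def TE_WT_Stmt : Prop := ∀ (T : SSet.{0}), SSet.KanComplex T → WClass (W T)

/-! ## Consequences valid for every `WClass` -/

/-- (C1) pushouts of monomorphisms in `P`, left properness, homotopic maps. -/
def WC_PUSH_Stmt : Prop :=
  ∀ P : MorphismProperty SSet.{0}, WClass P →
    (∀ (A B C D : SSet.{0}) (i : A ⟶ B) (f : A ⟶ C) (g : B ⟶ D) (j : C ⟶ D),
      IsPushout i f g j → Mono i → P i → P j) ∧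
    (∀ (A B C D : SSet.{0}) (i : A ⟶ B) (f : A ⟶ C) (g : B ⟶ D) (j : C ⟶ D),
      IsPushout i f g j → Mono i → P f → P g) ∧
    (∀ (X Y : SSet.{0}) (f g : X ⟶ Y), Relation.EqvGen (Hty (A := X) (T := Y)) f g →
      (P f ↔ P g))

/-- (C2) maps invertible up to chains of homotopies. -/
def WC_HEQ_Stmt : Prop :=
  ∀ P : MorphismProperty SSet.{0}, WClass P →
    ∀ (X Y : SSet.{0}) (f : X ⟶ Y) (g : Y ⟶ X),
    Relation.EqvGen (Hty (A := X) (T := X)) (f ≫ g) (𝟙 X) →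
    Relation.EqvGen (Hty (A := Y) (T := Y)) (g ≫ f) (𝟙 Y) → P f ∧ P g

/-- (C3) unions of two subcomplexes. -/
def WC_UNION_Stmt : Prop :=
  ∀ P : MorphismProperty SSet.{0}, WClass P → ∀ (X Y : SSet.{0}) (f : X ⟶ Y)
    (A B : X.Subcomplex) (A' B' : Y.Subcomplex),
    A ≤ A'.preimage f → B ≤ B'.preimage f → A ⊔ B = ⊤ → A' ⊔ B' = ⊤ →
    (∀ g : (A : SSet.{0}) ⟶ A', g ≫ A'.ι = A.ι ≫ f → P g) →
    (∀ g : (B : SSet.{0}) ⟶ B', g ≫ B'.ι = B.ι ≫ f → P g) →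
    (∀ g : ((A ⊓ B : X.Subcomplex) : SSet.{0}) ⟶ ((A' ⊓ B' : Y.Subcomplex) : SSet.{0}),
      g ≫ (A' ⊓ B').ι = (A ⊓ B).ι ≫ f → P g) → P f

/-- (C4) increasing unions of subcomplexes indexed by `ℕ`. -/
def WC_USEQ_Stmt : Prop :=
  ∀ P : MorphismProperty SSet.{0}, WClass P → ∀ (X Y : SSet.{0}) (f : X ⟶ Y)
    (A : ℕ →o X.Subcomplex) (A' : ℕ →o Y.Subcomplex),
    (∀ n, A n ≤ (A' n).preimage f) → (⨆ n, A n = ⊤) → (⨆ n, A' n = ⊤) →
    (∀ (n : ℕ) (g : (A n : SSet.{0}) ⟶ A' n), g ≫ (A' n).ι = (A n).ι ≫ f → P g) → P f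

/-- (C5) skeletal induction: a class of simplicial sets over `B` containing all simplices and
closed under isomorphism, coproducts, pushouts along monomorphisms and sequential unions
contains everything. -/
def SK_IND_Stmt : Prop :=
  ∀ (B : SSet.{0}) (C : ∀ X : SSet.{0}, (X ⟶ B) → Prop),
    (∀ (X Y : SSet.{0}) (e : X ≅ Y) (f : Y ⟶ B), C X (e.hom ≫ f) → C Y f) →
    (∀ (n : ℕ) (b : Δ[n] ⟶ B), C Δ[n] b) →
    (∀ (J : Type) (X : J → SSet.{0}) (f : ∀ j, X j ⟶ B), (∀ j, C (X j) (f j)) →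
      C (∐ X) (Limits.Sigma.desc f)) →
    (∀ (A X Y Z : SSet.{0}) (i : A ⟶ X) (g : A ⟶ Y) (i' : X ⟶ Z) (g' : Y ⟶ Z) (f : Z ⟶ B),
      IsPushout i g i' g' → Mono i → C A (i ≫ i' ≫ f) → C X (i' ≫ f) → C Y (g' ≫ f) → C Z f) →
    (∀ (F : ℕ ⥤ SSet.{0}) (c : Cocone F) (f : c.pt ⟶ B), IsColimit c →
      (∀ n : ℕ, Mono (F.map (homOfLE (Nat.le_succ n)))) →
      (∀ n : ℕ, C (F.obj n) (c.ι.app n ≫ f)) → C c.pt f) →
    ∀ (X : SSet.{0}) (f : X ⟶ B), C X f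

/-- (C6) products. -/
def WC_PROD_Stmt : Prop :=
  ∀ P : MorphismProperty SSet.{0}, WClass P → ∀ (X Y K : SSet.{0}) (f : X ⟶ Y), P f →
    P (f ▷ K) ∧ P (K ◁ f)

/-- (C7) pushout products of subcomplexes. -/
def WC_PP_Stmt : Prop :=
  ∀ P : MorphismProperty SSet.{0}, WClass P →
    ∀ (X Y : SSet.{0}) (A : X.Subcomplex) (B : Y.Subcomplex),
      P A.ι → P (A.unionProd B).ι

/-- (C8) horn inclusions. -/
def WC_HORN_Stmt : Prop :=
  ∀ P : MorphismProperty SSet.{0}, WClass P → ∀ (n : ℕ) (i : Fin (n + 2)),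
    P (Λ[n + 1, i] : (Δ[n + 1] : SSet.{0}).Subcomplex).ι

/-- (C9) the fibre lemma. -/
def WC_FIB_Stmt : Prop :=
  ∀ P : MorphismProperty SSet.{0}, WClass P → ∀ (E B : SSet.{0}) (p : E ⟶ B),
    (∀ (n : ℕ) (b : Δ[n] ⟶ B), P (pullback.snd p b)) → P p

/-- (C10) the diagonal lemma. -/
def WC_DIAG_Stmt : Prop :=
  ∀ P : MorphismProperty SSet.{0}, WClass P → ∀ (X Y : SimplicialObject SSet.{0}) (f : X ⟶ Y),
    (∀ p : SimplexCategoryᵒᵖ, P (f.app p)) → P (diagF.map f)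

/-- (C11) acyclic factors. -/
def WC_ACY_Stmt : Prop :=
  ∀ P : MorphismProperty SSet.{0}, WClass P → ∀ (F X : SSet.{0}),
    P (CartesianMonoidalCategory.toUnit F) →
      P (CartesianMonoidalCategory.snd F X) ∧ P (CartesianMonoidalCategory.fst X F)

/-- (C12) cell form of the fibre lemma (helper44): over the interior of every nondegenerate
simplex `b` the map `p` is (bijectively) given by `q : E' ⟶ Δ[n]`. -/
def WC_CELL_Stmt : Prop :=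
  ∀ P : MorphismProperty SSet.{0}, WClass P → ∀ (E B : SSet.{0}) (p : E ⟶ B),
    (∀ (n : ℕ) (b : B _⦋n⦌), b ∈ B.nonDegenerate n →
      ∃ (E' : SSet.{0}) (q : E' ⟶ Δ[n]) (φ : E' ⟶ E),
        P q ∧ P ((∂Δ[n] : (Δ[n] : SSet.{0}).Subcomplex).fromPreimage q) ∧
        φ ≫ p = q ≫ yonedaEquiv.symm b ∧
        ∀ (m : ℕ) (a : ⦋m⦌ ⟶ ⦋n⦌), Epi a → ∀ e : E _⦋m⦌, p.app _ e = B.map a.op b →
          ∃! e' : E' _⦋m⦌, φ.app _ e' = e ∧ q.app _ e' = stdSimplex.objEquiv.symm a) →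
    P p

/-- (C13) open fibres (helper44). -/
def WC_OPEN_Stmt : Prop :=
  ∀ P : MorphismProperty SSet.{0}, WClass P → ∀ (E B : SSet.{0}) (p : E ⟶ B),
    (∀ (n : ℕ) (b : B _⦋n⦌), b ∈ B.nonDegenerate n →
      ∃ (F : SSet.{0}) (φ : F ⊗ Δ[n] ⟶ E),
        P (CartesianMonoidalCategory.toUnit F) ∧
        φ ≫ p = CartesianMonoidalCategory.snd F Δ[n] ≫ yonedaEquiv.symm b ∧
        ∀ (m : ℕ) (a : ⦋m⦌ ⟶ ⦋n⦌), Epi a → ∀ e : E _⦋m⦌, p.app _ e = B.map a.op b →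
          ∃! f : F _⦋m⦌, φ.app (op ⦋m⦌) (f, stdSimplex.objEquiv.symm a) = e) →
    P p

/-- (C14) increasing unions of acyclic subcomplexes are acyclic. -/
def WC_UACY_Stmt : Prop :=
  ∀ P : MorphismProperty SSet.{0}, WClass P → ∀ (X : SSet.{0}) (A : ℕ →o X.Subcomplex),
    (⨆ n, A n = ⊤) → (∀ n : ℕ, P (CartesianMonoidalCategory.toUnit (A n : SSet.{0}))) →
    P (CartesianMonoidalCategory.toUnit X)

/-- (C15) a map `p : E ⟶ B` onto a discrete simplicial set (all operators bijective) whose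
fibres are acyclic (fibres in the form of isomorphic copies `F j`, one for each vertex). -/
def WC_DISC_Stmt : Prop :=
  ∀ P : MorphismProperty SSet.{0}, WClass P → ∀ (E B : SSet.{0}) (p : E ⟶ B),
    (∀ (m n : SimplexCategoryᵒᵖ) (a : m ⟶ n), Function.Bijective (B.map a)) →
    (∀ b : B _⦋0⦌, ∃ (F : SSet.{0}) (φ : F ⟶ E),
      P (CartesianMonoidalCategory.toUnit F) ∧
      (∀ m : ℕ, Function.Injective (φ.app (op ⦋m⦌))) ∧
      (∀ (m : ℕ) (e : E _⦋m⦌), e ∈ Set.range (φ.app (op ⦋m⦌)) ↔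
        ∀ v : ⦋0⦌ ⟶ ⦋m⦌, B.map v.op (p.app _ e) = b)) →
    P p

/-! ## Homology isomorphisms -/

/-- (F1) `F_2`-homology isomorphisms form a `WClass`. -/
def F2_WC_Stmt : Prop := WClass F2Iso

/-- (F2) `F_2`-homology isomorphisms are in `W T` if `T` has the extension property for
monomorphisms which are `F_2`-homology isomorphisms. -/
def TE_F2_Stmt : Prop :=
  ∀ (T : SSet.{0}),
    (∀ (A B : SSet.{0}) (i : A ⟶ B), Mono i → F2Iso i → ∀ u : A ⟶ T, ∃ v : B ⟶ T, i ≫ v = u) →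
    SSet.KanComplex T ∧ ∀ (X Y : SSet.{0}) (f : X ⟶ Y), F2Iso f → W T f

/-- (F3) `F_2`-acyclicity in Moore form (helper44): every Moore cycle is a Moore boundary. -/
def F2_MOORE_Stmt : Prop :=
  ∀ (X : SSet.{0}), Nonempty (X _⦋0⦌) →
    (∀ z : X _⦋0⦌ →₀ ZMod 2, z.sum (fun _ a => a) = 0 →
      ∃ w : X _⦋1⦌ →₀ ZMod 2, w.mapDomain (X.δ 0) = z ∧ w.mapDomain (X.δ 1) = 0) →
    (∀ (n : ℕ) (z : X _⦋n + 1⦌ →₀ ZMod 2), (∀ i : Fin (n + 2), z.mapDomain (X.δ i) = 0) →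
      ∃ w : X _⦋n + 2⦌ →₀ ZMod 2, w.mapDomain (X.δ 0) = z ∧
        ∀ i : Fin (n + 3), i ≠ 0 → w.mapDomain (X.δ i) = 0) →
    F2Iso (CartesianMonoidalCategory.toUnit X)

end Pool.Agent.SH
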