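import Pool.Agent.SH.StmtsII
import Pool.Agent.SH.StmtsTE
import Pool.Agent.SH.StmtsN
import Pool.Agent.SH.N.N3

/-!
# MP_2d0b73_an: assembly of part III
-/

set_option autoImplicit false

open CategoryTheory MonoidalCategory CartesianMonoidalCategory Simplicial Opposite

namespace Pool.Agent.SH

/-- What the block III-T delivers. -/
def Stmt_TT : Prop := ∀ M : ℕ, 3 ≤ M → ∃ (T : SSet.{0}) (e : NP (P0 M) ⟶ T),
  (∀ (A B : SSet.{0}) (i : A ⟶ B), Mono i → F2Iso i → ∀ u : A ⟶ T, ∃ v : B ⟶ T, i ≫ v = u) ∧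
  TCompact T ∧ BInput (W T) ∧ ¬ Null e

theorem mono_vert {X : SSet.{0}} (x : X _⦋0⦌) : Mono (vert x) :=
  SSet.stdSimplex.isTerminalObj₀.mono_from _

theorem tacyclic_of_W {T X : SSet.{0}} (hK : SSet.KanComplex T) (h3 : TE_KEY_Stmt)
    (hW : WClass (W T)) (x : X _⦋0⦌) (hX : W T (toUnit X)) : TAcyclic T X := by
  have h1 : IsIso (vert x ≫ toUnit X) := by
    have e : vert x ≫ toUnit X = toUnit Δ[0] := toUnit_unique _ _
    rw [e]
    exact Limits.isIso_of_isTerminal SSet.stdSimplex.isTerminalObj₀ isTerminalTensorUnit _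
  have h2 : W T (vert x) := hW.cancelR _ _ hX (hW.iso _ h1)
  have := mono_vert x
  have h4 := h3 T hK _ _ (vert x) (mono_vert x) h2
  refine ⟨x, mono_vert x, ?_⟩
  intro n u v huv
  exact h4 _ _ (∂Δ[n] : (Δ[n] : SSet.{0}).Subcomplex).ι u v huv

theorem ASM3 (h1 : TE_F2_Stmt) (h2 : TE_WT_Stmt) (h3 : TE_KEY_Stmt) (h4 : N_MAIN_Stmt)
    (h5 : Stmt_TT) : Stmt_PARTIII := by
  intro M hM
  obtain ⟨T, e, hL, hC, hB, he⟩ := h5 M hM
  obtain ⟨hK, hF⟩ := h1 T hL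
  have hW := h2 T hK
  have hN : W T (toUnit (NO (LL (Sph 2)))) := h4 (W T) hW hF hB
  have hN' : W T (toUnit (NP (LL (Sph 2)))) := by
    have e1 : (NOnerve (LL (Sph 2))).hom ≫ toUnit (NP (LL (Sph 2))) =
        toUnit (NO (LL (Sph 2))) := toUnit_unique _ _
    have e2 : IsIso (NOnerve (LL (Sph 2))).hom := inferInstance
    exact hW.cancelL _ _ (hW.iso _ e2) (e1 ▸ hN)
  refine ⟨T, e, hK, hC, ?_, he⟩
  exact tacyclic_of_W hK h3 hW ((NOnerve (LL (Sph 2))).hom.app _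
    (OrderHom.const _ (LL.one (0 : Sph 2)))) hN'

end Pool.Agent.SH
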