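import Pool.Agent.SH.StmtsT

noncomputable section

namespace Pool.Agent.SH

open CategoryTheory Simplicial MonoidalCategory Limits Opposite

namespace BRIDGE

theorem nmap_comp {P Q R : Type} [PartialOrder P] [PartialOrder Q] [PartialOrder R]
    (g : Q →o R) (f : P →o Q) : NMap (g.comp f) = NMap f ≫ NMap g := rfl

theorem nmap_id {P : Type} [PartialOrder P] : NMap (OrderHom.id : P →o P) = 𝟙 (NP P) := rfl

def postH {X Y Z : SSet.{0}} {f g : X ⟶ Y} (H : SSet.Homotopy f g) (e : Y ⟶ Z) :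
    SSet.Homotopy (f ≫ e) (g ≫ e) where
  h := H.h ≫ e
  h₀ := by
    rw [← Category.assoc, SSet.Homotopy.h₀]
    rfl
  h₁ := by
    rw [← Category.assoc, SSet.Homotopy.h₁]
    rfl
  rel := by
    ext n ⟨⟨_, h⟩, _⟩
    exact absurd h (fun h => h)

theorem null_of_le (h1 : Stmt_LTG) (h2 : Stmt_LTL) {T : SSet.{0}} [SSet.KanComplex T] {Q : Type}
    [PartialOrder Q] (e : NP Q ⟶ T) {P : Type} [PartialOrder P] (g g' : P →o Q)
    (h : g ≤ g' ∨ g' ≤ g) (hn : Null (NMap g' ≫ e)) : Null (NMap g ≫ e) := by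
  have hK : SSet.KanComplex T := inferInstance
  rcases h with h | h
  · obtain ⟨H, -⟩ := h1 P Q g g' h
    refine h2 _ T (NMap g' ≫ e) (NMap g ≫ e) hK (Or.inr ⟨?_⟩) hn
    exact postH H e
  · obtain ⟨H, -⟩ := h1 P Q g' g h
    refine h2 _ T (NMap g' ≫ e) (NMap g ≫ e) hK (Or.inl ⟨?_⟩) hn
    exact postH H e

end BRIDGE

theorem BRIDGE (h1 : Stmt_LTG) (h2 : Stmt_LTL) (h3 : Stmt_LTM) (h4 : Stmt_LTN) (h5 : Stmt_LTO)
    (h6 : Stmt_LTP) (h7 : Stmt_LTQ) : Stmt_BRIDGE := by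
  intro M L _ T e hK hC hA he
  refine ⟨⟨fun P _ g => ¬ Null (NMap g ≫ e), ?_, ?_, ?_, ?_, ?_⟩⟩
  · rw [BRIDGE.nmap_id, Category.id_comp]
    exact he
  · intro P _ _ g g' hgg' hg hg'
    exact hg (BRIDGE.null_of_le h1 h2 e g g' hgg' hg')
  · intro P _ _ g hg hn
    rw [BRIDGE.nmap_comp, Category.assoc] at hn
    exact hg (h3 T (Sd P) P (topHom P) (NMap g ≫ e) hK (fun p => h4 T P p hK) hn)
  · intro P _ _ g F hF hgF hn
    exact hn (h7 T M e P g F hK hF hgF)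
  · intro P _ _ g D f Λ₀ hD hf hg
    by_contra hcon
    push Not at hcon
    apply hg
    have h8 : ∀ Λ : Finset L, Λ₀ ⊆ Λ → Null (NMap (StepF.pr D f Λ) ≫ NMap g ≫ e) := by
      intro Λ hΛ
      have := hcon Λ hΛ
      rw [BRIDGE.nmap_comp, Category.assoc] at this
      exact this
    have h9 := h6 T P L D f (NMap g ≫ e) Λ₀ hK hC h8
    exact h3 T (StepP D f) P (StepP.pr D f) (NMap g ≫ e) hK
      (fun p => h5 T P L D f p hK hA hD hf) h9

end Pool.Agent.SH
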