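import Pool.Agent.SH.StmtsI

/-!
# Realizations of finite posets are neighbourhood retracts
-/

set_option autoImplicit false

open Set Topology

namespace Pool.Agent.SH

open Classical in
/-- The maximum over incomparable pairs of the smaller coordinate. -/
noncomputable def mmx {P : Type} [PartialOrder P] (Q : Finset P) (p : P → ℝ) : NNReal :=
  (Q ×ˢ Q).sup fun ab => if ab.1 ≤ ab.2 ∨ ab.2 ≤ ab.1 then 0 else Real.toNNReal (min (p ab.1) (p ab.2))

theorem continuous_mmx {P : Type} [PartialOrder P] (Q : Finset P) :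
    Continuous (mmx Q) := by
  classical
  unfold mmx
  refine Continuous.finset_sup_apply ?_
  intro ab _
  by_cases h : ab.1 ≤ ab.2 ∨ ab.2 ≤ ab.1
  · simp only [h, if_true]
    exact continuous_const
  · simp only [h, if_false]
    exact continuous_real_toNNReal.comp ((continuous_apply _).min (continuous_apply _))

theorem min_le_mmx {P : Type} [PartialOrder P] {Q : Finset P} {p : P → ℝ} {a b : P} (ha : a ∈ Q)
    (hb : b ∈ Q) (h : ¬ (a ≤ b ∨ b ≤ a)) : min (p a) (p b) ≤ mmx Q p := by
  classical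
  have h1 : Real.toNNReal (min (p a) (p b)) ≤ mmx Q p := by
    unfold mmx
    have := Finset.le_sup (f := fun ab : P × P => if ab.1 ≤ ab.2 ∨ ab.2 ≤ ab.1 then 0 else
      Real.toNNReal (min (p ab.1) (p ab.2))) (b := (a, b)) (Finset.mk_mem_product ha hb)
    simpa only [h, if_false] using this
  exact (Real.le_coe_toNNReal _).trans (NNReal.coe_le_coe.2 h1)

theorem mmx_lt {P : Type} [PartialOrder P] {Q : Finset P} {p : P → ℝ} {ε : ℝ} (hε : 0 < ε)
    (h : ∀ a ∈ Q, ∀ b ∈ Q, ¬ (a ≤ b ∨ b ≤ a) → min (p a) (p b) < ε) : (mmx Q p : ℝ) < ε := by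
  classical
  have h1 : mmx Q p < Real.toNNReal ε := by
    unfold mmx
    rw [Finset.sup_lt_iff (by simpa using hε)]
    rintro ⟨a, b⟩ hab
    rw [Finset.mem_product] at hab
    by_cases hc : a ≤ b ∨ b ≤ a
    · simp only [hc, if_true]
      simpa using hε
    · simp only [hc, if_false]
      exact (Real.toNNReal_lt_toNNReal_iff hε).2 (h a hab.1 b hab.2 hc)
  have := NNReal.coe_lt_coe.2 h1
  rwa [Real.coe_toNNReal _ hε.le] at this

theorem mmx_eq_zero {P : Type} [PartialOrder P] {Q : Finset P} {p : P → ℝ} (h : p ∈ Rz Q) :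
    mmx Q p = 0 := by
  have : ∀ ε : ℝ, 0 < ε → (mmx Q p : ℝ) < ε := by
    intro ε hε
    refine mmx_lt hε ?_
    intro a _ b _ hab
    obtain ⟨h0, _, _, hc⟩ := h
    by_cases ha : p a = 0
    · exact lt_of_le_of_lt (min_le_left _ _) (ha ▸ hε)
    · by_cases hb : p b = 0
      · exact lt_of_le_of_lt (min_le_right _ _) (hb ▸ hε)
      · exact absurd (hc a b ha hb) hab
  by_contra hne
  have hpos : (0 : ℝ) < mmx Q p := lt_of_le_of_ne NNReal.zero_le_coe
    (fun h => hne (NNReal.coe_eq_zero.1 h.symm))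
  exact lt_irrefl _ (this _ hpos)

/-- The sum of the truncated coordinates. -/
noncomputable def ssx {P : Type} [PartialOrder P] (Q : Finset P) (p : P → ℝ) : ℝ :=
  ∑ b ∈ Q, max (p b - mmx Q p) 0

theorem continuous_ssx {P : Type} [PartialOrder P] (Q : Finset P) :
    Continuous (ssx Q) := by
  unfold ssx
  refine continuous_finsetSum _ ?_
  intro b _
  exact ((continuous_apply b).sub (NNReal.continuous_coe.comp (continuous_mmx Q))).max
    continuous_const

open Classical in
/-- The retraction. -/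
noncomputable def rrx {P : Type} [PartialOrder P] (Q : Finset P) (p : P → ℝ) (a : P) : ℝ :=
  if a ∈ Q then max (p a - mmx Q p) 0 / ssx Q p else 0

theorem ssx_close {P : Type} [PartialOrder P] {Q : Finset P} {p p' : P → ℝ} {η : ℝ} (hη : 0 < η)
    (hp' : p' ∈ Rz Q) (h : ∀ a ∈ Q, |p a - p' a| < η) : (mmx Q p : ℝ) < η ∧
    (∀ a ∈ Q, |max (p a - mmx Q p) 0 - p' a| ≤ 2 * η) ∧ |ssx Q p - 1| ≤ Q.card * (2 * η) := by
  have h1 : (mmx Q p : ℝ) < η := by
    refine mmx_lt hη ?_
    intro a ha b hb hab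
    by_cases ha' : p' a = 0
    · have := h a ha
      rw [ha', sub_zero] at this
      exact lt_of_le_of_lt (min_le_left _ _) (abs_lt.1 this).2
    · by_cases hb' : p' b = 0
      · have := h b hb
        rw [hb', sub_zero] at this
        exact lt_of_le_of_lt (min_le_right _ _) (abs_lt.1 this).2
      · exact absurd (hp'.2.2.2 a b ha' hb') hab
  have h2 : ∀ a ∈ Q, |max (p a - mmx Q p) 0 - p' a| ≤ 2 * η := by
    intro a ha
    have h3 := abs_lt.1 (h a ha)
    have h4 : (0 : ℝ) ≤ mmx Q p := NNReal.zero_le_coe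
    have h5 := hp'.1 a
    rw [abs_le]
    constructor
    · have := le_max_left (p a - mmx Q p) 0
      linarith
    · have : max (p a - mmx Q p) 0 ≤ p' a + 2 * η := max_le (by linarith) (by linarith)
      linarith
  refine ⟨h1, h2, ?_⟩
  have h3 : ssx Q p - 1 = ∑ b ∈ Q, (max (p b - mmx Q p) 0 - p' b) := by
    unfold ssx
    rw [Finset.sum_sub_distrib, hp'.2.2.1]
  rw [h3]
  refine (Finset.abs_sum_le_sum_abs _ _).trans ?_
  refine (Finset.sum_le_card_nsmul _ _ (2 * η) h2).trans ?_
  rw [nsmul_eq_mul]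

theorem RET : Stmt_RET := by
  intro P _ Q
  classical
  have hq : (0 : ℝ) < (Q.card : ℝ) + 1 := by positivity
  refine ⟨1 / (4 * (Q.card + 1)), by positivity, rrx Q, ?_, ?_, ?_, ?_⟩
  · have hS : ∀ p ∈ NB Q (1 / (4 * ((Q.card : ℝ) + 1))), ssx Q p ≠ 0 := by
      rintro p ⟨p', hp', h⟩
      have := (ssx_close (by positivity) hp' h).2.2
      have h2 : (Q.card : ℝ) * (2 * (1 / (4 * ((Q.card : ℝ) + 1)))) ≤ 1 / 2 := by
        rw [show (Q.card : ℝ) * (2 * (1 / (4 * ((Q.card : ℝ) + 1)))) =
          (Q.card : ℝ) / (2 * ((Q.card : ℝ) + 1)) by field_simp; ring]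
        rw [div_le_div_iff₀ (by positivity) (by norm_num)]
        linarith
      have h3 := abs_le.1 this
      intro h0
      rw [h0] at h3
      linarith [h3.1]
    rw [continuousOn_pi]
    intro a
    unfold rrx
    by_cases ha : a ∈ Q
    · simp only [ha, if_true]
      refine ContinuousOn.div ?_ (continuous_ssx Q).continuousOn hS
      exact (((continuous_apply a).sub (NNReal.continuous_coe.comp (continuous_mmx Q))).max
        continuous_const).continuousOn
    · simp only [ha, if_false]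
      exact continuousOn_const
  · rintro p ⟨p', hp', h⟩
    have h1 := (ssx_close (by positivity) hp' h).2.2
    have h2 : (Q.card : ℝ) * (2 * (1 / (4 * ((Q.card : ℝ) + 1)))) ≤ 1 / 2 := by
      rw [show (Q.card : ℝ) * (2 * (1 / (4 * ((Q.card : ℝ) + 1)))) =
        (Q.card : ℝ) / (2 * ((Q.card : ℝ) + 1)) by field_simp; ring]
      rw [div_le_div_iff₀ (by positivity) (by norm_num)]
      linarith
    have h3 := abs_le.1 h1
    have hS : 0 < ssx Q p := by linarith [h3.1]
    refine ⟨?_, ?_, ?_, ?_⟩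
    · intro a
      unfold rrx
      split_ifs
      · exact div_nonneg (le_max_right _ _) hS.le
      · exact le_refl _
    · intro a ha
      unfold rrx
      rw [if_neg ha]
    · have : ∑ a ∈ Q, rrx Q p a = ∑ a ∈ Q, max (p a - mmx Q p) 0 / ssx Q p :=
        Finset.sum_congr rfl fun a ha => by unfold rrx; rw [if_pos ha]
      rw [this, ← Finset.sum_div]
      exact div_self hS.ne'
    · intro a b ha hb
      have key : ∀ a, rrx Q p a ≠ 0 → a ∈ Q ∧ (mmx Q p : ℝ) < p a := by
        intro a ha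
        unfold rrx at ha
        split_ifs at ha with haQ
        · refine ⟨haQ, ?_⟩
          by_contra hle
          apply ha
          rw [max_eq_right (by linarith), zero_div]
        · exact absurd rfl ha
      by_contra hab
      have := min_le_mmx (p := p) (key a ha).1 (key b hb).1 hab
      exact absurd (lt_min (key a ha).2 (key b hb).2) (not_lt.2 this)
  · intro p hp
    have h0 := mmx_eq_zero hp
    have hS : ssx Q p = 1 := by
      unfold ssx
      rw [h0]
      rw [← hp.2.2.1]
      refine Finset.sum_congr rfl fun b _ => ?_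
      rw [NNReal.coe_zero, sub_zero, max_eq_left (hp.1 b)]
    ext a
    unfold rrx
    split_ifs with ha
    · rw [hS, h0, NNReal.coe_zero, sub_zero, max_eq_left (hp.1 a), div_one]
    · exact (hp.2.1 a ha).symm
  · intro δ hδ
    refine ⟨min (1 / (4 * ((Q.card : ℝ) + 1))) (δ / (8 * ((Q.card : ℝ) + 1))),
      lt_min (by positivity) (by positivity), min_le_left _ _, ?_⟩
    intro p p' hp' h a ha
    set η := min (1 / (4 * ((Q.card : ℝ) + 1))) (δ / (8 * ((Q.card : ℝ) + 1))) with hη
    have hη0 : 0 < η := lt_min (by positivity) (by positivity)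
    obtain ⟨_, h2, h3⟩ := ssx_close hη0 hp' h
    have e1 : η * (4 * ((Q.card : ℝ) + 1)) ≤ 1 := by
      have := min_le_left (1 / (4 * ((Q.card : ℝ) + 1))) (δ / (8 * ((Q.card : ℝ) + 1)))
      rw [← hη] at this
      calc η * (4 * ((Q.card : ℝ) + 1)) ≤ 1 / (4 * ((Q.card : ℝ) + 1)) * (4 * ((Q.card : ℝ) + 1)) :=
            mul_le_mul_of_nonneg_right this (by positivity)
        _ = 1 := by field_simp
    have e2 : η * (8 * ((Q.card : ℝ) + 1)) ≤ δ := by
      have := min_le_right (1 / (4 * ((Q.card : ℝ) + 1))) (δ / (8 * ((Q.card : ℝ) + 1)))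
      rw [← hη] at this
      calc η * (8 * ((Q.card : ℝ) + 1)) ≤ δ / (8 * ((Q.card : ℝ) + 1)) * (8 * ((Q.card : ℝ) + 1)) :=
            mul_le_mul_of_nonneg_right this (by positivity)
        _ = δ := by field_simp
    have e3 := abs_le.1 h3
    have hS : 1 / 2 ≤ ssx Q p := by nlinarith [e3.1]
    have hS0 : 0 < ssx Q p := by linarith
    have e4 := h2 a ha
    have e5 : p' a ≤ 1 := by
      rw [← hp'.2.2.1]
      exact Finset.single_le_sum (fun i _ => hp'.1 i) ha
    have e6 := hp'.1 a
    have e7 : rrx Q p a - p' a = (max (p a - mmx Q p) 0 - p' a * ssx Q p) / ssx Q p := by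
      unfold rrx
      rw [if_pos ha]
      field_simp
    rw [e7, abs_div, abs_of_pos hS0, div_lt_iff₀ hS0]
    have e8 : max (p a - mmx Q p) 0 - p' a * ssx Q p =
      (max (p a - mmx Q p) 0 - p' a) - p' a * (ssx Q p - 1) := by ring
    rw [e8]
    have e9 : |(max (p a - mmx Q p) 0 - p' a) - p' a * (ssx Q p - 1)| ≤
        2 * η + Q.card * (2 * η) := by
      refine (abs_sub _ _).trans ?_
      rw [abs_mul, abs_of_nonneg e6]
      have := mul_le_mul e5 h3 (abs_nonneg _) zero_le_one
      linarith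
    have e10 : 2 * η + (Q.card : ℝ) * (2 * η) < δ * ssx Q p := by
      have : δ * (1 / 2) ≤ δ * ssx Q p := mul_le_mul_of_nonneg_left hS hδ.le
      have : 2 * η + (Q.card : ℝ) * (2 * η) = (η * (8 * ((Q.card : ℝ) + 1))) / 4 := by ring
      linarith
    linarith

end Pool.Agent.SH
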