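import Pool.Agent.SH.StmtsII
import Pool.Agent.SH.RET
import Pool.Agent.SH.ANE

/-!
# Maps into realisations: extension to a neighbourhood, homotopy extension
-/

set_option autoImplicit false

noncomputable section

open Set Topology

namespace Pool.Agent.SH

theorem GAN : Stmt_GAN := by
  intro L _ X _ _ _ A Q f hA hf hfQ
  obtain ⟨ε, hε, r, hrc, hrQ, hrid, _⟩ := RET L Q
  obtain ⟨F, hF, hFf⟩ := tietze hA hf
  refine ⟨F ⁻¹' NB Q ε, fun x => r (F x), (isOpen_NB Q ε).preimage hF, ?_, ?_, ?_, ?_⟩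
  · intro a ha
    rw [mem_preimage, hFf a ha]
    exact Rz_subset_NB Q hε (hfQ a ha)
  · exact hrc.comp hF.continuousOn (fun x hx => hx)
  · intro x hx
    exact hrQ _ hx
  · intro a ha
    show r (F a) = f a
    rw [hFf a ha]
    exact hrid _ (hfQ a ha)

theorem GBO : Stmt_GBO := by
  intro L _ X _ _ _ A Q f G hA hf hG hfQ hGQ hsupp
  have hE : Stmt_HEP := HEP RET
  let H : X × Set.Icc (0 : ℝ) 1 → L → ℝ := fun z l =>
    (1 - (z.2 : ℝ)) * f z.1 l + (z.2 : ℝ) * G z.1 l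
  have k1 : ContinuousOn H (A ×ˢ univ) := by
    have h1 : ContinuousOn (fun z : X × Set.Icc (0 : ℝ) 1 => f z.1) (A ×ˢ univ) :=
      hf.comp continuous_fst.continuousOn (fun z hz => hz.1)
    have h2 : ContinuousOn (fun z : X × Set.Icc (0 : ℝ) 1 => G z.1) (A ×ˢ univ) :=
      (hG.comp continuous_fst).continuousOn
    have h3 : ContinuousOn (fun z : X × Set.Icc (0 : ℝ) 1 => (z.2 : ℝ)) (A ×ˢ univ) :=
      (continuous_subtype_val.comp continuous_snd).continuousOn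
    rw [continuousOn_pi] at h1 h2 ⊢
    intro l
    exact ((continuousOn_const.sub h3).mul (h1 l)).add (h3.mul (h2 l))
  have k2 : ∀ z ∈ A ×ˢ (univ : Set (Set.Icc (0 : ℝ) 1)), H z ∈ Rz Q := by
    rintro ⟨z, t⟩ hz
    have hzA : z ∈ A := hz.1
    obtain ⟨f1, f2, f3, f4⟩ := hfQ z hzA
    obtain ⟨g1, g2, g3, _⟩ := hGQ z
    have ht0 : 0 ≤ (t : ℝ) := t.2.1
    have ht1 : 0 ≤ 1 - (t : ℝ) := sub_nonneg.2 t.2.2
    have hne : ∀ l, H (z, t) l ≠ 0 → f z l ≠ 0 := by
      intro l hl hfl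
      apply hl
      have hGl : G z l = 0 := by
        by_contra h
        exact hsupp z hzA l h hfl
      show (1 - (t : ℝ)) * f z l + (t : ℝ) * G z l = 0
      rw [hfl, hGl]
      ring
    refine ⟨fun l => ?_, fun l hl => ?_, ?_, fun a b ha hb => f4 a b (hne a ha) (hne b hb)⟩
    · exact add_nonneg (mul_nonneg ht1 (f1 l)) (mul_nonneg ht0 (g1 l))
    · show (1 - (t : ℝ)) * f z l + (t : ℝ) * G z l = 0
      rw [f2 l hl, g2 l hl]
      ring
    · show ∑ l ∈ Q, ((1 - (t : ℝ)) * f z l + (t : ℝ) * G z l) = 1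
      rw [Finset.sum_add_distrib, ← Finset.mul_sum, ← Finset.mul_sum, f3, g3]
      ring
  have k3 : ∀ z ∈ A, G z = H (z, 1) := by
    intro z _
    funext l
    show G z l = (1 - (1 : ℝ)) * f z l + (1 : ℝ) * G z l
    ring
  obtain ⟨g', hg', hgQ, hgf⟩ := hE X L Q A H G hA k1 k2 hG hGQ k3
  refine ⟨g', hg', hgQ, fun a ha => ?_⟩
  rw [hgf a ha]
  funext l
  show (1 - (0 : ℝ)) * f a l + (0 : ℝ) * G a l = f a l
  ring

end Pool.Agent.SH
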