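import Pool.Agent.SH.DefsII

/-!
# MP_2d0b73_an, PART II: statements of the combinatorial and geometric modules (helper38)
-/

noncomputable section

namespace Pool.Agent.SH

open CategoryTheory

/-! ### Maps into realisations -/

/-- GAN: maps into `Rz Q` extend to a neighbourhood. -/
def Stmt_GAN : Prop :=
  ∀ (L : Type) [PartialOrder L] (X : Type) [TopologicalSpace X] [CompactSpace X]
    [TopologicalSpace.MetrizableSpace X] (A : Set X) (Q : Finset L) (f : X → L → ℝ),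
    IsClosed A → ContinuousOn f A → (∀ a ∈ A, f a ∈ Rz Q) →
    ∃ (W : Set X) (F : X → L → ℝ), IsOpen W ∧ A ⊆ W ∧ ContinuousOn F W ∧
      (∀ x ∈ W, F x ∈ Rz Q) ∧ ∀ a ∈ A, F a = f a

/-- GBO: Borsuk's homotopy extension, in the form used: if `G : X → Rz Q` and `f : A → Rz Q`
have for each `a ∈ A` supports contained in a common chain, then `f` extends to `X`. -/
def Stmt_GBO : Prop :=
  ∀ (L : Type) [PartialOrder L] (X : Type) [TopologicalSpace X] [CompactSpace X]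
    [TopologicalSpace.MetrizableSpace X] (A : Set X) (Q : Finset L) (f G : X → L → ℝ),
    IsClosed A → ContinuousOn f A → Continuous G → (∀ a ∈ A, f a ∈ Rz Q) →
    (∀ x, G x ∈ Rz Q) → (∀ a ∈ A, ∀ l, G a l ≠ 0 → f a l ≠ 0) →
    ∃ F : X → L → ℝ, Continuous F ∧ (∀ x, F x ∈ Rz Q) ∧ ∀ a ∈ A, F a = f a

/-! ### Stage maps -/

/-- GLI: `lin geo` maps `Pol P'` to `Pol P`, does not increase the `l¹` distance and its support
is the chain `c` of the largest element of the support. -/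
def Stmt_GLI : Prop :=
  ∀ (P' P : Type) [PartialOrder P'] [PartialOrder P] [Fintype P'] [Fintype P] (s : SM P' P),
    (∀ w ∈ Pol P', lin s.geo w ∈ Pol P) ∧
    (∀ v w : P' → ℝ, ∑ p, |lin s.geo v p - lin s.geo w p| ≤ ∑ p', |v p' - w p'|) ∧
    (∀ w ∈ Pol P', ∀ q, w q ≠ 0 → (∀ q', w q' ≠ 0 → q' ≤ q) →
      ∀ p, lin s.geo w p ≠ 0 ↔ p ∈ (s.c q).c)

/-- GSD: the barycentric subdivision as a stage map. -/
def Stmt_GSD : Prop :=
  ∀ (P : Type) [PartialOrder P] [Fintype P],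
    ∃ s : SM (Sd P) P, s.c = OrderHom.id ∧
      (∀ (σ : Sd P) (p : P), p ∈ σ.c → s.geo σ p = 1 / (σ.c.card : ℝ))

/-- GCO: composition of stage maps; its mesh is at most the mesh of each of the two. -/
def Stmt_GCO : Prop :=
  ∀ (P'' P' P : Type) [PartialOrder P''] [PartialOrder P'] [PartialOrder P]
    [Fintype P''] [Fintype P'] [Fintype P] (s' : SM P'' P') (s : SM P' P),
    ∃ t : SM P'' P, t.h = s.h.comp s'.h ∧ (∀ p'', t.geo p'' = lin s.geo (s'.geo p'')) ∧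
      (∀ ε, s'.MeshLE ε → t.MeshLE ε) ∧ (∀ ε, 0 ≤ ε → s.MeshLE ε → t.MeshLE ε)

/-- GME: one barycentric subdivision reduces the oscillation of affine maps, and does not increase
the lengths of chains. -/
def Stmt_GME : Prop :=
  ∀ (P : Type) [PartialOrder P] [Fintype P] (N : ℕ) (s : SM (Sd P) P),
    s.c = OrderHom.id →
    (∀ (σ : Sd P) (p : P), p ∈ σ.c → s.geo σ p = 1 / (σ.c.card : ℝ)) →
    (∀ σ : Sd P, σ.c.card ≤ N) →
    (∀ S : Sd (Sd P), S.c.card ≤ N) ∧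
    ∀ (V : Type) [Fintype V] (φ : P → V → ℝ) (δ : ℝ), 0 ≤ δ →
      (∀ p q, p ≤ q → ∑ v, |φ p v - φ q v| ≤ δ) →
      ∀ σ τ : Sd P, σ ≤ τ →
        ∑ v, |lin φ (s.geo σ) v - lin φ (s.geo τ) v| ≤ (1 - 1 / (N : ℝ)) * δ

/-- GRF: subdivisions of arbitrarily small mesh keeping essentiality. -/
def Stmt_GRF : Prop :=
  ∀ (M : ℕ) (L : Type) [PartialOrder L] (E : EssAx M L) (P : Type) [PartialOrder P] [Fintype P]
    (g : P →o P0 M) (ε : ℝ), 0 < ε → E.Ess P g →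
    ∃ (P' : Type) (_ : PartialOrder P') (_ : Fintype P') (s : SM P' P),
      s.MeshLE ε ∧ E.Ess P' (g.comp s.h)

/-- GST: the step (over the subdivision of `P`) as a stage map. -/
def Stmt_GST : Prop :=
  ∀ (P L : Type) [PartialOrder P] [PartialOrder L] [Fintype P] (D : Set (Sd P)) (f : Sd P → L)
    (Λ : Finset L) [Fintype (StepF D f Λ)], IsLowerSet D → MonotoneOn f D →
    (∀ σ ∈ D, f σ ∈ Λ) → Λ.Nonempty →
    ∃ s : SM (StepF D f Λ) P, s.c = StepF.pr D f Λ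

/-- GNX: the next stage of the tower. -/
def Stmt_GNX : Prop :=
  ∀ (M : ℕ) (L : Type) [PartialOrder L] [Nonempty L] (E : EssAx M L) (P : Type) [PartialOrder P]
    [Fintype P] (g : P →o P0 M) (D : Set P) (f : P → L) (ε : ℝ), 0 < ε → IsLowerSet D →
    MonotoneOn f D → E.Ess P g →
    ∃ (P' : Type) (_ : PartialOrder P') (_ : Fintype P') (s : SM P' P) (F : P' →o L),
      s.MeshLE ε ∧ E.Ess P' (g.comp s.h) ∧ ∀ p, s.h p ∈ D → F p = f (s.h p)

/-- GTW: the tower. -/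
def Stmt_GTW : Prop :=
  ∀ (M : ℕ) (L : Type) [PartialOrder L] [Nonempty L] [Countable L] (E : EssAx M L),
    ∃ (τ : Tower) (g : τ.P 0 →o P0 M), τ.Fine ∧ τ.Solves L ∧
      ∀ k, E.Ess (τ.P (0 + k)) (g.comp (τ.H 0 k))

/-! ### The inverse limit -/

/-- GLC: the inverse limit is compact and metrizable. -/
def Stmt_GLC : Prop :=
  ∀ τ : Tower, CompactSpace τ.Lim ∧ TopologicalSpace.MetrizableSpace τ.Lim

/-- GLS: the projections of the inverse limit are surjective. -/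
def Stmt_GLS : Prop :=
  ∀ (τ : Tower) (k : ℕ), ∀ w ∈ Pol (τ.P k), ∃ x : τ.Lim, x.1 k = w

/-- GLP: supports. -/
def Stmt_GLP : Prop :=
  ∀ (τ : Tower) (x : τ.Lim) (k : ℕ),
    (∀ p, x.1 (k + 1) p ≠ 0 → ∀ q ∈ ((τ.sm k).c p).c, x.1 k q ≠ 0) ∧
    (∀ (d : ℕ) (p : τ.P (k + d)), x.1 (k + d) p ≠ 0 → x.1 k (τ.H k d p) ≠ 0) ∧
    (∀ (d : ℕ) (p : τ.P (k + d)), x.1 (k + d) p ≠ 0 → (∀ q, x.1 (k + d) q ≠ 0 → q ≤ p) →
      ∀ q, x.1 k q ≠ 0 → q ≤ τ.H k d p)

/-- GLL: stars of late stages are small. -/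
def Stmt_GLL : Prop :=
  ∀ (τ : Tower), τ.Fine → ∀ (ι : Type) (U : ι → Set τ.Lim), (∀ i, IsOpen (U i)) →
    (∀ x, ∃ i, x ∈ U i) →
    ∃ k₀ : ℕ, ∀ k, k₀ ≤ k → ∀ v : τ.P k, ∃ i, ∀ x : τ.Lim, x.1 k v ≠ 0 → x ∈ U i

/-- GLE: the extension property of the limit. -/
def Stmt_GLE : Prop :=
  ∀ (τ : Tower) (L : Type) [PartialOrder L] [Nonempty L], τ.Fine → τ.Solves L → Ext τ.Lim L

/-- GLD: lower bound of the dimension of the limit. -/
def Stmt_GLD : Prop :=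
  ∀ (M : ℕ) (L : Type) [PartialOrder L] (E : EssAx M L) (τ : Tower) (g : τ.P 0 →o P0 M),
    τ.Fine → (∀ k, E.Ess (τ.P (0 + k)) (g.comp (τ.H 0 k))) →
    ∀ (κ : Type) [Finite κ] (V : κ → Set τ.Lim), (∀ j, IsOpen (V j)) → (∀ x, ∃ j, x ∈ V j) →
      (∀ j, ∃ v : τ.P 0, V j ⊆ {x | x.1 0 v ≠ 0}) →
      ∃ x, M < Set.ncard {j | x ∈ V j}

/-! ### The final compactum -/

/-- the space `X` has a finite open cover such that every finite open refinement has order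
`≥ M` (some point is in more than `M` members). -/
def BigCov (X : Type) [TopologicalSpace X] (M : ℕ) : Prop :=
  ∃ (ι : Type) (_ : Finite ι) (U : ι → Set X), (∀ i, IsOpen (U i)) ∧ (∀ x, ∃ i, x ∈ U i) ∧
    ∀ (κ : Type) [Finite κ] (V : κ → Set X), (∀ j, IsOpen (V j)) → (∀ x, ∃ j, x ∈ V j) →
      (∀ j, ∃ i, V j ⊆ U i) → ∃ x, M < Set.ncard {j | x ∈ V j}

/-- GXM: one compactum for each `M`. -/
def Stmt_GXM : Prop :=
  ∀ (M : ℕ) (L : Type) [PartialOrder L] [Nonempty L] [Countable L] (_ : EssAx M L),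
    ∃ (X : Type) (_ : TopologicalSpace X), CompactSpace X ∧ TopologicalSpace.MetrizableSpace X ∧
      Ext X L ∧ BigCov X M

/-- GWE: the one point compactification of the disjoint union. -/
def Stmt_GWE : Prop :=
  ∀ (L : Type) [PartialOrder L] [Nonempty L] (X : ℕ → Type) [∀ M, TopologicalSpace (X M)],
    (∀ M, CompactSpace (X M)) → (∀ M, TopologicalSpace.MetrizableSpace (X M)) →
    (∀ M, Ext (X M) L) → (∀ M, BigCov (X M) M) →
    ∃ (K : Type) (_ : TopologicalSpace K), CompactSpace K ∧ TopologicalSpace.MetrizableSpace K ∧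
      Ext K L ∧ ∀ M, BigCov K M

/-- PARTII: the output of PART II. -/
def Stmt_PARTII : Prop :=
  ∀ (L : Type) [PartialOrder L] [Nonempty L] [Countable L],
    (∀ M, 3 ≤ M → Nonempty (EssAx M L)) →
    ∃ (K : Type) (_ : TopologicalSpace K) (_ : CompactSpace K)
      (_ : TopologicalSpace.MetrizableSpace K), Ext K L ∧ ∀ n, ¬ DimLE K n

/-- PARTIII: what PART III delivers. -/
def Stmt_PARTIII : Prop :=
  ∀ M, 3 ≤ M → ∃ (T : SSet.{0}) (e : NP (P0 M) ⟶ T), SSet.KanComplex T ∧ TCompact T ∧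
    TAcyclic T (NP (LL (Sph 2))) ∧ ¬ Null e

end Pool.Agent.SH
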