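import Mathlib
import Pool.Agent.SH.StmtsII

/-!
# MP_2d0b73_an, PART II: composition of stage maps
-/

namespace Pool.Agent.SH

namespace GCO

variable {P'' P' P : Type} [PartialOrder P''] [PartialOrder P'] [PartialOrder P]
  [Fintype P''] [Fintype P'] [Fintype P]

/-- Vertex images are points of the realisation. -/
theorem geo_mem_Pol (s : SM P' P) (p' : P') : s.geo p' ∈ Pol P := by
  refine ⟨s.geo_nonneg p', fun a ha => absurd (Finset.mem_univ a) ha, s.geo_sum p', ?_⟩
  intro a b ha hb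
  exact (s.c p').chain a ((s.geo_supp p' a).1 ha) b ((s.geo_supp p' b).1 hb)

theorem lin_lin (g' : P'' → P' → ℝ) (g : P' → P → ℝ) (w : P'' → ℝ) :
    lin (fun p'' => lin g (g' p'')) w = lin g (lin g' w) := by
  funext p
  simp only [lin, Finset.mul_sum, Finset.sum_mul]
  rw [Finset.sum_comm]
  refine Finset.sum_congr rfl fun x _ => Finset.sum_congr rfl fun y _ => ?_
  ring

theorem lin_nonneg (g : P' → P → ℝ) (hg : ∀ p' p, 0 ≤ g p' p) (w : P' → ℝ)
    (hw : ∀ p', 0 ≤ w p') (p : P) : 0 ≤ lin g w p :=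
  Finset.sum_nonneg fun x _ => mul_nonneg (hw x) (hg x p)

theorem lin_sum (g : P' → P → ℝ) (hg : ∀ p', ∑ p, g p' p = 1) (w : P' → ℝ) :
    ∑ p, lin g w p = ∑ p', w p' := by
  simp only [lin]
  rw [Finset.sum_comm]
  refine Finset.sum_congr rfl fun x _ => ?_
  rw [← Finset.mul_sum, hg, mul_one]

/-- The composite of two stage maps. -/
noncomputable def comp (h1 : Stmt_GLI) (s' : SM P'' P') (s : SM P' P) : SM P'' P where
  c := s.c.comp s'.h
  geo p'' := lin s.geo (s'.geo p'')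
  geo_nonneg p'' p := lin_nonneg _ s.geo_nonneg _ (s'.geo_nonneg p'') p
  geo_sum p'' := by rw [lin_sum _ s.geo_sum, s'.geo_sum]
  geo_supp p'' p := by
    have h2 := (h1 P' P s).2.2 (s'.geo p'') (geo_mem_Pol s' p'') (s'.c p'').top
      ((s'.geo_supp p'' _).2 (s'.c p'').top_mem)
      (fun q' hq' => (s'.c p'').le_top ((s'.geo_supp p'' q').1 hq')) p
    exact h2
  surj w hw := by
    obtain ⟨w', hw', e'⟩ := s.surj w hw
    obtain ⟨w'', hw'', e''⟩ := s'.surj w' hw'
    refine ⟨w'', hw'', ?_⟩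
    rw [lin_lin, e'', e']

theorem mesh2 (s' : SM P'' P') (s : SM P' P) (ε : ℝ) (hε : 0 ≤ ε) (hs : s.MeshLE ε)
    (p'' q'' : P'') (h : p'' ≤ q'') :
    ∑ p, |lin s.geo (s'.geo p'') p - lin s.geo (s'.geo q'') p| ≤ ε := by
  have key : ∀ p, lin s.geo (s'.geo p'') p - lin s.geo (s'.geo q'') p =
      ∑ x, ∑ y, s'.geo p'' x * s'.geo q'' y * (s.geo x p - s.geo y p) := by
    intro p
    have e1 : ∑ x, ∑ y, s'.geo p'' x * s'.geo q'' y * (s.geo x p - s.geo y p) =
        ∑ x, ∑ y, (s'.geo p'' x * s.geo x p * s'.geo q'' y) -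
          ∑ x, ∑ y, (s'.geo p'' x * (s'.geo q'' y * s.geo y p)) := by
      rw [← Finset.sum_sub_distrib]
      refine Finset.sum_congr rfl fun x _ => ?_
      rw [← Finset.sum_sub_distrib]
      refine Finset.sum_congr rfl fun y _ => ?_
      ring
    rw [e1]
    have e2 : ∑ x, ∑ y, (s'.geo p'' x * s.geo x p * s'.geo q'' y) =
        lin s.geo (s'.geo p'') p := by
      simp only [← Finset.mul_sum, s'.geo_sum, mul_one, lin]
    have e3 : ∑ x, ∑ y, (s'.geo p'' x * (s'.geo q'' y * s.geo y p)) =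
        lin s.geo (s'.geo q'') p := by
      simp only [← Finset.mul_sum, ← Finset.sum_mul, s'.geo_sum, one_mul, lin]
    rw [e2, e3]
  have step : ∀ x y, s'.geo p'' x * s'.geo q'' y * ∑ p, |s.geo x p - s.geo y p| ≤
      s'.geo p'' x * s'.geo q'' y * ε := by
    intro x y
    by_cases hx : s'.geo p'' x = 0
    · simp [hx]
    by_cases hy : s'.geo q'' y = 0
    · simp [hy]
    have hx1 : x ∈ (s'.c q'').c := s'.c.monotone h ((s'.geo_supp p'' x).1 hx)
    have hy1 : y ∈ (s'.c q'').c := (s'.geo_supp q'' y).1 hy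
    refine mul_le_mul_of_nonneg_left ?_ (mul_nonneg (s'.geo_nonneg _ _) (s'.geo_nonneg _ _))
    rcases (s'.c q'').chain x hx1 y hy1 with h3 | h3
    · exact hs x y h3
    · refine le_trans (le_of_eq ?_) (hs y x h3)
      exact Finset.sum_congr rfl fun p _ => abs_sub_comm _ _
  calc ∑ p, |lin s.geo (s'.geo p'') p - lin s.geo (s'.geo q'') p|
      ≤ ∑ p, ∑ x, ∑ y, s'.geo p'' x * s'.geo q'' y * |s.geo x p - s.geo y p| := by
        refine Finset.sum_le_sum fun p _ => ?_
        rw [key p]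
        refine (Finset.abs_sum_le_sum_abs _ _).trans (Finset.sum_le_sum fun x _ => ?_)
        refine (Finset.abs_sum_le_sum_abs _ _).trans (Finset.sum_le_sum fun y _ => ?_)
        rw [abs_mul, abs_of_nonneg (mul_nonneg (s'.geo_nonneg _ _) (s'.geo_nonneg _ _))]
    _ = ∑ x, ∑ y, s'.geo p'' x * s'.geo q'' y * ∑ p, |s.geo x p - s.geo y p| := by
        rw [Finset.sum_comm]
        refine Finset.sum_congr rfl fun x _ => ?_
        rw [Finset.sum_comm]
        refine Finset.sum_congr rfl fun y _ => ?_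
        rw [Finset.mul_sum]
    _ ≤ ∑ x, ∑ y, s'.geo p'' x * s'.geo q'' y * ε :=
        Finset.sum_le_sum fun x _ => Finset.sum_le_sum fun y _ => step x y
    _ = ε := by
        simp only [← Finset.sum_mul, ← Finset.mul_sum, s'.geo_sum, mul_one, one_mul]

end GCO

theorem GCO (h1 : Stmt_GLI) : Stmt_GCO := by
  intro P'' P' P _ _ _ _ _ _ s' s
  refine ⟨GCO.comp h1 s' s, rfl, fun _ => rfl, ?_, ?_⟩
  · intro ε hε p'' q'' h
    exact ((h1 P' P s).2.1 _ _).trans (hε p'' q'' h)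
  · intro ε h0 hε p'' q'' h
    exact GCO.mesh2 s' s ε h0 hε p'' q'' h

end Pool.Agent.SH
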