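import Pool.Agent.SH.StmtsI

/-!
# Topological tools (Tietze, Urysohn, tube lemma, gluing)
-/

set_option autoImplicit false

open Set Topology

namespace Pool.Agent.SH

theorem tietze {Z V : Type} [TopologicalSpace Z] [NormalSpace Z] {C : Set Z} (hC : IsClosed C)
    {f : Z → V → ℝ} (hf : ContinuousOn f C) : ∃ F : Z → V → ℝ, Continuous F ∧ ∀ z ∈ C, F z = f z := by
  obtain ⟨F, hF⟩ := ContinuousMap.exists_restrict_eq hC
    (⟨C.domRestrict f, continuousOn_iff_continuous_domRestrict.1 hf⟩ : C(C, V → ℝ))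
  refine ⟨F, F.continuous, ?_⟩
  intro z hz
  exact DFunLike.congr_fun hF ⟨z, hz⟩

theorem tietzeR {Z : Type} [TopologicalSpace Z] [NormalSpace Z] {C : Set Z} (hC : IsClosed C)
    {f : Z → ℝ} (hf : ContinuousOn f C) : ∃ F : Z → ℝ, Continuous F ∧ ∀ z ∈ C, F z = f z := by
  obtain ⟨F, hF⟩ := ContinuousMap.exists_restrict_eq hC
    (⟨C.domRestrict f, continuousOn_iff_continuous_domRestrict.1 hf⟩ : C(C, ℝ))
  refine ⟨F, F.continuous, ?_⟩
  intro z hz
  exact DFunLike.congr_fun hF ⟨z, hz⟩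

/-- The union of finitely many closed sets: gluing. -/
theorem glue {Z Y ι : Type} [TopologicalSpace Z] [TopologicalSpace Y] [Finite ι]
    (F : ι → Set Z) (hF : ∀ i, IsClosed (F i)) (f : ι → Z → Y) (hf : ∀ i, ContinuousOn (f i) (F i))
    (g : Z → Y)
    (hg : ∀ i, ∀ z ∈ F i, g z = f i z) : ContinuousOn g (⋃ i, F i) := by
  refine LocallyFinite.continuousOn_iUnion (locallyFinite_of_finite F) hF ?_
  intro i
  exact (hf i).congr (hg i)

theorem glue_exists {Z Y ι : Type} [TopologicalSpace Z] [TopologicalSpace Y] [Finite ι] [Nonempty Y]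
    (F : ι → Set Z) (hF : ∀ i, IsClosed (F i)) (f : ι → Z → Y) (hf : ∀ i, ContinuousOn (f i) (F i))
    (hfij : ∀ i j, ∀ z ∈ F i, z ∈ F j → f i z = f j z) :
    ∃ g : Z → Y, (∀ i, ∀ z ∈ F i, g z = f i z) ∧ ContinuousOn g (⋃ i, F i) := by
  classical
  have : ∀ z, ∃ y : Y, ∀ i, z ∈ F i → y = f i z := by
    intro z
    by_cases h : ∃ i, z ∈ F i
    · obtain ⟨i, hi⟩ := h
      exact ⟨f i z, fun j hj => hfij i j z hi hj⟩
    · exact ⟨Classical.arbitrary Y, fun i hi => absurd ⟨i, hi⟩ h⟩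
  choose g hg using this
  exact ⟨g, fun i z hz => hg z i hz, glue F hF f hf g fun i z hz => hg z i hz⟩

/-- Gluing on two closed sets. -/
theorem glue2 {Z Y : Type} [TopologicalSpace Z] [TopologicalSpace Y] {A B : Set Z}
    (hA : IsClosed A) (hB : IsClosed B) {f g h : Z → Y} (hf : ContinuousOn f A)
    (hg : ContinuousOn g B) (h1 : ∀ z ∈ A, h z = f z) (h2 : ∀ z ∈ B, h z = g z) :
    ContinuousOn h (A ∪ B) :=
  (hf.congr h1).union_of_isClosed (hg.congr h2) hA hB

theorem isOpen_NB {P : Type} [PartialOrder P] (Q : Finset P) (ε : ℝ) : IsOpen (NB Q ε) := by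
  have : NB Q ε = ⋃ p' ∈ Rz Q, ⋂ a ∈ Q, {p : P → ℝ | |p a - p' a| < ε} := by
    ext p
    simp [NB]
  rw [this]
  refine isOpen_biUnion fun p' _ => ?_
  refine isOpen_biInter_finset fun a _ => ?_
  exact isOpen_lt ((continuous_apply a).sub continuous_const).abs continuous_const

theorem Rz_subset_NB {P : Type} [PartialOrder P] (Q : Finset P) {ε : ℝ} (hε : 0 < ε) :
    Rz Q ⊆ NB Q ε := by
  intro p hp
  exact ⟨p, hp, fun a _ => by rw [sub_self, abs_zero]; exact hε⟩

theorem isClosed_Rz {P : Type} [PartialOrder P] (Q : Finset P) : IsClosed (Rz Q) := by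
  have : Rz Q = {p : P → ℝ | ∀ a, 0 ≤ p a} ∩ {p | ∀ a, a ∉ Q → p a = 0} ∩
      {p | ∑ a ∈ Q, p a = 1} ∩ {p | ∀ a b, ¬ (a ≤ b ∨ b ≤ a) → p a = 0 ∨ p b = 0} := by
    ext p
    constructor
    · rintro ⟨h1, h2, h3, h4⟩
      refine ⟨⟨⟨h1, h2⟩, h3⟩, fun a b hab => ?_⟩
      by_contra hn
      rw [not_or] at hn
      exact hab (h4 a b hn.1 hn.2)
    · rintro ⟨⟨⟨h1, h2⟩, h3⟩, h4⟩
      refine ⟨h1, h2, h3, fun a b ha hb => ?_⟩
      by_contra hab
      rcases h4 a b hab with h | h
      · exact ha h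
      · exact hb h
  rw [this]
  refine IsClosed.inter (IsClosed.inter (IsClosed.inter ?_ ?_) ?_) ?_
  · simp only [Set.ofPred_forall]
    exact isClosed_iInter fun a => isClosed_le continuous_const (continuous_apply a)
  · simp only [Set.ofPred_forall]
    exact isClosed_iInter fun a => isClosed_iInter fun _ =>
      isClosed_eq (continuous_apply a) continuous_const
  · exact isClosed_eq (continuous_finsetSum _ fun a _ => continuous_apply a) continuous_const
  · simp only [Set.ofPred_forall]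
    refine isClosed_iInter fun a => isClosed_iInter fun b => isClosed_iInter fun _ => ?_
    rw [Set.ofPred_or]
    exact (isClosed_eq (continuous_apply a) continuous_const).union
      (isClosed_eq (continuous_apply b) continuous_const)

theorem Rz_le_one {P : Type} [PartialOrder P] {Q : Finset P} {p : P → ℝ} (hp : p ∈ Rz Q) (a : P) :
    p a ≤ 1 := by
  classical
  by_cases ha : a ∈ Q
  · rw [← hp.2.2.1]
    exact Finset.single_le_sum (fun i _ => hp.1 i) ha
  · rw [hp.2.1 a ha]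
    exact zero_le_one

theorem Rz_mono {P : Type} [PartialOrder P] {Q Q' : Finset P} (h : Q ⊆ Q') : Rz Q ⊆ Rz Q' := by
  rintro p ⟨h1, h2, h3, h4⟩
  refine ⟨h1, fun a ha => h2 a fun ha' => ha (h ha'), ?_, h4⟩
  rw [← h3]
  exact (Finset.sum_subset h fun a _ ha => h2 a ha).symm

theorem isCompact_Rz {P : Type} [PartialOrder P] (Q : Finset P) : IsCompact (Rz Q) := by
  have h : Rz Q ⊆ Set.pi univ fun _ : P => Set.Icc (0 : ℝ) 1 := by
    intro p hp a _
    exact ⟨hp.1 a, Rz_le_one hp a⟩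
  exact (isCompact_univ_pi fun _ => isCompact_Icc).of_isClosed_subset (isClosed_Rz Q) h

/-- Tube lemma in the form used for homotopy extension. -/
theorem tube {Z T Y : Type} [TopologicalSpace Z] [TopologicalSpace T] [CompactSpace T]
    [TopologicalSpace Y] {F : Z × T → Y} (hF : Continuous F) {O : Set Y} (hO : IsOpen O) :
    IsOpen {z : Z | ∀ t, F (z, t) ∈ O} := by
  have h1 : IsClosed (Prod.fst '' (F ⁻¹' Oᶜ) : Set Z) :=
    isClosedMap_fst_of_compactSpace _ (hO.isClosed_compl.preimage hF)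
  have h2 : {z : Z | ∀ t, F (z, t) ∈ O} = (Prod.fst '' (F ⁻¹' Oᶜ) : Set Z)ᶜ := by
    ext z
    constructor
    · rintro h ⟨⟨z', t⟩, h3, rfl⟩
      exact h3 (h t)
    · intro h t
      by_contra h3
      exact h ⟨(z, t), h3, rfl⟩
  rw [h2]
  exact h1.isOpen_compl

/-- From a continuous function on a subtype to a function continuous on the set. -/
theorem exists_of_subtype {Z Y : Type} [TopologicalSpace Z] [TopologicalSpace Y] [Nonempty Y]
    {C : Set Z} {g : C → Y} (hg : Continuous g) : ∃ f : Z → Y, ContinuousOn f C ∧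
      ∀ z (hz : z ∈ C), f z = g ⟨z, hz⟩ := by
  classical
  refine ⟨fun z => if hz : z ∈ C then g ⟨z, hz⟩ else Classical.arbitrary Y, ?_, ?_⟩
  · rw [continuousOn_iff_continuous_domRestrict]
    refine hg.congr ?_
    rintro ⟨z, hz⟩
    show g ⟨z, hz⟩ = if hz : z ∈ C then g ⟨z, hz⟩ else Classical.arbitrary Y
    rw [dif_pos hz]
  · intro z hz
    exact dif_pos hz

end Pool.Agent.SH
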