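import Pool.Agent.SH.GLI
import Pool.Agent.SH.Top

/-!
# The inverse limit: compact, metrizable, surjective projections
-/

set_option autoImplicit false

noncomputable section

open Set Topology

namespace Pool.Agent.SH

namespace G

theorem continuous_lin {P' P : Type} [Fintype P'] (geo : P' → P → ℝ) :
    Continuous (lin geo : (P' → ℝ) → P → ℝ) := by
  refine continuous_pi fun p => ?_
  unfold lin
  exact continuous_finsetSum _ fun a _ => (continuous_apply a).mul continuous_const

/-- The set of threads. -/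
def thr (τ : Tower) : Set (∀ k, τ.P k → ℝ) :=
  {x | ∀ k, x k ∈ Pol (τ.P k) ∧ lin (τ.sm k).geo (x (k + 1)) = x k}

theorem isCompact_thr (τ : Tower) : IsCompact (thr τ) := by
  have h1 : IsCompact (Set.pi univ fun k => (Pol (τ.P k) : Set (τ.P k → ℝ))) :=
    isCompact_univ_pi fun k => isCompact_Rz _
  refine h1.of_isClosed_subset ?_ ?_
  · have h2 : thr τ = ⋂ k, {x | x k ∈ Pol (τ.P k)} ∩ {x | lin (τ.sm k).geo (x (k + 1)) = x k} := by
      ext x
      simp [thr]
    rw [h2]
    refine isClosed_iInter fun k => IsClosed.inter ?_ ?_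
    · exact (isClosed_Rz _).preimage (continuous_apply k)
    · exact isClosed_eq ((continuous_lin _).comp (continuous_apply (k + 1))) (continuous_apply k)
  · intro x hx k _
    exact (hx k).1

end G

theorem GLC : Stmt_GLC := by
  intro τ
  have h1 : CompactSpace τ.Lim := isCompact_iff_compactSpace.1 (G.isCompact_thr τ)
  have h2 : T2Space τ.Lim := inferInstanceAs (T2Space {x // x ∈ G.thr τ})
  have h3 : SecondCountableTopology τ.Lim :=
    inferInstanceAs (SecondCountableTopology {x // x ∈ G.thr τ})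
  refine ⟨h1, ?_⟩
  infer_instance

namespace G

/-- The tower without its first stage. -/
def shift (τ : Tower) : Tower :=
  ⟨fun k => τ.P (k + 1), fun k => τ.po (k + 1), fun k => τ.ft (k + 1), fun k => τ.sm (k + 1)⟩

theorem surj_aux (k : ℕ) : ∀ (τ : Tower), ∀ w ∈ Pol (τ.P k), ∃ x : τ.Lim, x.1 k = w := by
  induction k with
  | zero =>
    intro τ w hw
    have hl : ∀ (j : ℕ) (v : {v : τ.P j → ℝ // v ∈ Pol (τ.P j)}),
        ∃ v' : {v : τ.P (j + 1) → ℝ // v ∈ Pol (τ.P (j + 1))}, lin (τ.sm j).geo v'.1 = v.1 := by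
      intro j v
      obtain ⟨v', h1, h2⟩ := (τ.sm j).surj v.1 v.2
      exact ⟨⟨v', h1⟩, h2⟩
    choose l hl using hl
    let x : ∀ j, {v : τ.P j → ℝ // v ∈ Pol (τ.P j)} := fun j =>
      Nat.rec (motive := fun j => {v : τ.P j → ℝ // v ∈ Pol (τ.P j)}) ⟨w, hw⟩ (fun j v => l j v) j
    exact ⟨⟨fun j => (x j).1, fun j => ⟨(x j).2, hl j (x j)⟩⟩, rfl⟩
  | succ k ih =>
    intro τ w hw
    obtain ⟨x', hx'⟩ := ih (shift τ) w hw
    refine ⟨⟨fun j => match j with
      | 0 => lin (τ.sm 0).geo (x'.1 0)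
      | j + 1 => x'.1 j, ?_⟩, hx'⟩
    intro j
    cases j with
    | zero => exact ⟨lin_mem (τ.sm 0) (x'.2 0).1, rfl⟩
    | succ j => exact ⟨(x'.2 j).1, (x'.2 j).2⟩

end G

theorem GLS : Stmt_GLS := fun τ k w hw => G.surj_aux k τ w hw

end Pool.Agent.SH
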