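import Pool.Agent.SH.GLL

/-!
# Lower bound of the dimension of the inverse limit
-/

set_option autoImplicit false

noncomputable section

open Set Topology

namespace Pool.Agent.SH

namespace G

open Classical in
/-- The barycentre of a chain. -/
def bary {P : Type} [PartialOrder P] (σ : Sd P) : P → ℝ :=
  fun p => if p ∈ σ.c then 1 / (σ.c.card : ℝ) else 0

theorem bary_ne_zero {P : Type} [PartialOrder P] (σ : Sd P) (p : P) :
    bary σ p ≠ 0 ↔ p ∈ σ.c := by
  unfold bary
  have hc : (0 : ℝ) < σ.c.card := by exact_mod_cast σ.ne.card_pos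
  by_cases h : p ∈ σ.c
  · rw [if_pos h]
    exact ⟨fun _ => h, fun _ => by positivity⟩
  · rw [if_neg h]
    exact ⟨fun h' => absurd rfl h', fun h' => absurd h' h⟩

theorem bary_mem {P : Type} [PartialOrder P] [Fintype P] (σ : Sd P) : bary σ ∈ Pol P := by
  classical
  have hc : (0 : ℝ) < σ.c.card := by exact_mod_cast σ.ne.card_pos
  rw [mem_pol]
  refine ⟨fun a => ?_, ?_, fun a b ha hb => ?_⟩
  · unfold bary
    split_ifs
    · positivity
    · exact le_refl _
  · unfold bary
    rw [Finset.sum_ite_mem, Finset.univ_inter, Finset.sum_const, nsmul_eq_mul,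
      mul_one_div_cancel hc.ne']
  · rw [bary_ne_zero] at ha hb
    exact σ.chain a ha b hb

end G

theorem GLD : Stmt_GLD := by
  classical
  intro M L _ E τ g hτ hE κ _ V hV hcov hstar
  by_contra hcon
  push Not at hcon
  obtain ⟨k₀, hk₀⟩ := GLL τ hτ κ V hV hcov
  choose w hw using hstar
  set k : ℕ := k₀ with hk
  have hj : ∀ v : τ.P (0 + k), ∃ i, ∀ x : τ.Lim, x.1 (0 + k) v ≠ 0 → x ∈ V i :=
    hk₀ (0 + k) (by omega)
  choose j hj using hj
  -- the largest element of the face
  let m : τ.P (0 + k) → Fin (M + 2) := fun v => (g (w (j v))).s.max' (g (w (j v))).ne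
  have hpt : ∀ σ : Sd (τ.P (0 + k)), ∃ x : τ.Lim, ∀ v, x.1 (0 + k) v ≠ 0 ↔ v ∈ σ.c := by
    intro σ
    obtain ⟨x, hx⟩ := GLS τ (0 + k) _ (G.bary_mem σ)
    refine ⟨x, fun v => ?_⟩
    rw [hx]
    exact G.bary_ne_zero σ v
  have hcard : ∀ σ : Sd (τ.P (0 + k)), (σ.c.image m).card ≤ M := by
    intro σ
    obtain ⟨x, hx⟩ := hpt σ
    have h1 : σ.c.image m = (σ.c.image j).image
        (fun i => (g (w i)).s.max' (g (w i)).ne) := by
      rw [Finset.image_image]
      rfl
    rw [h1]
    refine Finset.card_image_le.trans ?_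
    refine le_trans ?_ (hcon x)
    rw [← Set.ncard_coe_finset]
    refine Set.ncard_le_ncard ?_ (Set.toFinite _)
    intro i hi
    obtain ⟨v, hv, rfl⟩ := Finset.mem_image.1 (Finset.mem_coe.1 hi)
    exact hj v x ((hx v).2 hv)
  have hle : ∀ σ : Sd (τ.P (0 + k)), σ.c.image m ⊆ (g (τ.H 0 k σ.top)).s := by
    intro σ i hi
    obtain ⟨x, hx⟩ := hpt σ
    obtain ⟨v, hv, rfl⟩ := Finset.mem_image.1 hi
    have h1 : x ∈ V (j v) := hj v x ((hx v).2 hv)
    have h2 : x.1 0 (w (j v)) ≠ 0 := hw (j v) h1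
    have h3 := (GLP τ x 0).2.2 k σ.top ((hx _).2 σ.top_mem)
      (fun q hq => σ.le_top ((hx q).1 hq)) _ h2
    exact (g.monotone h3) (Finset.max'_mem _ _)
  let φ : Sd (τ.P (0 + k)) →o P0 M :=
    { toFun := fun σ => ⟨σ.c.image m, σ.ne.image m, by
        intro h
        have h1 := hcard σ
        rw [h, Finset.card_univ, Fintype.card_fin] at h1
        omega⟩
      monotone' := fun σ σ' h => Finset.image_subset_image h }
  have hess : E.Ess (Sd (τ.P (0 + k))) φ := by
    refine E.comparable _ ((g.comp (τ.H 0 k)).comp (topHom _)) φ (Or.inr ?_) (E.sd _ _ (hE k))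
    intro σ
    exact hle σ
  have hF : (Finset.univ.erase (0 : Fin (M + 2))).card = M + 1 := by
    rw [Finset.card_erase_of_mem (Finset.mem_univ _), Finset.card_univ, Fintype.card_fin]
    rfl
  refine E.facet _ φ ⟨Finset.univ.erase (0 : Fin (M + 2)), ?_, ?_⟩ hF ?_ hess
  · exact Finset.card_pos.1 (by rw [hF]; omega)
  · intro h
    have := Finset.mem_univ (0 : Fin (M + 2))
    rw [← h] at this
    exact Finset.notMem_erase _ _ this
  · intro σ h
    have h1 : σ.c.image m = Finset.univ.erase (0 : Fin (M + 2)) := congrArg P0.s h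
    have h2 := hcard σ
    rw [h1, hF] at h2
    omega

end Pool.Agent.SH
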