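import Pool.Agent.SH.GLL
import Pool.Agent.SH.GBO

/-!
# The extension property of the inverse limit
-/

set_option autoImplicit false

noncomputable section

open Set Topology Uniformity

namespace Pool.Agent.SH

namespace G

open Classical in
/-- Push forward of weights along a map of the vertices. -/
def pf {P L : Type} [Fintype P] (F : P → L) (w : P → ℝ) : L → ℝ :=
  fun l => ∑ p, if F p = l then w p else 0

theorem continuous_pf {P L : Type} [Fintype P] (F : P → L) :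
    Continuous (pf F : (P → ℝ) → L → ℝ) := by
  classical
  refine continuous_pi fun l => ?_
  unfold pf
  refine continuous_finsetSum _ fun p _ => ?_
  by_cases h : F p = l
  · simp only [h, if_true]
    exact continuous_apply p
  · simp only [h, if_false]
    exact continuous_const

theorem pf_ne_zero {P L : Type} [Fintype P] {F : P → L} {w : P → ℝ} {l : L}
    (h : pf F w l ≠ 0) : ∃ p, w p ≠ 0 ∧ F p = l := by
  classical
  unfold pf at h
  obtain ⟨p, _, hp⟩ := Finset.exists_ne_zero_of_sum_ne_zero h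
  by_cases hF : F p = l
  · rw [if_pos hF] at hp
    exact ⟨p, hp, hF⟩
  · rw [if_neg hF] at hp
    exact absurd rfl hp

theorem pf_mem {P L : Type} [PartialOrder P] [Fintype P] [PartialOrder L] (F : P →o L)
    (Q : Finset L) (hQ : ∀ p, F p ∈ Q) {w : P → ℝ} (hw : w ∈ Pol P) : pf F w ∈ Rz Q := by
  classical
  have h0 := mem_pol.1 hw
  refine ⟨fun l => ?_, fun l hl => ?_, ?_, fun a b ha hb => ?_⟩
  · unfold pf
    refine Finset.sum_nonneg fun p _ => ?_
    split_ifs
    · exact h0.1 p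
    · exact le_refl _
  · by_contra h
    obtain ⟨p, _, rfl⟩ := pf_ne_zero h
    exact hl (hQ p)
  · unfold pf
    rw [Finset.sum_comm]
    rw [← h0.2.1]
    refine Finset.sum_congr rfl fun p _ => ?_
    rw [Finset.sum_ite_eq Q (F p) (fun _ => w p), if_pos (hQ p)]
  · obtain ⟨p, hp, rfl⟩ := pf_ne_zero ha
    obtain ⟨q, hq, rfl⟩ := pf_ne_zero hb
    rcases h0.2.2 p q hp hq with h | h
    · exact Or.inl (F.monotone h)
    · exact Or.inr (F.monotone h)

/-- A vertex map which is carried by `f`. -/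
theorem exists_vertex (τ : Tower) (L : Type) [PartialOrder L] [Nonempty L] (hτ : τ.Fine)
    (A : Set τ.Lim) (Q : Finset L) (f : τ.Lim → L → ℝ) (hA : IsClosed A)
    (hf : ContinuousOn f A) (hfQ : ∀ z ∈ A, f z ∈ Rz Q) :
    ∃ (k : ℕ) (a : τ.P k → L), ∀ y ∈ A, ∀ p, y.1 k p ≠ 0 → f y (a p) ≠ 0 := by
  classical
  have hc : CompactSpace τ.Lim := (GLC τ).1
  have hu := hA.isCompact.uniformContinuousOn_of_continuous hf
  set ε : ℝ := 1 / (Q.card : ℝ) with hεd
  by_cases hQ : Q.card = 0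
  · refine ⟨0, fun _ => Classical.arbitrary L, fun y hy => ?_⟩
    have h1 := (hfQ y hy).2.2.1
    rw [Finset.card_eq_zero.1 hQ, Finset.sum_empty] at h1
    exact absurd h1 zero_ne_one
  have hQ' : (0 : ℝ) < Q.card := by exact_mod_cast Nat.pos_of_ne_zero hQ
  have hε : 0 < ε := by positivity
  have hW : {q : (L → ℝ) × (L → ℝ) | ∀ l ∈ Q, |q.1 l - q.2 l| < ε} ∈ 𝓤 (L → ℝ) := by
    have h1 : ∀ l ∈ Q, {q : (L → ℝ) × (L → ℝ) | |q.1 l - q.2 l| < ε} ∈ 𝓤 (L → ℝ) := by
      intro l _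
      have h2 : {q : ℝ × ℝ | dist q.1 q.2 < ε} ∈ 𝓤 ℝ := Metric.dist_mem_uniformity hε
      exact (Pi.uniformContinuous_proj (fun _ : L => ℝ) l) h2
    have h2 := (Filter.biInter_finset_mem Q).2 h1
    refine Filter.mem_of_superset h2 ?_
    intro q hq l hl
    exact mem_iInter₂.1 hq l hl
  have hV : {q : τ.Lim × τ.Lim | q ∈ A ×ˢ A → ∀ l ∈ Q, |f q.1 l - f q.2 l| < ε} ∈ 𝓤 τ.Lim := by
    have h1 := hu hW
    rw [Filter.mem_map, Filter.mem_inf_principal] at h1
    exact h1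
  obtain ⟨k, hk⟩ := late τ hτ hV
  have hl : ∀ y ∈ A, ∃ l ∈ Q, ε ≤ f y l := by
    intro y hy
    refine Finset.exists_le_of_sum_le (Finset.card_pos.1 (Nat.pos_of_ne_zero hQ)) ?_
    rw [Finset.sum_const, (hfQ y hy).2.2.1, nsmul_eq_mul, hεd, mul_one_div_cancel hQ'.ne']
  refine ⟨k, fun p => if h : ∃ y ∈ A, y.1 k p ≠ 0 then (hl h.choose h.choose_spec.1).choose else
    Classical.arbitrary L, fun y hy p hp => ?_⟩
  have h : ∃ y ∈ A, y.1 k p ≠ 0 := ⟨y, hy, hp⟩
  simp only [dif_pos h]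
  set l := (hl h.choose h.choose_spec.1).choose with hld
  obtain ⟨hlQ, hlε⟩ := (hl h.choose h.choose_spec.1).choose_spec
  have h1 := hk k le_rfl p y h.choose hp h.choose_spec.2 ⟨hy, h.choose_spec.1⟩ l hlQ
  intro h0
  have h2 : |f y l - f h.choose l| < ε := h1
  rw [h0, zero_sub, abs_neg] at h2
  exact absurd (lt_of_le_of_lt (le_abs_self _) h2) (not_lt.2 hlε)

end G

theorem GLE : Stmt_GLE := by
  classical
  intro τ L _ _ hτ hS A Q f hA hf hfQ
  obtain ⟨k, a, ha⟩ := G.exists_vertex τ L hτ A Q f hA hf hfQ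
  let D : Set (τ.P (k + 1)) := {p | ∃ y ∈ A, ∀ q ∈ ((τ.sm k).c p).c, y.1 k q ≠ 0}
  have hD : IsLowerSet D := by
    intro p p' hle hp
    obtain ⟨y, hy, h⟩ := hp
    exact ⟨y, hy, fun q hq => h q ((τ.sm k).c.monotone hle hq)⟩
  have hm : ∀ p ∈ D, ∃ m ∈ ((τ.sm k).c p).c, ∀ q ∈ ((τ.sm k).c p).c, a q ≤ a m := by
    intro p hp
    obtain ⟨y, hy, h⟩ := hp
    obtain ⟨_, _, _, hch⟩ := hfQ y hy
    have h1 : ∀ s : Finset (τ.P k), s.Nonempty → (∀ q ∈ s, y.1 k q ≠ 0) →
        ∃ m ∈ s, ∀ q ∈ s, a q ≤ a m := by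
      intro s hs
      induction hs using Finset.Nonempty.cons_induction with
      | singleton b =>
        intro _
        refine ⟨b, Finset.mem_singleton_self b, fun q hq => ?_⟩
        rw [Finset.mem_singleton.1 hq]
      | cons b s hb hs ih =>
        intro hq
        obtain ⟨m, hms, hmax⟩ := ih fun q hqs => hq q (Finset.mem_cons_of_mem hqs)
        rcases hch (a b) (a m) (ha y hy b (hq b (Finset.mem_cons_self b s)))
          (ha y hy m (hq m (Finset.mem_cons_of_mem hms))) with h2 | h2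
        · refine ⟨m, Finset.mem_cons_of_mem hms, fun q hqs => ?_⟩
          rcases Finset.mem_cons.1 hqs with rfl | hqs
          · exact h2
          · exact hmax q hqs
        · refine ⟨b, Finset.mem_cons_self b s, fun q hqs => ?_⟩
          rcases Finset.mem_cons.1 hqs with rfl | hqs
          · exact le_rfl
          · exact (hmax q hqs).trans h2
    exact h1 _ ((τ.sm k).c p).ne h
  let f0 : τ.P (k + 1) → L := fun p =>
    if h : ∃ m ∈ ((τ.sm k).c p).c, ∀ q ∈ ((τ.sm k).c p).c, a q ≤ a m then a h.choose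
    else Classical.arbitrary L
  have hf0 : ∀ p ∈ D, ∃ m ∈ ((τ.sm k).c p).c, f0 p = a m ∧ ∀ q ∈ ((τ.sm k).c p).c, a q ≤ a m := by
    intro p hp
    have h := hm p hp
    refine ⟨h.choose, h.choose_spec.1, ?_, h.choose_spec.2⟩
    show (if h : ∃ m ∈ ((τ.sm k).c p).c, ∀ q ∈ ((τ.sm k).c p).c, a q ≤ a m then a h.choose
      else Classical.arbitrary L) = a h.choose
    rw [dif_pos h]
  have hf0m : MonotoneOn f0 D := by
    intro p hp p' hp' hle
    obtain ⟨m, hm1, hm2, _⟩ := hf0 p hp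
    obtain ⟨m', _, hm2', hm3'⟩ := hf0 p' hp'
    rw [hm2, hm2']
    exact hm3' m ((τ.sm k).c.monotone hle hm1)
  obtain ⟨d, F, hF⟩ := hS (k + 1) D f0 hD hf0m
  set Q' : Finset L := Q ∪ Finset.univ.image F with hQ'
  have hsub : Q ⊆ Q' := Finset.subset_union_left
  have hFQ : ∀ p, F p ∈ Q' := fun p =>
    Finset.mem_union_right _ (Finset.mem_image_of_mem F (Finset.mem_univ p))
  have hc : CompactSpace τ.Lim := (GLC τ).1
  have hmet : TopologicalSpace.MetrizableSpace τ.Lim := (GLC τ).2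
  obtain ⟨g, hg, hgQ, hgf⟩ := GBO L τ.Lim A Q' f (fun x => G.pf F (x.1 (k + 1 + d))) hA hf
    ((G.continuous_pf F).comp ((continuous_apply (k + 1 + d)).comp continuous_subtype_val))
    (fun y hy => Rz_mono hsub (hfQ y hy))
    (fun x => G.pf_mem F Q' hFQ (x.2 (k + 1 + d)).1)
    (by
      intro y hy l hl
      obtain ⟨p, hp, rfl⟩ := G.pf_ne_zero hl
      have h1 := G.H_mem τ y (k + 1) d p hp
      have h2 : τ.H (k + 1) d p ∈ D := ⟨y, hy, fun q hq => G.h_mem τ y h1 hq⟩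
      rw [hF p h2]
      obtain ⟨m, hm1, hm2, _⟩ := hf0 _ h2
      rw [hm2]
      exact ha y hy m (G.h_mem τ y h1 hm1))
  exact ⟨Q', g, hsub, hg, hgQ, hgf⟩

end Pool.Agent.SH
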