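import Pool.Agent.SH.StmtsII

/-!
# Affine maps between realisations (GLI), supports of threads (GLP)
-/

set_option autoImplicit false

noncomputable section

namespace Pool.Agent.SH

namespace G

variable {P' P : Type} [PartialOrder P'] [PartialOrder P] [Fintype P'] [Fintype P]

theorem mem_pol {w : P → ℝ} : w ∈ Pol P ↔ (∀ a, 0 ≤ w a) ∧ ∑ a, w a = 1 ∧
    ∀ a b, w a ≠ 0 → w b ≠ 0 → a ≤ b ∨ b ≤ a := by
  constructor
  · rintro ⟨h1, _, h2, h3⟩
    exact ⟨h1, h2, h3⟩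
  · rintro ⟨h1, h2, h3⟩
    exact ⟨h1, fun a ha => absurd (Finset.mem_univ a) ha, h2, h3⟩

/-- The support of a point. -/
theorem exists_supp {w : P → ℝ} (hw : w ∈ Pol P) : ∃ q, w q ≠ 0 := by
  by_contra h
  push Not at h
  have := (mem_pol.1 hw).2.1
  rw [Finset.sum_eq_zero (fun a _ => h a)] at this
  exact zero_ne_one this

/-- The greatest element of the support. -/
theorem exists_top {w : P → ℝ} (hw : w ∈ Pol P) : ∃ q, w q ≠ 0 ∧ ∀ q', w q' ≠ 0 → q' ≤ q := by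
  classical
  obtain ⟨q, hq⟩ := exists_supp hw
  obtain ⟨m, hm, hmax⟩ := (Finset.univ.filter (fun a => w a ≠ 0)).exists_maximal
    ⟨q, Finset.mem_filter.2 ⟨Finset.mem_univ _, hq⟩⟩
  refine ⟨m, (Finset.mem_filter.1 hm).2, fun q' hq' => ?_⟩
  rcases (mem_pol.1 hw).2.2 q' m hq' (Finset.mem_filter.1 hm).2 with h | h
  · exact h
  · exact hmax (Finset.mem_filter.2 ⟨Finset.mem_univ _, hq'⟩) h

theorem lin_nonneg (s : SM P' P) {w : P' → ℝ} (hw : ∀ a, 0 ≤ w a) (p : P) :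
    0 ≤ lin s.geo w p :=
  Finset.sum_nonneg fun a _ => mul_nonneg (hw a) (s.geo_nonneg a p)

theorem lin_ne_zero (s : SM P' P) {w : P' → ℝ} (hw : ∀ a, 0 ≤ w a) (p : P) :
    lin s.geo w p ≠ 0 ↔ ∃ a, w a ≠ 0 ∧ p ∈ (s.c a).c := by
  unfold lin
  rw [Ne, Finset.sum_eq_zero_iff_of_nonneg (fun a _ => mul_nonneg (hw a) (s.geo_nonneg a p))]
  constructor
  · intro h
    push Not at h
    obtain ⟨a, _, ha⟩ := h
    refine ⟨a, left_ne_zero_of_mul ha, (s.geo_supp a p).1 (right_ne_zero_of_mul ha)⟩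
  · rintro ⟨a, ha, hp⟩ h
    exact mul_ne_zero ha ((s.geo_supp a p).2 hp) (h a (Finset.mem_univ _))

theorem lin_sum (s : SM P' P) (w : P' → ℝ) : ∑ p, lin s.geo w p = ∑ a, w a := by
  unfold lin
  rw [Finset.sum_comm]
  refine Finset.sum_congr rfl fun a _ => ?_
  rw [← Finset.mul_sum, s.geo_sum, mul_one]

theorem lin_top (s : SM P' P) {w : P' → ℝ} (hw : w ∈ Pol P') (q : P') (hq : w q ≠ 0)
    (hmax : ∀ q', w q' ≠ 0 → q' ≤ q) (p : P) : lin s.geo w p ≠ 0 ↔ p ∈ (s.c q).c := by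
  rw [lin_ne_zero s (mem_pol.1 hw).1]
  constructor
  · rintro ⟨a, ha, hp⟩
    exact s.c.monotone (hmax a ha) hp
  · intro hp
    exact ⟨q, hq, hp⟩

theorem lin_mem (s : SM P' P) {w : P' → ℝ} (hw : w ∈ Pol P') : lin s.geo w ∈ Pol P := by
  obtain ⟨q, hq, hmax⟩ := exists_top hw
  rw [mem_pol]
  refine ⟨lin_nonneg s (mem_pol.1 hw).1, ?_, ?_⟩
  · rw [lin_sum, (mem_pol.1 hw).2.1]
  · intro a b ha hb
    rw [lin_top s hw q hq hmax] at ha hb
    exact (s.c q).chain a ha b hb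

theorem lin_lip (s : SM P' P) (v w : P' → ℝ) :
    ∑ p, |lin s.geo v p - lin s.geo w p| ≤ ∑ p', |v p' - w p'| := by
  have h1 : ∀ p, |lin s.geo v p - lin s.geo w p| ≤ ∑ p', |v p' - w p'| * s.geo p' p := by
    intro p
    have : lin s.geo v p - lin s.geo w p = ∑ p', (v p' - w p') * s.geo p' p := by
      unfold lin
      rw [← Finset.sum_sub_distrib]
      exact Finset.sum_congr rfl fun a _ => by ring
    rw [this]
    refine (Finset.abs_sum_le_sum_abs _ _).trans (Finset.sum_le_sum fun a _ => ?_)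
    rw [abs_mul, abs_of_nonneg (s.geo_nonneg a p)]
  refine (Finset.sum_le_sum fun p _ => h1 p).trans ?_
  rw [Finset.sum_comm]
  refine Finset.sum_le_sum fun a _ => ?_
  rw [← Finset.mul_sum, s.geo_sum, mul_one]

end G

theorem GLI : Stmt_GLI := fun _ _ _ _ _ _ s =>
  ⟨fun _ hw => G.lin_mem s hw, G.lin_lip s, fun _ hw q hq hmax p => G.lin_top s hw q hq hmax p⟩

namespace G

variable (τ : Tower) (x : τ.Lim)

theorem h_mem {k : ℕ} {p : τ.P (k + 1)} (hp : x.1 (k + 1) p ≠ 0) {q : τ.P k}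
    (hq : q ∈ ((τ.sm k).c p).c) : x.1 k q ≠ 0 := by
  rw [← (x.2 k).2, lin_ne_zero _ (mem_pol.1 (x.2 (k + 1)).1).1]
  exact ⟨p, hp, hq⟩

theorem H_mem (k d : ℕ) : ∀ p : τ.P (k + d), x.1 (k + d) p ≠ 0 → x.1 k (τ.H k d p) ≠ 0 := by
  induction d with
  | zero =>
    intro p hp
    exact hp
  | succ d ih =>
    intro p hp
    rw [Tower.H_succ]
    refine ih _ ?_
    exact h_mem τ x hp (Sd.top_mem _)

theorem H_top (k d : ℕ) : ∀ p : τ.P (k + d), x.1 (k + d) p ≠ 0 →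
    (∀ q, x.1 (k + d) q ≠ 0 → q ≤ p) → ∀ q, x.1 k q ≠ 0 → q ≤ τ.H k d p := by
  induction d with
  | zero =>
    intro p _ hmax q hq
    exact hmax q hq
  | succ d ih =>
    intro p hp hmax q hq
    rw [Tower.H_succ]
    refine ih _ (h_mem τ x hp (Sd.top_mem _)) ?_ q hq
    intro q' hq'
    rw [← (x.2 (k + d)).2, lin_top _ (x.2 (k + d + 1)).1 p hp hmax] at hq'
    exact Sd.le_top _ hq'

end G

theorem GLP : Stmt_GLP := fun τ x k =>
  ⟨fun _ hp _ hq => G.h_mem τ x hp hq, fun d p hp => G.H_mem τ x k d p hp,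
    fun d p hp hmax q hq => G.H_top τ x k d p hp hmax q hq⟩

end Pool.Agent.SH
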