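import Pool.Agent.SH.GLC

/-!
# Stars of late stages are small
-/

set_option autoImplicit false

noncomputable section

open Set Topology Uniformity

namespace Pool.Agent.SH

namespace G

/-- The distance of two threads at stage `k`. -/
def ds (τ : Tower) (k : ℕ) (x y : τ.Lim) : ℝ := ∑ p, |x.1 k p - y.1 k p|

theorem ds_mono (τ : Tower) (x y : τ.Lim) {j k : ℕ} (h : j ≤ k) : ds τ j x y ≤ ds τ k x y := by
  induction k, h using Nat.le_induction with
  | base => exact le_refl _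
  | succ k _ ih =>
    refine ih.trans ?_
    unfold ds
    rw [← (x.2 k).2, ← (y.2 k).2]
    exact lin_lip _ _ _

/-- A point in the star of `v` is close to the image of `v`. -/
theorem close_geo {P' P : Type} [PartialOrder P'] [PartialOrder P] [Fintype P'] [Fintype P]
    (s : SM P' P) {ε : ℝ} (hs : s.MeshLE ε) {w : P' → ℝ} (hw : w ∈ Pol P') {v : P'}
    (hv : w v ≠ 0) : ∑ p, |lin s.geo w p - s.geo v p| ≤ ε := by
  have h0 := mem_pol.1 hw
  have h1 : ∀ p, |lin s.geo w p - s.geo v p| ≤ ∑ a, w a * |s.geo a p - s.geo v p| := by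
    intro p
    have e : lin s.geo w p - s.geo v p = ∑ a, w a * (s.geo a p - s.geo v p) := by
      have : s.geo v p = ∑ a, w a * s.geo v p := by
        rw [← Finset.sum_mul, h0.2.1, one_mul]
      rw [this]
      unfold lin
      rw [← Finset.sum_sub_distrib]
      exact Finset.sum_congr rfl fun a _ => by rw [← this]; ring
    rw [e]
    refine (Finset.abs_sum_le_sum_abs _ _).trans (Finset.sum_le_sum fun a _ => ?_)
    rw [abs_mul, abs_of_nonneg (h0.1 a)]
  refine (Finset.sum_le_sum fun p _ => h1 p).trans ?_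
  rw [Finset.sum_comm]
  have h2 : ∀ a, ∑ p, w a * |s.geo a p - s.geo v p| ≤ w a * ε := by
    intro a
    rw [← Finset.mul_sum]
    by_cases ha : w a = 0
    · rw [ha, zero_mul, zero_mul]
    · refine mul_le_mul_of_nonneg_left ?_ (h0.1 a)
      rcases h0.2.2 a v ha hv with h | h
      · exact hs a v h
      · have := hs v a h
        refine le_trans (le_of_eq ?_) this
        exact Finset.sum_congr rfl fun p _ => abs_sub_comm _ _
  refine (Finset.sum_le_sum fun a _ => h2 a).trans ?_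
  rw [← Finset.sum_mul, h0.2.1, one_mul]

theorem ds_star (τ : Tower) (hτ : τ.Fine) (k : ℕ) (x y : τ.Lim) (v : τ.P (k + 1))
    (hx : x.1 (k + 1) v ≠ 0) (hy : y.1 (k + 1) v ≠ 0) : ds τ k x y ≤ 2 * (1 / 2) ^ k := by
  have h1 := close_geo (τ.sm k) (hτ k) (x.2 (k + 1)).1 hx
  have h2 := close_geo (τ.sm k) (hτ k) (y.2 (k + 1)).1 hy
  rw [(x.2 k).2] at h1
  rw [(y.2 k).2] at h2
  have h3 : ds τ k x y ≤ ∑ p, (|x.1 k p - (τ.sm k).geo v p| + |y.1 k p - (τ.sm k).geo v p|) := by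
    refine Finset.sum_le_sum fun p _ => ?_
    have := abs_sub_le (x.1 k p) ((τ.sm k).geo v p) (y.1 k p)
    rwa [abs_sub_comm ((τ.sm k).geo v p) (y.1 k p)] at this
  rw [Finset.sum_add_distrib] at h3
  linarith

instance (τ : Tower) : UniformSpace τ.Lim := inferInstanceAs (UniformSpace
  {x : ∀ k, τ.P k → ℝ // ∀ k, x k ∈ Pol (τ.P k) ∧ lin (τ.sm k).geo (x (k + 1)) = x k})

theorem exists_lower {I : Type} [Finite I] (e : I → ℝ) (he : ∀ i, 0 < e i) :
    ∃ ε : ℝ, 0 < ε ∧ ∀ i, ε ≤ e i := by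
  cases isEmpty_or_nonempty I with
  | inl h => exact ⟨1, one_pos, fun i => (h.false i).elim⟩
  | inr h =>
    obtain ⟨i, hi⟩ := Finite.exists_min e
    exact ⟨e i, he i, hi⟩

theorem dist_le_ds (τ : Tower) (x y : τ.Lim) (k : ℕ) : dist (x.1 k) (y.1 k) ≤ ds τ k x y := by
  unfold ds
  rw [dist_pi_le_iff (Finset.sum_nonneg fun p _ => abs_nonneg _)]
  intro p
  rw [Real.dist_eq]
  exact Finset.single_le_sum (f := fun p => |x.1 k p - y.1 k p|)
    (fun p _ => abs_nonneg _) (Finset.mem_univ p)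

/-- The stage distances generate the uniformity. -/
theorem exists_ds (τ : Tower) {V : Set (τ.Lim × τ.Lim)} (hV : V ∈ 𝓤 τ.Lim) :
    ∃ (n : ℕ) (ε : ℝ), 0 < ε ∧ ∀ x y : τ.Lim, ds τ n x y < ε → (x, y) ∈ V := by
  have h1 : V ∈ Filter.comap (fun q : τ.Lim × τ.Lim => (q.1.1, q.2.1))
    (𝓤 (∀ k, τ.P k → ℝ)) := hV
  obtain ⟨W, hW, hWV⟩ := Filter.mem_comap.1 h1
  rw [Pi.uniformity, Filter.mem_iInf] at hW
  obtain ⟨I, hI, v, hv, rfl⟩ := hW
  have hfin : Finite I := hI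
  have h2 : ∀ i : I, ∃ ε : ℝ, 0 < ε ∧ ∀ a b : (∀ k, τ.P k → ℝ), dist (a i) (b i) < ε →
      (a, b) ∈ v i := by
    intro i
    obtain ⟨W, hW, hWv⟩ := Filter.mem_comap.1 (hv i)
    obtain ⟨ε, hε, hW⟩ := Metric.mem_uniformity_dist.1 hW
    exact ⟨ε, hε, fun a b hab => hWv (hW hab)⟩
  choose e he hev using h2
  obtain ⟨ε, hε, hle⟩ := exists_lower e he
  obtain ⟨n, hn⟩ := hI.bddAbove
  refine ⟨n, ε, hε, fun x y hxy => hWV ?_⟩
  rw [mem_preimage, mem_iInter]
  intro i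
  refine hev i _ _ (lt_of_le_of_lt ?_ (lt_of_lt_of_le hxy (hle i)))
  exact le_trans (dist_le_ds τ x y i) (ds_mono τ x y (hn i.2))

/-- Points of the star of a vertex of a late stage are close. -/
theorem late (τ : Tower) (hτ : τ.Fine) {V : Set (τ.Lim × τ.Lim)} (hV : V ∈ 𝓤 τ.Lim) :
    ∃ k₀ : ℕ, ∀ k, k₀ ≤ k → ∀ v : τ.P k, ∀ x y : τ.Lim, x.1 k v ≠ 0 → y.1 k v ≠ 0 →
      (x, y) ∈ V := by
  obtain ⟨n, ε, hε, h⟩ := exists_ds τ hV
  obtain ⟨m, hm⟩ := exists_pow_lt_of_lt_one (half_pos hε) (by norm_num : (1 / 2 : ℝ) < 1)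
  refine ⟨max n m + 1, fun k hk v x y hx hy => h x y ?_⟩
  obtain ⟨l, rfl⟩ : ∃ l, k = l + 1 := ⟨k - 1, by omega⟩
  have hl : max n m ≤ l := by omega
  have hn : n ≤ l := le_trans (le_max_left _ _) hl
  have hml : m ≤ l := le_trans (le_max_right _ _) hl
  refine lt_of_le_of_lt ((ds_mono τ x y hn).trans (ds_star τ hτ l x y v hx hy)) ?_
  have h3 : (1 / 2 : ℝ) ^ l ≤ (1 / 2) ^ m :=
    pow_le_pow_of_le_one (by norm_num) (by norm_num) hml
  linarith

/-- The vertex `v` as a point. -/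
theorem delta_mem {P : Type} [PartialOrder P] [Fintype P] [DecidableEq P] (v : P) :
    (fun p => if p = v then (1 : ℝ) else 0) ∈ Pol P := by
  rw [mem_pol]
  refine ⟨fun a => ?_, ?_, ?_⟩
  · split_ifs <;> norm_num
  · rw [Finset.sum_ite_eq' Finset.univ v (fun _ => (1 : ℝ)), if_pos (Finset.mem_univ _)]
  · intro a b ha hb
    have ha' : a = v := by
      by_contra h
      exact ha (if_neg h)
    have hb' : b = v := by
      by_contra h
      exact hb (if_neg h)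
    rw [ha', hb']
    exact Or.inl le_rfl

end G

theorem GLL : Stmt_GLL := by
  classical
  intro τ hτ ι U hU hcov
  have hc : CompactSpace τ.Lim := (GLC τ).1
  obtain ⟨V, hV, hVU⟩ := lebesgue_number_lemma (isCompact_univ (X := τ.Lim)) hU
    (fun x _ => mem_iUnion.2 (hcov x))
  obtain ⟨k₀, hk₀⟩ := G.late τ hτ hV
  refine ⟨k₀, fun k hk v => ?_⟩
  obtain ⟨x₀, hx₀⟩ := GLS τ k _ (G.delta_mem v)
  obtain ⟨i, hi⟩ := hVU x₀ (mem_univ _)
  refine ⟨i, fun x hx => hi ?_⟩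
  refine hk₀ k hk v x₀ x ?_ hx
  rw [hx₀]
  simp

end Pool.Agent.SH
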