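import Pool.Agent.SH.StmtsII

/-!
# MP_2d0b73_an, PART II: mesh of the barycentric subdivision
-/

noncomputable section

namespace Pool.Agent.SH

namespace GME

theorem card_le {P : Type} [PartialOrder P] {N : ℕ} (hN : ∀ σ : Sd P, σ.c.card ≤ N)
    (S : Sd (Sd P)) : S.c.card ≤ N := by
  have h : S.c.card ≤ (Finset.Icc 1 N).card := by
    refine Finset.card_le_card_of_injOn (fun σ : Sd P => σ.c.card) ?_ ?_
    · intro σ _
      rw [Finset.coe_Icc]
      exact ⟨σ.ne.card_pos, hN σ⟩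
    · intro σ hσ τ hτ h
      have h0 : σ.c.card = τ.c.card := h
      rcases S.chain σ hσ τ hτ with h' | h'
      · exact Sd.ext' (Finset.eq_of_subset_of_card_le h' h0.ge)
      · exact (Sd.ext' (Finset.eq_of_subset_of_card_le h' h0.le)).symm
  rwa [Nat.card_Icc, Nat.add_sub_cancel] at h

theorem lin_geo {P V : Type} [PartialOrder P] [Fintype P] (s : SM (Sd P) P)
    (hc : s.c = OrderHom.id)
    (hgeo : ∀ (σ : Sd P) (p : P), p ∈ σ.c → s.geo σ p = 1 / (σ.c.card : ℝ))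
    (φ : P → V → ℝ) (σ : Sd P) (v : V) :
    lin φ (s.geo σ) v = 1 / (σ.c.card : ℝ) * ∑ p ∈ σ.c, φ p v := by
  have h1 : lin φ (s.geo σ) v = ∑ p, s.geo σ p * φ p v := rfl
  rw [h1, Finset.mul_sum, ← Finset.sum_subset (Finset.subset_univ σ.c)]
  · exact Finset.sum_congr rfl fun p hp => by rw [hgeo σ p hp]
  · intro p _ hp
    have h2 : s.geo σ p = 0 := by
      by_contra h
      have h3 := (s.geo_supp σ p).1 h
      rw [hc] at h3
      exact hp h3
    rw [h2, zero_mul]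

theorem diff_eq {P V : Type} (A B : Finset P) (hA : A.Nonempty) (hB : B.Nonempty)
    (φ : P → V → ℝ) (v : V) :
    1 / (A.card : ℝ) * ∑ p ∈ A, φ p v - 1 / (B.card : ℝ) * ∑ p ∈ B, φ p v =
      1 / ((A.card : ℝ) * B.card) * ∑ p ∈ A, ∑ q ∈ B, (φ p v - φ q v) := by
  have hA' : (A.card : ℝ) ≠ 0 := Nat.cast_ne_zero.2 hA.card_ne_zero
  have hB' : (B.card : ℝ) ≠ 0 := Nat.cast_ne_zero.2 hB.card_ne_zero
  have h1 : ∑ p ∈ A, ∑ q ∈ B, (φ p v - φ q v) =
      B.card * ∑ p ∈ A, φ p v - A.card * ∑ q ∈ B, φ q v := by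
    have h2 : ∀ p ∈ A, ∑ q ∈ B, (φ p v - φ q v) = B.card * φ p v - ∑ q ∈ B, φ q v := by
      intro p _
      rw [Finset.sum_sub_distrib, Finset.sum_const, nsmul_eq_mul]
    rw [Finset.sum_congr rfl h2, Finset.sum_sub_distrib, Finset.sum_const, nsmul_eq_mul,
      ← Finset.mul_sum]
  rw [h1]
  field_simp

end GME

open GME in
theorem GME : Stmt_GME := by
  intro P _ _ N s hc hgeo hN
  refine ⟨card_le hN, ?_⟩
  intro V _ φ δ hδ hφ σ τ hστ
  have hsub : σ.c ⊆ τ.c := hστ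
  have hσ : (0 : ℝ) < σ.c.card := Nat.cast_pos.2 σ.ne.card_pos
  have hτ : (0 : ℝ) < τ.c.card := Nat.cast_pos.2 τ.ne.card_pos
  have hN' : (τ.c.card : ℝ) ≤ N := Nat.cast_le.2 (hN τ)
  have h1 : ∀ v, |lin φ (s.geo σ) v - lin φ (s.geo τ) v| ≤
      1 / ((σ.c.card : ℝ) * τ.c.card) * ∑ p ∈ σ.c, ∑ q ∈ τ.c, |φ p v - φ q v| := by
    intro v
    rw [lin_geo s hc hgeo, lin_geo s hc hgeo, diff_eq _ _ σ.ne τ.ne, abs_mul,
      abs_of_nonneg (by positivity : (0 : ℝ) ≤ 1 / ((σ.c.card : ℝ) * τ.c.card))]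
    refine mul_le_mul_of_nonneg_left ?_ (by positivity)
    refine (Finset.abs_sum_le_sum_abs _ _).trans (Finset.sum_le_sum fun p _ => ?_)
    exact Finset.abs_sum_le_sum_abs _ _
  have h2 : ∀ p ∈ σ.c, ∑ q ∈ τ.c, ∑ v, |φ p v - φ q v| ≤ ((τ.c.card : ℝ) - 1) * δ := by
    classical
    intro p hp
    have h3 : ∑ q ∈ τ.c, ∑ v, |φ p v - φ q v| = ∑ q ∈ τ.c.erase p, ∑ v, |φ p v - φ q v| := by
      rw [← Finset.add_sum_erase τ.c _ (hsub hp)]
      simp
    rw [h3]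
    have h4 : ∀ q ∈ τ.c.erase p, ∑ v, |φ p v - φ q v| ≤ δ := by
      intro q hq
      rcases τ.chain p (hsub hp) q (Finset.mem_of_mem_erase hq) with h | h
      · exact hφ p q h
      · refine le_trans (le_of_eq ?_) (hφ q p h)
        exact Finset.sum_congr rfl fun v _ => abs_sub_comm _ _
    refine (Finset.sum_le_card_nsmul _ _ _ h4).trans (le_of_eq ?_)
    rw [Finset.card_erase_of_mem (hsub hp), nsmul_eq_mul, Nat.cast_sub τ.ne.card_pos, Nat.cast_one]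
  calc ∑ v, |lin φ (s.geo σ) v - lin φ (s.geo τ) v|
      ≤ ∑ v, 1 / ((σ.c.card : ℝ) * τ.c.card) * ∑ p ∈ σ.c, ∑ q ∈ τ.c, |φ p v - φ q v| :=
        Finset.sum_le_sum fun v _ => h1 v
    _ = 1 / ((σ.c.card : ℝ) * τ.c.card) * ∑ p ∈ σ.c, ∑ q ∈ τ.c, ∑ v, |φ p v - φ q v| := by
        rw [← Finset.mul_sum, Finset.sum_comm]
        congr 1
        exact Finset.sum_congr rfl fun p _ => Finset.sum_comm
    _ ≤ 1 / ((σ.c.card : ℝ) * τ.c.card) * ((σ.c.card : ℝ) * (((τ.c.card : ℝ) - 1) * δ)) := by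
        refine mul_le_mul_of_nonneg_left ?_ (by positivity)
        refine (Finset.sum_le_card_nsmul _ _ _ h2).trans (le_of_eq ?_)
        rw [nsmul_eq_mul]
    _ = (1 - 1 / (τ.c.card : ℝ)) * δ := by
        field_simp
    _ ≤ (1 - 1 / (N : ℝ)) * δ := by
        refine mul_le_mul_of_nonneg_right ?_ hδ
        have := one_div_le_one_div_of_le hτ hN'
        linarith

end Pool.Agent.SH
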