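import Pool.Agent.SH.StmtsII

noncomputable section

namespace Pool.Agent.SH

theorem GNX (h1 : Stmt_GRF) (h2 : Stmt_GST) (h3 : Stmt_GCO) : Stmt_GNX := by
  classical
  intro M L _ _ E P _ _ g D f ε hε hD hf hE
  obtain ⟨P₁, _, _, s₁, hm, hess⟩ := h1 M L E P g ε hε hE
  set D₂ : Set (Sd P₁) := {σ | s₁.h σ.top ∈ D} with hD₂
  set f₂ : Sd P₁ → L := fun σ => f (s₁.h σ.top) with hf₂
  have hmono : ∀ σ τ : Sd P₁, σ ≤ τ → s₁.h σ.top ≤ s₁.h τ.top := fun σ τ h =>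
    s₁.h.monotone ((topHom P₁).monotone h)
  have hlow : IsLowerSet D₂ := fun τ σ h hτ => hD (hmono σ τ h) hτ
  have hmon : MonotoneOn f₂ D₂ := fun σ hσ τ hτ h => hf hσ hτ (hmono σ τ h)
  have hsd := E.sd P₁ (g.comp s₁.h) hess
  let l₀ : L := Classical.arbitrary L
  obtain ⟨Λ, hΛ, hess₂⟩ := E.step (Sd P₁) ((g.comp s₁.h).comp (topHom P₁)) D₂ f₂
    (insert l₀ (Finset.univ.image f₂)) hlow hmon hsd
  letI : Fintype (StepF D₂ f₂ Λ) := Fintype.ofFinite _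
  obtain ⟨s₂, hs₂⟩ := h2 P₁ L D₂ f₂ Λ hlow hmon
    (fun σ _ => hΛ (Finset.mem_insert_of_mem (Finset.mem_image_of_mem _ (Finset.mem_univ _))))
    ⟨l₀, hΛ (Finset.mem_insert_self _ _)⟩
  obtain ⟨t, th, -, -, tm⟩ := h3 (StepF D₂ f₂ Λ) P₁ P s₂ s₁
  have e : s₂.h = (topHom P₁).comp (StepF.pr D₂ f₂ Λ) := by
    unfold SM.h
    rw [hs₂]
  refine ⟨StepF D₂ f₂ Λ, inferInstance, inferInstance, t, StepF.lab D₂ f₂ Λ, tm ε hε.le hm, ?_, ?_⟩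
  · rw [th, e]
    exact hess₂
  · intro p hp
    rw [th, e] at hp ⊢
    exact p.2.2 hp

end Pool.Agent.SH
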