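import Pool.Agent.SH.StmtsII

/-!
# MP_2d0b73_an, PART II: subdivisions of small mesh
-/

noncomputable section

namespace Pool.Agent.SH

namespace GRF

/-- The mesh of a stage map is at most `2`. -/
theorem mesh_two {P' P : Type} [PartialOrder P'] [PartialOrder P] [Fintype P'] [Fintype P]
    (s : SM P' P) : s.MeshLE 2 := by
  intro p' q' _
  calc ∑ p, |s.geo p' p - s.geo q' p| ≤ ∑ p, (s.geo p' p + s.geo q' p) := by
        refine Finset.sum_le_sum fun p _ => ?_
        have h1 := s.geo_nonneg p' p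
        have h2 := s.geo_nonneg q' p
        rw [abs_le]
        constructor <;> linarith
    _ = 2 := by
        rw [Finset.sum_add_distrib, s.geo_sum, s.geo_sum]
        norm_num

theorem h_of_id {P : Type} [PartialOrder P] [Fintype P] (s : SM (Sd P) P)
    (h : s.c = OrderHom.id) : s.h = topHom P := by
  unfold SM.h
  rw [h]
  rfl

theorem iter (h1 : Stmt_GSD) (h2 : Stmt_GCO) (h3 : Stmt_GME) (M : ℕ) (L : Type) [PartialOrder L]
    (E : EssAx M L) (P : Type) [PartialOrder P] [Fintype P] (g : P →o P0 M) (hg : E.Ess P g)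
    (N : ℕ) (hN1 : 1 ≤ N) (hN : ∀ σ : Sd P, σ.c.card ≤ N) (r : ℕ) :
    ∃ (P' : Type) (_ : PartialOrder P') (_ : Fintype P') (s : SM P' P),
      s.MeshLE (2 * (1 - 1 / (N : ℝ)) ^ r) ∧ E.Ess P' (g.comp s.h) ∧
        ∀ σ : Sd P', σ.c.card ≤ N := by
  induction r with
  | zero =>
    obtain ⟨s, hs, hgeo⟩ := h1 P
    refine ⟨Sd P, inferInstance, inferInstance, s, ?_, ?_, ?_⟩
    · rw [pow_zero, mul_one]
      exact mesh_two s
    · rw [h_of_id s hs]
      exact E.sd P g hg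
    · exact (h3 P N s hs hgeo hN).1
  | succ r ih =>
    obtain ⟨P', i1, i2, s, hm, he, hc⟩ := ih
    obtain ⟨s', hs', hgeo⟩ := h1 P'
    obtain ⟨t, t1, t2, -, -⟩ := h2 (Sd P') P' P s' s
    obtain ⟨c1, c2⟩ := h3 P' N s' hs' hgeo hc
    refine ⟨Sd P', inferInstance, inferInstance, t, ?_, ?_, c1⟩
    · intro σ τ hστ
      have hN0 : (0 : ℝ) ≤ 1 - 1 / (N : ℝ) := by
        have : (1 : ℝ) ≤ N := by exact_mod_cast hN1
        rw [sub_nonneg, div_le_one (by linarith)]
        exact this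
      have h4 := c2 P s.geo (2 * (1 - 1 / (N : ℝ)) ^ r)
        (mul_nonneg (by norm_num) (pow_nonneg hN0 r)) hm σ τ hστ
      rw [t2, t2]
      refine h4.trans (le_of_eq ?_)
      ring
    · rw [t1, h_of_id s' hs']
      exact E.sd P' (g.comp s.h) he

end GRF

open GRF in
theorem GRF (h1 : Stmt_GSD) (h2 : Stmt_GCO) (h3 : Stmt_GME) : Stmt_GRF := by
  intro M L _ E P _ _ g ε hε hg
  have hN : ∀ σ : Sd P, σ.c.card ≤ Fintype.card P + 1 := fun σ =>
    (Finset.card_le_univ σ.c).trans (Nat.le_succ _)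
  have hpos : (0 : ℝ) < ((Fintype.card P + 1 : ℕ) : ℝ) := by
    exact_mod_cast Nat.succ_pos _
  have hlt : 1 - 1 / ((Fintype.card P + 1 : ℕ) : ℝ) < 1 := by
    have := one_div_pos.2 hpos
    linarith
  obtain ⟨r, hr⟩ := exists_pow_lt_of_lt_one (half_pos hε) hlt
  obtain ⟨P', i1, i2, s, hm, he, -⟩ := iter h1 h2 h3 M L E P g hg (Fintype.card P + 1)
    (Nat.succ_le_succ (Nat.zero_le _)) hN r
  refine ⟨P', i1, i2, s, ?_, he⟩
  intro p q hpq
  refine (hm p q hpq).trans ?_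
  linarith

end Pool.Agent.SH
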