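import Pool.Agent.SH.StmtsII

/-!
# GSD: the barycentric subdivision as a stage map
-/

noncomputable section

namespace Pool.Agent.SH

namespace GSD

open Classical in
/-- The barycentre of the chain `σ`. -/
def bar {P : Type} [PartialOrder P] (σ : Sd P) (p : P) : ℝ :=
  if p ∈ σ.c then 1 / (σ.c.card : ℝ) else 0

variable {P : Type} [PartialOrder P]

theorem card_pos (σ : Sd P) : (0 : ℝ) < (σ.c.card : ℝ) := by
  exact_mod_cast Finset.card_pos.2 σ.ne

theorem bar_mem {σ : Sd P} {p : P} (h : p ∈ σ.c) : bar σ p = 1 / (σ.c.card : ℝ) := by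
  unfold bar
  rw [if_pos h]

theorem bar_notMem {σ : Sd P} {p : P} (h : p ∉ σ.c) : bar σ p = 0 := by
  unfold bar
  rw [if_neg h]

theorem bar_nonneg (σ : Sd P) (p : P) : 0 ≤ bar σ p := by
  by_cases h : p ∈ σ.c
  · rw [bar_mem h]
    have := card_pos σ
    positivity
  · rw [bar_notMem h]

theorem bar_sum [Fintype P] (σ : Sd P) : ∑ p, bar σ p = 1 := by
  classical
  have h1 : ∑ p, bar σ p = ∑ p ∈ σ.c, bar σ p := by
    symm
    apply Finset.sum_subset (Finset.subset_univ _)
    intro p _ hp
    exact bar_notMem hp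
  rw [h1, Finset.sum_congr rfl (fun p hp => bar_mem hp), Finset.sum_const, nsmul_eq_mul,
    mul_one_div, div_self (card_pos σ).ne']

theorem bar_supp (σ : Sd P) (p : P) : bar σ p ≠ 0 ↔ p ∈ σ.c := by
  constructor
  · intro h
    by_contra h'
    exact h (bar_notMem h')
  · intro h
    rw [bar_mem h]
    have := card_pos σ
    positivity

/-- Decomposition of weight functions with chain support. -/
theorem decomp [Fintype P] (τ : Finset P) : ∀ (w : P → ℝ), (∀ p, 0 ≤ w p) →
    (∀ p, w p ≠ 0 ↔ p ∈ τ) → (∀ a ∈ τ, ∀ b ∈ τ, a ≤ b ∨ b ≤ a) →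
    ∃ y : Sd P → ℝ, (∀ σ, 0 ≤ y σ) ∧ (∀ σ, y σ ≠ 0 → σ.c ⊆ τ) ∧
      (∀ σ σ', y σ ≠ 0 → y σ' ≠ 0 → σ ≤ σ' ∨ σ' ≤ σ) ∧ ∑ σ, y σ = ∑ p, w p ∧
      ∀ p, ∑ σ, y σ * bar σ p = w p := by
  classical
  induction τ using Finset.strongInduction with
  | H τ ih =>
    intro w hw hs hc
    by_cases hτ : τ.Nonempty
    · obtain ⟨p0, hp0, hmin⟩ := τ.exists_min_image w hτ
      have hm : 0 < w p0 := lt_of_le_of_ne (hw p0) (Ne.symm ((hs p0).2 hp0))
      have hss : τ.filter (fun p => w p0 < w p) ⊂ τ := by
        refine (Finset.filter_subset _ _).ssubset_of_ne ?_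
        intro e
        have : p0 ∈ τ.filter (fun p => w p0 < w p) := by
          rw [e]
          exact hp0
        exact lt_irrefl _ (Finset.mem_filter.1 this).2
      obtain ⟨y, h1, h2, h3, h4, h5⟩ := ih _ hss
        (fun p => w p - if p ∈ τ then w p0 else 0) (by
          intro p
          show 0 ≤ w p - if p ∈ τ then w p0 else 0
          split_ifs with h
          · exact sub_nonneg.2 (hmin p h)
          · rw [sub_zero]
            exact hw p) (by
          intro p
          show w p - (if p ∈ τ then w p0 else 0) ≠ 0 ↔ _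
          rw [Finset.mem_filter]
          split_ifs with h
          · constructor
            · intro h'
              exact ⟨h, lt_of_le_of_ne (hmin p h) (fun e => h' (by rw [e, sub_self]))⟩
            · rintro ⟨-, h'⟩
              exact (sub_pos.2 h').ne'
          · rw [sub_zero]
            constructor
            · intro h'
              exact absurd ((hs p).1 h') h
            · rintro ⟨h', -⟩
              exact absurd h' h)
        (fun a ha b hb => hc a (hss.1 ha) b (hss.1 hb))
      have hcard : (0 : ℝ) < (τ.card : ℝ) := by exact_mod_cast Finset.card_pos.2 hτ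
      let σ₀ : Sd P := ⟨τ, hτ, hc⟩
      have hle : ∀ σ : Sd P, y σ ≠ 0 → σ ≤ σ₀ := fun σ hσ => (h2 σ hσ).trans hss.1
      have hy : ∀ σ : Sd P, y σ + (if σ = σ₀ then w p0 * (τ.card : ℝ) else 0) ≠ 0 →
          σ ≤ σ₀ := by
        intro σ hσ
        by_cases e : σ = σ₀
        · exact e.le
        · rw [if_neg e, add_zero] at hσ
          exact hle σ hσ
      refine ⟨fun σ => y σ + (if σ = σ₀ then w p0 * (τ.card : ℝ) else 0), ?_, ?_, ?_, ?_, ?_⟩
      · intro σ
        show 0 ≤ y σ + (if σ = σ₀ then w p0 * (τ.card : ℝ) else 0)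
        refine add_nonneg (h1 σ) ?_
        split_ifs
        · positivity
        · exact le_rfl
      · intro σ hσ
        exact hy σ hσ
      · intro σ σ' hσ hσ'
        by_cases e : σ = σ₀
        · subst e
          exact Or.inr (hy σ' hσ')
        · by_cases e' : σ' = σ₀
          · subst e'
            exact Or.inl (hy σ hσ)
          · have k : y σ ≠ 0 := by
              have k : y σ + (if σ = σ₀ then w p0 * (τ.card : ℝ) else 0) ≠ 0 := hσ
              rw [if_neg e, add_zero] at k
              exact k
            have k' : y σ' ≠ 0 := by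
              have k : y σ' + (if σ' = σ₀ then w p0 * (τ.card : ℝ) else 0) ≠ 0 := hσ'
              rw [if_neg e', add_zero] at k
              exact k
            exact h3 σ σ' k k'
      · rw [Finset.sum_add_distrib, h4, Finset.sum_sub_distrib, Finset.sum_ite_eq',
          if_pos (Finset.mem_univ _), ← Finset.sum_filter, Finset.sum_const, nsmul_eq_mul]
        have e : Finset.univ.filter (fun p => p ∈ τ) = τ := by
          ext p
          simp
        rw [e]
        ring
      · intro p
        have e : ∀ σ : Sd P, (y σ + (if σ = σ₀ then w p0 * (τ.card : ℝ) else 0)) * bar σ p =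
            y σ * bar σ p + (if σ = σ₀ then w p0 * (τ.card : ℝ) * bar σ p else 0) := by
          intro σ
          rw [add_mul, ite_mul, zero_mul]
        rw [Finset.sum_congr rfl (fun σ _ => e σ), Finset.sum_add_distrib, h5,
          Finset.sum_ite_eq', if_pos (Finset.mem_univ _)]
        by_cases hp : p ∈ τ
        · have e2 : bar σ₀ p = 1 / (τ.card : ℝ) := bar_mem (σ := σ₀) hp
          rw [if_pos hp, e2]
          field_simp
          ring
        · have e2 : bar σ₀ p = 0 := bar_notMem (σ := σ₀) hp
          rw [if_neg hp, e2]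
          ring
    · have h0 : ∀ p, w p = 0 := by
        intro p
        by_contra h
        exact hτ ⟨p, (hs p).1 h⟩
      refine ⟨fun _ => 0, fun _ => le_rfl, fun _ h => absurd rfl h, fun _ _ h => absurd rfl h,
        ?_, ?_⟩
      · simp [h0]
      · intro p
        simp [h0]

end GSD

theorem GSD : Stmt_GSD := by
  classical
  intro P _ _
  refine ⟨{ c := OrderHom.id
            geo := GSD.bar
            geo_nonneg := GSD.bar_nonneg
            geo_sum := GSD.bar_sum
            geo_supp := fun σ p => GSD.bar_supp σ p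
            surj := ?_ }, rfl, fun σ p hp => GSD.bar_mem hp⟩
  rintro w ⟨hw1, -, hw3, hw4⟩
  obtain ⟨y, h1, -, h3, h4, h5⟩ := GSD.decomp (Finset.univ.filter (fun p => w p ≠ 0)) w hw1
    (fun p => by simp) (fun a ha b hb => hw4 a b (Finset.mem_filter.1 ha).2
      (Finset.mem_filter.1 hb).2)
  refine ⟨y, ⟨h1, fun a ha => absurd (Finset.mem_univ a) ha, ?_, h3⟩, ?_⟩
  · rw [h4]
    exact hw3
  · funext p
    exact h5 p

end Pool.Agent.SH
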