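import Pool.Agent.SH.StmtsII

/-!
# MP_2d0b73_an, PART II: the step as a stage map
-/

noncomputable section

namespace Pool.Agent.SH

open CategoryTheory

theorem GST (h1 : Stmt_GSD) : Stmt_GST := by
  classical
  intro P L _ _ _ D f Λ _ hD hf hΛ hne
  obtain ⟨s0, hc, -⟩ := h1 P
  refine ⟨{ c := StepF.pr D f Λ
            geo := fun x => s0.geo (StepF.pr D f Λ x)
            geo_nonneg := fun x p => s0.geo_nonneg _ p
            geo_sum := fun x => s0.geo_sum _
            geo_supp := ?_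
            surj := ?_ }, rfl⟩
  · intro x p
    have := s0.geo_supp (StepF.pr D f Λ x) p
    rw [hc] at this
    exact this
  · intro w hw
    obtain ⟨y, hy, hyw⟩ := s0.surj w hw
    obtain ⟨hy0, -, hy1, hych⟩ := hy
    -- the label outside of `D`
    obtain ⟨l, hl, hlD⟩ : ∃ l ∈ Λ, ∀ σ, y σ ≠ 0 → σ ∈ D → f σ ≤ l := by
      let S : Finset (Sd P) := Finset.univ.filter (fun σ => y σ ≠ 0 ∧ σ ∈ D)
      by_cases hS : S.Nonempty
      · obtain ⟨m, hm, hmax⟩ := S.exists_maximal hS
        have hm' : y m ≠ 0 ∧ m ∈ D := (Finset.mem_filter.1 hm).2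
        refine ⟨f m, hΛ m hm'.2, fun σ h2 h3 => ?_⟩
        have h4 : σ ∈ S := Finset.mem_filter.2 ⟨Finset.mem_univ _, h2, h3⟩
        refine hf h3 hm'.2 ?_
        rcases hych σ m h2 hm'.1 with h5 | h5
        · exact h5
        · exact hmax h4 h5
      · obtain ⟨l, hl⟩ := hne
        refine ⟨l, hl, fun σ h2 h3 => ?_⟩
        exact absurd ⟨σ, Finset.mem_filter.2 ⟨Finset.mem_univ _, h2, h3⟩⟩ hS
    let lab : Sd P → L := fun σ => if σ ∈ D then f σ else l
    have lab_in : ∀ σ, σ ∈ D → lab σ = f σ := fun σ h => if_pos h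
    have lab_out : ∀ σ, σ ∉ D → lab σ = l := fun σ h => if_neg h
    have lab_mem : ∀ σ, lab σ ∈ Λ := by
      intro σ
      by_cases h : σ ∈ D
      · rw [lab_in σ h]
        exact hΛ σ h
      · rw [lab_out σ h]
        exact hl
    have lab_mono : ∀ σ τ, y σ ≠ 0 → y τ ≠ 0 → σ ≤ τ → lab σ ≤ lab τ := by
      intro σ τ h2 h3 h4
      by_cases h5 : τ ∈ D
      · have h6 : σ ∈ D := hD h4 h5
        rw [lab_in σ h6, lab_in τ h5]
        exact hf h6 h5 h4
      · rw [lab_out τ h5]
        by_cases h6 : σ ∈ D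
        · rw [lab_in σ h6]
          exact hlD σ h2 h6
        · rw [lab_out σ h6]
    let sct : Sd P → StepF D f Λ := fun σ => ⟨(σ, lab σ), lab_mem σ, lab_in σ⟩
    have hpr : ∀ σ, StepF.pr D f Λ (sct σ) = σ := fun σ => rfl
    have hinj : Function.Injective sct := fun σ τ h => by
      rw [← hpr σ, ← hpr τ, h]
    let y' : StepF D f Λ → ℝ := fun x =>
      if sct (StepF.pr D f Λ x) = x then y (StepF.pr D f Λ x) else 0
    have hy'1 : ∀ σ, y' (sct σ) = y σ := fun σ => if_pos rfl
    have hy'0 : ∀ x, x ∉ Set.range sct → y' x = 0 := by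
      intro x hx
      refine if_neg fun h => hx ⟨_, h⟩
    have hy'ne : ∀ x, y' x ≠ 0 → ∃ σ, sct σ = x ∧ y σ ≠ 0 := by
      intro x hx
      by_contra h
      push Not at h
      by_cases h2 : x ∈ Set.range sct
      · obtain ⟨σ, rfl⟩ := h2
        rw [hy'1] at hx
        exact hx (h σ rfl)
      · exact hx (hy'0 x h2)
    have hsum : ∀ G : Sd P → ℝ, ∑ x, y' x * G (StepF.pr D f Λ x) = ∑ σ, y σ * G σ := by
      intro G
      symm
      refine Fintype.sum_of_injective sct hinj _ _ ?_ ?_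
      · intro x hx
        rw [hy'0 x hx, zero_mul]
      · intro σ
        rw [hy'1, hpr]
    refine ⟨y', ⟨?_, ?_, ?_, ?_⟩, ?_⟩
    · intro x
      by_cases h : sct (StepF.pr D f Λ x) = x
      · have : y' x = y (StepF.pr D f Λ x) := if_pos h
        rw [this]
        exact hy0 _
      · have : y' x = 0 := if_neg h
        rw [this]
    · intro x hx
      exact absurd (Finset.mem_univ x) hx
    · have := hsum (fun _ => 1)
      simp only [mul_one] at this
      rw [this]
      exact hy1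
    · intro a b ha hb
      obtain ⟨σ, rfl, h2⟩ := hy'ne a ha
      obtain ⟨τ, rfl, h3⟩ := hy'ne b hb
      rcases hych σ τ h2 h3 with h4 | h4
      · exact Or.inl ⟨h4, lab_mono σ τ h2 h3 h4⟩
      · exact Or.inr ⟨h4, lab_mono τ σ h3 h2 h4⟩
    · rw [← hyw]
      funext p
      exact hsum (fun σ => s0.geo σ p)

end Pool.Agent.SH
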