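import Pool.Agent.SH.StmtsII

/-!
# The tower
-/

set_option autoImplicit false

noncomputable section

open Set

namespace Pool.Agent.SH

namespace G

/-- Combinatorial extension problems on `P`. -/
def Task (P L : Type) [PartialOrder P] [PartialOrder L] : Type :=
  {t : Set P × (P → L) // IsLowerSet t.1 ∧ MonotoneOn t.2 t.1}

instance {P L : Type} [PartialOrder P] [PartialOrder L] [Nonempty L] : Nonempty (Task P L) :=
  ⟨⟨(∅, fun _ => Classical.arbitrary L), isLowerSet_empty, fun _ h => h.elim⟩⟩

instance {P L : Type} [PartialOrder P] [PartialOrder L] [Finite P] [Countable L] :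
    Countable (Task P L) := by
  unfold Task
  infer_instance

/-- Pull back of extension problems. -/
def Task.pull {P P' L : Type} [PartialOrder P] [PartialOrder P'] [PartialOrder L] (h : P' →o P)
    (t : Task P L) : Task P' L :=
  ⟨(h ⁻¹' t.1.1, fun p => t.1.2 (h p)), fun _ _ hle hp => t.2.1 (h.monotone hle) hp,
    fun _ hp _ hq hle => t.2.2 hp hq (h.monotone hle)⟩

variable {M : ℕ} {L : Type} [PartialOrder L]

/-- A stage, with the list of the pull backs of the previous extension problems. -/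
structure St (E : EssAx M L) where
  P : Type
  po : PartialOrder P
  ft : Fintype P
  g : P →o P0 M
  ess : E.Ess P g
  t : ℕ → ℕ → Task P L

attribute [instance] St.po St.ft

/-- The next stage. -/
structure Nx {E : EssAx M L} (n : ℕ) (S : St E) where
  S' : St E
  s : SM S'.P S.P
  F : S'.P →o L
  mesh : s.MeshLE ((1 / 2 : ℝ) ^ n)
  hg : S'.g = S.g.comp s.h
  hF : ∀ p, s.h p ∈ (S.t n.unpair.1 n.unpair.2).1.1 → F p = (S.t n.unpair.1 n.unpair.2).1.2 (s.h p)
  ht : ∀ k i, k ≠ n + 1 → S'.t k i = (S.t k i).pull s.h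
  hen : Function.Surjective (S'.t (n + 1))

theorem exists_nx [Nonempty L] [Countable L] (hN : Stmt_GNX) (E : EssAx M L) (n : ℕ) (S : St E) :
    Nonempty (Nx n S) := by
  classical
  obtain ⟨P', po, ft, s, F, h1, h2, h3⟩ := hN M L E S.P S.g (S.t n.unpair.1 n.unpair.2).1.1
    (S.t n.unpair.1 n.unpair.2).1.2 ((1 / 2 : ℝ) ^ n) (by positivity)
    (S.t n.unpair.1 n.unpair.2).2.1 (S.t n.unpair.1 n.unpair.2).2.2 S.ess
  obtain ⟨e, he⟩ := exists_surjective_nat (Task P' L)
  refine ⟨{ S' := ⟨P', po, ft, S.g.comp s.h, h2,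
              fun k i => if k = n + 1 then e i else (S.t k i).pull s.h⟩
            s := s
            F := F
            mesh := h1
            hg := rfl
            hF := h3
            ht := fun k i hk => if_neg hk
            hen := ?_ }⟩
  intro t
  obtain ⟨i, hi⟩ := he t
  exact ⟨i, (if_pos rfl).trans hi⟩

end G

theorem GTW (hN : Stmt_GNX) : Stmt_GTW := by
  classical
  intro M L _ _ _ E
  have hne : ∀ (n : ℕ) (S : G.St E), Nonempty (G.Nx n S) := fun n S => G.exists_nx hN E n S
  let nx : ∀ (n : ℕ) (S : G.St E), G.Nx n S := fun n S => (hne n S).some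
  obtain ⟨e, he⟩ := exists_surjective_nat (G.Task (P0 M) L)
  let S0 : G.St E := ⟨P0 M, inferInstance, inferInstance, OrderHom.id, E.base, fun _ i => e i⟩
  let Sq : ℕ → G.St E := fun n => Nat.rec (motive := fun _ => G.St E) S0 (fun n S => (nx n S).S') n
  have hSq : ∀ n, Sq (n + 1) = (nx n (Sq n)).S' := fun n => rfl
  let τ : Tower :=
    { P := fun n => (Sq n).P
      po := fun n => (Sq n).po
      ft := fun n => (Sq n).ft
      sm := fun n => (nx n (Sq n)).s }
  have hen : ∀ k, Function.Surjective ((Sq k).t k) := by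
    intro k
    cases k with
    | zero => exact he
    | succ k => exact (nx k (Sq k)).hen
  have hpull : ∀ k d i, (Sq (k + d)).t k i = ((Sq k).t k i).pull (τ.H k d) := by
    intro k d i
    induction d with
    | zero => rfl
    | succ d ih =>
      have h1 := (nx (k + d) (Sq (k + d))).ht k i (by omega)
      have h2 : (Sq (k + (d + 1))).t k i =
        ((Sq (k + d)).t k i).pull (nx (k + d) (Sq (k + d))).s.h := h1
      rw [h2, ih]
      rfl
  have hg : ∀ k, (Sq (0 + k)).g = (Sq 0).g.comp (τ.H 0 k) := by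
    intro k
    induction k with
    | zero => rfl
    | succ k ih =>
      have h1 : (Sq (0 + (k + 1))).g = (Sq (0 + k)).g.comp (nx (0 + k) (Sq (0 + k))).s.h :=
        (nx (0 + k) (Sq (0 + k))).hg
      rw [h1, ih]
      rfl
  refine ⟨τ, (Sq 0).g, fun k => (nx k (Sq k)).mesh, ?_, ?_⟩
  · intro k D f hD hf
    obtain ⟨i, hi⟩ := hen k ⟨(D, f), hD, hf⟩
    obtain ⟨d, hd⟩ : ∃ d, Nat.pair k i = k + d :=
      ⟨Nat.pair k i - k, (Nat.add_sub_cancel' (Nat.left_le_pair k i)).symm⟩
    refine ⟨d + 1, (nx (k + d) (Sq (k + d))).F, ?_⟩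
    intro p hp
    have h1 := (nx (k + d) (Sq (k + d))).hF p
    have h2 : (Nat.unpair (k + d)).1 = k := by rw [← hd, Nat.unpair_pair]
    have h3 : (Nat.unpair (k + d)).2 = i := by rw [← hd, Nat.unpair_pair]
    rw [h2, h3, hpull k d i, hi] at h1
    exact h1 hp
  · intro k
    have h1 := (Sq (0 + k)).ess
    rw [hg k] at h1
    exact h1

end Pool.Agent.SH
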