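import Pool.Agent.SH.GBO

/-!
# The one point compactification of a sequence of compacta
-/

set_option autoImplicit false

noncomputable section

open Set Topology

namespace Pool.Agent.SH

namespace W

/-- The one point compactification of the disjoint union of the `X M`. -/
def K (X : ℕ → Type) : Type :=
  {x : ∀ M, X M ⊕ Unit // ∀ M M', M ≠ M' → x M = Sum.inr () ∨ x M' = Sum.inr ()}

variable {X : ℕ → Type} [∀ M, TopologicalSpace (X M)]

instance : TopologicalSpace (K X) := inferInstanceAs (TopologicalSpace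
  {x : ∀ M, X M ⊕ Unit // ∀ M M', M ≠ M' → x M = Sum.inr () ∨ x M' = Sum.inr ()})

theorem secondCountable {Y : Type} [TopologicalSpace Y] [CompactSpace Y]
    [TopologicalSpace.MetrizableSpace Y] : SecondCountableTopology Y := by
  let := TopologicalSpace.metrizableSpaceMetric Y
  infer_instance

theorem isClopen_inr (M : ℕ) : IsClopen {x : ∀ M, X M ⊕ Unit | x M = Sum.inr ()} := by
  have h : {x : ∀ M, X M ⊕ Unit | x M = Sum.inr ()} =
      (fun x : ∀ M, X M ⊕ Unit => x M) ⁻¹' (Set.range Sum.inr) := by
    ext x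
    constructor
    · intro hx
      exact ⟨(), hx.symm⟩
    · rintro ⟨u, hu⟩
      exact hu.symm
  rw [h]
  exact (isClopen_range_inr).preimage (continuous_apply M)

/-- The underlying set. -/
def kset (X : ℕ → Type) : Set (∀ M, X M ⊕ Unit) :=
  {x | ∀ M M', M ≠ M' → x M = Sum.inr () ∨ x M' = Sum.inr ()}

theorem compact_metrizable (h1 : ∀ M, CompactSpace (X M))
    (h2 : ∀ M, TopologicalSpace.MetrizableSpace (X M)) :
    CompactSpace (K X) ∧ TopologicalSpace.MetrizableSpace (K X) := by
  have h3 : ∀ M, SecondCountableTopology (X M) := fun M => secondCountable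
  have hcl : IsClosed {x : ∀ M, X M ⊕ Unit | ∀ M M', M ≠ M' → x M = Sum.inr () ∨
      x M' = Sum.inr ()} := by
    have : {x : ∀ M, X M ⊕ Unit | ∀ M M', M ≠ M' → x M = Sum.inr () ∨ x M' = Sum.inr ()} =
        ⋂ (M) (M') (_ : M ≠ M'), ({x : ∀ M, X M ⊕ Unit | x M = Sum.inr ()} ∪
          {x | x M' = Sum.inr ()}) := by
      ext x
      simp
    rw [this]
    exact isClosed_iInter fun M => isClosed_iInter fun M' => isClosed_iInter fun _ =>
      (isClopen_inr M).isClosed.union (isClopen_inr M').isClosed
  have hc : CompactSpace (K X) := isCompact_iff_compactSpace.1 hcl.isCompact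
  have ht : T2Space (K X) := inferInstanceAs (T2Space
    {x : ∀ M, X M ⊕ Unit // ∀ M M', M ≠ M' → x M = Sum.inr () ∨ x M' = Sum.inr ()})
  have hs : SecondCountableTopology (K X) := inferInstanceAs (SecondCountableTopology
    {x : ∀ M, X M ⊕ Unit // x ∈ kset X})
  exact ⟨hc, inferInstance⟩

/-- The point at infinity. -/
def inf : K X := ⟨fun _ => Sum.inr (), fun _ _ _ => Or.inl rfl⟩

open Classical in
/-- The inclusion of `X M`. -/
def e (M : ℕ) (y : X M) : K X :=
  ⟨Function.update (fun _ => Sum.inr ()) M (Sum.inl y), fun M₁ M₂ h => by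
    by_cases h1 : M₁ = M
    · right
      rw [Function.update_of_ne (fun h2 => h (h1.trans h2.symm))]
    · left
      rw [Function.update_of_ne h1]⟩

/-- The projection to `X M`. -/
def p (M : ℕ) [Nonempty (X M)] (x : K X) : X M :=
  Sum.elim id (fun _ => Classical.arbitrary (X M)) (x.1 M)

/-- The part `X M`. -/
def U (M : ℕ) : Set (K X) := {x | x.1 M ≠ Sum.inr ()}

theorem continuous_e (M : ℕ) : Continuous (e M : X M → K X) := by
  classical
  refine Continuous.subtype_mk ?_ _
  exact continuous_const.update M continuous_inl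

theorem continuous_p (M : ℕ) [Nonempty (X M)] : Continuous (p M : K X → X M) :=
  (Continuous.sumElim continuous_id continuous_const).comp
    ((continuous_apply M).comp continuous_subtype_val)

theorem isClopen_U (M : ℕ) : IsClopen (U M : Set (K X)) :=
  ((isClopen_inr M).preimage continuous_subtype_val).compl

omit [∀ M, TopologicalSpace (X M)] in
theorem e_mem (M : ℕ) (y : X M) : e M y ∈ U M := by
  classical
  show Function.update (fun _ => Sum.inr ()) M (Sum.inl y) M ≠ Sum.inr ()
  rw [Function.update_self]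
  exact Sum.inl_ne_inr

omit [∀ M, TopologicalSpace (X M)] in
theorem p_e (M : ℕ) [Nonempty (X M)] (y : X M) : p M (e M y) = y := by
  classical
  show Sum.elim id (fun _ => Classical.arbitrary (X M))
    (Function.update (fun _ => Sum.inr ()) M (Sum.inl y) M) = y
  rw [Function.update_self]
  rfl

omit [∀ M, TopologicalSpace (X M)] in
theorem e_p (M : ℕ) [Nonempty (X M)] {x : K X} (hx : x ∈ U M) : e M (p M x) = x := by
  classical
  apply Subtype.ext
  funext M'
  show Function.update (fun _ => Sum.inr ()) M (Sum.inl (p M x)) M' = x.1 M'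
  by_cases h : M' = M
  · subst h
    rw [Function.update_self]
    unfold p
    cases h1 : x.1 M' with
    | inl y => rfl
    | inr u => exact absurd h1 hx
  · rw [Function.update_of_ne h]
    rcases x.2 M M' (Ne.symm h) with h1 | h1
    · exact absurd h1 hx
    · exact h1.symm

/-- A neighbourhood of infinity contains almost all `X M`. -/
theorem nhds_inf {W : Set (K X)} (hW : IsOpen W) (h : (inf : K X) ∈ W) :
    ∃ N : ℕ, ∀ x : K X, (∀ M, M < N → x.1 M = Sum.inr ()) → x ∈ W := by
  obtain ⟨W', hW', rfl⟩ := isOpen_induced_iff.1 hW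
  obtain ⟨I, u, hu, hsub⟩ := isOpen_pi_iff.1 hW' _ h
  obtain ⟨N, hN⟩ := I.bddAbove
  refine ⟨N + 1, fun x hx => hsub ?_⟩
  intro a ha
  have h1 : x.1 a = Sum.inr () := hx a (Nat.lt_succ_of_le (hN ha))
  rw [h1]
  exact (hu a ha).2

theorem bigCov_nonempty {Y : Type} [TopologicalSpace Y] {M : ℕ} (h : BigCov Y M) : Nonempty Y := by
  obtain ⟨ι, hι, U, h1, h2, h3⟩ := h
  obtain ⟨x, _⟩ := h3 ι U h1 h2 (fun j => ⟨j, subset_rfl⟩)
  exact ⟨x⟩

theorem bigCov (M : ℕ) (h : BigCov (X M) M) : BigCov (K X) M := by
  have hne : Nonempty (X M) := bigCov_nonempty h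
  obtain ⟨ι, hι, U', h1, h2, h3⟩ := h
  refine ⟨Option ι, inferInstance, fun o => match o with
    | some i => U M ∩ p M ⁻¹' U' i
    | none => (U M)ᶜ, ?_, ?_, ?_⟩
  · intro o
    cases o with
    | none => exact (isClopen_U M).compl.isOpen
    | some i => exact (isClopen_U M).isOpen.inter ((h1 i).preimage (continuous_p M))
  · intro x
    by_cases hx : x ∈ (U M : Set (K X))
    · obtain ⟨i, hi⟩ := h2 (p M x)
      exact ⟨some i, hx, hi⟩
    · exact ⟨none, hx⟩
  · intro κ _ V hV hcov href
    obtain ⟨i₀, _⟩ := h2 (Classical.arbitrary (X M))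
    obtain ⟨x, hx⟩ := h3 κ (fun j => e M ⁻¹' V j) (fun j => (hV j).preimage (continuous_e M))
      (fun x => hcov (e M x)) (by
        intro j
        obtain ⟨o, ho⟩ := href j
        cases o with
        | none =>
          refine ⟨i₀, fun y hy => ?_⟩
          exact absurd (e_mem M y) (ho hy)
        | some i =>
          refine ⟨i, fun y hy => ?_⟩
          have h4 : p M (e M y) ∈ U' i := (ho hy).2
          rwa [p_e] at h4)
    exact ⟨e M x, hx⟩

theorem ext (L : Type) [PartialOrder L] [Nonempty L] (hne : ∀ M, Nonempty (X M))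
    (h1 : ∀ M, CompactSpace (X M)) (h2 : ∀ M, TopologicalSpace.MetrizableSpace (X M))
    (hE : ∀ M, Ext (X M) L) : Ext (K X) L := by
  classical
  obtain ⟨hc, hm⟩ := compact_metrizable h1 h2
  -- the case that `inf` is in `A`
  have key : ∀ (A : Set (K X)) (Q : Finset L) (f : K X → L → ℝ), IsClosed A →
      ContinuousOn f A → (∀ z ∈ A, f z ∈ Rz Q) → inf ∈ A → ∃ (Q' : Finset L) (g : K X → L → ℝ),
      Q ⊆ Q' ∧ Continuous g ∧ (∀ z, g z ∈ Rz Q') ∧ ∀ z ∈ A, g z = f z := by
    intro A Q f hA hf hfQ hinf
    obtain ⟨W, F, hW, hAW, hF, hFQ, hFf⟩ := GAN L (K X) A Q f hA hf hfQ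
    obtain ⟨N, hN⟩ := nhds_inf hW (hAW hinf)
    have hex : ∀ M, ∃ (Q' : Finset L) (g : X M → L → ℝ), Q ⊆ Q' ∧ Continuous g ∧
        (∀ z, g z ∈ Rz Q') ∧ ∀ z ∈ e M ⁻¹' A, g z = f (e M z) := by
      intro M
      exact hE M (e M ⁻¹' A) Q (fun y => f (e M y)) (hA.preimage (continuous_e M))
        (hf.comp (continuous_e M).continuousOn (fun y hy => hy)) (fun y hy => hfQ _ hy)
    choose Q1 g1 hQ1 hg1 hgQ1 hgf1 using hex
    let Q' : Finset L := Q ∪ (Finset.range N).biUnion Q1
    let g : K X → L → ℝ := fun x =>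
      if h : ∃ M, M < N ∧ x.1 M ≠ Sum.inr () then g1 h.choose (p h.choose x) else F x
    have hg1' : ∀ M, M < N → ∀ x ∈ (U M : Set (K X)), g x = g1 M (p M x) := by
      intro M hM x hx
      have h : ∃ M, M < N ∧ x.1 M ≠ Sum.inr () := ⟨M, hM, hx⟩
      have h3 : h.choose = M := by
        by_contra hne'
        rcases x.2 _ _ hne' with h4 | h4
        · exact h.choose_spec.2 h4
        · exact hx h4
      show (if h : ∃ M, M < N ∧ x.1 M ≠ Sum.inr () then g1 h.choose (p h.choose x) else F x) = _
      rw [dif_pos h]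
      rw [h3]
    have hgF : ∀ x : K X, (∀ M, M < N → x.1 M = Sum.inr ()) → g x = F x := by
      intro x hx
      have h : ¬ ∃ M, M < N ∧ x.1 M ≠ Sum.inr () := by
        rintro ⟨M, hM, h⟩
        exact h (hx M hM)
      exact dif_neg h
    have hopen : IsOpen {x : K X | ∀ M, M < N → x.1 M = Sum.inr ()} := by
      have : {x : K X | ∀ M, M < N → x.1 M = Sum.inr ()} =
          ⋂ M ∈ Set.Iio N, {x : K X | x.1 M = Sum.inr ()} := by
        ext x
        simp
      rw [this]
      exact (Set.finite_Iio N).isOpen_biInter fun M _ =>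
        ((isClopen_inr M).preimage continuous_subtype_val).isOpen
    refine ⟨Q', g, Finset.subset_union_left, ?_, ?_, ?_⟩
    · rw [continuous_iff_continuousAt]
      intro x
      by_cases hx : ∃ M, M < N ∧ x ∈ (U M : Set (K X))
      · obtain ⟨M, hM, hx⟩ := hx
        have h3 : ContinuousOn g (U M) :=
          ((hg1 M).comp (continuous_p M)).continuousOn.congr (fun y hy => hg1' M hM y hy)
        exact h3.continuousAt ((isClopen_U M).isOpen.mem_nhds hx)
      · have hx' : ∀ M, M < N → x.1 M = Sum.inr () := by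
          intro M hM
          by_contra h
          exact hx ⟨M, hM, h⟩
        have h3 : ContinuousOn g {x : K X | ∀ M, M < N → x.1 M = Sum.inr ()} :=
          (hF.mono (fun y hy => hN y hy)).congr (fun y hy => hgF y hy)
        exact h3.continuousAt (hopen.mem_nhds hx')
    · intro x
      by_cases hx : ∃ M, M < N ∧ x ∈ (U M : Set (K X))
      · obtain ⟨M, hM, hx⟩ := hx
        rw [hg1' M hM x hx]
        refine Rz_mono ?_ (hgQ1 M _)
        exact (Finset.subset_biUnion_of_mem Q1 (Finset.mem_range.2 hM)).trans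
          Finset.subset_union_right
      · have hx' : ∀ M, M < N → x.1 M = Sum.inr () := by
          intro M hM
          by_contra h
          exact hx ⟨M, hM, h⟩
        rw [hgF x hx']
        exact Rz_mono Finset.subset_union_left (hFQ x (hN x hx'))
    · intro x hxA
      by_cases hx : ∃ M, M < N ∧ x ∈ (U M : Set (K X))
      · obtain ⟨M, hM, hx⟩ := hx
        rw [hg1' M hM x hx]
        have h3 : e M (p M x) ∈ A := by rwa [e_p M hx]
        rw [hgf1 M _ h3, e_p M hx]
      · have hx' : ∀ M, M < N → x.1 M = Sum.inr () := by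
          intro M hM
          by_contra h
          exact hx ⟨M, hM, h⟩
        rw [hgF x hx', hFf x hxA]
  intro A Q f hA hf hfQ
  by_cases hinf : (inf : K X) ∈ A
  · exact key A Q f hA hf hfQ hinf
  · obtain ⟨l₀⟩ := ‹Nonempty L›
    let v : L → ℝ := fun l => if l = l₀ then 1 else 0
    let f' : K X → L → ℝ := fun x => if x = inf then v else f x
    have hf'1 : ∀ z ∈ A, f' z = f z := by
      intro z hz
      refine if_neg (fun h : z = inf => hinf ?_)
      rw [← h]
      exact hz
    have hf'2 : ∀ z ∈ ({inf} : Set (K X)), f' z = v := by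
      intro z hz
      exact if_pos hz
    have hcl : IsClosed ({inf} : Set (K X)) := isClosed_singleton
    obtain ⟨Q', g, h3, h4, h5, h6⟩ := key (A ∪ {inf}) (insert l₀ Q) f' (hA.union hcl)
      (glue2 hA hcl hf (g := fun _ => v) continuousOn_const hf'1 hf'2) (by
        intro z hz
        rcases hz with hz | hz
        · rw [hf'1 z hz]
          exact Rz_mono (Finset.subset_insert _ _) (hfQ z hz)
        · rw [hf'2 z hz]
          refine ⟨fun l => ?_, fun l hl => ?_, ?_, fun a b ha hb => ?_⟩
          · show (0 : ℝ) ≤ if l = l₀ then 1 else 0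
            split_ifs <;> norm_num
          · refine if_neg (fun h : l = l₀ => hl ?_)
            rw [h]
            exact Finset.mem_insert_self _ _
          · show ∑ l ∈ insert l₀ Q, (if l = l₀ then (1 : ℝ) else 0) = 1
            rw [Finset.sum_ite_eq' _ l₀ (fun _ => (1 : ℝ)), if_pos (Finset.mem_insert_self _ _)]
          · have ha' : a = l₀ := by
              by_contra h
              exact ha (if_neg h)
            have hb' : b = l₀ := by
              by_contra h
              exact hb (if_neg h)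
            rw [ha', hb']
            exact Or.inl le_rfl) (Or.inr rfl)
    refine ⟨Q', g, (Finset.subset_insert _ _).trans h3, h4, h5, fun z hz => ?_⟩
    rw [h6 z (Or.inl hz), hf'1 z hz]

end W

theorem GWE : Stmt_GWE := by
  intro L _ _ X _ h1 h2 hE hB
  obtain ⟨hc, hm⟩ := W.compact_metrizable h1 h2
  exact ⟨W.K X, inferInstance, hc, hm,
    W.ext L (fun M => W.bigCov_nonempty (hB M)) h1 h2 hE, fun M => W.bigCov M (hB M)⟩

end Pool.Agent.SH
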