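import Pool.Agent.SH.StmtsII

noncomputable section

namespace Pool.Agent.SH

theorem GXM (h1 : Stmt_GTW) (h2 : Stmt_GLC) (h3 : Stmt_GLE) (h4 : Stmt_GLD) : Stmt_GXM := by
  intro M L _ _ _ E
  obtain ⟨τ, g, hfine, hsol, hess⟩ := h1 M L E
  obtain ⟨hc, hm⟩ := h2 τ
  refine ⟨τ.Lim, inferInstance, hc, hm, h3 τ L hfine hsol, ?_⟩
  refine ⟨τ.P 0, inferInstance, fun v => {x | x.1 0 v ≠ 0}, ?_, ?_, ?_⟩
  · intro v
    have hcont : Continuous fun x : τ.Lim => x.1 0 v :=
      (continuous_apply v).comp ((continuous_apply 0).comp continuous_subtype_val)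
    exact isOpen_ne_fun hcont continuous_const
  · intro x
    by_contra hcon
    push Not at hcon
    have h5 := (x.2 0).1.2.2.1
    have h6 : ∀ v, x.1 0 v = 0 := by
      intro v
      by_contra h
      exact hcon v h
    simp [h6] at h5
  · intro κ _ V hVo hVc hVr
    exact h4 M L E τ g hfine hess κ V hVo hVc hVr

end Pool.Agent.SH
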