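import Pool.Agent.SH.StmtsT

/-!
# MP_2d0b73_an, PART II: extension along arbitrary monomorphisms in the parameter
-/

noncomputable section

namespace Pool.Agent.SH

open CategoryTheory Simplicial MonoidalCategory Limits Opposite

namespace LTB

/-- Lifting against the restriction map `T^B ⟶ T^A` in curried form. -/
theorem lift_iff {T A B Z₀ Z : SSet.{0}} (i : A ⟶ B) (j : Z₀ ⟶ Z) :
    HasLiftingProperty j ((MonoidalClosed.pre i).app T) ↔
      ∀ (u : B ⊗ Z₀ ⟶ T) (v : A ⊗ Z ⟶ T), i ▷ Z₀ ≫ u = A ◁ j ≫ v →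
        ∃ w : B ⊗ Z ⟶ T, B ◁ j ≫ w = u ∧ i ▷ Z ≫ w = v := by
  constructor
  · intro h u v huv
    have sq : CommSq (MonoidalClosed.curry u) j ((MonoidalClosed.pre i).app T)
        (MonoidalClosed.curry v) := by
      constructor
      rw [MonoidalClosed.curry_pre_app, huv, MonoidalClosed.curry_natural_left]
    refine ⟨MonoidalClosed.uncurry sq.lift, ?_, ?_⟩
    · rw [← MonoidalClosed.uncurry_natural_left, sq.fac_left, MonoidalClosed.uncurry_curry]
    · apply MonoidalClosed.curry_injective
      rw [← MonoidalClosed.curry_pre_app, MonoidalClosed.curry_uncurry, sq.fac_right]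
  · intro h
    constructor
    intro f g sq
    obtain ⟨w, h1, h2⟩ := h (MonoidalClosed.uncurry f) (MonoidalClosed.uncurry g) (by
      apply MonoidalClosed.curry_injective
      rw [← MonoidalClosed.curry_pre_app, MonoidalClosed.curry_uncurry,
        MonoidalClosed.curry_natural_left, MonoidalClosed.curry_uncurry, sq.w])
    refine ⟨⟨{ l := MonoidalClosed.curry w, fac_left := ?_, fac_right := ?_ }⟩⟩
    · rw [← MonoidalClosed.curry_natural_left, h1, MonoidalClosed.curry_uncurry]
    · rw [MonoidalClosed.curry_pre_app, h2, MonoidalClosed.curry_uncurry]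

end LTB

theorem LTB : Stmt_LTB := by
  intro T A B i hi Z₀ Z j hj
  rw [← LTB.lift_iff]
  have h : (MorphismProperty.monomorphisms SSet.{0}).rlp ((MonoidalClosed.pre i).app T) := by
    rw [SSet.rlp_monomorphisms]
    rintro _ _ _ ⟨n⟩
    rw [LTB.lift_iff]
    exact hi.2 n
  exact h j hj

end Pool.Agent.SH
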