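import Pool.Agent.SH.StmtsT

/-!
# MP_2d0b73_an, PART II: cancellation for `LT` maps
-/

noncomputable section

namespace Pool.Agent.SH

open CategoryTheory Simplicial MonoidalCategory Limits Opposite HomotopicalAlgebra
open scoped SSet.modelCategoryQuillen

namespace LTC

/-- The simplex `t` of `Δ[1]` is constant with value `1`. -/
def IsOne {m : SimplexCategoryᵒᵖ} (t : (Δ[1] : SSet.{0}).obj m) : Prop :=
  ∀ i, SSet.stdSimplex.asOrderHom t i = 1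

/-- The two ends of `Δ[1]`. -/
def ends : (Δ[1] : SSet.{0}).Subcomplex where
  obj _ := Set.ofPred (fun t => (∀ i, SSet.stdSimplex.asOrderHom t i = 0) ∨
    (∀ i, SSet.stdSimplex.asOrderHom t i = 1))
  map _ _ ht := Or.imp (fun h _ => h _) (fun h _ => h _) ht

theorem mem_ends {m : SimplexCategoryᵒᵖ} (t : (Δ[1] : SSet.{0}).obj m) :
    t ∈ ends.obj m ↔ (∀ i, SSet.stdSimplex.asOrderHom t i = 0) ∨ IsOne t := Iff.rfl

theorem isOne_map {m m' : SimplexCategoryᵒᵖ} (f : m ⟶ m') {t : (Δ[1] : SSet.{0}).obj m}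
    (h : IsOne t) : IsOne ((Δ[1] : SSet.{0}).map f t) := fun _ => h _

theorem mem_of_isOne_map {m m' : SimplexCategoryᵒᵖ} (f : m ⟶ m') {t : (Δ[1] : SSet.{0}).obj m}
    (h : IsOne ((Δ[1] : SSet.{0}).map f t)) (h' : ¬ IsOne t) : t ∉ ends.obj m := by
  rintro (h0 | h1)
  · have h2 := h 0
    have h3 := h0 (f.unop.toOrderHom 0)
    have h4 : SSet.stdSimplex.asOrderHom ((Δ[1] : SSet.{0}).map f t) 0 =
        SSet.stdSimplex.asOrderHom t (f.unop.toOrderHom 0) := rfl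
    rw [h4, h3] at h2
    exact absurd h2 (by decide)
  · exact h' h1

theorem fin_two (x : Fin (1 + 1)) : x = 0 ∨ x = 1 := Fin.exists_fin_two.mp ⟨x, rfl⟩

theorem not_isOne_of_horn {m : SimplexCategoryᵒᵖ} {t : (Δ[1] : SSet.{0}).obj m}
    (h : t ∈ (SSet.horn 1 0).obj m) : ¬ IsOne t := by
  intro h1
  rw [SSet.mem_horn_iff] at h
  apply h
  rw [Set.eq_univ_iff_forall]
  intro x
  rcases fin_two x with hx | hx
  · right
    exact hx
  · left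
    exact ⟨0, (h1 0).trans hx.symm⟩

theorem mem_ends_of_horn {m : SimplexCategoryᵒᵖ} {t : (Δ[1] : SSet.{0}).obj m}
    (h : t ∈ (SSet.horn 1 0).obj m) : t ∈ ends.obj m := by
  left
  intro i
  rw [SSet.mem_horn_iff] at h
  by_contra hi
  apply h
  rw [Set.eq_univ_iff_forall]
  intro x
  have h2 : SSet.stdSimplex.asOrderHom t i = 1 := by
    rcases fin_two (SSet.stdSimplex.asOrderHom t i) with hx | hx
    · exact absurd hx hi
    · exact hx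
  rcases fin_two x with hx | hx
  · right
    exact hx
  · left
    exact ⟨i, h2.trans hx.symm⟩

theorem mem_horn_zero {m : SimplexCategoryᵒᵖ} {t : (Δ[1] : SSet.{0}).obj m}
    (h : ∀ i, SSet.stdSimplex.asOrderHom t i = 0) : t ∈ (SSet.horn 1 0).obj m := by
  rw [SSet.mem_horn_iff]
  intro h1
  have h2 := Set.eq_univ_iff_forall.mp h1 1
  rcases h2 with ⟨i, hi⟩ | h2
  · rw [h i] at hi
    exact absurd hi (by decide)
  · exact absurd h2 (by decide)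

variable {A B C T L : SSet.{0}}

open Classical in
/-- The map `v` at the end `1` of the interval and `w` elsewhere. -/
def glue (S : L.Subcomplex) (j : B ⟶ C) (v : B ⊗ L ⟶ T) (w : C ⊗ L ⟶ T)
    (h : ∀ (m : SimplexCategoryᵒᵖ) (b : B.obj m) (x : L.obj m), x ∈ S.obj m →
      v.app m ⟨b, x⟩ = w.app m ⟨j.app m b, x⟩) :
    B ⊗ (S.unionProd ends : SSet.{0}) ⟶ T where
  app m := ↾fun z => if IsOne z.2.1.2 then v.app m ⟨z.1, z.2.1.1⟩
    else w.app m ⟨j.app m z.1, z.2.1.1⟩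
  naturality m m' f := by
    ext z
    obtain ⟨b, ⟨⟨x, t⟩, hz⟩⟩ := z
    change (if IsOne ((Δ[1] : SSet.{0}).map f t) then v.app m' ⟨B.map f b, L.map f x⟩
      else w.app m' ⟨j.app m' (B.map f b), L.map f x⟩) =
      T.map f (if IsOne t then v.app m ⟨b, x⟩ else w.app m ⟨j.app m b, x⟩)
    have hv : v.app m' ⟨B.map f b, L.map f x⟩ = T.map f (v.app m ⟨b, x⟩) :=
      NatTrans.naturality_apply v f (⟨b, x⟩ : (B ⊗ L).obj m)
    have hw : w.app m' ⟨j.app m' (B.map f b), L.map f x⟩ = T.map f (w.app m ⟨j.app m b, x⟩) := by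
      have h1 : j.app m' (B.map f b) = C.map f (j.app m b) := NatTrans.naturality_apply j f b
      rw [h1]
      exact NatTrans.naturality_apply w f (⟨j.app m b, x⟩ : (C ⊗ L).obj m)
    by_cases ht : IsOne t
    · rw [if_pos ht, if_pos (isOne_map f ht), hv]
    · rw [if_neg ht]
      by_cases ht' : IsOne ((Δ[1] : SSet.{0}).map f t)
      · rw [if_pos ht', hv]
        have hx : x ∈ S.obj m := by
          rcases (SSet.Subcomplex.mem_unionProd_iff S ends (⟨x, t⟩ : (L ⊗ Δ[1]).obj m)).mp hz with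
            h1 | h1
          · exact absurd h1 (mem_of_isOne_map f ht' ht)
          · exact h1
        rw [h m b x hx]
      · rw [if_neg ht', hw]

open Classical in
theorem glue_app (S : L.Subcomplex) (j : B ⟶ C) (v : B ⊗ L ⟶ T) (w : C ⊗ L ⟶ T)
    (h : ∀ (m : SimplexCategoryᵒᵖ) (b : B.obj m) (x : L.obj m), x ∈ S.obj m →
      v.app m ⟨b, x⟩ = w.app m ⟨j.app m b, x⟩) (m : SimplexCategoryᵒᵖ) (b : B.obj m)
    (x : L.obj m) (t : (Δ[1] : SSet.{0}).obj m)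
    (hz : (⟨x, t⟩ : (L ⊗ Δ[1]).obj m) ∈ (S.unionProd ends).obj m) :
    (glue S j v w h).app m (⟨b, ⟨⟨x, t⟩, hz⟩⟩ : (B ⊗ (S.unionProd ends : SSet.{0})).obj m) =
      if IsOne t then v.app m ⟨b, x⟩ else w.app m ⟨j.app m b, x⟩ := rfl

/-- Extension along anodyne maps in the parameter. -/
theorem extend_anodyne (T : SSet.{0}) [SSet.KanComplex T] {B C Z₀ Z : SSet.{0}} (j : B ⟶ C) [Mono j]
    (k : Z₀ ⟶ Z) (hk : SSet.anodyneExtensions k) (u : C ⊗ Z₀ ⟶ T) (v : B ⊗ Z ⟶ T)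
    (h : j ▷ Z₀ ≫ u = B ◁ k ≫ v) : ∃ G : C ⊗ Z ⟶ T, C ◁ k ≫ G = u ∧ j ▷ Z ≫ G = v := by
  have hf : Fibration ((MonoidalClosed.pre j).app T) := inferInstance
  have hl := hk _ ((HomotopicalAlgebra.fibration_iff _).mp hf)
  have sq : CommSq (MonoidalClosed.curry u) k ((MonoidalClosed.pre j).app T)
      (MonoidalClosed.curry v) := ⟨by
    rw [MonoidalClosed.curry_pre_app, h, MonoidalClosed.curry_natural_left]⟩
  refine ⟨MonoidalClosed.uncurry sq.lift, ?_, ?_⟩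
  · rw [← MonoidalClosed.uncurry_natural_left, sq.fac_left, MonoidalClosed.uncurry_curry]
  · rw [← MonoidalClosed.uncurry_pre_app, sq.fac_right, MonoidalClosed.uncurry_curry]

end LTC

theorem LTC (h1 : Stmt_LTB) : Stmt_LTC := by
  intro T A B C i j hT hj hi hij
  refine ⟨hj, ?_⟩
  intro n u v huv
  -- a first extension of `u` which agrees with `v` on `A`
  obtain ⟨w, hw1, hw2⟩ := hij.2 n u (i ▷ Δ[n] ≫ v) (by
    rw [MonoidalCategory.comp_whiskerRight, Category.assoc, huv, whisker_exchange_assoc])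
  have hu : ∀ (m : SimplexCategoryᵒᵖ) (c : C.obj m) (x : (Δ[n] : SSet.{0}).obj m)
      (hx : x ∈ (∂Δ[n] : (Δ[n] : SSet.{0}).Subcomplex).obj m),
      w.app m ⟨c, x⟩ = u.app m ⟨c, ⟨x, hx⟩⟩ := by
    intro m c x hx
    rw [← hw1]
    rfl
  have hel : ∀ (m : SimplexCategoryᵒᵖ) (b : B.obj m) (x : (Δ[n] : SSet.{0}).obj m),
      x ∈ (∂Δ[n] : (Δ[n] : SSet.{0}).Subcomplex).obj m →
      v.app m ⟨b, x⟩ = w.app m ⟨j.app m b, x⟩ := by
    intro m b x hx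
    rw [hu m _ x hx]
    exact (congrArg (fun f : B ⊗ (∂Δ[n] : SSet.{0}) ⟶ T => f.app m ⟨b, ⟨x, hx⟩⟩) huv).symm
  have hA : ∀ (m : SimplexCategoryᵒᵖ) (a : A.obj m) (x : (Δ[n] : SSet.{0}).obj m),
      w.app m ⟨j.app m (i.app m a), x⟩ = v.app m ⟨i.app m a, x⟩ := by
    intro m a x
    exact congrArg (fun f : A ⊗ Δ[n] ⟶ T => f.app m ⟨a, x⟩) hw2
  -- the homotopy
  let W := (∂Δ[n] : (Δ[n] : SSet.{0}).Subcomplex).unionProd LTC.ends
  let W₀ := (∂Δ[n] : (Δ[n] : SSet.{0}).Subcomplex).unionProd (SSet.horn 1 0)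
  obtain ⟨H, hH, -⟩ := h1 T A B i hi (W : SSet.{0}) (Δ[n] ⊗ Δ[1]) W.ι inferInstance
    (LTC.glue (∂Δ[n]) j v w hel) (A ◁ CartesianMonoidalCategory.fst Δ[n] Δ[1] ≫ i ▷ Δ[n] ≫ v)
    (by
      ext m z
      obtain ⟨a, ⟨⟨x, t⟩, hz⟩⟩ := z
      change (LTC.glue (∂Δ[n]) j v w hel).app m ⟨i.app m a, ⟨⟨x, t⟩, hz⟩⟩ =
        v.app m ⟨i.app m a, x⟩
      rw [LTC.glue_app]
      split_ifs with ht
      · rfl
      · exact hA m a x)
  have hHv : ∀ (m : SimplexCategoryᵒᵖ) (b : B.obj m) (x : (Δ[n] : SSet.{0}).obj m)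
      (t : (Δ[1] : SSet.{0}).obj m), LTC.IsOne t → H.app m ⟨b, ⟨x, t⟩⟩ = v.app m ⟨b, x⟩ := by
    intro m b x t ht
    have hz : (⟨x, t⟩ : (Δ[n] ⊗ Δ[1] : SSet.{0}).obj m) ∈ W.obj m :=
      (SSet.Subcomplex.mem_unionProd_iff _ _ _).mpr (Or.inl (Or.inr ht))
    have h2 := congrArg (fun f : B ⊗ (W : SSet.{0}) ⟶ T => f.app m ⟨b, ⟨⟨x, t⟩, hz⟩⟩) hH
    refine Eq.trans h2 ?_
    exact (LTC.glue_app _ _ _ _ _ m b x t hz).trans (if_pos ht)
  have hHw : ∀ (m : SimplexCategoryᵒᵖ) (b : B.obj m) (x : (Δ[n] : SSet.{0}).obj m)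
      (t : (Δ[1] : SSet.{0}).obj m), (⟨x, t⟩ : (Δ[n] ⊗ Δ[1] : SSet.{0}).obj m) ∈ W₀.obj m →
      H.app m ⟨b, ⟨x, t⟩⟩ = w.app m ⟨j.app m b, x⟩ := by
    intro m b x t h0
    have h0' := (SSet.Subcomplex.mem_unionProd_iff _ _ _).mp h0
    have hz : (⟨x, t⟩ : (Δ[n] ⊗ Δ[1] : SSet.{0}).obj m) ∈ W.obj m :=
      (SSet.Subcomplex.mem_unionProd_iff _ _ _).mpr (h0'.imp LTC.mem_ends_of_horn id)
    have h2 := congrArg (fun f : B ⊗ (W : SSet.{0}) ⟶ T => f.app m ⟨b, ⟨⟨x, t⟩, hz⟩⟩) hH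
    refine Eq.trans h2 ?_
    refine (LTC.glue_app _ _ _ _ _ m b x t hz).trans ?_
    split_ifs with ht
    · rcases h0' with h3 | h3
      · exact absurd ht (LTC.not_isOne_of_horn h3)
      · exact hel m b x h3
    · rfl
  -- the extension
  obtain ⟨G, hG1, hG2⟩ := LTC.extend_anodyne T j W₀.ι
    (SSet.anodyneExtensions_unionProd_ι _ _ (SSet.anodyneExtensions.horn_ι 0))
    (C ◁ (W₀.ι ≫ CartesianMonoidalCategory.fst Δ[n] Δ[1]) ≫ w) H (by
      ext m z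
      obtain ⟨b, ⟨⟨x, t⟩, hz⟩⟩ := z
      exact (hHw m b x t hz).symm)
  refine ⟨C ◁ SSet.ι₁ ≫ G, ?_, ?_⟩
  · ext m z
    obtain ⟨c, ⟨x, hx⟩⟩ := z
    refine Eq.trans ?_ (hu m c x hx)
    have hz : (⟨x, (SSet.ι₁.app m x).2⟩ : (Δ[n] ⊗ Δ[1] : SSet.{0}).obj m) ∈ W₀.obj m :=
      (SSet.Subcomplex.mem_unionProd_iff _ _ _).mpr (Or.inr hx)
    exact congrArg (fun f : C ⊗ (W₀ : SSet.{0}) ⟶ T => f.app m ⟨c, ⟨_, hz⟩⟩) hG1
  · ext m z
    obtain ⟨b, x⟩ := z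
    have h2 := congrArg (fun f : B ⊗ (Δ[n] ⊗ Δ[1]) ⟶ T => f.app m ⟨b, SSet.ι₁.app m x⟩) hG2
    refine Eq.trans h2 ?_
    exact hHv m b x _ (fun i => rfl)

end Pool.Agent.SH
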