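import Pool.Agent.SH.StmtsT

/-!
# SH_LTD: union of two subcomplexes
-/

noncomputable section

namespace Pool.Agent.SH

open CategoryTheory Simplicial MonoidalCategory Limits Opposite

namespace LTD

theorem bicart {X : SSet.{0}} (U V : X.Subcomplex) :
    SSet.Subcomplex.BicartSq (U ⊓ V) U V (U ⊔ V) where
  sup_eq := rfl
  inf_eq := rfl

theorem push {X : SSet.{0}} (U V : X.Subcomplex) (K : SSet.{0}) :
    IsPushout (SSet.Subcomplex.homOfLE (inf_le_left : U ⊓ V ≤ U) ▷ K)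
      (SSet.Subcomplex.homOfLE (inf_le_right : U ⊓ V ≤ V) ▷ K)
      (SSet.Subcomplex.homOfLE (le_sup_left : U ≤ U ⊔ V) ▷ K)
      (SSet.Subcomplex.homOfLE (le_sup_right : V ≤ U ⊔ V) ▷ K) :=
  (bicart U V).isPushout.map (tensorRight K)

end LTD

theorem LTD : Stmt_LTD := by
  rintro T X U V ⟨h, hm, hV⟩
  refine ⟨le_sup_left, inferInstance, ?_⟩
  intro n u v huv
  have hu' := hV n (SSet.Subcomplex.homOfLE (le_sup_right : V ≤ U ⊔ V) ▷ (∂Δ[n] : SSet.{0}) ≫ u)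
    (SSet.Subcomplex.homOfLE (inf_le_left : U ⊓ V ≤ U) ▷ Δ[n] ≫ v) (by
      rw [whisker_exchange_assoc, ← huv, ← comp_whiskerRight_assoc, ← comp_whiskerRight_assoc]
      rfl)
  obtain ⟨w1, hw1, hw2⟩ := hu'
  have hp := LTD.push U V (Δ[n] : SSet.{0})
  have hp' := LTD.push U V (∂Δ[n] : SSet.{0})
  refine ⟨hp.desc v w1 (by rw [hw2]), ?_, hp.inl_desc _ _ _⟩
  apply hp'.hom_ext
  · rw [← whisker_exchange_assoc, hp.inl_desc, huv]
  · rw [← whisker_exchange_assoc, hp.inr_desc, hw1]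

end Pool.Agent.SH
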