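import Pool.Agent.SH.DefsII

/-!
# MP_2d0b73_an, PART II: statements of the homotopical modules (helper38)
-/

noncomputable section

namespace Pool.Agent.SH

open CategoryTheory Simplicial MonoidalCategory Limits Opposite

/-- LTA: composition. -/
def Stmt_LTA : Prop :=
  ∀ (T A B C : SSet.{0}) (i : A ⟶ B) (j : B ⟶ C), LT T i → LT T j → LT T (i ≫ j)

/-- LTB: extension along arbitrary monomorphisms `Z₀ ⟶ Z` in the parameter. -/
def Stmt_LTB : Prop :=
  ∀ (T A B : SSet.{0}) (i : A ⟶ B), LT T i →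
    ∀ (Z₀ Z : SSet.{0}) (j : Z₀ ⟶ Z) (_ : Mono j) (u : B ⊗ Z₀ ⟶ T) (v : A ⊗ Z ⟶ T),
      i ▷ Z₀ ≫ u = A ◁ j ≫ v → ∃ w : B ⊗ Z ⟶ T, B ◁ j ≫ w = u ∧ i ▷ Z ≫ w = v

/-- LTC: cancellation (`T` Kan). -/
def Stmt_LTC : Prop :=
  ∀ (T A B C : SSet.{0}) (i : A ⟶ B) (j : B ⟶ C), SSet.KanComplex T → Mono j →
    LT T i → LT T (i ≫ j) → LT T j

/-- LTD: pushout, in the form of a union of two subcomplexes. -/
def Stmt_LTD : Prop :=
  ∀ (T X : SSet.{0}) (U V : X.Subcomplex), LTS T (U ⊓ V) V → LTS T U (U ⊔ V)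

/-- LTE: anodyne extensions are in `LT T`, `T` Kan. -/
def Stmt_LTE : Prop :=
  ∀ (T A B : SSet.{0}) (i : A ⟶ B), SSet.KanComplex T → Mono i → SSet.anodyneExtensions i → LT T i

/-- LTF: strong deformation retracts (simplicial homotopy in one of the two directions)
are anodyne extensions. -/
def Stmt_LTF : Prop :=
  ∀ (A B : SSet.{0}) (i : A ⟶ B) (r : B ⟶ A), i ≫ r = 𝟙 A →
    ((∃ H : SSet.Homotopy (r ≫ i) (𝟙 B),
        i ▷ Δ[1] ≫ H.h = CartesianMonoidalCategory.fst A Δ[1] ≫ i) ∨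
      (∃ H : SSet.Homotopy (𝟙 B) (r ≫ i),
        i ▷ Δ[1] ≫ H.h = CartesianMonoidalCategory.fst A Δ[1] ≫ i)) →
    SSet.anodyneExtensions i

/-- LTX: `LT T` is invariant under isomorphisms of arrows. -/
def Stmt_LTX : Prop :=
  ∀ (T A B A' B' : SSet.{0}) (i : A ⟶ B) (i' : A' ⟶ B') (a : A ≅ A') (b : B ≅ B'),
    a.hom ≫ i' = i ≫ b.hom → LT T i → LT T i'

/-- LTY: transport of parts of nerves along an order embedding. -/
def Stmt_LTY : Prop :=
  ∀ (T : SSet.{0}) (R' R : Type) [PartialOrder R'] [PartialOrder R] (φ : R' ↪o R) (A B : Set R'),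
    LTS T (subN A) (subN B) ↔ LTS T (subN (φ '' A)) (subN (φ '' B))

/-- LTZ: whole nerves and their parts. -/
def Stmt_LTZ : Prop :=
  ∀ (T : SSet.{0}) (R : Type) [PartialOrder R],
    (∀ A : Set R, LTS T (subN A) (subN Set.univ) ↔ LT T (subN A).ι) ∧
    (TAcyclic T (NP R) → AcyS T (Set.univ : Set R))

/-- LTG: comparable monotone maps give homotopic maps of nerves, relatively to the part on
which they agree. -/
def Stmt_LTG : Prop :=
  ∀ (P R : Type) [PartialOrder P] [PartialOrder R] (f g : P →o R), f ≤ g →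
    ∃ H : SSet.Homotopy (NMap f) (NMap g),
      ∀ U : Set P, (∀ x ∈ U, f x = g x) →
        (subN U).ι ▷ Δ[1] ≫ H.h =
          CartesianMonoidalCategory.fst _ Δ[1] ≫ (subN U).ι ≫ NMap f

/-- LTH: a monotone retraction of the part `V` of `R` onto the part `V₀`, comparable with the
identity, puts the inclusion in `LT T`. -/
def Stmt_LTH : Prop :=
  ∀ (T : SSet.{0}) (R : Type) [PartialOrder R] (V₀ V : Set R) (r : R → R),
    SSet.KanComplex T → V₀ ⊆ V → MonotoneOn r V → Set.MapsTo r V V₀ → (∀ x ∈ V₀, r x = x) →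
    ((∀ x ∈ V, x ≤ r x) ∨ (∀ x ∈ V, r x ≤ x)) → LTS T (subN V₀) (subN V)

/-- LTI: a part with a largest element is acyclic, with respect to each of its vertices. -/
def Stmt_LTI : Prop :=
  ∀ (T : SSet.{0}) (R : Type) [PartialOrder R] (V : Set R) (p : R),
    SSet.KanComplex T → p ∈ V → (∀ x ∈ V, x ≤ p) → ∀ a ∈ V, LTS T (subN {a}) (subN V)

/-- LTJ: adding one element `p` on top of an acyclic part. -/
def Stmt_LTJ : Prop :=
  ∀ (T : SSet.{0}) (R : Type) [PartialOrder R] (U : Set R) (p : R),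
    SSet.KanComplex T → p ∉ U → (∀ u ∈ U, ¬ p ≤ u) → AcyS T {u | u ∈ U ∧ u < p} →
    LTS T (subN U) (subN (insert p U))

/-- LTK: adding finitely many elements one after the other (Quillen's Theorem A). -/
def Stmt_LTK : Prop :=
  ∀ (T : SSet.{0}) (R : Type) [PartialOrder R] (A U : Set R),
    SSet.KanComplex T → U.Finite → (∀ a ∈ A, ∀ u ∈ U, ¬ u ≤ a) →
    (∀ u ∈ U, AcyS T {a | a ∈ A ∧ a < u}) → LTS T (subN A) (subN (A ∪ U))

/-- LTL: symmetric-transitive calculus of null homotopic maps for `T` Kan. -/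
def Stmt_LTL : Prop :=
  ∀ (X T : SSet.{0}) (f g : X ⟶ T), SSet.KanComplex T →
    (Nonempty (SSet.Homotopy f g) ∨ Nonempty (SSet.Homotopy g f)) → Null f → Null g

/-- LTR: a null homotopic map is homotopic to the constant map at each of its values. -/
def Stmt_LTR : Prop :=
  ∀ (X T : SSet.{0}) (f : X ⟶ T) (x : X _⦋0⦌), SSet.KanComplex T → Null f →
    Nonempty (SSet.Homotopy f (SSet.const (f.app _ x)))

/-- LTM: null homotopies descend along `h : P' → P` with acyclic fibres. -/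
def Stmt_LTM : Prop :=
  ∀ (T : SSet.{0}) (P' P : Type) [PartialOrder P'] [PartialOrder P] [Finite P] (h : P' →o P)
    (g : NP P ⟶ T), SSet.KanComplex T → (∀ p, AcyS T {p' | h p' ≤ p}) →
    Null (NMap h ≫ g) → Null g

/-- LTN: the fibres of the last vertex map are acyclic. -/
def Stmt_LTN : Prop :=
  ∀ (T : SSet.{0}) (P : Type) [PartialOrder P] (p : P), SSet.KanComplex T →
    AcyS T ({s | s.top ≤ p} : Set (Sd P))

/-- LTO: the fibres of the step are acyclic, if `L` is. -/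
def Stmt_LTO : Prop :=
  ∀ (T : SSet.{0}) (P L : Type) [PartialOrder P] [PartialOrder L] (D : Set P) (f : P → L) (p : P),
    SSet.KanComplex T → TAcyclic T (NP L) → IsLowerSet D → MonotoneOn f D →
    AcyS T ({x | StepP.pr D f x ≤ p} : Set (StepP D f))

/-- LTP: compactness: if the restrictions to all finite steps (with labels in `Λ ⊇ Λ₀`) are null,
then the map on the step is null. -/
def Stmt_LTP : Prop :=
  ∀ (T : SSet.{0}) (P L : Type) [PartialOrder P] [PartialOrder L] [Finite P] (D : Set P)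
    (f : P → L) (g : NP P ⟶ T) (Λ₀ : Finset L), SSet.KanComplex T → TCompact T →
    (∀ Λ : Finset L, Λ₀ ⊆ Λ → Null (NMap (StepF.pr D f Λ) ≫ g)) →
    Null (NMap (StepP.pr D f) ≫ g)

/-- LTQ: a map into the boundary of the simplex which misses a facet is null. -/
def Stmt_LTQ : Prop :=
  ∀ (T : SSet.{0}) (M : ℕ) (e : NP (P0 M) ⟶ T) (P : Type) [PartialOrder P] (g : P →o P0 M)
    (F : P0 M), SSet.KanComplex T → F.s.card = M + 1 → (∀ p, g p ≠ F) → Null (NMap g ≫ e)

/-- BRIDGE: the essentiality predicate of PART II from PART III. -/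
def Stmt_BRIDGE : Prop :=
  ∀ (M : ℕ) (L : Type) [PartialOrder L] (T : SSet.{0}) (e : NP (P0 M) ⟶ T),
    SSet.KanComplex T → TCompact T → TAcyclic T (NP L) → ¬ Null e → Nonempty (EssAx M L)

end Pool.Agent.SH
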