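import Mathlib
import Pool.Agent.SH.StmtsT

/-!
# MP_2d0b73_an, PART II: anodyne extensions are in `LT T`
-/

open CategoryTheory Simplicial MonoidalCategory Limits Opposite

namespace Pool.Agent.SH

theorem LTE : Stmt_LTE := by
  intro T A B i hT hi hanod
  refine ⟨hi, fun n u v huv => ?_⟩
  let sq := Functor.PushoutObjObj.ofHasPushout (curriedTensor SSet.{0}) i
    (∂Δ[n] : (Δ[n] : SSet.{0}).Subcomplex).ι
  have h0 : SSet.anodyneExtensions sq.ι := SSet.anodyneExtensions_pushoutObjObjι' sq hanod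
  have h1 : HasLiftingProperty sq.ι (terminal.from T) := by
    apply h0
    rw [← HomotopicalAlgebra.fibration_iff]
    infer_instance
  let t : sq.pt ⟶ T := sq.isPushout.desc u v huv
  have hsq : CommSq t sq.ι (terminal.from T) (terminal.from _) := ⟨by simp⟩
  refine ⟨hsq.lift, ?_, ?_⟩
  · have h2 : sq.inl ≫ sq.ι = B ◁ ∂Δ[n].ι := sq.inl_ι
    rw [← h2, Category.assoc, hsq.fac_left]
    exact sq.isPushout.inl_desc _ _ _
  · have h2 : sq.inr ≫ sq.ι = i ▷ Δ[n] := sq.inr_ι
    rw [← h2, Category.assoc, hsq.fac_left]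
    exact sq.isPushout.inr_desc _ _ _

end Pool.Agent.SH
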