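import Pool.Agent.SH.StmtsT

/-!
# MP_2d0b73_an, PART II: strong deformation retracts are anodyne extensions
-/

noncomputable section

namespace Pool.Agent.SH

open CategoryTheory Simplicial MonoidalCategory Limits Opposite

namespace LTF

open CartesianMonoidalCategory

theorem const_eq (k : Fin 2) {m : ℕ} (s : (Δ[1] : SSet.{0}) _⦋m⦌)
    (hs : s ∈ (Λ[1, k] : (Δ[1] : SSet.{0}).Subcomplex).obj (op ⦋m⦌)) (t : Fin (m + 1)) :
    s t = k := by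
  rw [SSet.mem_horn_iff_notMem_range] at hs
  obtain ⟨j, hj, h⟩ := hs
  have h1 : s t ≠ j := fun e => h ⟨t, e⟩
  have h2 : ∀ a b c : Fin 2, b ≠ c → a ≠ b → a = c := by decide
  exact h2 _ j k hj h1

theorem key0 (X : SSet.{0}) : X ◁ (Λ[1, 0] : (Δ[1] : SSet.{0}).Subcomplex).ι =
    fst X _ ≫ SSet.ι₀ := by
  ext ⟨m⟩ x
  · rfl
  · induction m using SimplexCategory.rec with | _ m
    apply SSet.stdSimplex.ext
    intro t
    exact (const_eq 0 x.2.1 x.2.2 t).trans (SSet.ι₀_app_snd_apply x.1 t).symm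

theorem key1 (X : SSet.{0}) : X ◁ (Λ[1, 1] : (Δ[1] : SSet.{0}).Subcomplex).ι =
    fst X _ ≫ SSet.ι₁ := by
  ext ⟨m⟩ x
  · rfl
  · induction m using SimplexCategory.rec with | _ m
    apply SSet.stdSimplex.ext
    intro t
    exact (const_eq 1 x.2.1 x.2.2 t).trans (SSet.ι₁_app_snd_apply x.1 t).symm

theorem main (k : Fin 2) (e e' : ∀ X : SSet.{0}, X ⟶ X ⊗ Δ[1])
    (h' : ∀ X, e' X ≫ fst X _ = 𝟙 X)
    (nat' : ∀ (X Y : SSet.{0}) (f : X ⟶ Y), e' X ≫ f ▷ Δ[1] = f ≫ e' Y)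
    (key : ∀ X : SSet.{0}, X ◁ (Λ[1, k] : (Δ[1] : SSet.{0}).Subcomplex).ι = fst X _ ≫ e X)
    {A B : SSet.{0}} (i : A ⟶ B) (r : B ⟶ A) (hir : i ≫ r = 𝟙 A) (H : B ⊗ Δ[1] ⟶ B)
    (hH : e B ≫ H = r ≫ i) (hH' : e' B ≫ H = 𝟙 B)
    (hc : i ▷ Δ[1] ≫ H = fst A Δ[1] ≫ i) : SSet.anodyneExtensions i := by
  intro E S p hp
  constructor
  intro a b sq
  have hi : Mono i := mono_of_mono_fac hir
  let sq12 := Functor.PushoutObjObj.ofHasPushout (curriedTensor SSet.{0}) i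
    (Λ[1, k] : (Δ[1] : SSet.{0}).Subcomplex).ι
  have han := SSet.anodyneExtensions_pushoutObjObjι sq12 (SSet.anodyneExtensions.horn_ι k)
  let t : sq12.pt ⟶ E := sq12.isPushout.desc (fst B _ ≫ r ≫ a) (fst A _ ≫ a) (by
    change i ▷ _ ≫ fst B _ ≫ r ≫ a = A ◁ _ ≫ fst A _ ≫ a
    rw [whiskerRight_fst_assoc, reassoc_of% hir, whiskerLeft_fst_assoc])
  have e1 : sq12.inl ≫ t = fst B _ ≫ r ≫ a := sq12.isPushout.inl_desc _ _ _
  have e2 : sq12.inr ≫ t = fst A _ ≫ a := sq12.isPushout.inr_desc _ _ _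
  have sq' : CommSq t sq12.ι p (H ≫ b) := by
    constructor
    apply sq12.isPushout.hom_ext
    · refine Eq.trans ?_ (sq12.inl_ι_assoc (H ≫ b)).symm
      change _ = B ◁ (Λ[1, k] : (Δ[1] : SSet.{0}).Subcomplex).ι ≫ H ≫ b
      rw [reassoc_of% e1, key, Category.assoc, sq.w, reassoc_of% hH]
    · refine Eq.trans ?_ (sq12.inr_ι_assoc (H ≫ b)).symm
      change _ = i ▷ Δ[1] ≫ H ≫ b
      rw [reassoc_of% e2, reassoc_of% hc, sq.w]
  have hl : HasLiftingProperty sq12.ι p := han p hp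
  refine ⟨⟨{ l := e' B ≫ sq'.lift, fac_left := ?_, fac_right := ?_ }⟩⟩
  · have e3 : i ▷ Δ[1] ≫ sq'.lift = fst A _ ≫ a := by
      refine (sq12.inr_ι_assoc sq'.lift).symm.trans (Eq.trans ?_ e2)
      rw [sq'.fac_left]
    rw [← Category.assoc, ← nat', Category.assoc, e3, reassoc_of% h']
  · rw [Category.assoc, sq'.fac_right, reassoc_of% hH']

end LTF

theorem LTF : Stmt_LTF := by
  intro A B i r hir h
  rcases h with ⟨H, hH⟩ | ⟨H, hH⟩
  · exact LTF.main 0 (fun _ => SSet.ι₀) (fun _ => SSet.ι₁) (fun X => SSet.ι₁_fst X)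
      (fun _ _ f => SSet.ι₁_comp f) LTF.key0 i r hir H.h H.h₀ H.h₁ hH
  · exact LTF.main 1 (fun _ => SSet.ι₁) (fun _ => SSet.ι₀) (fun X => SSet.ι₀_fst X)
      (fun _ _ f => SSet.ι₀_comp f) LTF.key1 i r hir H.h H.h₁ H.h₀ hH

end Pool.Agent.SH
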