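import Pool.Agent.SH.StmtsT

/-!
# MP_2d0b73_an, PART II, module LTG (comparable monotone maps give homotopic nerve maps)
-/

noncomputable section

namespace Pool.Agent.SH

open CategoryTheory Simplicial MonoidalCategory Limits Opposite

namespace LTG

variable {P R : Type} [PartialOrder P] [PartialOrder R] (f g : P →o R)

theorem mono_aux (hfg : f ≤ g) (n : ℕ) (x : ComposableArrows P n) (t : Fin (n + 1) →o Fin 2) :
    Monotone (fun k : Fin (n + 1) => if t k = 0 then f (x.obj k) else g (x.obj k)) := by
  intro k l hkl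
  have hx : x.obj k ≤ x.obj l := (x.map (homOfLE hkl)).le
  have ht : t k ≤ t l := t.monotone hkl
  dsimp only
  by_cases h1 : t k = 0
  · rw [if_pos h1]
    by_cases h2 : t l = 0
    · rw [if_pos h2]
      exact f.monotone hx
    · rw [if_neg h2]
      exact (f.monotone hx).trans (hfg _)
  · rw [if_neg h1, if_neg]
    · exact g.monotone hx
    · intro h2
      apply h1
      rw [h2] at ht
      exact le_antisymm ht (Fin.zero_le _)

/-- The homotopy on simplices. -/
def hfun (hfg : f ≤ g) (n : ℕ) (x : ComposableArrows P n) (t : Fin (n + 1) →o Fin 2) :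
    ComposableArrows R n :=
  (mono_aux f g hfg n x t).functor

theorem hfun_obj (hfg : f ≤ g) (n : ℕ) (x : ComposableArrows P n) (t : Fin (n + 1) →o Fin 2)
    (k : Fin (n + 1)) :
    (hfun f g hfg n x t).obj k = if t k = 0 then f (x.obj k) else g (x.obj k) := rfl

/-- The homotopy. -/
def hmap (hfg : f ≤ g) : NP P ⊗ Δ[1] ⟶ NP R where
  app n := TypeCat.ofHom fun x => hfun f g hfg n.unop.len x.1 (SSet.stdSimplex.asOrderHom x.2)
  naturality n m φ := by
    ext x k
    rfl

end LTG

theorem LTG : Stmt_LTG := by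
  intro P R _ _ f g hfg
  refine ⟨{ h := LTG.hmap f g hfg, h₀ := ?_, h₁ := ?_, rel := ?_ }, ?_⟩
  · ext n x k
    rfl
  · ext n x k
    rfl
  · ext n x
    exact x.1.2.elim
  · intro U hU
    ext n x k
    change (if (SSet.stdSimplex.asOrderHom x.2) k = 0 then f (x.1.1.obj k) else g (x.1.1.obj k)) =
      f (x.1.1.obj k)
    by_cases h : (SSet.stdSimplex.asOrderHom x.2) k = 0
    · rw [if_pos h]
    · rw [if_neg h]
      exact (hU _ (x.1.2 k)).symm

end Pool.Agent.SH
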