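import Pool.Agent.SH.StmtsT

/-!
# MP_2d0b73_an, PART II, module LTH: monotone retractions comparable with the identity
-/

noncomputable section

namespace Pool.Agent.SH

open CategoryTheory Simplicial MonoidalCategory Limits Opposite

namespace LTH

/-- The absolute case: a monotone self map `ρ` of `P` with values in `A`, the identity on `A`,
comparable with the identity. -/
theorem absolute (h1 : Stmt_LTE) (h2 : Stmt_LTF) (h3 : Stmt_LTG) (T : SSet.{0})
    (hT : SSet.KanComplex T) (P : Type) [PartialOrder P] (A : Set P) (ρ : P →o P)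
    (hA : ∀ x, ρ x ∈ A) (hf : ∀ x ∈ A, ρ x = x) (hc : ρ ≤ OrderHom.id ∨ OrderHom.id ≤ ρ) :
    LT T (subN A).ι := by
  have e1 : NMap (OrderHom.id : P →o P) = 𝟙 (NP P) := rfl
  have e2 : (subN A).ι ≫ NMap ρ = (subN A).ι := by
    ext n x k
    exact hf _ (x.2 k)
  have hr : SSet.Subcomplex.range (NMap ρ) ≤ subN A := by
    rintro n _ ⟨x, rfl⟩ k
    exact hA _
  have e3 : SSet.Subcomplex.lift (NMap ρ) hr ≫ (subN A).ι = NMap ρ :=
    SSet.Subcomplex.lift_ι _ _
  refine h1 T _ _ (subN A).ι hT inferInstance (h2 _ _ (subN A).ι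
    (SSet.Subcomplex.lift (NMap ρ) hr) ?_ ?_)
  · rw [← cancel_mono (subN A).ι, Category.assoc, e3, e2, Category.id_comp]
  · rw [e3]
    rcases hc with hc | hc
    · obtain ⟨H, hH⟩ := h3 P P ρ OrderHom.id hc
      left
      exact ⟨H, (hH A hf).trans (by rw [e2])⟩
    · obtain ⟨H, hH⟩ := h3 P P OrderHom.id ρ hc
      right
      exact ⟨H, (hH A fun x hx => (hf x hx).symm).trans (by rw [e1, Category.comp_id])⟩

end LTH

theorem LTH (h1 : Stmt_LTE) (h2 : Stmt_LTF) (h3 : Stmt_LTG) (h5 : Stmt_LTY)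
    (h6 : Stmt_LTZ) : Stmt_LTH := by
  intro T R _ V₀ V r hT hV hm hmap hfix hcmp
  let A : Set V := Subtype.val ⁻¹' V₀
  let ρ : V →o V :=
    { toFun := fun x => ⟨r x, hV (hmap x.2)⟩
      monotone' := fun x y hxy => hm x.2 y.2 hxy }
  have hA : ((OrderEmbedding.subtype fun x => x ∈ V) '' A) = V₀ := by
    ext x
    constructor
    · rintro ⟨y, hy, rfl⟩
      exact hy
    · intro hx
      exact ⟨⟨x, hV hx⟩, hx, rfl⟩
  have hB : ((OrderEmbedding.subtype fun x => x ∈ V) '' (Set.univ : Set V)) = V := by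
    ext x
    constructor
    · rintro ⟨y, hy, rfl⟩
      exact y.2
    · intro hx
      exact ⟨⟨x, hx⟩, trivial, rfl⟩
  have hmain : LT T (subN A).ι := by
    refine LTH.absolute h1 h2 h3 T hT V A ρ (fun x => hmap x.2)
      (fun x hx => Subtype.ext (hfix x.1 hx)) ?_
    rcases hcmp with h | h
    · exact Or.inr fun x => h x.1 x.2
    · exact Or.inl fun x => h x.1 x.2
  have h7 := (h5 T V R (OrderEmbedding.subtype fun x => x ∈ V) A Set.univ).1
    (((h6 T V).1 A).2 hmain)
  rwa [hA, hB] at h7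

end Pool.Agent.SH
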