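import Pool.Agent.SH.StmtsT

/-!
# MP_2d0b73_an, PART II: parts with a largest element are acyclic
-/

noncomputable section

namespace Pool.Agent.SH

open CategoryTheory Simplicial MonoidalCategory Limits Opposite

namespace LTI

theorem trans (h1 : Stmt_LTA) {T X : SSet.{0}} {A B C : X.Subcomplex} (hAB : LTS T A B)
    (hBC : LTS T B C) : LTS T A C := by
  obtain ⟨h, hl⟩ := hAB
  obtain ⟨k, kl⟩ := hBC
  exact ⟨h.trans k, h1 T _ _ _ _ _ hl kl⟩

theorem cancel (h2 : Stmt_LTC) {T X : SSet.{0}} (hT : SSet.KanComplex T) {A B C : X.Subcomplex}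
    (hAB : LTS T A B) (hAC : LTS T A C) (hBC : B ≤ C) : LTS T B C := by
  obtain ⟨h, hl⟩ := hAB
  obtain ⟨k, kl⟩ := hAC
  exact ⟨hBC, h2 T _ _ _ (SSet.Subcomplex.homOfLE h) (SSet.Subcomplex.homOfLE hBC) hT
    inferInstance hl kl⟩

end LTI

theorem LTI (h1 : Stmt_LTA) (h2 : Stmt_LTC) (h3 : Stmt_LTH) : Stmt_LTI := by
  intro T R _ V p hT hp hV a ha
  have hpV : LTS T (subN {p}) (subN V) := by
    refine h3 T R {p} V (fun _ => p) hT (Set.singleton_subset_iff.2 hp)
      (fun _ _ _ _ _ => le_rfl) (fun _ _ => rfl) (fun x hx => hx.symm) (Or.inl hV)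
  have hap : LTS T (subN {a}) (subN {a, p}) := by
    refine h3 T R {a} {a, p} (fun _ => a) hT (by simp)
      (fun _ _ _ _ _ => le_rfl) (fun _ _ => rfl) (fun x hx => hx.symm) (Or.inr ?_)
    intro x hx
    rcases hx with rfl | hx
    · exact le_rfl
    · rw [Set.mem_singleton_iff] at hx
      subst hx
      exact hV a ha
  have hpp : LTS T (subN {p}) (subN {a, p}) := by
    refine h3 T R {p} {a, p} (fun _ => p) hT (by simp)
      (fun _ _ _ _ _ => le_rfl) (fun _ _ => rfl) (fun x hx => hx.symm) (Or.inl ?_)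
    intro x hx
    rcases hx with rfl | hx
    · exact hV _ ha
    · rw [Set.mem_singleton_iff] at hx
      exact hx.le
  have hsub : (subN {a, p} : (NP R).Subcomplex) ≤ subN V := by
    intro n x hx i
    rcases hx i with h | h
    · rw [h]; exact ha
    · rw [Set.mem_singleton_iff] at h
      rw [h]; exact hp
  exact LTI.trans h1 hap (LTI.cancel h2 hT hpp hpV hsub)

end Pool.Agent.SH
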