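import Pool.Agent.SH.StmtsT

/-!
# SH_LTJ: adding one element on top of an acyclic part
-/

noncomputable section

namespace Pool.Agent.SH

open CategoryTheory Simplicial MonoidalCategory Limits Opposite

namespace LTJ

variable {R : Type} [PartialOrder R]

theorem mem_subN (U : Set R) (n : SimplexCategoryᵒᵖ) (x : (NP R).obj n) :
    x ∈ (subN U).obj n ↔ ∀ i, x.obj i ∈ U := Iff.rfl

theorem subN_mono {U V : Set R} (h : U ⊆ V) : subN U ≤ subN V :=
  fun _ _ hx i => h (hx i)

theorem inf_eq (U : Set R) (p : R) (hp : p ∉ U) :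
    subN U ⊓ subN (insert p {u | u ∈ U ∧ u < p}) = subN {u | u ∈ U ∧ u < p} := by
  apply le_antisymm
  · rintro n x ⟨h1, h2⟩ i
    have a1 : x.obj i ∈ U := h1 i
    have a2 : x.obj i ∈ insert p {u | u ∈ U ∧ u < p} := h2 i
    rcases a2 with h | h
    · exact absurd (h ▸ a1) hp
    · exact h
  · refine le_inf (subN_mono fun x hx => hx.1) (subN_mono fun x hx => Set.mem_insert_of_mem _ hx)

theorem sup_eq (U : Set R) (p : R) (hU : ∀ u ∈ U, ¬ p ≤ u) :
    subN U ⊔ subN (insert p {u | u ∈ U ∧ u < p}) = subN (insert p U) := by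
  apply le_antisymm
  · refine sup_le (subN_mono (Set.subset_insert _ _)) (subN_mono ?_)
    rintro x (hx | hx)
    · exact Or.inl hx
    · exact Or.inr hx.1
  · intro n x hx
    have hx' : ∀ i, x.obj i ∈ insert p U := hx
    by_cases h : ∃ k, x.obj k = p
    · right
      obtain ⟨k, hk⟩ := h
      intro i
      have key : x.obj i = p ∨ (x.obj i ∈ U ∧ x.obj i < p) := by
        rcases hx' i with h | h
        · exact Or.inl h
        · right
          refine ⟨h, ?_⟩
          rcases le_total i k with hik | hik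
          · have h3 : x.obj i ≤ x.obj k := x.monotone hik
            rw [hk] at h3
            refine lt_of_le_of_ne h3 ?_
            intro he
            exact hU _ h (le_of_eq he.symm)
          · have h3 : x.obj k ≤ x.obj i := x.monotone hik
            rw [hk] at h3
            exact absurd h3 (hU _ h)
      exact key
    · left
      intro i
      rcases hx' i with h1 | h1
      · exact absurd ⟨i, h1⟩ h
      · exact h1

end LTJ

theorem LTJ (h1 : Stmt_LTC) (h2 : Stmt_LTD) (h3 : Stmt_LTI) : Stmt_LTJ := by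
  intro T R _ U p hT hp hU hA
  obtain ⟨a, haW, hle, hLT⟩ := hA
  obtain ⟨hle2, hLT2⟩ := h3 T R (insert p {u | u ∈ U ∧ u < p}) p hT (Set.mem_insert _ _)
    (by
      rintro x (hx | hx)
      · exact le_of_eq hx
      · exact hx.2.le) a (Set.mem_insert_of_mem _ haW)
  have hle3 : subN {u | u ∈ U ∧ u < p} ≤ subN (insert p {u | u ∈ U ∧ u < p}) :=
    LTJ.subN_mono (Set.subset_insert _ _)
  have hLT3 : LT T (SSet.Subcomplex.homOfLE hle3) :=
    h1 T _ _ _ (SSet.Subcomplex.homOfLE hle) (SSet.Subcomplex.homOfLE hle3) hT inferInstance hLT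
      hLT2
  have hS : LTS T (subN {u | u ∈ U ∧ u < p}) (subN (insert p {u | u ∈ U ∧ u < p})) :=
    ⟨hle3, hLT3⟩
  rw [← LTJ.inf_eq U p hp] at hS
  have h4 := h2 T _ _ _ hS
  rw [LTJ.sup_eq U p hU] at h4
  exact h4

end Pool.Agent.SH
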