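import Pool.Agent.SH.StmtsT

/-!
# MP_2d0b73_an, PART II, module LTK (Quillen's Theorem A for finitely many elements)
-/

noncomputable section

namespace Pool.Agent.SH

open CategoryTheory Simplicial MonoidalCategory Limits Opposite

namespace LTK

theorem lts_refl (T : SSet.{0}) {X : SSet.{0}} (A : X.Subcomplex) : LTS T A A := by
  refine ⟨le_rfl, ?_⟩
  have h : SSet.Subcomplex.homOfLE (le_refl A) = 𝟙 (A : SSet.{0}) := rfl
  rw [h]
  refine ⟨inferInstance, fun n u v huv => ⟨v, ?_, ?_⟩⟩
  · rw [MonoidalCategory.id_whiskerRight, Category.id_comp] at huv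
    exact huv.symm
  · rw [MonoidalCategory.id_whiskerRight, Category.id_comp]

theorem lts_trans (h1 : Stmt_LTA) (T : SSet.{0}) {X : SSet.{0}} {A B C : X.Subcomplex}
    (h : LTS T A B) (h' : LTS T B C) : LTS T A C := by
  obtain ⟨hab, h⟩ := h
  obtain ⟨hbc, h'⟩ := h'
  exact ⟨hab.trans hbc, h1 T _ _ _ _ _ h h'⟩

theorem key (h1 : Stmt_LTA) (h2 : Stmt_LTJ) (T : SSet.{0}) (R : Type) [PartialOrder R]
    (hT : SSet.KanComplex T) (n : ℕ) :
    ∀ (A U : Set R), U.Finite → U.ncard = n → (∀ a ∈ A, ∀ u ∈ U, ¬ u ≤ a) →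
    (∀ u ∈ U, AcyS T {a | a ∈ A ∧ a < u}) → LTS T (subN A) (subN (A ∪ U)) := by
  induction n using Nat.strong_induction_on with
  | _ n ih =>
    intro A U hU hn hA hac
    rcases U.eq_empty_or_nonempty with rfl | hne
    · rw [Set.union_empty]
      exact lts_refl T _
    obtain ⟨b, hb⟩ := hU.exists_maximal hne
    have hbU : b ∈ U := hb.prop
    have hfin' : (U \ {b}).Finite := hU.subset Set.sdiff_subset
    have hcard : (U \ {b}).ncard < n := by
      rw [← hn]
      exact Set.ncard_sdiff_singleton_lt_of_mem hbU hU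
    have s1 : LTS T (subN A) (subN (A ∪ (U \ {b}))) :=
      ih _ hcard A (U \ {b}) hfin' rfl (fun a ha u hu => hA a ha u hu.1) (fun u hu => hac u hu.1)
    have hsub : {u | u ∈ U \ {b} ∧ u < b} ⊆ U \ {b} := fun u hu => hu.1
    have hcard2 : ({u | u ∈ U \ {b} ∧ u < b} : Set R).ncard < n :=
      lt_of_le_of_lt (Set.ncard_le_ncard hsub hfin') hcard
    have s2 : LTS T (subN {a | a ∈ A ∧ a < b})
        (subN ({a | a ∈ A ∧ a < b} ∪ {u | u ∈ U \ {b} ∧ u < b})) := by
      refine ih _ hcard2 _ _ (hfin'.subset hsub) rfl ?_ ?_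
      · intro a ha u hu
        exact hA a ha.1 u hu.1.1
      · intro u hu
        have he : {a | a ∈ ({a | a ∈ A ∧ a < b} : Set R) ∧ a < u} = {a | a ∈ A ∧ a < u} := by
          ext a
          constructor
          · rintro ⟨⟨h3, -⟩, h4⟩
            exact ⟨h3, h4⟩
          · rintro ⟨h3, h4⟩
            exact ⟨⟨h3, h4.trans hu.2⟩, h4⟩
        rw [he]
        exact hac u hu.1.1
    have s3 : AcyS T {x | x ∈ A ∪ (U \ {b}) ∧ x < b} := by
      obtain ⟨a, ha, h3⟩ := hac b hbU
      have he : ({x | x ∈ A ∪ (U \ {b}) ∧ x < b} : Set R) =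
          {a | a ∈ A ∧ a < b} ∪ {u | u ∈ U \ {b} ∧ u < b} := by
        ext x
        constructor
        · rintro ⟨h4 | h4, h5⟩
          · exact Or.inl ⟨h4, h5⟩
          · exact Or.inr ⟨h4, h5⟩
        · rintro (⟨h4, h5⟩ | ⟨h4, h5⟩)
          · exact ⟨Or.inl h4, h5⟩
          · exact ⟨Or.inr h4, h5⟩
      rw [he]
      exact ⟨a, Or.inl ha, lts_trans h1 T h3 s2⟩
    have s4 : LTS T (subN (A ∪ (U \ {b}))) (subN (insert b (A ∪ (U \ {b})))) := by
      refine h2 T R _ b hT ?_ ?_ s3
      · rintro (h | h)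
        · exact hA b h b hbU le_rfl
        · exact h.2 rfl
      · rintro u (h | h) hle
        · exact hA u h b hbU hle
        · exact h.2 (le_antisymm (hb.2 h.1 hle) hle)
    have he : insert b (A ∪ (U \ {b})) = A ∪ U := by
      ext x
      constructor
      · rintro (h | h | h)
        · rw [h]
          exact Or.inr hbU
        · exact Or.inl h
        · exact Or.inr h.1
      · rintro (h | h)
        · exact Or.inr (Or.inl h)
        · by_cases hx : x = b
          · exact Or.inl hx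
          · exact Or.inr (Or.inr ⟨h, hx⟩)
    rw [he] at s4
    exact lts_trans h1 T s1 s4

end LTK

/-- LTK: adding finitely many elements one after the other (Quillen's Theorem A). -/
theorem LTK (h1 : Stmt_LTA) (h2 : Stmt_LTJ) : Stmt_LTK := by
  intro T R _ A U hT hU hA hac
  exact LTK.key h1 h2 T R hT _ A U hU rfl hA hac

end Pool.Agent.SH
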