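import Pool.Agent.SH.StmtsT

/-!
# LTL: calculus of null homotopic maps into a Kan complex
-/

noncomputable section

namespace Pool.Agent.SH

open CategoryTheory Simplicial MonoidalCategory Limits Opposite CartesianMonoidalCategory

namespace LTL

theorem horn0 (K : SSet.{0}) [SSet.KanComplex K] (a b : (Δ[1] : SSet.{0}) ⟶ K)
    (h : (SSet.stdSimplex.δ 1 : (Δ[0] : SSet.{0}) ⟶ Δ[1]) ≫ a = SSet.stdSimplex.δ 1 ≫ b) :
    ∃ e : (Δ[1] : SSet.{0}) ⟶ K,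
      (SSet.stdSimplex.δ 1 : (Δ[0] : SSet.{0}) ⟶ Δ[1]) ≫ e = SSet.stdSimplex.δ 0 ≫ a ∧
      (SSet.stdSimplex.δ 0 : (Δ[0] : SSet.{0}) ⟶ Δ[1]) ≫ e = SSet.stdSimplex.δ 0 ≫ b := by
  let f : ∀ (j : Fin 3) (_ : j ≠ 0), (Δ[1] : SSet.{0}) ⟶ K := fun j _ => if j = 1 then b else a
  have hf : SSet.horn.IsCompatible f := by
    rw [SSet.horn.isCompatible_iff]
    intro j k hj hk hjk
    have h1 : j = 1 := by grind
    have h2 : k = 2 := by grind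
    subst h1
    subst h2
    change SSet.stdSimplex.δ 1 ≫ b = SSet.stdSimplex.δ 1 ≫ a
    exact h.symm
  obtain ⟨φ, hφ⟩ := hf.exists_lift_of_kanComplex
  have p1 : (SSet.stdSimplex.δ 1 : (Δ[1] : SSet.{0}) ⟶ Δ[2]) ≫ φ = b := hφ 1 (by decide)
  have p2 : (SSet.stdSimplex.δ 2 : (Δ[1] : SSet.{0}) ⟶ Δ[2]) ≫ φ = a := hφ 2 (by decide)
  refine ⟨SSet.stdSimplex.δ 0 ≫ φ, ?_, ?_⟩
  · rw [← p2, ← Category.assoc, ← Category.assoc]
    exact congrArg (· ≫ φ) (SSet.stdSimplex.δ_comp_δ (i := 0) (j := 1) (by decide)).symm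
  · rw [← p1, ← Category.assoc, ← Category.assoc]
    exact congrArg (· ≫ φ) (SSet.stdSimplex.δ_comp_δ (i := 0) (j := 0) (by decide)).symm

theorem horn1 (K : SSet.{0}) [SSet.KanComplex K] (a b : (Δ[1] : SSet.{0}) ⟶ K)
    (h : (SSet.stdSimplex.δ 0 : (Δ[0] : SSet.{0}) ⟶ Δ[1]) ≫ a = SSet.stdSimplex.δ 1 ≫ b) :
    ∃ e : (Δ[1] : SSet.{0}) ⟶ K,
      (SSet.stdSimplex.δ 1 : (Δ[0] : SSet.{0}) ⟶ Δ[1]) ≫ e = SSet.stdSimplex.δ 1 ≫ a ∧
      (SSet.stdSimplex.δ 0 : (Δ[0] : SSet.{0}) ⟶ Δ[1]) ≫ e = SSet.stdSimplex.δ 0 ≫ b := by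
  let f : ∀ (j : Fin 3) (_ : j ≠ 1), (Δ[1] : SSet.{0}) ⟶ K := fun j _ => if j = 0 then b else a
  have hf : SSet.horn.IsCompatible f := by
    rw [SSet.horn.isCompatible_iff]
    intro j k hj hk hjk
    have h1 : j = 0 := by grind
    have h2 : k = 2 := by grind
    subst h1
    subst h2
    change SSet.stdSimplex.δ 1 ≫ b = SSet.stdSimplex.δ 0 ≫ a
    exact h.symm
  obtain ⟨φ, hφ⟩ := hf.exists_lift_of_kanComplex
  have p0 : (SSet.stdSimplex.δ 0 : (Δ[1] : SSet.{0}) ⟶ Δ[2]) ≫ φ = b := hφ 0 (by decide)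
  have p2 : (SSet.stdSimplex.δ 2 : (Δ[1] : SSet.{0}) ⟶ Δ[2]) ≫ φ = a := hφ 2 (by decide)
  refine ⟨SSet.stdSimplex.δ 1 ≫ φ, ?_, ?_⟩
  · rw [← p2, ← Category.assoc, ← Category.assoc]
    exact congrArg (· ≫ φ) (SSet.stdSimplex.δ_comp_δ (i := 1) (j := 1) (by decide)).symm
  · rw [← p0, ← Category.assoc, ← Category.assoc]
    exact congrArg (· ≫ φ) (SSet.stdSimplex.δ_comp_δ (i := 0) (j := 0) (by decide))

variable {X T : SSet.{0}}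

/-- A map as a vertex of the function complex. -/
def pt (f : X ⟶ T) : (Δ[0] : SSet.{0}) ⟶ (ihom X).obj T :=
  MonoidalClosed.curry (fst X Δ[0] ≫ f)

theorem w0 : X ◁ (SSet.stdSimplex.δ 1 : (Δ[0] : SSet.{0}) ⟶ Δ[1]) =
    fst X Δ[0] ≫ SSet.ι₀ := by
  apply CartesianMonoidalCategory.hom_ext
  · rw [whiskerLeft_fst, Category.assoc, SSet.ι₀_fst, Category.comp_id]
  · rw [whiskerLeft_snd, Category.assoc, SSet.ι₀_snd, SSet.stdSimplex.δ_one_eq_const]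
    rfl

theorem w1 : X ◁ (SSet.stdSimplex.δ 0 : (Δ[0] : SSet.{0}) ⟶ Δ[1]) =
    fst X Δ[0] ≫ SSet.ι₁ := by
  apply CartesianMonoidalCategory.hom_ext
  · rw [whiskerLeft_fst, Category.assoc, SSet.ι₁_fst, Category.comp_id]
  · rw [whiskerLeft_snd, Category.assoc, SSet.ι₁_snd, SSet.stdSimplex.δ_zero_eq_const]
    rfl

theorem fst_cancel {f g : X ⟶ T} (h : fst X (Δ[0] : SSet.{0}) ≫ f = fst X Δ[0] ≫ g) : f = g := by
  have h1 : lift (𝟙 X) (SSet.const (SSet.stdSimplex.obj₀Equiv.symm 0)) ≫ fst X (Δ[0] : SSet.{0}) =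
      𝟙 X := lift_fst _ _
  rw [← Category.id_comp f, ← Category.id_comp g, ← h1, Category.assoc, Category.assoc, h]

theorem src_iff (h : X ⊗ Δ[1] ⟶ T) (f : X ⟶ T) :
    (SSet.stdSimplex.δ 1 : (Δ[0] : SSet.{0}) ⟶ Δ[1]) ≫ MonoidalClosed.curry h = pt f ↔
      SSet.ι₀ ≫ h = f := by
  rw [← MonoidalClosed.curry_natural_left, w0, pt]
  constructor
  · intro H
    have := MonoidalClosed.curry_injective H
    rw [Category.assoc] at this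
    exact fst_cancel this
  · rintro rfl
    rw [Category.assoc]

theorem tgt_iff (h : X ⊗ Δ[1] ⟶ T) (f : X ⟶ T) :
    (SSet.stdSimplex.δ 0 : (Δ[0] : SSet.{0}) ⟶ Δ[1]) ≫ MonoidalClosed.curry h = pt f ↔
      SSet.ι₁ ≫ h = f := by
  rw [← MonoidalClosed.curry_natural_left, w1, pt]
  constructor
  · intro H
    have := MonoidalClosed.curry_injective H
    rw [Category.assoc] at this
    exact fst_cancel this
  · rintro rfl
    rw [Category.assoc]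

/-- A homotopy from a map on the cylinder. -/
def mkH {f g : X ⟶ T} (h : X ⊗ Δ[1] ⟶ T) (h0 : SSet.ι₀ ≫ h = f) (h1 : SSet.ι₁ ≫ h = g) :
    SSet.Homotopy f g where
  h := h
  h₀ := h0
  h₁ := h1
  rel := by
    ext m ⟨⟨x, hx⟩, y⟩
    exact hx.elim

end LTL

theorem LTL : Stmt_LTL := by
  intro X T f g hT hfg hf
  obtain ⟨t, ⟨Hc⟩⟩ := hf
  refine ⟨t, ?_⟩
  have c0 := (LTL.src_iff Hc.h f).2 Hc.h₀
  have c1 := (LTL.tgt_iff Hc.h _).2 Hc.h₁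
  have key : ∃ e : (Δ[1] : SSet.{0}) ⟶ (ihom X).obj T,
      (SSet.stdSimplex.δ 1 : (Δ[0] : SSet.{0}) ⟶ Δ[1]) ≫ e = LTL.pt g ∧
      (SSet.stdSimplex.δ 0 : (Δ[0] : SSet.{0}) ⟶ Δ[1]) ≫ e = LTL.pt (SSet.const t) := by
    rcases hfg with ⟨⟨H⟩⟩ | ⟨⟨H⟩⟩
    · have a0 := (LTL.src_iff H.h f).2 H.h₀
      have a1 := (LTL.tgt_iff H.h g).2 H.h₁
      obtain ⟨e, h1, h2⟩ := LTL.horn0 _ (MonoidalClosed.curry H.h) (MonoidalClosed.curry Hc.h)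
        (a0.trans c0.symm)
      exact ⟨e, h1.trans a1, h2.trans c1⟩
    · have a0 := (LTL.src_iff H.h g).2 H.h₀
      have a1 := (LTL.tgt_iff H.h f).2 H.h₁
      obtain ⟨e, h1, h2⟩ := LTL.horn1 _ (MonoidalClosed.curry H.h) (MonoidalClosed.curry Hc.h)
        (a1.trans c0.symm)
      exact ⟨e, h1.trans a0, h2.trans c1⟩
  obtain ⟨e, he0, he1⟩ := key
  obtain ⟨w, rfl⟩ : ∃ w : X ⊗ Δ[1] ⟶ T, MonoidalClosed.curry w = e :=
    ⟨MonoidalClosed.uncurry e, MonoidalClosed.curry_uncurry e⟩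
  exact ⟨LTL.mkH w ((LTL.src_iff w g).1 he0) ((LTL.tgt_iff w _).1 he1)⟩

end Pool.Agent.SH
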