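import Pool.Agent.SH.StmtsT

/-!
# SH_LTM: null homotopies descend along maps with acyclic fibres (mapping cylinder)
-/

noncomputable section

namespace Pool.Agent.SH

namespace LTM

/-- The mapping cylinder. -/
inductive Cyl {P' P : Type} [PartialOrder P'] [PartialOrder P] (h : P' →o P) : Type
  | l : P' → Cyl h
  | r : P → Cyl h

variable {P' P : Type} [PartialOrder P'] [PartialOrder P] {h : P' →o P}

/-- The order of the mapping cylinder. -/
def le' : Cyl h → Cyl h → Prop
  | .l a, .l b => a ≤ b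
  | .l a, .r p => h a ≤ p
  | .r _, .l _ => False
  | .r p, .r q => p ≤ q

instance : PartialOrder (Cyl h) where
  le := le'
  le_refl x := by
    cases x with
    | l a => exact le_refl a
    | r p => exact le_refl p
  le_trans x y z hxy hyz := by
    cases x with
    | l a =>
      cases y with
      | l b =>
        cases z with
        | l c => exact le_trans (show a ≤ b from hxy) hyz
        | r q => exact le_trans (h.monotone (show a ≤ b from hxy)) hyz
      | r p =>
        cases z with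
        | l c => exact absurd hyz (fun h => h)
        | r q => exact le_trans (show h a ≤ p from hxy) hyz
    | r p =>
      cases y with
      | l b => exact absurd hxy (fun h => h)
      | r q =>
        cases z with
        | l c => exact absurd hyz (fun h => h)
        | r s => exact le_trans (show p ≤ q from hxy) hyz
  le_antisymm x y hxy hyx := by
    cases x with
    | l a =>
      cases y with
      | l b => exact congrArg Cyl.l (le_antisymm (show a ≤ b from hxy) hyx)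
      | r p => exact absurd hyx (fun h => h)
    | r p =>
      cases y with
      | l b => exact absurd hxy (fun h => h)
      | r q => exact congrArg Cyl.r (le_antisymm (show p ≤ q from hxy) hyx)

variable (h)

/-- The inclusion of the source. -/
def lE : P' ↪o Cyl h where
  toFun := Cyl.l
  inj' := fun a b hab => by cases hab; rfl
  map_rel_iff' := Iff.rfl

/-- The inclusion of the target. -/
def rO : P →o Cyl h where
  toFun := Cyl.r
  monotone' := fun _ _ hab => hab

/-- The retraction onto the target. -/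
def rho : Cyl h →o P where
  toFun x := Cyl.rec (motive := fun _ => P) (fun a => h a) (fun p => p) x
  monotone' := by
    intro x y hxy
    cases x with
    | l a =>
      cases y with
      | l b => exact h.monotone hxy
      | r p => exact hxy
    | r p =>
      cases y with
      | l b => exact absurd hxy (fun h => h)
      | r q => exact hxy

variable {h}

theorem not_r_le_l (p : P) (a : P') : ¬ (Cyl.r p : Cyl h) ≤ Cyl.l a := fun h => h

theorem l_le_r (p : P) (a : P') : (Cyl.l a : Cyl h) ≤ Cyl.r p ↔ h a ≤ p := Iff.rfl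

theorem union_eq : Set.range (Cyl.l : P' → Cyl h) ∪ Set.range (Cyl.r : P → Cyl h) = Set.univ := by
  ext x
  simp only [Set.mem_union, Set.mem_range, Set.mem_univ, iff_true]
  cases x with
  | l a => exact Or.inl ⟨a, rfl⟩
  | r p => exact Or.inr ⟨p, rfl⟩

theorem below_eq (p : P) :
    ({a | a ∈ Set.range (Cyl.l : P' → Cyl h) ∧ a < Cyl.r p} : Set (Cyl h)) =
      lE h '' {p' | h p' ≤ p} := by
  ext x
  simp only [Set.mem_ofPred_eq, Set.mem_image, Set.mem_range]
  constructor
  · rintro ⟨⟨a, rfl⟩, ha⟩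
    exact ⟨a, (l_le_r p a).1 ha.le, rfl⟩
  · rintro ⟨a, ha, rfl⟩
    refine ⟨⟨a, rfl⟩, lt_of_le_of_ne ((l_le_r p a).2 ha) ?_⟩
    intro he
    cases he

open CategoryTheory Simplicial MonoidalCategory Limits Opposite

theorem acyS_image (h3 : Stmt_LTY) {T : SSet.{0}} {R' R : Type} [PartialOrder R'] [PartialOrder R]
    (φ : R' ↪o R) {U : Set R'} (hU : AcyS T U) : AcyS T (φ '' U) := by
  obtain ⟨a, ha, h⟩ := hU
  refine ⟨φ a, ⟨a, ha, rfl⟩, ?_⟩
  have h1 := (h3 T R' R φ {a} U).1 h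
  rwa [Set.image_singleton] at h1

theorem lt_cyl (h2 : Stmt_LTK) (h3 : Stmt_LTY) (h4 : Stmt_LTZ) {T : SSet.{0}} [Finite P]
    (hT : SSet.KanComplex T) (hf : ∀ p, AcyS T ({p' | h p' ≤ p} : Set P')) :
    LT T (subN (Set.range (Cyl.l : P' → Cyl h))).ι := by
  rw [← (h4 T (Cyl h)).1, ← union_eq]
  apply h2 T (Cyl h) _ _ hT (Set.finite_range _)
  · rintro _ ⟨a, rfl⟩ _ ⟨p, rfl⟩
    exact not_r_le_l p a
  · rintro _ ⟨p, rfl⟩
    rw [below_eq]
    exact acyS_image h3 (lE h) (hf p)

/-! ### The identification of the nerve of the source -/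

/-- The map from the nerve of the source. -/
def fwd : NP P' ⟶ (subN (Set.range (Cyl.l : P' → Cyl h)) : SSet.{0}) :=
  SSet.Subcomplex.lift (NMap (lE h : P' →o Cyl h)) (by
    rw [← SSet.Subcomplex.preimage_eq_top_iff, eq_top_iff]
    intro m x _ i
    exact ⟨_, rfl⟩)

theorem fwd_ι : fwd ≫ (subN (Set.range (Cyl.l : P' → Cyl h))).ι = NMap (lE h : P' →o Cyl h) := rfl

instance isIso_fwd : IsIso (fwd (h := h)) := by
  rw [NatTrans.isIso_iff_isIso_app]
  intro m
  rw [isIso_iff_bijective]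
  constructor
  · intro x y hxy
    have h1 : (NMap (lE h : P' →o Cyl h)).app m x = (NMap (lE h : P' →o Cyl h)).app m y :=
      congrArg Subtype.val hxy
    refine nerve.ext_of_isThin (funext fun i => ?_)
    have h2 : lE h (x.obj i) = lE h (y.obj i) := congrArg (fun t => t.obj i) h1
    exact (lE h).injective h2
  · rintro ⟨x, hx⟩
    have hx' : ∀ i, ∃ z : P', lE h z = x.obj i := fun i => hx i
    choose y hy using hx'
    have hmono : Monotone y := by
      intro i j hij
      rw [← (lE h).le_iff_le, hy, hy]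
      exact leOfHom (x.map (homOfLE hij))
    exact ⟨hmono.functor, Subtype.ext (nerve.ext_of_isThin (funext fun i => hy i))⟩

/-! ### Gluing two maps on the boundary of the interval -/

theorem const_of_mem {m : SimplexCategoryᵒᵖ} (s : (Δ[1] : SSet.{0}).obj m)
    (hs : s ∈ (∂Δ[1] : (Δ[1] : SSet.{0}).Subcomplex).obj m) (k l : Fin (m.unop.len + 1)) :
    SSet.stdSimplex.asOrderHom s k = SSet.stdSimplex.asOrderHom s l := by
  by_contra hne
  apply hs
  intro b
  by_cases h1 : SSet.stdSimplex.asOrderHom s k = b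
  · exact ⟨k, h1⟩
  · refine ⟨l, ?_⟩
    by_contra h2
    have e1 := Fin.val_ne_of_ne h1
    have e2 := Fin.val_ne_of_ne h2
    have e3 := Fin.val_ne_of_ne hne
    have l1 := (SSet.stdSimplex.asOrderHom s k).isLt
    have l2 := (SSet.stdSimplex.asOrderHom s l).isLt
    have l3 := b.isLt
    omega

/-- The map which is `f` at the end `0` and `g` at the end `1`. -/
def glue {B T : SSet.{0}} (f g : B ⟶ T) : B ⊗ (∂Δ[1] : SSet.{0}) ⟶ T where
  app m := ↾fun p =>
    if SSet.stdSimplex.asOrderHom (p.2 : (Δ[1] : SSet.{0}).obj m) 0 = 0 then f.app m p.1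
    else g.app m p.1
  naturality m m' θ := by
    ext p
    have h1 : SSet.stdSimplex.asOrderHom (((B ⊗ (∂Δ[1] : SSet.{0})).map θ p).2 :
        (Δ[1] : SSet.{0}).obj m') 0 =
        SSet.stdSimplex.asOrderHom (p.2 : (Δ[1] : SSet.{0}).obj m) 0 :=
      const_of_mem (p.2 : (Δ[1] : SSet.{0}).obj m) p.2.2 _ _
    have h2 : ∀ f : B ⟶ T, f.app m' ((B.map θ) p.1) = T.map θ (f.app m p.1) := by
      intro f
      exact NatTrans.naturality_apply f θ p.1
    show (if SSet.stdSimplex.asOrderHom (((B ⊗ (∂Δ[1] : SSet.{0})).map θ p).2 :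
        (Δ[1] : SSet.{0}).obj m') 0 = 0 then f.app m' ((B.map θ) p.1)
      else g.app m' ((B.map θ) p.1)) = T.map θ (if SSet.stdSimplex.asOrderHom
        (p.2 : (Δ[1] : SSet.{0}).obj m) 0 = 0 then f.app m p.1 else g.app m p.1)
    rw [h1]
    by_cases h3 : SSet.stdSimplex.asOrderHom (p.2 : (Δ[1] : SSet.{0}).obj m) 0 = 0
    · rw [if_pos h3, if_pos h3, h2]
    · rw [if_neg h3, if_neg h3, h2]

theorem glue_app {B T : SSet.{0}} (f g : B ⟶ T) (m : SimplexCategoryᵒᵖ)
    (p : (B ⊗ (∂Δ[1] : SSet.{0})).obj m) : (glue f g).app m p =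
      if SSet.stdSimplex.asOrderHom (p.2 : (Δ[1] : SSet.{0}).obj m) 0 = 0 then f.app m p.1
      else g.app m p.1 := rfl

theorem asOrderHom_inj {m : SimplexCategoryᵒᵖ} {s s' : (Δ[1] : SSet.{0}).obj m}
    (hs : ∀ k, SSet.stdSimplex.asOrderHom s k = SSet.stdSimplex.asOrderHom s' k) : s = s' := by
  apply SSet.stdSimplex.objEquiv.injective
  apply SimplexCategory.Hom.ext
  apply OrderHom.ext
  funext k
  exact hs k

/-- A map from `B × Δ[1]` which is `f` at the end `0` and `g` at the end `1` restricts to the glued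
map on the boundary. -/
theorem restr_eq {B T : SSet.{0}} {f g : B ⟶ T} {H : B ⊗ Δ[1] ⟶ T} (h0 : SSet.ι₀ ≫ H = f)
    (h1 : SSet.ι₁ ≫ H = g) : B ◁ ∂Δ[1].ι ≫ H = glue f g := by
  ext m p
  show H.app m (p.1, (p.2 : (Δ[1] : SSet.{0}).obj m)) =
    if SSet.stdSimplex.asOrderHom (p.2 : (Δ[1] : SSet.{0}).obj m) 0 = 0 then f.app m p.1
      else g.app m p.1
  have hc := const_of_mem (p.2 : (Δ[1] : SSet.{0}).obj m) p.2.2
  by_cases h3 : SSet.stdSimplex.asOrderHom (p.2 : (Δ[1] : SSet.{0}).obj m) 0 = 0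
  · rw [if_pos h3, ← h0]
    show H.app m (p.1, (p.2 : (Δ[1] : SSet.{0}).obj m)) = H.app m (SSet.ι₀.app m p.1)
    congr 1
    refine Prod.ext rfl (asOrderHom_inj fun k => ?_)
    rw [hc k 0, h3]
    rfl
  · rw [if_neg h3, ← h1]
    show H.app m (p.1, (p.2 : (Δ[1] : SSet.{0}).obj m)) = H.app m (SSet.ι₁.app m p.1)
    congr 1
    refine Prod.ext rfl (asOrderHom_inj fun k => ?_)
    rw [hc k 0]
    have h4 : SSet.stdSimplex.asOrderHom (p.2 : (Δ[1] : SSet.{0}).obj m) 0 = 1 := by
      have := Fin.val_ne_of_ne h3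
      have l1 := (SSet.stdSimplex.asOrderHom (p.2 : (Δ[1] : SSet.{0}).obj m) 0).isLt
      apply Fin.ext
      show _ = 1
      have h5 : ((0 : Fin (1 + 1)) : ℕ) = 0 := rfl
      omega
    rw [h4]
    rfl

theorem glue_eq {B T : SSet.{0}} {f g : B ⟶ T} {H : B ⊗ Δ[1] ⟶ T}
    (hH : B ◁ ∂Δ[1].ι ≫ H = glue f g) (m : SimplexCategoryᵒᵖ) (b : B.obj m)
    (s : (Δ[1] : SSet.{0}).obj m) (hs : s ∈ (∂Δ[1] : (Δ[1] : SSet.{0}).Subcomplex).obj m) :
    H.app m (b, s) = if SSet.stdSimplex.asOrderHom s 0 = 0 then f.app m b else g.app m b := by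
  have h1 : (B ◁ ∂Δ[1].ι ≫ H).app m ((b, ⟨s, hs⟩) : (B ⊗ (∂Δ[1] : SSet.{0})).obj m) =
      (glue f g).app m ((b, ⟨s, hs⟩) : (B ⊗ (∂Δ[1] : SSet.{0})).obj m) := by rw [hH]
  exact h1

/-- The converse. -/
theorem ends {B T : SSet.{0}} {f g : B ⟶ T} {H : B ⊗ Δ[1] ⟶ T}
    (hH : B ◁ ∂Δ[1].ι ≫ H = glue f g) : SSet.ι₀ ≫ H = f ∧ SSet.ι₁ ≫ H = g := by
  constructor
  · ext m b
    have hm : (SSet.ι₀.app m b).2 ∈ (∂Δ[1] : (Δ[1] : SSet.{0}).Subcomplex).obj m := by
      intro hs
      obtain ⟨k, hk⟩ := hs 1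
      exact absurd hk (by
        show (0 : Fin 2) ≠ 1
        decide)
    exact (glue_eq hH m b _ hm).trans (if_pos rfl)
  · ext m b
    have hm : (SSet.ι₁.app m b).2 ∈ (∂Δ[1] : (Δ[1] : SSet.{0}).Subcomplex).obj m := by
      intro hs
      obtain ⟨k, hk⟩ := hs 0
      exact absurd hk (by
        show (1 : Fin 2) ≠ 0
        decide)
    exact (glue_eq hH m b _ hm).trans (if_neg (by
      show ¬ (1 : Fin 2) = 0
      decide))

end LTM

open CategoryTheory Simplicial MonoidalCategory Limits Opposite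

theorem LTM (h2 : Stmt_LTK) (h3 : Stmt_LTY) (h4 : Stmt_LTZ) : Stmt_LTM := by
  intro T P' P _ _ _ h g hT hf hN
  obtain ⟨t, ⟨H⟩⟩ := hN
  obtain ⟨_, hlt⟩ := LTM.lt_cyl h2 h3 h4 hT hf
  -- the homotopy on the source part
  let κ := inv (LTM.fwd (h := h))
  have hκ : (subN (Set.range (LTM.Cyl.l : P' → LTM.Cyl h))).ι ≫ NMap (LTM.rho h) =
      κ ≫ NMap h := by
    rw [IsIso.eq_inv_comp, ← Category.assoc, LTM.fwd_ι]
    rfl
  have e0 : SSet.ι₀ ≫ (κ ▷ Δ[1] ≫ H.h) = κ ≫ NMap h ≫ g := by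
    rw [SSet.ι₀_comp_assoc, H.h₀]
  have e1 : SSet.ι₁ ≫ (κ ▷ Δ[1] ≫ H.h) = SSet.const t := by
    rw [SSet.ι₁_comp_assoc, H.h₁, SSet.comp_const]
  obtain ⟨w, hw, -⟩ := hlt 1 (LTM.glue (NMap (LTM.rho h) ≫ g) (SSet.const t)) (κ ▷ Δ[1] ≫ H.h) (by
    rw [LTM.restr_eq e0 e1, ← Category.assoc, ← hκ]
    rfl)
  obtain ⟨w0, w1⟩ := LTM.ends hw
  refine ⟨t, ⟨?_⟩⟩
  exact
    { h := NMap (LTM.rO h) ▷ Δ[1] ≫ w
      h₀ := by
        rw [SSet.ι₀_comp_assoc, w0]
        rfl
      h₁ := by
        rw [SSet.ι₁_comp_assoc, w1]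
        rfl
      rel := by
        ext m p
        exact absurd p.1.2 (fun h => h) }

end Pool.Agent.SH
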