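import Pool.Agent.SH.StmtsT

/-!
# MP_2d0b73_an, PART II, LTN: the fibres of the last vertex map are acyclic
-/

noncomputable section

namespace Pool.Agent.SH

open CategoryTheory Simplicial MonoidalCategory Limits Opposite

namespace LTN

theorem trans (h1 : Stmt_LTA) (T X : SSet.{0}) (A B C : X.Subcomplex) (h : LTS T A B)
    (h' : LTS T B C) : LTS T A C := by
  obtain ⟨h, hh⟩ := h
  obtain ⟨h', hh'⟩ := h'
  refine ⟨h.trans h', ?_⟩
  have h3 := h1 T _ _ _ _ _ hh hh'
  exact h3

variable {P : Type} [PartialOrder P]

/-- The chain `{p}`. -/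
def sg (p : P) : Sd P where
  c := {p}
  ne := ⟨p, Finset.mem_singleton_self p⟩
  chain := by
    intro a ha b hb
    rw [Finset.mem_singleton] at ha hb
    rw [ha, hb]
    exact Or.inl le_rfl

theorem sg_top (p : P) : (sg p).top = p := by
  have h := (sg p).top_mem
  exact Finset.mem_singleton.1 h

open Classical in
/-- Add `p` to the chain `s` if the top of `s` is at most `p`. -/
def add (p : P) (s : Sd P) : Sd P :=
  if h : s.top ≤ p then
    { c := insert p s.c
      ne := ⟨p, Finset.mem_insert_self p _⟩
      chain := by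
        intro a ha b hb
        rcases Finset.mem_insert.1 ha with ha | ha
        · rcases Finset.mem_insert.1 hb with hb | hb
          · rw [ha, hb]
            exact Or.inl le_rfl
          · rw [ha]
            exact Or.inr ((s.le_top hb).trans h)
        · rcases Finset.mem_insert.1 hb with hb | hb
          · rw [hb]
            exact Or.inl ((s.le_top ha).trans h)
          · exact s.chain a ha b hb }
  else s

open Classical in
theorem add_c (p : P) (s : Sd P) (h : s.top ≤ p) : (add p s).c = insert p s.c := by
  unfold add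
  rw [dif_pos h]

end LTN

theorem LTN (h1 : Stmt_LTA) (h2 : Stmt_LTH) : Stmt_LTN := by
  classical
  intro T P _ p hT
  have hsg : LTN.sg p ∈ ({s | s.top ≤ p} : Set (Sd P)) := (LTN.sg_top p).le
  refine ⟨LTN.sg p, hsg, ?_⟩
  refine LTN.trans h1 T _ _ (subN ({s | s.top ≤ p ∧ p ∈ s.c} : Set (Sd P))) _ ?_ ?_
  · refine h2 T (Sd P) _ _ (fun _ => LTN.sg p) hT ?_ ?_ ?_ ?_ (Or.inr ?_)
    · intro s hs
      rw [Set.mem_singleton_iff] at hs
      rw [hs]
      exact ⟨hsg, Finset.mem_singleton_self p⟩
    · intro s _ t _ _
      exact le_rfl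
    · intro s _
      exact Set.mem_singleton _
    · intro s hs
      exact (Set.mem_singleton_iff.1 hs).symm
    · intro s hs
      show ({p} : Finset P) ⊆ s.c
      exact Finset.singleton_subset_iff.2 hs.2
  · refine h2 T (Sd P) _ _ (LTN.add p) hT ?_ ?_ ?_ ?_ (Or.inl ?_)
    · exact fun s hs => hs.1
    · intro s hs t ht hst
      have hs' : s.top ≤ p := hs
      have ht' : t.top ≤ p := ht
      have hst' : s.c ⊆ t.c := hst
      show (LTN.add p s).c ⊆ (LTN.add p t).c
      rw [LTN.add_c p s hs', LTN.add_c p t ht']
      exact Finset.insert_subset_insert p hst'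
    · intro s hs
      have hs' : s.top ≤ p := hs
      have hp : p ∈ (LTN.add p s).c := by
        rw [LTN.add_c p s hs']
        exact Finset.mem_insert_self p _
      refine ⟨?_, hp⟩
      have h3 := (LTN.add p s).top_mem
      rw [LTN.add_c p s hs'] at h3
      rcases Finset.mem_insert.1 h3 with h3 | h3
      · exact h3.le
      · exact (s.le_top h3).trans hs'
    · intro s hs
      refine Sd.ext' ?_
      rw [LTN.add_c p s hs.1]
      exact Finset.insert_eq_of_mem hs.2
    · intro s hs
      have hs' : s.top ≤ p := hs
      show s.c ⊆ (LTN.add p s).c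
      rw [LTN.add_c p s hs']
      exact Finset.subset_insert p _

end Pool.Agent.SH
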