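import Pool.Agent.SH.StmtsT

/-!
# LTO: the fibres of the step are acyclic (MP_2d0b73_an, PART II)
-/

noncomputable section

namespace Pool.Agent.SH

open CategoryTheory Simplicial MonoidalCategory Limits Opposite

namespace LTO

/-- Transitivity of `LTS`. -/
theorem trans (h1 : Stmt_LTA) {T X : SSet.{0}} {A B C : X.Subcomplex} (hAB : LTS T A B)
    (hBC : LTS T B C) : LTS T A C := by
  obtain ⟨i, hi⟩ := hAB
  obtain ⟨j, hj⟩ := hBC
  exact ⟨i.trans j, h1 T _ _ _ _ _ hi hj⟩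

/-- The elements of the step over `p`, if `p` is not in `D`. -/
def emb {P L : Type} [PartialOrder P] [PartialOrder L] (D : Set P) (f : P → L) (p : P)
    (hp : p ∉ D) : L ↪o StepP D f where
  toFun l := ⟨(p, l), fun h => absurd h hp⟩
  inj' l l' h := congrArg (fun x : StepP D f => x.1.2) h
  map_rel_iff' := by
    intro l l'
    exact ⟨fun h => h.2, fun h => ⟨le_rfl, h⟩⟩

end LTO

theorem LTO (h1 : Stmt_LTA) (h2 : Stmt_LTH) (h3 : Stmt_LTI) (h4 : Stmt_LTY) (h5 : Stmt_LTZ) :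
    Stmt_LTO := by
  intro T P L _ _ D f p hT hL hD hf
  by_cases hp : p ∈ D
  · obtain ⟨x₀, hx₀⟩ : ∃ x₀ : StepP D f, x₀ = ⟨(p, f p), fun _ => rfl⟩ := ⟨_, rfl⟩
    have hx : x₀ ∈ ({x | StepP.pr D f x ≤ p} : Set (StepP D f)) := by
      rw [hx₀]
      exact le_rfl
    refine ⟨x₀, hx, h3 T (StepP D f) _ x₀ hT hx ?_ x₀ hx⟩
    intro x hxp
    have hxp' : x.1.1 ≤ p := hxp
    have hxD : x.1.1 ∈ D := hD hxp' hp
    have h6 : x.1.2 = f x.1.1 := x.2 hxD
    rw [hx₀]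
    refine ⟨hxp', ?_⟩
    change x.1.2 ≤ f p
    rw [h6]
    exact hf hxD hp hxp'
  · obtain ⟨a, -, ha⟩ := (h5 T L).2 hL
    have h6 := (h4 T L (StepP D f) (LTO.emb D f p hp) {a} Set.univ).1 ha
    rw [Set.image_singleton] at h6
    refine ⟨LTO.emb D f p hp a, le_refl p, LTO.trans h1 h6 ?_⟩
    refine h2 T (StepP D f) _ _ (fun x => LTO.emb D f p hp x.1.2) hT ?_ ?_ ?_ ?_ (Or.inl ?_)
    · rintro _ ⟨l, -, rfl⟩
      exact le_refl p
    · intro x _ y _ hxy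
      exact (LTO.emb D f p hp).monotone hxy.2
    · intro x _
      exact ⟨x.1.2, Set.mem_univ _, rfl⟩
    · rintro _ ⟨l, -, rfl⟩
      rfl
    · intro x hx
      exact ⟨hx, le_rfl⟩

end Pool.Agent.SH
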