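import Pool.Agent.SH.StmtsT

/-!
# MP_2d0b73_an, PART II, module LTP: compactness for the step
-/

noncomputable section

set_option autoImplicit false

namespace Pool.Agent.SH

open CategoryTheory Simplicial MonoidalCategory Limits Opposite

namespace LTP

/-- The values of a simplex of `Δ[1]`. -/
def ac {n : SimplexCategoryᵒᵖ} (α : (Δ[1] : SSet.{0}).obj n) (i : Fin (n.unop.len + 1)) : Fin 2 :=
  (SSet.stdSimplex.objEquiv α).toOrderHom i

theorem ac_map {n m : SimplexCategoryᵒᵖ} (θ : n ⟶ m) (α : (Δ[1] : SSet.{0}).obj n)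
    (i : Fin (m.unop.len + 1)) : ac ((Δ[1] : SSet.{0}).map θ α) i = ac α (θ.unop.toOrderHom i) := rfl

theorem ac_ext {n : SimplexCategoryᵒᵖ} {α β : (Δ[1] : SSet.{0}).obj n} (h : ∀ i, ac α i = ac β i) :
    α = β := by
  apply SSet.stdSimplex.objEquiv.injective
  exact SimplexCategory.Hom.ext _ _ (OrderHom.ext _ _ (funext h))

/-- The ends of the cylinder. -/
def cst (X : SSet.{0}) : (X ⊗ (Δ[1] : SSet.{0})).Subcomplex where
  obj n := {p | ∀ i, ac p.2 i = ac p.2 0}
  map {n m} θ p hp i := (hp (θ.unop.toOrderHom i)).trans (hp (θ.unop.toOrderHom 0)).symm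

variable {X T : SSet.{0}}

/-- `F` at the end `0`, `G` at the end `1`. -/
def um (F G : X ⟶ T) : (cst X : SSet.{0}) ⟶ T where
  app n := TypeCat.ofHom (fun p => if ac p.1.2 0 = 0 then F.app n p.1.1 else G.app n p.1.1)
  naturality n m θ := by
    refine ConcreteCategory.hom_ext _ _ fun p => ?_
    change (if ac ((Δ[1] : SSet.{0}).map θ p.1.2) 0 = 0 then F.app m (X.map θ p.1.1)
      else G.app m (X.map θ p.1.1)) = T.map θ (if ac p.1.2 0 = 0 then F.app n p.1.1
        else G.app n p.1.1)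
    rw [ac_map, p.2 (θ.unop.toOrderHom 0)]
    split_ifs
    · exact NatTrans.naturality_apply F θ p.1.1
    · exact NatTrans.naturality_apply G θ p.1.1

theorem um_zero (F G : X ⟶ T) {n : SimplexCategoryᵒᵖ} (p : (cst X : SSet.{0}).obj n)
    (h : ac p.1.2 0 = 0) : (um F G).app n p = F.app n p.1.1 := if_pos h

theorem um_one (F G : X ⟶ T) {n : SimplexCategoryᵒᵖ} (p : (cst X : SSet.{0}).obj n)
    (h : ac p.1.2 0 ≠ 0) : (um F G).app n p = G.app n p.1.1 := if_neg h

theorem hty_zero {F G : X ⟶ T} (H : SSet.Homotopy F G) {n : SimplexCategoryᵒᵖ} (x : X.obj n)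
    (α : (Δ[1] : SSet.{0}).obj n) (h : ∀ i, ac α i = 0) : H.h.app n (x, α) = F.app n x := by
  have h1 : (x, α) = (SSet.ι₀ : X ⟶ X ⊗ Δ[1]).app n x := by
    refine Prod.ext rfl ?_
    exact ac_ext h
  rw [h1]
  exact ConcreteCategory.congr_hom (NatTrans.congr_app H.h₀ n) x

theorem hty_one {F G : X ⟶ T} (H : SSet.Homotopy F G) {n : SimplexCategoryᵒᵖ} (x : X.obj n)
    (α : (Δ[1] : SSet.{0}).obj n) (h : ∀ i, ac α i = 1) : H.h.app n (x, α) = G.app n x := by
  have h1 : (x, α) = (SSet.ι₁ : X ⟶ X ⊗ Δ[1]).app n x := by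
    refine Prod.ext rfl ?_
    exact ac_ext h
  rw [h1]
  exact ConcreteCategory.congr_hom (NatTrans.congr_app H.h₁ n) x

theorem mk_hty {F G : X ⟶ T} (w : X ⊗ (Δ[1] : SSet.{0}) ⟶ T) (h : (cst X).ι ≫ w = um F G) :
    Nonempty (SSet.Homotopy F G) := by
  refine ⟨{ h := w, h₀ := ?_, h₁ := ?_, rel := ?_ }⟩
  · refine NatTrans.ext (funext fun n => ConcreteCategory.hom_ext _ _ fun x => ?_)
    have hp : (SSet.ι₀ : X ⟶ X ⊗ Δ[1]).app n x ∈ (cst X).obj n := fun i => rfl
    have h1 := ConcreteCategory.congr_hom (NatTrans.congr_app h n) ⟨_, hp⟩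
    exact h1.trans (um_zero F G ⟨_, hp⟩ rfl)
  · refine NatTrans.ext (funext fun n => ConcreteCategory.hom_ext _ _ fun x => ?_)
    have hp : (SSet.ι₁ : X ⟶ X ⊗ Δ[1]).app n x ∈ (cst X).obj n := fun i => rfl
    have h1 := ConcreteCategory.congr_hom (NatTrans.congr_app h n) ⟨_, hp⟩
    refine h1.trans (um_one F G ⟨_, hp⟩ ?_)
    intro h0
    exact absurd h0 (by decide : (1 : Fin 2) ≠ 0)
  · ext n x
    exact x.1.2.elim

/-- The lift of a simplex of the step all whose labels are in `Λ`. -/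
def lft {P L : Type} [PartialOrder P] [PartialOrder L] (D : Set P) (f : P → L) (Λ : Finset L)
    {k : ℕ} (x : ComposableArrows (StepP D f) k) (hx : ∀ i, (x.obj i).1.2 ∈ Λ) :
    ComposableArrows (StepF D f Λ) k :=
  Monotone.functor (f := fun i => (⟨(x.obj i).1, hx i, (x.obj i).2⟩ : StepF D f Λ))
    (fun _ _ h => leOfHom (x.map (homOfLE h)))

theorem lft_obj {P L : Type} [PartialOrder P] [PartialOrder L] (D : Set P) (f : P → L)
    (Λ : Finset L) {k : ℕ} (x : ComposableArrows (StepP D f) k) (hx : ∀ i, (x.obj i).1.2 ∈ Λ)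
    (i : Fin (k + 1)) : ((lft D f Λ x hx).obj i).1 = (x.obj i).1 := rfl

end LTP

open LTP in
theorem LTP (h1 : Stmt_LTR) : Stmt_LTP := by
  classical
  intro T P L _ _ _ D f g Λ₀ hK hC hN
  by_cases hne : Nonempty (StepP D f)
  swap
  · obtain ⟨t, _⟩ := hN Λ₀ (Finset.Subset.refl _)
    refine ⟨t, mk_hty ?_ ?_⟩
    · exact { app := fun n => TypeCat.ofHom (fun p =>
                (hne ⟨ComposableArrows.obj' p.1 0 (Nat.zero_le _)⟩).elim)
              naturality := fun n m θ => by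
                refine ConcreteCategory.hom_ext _ _ fun p => ?_
                exact (hne ⟨ComposableArrows.obj' p.1 0 (Nat.zero_le _)⟩).elim }
    · refine NatTrans.ext (funext fun n => ConcreteCategory.hom_ext _ _ fun p => ?_)
      exact (hne ⟨ComposableArrows.obj' p.1.1 0 (Nat.zero_le _)⟩).elim
  · obtain ⟨x₀⟩ := hne
    set F : NP (StepP D f) ⟶ T := NMap (StepP.pr D f) ≫ g with hF
    let t₀ : T _⦋0⦌ := g.app (op ⦋0⦌) (ComposableArrows.mk₀ x₀.1.1)
    refine ⟨t₀, ?_⟩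
    have key : ∃ w : NP (StepP D f) ⊗ (Δ[1] : SSet.{0}) ⟶ T,
        (cst (NP (StepP D f))).ι ≫ w = um F (SSet.const t₀) := by
      refine hC _ _ _ fun F' hF' => ?_
      have : Finite ((F' : SSet.{0}).obj (op ⦋0⦌)) := by
        have := hF'
        infer_instance
      have := Fintype.ofFinite ((F' : SSet.{0}).obj (op ⦋0⦌))
      let Λ : Finset L := Λ₀ ∪ {x₀.1.2} ∪ Finset.univ.image
        (fun v : (F' : SSet.{0}).obj (op ⦋0⦌) => (ComposableArrows.obj' v.1.1 0 (Nat.zero_le _)).1.2)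
      have hΛ₀ : Λ₀ ⊆ Λ := by
        intro a ha
        simp [Λ, ha]
      have hx₀ : x₀.1.2 ∈ Λ := by simp [Λ]
      have hF'' : ∀ (n : SimplexCategoryᵒᵖ) (p : (NP (StepP D f) ⊗ (Δ[1] : SSet.{0})).obj n),
          p ∈ F'.obj n → ∀ i : Fin (n.unop.len + 1),
            (p.1.obj i : StepP D f).1.2 ∈ Λ := by
        intro n p hp i
        have h2 := F'.map (SimplexCategory.const ⦋0⦌ n.unop i).op hp
        have h3 : (Finset.univ.image
          (fun v : (F' : SSet.{0}).obj (op ⦋0⦌) =>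
            (ComposableArrows.obj' v.1.1 0 (Nat.zero_le _) : StepP D f).1.2)) ⊆ Λ :=
          Finset.subset_union_right
        apply h3
        rw [Finset.mem_image]
        exact ⟨⟨_, h2⟩, Finset.mem_univ _, rfl⟩
      let y₀ : StepF D f Λ := ⟨x₀.1, hx₀, x₀.2⟩
      obtain ⟨H⟩ := h1 (NP (StepF D f Λ)) T (NMap (StepF.pr D f Λ) ≫ g) (ComposableArrows.mk₀ y₀)
        hK (hN Λ hΛ₀)
      have ht : (NMap (StepF.pr D f Λ) ≫ g).app (op ⦋0⦌) (ComposableArrows.mk₀ y₀) = t₀ := by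
        change g.app (op ⦋0⦌) ((NMap (StepF.pr D f Λ)).app (op ⦋0⦌) (ComposableArrows.mk₀ y₀)) = _
        congr 1
      rw [ht] at H
      let q : (F' : SSet.{0}) ⟶ NP (StepF D f Λ) ⊗ (Δ[1] : SSet.{0}) :=
        { app := fun n => TypeCat.ofHom (fun p =>
            (lft D f Λ p.1.1 (hF'' n p.1 p.2), p.1.2))
          naturality := fun n m θ => by
            refine ConcreteCategory.hom_ext _ _ fun p => ?_
            refine Prod.ext ?_ rfl
            exact nerve.ext_of_isThin (C := StepF D f Λ) rfl }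
      refine ⟨q ≫ H.h, ?_⟩
      refine NatTrans.ext (funext fun n => ConcreteCategory.hom_ext _ _ fun p => ?_)
      have hA : ∀ i, ac p.1.2 i = ac p.1.2 0 := p.2.1
      change H.h.app n (lft D f Λ p.1.1 (hF'' n p.1 p.2.2), p.1.2) =
        (um F (SSet.const t₀)).app n ⟨p.1, p.2.1⟩
      by_cases h0 : ac p.1.2 0 = 0
      · rw [um_zero _ _ _ h0, hty_zero H _ _ (fun i => (hA i).trans h0)]
        change g.app n ((NMap (StepF.pr D f Λ)).app n _) = g.app n ((NMap (StepP.pr D f)).app n _)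
        congr 1
      · have h0' : ac p.1.2 0 = 1 := by
          have : ∀ a : Fin 2, a ≠ 0 → a = 1 := by decide
          exact this _ h0
        rw [um_one _ _ _ h0, hty_one H _ _ (fun i => (hA i).trans h0')]
        rfl
    obtain ⟨w, hw⟩ := key
    exact mk_hty w hw

end Pool.Agent.SH
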