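import Pool.Agent.SH.StmtsT

/-!
# Maps which miss a facet are null
-/

noncomputable section

namespace Pool.Agent.SH

open CategoryTheory Simplicial MonoidalCategory Limits Opposite

namespace LTQ

theorem hom_mk {X T : SSet.{0}} {f g : X ⟶ T} (h : X ⊗ Δ[1] ⟶ T) (h0 : SSet.ι₀ ≫ h = f)
    (h1 : SSet.ι₁ ≫ h = g) : Nonempty (SSet.Homotopy f g) := by
  refine ⟨{ h := h, h₀ := h0, h₁ := h1, rel := ?_ }⟩
  ext n x
  exact x.1.2.elim

theorem refl' {X T : SSet.{0}} (f : X ⟶ T) : Nonempty (SSet.Homotopy f f) :=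
  hom_mk (CartesianMonoidalCategory.fst X Δ[1] ≫ f)
    (by rw [← Category.assoc, SSet.ι₀_fst, Category.id_comp])
    (by rw [← Category.assoc, SSet.ι₁_fst, Category.id_comp])

theorem post' {X T U : SSet.{0}} {f g : X ⟶ T} (H : SSet.Homotopy f g) (v : T ⟶ U) :
    Nonempty (SSet.Homotopy (f ≫ v) (g ≫ v)) :=
  hom_mk (H.h ≫ v) (by rw [← Category.assoc, H.h₀]) (by rw [← Category.assoc, H.h₁])

theorem null_const {X T : SSet.{0}} (t : T _⦋0⦌) : Null (SSet.const t : X ⟶ T) :=
  ⟨t, refl' _⟩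

/-- The vertex of the nerve. -/
def vt {Q : Type} [PartialOrder Q] (c : Q) : (NP Q) _⦋0⦌ := ComposableArrows.mk₀ c

theorem nmap_const {P Q : Type} [PartialOrder P] [PartialOrder Q] (c : Q) :
    NMap (OrderHom.const P c) = SSet.const (vt c) := by
  ext n x
  rfl

/-- Adding the missing vertex. -/
theorem ne_univ {M : ℕ} {F A : P0 M} {i : Fin (M + 2)} (hF : F.s = Finset.univ.erase i)
    (hA : A ≠ F) : insert i A.s ≠ Finset.univ := by
  intro h
  have h1 : F.s ⊆ A.s := by
    intro x hx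
    rw [hF, Finset.mem_erase] at hx
    have h2 : x ∈ insert i A.s := h ▸ Finset.mem_univ x
    rcases Finset.mem_insert.1 h2 with h3 | h3
    · exact absurd h3 hx.1
    · exact h3
  by_cases hi : i ∈ A.s
  · exact A.ne_univ (by rw [← h, Finset.insert_eq_of_mem hi])
  · apply hA
    apply P0.ext'
    apply Finset.Subset.antisymm _ h1
    intro x hx
    rw [hF, Finset.mem_erase]
    exact ⟨fun e => hi (e ▸ hx), Finset.mem_univ x⟩

end LTQ

open LTQ in
theorem LTQ (h1 : Stmt_LTG) (h2 : Stmt_LTL) : Stmt_LTQ := by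
  classical
  intro T M e P _ g F hT hF hg
  obtain ⟨i, hi⟩ : ∃ i, Finset.univ \ F.s = {i} := by
    apply Finset.card_eq_one.1
    rw [Finset.card_sdiff_of_subset (Finset.subset_univ _), hF, Finset.card_univ,
      Fintype.card_fin]
    omega
  have hF' : F.s = Finset.univ.erase i := by
    ext x
    have h3 : x ∈ Finset.univ \ F.s ↔ x ∈ ({i} : Finset (Fin (M + 2))) := by rw [hi]
    simp only [Finset.mem_sdiff, Finset.mem_univ, true_and, Finset.mem_singleton] at h3
    rw [Finset.mem_erase]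
    constructor
    · intro hx
      exact ⟨fun hxi => h3.2 hxi hx, Finset.mem_univ x⟩
    · intro hx
      by_contra hc
      exact hx.1 (h3.1 hc)
  let g1 : P →o P0 M :=
    { toFun := fun p => ⟨insert i (g p).s, Finset.insert_nonempty _ _, ne_univ hF' (hg p)⟩
      monotone' := fun p q hpq => Finset.insert_subset_insert _ (g.monotone hpq) }
  let c : P0 M := ⟨{i}, Finset.singleton_nonempty i, by
    intro h
    have h3 := congrArg Finset.card h
    rw [Finset.card_singleton, Finset.card_univ, Fintype.card_fin] at h3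
    omega⟩
  have hg1 : g ≤ g1 := fun p => Finset.subset_insert _ _
  have hc1 : OrderHom.const P c ≤ g1 := fun p =>
    Finset.singleton_subset_iff.2 (Finset.mem_insert_self _ _)
  obtain ⟨H, -⟩ := h1 P (P0 M) g g1 hg1
  obtain ⟨H', -⟩ := h1 P (P0 M) (OrderHom.const P c) g1 hc1
  have n0 : Null (NMap (OrderHom.const P c) ≫ e) := by
    rw [nmap_const, SSet.const_comp]
    exact null_const _
  have n1 : Null (NMap g1 ≫ e) := h2 _ _ _ _ hT (Or.inl (post' H' e)) n0
  exact h2 _ _ _ _ hT (Or.inr (post' H e)) n1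

end Pool.Agent.SH
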