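import Pool.Agent.SH.StmtsT

/-!
# MP_2d0b73_an, PART II: null homotopic maps and their values
-/

noncomputable section

namespace Pool.Agent.SH

open CategoryTheory Simplicial MonoidalCategory Limits Opposite
open SSet CartesianMonoidalCategory

namespace LTR

/-! ### Edges -/

section Edges

variable {M : SSet.{0}}

/-- There is an edge from `x` to `y`. -/
def Edg (x y : (Δ[0] : SSet.{0}) ⟶ M) : Prop :=
  ∃ e : (Δ[1] : SSet.{0}) ⟶ M, stdSimplex.δ (1 : Fin 2) ≫ e = x ∧ stdSimplex.δ (0 : Fin 2) ≫ e = y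

theorem δσ (j : Fin 2) (x : (Δ[0] : SSet.{0}) ⟶ M) :
    stdSimplex.δ j ≫ stdSimplex.σ (0 : Fin 1) ≫ x = x := by
  have h : stdSimplex.δ j ≫ stdSimplex.σ (0 : Fin 1) = 𝟙 (Δ[0] : SSet.{0}) :=
    stdSimplex.isTerminalObj₀.hom_ext _ _
  rw [← Category.assoc, h, Category.id_comp]

theorem d02 (φ : (Δ[2] : SSet.{0}) ⟶ M) :
    stdSimplex.δ (1 : Fin 2) ≫ stdSimplex.δ (0 : Fin 3) ≫ φ =
      stdSimplex.δ (0 : Fin 2) ≫ stdSimplex.δ (2 : Fin 3) ≫ φ := by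
  have h : stdSimplex.δ (0 : Fin 2) ≫ stdSimplex.δ (2 : Fin 3) =
      stdSimplex.δ (1 : Fin 2) ≫ (stdSimplex.δ (0 : Fin 3) : (Δ[1] : SSet.{0}) ⟶ Δ[2]) :=
    stdSimplex.δ_comp_δ (i := (0 : Fin 2)) (j := (1 : Fin 2)) (by decide)
  rw [← Category.assoc, ← h, Category.assoc]

theorem d01 (φ : (Δ[2] : SSet.{0}) ⟶ M) :
    stdSimplex.δ (0 : Fin 2) ≫ stdSimplex.δ (0 : Fin 3) ≫ φ =
      stdSimplex.δ (0 : Fin 2) ≫ stdSimplex.δ (1 : Fin 3) ≫ φ := by
  have h : stdSimplex.δ (0 : Fin 2) ≫ stdSimplex.δ (1 : Fin 3) =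
      stdSimplex.δ (0 : Fin 2) ≫ (stdSimplex.δ (0 : Fin 3) : (Δ[1] : SSet.{0}) ⟶ Δ[2]) :=
    stdSimplex.δ_comp_δ (i := (0 : Fin 2)) (j := (0 : Fin 2)) (by decide)
  rw [← Category.assoc, ← h, Category.assoc]

/-- Two edges with the same source in a Kan complex: their targets are joined by an edge. -/
theorem edg_span (hM : SSet.KanComplex M) {x y z : (Δ[0] : SSet.{0}) ⟶ M} (h : Edg x y)
    (h' : Edg x z) : Edg y z := by
  obtain ⟨e, h1, h0⟩ := h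
  obtain ⟨e', h1', h0'⟩ := h'
  let f : ∀ (j : Fin 3) (_ : j ≠ 0), (Δ[1] : SSet.{0}) ⟶ M :=
    fun j _ => if j = 1 then e' else e
  have hf : horn.IsCompatible f := by
    rw [horn.isCompatible_iff]
    intro j k hj hk hjk
    fin_cases j
    · exact absurd rfl hj
    · fin_cases k
      · exact absurd rfl hk
      · exact absurd hjk (by decide)
      · change stdSimplex.δ (1 : Fin 2) ≫ e' = stdSimplex.δ (1 : Fin 2) ≫ e
        rw [h1, h1']
    · fin_cases k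
      · exact absurd rfl hk
      · exact absurd hjk (by decide)
      · exact absurd hjk (by decide)
  obtain ⟨φ, hφ⟩ := hf.exists_lift_of_kanComplex
  have hφ1 : stdSimplex.δ (1 : Fin 3) ≫ φ = e' := hφ 1 (by decide)
  have hφ2 : stdSimplex.δ (2 : Fin 3) ≫ φ = e := hφ 2 (by decide)
  refine ⟨stdSimplex.δ (0 : Fin 3) ≫ φ, ?_, ?_⟩
  · rw [d02, hφ2, h0]
  · rw [d01, hφ1, h0']

theorem edg_refl (x : (Δ[0] : SSet.{0}) ⟶ M) : Edg x x :=
  ⟨stdSimplex.σ 0 ≫ x, δσ 1 x, δσ 0 x⟩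

end Edges

/-! ### Homotopies -/

section Hty

variable {A B T : SSet.{0}}

/-- Homotopic maps. -/
def Hty (f g : A ⟶ T) : Prop := Nonempty (SSet.Homotopy f g)

theorem hty_iff (f g : A ⟶ T) :
    Hty f g ↔ ∃ h : A ⊗ Δ[1] ⟶ T, ι₀ ≫ h = f ∧ ι₁ ≫ h = g := by
  constructor
  · rintro ⟨H⟩
    exact ⟨H.h, H.h₀, H.h₁⟩
  · rintro ⟨h, h0, h1⟩
    refine ⟨{ h := h, h₀ := h0, h₁ := h1, rel := ?_ }⟩
    ext n x
    exact x.1.2.elim

theorem hty_pre {f g : B ⟶ T} (h : Hty f g) (u : A ⟶ B) : Hty (u ≫ f) (u ≫ g) := by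
  obtain ⟨H, h0, h1⟩ := (hty_iff f g).1 h
  refine (hty_iff _ _).2 ⟨u ▷ Δ[1] ≫ H, ?_, ?_⟩
  · rw [← Category.assoc, ι₀_comp, Category.assoc, h0]
  · rw [← Category.assoc, ι₁_comp, Category.assoc, h1]

/-- A map as a point of the mapping complex. -/
def pt (f : A ⟶ T) : (Δ[0] : SSet.{0}) ⟶ (ihom A).obj T :=
  MonoidalClosed.curry (fst A (Δ[0] : SSet.{0}) ≫ f)

theorem pt_inj {f g : A ⟶ T} (h : pt f = pt g) : f = g := by
  have h1 : fst A (Δ[0] : SSet.{0}) ≫ f = fst A (Δ[0] : SSet.{0}) ≫ g :=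
    MonoidalClosed.curry_injective h
  have h2 := congrArg (fun u => lift (𝟙 A) (stdSimplex.isTerminalObj₀.from A) ≫ u) h1
  simpa using h2

theorem w1 (A : SSet.{0}) : A ◁ (stdSimplex.δ (1 : Fin 2)) = fst A (Δ[0] : SSet.{0}) ≫ ι₀ := by
  apply CartesianMonoidalCategory.hom_ext
  · simp
  · rw [Category.assoc, ι₀_snd, whiskerLeft_snd, stdSimplex.δ_one_eq_const]
    simp

theorem w0 (A : SSet.{0}) : A ◁ (stdSimplex.δ (0 : Fin 2)) = fst A (Δ[0] : SSet.{0}) ≫ ι₁ := by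
  apply CartesianMonoidalCategory.hom_ext
  · simp
  · rw [Category.assoc, ι₁_snd, whiskerLeft_snd, stdSimplex.δ_zero_eq_const]
    simp

theorem δ1_curry (h : A ⊗ (Δ[1] : SSet.{0}) ⟶ T) :
    stdSimplex.δ (1 : Fin 2) ≫ MonoidalClosed.curry h = pt (ι₀ ≫ h) := by
  rw [← MonoidalClosed.curry_natural_left, w1, Category.assoc]
  rfl

theorem δ0_curry (h : A ⊗ (Δ[1] : SSet.{0}) ⟶ T) :
    stdSimplex.δ (0 : Fin 2) ≫ MonoidalClosed.curry h = pt (ι₁ ≫ h) := by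
  rw [← MonoidalClosed.curry_natural_left, w0, Category.assoc]
  rfl

theorem hty_iff_edg (f g : A ⟶ T) : Hty f g ↔ Edg (pt f) (pt g) := by
  rw [hty_iff]
  constructor
  · rintro ⟨h, h0, h1⟩
    exact ⟨MonoidalClosed.curry h, by rw [δ1_curry, h0], by rw [δ0_curry, h1]⟩
  · rintro ⟨e, h1, h0⟩
    obtain ⟨h, rfl⟩ : ∃ h, MonoidalClosed.curry h = e :=
      ⟨MonoidalClosed.uncurry e, MonoidalClosed.curry_uncurry e⟩
    rw [δ1_curry] at h1
    rw [δ0_curry] at h0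
    exact ⟨h, pt_inj h1, pt_inj h0⟩

theorem hty_refl (f : A ⟶ T) : Hty f f := (hty_iff_edg f f).mpr (edg_refl _)

theorem hty_span (hT : SSet.KanComplex T) {f g k : A ⟶ T} (h : Hty f g) (h' : Hty f k) :
    Hty g k := by
  have hM : SSet.KanComplex ((ihom A).obj T) := inferInstance
  rw [hty_iff_edg] at h h' ⊢
  exact edg_span hM h h'

theorem hty_symm (hT : SSet.KanComplex T) {f g : A ⟶ T} (h : Hty f g) : Hty g f :=
  hty_span hT h (hty_refl f)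

end Hty

end LTR

open LTR in
theorem LTR : Stmt_LTR := by
  intro X T f x hT hf
  obtain ⟨t, ht⟩ := hf
  have h1 : Hty f (SSet.const t) := ht
  have h2 := hty_pre h1 (SSet.const x : X ⟶ X)
  have e1 : (SSet.const x : X ⟶ X) ≫ f = SSet.const (f.app _ x) := by
    rw [SSet.const_comp]
  have e2 : (SSet.const x : X ⟶ X) ≫ (SSet.const t : X ⟶ T) = SSet.const t := by
    rw [SSet.comp_const]
  rw [e1, e2] at h2
  exact hty_span hT (hty_symm hT h1) (hty_symm hT h2)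

end Pool.Agent.SH
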