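import Pool.Agent.SH.StmtsT

/-!
# MP_2d0b73_an, PART II, module LTX: `LT T` is invariant under isomorphisms of arrows
-/

noncomputable section

namespace Pool.Agent.SH

open CategoryTheory Simplicial MonoidalCategory Limits Opposite

theorem LTX : Stmt_LTX := by
  intro T A B A' B' i i' a b h hi
  have hi' : i' = a.inv ≫ i ≫ b.hom := by rw [← h, Iso.inv_hom_id_assoc]
  refine ⟨?_, ?_⟩
  · have h1 : Mono i := hi.1
    rw [hi']
    infer_instance
  · intro n u v huv
    have k : i ▷ (∂Δ[n] : SSet.{0}) ≫ (b.hom ▷ (∂Δ[n] : SSet.{0}) ≫ u) =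
        A ◁ ∂Δ[n].ι ≫ (a.hom ▷ Δ[n] ≫ v) := by
      rw [← comp_whiskerRight_assoc, ← h, comp_whiskerRight_assoc, huv,
        ← whisker_exchange_assoc]
    obtain ⟨w, w1, w2⟩ := hi.2 n _ _ k
    refine ⟨b.inv ▷ Δ[n] ≫ w, ?_, ?_⟩
    · rw [whisker_exchange_assoc, w1, ← comp_whiskerRight_assoc, Iso.inv_hom_id,
        id_whiskerRight, Category.id_comp]
    · have e : i' ≫ b.inv = a.inv ≫ i := by
        rw [hi', Category.assoc, Category.assoc, Iso.hom_inv_id, Category.comp_id]
      rw [← comp_whiskerRight_assoc, e, comp_whiskerRight_assoc, w2,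
        ← comp_whiskerRight_assoc, Iso.inv_hom_id, id_whiskerRight, Category.id_comp]

end Pool.Agent.SH
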