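import Mathlib
import Pool.Agent.SH.StmtsT

/-!
# MP_2d0b73_an, PART II: transport of parts of nerves along an order embedding
-/

open CategoryTheory Simplicial MonoidalCategory Limits Opposite

namespace Pool.Agent.SH

namespace LTY

variable {R' R : Type} [PartialOrder R'] [PartialOrder R]

theorem subN_le_iff {A B : Set R} : subN A ≤ subN B ↔ A ⊆ B := by
  constructor
  · intro h a ha
    let x : (nerve R) _⦋0⦌ := ComposableArrows.mk₀ a
    have hx : x ∈ (subN A).obj (op ⦋0⦌) := fun _ => ha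
    exact h _ hx 0
  · intro h m x hx i
    exact h (hx i)

/-- The map of parts of nerves induced by an order embedding. -/
noncomputable def fwd (φ : R' ↪o R) (A : Set R') :
    (subN A : SSet.{0}) ⟶ (subN (φ '' A) : SSet.{0}) :=
  SSet.Subcomplex.lift ((subN A).ι ≫ NMap (φ : R' →o R)) (by
    rw [← SSet.Subcomplex.preimage_eq_top_iff, SSet.Subcomplex.preimage_comp, eq_top_iff]
    intro m x _ i
    exact ⟨_, x.2 i, rfl⟩)

theorem fwd_ι (φ : R' ↪o R) (A : Set R') :
    fwd φ A ≫ (subN (φ '' A)).ι = (subN A).ι ≫ NMap (φ : R' →o R) := rfl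

theorem isIso_fwd (φ : R' ↪o R) (A : Set R') : IsIso (fwd φ A) := by
  rw [NatTrans.isIso_iff_isIso_app]
  intro m
  rw [isIso_iff_bijective]
  constructor
  · rintro ⟨x, hx⟩ ⟨y, hy⟩ hxy
    have h1 : (NMap (φ : R' →o R)).app m x = (NMap (φ : R' →o R)).app m y :=
      congrArg Subtype.val hxy
    refine Subtype.ext (nerve.ext_of_isThin (funext fun i => ?_))
    have h2 : φ (x.obj i) = φ (y.obj i) := congrArg (fun t => t.obj i) h1
    exact φ.injective h2
  · rintro ⟨x, hx⟩
    have hx' : ∀ i, ∃ z : R', z ∈ A ∧ φ z = x.obj i := fun i => hx i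
    choose y hyA hy using hx'
    have hmono : Monotone y := by
      intro i j hij
      rw [← φ.le_iff_le, hy, hy]
      exact leOfHom (x.map (homOfLE hij))
    refine ⟨⟨hmono.functor, hyA⟩, Subtype.ext (nerve.ext_of_isThin (funext fun i => hy i))⟩

end LTY

theorem LTY (h1 : Stmt_LTX) : Stmt_LTY := by
  intro T R' R _ _ φ A B
  have := LTY.isIso_fwd φ A
  have := LTY.isIso_fwd φ B
  constructor
  · rintro ⟨h, h2⟩
    have h3 : φ '' A ⊆ φ '' B := Set.image_mono (LTY.subN_le_iff.1 h)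
    refine ⟨LTY.subN_le_iff.2 h3, ?_⟩
    exact h1 T _ _ _ _ _ _ (asIso (LTY.fwd φ A)) (asIso (LTY.fwd φ B)) rfl h2
  · rintro ⟨h, h2⟩
    have h3 : A ⊆ B := (Set.image_subset_image_iff φ.injective).1 (LTY.subN_le_iff.1 h)
    refine ⟨LTY.subN_le_iff.2 h3, ?_⟩
    refine h1 T _ _ _ _ _ _ (asIso (LTY.fwd φ A)).symm (asIso (LTY.fwd φ B)).symm ?_ h2
    simp only [Iso.symm_hom, asIso_inv]
    rw [IsIso.inv_comp_eq, ← Category.assoc, IsIso.eq_comp_inv]
    rfl

end Pool.Agent.SH
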