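import Pool.Agent.SH.PARTII
import Pool.Agent.SH.GXM
import Pool.Agent.SH.GWE
import Pool.Agent.SH.GTW
import Pool.Agent.SH.GLC
import Pool.Agent.SH.GLE
import Pool.Agent.SH.GLD
import Pool.Agent.SH.GLL
import Pool.Agent.SH.GLI
import Pool.Agent.SH.GBO
import Pool.Agent.SH.GNX
import Pool.Agent.SH.GRF
import Pool.Agent.SH.GST
import Pool.Agent.SH.GCO
import Pool.Agent.SH.GSD
import Pool.Agent.SH.GME
import Pool.Agent.SH.RET
import Pool.Agent.SH.BRIDGE
import Pool.Agent.SH.LTA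
import Pool.Agent.SH.LTB
import Pool.Agent.SH.LTC
import Pool.Agent.SH.LTD
import Pool.Agent.SH.LTE
import Pool.Agent.SH.LTF
import Pool.Agent.SH.LTG
import Pool.Agent.SH.LTH
import Pool.Agent.SH.LTI
import Pool.Agent.SH.LTJ
import Pool.Agent.SH.LTK
import Pool.Agent.SH.LTL
import Pool.Agent.SH.LTM
import Pool.Agent.SH.LTQ
import Pool.Agent.SH.LTN
import Pool.Agent.SH.LTO
import Pool.Agent.SH.LTP
import Pool.Agent.SH.LTR
import Pool.Agent.SH.LTX
import Pool.Agent.SH.LTY
import Pool.Agent.SH.LTZ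
import Pool.Agent.SH.ANE

/-!
# MP_2d0b73_an: PART II, assembly (helper38)
-/

namespace Pool.Agent.SH

/-- The geometric half of PART II. -/
theorem partII_geo : Stmt_PARTII :=
  PARTII (GXM (GTW (GNX (GRF GSD (GCO GLI) GME) (GST GSD) (GCO GLI))) GLC GLE GLD) GWE

theorem ltH : Stmt_LTH := LTH LTE LTF LTG (LTY LTX) (LTZ LTX)
theorem ltC : Stmt_LTC := LTC LTB
theorem ltI : Stmt_LTI := LTI LTA ltC ltH
theorem ltJ : Stmt_LTJ := LTJ ltC LTD ltI
theorem ltK : Stmt_LTK := LTK LTA ltJ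
theorem ltN : Stmt_LTN := LTN LTA ltH
theorem ltO : Stmt_LTO := LTO LTA ltH ltI (LTY LTX) (LTZ LTX)
theorem ltP : Stmt_LTP := LTP LTR
theorem ltM : Stmt_LTM := LTM ltK (LTY LTX) (LTZ LTX)
theorem ltQ : Stmt_LTQ := LTQ LTG LTL

/-- The bridge from the target `T` to the essentiality predicate. -/
theorem partII_bridge : Stmt_BRIDGE := BRIDGE LTG LTL ltM ltN ltO ltP ltQ

/-- PART II: the infinite dimensional compactum with the extension property, from PART III. -/
theorem partII (h : Stmt_PARTIII) : Stmt_CPT := CPT partII_geo partII_bridge h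

end Pool.Agent.SH
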