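import Pool.Agent.SH.StmtsR

/-!
# MP_2d0b73_an: BAD, few bad vertices
-/

set_option autoImplicit false

open Set Topology Filter

namespace Pool.Agent.SH

namespace BAD

theorem sum_le_of_sqrt {d : ℕ} {δ : ℝ} (hδ : 0 < δ) (f : Fin d → ℝ)
    (h : Real.sqrt (1 / (d : ℝ) * ∑ v, f v ^ 2) ≤ δ) : ∑ v, f v ≤ d * δ := by
  rcases Nat.eq_zero_or_pos d with rfl | hd
  · simp
  have hd' : (0 : ℝ) < d := by exact_mod_cast hd
  have h1 : 1 / (d : ℝ) * ∑ v, f v ^ 2 ≤ δ ^ 2 := (Real.sqrt_le_left hδ.le).1 h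
  have h2 : ∑ v, f v ^ 2 ≤ d * δ ^ 2 := by
    have := mul_le_mul_of_nonneg_left h1 hd'.le
    calc ∑ v, f v ^ 2 = d * (1 / (d : ℝ) * ∑ v, f v ^ 2) := by field_simp
      _ ≤ d * δ ^ 2 := this
  have h3 : (∑ v, f v) ^ 2 ≤ d * ∑ v, f v ^ 2 := by
    have := sq_sum_le_card_mul_sum_sq (s := (Finset.univ : Finset (Fin d))) (f := f)
    simpa using this
  have h4 : (∑ v, f v) ^ 2 ≤ (d * δ) ^ 2 := by
    calc (∑ v, f v) ^ 2 ≤ d * ∑ v, f v ^ 2 := h3
      _ ≤ d * (d * δ ^ 2) := mul_le_mul_of_nonneg_left h2 hd'.le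
      _ = (d * δ) ^ 2 := by ring
  exact le_trans (le_abs_self _) (abs_le_of_sq_le_sq h4 (by positivity))

end BAD

theorem BAD : Stmt_BAD := by
  classical
  intro X G _ _ ρ F δ τ d σ hρ hδ hτ φ hφ
  set b : Fin d → ℝ := fun v => ∑ s ∈ F, ρ (φ (σ s v)) (s • φ v) with hb
  have hb0 (v : Fin d) : 0 ≤ b v := Finset.sum_nonneg fun s _ => hρ _ _
  have h1 : ∑ v, b v ≤ F.card * (d * δ) := by
    rw [hb, Finset.sum_comm]
    calc ∑ s ∈ F, ∑ v, ρ (φ (σ s v)) (s • φ v) ≤ ∑ s ∈ F, (d * δ : ℝ) :=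
          Finset.sum_le_sum fun s hs => BAD.sum_le_of_sqrt hδ _ (hφ s hs)
      _ = F.card * (d * δ) := by rw [Finset.sum_const, nsmul_eq_mul]
  have h2 : ({v | τ < b v}.ncard : ℝ) * τ ≤ ∑ v, b v := by
    have e : {v | τ < b v}.ncard = (Finset.univ.filter fun v => τ < b v).card := by
      rw [Set.ncard_eq_toFinset_card']
      congr 1
      ext v
      simp
    rw [e]
    calc ((Finset.univ.filter fun v => τ < b v).card : ℝ) * τ
        = ∑ v ∈ Finset.univ.filter (fun v => τ < b v), τ := by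
          rw [Finset.sum_const, nsmul_eq_mul]
      _ ≤ ∑ v ∈ Finset.univ.filter (fun v => τ < b v), b v :=
          Finset.sum_le_sum fun v hv => (Finset.mem_filter.1 hv).2.le
      _ ≤ ∑ v, b v := Finset.sum_le_sum_of_subset_of_nonneg (Finset.filter_subset _ _)
          fun v _ _ => hb0 v
  have h3 : ({v | τ < b v}.ncard : ℝ) * τ ≤ F.card * (d * δ) := h2.trans h1
  calc ({v | τ < b v}.ncard : ℝ) ≤ F.card * (d * δ) / τ := by
        rw [le_div_iff₀ hτ]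
        exact h3
    _ = F.card * δ / τ * d := by ring

end Pool.Agent.SH
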