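import Pool.Agent.SH.Top

/-!
# Extension over thin slabs
-/

set_option autoImplicit false

open Set Topology

namespace Pool.Agent.SH

theorem BOX (hF : Stmt_FAC) (hC : Stmt_CLS) (hH : Stmt_HEP) : Stmt_BOX := by
  classical
  intro Z _ _ _ P _ hExt A Q κ hA hκ hκQ
  letI := TopologicalSpace.metrizableSpaceMetric Z
  obtain ⟨ε₁, hε₁, hcls⟩ := hC P Q
  obtain ⟨η₁, hη₁, hfac⟩ := hF P Q ε₁ hε₁
  have hcont : ContinuousOn (fun (z : Z × Iv) (a : Q) => κ z a) A := by
    rw [continuousOn_pi]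
    intro a
    exact (continuous_apply (a : P)).comp_continuousOn hκ
  have huc := hA.isCompact.uniformContinuousOn_of_continuous hcont
  rw [Metric.uniformContinuousOn_iff] at huc
  obtain ⟨η, hη, huc⟩ := huc η₁ hη₁
  refine ⟨η / 2, by positivity, ?_⟩
  intro a b hab
  set S : Set (Z × Iv) := {z | a ≤ (z.2 : ℝ) ∧ (z.2 : ℝ) ≤ b} with hS
  have hv : Continuous fun z : Z × Iv => (z.2 : ℝ) := continuous_subtype_val.comp continuous_snd
  have hSc : IsClosed S := (isClosed_le continuous_const hv).inter (isClosed_le hv continuous_const)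
  have hASc : IsClosed (A ∩ S) := hA.inter hSc
  set B : Set Z := Prod.fst '' (A ∩ S) with hB
  have hBc : IsClosed B := (hASc.isCompact.image continuous_fst).isClosed
  haveI : CompactSpace (A ∩ S : Set (Z × Iv)) := isCompact_iff_compactSpace.1 hASc.isCompact
  haveI : CompactSpace B := isCompact_iff_compactSpace.1 hBc.isCompact
  haveI : CompactSpace S := isCompact_iff_compactSpace.1 hSc.isCompact
  obtain ⟨f', hf'c, hf'Q, hf'⟩ := hfac (A ∩ S : Set (Z × Iv)) B
    (fun z => ⟨z.1.1, z.1, z.2, rfl⟩) (fun z => κ z.1)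
    (Continuous.subtype_mk (continuous_fst.comp continuous_subtype_val) _)
    (by
      rintro ⟨_, z, hz, rfl⟩
      exact ⟨⟨z, hz⟩, rfl⟩)
    (by
      have := continuousOn_iff_continuous_domRestrict.1 (hκ.mono (inter_subset_left : A ∩ S ⊆ A))
      exact this)
    (fun z => hκQ _ z.2.1)
    (by
      rintro ⟨z, hz⟩ ⟨z', hz'⟩ heq c hc
      have h1 : z.1 = z'.1 := congrArg Subtype.val heq
      have h2 : dist z z' < η := by
        rw [Prod.dist_eq, h1, dist_self, max_eq_right dist_nonneg, Subtype.dist_eq,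
          Real.dist_eq, abs_lt]
        have e1 := hz.2.1
        have e2 := hz.2.2
        have e3 := hz'.2.1
        have e4 := hz'.2.2
        constructor <;> linarith
      have h3 := huc z hz.1 z' hz'.1 h2
      have h4 := dist_le_pi_dist (fun a : Q => κ z a) (fun a : Q => κ z' a) ⟨c, hc⟩
      rw [Real.dist_eq] at h4
      exact lt_of_le_of_lt h4 h3)
  obtain ⟨f'', hf''c, hf''⟩ := exists_of_subtype hf'c
  obtain ⟨Q', G, hQQ', hGc, hGQ', hG⟩ := hExt B Q f'' hBc hf''c (by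
    intro z hz
    rw [hf'' z hz]
    exact hf'Q _)
  -- the homotopy on the slab
  have hASS : IsClosed {s : S | s.1 ∈ A} := hA.preimage continuous_subtype_val
  have hGA : ∀ s : S, s.1 ∈ A → ∃ h : s.1.1 ∈ B, G s.1.1 = f' ⟨s.1.1, h⟩ := by
    intro s hs
    have h1 : s.1.1 ∈ B := ⟨s.1, ⟨hs, s.2⟩, rfl⟩
    exact ⟨h1, (hG _ h1).trans (hf'' _ h1)⟩
  obtain ⟨H, hHc, hHQ, hH01⟩ := hcls S {s : S | s.1 ∈ A} (fun s => κ s.1) (fun s => G s.1.1)
    (by
      refine hκ.comp continuous_subtype_val.continuousOn ?_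
      intro s hs
      exact hs)
    ((hGc.comp (continuous_fst.comp continuous_subtype_val)).continuousOn)
    (fun s hs => hκQ _ hs)
    (by
      intro s hs
      obtain ⟨h, e⟩ := hGA s hs
      rw [e]
      exact hf'Q _)
    (by
      intro s hs c hc
      obtain ⟨h, e⟩ := hGA s hs
      show |κ s.1 c - G s.1.1 c| < ε₁
      rw [e]
      exact hf' ⟨s.1, hs, s.2⟩ c hc)
  obtain ⟨g', hg'c, hg'Q, hg'⟩ := hH S P Q' {s : S | s.1 ∈ A} H (fun s => G s.1.1) hASS hHc
    (fun s hs => Rz_mono hQQ' (hHQ s hs)) (hGc.comp (continuous_fst.comp continuous_subtype_val))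
    (fun s => hGQ' _) (fun s hs => (hH01 s hs).2.symm)
  obtain ⟨g, hgc, hg⟩ := exists_of_subtype hg'c
  refine ⟨Q', g, hQQ', hgc, ?_, ?_⟩
  · intro z h1 h2
    rw [hg z ⟨h1, h2⟩]
    exact hg'Q _
  · intro z hz h1 h2
    rw [hg z ⟨h1, h2⟩, hg' ⟨z, h1, h2⟩ hz]
    exact (hH01 ⟨z, h1, h2⟩ hz).1

end Pool.Agent.SH
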