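import Mathlib

/-!
# MP_2d0b73_an: definitions for parts I and II (compacta, mean dimension)

All polyhedra are realizations of posets: a point of the realization of a finite poset `Q` is a
function `p ≥ 0` on the ambient poset with sum `1` whose support is a chain contained in `Q`.
Cubes are the closed unit balls of `Fin n → ℝ` (sup norm), `Iv = [-1, 1]`.
-/

set_option autoImplicit false

open Set Topology

namespace Pool.Agent.SH

/-- The interval `[-1, 1]`. -/
abbrev Iv : Type := Set.Icc (-1 : ℝ) 1

/-! ### Posets -/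

/-- The points of the geometric realization of the finite subposet `Q` of `P`. -/
def Rz {P : Type} [PartialOrder P] (Q : Finset P) : Set (P → ℝ) :=
  {p | (∀ a, 0 ≤ p a) ∧ (∀ a, a ∉ Q → p a = 0) ∧ ∑ a ∈ Q, p a = 1 ∧
    ∀ a b, p a ≠ 0 → p b ≠ 0 → a ≤ b ∨ b ≤ a}

/-- The `k`-fold suspension of a poset: `k` levels of two incomparable elements on top. -/
inductive SusK (P : Type) (k : ℕ) : Type
  | base : P → SusK P k
  | pole : Fin k → Bool → SusK P k

namespace SusK

variable {P : Type} {k : ℕ}

/-- The order of the suspension. -/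
def le' [LE P] : SusK P k → SusK P k → Prop
  | base a, base b => a ≤ b
  | base _, pole _ _ => True
  | pole _ _, base _ => False
  | pole i e, pole j e' => i < j ∨ (i = j ∧ e = e')

instance [PartialOrder P] : PartialOrder (SusK P k) where
  le := le'
  le_refl x := by
    cases x with
    | base a => exact le_refl a
    | pole i e => exact Or.inr ⟨rfl, rfl⟩
  le_trans x y z hxy hyz := by
    cases x with
    | base a =>
      cases z with
      | base c =>
        cases y with
        | base b => exact le_trans (show a ≤ b from hxy) hyz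
        | pole j e => exact absurd hyz (fun h => h)
      | pole l e => trivial
    | pole i e =>
      cases y with
      | base b => exact absurd hxy (fun h => h)
      | pole j e' =>
        cases z with
        | base c => exact absurd hyz (fun h => h)
        | pole l e'' =>
          rcases hxy with h | ⟨rfl, rfl⟩
          · rcases hyz with h' | ⟨rfl, rfl⟩
            · exact Or.inl (lt_trans h h')
            · exact Or.inl h
          · exact hyz
  le_antisymm x y hxy hyx := by
    cases x with
    | base a =>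
      cases y with
      | base b => exact congrArg base (le_antisymm (show a ≤ b from hxy) hyx)
      | pole j e => exact absurd hyx (fun h => h)
    | pole i e =>
      cases y with
      | base b => exact absurd hxy (fun h => h)
      | pole j e' =>
        rcases hxy with h | ⟨rfl, rfl⟩
        · rcases hyx with h' | ⟨rfl, rfl⟩
          · exact absurd (lt_trans h h') (lt_irrefl _)
          · exact absurd h (lt_irrefl _)
        · rfl

@[simp] theorem base_le_base [PartialOrder P] (a b : P) :
    (base a : SusK P k) ≤ base b ↔ a ≤ b := Iff.rfl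

@[simp] theorem base_le_pole [PartialOrder P] (a : P) (i : Fin k) (e : Bool) :
    (base a : SusK P k) ≤ pole i e := trivial

@[simp] theorem pole_le_base [PartialOrder P] (a : P) (i : Fin k) (e : Bool) :
    (pole i e : SusK P k) ≤ base a ↔ False := Iff.rfl

@[simp] theorem pole_le_pole [PartialOrder P] (i j : Fin k) (e e' : Bool) :
    (pole i e : SusK P k) ≤ pole j e' ↔ i < j ∨ (i = j ∧ e = e') := Iff.rfl

end SusK

/-- The sphere of dimension `n` as a poset: `n + 1` levels of two incomparable elements. -/
structure Sph (n : ℕ) : Type where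
  /-- the level -/
  lev : Fin (n + 1)
  /-- which of the two elements -/
  sgn : Bool
deriving DecidableEq, Fintype

namespace Sph

variable {n : ℕ}

instance : PartialOrder (Sph n) where
  le x y := x.lev < y.lev ∨ x = y
  le_refl x := Or.inr rfl
  le_trans x y z hxy hyz := by
    rcases hxy with h | rfl
    · rcases hyz with h' | rfl
      · exact Or.inl (lt_trans h h')
      · exact Or.inl h
    · exact hyz
  le_antisymm x y hxy hyx := by
    rcases hxy with h | h
    · rcases hyx with h' | h'
      · exact absurd (lt_trans h h') (lt_irrefl _)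
      · exact h'.symm
    · exact h

theorem le_iff (x y : Sph n) : x ≤ y ↔ x.lev < y.lev ∨ x = y := Iff.rfl

/-- The base point: a minimal element. -/
instance : Zero (Sph n) := ⟨⟨0, false⟩⟩

theorem zero_def : (0 : Sph n) = ⟨0, false⟩ := rfl

/-- The base point is minimal. -/
theorem eq_zero_of_le {x : Sph n} (h : x ≤ 0) : x = 0 := by
  rcases h with h | h
  · exact absurd h (Nat.not_lt_zero _)
  · exact h

end Sph

/-! ### Labelled configurations -/

/-- The restriction of a track to a set of times. -/
noncomputable def res (J : Finset ℕ) (a : ℕ →₀ ℕ) : ℕ →₀ ℕ := a.filter (· ∈ J)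

theorem res_apply_mem {J : Finset ℕ} {a : ℕ →₀ ℕ} {j : ℕ} (h : j ∈ J) : res J a j = a j :=
  Finsupp.filter_apply_pos _ _ h

theorem res_apply_notMem {J : Finset ℕ} {a : ℕ →₀ ℕ} {j : ℕ} (h : j ∉ J) : res J a j = 0 :=
  Finsupp.filter_apply_neg _ _ h

theorem support_res (J : Finset ℕ) (a : ℕ →₀ ℕ) : (res J a).support ⊆ J := by
  intro j hj
  by_contra h
  rw [Finsupp.mem_support_iff] at hj
  exact hj (res_apply_notMem h)

theorem res_eq_self {J : Finset ℕ} {a : ℕ →₀ ℕ} (h : a.support ⊆ J) : res J a = a := by
  ext j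
  by_cases hj : j ∈ J
  · exact res_apply_mem hj
  · rw [res_apply_notMem hj]
    by_contra hne
    exact hj (h (Finsupp.mem_support_iff.2 (Ne.symm hne)))

theorem res_res {J J' : Finset ℕ} (h : J' ⊆ J) (a : ℕ →₀ ℕ) : res J' (res J a) = res J' a := by
  ext j
  by_cases hj : j ∈ J'
  · rw [res_apply_mem hj, res_apply_mem hj, res_apply_mem (h hj)]
  · rw [res_apply_notMem hj, res_apply_notMem hj]

/-- Finite configurations of particles with labels in the pointed poset `S`: a nonempty finite set
`J` of times, and finitely many tracks `a : ℕ →₀ ℕ` (the position at each time of `J`), with labels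
`C a ≠ 0`; different tracks have different positions at every time. -/
structure LL (S : Type) [PartialOrder S] [Zero S] : Type where
  /-- the times -/
  J : Finset ℕ
  /-- the labels of the tracks (`0` if the track is not present) -/
  C : (ℕ →₀ ℕ) →₀ S
  ne : J.Nonempty
  sub : ∀ a ∈ C.support, a.support ⊆ J
  inj : ∀ a ∈ C.support, ∀ b ∈ C.support, a ≠ b → ∀ j ∈ J, a j ≠ b j

namespace LL

variable {S : Type} [PartialOrder S] [Zero S]

theorem ext' {x y : LL S} (hJ : x.J = y.J) (hC : x.C = y.C) : x = y := by
  cases x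
  cases y
  cases hJ
  cases hC
  rfl

/-- The face relation: restrict the times, take faces of the labels, drop the particles whose new
label is the base point `0`. -/
def le' (x y : LL S) : Prop :=
  x.J ⊆ y.J ∧ (∀ a ∈ y.C.support, x.C (res x.J a) ≤ y.C a) ∧
    ∀ b ∈ x.C.support, ∃ a ∈ y.C.support, res x.J a = b

theorem le'_trans {x y z : LL S} (hxy : le' x y) (hyz : le' y z) : le' x z := by
  obtain ⟨h1, h2, h3⟩ := hxy
  obtain ⟨h4, h5, h6⟩ := hyz
  refine ⟨h1.trans h4, ?_, ?_⟩
  · intro a ha
    have e : res x.J (res y.J a) = res x.J a := res_res h1 a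
    by_cases hy : res y.J a ∈ y.C.support
    · have := h2 _ hy
      rw [e] at this
      exact this.trans (h5 a ha)
    · have hx : x.C (res x.J a) = 0 := by
        by_contra hne
        obtain ⟨b, hb, hb'⟩ := h3 _ (Finsupp.mem_support_iff.2 hne)
        obtain ⟨a', ha', rfl⟩ := h6 b hb
        rw [res_res h1] at hb'
        obtain ⟨j, hj⟩ := x.ne
        have h7 : a' j = a j := by
          have := DFunLike.congr_fun hb' j
          rwa [res_apply_mem hj, res_apply_mem hj] at this
        have h8 : a' = a := by
          by_contra hne'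
          exact z.inj a' ha' a ha hne' j (h4 (h1 hj)) h7
        exact hy (h8 ▸ hb)
      have h9 := h5 a ha
      rw [Finsupp.notMem_support_iff.1 hy] at h9
      rw [hx]
      exact h9
  · intro b hb
    obtain ⟨a, ha, hab⟩ := h3 b hb
    obtain ⟨a', ha', rfl⟩ := h6 a ha
    exact ⟨a', ha', by rw [← hab, res_res h1]⟩

instance : PartialOrder (LL S) where
  le := le'
  le_refl x := by
    refine ⟨Finset.Subset.refl _, ?_, ?_⟩
    · intro a ha
      rw [res_eq_self (x.sub a ha)]
    · intro b hb
      exact ⟨b, hb, res_eq_self (x.sub b hb)⟩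
  le_trans x y z hxy hyz := le'_trans hxy hyz
  le_antisymm x y hxy hyx := by
    obtain ⟨h1, h2, h3⟩ := hxy
    obtain ⟨h4, h5, h6⟩ := hyx
    have hJ : x.J = y.J := Finset.Subset.antisymm h1 h4
    refine ext' hJ ?_
    have key : ∀ a, a ∈ y.C.support → x.C a = y.C a := by
      intro a ha
      have e1 := h2 a ha
      rw [res_eq_self (hJ ▸ y.sub a ha)] at e1
      obtain ⟨b, hb, hb'⟩ := h6 a ha
      have hb2 : b = a := by rw [← hb', res_eq_self (hJ ▸ x.sub b hb)]
      subst hb2
      have e2 := h5 b hb
      rw [res_eq_self (hJ ▸ x.sub b hb)] at e2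
      exact le_antisymm e1 e2
    have key2 : ∀ a, a ∈ x.C.support → a ∈ y.C.support := by
      intro a ha
      obtain ⟨b, hb, hb'⟩ := h3 a ha
      have hb2 : b = a := by rw [← hb', res_eq_self (hJ ▸ y.sub b hb)]
      exact hb2 ▸ hb
    ext a
    by_cases ha : a ∈ y.C.support
    · exact key a ha
    · rw [Finsupp.notMem_support_iff.1 ha]
      by_contra hne
      exact ha (key2 a (Finsupp.mem_support_iff.2 hne))

theorem le_iff (x y : LL S) : x ≤ y ↔ x.J ⊆ y.J ∧
    (∀ a ∈ y.C.support, x.C (res x.J a) ≤ y.C a) ∧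
    ∀ b ∈ x.C.support, ∃ a ∈ y.C.support, res x.J a = b := Iff.rfl

/-- One particle with label `s` at time `0` and position `0`, or no particle if `s = 0`. -/
noncomputable def one (s : S) : LL S where
  J := {0}
  C := Finsupp.single 0 s
  ne := ⟨0, Finset.mem_singleton_self 0⟩
  sub := by
    intro a ha
    have : a = 0 := by
      have := Finsupp.support_single_subset ha
      simpa using this
    subst this
    simp
  inj := by
    intro a ha b hb hab
    exfalso
    have h1 : a = 0 := by simpa using Finsupp.support_single_subset ha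
    have h2 : b = 0 := by simpa using Finsupp.support_single_subset hb
    exact hab (h1.trans h2.symm)

end LL

/-! ### Extension property -/

/-- `Z τ P`: every continuous map from a closed subset of `Z` to the realization of a finite part of
`P` extends to a continuous map from `Z` to the realization of a larger finite part of `P`. -/
def Ext (Z P : Type) [TopologicalSpace Z] [PartialOrder P] : Prop :=
  ∀ (A : Set Z) (Q : Finset P) (f : Z → P → ℝ), IsClosed A → ContinuousOn f A →
    (∀ z ∈ A, f z ∈ Rz Q) → ∃ (Q' : Finset P) (g : Z → P → ℝ), Q ⊆ Q' ∧ Continuous g ∧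
      (∀ z, g z ∈ Rz Q') ∧ ∀ z ∈ A, g z = f z

/-! ### Stable inessentiality, skeleta, covers -/

/-- The stable cohomological bound used for mean dimension: every map from a closed subset `Y` of
`[-1,1]^k × X` to a cube of dimension `N ≥ k + c + 1` is stably inessential: its product with the
cube of dimension `R` is homotopic, relative to the preimage of the boundary, to a map to the
boundary, for all large `R`. -/
def StInes (X : Type) [TopologicalSpace X] (c : ℕ) : Prop :=
  ∀ (k N : ℕ) (Y : Set ((Fin k → Iv) × X)) (v : (Fin k → Iv) × X → Fin N → ℝ), k + c + 1 ≤ N →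
    IsClosed Y → ContinuousOn v Y → (∀ y ∈ Y, ‖v y‖ ≤ 1) → ∃ R₀ : ℕ, ∀ R, R₀ ≤ R →
    ∃ w : ((Fin k → Iv) × X) × (Fin R → Iv) → (Fin N → ℝ) × (Fin R → ℝ),
      ContinuousOn w (Y ×ˢ univ) ∧ (∀ z ∈ Y ×ˢ univ, ‖w z‖ = 1) ∧
      ∀ y ∈ Y, ∀ r : Fin R → Iv, ‖((v y, fun i => (r i : ℝ)) : (Fin N → ℝ) × (Fin R → ℝ))‖ = 1 →
        w (y, r) = (v y, fun i => (r i : ℝ))

/-- Stable compression to the skeleton of dimension `k + c` of the cube, preserving the faces of the
cube. -/
def StSkel (X : Type) [TopologicalSpace X] (c : ℕ) : Prop :=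
  ∀ (m : ℕ) (φ : X → Fin m → ℝ), Continuous φ → (∀ x v, |φ x v| ≤ 1) → ∃ k₀ : ℕ, ∀ k, k₀ ≤ k →
    ∃ Φ : (Fin k → Iv) × X → (Fin k ⊕ Fin m) → ℝ, Continuous Φ ∧ (∀ z j, |Φ z j| ≤ 1) ∧
      (∀ (q : Fin k → Iv) (x : X) (j : Fin k), |(q j : ℝ)| = 1 → Φ (q, x) (Sum.inl j) = q j) ∧
      (∀ (q : Fin k → Iv) (x : X) (v : Fin m), |φ x v| = 1 → Φ (q, x) (Sum.inr v) = φ x v) ∧
      ∀ z, {j | |Φ z j| < 1}.ncard ≤ k + c

/-- Linear growth, with slope `c`, of the orders of the covers `U^n` of `X^n`. -/
def DBound (X : Type) [TopologicalSpace X] (c : ℕ) : Prop :=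
  ∀ (ι : Type) [Finite ι] (U : ι → Set X), (∀ i, IsOpen (U i)) → (∀ x, ∃ i, x ∈ U i) →
    ∃ K : ℕ, ∀ n : ℕ, ∃ (κ : Type) (_ : Finite κ) (W : κ → Set (Fin n → X)),
      (∀ a, IsOpen (W a)) ∧ (∀ x, ∃ a, x ∈ W a) ∧
      (∀ a, ∃ i : Fin n → ι, ∀ x ∈ W a, ∀ j, x j ∈ U (i j)) ∧
      ∀ x, {a | x ∈ W a}.ncard ≤ K + c * n

/-- Covering dimension at most `n` (for finite open covers). -/
def DimLE (X : Type) [TopologicalSpace X] (n : ℕ) : Prop :=
  ∀ (ι : Type) [Finite ι] (U : ι → Set X), (∀ i, IsOpen (U i)) → (∀ x, ∃ i, x ∈ U i) →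
    ∃ (κ : Type) (_ : Finite κ) (W : κ → Set X), (∀ a, IsOpen (W a)) ∧ (∀ x, ∃ a, x ∈ W a) ∧
      (∀ a, ∃ i, W a ⊆ U i) ∧ ∀ x, {a | x ∈ W a}.ncard ≤ n + 1

/-! ### Subdivision, spheres -/

/-- The barycentric subdivision of a poset: nonempty finite chains. -/
structure Sd (P : Type) [PartialOrder P] : Type where
  /-- the chain -/
  c : Finset P
  ne : c.Nonempty
  chain : ∀ a ∈ c, ∀ b ∈ c, a ≤ b ∨ b ≤ a

instance (P : Type) [PartialOrder P] : PartialOrder (Sd P) where
  le x y := x.c ⊆ y.c
  le_refl x := Finset.Subset.refl _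
  le_trans x y z h h' := Finset.Subset.trans h h'
  le_antisymm x y h h' := by
    have := Finset.Subset.antisymm h h'
    cases x
    cases y
    simp_all

/-- `m` is the greatest element of the finite set `c`. -/
def IsMax' {P : Type} [PartialOrder P] (c : Finset P) (m : P) : Prop := m ∈ c ∧ ∀ a ∈ c, a ≤ m

/-- The greatest element of a chain. -/
noncomputable def Sd.top {P : Type} [PartialOrder P] (x : Sd P) : P :=
  Classical.epsilon (h := ⟨x.ne.choose⟩) (IsMax' x.c)

/-- The faces of the boundary of the simplex of dimension `M + 1`: a sphere of dimension `M`. -/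
structure P0 (M : ℕ) : Type where
  /-- the face -/
  s : Finset (Fin (M + 2))
  ne : s.Nonempty
  ne_univ : s ≠ Finset.univ
deriving DecidableEq

instance (M : ℕ) : PartialOrder (P0 M) where
  le x y := x.s ⊆ y.s
  le_refl x := Finset.Subset.refl _
  le_trans x y z h h' := Finset.Subset.trans h h'
  le_antisymm x y h h' := by
    have := Finset.Subset.antisymm h h'
    cases x
    cases y
    simp_all

end Pool.Agent.SH
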