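import Pool.Agent.SH.DefsT
import Pool.Agent.SH.DefsI

/-!
# MP_2d0b73_an, PART II: definitions, combinatorial and geometric part (helper38)
-/

noncomputable section

namespace Pool.Agent.SH

/-! ## Posets -/

theorem Sd.ext' {P : Type} [PartialOrder P] {x y : Sd P} (h : x.c = y.c) : x = y := by
  cases x
  cases y
  cases h
  rfl

theorem Sd.le_def {P : Type} [PartialOrder P] (x y : Sd P) : x ≤ y ↔ x.c ⊆ y.c := Iff.rfl

instance (P : Type) [PartialOrder P] [Finite P] : Finite (Sd P) := by
  classical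
  have : Finite (Finset P) := inferInstance
  exact Finite.of_injective (fun x : Sd P => x.c) (fun x y h => Sd.ext' h)

instance (P : Type) [PartialOrder P] [Fintype P] : Fintype (Sd P) := Fintype.ofFinite _

theorem Sd.exists_max {P : Type} [PartialOrder P] (s : Sd P) : ∃ m, IsMax' s.c m := by
  classical
  obtain ⟨m, hm, hmax⟩ := s.c.exists_maximal s.ne
  refine ⟨m, hm, fun x hx => ?_⟩
  rcases s.chain x hx m hm with h | h
  · exact h
  · exact hmax hx h

theorem Sd.top_spec {P : Type} [PartialOrder P] (s : Sd P) : IsMax' s.c s.top :=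
  Classical.epsilon_spec s.exists_max

theorem Sd.top_mem {P : Type} [PartialOrder P] (s : Sd P) : s.top ∈ s.c := s.top_spec.1

theorem Sd.le_top {P : Type} [PartialOrder P] (s : Sd P) {x : P} (hx : x ∈ s.c) : x ≤ s.top :=
  s.top_spec.2 x hx

/-- the last vertex map, order preserving. -/
def topHom (P : Type) [PartialOrder P] : Sd P →o P where
  toFun := Sd.top
  monotone' s t hst := t.le_top (hst s.top_mem)

theorem P0.ext' {M : ℕ} {x y : P0 M} (h : x.s = y.s) : x = y := by
  cases x
  cases y
  cases h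
  rfl

instance (M : ℕ) : Finite (P0 M) :=
  Finite.of_injective (fun x : P0 M => x.s) (fun _ _ h => P0.ext' h)

instance (M : ℕ) : Fintype (P0 M) := Fintype.ofFinite _

/-- The step: solutions of the extension problem `f : D → L`. -/
def StepP {P L : Type} [PartialOrder P] [PartialOrder L] (D : Set P) (f : P → L) : Type :=
  {x : P × L // x.1 ∈ D → x.2 = f x.1}

instance {P L : Type} [PartialOrder P] [PartialOrder L] (D : Set P) (f : P → L) :
    PartialOrder (StepP D f) :=
  inferInstanceAs (PartialOrder {x : P × L // x.1 ∈ D → x.2 = f x.1})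

/-- the projection of the step. -/
def StepP.pr {P L : Type} [PartialOrder P] [PartialOrder L] (D : Set P) (f : P → L) :
    StepP D f →o P where
  toFun x := x.1.1
  monotone' _ _ h := h.1

/-- the finite parts of the step: labels in `Λ`. -/
def StepF {P L : Type} [PartialOrder P] [PartialOrder L] (D : Set P) (f : P → L)
    (Λ : Finset L) : Type :=
  {x : P × L // x.2 ∈ Λ ∧ (x.1 ∈ D → x.2 = f x.1)}

instance {P L : Type} [PartialOrder P] [PartialOrder L] (D : Set P) (f : P → L) (Λ : Finset L) :
    PartialOrder (StepF D f Λ) :=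
  inferInstanceAs (PartialOrder {x : P × L // x.2 ∈ Λ ∧ (x.1 ∈ D → x.2 = f x.1)})

instance {P L : Type} [PartialOrder P] [PartialOrder L] [Finite P] (D : Set P) (f : P → L)
    (Λ : Finset L) : Finite (StepF D f Λ) := by
  have : Function.Injective (fun x : StepF D f Λ => ((x.1.1, ⟨x.1.2, x.2.1⟩) : P × Λ)) := by
    rintro ⟨⟨a, b⟩, h⟩ ⟨⟨a', b'⟩, h'⟩ hh
    simp only [Prod.mk.injEq, Subtype.mk.injEq] at hh
    apply Subtype.ext
    exact Prod.ext hh.1 hh.2
  exact Finite.of_injective _ this

/-- the projection of the finite step. -/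
def StepF.pr {P L : Type} [PartialOrder P] [PartialOrder L] (D : Set P) (f : P → L)
    (Λ : Finset L) : StepF D f Λ →o P where
  toFun x := x.1.1
  monotone' _ _ h := h.1

/-- the label of the finite step. -/
def StepF.lab {P L : Type} [PartialOrder P] [PartialOrder L] (D : Set P) (f : P → L)
    (Λ : Finset L) : StepF D f Λ →o L where
  toFun x := x.1.2
  monotone' _ _ h := h.2

/-! ## The essentiality predicate -/

/-- What the geometric half of PART II uses of the target `T`: a predicate on pairs (poset `P`,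
order preserving `g : P → P0 M`). `L` is the poset of labelled configurations. -/
structure EssAx (M : ℕ) (L : Type) [PartialOrder L] where
  Ess : ∀ (P : Type) [PartialOrder P], (P →o P0 M) → Prop
  base : Ess (P0 M) OrderHom.id
  comparable : ∀ (P : Type) [PartialOrder P] [Finite P] (g g' : P →o P0 M),
    (g ≤ g' ∨ g' ≤ g) → Ess P g → Ess P g'
  sd : ∀ (P : Type) [PartialOrder P] [Finite P] (g : P →o P0 M),
    Ess P g → Ess (Sd P) (g.comp (topHom P))
  facet : ∀ (P : Type) [PartialOrder P] [Finite P] (g : P →o P0 M) (F : P0 M),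
    F.s.card = M + 1 → (∀ p, g p ≠ F) → ¬ Ess P g
  step : ∀ (P : Type) [PartialOrder P] [Finite P] (g : P →o P0 M) (D : Set P) (f : P → L)
    (Λ₀ : Finset L), IsLowerSet D → MonotoneOn f D → Ess P g →
    ∃ Λ : Finset L, Λ₀ ⊆ Λ ∧ Ess (StepF D f Λ) (g.comp (StepF.pr D f Λ))

/-! ## Realisations, stage maps, towers -/

/-- The realisation of a finite poset. -/
abbrev Pol (P : Type) [PartialOrder P] [Fintype P] : Set (P → ℝ) := Rz (Finset.univ : Finset P)

/-- Affine extension of a map from the vertices. -/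
def lin {P' P : Type} [Fintype P'] (geo : P' → P → ℝ) (w : P' → ℝ) : P → ℝ :=
  fun p => ∑ p', w p' * geo p' p

/-- Stage maps of the tower: `c p'` is the carrier of the image `geo p'` of the vertex `p'`. -/
structure SM (P' P : Type) [PartialOrder P'] [PartialOrder P] [Fintype P'] [Fintype P] where
  c : P' →o Sd P
  geo : P' → P → ℝ
  geo_nonneg : ∀ p' p, 0 ≤ geo p' p
  geo_sum : ∀ p', ∑ p, geo p' p = 1
  geo_supp : ∀ p' p, geo p' p ≠ 0 ↔ p ∈ (c p').c
  surj : ∀ w ∈ Pol P, ∃ w' ∈ Pol P', lin geo w' = w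

/-- the order preserving map `P' → P` of a stage map. -/
def SM.h {P' P : Type} [PartialOrder P'] [PartialOrder P] [Fintype P'] [Fintype P]
    (s : SM P' P) : P' →o P := (topHom P).comp s.c

/-- mesh of a stage map, `l¹` distance. -/
def SM.MeshLE {P' P : Type} [PartialOrder P'] [PartialOrder P] [Fintype P'] [Fintype P]
    (s : SM P' P) (ε : ℝ) : Prop :=
  ∀ p' q', p' ≤ q' → ∑ p, |s.geo p' p - s.geo q' p| ≤ ε

/-- Towers of finite posets and stage maps. -/
structure Tower where
  P : ℕ → Type
  po : ∀ k, PartialOrder (P k)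
  ft : ∀ k, Fintype (P k)
  sm : ∀ k, SM (P (k + 1)) (P k)

attribute [instance] Tower.po Tower.ft

/-- composite order preserving maps `P (k+d) → P k` of a tower. -/
def Tower.H (τ : Tower) (k d : ℕ) : τ.P (k + d) →o τ.P k :=
  Nat.rec (motive := fun d => τ.P (k + d) →o τ.P k) OrderHom.id
    (fun d ih => ih.comp (τ.sm (k + d)).h) d

theorem Tower.H_zero (τ : Tower) (k : ℕ) : τ.H k 0 = OrderHom.id := rfl

theorem Tower.H_succ (τ : Tower) (k d : ℕ) :
    τ.H k (d + 1) = (τ.H k d).comp (τ.sm (k + d)).h := rfl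

/-- The inverse limit of the realisations of a tower. -/
def Tower.Lim (τ : Tower) : Type :=
  {x : ∀ k, τ.P k → ℝ // ∀ k, x k ∈ Pol (τ.P k) ∧ lin (τ.sm k).geo (x (k + 1)) = x k}

instance (τ : Tower) : TopologicalSpace τ.Lim := inferInstanceAs (TopologicalSpace
  {x : ∀ k, τ.P k → ℝ // ∀ k, x k ∈ Pol (τ.P k) ∧ lin (τ.sm k).geo (x (k + 1)) = x k})

/-- meshes tend to `0`. -/
def Tower.Fine (τ : Tower) : Prop := ∀ k, (τ.sm k).MeshLE ((1 / 2 : ℝ) ^ k)

/-- every combinatorial extension problem is solved at a later stage. -/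
def Tower.Solves (τ : Tower) (L : Type) [PartialOrder L] : Prop :=
  ∀ (k : ℕ) (D : Set (τ.P k)) (f : τ.P k → L), IsLowerSet D → MonotoneOn f D →
    ∃ (d : ℕ) (F : τ.P (k + d) →o L), ∀ p, τ.H k d p ∈ D → F p = f (τ.H k d p)

end Pool.Agent.SH
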