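import Mathlib

/-!
# MP_2d0b73_an, Part III-N (null closure of the labelled configurations): definitions

Simplicial sets with group actions, their quotients, the simplicial sets `EE X` (all sequences), the
simplicial sets `FM A A₀ Y W Z` of finitely supported functions on the simplices of `X` (free
commutative monoids on pointed simplicial sets, and mixed coefficients), nerves of posets.
-/

set_option autoImplicit false

open CategoryTheory MonoidalCategory CartesianMonoidalCategory Simplicial Opposite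

namespace Pool.Agent.SH

/-! ### `F₂`-acyclic simplicial sets, Moore form -/

/-- the face `d_i` on `F₂`-chains -/
noncomputable def dF {X : SSet.{0}} {n : ℕ} (i : Fin (n + 2)) (z : X _⦋n + 1⦌ →₀ ZMod 2) :
    X _⦋n⦌ →₀ ZMod 2 := z.mapDomain (X.δ i)

/-- `X` is nonempty and `F₂`-acyclic: every Moore cycle is a Moore boundary -/
structure Ac2 (X : SSet.{0}) : Prop where
  ne : Nonempty (X _⦋0⦌)
  zero : ∀ z : X _⦋0⦌ →₀ ZMod 2, z.sum (fun _ a => a) = 0 →
    ∃ w : X _⦋1⦌ →₀ ZMod 2, dF 0 w = z ∧ dF 1 w = 0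
  succ : ∀ (n : ℕ) (z : X _⦋n + 1⦌ →₀ ZMod 2), (∀ i : Fin (n + 2), dF i z = 0) →
    ∃ w : X _⦋n + 2⦌ →₀ ZMod 2, dF 0 w = z ∧ ∀ i : Fin (n + 2), dF i.succ w = 0

/-! ### Group actions and quotients -/

/-- an action of the group `G` on the simplicial set `W` -/
structure Act (G : Type) [Group G] (W : SSet.{0}) where
  act : G → (W ⟶ W)
  one : act 1 = 𝟙 W
  mul : ∀ g h, act (g * h) = act h ≫ act g

namespace Act

variable {G : Type} [Group G] {W W' : SSet.{0}}

/-- the action on simplices -/
def ap (a : Act G W) (g : G) {n : SimplexCategoryᵒᵖ} (x : W.obj n) : W.obj n := (a.act g).app n x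

theorem ap_one (a : Act G W) {n : SimplexCategoryᵒᵖ} (x : W.obj n) : a.ap 1 x = x := by
  rw [ap, a.one]
  rfl

theorem ap_mul (a : Act G W) (g h : G) {n : SimplexCategoryᵒᵖ} (x : W.obj n) :
    a.ap (g * h) x = a.ap g (a.ap h x) := by
  rw [ap, a.mul]
  rfl

theorem ap_map (a : Act G W) (g : G) {n m : SimplexCategoryᵒᵖ} (θ : n ⟶ m) (x : W.obj n) :
    a.ap g (W.map θ x) = W.map θ (a.ap g x) := NatTrans.naturality_apply (a.act g) θ x

/-- free actions -/
def Free (a : Act G W) : Prop :=
  ∀ (n : SimplexCategoryᵒᵖ) (x : W.obj n) (g : G), a.ap g x = x → g = 1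

/-- the diagonal action on a product -/
def prod (a : Act G W) (b : Act G W') : Act G (W ⊗ W') where
  act g := a.act g ⊗ₘ b.act g
  one := by rw [a.one, b.one]; simp
  mul g h := by rw [a.mul, b.mul]; simp

/-- restriction to a subgroup -/
def restr (a : Act G W) (H : Subgroup G) : Act H W where
  act g := a.act g
  one := a.one
  mul g h := a.mul g h

end Act

/-- `q : W ⟶ V` is the quotient of `W` by the action of `G` -/
structure IsQuo {G : Type} [Group G] {W V : SSet.{0}} (a : Act G W) (q : W ⟶ V) : Prop where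
  surj : ∀ n, Function.Surjective (q.app n)
  fib : ∀ (n : SimplexCategoryᵒᵖ) (x y : W.obj n), q.app n x = q.app n y ↔ ∃ g, a.ap g x = y

/-- the simplicial set of all sequences in `X` -/
def EE (X : Type) : SSet.{0} where
  obj n := Fin (n.unop.len + 1) → X
  map f := TypeCat.ofHom (fun x i => x (f.unop.toOrderHom i))

/-- the action of `G` on `EE X` for a `G`-set `X` -/
def EEact (G X : Type) [Group G] [MulAction G X] : Act G (EE X) where
  act g := { app := fun n => TypeCat.ofHom (fun (x : Fin (n.unop.len + 1) → X) i => g • x i) }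
  one := by
    ext n x
    funext i
    exact one_smul G (x i)
  mul g h := by
    ext n x
    funext i
    exact mul_smul g h (x i)

/-! ### Nerves of posets -/

/-- the nerve of a poset: monotone sequences -/
def NO (P : Type) [PartialOrder P] : SSet.{0} where
  obj n := Fin (n.unop.len + 1) →o P
  map f := TypeCat.ofHom (fun x => x.comp f.unop.toOrderHom)

/-- the sequences in the nerve with all terms in `U` -/
def NOs {P : Type} [PartialOrder P] (U : Set P) : (NO P).Subcomplex where
  obj n := Set.ofPred (fun x : Fin (n.unop.len + 1) →o P => ∀ i, x i ∈ U)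
  map _ _ hx _ := hx _

/-- monotone maps induce maps of nerves -/
def NOmap {P Q : Type} [PartialOrder P] [PartialOrder Q] (f : P →o Q) : NO P ⟶ NO Q where
  app n := TypeCat.ofHom (fun x => f.comp x)

/-! ### Finitely supported functions on the simplices -/

theorem FM_supp {A : Type} [AddCommMonoid A] {X : SSet.{0}} {n m : SimplexCategoryᵒᵖ} (θ : n ⟶ m)
    (f : X.obj n →₀ A) (x : X.obj m) (h : f.mapDomain (X.map θ) x ≠ 0) :
    ∃ y, f y ≠ 0 ∧ X.map θ y = x := by
  classical
  by_contra hc
  push Not at hc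
  apply h
  rw [Finsupp.mapDomain, Finsupp.sum_apply, Finsupp.sum]
  refine Finset.sum_eq_zero fun y hy => ?_
  rw [Finsupp.single_apply, if_neg (hc y (Finsupp.mem_support_iff.1 hy))]

theorem FM_mem {A : Type} [AddCommMonoid A] (A₀ : AddSubmonoid A) {X : SSet.{0}}
    {n m : SimplexCategoryᵒᵖ} (θ : n ⟶ m)
    (f : X.obj n →₀ A) (x : X.obj m) (h : ∀ y, X.map θ y = x → f y ∈ A₀) :
    f.mapDomain (X.map θ) x ∈ A₀ := by
  classical
  rw [Finsupp.mapDomain, Finsupp.sum_apply, Finsupp.sum]
  refine AddSubmonoid.sum_mem _ fun y hy => ?_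
  rw [Finsupp.single_apply]
  split_ifs with h'
  · exact h y h'
  · exact A₀.zero_mem

open scoped Classical in
theorem FM_filter {A : Type} [AddCommMonoid A] {X : SSet.{0}} (Z : X.Subcomplex)
    {n m : SimplexCategoryᵒᵖ} (θ : n ⟶ m) (f : X.obj n →₀ A) :
    ((f.filter (fun x => x ∉ Z.obj n)).mapDomain (X.map θ)).filter (fun x => x ∉ Z.obj m)
      = (f.mapDomain (X.map θ)).filter (fun x => x ∉ Z.obj m) := by
  have e := Finsupp.filter_add_filter_not f (fun x => x ∉ Z.obj n)
  conv_rhs => rw [← e]
  rw [Finsupp.mapDomain_add, Finsupp.filter_add]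
  have h0 : ((f.filter (fun x => ¬ x ∉ Z.obj n)).mapDomain (X.map θ)).filter
      (fun x => x ∉ Z.obj m) = 0 := by
    ext x
    rw [Finsupp.filter_apply]
    by_cases h : x ∉ Z.obj m
    · rw [if_pos h]
      by_contra hc
      obtain ⟨y, hy, rfl⟩ := FM_supp θ _ _ hc
      rw [Finsupp.filter_apply] at hy
      by_cases h' : ¬ y ∉ Z.obj n
      · exact h (Z.map θ (not_not.1 h'))
      · rw [if_neg h'] at hy
        exact hy rfl
    · rw [if_neg h]
      rfl
  rw [h0, add_zero]

open scoped Classical in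
/-- Functions `f` with finite support on the simplices of `X`, with support in `W` and off `Z`, with
values in `A`, and in `A₀` off `Y`. With `Y = ⊤` this is `A[W/Z]`, with `Y = ⊥` it is `A₀[W/Z]`. -/
noncomputable def FM (A : Type) [AddCommMonoid A] (A₀ : AddSubmonoid A) {X : SSet.{0}}
    (Y W Z : X.Subcomplex) : SSet.{0} where
  obj n := {f : X.obj n →₀ A // (∀ x, f x ≠ 0 → x ∈ W.obj n ∧ x ∉ Z.obj n) ∧
    ∀ x, x ∉ Y.obj n → f x ∈ A₀}
  map {n m} θ := TypeCat.ofHom (fun f =>
    ⟨(f.1.mapDomain (X.map θ)).filter (fun x => x ∉ Z.obj m), by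
      refine ⟨fun x hx => ?_, fun x hx => ?_⟩
      · rw [Finsupp.filter_apply] at hx
        by_cases h : x ∉ Z.obj m
        · rw [if_pos h] at hx
          obtain ⟨y, hy, rfl⟩ := FM_supp θ _ _ hx
          exact ⟨W.map θ (f.2.1 y hy).1, h⟩
        · rw [if_neg h] at hx
          exact absurd rfl hx
      · rw [Finsupp.filter_apply]
        by_cases h : x ∉ Z.obj m
        · rw [if_pos h]
          refine FM_mem A₀ θ _ _ fun y hy => f.2.2 y fun hY => hx ?_
          rw [← hy]
          exact Y.map θ hY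
        · rw [if_neg h]
          exact A₀.zero_mem⟩)
  map_id n := by
    refine ConcreteCategory.hom_ext _ _ fun f => Subtype.ext ?_
    show (f.1.mapDomain (X.map (𝟙 n))).filter (fun x => x ∉ Z.obj n) = f.1
    have e : (X.map (𝟙 n) : X.obj n → X.obj n) = id := by
      rw [X.map_id]
      rfl
    rw [e, Finsupp.mapDomain_id, Finsupp.filter_eq_self_iff]
    exact fun x hx => (f.2.1 x hx).2
  map_comp {n m k} θ η := by
    refine ConcreteCategory.hom_ext _ _ fun f => Subtype.ext ?_
    show (f.1.mapDomain (X.map (θ ≫ η))).filter (fun x => x ∉ Z.obj k)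
      = (((f.1.mapDomain (X.map θ)).filter (fun x => x ∉ Z.obj m)).mapDomain (X.map η)).filter
        (fun x => x ∉ Z.obj k)
    rw [FM_filter, ← Finsupp.mapDomain_comp]
    congr 1
    rw [X.map_comp]
    rfl


/-- the underlying function of a simplex of `FM` -/
def FM.fn {A : Type} [AddCommMonoid A] {A₀ : AddSubmonoid A} {X : SSet.{0}}
    {Y W Z : X.Subcomplex} {n : SimplexCategoryᵒᵖ} (f : (FM A A₀ Y W Z).obj n) : X.obj n →₀ A := f.1

end Pool.Agent.SH
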