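import Pool.Agent.SH.DefsN
import Pool.Agent.SH.DefsI

/-!
# MP_2d0b73_an, Part III-N: maps of the simplicial sets `FM`, coefficients
-/

set_option autoImplicit false

open CategoryTheory MonoidalCategory CartesianMonoidalCategory Simplicial Opposite

namespace Pool.Agent.SH

section maps

variable {A : Type} [AddCommMonoid A] {X X' : SSet.{0}}

theorem FM_supp' (u : X ⟶ X') {n : SimplexCategoryᵒᵖ} (f : X.obj n →₀ A) (x : X'.obj n)
    (h : f.mapDomain (u.app n) x ≠ 0) : ∃ y, f y ≠ 0 ∧ u.app n y = x := by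
  classical
  by_contra hc
  push Not at hc
  apply h
  rw [Finsupp.mapDomain, Finsupp.sum_apply, Finsupp.sum]
  refine Finset.sum_eq_zero fun y hy => ?_
  rw [Finsupp.single_apply, if_neg (hc y (Finsupp.mem_support_iff.1 hy))]

theorem FM_mem' (A₀ : AddSubmonoid A) (u : X ⟶ X') {n : SimplexCategoryᵒᵖ}
    (f : X.obj n →₀ A) (x : X'.obj n) (h : ∀ y, u.app n y = x → f y ∈ A₀) :
    f.mapDomain (u.app n) x ∈ A₀ := by
  classical
  rw [Finsupp.mapDomain, Finsupp.sum_apply, Finsupp.sum]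
  refine AddSubmonoid.sum_mem _ fun y hy => ?_
  rw [Finsupp.single_apply]
  split_ifs with h'
  · exact h y h'
  · exact A₀.zero_mem

open scoped Classical in
theorem FM_filter' (u : X ⟶ X') {Z : X.Subcomplex} {Z' : X'.Subcomplex} (hZ : Z ≤ Z'.preimage u)
    {n : SimplexCategoryᵒᵖ} (f : X.obj n →₀ A) :
    ((f.filter (fun x => x ∉ Z.obj n)).mapDomain (u.app n)).filter (fun x => x ∉ Z'.obj n)
      = (f.mapDomain (u.app n)).filter (fun x => x ∉ Z'.obj n) := by
  have e := Finsupp.filter_add_filter_not f (fun x => x ∉ Z.obj n)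
  conv_rhs => rw [← e]
  rw [Finsupp.mapDomain_add, Finsupp.filter_add]
  have h0 : ((f.filter (fun x => ¬ x ∉ Z.obj n)).mapDomain (u.app n)).filter
      (fun x => x ∉ Z'.obj n) = 0 := by
    ext x
    rw [Finsupp.filter_apply]
    by_cases h : x ∉ Z'.obj n
    · rw [if_pos h]
      by_contra hc
      obtain ⟨y, hy, rfl⟩ := FM_supp' u _ _ hc
      rw [Finsupp.filter_apply] at hy
      by_cases h' : ¬ y ∉ Z.obj n
      · exact h (hZ n (not_not.1 h'))
      · rw [if_neg h'] at hy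
        exact hy rfl
    · rw [if_neg h]
      rfl
  rw [h0, add_zero]

open scoped Classical in
/-- A map `u` of simplicial sets induces a map of the simplicial sets `FM` (push forward, then
restrict off `Z'`).  With `u = 𝟙` these are the inclusions and projections. -/
noncomputable def FMmap (A₀ : AddSubmonoid A) (u : X ⟶ X') {Y W Z : X.Subcomplex}
    {Y' W' Z' : X'.Subcomplex} (hY : Y ≤ Y'.preimage u) (hW : W ≤ W'.preimage u)
    (hZ : Z ≤ Z'.preimage u) : FM A A₀ Y W Z ⟶ FM A A₀ Y' W' Z' where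
  app n := TypeCat.ofHom (fun f =>
    ⟨(f.1.mapDomain (u.app n)).filter (fun x => x ∉ Z'.obj n), by
      refine ⟨fun x hx => ?_, fun x hx => ?_⟩
      · rw [Finsupp.filter_apply] at hx
        by_cases h : x ∉ Z'.obj n
        · rw [if_pos h] at hx
          obtain ⟨y, hy, rfl⟩ := FM_supp' u _ _ hx
          exact ⟨hW n (f.2.1 y hy).1, h⟩
        · rw [if_neg h] at hx
          exact absurd rfl hx
      · rw [Finsupp.filter_apply]
        by_cases h : x ∉ Z'.obj n
        · rw [if_pos h]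
          refine FM_mem' A₀ u _ _ fun y hy => f.2.2 y fun hYy => hx ?_
          rw [← hy]
          exact hY n hYy
        · rw [if_neg h]
          exact A₀.zero_mem⟩)
  naturality n m θ := by
    refine ConcreteCategory.hom_ext _ _ fun f => Subtype.ext ?_
    show (((f.1.mapDomain (X.map θ)).filter (fun x => x ∉ Z.obj m)).mapDomain (u.app m)).filter
        (fun x => x ∉ Z'.obj m)
      = (((f.1.mapDomain (u.app n)).filter (fun x => x ∉ Z'.obj n)).mapDomain (X'.map θ)).filter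
        (fun x => x ∉ Z'.obj m)
    rw [FM_filter, FM_filter' u hZ, ← Finsupp.mapDomain_comp, ← Finsupp.mapDomain_comp]
    congr 2
    funext x
    exact NatTrans.naturality_apply u θ x

end maps

/-- A homomorphism of coefficients which kills `A₀`. -/
noncomputable def FMco {A B : Type} [AddCommMonoid A] [AddCommMonoid B] (A₀ : AddSubmonoid A)
    (φ : A →+ B) (hφ : ∀ a ∈ A₀, φ a = 0) {X : SSet.{0}} (Y W Z : X.Subcomplex) :
    FM A A₀ Y W Z ⟶ FM B ⊤ ⊤ (W ⊓ Y) Z where
  app n := TypeCat.ofHom (fun f =>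
    ⟨f.1.mapRange φ φ.map_zero, by
      refine ⟨fun x hx => ?_, fun x _ => AddSubmonoid.mem_top _⟩
      rw [Finsupp.mapRange_apply] at hx
      have h1 : f.1 x ≠ 0 := fun h => hx (by rw [h, map_zero])
      refine ⟨⟨(f.2.1 x h1).1, ?_⟩, (f.2.1 x h1).2⟩
      by_contra hY
      exact hx (hφ _ (f.2.2 x hY))⟩)
  naturality n m θ := by
    classical
    refine ConcreteCategory.hom_ext _ _ fun f => Subtype.ext ?_
    obtain ⟨f, hf⟩ := f
    show (((f.mapDomain (X.map θ)).filter (fun x => x ∉ Z.obj m)).mapRange φ φ.map_zero)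
      = ((f.mapRange φ φ.map_zero).mapDomain (X.map θ)).filter (fun x => x ∉ Z.obj m)
    rw [Finsupp.mapDomain_mapRange _ _ _ φ.map_zero φ.map_add]
    ext x
    rw [Finsupp.mapRange_apply, Finsupp.filter_apply, Finsupp.filter_apply]
    by_cases h : x ∉ Z.obj m
    · rw [if_pos h, if_pos h, Finsupp.mapRange_apply]
    · rw [if_neg h, if_neg h, map_zero]

/-! ### Coefficients: nonnegative dyadic numbers, and dyadic numbers modulo `1` -/

/-- the nonnegative dyadic numbers -/
def Qd : AddSubmonoid ℚ where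
  carrier := {q | 0 ≤ q ∧ ∃ k m : ℕ, q * 2 ^ k = m}
  zero_mem' := ⟨le_refl 0, 0, 0, by simp⟩
  add_mem' := by
    rintro a b ⟨ha, k, m, hk⟩ ⟨hb, l, p, hl⟩
    refine ⟨add_nonneg ha hb, k + l, m * 2 ^ l + p * 2 ^ k, ?_⟩
    push_cast
    rw [← hk, ← hl]
    ring

/-- the natural numbers inside `Qd` -/
def Nd : AddSubmonoid Qd where
  carrier := {q | ∃ m : ℕ, (q : ℚ) = m}
  zero_mem' := ⟨0, by simp⟩
  add_mem' := by
    rintro a b ⟨m, hm⟩ ⟨p, hp⟩
    exact ⟨m + p, by push_cast; rw [hm, hp]⟩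

/-- the elements of `ℚ / ℤ` whose order is a power of two -/
def Dd : AddSubgroup (ℚ ⧸ AddSubgroup.zmultiples (1 : ℚ)) where
  carrier := {d | ∃ k : ℕ, 2 ^ k • d = 0}
  zero_mem' := ⟨0, by simp⟩
  add_mem' := by
    rintro a b ⟨k, hk⟩ ⟨l, hl⟩
    refine ⟨k + l, ?_⟩
    rw [smul_add, pow_add, mul_comm (2 ^ k) (2 ^ l), mul_smul, hk, mul_comm (2 ^ l) (2 ^ k),
      mul_smul, hl]
    simp
  neg_mem' := by
    rintro a ⟨k, hk⟩
    exact ⟨k, by rw [smul_neg, hk, neg_zero]⟩

/-- reduction modulo one -/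
def md : Qd →+ Dd where
  toFun q := ⟨QuotientAddGroup.mk (q : ℚ), by
    obtain ⟨k, m, hk⟩ := q.2.2
    refine ⟨k, ?_⟩
    rw [← QuotientAddGroup.mk_nsmul, QuotientAddGroup.eq_zero_iff]
    refine ⟨m, ?_⟩
    simp only [zsmul_eq_mul, mul_one, nsmul_eq_mul, Nat.cast_pow, Nat.cast_ofNat, Int.cast_natCast]
    rw [← hk, mul_comm]⟩
  map_zero' := rfl
  map_add' a b := rfl

theorem md_Nd (a : Qd) (ha : a ∈ Nd) : md a = 0 := by
  obtain ⟨m, hm⟩ := ha
  apply Subtype.ext
  show (QuotientAddGroup.mk (a : ℚ) : ℚ ⧸ AddSubgroup.zmultiples (1 : ℚ)) = 0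
  rw [QuotientAddGroup.eq_zero_iff]
  exact ⟨m, by simp [hm]⟩

/-! ### The label space -/

/-- the elements of `Sph 2` of level at most one: a circle -/
def US : Set (Sph 2) := {x | x.lev ≠ Fin.last 2}

/-- the circle together with one pole -/
def UC (e : Bool) : Set (Sph 2) := {x | x.lev = Fin.last 2 → x.sgn = e}

/-- the base point -/
def UZ : Set (Sph 2) := {0}

end Pool.Agent.SH
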