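import Mathlib

/-!
# MP_2d0b73_an: sofic mean dimension of full shifts, definitions

The definitions of the problem: sofic approximation sequences, the sets `Map(ρ, F, δ, σ)`, the
numbers `D(Z, U^d)`, sofic mean dimension, full shifts.
-/

set_option autoImplicit false

open Set Topology Filter

namespace Pool.Agent.SH

/-- A sofic approximation sequence for the group `G`: maps `σ i : G → Sym (d i)`, `d i → ∞`, which
are asymptotically multiplicative and asymptotically free. -/
structure SoficSeq (G : Type) [Group G] : Type where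
  /-- the sizes -/
  d : ℕ → ℕ
  /-- the maps, not necessarily homomorphisms -/
  σ : (i : ℕ) → G → Equiv.Perm (Fin (d i))
  tendsto_d : Tendsto d atTop atTop
  mul : ∀ s t : G, Tendsto
    (fun i => ({v : Fin (d i) | σ i (s * t) v = σ i s (σ i t v)}.ncard : ℝ) / d i) atTop (𝓝 1)
  free : ∀ s t : G, s ≠ t → Tendsto
    (fun i => ({v : Fin (d i) | σ i s v ≠ σ i t v}.ncard : ℝ) / d i) atTop (𝓝 1)

/-- The set `Map(ρ, F, δ, σ)` of the `φ : [d] → X` with `ρ₂(φ ∘ σ_s, s φ) ≤ δ` for `s ∈ F`. -/
def SMap {G X : Type} [Group G] [MulAction G X] (ρ : X → X → ℝ) (F : Finset G) (δ : ℝ) {d : ℕ}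
    (σ : G → Equiv.Perm (Fin d)) : Set (Fin d → X) :=
  {φ | ∀ s ∈ F, Real.sqrt (1 / (d : ℝ) * ∑ v, ρ (φ (σ s v)) (s • φ v) ^ 2) ≤ δ}

/-- Finite open covers. -/
def IsFCover {Y : Type} [TopologicalSpace Y] (U : Set (Set Y)) : Prop :=
  U.Finite ∧ (∀ u ∈ U, IsOpen u) ∧ ⋃₀ U = univ

/-- The cover `U^d` of `Y^d` by the products `U_1 × ... × U_d`, `U_j ∈ U`. -/
def powCover {Y : Type} (U : Set (Set Y)) (d : ℕ) : Set (Set (Fin d → Y)) :=
  {B | ∃ c : Fin d → Set Y, (∀ j, c j ∈ U) ∧ B = {z | ∀ j, z j ∈ c j}}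

/-- The order of a family of subsets: `max_z (number of the sets that contain z) - 1`; it is `-∞`
for the empty space. -/
noncomputable def ordC {Y : Type} (V : Set (Set Y)) : EReal :=
  ⨆ z : Y, ((({v | v ∈ V ∧ z ∈ v}.ncard : ℝ) - 1 : ℝ) : EReal)

/-- The number `D(Z, W)`: the least order of the finite open covers of the subspace `Z` which refine
the restriction of `W` to `Z`; it is `-∞` for `Z = ∅`. -/
noncomputable def DD {Y : Type} [TopologicalSpace Y] (Z : Set Y) (W : Set (Set Y)) : EReal :=
  ⨅ (V : Set (Set Z)) (_ : IsFCover V ∧ ∀ v ∈ V, ∃ w ∈ W, v ⊆ {z : Z | (z : Y) ∈ w}), ordC V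

/-- `ρ` is a metric which defines the topology of `X`. -/
def IsCompatMetric {X : Type} [t : TopologicalSpace X] (ρ : X → X → ℝ) : Prop :=
  ∃ m : MetricSpace X, m.toPseudoMetricSpace.toUniformSpace.toTopologicalSpace = t ∧
    ∀ x y, ρ x y = m.dist x y

/-- Sofic mean dimension, computed with the metric `ρ`. -/
noncomputable def mdim {G X : Type} [Group G] [TopologicalSpace X] [MulAction G X]
    (ρ : X → X → ℝ) (S : SoficSeq G) : EReal :=
  ⨆ (U : Set (Set X)) (_ : IsFCover U), ⨅ (F : Finset G), ⨅ (δ : ℝ) (_ : 0 < δ),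
    limsup (fun i => DD (SMap ρ F δ (S.σ i)) (powCover U (S.d i)) / ((S.d i : ℝ) : EReal)) atTop

/-- The full shift `K^G`. -/
def FullShift (G K : Type) : Type := G → K

instance {G K : Type} [TopologicalSpace K] : TopologicalSpace (FullShift G K) :=
  inferInstanceAs (TopologicalSpace (G → K))

/-- The shift action `(g x)_h = x_(h g)`. -/
instance {G K : Type} [Group G] : MulAction G (FullShift G K) where
  smul g x := fun h => x (h * g)
  one_smul x := by
    funext h
    show x (h * 1) = x h
    rw [mul_one]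
  mul_smul g g' x := by
    funext h
    show x (h * (g * g')) = x (h * g * g')
    rw [mul_assoc]

theorem smul_apply {G K : Type} [Group G] (g : G) (x : FullShift G K) (h : G) :
    (g • x) h = x (h * g) := rfl

/-- Covering dimension at most `n`: every finite open cover `U` has a finite open refinement `V`
such that every point is in at most `n + 1` members of `V`. -/
def CovDimLE (K : Type) [TopologicalSpace K] (n : ℕ) : Prop :=
  ∀ U : Set (Set K), IsFCover U → ∃ V : Set (Set K), IsFCover V ∧ (∀ v ∈ V, ∃ u ∈ U, v ⊆ u) ∧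
    ∀ x, {v | v ∈ V ∧ x ∈ v}.ncard ≤ n + 1

/-- `K` is infinite-dimensional: its covering dimension is not at most `n`, for all `n`. -/
def InfDim (K : Type) [TopologicalSpace K] : Prop := ∀ n, ¬ CovDimLE K n

/-- The question Q1 of MP_2d0b73_an. -/
def Q1 : Prop := ∀ (G : Type) [Group G] [Countable G] (S : SoficSeq G) (K : Type)
  [TopologicalSpace K] [CompactSpace K] [TopologicalSpace.MetrizableSpace K], InfDim K →
  ∀ ρ : FullShift G K → FullShift G K → ℝ, IsCompatMetric ρ → mdim ρ S = ⊤

end Pool.Agent.SH
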