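import Mathlib

/-!
# MP_2d0b73_an, PART II: definitions, homotopical part (helper38)

Simplicial sets are Mathlib's `SSet.{0}`; `T` is a fixed target.
-/

noncomputable section

namespace Pool.Agent.SH

open CategoryTheory Simplicial MonoidalCategory Limits Opposite

/-- `LT T i`: the map `i : A ⟶ B` is a monomorphism and every map
`(B × ∂Δ[n]) ∪ (A × Δ[n]) ⟶ T` extends to `B × Δ[n]`. -/
def LT (T : SSet.{0}) {A B : SSet.{0}} (i : A ⟶ B) : Prop :=
  Mono i ∧ ∀ (n : ℕ) (u : B ⊗ (∂Δ[n] : SSet.{0}) ⟶ T) (v : A ⊗ Δ[n] ⟶ T),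
    i ▷ (∂Δ[n] : SSet.{0}) ≫ u = A ◁ ∂Δ[n].ι ≫ v →
      ∃ w : B ⊗ Δ[n] ⟶ T, B ◁ ∂Δ[n].ι ≫ w = u ∧ i ▷ Δ[n] ≫ w = v

/-- The vertex `x` of `X` as a map `Δ[0] ⟶ X`. -/
def vert {X : SSet.{0}} (x : X _⦋0⦌) : (Δ[0] : SSet.{0}) ⟶ X := SSet.yonedaEquiv.symm x

/-- `X` is acyclic for `T`: it has a vertex whose inclusion is in `LT T`. -/
def TAcyclic (T X : SSet.{0}) : Prop := ∃ x : X _⦋0⦌, LT T (vert x)

/-- Compactness of `T`: a map from a subcomplex `A` of `B` extends to `B` as soon as for each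
finite subcomplex `F` its restriction to `A ⊓ F` extends to `F`. -/
def TCompact (T : SSet.{0}) : Prop :=
  ∀ (B : SSet.{0}) (A : B.Subcomplex) (u : (A : SSet.{0}) ⟶ T),
    (∀ F : B.Subcomplex, (F : SSet.{0}).Finite →
      ∃ w : (F : SSet.{0}) ⟶ T,
        SSet.Subcomplex.homOfLE (inf_le_right : A ⊓ F ≤ F) ≫ w =
          SSet.Subcomplex.homOfLE (inf_le_left : A ⊓ F ≤ A) ≫ u) →
    ∃ w : B ⟶ T, A.ι ≫ w = u

/-- A map `f : X ⟶ T` is null homotopic (to some vertex `t`). -/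
def Null {X T : SSet.{0}} (f : X ⟶ T) : Prop :=
  ∃ t : T _⦋0⦌, Nonempty (SSet.Homotopy f (SSet.const t))

/-- Nerve of a partially ordered type. -/
abbrev NP (P : Type) [Preorder P] : SSet.{0} := nerve P

/-- Nerve of an order preserving map. -/
abbrev NMap {P Q : Type} [Preorder P] [Preorder Q] (f : P →o Q) : NP P ⟶ NP Q :=
  nerveMap f.monotone.functor

/-- the subcomplex of the nerve of `R` of the simplices all whose vertices are in `U`. -/
def subN {R : Type} [Preorder R] (U : Set R) : (NP R).Subcomplex where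
  obj _ := {x | ∀ i, x.obj i ∈ U}
  map _ _ hx _ := hx _

/-- `LTS T A B`: for subcomplexes `A`, `B` of a simplicial set: `A ≤ B` and the inclusion is in
`LT T`. -/
def LTS (T : SSet.{0}) {X : SSet.{0}} (A B : X.Subcomplex) : Prop :=
  ∃ h : A ≤ B, LT T (SSet.Subcomplex.homOfLE h)

/-- the part `U` of `R` (a set of elements) is acyclic for `T`. -/
def AcyS (T : SSet.{0}) {R : Type} [Preorder R] (U : Set R) : Prop :=
  ∃ a ∈ U, LTS T (subN {a}) (subN U)

end Pool.Agent.SH
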