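import Mathlib
import Pool.Agent.SH.DefsTE

/-!
# MP_2d0b73_an, block III-T (TT): the target `T = Ω Tot (X^•)` (definitions)

Everything is written with morphisms of `SimplexCategoryᵒᵖ`: an `l`-simplex of `Δ^t` is a
morphism `bx t ⟶ l`, and a simplicial operator `α : k ⟶ l` acts by `- ≫ α`.
-/

open CategoryTheory Simplicial SSet Opposite MonoidalCategory

noncomputable section

namespace Pool.Agent.SH.TT

/-- The opposite simplex category. -/
abbrev Dop := SimplexCategoryᵒᵖ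

/-- The object `[n]` of the opposite simplex category. -/
abbrev bx (n : ℕ) : Dop := op ⦋n⦌

/-- The coface `[n] → [n+1]` as a morphism of the opposite category. -/
abbrev dop {n : ℕ} (i : Fin (n + 2)) : bx (n + 1) ⟶ bx n := (SimplexCategory.δ i).op

/-- The codegeneracy `[n+1] → [n]` as a morphism of the opposite category. -/
abbrev sop {n : ℕ} (i : Fin (n + 1)) : bx n ⟶ bx (n + 1) := (SimplexCategory.σ i).op

/-- The simplex `t` of `Δ^n` lies in the boundary. -/
def Bdy {n : ℕ} {k : Dop} (t : bx n ⟶ k) : Prop :=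
  ¬ Function.Surjective t.unop.toOrderHom

/-- Simplicial `F_2`-vector spaces. -/
abbrev SV := SimplicialObject (ModuleCat.{0} (ZMod 2))

/-- The underlying simplicial set. -/
abbrev US (V : SV) : SSet.{0} := V ⋙ forget (ModuleCat.{0} (ZMod 2))

/-! ### Simplicial vector spaces: Moore cycles and boundaries -/

/-- Moore cycles: all faces vanish. -/
def MCyc (V : SV) (t : ℕ) (z : V.obj (bx t)) : Prop :=
  ∀ (k : Dop) (α : bx t ⟶ k), Bdy α → V.map α z = 0

/-- Moore boundaries: `z = d_0 w`, all other faces of `w` vanish. -/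
def MBd (V : SV) (t : ℕ) (z : V.obj (bx t)) : Prop :=
  ∃ w : V.obj (bx (t + 1)), V.map (dop 0) w = z ∧ ∀ i : Fin (t + 1), V.map (dop i.succ) w = 0

/-- The subspace of natural families vanishing on a subcomplex. -/
def mapSub (Z : SSet.{0}) (Z₀ : Z.Subcomplex) (V : SV) (q : Dop) :
    Submodule (ZMod 2) (∀ k : Dop, Z.obj k → (q ⟶ k) → V.obj k) where
  carrier := {g | (∀ {k l : Dop} (α : k ⟶ l) (z : Z.obj k) (σ : q ⟶ k),
      g l (Z.map α z) (σ ≫ α) = V.map α (g k z σ)) ∧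
    ∀ (k : Dop) (z : Z.obj k) (σ : q ⟶ k), z ∈ Z₀.obj k → g k z σ = 0}
  add_mem' := by
    rintro a b ⟨ha, ha'⟩ ⟨hb, hb'⟩
    refine ⟨fun α z σ => ?_, fun k z σ h => ?_⟩
    · simp only [Pi.add_apply, map_add, ha α z σ, hb α z σ]
    · simp only [Pi.add_apply, ha' k z σ h, hb' k z σ h, add_zero]
  zero_mem' := by
    refine ⟨fun α z σ => ?_, fun k z σ h => rfl⟩
    simp only [Pi.zero_apply, map_zero]
  smul_mem' := by
    rintro c a ⟨ha, ha'⟩
    refine ⟨fun α z σ => ?_, fun k z σ h => ?_⟩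
    · simp only [Pi.smul_apply, map_smul, ha α z σ]
    · simp only [Pi.smul_apply, ha' k z σ h, smul_zero]

/-- `Map((Z, Z₀), (V, 0))`: its `q`-simplices are the natural families
`Z × Δ^q → V` vanishing on `Z₀`. -/
def MapP (Z : SSet.{0}) (Z₀ : Z.Subcomplex) (V : SV) : SV where
  obj q := ModuleCat.of (ZMod 2) (mapSub Z Z₀ V q)
  map {q r} β := ModuleCat.ofHom
    { toFun := fun g => ⟨fun k z σ => g.1 k z (β ≫ σ),
        ⟨fun α z σ => by
          show g.1 _ _ (β ≫ σ ≫ α) = _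
          rw [← Category.assoc]; exact g.2.1 α z (β ≫ σ),
          fun k z σ h => g.2.2 k z (β ≫ σ) h⟩⟩
      map_add' := fun a b => rfl
      map_smul' := fun c a => rfl }
  map_id q := by
    ext g k z σ
    show g.1 k z (𝟙 q ≫ σ) = g.1 k z σ
    rw [Category.id_comp]
  map_comp β γ := by
    ext g k z σ
    show g.1 k z ((β ≫ γ) ≫ σ) = g.1 k z (β ≫ γ ≫ σ)
    rw [Category.assoc]

/-- Evaluation of a simplex of `MapP`. -/
def MapP.ev {Z : SSet.{0}} {Z₀ : Z.Subcomplex} {V : SV} {q : Dop} (g : (MapP Z Z₀ V).obj q)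
    (k : Dop) (z : Z.obj k) (σ : q ⟶ k) : V.obj k :=
  (show mapSub Z Z₀ V q from g).1 k z σ

/-- Constructor for simplices of `MapP`. -/
def MapP.mk {Z : SSet.{0}} {Z₀ : Z.Subcomplex} {V : SV} {q : Dop}
    (g : ∀ k : Dop, Z.obj k → (q ⟶ k) → V.obj k)
    (h : ∀ {k l : Dop} (α : k ⟶ l) (z : Z.obj k) (σ : q ⟶ k),
      g l (Z.map α z) (σ ≫ α) = V.map α (g k z σ))
    (h' : ∀ (k : Dop) (z : Z.obj k) (σ : q ⟶ k), z ∈ Z₀.obj k → g k z σ = 0) :
    (MapP Z Z₀ V).obj q :=
  (⟨g, h, h'⟩ : mapSub Z Z₀ V q)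

section
variable {Z : SSet.{0}} {Z₀ : Z.Subcomplex} {V : SV} {q : Dop}

theorem MapP.nat (g : (MapP Z Z₀ V).obj q) {k l : Dop} (α : k ⟶ l) (z : Z.obj k) (σ : q ⟶ k) :
    MapP.ev g l (Z.map α z) (σ ≫ α) = V.map α (MapP.ev g k z σ) :=
  (show mapSub Z Z₀ V q from g).2.1 α z σ

theorem MapP.van (g : (MapP Z Z₀ V).obj q) {k : Dop} (z : Z.obj k) (σ : q ⟶ k)
    (h : z ∈ Z₀.obj k) : MapP.ev g k z σ = 0 :=
  (show mapSub Z Z₀ V q from g).2.2 k z σ h

theorem MapP.ext {g g' : (MapP Z Z₀ V).obj q} (h : ∀ k z σ, MapP.ev g k z σ = MapP.ev g' k z σ) :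
    g = g' := by
  apply Subtype.ext
  funext k z σ
  exact h k z σ

@[simp] theorem MapP.ev_mk (g : ∀ k : Dop, Z.obj k → (q ⟶ k) → V.obj k) (h h') (k z σ) :
    MapP.ev (MapP.mk (Z₀ := Z₀) (V := V) g h h') k z σ = g k z σ := rfl

@[simp] theorem MapP.ev_map {r : Dop} (β : q ⟶ r) (g : (MapP Z Z₀ V).obj q) (k z σ) :
    MapP.ev ((MapP Z Z₀ V).map β g) k z σ = MapP.ev g k z (β ≫ σ) := rfl

@[simp] theorem MapP.ev_add (g g' : (MapP Z Z₀ V).obj q) (k z σ) :
    MapP.ev (g + g') k z σ = MapP.ev g k z σ + MapP.ev g' k z σ := rfl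

@[simp] theorem MapP.ev_zero (k : Dop) (z : Z.obj k) (σ : q ⟶ k) :
    MapP.ev (0 : (MapP Z Z₀ V).obj q) k z σ = 0 := rfl

end

/-! ### Cosimplicial data -/

/-- A semi-cosimplicial object: simplicial `F_2`-vector spaces `V s` and cofaces which are
pointed simplicial maps (not necessarily linear). -/
structure CoV where
  /-- the levels -/
  V : ℕ → SV
  /-- the cofaces, as maps of simplicial sets -/
  cof : ∀ (s : ℕ), Fin (s + 2) → ∀ (k : Dop), (V s).obj k → (V (s + 1)).obj k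
  cof_nat : ∀ (s : ℕ) (i : Fin (s + 2)) {k l : Dop} (α : k ⟶ l) (x : (V s).obj k),
    cof s i l ((V s).map α x) = (V (s + 1)).map α (cof s i k x)
  cof_zero : ∀ (s : ℕ) (i : Fin (s + 2)) (k : Dop), cof s i k 0 = 0
  cof_cof : ∀ (s : ℕ) (i j : Fin (s + 2)), i ≤ j → ∀ (k : Dop) (x : (V s).obj k),
    cof (s + 1) j.succ k (cof s i k x) = cof (s + 1) i.castSucc k (cof s j k x)

/-- The sum of the cofaces. -/
def CoV.dl (D : CoV) (s : ℕ) {k : Dop} (z : (D.V s).obj k) : (D.V (s + 1)).obj k :=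
  ∑ i : Fin (s + 2), D.cof s i k z

/-- Mapping objects, levelwise. -/
def CoV.mp (Z : SSet.{0}) (Z₀ : Z.Subcomplex) (D : CoV) : CoV where
  V s := MapP Z Z₀ (D.V s)
  cof s i q g := MapP.mk (fun k z σ => D.cof s i k (MapP.ev g k z σ))
    (fun α z σ => by rw [MapP.nat, D.cof_nat])
    (fun k z σ h => by rw [MapP.van g z σ h, D.cof_zero])
  cof_nat s i {k l} α x := rfl
  cof_zero s i q := MapP.ext fun k z σ => D.cof_zero s i k
  cof_cof s i j h q x := MapP.ext fun k z σ => D.cof_cof s i j h k _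

/-- Exactness of the complexes `s ↦ π_t (V s)` with differential the sum of the cofaces, for
all `t ≥ τ`. -/
def ExC (D : CoV) (τ : ℕ) : Prop :=
  ∀ t : ℕ, τ ≤ t →
    (∀ z : (D.V 0).obj (bx t), MCyc (D.V 0) t z → MBd (D.V 1) t (D.dl 0 z) →
      MBd (D.V 0) t z) ∧
    (∀ (s : ℕ) (z : (D.V (s + 1)).obj (bx t)), MCyc (D.V (s + 1)) t z →
      MBd (D.V (s + 2)) t (D.dl (s + 1) z) →
        ∃ y : (D.V s).obj (bx t), MCyc (D.V s) t y ∧ MBd (D.V (s + 1)) t (z + D.dl s y))

/-- The cofaces are additive up to Moore boundaries. -/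
def HAdd (D : CoV) : Prop :=
  ∀ (s : ℕ) (i : Fin (s + 2)) (t : ℕ) (a y : (D.V s).obj (bx t)), MCyc (D.V s) t y →
    MBd (D.V (s + 1)) t (D.cof s i _ (a + y) + D.cof s i _ a + D.cof s i _ y)

/-! ### Fat totalisation -/

/-- Families `f_s : Z × Δ^s → V s` compatible with the cofaces: the maps `Z → Tot V`. -/
@[ext]
structure Fam (D : CoV) (Z : SSet.{0}) where
  /-- the family -/
  f : ∀ (s : ℕ) (k : Dop), Z.obj k → (bx s ⟶ k) → (D.V s).obj k
  nat : ∀ (s : ℕ) {k l : Dop} (α : k ⟶ l) (z : Z.obj k) (t : bx s ⟶ k),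
    f s l (Z.map α z) (t ≫ α) = (D.V s).map α (f s k z t)
  cof : ∀ (s : ℕ) (i : Fin (s + 2)) (k : Dop) (z : Z.obj k) (t : bx s ⟶ k),
    f (s + 1) k z (dop i ≫ t) = D.cof s i k (f s k z t)

/-- The `q`-simplices of `Tot`. -/
@[ext]
structure TotS (D : CoV) (q : Dop) where
  /-- the family -/
  f : ∀ (s : ℕ) (k : Dop), (q ⟶ k) → (bx s ⟶ k) → (D.V s).obj k
  nat : ∀ (s : ℕ) {k l : Dop} (α : k ⟶ l) (z : q ⟶ k) (t : bx s ⟶ k),
    f s l (z ≫ α) (t ≫ α) = (D.V s).map α (f s k z t)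
  cof : ∀ (s : ℕ) (i : Fin (s + 2)) (k : Dop) (z : q ⟶ k) (t : bx s ⟶ k),
    f (s + 1) k z (dop i ≫ t) = D.cof s i k (f s k z t)

/-- The fat totalisation. -/
def Tot (D : CoV) : SSet.{0} where
  obj q := TotS D q
  map {q r} β := TypeCat.ofHom (fun x =>
    { f := fun s k z t => x.f s k (β ≫ z) t
      nat := by
        intro s k l α z t
        rw [← Category.assoc]
        exact x.nat s α (β ≫ z) t
      cof := fun s i k z t => x.cof s i k (β ≫ z) t })
  map_id q := by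
    ext x s k z t
    simp
  map_comp β γ := by
    ext x s k z t
    simp

/-- The base simplices of `Tot`. -/
def Tot.zero (D : CoV) (q : Dop) : (Tot D).obj q :=
  ({ f := fun _ _ _ _ => 0
     nat := by
      intro s k l α z t
      simp
     cof := fun s i k z t => (D.cof_zero s i k).symm } : TotS D q)

/-- A family on `Z` gives a map `Z ⟶ Tot D`. -/
def Fam.toHom {D : CoV} {Z : SSet.{0}} (F : Fam D Z) : Z ⟶ Tot D where
  app q := TypeCat.ofHom (fun z =>
    { f := fun s k σ t => F.f s k (Z.map σ z) t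
      nat := by
        intro s k l α σ t
        have h := F.nat s α (Z.map σ z) t
        rw [← h]
        simp
      cof := fun s i k σ t => F.cof s i k _ t })
  naturality {q r} β := by
    ext z
    apply TotS.ext
    funext s k σ t
    simp [Tot]

/-- A map `Z ⟶ Tot D` gives a family on `Z`. -/
def Fam.ofHom {D : CoV} {Z : SSet.{0}} (φ : Z ⟶ Tot D) : Fam D Z where
  f s k z t := (φ.app k z : TotS D k).f s k (𝟙 k) t
  nat := by
    intro s k l α z t
    have h : (φ.app l (Z.map α z) : TotS D l) = (Tot D).map α (φ.app k z) :=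
      NatTrans.naturality_apply φ α z
    rw [h]
    have h2 := (φ.app k z : TotS D k).nat s α (𝟙 k) t
    rw [← h2]
    show (φ.app k z : TotS D k).f s l (α ≫ 𝟙 l) (t ≫ α) = _
    simp
  cof s i k z t := (φ.app k z : TotS D k).cof s i k (𝟙 k) t

/-! ### Loops -/

/-- A coherent family of base simplices of `Y`. -/
structure Base (Y : SSet.{0}) where
  /-- the base simplices -/
  pt : ∀ k : Dop, Y.obj k
  nat : ∀ {k l : Dop} (α : k ⟶ l), Y.map α (pt k) = pt l

/-- The base point of `Tot`. -/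
def Tot.base (D : CoV) : Base (Tot D) where
  pt := Tot.zero D
  nat α := rfl

/-- The `q`-simplices of the loop space. -/
@[ext]
structure OmS (Y : SSet.{0}) (b : Base Y) (q : Dop) where
  /-- the family `Δ^q × Δ^1 → Y` -/
  f : ∀ k : Dop, (q ⟶ k) → (bx 1 ⟶ k) → Y.obj k
  nat : ∀ {k l : Dop} (α : k ⟶ l) (z : q ⟶ k) (e : bx 1 ⟶ k),
    f l (z ≫ α) (e ≫ α) = Y.map α (f k z e)
  bd : ∀ (k : Dop) (z : q ⟶ k) (e : bx 1 ⟶ k), Bdy e → f k z e = b.pt k

/-- The loop space (simplicial model). -/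
def Om (Y : SSet.{0}) (b : Base Y) : SSet.{0} where
  obj q := OmS Y b q
  map {q r} β := TypeCat.ofHom (fun x =>
    { f := fun k z e => x.f k (β ≫ z) e
      nat := by
        intro k l α z e
        rw [← Category.assoc]
        exact x.nat α (β ≫ z) e
      bd := fun k z e h => x.bd k (β ≫ z) e h })
  map_id q := by
    ext x k z e
    simp
  map_comp β γ := by
    ext x k z e
    simp

/-- Maps `Z × Δ^1 → Y`, trivial over the ends. -/
@[ext]
structure FamL (Y : SSet.{0}) (b : Base Y) (Z : SSet.{0}) where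
  /-- the family -/
  f : ∀ k : Dop, Z.obj k → (bx 1 ⟶ k) → Y.obj k
  nat : ∀ {k l : Dop} (α : k ⟶ l) (z : Z.obj k) (e : bx 1 ⟶ k),
    f l (Z.map α z) (e ≫ α) = Y.map α (f k z e)
  bd : ∀ (k : Dop) (z : Z.obj k) (e : bx 1 ⟶ k), Bdy e → f k z e = b.pt k

/-- A family gives a map to the loop space. -/
def FamL.toHom {Y : SSet.{0}} {b : Base Y} {Z : SSet.{0}} (F : FamL Y b Z) : Z ⟶ Om Y b where
  app q := TypeCat.ofHom (fun z =>
    { f := fun k σ e => F.f k (Z.map σ z) e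
      nat := by
        intro k l α σ e
        have h := F.nat α (Z.map σ z) e
        rw [← h]
        simp
      bd := fun k σ e h => F.bd k _ e h })
  naturality {q r} β := by
    ext z
    apply OmS.ext
    funext k σ e
    simp [Om]

/-- A map to the loop space gives a family. -/
def FamL.ofHom {Y : SSet.{0}} {b : Base Y} {Z : SSet.{0}} (φ : Z ⟶ Om Y b) : FamL Y b Z where
  f k z e := (φ.app k z : OmS Y b k).f k (𝟙 k) e
  nat := by
    intro k l α z e
    have h : (φ.app l (Z.map α z) : OmS Y b l) = (Om Y b).map α (φ.app k z) :=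
      NatTrans.naturality_apply φ α z
    rw [h]
    have h2 := (φ.app k z : OmS Y b k).nat α (𝟙 k) e
    rw [← h2]
    show (φ.app k z : OmS Y b k).f l (α ≫ 𝟙 l) (e ≫ α) = _
    simp
  bd k z e h := (φ.app k z : OmS Y b k).bd k (𝟙 k) e h

/-- The target. -/
abbrev Target (D : CoV) : SSet.{0} := Om (Tot D) (Tot.base D)

/-! ### The classifying space of `Z/2` -/

/-- `B Z/2`: a `k`-simplex is a normalised `1`-cocycle of `Δ^k` with coefficients in `Z/2`. -/
def BZ : SSet.{0} where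
  obj k := {c : Fin (k.unop.len + 1) → Fin (k.unop.len + 1) → ZMod 2 //
    ∀ i j l, c i j + c j l = c i l}
  map {k l} α := TypeCat.ofHom (fun c =>
    ⟨fun i j => c.1 (α.unop.toOrderHom i) (α.unop.toOrderHom j), fun i j l => c.2 _ _ _⟩)
  map_id k := rfl
  map_comp α β := rfl

/-- The base point of `BZ`, as a subcomplex. -/
def BZ.b0 : BZ.Subcomplex where
  obj _ := {c | c.1 = 0}
  map α := by
    rintro c hc
    show (fun i j => c.1 (α.unop.toOrderHom i) (α.unop.toOrderHom j)) = 0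
    have hc' : c.1 = 0 := hc
    rw [hc']
    rfl

/-- The vertex of `BZ`. -/
def BZ.v : BZ _⦋0⦌ := ⟨fun _ _ => 0, fun _ _ _ => by simp⟩

end Pool.Agent.SH.TT
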