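import Mathlib

/-!
# MP_2d0b73_an, block III-T: the cosimplicial object of a monad
-/

open CategoryTheory

noncomputable section

namespace Pool.Agent.SH.TT

universe v u

variable {C : Type u} [Category.{v} C] (T : Monad C)

/-- Iterates of (the functor of) a monad; the last one applied is outermost. -/
def it : ℕ → (C ⥤ C)
  | 0 => 𝟭 C
  | n + 1 => it n ⋙ T.toFunctor

/-- Removing the value `0` from a monotone map. -/
def prd {a b : ℕ} (θ : Fin (a + 1) →o Fin (b + 1)) (h : θ 0 ≠ 0) : Fin (a + 1) →o Fin b where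
  toFun i := (θ i).pred (fun hi => h (le_antisymm (hi ▸ θ.monotone (Fin.zero_le i))
    (Fin.zero_le _)))
  monotone' _ _ hij := Fin.pred_le_pred_iff.mpr (θ.monotone hij)

/-- Restriction of a monotone map to the non-zero elements. -/
def scc {a b : ℕ} (θ : Fin (a + 1) →o Fin b) : Fin a →o Fin b where
  toFun i := θ i.succ
  monotone' _ _ hij := θ.monotone (Fin.succ_le_succ_iff.mpr hij)

/-- The empty monotone map. -/
def emp (b : ℕ) : Fin 0 →o Fin b := ⟨fun i => i.elim0, fun i => i.elim0⟩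

section
variable (X : C)

/-- The iterates on an object. -/
abbrev iob (n : ℕ) : C := (it T n).obj X

/-- The unit. -/
def et (b : ℕ) : iob T X b ⟶ iob T X (b + 1) := T.η.app ((it T b).obj X)

/-- The multiplication. -/
def mu (b : ℕ) : iob T X (b + 2) ⟶ iob T X (b + 1) := T.μ.app ((it T b).obj X)

variable {X} in
/-- The functor of the monad. -/
def tm {a b : ℕ} (f : iob T X a ⟶ iob T X b) : iob T X (a + 1) ⟶ iob T X (b + 1) := T.map f

theorem tm_comp {a b c : ℕ} (f : iob T X a ⟶ iob T X b) (g : iob T X b ⟶ iob T X c) :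
    tm T (f ≫ g) = tm T f ≫ tm T g := T.map_comp f g

theorem tm_id (a : ℕ) : tm T (𝟙 (iob T X a)) = 𝟙 (iob T X (a + 1)) := T.map_id _

theorem et_nat {a b : ℕ} (f : iob T X a ⟶ iob T X b) : et T X a ≫ tm T f = f ≫ et T X b :=
  (T.η.naturality f).symm

theorem mu_nat {a b : ℕ} (f : iob T X a ⟶ iob T X b) :
    mu T X a ≫ tm T f = tm T (tm T f) ≫ mu T X b :=
  (T.μ.naturality f).symm

theorem et_mu (b : ℕ) : et T X (b + 1) ≫ mu T X b = 𝟙 _ := T.left_unit _

theorem tet_mu (b : ℕ) : tm T (et T X b) ≫ mu T X b = 𝟙 _ := T.right_unit _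

theorem mu_mu (b : ℕ) : tm T (mu T X b) ≫ mu T X b = mu T X (b + 1) ≫ mu T X b := T.assoc _

/-- The structure maps `T^a X ⟶ T^b X` for monotone maps `Fin a → Fin b`. -/
def Fm : ∀ (b a : ℕ), (Fin a →o Fin b) → (iob T X a ⟶ iob T X b)
  | 0, 0, _ => 𝟙 _
  | 0, _ + 1, θ => (θ 0).elim0
  | b + 1, 0, _ => Fm b 0 (emp b) ≫ et T X b
  | b + 1, a + 1, θ =>
    if h : θ 0 = 0 then tm T (Fm (b + 1) a (scc θ)) ≫ mu T X b
    else Fm b (a + 1) (prd θ h) ≫ et T X b

theorem Fm_zero (b : ℕ) (θ : Fin 0 →o Fin (b + 1)) :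
    Fm T X (b + 1) 0 θ = Fm T X b 0 (emp b) ≫ et T X b := by
  conv_lhs => unfold Fm

theorem Fm_of_eq (b a : ℕ) (θ : Fin (a + 1) →o Fin (b + 1)) (h : θ 0 = 0) :
    Fm T X (b + 1) (a + 1) θ = tm T (Fm T X (b + 1) a (scc θ)) ≫ mu T X b := by
  conv_lhs => unfold Fm
  exact dif_pos h

theorem Fm_of_ne (b a : ℕ) (θ : Fin (a + 1) →o Fin (b + 1)) (h : θ 0 ≠ 0) :
    Fm T X (b + 1) (a + 1) θ = Fm T X b (a + 1) (prd θ h) ≫ et T X b := by
  conv_lhs => unfold Fm
  exact dif_neg h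

/-- Case `0 ∉ im θ`, uniformly in `a`: if `θ = succ ∘ θ'` then `F θ = F θ' ≫ η`. -/
theorem Fm_succ (b a : ℕ) (θ : Fin a →o Fin (b + 1)) (θ' : Fin a →o Fin b)
    (h : ∀ i, θ i = (θ' i).succ) :
    Fm T X (b + 1) a θ = Fm T X b a θ' ≫ et T X b := by
  cases a with
  | zero =>
    rw [Fm_zero]
    congr 2
    ext i
    exact i.elim0
  | succ a =>
    have h0 : θ 0 ≠ 0 := by rw [h]; exact Fin.succ_ne_zero _
    rw [Fm_of_ne T X b a θ h0]
    congr 2
    ext i
    show ((θ i).pred (fun hi => h0 (le_antisymm (hi ▸ θ.monotone (Fin.zero_le i))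
      (Fin.zero_le _))) : ℕ) = _
    simp [h]

/-- Case `θ 0 = 0`: `F θ` is a map of algebras. -/
theorem mu_Fm (c b : ℕ) (φ : Fin (b + 1) →o Fin (c + 1)) (hφ : φ 0 = 0) :
    mu T X b ≫ Fm T X (c + 1) (b + 1) φ = tm T (Fm T X (c + 1) (b + 1) φ) ≫ mu T X c := by
  rw [Fm_of_eq T X c b φ hφ, ← Category.assoc, mu_nat, Category.assoc, ← mu_mu,
    ← Category.assoc, ← tm_comp]

theorem et_Fm (c b : ℕ) (φ : Fin (b + 1) →o Fin (c + 1)) (hφ : φ 0 = 0) :
    et T X b ≫ Fm T X (c + 1) (b + 1) φ = Fm T X (c + 1) b (scc φ) := by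
  rw [Fm_of_eq T X c b φ hφ, ← Category.assoc, et_nat, Category.assoc, et_mu, Category.comp_id]

theorem Fm_comp : ∀ (c b a : ℕ) (θ : Fin a →o Fin b) (φ : Fin b →o Fin c),
    Fm T X b a θ ≫ Fm T X c b φ = Fm T X c a (φ.comp θ)
  | c, 0, 0, θ, φ => by
    have h : Fm T X 0 0 θ = 𝟙 _ := by unfold Fm; rfl
    have h2 : φ.comp θ = φ := by ext i; exact i.elim0
    rw [h, h2, Category.id_comp]
  | _, 0, _ + 1, θ, _ => (θ 0).elim0
  | 0, b + 1, _, _, φ => (φ 0).elim0
  | c + 1, b + 1, 0, θ, φ => by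
    by_cases hφ : φ 0 = 0
    · rw [Fm_zero, Category.assoc, et_Fm T X c b φ hφ, Fm_comp (c + 1) b 0]
      congr 1
      ext i
      exact i.elim0
    · rw [Fm_of_ne T X c b φ hφ, ← Category.assoc, Fm_comp c (b + 1) 0, Fm_zero T X c]
      congr 2
      ext i
      exact i.elim0
  | c + 1, b + 1, a + 1, θ, φ => by
    by_cases hθ : θ 0 = 0
    · by_cases hφ : φ 0 = 0
      · have h0 : (φ.comp θ) 0 = 0 := by
          show φ (θ 0) = 0
          rw [hθ, hφ]
        rw [Fm_of_eq T X b a θ hθ, Fm_of_eq T X c a (φ.comp θ) h0, Category.assoc,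
          mu_Fm T X c b φ hφ, ← Category.assoc, ← tm_comp, Fm_comp (c + 1) (b + 1) a]
        rfl
      · have h0 : (φ.comp θ) 0 ≠ 0 := by
          show φ (θ 0) ≠ 0
          rw [hθ]
          exact hφ
        rw [Fm_of_ne T X c b φ hφ, Fm_of_ne T X c a (φ.comp θ) h0, ← Category.assoc,
          Fm_comp c (b + 1) (a + 1)]
        rfl
    · have h5 : (scc φ).comp (prd θ hθ) = φ.comp θ := by
        ext i
        exact congrArg (fun x => ((φ x : Fin (c + 1)) : ℕ)) (Fin.succ_pred (θ i)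
          (fun hi => hθ (le_antisymm (hi ▸ θ.monotone (Fin.zero_le _)) (Fin.zero_le _))))
      by_cases hφ : φ 0 = 0
      · rw [Fm_of_ne T X b a θ hθ, Category.assoc, et_Fm T X c b φ hφ,
          Fm_comp (c + 1) b (a + 1), h5]
      · rw [Fm_of_ne T X c b φ hφ, ← Category.assoc, Fm_comp c (b + 1) (a + 1)]
        symm
        apply Fm_succ
        intro i
        exact (Fin.succ_pred _ (fun hi => hφ (le_antisymm
          (hi ▸ φ.monotone (Fin.zero_le _)) (Fin.zero_le _)))).symm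
  termination_by c b a => a + b + c

theorem Fm_id : ∀ (a : ℕ), Fm T X a a OrderHom.id = 𝟙 _
  | 0 => by unfold Fm; rfl
  | a + 1 => by
    rw [Fm_of_eq T X a a _ rfl]
    have h1 : Fm T X (a + 1) a (scc OrderHom.id) = Fm T X a a OrderHom.id ≫ et T X a := by
      apply Fm_succ
      intro i
      rfl
    rw [h1, Fm_id a, Category.id_comp, tet_mu]

end

/-- Naturality in the object. -/
theorem Fm_nat {X Y : C} (f : X ⟶ Y) : ∀ (b a : ℕ) (θ : Fin a →o Fin b),
    (it T a).map f ≫ Fm T Y b a θ = Fm T X b a θ ≫ (it T b).map f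
  | 0, 0, _ => by unfold Fm; rw [Category.comp_id, Category.id_comp]
  | 0, _ + 1, θ => (θ 0).elim0
  | b + 1, 0, θ => by
    rw [Fm_zero, Fm_zero, ← Category.assoc, Fm_nat f b 0, Category.assoc, Category.assoc]
    congr 1
    exact T.η.naturality ((it T b).map f)
  | b + 1, a + 1, θ => by
    by_cases h : θ 0 = 0
    · rw [Fm_of_eq T _ b a θ h, Fm_of_eq T _ b a θ h, ← Category.assoc]
      have h1 : (it T (a + 1)).map f ≫ tm T (Fm T Y (b + 1) a (scc θ)) =
          tm T (Fm T X (b + 1) a (scc θ)) ≫ (it T (b + 2)).map f := by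
        have h2 := Fm_nat f (b + 1) a (scc θ)
        have h3 := congrArg T.map h2
        rw [T.map_comp, T.map_comp] at h3
        exact h3
      have h4 : (it T (b + 2)).map f ≫ mu T Y b = mu T X b ≫ (it T (b + 1)).map f :=
        T.μ.naturality ((it T b).map f)
      rw [h1, Category.assoc, h4, Category.assoc]
    · rw [Fm_of_ne T _ b a θ h, Fm_of_ne T _ b a θ h, ← Category.assoc, Fm_nat f b (a + 1),
        Category.assoc, Category.assoc]
      congr 1
      exact T.η.naturality ((it T b).map f)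
  termination_by b a => a + b

/-- The cosimplicial resolution functor `[s] ↦ T^(s+1)`. -/
def reso : SimplexCategory ⥤ (C ⥤ C) where
  obj s := it T (s.len + 1)
  map θ := { app := fun X => Fm T X _ _ θ.toOrderHom
             naturality := fun _ _ f => Fm_nat T f _ _ _ }
  map_id s := by
    ext X
    exact Fm_id T X (s.len + 1)
  map_comp θ φ := by
    ext X
    exact (Fm_comp T X _ _ _ θ.toOrderHom φ.toOrderHom).symm

end Pool.Agent.SH.TT
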