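import Mathlib
import Pool.Agent.SH.DefsV
import Pool.Agent.SH.Reso

/-!
# MP_2d0b73_an, block III-T: the cosimplicial resolution `X^s = R^(s+1)(Δ^m/∂Δ^m)`

`R A` is the `F_2`-vector space of finitely supported functions on the pointed set `A` with sum
zero (the free vector space on `A` modulo the base point, `a ↦ [a] + [*]`).
-/

open CategoryTheory Opposite

noncomputable section

namespace Pool.Agent.SH.TT

/-- The augmentation of `F_2[A]`. -/
def aug (A : Type) : (A →₀ ZMod 2) →ₗ[ZMod 2] ZMod 2 :=
  Finsupp.linearCombination (ZMod 2) (fun _ : A => (1 : ZMod 2))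

/-- The augmentation kernel. -/
abbrev AugK (A : Type) : Submodule (ZMod 2) (A →₀ ZMod 2) := LinearMap.ker (aug A)

theorem aug_mapDomain {A B : Type} (f : A → B) (z : A →₀ ZMod 2) :
    aug B (z.mapDomain f) = aug A z := by
  simp only [aug]
  rw [Finsupp.linearCombination_mapDomain]
  rfl

/-- Functoriality of the augmentation kernel. -/
def augMap {A B : Type} (f : A → B) : AugK A →ₗ[ZMod 2] AugK B :=
  (Finsupp.lmapDomain (ZMod 2) (ZMod 2) f).restrict (fun z hz => by
    rw [LinearMap.mem_ker] at hz ⊢
    exact (aug_mapDomain f z).trans hz)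

theorem augMap_coe {A B : Type} (f : A → B) (z : AugK A) :
    ((augMap f z : AugK B) : B →₀ ZMod 2) = (z : A →₀ ZMod 2).mapDomain f := rfl

/-- The reduced free vector space functor. -/
def LinP : Pointed.{0} ⥤ ModuleCat.{0} (ZMod 2) where
  obj A := ModuleCat.of (ZMod 2) (AugK A.X)
  map f := ModuleCat.ofHom (augMap f.toFun)
  map_id A := by
    ext z
    simp [augMap_coe]
  map_comp f g := by
    ext z
    simp [augMap_coe, Finsupp.mapDomain_comp]

/-- The underlying pointed set of a vector space. -/
def UP : ModuleCat.{0} (ZMod 2) ⥤ Pointed.{0} where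
  obj V := ⟨V, 0⟩
  map f := ⟨f.hom, map_zero f.hom⟩

/-- The element `[a] + [*]`. -/
def brk {A : Type} (p a : A) : AugK A :=
  ⟨Finsupp.single a 1 + Finsupp.single p 1, by
    rw [LinearMap.mem_ker, map_add]
    simp only [aug, Finsupp.linearCombination_single]
    decide⟩

/-- The linear extension of a pointed map. -/
def lext {A : Type} {V : ModuleCat.{0} (ZMod 2)} (f : A → V) : AugK A →ₗ[ZMod 2] V :=
  (Finsupp.linearCombination (ZMod 2) f).comp (AugK A).subtype

theorem lext_brk {A : Type} {V : ModuleCat.{0} (ZMod 2)} (f : A → V) (p a : A) (h : f p = 0) :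
    lext f (brk p a) = f a := by
  simp [lext, brk, h]

theorem linComb_brk {A : Type} (p : A) (z : AugK A) :
    Finsupp.linearCombination (ZMod 2) (brk p) (z : A →₀ ZMod 2) = z := by
  apply Subtype.ext
  have h1 : ((Finsupp.linearCombination (ZMod 2) (brk p) (z : A →₀ ZMod 2) : AugK A) :
      A →₀ ZMod 2) = (AugK A).subtype (Finsupp.linearCombination (ZMod 2) (brk p) z.1) := rfl
  rw [h1, Finsupp.apply_linearCombination]
  have h2 : (⇑(AugK A).subtype ∘ brk p) = fun a => Finsupp.single a (1 : ZMod 2) +
      Finsupp.single p (1 : ZMod 2) := by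
    funext a
    rfl
  rw [h2]
  have h3 : (aug A) z.1 = 0 := LinearMap.mem_ker.1 z.2
  simp only [Finsupp.linearCombination_apply, aug] at h3 ⊢
  simp only [smul_add, Finsupp.smul_single, smul_eq_mul, mul_one] at h3 ⊢
  rw [Finsupp.sum_add]
  have h4 : (z.1.sum fun a b => Finsupp.single a b) = z.1 := Finsupp.sum_single z.1
  have h5 : (z.1.sum fun _ b => Finsupp.single p b) = Finsupp.single p (z.1.sum fun _ b => b) := by
    simp only [Finsupp.sum]
    rw [← Finsupp.single_finsetSum]
  rw [h4, h5, h3]
  simp

theorem brk_self {A : Type} (p : A) : brk p p = 0 := by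
  apply Subtype.ext
  show Finsupp.single p (1 : ZMod 2) + Finsupp.single p 1 = 0
  rw [← Finsupp.single_add]
  have : (1 : ZMod 2) + 1 = 0 := by decide
  rw [this, Finsupp.single_zero]

theorem lext_comp_brk {A : Type} {V : ModuleCat.{0} (ZMod 2)} (p : A)
    (g : AugK A →ₗ[ZMod 2] V) : lext (V := V) (fun a => g (brk p a)) = g := by
  ext z
  have h := Finsupp.apply_linearCombination (ZMod 2) g (brk p) z.1
  have h2 := linComb_brk p z
  rw [h2] at h
  exact h.symm

theorem lext_augMap {A B : Type} {V : ModuleCat.{0} (ZMod 2)} (f : A → B) (g : B → V) :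
    lext (V := V) (g ∘ f) = (lext (V := V) g).comp (augMap f) := by
  ext z
  show Finsupp.linearCombination (ZMod 2) (g ∘ f) z.1 =
    Finsupp.linearCombination (ZMod 2) g (Finsupp.mapDomain f z.1)
  rw [Finsupp.linearCombination_mapDomain]

/-- The adjunction. -/
def adjP : LinP ⊣ UP := Adjunction.mkOfHomEquiv
  { homEquiv := fun A V =>
      { toFun := fun g => ⟨fun a => (g.hom : AugK A.X →ₗ[ZMod 2] V) (brk A.point a), by
          have h := brk_self A.point
          exact (congrArg (g.hom : AugK A.X →ₗ[ZMod 2] V) h).trans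
            (map_zero (g.hom : AugK A.X →ₗ[ZMod 2] V))⟩
        invFun := fun f => ModuleCat.ofHom (lext (V := V) f.toFun)
        left_inv := by
          intro g
          apply ModuleCat.hom_ext
          exact lext_comp_brk A.point (g.hom : AugK A.X →ₗ[ZMod 2] V)
        right_inv := by
          intro f
          apply Pointed.Hom.ext
          funext a
          exact lext_brk (V := V) f.toFun A.point a f.map_point }
    homEquiv_naturality_left_symm := by
      intro A B V f g
      apply ModuleCat.hom_ext
      exact lext_augMap (V := V) f.toFun g.toFun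
    homEquiv_naturality_right := by
      intro A V W g h
      rfl }

/-- The monad `R` on pointed sets. -/
def RM : CategoryTheory.Monad Pointed.{0} := adjP.toMonad

open scoped Classical in
/-- The pointed simplicial set `Δ^m / ∂Δ^m`. -/
def Sph (m : ℕ) : Dop ⥤ Pointed.{0} where
  obj k := ⟨Option {t : bx m ⟶ k // ¬ Bdy t}, none⟩
  map {k l} α := ⟨fun x => x.bind (fun t =>
    if h : ¬ Bdy (t.1 ≫ α) then some ⟨t.1 ≫ α, h⟩ else none), rfl⟩
  map_id k := by
    apply Pointed.Hom.ext
    funext x
    cases x with
    | none => rfl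
    | some t =>
      have h : ¬ Bdy (t.1 ≫ 𝟙 k) := by rw [Category.comp_id]; exact t.2
      show (if h : ¬ Bdy (t.1 ≫ 𝟙 k) then
        some (⟨t.1 ≫ 𝟙 k, h⟩ : {t : bx m ⟶ k // ¬ Bdy t}) else none) = some t
      rw [dif_pos h]
      simp
  map_comp {k l r} α β := by
    apply Pointed.Hom.ext
    funext x
    cases x with
    | none => rfl
    | some t =>
      show (if h : ¬ Bdy (t.1 ≫ α ≫ β) then
        some (⟨t.1 ≫ α ≫ β, h⟩ : {t : bx m ⟶ r // ¬ Bdy t}) else none) =
        (if h : ¬ Bdy (t.1 ≫ α) then some (⟨t.1 ≫ α, h⟩ : {t : bx m ⟶ l // ¬ Bdy t})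
          else none).bind (fun t => if h : ¬ Bdy (t.1 ≫ β) then
            some (⟨t.1 ≫ β, h⟩ : {t : bx m ⟶ r // ¬ Bdy t}) else none)
      by_cases h1 : Bdy (t.1 ≫ α)
      · have h2 : Bdy (t.1 ≫ α ≫ β) := by
          intro hs
          apply h1
          have h3 : (t.1 ≫ α ≫ β).unop.toOrderHom =
              (t.1 ≫ α).unop.toOrderHom.comp β.unop.toOrderHom := by
            rw [← Category.assoc]
            rfl
          rw [h3] at hs
          intro y
          obtain ⟨x, hx⟩ := hs y
          exact ⟨_, hx⟩
        rw [dif_neg (not_not.2 h1), dif_neg (not_not.2 h2)]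
        rfl
      · rw [dif_pos h1]
        by_cases h2 : Bdy (t.1 ≫ α ≫ β)
        · rw [dif_neg (not_not.2 h2)]
          show none = dite _ _ _
          rw [dif_neg]
          rw [not_not, Category.assoc]
          exact h2
        · rw [dif_pos h2]
          show _ = dite _ _ _
          have h3 : ¬ Bdy ((t.1 ≫ α) ≫ β) := by rw [Category.assoc]; exact h2
          rw [dif_pos h3]
          simp [Category.assoc]

/-- The simplicial vector space `V^s = R^(s+1) S`. -/
def XV (m s : ℕ) : SV := (Sph m ⋙ it RM s) ⋙ LinP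

/-- The cosimplicial space `R^(•+1) S` (cofaces). -/
def XD (m : ℕ) : CoV where
  V s := XV m s
  cof s i k := (((reso RM).map (SimplexCategory.δ i)).app ((Sph m).obj k)).toFun
  cof_nat s i k l α x := by
    have h := ((reso RM).map (SimplexCategory.δ i)).naturality ((Sph m).map α)
    exact congrFun (congrArg Pointed.Hom.toFun h) x
  cof_zero s i k := (((reso RM).map (SimplexCategory.δ i)).app ((Sph m).obj k)).map_point
  cof_cof s i j h k x := by
    have h1 := SimplexCategory.δ_comp_δ h
    have h2 := congrArg (fun f => ((reso RM).map f).app ((Sph m).obj k)) h1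
    simp only [Functor.map_comp, NatTrans.comp_app] at h2
    exact congrFun (congrArg Pointed.Hom.toFun h2) x

end Pool.Agent.SH.TT
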