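import Mathlib

/-!
# MP_2d0b73_an: prism identity and homotopy invariance of the degree (mod 2)
-/


open CategoryTheory Simplicial Opposite SimplicialObject MonoidalCategory

namespace Pool.Agent.SH.Ess

/-- linear functional on the free module -/
noncomputable def lin {S : Type} (b : S → ZMod 2) :
    (ModuleCat.free (ZMod 2)).obj S ⟶ ModuleCat.of (ZMod 2) (ZMod 2) :=
  ModuleCat.ofHom (Finsupp.linearCombination (ZMod 2) b)

theorem lin_single {S : Type} (b : S → ZMod 2) (s : S) :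
    (lin b).hom (Finsupp.single s 1) = b s := by
  change (Finsupp.linearCombination (ZMod 2) b) (Finsupp.single s 1) = b s
  rw [Finsupp.linearCombination_single, one_smul]

theorem free_map {S S' : Type} (f : S ⟶ S') (s : S) :
    ((ModuleCat.free (ZMod 2)).map f).hom (Finsupp.single s (1 : ZMod 2)) =
      Finsupp.single (f s) 1 := by
  exact Finsupp.mapDomain_single

/-- evaluation -/
noncomputable def ev {M N : ModuleCat.{0} (ZMod 2)} (a : M)
    (l : N ⟶ ModuleCat.of (ZMod 2) (ZMod 2)) : (M ⟶ N) →+ ZMod 2 where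
  toFun φ := l.hom (φ.hom a)
  map_zero' := l.hom.map_zero
  map_add' φ ψ := l.hom.map_add (φ.hom _) (ψ.hom _)

theorem ev_smul {M N : ModuleCat.{0} (ZMod 2)} (a : M)
    (l : N ⟶ ModuleCat.of (ZMod 2) (ZMod 2)) (k : ℕ)
    (φ : M ⟶ N) :
    ev a l (((-1 : ℤ) ^ k) • φ) = ev a l φ := by
  rw [map_zsmul]
  rcases neg_one_pow_eq_or ℤ k with h | h
  · rw [h, one_smul]
  · rw [h, neg_smul, one_smul, ZMod.neg_eq_self_mod_two]

theorem ev_map {S S' : Type} (b : S' → ZMod 2) (s : S) (f : S ⟶ S') :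
    ev (M := (ModuleCat.free (ZMod 2)).obj S) (Finsupp.single s (1 : ZMod 2)) (lin b)
      ((ModuleCat.free (ZMod 2)).map f) = b (f s) := by
  change (lin b).hom (((ModuleCat.free (ZMod 2)).map f).hom (Finsupp.single s (1 : ZMod 2))) = _
  rw [free_map, lin_single]

theorem prism {X Y : SSet.{0}} {f g : X ⟶ Y} (H : SimplicialObject.Homotopy f g) (n : ℕ)
    (A : X _⦋n + 1⦌) (b : Y _⦋n + 1⦌ → ZMod 2) :
    ∑ k : Fin (n + 2), ∑ j : Fin (n + 3), b (Y.δ j (H.h k A)) =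
      b (f.app _ A) + b (g.app _ A) +
        ∑ i : Fin (n + 2), ∑ k : Fin (n + 1), b (H.h k (X.δ i A)) := by
  let F : Type ⥤ ModuleCat.{0} (ZMod 2) := ModuleCat.free (ZMod 2)
  let H' := H.whiskerRight F
  have h := (SimplicialObject.Homotopy.toChainHomotopy H').comm (n + 1)
  rw [dNext_eq (i' := n) (w := by simp), prevD_eq (j' := n + 2) (w := by simp)] at h
  let e : ((((AlgebraicTopology.alternatingFaceMapComplex (ModuleCat.{0} (ZMod 2))).obj
      (((SimplicialObject.whiskering _ _).obj F).obj X))).X (n + 1) ⟶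
      (((AlgebraicTopology.alternatingFaceMapComplex (ModuleCat.{0} (ZMod 2))).obj
      (((SimplicialObject.whiskering _ _).obj F).obj Y))).X (n + 1)) →+ ZMod 2 :=
    ev (M := F.obj (X _⦋n + 1⦌)) (N := F.obj (Y _⦋n + 1⦌))
      (Finsupp.single A (1 : ZMod 2)) (lin b)
  have esm : ∀ (k : ℕ) φ, e (((-1 : ℤ) ^ k) • φ) = e φ := fun k φ => ev_smul _ _ k φ
  have h2 := congrArg e h
  rw [map_add, map_add] at h2
  have e1 : e (((AlgebraicTopology.alternatingFaceMapComplex (ModuleCat.{0} (ZMod 2))).map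
      (((SimplicialObject.whiskering _ _).obj F).map f)).f (n + 1)) = b (f.app _ A) :=
    ev_map b A (f.app _)
  have e2 : e (((AlgebraicTopology.alternatingFaceMapComplex (ModuleCat.{0} (ZMod 2))).map
      (((SimplicialObject.whiskering _ _).obj F).map g)).f (n + 1)) = b (g.app _ A) :=
    ev_map b A (g.app _)
  have e3 : e ((((AlgebraicTopology.alternatingFaceMapComplex (ModuleCat.{0} (ZMod 2))).obj
      (((SimplicialObject.whiskering _ _).obj F).obj X)).d (n + 1) n) ≫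
      Homotopy.ToChainHomotopy.hom H' n (n + 1)) =
      ∑ i : Fin (n + 2), ∑ k : Fin (n + 1), b (H.h k (X.δ i A)) := by
    rw [Homotopy.ToChainHomotopy.hom_eq, AlgebraicTopology.alternatingFaceMapComplex_obj_d]
    rw [AlgebraicTopology.AlternatingFaceMapComplex.objD, Preadditive.sum_comp, map_sum]
    refine Finset.sum_congr rfl (fun i _ => ?_)
    rw [Preadditive.zsmul_comp, esm, Preadditive.comp_neg, map_neg, ZMod.neg_eq_self_mod_two,
      Preadditive.comp_sum, map_sum]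
    refine Finset.sum_congr rfl (fun k _ => ?_)
    rw [Preadditive.comp_zsmul, esm]
    exact (congrArg e (F.map_comp (X.δ i) (H.h k)).symm).trans (ev_map b A (X.δ i ≫ H.h k))
  have e4 : e ((Homotopy.ToChainHomotopy.hom H' (n + 1) (n + 2)) ≫
      (((AlgebraicTopology.alternatingFaceMapComplex (ModuleCat.{0} (ZMod 2))).obj
      (((SimplicialObject.whiskering _ _).obj F).obj Y)).d (n + 2) (n + 1))) =
      ∑ k : Fin (n + 2), ∑ j : Fin (n + 3), b (Y.δ j (H.h k A)) := by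
    rw [Homotopy.ToChainHomotopy.hom_eq, AlgebraicTopology.alternatingFaceMapComplex_obj_d]
    rw [Preadditive.neg_comp, map_neg, ZMod.neg_eq_self_mod_two, Preadditive.sum_comp, map_sum]
    refine Finset.sum_congr rfl (fun k _ => ?_)
    rw [Preadditive.zsmul_comp, esm, AlgebraicTopology.AlternatingFaceMapComplex.objD,
      Preadditive.comp_sum, map_sum]
    refine Finset.sum_congr rfl (fun j _ => ?_)
    rw [Preadditive.comp_zsmul, esm]
    exact (congrArg e (F.map_comp (H.h k) (Y.δ j)).symm).trans (ev_map b A (H.h k ≫ Y.δ j))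
  have h3 : b (f.app _ A) = (∑ i : Fin (n + 2), ∑ k : Fin (n + 1), b (H.h k (X.δ i A)) +
      ∑ k : Fin (n + 2), ∑ j : Fin (n + 3), b (Y.δ j (H.h k A))) + b (g.app _ A) := by
    rw [← e1, ← e2, ← e3, ← e4]
    exact h2
  rw [h3]
  clear h3 h2 e1 e2 e3 e4
  generalize (∑ k : Fin (n + 2), ∑ j : Fin (n + 3), b (Y.δ j (H.h k A))) = x
  generalize (∑ i : Fin (n + 2), ∑ k : Fin (n + 1), b (H.h k (X.δ i A))) = y
  generalize b (g.app _ A) = z
  revert x y z
  decide

/-- the prism homotopy -/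
noncomputable def prH (K : SSet.{0}) :
    SimplicialObject.Homotopy (SSet.ι₀ : K ⟶ K ⊗ Δ[1]) SSet.ι₁ :=
  SSet.Homotopy.toSimplicialObjectHomotopy
    ({ h := 𝟙 _
       h₀ := rfl
       h₁ := rfl
       rel := by
        ext n x <;> exact x.1.2.elim } : SSet.Homotopy (SSet.ι₀ : K ⟶ K ⊗ Δ[1]) SSet.ι₁)

theorem sum_invol {I : Type} [Fintype I] (F : I → ZMod 2) (τ : I → I) (h1 : ∀ i, τ (τ i) = i)
    (h2 : ∀ i, τ i ≠ i) (h3 : ∀ i, F (τ i) = F i) : ∑ i, F i = 0 := by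
  refine Finset.sum_involution (fun i _ => τ i) ?_ ?_ ?_ ?_
  · intro i _
    rw [h3]
    exact CharTwo.add_self_eq_zero _
  · intro i _ _
    exact h2 i
  · intro i _
    exact Finset.mem_univ _
  · intro i _
    exact h1 i

/-- homotopy invariance of the degree -/
theorem deg_inv {K X : SSet.{0}} (n : ℕ) {I : Type} [Fintype I] (A : I → K _⦋n + 1⦌)
    (hA : ∀ i : Fin (n + 2), ∃ τ : I → I, (∀ π, τ (τ π) = π) ∧ (∀ π, τ π ≠ π) ∧
      ∀ π, K.δ i (A (τ π)) = K.δ i (A π))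
    (c : X _⦋n + 2⦌ → ZMod 2) (hc : ∀ y : X _⦋n + 3⦌, ∑ j : Fin (n + 4), c (X.δ j y) = 0)
    {G₀ G₁ : K ⊗ Δ[1] ⟶ X} (H : SimplicialObject.Homotopy G₀ G₁)
    (hend : ∀ (k : Fin (n + 2)) (x : K _⦋n + 1⦌),
      c (H.h k ((SSet.ι₀ : K ⟶ K ⊗ Δ[1]).app _ x)) = 0 ∧
      c (H.h k ((SSet.ι₁ : K ⟶ K ⊗ Δ[1]).app _ x)) = 0) :
    ∑ π, ∑ k : Fin (n + 2), c (G₀.app _ ((prH K).h k (A π))) =
      ∑ π, ∑ k : Fin (n + 2), c (G₁.app _ ((prH K).h k (A π))) := by
  let b : (K ⊗ Δ[1] : SSet.{0}) _⦋n + 1⦌ → ZMod 2 := fun v => ∑ k : Fin (n + 2), c (H.h k v)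
  have h1 : ∀ w : (K ⊗ Δ[1] : SSet.{0}) _⦋n + 2⦌, c (G₀.app _ w) + c (G₁.app _ w) =
      ∑ i : Fin (n + 3), b ((K ⊗ Δ[1] : SSet.{0}).δ i w) := by
    intro w
    have := prism H (n + 1) w c
    rw [Finset.sum_eq_zero (fun k _ => hc _)] at this
    have h5 : ∀ x y z : ZMod 2, 0 = x + y + z → x + y = z := by decide
    exact h5 _ _ _ this
  have h2 : ∀ π, ∑ k : Fin (n + 2), ∑ i : Fin (n + 3),
      b ((K ⊗ Δ[1] : SSet.{0}).δ i ((prH K).h k (A π))) =
      ∑ i : Fin (n + 2), ∑ k : Fin (n + 1), b ((prH K).h k (K.δ i (A π))) := by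
    intro π
    rw [prism (prH K) n (A π) b]
    have e0 : b ((SSet.ι₀ : K ⟶ K ⊗ Δ[1]).app _ (A π)) = 0 :=
      Finset.sum_eq_zero (fun k _ => (hend k (A π)).1)
    have e1 : b ((SSet.ι₁ : K ⟶ K ⊗ Δ[1]).app _ (A π)) = 0 :=
      Finset.sum_eq_zero (fun k _ => (hend k (A π)).2)
    rw [e0, e1, zero_add, zero_add]
  have h3 : ∑ π, ∑ i : Fin (n + 2), ∑ k : Fin (n + 1), b ((prH K).h k (K.δ i (A π))) = 0 := by
    rw [Finset.sum_comm]
    refine Finset.sum_eq_zero (fun i _ => ?_)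
    obtain ⟨τ, t1, t2, t3⟩ := hA i
    exact sum_invol (fun π => ∑ k : Fin (n + 1), b ((prH K).h k (K.δ i (A π)))) τ t1 t2
      (fun π => by simp only [t3])
  have h4 : ∑ π, ∑ k : Fin (n + 2), (c (G₀.app _ ((prH K).h k (A π))) +
      c (G₁.app _ ((prH K).h k (A π)))) = 0 := by
    rw [← h3]
    refine Finset.sum_congr rfl (fun π _ => ?_)
    rw [← h2 π]
    exact Finset.sum_congr rfl (fun k _ => h1 _)
  simp only [Finset.sum_add_distrib] at h4
  exact CharTwo.add_eq_zero.1 h4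

end Pool.Agent.SH.Ess
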