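import Mathlib
import Pool.Agent.SH.DefsTE
import Pool.Agent.SH.DefsT
import Pool.Agent.SH.DefsI
import Pool.Agent.SH.DefsV
import Pool.Agent.SH.DefsX

/-!
# MP_2d0b73_an, block III-T (TT): statements of the modules
-/

open CategoryTheory Simplicial SSet Opposite MonoidalCategory

noncomputable section

namespace Pool.Agent.SH.TT

/-! ### Inputs from other blocks -/

/-- Pushout products of `F_2`-homology isomorphisms (helper26: `WC_PP_Stmt` for `F2Iso`). -/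
def Stmt_PP : Prop :=
  ∀ (X Y : SSet.{0}) (A : X.Subcomplex) (B : Y.Subcomplex),
    F2Iso A.ι → F2Iso (A.unionProd B).ι

/-- Horn inclusions are `F_2`-homology isomorphisms (helper26: `WC_HORN_Stmt`). -/
def Stmt_HORN : Prop :=
  ∀ (n : ℕ) (i : Fin (n + 2)), F2Iso (Λ[n + 1, i] : (Δ[n + 1] : SSet.{0}).Subcomplex).ι

/-- (SV1) extension of maps into simplicial vector spaces over `F_2`-homology isomorphisms
(helper26). -/
def Stmt_SV1 : Prop :=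
  ∀ (A B : SSet.{0}) (i : A ⟶ B), Mono i → F2Iso i → ∀ (V : SV) (u : A ⟶ US V),
    ∃ v : B ⟶ US V, i ≫ v = u

/-! ### Elementary modules -/

/-- TT_REP: maps `Z ⟶ Tot D` are families, maps `Z ⟶ Om Y b` are families. -/
def Stmt_REP : Prop :=
  (∀ (D : CoV) (Z : SSet.{0}) (F : Fam D Z), Fam.ofHom F.toHom = F) ∧
  (∀ (D : CoV) (Z : SSet.{0}) (φ : Z ⟶ Tot D), (Fam.ofHom φ).toHom = φ) ∧
  (∀ (Y : SSet.{0}) (b : Base Y) (Z : SSet.{0}) (F : FamL Y b Z), FamL.ofHom F.toHom = F) ∧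
  (∀ (Y : SSet.{0}) (b : Base Y) (Z : SSet.{0}) (φ : Z ⟶ Om Y b), (FamL.ofHom φ).toHom = φ)

/-- TT_SE: extension of partially natural functions. -/
def Stmt_SE : Prop :=
  Stmt_PP → Stmt_SV1 →
  ∀ (B L : SSet.{0}) (A : B.Subcomplex) (K : L.Subcomplex) (V : SV), F2Iso A.ι →
    ∀ u : ∀ k : Dop, B.obj k → L.obj k → V.obj k,
      (∀ {k l : Dop} (α : k ⟶ l) (b : B.obj k) (x : L.obj k), b ∈ A.obj k ∨ x ∈ K.obj k →
        u l (B.map α b) (L.map α x) = V.map α (u k b x)) →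
      ∃ w : ∀ k : Dop, B.obj k → L.obj k → V.obj k,
        (∀ {k l : Dop} (α : k ⟶ l) (b : B.obj k) (x : L.obj k),
          w l (B.map α b) (L.map α x) = V.map α (w k b x)) ∧
        ∀ (k : Dop) (b : B.obj k) (x : L.obj k), b ∈ A.obj k ∨ x ∈ K.obj k →
          w k b x = u k b x

/-- Extension property over `F_2`-homology isomorphisms. -/
def XP (Y : SSet.{0}) : Prop :=
  ∀ (B : SSet.{0}) (A : B.Subcomplex), F2Iso A.ι → ∀ u : (A : SSet.{0}) ⟶ Y,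
    ∃ v : B ⟶ Y, A.ι ≫ v = u

/-- TT_TOTX: `Tot D` has the extension property. -/
def Stmt_TOTX : Prop := Stmt_SE → Stmt_PP → Stmt_SV1 → ∀ D : CoV, XP (Tot D)

/-- TT_OMX: loop spaces inherit the extension property. -/
def Stmt_OMX : Prop := Stmt_PP → ∀ (Y : SSet.{0}) (b : Base Y), XP Y → XP (Om Y b)

/-- TT_XPM: the extension property for arbitrary monomorphisms. -/
def Stmt_XPM : Prop :=
  ∀ Y : SSet.{0}, XP Y → ∀ (A B : SSet.{0}) (i : A ⟶ B), Mono i → F2Iso i →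
    ∀ u : A ⟶ Y, ∃ v : B ⟶ Y, i ≫ v = u

/-- TT_TOTC: compactness of `Tot D` for levelwise finite `D`. -/
def Stmt_TOTC : Prop :=
  ∀ D : CoV, (∀ (s : ℕ) (k : Dop), Finite ((D.V s).obj k)) → TCompact (Tot D)

/-- TT_OMC: loop spaces inherit compactness. -/
def Stmt_OMC : Prop := ∀ (Y : SSet.{0}) (b : Base Y), TCompact Y → TCompact (Om Y b)

/-! ### Moore cycles, the cone lemma -/

/-- TT_MB: Moore cycles and boundaries: faces, first face, last face, sum of the faces. -/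
def Stmt_MB : Prop :=
  (∀ (V : SV) (z : V.obj (bx 0)), MCyc V 0 z) ∧
  (∀ (V : SV) (t : ℕ) (z : V.obj (bx (t + 1))),
    MCyc V (t + 1) z ↔ ∀ i : Fin (t + 2), V.map (dop i) z = 0) ∧
  (∀ (V : SV) (t : ℕ) (z : V.obj (bx t)), MCyc V t z →
    ((MBd V t z ↔ ∃ w : V.obj (bx (t + 1)), ∑ i : Fin (t + 2), V.map (dop i) w = z) ∧
    (MBd V t z ↔ ∃ w : V.obj (bx (t + 1)), V.map (dop (Fin.last (t + 1))) w = z ∧
      ∀ i : Fin (t + 1), V.map (dop i.castSucc) w = 0)))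

/-- TT_CONE: the cone lemma. -/
def Stmt_CONE : Prop :=
  Stmt_MB → ∀ D : CoV, HAdd D → ExC D 0 →
    ∀ f : ∀ s : ℕ, (D.V s).obj (bx s),
      (∀ (s : ℕ) (i : Fin (s + 2)), (D.V (s + 1)).map (dop i) (f (s + 1)) =
        D.cof s i (bx s) (f s)) →
      ∃ H : ∀ s : ℕ, (D.V s).obj (bx (s + 1)),
        (D.V 0).map (dop 0) (H 0) = 0 ∧ (D.V 0).map (dop 1) (H 0) = f 0 ∧
        ∀ s : ℕ, (∀ i : Fin (s + 2), (D.V (s + 1)).map (dop i.castSucc) (H (s + 1)) =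
            D.cof s i (bx (s + 1)) (H s)) ∧
          (D.V (s + 1)).map (dop (Fin.last (s + 2))) (H (s + 1)) = f (s + 1)

/-- TT_HADD: additivity from a loop coordinate. -/
def Stmt_HADD : Prop :=
  ∀ (D : CoV) (n : ℕ), 1 ≤ n → HAdd (D.mp (Δ[n] : SSet.{0}) ∂Δ[n])

/-- TT_CONP: transfer of exactness along an acyclic extension. -/
def Stmt_CONP : Prop :=
  Stmt_MB → ∀ (F E B : CoV) (τ : ℕ)
    (j : ∀ (s : ℕ) (k : Dop), (F.V s).obj k → (E.V s).obj k)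
    (p : ∀ (s : ℕ) (k : Dop), (E.V s).obj k → (B.V s).obj k),
    (∀ s k a b, j s k (a + b) = j s k a + j s k b) →
    (∀ s k a b, p s k (a + b) = p s k a + p s k b) →
    (∀ s k, Function.Injective (j s k)) →
    (∀ s k x, p s k x = 0 ↔ ∃ y, j s k y = x) →
    (∀ (s : ℕ) {k l : Dop} (α : k ⟶ l) (x : (F.V s).obj k),
      j s l ((F.V s).map α x) = (E.V s).map α (j s k x)) →
    (∀ (s : ℕ) {k l : Dop} (α : k ⟶ l) (x : (E.V s).obj k),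
      p s l ((E.V s).map α x) = (B.V s).map α (p s k x)) →
    (∀ (s : ℕ) (i : Fin (s + 2)) (k : Dop) (x : (F.V s).obj k),
      j (s + 1) k (F.cof s i k x) = E.cof s i k (j s k x)) →
    (∀ (s : ℕ) (i : Fin (s + 2)) (k : Dop) (x : (E.V s).obj k),
      p (s + 1) k (E.cof s i k x) = B.cof s i k (p s k x)) →
    (∀ (s t : ℕ) (z : (E.V s).obj (bx t)), MCyc (E.V s) t z → MBd (E.V s) t z) →
    (∀ (s t : ℕ) (x : (B.V s).obj (bx (t + 1))),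
      (∀ i : Fin (t + 1), (B.V s).map (dop i.succ) x = 0) →
      ∃ y : (E.V s).obj (bx (t + 1)), p s _ y = x ∧
        ∀ i : Fin (t + 1), (E.V s).map (dop i.succ) y = 0) →
    ExC B (τ + 1) → ExC F τ

/-- TT_TR: exactness for `Map(Δ^n, ∂Δ^n)`. -/
def Stmt_TR : Prop :=
  Stmt_MB → Stmt_CONP → Stmt_SE → Stmt_PP → Stmt_SV1 → Stmt_HORN →
    (∀ D : CoV, ExC D 1 → ExC (D.mp (Δ[0] : SSet.{0}) ∂Δ[0]) 1) ∧
    (∀ (D : CoV) (n : ℕ), ExC (D.mp (Δ[n] : SSet.{0}) ∂Δ[n]) 1 →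
      ExC (D.mp (Δ[n + 1] : SSet.{0}) ∂Δ[n + 1]) 0)

/-! ### Null homotopies -/

/-- Relative null homotopies of maps `(W, W₀) × (Δ^n, ∂Δ^n) → (Y, *)`. -/
def RelNull (Y : SSet.{0}) (b : Base Y) (W : SSet.{0}) (W₀ : W.Subcomplex) (n : ℕ) : Prop :=
  ∀ x : ∀ k : Dop, W.obj k → (Δ[n] : SSet.{0}).obj k → Y.obj k,
    (∀ {k l : Dop} (α : k ⟶ l) (c : W.obj k) (ρ : (Δ[n] : SSet.{0}).obj k),
      x l (W.map α c) ((Δ[n] : SSet.{0}).map α ρ) = Y.map α (x k c ρ)) →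
    (∀ (k : Dop) (c : W.obj k) (ρ : (Δ[n] : SSet.{0}).obj k),
      c ∈ W₀.obj k ∨ ρ ∈ (∂Δ[n] : (Δ[n] : SSet.{0}).Subcomplex).obj k → x k c ρ = b.pt k) →
    ∃ h : ∀ k : Dop, W.obj k → (Δ[n] : SSet.{0}).obj k → (bx 1 ⟶ k) → Y.obj k,
      (∀ {k l : Dop} (α : k ⟶ l) (c : W.obj k) (ρ : (Δ[n] : SSet.{0}).obj k) (e : bx 1 ⟶ k),
        h l (W.map α c) ((Δ[n] : SSet.{0}).map α ρ) (e ≫ α) = Y.map α (h k c ρ e)) ∧
      (∀ (k : Dop) (c : W.obj k) (ρ : (Δ[n] : SSet.{0}).obj k) (e : bx 1 ⟶ k),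
        c ∈ W₀.obj k ∨ ρ ∈ (∂Δ[n] : (Δ[n] : SSet.{0}).Subcomplex).obj k → h k c ρ e = b.pt k) ∧
      (∀ (k : Dop) (c : W.obj k) (ρ : (Δ[n] : SSet.{0}).obj k) (e : bx 1 ⟶ k),
        (∀ i, e.unop.toOrderHom i = 0) → h k c ρ e = x k c ρ) ∧
      (∀ (k : Dop) (c : W.obj k) (ρ : (Δ[n] : SSet.{0}).obj k) (e : bx 1 ⟶ k),
        (∀ i, e.unop.toOrderHom i = 1) → h k c ρ e = b.pt k)

/-- TT_NUL: the cone lemma applied to `Map(Δ^n, ∂Δ^n; Map(W, W₀; V))`. -/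
def Stmt_NUL : Prop :=
  Stmt_MB → Stmt_CONE → Stmt_HADD → Stmt_REP →
  (∀ (D : CoV) (n : ℕ), ExC (D.mp (Δ[n] : SSet.{0}) ∂Δ[n]) 1 →
      ExC (D.mp (Δ[n + 1] : SSet.{0}) ∂Δ[n + 1]) 0) →
  (∀ D : CoV, ExC D 1 → ExC (D.mp (Δ[0] : SSet.{0}) ∂Δ[0]) 1) →
  ∀ (D : CoV) (W : SSet.{0}) (W₀ : W.Subcomplex), ExC (D.mp W W₀) 1 →
    ∀ n : ℕ, 1 ≤ n → RelNull (Tot D) (Tot.base D) W W₀ n

/-- TT_OMW: `W` is acyclic for the loop space of `Y`. -/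
def Stmt_OMW : Prop :=
  Stmt_PP → Stmt_HORN → Stmt_REP → ∀ (Y : SSet.{0}) (b : Base Y), XP Y →
    ∀ (W : SSet.{0}) (w : W _⦋0⦌) (W₀ : W.Subcomplex),
      (∀ (k : Dop) (c : W.obj k), c ∈ W₀.obj k ↔
        c = W.map (SimplexCategory.const k.unop ⦋0⦌ 0).op w) →
      (∀ n : ℕ, 1 ≤ n → RelNull Y b W W₀ n) →
      REXTB (Om Y b) (vert w)

/-! ### The resolution of the sphere -/

/-- TT_FIN: the levels are finite. -/
def Stmt_FIN : Prop := ∀ (m s : ℕ) (k : Dop), Finite (((XD m).V s).obj k)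

/-- Underlying simplicial set of `Sph m`. -/
def SphS (m : ℕ) : SSet.{0} := Sph m ⋙ forget Pointed.{0}

/-- TT_COA: the coaugmentation `S → Tot`. -/
def Stmt_COA : Prop :=
  ∀ m : ℕ, ∃ F : Fam (XD m) (SphS m),
    (∀ (k : Dop) (x : (SphS m).obj k) (t : bx 0 ⟶ k), F.f 0 k x t = brk (none : ((Sph m).obj k).X) x) ∧
    (∀ (s : ℕ) (k : Dop) (t : bx s ⟶ k), F.f s k (none : ((Sph m).obj k).X) t = 0)

/-- TT_ESS (helper26): an essential map. -/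
def Stmt_ESS : Prop :=
  ∀ M : ℕ, 1 ≤ M → ∃ e : NP (P0 M) ⟶ Target (XD (M + 1)), ¬ Null e

/-- The input from algebra. -/
def Stmt_EX : Prop := ∀ m : ℕ, 2 ≤ m → ExC ((XD m).mp BZ BZ.b0) 1

/-- TT_FINAL: what III-N and II need. -/
def Stmt_TTF : Prop :=
  Stmt_EX → ∀ M : ℕ, 1 ≤ M →
    SSet.KanComplex (Target (XD (M + 1))) ∧ TCompact (Target (XD (M + 1))) ∧
    (∀ (X Y : SSet.{0}) (f : X ⟶ Y), F2Iso f → W (Target (XD (M + 1))) f) ∧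
    REXTB (Target (XD (M + 1))) (vert BZ.v) ∧
    ∃ e : NP (P0 M) ⟶ Target (XD (M + 1)), ¬ Null e

end Pool.Agent.SH.TT
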