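import Mathlib
import Pool.Agent.SH.StmtsV
import Pool.Agent.SH.Prism

/-!
# MP_2d0b73_an, block III-T: essentiality of the fundamental map (Stmt_ESS)

`ess`: the map `N(P0 M) -> Target (XD (M+1))` given by the coaugmentation family on
`N(P0 M) x Delta[1]` (collapsed onto the simplicial sphere of dimension `M + 1`) is not homotopic
to a constant map. Proof: the prism formula of `Prism.lean` with the fundamental cochain of the
sphere, and the subdivided simplex (sum over the maximal chains of faces).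
-/

open CategoryTheory Simplicial SSet Opposite MonoidalCategory

noncomputable section

namespace Pool.Agent.SH.TT.Ess

open Pool.Agent.SH.TT

variable {M : ℕ}

/-- maximum of a face -/
def mx (a : P0 M) : ℕ := (a.s.max' a.ne : Fin (M + 2)).val

theorem mx_mem (a : P0 M) : ∃ h : mx a < M + 2, (⟨mx a, h⟩ : Fin (M + 2)) ∈ a.s := by
  exact ⟨(a.s.max' a.ne).isLt, Finset.max'_mem a.s a.ne⟩

theorem le_mx (a : P0 M) (v : Fin (M + 2)) (h : v ∈ a.s) : v.val ≤ mx a :=
  Fin.le_def.1 (Finset.le_max' _ _ h)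

theorem mx_mono {a b : P0 M} (h : a ≤ b) : mx a ≤ mx b := by
  obtain ⟨h1, h2⟩ := mx_mem a
  exact le_mx b _ (h h2)

theorem mx_lt (a : P0 M) : mx a < M + 2 := (mx_mem a).1

/-- the vertex value -/
def val1 (a : ℕ) (e : Fin 2) : ℕ := if a < M then a else M + e.val

theorem val1_lt (a : ℕ) (e : Fin 2) : val1 (M := M) a e < M + 2 := by
  unfold val1
  split_ifs with h
  · omega
  · have := e.isLt
    omega

theorem val1_mono {a b : ℕ} {e e' : Fin 2} (h : a ≤ b) (h' : e ≤ e') :
    val1 (M := M) a e ≤ val1 (M := M) b e' := by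
  unfold val1
  have := Fin.le_def.1 h'
  split_ifs <;> omega

/-- `ψ` as a morphism of the simplex category -/
def psi {k : Dop} (z : (NP (P0 M)).obj k) (e : bx 1 ⟶ k) : k.unop ⟶ ⦋M + 1⦌ :=
  SimplexCategory.mkHom
    { toFun := fun i => ⟨val1 (M := M) (mx (z.obj i)) (e.unop.toOrderHom i), val1_lt _ _⟩
      monotone' := by
        intro i j hij
        refine Fin.le_def.2 (val1_mono (mx_mono ?_) (e.unop.toOrderHom.monotone hij))
        exact leOfHom (z.map (homOfLE hij)) }

theorem psi_val {k : Dop} (z : (NP (P0 M)).obj k) (e : bx 1 ⟶ k) (i) :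
    ((psi z e).toOrderHom i).val = val1 (M := M) (mx (z.obj i)) (e.unop.toOrderHom i) := rfl

theorem psi_nat {k l : Dop} (α : k ⟶ l) (z : (NP (P0 M)).obj k) (e : bx 1 ⟶ k) :
    psi ((NP (P0 M)).map α z) (e ≫ α) = α.unop ≫ psi z e := by
  apply SimplexCategory.Hom.ext
  ext i
  rfl

/-- condition -/
def Cnd {k : Dop} (z : (NP (P0 M)).obj k) (e : bx 1 ⟶ k) : Prop :=
  (∀ i, mx (z.obj i) ≤ M) ∧ ¬ Bdy (psi z e).op

open scoped Classical in
/-- the collapse map -/
def G {k : Dop} (z : (NP (P0 M)).obj k) (e : bx 1 ⟶ k) : ((Sph (M + 1)).obj k).X :=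
  if h : Cnd z e then some ⟨(psi z e).op, h.2⟩ else none

theorem surj_of_comp {k l : Dop} (t : bx (M + 1) ⟶ k) (α : k ⟶ l) (h : ¬ Bdy (t ≫ α)) :
    ¬ Bdy t := by
  unfold Bdy at h ⊢
  rw [not_not] at h ⊢
  intro y
  obtain ⟨x, hx⟩ := h y
  exact ⟨_, hx⟩

theorem cnd_map {k l : Dop} (α : k ⟶ l) (z : (NP (P0 M)).obj k) (e : bx 1 ⟶ k) :
    Cnd ((NP (P0 M)).map α z) (e ≫ α) ↔ Cnd z e ∧ ¬ Bdy ((psi z e).op ≫ α) := by
  have hop : (psi ((NP (P0 M)).map α z) (e ≫ α)).op = (psi z e).op ≫ α := by
    rw [psi_nat]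
    rfl
  constructor
  · rintro ⟨h1, h2⟩
    rw [hop] at h2
    refine ⟨⟨?_, surj_of_comp _ _ h2⟩, h2⟩
    intro i0
    by_contra hlt
    have hlt2 : mx (z.obj i0) = M + 1 := by
      have := mx_lt (z.obj i0)
      omega
    have hin : ∀ v : Fin (M + 2), v ∈ (z.obj i0).s := by
      intro v
      -- find an index with maximum `v`
      by_cases hv : v.val = M + 1
      · obtain ⟨h3, h4⟩ := mx_mem (z.obj i0)
        have : v = ⟨mx (z.obj i0), h3⟩ := by
          apply Fin.ext
          rw [hv, ← hlt2]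
        rw [this]
        exact h4
      · have hv' : v.val < M + 1 := by
          have := v.isLt
          omega
        unfold Bdy at h2
        rw [not_not] at h2
        obtain ⟨i, hi⟩ := h2 v
        -- the value at `α i`
        have hi2 : val1 (M := M) (mx (z.obj (α.unop.toOrderHom i)))
            (e.unop.toOrderHom (α.unop.toOrderHom i)) = v.val := congrArg Fin.val hi
        have h5 : mx (z.obj (α.unop.toOrderHom i)) ≤ M := h1 i
        have h6 : mx (z.obj (α.unop.toOrderHom i)) = v.val := by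
          unfold val1 at hi2
          split_ifs at hi2 with h7
          · exact hi2
          · have := (e.unop.toOrderHom (α.unop.toOrderHom i)).isLt
            omega
        have h7 : z.obj (α.unop.toOrderHom i) ≤ z.obj i0 := by
          rcases le_total (α.unop.toOrderHom i) i0 with h | h
          · exact leOfHom (z.map (homOfLE h))
          · have := mx_mono (leOfHom (z.map (homOfLE h)))
            omega
        obtain ⟨h8, h9⟩ := mx_mem (z.obj (α.unop.toOrderHom i))
        have h10 : v = ⟨mx (z.obj (α.unop.toOrderHom i)), h8⟩ := by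
          apply Fin.ext
          exact h6.symm
        rw [h10]
        exact h7 h9
    exact (z.obj i0).ne_univ (Finset.eq_univ_of_forall hin)
  · rintro ⟨⟨h1, h2⟩, h3⟩
    refine ⟨fun i => h1 _, ?_⟩
    rw [hop]
    exact h3

theorem G_nat {k l : Dop} (α : k ⟶ l) (z : (NP (P0 M)).obj k) (e : bx 1 ⟶ k) :
    G ((NP (P0 M)).map α z) (e ≫ α) = ((Sph (M + 1)).map α).toFun (G z e) := by
  classical
  have hop : (psi ((NP (P0 M)).map α z) (e ≫ α)).op = (psi z e).op ≫ α := by
    rw [psi_nat]
    rfl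
  by_cases h : Cnd z e
  · by_cases h2 : Bdy ((psi z e).op ≫ α)
    · have h3 : ¬ Cnd ((NP (P0 M)).map α z) (e ≫ α) := by
        rw [cnd_map]
        exact fun h4 => h4.2 h2
      have e1 : G ((NP (P0 M)).map α z) (e ≫ α) = none := dif_neg h3
      have e2 : G z e = some ⟨(psi z e).op, h.2⟩ := dif_pos h
      rw [e1, e2]
      show none = dite _ _ _
      rw [dif_neg (not_not.2 h2)]
    · have h3 : Cnd ((NP (P0 M)).map α z) (e ≫ α) := by
        rw [cnd_map]
        exact ⟨h, h2⟩
      have e1 : G ((NP (P0 M)).map α z) (e ≫ α) = some ⟨_, h3.2⟩ := dif_pos h3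
      have e2 : G z e = some ⟨(psi z e).op, h.2⟩ := dif_pos h
      rw [e1, e2]
      show _ = dite _ _ _
      rw [dif_pos h2]
      congr 1
  · have h3 : ¬ Cnd ((NP (P0 M)).map α z) (e ≫ α) := by
      rw [cnd_map]
      exact fun h4 => h h4.1
    have e1 : G ((NP (P0 M)).map α z) (e ≫ α) = none := dif_neg h3
    have e2 : G z e = none := dif_neg h
    rw [e1, e2]
    rfl

theorem G_bd {k : Dop} (z : (NP (P0 M)).obj k) (e : bx 1 ⟶ k) (he : Bdy e) : G z e = none := by
  classical
  apply dif_neg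
  rintro ⟨h1, h2⟩
  unfold Bdy at h2
  rw [not_not] at h2
  apply he
  intro b
  have hb : b.val < 2 := b.isLt
  have hb2 : M + b.val < M + 1 + 1 := by omega
  obtain ⟨i, hi⟩ := h2 (⟨M + b.val, hb2⟩ : Fin (M + 1 + 1))
  have hi2 : val1 (M := M) (mx (z.obj i)) (e.unop.toOrderHom i) = M + b.val :=
    congrArg Fin.val hi
  refine ⟨i, ?_⟩
  unfold val1 at hi2
  split_ifs at hi2 with h7
  · omega
  · apply Fin.ext
    omega

/-! ### The map `e` -/

/-- the family defining `e` -/
def famE (F : Fam (XD (M + 1)) (SphS (M + 1)))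
    (hF : ∀ (s : ℕ) (k : Dop) (t : bx s ⟶ k), F.f s k (none : ((Sph (M + 1)).obj k).X) t = 0) :
    FamL (Tot (XD (M + 1))) (Tot.base _) (NP (P0 M)) where
  f k z e := F.toHom.app k (G z e)
  nat := by
    intro k l α z e
    rw [G_nat]
    exact NatTrans.naturality_apply F.toHom α (G z e)
  bd := by
    intro k z e he
    rw [G_bd z e he]
    apply TotS.ext
    funext s k' σ t
    exact hF s k' t

/-! ### Level zero of a map to the target -/

/-- the morphism `bx 1 ⟶ k` of a simplex of `Δ[1]` -/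
def sx {k : Dop} (x : (Δ[1] : SSet.{0}).obj k) : bx 1 ⟶ k := (stdSimplex.objEquiv x).op

theorem sx_map {k l : Dop} (α : k ⟶ l) (x : (Δ[1] : SSet.{0}).obj k) :
    sx ((Δ[1] : SSet.{0}).map α x) = sx x ≫ α := rfl

/-- the morphism `bx 0 ⟶ k` -/
def pt0 (k : Dop) : bx 0 ⟶ k := (SimplexCategory.const k.unop ⦋0⦌ 0).op

theorem pt0_comp {k l : Dop} (α : k ⟶ l) : pt0 k ≫ α = pt0 l := by
  apply Quiver.Hom.unop_inj
  apply SimplexCategory.Hom.ext
  ext i
  exact (Fin.val_eq_zero _).trans (Fin.val_eq_zero _).symm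

/-- value of a simplex of `Tot` at level zero -/
def t0 {D : CoV} {k : Dop} (x : (Tot D).obj k) : (D.V 0).obj k :=
  (x : TotS D k).f 0 k (𝟙 k) (pt0 k)

theorem t0_map {D : CoV} {k l : Dop} (α : k ⟶ l) (x : (Tot D).obj k) :
    t0 ((Tot D).map α x) = (D.V 0).map α (t0 x) := by
  have h := (x : TotS D k).nat 0 α (𝟙 k) (pt0 k)
  rw [Category.id_comp, pt0_comp] at h
  show (x : TotS D k).f 0 l (α ≫ 𝟙 l) (pt0 l) = _
  rw [Category.comp_id]
  exact h

/-- level zero -/
def lv0 {D : CoV} {Z : SSet.{0}} (φ : Z ⟶ Target D) : Z ⊗ Δ[1] ⟶ US (D.V 0) where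
  app k := TypeCat.ofHom (fun zx => t0 ((FamL.ofHom φ).f k zx.1 (sx zx.2)))
  naturality {k l} α := by
    ext zx
    show t0 ((FamL.ofHom φ).f l (Z.map α zx.1) (sx ((Δ[1] : SSet.{0}).map α zx.2))) =
      (D.V 0).map α (t0 ((FamL.ofHom φ).f k zx.1 (sx zx.2)))
    rw [sx_map, (FamL.ofHom φ).nat, t0_map]

theorem lv0_apply {D : CoV} {Z : SSet.{0}} (φ : Z ⟶ Target D) (k : Dop) (z : Z.obj k)
    (x : (Δ[1] : SSet.{0}).obj k) :
    (lv0 φ).app k (z, x) = t0 ((φ.app k z : OmS _ _ k).f k (𝟙 k) (sx x)) := rfl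

/-- the swap -/
def swp (Z : SSet.{0}) : (Z ⊗ Δ[1]) ⊗ Δ[1] ⟶ (Z ⊗ Δ[1]) ⊗ (Δ[1] : SSet.{0}) where
  app _ := TypeCat.ofHom (fun x => ((x.1.1, x.2), x.1.2))
  naturality _ _ _ := rfl

/-- homotopies at level zero -/
def htp0 {D : CoV} {Z : SSet.{0}} {φ ψ : Z ⟶ Target D} (H : SSet.Homotopy φ ψ) :
    SSet.Homotopy (lv0 φ) (lv0 ψ) where
  h := swp Z ≫ lv0 H.h
  h₀ := by
    ext k x
    have h := congrArg (fun f : Z ⟶ Target D => f.app k x.1) H.h₀
    show t0 (((H.h.app k ((SSet.ι₀ : Z ⟶ Z ⊗ Δ[1]).app k x.1)) : OmS _ _ k).f k (𝟙 k) (sx x.2)) =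
      t0 ((φ.app k x.1 : OmS _ _ k).f k (𝟙 k) (sx x.2))
    exact congrArg (fun y : (Target D).obj k => t0 ((y : OmS _ _ k).f k (𝟙 k) (sx x.2))) h
  h₁ := by
    ext k x
    have h := congrArg (fun f : Z ⟶ Target D => f.app k x.1) H.h₁
    exact congrArg (fun y : (Target D).obj k => t0 ((y : OmS _ _ k).f k (𝟙 k) (sx x.2))) h
  rel := by
    ext n x
    exact x.1.2.elim

theorem toS_h {X Y : SSet.{0}} {f g : X ⟶ Y} (H : SSet.Homotopy f g) {n : ℕ} (i : Fin (n + 1))
    (x : X _⦋n⦌) :
    H.toSimplicialObjectHomotopy.h i x =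
      H.h.app (bx (n + 1)) ((X.map (SimplexCategory.σ i).op x,
        stdSimplex.objMk₁ i.succ.castSucc) : (X ⊗ Δ[1] : SSet.{0}).obj (bx (n + 1))) := by
  have h1 : (SSet.yonedaEquiv.symm x).app (bx (n + 1))
      ((stdSimplex.objEquiv (m := op ⦋n + 1⦌)).symm (SimplexCategory.σ i)) =
      X.map (SimplexCategory.σ i).op x := by
    rw [SSet.yonedaEquiv_symm_app_objEquiv_symm]
  rw [← h1]
  rfl

theorem bdy_of_eq {k : Dop} (e : bx 1 ⟶ k) (b : Fin 2) (h : ∀ i, e.unop.toOrderHom i ≠ b) :
    Bdy e := by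
  intro hs
  obtain ⟨i, hi⟩ := hs b
  exact h i hi

theorem lv0_bdy {D : CoV} {Z : SSet.{0}} (φ : Z ⟶ Target D) (k : Dop) (z : Z.obj k)
    (x : (Δ[1] : SSet.{0}).obj k) (h : Bdy (sx x)) :
    (lv0 φ).app k (z, x) = (0 : (D.V 0).obj k) := by
  rw [lv0_apply, (φ.app k z : OmS _ _ k).bd k (𝟙 k) (sx x) h]
  rfl

theorem htp0_end {D : CoV} {Z : SSet.{0}} {φ ψ : Z ⟶ Target D} (H : SSet.Homotopy φ ψ) {n : ℕ}
    (i : Fin (n + 1)) (w : (Z ⊗ Δ[1] : SSet.{0}) _⦋n⦌) (hw : Bdy (sx (k := bx n) w.2)) :
    (htp0 H).toSimplicialObjectHomotopy.h i w = (0 : (D.V 0).obj (bx (n + 1))) := by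
  rw [toS_h]
  have hb : Bdy (sx (k := bx (n + 1)) ((Δ[1] : SSet.{0}).map (SimplexCategory.σ i).op w.2)) := by
    rw [sx_map]
    intro hs
    apply hw
    intro y
    obtain ⟨x, hx⟩ := hs y
    exact ⟨_, hx⟩
  exact lv0_bdy H.h (bx (n + 1)) (Z.map (SimplexCategory.σ i).op w.1,
    stdSimplex.objMk₁ i.succ.castSucc)
    ((Δ[1] : SSet.{0}).map (SimplexCategory.σ i).op w.2) hb

theorem sx_iota0 {n : ℕ} {K : SSet.{0}} (x : K _⦋n⦌) :
    Bdy (sx (k := bx n) ((SSet.ι₀ : K ⟶ K ⊗ Δ[1]).app (bx n) x).2) := by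
  apply bdy_of_eq _ 1
  intro i h
  have h2 : sx (k := bx n) ((SSet.ι₀ : K ⟶ K ⊗ Δ[1]).app (bx n) x).2 =
    (SimplexCategory.const ⦋n⦌ ⦋1⦌ 0).op := rfl
  rw [h2] at h
  have h3 : (0 : Fin 2) = 1 := h
  exact absurd h3 (by decide)

theorem sx_iota1 {n : ℕ} {K : SSet.{0}} (x : K _⦋n⦌) :
    Bdy (sx (k := bx n) ((SSet.ι₁ : K ⟶ K ⊗ Δ[1]).app (bx n) x).2) := by
  apply bdy_of_eq _ 0
  intro i h
  have h2 : sx (k := bx n) ((SSet.ι₁ : K ⟶ K ⊗ Δ[1]).app (bx n) x).2 =
    (SimplexCategory.const ⦋n⦌ ⦋1⦌ 1).op := rfl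
  rw [h2] at h
  have h3 : (1 : Fin 2) = 0 := h
  exact absurd h3 (by decide)

/-! ### The cocycle -/

/-- the top simplex -/
def topS (m : ℕ) : ((Sph m).obj (bx m)).X :=
  some ⟨𝟙 (bx m), by
    unfold Bdy
    rw [not_not]
    intro y
    exact ⟨y, rfl⟩⟩

theorem none_ne_top (m : ℕ) : (none : ((Sph m).obj (bx m)).X) ≠ topS m :=
  fun h => Option.some_ne_none _ h.symm

/-- the coefficient of the top simplex -/
def cc (m : ℕ) (y : (XV m 0).obj (bx m)) : ZMod 2 :=
  ((show AugK ((Sph m).obj (bx m)).X from y) : ((Sph m).obj (bx m)).X →₀ ZMod 2) (topS m)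

theorem cc_zero (m : ℕ) : cc m 0 = 0 := rfl

open scoped Classical in
theorem mapDomain_coef {A B : Type} (f : A → B) (y : A →₀ ZMod 2) (b : B) :
    (y.mapDomain f) b = Finsupp.linearCombination (ZMod 2)
      (fun a => if f a = b then (1 : ZMod 2) else 0) y := by
  induction y using Finsupp.induction_linear with
  | zero => simp
  | add x y hx hy => rw [Finsupp.mapDomain_add, Finsupp.add_apply, hx, hy, map_add]
  | single a v =>
    rw [Finsupp.mapDomain_single, Finsupp.linearCombination_single, Finsupp.single_apply]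
    split_ifs <;> simp

theorem sph_map_eq (m : ℕ) (j : Fin (m + 2)) (a : ((Sph m).obj (bx (m + 1))).X) :
    ((Sph m).map (SimplexCategory.δ j).op).toFun a = topS m ↔
      ∃ t, a = some t ∧ t.1 ≫ (SimplexCategory.δ j).op = 𝟙 (bx m) := by
  classical
  cases a with
  | none =>
    constructor
    · intro h
      exact absurd h (none_ne_top m)
    · rintro ⟨t, ht, -⟩
      exact absurd ht.symm (Option.some_ne_none _)
  | some t =>
    have e : ((Sph m).map (SimplexCategory.δ j).op).toFun (some t) =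
      (if h : ¬ Bdy (t.1 ≫ (SimplexCategory.δ j).op) then
        some (⟨t.1 ≫ (SimplexCategory.δ j).op, h⟩ : {t : bx m ⟶ bx m // ¬ Bdy t}) else none) := rfl
    rw [e]
    constructor
    · intro h
      refine ⟨t, rfl, ?_⟩
      by_cases h2 : ¬ Bdy (t.1 ≫ (SimplexCategory.δ j).op)
      · rw [dif_pos h2] at h
        exact congrArg Subtype.val (Option.some.inj h)
      · rw [dif_neg h2] at h
        exact absurd h (none_ne_top m)
    · rintro ⟨t', ht', h⟩
      have : t = t' := Option.some.inj ht'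
      subst this
      have h2 : ¬ Bdy (t.1 ≫ (SimplexCategory.δ j).op) := by
        rw [h]
        unfold Bdy
        rw [not_not]
        intro y
        exact ⟨y, rfl⟩
      rw [dif_pos h2]
      show some _ = some _
      congr 1
      exact Subtype.ext h

theorem cc_coc (m : ℕ) (y : (XV m 0).obj (bx (m + 1))) :
    ∑ j : Fin (m + 2), cc m ((XV m 0).map (SimplexCategory.δ j).op y) = 0 := by
  classical
  let y' : ((Sph m).obj (bx (m + 1))).X →₀ ZMod 2 :=
    ((show AugK ((Sph m).obj (bx (m + 1))).X from y) : ((Sph m).obj (bx (m + 1))).X →₀ ZMod 2)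
  have e1 : ∀ j : Fin (m + 2), cc m ((XV m 0).map (SimplexCategory.δ j).op y) =
      Finsupp.linearCombination (ZMod 2)
        (fun a => if ((Sph m).map (SimplexCategory.δ j).op).toFun a = topS m
          then (1 : ZMod 2) else 0) y' := by
    intro j
    exact mapDomain_coef ((Sph m).map (SimplexCategory.δ j).op).toFun y' (topS m)
  rw [Finset.sum_congr rfl (fun j _ => e1 j)]
  have e2 : ∀ a : ((Sph m).obj (bx (m + 1))).X, ∑ j : Fin (m + 2),
      (if ((Sph m).map (SimplexCategory.δ j).op).toFun a = topS m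
          then (1 : ZMod 2) else 0) = 0 := by
    intro a
    cases a with
    | none =>
      refine Finset.sum_eq_zero (fun j _ => if_neg ?_)
      rw [sph_map_eq]
      rintro ⟨t, ht, -⟩
      exact absurd ht.symm (Option.some_ne_none _)
    | some t =>
      have hepi : Epi t.1.unop := by
        rw [SimplexCategory.epi_iff_surjective]
        have := t.2
        unfold Bdy at this
        rw [not_not] at this
        exact this
      obtain ⟨i, hi⟩ := SimplexCategory.eq_σ_of_epi t.1.unop
      have key : ∀ j : Fin (m + 2),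
          (((Sph m).map (SimplexCategory.δ j).op).toFun (some t) = topS m) ↔
            (j = i.castSucc ∨ j = i.succ) := by
        intro j
        refine (sph_map_eq m j (some t)).trans
          (Iff.trans (b := SimplexCategory.δ j ≫ SimplexCategory.σ i = 𝟙 ⦋m⦌) ?_ ?_)
        · constructor
          · rintro ⟨t', ht', h⟩
            have : t = t' := Option.some.inj ht'
            subst this
            have h2 := congrArg Quiver.Hom.unop h
            rw [unop_comp, hi] at h2
            exact h2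
          · intro h
            refine ⟨t, rfl, ?_⟩
            apply Quiver.Hom.unop_inj
            rw [unop_comp, hi]
            exact h
        constructor
        · intro h
          by_contra hne
          rw [not_or] at hne
          obtain ⟨a, ha⟩ := Fin.exists_succAbove_eq (Ne.symm hne.1)
          obtain ⟨b, hb⟩ := Fin.exists_succAbove_eq (Ne.symm hne.2)
          have h2 : ∀ x : Fin (m + 1), i.predAbove (j.succAbove x) = x := by
            intro x
            exact congrArg (fun f => (SimplexCategory.Hom.toOrderHom f) x) h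
          have h3 := h2 a
          have h4 := h2 b
          rw [ha] at h3
          rw [hb] at h4
          have h5 : i.predAbove i.castSucc = i := Fin.predAbove_castSucc_self i
          have h6 : i.predAbove i.succ = i := Fin.predAbove_succ_self i
          rw [h5] at h3
          rw [h6] at h4
          have h7 : a = b := h3.symm.trans h4
          rw [← h7, ha] at hb
          exact absurd hb (Fin.castSucc_lt_succ).ne
        · rintro (rfl | rfl)
          · exact SimplexCategory.δ_comp_σ_self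
          · exact SimplexCategory.δ_comp_σ_succ
      have e3 : ∀ j : Fin (m + 2),
          (if ((Sph m).map (SimplexCategory.δ j).op).toFun (some t) = topS m
          then (1 : ZMod 2) else 0) =
          (if j = i.castSucc then (1 : ZMod 2) else 0) + (if j = i.succ then 1 else 0) := by
        intro j
        rw [if_congr (key j) rfl rfl]
        by_cases h1 : j = i.castSucc
        · subst h1
          have h2 : i.castSucc ≠ i.succ := (Fin.castSucc_lt_succ).ne
          simp [h2]
        · simp [h1]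
      rw [Finset.sum_congr rfl (fun j _ => e3 j), Finset.sum_add_distrib]
      simp
      decide
  rw [← LinearMap.sum_apply]
  have e4 : (∑ j : Fin (m + 2), Finsupp.linearCombination (ZMod 2)
      (fun a => if ((Sph m).map (SimplexCategory.δ j).op).toFun a = topS m
          then (1 : ZMod 2) else 0)) = 0 := by
    apply Finsupp.lhom_ext
    intro a v
    rw [LinearMap.sum_apply]
    simp only [Finsupp.linearCombination_single, smul_eq_mul]
    rw [← Finset.mul_sum, e2, mul_zero, LinearMap.zero_apply]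
  rw [e4, LinearMap.zero_apply]

open scoped Classical in
theorem cc_brk (m : ℕ) (x : ((Sph m).obj (bx m)).X) :
    cc m (brk (none : ((Sph m).obj (bx m)).X) x : AugK ((Sph m).obj (bx m)).X) =
      if x = topS m then 1 else 0 := by
  have e : cc m (brk (none : ((Sph m).obj (bx m)).X) x : AugK ((Sph m).obj (bx m)).X) =
    (Finsupp.single x (1 : ZMod 2)) (topS m) +
      (Finsupp.single (none : ((Sph m).obj (bx m)).X) (1 : ZMod 2)) (topS m) := rfl
  rw [e, Finsupp.single_apply, Finsupp.single_apply, if_neg (none_ne_top m), add_zero]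

/-! ### The fundamental chain of the boundary -/

/-- initial segments, transported by a permutation -/
def fc {n : ℕ} (π : Equiv.Perm (Fin (n + 3))) (j : Fin (n + 2)) : P0 (n + 1) where
  s := (Finset.univ.filter (fun u : Fin (n + 3) => u ≤ j.castSucc)).map π.toEmbedding
  ne := by
    refine Finset.Nonempty.map ⟨j.castSucc, ?_⟩
    simp
  ne_univ := by
    intro h
    have h1 : π (Fin.last (n + 2)) ∈
      (Finset.univ.filter (fun u : Fin (n + 3) => u ≤ j.castSucc)).map π.toEmbedding := by
      rw [h]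
      exact Finset.mem_univ _
    rw [Finset.mem_map] at h1
    obtain ⟨u, hu, hu2⟩ := h1
    have hu3 : u = Fin.last (n + 2) := π.injective hu2
    subst hu3
    have hu4 := (Finset.mem_filter.1 hu).2
    exact absurd (lt_of_le_of_lt hu4 (Fin.castSucc_lt_last j)) (lt_irrefl _)

theorem mem_fc {n : ℕ} (π : Equiv.Perm (Fin (n + 3))) (j : Fin (n + 2)) (v : Fin (n + 3)) :
    v ∈ (fc π j).s ↔ ∃ u : Fin (n + 3), u.val ≤ j.val ∧ π u = v := by
  unfold fc
  simp only [Finset.mem_map, Finset.mem_filter, Finset.mem_univ, true_and, Equiv.coe_toEmbedding]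
  rfl

theorem fc_mono {n : ℕ} (π : Equiv.Perm (Fin (n + 3))) : Monotone (fc π) := by
  intro a b hab v hv
  rw [mem_fc] at hv ⊢
  obtain ⟨u, hu, huv⟩ := hv
  exact ⟨u, hu.trans (Fin.le_def.1 hab), huv⟩

/-- the chain as a simplex -/
def chA {n : ℕ} (π : Equiv.Perm (Fin (n + 3))) : (NP (P0 (n + 1))) _⦋n + 1⦌ :=
  (fc_mono π).functor

theorem np_ext {P : Type} [PartialOrder P] {k : Dop} (x y : (NP P).obj k)
    (h : ∀ i, x.obj i = y.obj i) : x = y :=
  CategoryTheory.Functor.ext h (fun _ _ _ => Subsingleton.elim _ _)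

theorem chA_faces {n : ℕ} (i : Fin (n + 2)) : ∃ τ : Equiv.Perm (Fin (n + 3)) →
    Equiv.Perm (Fin (n + 3)), (∀ π, τ (τ π) = π) ∧ (∀ π, τ π ≠ π) ∧
      ∀ π, (NP (P0 (n + 1))).δ i (chA (τ π)) = (NP (P0 (n + 1))).δ i (chA π) := by
  have hne : i.castSucc ≠ i.succ := (Fin.castSucc_lt_succ).ne
  refine ⟨fun π => π * Equiv.swap i.castSucc i.succ, ?_, ?_, ?_⟩
  · intro π
    show π * Equiv.swap i.castSucc i.succ * Equiv.swap i.castSucc i.succ = π
    rw [mul_assoc, Equiv.swap_mul_self, mul_one]
  · intro π h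
    have h2 : Equiv.swap i.castSucc i.succ = 1 := by
      have h3 : π * Equiv.swap i.castSucc i.succ = π * 1 := by rw [mul_one]; exact h
      exact mul_left_cancel h3
    have h4 := congrArg (fun f : Equiv.Perm (Fin (n + 3)) => f i.castSucc) h2
    simp only [Equiv.swap_apply_left, Equiv.Perm.one_apply] at h4
    exact hne h4.symm
  · intro π
    apply np_ext
    intro j
    show fc (π * Equiv.swap i.castSucc i.succ) (i.succAbove j) = fc π (i.succAbove j)
    have hji : (i.succAbove j).val ≠ i.val := fun h => Fin.succAbove_ne i j (Fin.ext h)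
    have hsw : ∀ u : Fin (n + 3), (Equiv.swap i.castSucc i.succ u).val ≤ (i.succAbove j).val ↔
        u.val ≤ (i.succAbove j).val := by
      intro u
      by_cases h1 : u = i.castSucc
      · subst h1
        rw [Equiv.swap_apply_left]
        simp only [Fin.val_succ, Fin.val_castSucc]
        omega
      · by_cases h2 : u = i.succ
        · subst h2
          rw [Equiv.swap_apply_right]
          simp only [Fin.val_succ, Fin.val_castSucc]
          omega
        · rw [Equiv.swap_apply_of_ne_of_ne h1 h2]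
    have hs : (fc (π * Equiv.swap i.castSucc i.succ) (i.succAbove j)).s =
        (fc π (i.succAbove j)).s := by
      ext v
      rw [mem_fc, mem_fc]
      constructor
      · rintro ⟨u, hu, huv⟩
        exact ⟨Equiv.swap i.castSucc i.succ u, (hsw u).2 hu, huv⟩
      · rintro ⟨u, hu, huv⟩
        refine ⟨Equiv.swap i.castSucc i.succ u, (hsw u).2 hu, ?_⟩
        rw [Equiv.Perm.mul_apply, Equiv.swap_apply_self]
        exact huv
    have hext : ∀ a b : P0 (n + 1), a.s = b.s → a = b := by
      intro a b h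
      cases a
      cases b
      cases h
      rfl
    exact hext _ _ hs

/-! ### The count -/

/-- the combinatorial core -/
theorem core {n : ℕ} (π : Equiv.Perm (Fin (n + 3))) (k : Fin (n + 2))
    (e : Fin (n + 3) → Fin 2) (he : ∀ i : Fin (n + 3), e i = if i.val ≤ k.val then 0 else 1) :
    ((∀ j : Fin (n + 2), mx (fc π j) ≤ n + 1) ∧
      ∀ i : Fin (n + 3), val1 (M := n + 1) (mx (fc π (k.predAbove i))) (e i) = i.val) ↔
      π = 1 ∧ k = Fin.last (n + 1) := by
  have pa : ∀ i : Fin (n + 3), (k.predAbove i).val = if i.val ≤ k.val then i.val else i.val - 1 := by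
    intro i
    by_cases h : i.val ≤ k.val
    · rw [if_pos h, Fin.predAbove_of_le_castSucc _ _ (Fin.le_def.2 h)]
      rfl
    · rw [if_neg h, Fin.predAbove_of_castSucc_lt _ _ (Fin.lt_def.2 (not_le.1 h)), Fin.val_pred]
  constructor
  · rintro ⟨h1, h2⟩
    have hk : k = Fin.last (n + 1) := by
      by_contra hne
      have hlt : k.val < n + 1 := by
        have := Fin.val_lt_last hne
        exact this
      have a1 := h2 k.castSucc
      have a2 := h2 k.succ
      have e1 : k.predAbove k.castSucc = k := Fin.predAbove_castSucc_self k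
      have e2 : k.predAbove k.succ = k := Fin.predAbove_succ_self k
      rw [e1] at a1
      rw [e2] at a2
      have v1 : k.castSucc.val = k.val := rfl
      have v2 : k.succ.val = k.val + 1 := rfl
      rw [he, v1, if_pos le_rfl] at a1
      rw [he, v2, if_neg (by omega)] at a2
      have z0 : (0 : Fin 2).val = 0 := rfl
      have z1 : (1 : Fin 2).val = 1 := rfl
      unfold val1 at a1 a2
      rw [z0] at a1
      rw [z1] at a2
      split_ifs at a1 a2 <;> omega
    refine ⟨?_, hk⟩
    have hk2 : k.val = n + 1 := by rw [hk]; rfl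
    have ha : ∀ j : Fin (n + 2), mx (fc π j) = j.val := by
      intro j
      have a1 := h2 j.castSucc
      have v1 : j.castSucc.val = j.val := rfl
      have hj := j.isLt
      have e1 : k.predAbove j.castSucc = j := by
        apply Fin.ext
        rw [pa, v1, if_pos (by omega)]
      rw [e1, he, v1, if_pos (by omega)] at a1
      have z0 : (0 : Fin 2).val = 0 := rfl
      have h3 := h1 j
      unfold val1 at a1
      rw [z0] at a1
      split_ifs at a1 <;> omega
    have hp : ∀ (v : ℕ) (hv : v < n + 2), (π ⟨v, by omega⟩).val = v := by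
      intro v
      induction v using Nat.strong_induction_on with
      | _ v ih =>
        intro hv
        have h3 : (π ⟨v, by omega⟩ : Fin (n + 3)) ∈ (fc π ⟨v, hv⟩).s := by
          rw [mem_fc]
          exact ⟨⟨v, by omega⟩, le_rfl, rfl⟩
        have h4 := le_mx _ _ h3
        rw [ha] at h4
        have h5 : (π ⟨v, by omega⟩ : Fin (n + 3)).val ≤ v := h4
        by_contra hne
        have h6 : (π ⟨v, by omega⟩ : Fin (n + 3)).val < v := lt_of_le_of_ne h5 hne
        have h7 := ih _ h6 (by omega)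
        have h8 : (⟨(π ⟨v, by omega⟩ : Fin (n + 3)).val, by omega⟩ : Fin (n + 3)) = ⟨v, by omega⟩ := by
          apply π.injective
          apply Fin.ext
          rw [h7]
        have h9 := congrArg Fin.val h8
        exact hne h9
    ext i
    rw [Equiv.Perm.one_apply]
    by_cases hi : i.val < n + 2
    · exact hp i.val hi
    · have hi2 : i.val = n + 2 := by
        have := i.isLt
        omega
      by_contra hne
      have h3 : (π i).val < n + 2 := by
        have := (π i).isLt
        omega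
      have h4 := hp _ h3
      have h5 : (⟨(π i).val, by omega⟩ : Fin (n + 3)) = i := by
        apply π.injective
        apply Fin.ext
        rw [h4]
      exact hne (congrArg Fin.val h5)
  · rintro ⟨rfl, rfl⟩
    have ha : ∀ j : Fin (n + 2), mx (fc (1 : Equiv.Perm (Fin (n + 3))) j) = j.val := by
      intro j
      apply le_antisymm
      · obtain ⟨h3, h4⟩ := mx_mem (fc (1 : Equiv.Perm (Fin (n + 3))) j)
        rw [mem_fc] at h4
        obtain ⟨u, hu, huv⟩ := h4
        have := congrArg Fin.val huv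
        rw [Equiv.Perm.one_apply] at this
        have h5 : u.val = mx (fc (1 : Equiv.Perm (Fin (n + 3))) j) := this
        omega
      · have h3 : (j.castSucc : Fin (n + 3)) ∈ (fc (1 : Equiv.Perm (Fin (n + 3))) j).s := by
          rw [mem_fc]
          exact ⟨j.castSucc, le_rfl, rfl⟩
        exact le_mx _ _ h3
    constructor
    · intro j
      rw [ha]
      have := j.isLt
      omega
    · intro i
      have hi := i.isLt
      rw [ha, pa, he]
      have v : (Fin.last (n + 1)).val = n + 1 := rfl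
      rw [v]
      have z0 : (0 : Fin 2).val = 0 := rfl
      have z1 : (1 : Fin 2).val = 1 := rfl
      unfold val1
      split_ifs <;> omega

/-! ### Assembly -/

theorem lv0_e (F : Fam (XD (M + 1)) (SphS (M + 1)))
    (hF0 : ∀ (k : Dop) (x : (SphS (M + 1)).obj k) (t : bx 0 ⟶ k),
      F.f 0 k x t = brk (none : ((Sph (M + 1)).obj k).X) x)
    (hF : ∀ (s : ℕ) (k : Dop) (t : bx s ⟶ k), F.f s k (none : ((Sph (M + 1)).obj k).X) t = 0)
    (k : Dop) (z : (NP (P0 M)).obj k) (x : (Δ[1] : SSet.{0}).obj k) :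
    (lv0 (famE F hF).toHom).app k (z, x) =
      (brk (none : ((Sph (M + 1)).obj k).X) (G z (sx x)) : AugK ((Sph (M + 1)).obj k).X) := by
  rw [lv0_apply]
  show F.f 0 k ((SphS (M + 1)).map (𝟙 k) (G ((NP (P0 M)).map (𝟙 k) z) (sx x))) (pt0 k) = _
  rw [hF0, CategoryTheory.Functor.map_id_apply, CategoryTheory.Functor.map_id_apply]
  rfl

theorem prH_h (K : SSet.{0}) {n : ℕ} (i : Fin (n + 1)) (x : K _⦋n⦌) :
    (SH.Ess.prH K).h i x = (K.map (SimplexCategory.σ i).op x,
        stdSimplex.objMk₁ i.succ.castSucc) := by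
  unfold SH.Ess.prH
  rw [toS_h]
  rfl

theorem G_top {n : ℕ} (π : Equiv.Perm (Fin (n + 3))) (k : Fin (n + 2)) :
    G ((NP (P0 (n + 1))).map (SimplexCategory.σ k).op (chA π))
      (sx (k := bx (n + 2)) (stdSimplex.objMk₁ k.succ.castSucc)) = topS (n + 2) ↔
      π = 1 ∧ k = Fin.last (n + 1) := by
  classical
  set z := (NP (P0 (n + 1))).map (SimplexCategory.σ k).op (chA π) with hz
  set e := sx (k := bx (n + 2)) (stdSimplex.objMk₁ k.succ.castSucc) with he
  have hzo : ∀ i : Fin (n + 3), z.obj i = fc π (k.predAbove i) := fun i => rfl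
  have heo : ∀ i : Fin (n + 3), e.unop.toOrderHom i = if i.val ≤ k.val then 0 else 1 := by
    intro i
    have h1 : e.unop.toOrderHom i = if i.castSucc < k.succ.castSucc then 0 else 1 := rfl
    rw [h1]
    have h2 : i.castSucc < k.succ.castSucc ↔ i.val ≤ k.val := by
      rw [Fin.lt_def]
      simp only [Fin.val_castSucc, Fin.val_succ]
      omega
    rw [if_congr h2 rfl rfl]
  have h1 : G z e = topS (n + 2) ↔ (∀ i, mx (z.obj i) ≤ n + 1) ∧ psi z e = 𝟙 ⦋n + 2⦌ := by
    constructor
    · intro h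
      by_cases hc : Cnd z e
      · have h2 : G z e = some ⟨(psi z e).op, hc.2⟩ := dif_pos hc
        rw [h2] at h
        have h3 := congrArg Subtype.val (Option.some.inj h)
        exact ⟨hc.1, congrArg Quiver.Hom.unop h3⟩
      · have h2 : G z e = none := dif_neg hc
        rw [h2] at h
        exact absurd h (none_ne_top _)
    · rintro ⟨h2, h3⟩
      have hc : Cnd z e := by
        refine ⟨h2, ?_⟩
        rw [h3]
        unfold Bdy
        rw [not_not]
        intro y
        exact ⟨y, rfl⟩
      have h4 : G z e = some ⟨(psi z e).op, hc.2⟩ := dif_pos hc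
      rw [h4]
      unfold topS
      congr 1
      apply Subtype.ext
      exact congrArg Quiver.Hom.op h3
  rw [h1, ← core π k (fun i => e.unop.toOrderHom i) heo]
  refine and_congr ?_ ?_
  · constructor
    · intro h j
      have h2 := h j.castSucc
      rw [hzo] at h2
      by_cases hjk : j ≤ k
      · have h3 : k.predAbove j.castSucc = j := by
          apply Fin.ext
          rw [Fin.predAbove_of_le_castSucc _ _ (Fin.castSucc_le_castSucc_iff.2 hjk)]
          rfl
        rw [h3] at h2
        exact h2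
      · have h4 := h j.succ
        rw [hzo] at h4
        have h3 : k.predAbove j.succ = j := by
          apply Fin.ext
          rw [Fin.predAbove_of_castSucc_lt _ _ (by
            rw [Fin.lt_def]
            have := Fin.lt_def.1 (not_le.1 hjk)
            simp only [Fin.val_castSucc, Fin.val_succ]
            omega)]
          rfl
        rw [h3] at h4
        exact h4
    · intro h i
      rw [hzo]
      exact h _
  · constructor
    · intro h i
      have h2 := congrArg (fun f : ⦋n + 2⦌ ⟶ ⦋n + 2⦌ => (f.toOrderHom i).val) h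
      exact h2
    · intro h
      apply SimplexCategory.Hom.ext
      ext i
      exact h i

end Pool.Agent.SH.TT.Ess

namespace Pool.Agent.SH.TT

open Pool.Agent.SH.TT.Ess in
/-- TT_ESS. -/
theorem ess (hC : Stmt_COA) : Stmt_ESS := by
  classical
  intro M hM
  obtain ⟨n, rfl⟩ : ∃ n, M = n + 1 := ⟨M - 1, by omega⟩
  obtain ⟨F, hF0, hF⟩ := hC (n + 1 + 1)
  refine ⟨(famE F hF).toHom, ?_⟩
  rintro ⟨t, ⟨H⟩⟩
  have key := SH.Ess.deg_inv n (K := NP (P0 (n + 1)))
    (X := US ((XD (n + 1 + 1)).V 0)) (I := Equiv.Perm (Fin (n + 3)))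
    (fun π => chA π) (fun i => chA_faces i) (cc (n + 2)) (fun y => cc_coc (n + 2) y)
    (htp0 H).toSimplicialObjectHomotopy
    (fun k x => ⟨by
      rw [htp0_end H k _ (sx_iota0 x)]
      exact cc_zero _, by
      rw [htp0_end H k _ (sx_iota1 x)]
      exact cc_zero _⟩)
  have h1 : ∑ π : Equiv.Perm (Fin (n + 3)), ∑ k : Fin (n + 2),
      cc (n + 2) ((lv0 (famE F hF).toHom).app _ ((SH.Ess.prH (NP (P0 (n + 1)))).h k (chA π))) =
      1 := by
    have e1 : ∀ (π : Equiv.Perm (Fin (n + 3))) (k : Fin (n + 2)),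
        cc (n + 2) ((lv0 (famE F hF).toHom).app _ ((SH.Ess.prH (NP (P0 (n + 1)))).h k (chA π))) =
        if (π = 1 ∧ k = Fin.last (n + 1)) then 1 else 0 := by
      intro π k
      rw [prH_h]
      have e2 := lv0_e F hF0 hF (bx (n + 2))
        ((NP (P0 (n + 1))).map (SimplexCategory.σ k).op (chA π))
        (stdSimplex.objMk₁ k.succ.castSucc)
      have e3 := congrArg (cc (n + 2)) e2
      refine e3.trans ((cc_brk (n + 2) _).trans ?_)
      exact if_congr (G_top π k) rfl rfl
    rw [Finset.sum_congr rfl (fun π _ => Finset.sum_congr rfl (fun k _ => e1 π k))]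
    rw [Finset.sum_eq_single (1 : Equiv.Perm (Fin (n + 3)))]
    · rw [Finset.sum_eq_single (Fin.last (n + 1))]
      · simp
      · intro b _ hb
        rw [if_neg (fun h => hb h.2)]
      · intro h
        exact absurd (Finset.mem_univ _) h
    · intro π _ hπ
      exact Finset.sum_eq_zero (fun k _ => if_neg (fun h => hπ h.1))
    · intro h
      exact absurd (Finset.mem_univ _) h
  have h2 : ∑ π : Equiv.Perm (Fin (n + 3)), ∑ k : Fin (n + 2),
      cc (n + 2) ((lv0 (SSet.const t : NP (P0 (n + 1)) ⟶ Target (XD (n + 1 + 1)))).app _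
        ((SH.Ess.prH (NP (P0 (n + 1)))).h k (chA π))) = 0 := by
    have e1 : ∀ (π : Equiv.Perm (Fin (n + 3))), ∑ k : Fin (n + 2),
        cc (n + 2) ((lv0 (SSet.const t : NP (P0 (n + 1)) ⟶ Target (XD (n + 1 + 1)))).app _
        ((SH.Ess.prH (NP (P0 (n + 1)))).h k (chA π))) =
        ∑ k : Fin (n + 2),
        cc (n + 2) ((lv0 (SSet.const t : NP (P0 (n + 1)) ⟶ Target (XD (n + 1 + 1)))).app _
        ((SH.Ess.prH (NP (P0 (n + 1)))).h k (chA 1))) := by
      intro π
      refine Finset.sum_congr rfl (fun k _ => ?_)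
      rw [prH_h, prH_h]
      rfl
    rw [Finset.sum_congr rfl (fun π _ => e1 π), Finset.sum_const, Finset.card_univ,
      Fintype.card_perm, Fintype.card_fin, nsmul_eq_mul]
    have h3 : ((Nat.factorial (n + 3) : ℕ) : ZMod 2) = 0 := by
      rw [ZMod.natCast_eq_zero_iff]
      exact Nat.dvd_factorial (by norm_num) (by omega)
    rw [h3, zero_mul]
  rw [h1, h2] at key
  exact absurd key (by decide)

end Pool.Agent.SH.TT
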