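import Mathlib
import Pool.Agent.SH.StmtsTE

/-!
# MP_2d0b73_an, block TE, module SH_F2_COPR: `F_2`-homology isomorphisms

Elementwise form `f2_elem` of `F2Iso`, and the fields `iso`, `comp`, `cancelL`, `cancelR`, `six`,
`proj`, `copr`, `seq` of `WClass F2Iso`.
-/

open CategoryTheory MonoidalCategory Simplicial SSet HomotopicalAlgebra Opposite Limits
open SSet.modelCategoryQuillen

namespace Pool.Agent.SH.F2Copr

/-! ## Homology in `ModuleCat` by elements -/

section Elem

variable {R : Type} [Ring R] {K L : ChainComplex (ModuleCat.{0} R) ℕ} (φ : K ⟶ L)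

/-- maps from the free module of rank one. -/
noncomputable def pt (M : ModuleCat.{0} R) (m : M) : ModuleCat.of R R ⟶ M :=
  ModuleCat.ofHom (LinearMap.toSpanSingleton R M m)

@[simp] theorem pt_one (M : ModuleCat.{0} R) (m : M) : (ConcreteCategory.hom (pt M m)) 1 = m :=
  one_smul R m

theorem pt_ext {M : ModuleCat.{0} R} {f g : ModuleCat.of R R ⟶ M}
    (h : (ConcreteCategory.hom f) 1 = (ConcreteCategory.hom g) 1) : f = g :=
  ModuleCat.hom_ext (LinearMap.ext_ring h)

theorem mono_iff (i j k : ℕ) (hi : (ComplexShape.down ℕ).prev j = i)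
    (hk : (ComplexShape.down ℕ).next j = k) :
    Mono (HomologicalComplex.homologyMap φ j) ↔
      ∀ x : K.X j, K.d j k x = 0 → (∃ w : L.X i, φ.f j x = L.d i j w) →
        ∃ u : K.X i, x = K.d i j u := by
  rw [HomologicalComplex.mono_homologyMap_iff_up_to_refinements φ i j k hi hk]
  constructor
  · intro h x hx hw
    obtain ⟨w, hw⟩ := hw
    obtain ⟨A', π, hπ, x₁, e⟩ := h (pt _ x) (pt_ext (by
      rw [ConcreteCategory.comp_apply, pt_one]
      exact hx)) (pt _ w) (pt_ext (by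
      rw [ConcreteCategory.comp_apply, ConcreteCategory.comp_apply, pt_one, pt_one]
      exact hw))
    obtain ⟨a, ha⟩ := (ModuleCat.epi_iff_surjective π).1 hπ 1
    refine ⟨x₁ a, ?_⟩
    have := ConcreteCategory.congr_hom e a
    simp only [ConcreteCategory.comp_apply] at this
    rw [ha, pt_one] at this
    exact this
  · intro h A x₂ h2 y₁ h1
    have hx : ∀ a : A, ∃ u : K.X i, x₂ a = K.d i j u := by
      intro a
      apply h
      · have := ConcreteCategory.congr_hom h2 a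
        simpa using this
      · refine ⟨y₁ a, ?_⟩
        have := ConcreteCategory.congr_hom h1 a
        simpa using this
    choose u hu using hx
    refine ⟨ModuleCat.of R (A →₀ R), ModuleCat.ofHom (Finsupp.linearCombination R (fun a : A => a)),
      ?_, ModuleCat.ofHom (Finsupp.linearCombination R u), ?_⟩
    · rw [ModuleCat.epi_iff_surjective]
      intro a
      exact ⟨Finsupp.single a 1, by simp⟩
    · ext a
      simp [hu]

theorem epi_iff (i j k : ℕ) (hi : (ComplexShape.down ℕ).prev j = i)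
    (hk : (ComplexShape.down ℕ).next j = k) :
    Epi (HomologicalComplex.homologyMap φ j) ↔
      ∀ y : L.X j, L.d j k y = 0 →
        ∃ x : K.X j, K.d j k x = 0 ∧ ∃ w : L.X i, y = φ.f j x + L.d i j w := by
  rw [HomologicalComplex.epi_homologyMap_iff_up_to_refinements φ i j k hi hk]
  constructor
  · intro h y hy
    obtain ⟨A', π, hπ, x₂, hx₂, y₁, e⟩ := h (pt _ y) (pt_ext (by
      rw [ConcreteCategory.comp_apply, pt_one]
      exact hy))
    obtain ⟨a, ha⟩ := (ModuleCat.epi_iff_surjective π).1 hπ 1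
    refine ⟨x₂ a, ?_, y₁ a, ?_⟩
    · have := ConcreteCategory.congr_hom hx₂ a
      simpa using this
    · have := ConcreteCategory.congr_hom e a
      simp only [ConcreteCategory.comp_apply] at this
      rw [ha, pt_one] at this
      exact this
  · intro h A y₂ h2
    have hx : ∀ a : A, ∃ x : K.X j, K.d j k x = 0 ∧
        ∃ w : L.X i, y₂ a = φ.f j x + L.d i j w := by
      intro a
      apply h
      have := ConcreteCategory.congr_hom h2 a
      simpa using this
    choose u hu w hw using hx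
    refine ⟨ModuleCat.of R (A →₀ R), ModuleCat.ofHom (Finsupp.linearCombination R (fun a : A => a)),
      ?_, ModuleCat.ofHom (Finsupp.linearCombination R u), ?_,
      ModuleCat.ofHom (Finsupp.linearCombination R w), ?_⟩
    · rw [ModuleCat.epi_iff_surjective]
      intro a
      exact ⟨Finsupp.single a 1, by simp⟩
    · ext a
      simp [hu]
    · ext a
      simp [hw]

theorem iso_iff (i j k : ℕ) (hi : (ComplexShape.down ℕ).prev j = i)
    (hk : (ComplexShape.down ℕ).next j = k) :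
    IsIso (HomologicalComplex.homologyMap φ j) ↔
      (∀ y : L.X j, L.d j k y = 0 →
        ∃ x : K.X j, K.d j k x = 0 ∧ ∃ w : L.X i, y = φ.f j x + L.d i j w) ∧
      (∀ x : K.X j, K.d j k x = 0 → (∃ w : L.X i, φ.f j x = L.d i j w) →
        ∃ u : K.X i, x = K.d i j u) := by
  rw [← mono_iff φ i j k hi hk, ← epi_iff φ i j k hi hk]
  constructor
  · intro h
    exact ⟨inferInstance, inferInstance⟩
  · rintro ⟨h1, h2⟩
    exact isIso_of_mono_of_epi _

end Elem

/-! ## Chains as finitely supported functions -/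

/-- `n`-chains of `X` with coefficients in `ZMod 2`. -/
abbrev Ch (X : SSet.{0}) (n : ℕ) : Type := X _⦋n⦌ →₀ ZMod 2

/-- The boundary operator. -/
noncomputable def bd (X : SSet.{0}) (n : ℕ) : Ch X (n + 1) →ₗ[ZMod 2] Ch X n :=
  ∑ i : Fin (n + 2), Finsupp.lmapDomain (ZMod 2) (ZMod 2) (X.δ i)

/-- The map on chains. -/
noncomputable def push {X Y : SSet.{0}} (f : X ⟶ Y) (n : ℕ) : Ch X n →ₗ[ZMod 2] Ch Y n :=
  Finsupp.lmapDomain (ZMod 2) (ZMod 2) (f.app (op ⦋n⦌))

theorem push_single {X Y : SSet.{0}} (f : X ⟶ Y) (n : ℕ) (x : X _⦋n⦌) (r : ZMod 2) :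
    push f n (Finsupp.single x r) = Finsupp.single (f.app (op ⦋n⦌) x) r := by
  simp [push, Finsupp.mapDomain_single]

theorem bd_single {X : SSet.{0}} (n : ℕ) (x : X _⦋n + 1⦌) (r : ZMod 2) :
    bd X n (Finsupp.single x r) = ∑ i : Fin (n + 2), Finsupp.single (X.δ i x) r := by
  simp [bd, Finsupp.mapDomain_single]

/-- The comparison of the chain complex with finitely supported functions. -/
noncomputable def toF (X : SSet.{0}) (n : ℕ) :
    (X.chainComplex F2).X n ⟶ ModuleCat.of (ZMod 2) (Ch X n) :=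
  Cofan.IsColimit.desc (X.isColimitChainComplexXCofan F2 n)
    (fun x => ModuleCat.ofHom (Finsupp.lsingle x))

theorem ι_toF (X : SSet.{0}) (n : ℕ) (x : X _⦋n⦌) :
    X.ιChainComplex x ≫ toF X n = ModuleCat.ofHom (Finsupp.lsingle x) :=
  Cofan.IsColimit.fac (X.isColimitChainComplexXCofan F2 n) _ x

/-- The inverse comparison. -/
noncomputable def ofF (X : SSet.{0}) (n : ℕ) :
    ModuleCat.of (ZMod 2) (Ch X n) ⟶ (X.chainComplex F2).X n :=
  ModuleCat.ofHom (Finsupp.lsum (ZMod 2) (fun x => (X.ιChainComplex (R := F2) x).hom))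

theorem toF_ofF (X : SSet.{0}) (n : ℕ) : toF X n ≫ ofF X n = 𝟙 _ := by
  apply SSet.chainComplex_hom_ext
  intro x
  rw [← Category.assoc, ι_toF, Category.comp_id]
  apply pt_ext
  rw [ConcreteCategory.comp_apply]
  exact (Finsupp.lsum_single (ZMod 2) (fun x => (X.ιChainComplex (R := F2) x).hom) x 1)

theorem ofF_toF (X : SSet.{0}) (n : ℕ) : ofF X n ≫ toF X n = 𝟙 _ := by
  apply ModuleCat.hom_ext
  apply Finsupp.lhom_ext'
  intro x
  have := congrArg ModuleCat.Hom.hom (ι_toF X n x)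
  apply LinearMap.ext_ring
  have h2 : (ofF X n).hom (Finsupp.single x 1) = (X.ιChainComplex (R := F2) x).hom 1 :=
    Finsupp.lsum_single (ZMod 2) (fun x => (X.ιChainComplex (R := F2) x).hom) x 1
  have h3 := congrArg (fun φ => φ 1) this
  simp only [ModuleCat.hom_comp, ModuleCat.hom_ofHom, LinearMap.comp_apply,
    Finsupp.lsingle_apply, ModuleCat.hom_id, LinearMap.id_apply] at h3 ⊢
  rw [h2]
  exact h3

theorem map_toF {X Y : SSet.{0}} (f : X ⟶ Y) (n : ℕ) :
    (SSet.chainComplexMap f F2).f n ≫ toF Y n = toF X n ≫ ModuleCat.ofHom (push f n) := by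
  apply SSet.chainComplex_hom_ext
  intro x
  rw [ι_chainComplexMap_f_assoc, ι_toF, ← Category.assoc, ι_toF]
  ext
  simp [push_single]

theorem neg_one_pow_smul {A B : ModuleCat.{0} (ZMod 2)} (f : A ⟶ B) (j : ℕ) :
    ((-1 : ℤ) ^ j) • f = f := by
  have h2 : -f = f := by
    apply ModuleCat.hom_ext
    apply LinearMap.ext
    intro x
    have h3 : (2 : ZMod 2) • f.hom x = 0 := by
      rw [show (2 : ZMod 2) = 0 from rfl, zero_smul]
    rw [two_smul] at h3
    simp only [ModuleCat.hom_neg, LinearMap.neg_apply]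
    exact (eq_neg_of_add_eq_zero_left h3).symm
  rcases neg_one_pow_eq_or ℤ j with h | h
  · rw [h, one_smul]
  · rw [h, neg_smul, one_smul, h2]

theorem d_toF (X : SSet.{0}) (n : ℕ) :
    (X.chainComplex F2).d (n + 1) n ≫ toF X n = toF X (n + 1) ≫ ModuleCat.ofHom (bd X n) := by
  apply SSet.chainComplex_hom_ext
  intro x
  rw [ιChainComplex_d_assoc, Preadditive.sum_comp, ← Category.assoc, ι_toF]
  have h1 : ∀ j : Fin (n + 2),
      ((-1 : ℤ) ^ (j : ℕ) • X.ιChainComplex (R := F2) (X.δ j x)) ≫ toF X n =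
        ModuleCat.ofHom (Finsupp.lsingle (X.δ j x)) := by
    intro j
    rw [neg_one_pow_smul, ι_toF]
  rw [Finset.sum_congr rfl (fun j _ => h1 j)]
  apply ModuleCat.hom_ext
  apply LinearMap.ext
  intro r
  simp only [ModuleCat.hom_sum, ModuleCat.hom_comp, ModuleCat.hom_ofHom, LinearMap.comp_apply,
    LinearMap.sum_apply, Finsupp.lsingle_apply]
  exact (bd_single n x r).symm

/-- Cycles. -/
def Cyc (X : SSet.{0}) (n : ℕ) : Ch X n → Prop :=
  match n with
  | 0 => fun _ => True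
  | m + 1 => fun c => bd X m c = 0

/-- The comparison on elements. -/
noncomputable def tx (X : SSet.{0}) (n : ℕ) : (X.chainComplex F2).X n → Ch X n :=
  fun x => (toF X n).hom x

/-- The inverse comparison on elements. -/
noncomputable def sx (X : SSet.{0}) (n : ℕ) : Ch X n → (X.chainComplex F2).X n :=
  fun x => (ofF X n).hom x

theorem tx_sx (X : SSet.{0}) (n : ℕ) (c : Ch X n) : tx X n (sx X n c) = c :=
  ConcreteCategory.congr_hom (ofF_toF X n) c

theorem sx_tx (X : SSet.{0}) (n : ℕ) (c : (X.chainComplex F2).X n) : sx X n (tx X n c) = c :=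
  ConcreteCategory.congr_hom (toF_ofF X n) c

theorem tx_inj {X : SSet.{0}} {n : ℕ} {a b : (X.chainComplex F2).X n}
    (h : tx X n a = tx X n b) : a = b := by
  rw [← sx_tx X n a, ← sx_tx X n b, h]

theorem tx_add (X : SSet.{0}) (n : ℕ) (a b : (X.chainComplex F2).X n) :
    tx X n (a + b) = tx X n a + tx X n b :=
  map_add (toF X n).hom a b

theorem tx_zero (X : SSet.{0}) (n : ℕ) : tx X n 0 = 0 :=
  map_zero (toF X n).hom

theorem tx_map {X Y : SSet.{0}} (f : X ⟶ Y) (n : ℕ) (x : (X.chainComplex F2).X n) :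
    tx Y n ((SSet.chainComplexMap f F2).f n x) = push f n (tx X n x) :=
  ConcreteCategory.congr_hom (map_toF f n) x

theorem tx_d (X : SSet.{0}) (n : ℕ) (x : (X.chainComplex F2).X (n + 1)) :
    tx X n ((X.chainComplex F2).d (n + 1) n x) = bd X n (tx X (n + 1) x) :=
  ConcreteCategory.congr_hom (d_toF X n) x

theorem tx_cyc (X : SSet.{0}) (n : ℕ) (x : (X.chainComplex F2).X n) :
    (X.chainComplex F2).d n ((ComplexShape.down ℕ).next n) x = 0 ↔ Cyc X n (tx X n x) := by
  cases n with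
  | zero =>
    have h : (X.chainComplex F2).d 0 ((ComplexShape.down ℕ).next 0) = 0 := by
      apply (X.chainComplex F2).shape
      intro h
      simp [ComplexShape.down] at h
    rw [h]
    simp [Cyc]
  | succ m =>
    have h : (ComplexShape.down ℕ).next (m + 1) = m := ChainComplex.next_nat_succ m
    rw [h]
    show _ ↔ bd X m (tx X (m + 1) x) = 0
    rw [← tx_d]
    constructor
    · intro h
      rw [h, tx_zero]
    · intro h
      apply tx_inj
      rw [h, tx_zero]

/-- Elementwise form of `F2Iso`. -/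
theorem elem {X Y : SSet.{0}} (f : X ⟶ Y) : F2Iso f ↔ ∀ n : ℕ,
    (∀ y : Ch Y n, Cyc Y n y → ∃ x : Ch X n, Cyc X n x ∧ ∃ w : Ch Y (n + 1),
      y = push f n x + bd Y n w) ∧
    (∀ x : Ch X n, Cyc X n x → (∃ w : Ch Y (n + 1), push f n x = bd Y n w) →
      ∃ u : Ch X (n + 1), x = bd X n u) := by
  unfold F2Iso
  apply forall_congr'
  intro n
  rw [show IsIso (SSet.homologyMap f F2 n) ↔ _ from
    iso_iff (SSet.chainComplexMap f F2) (n + 1) n _ (ChainComplex.prev ℕ n) rfl]
  constructor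
  · rintro ⟨h1, h2⟩
    refine ⟨fun y hy => ?_, fun x hx hw => ?_⟩
    · obtain ⟨x, hx, w, hw⟩ := h1 (sx Y n y) ((tx_cyc Y n _).2 (by rwa [tx_sx]))
      refine ⟨tx X n x, (tx_cyc X n x).1 hx, tx Y (n + 1) w, ?_⟩
      rw [← tx_map, ← tx_d, ← tx_add, ← hw, tx_sx]
    · obtain ⟨w, hw⟩ := hw
      obtain ⟨u, hu⟩ := h2 (sx X n x) ((tx_cyc X n _).2 (by rwa [tx_sx])) ⟨sx Y (n + 1) w, by
        apply tx_inj
        rw [tx_map, tx_d, tx_sx, tx_sx, hw]⟩
      refine ⟨tx X (n + 1) u, ?_⟩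
      rw [← tx_d, ← hu, tx_sx]
  · rintro ⟨h1, h2⟩
    refine ⟨fun y hy => ?_, fun x hx hw => ?_⟩
    · obtain ⟨x, hx, w, hw⟩ := h1 (tx Y n y) ((tx_cyc Y n _).1 hy)
      refine ⟨sx X n x, (tx_cyc X n _).2 (by rwa [tx_sx]), sx Y (n + 1) w, ?_⟩
      apply tx_inj
      rw [tx_add, tx_map, tx_d, tx_sx, tx_sx, hw]
    · obtain ⟨w, hw⟩ := hw
      obtain ⟨u, hu⟩ := h2 (tx X n x) ((tx_cyc X n _).1 hx) ⟨tx Y (n + 1) w, by
        rw [← tx_map, ← tx_d, hw]⟩
      refine ⟨sx X (n + 1) u, ?_⟩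
      apply tx_inj
      rw [tx_d, tx_sx, hu]

/-! ## Formal properties -/

theorem f2c_iso {X Y : SSet.{0}} (f : X ⟶ Y) (hf : IsIso f) : F2Iso f := by
  intro n
  refine ⟨SSet.homologyMap (inv f) F2 n, ?_, ?_⟩
  · rw [← SSet.homologyMap_comp, IsIso.hom_inv_id, SSet.homologyMap_id]
  · rw [← SSet.homologyMap_comp, IsIso.inv_hom_id, SSet.homologyMap_id]

theorem f2c_comp {X Y Z : SSet.{0}} (f : X ⟶ Y) (g : Y ⟶ Z) (hf : F2Iso f) (hg : F2Iso g) :
    F2Iso (f ≫ g) := by
  intro n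
  have h1 := hf n
  have h2 := hg n
  rw [SSet.homologyMap_comp]
  exact IsIso.comp_isIso

theorem f2c_cancelL {X Y Z : SSet.{0}} (f : X ⟶ Y) (g : Y ⟶ Z) (hf : F2Iso f)
    (hg : F2Iso (f ≫ g)) : F2Iso g := by
  intro n
  have h1 := hf n
  have h2 := hg n
  rw [SSet.homologyMap_comp] at h2
  exact IsIso.of_isIso_comp_left (SSet.homologyMap f F2 n) (SSet.homologyMap g F2 n)

theorem f2c_cancelR {X Y Z : SSet.{0}} (f : X ⟶ Y) (g : Y ⟶ Z) (hf : F2Iso g)
    (hg : F2Iso (f ≫ g)) : F2Iso f := by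
  intro n
  have h1 := hf n
  have h2 := hg n
  rw [SSet.homologyMap_comp] at h2
  exact IsIso.of_isIso_comp_right (SSet.homologyMap f F2 n) (SSet.homologyMap g F2 n)

theorem f2c_six {X Y Z U : SSet.{0}} (f : X ⟶ Y) (g : Y ⟶ Z) (h : Z ⟶ U)
    (h1 : F2Iso (f ≫ g)) (h2 : F2Iso (g ≫ h)) : F2Iso g := by
  intro n
  have h3 := h1 n
  have h4 := h2 n
  rw [SSet.homologyMap_comp] at h3 h4
  have h5 : Mono (SSet.homologyMap g F2 n) := mono_of_mono _ (SSet.homologyMap h F2 n)
  have h6 : Epi (SSet.homologyMap g F2 n) := epi_of_epi (SSet.homologyMap f F2 n) _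
  exact isIso_of_mono_of_epi _

/-! ## Projections -/

/-- The contraction `Δ[n] ⊗ Δ[1] ⟶ Δ[n]` to the vertex `0`. -/
noncomputable def contr (n : ℕ) : (Δ[n] : SSet.{0}) ⊗ (Δ[1] : SSet.{0}) ⟶ (Δ[n] : SSet.{0}) where
  app m := ↾fun p => stdSimplex.objEquiv.symm (SimplexCategory.Hom.mk
    { toFun := fun i => if (stdSimplex.objEquiv p.2).toOrderHom i = 0 then 0 else
        (stdSimplex.objEquiv p.1).toOrderHom i
      monotone' := by
        intro i j hij
        have h1 := (stdSimplex.objEquiv p.2).toOrderHom.monotone hij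
        have h2 := (stdSimplex.objEquiv p.1).toOrderHom.monotone hij
        dsimp only
        split_ifs with h3 h4 h4
        · exact le_rfl
        · exact Fin.zero_le _
        · exfalso
          apply h3
          rw [h4] at h1
          exact le_antisymm h1 (Fin.zero_le _)
        · exact h2 })
  naturality := by
    intro a b g
    rfl

theorem ι₀_contr (n : ℕ) : ι₀ ≫ contr n = SSet.const (stdSimplex.obj₀Equiv.symm 0) := rfl

theorem ι₁_contr (n : ℕ) : ι₁ ≫ contr n = 𝟙 _ := by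
  apply NatTrans.ext
  funext m
  ext p
  apply stdSimplex.objEquiv.injective
  apply SimplexCategory.Hom.ext
  apply OrderHom.ext
  funext i
  rfl

/-- The section at the vertex `0`. -/
noncomputable def sec (X : SSet.{0}) (n : ℕ) : X ⟶ X ⊗ (Δ[n] : SSet.{0}) :=
  CartesianMonoidalCategory.lift (𝟙 X) (SSet.const (stdSimplex.obj₀Equiv.symm 0))

theorem f2c_proj (X : SSet.{0}) (n : ℕ) :
    F2Iso (CartesianMonoidalCategory.fst X (Δ[n] : SSet.{0})) := by
  have h1 : sec X n ≫ CartesianMonoidalCategory.fst X (Δ[n] : SSet.{0}) = 𝟙 X :=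
    CartesianMonoidalCategory.lift_fst _ _
  have h2 : Hty (CartesianMonoidalCategory.fst X (Δ[n] : SSet.{0}) ≫ sec X n) (𝟙 _) := by
    rw [Hty_iff]
    refine ⟨(α_ _ _ _).hom ≫ X ◁ contr n, ?_, ?_⟩
    · rfl
    · apply CartesianMonoidalCategory.hom_ext
      · rfl
      · exact congrArg (fun t => CartesianMonoidalCategory.snd X (Δ[n] : SSet.{0}) ≫ t)
          (ι₁_contr n)
  intro m
  obtain ⟨H⟩ := h2
  have h3 := H.congr_homologyMap F2 m
  refine ⟨SSet.homologyMap (sec X n) F2 m, ?_, ?_⟩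
  · rw [← SSet.homologyMap_comp, h3, SSet.homologyMap_id]
  · rw [← SSet.homologyMap_comp, h1, SSet.homologyMap_id]

/-! ## Levelwise facts -/

theorem seq_surj (F : ℕ ⥤ SSet.{0}) (c : Cocone F) (hc : IsColimit c) (m : SimplexCategoryᵒᵖ)
    (x : c.pt.obj m) : ∃ (k : ℕ) (y : (F.obj k).obj m), (c.ι.app k).app m y = x := by
  have h := isColimitOfPreserves ((evaluation SimplexCategoryᵒᵖ (Type)).obj m) hc
  obtain ⟨k, y, hy⟩ := Types.jointly_surjective_of_isColimit h x
  exact ⟨k, y, hy⟩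

theorem map_inj (F : ℕ ⥤ SSet.{0}) (hF : ∀ n : ℕ, Mono (F.map (homOfLE (Nat.le_succ n))))
    (m : SimplexCategoryᵒᵖ) {a b : ℕ} (g : a ⟶ b) :
    Function.Injective ((F.map g).app m) := by
  have h : ∀ (a b : ℕ) (hab : a ≤ b), Function.Injective ((F.map (homOfLE hab)).app m) := by
    intro a b hab
    induction b, hab using Nat.le_induction with
    | base =>
      have : (F.map (homOfLE (le_refl a))) = 𝟙 _ := F.map_id a
      rw [this]
      exact fun x y h => h
    | succ n hn ih =>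
      have h2 : F.map (homOfLE (hn.trans (Nat.le_succ n))) =
          F.map (homOfLE hn) ≫ F.map (homOfLE (Nat.le_succ n)) := by
        rw [← F.map_comp]
        rfl
      have h3 : Function.Injective ((F.map (homOfLE (Nat.le_succ n))).app m) := by
        have := hF n
        have h4 : Mono ((F.map (homOfLE (Nat.le_succ n))).app m) := inferInstance
        exact (mono_iff_injective _).1 h4
      rw [show F.map (homOfLE (Nat.le_succ_of_le hn)) = _ from h2]
      intro x y hxy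
      exact ih (h3 hxy)
  exact h a b (leOfHom g)

theorem ι_inj (F : ℕ ⥤ SSet.{0}) (hF : ∀ n : ℕ, Mono (F.map (homOfLE (Nat.le_succ n))))
    (c : Cocone F) (hc : IsColimit c) (m : SimplexCategoryᵒᵖ) (k : ℕ) :
    Function.Injective ((c.ι.app k).app m) := by
  have h := isColimitOfPreserves ((evaluation SimplexCategoryᵒᵖ (Type)).obj m) hc
  intro x y hxy
  obtain ⟨j, f, hf⟩ := (Types.FilteredColimit.isColimit_eq_iff'
    (F := F ⋙ (evaluation SimplexCategoryᵒᵖ (Type)).obj m) h x y).1 hxy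
  exact map_inj F hF m f hf

/-- The evaluated coproduct cofan is a colimit. -/
noncomputable def cofH (J : Type) (X : J → SSet.{0}) (m : SimplexCategoryᵒᵖ) :
    IsColimit (Cofan.mk ((∐ X).obj m) (fun j => (Sigma.ι X j).app m) :
      Cofan (fun j => (X j).obj m)) :=
  isColimitOfHasCoproductOfPreservesColimit ((evaluation SimplexCategoryᵒᵖ (Type)).obj m) X

theorem cof_surj (J : Type) (X : J → SSet.{0}) (m : SimplexCategoryᵒᵖ) (x : (∐ X).obj m) :
    ∃ (j : J) (y : (X j).obj m), (Sigma.ι X j).app m y = x :=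
  Cofan.inj_jointly_surjective_of_isColimit (cofH J X m) x

theorem cof_inj (J : Type) (X : J → SSet.{0}) (m : SimplexCategoryᵒᵖ) (j : J) :
    Function.Injective ((Sigma.ι X j).app m) :=
  Cofan.inj_injective_of_isColimit (cofH J X m) j

theorem cof_eq (J : Type) (X : J → SSet.{0}) (m : SimplexCategoryᵒᵖ) {i j : J}
    (x : (X i).obj m) (y : (X j).obj m) (h : (Sigma.ι X i).app m x = (Sigma.ι X j).app m y) :
    i = j :=
  Cofan.eq_of_inj_apply_eq_of_isColimit (cofH J X m) x y h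

/-! ## Chains -/

theorem push_comp {X Y Z : SSet.{0}} (f : X ⟶ Y) (g : Y ⟶ Z) (n : ℕ) (c : Ch X n) :
    push (f ≫ g) n c = push g n (push f n c) := by
  induction c using Finsupp.induction_linear with
  | zero => simp
  | add a b ha hb => simp [ha, hb]
  | single x r =>
    rw [push_single, push_single, push_single]
    rfl

theorem bd_push {X Y : SSet.{0}} (f : X ⟶ Y) (n : ℕ) (c : Ch X (n + 1)) :
    bd Y n (push f (n + 1) c) = push f n (bd X n c) := by
  induction c using Finsupp.induction_linear with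
  | zero => simp
  | add a b ha hb => simp [ha, hb]
  | single x r =>
    rw [push_single, bd_single, bd_single, map_sum]
    apply Finset.sum_congr rfl
    intro i _
    rw [push_single]
    congr 1
    exact (SSet.δ_naturality_apply f i x).symm

theorem push_inj {X Y : SSet.{0}} (f : X ⟶ Y) (n : ℕ)
    (hf : Function.Injective (f.app (op ⦋n⦌))) : Function.Injective (push f n) :=
  Finsupp.mapDomain_injective hf

theorem cyc_push {X Y : SSet.{0}} (f : X ⟶ Y) (n : ℕ) (c : Ch X n) (h : Cyc X n c) :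
    Cyc Y n (push f n c) := by
  cases n with
  | zero => trivial
  | succ m =>
    show bd Y m (push f (m + 1) c) = 0
    rw [bd_push, show bd X m c = 0 from h, map_zero]

theorem cyc_of_push {X Y : SSet.{0}} (f : X ⟶ Y)
    (hf : ∀ n : ℕ, Function.Injective (f.app (op ⦋n⦌))) (n : ℕ) (c : Ch X n)
    (h : Cyc Y n (push f n c)) : Cyc X n c := by
  cases n with
  | zero => trivial
  | succ m =>
    show bd X m c = 0
    apply push_inj f m (hf m)
    rw [← bd_push, map_zero]
    exact h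

/-! ## Sequential colimits -/

theorem stage_up (F : ℕ ⥤ SSet.{0}) (c : Cocone F) (n : ℕ) {k l : ℕ} (h : k ≤ l)
    (y : Ch (F.obj k) n) :
    push (c.ι.app l) n (push (F.map (homOfLE h)) n y) = push (c.ι.app k) n y := by
  rw [← push_comp, c.w]

theorem seq_chain (F : ℕ ⥤ SSet.{0}) (c : Cocone F) (hc : IsColimit c) (n : ℕ)
    (x : Ch c.pt n) : ∃ (k : ℕ) (y : Ch (F.obj k) n), push (c.ι.app k) n y = x := by
  induction x using Finsupp.induction_linear with
  | zero => exact ⟨0, 0, map_zero _⟩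
  | add a b ha hb =>
    obtain ⟨k, y, rfl⟩ := ha
    obtain ⟨l, z, rfl⟩ := hb
    refine ⟨max k l, push (F.map (homOfLE (le_max_left k l))) n y +
      push (F.map (homOfLE (le_max_right k l))) n z, ?_⟩
    rw [map_add, stage_up, stage_up]
  | single x r =>
    obtain ⟨k, y, hy⟩ := seq_surj F c hc (op ⦋n⦌) x
    exact ⟨k, Finsupp.single y r, by rw [push_single, hy]⟩

theorem f2c_seq (F G : ℕ ⥤ SSet.{0}) (α : F ⟶ G)
    (cF : Cocone F) (cG : Cocone G) (hF : IsColimit cF) (hG : IsColimit cG)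
    (mF : ∀ n : ℕ, Mono (F.map (homOfLE (Nat.le_succ n))))
    (mG : ∀ n : ℕ, Mono (G.map (homOfLE (Nat.le_succ n))))
    (hα : ∀ n : ℕ, F2Iso (α.app n)) (f : cF.pt ⟶ cG.pt)
    (hf : ∀ n : ℕ, cF.ι.app n ≫ f = α.app n ≫ cG.ι.app n) : F2Iso f := by
  rw [elem]
  intro n
  have hfp : ∀ (k m : ℕ) (x : Ch (F.obj k) m), push f m (push (cF.ι.app k) m x) =
      push (cG.ι.app k) m (push (α.app k) m x) := by
    intro k m x
    rw [← push_comp, hf, push_comp]
  constructor
  · intro y hy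
    obtain ⟨k, y', rfl⟩ := seq_chain G cG hG n y
    have hy' : Cyc (G.obj k) n y' :=
      cyc_of_push (cG.ι.app k) (fun m => ι_inj G mG cG hG (op ⦋m⦌) k) n y' hy
    obtain ⟨x, hx, w, hw⟩ := (((elem (α.app k)).1 (hα k)) n).1 y' hy'
    refine ⟨push (cF.ι.app k) n x, cyc_push _ _ _ hx, push (cG.ι.app k) (n + 1) w, ?_⟩
    rw [hw, map_add, hfp, bd_push]
  · intro x hx hw
    obtain ⟨w, hw⟩ := hw
    obtain ⟨k, x', rfl⟩ := seq_chain F cF hF n x
    obtain ⟨l, w', rfl⟩ := seq_chain G cG hG (n + 1) w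
    have hx' : Cyc (F.obj k) n x' :=
      cyc_of_push (cF.ι.app k) (fun m => ι_inj F mF cF hF (op ⦋m⦌) k) n x' hx
    set x2 := push (F.map (homOfLE (le_max_left k l))) n x' with hx2
    have hx2' : Cyc (F.obj (max k l)) n x2 := cyc_push _ _ _ hx'
    have e1 : push (α.app (max k l)) n x2 =
        bd _ n (push (G.map (homOfLE (le_max_right k l))) (n + 1) w') := by
      apply push_inj (cG.ι.app (max k l)) n (ι_inj G mG cG hG (op ⦋n⦌) _)
      rw [← hfp, hx2, stage_up, hw, ← bd_push, stage_up]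
      rfl
    obtain ⟨u, hu⟩ := (((elem (α.app (max k l))).1 (hα _)) n).2 x2 hx2' ⟨_, e1⟩
    refine ⟨push (cF.ι.app (max k l)) (n + 1) u, ?_⟩
    rw [bd_push, ← hu, hx2, stage_up]

/-! ## Coproducts -/

section Copr

variable {J : Type} (X : J → SSet.{0})

/-- Restriction of chains to a summand. -/
noncomputable def res (j : J) (n : ℕ) : Ch (∐ X) n →ₗ[ZMod 2] Ch (X j) n :=
  Finsupp.lcomapDomain ((Sigma.ι X j).app (op ⦋n⦌)) (cof_inj J X (op ⦋n⦌) j)

theorem res_self (j : J) (n : ℕ) (c : Ch (X j) n) :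
    res X j n (push (Sigma.ι X j) n c) = c := by
  ext x
  exact Finsupp.mapDomain_apply (cof_inj J X (op ⦋n⦌) j) c x

theorem res_of_ne {i j : J} (h : i ≠ j) (n : ℕ) (c : Ch (X i) n) :
    res X j n (push (Sigma.ι X i) n c) = 0 := by
  ext x
  apply Finsupp.mapDomain_of_notMem_range
  rintro ⟨y, hy⟩
  exact h (cof_eq J X (op ⦋n⦌) y x hy)

/-- Induction on chains of a coproduct. -/
theorem copr_ind (n : ℕ) {p : Ch (∐ X) n → Prop} (h0 : p 0) (h1 : ∀ a b, p a → p b → p (a + b))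
    (h2 : ∀ (j : J) (c : Ch (X j) n), p (push (Sigma.ι X j) n c)) (c : Ch (∐ X) n) : p c := by
  induction c using Finsupp.induction_linear with
  | zero => exact h0
  | add a b ha hb => exact h1 a b ha hb
  | single x r =>
    obtain ⟨j, y, rfl⟩ := cof_surj J X (op ⦋n⦌) x
    rw [← push_single]
    exact h2 j _

theorem res_bd (j : J) (n : ℕ) (c : Ch (∐ X) (n + 1)) :
    res X j n (bd _ n c) = bd _ n (res X j (n + 1) c) := by
  classical
  induction c using copr_ind X with
  | h0 => simp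
  | h1 a b ha hb => simp [ha, hb]
  | h2 i c =>
    rw [bd_push]
    by_cases h : i = j
    · subst h
      rw [res_self, res_self]
    · rw [res_of_ne X h, res_of_ne X h, map_zero]

theorem res_push {Y : J → SSet.{0}} (f : ∀ j, X j ⟶ Y j) (j : J) (n : ℕ) (c : Ch (∐ X) n) :
    res Y j n (push (Limits.Sigma.map f) n c) = push (f j) n (res X j n c) := by
  classical
  induction c using copr_ind X with
  | h0 => simp
  | h1 a b ha hb => simp [ha, hb]
  | h2 i c =>
    rw [← push_comp, Sigma.ι_map, push_comp]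
    by_cases h : i = j
    · subst h
      rw [res_self, res_self]
    · rw [res_of_ne Y h, res_of_ne X h, map_zero]

theorem res_sum (n : ℕ) (c : Ch (∐ X) n) :
    ∃ s : Finset J, ∀ t : Finset J, s ⊆ t →
      c = ∑ j ∈ t, push (Sigma.ι X j) n (res X j n c) := by
  classical
  induction c using copr_ind X with
  | h0 => exact ⟨∅, fun t _ => by simp⟩
  | h1 a b ha hb =>
    obtain ⟨s, hs⟩ := ha
    obtain ⟨s', hs'⟩ := hb
    refine ⟨s ∪ s', fun t ht => ?_⟩
    conv_lhs => rw [hs t (Finset.union_subset_left ht), hs' t (Finset.union_subset_right ht)]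
    rw [← Finset.sum_add_distrib]
    apply Finset.sum_congr rfl
    intro j _
    rw [map_add, map_add]
  | h2 i c =>
    refine ⟨{i}, fun t ht => ?_⟩
    rw [Finset.sum_eq_single i]
    · rw [res_self]
    · intro j _ hj
      rw [res_of_ne X (Ne.symm hj), map_zero]
    · intro hi
      exact absurd (ht (Finset.mem_singleton_self i)) hi

theorem cyc_res (j : J) (n : ℕ) (c : Ch (∐ X) n) (h : Cyc _ n c) : Cyc _ n (res X j n c) := by
  cases n with
  | zero => trivial
  | succ m =>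
    show bd _ m (res X j (m + 1) c) = 0
    rw [← res_bd, show bd _ m c = 0 from h, map_zero]

theorem cyc_sum {Z : SSet.{0}} (n : ℕ) (s : Finset J) (c : J → Ch Z n)
    (h : ∀ j, Cyc Z n (c j)) : Cyc Z n (∑ j ∈ s, c j) := by
  cases n with
  | zero => trivial
  | succ m =>
    show bd _ m _ = 0
    rw [map_sum]
    exact Finset.sum_eq_zero (fun j _ => h j)

theorem f2c_copr (Y : J → SSet.{0}) (f : ∀ j, X j ⟶ Y j) (hf : ∀ j, F2Iso (f j)) :
    F2Iso (Limits.Sigma.map f) := by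
  rw [elem]
  intro n
  constructor
  · intro y hy
    have h1 := fun j => (((elem (f j)).1 (hf j)) n).1 (res Y j n y) (cyc_res Y j n y hy)
    choose x hx w hw using h1
    obtain ⟨s, hs⟩ := res_sum Y n y
    refine ⟨∑ j ∈ s, push (Sigma.ι X j) n (x j), cyc_sum n s _ (fun j => cyc_push _ _ _ (hx j)),
      ∑ j ∈ s, push (Sigma.ι Y j) (n + 1) (w j), ?_⟩
    conv_lhs => rw [hs s (Finset.Subset.refl s)]
    rw [map_sum, map_sum, ← Finset.sum_add_distrib]
    apply Finset.sum_congr rfl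
    intro j _
    rw [hw j, map_add, ← push_comp, ← push_comp, Sigma.ι_map, bd_push]
  · intro x hx hw
    obtain ⟨w, hw⟩ := hw
    have h1 : ∀ j, ∃ u, res X j n x = bd _ n u := by
      intro j
      apply (((elem (f j)).1 (hf j)) n).2 (res X j n x) (cyc_res X j n x hx)
      refine ⟨res Y j (n + 1) w, ?_⟩
      rw [← res_push, hw, res_bd]
    choose u hu using h1
    obtain ⟨s, hs⟩ := res_sum X n x
    refine ⟨∑ j ∈ s, push (Sigma.ι X j) (n + 1) (u j), ?_⟩
    conv_lhs => rw [hs s (Finset.Subset.refl s)]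
    rw [map_sum]
    apply Finset.sum_congr rfl
    intro j _
    rw [hu j, bd_push]

end Copr

end Pool.Agent.SH.F2Copr

namespace Pool.Agent.SH

open F2Copr in
/-- Elementwise form of `F2Iso`: chains are finitely supported functions `X _⦋n⦌ →₀ ZMod 2`,
the boundary is `F2Copr.bd` (see `f2_bd_apply`), the map on chains is `F2Copr.push`
(see `f2_push_apply`), `F2Copr.Cyc` is the predicate of being a cycle (see `f2_cyc_zero` and
`f2_cyc_succ`). -/
theorem f2_elem {X Y : SSet.{0}} (f : X ⟶ Y) : F2Iso f ↔ ∀ n : ℕ,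
    (∀ y : Y _⦋n⦌ →₀ ZMod 2, Cyc Y n y → ∃ x : X _⦋n⦌ →₀ ZMod 2, Cyc X n x ∧
      ∃ w : Y _⦋n + 1⦌ →₀ ZMod 2, y = push f n x + bd Y n w) ∧
    (∀ x : X _⦋n⦌ →₀ ZMod 2, Cyc X n x →
      (∃ w : Y _⦋n + 1⦌ →₀ ZMod 2, push f n x = bd Y n w) →
      ∃ u : X _⦋n + 1⦌ →₀ ZMod 2, x = bd X n u) :=
  F2Copr.elem f

theorem f2_bd_apply (X : SSet.{0}) (n : ℕ) (c : X _⦋n + 1⦌ →₀ ZMod 2) :
    F2Copr.bd X n c = ∑ i : Fin (n + 2), c.mapDomain (X.δ i) := by
  simp [F2Copr.bd]

theorem f2_push_apply {X Y : SSet.{0}} (f : X ⟶ Y) (n : ℕ) (c : X _⦋n⦌ →₀ ZMod 2) :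
    F2Copr.push f n c = c.mapDomain (f.app (op ⦋n⦌)) := rfl

theorem f2_cyc_zero (X : SSet.{0}) (c : X _⦋0⦌ →₀ ZMod 2) : F2Copr.Cyc X 0 c ↔ True :=
  Iff.rfl

theorem f2_cyc_succ (X : SSet.{0}) (n : ℕ) (c : X _⦋n + 1⦌ →₀ ZMod 2) :
    F2Copr.Cyc X (n + 1) c ↔ F2Copr.bd X n c = 0 := Iff.rfl

theorem f2_iso : ∀ {X Y : SSet.{0}} (f : X ⟶ Y), IsIso f → F2Iso f :=
  fun f h => F2Copr.f2c_iso f h

theorem f2_comp : ∀ {X Y Z : SSet.{0}} (f : X ⟶ Y) (g : Y ⟶ Z),
    F2Iso f → F2Iso g → F2Iso (f ≫ g) :=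
  fun f g h1 h2 => F2Copr.f2c_comp f g h1 h2

theorem f2_cancelL : ∀ {X Y Z : SSet.{0}} (f : X ⟶ Y) (g : Y ⟶ Z),
    F2Iso f → F2Iso (f ≫ g) → F2Iso g :=
  fun f g h1 h2 => F2Copr.f2c_cancelL f g h1 h2

theorem f2_cancelR : ∀ {X Y Z : SSet.{0}} (f : X ⟶ Y) (g : Y ⟶ Z),
    F2Iso g → F2Iso (f ≫ g) → F2Iso f :=
  fun f g h1 h2 => F2Copr.f2c_cancelR f g h1 h2

theorem f2_six : ∀ {X Y Z U : SSet.{0}} (f : X ⟶ Y) (g : Y ⟶ Z) (h : Z ⟶ U),
    F2Iso (f ≫ g) → F2Iso (g ≫ h) → F2Iso g :=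
  fun f g h h1 h2 => F2Copr.f2c_six f g h h1 h2

theorem f2_proj : ∀ (X : SSet.{0}) (n : ℕ),
    F2Iso (CartesianMonoidalCategory.fst X (Δ[n] : SSet.{0})) :=
  fun X n => F2Copr.f2c_proj X n

theorem f2_copr : ∀ (J : Type) (X Y : J → SSet.{0}) (f : ∀ j, X j ⟶ Y j), (∀ j, F2Iso (f j)) →
    F2Iso (Limits.Sigma.map f) :=
  fun _ X Y f hf => F2Copr.f2c_copr X Y f hf

theorem f2_seq : ∀ (F G : ℕ ⥤ SSet.{0}) (α : F ⟶ G)
    (cF : Cocone F) (cG : Cocone G), IsColimit cF → IsColimit cG →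
    (∀ n : ℕ, Mono (F.map (homOfLE (Nat.le_succ n)))) →
    (∀ n : ℕ, Mono (G.map (homOfLE (Nat.le_succ n)))) →
    (∀ n : ℕ, F2Iso (α.app n)) →
    ∀ f : cF.pt ⟶ cG.pt, (∀ n : ℕ, cF.ι.app n ≫ f = α.app n ≫ cG.ι.app n) → F2Iso f :=
  fun F G α cF cG hF hG mF mG hα f hf => F2Copr.f2c_seq F G α cF cG hF hG mF mG hα f hf

end Pool.Agent.SH
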