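import Mathlib
import Pool.Agent.SH.StmtsTE

/-!
# The gluing lemma for isomorphisms on homology with coefficients in `F_2`
-/

open CategoryTheory MonoidalCategory Simplicial SSet HomotopicalAlgebra Opposite Limits
open SSet.modelCategoryQuillen

namespace Pool.Agent.SH

namespace F2Glue

/-- The functor of chains. -/
noncomputable abbrev Ch : SSet.{0} ⥤ ChainComplex (ModuleCat.{0} (ZMod 2)) ℕ :=
  (SSet.chainComplexFunctor (ModuleCat.{0} (ZMod 2))).obj F2

theorem f2Iso_iff {X Y : SSet.{0}} (f : X ⟶ Y) : F2Iso f ↔ QuasiIso (Ch.map f) := by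
  rw [quasiIso_iff]
  constructor
  · intro h n
    rw [quasiIsoAt_iff_isIso_homologyMap]
    exact h n
  · intro h n
    have := h n
    rw [quasiIsoAt_iff_isIso_homologyMap] at this
    exact this

instance presEval (n : ℕ) : PreservesColimitsOfShape WalkingSpan
    (Ch ⋙ HomologicalComplex.eval (ModuleCat.{0} (ZMod 2)) (ComplexShape.down ℕ) n) :=
  inferInstanceAs (PreservesColimitsOfShape WalkingSpan
    ((CategoryTheory.evaluation _ _).obj (op ⦋n⦌) ⋙ sigmaConst.obj F2))

instance pres : PreservesColimitsOfShape WalkingSpan Ch :=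
  HomologicalComplex.preservesColimitsOfShape_of_eval Ch fun n => presEval n

theorem mono_ch {X Y : SSet.{0}} (f : X ⟶ Y) [Mono f] : Mono (Ch.map f) := by
  apply HomologicalComplex.mono_of_mono_f
  intro n
  have h1 : Mono (f.app (op ⦋n⦌)) := inferInstance
  exact (inferInstance : Mono ((sigmaConst.obj F2).map (f.app (op ⦋n⦌))))

/-- Direct sums of quasi-isomorphisms. -/
theorem quasiIso_biprod {K L K' L' : ChainComplex (ModuleCat.{0} (ZMod 2)) ℕ} (b : K ⟶ K')
    (c : L ⟶ L') (hb : QuasiIso b) (hc : QuasiIso c) : QuasiIso (biprod.map b c) := by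
  rw [quasiIso_iff]
  intro n
  rw [quasiIsoAt_iff_isIso_homologyMap]
  have hb' : IsIso (HomologicalComplex.homologyMap b n) := inferInstance
  have hc' : IsIso (HomologicalComplex.homologyMap c n) := inferInstance
  refine ⟨HomologicalComplex.homologyMap biprod.fst n ≫ inv (HomologicalComplex.homologyMap b n) ≫
    HomologicalComplex.homologyMap biprod.inl n +
    HomologicalComplex.homologyMap biprod.snd n ≫ inv (HomologicalComplex.homologyMap c n) ≫
    HomologicalComplex.homologyMap biprod.inr n, ?_, ?_⟩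
  · rw [Preadditive.comp_add, ← HomologicalComplex.homologyMap_comp_assoc,
      ← HomologicalComplex.homologyMap_comp_assoc, biprod.map_fst, biprod.map_snd,
      HomologicalComplex.homologyMap_comp, HomologicalComplex.homologyMap_comp, Category.assoc,
      Category.assoc, IsIso.hom_inv_id_assoc, IsIso.hom_inv_id_assoc,
      ← HomologicalComplex.homologyMap_comp, ← HomologicalComplex.homologyMap_comp,
      ← HomologicalComplex.homologyMap_add, biprod.total, HomologicalComplex.homologyMap_id]
  · rw [Preadditive.add_comp, Category.assoc, Category.assoc, Category.assoc, Category.assoc,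
      ← HomologicalComplex.homologyMap_comp, ← HomologicalComplex.homologyMap_comp,
      biprod.inl_map, biprod.inr_map,
      HomologicalComplex.homologyMap_comp, HomologicalComplex.homologyMap_comp,
      IsIso.inv_hom_id_assoc, IsIso.inv_hom_id_assoc,
      ← HomologicalComplex.homologyMap_comp, ← HomologicalComplex.homologyMap_comp,
      ← HomologicalComplex.homologyMap_add, biprod.total, HomologicalComplex.homologyMap_id]

/-- The short exact sequence of a pushout square. -/
theorem shortExact {K₁ K₂ K₃ K₄ : ChainComplex (ModuleCat.{0} (ZMod 2)) ℕ} {f : K₁ ⟶ K₂}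
    {g : K₁ ⟶ K₃} {inl : K₂ ⟶ K₄} {inr : K₃ ⟶ K₄} (h : IsPushout f g inl inr) (hf : Mono f) :
    h.shortComplex.ShortExact := by
  have h1 : Mono (biprod.lift f (-g) ≫ biprod.fst) := by
    rw [biprod.lift_fst]
    exact hf
  exact
    { exact := h.exact_shortComplex
      mono_f := mono_of_mono (biprod.lift f (-g)) biprod.fst
      epi_g := h.epi_shortComplex_g }

end F2Glue

open F2Glue

theorem f2_glue : ∀ {A B C D A' B' C' D' : SSet.{0}}
      (i : A ⟶ B) (f : A ⟶ C) (g : B ⟶ D) (j : C ⟶ D)
      (i' : A' ⟶ B') (f' : A' ⟶ C') (g' : B' ⟶ D') (j' : C' ⟶ D')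
      (a : A ⟶ A') (b : B ⟶ B') (c : C ⟶ C') (d : D ⟶ D'),
      IsPushout i f g j → IsPushout i' f' g' j' → Mono i → Mono i' →
      i ≫ b = a ≫ i' → f ≫ c = a ≫ f' → g ≫ d = b ≫ g' → j ≫ d = c ≫ j' →
      F2Iso a → F2Iso b → F2Iso c → F2Iso d := by
  intro A B C D A' B' C' D' i f g j i' f' g' j' a b c d hP hP' hi hi' e1 e2 e3 e4 ha hb hc
  rw [f2Iso_iff] at ha hb hc ⊢
  have hS := shortExact (hP.map Ch) (mono_ch i)
  have hS' := shortExact (hP'.map Ch) (mono_ch i')
  let φ : (hP.map Ch).shortComplex ⟶ (hP'.map Ch).shortComplex :=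
    { τ₁ := Ch.map a
      τ₂ := biprod.map (Ch.map b) (Ch.map c)
      τ₃ := Ch.map d
      comm₁₂ := by
        change Ch.map a ≫ biprod.lift (Ch.map i') (-Ch.map f') =
          biprod.lift (Ch.map i) (-Ch.map f) ≫ biprod.map (Ch.map b) (Ch.map c)
        apply biprod.hom_ext
        · rw [Category.assoc, biprod.lift_fst, Category.assoc, biprod.map_fst,
            biprod.lift_fst_assoc, ← Ch.map_comp, ← Ch.map_comp, e1]
        · rw [Category.assoc, biprod.lift_snd, Category.assoc, biprod.map_snd,
            biprod.lift_snd_assoc, Preadditive.comp_neg, Preadditive.neg_comp,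
            ← Ch.map_comp, ← Ch.map_comp, e2]
      comm₂₃ := by
        change biprod.map (Ch.map b) (Ch.map c) ≫ biprod.desc (Ch.map g') (Ch.map j') =
          biprod.desc (Ch.map g) (Ch.map j) ≫ Ch.map d
        apply biprod.hom_ext'
        · rw [biprod.inl_map_assoc, biprod.inl_desc, biprod.inl_desc_assoc,
            ← Ch.map_comp, ← Ch.map_comp, e3]
        · rw [biprod.inr_map_assoc, biprod.inr_desc, biprod.inr_desc_assoc,
            ← Ch.map_comp, ← Ch.map_comp, e4] }
  exact HomologicalComplex.HomologySequence.quasiIso_τ₃ φ hS hS' ha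
    (quasiIso_biprod _ _ hb hc)

end Pool.Agent.SH
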