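import Mathlib
import Pool.Agent.SH.StmtsTE
import Pool.Agent.SH.F2Copr
import Pool.Agent.SH.F2Glue

/-!
# MP_2d0b73_an, block TE: `F_2`-homology isomorphisms form a `WClass` (F1)
-/

open CategoryTheory MonoidalCategory Simplicial SSet HomotopicalAlgebra Opposite Limits
open SSet.modelCategoryQuillen

namespace Pool.Agent.SH

/-- (F1) `F_2`-homology isomorphisms form a `WClass`. -/
theorem f2_wc : F2_WC_Stmt where
  iso := f2_iso
  comp := f2_comp
  cancelL := f2_cancelL
  cancelR := f2_cancelR
  six := f2_six
  proj := f2_proj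
  glue := f2_glue
  copr := f2_copr
  seq := f2_seq

end Pool.Agent.SH
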