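import Pool.Agent.SH.Top

/-!
# Approximate factorization through a surjection of compacta
-/

set_option autoImplicit false

open Set Topology

namespace Pool.Agent.SH

theorem FAC (hR : Stmt_RET) : Stmt_FAC := by
  intro P _ Q ε hε
  obtain ⟨ε₀, hε₀, r, hrc, hrQ, hrid, hrδ⟩ := hR P Q
  obtain ⟨η, hη, hηε, hηδ⟩ := hrδ ε hε
  refine ⟨η, hη, ?_⟩
  intro A B _ _ _ _ _ _ pr f hpr hsurj hf hfQ hosc
  choose s hs using hsurj
  set U : B → Set B := fun b => {b' | ∀ z, pr z = b' → ∀ a ∈ Q, |f z a - f (s b) a| < η} with hU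
  have hUo : ∀ b, IsOpen (U b) := by
    intro b
    have h1 : IsOpen {z : A | ∀ a ∈ Q, |f z a - f (s b) a| < η} := by
      have h2 : {z : A | ∀ a ∈ Q, |f z a - f (s b) a| < η} =
          ⋂ a ∈ Q, {z : A | |f z a - f (s b) a| < η} := by
        ext z
        simp
      rw [h2]
      refine isOpen_biInter_finset fun a _ => ?_
      exact isOpen_lt (((continuous_apply a).comp hf).sub continuous_const).abs continuous_const
    have h3 : U b = (pr '' {z : A | ∀ a ∈ Q, |f z a - f (s b) a| < η}ᶜ)ᶜ := by
      ext b'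
      constructor
      · rintro h ⟨z, hz, rfl⟩
        exact hz (h z rfl)
      · intro h z hz
        by_contra hn
        exact h ⟨z, hn, hz⟩
    rw [h3]
    exact (hpr.isClosedMap _ h1.isClosed_compl).isOpen_compl
  have hUb : ∀ b, b ∈ U b := by
    intro b z hz a ha
    exact hosc z (s b) (hz.trans (hs b).symm) a ha
  obtain ⟨ρ, hρ⟩ := PartitionOfUnity.exists_isSubordinate (isClosed_univ : IsClosed (univ : Set B))
    U hUo (fun b _ => mem_iUnion.2 ⟨b, hUb b⟩)
  set F : B → P → ℝ := fun b => ∑ᶠ i, ρ i b • f (s i) with hF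
  have hFc : Continuous F := ρ.continuous_finsum_smul fun i x _ => continuousAt_const
  have hFz : ∀ z, ∀ a ∈ Q, |F (pr z) a - f z a| < η := by
    intro z
    have hconv : Convex ℝ {p : P → ℝ | ∀ a ∈ Q, |p a - f z a| < η} := by
      intro p hp q hq α β hα hβ hαβ a ha
      have e : (α • p + β • q) a - f z a = α * (p a - f z a) + β * (q a - f z a) := by
        simp only [Pi.add_apply, Pi.smul_apply, smul_eq_mul]
        have : α * f z a + β * f z a = f z a := by rw [← add_mul, hαβ, one_mul]
        linarith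
      show |(α • p + β • q) a - f z a| < η
      rw [e]
      refine lt_of_le_of_lt (abs_add_le _ _) ?_
      rw [abs_mul, abs_mul, abs_of_nonneg hα, abs_of_nonneg hβ]
      rcases eq_or_lt_of_le hα with h0 | h0
      · have : β = 1 := by rw [← h0] at hαβ; simpa using hαβ
        rw [← h0, this, zero_mul, zero_add, one_mul]
        exact hq a ha
      · have h1 : α * |p a - f z a| < α * η := mul_lt_mul_of_pos_left (hp a ha) h0
        have h2 : β * |q a - f z a| ≤ β * η := mul_le_mul_of_nonneg_left (hq a ha).le hβ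
        have : α * η + β * η = η := by rw [← add_mul, hαβ, one_mul]
        linarith
    have := ρ.finsum_smul_mem_convex (g := fun i _ => f (s i)) (mem_univ (pr z))
      (t := {p : P → ℝ | ∀ a ∈ Q, |p a - f z a| < η}) ?_ hconv
    · exact this
    · intro i hi a ha
      have h1 : pr z ∈ U i := hρ i (subset_closure hi)
      have h2 := h1 z rfl a ha
      rw [abs_sub_comm]
      exact h2
  have hFNB : ∀ b, F b ∈ NB Q ε₀ := by
    intro b
    refine ⟨f (s b), hfQ _, fun a ha => ?_⟩
    have := hFz (s b) a ha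
    rw [hs b] at this
    exact this.trans_le hηε
  refine ⟨fun b => r (F b), hrc.comp_continuous hFc hFNB, fun b => hrQ _ (hFNB b), ?_⟩
  intro z a ha
  rw [abs_sub_comm]
  exact hηδ _ _ (hfQ z) (hFz z) a ha

end Pool.Agent.SH
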