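import Pool.Agent.SH.StmtsR

/-!
# MP_2d0b73_an: the upper bound for sofic mean dimension
-/

set_option autoImplicit false

open Set Topology Filter

namespace Pool.Agent.SH

theorem FIN (h1 : Stmt_LEB) (h2 : Stmt_BAD) (h3 : Stmt_MAPD) : Stmt_FIN := by
  intro K _ _ _ _ c hDB G _ S ρ hρ
  have hpos : ∀ x y, 0 ≤ ρ x y := by
    obtain ⟨m, -, hd⟩ := hρ
    intro x y
    rw [hd]
    exact @dist_nonneg _ m.toPseudoMetricSpace x y
  refine iSup₂_le fun U hU => ?_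
  obtain ⟨F, ι, hι, V, τ, hτ, hVo, hVc, hc⟩ := h1 K G ρ U hρ hU
  obtain ⟨K0, hK⟩ := hDB ι V hVo hVc
  rw [← EReal.le_of_forall_lt_iff_le]
  intro z hz
  have hz' : (c : ℝ) < z := by exact_mod_cast hz
  set η : ℝ := (z - c) / 2 with hη
  have hη0 : 0 < η := by rw [hη]; linarith
  set A : ℝ := F.card * (U.ncard + 1) / τ with hA
  have hA0 : 0 ≤ A := by positivity
  set δ : ℝ := η / (A + 1) with hδ
  have hδ0 : 0 < δ := by positivity
  have hAδ : A * δ ≤ η := by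
    rw [hδ, mul_div_assoc', div_le_iff₀ (by positivity)]
    nlinarith
  refine iInf_le_of_le F (iInf_le_of_le δ (iInf_le_of_le hδ0 ?_))
  refine Filter.limsup_le_of_le ?_ ?_
  · isBoundedDefault
  have hev : ∀ᶠ i in atTop, max 1 ⌈(K0 : ℝ) / η⌉₊ ≤ S.d i := S.tendsto_d.eventually_ge_atTop _
  filter_upwards [hev] with i hi
  have hd1 : 1 ≤ S.d i := le_trans (le_max_left _ _) hi
  have hd0 : (0 : ℝ) < S.d i := by exact_mod_cast hd1
  have hd2 : (K0 : ℝ) ≤ η * S.d i := by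
    have h4 : (K0 : ℝ) / η ≤ S.d i := by
      refine (Nat.le_ceil _).trans ?_
      exact_mod_cast le_trans (le_max_right _ _) hi
    rw [div_le_iff₀ hη0] at h4
    linarith
  have hbad : ∀ φ ∈ SMap ρ F δ (S.σ i),
      {v | τ < ∑ s ∈ F, ρ (φ (S.σ i s v)) (s • φ v)}.ncard ≤
        ⌊F.card * δ / τ * (S.d i : ℝ)⌋₊ := by
    intro φ hφ
    exact Nat.le_floor (h2 (FullShift G K) G ρ F δ τ (S.d i) (S.σ i) hpos hδ0 hτ φ hφ)
  have h5 := h3 K G ρ U hρ hU F ι V τ hτ hc δ (S.d i) (K0 + c * S.d i)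
    ⌊F.card * δ / τ * (S.d i : ℝ)⌋₊ (S.σ i) hδ0 hbad (hK (S.d i))
  have hfl : (⌊F.card * δ / τ * (S.d i : ℝ)⌋₊ : ℝ) ≤ F.card * δ / τ * (S.d i : ℝ) :=
    Nat.floor_le (by positivity)
  have h6 : (((K0 + c * S.d i : ℕ) : ℝ) + ⌊F.card * δ / τ * (S.d i : ℝ)⌋₊ * (U.ncard + 1)) ≤
      z * S.d i := by
    have h7 : (⌊F.card * δ / τ * (S.d i : ℝ)⌋₊ : ℝ) * (U.ncard + 1) ≤
        F.card * δ / τ * (S.d i : ℝ) * (U.ncard + 1) :=
      mul_le_mul_of_nonneg_right hfl (by positivity)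
    have h8 : F.card * δ / τ * (S.d i : ℝ) * (U.ncard + 1) = A * δ * S.d i := by
      rw [hA]
      ring
    have h9 : A * δ * S.d i ≤ η * S.d i := mul_le_mul_of_nonneg_right hAδ hd0.le
    have h10 : z = c + η + η := by rw [hη]; ring
    push_cast
    rw [h10]
    nlinarith
  have hdE : (0 : EReal) < ((S.d i : ℝ) : EReal) := by exact_mod_cast hd0
  rw [EReal.div_le_iff_le_mul hdE (EReal.coe_ne_top _)]
  refine h5.trans ?_
  rw [← EReal.coe_mul, mul_comm (S.d i : ℝ) z]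
  exact_mod_cast h6

end Pool.Agent.SH
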