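import Pool.Agent.SH.UA9

/-! Part 10: the loop lemma and the main theorem of block III-U. -/

namespace SHU
open MvPolynomial

universe u

theorem co1_sq (d : ℕ) (y : Pl (d + 1)) : co1 d (sqL (d + 1) y) = 0 := by
  rw [co1_apply, sqL_apply, map_pow, pow_two, Polynomial.mul_coeff_one, mul_comm]
  exact CharTwo.add_self_eq_zero _

section
variable {X : ℕ → Type u} [∀ j, AddCommGroup (X j)] [∀ j, Module (ZMod 2) (X j)]

theorem El_iota (t j m d : ℕ) (hj : m + 1 + t = j) (ξ : X j →ₗ[ZMod 2] ZMod 2) (y : Pl d)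
    (hy : y.IsHomogeneous m) :
    El t j ξ (d + 1) (MvPolynomial.X 0 * rename Fin.succ y) = iota t d (El (t + 1) j ξ d y) := by
  apply ES_ext
  intro j' x
  rw [iota_apply]
  by_cases h : j' = j
  · subst h
    rw [El_same, El_same, hcT, hcT, if_pos (by omega), if_pos (by omega),
      show j' - t = m + 1 by omega, show j' - (t + 1) = m by omega,
      homogeneousComponent_eq_self hy, homogeneousComponent_eq_self, map_smul, mul_smul_comm]
    have h9 : ((MvPolynomial.X 0 : Pl (d + 1)) * rename Fin.succ y).IsHomogeneous (1 + m) :=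
      (isHomogeneous_X _ _).mul hy.rename_isHomogeneous
    exact (Nat.add_comm 1 m) ▸ h9
  · rw [El_ne _ _ _ _ _ _ h, El_ne _ _ _ _ _ _ h, map_zero, mul_zero]

theorem PN_surj [∀ j, Module.Finite (ZMod 2) (X j)] {t n : ℕ}
    {q : ∀ d, ES X (t + 1) d →ₗ[ZMod 2] Pl d} (hq : IsPN (t + 1) n q) :
    ∃ p : ∀ d, ES X t d →ₗ[ZMod 2] Pl d, IsPN t (n + 1) p ∧ ∀ d c, sg t p d c = q d c := by
  classical
  have h1 : ∀ (m : ℕ) (i : Fin (Module.finrank (ZMod 2) (X (m + (t + 1))))),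
      ∃ g : ∀ d, Pl d →ₗ[ZMod 2] Pl d, IsNP (m + 1) (n + 1) g ∧
      ∀ d (y : Pl d), y.IsHomogeneous m → co1 d (g (d + 1) (MvPolynomial.X 0 * rename Fin.succ y)) =
        q d (El (t + 1) (m + (t + 1))
          ((Module.finBasis (ZMod 2) (X (m + (t + 1)))).coord i) d y) := by
    intro m i
    exact op_surj (psi_IsNP (show m + (t + 1) = m + (t + 1) from rfl) hq
      ((Module.finBasis (ZMod 2) (X (m + (t + 1)))).coord i))
  choose g hg hg2 using h1
  refine ⟨fun d => ∑ m ∈ Finset.range (n + 1), ∑ i, (g m i d).comp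
    (pr t (m + (t + 1)) (Module.finBasis (ZMod 2) (X (m + (t + 1))) i) d), ?_, ?_⟩
  · apply IsPN.sum
    intro m _
    apply IsPN.sum
    intro i _
    exact (hg m i).comp_pn' (pr_IsPN (by omega) _)
  · intro d c
    rw [sg_apply, LinearMap.sum_apply, map_sum, hq.decomp d c]
    refine Finset.sum_congr rfl fun m _ => ?_
    rw [LinearMap.sum_apply, map_sum]
    refine Finset.sum_congr rfl fun i _ => ?_
    rw [LinearMap.comp_apply, pr_apply, iota_apply, hg2]
    have := ES_hom c (show t + 1 ≤ m + (t + 1) by omega)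
      (Module.finBasis (ZMod 2) (X (m + (t + 1))) i)
    rwa [show m + (t + 1) - (t + 1) = m by omega] at this

theorem PN_ker_even [∀ j, Module.Finite (ZMod 2) (X j)] {t n : ℕ} (hn : 0 < n)
    {p : ∀ d, ES X t d →ₗ[ZMod 2] Pl d} (hp : IsPN t (2 * n) p) (h : ∀ d c, sg t p d c = 0) :
    ∃ p' : ∀ d, ES X t d →ₗ[ZMod 2] Pl d, IsPN t n p' ∧ ∀ d c, p d c = sqL d (p' d c) := by
  classical
  have h1 : ∀ (m : ℕ) (i : Fin (Module.finrank (ZMod 2) (X (m + t)))),
      ∃ g : ∀ d, Pl d →ₗ[ZMod 2] Pl d, IsNP m n g ∧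
      ∀ d (y : Pl d), p d (El t (m + t) ((Module.finBasis (ZMod 2) (X (m + t))).coord i) d y) =
        sqL d (g d y) := by
    intro m i
    apply op_ker_even hn (psi_IsNP (show m + t = m + t from rfl) hp
      ((Module.finBasis (ZMod 2) (X (m + t))).coord i))
    intro m' hm' d y hy
    rw [LinearMap.comp_apply, El_iota t (m + t) m' d (by omega) _ y hy, ← sg_apply, h]
  choose g hg hg2 using h1
  refine ⟨fun d => ∑ m ∈ Finset.range (2 * n + 1), ∑ i, (g m i d).comp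
    (pr t (m + t) (Module.finBasis (ZMod 2) (X (m + t)) i) d), ?_, ?_⟩
  · apply IsPN.sum
    intro m _
    apply IsPN.sum
    intro i _
    exact (hg m i).comp_pn' (pr_IsPN rfl _)
  · intro d c
    rw [hp.decomp d c, LinearMap.sum_apply, map_sum]
    refine Finset.sum_congr rfl fun m _ => ?_
    rw [LinearMap.sum_apply, map_sum]
    refine Finset.sum_congr rfl fun i _ => ?_
    rw [hg2, LinearMap.comp_apply, pr_apply]

theorem PN_ker_odd [∀ j, Module.Finite (ZMod 2) (X j)] {t n : ℕ}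
    {p : ∀ d, ES X t d →ₗ[ZMod 2] Pl d} (hp : IsPN t (2 * n + 1) p) (h : ∀ d c, sg t p d c = 0) :
    ∀ d c, p d c = 0 := by
  classical
  intro d c
  rw [hp.decomp d c]
  apply Finset.sum_eq_zero
  intro m _
  apply Finset.sum_eq_zero
  intro i _
  apply op_ker_odd (psi_IsNP (show m + t = m + t from rfl) hp
      ((Module.finBasis (ZMod 2) (X (m + t))).coord i))
  intro m' hm' d y hy
  rw [LinearMap.comp_apply, El_iota t (m + t) m' d (by omega) _ y hy, ← sg_apply, h]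

theorem sq_IsPN {t n : ℕ} {p : ∀ d, ES X t d →ₗ[ZMod 2] Pl d} (hp : IsPN t n p) :
    IsPN t (2 * n) (fun d => (sqL d).comp (p d)) where
  nat := fun L c => by
    simp only [LinearMap.comp_apply]
    rw [hp.nat, sqL_apply, sqL_apply, map_pow]
  cod := fun d c => sqL_hom (hp.cod d c)
  cont := fun d c hc => by
    simp only [LinearMap.comp_apply]
    rw [hp.cont d c (fun j hj => hc j (by omega)), map_zero]

end

section
variable {W : ℕ → Type u} [∀ j, AddCommGroup (W j)] [∀ j, Module (ZMod 2) (W j)]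
variable {X : ℕ → Type u} [∀ j, AddCommGroup (X j)] [∀ j, Module (ZMod 2) (X j)]
variable {Y : ℕ → Type u} [∀ j, AddCommGroup (Y j)] [∀ j, Module (ZMod 2) (Y j)]

/-- THE LOOP LEMMA -/
theorem loop_lemma [∀ j, Module.Finite (ZMod 2) (W j)] [∀ j, Module.Finite (ZMod 2) (X j)]
    [∀ j, Module.Finite (ZMod 2) (Y j)] (t n : ℕ)
    {α : ∀ d, ES W t d →ₗ[ZMod 2] ES X t d} (hα : IsNT t α)
    {α' : ∀ d, ES W (t + 1) d →ₗ[ZMod 2] ES X (t + 1) d} (hαα : Compat t α α')
    {β : ∀ d, ES X t d →ₗ[ZMod 2] ES Y t d}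
    {β' : ∀ d, ES X (t + 1) d →ₗ[ZMod 2] ES Y (t + 1) d} (hββ : Compat t β β')
    (hA : ∀ p : ∀ d, ES X t d →ₗ[ZMod 2] Pl d, IsPN t (n + 1) p → (∀ d c, p d (α d c) = 0) →
      ∃ r : ∀ d, ES Y t d →ₗ[ZMod 2] Pl d, IsPN t (n + 1) r ∧ ∀ d c, p d c = r d (β d c))
    (hB : ∀ m, n + 1 = 2 * m → ∀ p' : ∀ d, ES W t d →ₗ[ZMod 2] Pl d, IsPN t m p' →
      (∃ p : ∀ d, ES X t d →ₗ[ZMod 2] Pl d, IsPN t (2 * m) p ∧
        ∀ d c, sqL d (p' d c) = p d (α d c)) →
      ∃ p'' : ∀ d, ES X t d →ₗ[ZMod 2] Pl d, IsPN t m p'' ∧ ∀ d c, p' d c = p'' d (α d c))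
    (q : ∀ d, ES X (t + 1) d →ₗ[ZMod 2] Pl d) (hq : IsPN (t + 1) n q)
    (hqα : ∀ d c, q d (α' d c) = 0) :
    ∃ r : ∀ d, ES Y (t + 1) d →ₗ[ZMod 2] Pl d, IsPN (t + 1) n r ∧ ∀ d c, q d c = r d (β' d c) := by
  obtain ⟨p, hp, hpq⟩ := PN_surj hq
  have h1 : ∀ d c, sg t (fun d => (p d).comp (α d)) d c = 0 := by
    intro d c
    rw [sg_comp hαα hp, hpq, hqα]
  rcases Nat.even_or_odd' (n + 1) with ⟨m, hm | hm⟩
  · obtain ⟨p', hp', hpp'⟩ := PN_ker_even (n := m) (by omega) (hm ▸ hp.comp hα) h1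
    obtain ⟨p'', hp'', hpp''⟩ := hB m hm p' hp' ⟨p, hm ▸ hp, fun d c => (hpp' d c).symm⟩
    have hsq : IsPN t (n + 1) (fun d => (sqL d).comp (p'' d)) := hm ▸ sq_IsPN hp''
    obtain ⟨r, hr, hrr⟩ := hA _ (hp.add hsq) (by
      intro d c
      rw [LinearMap.add_apply, LinearMap.comp_apply, ← hpp'', ← hpp' d c, LinearMap.comp_apply]
      exact CharTwo.add_self_eq_zero _)
    refine ⟨sg t r, sg_IsPN hr, ?_⟩
    intro d c
    rw [← sg_comp hββ hr, ← hpq, sg_apply, sg_apply, LinearMap.comp_apply, ← hrr,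
      LinearMap.add_apply, map_add, LinearMap.comp_apply, co1_sq, add_zero]
  · obtain ⟨r, hr, hrr⟩ := hA p hp (by
      intro d c
      have h2 : IsPN t (2 * m + 1) (fun d => (p d).comp (α d)) := hm ▸ hp.comp hα
      exact PN_ker_odd h2 h1 d c)
    refine ⟨sg t r, sg_IsPN hr, ?_⟩
    intro d c
    rw [← sg_comp hββ hr, ← hpq, sg_apply, sg_apply, LinearMap.comp_apply, ← hrr]

end

/-- Block III-U: boundedness for `t = 1` gives exactness of `s ↦ E^t(B;V^s)` (reduced) for all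
`t ≥ 1`. -/
theorem UALG (X : ℕ → ℕ → Type u) [∀ s j, AddCommGroup (X s j)]
    [∀ s j, Module (ZMod 2) (X s j)] [∀ s j, Module.Finite (ZMod 2) (X s j)]
    (δ : ∀ s t d, ES (X s) t d →ₗ[ZMod 2] ES (X (s + 1)) t d)
    (hnt : ∀ s t, 1 ≤ t → IsNT t (δ s t))
    (hdd : ∀ s t, 1 ≤ t → ∀ d c, δ (s + 1) t d (δ s t d c) = 0)
    (hcp : ∀ s t, 1 ≤ t → Compat t (δ s t) (δ s (t + 1)))
    (hb0 : ∃ N, ∀ n ≥ N, ∀ p : ∀ d, ES (X 0) 1 d →ₗ[ZMod 2] Pl d, IsPN 1 n p →
      ∃ r : ∀ d, ES (X 1) 1 d →ₗ[ZMod 2] Pl d, IsPN 1 n r ∧ ∀ d c, p d c = r d (δ 0 1 d c))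
    (hb : ∀ s, ∃ N, ∀ n ≥ N, ∀ p : ∀ d, ES (X (s + 1)) 1 d →ₗ[ZMod 2] Pl d, IsPN 1 n p →
      (∀ d c, p d (δ s 1 d c) = 0) →
      ∃ r : ∀ d, ES (X (s + 2)) 1 d →ₗ[ZMod 2] Pl d, IsPN 1 n r ∧
        ∀ d c, p d c = r d (δ (s + 1) 1 d c)) :
    ∀ t, 1 ≤ t → (∀ z : ES (X 0) t 1, z.1 t = 0 → δ 0 t 1 z = 0 → z = 0) ∧
      ∀ s, ∀ z : ES (X (s + 1)) t 1, z.1 t = 0 → δ (s + 1) t 1 z = 0 →
        ∃ y : ES (X s) t 1, y.1 t = 0 ∧ δ s t 1 y = z := by
  classical
  -- boundedness for all `t`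
  have key : ∀ t, 1 ≤ t →
      (∃ N, ∀ n ≥ N, ∀ p : ∀ d, ES (X 0) t d →ₗ[ZMod 2] Pl d, IsPN t n p →
        ∃ r : ∀ d, ES (X 1) t d →ₗ[ZMod 2] Pl d, IsPN t n r ∧ ∀ d c, p d c = r d (δ 0 t d c)) ∧
      (∀ s, ∃ N, ∀ n ≥ N, ∀ p : ∀ d, ES (X (s + 1)) t d →ₗ[ZMod 2] Pl d, IsPN t n p →
        (∀ d c, p d (δ s t d c) = 0) →
        ∃ r : ∀ d, ES (X (s + 2)) t d →ₗ[ZMod 2] Pl d, IsPN t n r ∧
          ∀ d c, p d c = r d (δ (s + 1) t d c)) := by
    intro t ht
    induction t, ht using Nat.le_induction with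
    | base => exact ⟨hb0, hb⟩
    | succ t ht ih =>
      obtain ⟨⟨N0, hN0⟩, hN⟩ := ih
      constructor
      · refine ⟨N0, fun n hn p hp => ?_⟩
        let α : ∀ d, ES (fun _ : ℕ => PUnit.{u + 1}) t d →ₗ[ZMod 2] ES (X 0) t d := fun d => 0
        let α' : ∀ d, ES (fun _ : ℕ => PUnit.{u + 1}) (t + 1) d →ₗ[ZMod 2] ES (X 0) (t + 1) d :=
          fun d => 0
        have hα : IsNT t α :=
          { nat := fun L c => by
              apply ES_ext
              intro j x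
              rw [subs_apply]
              change 0 = lin L 0
              rw [map_zero]
            cont := fun d c N _ j _ => rfl }
        apply loop_lemma t n hα (α' := α') (β := δ 0 t) ?_ (hcp 0 t ht) ?_ ?_ p hp
        · intro d c
          change p d 0 = 0
          rw [map_zero]
        · intro d c
          change (0 : ES (X 0) (t + 1) d) = DD t d 0
          rw [map_zero]
        · intro p hp _
          exact hN0 (n + 1) (by omega) p hp
        · intro m _ p' hp' _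
          refine ⟨fun d => 0, IsPN.zero t m, fun d c => ?_⟩
          have : c = 0 := by
            apply ES_ext
            intro j x
            have hx : x = 0 := Subsingleton.elim _ _
            rw [hx, map_zero, map_zero]
          rw [this, map_zero]
          rfl
      · intro s
        cases s with
        | zero =>
          obtain ⟨N1, hN1⟩ := hN 0
          refine ⟨max (2 * N0) N1, fun n hn p hp hpα => ?_⟩
          have hn1 : 2 * N0 ≤ n := le_trans (le_max_left _ _) hn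
          have hn2 : N1 ≤ n := le_trans (le_max_right _ _) hn
          apply loop_lemma t n (hnt 0 t ht) (hcp 0 t ht) (hcp 1 t ht) ?_ ?_ p hp hpα
          · exact hN1 (n + 1) (by omega)
          · intro m hm p' hp' _
            exact hN0 m (by omega) p' hp'
        | succ s =>
          obtain ⟨N1, hN1⟩ := hN (s + 1)
          obtain ⟨N2, hN2⟩ := hN s
          refine ⟨max (2 * N2) N1, fun n hn p hp hpα => ?_⟩
          have hn1 : 2 * N2 ≤ n := le_trans (le_max_left _ _) hn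
          have hn2 : N1 ≤ n := le_trans (le_max_right _ _) hn
          apply loop_lemma t n (hnt (s + 1) t ht) (hcp (s + 1) t ht) (hcp (s + 2) t ht) ?_ ?_
            p hp hpα
          · exact hN1 (n + 1) (by omega)
          · rintro m hm p' hp' ⟨p1, hp1, hpp1⟩
            apply hN2 m (by omega) p' hp'
            intro d c
            apply sqL_inj
            rw [hpp1, hdd s t ht, map_zero]
  intro t ht
  obtain ⟨⟨N0, hN0⟩, hN⟩ := key t ht
  have hpow : ∀ k, k ≤ 2 ^ k := fun k => (Nat.lt_two_pow_self).le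
  constructor
  · intro z hz hδz
    let α : ∀ d, ES (fun _ : ℕ => PUnit.{u + 1}) t d →ₗ[ZMod 2] ES (X 0) t d := fun d => 0
    have hα : IsNT t α :=
      { nat := fun L c => by
          apply ES_ext
          intro j x
          rw [subs_apply]
          change 0 = lin L 0
          rw [map_zero]
        cont := fun d c N _ j _ => rfl }
    obtain ⟨y, _, hy⟩ := retract_lemma t α hα (δ 0 t) N0 (by
      intro k hk p hp _
      obtain ⟨r, _, hr⟩ := hN0 (2 ^ k) (le_trans hk (hpow k)) p hp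
      exact ⟨r, hr⟩) z hz hδz
    rw [← hy]
    rfl
  · intro s z hz hδz
    obtain ⟨N1, hN1⟩ := hN s
    exact retract_lemma t (δ s t) (hnt s t ht) (δ (s + 1) t) N1 (by
      intro k hk p hp hpα
      obtain ⟨r, _, hr⟩ := hN1 (2 ^ k) (le_trans hk (hpow k)) p hp hpα
      exact ⟨r, hr⟩) z hz hδz

end SHU
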