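import Pool.Agent.SH.UA2

/-! Part 3: natural operations are symmetric sums of monomials with exponents powers of two. -/

namespace SHU
open MvPolynomial

theorem pow_two_of_choose (c : ℕ) (hc : 0 < c)
    (h : ∀ a b, 0 < a → 0 < b → a + b = c → (Nat.choose c a : ZMod 2) = 0) : ∃ k, c = 2 ^ k := by
  induction c using Nat.strong_induction_on with
  | _ c ih =>
    rcases Nat.even_or_odd' c with ⟨c', hc' | hc'⟩
    · have hpos : 0 < c' := by omega
      obtain ⟨k, hk⟩ := ih c' (by omega) hpos (by
        intro a b ha hb hab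
        have h1 := h (2 * a) (2 * b) (by omega) (by omega) (by omega)
        have h2 := Choose.choose_modEq_choose_mod_mul_choose_div_nat (p := 2) (n := 2 * c') (k := 2 * a)
        have h3 : (2 * c') % 2 = 0 := by omega
        have h4 : (2 * a) % 2 = 0 := by omega
        have h5 : (2 * c') / 2 = c' := by omega
        have h6 : (2 * a) / 2 = a := by omega
        rw [h3, h4, h5, h6, Nat.choose_self, one_mul] at h2
        have h7 := (ZMod.natCast_eq_natCast_iff _ _ 2).mpr h2
        rw [hc'] at h1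
        rw [← h7, h1])
      exact ⟨k + 1, by rw [pow_succ, hc', hk]; ring⟩
    · by_cases h1 : c' = 0
      · exact ⟨0, by rw [hc', h1]; norm_num⟩
      · exfalso
        have := h 1 (2 * c') (by omega) (by omega) (by omega)
        rw [hc', Nat.choose_one_right] at this
        push_cast at this
        have h2 : (2 : ZMod 2) = 0 := by decide
        rw [h2, zero_mul, zero_add] at this
        exact one_ne_zero this

/-- `X_0 ↦ X_0 + X_1`, `X_{j+1} ↦ X_{j+2}` -/
def Ladd (m : ℕ) : Fin (m + 1) → Fin (m + 2) → ZMod 2 :=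
  Fin.cons (fun i => if i = 0 ∨ i = 1 then 1 else 0) (fun j i => if i = j.succ.succ then 1 else 0)

/-- `X_0 ↦ 0`, `X_{j+1} ↦ X_j` -/
def Lzero (m : ℕ) : Fin (m + 1) → Fin m → ZMod 2 :=
  Fin.cons (fun _ => 0) (fun j i => if i = j then 1 else 0)

theorem lin_Ladd_zero (m : ℕ) : lin (Ladd m) (X 0) = X 0 + X 1 := by
  rw [lin_X, Fin.sum_univ_succ, Fin.sum_univ_succ]
  rw [Finset.sum_eq_zero]
  · simp [Ladd]
  · intro i _
    have h1 : (i.succ.succ : Fin (m + 2)) ≠ 0 := Fin.succ_ne_zero _
    have h2 : (i.succ.succ : Fin (m + 2)) ≠ 1 := by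
      intro h
      have := congrArg Fin.val h
      simp at this
    simp [Ladd, h1, h2]

theorem lin_Ladd_succ (m : ℕ) (j : Fin m) : lin (Ladd m) (X j.succ) = X j.succ.succ := by
  rw [lin_X, Finset.sum_eq_single j.succ.succ]
  · simp [Ladd]
  · intro i _ hi
    simp [Ladd, hi]
  · simp

theorem lin_Lzero_zero (m : ℕ) : lin (Lzero m) (X 0) = 0 := by
  rw [lin_X, Finset.sum_eq_zero]
  intro i _
  simp [Lzero]

theorem lin_Lzero_succ (m : ℕ) (j : Fin m) : lin (Lzero m) (X j.succ) = X j := by
  rw [lin_X, Finset.sum_eq_single j]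
  · simp [Lzero]
  · intro i _ hi
    simp [Lzero, hi]
  · simp

theorem monomial_eq_prod {d : ℕ} (e : Fin d →₀ ℕ) (r : ZMod 2) :
    (monomial e r : Pl d) = C r * ∏ i, X i ^ e i := by
  rw [monomial_eq, Finsupp.prod_fintype]
  intro i
  simp

theorem lin_Ladd_monomial (m c : ℕ) (e : Fin m →₀ ℕ) (r : ZMod 2) :
    lin (Ladd m) (monomial (Finsupp.cons c e) r) =
      ∑ k ∈ Finset.range (c + 1),
        monomial (Finsupp.cons k (Finsupp.cons (c - k) e)) (r * (c.choose k : ZMod 2)) := by
  rw [monomial_eq_prod, Fin.prod_univ_succ, map_mul, map_mul, map_prod, map_pow]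
  simp only [map_pow, lin_Ladd_zero, lin_Ladd_succ, Finsupp.cons_zero, Finsupp.cons_succ]
  rw [add_pow, Finset.sum_mul, Finset.mul_sum]
  refine Finset.sum_congr rfl fun k _ => ?_
  rw [monomial_eq_prod, Fin.prod_univ_succ, Fin.prod_univ_succ]
  simp only [Finsupp.cons_zero, Finsupp.cons_succ]
  have hC : lin (Ladd m) (C r) = C r := by
    have h1 : (C r : Pl (m + 1)) = algebraMap (ZMod 2) (Pl (m + 1)) r := rfl
    rw [h1, AlgHom.commutes]
    rfl
  rw [hC, C_mul]
  have hn : ((c.choose k : ℕ) : Pl (m + 2)) = C ((c.choose k : ℕ) : ZMod 2) := by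
    simp
  rw [hn]
  have h1 : (X (Fin.succ 0) : Pl (m + 2)) = X 1 := rfl
  rw [h1]
  ring

theorem coeff_lin_Ladd (m a b : ℕ) (e : Fin m →₀ ℕ) (y : Pl (m + 1)) :
    coeff (Finsupp.cons a (Finsupp.cons b e)) (lin (Ladd m) y) =
      ((a + b).choose a : ZMod 2) * coeff (Finsupp.cons (a + b) e) y := by
  classical
  induction y using MvPolynomial.induction_on' with
  | monomial u r =>
    have hu : u = Finsupp.cons (u 0) u.tail := (Finsupp.cons_tail u).symm
    rw [hu, lin_Ladd_monomial, coeff_sum]
    simp only [coeff_monomial]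
    by_cases h : Finsupp.cons (u 0) u.tail = Finsupp.cons (a + b) e
    · have h0 : u 0 = a + b := by
        have := DFunLike.congr_fun h 0
        simpa using this
      have ht : u.tail = e := by
        have := congrArg Finsupp.tail h
        simpa using this
      rw [h0, ht, if_pos rfl, Finset.sum_eq_single a]
      · rw [show a + b - a = b by omega, if_pos rfl, mul_comm]
      · intro k hk hka
        rw [if_neg]
        intro hc
        have := DFunLike.congr_fun hc 0
        simp only [Finsupp.cons_zero] at this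
        exact hka this
      · intro hk
        exfalso
        apply hk
        rw [Finset.mem_range]
        omega
    · rw [if_neg h, mul_zero, Finset.sum_eq_zero]
      intro k hk
      rw [if_neg]
      intro hc
      apply h
      have h0 := DFunLike.congr_fun hc 0
      simp only [Finsupp.cons_zero] at h0
      have ht := congrArg Finsupp.tail hc
      simp only [Finsupp.tail_cons] at ht
      have h1 := DFunLike.congr_fun ht 0
      simp only [Finsupp.cons_zero] at h1
      have ht2 := congrArg Finsupp.tail ht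
      simp only [Finsupp.tail_cons] at ht2
      rw [Finset.mem_range] at hk
      rw [ht2]
      congr 1
      omega
  | add p q hp hq => rw [map_add, coeff_add, hp, hq, coeff_add, mul_add]

theorem coeff_lin_Lzero (m : ℕ) (e : Fin m →₀ ℕ) (y : Pl (m + 1)) :
    coeff e (lin (Lzero m) y) = coeff (Finsupp.cons 0 e) y := by
  classical
  induction y using MvPolynomial.induction_on' with
  | monomial u r =>
    have hu : u = Finsupp.cons (u 0) u.tail := (Finsupp.cons_tail u).symm
    rw [hu, monomial_eq_prod, Fin.prod_univ_succ, map_mul, map_mul, map_prod, map_pow]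
    simp only [map_pow, lin_Lzero_zero, lin_Lzero_succ, Finsupp.cons_zero, Finsupp.cons_succ]
    have hC : lin (Lzero m) (C r) = C r := by
      have h1 : (C r : Pl (m + 1)) = algebraMap (ZMod 2) (Pl (m + 1)) r := rfl
      rw [h1, AlgHom.commutes]
      rfl
    rw [hC]
    by_cases h0 : u 0 = 0
    · rw [h0, pow_zero, one_mul]
      have h1 := monomial_eq_prod u.tail r
      have h2 := monomial_eq_prod (Finsupp.cons 0 u.tail) r
      rw [Fin.prod_univ_succ] at h2
      simp only [Finsupp.cons_zero, Finsupp.cons_succ, pow_zero, one_mul] at h2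
      rw [← h1, pow_zero, one_mul, ← h2, coeff_monomial, coeff_monomial]
      congr 1
      apply propext
      constructor
      · intro h
        rw [h]
      · intro h
        have := congrArg Finsupp.tail h
        simpa using this
    · rw [zero_pow h0, zero_mul, mul_zero, coeff_zero]
      have h2 := monomial_eq_prod (Finsupp.cons (u 0) u.tail) r
      simp only [Fin.prod_univ_succ, Finsupp.cons_zero, Finsupp.cons_succ] at h2 ⊢
      rw [← h2, coeff_monomial, if_neg]
      intro h
      apply h0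
      have := DFunLike.congr_fun h 0
      simpa using this
  | add p q hp hq => rw [map_add, coeff_add, hp, hq, coeff_add]

theorem Un_succ (m : ℕ) : Un (m + 1) = X 0 * rename Fin.succ (Un m) := by
  rw [Un, Fin.prod_univ_succ, Un, map_prod]
  simp only [rename_X]

theorem lin_Ladd_Un (m : ℕ) : lin (Ladd m) (Un (m + 1)) =
    rename (Fin.cons 0 (fun j : Fin m => j.succ.succ) : Fin (m + 1) → Fin (m + 2)) (Un (m + 1)) +
    rename (Fin.cons 1 (fun j : Fin m => j.succ.succ) : Fin (m + 1) → Fin (m + 2)) (Un (m + 1)) := by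
  rw [Un, Fin.prod_univ_succ, map_mul, map_mul, map_mul, map_prod, map_prod, map_prod]
  simp only [lin_Ladd_zero, lin_Ladd_succ, rename_X, Fin.cons_zero, Fin.cons_succ]
  ring

theorem lin_Lzero_Un (m : ℕ) : lin (Lzero m) (Un (m + 1)) = 0 := by
  rw [Un, Fin.prod_univ_succ, map_mul, lin_Lzero_zero, zero_mul]

theorem IsNP.exp_zero {m n : ℕ} {f : ∀ d, Pl d →ₗ[ZMod 2] Pl d} (hf : IsNP (m + 1) n f)
    (c : ℕ) (e : Fin m →₀ ℕ) (h : coeff (Finsupp.cons c e) (f (m + 1) (Un (m + 1))) ≠ 0) :
    ∃ k, c = 2 ^ k := by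
  classical
  have hc : 0 < c := by
    rcases Nat.eq_zero_or_pos c with h0 | h0
    · exfalso
      apply h
      rw [h0, ← coeff_lin_Lzero, ← hf.nat, lin_Lzero_Un, map_zero, coeff_zero]
    · exact h0
  apply pow_two_of_choose c hc
  intro a b ha hb hab
  have h1 := coeff_lin_Ladd m a b e (f (m + 1) (Un (m + 1)))
  rw [hab] at h1
  have h2 : coeff (Finsupp.cons a (Finsupp.cons b e)) (lin (Ladd m) (f (m + 1) (Un (m + 1)))) = 0 := by
    rw [← hf.nat, lin_Ladd_Un, map_add, hf.ren, hf.ren, coeff_add]
    rw [coeff_rename_eq_zero, coeff_rename_eq_zero, add_zero]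
    · intro u hu
      exfalso
      have := DFunLike.congr_fun hu 0
      rw [Finsupp.cons_zero, Finsupp.mapDomain_notin_range] at this
      · omega
      · rintro ⟨j, hj⟩
        refine Fin.cases ?_ (fun j => ?_) j hj
        · intro h
          have := congrArg Fin.val h
          simp at this
        · intro h
          have := congrArg Fin.val h
          simp at this
    · intro u hu
      exfalso
      have := DFunLike.congr_fun hu (Fin.succ 0)
      rw [Finsupp.cons_succ, Finsupp.cons_zero, Finsupp.mapDomain_notin_range] at this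
      · omega
      · rintro ⟨j, hj⟩
        refine Fin.cases ?_ (fun j => ?_) j hj
        · intro h
          have := congrArg Fin.val h
          simp at this
        · intro h
          have := congrArg Fin.val h
          simp at this
  rw [h2] at h1
  rcases mul_eq_zero.mp h1.symm with h3 | h3
  · exact h3
  · exact absurd h3 h

theorem IsNP.sym {m n : ℕ} {f : ∀ d, Pl d →ₗ[ZMod 2] Pl d} (hf : IsNP m n f)
    (σ : Equiv.Perm (Fin m)) : rename σ (f m (Un m)) = f m (Un m) := by
  rw [← hf.ren]
  congr 1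
  rw [Un, map_prod]
  simp only [rename_X]
  exact Equiv.prod_comp σ (fun i => (X i : Pl m))

theorem IsNP.coeff_sym {m n : ℕ} {f : ∀ d, Pl d →ₗ[ZMod 2] Pl d} (hf : IsNP m n f)
    (σ : Equiv.Perm (Fin m)) (e : Fin m →₀ ℕ) :
    coeff (Finsupp.mapDomain σ e) (f m (Un m)) = coeff e (f m (Un m)) := by
  conv_lhs => rw [← hf.sym σ]
  rw [coeff_rename_mapDomain _ σ.injective]

theorem IsNP.exp {m n : ℕ} {f : ∀ d, Pl d →ₗ[ZMod 2] Pl d} (hf : IsNP m n f)
    (e : Fin m →₀ ℕ) (h : coeff e (f m (Un m)) ≠ 0) : ∃ a : Fin m → ℕ, e = xp a := by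
  classical
  have key : ∀ i, ∃ k, e i = 2 ^ k := by
    intro i
    cases m with
    | zero => exact i.elim0
    | succ m =>
      have h1 := hf.coeff_sym (Equiv.swap 0 i) e
      rw [← h1] at h
      have h2 : Finsupp.mapDomain (Equiv.swap 0 i) e =
          Finsupp.cons (e i) (Finsupp.mapDomain (Equiv.swap 0 i) e).tail := by
        conv_lhs => rw [← Finsupp.cons_tail (Finsupp.mapDomain (Equiv.swap 0 i) e)]
        congr 1
        have : (Equiv.swap 0 i) i = 0 := Equiv.swap_apply_right 0 i
        have h3 := Finsupp.mapDomain_apply (Equiv.swap 0 i).injective e i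
        rw [this] at h3
        exact h3
      rw [h2] at h
      exact hf.exp_zero _ _ h
  choose a ha using key
  refine ⟨a, ?_⟩
  ext i
  rw [xp_apply, ha]

theorem xp_comp {m : ℕ} (a : Fin m → ℕ) (σ : Equiv.Perm (Fin m)) :
    Finsupp.mapDomain σ (xp (a ∘ σ)) = xp a := by
  ext i
  have h : i = σ (σ.symm i) := by simp
  rw [h, Finsupp.mapDomain_apply σ.injective, xp_apply, xp_apply]
  rfl

open Classical in
/-- the matrix of a natural operation -/
noncomputable def mt (m : ℕ) (f : ∀ d, Pl d →ₗ[ZMod 2] Pl d) (M : ℕ →₀ ℕ) : ZMod 2 :=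
  if h : M.degree = m then coeff (xp (Classical.choose (exists_pi m M h))) (f m (Un m)) else 0

theorem ty_degree {m : ℕ} (a : Fin m → ℕ) : (ty a).degree = m := by
  rw [ty, map_sum]
  simp

theorem IsNP.mt_ty {m n : ℕ} {f : ∀ d, Pl d →ₗ[ZMod 2] Pl d} (hf : IsNP m n f) (a : Fin m → ℕ) :
    mt m f (ty a) = coeff (xp a) (f m (Un m)) := by
  rw [mt, dif_pos (ty_degree a)]
  have h := Classical.choose_spec (exists_pi m (ty a) (ty_degree a))
  obtain ⟨σ, hσ⟩ := exists_perm a _ h.symm
  rw [hσ, ← hf.coeff_sym σ, xp_comp]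

theorem IsNP.mt_ty_sum {m n : ℕ} {f : ∀ d, Pl d →ₗ[ZMod 2] Pl d} (hf : IsNP m n f)
    (a : Fin m → ℕ) (h : mt m f (ty a) ≠ 0) : ∑ i, 2 ^ (a i) = n := by
  rw [hf.mt_ty] at h
  have := (hf.cod m (Un m)) h
  rw [← xp_degree, Finsupp.degree_eq_weight_one]
  exact this

theorem IsNP.Un_eq {m n : ℕ} {f : ∀ d, Pl d →ₗ[ZMod 2] Pl d} (hf : IsNP m n f) (N : ℕ)
    (hN : n ≤ N) : f m (Un m) = ∑ a ∈ Fintype.piFinset (fun _ : Fin m => Finset.range N),
      mt m f (ty a) • monomial (xp a) (1 : ZMod 2) := by
  classical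
  ext e
  rw [coeff_sum]
  simp only [coeff_smul, coeff_monomial, smul_eq_mul, mul_ite, mul_one, mul_zero]
  by_cases h : coeff e (f m (Un m)) = 0
  · rw [h, Finset.sum_eq_zero]
    intro a _
    split_ifs with ha
    · rw [hf.mt_ty, ha, h]
    · rfl
  · obtain ⟨a, rfl⟩ := hf.exp e h
    rw [Finset.sum_eq_single a]
    · rw [if_pos rfl, hf.mt_ty]
    · intro b _ hb
      rw [if_neg]
      intro hc
      exact hb (xp_inj hc)
    · intro ha
      exfalso
      apply ha
      rw [Fintype.mem_piFinset]
      intro i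
      rw [Finset.mem_range]
      have h1 : ∑ i, 2 ^ (a i) = n := by
        rw [← hf.mt_ty] at h
        exact hf.mt_ty_sum a h
      have h2 : 2 ^ (a i) ≤ ∑ i, 2 ^ (a i) :=
        Finset.single_le_sum (f := fun i => 2 ^ (a i)) (fun _ _ => Nat.zero_le _) (Finset.mem_univ i)
      have h3 : a i < 2 ^ (a i) := Nat.lt_two_pow_self
      omega

theorem IsNP.eq_op {m n : ℕ} {f : ∀ d, Pl d →ₗ[ZMod 2] Pl d} (hf : IsNP m n f) (N : ℕ)
    (hN : n ≤ N) : f = op N m (mt m f) := by
  apply hf.ext (op_IsNP N m n _ (fun a h => hf.mt_ty_sum a h))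
  rw [op_Un, hf.Un_eq N hN]

end SHU
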