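import Pool.Agent.SH.StmtsR

/-!
# MP_2d0b73_an: LEB, reduction of a cover of the full shift to a cover of the alphabet
-/

set_option autoImplicit false

open Set Topology Filter

namespace Pool.Agent.SH

namespace LEB

/-- Basic neighbourhoods in a product of metric spaces. -/
theorem basic {G K : Type} [MetricSpace K] (u : Set (G → K)) (hu : IsOpen u) (x : G → K)
    (hx : x ∈ u) : ∃ (F : Finset G) (e : ℝ), 0 < e ∧
      ∀ x' : G → K, (∀ s ∈ F, dist (x s) (x' s) < e) → x' ∈ u := by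
  obtain ⟨I, w, hw, hI⟩ := isOpen_pi_iff.1 hu x hx
  have h1 : ∀ᶠ e in 𝓝[>] (0 : ℝ), ∀ a ∈ I, Metric.ball (x a) e ⊆ w a := by
    rw [Filter.eventually_all_finset]
    intro a ha
    obtain ⟨e, he, hb⟩ := Metric.isOpen_iff.1 (hw a ha).1 (x a) (hw a ha).2
    filter_upwards [Ioo_mem_nhdsGT he] with e' he'
    exact (Metric.ball_subset_ball he'.2.le).trans hb
  obtain ⟨e, he, he0⟩ := (h1.and self_mem_nhdsWithin).exists
  refine ⟨I, e, he0, fun x' hx' => hI ?_⟩
  intro a ha
  refine he a ha ?_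
  rw [Metric.mem_ball, dist_comm]
  exact hx' a ha

/-- Lebesgue number of a cover of a product. -/
theorem leb {G K : Type} [MetricSpace K] [CompactSpace K] (U : Set (Set (G → K)))
    (hU : ∀ u ∈ U, IsOpen u) (hc : ⋃₀ U = univ) : ∃ (F : Finset G) (e : ℝ), 0 < e ∧
      ∀ x : G → K, ∃ u ∈ U, ∀ x' : G → K, (∀ s ∈ F, dist (x s) (x' s) < e) → x' ∈ u := by
  classical
  have h1 : ∀ x : G → K, ∃ u ∈ U, ∃ (F : Finset G) (e : ℝ), 0 < e ∧
      ∀ x' : G → K, (∀ s ∈ F, dist (x s) (x' s) < e + e) → x' ∈ u := by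
    intro x
    have hx : x ∈ ⋃₀ U := by rw [hc]; exact mem_univ x
    obtain ⟨u, hu, hxu⟩ := hx
    obtain ⟨F, e, he, h⟩ := basic u (hU u hu) x hxu
    exact ⟨u, hu, F, e / 2, half_pos he, fun x' hx' => h x' (by simpa using hx')⟩
  choose u hu F e he h using h1
  have hopen : ∀ x : G → K, IsOpen {x' : G → K | ∀ s ∈ F x, dist (x s) (x' s) < e x} := by
    intro x
    have : {x' : G → K | ∀ s ∈ F x, dist (x s) (x' s) < e x} =
        ⋂ s ∈ F x, {x' : G → K | dist (x s) (x' s) < e x} := by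
      ext x'
      simp
    rw [this]
    refine isOpen_biInter_finset fun s _ => ?_
    exact isOpen_lt (continuous_const.dist (continuous_apply s)) continuous_const
  obtain ⟨t, ht⟩ := isCompact_univ.elim_finite_subcover _ hopen (fun x _ =>
    mem_iUnion.2 ⟨x, fun s _ => by simpa using he x⟩)
  have hpos : ∃ e' : ℝ, 0 < e' ∧ ∀ x ∈ t, e' ≤ e x := by
    rcases t.eq_empty_or_nonempty with rfl | hne
    · exact ⟨1, one_pos, by simp⟩
    · obtain ⟨x, hx, hmin⟩ := t.exists_min_image e hne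
      exact ⟨e x, he x, hmin⟩
  obtain ⟨e', he', hle⟩ := hpos
  refine ⟨t.biUnion F, e', he', fun x => ?_⟩
  obtain ⟨x0, hx0, hxx⟩ := mem_iUnion₂.1 (ht (mem_univ x))
  refine ⟨u x0, hu x0, fun x' hx' => h x0 x' fun s hs => ?_⟩
  calc dist (x0 s) (x' s) ≤ dist (x0 s) (x s) + dist (x s) (x' s) := dist_triangle _ _ _
    _ < e x0 + e x0 := add_lt_add (hxx s hs)
        ((hx' s (Finset.mem_biUnion.2 ⟨x0, hx0, hs⟩)).trans_le (hle x0 hx0))

/-- Uniform continuity with respect to a compatible metric. -/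
theorem unif {X K : Type} [t : TopologicalSpace X] [CompactSpace X] [MetricSpace K]
    (ρ : X → X → ℝ) (h : IsCompatMetric ρ) (f : X → K) (hf : Continuous f) (e : ℝ) (he : 0 < e) :
    ∃ τ : ℝ, 0 < τ ∧ ∀ x y, ρ x y < 2 * τ → dist (f x) (f y) < e := by
  obtain ⟨m, rfl, hρ⟩ := h
  have h1 : UniformContinuous f := CompactSpace.uniformContinuous_of_continuous hf
  obtain ⟨δ, hδ, h2⟩ := Metric.uniformContinuous_iff.1 h1 e he
  refine ⟨δ / 2, half_pos hδ, fun x y hxy => h2 ?_⟩
  rw [← hρ]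
  linarith

end LEB

theorem LEB : Stmt_LEB := by
  intro K _ _ _ _ G _ ρ U hρ hU
  let _ : MetricSpace K := TopologicalSpace.metrizableSpaceMetric K
  have : CompactSpace (FullShift G K) := inferInstanceAs (CompactSpace (G → K))
  obtain ⟨hfin, hopen, hcov⟩ := hU
  obtain ⟨F, e, he, hF⟩ := LEB.leb (G := G) (K := K) U hopen hcov
  have hev : Continuous (fun x : FullShift G K => x 1) := continuous_apply (1 : G)
  obtain ⟨τ, hτ, hu⟩ := LEB.unif ρ hρ (fun x : FullShift G K => x 1) hev (e / 3) (by positivity)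
  obtain ⟨t, -, htf, ht⟩ := Metric.finite_approx_of_totallyBounded
    (isCompact_univ (X := K)).totallyBounded (e / 7) (by positivity)
  have : Finite t := htf
  refine ⟨F, t, inferInstance, fun i => Metric.ball (i : K) (e / 7), τ, hτ,
    fun i => Metric.isOpen_ball, fun k => ?_, fun c => ?_⟩
  · obtain ⟨i, hi, hk⟩ := mem_iUnion₂.1 (ht (mem_univ k))
    exact ⟨⟨i, hi⟩, hk⟩
  · by_cases hne : ∃ x : FullShift G K, ∀ s ∈ F, ∃ y : FullShift G K, ρ y (s • x) < 2 * τ ∧
        y 1 ∈ Metric.ball (c s : K) (e / 7)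
    · obtain ⟨x, hx⟩ := hne
      obtain ⟨u, huU, hxu⟩ := hF x
      refine ⟨u, huU, fun x' hx' => hxu x' fun s hs => ?_⟩
      obtain ⟨y, hy1, hy2⟩ := hx s hs
      obtain ⟨y', hy1', hy2'⟩ := hx' s hs
      have h1 : dist (y 1) (x s) < e / 3 := by
        have := hu y (s • x) hy1
        simpa [smul_apply] using this
      have h2 : dist (y' 1) (x' s) < e / 3 := by
        have := hu y' (s • x') hy1'
        simpa [smul_apply] using this
      rw [Metric.mem_ball] at hy2 hy2'
      have h3 : dist (x s) (x' s) ≤ dist (y 1) (x s) + dist (y 1) (c s : K) +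
          dist (y' 1) (c s : K) + dist (y' 1) (x' s) := by
        have a1 := dist_triangle (x s) (y 1) (x' s)
        have a2 := dist_triangle (y 1) (c s : K) (x' s)
        have a3 := dist_triangle (c s : K) (y' 1) (x' s)
        rw [dist_comm (x s) (y 1)] at a1
        rw [dist_comm (c s : K) (y' 1)] at a3
        linarith
      linarith
    · obtain ⟨k⟩ := ‹Nonempty K›
      have hmem : (fun _ => k : FullShift G K) ∈ ⋃₀ U := by rw [hcov]; exact mem_univ _
      obtain ⟨u, huU, -⟩ := hmem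
      exact ⟨u, huU, fun x hx => absurd ⟨x, hx⟩ hne⟩

end Pool.Agent.SH
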