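import Pool.Agent.SH.StmtsI

/-!
# MP_2d0b73_an, part I: the recursion for the covers of `X ^ n`
-/

set_option autoImplicit false

open Set Topology

namespace Pool.Agent.SH

namespace ITR

/-- Normalisation: the greatest coordinate becomes `1`, the smallest possible value is `-1`. -/
theorem norm_exists {Z C : Type} [TopologicalSpace Z] [Fintype C] (μ : Z → C → ℝ)
    (hc : ∀ c, Continuous fun z => μ z c) (h0 : ∀ z c, 0 ≤ μ z c) (hp : ∀ z, ∃ c, 0 < μ z c) :
    ∃ θ : Z → C → ℝ, Continuous θ ∧ (∀ z c, -1 ≤ θ z c) ∧ (∀ z c, θ z c ≤ 1) ∧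
      (∀ z, ∃ c, θ z c = 1) ∧ ∀ z c, -1 < θ z c → 0 < μ z c := by
  have hs : ∀ z, 0 < ∑ c, μ z c := by
    intro z
    obtain ⟨c, hc⟩ := hp z
    exact lt_of_lt_of_le hc (Finset.single_le_sum (fun i _ => h0 z i) (Finset.mem_univ c))
  refine ⟨fun z c => 2 * min 1 (Fintype.card C * μ z c / ∑ c, μ z c) - 1, ?_, ?_, ?_, ?_, ?_⟩
  · refine continuous_pi fun c => ?_
    refine (continuous_const.mul (continuous_const.min ?_)).sub continuous_const
    exact (continuous_const.mul (hc c)).div (continuous_finset_sum _ fun i _ => hc i)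
      fun z => (hs z).ne'
  · intro z c
    have : 0 ≤ min 1 (Fintype.card C * μ z c / ∑ c, μ z c) := by
      refine le_min zero_le_one ?_
      exact div_nonneg (mul_nonneg (Nat.cast_nonneg _) (h0 z c)) (hs z).le
    show -1 ≤ 2 * min 1 (Fintype.card C * μ z c / ∑ c, μ z c) - 1
    linarith
  · intro z c
    have : min 1 (Fintype.card C * μ z c / ∑ c, μ z c) ≤ 1 := min_le_left _ _
    show 2 * min 1 (Fintype.card C * μ z c / ∑ c, μ z c) - 1 ≤ 1
    linarith
  · intro z
    obtain ⟨c0, -⟩ := hp z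
    have hne : (Finset.univ : Finset C).Nonempty := ⟨c0, Finset.mem_univ _⟩
    obtain ⟨c, -, h⟩ := Finset.exists_le_of_sum_le (s := (Finset.univ : Finset C))
      (f := fun _ => ∑ c, μ z c) (g := fun c => (Fintype.card C : ℝ) * μ z c) hne (by
        rw [Finset.sum_const, Finset.card_univ, nsmul_eq_mul, ← Finset.mul_sum])
    refine ⟨c, ?_⟩
    have : 1 ≤ Fintype.card C * μ z c / ∑ c, μ z c := by
      rw [le_div_iff₀ (hs z), one_mul]
      exact h
    show 2 * min 1 (Fintype.card C * μ z c / ∑ c, μ z c) - 1 = 1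
    rw [min_eq_left this]
    norm_num
  · intro z c h
    have h' : -1 < 2 * min 1 (Fintype.card C * μ z c / ∑ c, μ z c) - 1 := h
    by_contra hneg
    have h1 : μ z c = 0 := le_antisymm (not_lt.1 hneg) (h0 z c)
    rw [h1] at h'
    have : min 1 ((Fintype.card C : ℝ) * 0 / ∑ c, μ z c) ≤ 0 := by
      refine (min_le_right _ _).trans ?_
      simp
    linarith

open Classical in
/-- The weight of the cell `(O, F)`. -/
noncomputable def mu {W : Type} [Fintype W] (g : W → ℝ) (O F : Finset W) : ℝ :=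
  (∏ w ∈ F, ∏ u ∈ Fᶜ, max 0 (|g u| - |g w|)) * (∏ w ∈ O, max 0 (g w)) *
    ∏ w ∈ (O ∪ F)ᶜ, max 0 (-g w)

theorem mu_nonneg {W : Type} [Fintype W] (g : W → ℝ) (O F : Finset W) : 0 ≤ mu g O F := by
  classical
  unfold mu
  refine mul_nonneg (mul_nonneg ?_ ?_) ?_
  · exact Finset.prod_nonneg fun w _ => Finset.prod_nonneg fun u _ => le_max_left _ _
  · exact Finset.prod_nonneg fun w _ => le_max_left _ _
  · exact Finset.prod_nonneg fun w _ => le_max_left _ _

theorem mu_pos_iff {W : Type} [Fintype W] (g : W → ℝ) (O F : Finset W) :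
    0 < mu g O F ↔ (∀ w ∈ F, ∀ u, u ∉ F → |g w| < |g u|) ∧ (∀ w ∈ O, 0 < g w) ∧
      ∀ w, w ∉ O → w ∉ F → g w < 0 := by
  classical
  have hmax : ∀ a : ℝ, max 0 a ≠ 0 ↔ 0 < a := by
    intro a
    constructor
    · intro h
      by_contra hn
      exact h (max_eq_left (not_lt.1 hn))
    · intro h
      rw [max_eq_right h.le]
      exact h.ne'
  rw [(mu_nonneg g O F).lt_iff_ne, ne_comm]
  unfold mu
  rw [mul_ne_zero_iff, mul_ne_zero_iff, Finset.prod_ne_zero_iff, Finset.prod_ne_zero_iff,
    Finset.prod_ne_zero_iff, and_assoc]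
  refine and_congr ?_ (and_congr ?_ ?_)
  · refine forall_congr' fun w => forall_congr' fun hw => ?_
    rw [Finset.prod_ne_zero_iff]
    refine forall_congr' fun u => ?_
    rw [Finset.mem_compl, hmax, sub_pos]
  · refine forall_congr' fun w => forall_congr' fun hw => ?_
    rw [hmax]
  · refine forall_congr' fun w => ?_
    rw [Finset.mem_compl, Finset.mem_union, hmax, not_or, and_imp, neg_pos]

theorem cells {Z S M : Type} [TopologicalSpace Z] [Fintype S] [Fintype M] (g : Z → S ⊕ M → ℝ)
    (hg : ∀ w, Continuous fun z => g z w) (hb : ∀ z w, |g z w| ≤ 1) (N : ℕ)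
    (hN : ∀ z, {w | |g z w| < 1}.ncard ≤ N) (hS : ∀ z, ∃ s, g z (Sum.inl s) = 1)
    (hM : ∀ z, ∃ v, g z (Sum.inr v) = 1) :
    ∃ (C : Type) (_ : Fintype C) (τ : C → Fin (N + 1)) (θ : Z → C → ℝ), Continuous θ ∧
      (∀ z c, -1 ≤ θ z c) ∧ (∀ z c, θ z c ≤ 1) ∧ (∀ z, ∃ c, θ z c = 1) ∧
      (∀ z c c', -1 < θ z c → -1 < θ z c' → τ c = τ c' → c = c') ∧
      ∀ c, ∃ s v, ∀ z, -1 < θ z c → 0 < g z (Sum.inl s) ∧ 0 < g z (Sum.inr v) := by
  classical
  let C := {p : Finset (S ⊕ M) × Finset (S ⊕ M) // Disjoint p.1 p.2 ∧ p.2.card < N + 1 ∧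
    (∃ s, Sum.inl s ∈ p.1) ∧ ∃ v, Sum.inr v ∈ p.1}
  letI : Fintype C := Fintype.ofFinite C
  obtain ⟨θ, h1, h2, h3, h4, h5⟩ := norm_exists (Z := Z) (C := C)
    (fun z c => mu (g z) c.1.1 c.1.2) (by
      intro c
      unfold mu
      refine (Continuous.mul ?_ ?_).mul ?_
      · refine continuous_finset_prod _ fun w _ => continuous_finset_prod _ fun u _ => ?_
        exact continuous_const.max ((hg u).abs.sub (hg w).abs)
      · exact continuous_finset_prod _ fun w _ => continuous_const.max (hg w)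
      · exact continuous_finset_prod _ fun w _ => continuous_const.max (hg w).neg)
    (fun z c => mu_nonneg _ _ _) (by
      intro z
      obtain ⟨s, hs⟩ := hS z
      obtain ⟨v, hv⟩ := hM z
      refine ⟨⟨(Finset.univ.filter (fun w => g z w = 1),
        Finset.univ.filter (fun w => |g z w| < 1)), ?_, ?_, ⟨s, by simpa using hs⟩,
        ⟨v, by simpa using hv⟩⟩, ?_⟩
      · rw [Finset.disjoint_left]
        intro w hw hw'
        simp only [Finset.mem_filter, Finset.mem_univ, true_and] at hw hw'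
        rw [hw] at hw'
        norm_num at hw'
      · show (Finset.univ.filter (fun w => |g z w| < 1)).card < N + 1
        have := hN z
        rw [Set.ncard_eq_toFinset_card'] at this
        have e : {w | |g z w| < 1}.toFinset = Finset.univ.filter (fun w => |g z w| < 1) := by
          ext w
          simp
        rw [e] at this
        omega
      · rw [mu_pos_iff]
        refine ⟨?_, ?_, ?_⟩
        · intro w hw u hu
          simp only [Finset.mem_filter, Finset.mem_univ, true_and] at hw hu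
          linarith
        · intro w hw
          simp only [Finset.mem_filter, Finset.mem_univ, true_and] at hw
          rw [hw]
          exact one_pos
        · intro w hw hw'
          simp only [Finset.mem_filter, Finset.mem_univ, true_and, not_lt] at hw hw'
          have h1 : |g z w| = 1 := le_antisymm (hb z w) hw'
          rcases eq_or_eq_neg_of_abs_eq h1 with h | h
          · exact absurd h hw
          · rw [h]
            norm_num)
  refine ⟨C, inferInstance, fun c => ⟨c.1.2.card, c.2.2.1⟩, θ, h1, h2, h3, h4, ?_, ?_⟩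
  · intro z c c' hc hc' hcc
    obtain ⟨a1, a2, a3⟩ := (mu_pos_iff _ _ _).1 (h5 z c hc)
    obtain ⟨b1, b2, b3⟩ := (mu_pos_iff _ _ _).1 (h5 z c' hc')
    have hcard : c.1.2.card = c'.1.2.card := by simpa using hcc
    have hF : c.1.2 = c'.1.2 := by
      by_contra hne
      have h6 : ¬ c.1.2 ⊆ c'.1.2 := fun h => hne (Finset.eq_of_subset_of_card_le h hcard.ge)
      have h7 : ¬ c'.1.2 ⊆ c.1.2 := fun h => hne (Finset.eq_of_subset_of_card_le h hcard.le).symm
      obtain ⟨w, hw, hw'⟩ := Finset.not_subset.1 h6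
      obtain ⟨u, hu, hu'⟩ := Finset.not_subset.1 h7
      have := a1 w hw u hu'
      have := b1 u hu w hw'
      linarith
    have hO : c.1.1 = c'.1.1 := by
      ext w
      constructor
      · intro hw
        by_contra hn
        have h8 : w ∉ c'.1.2 := by
          rw [← hF]
          exact Finset.disjoint_left.1 c.2.1 hw
        have := a2 w hw
        have := b3 w hn h8
        linarith
      · intro hw
        by_contra hn
        have h8 : w ∉ c.1.2 := by
          rw [hF]
          exact Finset.disjoint_left.1 c'.2.1 hw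
        have := b2 w hw
        have := a3 w hn h8
        linarith
    exact Subtype.ext (Prod.ext hO hF)
  · intro c
    obtain ⟨s, hs⟩ := c.2.2.2.1
    obtain ⟨v, hv⟩ := c.2.2.2.2
    refine ⟨s, v, fun z hz => ?_⟩
    obtain ⟨a1, a2, a3⟩ := (mu_pos_iff _ _ _).1 (h5 z c hz)
    exact ⟨a2 _ hs, a2 _ hv⟩

/-- The data of the recursion. -/
def Dat {X ι : Type} [TopologicalSpace X] (U : ι → Set X) (n K : ℕ) : Prop :=
  ∃ (S : Type) (_ : Fintype S) (τ : S → Fin K) (θ : (Fin n → X) → S → ℝ), Continuous θ ∧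
    (∀ x s, -1 ≤ θ x s) ∧ (∀ x s, θ x s ≤ 1) ∧ (∀ x, ∃ s, θ x s = 1) ∧
    (∀ x s s', -1 < θ x s → -1 < θ x s' → τ s = τ s' → s = s') ∧
    ∀ s, ∃ i : Fin n → ι, ∀ x, -1 < θ x s → ∀ j, x j ∈ U (i j)

theorem start {X ι : Type} [TopologicalSpace X] (U : ι → Set X) (K : ℕ) : Dat U 0 (K + 1) := by
  refine ⟨Unit, inferInstance, fun _ => 0, fun _ _ => 1, continuous_const, ?_, ?_, ?_, ?_, ?_⟩
  · intro x s
    norm_num
  · intro x s
    exact le_refl _
  · intro x
    exact ⟨(), rfl⟩
  · intro x s s' _ _ _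
    rfl
  · intro s
    exact ⟨Fin.elim0, fun x _ j => j.elim0⟩

/-- Projection to the interval. -/
noncomputable def pI (a : ℝ) : Iv := Set.projIcc (-1 : ℝ) 1 (by norm_num) a

theorem pI_cont : Continuous pI := continuous_projIcc (h := by norm_num)

theorem pI_val {a : ℝ} (h : -1 ≤ a) (h' : a ≤ 1) : (pI a : ℝ) = a := by
  unfold pI
  rw [Set.projIcc_of_mem _ ⟨h, h'⟩]

theorem step {X ι : Type} [TopologicalSpace X] (U : ι → Set X) (m c n K : ℕ) (e : Fin m → ι)
    (φ : X → Fin m → ℝ) (hφ1 : ∀ x, ∃ v, φ x v = 1) (hφ0 : ∀ x v, -1 ≤ φ x v)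
    (hφU : ∀ x v, -1 < φ x v → x ∈ U (e v))
    (Φ : (Fin K → Iv) × X → (Fin K ⊕ Fin m) → ℝ) (hΦ : Continuous Φ) (hΦ1 : ∀ z j, |Φ z j| ≤ 1)
    (hf1 : ∀ (q : Fin K → Iv) (x : X) (j : Fin K), |(q j : ℝ)| = 1 → Φ (q, x) (Sum.inl j) = q j)
    (hf2 : ∀ (q : Fin K → Iv) (x : X) (v : Fin m), |φ x v| = 1 → Φ (q, x) (Sum.inr v) = φ x v)
    (hcard : ∀ z, {j | |Φ z j| < 1}.ncard ≤ K + c) (h : Dat U n K) :
    Dat U (n + 1) (K + c + 1) := by
  classical
  obtain ⟨S, fS, τ, θ, h1, h2, h3, h4, h5, h6⟩ := h
  -- the projection of the old data to the cube of types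
  let zz : (Fin n → X) → Fin K → Iv := fun x t =>
    pI (-1 + ∑ s, if τ s = t then θ x s + 1 else 0)
  let zs : (Fin n → X) → S → Fin K → Iv := fun x s => Function.update (zz x) (τ s) (pI (θ x s))
  have hzz : Continuous zz := by
    refine continuous_pi fun t => pI_cont.comp ?_
    refine continuous_const.add (continuous_finset_sum _ fun s _ => ?_)
    by_cases hs : τ s = t
    · simp only [hs, if_true]
      exact ((continuous_apply s).comp h1).add continuous_const
    · simp only [hs, if_false]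
      exact continuous_const
  have hzs : ∀ s, Continuous fun x => zs x s := by
    intro s
    exact hzz.update (τ s) (pI_cont.comp ((continuous_apply s).comp h1))
  have hzeq : ∀ x s, -1 < θ x s → zs x s = zz x := by
    intro x s hs
    have hsum : (∑ s', if τ s' = τ s then θ x s' + 1 else 0) = θ x s + 1 := by
      rw [Finset.sum_eq_single s]
      · simp
      · intro s' _ hne
        by_cases ht : τ s' = τ s
        · rw [if_pos ht]
          by_contra hn
          have : -1 < θ x s' := by
            rcases lt_or_eq_of_le (h2 x s') with h | h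
            · exact h
            · exact absurd (by rw [← h]; ring) hn
          exact hne (h5 x s' s this hs ht)
        · rw [if_neg ht]
      · intro hn
        exact absurd (Finset.mem_univ s) hn
    have : zz x (τ s) = pI (θ x s) := by
      show pI (-1 + ∑ s', if τ s' = τ s then θ x s' + 1 else 0) = _
      rw [hsum]
      congr 1
      ring
    show Function.update (zz x) (τ s) (pI (θ x s)) = zz x
    rw [← this, Function.update_eq_self]
  have hzval : ∀ x s, ((zs x s (τ s) : Iv) : ℝ) = θ x s := by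
    intro x s
    show ((Function.update (zz x) (τ s) (pI (θ x s)) (τ s) : Iv) : ℝ) = θ x s
    rw [Function.update_self, pI_val (h2 x s) (h3 x s)]
  let g : (Fin (n + 1) → X) → S ⊕ Fin m → ℝ := fun x w => match w with
    | Sum.inl s => Φ (zs (Fin.init x) s, x (Fin.last n)) (Sum.inl (τ s))
    | Sum.inr v => Φ (zz (Fin.init x), x (Fin.last n)) (Sum.inr v)
  have hinit : Continuous (fun x : Fin (n + 1) → X => (Fin.init x : Fin n → X)) := by
    refine continuous_pi fun j => ?_
    exact continuous_apply (Fin.castSucc j)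
  have hg : ∀ w, Continuous fun z => g z w := by
    intro w
    cases w with
    | inl s =>
      exact (continuous_apply _).comp (hΦ.comp (((hzs s).comp hinit).prodMk
        (continuous_apply (Fin.last n))))
    | inr v =>
      exact (continuous_apply _).comp (hΦ.comp ((hzz.comp hinit).prodMk
        (continuous_apply (Fin.last n))))
  have hgl : ∀ x s, g x (Sum.inl s) = Φ (zs (Fin.init x) s, x (Fin.last n)) (Sum.inl (τ s)) :=
    fun _ _ => rfl
  have hgr : ∀ x v, g x (Sum.inr v) = Φ (zz (Fin.init x), x (Fin.last n)) (Sum.inr v) :=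
    fun _ _ => rfl
  have hlow : ∀ x s, θ (Fin.init x) s = -1 → g x (Sum.inl s) = -1 := by
    intro x s hs
    rw [hgl, hf1 _ _ _ (by rw [hzval, hs]; norm_num), hzval, hs]
  have hlow' : ∀ x v, φ (x (Fin.last n)) v = -1 → g x (Sum.inr v) = -1 := by
    intro x v hv
    rw [hgr, hf2 _ _ _ (by rw [hv]; norm_num), hv]
  obtain ⟨C, fC, τ', θ', k1, k2, k3, k4, k5, k6⟩ := cells g hg (by
      intro z w
      cases w with
      | inl s => exact hΦ1 _ _
      | inr v => exact hΦ1 _ _) (K + c) (by
      intro x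
      refine le_trans ?_ (hcard (zz (Fin.init x), x (Fin.last n)))
      have key : ∀ s, |g x (Sum.inl s)| < 1 → -1 < θ (Fin.init x) s ∧
          g x (Sum.inl s) = Φ (zz (Fin.init x), x (Fin.last n)) (Sum.inl (τ s)) := by
        intro s hs
        have a : -1 < θ (Fin.init x) s := by
          rcases lt_or_eq_of_le (h2 (Fin.init x) s) with h | h
          · exact h
          · rw [hlow x s h.symm] at hs
            norm_num at hs
        refine ⟨a, ?_⟩
        rw [hgl, hzeq _ _ a]
      refine Set.ncard_le_ncard_of_injOn (fun w => match w with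
        | Sum.inl s => Sum.inl (τ s)
        | Sum.inr v => Sum.inr v) ?_ ?_ (Set.toFinite _)
      · intro w hw
        cases w with
        | inl s =>
          have hw' : |g x (Sum.inl s)| < 1 := hw
          have := (key s hw').2
          show |Φ (zz (Fin.init x), x (Fin.last n)) (Sum.inl (τ s))| < 1
          rw [← this]
          exact hw'
        | inr v => exact hw
      · intro w hw w' hw' hww
        cases w with
        | inl s =>
          cases w' with
          | inl s' =>
            have h7 : (Sum.inl (τ s) : Fin K ⊕ Fin m) = Sum.inl (τ s') := hww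
            have h8 : τ s = τ s' := Sum.inl_injective h7
            rw [h5 _ s s' (key s hw).1 (key s' hw').1 h8]
          | inr v' =>
            have h7 : (Sum.inl (τ s) : Fin K ⊕ Fin m) = Sum.inr v' := hww
            exact absurd h7 (by simp)
        | inr v =>
          cases w' with
          | inl s' =>
            have h7 : (Sum.inr v : Fin K ⊕ Fin m) = Sum.inl (τ s') := hww
            exact absurd h7 (by simp)
          | inr v' =>
            have h7 : (Sum.inr v : Fin K ⊕ Fin m) = Sum.inr v' := hww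
            rw [Sum.inr_injective h7]) (by
      intro x
      obtain ⟨s, hs⟩ := h4 (Fin.init x)
      refine ⟨s, ?_⟩
      rw [hgl, hf1 _ _ _ (by rw [hzval, hs]; norm_num), hzval, hs]) (by
      intro x
      obtain ⟨v, hv⟩ := hφ1 (x (Fin.last n))
      refine ⟨v, ?_⟩
      rw [hgr, hf2 _ _ _ (by rw [hv]; norm_num), hv])
  refine ⟨C, fC, τ', θ', k1, k2, k3, k4, k5, ?_⟩
  intro c'
  obtain ⟨s, v, hsv⟩ := k6 c'
  obtain ⟨i, hi⟩ := h6 s
  refine ⟨Fin.snoc (α := fun _ => ι) i (e v), ?_⟩
  intro x hx j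
  obtain ⟨q1, q2⟩ := hsv x hx
  have r1 : -1 < θ (Fin.init x) s := by
    rcases lt_or_eq_of_le (h2 (Fin.init x) s) with h | h
    · exact h
    · rw [hlow x s h.symm] at q1
      norm_num at q1
  have r2 : -1 < φ (x (Fin.last n)) v := by
    rcases lt_or_eq_of_le (hφ0 (x (Fin.last n)) v) with h | h
    · exact h
    · rw [hlow' x v h.symm] at q2
      norm_num at q2
  refine Fin.lastCases ?_ (fun j => ?_) j
  · rw [Fin.snoc_last]
    exact hφU _ _ r2
  · rw [Fin.snoc_castSucc]
    exact hi (Fin.init x) r1 j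

theorem bump {X : Type} [TopologicalSpace X] [TopologicalSpace.MetrizableSpace X] (V : Set X)
    (hV : IsOpen V) : ∃ f : X → ℝ, Continuous f ∧ (∀ x, 0 ≤ f x) ∧ ∀ x, 0 < f x ↔ x ∈ V := by
  letI : MetricSpace X := TopologicalSpace.metrizableSpaceMetric X
  by_cases h : (Vᶜ).Nonempty
  · refine ⟨fun x => Metric.infDist x Vᶜ, Metric.continuous_infDist_pt _,
      fun x => Metric.infDist_nonneg, fun x => ?_⟩
    rw [← hV.isClosed_compl.notMem_iff_infDist_pos h]
    simp
  · have : V = univ := by
      rw [Set.not_nonempty_iff_eq_empty, Set.compl_empty_iff] at h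
      exact h
    refine ⟨fun _ => 1, continuous_const, fun _ => zero_le_one, fun x => ?_⟩
    simp [this]

end ITR

open ITR in
theorem ITR : Stmt_ITR := by
  intro X _ _ _ c hX ι _ U hU hcov
  classical
  obtain ⟨m, ⟨e⟩⟩ := Finite.exists_equiv_fin ι
  choose f hf1 hf2 hf3 using fun v : Fin m => bump (U (e.symm v)) (hU (e.symm v))
  obtain ⟨φ, p1, p2, p3, p4, p5⟩ := norm_exists (Z := X) (C := Fin m) (fun x v => f v x)
    (fun v => hf1 v) (fun x v => hf2 v x) (by
      intro x
      obtain ⟨i, hi⟩ := hcov x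
      refine ⟨e i, ?_⟩
      rw [hf3]
      simpa using hi)
  obtain ⟨k₀, hk⟩ := hX m φ p1 (fun x v => abs_le.2 ⟨p2 x v, p3 x v⟩)
  have main : ∀ n : ℕ, Dat U n (k₀ + 1 + (c + 1) * n) := by
    intro n
    induction n with
    | zero => exact start U k₀
    | succ n ih =>
      obtain ⟨Φ, a1, a2, a3, a4, a5⟩ := hk (k₀ + 1 + (c + 1) * n) (by omega)
      have := step U m c n _ (fun v => e.symm v) φ p4 p2 (fun x v hv => (hf3 v x).1 (p5 x v hv))
        Φ a1 a2 a3 a4 a5 ih
      have e1 : k₀ + 1 + (c + 1) * n + c + 1 = k₀ + 1 + (c + 1) * (n + 1) := by ring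
      rwa [e1] at this
  refine ⟨k₀ + 1, fun n => ?_⟩
  obtain ⟨S, fS, τ, θ, h1, h2, h3, h4, h5, h6⟩ := main n
  refine ⟨S, inferInstance, fun s => {x | -1 < θ x s}, ?_, ?_, ?_, ?_⟩
  · intro s
    exact isOpen_lt continuous_const ((continuous_apply s).comp h1)
  · intro x
    obtain ⟨s, hs⟩ := h4 x
    refine ⟨s, ?_⟩
    show -1 < θ x s
    rw [hs]
    norm_num
  · intro s
    obtain ⟨i, hi⟩ := h6 s
    exact ⟨i, fun x hx => hi x hx⟩
  · intro x
    have : {a | x ∈ {x | -1 < θ x a}}.ncard ≤ (univ : Set (Fin (k₀ + 1 + (c + 1) * n))).ncard := by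
      refine Set.ncard_le_ncard_of_injOn τ (fun _ _ => mem_univ _) ?_ (Set.toFinite _)
      intro s hs s' hs' hss
      exact h5 x s s' hs hs' hss
    rwa [Set.ncard_univ, Nat.card_eq_fintype_card, Fintype.card_fin] at this

end Pool.Agent.SH
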