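import Pool.Agent.SH.StmtsR
import Pool.Agent.SH.ITR

/-!
# MP_2d0b73_an: the bound for one map `σ`
-/

set_option autoImplicit false

open Set Topology Filter

namespace Pool.Agent.SH

namespace MPD

/-- Functions adapted to a finite open cover of a normal space. -/
theorem norm_cover {Y C : Type} [TopologicalSpace Y] [NormalSpace Y] [Fintype C] (W : C → Set Y)
    (ho : ∀ c, IsOpen (W c)) (hc : ∀ y, ∃ c, y ∈ W c) :
    ∃ θ : Y → C → ℝ, Continuous θ ∧ (∀ y c, -1 ≤ θ y c) ∧ (∀ y c, θ y c ≤ 1) ∧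
      (∀ y, ∃ c, θ y c = 1) ∧ ∀ y c, -1 < θ y c → y ∈ W c := by
  obtain ⟨f, hf⟩ := PartitionOfUnity.exists_isSubordinate_of_locallyFinite (isClosed_univ (X := Y)) W ho
    (locallyFinite_of_finite W) (fun y _ => mem_iUnion.2 (hc y))
  obtain ⟨θ, h1, h2, h3, h4, h5⟩ := ITR.norm_exists (fun y c => f c y)
    (fun c => (f c).continuous) (fun y c => f.nonneg c y) (fun y => by
      obtain ⟨c, hc⟩ := f.exists_pos (mem_univ y)
      exact ⟨c, hc⟩)
  refine ⟨θ, h1, h2, h3, h4, fun y c h => ?_⟩
  apply hf c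
  apply subset_tsupport
  exact (h5 y c h).ne'

theorem rho_cont {X : Type} [t : TopologicalSpace X] {ρ : X → X → ℝ} (h : IsCompatMetric ρ) :
    (Continuous fun p : X × X => ρ p.1 p.2) ∧ ∀ x y, 0 ≤ ρ x y := by
  obtain ⟨m, hm, hρm⟩ := h
  subst hm
  refine ⟨?_, fun x y => ?_⟩
  · have h1 : (fun p : X × X => ρ p.1 p.2) = fun p => dist p.1 p.2 :=
      funext fun p => hρm p.1 p.2
    rw [h1]
    exact continuous_dist
  · rw [hρm]
    exact dist_nonneg

/-- Cells: general form. -/
theorem cells_card {W : Type} [Fintype W] (g : W → ℝ) {O F O' F' : Finset W}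
    (hd : Disjoint O F) (hd' : Disjoint O' F') (h : 0 < ITR.mu g O F) (h' : 0 < ITR.mu g O' F')
    (hcard : F.card = F'.card) : O = O' ∧ F = F' := by
  obtain ⟨a1, a2, a3⟩ := (ITR.mu_pos_iff _ _ _).1 h
  obtain ⟨b1, b2, b3⟩ := (ITR.mu_pos_iff _ _ _).1 h'
  have hF : F = F' := by
    by_contra hne
    have h6 : ¬ F ⊆ F' := fun h => hne (Finset.eq_of_subset_of_card_le h hcard.ge)
    have h7 : ¬ F' ⊆ F := fun h => hne (Finset.eq_of_subset_of_card_le h hcard.le).symm
    obtain ⟨w, hw, hw'⟩ := Finset.not_subset.1 h6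
    obtain ⟨u, hu, hu'⟩ := Finset.not_subset.1 h7
    have := a1 w hw u hu'
    have := b1 u hu w hw'
    linarith
  refine ⟨?_, hF⟩
  ext w
  constructor
  · intro hw
    by_contra hn
    have h8 : w ∉ F' := by
      rw [← hF]
      exact Finset.disjoint_left.1 hd hw
    have := a2 w hw
    have := b3 w hn h8
    linarith
  · intro hw
    by_contra hn
    have h8 : w ∉ F := by
      rw [hF]
      exact Finset.disjoint_left.1 hd' hw
    have := b2 w hw
    have := a3 w hn h8
    linarith

/-- The covers by cells: general form. -/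
theorem DD_le {Y W : Type} [TopologicalSpace Y] [Fintype W] (Z : Set Y) (P : Set (Set Y))
    (g : Z → W → ℝ) (hg : ∀ w, Continuous fun z => g z w) (hb : ∀ z w, |g z w| ≤ 1) (N : ℕ)
    (hN : ∀ z, {w | |g z w| < 1}.ncard ≤ N) (Q : Finset W → Prop)
    (hQ : ∀ z, ∀ O : Finset W, (∀ w, g z w = 1 → w ∈ O) → Q O)
    (hP : ∀ O F : Finset W, Disjoint O F → Q O → ∃ p ∈ P, ∀ z : Z, 0 < ITR.mu (g z) O F →
      (z : Y) ∈ p) :
    DD Z P ≤ ((N : ℝ) : EReal) := by
  classical
  let C := {p : Finset W × Finset W // Disjoint p.1 p.2 ∧ p.2.card ≤ N ∧ Q p.1}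
  let cell : C → Set Z := fun c => {z | 0 < ITR.mu (g z) c.1.1 c.1.2}
  have hopen : ∀ c, IsOpen (cell c) := by
    intro c
    refine isOpen_lt continuous_const ?_
    unfold ITR.mu
    refine (Continuous.mul ?_ ?_).mul ?_
    · refine continuous_finsetProd _ fun w _ => continuous_finsetProd _ fun u _ => ?_
      exact continuous_const.max ((hg u).abs.sub (hg w).abs)
    · exact continuous_finsetProd _ fun w _ => continuous_const.max (hg w)
    · exact continuous_finsetProd _ fun w _ => continuous_const.max (hg w).neg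
  have hcov : ∀ z, ∃ c, z ∈ cell c := by
    intro z
    refine ⟨⟨(Finset.univ.filter (fun w => g z w = 1),
      Finset.univ.filter (fun w => |g z w| < 1)), ?_, ?_, ?_⟩, ?_⟩
    · rw [Finset.disjoint_left]
      intro w hw hw'
      simp only [Finset.mem_filter, Finset.mem_univ, true_and] at hw hw'
      rw [hw] at hw'
      norm_num at hw'
    · have := hN z
      rw [Set.ncard_eq_toFinset_card'] at this
      have e : {w | |g z w| < 1}.toFinset = Finset.univ.filter (fun w => |g z w| < 1) := by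
        ext w
        simp
      rw [e] at this
      exact this
    · apply hQ z
      intro w hw
      simpa using hw
    · show 0 < ITR.mu _ _ _
      rw [ITR.mu_pos_iff]
      refine ⟨?_, ?_, ?_⟩
      · intro w hw u hu
        simp only [Finset.mem_filter, Finset.mem_univ, true_and] at hw hu
        linarith
      · intro w hw
        simp only [Finset.mem_filter, Finset.mem_univ, true_and] at hw
        rw [hw]
        exact one_pos
      · intro w hw hw'
        simp only [Finset.mem_filter, Finset.mem_univ, true_and, not_lt] at hw hw'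
        have h1 : |g z w| = 1 := le_antisymm (hb z w) hw'
        rcases eq_or_eq_neg_of_abs_eq h1 with h | h
        · exact absurd h hw
        · rw [h]
          norm_num
  have hfin : Finite C := inferInstance
  let V : Set (Set Z) := Set.range cell
  have hV : IsFCover V := by
    refine ⟨Set.finite_range cell, ?_, ?_⟩
    · rintro _ ⟨c, rfl⟩
      exact hopen c
    · rw [Set.eq_univ_iff_forall]
      intro z
      obtain ⟨c, hc⟩ := hcov z
      exact ⟨_, ⟨c, rfl⟩, hc⟩
  have hV2 : ∀ v ∈ V, ∃ w ∈ P, v ⊆ {z : Z | (z : Y) ∈ w} := by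
    rintro _ ⟨c, rfl⟩
    obtain ⟨p, hp, h⟩ := hP c.1.1 c.1.2 c.2.1 c.2.2.2
    exact ⟨p, hp, fun z hz => h z hz⟩
  refine (iInf₂_le V ⟨hV, hV2⟩).trans ?_
  unfold ordC
  refine iSup_le fun z => ?_
  have hcount : {v | v ∈ V ∧ z ∈ v}.ncard ≤ N + 1 := by
    let D : Set C := {c | z ∈ cell c}
    have h1 : {v | v ∈ V ∧ z ∈ v} ⊆ cell '' D := by
      rintro v ⟨⟨c, rfl⟩, hz⟩
      exact ⟨c, hz, rfl⟩
    have h2 : D.ncard ≤ (Finset.range (N + 1)).card := by
      rw [← Set.ncard_coe_finset]
      refine Set.ncard_le_ncard_of_injOn (fun c => c.1.2.card) ?_ ?_ (Finset.finite_toSet _)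
      · intro c _
        rw [Finset.mem_coe, Finset.mem_range]
        exact Nat.lt_succ_of_le c.2.2.1
      · intro c hc c' hc' hcc
        obtain ⟨e1, e2⟩ := cells_card (g z) c.2.1 c'.2.1 hc hc' hcc
        exact Subtype.ext (Prod.ext e1 e2)
    rw [Finset.card_range] at h2
    calc {v | v ∈ V ∧ z ∈ v}.ncard ≤ (cell '' D).ncard := Set.ncard_le_ncard h1 (Set.toFinite _)
      _ ≤ D.ncard := Set.ncard_image_le (Set.toFinite _)
      _ ≤ N + 1 := h2
  have h3 : ({v | v ∈ V ∧ z ∈ v}.ncard : ℝ) ≤ N + 1 := by exact_mod_cast hcount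
  have h4 : ({v | v ∈ V ∧ z ∈ v}.ncard : ℝ) - 1 ≤ N := by linarith
  exact_mod_cast h4

end MPD

open MPD in
theorem MAPD : Stmt_MAPD := by
  intro K _ _ _ _ G _ ρ U hρ hU F ι _ V τ hτ hc δ d N b σ hδ hbad ⟨κ, hκ, W, hWo, hWc, hWb, hWN⟩
  classical
  have : Fintype κ := Fintype.ofFinite κ
  have : Finite U := hU.1
  have : Fintype U := Fintype.ofFinite U
  have : CompactSpace (FullShift G K) := inferInstanceAs (CompactSpace (G → K))
  have : T2Space (FullShift G K) := inferInstanceAs (T2Space (G → K))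
  obtain ⟨hρc, hρ0⟩ := rho_cont hρ
  have hsc : ∀ s : G, Continuous fun x : FullShift G K => s • x := fun s =>
    continuous_pi fun h => continuous_apply (h * s)
  have hUne : Nonempty U := by
    obtain ⟨k⟩ := ‹Nonempty K›
    have h1 : (fun _ => k : FullShift G K) ∈ ⋃₀ U := by
      rw [hU.2.2]
      trivial
    obtain ⟨u, hu, _⟩ := h1
    exact ⟨⟨u, hu⟩⟩
  obtain ⟨θ, t1, t2, t3, t4, t5⟩ := norm_cover (fun u : U => u.1) (fun u => hU.2.1 u.1 u.2)
    (fun x => by
      have h1 : x ∈ ⋃₀ U := by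
        rw [hU.2.2]
        trivial
      obtain ⟨u, hu, hx⟩ := h1
      exact ⟨⟨u, hu⟩, hx⟩)
  obtain ⟨θ', s1, s2, s3, s4, s5⟩ := norm_cover W hWo hWc
  -- the coordinates
  let bv : (Fin d → FullShift G K) → Fin d → ℝ := fun φ v =>
    ∑ s ∈ F, ρ (φ (σ s v)) (s • φ v)
  have hbvc : ∀ v, Continuous fun φ => bv φ v := by
    intro v
    refine continuous_finsetSum _ fun s _ => ?_
    have e1 : Continuous fun φ : Fin d → FullShift G K => φ (σ s v) := continuous_apply _
    have e2 : Continuous fun φ : Fin d → FullShift G K => s • φ v :=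
      (hsc s).comp (continuous_apply v)
    exact hρc.comp (e1.prodMk e2)
  let be : (Fin d → FullShift G K) → Fin d → ℝ := fun φ v =>
    max (-1) (min 1 (2 * bv φ v / τ - 3))
  have hbec : ∀ v, Continuous fun φ => be φ v := by
    intro v
    refine continuous_const.max (continuous_const.min ?_)
    exact ((continuous_const.mul (hbvc v)).div_const τ).sub continuous_const
  have hbe1 : ∀ φ v, -1 ≤ be φ v := fun φ v => le_max_left _ _
  have hbe2 : ∀ φ v, be φ v ≤ 1 := fun φ v => max_le (by norm_num) (min_le_left _ _)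
  have hbe3 : ∀ φ v, -1 < be φ v → τ < bv φ v := by
    intro φ v h
    by_contra hn
    push Not at hn
    have h1 : 2 * bv φ v / τ - 3 ≤ -1 := by
      have : bv φ v / τ ≤ 1 := (div_le_one hτ).2 hn
      rw [mul_div_assoc]
      linarith
    have h2 : be φ v = -1 := by
      show max (-1) (min 1 (2 * bv φ v / τ - 3)) = -1
      exact max_eq_left ((min_le_right _ _).trans h1)
    linarith
  have hbe4 : ∀ φ v, be φ v < 0 → bv φ v < 2 * τ := by
    intro φ v h
    by_contra hn
    push Not at hn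
    have h1 : 1 ≤ 2 * bv φ v / τ - 3 := by
      have : 2 ≤ bv φ v / τ := (le_div_iff₀ hτ).2 hn
      rw [mul_div_assoc]
      linarith
    have h2 : be φ v = 1 := by
      show max (-1) (min 1 (2 * bv φ v / τ - 3)) = 1
      rw [min_eq_left h1]
      exact max_eq_right (by norm_num)
    linarith
  let pr : (Fin d → FullShift G K) → Fin d → K := fun φ v => φ v 1
  have hpr : Continuous pr := continuous_pi fun v =>
    (continuous_apply (1 : G)).comp (continuous_apply (A := fun _ => G → K) v)
  let g : SMap ρ F δ σ → (κ ⊕ (Fin d ⊕ Fin d × U)) → ℝ := fun z w =>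
    match w with
    | Sum.inl a => θ' (pr z.1) a
    | Sum.inr (Sum.inl v) => be z.1 v
    | Sum.inr (Sum.inr p) => min (be z.1 p.1) (θ (z.1 p.1) p.2)
  have hg : ∀ w, Continuous fun z => g z w := by
    rintro (a | v | p)
    · exact ((continuous_apply a).comp (s1.comp hpr)).comp continuous_subtype_val
    · exact (hbec v).comp continuous_subtype_val
    · have e3 : Continuous fun φ : Fin d → FullShift G K => θ (φ p.1) p.2 :=
        (continuous_apply p.2).comp (t1.comp (continuous_apply p.1))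
      exact ((hbec p.1).comp continuous_subtype_val).min (e3.comp continuous_subtype_val)
  have hlow : ∀ z w, -1 ≤ g z w := by
    rintro z (a | v | p)
    · exact s2 _ _
    · exact hbe1 _ _
    · exact le_min (hbe1 _ _) (t2 _ _)
  have hhigh : ∀ z w, g z w ≤ 1 := by
    rintro z (a | v | p)
    · exact s3 _ _
    · exact hbe2 _ _
    · exact (min_le_left _ _).trans (hbe2 _ _)
  have hN : ∀ z, {w | |g z w| < 1}.ncard ≤ N + b * (U.ncard + 1) := by
    intro z
    let B : Set (Fin d) := {v | τ < bv z.1 v}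
    have hB : B.ncard ≤ b := hbad z.1 z.2
    let A : Set κ := {a | pr z.1 ∈ W a}
    have hA : A.ncard ≤ N := hWN _
    have h1 : {w | |g z w| < 1} ⊆ (Sum.inl '' A) ∪ (Sum.inr ∘ Sum.inl) '' B
        ∪ (Sum.inr ∘ Sum.inr) '' (B ×ˢ (univ : Set U)) := by
      rintro (a | v | p) hw
      · left; left
        exact ⟨a, s5 _ _ (abs_lt.1 hw).1, rfl⟩
      · left; right
        exact ⟨v, hbe3 _ _ (abs_lt.1 hw).1, rfl⟩
      · right
        have h2 : -1 < min (be z.1 p.1) (θ (z.1 p.1) p.2) := (abs_lt.1 hw).1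
        exact ⟨p, ⟨hbe3 _ _ (lt_of_lt_of_le h2 (min_le_left _ _)), trivial⟩, rfl⟩
    refine (Set.ncard_le_ncard h1 (Set.toFinite _)).trans ?_
    refine (Set.ncard_union_le _ _).trans ?_
    have h2 := Set.ncard_union_le (Sum.inl '' A) ((Sum.inr ∘ Sum.inl) '' B :
      Set (κ ⊕ (Fin d ⊕ Fin d × U)))
    have h3 : (Sum.inl '' A : Set (κ ⊕ (Fin d ⊕ Fin d × U))).ncard ≤ N :=
      (Set.ncard_image_le (Set.toFinite _)).trans hA
    have h4 : ((Sum.inr ∘ Sum.inl) '' B : Set (κ ⊕ (Fin d ⊕ Fin d × U))).ncard ≤ b :=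
      (Set.ncard_image_le (Set.toFinite _)).trans hB
    have h5 : ((Sum.inr ∘ Sum.inr) '' (B ×ˢ (univ : Set U)) :
        Set (κ ⊕ (Fin d ⊕ Fin d × U))).ncard ≤ b * U.ncard := by
      refine (Set.ncard_image_le (Set.toFinite _)).trans ?_
      rw [Set.ncard_prod, Set.ncard_univ, Nat.card_coe_set_eq]
      exact Nat.mul_le_mul_right _ hB
    have h6 : N + b * (U.ncard + 1) = N + b + b * U.ncard := by ring
    omega
  have hfinal := DD_le (SMap ρ F δ σ) (powCover U d) g hg
    (fun z w => abs_le.2 ⟨hlow z w, hhigh z w⟩) (N + b * (U.ncard + 1)) hN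
    (fun O => ∃ a, Sum.inl a ∈ O)
    (fun z O hO => by
      obtain ⟨a, ha⟩ := s4 (pr z.1)
      exact ⟨a, hO (Sum.inl a) ha⟩) (by
    intro O F' hd hQ
    obtain ⟨a, ha⟩ := hQ
    by_cases hne : ∃ z : SMap ρ F δ σ, 0 < ITR.mu (g z) O F'
    · obtain ⟨z0, hz0⟩ := hne
      obtain ⟨a1, a2, a3⟩ := (ITR.mu_pos_iff _ _ _).1 hz0
      obtain ⟨i, hi⟩ := hWb a
      have key : ∀ v : Fin d, ∃ u : U, ∀ z : SMap ρ F δ σ, 0 < ITR.mu (g z) O F' →
          z.1 v ∈ u.1 := by
        intro v
        by_cases hv : Sum.inr (Sum.inl v) ∈ O ∨ Sum.inr (Sum.inl v) ∈ F'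
        · -- bad vertex
          obtain ⟨u, hu⟩ := t4 (z0.1 v)
          have he : g z0 (Sum.inr (Sum.inr (v, u))) = g z0 (Sum.inr (Sum.inl v)) := by
            show min (be z0.1 v) (θ (z0.1 v) u) = be z0.1 v
            rw [hu]
            exact min_eq_left (hbe2 _ _)
          refine ⟨u, fun z hz => ?_⟩
          obtain ⟨b1, b2, b3⟩ := (ITR.mu_pos_iff _ _ _).1 hz
          have hgt : -1 < g z (Sum.inr (Sum.inr (v, u))) := by
            by_cases hO : Sum.inr (Sum.inr (v, u)) ∈ O
            · have := b2 _ hO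
              linarith
            · by_cases hF' : Sum.inr (Sum.inr (v, u)) ∈ F'
              · have haF : Sum.inl a ∉ F' := Finset.disjoint_left.1 hd ha
                have h1 := b1 _ hF' _ haF
                have h2 : |g z (Sum.inl a)| ≤ 1 := abs_le.2 ⟨hlow z (Sum.inl a), hhigh z (Sum.inl a)⟩
                exact (abs_lt.1 (lt_of_lt_of_le h1 h2)).1
              · exfalso
                have h1 := a3 _ hO hF'
                rcases hv with hv | hv
                · have h2 := a2 _ hv
                  rw [he] at h1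
                  linarith
                · have h2 := a1 _ hv _ hF'
                  rw [he] at h2
                  exact lt_irrefl _ h2
          exact t5 _ _ (lt_of_lt_of_le hgt (min_le_right _ _))
        · push Not at hv
          obtain ⟨u, hu, huc⟩ := hc (fun s => i (σ s v))
          refine ⟨⟨u, hu⟩, fun z hz => ?_⟩
          obtain ⟨b1, b2, b3⟩ := (ITR.mu_pos_iff _ _ _).1 hz
          apply huc
          intro s hs
          have h1 : be z.1 v < 0 := b3 _ hv.1 hv.2
          have h2 := hbe4 _ _ h1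
          refine ⟨z.1 (σ s v), ?_, ?_⟩
          · refine lt_of_le_of_lt ?_ h2
            exact Finset.single_le_sum (f := fun s => ρ (z.1 (σ s v)) (s • z.1 v))
              (fun s _ => hρ0 _ _) hs
          · have h3 : pr z.1 ∈ W a := s5 _ _ (by
              have := b2 _ ha
              have h4 : g z (Sum.inl a) = θ' (pr z.1) a := rfl
              rw [← h4]
              linarith)
            exact hi _ h3 (σ s v)
      choose u hu using key
      exact ⟨{z | ∀ j, z j ∈ (u j).1}, ⟨fun j => (u j).1, fun j => (u j).2, rfl⟩,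
        fun z hz j => hu j z hz⟩
    · obtain ⟨u⟩ := hUne
      exact ⟨{z | ∀ j, z j ∈ u.1}, ⟨fun _ => u.1, fun _ => u.2, rfl⟩,
        fun z hz => absurd ⟨z, hz⟩ hne⟩)
  refine hfinal.trans (le_of_eq ?_)
  push_cast
  rfl

end Pool.Agent.SH
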