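import Pool.Agent.SH.StmtsN
import Pool.Agent.SH.StmtsTE

/-!
# MP_2d0b73_an, Part III-N, (F12): `B D` is acyclic for `D = ℤ[1/2]/ℤ`
-/

set_option autoImplicit false

open CategoryTheory MonoidalCategory CartesianMonoidalCategory Simplicial Opposite

namespace Pool.Agent.SH

namespace NBd

/-! ### The elements killed by a power of two -/

/-- the elements of `Dd` killed by `2 ^ k` -/
def Dk (k : ℕ) : AddSubgroup Dd where
  carrier := {d | 2 ^ k • d = 0}
  zero_mem' := smul_zero _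
  add_mem' := by
    intro a b ha hb
    have ha' : 2 ^ k • a = 0 := ha
    have hb' : 2 ^ k • b = 0 := hb
    show 2 ^ k • (a + b) = 0
    rw [smul_add, ha', hb', add_zero]
  neg_mem' := by
    intro a ha
    have ha' : 2 ^ k • a = 0 := ha
    show 2 ^ k • (-a) = 0
    rw [smul_neg, ha', neg_zero]

theorem mem_Dk {k : ℕ} {d : Dd} : d ∈ Dk k ↔ 2 ^ k • d = 0 := Iff.rfl

theorem Dk_mono {k l : ℕ} (h : k ≤ l) {d : Dd} (hd : 2 ^ k • d = 0) : 2 ^ l • d = 0 := by
  obtain ⟨m, rfl⟩ := Nat.exists_eq_add_of_le h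
  rw [pow_add, mul_comm, mul_smul, hd, smul_zero]

theorem exists_k (d : Dd) : ∃ k : ℕ, 2 ^ k • d = 0 := by
  obtain ⟨k, hk⟩ := d.2
  exact ⟨k, Subtype.ext hk⟩

instance finite_Dk (k : ℕ) : Finite (Dk k) := by
  have h : (Set.ofPred (fun u : AddCircle (1 : ℚ) => (2 ^ k) • u = 0)).Finite :=
    AddCircle.finite_torsion (1 : ℚ) (n := 2 ^ k) (by positivity)
  have h' : Finite (Set.ofPred (fun u : AddCircle (1 : ℚ) => (2 ^ k) • u = 0)) := h.to_subtype
  refine Finite.of_injective (fun d : Dk k =>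
    (⟨d.1.1, congrArg Subtype.val d.2⟩ :
      (Set.ofPred (fun u : AddCircle (1 : ℚ) => (2 ^ k) • u = 0)))) ?_
  intro a b hab
  simp only [Subtype.mk.injEq] at hab
  exact Subtype.ext (Subtype.ext hab)

theorem card_Dk (k : ℕ) : ∃ j, Nat.card (Multiplicative (Dk k)) = 2 ^ j := by
  have h : IsPGroup 2 (Multiplicative (Dk k)) := by
    intro g
    refine ⟨k, ?_⟩
    apply Multiplicative.toAdd.injective
    rw [toAdd_pow, toAdd_one]
    exact Subtype.ext g.toAdd.2
  have : Finite (Multiplicative (Dk k)) := finite_Dk k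
  exact IsPGroup.iff_card.1 h

/-! ### Change of coefficients -/

/-- A homomorphism of coefficients. -/
noncomputable def chg {A B : Type} [AddCommMonoid A] [AddCommMonoid B] (φ : A →+ B)
    {X : SSet.{0}} (W Z : X.Subcomplex) : FM A ⊤ ⊤ W Z ⟶ FM B ⊤ ⊤ W Z where
  app n := TypeCat.ofHom (fun f =>
    ⟨f.1.mapRange φ φ.map_zero, by
      refine ⟨fun x hx => ?_, fun x _ => AddSubmonoid.mem_top _⟩
      rw [Finsupp.mapRange_apply] at hx
      exact f.2.1 x fun h => hx (by rw [h, map_zero])⟩)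
  naturality n m θ := by
    classical
    refine ConcreteCategory.hom_ext _ _ fun f => Subtype.ext ?_
    obtain ⟨f, hf⟩ := f
    show (((f.mapDomain (X.map θ)).filter (fun x => x ∉ Z.obj m)).mapRange φ φ.map_zero)
      = ((f.mapRange φ φ.map_zero).mapDomain (X.map θ)).filter (fun x => x ∉ Z.obj m)
    rw [Finsupp.mapDomain_mapRange _ _ _ φ.map_zero φ.map_add]
    ext x
    rw [Finsupp.mapRange_apply, Finsupp.filter_apply, Finsupp.filter_apply]
    by_cases h : x ∉ Z.obj m
    · rw [if_pos h, if_pos h, Finsupp.mapRange_apply]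
    · rw [if_neg h, if_neg h, map_zero]

theorem chg_app {A B : Type} [AddCommMonoid A] [AddCommMonoid B] (φ : A →+ B)
    {X : SSet.{0}} (W Z : X.Subcomplex) {n : SimplexCategoryᵒᵖ} (f : (FM A ⊤ ⊤ W Z).obj n) :
    ((chg φ W Z).app n f).1 = f.1.mapRange φ φ.map_zero := rfl

theorem chg_mono {A B : Type} [AddCommMonoid A] [AddCommMonoid B] (φ : A →+ B)
    (hφ : Function.Injective φ) {X : SSet.{0}} (W Z : X.Subcomplex) : Mono (chg φ W Z) := by
  have : ∀ n, Mono ((chg φ W Z).app n) := by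
    intro n
    rw [mono_iff_injective]
    intro f g hfg
    have h1 : f.1.mapRange φ φ.map_zero = g.1.mapRange φ φ.map_zero := congrArg Subtype.val hfg
    exact Subtype.ext (Finsupp.mapRange_injective φ φ.map_zero hφ h1)
  exact NatTrans.mono_of_mono_app _

/-! ### The subcomplexes -/

/-- the simplicial set `B D` -/
noncomputable abbrev XX : SSet.{0} := FM Dd ⊤ ⊤ (NOs U3) Z3

/-- the functions with values in `Dk k` -/
noncomputable def Ak (k : ℕ) : XX.Subcomplex where
  obj n := Set.ofPred (fun f : XX.obj n => ∀ x, 2 ^ k • f.1 x = 0)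
  map {n m} θ f hf := by
    classical
    show ∀ x, 2 ^ k • (XX.map θ f).1 x = 0
    intro x
    have hf' : ∀ x, 2 ^ k • f.1 x = 0 := hf
    have e : (XX.map θ f).1 = (f.1.mapDomain ((NO (Sph 2)).map θ)).filter
        (fun x => x ∉ Z3.obj m) := by
      congr
    rw [e, Finsupp.filter_apply]
    by_cases h : x ∉ Z3.obj m
    · rw [if_pos h]
      exact FM_mem (Dk k).toAddSubmonoid θ f.1 x fun y _ => hf' y
    · rw [if_neg h]
      exact smul_zero _

theorem mem_Ak {k : ℕ} {n : SimplexCategoryᵒᵖ} {f : XX.obj n} :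
    f ∈ (Ak k).obj n ↔ ∀ x, 2 ^ k • f.1 x = 0 := Iff.rfl

/-- the increasing sequence of the subcomplexes -/
noncomputable def AA : ℕ →o XX.Subcomplex where
  toFun := Ak
  monotone' := by
    intro k l h n f hf
    exact mem_Ak.2 fun x => Dk_mono h (mem_Ak.1 hf x)

theorem AA_top : ⨆ k, AA k = ⊤ := by
  apply CategoryTheory.Subfunctor.ext
  funext n
  rw [CategoryTheory.Subfunctor.iSup_obj]
  refine Set.eq_univ_of_forall fun f => ?_
  choose K hK using fun x => exists_k (f.1 x)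
  refine Set.mem_iUnion.2 ⟨f.1.support.sup K, mem_Ak.2 fun x => ?_⟩
  by_cases hx : f.1 x = 0
  · rw [hx, smul_zero]
  · exact Dk_mono (Finset.le_sup (f := K) (Finsupp.mem_support_iff.2 hx)) (hK x)

theorem range_chg (k : ℕ) :
    SSet.Subcomplex.range (chg (Dk k).subtype (NOs U3) Z3) = AA k := by
  apply CategoryTheory.Subfunctor.ext
  funext n
  ext f
  constructor
  · rintro ⟨g, rfl⟩
    refine mem_Ak.2 fun x => ?_
    rw [chg_app, Finsupp.mapRange_apply]
    exact (g.1 x).2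
  · intro hf
    have hf' := mem_Ak.1 hf
    let g : (NO (Sph 2)).obj n →₀ Dk k := Finsupp.onFinset f.1.support
      (fun x => ⟨f.1 x, hf' x⟩) (fun x hx => Finsupp.mem_support_iff.2 fun h =>
        hx (Subtype.ext h))
    have hg : ∀ x, (g x : Dd) = f.1 x := fun x => rfl
    refine ⟨⟨g, fun x hx => f.2.1 x fun h => hx (Subtype.ext ((hg x).trans h)),
      fun x _ => AddSubmonoid.mem_top _⟩, ?_⟩
    apply Subtype.ext
    rw [chg_app]
    ext x
    rw [Finsupp.mapRange_apply]
    rfl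

theorem free (G : Type) [Group G] : (EEact G G).Free := by
  intro n x g h
  have h1 : g * x 0 = x 0 := congrFun h 0
  exact mul_eq_right.1 h1

end NBd

open NBd in
theorem n_bd (h1 : WC_UACY_Stmt) (h2 : N_TWO_Stmt) (h3 : N_EE_Stmt) (h4 : N_BDQ_Stmt) :
    N_BD_Stmt := by
  intro P hP hB
  refine h1 P hP XX AA AA_top fun k => ?_
  obtain ⟨q, hq⟩ := h4 (Dk k)
  obtain ⟨j, hj⟩ := card_Dk k
  have h5 : Acy P (FM (Dk k) ⊤ ⊤ (NOs U3) Z3) :=
    h2 P hP hB (Multiplicative (Dk k)) j hj _ _ _ q (free _) hq (h3 P hP _ ⟨1⟩)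
  have hm := chg_mono (Dk k).subtype Subtype.val_injective (NOs U3) Z3
  have h6 : P (SSet.Subcomplex.toRange (chg (Dk k).subtype (NOs U3) Z3)) :=
    hP.iso _ inferInstance
  have h7 : P (toUnit (SSet.Subcomplex.range (chg (Dk k).subtype (NOs U3) Z3) : SSet.{0})) := by
    refine hP.cancelL _ _ h6 ?_
    have e : SSet.Subcomplex.toRange (chg (Dk k).subtype (NOs U3) Z3) ≫ toUnit _ =
      toUnit (FM (Dk k) ⊤ ⊤ (NOs U3) Z3) := toUnit_unique _ _
    rw [e]
    exact h5
  rw [range_chg] at h7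
  exact h7

end Pool.Agent.SH
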