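import Pool.Agent.SH.StmtsN

/-!
# MP_2d0b73_an, Part III-N, (F11): `D[Δ¹/∂Δ¹]` is the quotient of all sequences by translations
-/

set_option autoImplicit false

open CategoryTheory MonoidalCategory CartesianMonoidalCategory Simplicial Opposite

namespace Pool.Agent.SH

namespace NBdq

/-- The cut after the index `i`. -/
def cut (N i : ℕ) : Fin (N + 1) →o Sph 2 where
  toFun j := if j.val ≤ i then ⟨0, true⟩ else ⟨1, true⟩
  monotone' := by
    intro j j' h
    show (if j.val ≤ i then (⟨0, true⟩ : Sph 2) else ⟨1, true⟩) ≤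
      (if j'.val ≤ i then (⟨0, true⟩ : Sph 2) else ⟨1, true⟩)
    have h' : j.val ≤ j'.val := h
    by_cases h1 : j'.val ≤ i
    · rw [if_pos h1, if_pos (h'.trans h1)]
    · rw [if_neg h1]
      by_cases h2 : j.val ≤ i
      · rw [if_pos h2]
        exact Or.inl (by decide)
      · rw [if_neg h2]

theorem cut_lo {N i : ℕ} {j : Fin (N + 1)} (h : j.val ≤ i) : cut N i j = ⟨0, true⟩ := if_pos h

theorem cut_hi {N i : ℕ} {j : Fin (N + 1)} (h : ¬ j.val ≤ i) : cut N i j = ⟨1, true⟩ := if_neg h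

theorem cut_lo_iff {N i : ℕ} {j : Fin (N + 1)} : cut N i j = ⟨0, true⟩ ↔ j.val ≤ i := by
  constructor
  · intro h
    by_contra h1
    rw [cut_hi h1] at h
    exact absurd (congrArg Sph.lev h) (by decide)
  · exact cut_lo

theorem cut_mem (N i : ℕ) (j : Fin (N + 1)) : cut N i j ∈ U3 := by
  by_cases h : j.val ≤ i
  · rw [cut_lo h]
    exact ⟨rfl, by decide⟩
  · rw [cut_hi h]
    exact ⟨rfl, by decide⟩

theorem cut_inj {N i i' : ℕ} (hi : i < N) (hi' : i' < N) (h : cut N i = cut N i') : i = i' := by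
  rcases lt_trichotomy i i' with h1 | h1 | h1
  · exfalso
    have h2 : cut N i' ⟨i + 1, by omega⟩ = ⟨0, true⟩ := cut_lo h1
    rw [← h, cut_lo_iff] at h2
    exact absurd h2 (by simp)
  · exact h1
  · exfalso
    have h2 : cut N i ⟨i' + 1, by omega⟩ = ⟨0, true⟩ := cut_lo h1
    rw [h, cut_lo_iff] at h2
    exact absurd h2 (by simp)

theorem U3_val {x : Sph 2} (h : x ∈ U3) : x = ⟨0, true⟩ ∨ x = ⟨1, true⟩ := by
  obtain ⟨l, s⟩ := x
  obtain ⟨h1, h2⟩ := h
  have h1' : s = true := h1
  have h2' : l ≠ Fin.last 2 := h2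
  subst h1'
  have h3 : l = 0 ∨ l = 1 := by
    revert h2'
    revert l
    decide
  rcases h3 with rfl | rfl
  · exact Or.inl rfl
  · exact Or.inr rfl

theorem exists_cut {N : ℕ} (x : Fin (N + 1) →o Sph 2) (h1 : ∀ j, x j ∈ U3)
    (h2 : ¬ ∀ j, (x j).sgn = true ∧ (x j).lev = 0)
    (h3 : ¬ ∀ j, (x j).sgn = true ∧ (x j).lev = 1) : ∃ i < N, x = cut N i := by
  classical
  have hv : ∀ j, x j = ⟨0, true⟩ ∨ x j = ⟨1, true⟩ := fun j => U3_val (h1 j)
  have hne : (Finset.univ.filter (fun j => x j = ⟨0, true⟩)).Nonempty := by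
    by_contra hc
    apply h3
    intro j
    rcases hv j with h | h
    · exact absurd ⟨j, Finset.mem_filter.2 ⟨Finset.mem_univ _, h⟩⟩ hc
    · rw [h]
      exact ⟨rfl, rfl⟩
  obtain ⟨i, hi, hmax⟩ := Finset.exists_max_image _ (fun j => j) hne
  have hi0 : x i = ⟨0, true⟩ := (Finset.mem_filter.1 hi).2
  have hlo : ∀ j, j ≤ i → x j = ⟨0, true⟩ := by
    intro j hj
    rcases hv j with h | h
    · exact h
    · exfalso
      have h4 := x.monotone hj
      rw [h, hi0] at h4
      rcases h4 with h4 | h4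
      · exact absurd h4 (by decide)
      · exact absurd (congrArg Sph.lev h4) (by decide)
  have hhi : ∀ j, ¬ j ≤ i → x j = ⟨1, true⟩ := by
    intro j hj
    rcases hv j with h | h
    · exact absurd (hmax j (Finset.mem_filter.2 ⟨Finset.mem_univ _, h⟩)) hj
    · exact h
  refine ⟨i.val, ?_, ?_⟩
  · by_contra hc
    apply h2
    intro j
    have h5 : j ≤ i := by
      have := j.2
      show j.val ≤ i.val
      omega
    rw [hlo j h5]
    exact ⟨rfl, rfl⟩
  · apply OrderHom.ext
    funext j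
    by_cases hj : j ≤ i
    · rw [hlo j hj]
      exact (cut_lo hj).symm
    · rw [hhi j hj]
      exact (cut_hi hj).symm

theorem mem_Z3 {n : SimplexCategoryᵒᵖ} (x : Fin (n.unop.len + 1) →o Sph 2) :
    (x : (NO (Sph 2)).obj n) ∈ Z3.obj n ↔ (∀ j, (x j).sgn = true ∧ (x j).lev = 0) ∨
      ∀ j, (x j).sgn = true ∧ (x j).lev = 1 := Iff.rfl

/-- The cut after the index `i`, as a simplex. -/
def cutS (n : SimplexCategoryᵒᵖ) (i : ℕ) : (NO (Sph 2)).obj n := cut n.unop.len i

theorem cutS_notMem {n : SimplexCategoryᵒᵖ} {i : ℕ} (hi : i < n.unop.len) :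
    cutS n i ∉ Z3.obj n := by
  intro h
  rcases (mem_Z3 (cut n.unop.len i)).1 h with h | h
  · have h1 := (h (Fin.last _)).2
    rw [cut_hi (by simp [hi])] at h1
    exact absurd h1 (by decide)
  · have h1 := (h 0).2
    rw [cut_lo (by simp)] at h1
    exact absurd h1 (by decide)

theorem cutS_mem (n : SimplexCategoryᵒᵖ) (i : ℕ) : cutS n i ∈ (NOs U3).obj n :=
  fun j => cut_mem _ _ j

theorem cutS_inj {n : SimplexCategoryᵒᵖ} {i i' : ℕ} (hi : i < n.unop.len)
    (hi' : i' < n.unop.len) (h : cutS n i = cutS n i') : i = i' := cut_inj hi hi' h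

theorem exists_cutS' {n : SimplexCategoryᵒᵖ} (x : Fin (n.unop.len + 1) →o Sph 2)
    (h1 : (x : (NO (Sph 2)).obj n) ∈ (NOs U3).obj n)
    (h2 : (x : (NO (Sph 2)).obj n) ∉ Z3.obj n) : ∃ i < n.unop.len, x = cut n.unop.len i := by
  have h3 : ¬ ((∀ j, (x j).sgn = true ∧ (x j).lev = 0) ∨
      ∀ j, (x j).sgn = true ∧ (x j).lev = 1) := fun h => h2 ((mem_Z3 x).2 h)
  rw [not_or] at h3
  exact exists_cut x h1 h3.1 h3.2

theorem exists_cutS {n : SimplexCategoryᵒᵖ} (x : (NO (Sph 2)).obj n)
    (h1 : x ∈ (NOs U3).obj n) (h2 : x ∉ Z3.obj n) : ∃ i < n.unop.len, x = cutS n i :=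
  exists_cutS' x h1 h2

section

variable {D : Type} [AddCommGroup D]

/-- The differences of a sequence, as a function on the cuts. -/
noncomputable def F (n : SimplexCategoryᵒᵖ) (g : Fin (n.unop.len + 1) → Multiplicative D) :
    (NO (Sph 2)).obj n →₀ D :=
  ∑ i : Fin n.unop.len, Finsupp.single (cutS n i)
    (Multiplicative.toAdd (g i.succ) - Multiplicative.toAdd (g i.castSucc))

theorem F_cut {n : SimplexCategoryᵒᵖ} (g : Fin (n.unop.len + 1) → Multiplicative D)
    (i : Fin n.unop.len) : F n g (cutS n i) =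
      Multiplicative.toAdd (g i.succ) - Multiplicative.toAdd (g i.castSucc) := by
  classical
  unfold F
  rw [Finsupp.finsetSum_apply, Finset.sum_eq_single i]
  · rw [Finsupp.single_eq_same]
  · intro j _ hj
    rw [Finsupp.single_apply, if_neg]
    intro h
    exact hj (Fin.ext (cutS_inj j.2 i.2 h))
  · intro h
    exact absurd (Finset.mem_univ i) h

theorem F_not {n : SimplexCategoryᵒᵖ} (g : Fin (n.unop.len + 1) → Multiplicative D)
    (x : (NO (Sph 2)).obj n) (hx : ¬ ∃ i < n.unop.len, x = cutS n i) : F n g x = 0 := by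
  classical
  unfold F
  rw [Finsupp.finsetSum_apply]
  refine Finset.sum_eq_zero fun i _ => ?_
  rw [Finsupp.single_apply, if_neg]
  exact fun h => hx ⟨i.val, i.2, h.symm⟩

theorem tele (G : ℕ → D) (N a b : ℕ) (hab : a ≤ b) (hb : b ≤ N) :
    ∑ i : Fin N, (if a ≤ i.val ∧ i.val < b then G (i.val + 1) - G i.val else 0) = G b - G a := by
  rw [Fin.sum_univ_eq_sum_range
    (fun i => if a ≤ i ∧ i < b then G (i + 1) - G i else 0) N, ← Finset.sum_filter]
  have e : (Finset.range N).filter (fun i => a ≤ i ∧ i < b) = Finset.Ico a b := by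
    ext i
    rw [Finset.mem_filter, Finset.mem_range, Finset.mem_Ico]
    constructor
    · exact fun h => h.2
    · exact fun h => ⟨by omega, h⟩
  rw [e]
  induction b, hab using Nat.le_induction with
  | base => simp
  | succ b hab ih =>
    rw [Finset.sum_Ico_succ_top hab, ih (by omega) (by
      ext i
      rw [Finset.mem_filter, Finset.mem_range, Finset.mem_Ico]
      constructor
      · exact fun h => h.2
      · exact fun h => ⟨by omega, h⟩)]
    abel

/-- When the pull back of a cut is a given cut. -/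
theorem comp_cut {N M : ℕ} (t : Fin (M + 1) →o Fin (N + 1)) (i : ℕ) (j : Fin M) :
    (cut N i).comp t = cut M j ↔ (t j.castSucc).val ≤ i ∧ i < (t j.succ).val := by
  constructor
  · intro h
    constructor
    · have h1 : (cut N i).comp t j.castSucc = ⟨0, true⟩ := by
        rw [h]
        exact cut_lo le_rfl
      exact cut_lo_iff.1 h1
    · by_contra hc
      have h1 : (cut N i).comp t j.succ = ⟨0, true⟩ := cut_lo (not_lt.1 hc)
      rw [h, cut_lo_iff] at h1
      exact absurd h1 (by simp)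
  · rintro ⟨h1, h2⟩
    apply OrderHom.ext
    funext l
    show cut N i (t l) = cut M j l
    by_cases hl : l.val ≤ j.val
    · rw [cut_lo hl, cut_lo]
      have h3 : t l ≤ t j.castSucc := t.monotone hl
      exact le_trans (show (t l).val ≤ (t j.castSucc).val from h3) h1
    · rw [cut_hi hl, cut_hi]
      have h3 : t j.succ ≤ t l := t.monotone (by
        show j.val + 1 ≤ l.val
        omega)
      have h4 : (t j.succ).val ≤ (t l).val := h3
      omega

theorem map_cutS {n m : SimplexCategoryᵒᵖ} (θ : n ⟶ m) (i : ℕ) (j : Fin m.unop.len) :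
    (NO (Sph 2)).map θ (cutS n i) = cutS m j ↔
      (θ.unop.toOrderHom j.castSucc).val ≤ i ∧ i < (θ.unop.toOrderHom j.succ).val :=
  comp_cut θ.unop.toOrderHom i j

open scoped Classical in
theorem nat_aux {n m : SimplexCategoryᵒᵖ} (θ : n ⟶ m)
    (g : Fin (n.unop.len + 1) → Multiplicative D) :
    F m (fun j => g (θ.unop.toOrderHom j)) =
      ((F n g).mapDomain ((NO (Sph 2)).map θ)).filter (fun x => x ∉ Z3.obj m) := by
  have hmap : (F n g).mapDomain ((NO (Sph 2)).map θ) =
      ∑ i : Fin n.unop.len, Finsupp.single ((NO (Sph 2)).map θ (cutS n i))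
        (Multiplicative.toAdd (g i.succ) - Multiplicative.toAdd (g i.castSucc)) := by
    unfold F
    refine (Finsupp.mapDomain_finsetSum).trans ?_
    refine Finset.sum_congr rfl fun i _ => ?_
    exact Finsupp.mapDomain_single
  rw [hmap]
  refine Finsupp.ext fun x => ?_
  rw [Finsupp.filter_apply]
  by_cases hx : ∃ j < m.unop.len, x = cutS m j
  · obtain ⟨j, hj, rfl⟩ := hx
    rw [if_pos (cutS_notMem hj), Finsupp.finsetSum_apply]
    refine (F_cut (fun j => g (θ.unop.toOrderHom j)) ⟨j, hj⟩).trans ?_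
    let G : ℕ → D := fun i => if h : i < n.unop.len + 1 then Multiplicative.toAdd (g ⟨i, h⟩) else 0
    have hG : ∀ l : Fin (n.unop.len + 1), G l.val = Multiplicative.toAdd (g l) := fun l => by
      show (if h : l.val < n.unop.len + 1 then Multiplicative.toAdd (g ⟨l.val, h⟩) else 0) = _
      rw [dif_pos l.2]
    have ht : (θ.unop.toOrderHom (Fin.castSucc ⟨j, hj⟩)).val ≤
        (θ.unop.toOrderHom (Fin.succ ⟨j, hj⟩)).val :=
      θ.unop.toOrderHom.monotone (Fin.castSucc_lt_succ).le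
    have h1 := tele G n.unop.len _ _ ht (Nat.lt_succ_iff.1 (θ.unop.toOrderHom (Fin.succ ⟨j, hj⟩)).2)
    rw [hG, hG] at h1
    refine h1.symm.trans ?_
    refine Finset.sum_congr rfl fun i _ => ?_
    rw [Finsupp.single_apply]
    have h2 := map_cutS θ i.val ⟨j, hj⟩
    by_cases h3 : (θ.unop.toOrderHom (Fin.castSucc ⟨j, hj⟩)).val ≤ i.val ∧
        i.val < (θ.unop.toOrderHom (Fin.succ ⟨j, hj⟩)).val
    · rw [if_pos h3, if_pos (h2.2 h3), ← hG i.succ, ← hG i.castSucc]
      rfl
    · rw [if_neg h3, if_neg fun h4 => h3 (h2.1 h4)]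
  · rw [F_not _ x hx]
    by_cases hZ : x ∉ Z3.obj m
    · rw [if_pos hZ, Finsupp.finsetSum_apply]
      refine (Finset.sum_eq_zero fun i _ => ?_).symm
      rw [Finsupp.single_apply, if_neg]
      intro h
      apply hx
      refine exists_cutS x ?_ hZ
      rw [← h]
      exact (NOs U3).map θ (cutS_mem n i)
    · rw [if_neg hZ]

theorem F_mem {n : SimplexCategoryᵒᵖ} (g : Fin (n.unop.len + 1) → Multiplicative D)
    (x : (NO (Sph 2)).obj n) (hx : F n g x ≠ 0) :
    x ∈ (NOs U3).obj n ∧ x ∉ Z3.obj n := by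
  have h : ∃ i < n.unop.len, x = cutS n i := by
    by_contra hc
    exact hx (F_not g x hc)
  obtain ⟨i, hi, rfl⟩ := h
  exact ⟨cutS_mem n i, cutS_notMem hi⟩

/-- The quotient map. -/
noncomputable def q (D : Type) [AddCommGroup D] :
    EE (Multiplicative D) ⟶ FM D ⊤ ⊤ (NOs U3) Z3 where
  app n := TypeCat.ofHom (fun g => ⟨F n g, fun x hx => F_mem g x hx,
    fun _ _ => AddSubmonoid.mem_top _⟩)
  naturality n m θ := by
    refine ConcreteCategory.hom_ext _ _ fun g => Subtype.ext ?_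
    exact nat_aux θ g

theorem q_eq_iff (n : SimplexCategoryᵒᵖ) (g g' : Fin (n.unop.len + 1) → Multiplicative D) :
    (q D).app n g = (q D).app n g' ↔ F n g = F n g' := by
  constructor
  · intro h
    exact congrArg Subtype.val h
  · intro h
    exact Subtype.ext h

theorem F_surj {n : SimplexCategoryᵒᵖ} (f : (NO (Sph 2)).obj n →₀ D)
    (hf : ∀ x, f x ≠ 0 → x ∈ (NOs U3).obj n ∧ x ∉ Z3.obj n) : ∃ g, F n g = f := by
  let G : ℕ → D := fun i => ∑ l ∈ Finset.range i, f (cutS n l)
  refine ⟨fun i => Multiplicative.ofAdd (G i.val), Finsupp.ext fun x => ?_⟩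
  by_cases hx : ∃ i < n.unop.len, x = cutS n i
  · obtain ⟨i, hi, rfl⟩ := hx
    refine (F_cut _ ⟨i, hi⟩).trans ?_
    show ∑ l ∈ Finset.range (i + 1), f (cutS n l) - ∑ l ∈ Finset.range i, f (cutS n l) = _
    rw [Finset.sum_range_succ, add_sub_cancel_left]
  · rw [F_not _ x hx]
    by_contra hc
    obtain ⟨h1, h2⟩ := hf x (fun h => hc h.symm)
    exact hx (exists_cutS x h1 h2)

theorem F_fib {n : SimplexCategoryᵒᵖ} (g g' : Fin (n.unop.len + 1) → Multiplicative D) :
    F n g = F n g' ↔ ∃ h : Multiplicative D, (fun i => h * g i) = g' := by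
  constructor
  · intro h
    refine ⟨g' 0 * (g 0)⁻¹, ?_⟩
    have key : ∀ i : Fin (n.unop.len + 1), g' i * (g i)⁻¹ = g' 0 * (g 0)⁻¹ := by
      intro i
      induction i using Fin.induction with
      | zero => rfl
      | succ i ih =>
        rw [← ih]
        have h1 := DFunLike.congr_fun h (cutS n i)
        rw [F_cut, F_cut] at h1
        have h2 : g i.succ * (g i.castSucc)⁻¹ = g' i.succ * (g' i.castSucc)⁻¹ := by
          apply Multiplicative.toAdd.injective
          rw [toAdd_mul, toAdd_mul, toAdd_inv, toAdd_inv, ← sub_eq_add_neg, ← sub_eq_add_neg]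
          exact h1
        have h3 : g' i.succ = g i.succ * (g i.castSucc)⁻¹ * g' i.castSucc := by
          rw [h2, inv_mul_cancel_right]
        rw [h3, mul_assoc, mul_comm (g i.succ * (g i.castSucc)⁻¹), mul_assoc,
          mul_comm (g i.succ)⁻¹, mul_comm (g i.succ), mul_inv_cancel_right]
    funext i
    rw [← key i, inv_mul_cancel_right]
  · rintro ⟨h, rfl⟩
    refine Finsupp.ext fun x => ?_
    by_cases hx : ∃ i < n.unop.len, x = cutS n i
    · obtain ⟨i, hi, rfl⟩ := hx
      refine (F_cut g ⟨i, hi⟩).trans ((F_cut _ ⟨i, hi⟩).trans ?_).symm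
      rw [toAdd_mul, toAdd_mul]
      abel
    · rw [F_not _ x hx, F_not _ x hx]

end

end NBdq

theorem n_bdq : N_BDQ_Stmt := by
  intro D _
  refine ⟨NBdq.q D, ?_, ?_⟩
  · rintro n ⟨f, hf, hf'⟩
    obtain ⟨g, hg⟩ := NBdq.F_surj f hf
    exact ⟨g, Subtype.ext hg⟩
  · intro n g g'
    exact (NBdq.q_eq_iff n g g').trans (NBdq.F_fib g g')

end Pool.Agent.SH
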