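import Pool.Agent.SH.StmtsN

/-!
# MP_2d0b73_an, Part III-N, module SH_N_CONE: cones
-/

set_option autoImplicit false

open CategoryTheory MonoidalCategory CartesianMonoidalCategory Simplicial Opposite

namespace Pool.Agent.SH

namespace NCone

/-- the pole -/
def top (e : Bool) : Sph 2 := ⟨Fin.last 2, e⟩

theorem top_mem (e : Bool) : top e ∈ UC e := fun _ => rfl

theorem zero_mem (e : Bool) : (0 : Sph 2) ∈ UC e := by
  intro h
  exact absurd h (by decide)

theorem le_top (e : Bool) (x : Sph 2) (hx : x ∈ UC e) : x ≤ top e := by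
  by_cases h : x.lev = Fin.last 2
  · refine Or.inr ?_
    have h2 : x.sgn = e := hx h
    cases x
    simp only at h h2
    subst h h2
    rfl
  · exact Or.inl (lt_of_le_of_ne (Fin.le_last _) h)

theorem zero_le_top (e : Bool) : (0 : Sph 2) ≤ top e := le_top e _ (zero_mem e)

/-- the base point and the pole -/
def EE' (e : Bool) : Set (Sph 2) := {0, top e}

theorem EE'_sub (e : Bool) : EE' e ⊆ UC e := by
  rintro x (rfl | rfl)
  · exact zero_mem e
  · exact top_mem e

theorem step_a (h1 : N_PCTR_Stmt) (P : MorphismProperty SSet.{0}) (hP : WClass P) (A : Type)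
    [AddCommMonoid A] (A₀ : AddSubmonoid A) (e : Bool) :
    Acy P (FM A A₀ ⊥ (NOs (UC e)) (NOs (EE' e))) := by
  refine h1 P hP A A₀ (Sph 2) (UC e) (EE' e) (OrderHom.const _ ⟨top e, top_mem e⟩) ?_ ?_ ⊥
    (Or.inl rfl)
  · refine Relation.EqvGen.rel _ _ ⟨?_, ?_⟩
    · intro x
      exact le_top e x.1 x.2
    · intro x hx
      exact ⟨hx, Or.inr rfl⟩
  · intro x
    exact Or.inr rfl

theorem step_b (h1 : N_PCTR_Stmt) (P : MorphismProperty SSet.{0}) (hP : WClass P) (A : Type)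
    [AddCommMonoid A] (A₀ : AddSubmonoid A) (e : Bool) :
    Acy P (FM A A₀ ⊥ (NOs (EE' e)) (NOs UZ)) := by
  refine h1 P hP A A₀ (Sph 2) (EE' e) UZ (OrderHom.const _ ⟨0, Or.inl rfl⟩) ?_ ?_ ⊥ (Or.inl rfl)
  · refine Relation.EqvGen.symm _ _ (Relation.EqvGen.rel _ _ ⟨?_, ?_⟩)
    · rintro ⟨x, hx⟩
      show (0 : Sph 2) ≤ x
      rcases hx with rfl | rfl
      · exact le_rfl
      · exact zero_le_top e
    · intro x hx
      exact ⟨rfl, hx⟩
  · intro x
    exact rfl

end NCone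

/-- (F8) cones: the circle with one pole, pointed by `0`. -/
theorem n_cone (h1 : N_PCTR_Stmt) (h2 : N_FMC_Stmt) : N_CONE_Stmt := by
  intro P hP A _ A₀ e
  have hle : NOs UZ ≤ NOs (NCone.EE' e) := by
    intro n x hx i
    exact Or.inl (hx i)
  have hinf : NOs (UC e) ⊓ NOs (NCone.EE' e) = NOs (NCone.EE' e) := by
    apply inf_eq_right.2
    intro n x hx i
    exact NCone.EE'_sub e (hx i)
  have hb := NCone.step_b h1 P hP A A₀ e
  rw [← hinf] at hb
  have h3 := h2 P hP A A₀ (NO (Sph 2)) ⊥ (NOs (UC e)) (NOs UZ) (NOs (NCone.EE' e)) hle hb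
  have h4 := hP.comp _ _ h3 (NCone.step_a h1 P hP A A₀ e)
  rw [comp_toUnit] at h4
  exact h4

end Pool.Agent.SH
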