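import Pool.Agent.SH.StmtsN
import Pool.Agent.SH.StmtsTE

/-!
# MP_2d0b73_an, Part III-N (F5): contractible pairs
-/

set_option autoImplicit false

open CategoryTheory MonoidalCategory CartesianMonoidalCategory Simplicial Opposite

namespace Pool.Agent.SH

namespace NCtr

section fin

variable {A α β : Type} [AddCommMonoid A]

theorem supp (φ : α → β) (f : α →₀ A) (x : β) (h : f.mapDomain φ x ≠ 0) :
    ∃ y, f y ≠ 0 ∧ φ y = x := by
  classical
  by_contra hc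
  push Not at hc
  apply h
  rw [Finsupp.mapDomain, Finsupp.sum_apply, Finsupp.sum]
  refine Finset.sum_eq_zero fun y hy => ?_
  rw [Finsupp.single_apply, if_neg (hc y (Finsupp.mem_support_iff.1 hy))]

theorem mem (A₀ : AddSubmonoid A) (φ : α → β) (f : α →₀ A) (x : β)
    (h : ∀ y, φ y = x → f y ∈ A₀) : f.mapDomain φ x ∈ A₀ := by
  classical
  rw [Finsupp.mapDomain, Finsupp.sum_apply, Finsupp.sum]
  refine AddSubmonoid.sum_mem _ fun y hy => ?_
  rw [Finsupp.single_apply]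
  split_ifs with h'
  · exact h y h'
  · exact A₀.zero_mem

open scoped Classical in
theorem filt (φ : α → β) {Z : Set α} {Z' : Set β} (hZ : ∀ x ∈ Z, φ x ∈ Z') (f : α →₀ A) :
    ((f.filter (fun x => x ∉ Z)).mapDomain φ).filter (fun x => x ∉ Z')
      = (f.mapDomain φ).filter (fun x => x ∉ Z') := by
  have e := Finsupp.filter_add_filter_not f (fun x => x ∉ Z)
  conv_rhs => rw [← e]
  rw [Finsupp.mapDomain_add, Finsupp.filter_add]
  have h0 : ((f.filter (fun x => ¬ x ∉ Z)).mapDomain φ).filter (fun x => x ∉ Z') = 0 := by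
    ext x
    rw [Finsupp.filter_apply]
    by_cases h : x ∉ Z'
    · rw [if_pos h]
      by_contra hc
      obtain ⟨y, hy, rfl⟩ := supp φ _ _ hc
      rw [Finsupp.filter_apply] at hy
      by_cases h' : ¬ y ∉ Z
      · exact h (hZ y (not_not.1 h'))
      · rw [if_neg h'] at hy
        exact hy rfl
    · rw [if_neg h]
      rfl
  rw [h0, add_zero]

end fin

variable {A : Type} [AddCommMonoid A] {A₀ : AddSubmonoid A} {X : SSet.{0}} {Y Z : X.Subcomplex}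

open scoped Classical in
/-- The value of the push forward along a function which preserves `Y` and `Z`. -/
noncomputable def psh {n : SimplexCategoryᵒᵖ} (φ : X.obj n → X.obj n)
    (hY : ∀ x ∈ Y.obj n, φ x ∈ Y.obj n) (f : (FM A A₀ Y ⊤ Z).obj n) :
    (FM A A₀ Y ⊤ Z).obj n :=
  ⟨(f.1.mapDomain φ).filter (fun x => x ∉ Z.obj n), by
    refine ⟨fun x hx => ?_, fun x hx => ?_⟩
    · rw [Finsupp.filter_apply] at hx
      by_cases h : x ∉ Z.obj n
      · exact ⟨trivial, h⟩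
      · rw [if_neg h] at hx
        exact absurd rfl hx
    · rw [Finsupp.filter_apply]
      by_cases h : x ∉ Z.obj n
      · rw [if_pos h]
        refine mem A₀ φ _ _ fun y hy => f.2.2 y fun hYy => hx ?_
        rw [← hy]
        exact hY y hYy
      · rw [if_neg h]
        exact A₀.zero_mem⟩

open scoped Classical in
theorem psh_nat {n m : SimplexCategoryᵒᵖ} (θ : n ⟶ m) (φ : X.obj n → X.obj n)
    (ψ : X.obj m → X.obj m) (hY : ∀ x ∈ Y.obj n, φ x ∈ Y.obj n)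
    (hY' : ∀ x ∈ Y.obj m, ψ x ∈ Y.obj m) (hZ' : ∀ x ∈ Z.obj m, ψ x ∈ Z.obj m)
    (hn : ∀ x, X.map θ (φ x) = ψ (X.map θ x)) (f : (FM A A₀ Y ⊤ Z).obj n) :
    psh ψ hY' ((FM A A₀ Y ⊤ Z).map θ f) = (FM A A₀ Y ⊤ Z).map θ (psh φ hY f) := by
  obtain ⟨f, hf⟩ := f
  apply Subtype.ext
  show (((f.mapDomain (X.map θ)).filter (fun x => x ∉ Z.obj m)).mapDomain ψ).filter
      (fun x => x ∉ Z.obj m) = (((f.mapDomain φ).filter (fun x => x ∉ Z.obj n)).mapDomain
      (X.map θ)).filter (fun x => x ∉ Z.obj m)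
  have e1 := filt ψ hZ' (f.mapDomain (X.map θ))
  have e2 := filt (Z := Z.obj n) (Z' := Z.obj m) (X.map θ) (fun x hx => Z.map θ hx)
    (f.mapDomain φ)
  rw [← Finsupp.mapDomain_comp] at e1 e2
  refine e1.trans (Eq.trans ?_ e2.symm)
  congr 2
  funext x
  exact (hn x).symm

/-- `u` preserves `Y` and `Z`. -/
def Pres (Y Z : X.Subcomplex) (u : X ⟶ X) : Prop :=
  ∀ (n : SimplexCategoryᵒᵖ) (x : X.obj n),
    (x ∈ Y.obj n → u.app n x ∈ Y.obj n) ∧ (x ∈ Z.obj n → u.app n x ∈ Z.obj n)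

/-- The endomorphism of `FM` induced by `u`. -/
noncomputable def fe (A₀ : AddSubmonoid A) {u : X ⟶ X} (hu : Pres Y Z u) :
    FM A A₀ Y ⊤ Z ⟶ FM A A₀ Y ⊤ Z where
  app n := TypeCat.ofHom (fun f => psh (u.app n) (fun x hx => (hu n x).1 hx) f)
  naturality n m θ := by
    refine ConcreteCategory.hom_ext _ _ fun f => ?_
    exact psh_nat θ (u.app n) (u.app m) (fun x hx => (hu n x).1 hx) (fun x hx => (hu m x).1 hx)
      (fun x hx => (hu m x).2 hx) (fun x => (NatTrans.naturality_apply u θ x).symm) f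

/-- The homotopy of endomorphisms of `FM` induced by a homotopy. -/
noncomputable def hmt (A₀ : AddSubmonoid A) (h : X ⊗ Δ[1] ⟶ X)
    (hp : ∀ (n : SimplexCategoryᵒᵖ) (x : X.obj n) (t : (Δ[1] : SSet.{0}).obj n),
      (x ∈ Y.obj n → h.app n (x, t) ∈ Y.obj n) ∧ (x ∈ Z.obj n → h.app n (x, t) ∈ Z.obj n)) :
    FM A A₀ Y ⊤ Z ⊗ Δ[1] ⟶ FM A A₀ Y ⊤ Z where
  app n := TypeCat.ofHom (fun (p : (FM A A₀ Y ⊤ Z).obj n × (Δ[1] : SSet.{0}).obj n) =>
    psh (fun x => h.app n (x, p.2)) (fun x hx => (hp n x p.2).1 hx) p.1)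
  naturality n m θ := by
    refine ConcreteCategory.hom_ext _ _ fun p => ?_
    obtain ⟨f, t⟩ := p
    exact psh_nat θ (fun x => h.app n (x, t)) (fun x => h.app m (x, (Δ[1] : SSet.{0}).map θ t))
      (fun x hx => (hp n x t).1 hx) (fun x hx => (hp m x _).1 hx) (fun x hx => (hp m x _).2 hx)
      (fun x => (NatTrans.naturality_apply h θ
        (show (X ⊗ Δ[1] : SSet.{0}).obj n from (x, t))).symm) f

theorem phty {u v : X ⟶ X} (h : PHty Y Z u v) : ∃ (hu : Pres Y Z u) (hv : Pres Y Z v),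
    Hty (fe A₀ hu) (fe A₀ hv) := by
  obtain ⟨h, rfl, rfl, hp⟩ := h
  refine ⟨fun n x => hp n x _, fun n x => hp n x _, (Hty_iff _ _).2 ⟨hmt A₀ h hp, ?_, ?_⟩⟩
  · rfl
  · rfl

theorem eqv {u v : X ⟶ X} (h : Relation.EqvGen (PHty Y Z) u v) : (Pres Y Z u ↔ Pres Y Z v) ∧
    ∀ (hu : Pres Y Z u) (hv : Pres Y Z v), Relation.EqvGen Hty (fe A₀ hu) (fe A₀ hv) := by
  induction h with
  | rel u v h =>
    obtain ⟨hu, hv, h⟩ := phty (A₀ := A₀) h
    exact ⟨⟨fun _ => hv, fun _ => hu⟩, fun _ _ => Relation.EqvGen.rel _ _ h⟩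
  | refl u => exact ⟨Iff.rfl, fun _ _ => Relation.EqvGen.refl _⟩
  | symm u v _ ih => exact ⟨ih.1.symm, fun hu hv => (ih.2 hv hu).symm⟩
  | trans u v w _ _ ih ih' =>
    exact ⟨ih.1.trans ih'.1, fun hu hw =>
      (ih.2 hu (ih.1.1 hu)).trans _ _ _ (ih'.2 (ih.1.1 hu) hw)⟩

theorem fe_id (h : Pres Y Z (𝟙 X)) : fe A₀ h = 𝟙 (FM A A₀ Y ⊤ Z) := by
  ext n f
  apply Subtype.ext
  classical
  show (f.1.mapDomain (id : X.obj n → X.obj n)).filter (fun x => x ∉ Z.obj n) = f.1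
  rw [Finsupp.mapDomain_id, Finsupp.filter_eq_self_iff]
  exact fun x hx => (f.2.1 x hx).2

/-- The zero vertex. -/
def zer : 𝟙_ SSet.{0} ⟶ FM A A₀ Y ⊤ Z where
  app n := TypeCat.ofHom (fun _ => ⟨0, fun x hx => absurd rfl hx, fun _ _ => A₀.zero_mem⟩)
  naturality n m θ := by
    refine ConcreteCategory.hom_ext _ _ fun p => ?_
    apply Subtype.ext
    classical
    show (0 : X.obj m →₀ A) = ((0 : X.obj n →₀ A).mapDomain (X.map θ)).filter
      (fun x => x ∉ Z.obj m)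
    rw [Finsupp.mapDomain_zero, Finsupp.filter_zero]

theorem fe_zer {u : X ⟶ X} (h : Pres Y Z u) (hr : SSet.Subcomplex.range u ≤ Z) :
    fe A₀ h = toUnit (FM A A₀ Y ⊤ Z) ≫ zer := by
  ext n f
  apply Subtype.ext
  classical
  show (f.1.mapDomain (u.app n)).filter (fun x => x ∉ Z.obj n) = 0
  ext x
  rw [Finsupp.filter_apply]
  by_cases hx : x ∉ Z.obj n
  · rw [if_pos hx]
    by_contra hc
    obtain ⟨y, -, rfl⟩ := supp _ _ _ hc
    exact hx (hr n ⟨y, rfl⟩)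
  · rw [if_neg hx]
    rfl

end NCtr

open NCtr in
/-- (F5) contractible pairs. -/
theorem n_ctr (h : WC_HEQ_Stmt) : N_CTR_Stmt := by
  intro P hP A _ A₀ X Y Z u hu hr
  have h1 : Pres Y Z (𝟙 X) := fun n x => ⟨fun hx => hx, fun hx => hx⟩
  obtain ⟨e1, e2⟩ := eqv (A₀ := A₀) hu
  have h2 := e2 h1 (e1.1 h1)
  rw [fe_id, fe_zer _ hr] at h2
  refine (h P hP _ _ (toUnit (FM A A₀ Y ⊤ Z)) zer h2.symm ?_).1
  have h3 : (zer : 𝟙_ SSet.{0} ⟶ FM A A₀ Y ⊤ Z) ≫ toUnit (FM A A₀ Y ⊤ Z) = 𝟙 _ :=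
    toUnit_unique _ _
  rw [h3]
  exact Relation.EqvGen.refl _

end Pool.Agent.SH
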