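import Pool.Agent.SH.StmtsN

/-!
# MP_2d0b73_an, Part III-N, (F13): the simplicial set `D[circle]` is acyclic
-/

set_option autoImplicit false

open CategoryTheory MonoidalCategory CartesianMonoidalCategory Simplicial Opposite

namespace Pool.Agent.SH

namespace NDy

/-! ### Acyclicity along maps of the class -/

theorem acy_of {P : MorphismProperty SSet.{0}} (hP : WClass P) {X Y : SSet.{0}} (f : X ⟶ Y)
    (hf : P f) (hY : Acy P Y) : Acy P X := by
  have e : f ≫ toUnit Y = toUnit X := toUnit_unique _ _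
  have h := hP.comp f (toUnit Y) hf hY
  rw [e] at h
  exact h

theorem acy_to {P : MorphismProperty SSet.{0}} (hP : WClass P) {X Y : SSet.{0}} (f : X ⟶ Y)
    (hf : P f) (hX : Acy P X) : Acy P Y := by
  have e : f ≫ toUnit Y = toUnit X := toUnit_unique _ _
  refine hP.cancelL f (toUnit Y) hf ?_
  rw [e]
  exact hX

/-! ### Subcomplexes of the nerve -/

theorem mem_NOs {S : Type} [PartialOrder S] (U : Set S) {n : SimplexCategoryᵒᵖ}
    (x : Fin (n.unop.len + 1) →o S) : x ∈ (NOs U).obj n ↔ ∀ i, x i ∈ U := Iff.rfl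

theorem mem_sup {X : SSet.{0}} (A B : X.Subcomplex) {n : SimplexCategoryᵒᵖ} (x : X.obj n) :
    x ∈ (A ⊔ B).obj n ↔ x ∈ A.obj n ∨ x ∈ B.obj n := Iff.rfl

theorem mem_inf {X : SSet.{0}} (A B : X.Subcomplex) {n : SimplexCategoryᵒᵖ} (x : X.obj n) :
    x ∈ (A ⊓ B).obj n ↔ x ∈ A.obj n ∧ x ∈ B.obj n := Iff.rfl

theorem NOs_mono {S : Type} [PartialOrder S] {U V : Set S} (h : U ⊆ V) : NOs U ≤ NOs V :=
  fun _ _ hx i => h (hx i)

/-! ### The sets -/

/-- the base point and the two points of level one -/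
def U1 : Set (Sph 2) := {x | x = ⟨0, false⟩ ∨ x = ⟨1, false⟩ ∨ x = ⟨1, true⟩}

/-- the edge from `(0, true)` to `(1, false)` -/
def U2 : Set (Sph 2) := {x | x = ⟨0, true⟩ ∨ x = ⟨1, false⟩}

/-- one end of the edge -/
def P0 : Set (Sph 2) := {x | x.sgn = true ∧ x.lev = 0}

/-- the other end of the edge -/
def P1 : Set (Sph 2) := {x | x.sgn = true ∧ x.lev = 1}

theorem Z3_eq : Z3 = NOs P0 ⊔ NOs P1 := rfl

/-- one point of level one -/
def UF : Set (Sph 2) := {x | x = ⟨1, false⟩}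

theorem US_cases : ∀ x : Sph 2, x.lev ≠ Fin.last 2 →
    x = ⟨0, false⟩ ∨ x = ⟨0, true⟩ ∨ x = ⟨1, false⟩ ∨ x = ⟨1, true⟩ := by decide

theorem U1_sub : U1 ⊆ US := by
  rintro x (rfl | rfl | rfl)
  · exact (by decide : (0 : Fin 3) ≠ Fin.last 2)
  · exact (by decide : (1 : Fin 3) ≠ Fin.last 2)
  · exact (by decide : (1 : Fin 3) ≠ Fin.last 2)

theorem U2_sub : U2 ⊆ US := by
  rintro x (rfl | rfl)
  · exact (by decide : (0 : Fin 3) ≠ Fin.last 2)
  · exact (by decide : (1 : Fin 3) ≠ Fin.last 2)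

theorem U3_sub : U3 ⊆ US := fun _ hx => hx.2

theorem UZ_sub : UZ ⊆ U1 := by
  intro x hx
  left
  exact hx

theorem UF_sub1 : UF ⊆ U1 := by
  intro x hx
  right
  left
  exact hx

theorem UF_sub2 : UF ⊆ U2 := by
  intro x hx
  right
  exact hx

theorem zero_le_U1 (x : Sph 2) (hx : x ∈ U1) : (0 : Sph 2) ≤ x := by
  rcases hx with rfl | rfl | rfl
  · exact le_refl _
  · exact Or.inl (by decide)
  · exact Or.inl (by decide)

theorem U2_le (x : Sph 2) (hx : x ∈ U2) : x ≤ (⟨1, false⟩ : Sph 2) := by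
  rcases hx with rfl | rfl
  · exact Or.inl (by decide)
  · exact le_refl _

/-- comparable elements in a chain -/
theorem comp {n : ℕ} (x : Fin n →o Sph 2) (i j : Fin n) : x i ≤ x j ∨ x j ≤ x i := by
  rcases le_total i j with h | h
  · exact Or.inl (x.monotone h)
  · exact Or.inr (x.monotone h)

theorem inc0 : ¬ ((⟨0, false⟩ : Sph 2) ≤ ⟨0, true⟩ ∨ (⟨0, true⟩ : Sph 2) ≤ ⟨0, false⟩) := by
  rw [Sph.le_iff, Sph.le_iff]
  decide

theorem inc1 : ¬ ((⟨1, false⟩ : Sph 2) ≤ ⟨1, true⟩ ∨ (⟨1, true⟩ : Sph 2) ≤ ⟨1, false⟩) := by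
  rw [Sph.le_iff, Sph.le_iff]
  decide

/-- the chains in the third edge which are not constant -/
theorem key {k : ℕ} (x : Fin k →o Sph 2) :
    ((∀ i, x i ∈ U3) ∧ ¬ ((∀ i, x i ∈ P0) ∨ ∀ i, x i ∈ P1)) ↔
      ((∀ i, x i ∈ US) ∧ ¬ ((∀ i, x i ∈ U1) ∨ ∀ i, x i ∈ U2)) := by
  constructor
  · rintro ⟨ha, hb⟩
    refine ⟨fun i => U3_sub (ha i), ?_⟩
    rintro (hc | hc)
    · apply hb
      right
      intro i
      have h1 := ha i
      have h2 := hc i
      refine ⟨h1.1, ?_⟩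
      rcases h2 with h | h | h
      · rw [h] at h1
        exact absurd h1.1 (by decide)
      · rw [h]
      · rw [h]
    · apply hb
      left
      intro i
      have h1 := ha i
      have h2 := hc i
      refine ⟨h1.1, ?_⟩
      rcases h2 with h | h
      · rw [h]
      · rw [h] at h1
        exact absurd h1.1 (by decide)
  · rintro ⟨ha, hb⟩
    rw [not_or, not_forall, not_forall] at hb
    obtain ⟨⟨i, hi⟩, ⟨j, hj⟩⟩ := hb
    have hi' : x i = ⟨0, true⟩ := by
      rcases US_cases _ (ha i) with h | h | h | h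
      · exact absurd (Or.inl h) hi
      · exact h
      · exact absurd (Or.inr (Or.inl h)) hi
      · exact absurd (Or.inr (Or.inr h)) hi
    have hj' : x j = ⟨1, true⟩ := by
      rcases US_cases _ (ha j) with h | h | h | h
      · have := comp x j i
        rw [h, hi'] at this
        exact absurd this inc0
      · exact absurd (Or.inl h) hj
      · exact absurd (Or.inr h) hj
      · exact h
    refine ⟨fun k => ?_, ?_⟩
    · rcases US_cases _ (ha k) with h | h | h | h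
      · have := comp x k i
        rw [h, hi'] at this
        exact absurd this inc0
      · rw [h]
        exact ⟨rfl, by decide⟩
      · have := comp x k j
        rw [h, hj'] at this
        exact absurd this inc1
      · rw [h]
        exact ⟨rfl, by decide⟩
    · rintro (hc | hc)
      · have := (hc j).2
        rw [hj'] at this
        exact absurd this (by decide)
      · have := (hc i).2
        rw [hi'] at this
        exact absurd this (by decide)

/-! ### The three steps -/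

theorem stepA (h3 : N_PCTR_Stmt) {P : MorphismProperty SSet.{0}} (hP : WClass P) :
    Acy P (FM Dd ⊤ ⊤ (NOs U1) (NOs UZ)) := by
  have h0 : (⟨0, false⟩ : Sph 2) ∈ U1 := Or.inl rfl
  let f : U1 →o U1 := ⟨fun _ => ⟨⟨0, false⟩, h0⟩, fun _ _ _ => le_refl _⟩
  refine h3 P hP Dd ⊤ (Sph 2) U1 UZ f ?_ (fun _ => rfl) ⊤ (Or.inr rfl)
  refine Relation.EqvGen.symm _ _ (Relation.EqvGen.rel _ _ ⟨?_, ?_⟩)
  · intro x
    exact zero_le_U1 x.1 x.2
  · intro x hx
    exact ⟨rfl, hx⟩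

theorem stepB (h3 : N_PCTR_Stmt) {P : MorphismProperty SSet.{0}} (hP : WClass P) :
    Acy P (FM Dd ⊤ ⊤ (NOs U2) (NOs UF)) := by
  have h0 : (⟨1, false⟩ : Sph 2) ∈ U2 := Or.inr rfl
  let f : U2 →o U2 := ⟨fun _ => ⟨⟨1, false⟩, h0⟩, fun _ _ _ => le_refl _⟩
  refine h3 P hP Dd ⊤ (Sph 2) U2 UF f ?_ (fun _ => rfl) ⊤ (Or.inr rfl)
  refine Relation.EqvGen.rel _ _ ⟨?_, ?_⟩
  · intro x
    exact U2_le x.1 x.2
  · intro x hx
    exact ⟨hx, rfl⟩

end NDy

open NDy in
/-- (F13) `D[circle]` is acyclic. -/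
theorem n_dy (h1 : N_FMC_Stmt) (h2 : N_EXC_Stmt) (h3 : N_PCTR_Stmt) (h4 : N_BD_Stmt) :
    N_DY_Stmt := by
  intro P hP hB
  -- the subcomplexes
  have hZ1 : NOs UZ ≤ NOs U1 := NOs_mono UZ_sub
  have hZ2 : NOs U1 ≤ NOs U1 ⊔ NOs U2 := le_sup_left
  have e1 : (NOs US ⊓ NOs U1 : (NO (Sph 2)).Subcomplex) = NOs U1 :=
    inf_eq_right.2 (NOs_mono U1_sub)
  have e2 : (NOs US ⊓ (NOs U1 ⊔ NOs U2) : (NO (Sph 2)).Subcomplex) = NOs U1 ⊔ NOs U2 :=
    inf_eq_right.2 (sup_le (NOs_mono U1_sub) (NOs_mono U2_sub))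
  -- first projection
  have s1 := h1 P hP Dd ⊤ (NO (Sph 2)) ⊤ (NOs US) (NOs UZ) (NOs U1) hZ1 (by
    rw [e1]
    exact stepA h3 hP)
  refine acy_of hP _ s1 ?_
  -- second projection
  have i2 := h2 Dd ⊤ (NO (Sph 2)) ⊤ ⊤ (NOs U2) (NOs U1 ⊔ NOs U2) (NOs UF) (NOs U1) (le_refl _)
    le_sup_right (NOs_mono UF_sub1) (by
      intro n x
      rw [mem_sup]
      constructor
      · rintro ⟨ha, hb⟩
        refine ⟨Or.inr ha, fun hc => hb fun i => ?_⟩
        rcases ha i with h | h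
        · have := hc i
          rw [h] at this
          rcases this with h' | h' | h' <;> exact absurd h' (by decide)
        · exact h
      · rintro ⟨ha, hb⟩
        rcases ha with ha | ha
        · exact absurd ha hb
        · exact ⟨ha, fun hc => hb (NOs_mono UF_sub1 n hc)⟩) (by
      intro n x _ _
      exact Iff.rfl)
  have s2 := h1 P hP Dd ⊤ (NO (Sph 2)) ⊤ (NOs US) (NOs U1) (NOs U1 ⊔ NOs U2) hZ2 (by
    rw [e2]
    exact acy_to hP _ (hP.iso _ i2) (stepB h3 hP))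
  refine acy_of hP _ s2 ?_
  -- excision
  have hZ3 : Z3 ≤ NOs U1 ⊔ NOs U2 := by
    refine sup_le ?_ ?_
    · refine le_trans (NOs_mono ?_) le_sup_right
      rintro ⟨l, s⟩ ⟨ha, hb⟩
      left
      simp only at ha hb
      rw [ha, hb]
    · refine le_trans (NOs_mono ?_) le_sup_left
      rintro ⟨l, s⟩ ⟨ha, hb⟩
      right
      right
      simp only at ha hb
      rw [ha, hb]
  have i3 := h2 Dd ⊤ (NO (Sph 2)) ⊤ ⊤ (NOs U3) (NOs US) Z3 (NOs U1 ⊔ NOs U2) (le_refl _)
    (NOs_mono U3_sub) hZ3 (by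
      intro n x
      rw [mem_sup, Z3_eq, mem_sup]
      exact key (k := n.unop.len + 1) x) (by
      intro n x _ _
      exact Iff.rfl)
  exact acy_to hP _ (hP.iso _ i3) (h4 P hP hB)

end Pool.Agent.SH
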