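import Pool.Agent.SH.StmtsN
import Pool.Agent.SH.StmtsTE

/-!
# MP_2d0b73_an, Part III-N: the simplicial set of all sequences is acyclic
-/

set_option autoImplicit false

open CategoryTheory MonoidalCategory CartesianMonoidalCategory Simplicial Opposite

namespace Pool.Agent.SH

namespace NEE

/-- the constant map -/
def cst (X : Type) (x0 : X) : 𝟙_ SSet.{0} ⟶ EE X where
  app n := TypeCat.ofHom (fun _ _ => x0)

open scoped Classical in
/-- the homotopy -/
noncomputable def hmt (X : Type) (x0 : X) : EE X ⊗ Δ[1] ⟶ EE X where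
  app n := TypeCat.ofHom (fun (p : (EE X ⊗ Δ[1]).obj n) k =>
    if (SSet.stdSimplex.objEquiv p.2).toOrderHom k = 0 then
      (show Fin (n.unop.len + 1) → X from p.1) k else x0)

end NEE

theorem n_ee (h : WC_HEQ_Stmt) : N_EE_Stmt := by
  intro P hP X hX
  obtain ⟨x0⟩ := hX
  refine (h P hP (EE X) (𝟙_ SSet.{0}) (toUnit (EE X)) (NEE.cst X x0) ?_ ?_).1
  · refine Relation.EqvGen.symm _ _ (Relation.EqvGen.rel _ _ ?_)
    refine (Hty_iff _ _).2 ⟨NEE.hmt X x0, ?_, ?_⟩
    · ext n x
      funext k
      show (if (0 : Fin 2) = 0 then (show Fin (n.unop.len + 1) → X from x) k else x0) =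
        (show Fin (n.unop.len + 1) → X from x) k
      exact if_pos rfl
    · ext n x
      funext k
      show (if (1 : Fin 2) = 0 then (show Fin (n.unop.len + 1) → X from x) k else x0) = x0
      exact if_neg (by decide)
  · rw [toUnit_unique (NEE.cst X x0 ≫ toUnit (EE X)) (𝟙 _)]
    exact Relation.EqvGen.refl _

end Pool.Agent.SH
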