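import Pool.Agent.SH.StmtsN

/-!
# MP_2d0b73_an, Part III-N: excision and change of coefficients
-/

set_option autoImplicit false

open CategoryTheory MonoidalCategory CartesianMonoidalCategory Simplicial Opposite

namespace Pool.Agent.SH

namespace NExc

theorem isIso_of_bij {X Y : SSet.{0}} (f : X ⟶ Y) (h : ∀ n, Function.Bijective (f.app n)) :
    IsIso f := by
  rw [NatTrans.isIso_iff_isIso_app]
  intro n
  rw [isIso_iff_bijective]
  exact h n

theorem map_id_val {A : Type} [AddCommMonoid A] (A₀ : AddSubmonoid A) {X : SSet.{0}}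
    {Y Y' W W' Z Z' : X.Subcomplex} (hY : Y ≤ Y') (hW : W ≤ W') (hZ : Z ≤ Z')
    (h1 : ∀ (n : SimplexCategoryᵒᵖ) (x : X.obj n), (x ∈ W.obj n ∧ x ∉ Z.obj n) ↔
      (x ∈ W'.obj n ∧ x ∉ Z'.obj n)) (n : SimplexCategoryᵒᵖ) (f : (FM A A₀ Y W Z).obj n) :
    FM.fn ((FMmap A₀ (𝟙 X) hY hW hZ : FM A A₀ Y W Z ⟶ FM A A₀ Y' W' Z').app n f) =
      FM.fn f := by
  classical
  change (f.1.mapDomain ((𝟙 X : X ⟶ X).app n)).filter (fun x => x ∉ Z'.obj n) = f.1
  have e : ((𝟙 X : X ⟶ X).app n : X.obj n → X.obj n) = id := rfl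
  rw [e, Finsupp.mapDomain_id, Finsupp.filter_eq_self_iff]
  exact fun x hx => ((h1 n x).1 (f.2.1 x hx)).2

/-- The inclusion of the natural numbers. -/
def inc : ℕ →+ Qd where
  toFun n := ⟨n, Nat.cast_nonneg n, 0, n, by simp⟩
  map_zero' := by
    apply Subtype.ext
    exact Nat.cast_zero
  map_add' a b := by
    apply Subtype.ext
    exact Nat.cast_add a b

theorem inc_inj : Function.Injective inc := by
  intro a b h
  have h1 : (a : ℚ) = b := congrArg Subtype.val h
  exact_mod_cast h1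

theorem inc_mem (n : ℕ) : inc n ∈ Nd := ⟨n, rfl⟩

/-- The change of coefficients. -/
noncomputable def co {X : SSet.{0}} (W Z : X.Subcomplex) : FM ℕ ⊤ ⊤ W Z ⟶ FM Qd Nd ⊥ W Z where
  app n := TypeCat.ofHom (fun f =>
    ⟨f.1.mapRange inc inc.map_zero, by
      refine ⟨fun x hx => ?_, fun x _ => ?_⟩
      · rw [Finsupp.mapRange_apply] at hx
        exact f.2.1 x (fun h => hx (by rw [h, map_zero]))
      · rw [Finsupp.mapRange_apply]
        exact inc_mem _⟩)
  naturality n m θ := by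
    classical
    refine ConcreteCategory.hom_ext _ _ fun f => Subtype.ext ?_
    obtain ⟨f, hf⟩ := f
    show (((f.mapDomain (X.map θ)).filter (fun x => x ∉ Z.obj m)).mapRange inc inc.map_zero)
      = ((f.mapRange inc inc.map_zero).mapDomain (X.map θ)).filter (fun x => x ∉ Z.obj m)
    rw [Finsupp.mapDomain_mapRange _ _ _ inc.map_zero inc.map_add]
    ext x
    rw [Finsupp.mapRange_apply, Finsupp.filter_apply, Finsupp.filter_apply]
    by_cases h : x ∉ Z.obj m
    · rw [if_pos h, if_pos h, Finsupp.mapRange_apply]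
    · rw [if_neg h, if_neg h, map_zero]

/-- The inverse on the coefficients. -/
noncomputable def fl (q : Qd) : ℕ := ⌊(q : ℚ)⌋₊

theorem fl_zero : fl 0 = 0 := by simp [fl]

theorem inc_fl (q : Qd) (hq : q ∈ Nd) : inc (fl q) = q := by
  obtain ⟨m, hm⟩ := hq
  apply Subtype.ext
  change ((fl q : ℕ) : ℚ) = q
  rw [fl, hm, Nat.floor_natCast]

end NExc

theorem n_exc : N_EXC_Stmt := by
  intro A _ A₀ X Y Y' W W' Z Z' hY hW hZ h1 h2
  refine NExc.isIso_of_bij _ fun n => ⟨?_, ?_⟩
  · intro f g hfg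
    apply Subtype.ext
    change FM.fn f = FM.fn g
    rw [← NExc.map_id_val A₀ hY hW hZ h1 n f, ← NExc.map_id_val A₀ hY hW hZ h1 n g, hfg]
  · intro g
    refine ⟨⟨g.1, fun x hx => (h1 n x).2 (g.2.1 x hx), fun x hx => ?_⟩, ?_⟩
    · by_cases h0 : g.1 x = 0
      · rw [h0]
        exact A₀.zero_mem
      · have h3 := (h1 n x).2 (g.2.1 x h0)
        exact g.2.2 x (fun h => hx ((h2 n x h3.1 h3.2).2 h))
    · apply Subtype.ext
      exact NExc.map_id_val A₀ hY hW hZ h1 n _

theorem n_coef : N_COEF_Stmt := by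
  intro X W Z
  have h : IsIso (NExc.co W Z) := by
    refine NExc.isIso_of_bij _ fun n => ⟨?_, ?_⟩
    · intro f g hfg
      apply Subtype.ext
      exact Finsupp.mapRange_injective _ NExc.inc.map_zero NExc.inc_inj
        (congrArg Subtype.val hfg)
    · intro g
      refine ⟨⟨g.1.mapRange NExc.fl NExc.fl_zero, ?_, fun _ _ => AddSubmonoid.mem_top _⟩, ?_⟩
      · intro x hx
        rw [Finsupp.mapRange_apply] at hx
        exact g.2.1 x (fun h => hx (by rw [h, NExc.fl_zero]))
      · apply Subtype.ext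
        change (g.1.mapRange NExc.fl NExc.fl_zero).mapRange NExc.inc NExc.inc.map_zero = g.1
        ext x
        rw [Finsupp.mapRange_apply, Finsupp.mapRange_apply, NExc.inc_fl]
        exact g.2.2 x (fun h => h)
  exact ⟨asIso (NExc.co W Z)⟩

end Pool.Agent.SH
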