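import Pool.Agent.SH.StmtsN

/-!
# MP_2d0b73_an, Part III-N: quotients by free actions of finite groups (N9)
-/

set_option autoImplicit false

open CategoryTheory MonoidalCategory CartesianMonoidalCategory Simplicial Opposite

namespace Pool.Agent.SH

namespace NFin

/-- The stabiliser of a coset of a `2`-subgroup is a `2`-group. -/
theorem stab_coset {G : Type} [Group G] (S : Subgroup G) (hS : IsPGroup 2 S) (x : G ⧸ S) :
    IsPGroup 2 (MulAction.stabilizer G x) := by
  obtain ⟨g, rfl⟩ := QuotientGroup.mk_surjective x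
  have e : ((g : G) : G ⧸ S) = g • ((1 : G) : G ⧸ S) := by
    rw [MulAction.Quotient.smul_coe, smul_eq_mul, mul_one]
  rw [e, MulAction.stabilizer_smul_eq_stabilizer_map_conj, MulAction.stabilizer_quotient]
  exact hS.map _

/-- The stabiliser of a sequence of cosets. -/
theorem stab_seq {G : Type} [Group G] (S : Subgroup G) (hS : IsPGroup 2 S)
    {n : SimplexCategoryᵒᵖ} (y : (EE (G ⧸ S)).obj n) :
    IsPGroup 2 ((EEact G (G ⧸ S)).stab y) := by
  let y' : Fin (n.unop.len + 1) → G ⧸ S := y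
  refine (stab_coset S hS (y' 0)).to_le ?_
  intro g hg
  have h : (EEact G (G ⧸ S)).ap g y = y := hg
  have h' : (fun i => g • y' i) = y' := h
  show g • y' 0 = y' 0
  exact congrFun h' 0

/-- Restrictions of free actions are free. -/
theorem restr_free {G : Type} [Group G] {W : SSet.{0}} (a : Act G W) (ha : a.Free)
    (H : Subgroup G) : (a.restr H).Free := by
  intro n x g hg
  have h : a.ap (g : G) x = x := hg
  exact Subtype.ext (ha n x (g : G) h)

/-- Invariance of the quotient map. -/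
theorem inv_of_quo {G : Type} [Group G] {W V : SSet.{0}} (a : Act G W) (q : W ⟶ V)
    (hq : IsQuo a q) (g : G) : a.act g ≫ q = q := by
  ext n x
  show q.app n (a.ap g x) = q.app n x
  exact ((hq.fib n x (a.ap g x)).2 ⟨g, rfl⟩).symm

/-- Acyclicity along a map of the class. -/
theorem acy_of_map {P : MorphismProperty SSet.{0}} (hP : WClass P) {X Y : SSet.{0}}
    (f : X ⟶ Y) (hf : P f) (hY : Acy P Y) : Acy P X := by
  have e : f ≫ toUnit Y = toUnit X := toUnit_unique _ _
  have h := hP.comp f (toUnit Y) hf hY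
  rw [e] at h
  exact h

/-- Acyclicity of the target. -/
theorem acy_of_map' {P : MorphismProperty SSet.{0}} (hP : WClass P) {X Y : SSet.{0}}
    (f : X ⟶ Y) (hf : P f) (hX : Acy P X) : Acy P Y := by
  have e : f ≫ toUnit Y = toUnit X := toUnit_unique _ _
  refine hP.cancelL f (toUnit Y) hf ?_
  rw [e]
  exact hX

end NFin

open NFin in
/-- Quotients by free actions of finite groups. -/
theorem n_fin (h1 : N_QEX_Stmt) (h2 : N_QDESC_Stmt) (h3 : N_EE_Stmt) (h4 : N_QPROJ_Stmt)
    (h5 : N_TWO_Stmt) (h6 : N_ORB_Stmt) (h7 : N_SYL_Stmt) : N_FIN_Stmt := by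
  intro P hP hA hB G _ _ W V a q ha hq hW
  have hp : Fact (Nat.Prime 2) := ⟨Nat.prime_two⟩
  obtain ⟨S⟩ : Nonempty (Sylow 2 G) := inferInstance
  have hodd : Odd (S : Subgroup G).index := by
    rw [← Nat.not_even_iff_odd, even_iff_two_dvd]
    exact S.not_dvd_index
  obtain ⟨E, e, he⟩ := h1 G (W ⊗ EE (G ⧸ (S : Subgroup G)))
    (a.prod (EEact G (G ⧸ (S : Subgroup G))))
  obtain ⟨B, r, hr⟩ := h1 G (EE (G ⧸ (S : Subgroup G))) (EEact G (G ⧸ (S : Subgroup G)))
  obtain ⟨p₁, hp₁⟩ := (h2 G _ E V _ e he).1 (fst W (EE (G ⧸ (S : Subgroup G))) ≫ q) (by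
    intro g
    show (a.act g ⊗ₘ (EEact G (G ⧸ (S : Subgroup G))).act g) ≫ fst _ _ ≫ q = _
    rw [← Category.assoc, tensorHom_fst, Category.assoc, inv_of_quo a q hq])
  obtain ⟨p₂, hp₂⟩ := (h2 G _ E B _ e he).1 (snd W (EE (G ⧸ (S : Subgroup G))) ≫ r) (by
    intro g
    show (a.act g ⊗ₘ (EEact G (G ⧸ (S : Subgroup G))).act g) ≫ snd _ _ ≫ r = _
    rw [← Category.assoc, tensorHom_snd, Category.assoc, inv_of_quo _ r hr])
  have hp₁P : P p₁ := (h4 P hP G W _ a _ E e he).1 V q p₁ ha hq hp₁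
    (h3 P hP _ ⟨((1 : G) : G ⧸ (S : Subgroup G))⟩)
  have hp₂P : P p₂ := by
    refine h6 P hP G W _ a _ E B e r p₂ ha he hr hp₂ ?_
    intro n y V' p hpq
    obtain ⟨k, hk⟩ := (IsPGroup.iff_card (p := 2)).1 (stab_seq (S : Subgroup G) S.2 y)
    exact h5 P hP hB _ k hk W V' _ p (restr_free a ha _) hpq hW
  have hBacy : Acy P B := hA B (h7 G (S : Subgroup G) hodd B r hr)
  exact acy_of_map' hP p₁ hp₁P (acy_of_map hP p₂ hp₂P hBacy)

end Pool.Agent.SH
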