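import Pool.Agent.SH.StmtsN
import Pool.Agent.SH.StmtsTE

/-!
# MP_2d0b73_an, Part III-N, module N_FMC: open fibres of the projections of `FM`
-/

set_option autoImplicit false

open CategoryTheory MonoidalCategory CartesianMonoidalCategory Simplicial Opposite

namespace Pool.Agent.SH

namespace NFmc

variable {A : Type} [AddCommMonoid A] {A₀ : AddSubmonoid A} {X : SSet.{0}}

open scoped Classical in
theorem map_fn {Y W Z : X.Subcomplex} {n m : SimplexCategoryᵒᵖ} (θ : n ⟶ m)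
    (f : (FM A A₀ Y W Z).obj n) : FM.fn ((FM A A₀ Y W Z).map θ f) =
      ((FM.fn f).mapDomain (X.map θ)).filter (fun x => x ∉ Z.obj m) := rfl

open scoped Classical in
theorem FMmap_fn {X' : SSet.{0}} (u : X ⟶ X') {Y W Z : X.Subcomplex}
    {Y' W' Z' : X'.Subcomplex} (hY : Y ≤ Y'.preimage u) (hW : W ≤ W'.preimage u)
    (hZ : Z ≤ Z'.preimage u) {n : SimplexCategoryᵒᵖ} (f : (FM A A₀ Y W Z).obj n) :
    FM.fn ((FMmap A₀ u hY hW hZ).app n f) =
      ((FM.fn f).mapDomain (u.app n)).filter (fun x => x ∉ Z'.obj n) := rfl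

theorem fn_inj {Y W Z : X.Subcomplex} {n : SimplexCategoryᵒᵖ} {f g : (FM A A₀ Y W Z).obj n}
    (h : FM.fn f = FM.fn g) : f = g := Subtype.ext h

/-- addition -/
noncomputable def addm (A₀ : AddSubmonoid A) (Y W Z : X.Subcomplex) :
    FM A A₀ Y W Z ⊗ FM A A₀ Y W Z ⟶ FM A A₀ Y W Z where
  app n := TypeCat.ofHom (fun p => ⟨FM.fn p.1 + FM.fn p.2, by
    obtain ⟨⟨f, hf, hf'⟩, ⟨g, hg, hg'⟩⟩ := p
    refine ⟨fun x hx => ?_, fun x hx => ?_⟩
    · by_cases h : f x = 0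
      · refine hg x fun h' => hx ?_
        show f x + g x = 0
        rw [h, h', add_zero]
      · exact hf x h
    · exact A₀.add_mem (hf' x hx) (hg' x hx)⟩)
  naturality n m θ := by
    classical
    refine ConcreteCategory.hom_ext _ _ fun p => Subtype.ext ?_
    show ((FM.fn p.1).mapDomain (X.map θ)).filter (fun x => x ∉ Z.obj m) +
        ((FM.fn p.2).mapDomain (X.map θ)).filter (fun x => x ∉ Z.obj m) =
      ((FM.fn p.1 + FM.fn p.2).mapDomain (X.map θ)).filter (fun x => x ∉ Z.obj m)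
    rw [Finsupp.mapDomain_add, Finsupp.filter_add]

theorem addm_fn {Y W Z : X.Subcomplex} {n : SimplexCategoryᵒᵖ}
    (f g : (FM A A₀ Y W Z).obj n) :
    FM.fn ((addm A₀ Y W Z).app n ((f, g) : (FM A A₀ Y W Z ⊗ FM A A₀ Y W Z).obj n)) =
      FM.fn f + FM.fn g := rfl

theorem epi_inj {m n : SimplexCategory} (a : m ⟶ n) (ha : Epi a) :
    ∃ s : n ⟶ m, s ≫ a = 𝟙 n := by
  have : IsSplitEpi a := by
    have := ha
    exact isSplitEpi_of_epi a
  exact ⟨section_ a, IsSplitEpi.id a⟩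

theorem map_inj {m n : SimplexCategory} (a : m ⟶ n) (s : n ⟶ m) (hs : s ≫ a = 𝟙 n) :
    ∀ x : X.obj (op n), X.map s.op (X.map a.op x) = x := by
  intro x
  have : X.map a.op ≫ X.map s.op = 𝟙 _ := by
    rw [← X.map_comp, ← op_comp, hs, op_id, X.map_id]
  exact ConcreteCategory.congr_hom this x

theorem mem_iff (Z : X.Subcomplex) {m n : SimplexCategory} (a : m ⟶ n) (s : n ⟶ m)
    (hs : s ≫ a = 𝟙 n) (x : X.obj (op n)) :
    X.map a.op x ∈ Z.obj (op m) ↔ x ∈ Z.obj (op n) := by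
  constructor
  · intro h
    have h2 : X.map s.op (X.map a.op x) ∈ Z.obj (op n) := Z.map s.op h
    rwa [map_inj a s hs] at h2
  · intro h
    exact Z.map a.op h

end NFmc

open NFmc

theorem n_fmc (h : WC_OPEN_Stmt) : N_FMC_Stmt := by
  intro P hP A _ A₀ X Y W Z Z' hZ hF
  refine h P hP _ _ _ ?_
  intro n b _
  classical
  -- the simplex over `b`
  have hb : ∀ x, FM.fn b x ≠ 0 → x ∈ W.obj _ ∧ x ∉ Z.obj _ := fun x hx =>
    ⟨(b.2.1 x hx).1, fun h' => (b.2.1 x hx).2 (hZ _ h')⟩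
  let c : (FM A A₀ Y W Z).obj (op ⦋n⦌) := ⟨FM.fn b, hb, b.2.2⟩
  have hc : FM.fn c = FM.fn b := rfl
  let i : FM A A₀ Y (W ⊓ Z') Z ⟶ FM A A₀ Y W Z :=
    FMmap A₀ (𝟙 X) (le_refl Y) (inf_le_left : W ⊓ Z' ≤ W) (le_refl Z)
  have hi : ∀ (m : SimplexCategoryᵒᵖ) (z : (FM A A₀ Y (W ⊓ Z') Z).obj m),
      FM.fn (i.app m z) = FM.fn z := by
    intro m z
    show ((FM.fn z).mapDomain (id : X.obj m → X.obj m)).filter (fun x => x ∉ Z.obj m) = FM.fn z
    rw [Finsupp.mapDomain_id, Finsupp.filter_eq_self_iff]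
    exact fun x hx => (z.2.1 x hx).2
  have hp : ∀ (m : SimplexCategoryᵒᵖ) (e : (FM A A₀ Y W Z).obj m),
      FM.fn ((FMmap A₀ (𝟙 X) (le_refl Y) (le_refl W) hZ :
        FM A A₀ Y W Z ⟶ FM A A₀ Y W Z').app m e) = (FM.fn e).filter (fun x => x ∉ Z'.obj m) := by
    intro m e
    show ((FM.fn e).mapDomain (id : X.obj m → X.obj m)).filter (fun x => x ∉ Z'.obj m) = _
    rw [Finsupp.mapDomain_id]
  have hpc : (FMmap A₀ (𝟙 X) (le_refl Y) (le_refl W) hZ :
      FM A A₀ Y W Z ⟶ FM A A₀ Y W Z').app _ c = b := by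
    apply fn_inj
    rw [hp, hc, Finsupp.filter_eq_self_iff]
    exact fun x hx => (b.2.1 x hx).2
  refine ⟨FM A A₀ Y (W ⊓ Z') Z, (i ⊗ₘ SSet.yonedaEquiv.symm c) ≫ addm A₀ Y W Z, hF, ?_, ?_⟩
  · ext m p
    apply fn_inj
    obtain ⟨z, β⟩ := p
    show FM.fn ((FMmap A₀ (𝟙 X) (le_refl Y) (le_refl W) hZ :
      FM A A₀ Y W Z ⟶ FM A A₀ Y W Z').app m ((addm A₀ Y W Z).app m
        ((i.app m z, (SSet.yonedaEquiv.symm c).app m β) :
          (FM A A₀ Y W Z ⊗ FM A A₀ Y W Z).obj m))) =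
      FM.fn ((SSet.yonedaEquiv.symm b).app m β)
    rw [hp, addm_fn, Finsupp.filter_add, hi]
    have e1 : (FM.fn z).filter (fun x => x ∉ Z'.obj m) = 0 := by
      rw [Finsupp.filter_eq_zero_iff]
      intro x hx
      by_contra h0
      exact hx (z.2.1 x h0).1.2
    rw [e1, zero_add, ← hp]
    congr 1
    rw [← hpc, ← SSet.yonedaEquiv_symm_comp]
    rfl
  · intro m a ha e he
    obtain ⟨s, hs⟩ := epi_inj a ha
    have hinj : Function.Injective (X.map a.op) :=
      Function.LeftInverse.injective (map_inj (X := X) a s hs)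
    -- the simplex over `b` pulled back
    have hac : FM.fn ((FM A A₀ Y W Z).map a.op c) = (FM.fn e).filter (fun x => x ∉ Z'.obj (op ⦋m⦌)) := by
      have h1 : FM.fn ((FM A A₀ Y W Z').map a.op b) =
          (FM.fn e).filter (fun x => x ∉ Z'.obj (op ⦋m⦌)) := by
        rw [← hp]
        exact congrArg FM.fn he.symm
      rw [← h1, map_fn, map_fn, hc]
      ext x
      rw [Finsupp.filter_apply, Finsupp.filter_apply]
      by_cases hx : (FM.fn b).mapDomain (X.map a.op) x = 0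
      · rw [hx]
        simp
      · obtain ⟨y, hy, rfl⟩ := FM_supp a.op _ _ hx
        rw [if_pos, if_pos]
        · rw [mem_iff Z' a s hs]
          exact (b.2.1 y hy).2
        · rw [mem_iff Z a s hs]
          exact (hb y hy).2
    have hval : ∀ z : (FM A A₀ Y (W ⊓ Z') Z).obj (op ⦋m⦌),
        FM.fn (((i ⊗ₘ SSet.yonedaEquiv.symm c) ≫ addm A₀ Y W Z).app (op ⦋m⦌)
          ((z, SSet.stdSimplex.objEquiv.symm a) :
            (FM A A₀ Y (W ⊓ Z') Z ⊗ Δ[n]).obj (op ⦋m⦌))) =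
        FM.fn z + (FM.fn e).filter (fun x => x ∉ Z'.obj (op ⦋m⦌)) := by
      intro z
      rw [← hac]
      show FM.fn (i.app _ z) + FM.fn ((SSet.yonedaEquiv.symm c).app (op ⦋m⦌)
        (SSet.stdSimplex.objEquiv.symm a)) = _
      rw [hi]
      rfl
    refine ⟨⟨(FM.fn e).filter (fun x => x ∈ Z'.obj (op ⦋m⦌)), ?_, ?_⟩, ?_, ?_⟩
    · intro x hx
      rw [Finsupp.filter_apply] at hx
      by_cases h' : x ∈ Z'.obj (op ⦋m⦌)
      · rw [if_pos h'] at hx
        exact ⟨⟨(e.2.1 x hx).1, h'⟩, (e.2.1 x hx).2⟩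
      · rw [if_neg h'] at hx
        exact absurd rfl hx
    · intro x hx
      rw [Finsupp.filter_apply]
      split_ifs
      · exact e.2.2 x hx
      · exact A₀.zero_mem
    · apply fn_inj
      refine (hval _).trans ?_
      exact Finsupp.filter_add_filter_not (FM.fn e) (fun x => x ∈ Z'.obj (op ⦋m⦌))
    · intro z hz
      apply fn_inj
      have h2 := hval z
      rw [hz] at h2
      show FM.fn z = (FM.fn e).filter (fun x => x ∈ Z'.obj (op ⦋m⦌))
      conv_rhs => rw [h2]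
      rw [Finsupp.filter_add]
      have e1 : (FM.fn z).filter (fun x => x ∈ Z'.obj (op ⦋m⦌)) = FM.fn z := by
        rw [Finsupp.filter_eq_self_iff]
        exact fun x hx => (z.2.1 x hx).1.2
      have e2 : ((FM.fn e).filter (fun x => x ∉ Z'.obj (op ⦋m⦌))).filter
          (fun x => x ∈ Z'.obj (op ⦋m⦌)) = 0 := by
        rw [Finsupp.filter_eq_zero_iff]
        intro x hx
        rw [Finsupp.filter_apply, if_neg (not_not.2 hx)]
      rw [e1, e2, add_zero]

end Pool.Agent.SH
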