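import Pool.Agent.SH.StmtsN
import Pool.Agent.SH.StmtsTE

/-!
# MP_2d0b73_an, Part III-N, module N_FMD: reduction of the coefficients modulo one
-/

set_option autoImplicit false

open CategoryTheory MonoidalCategory CartesianMonoidalCategory Simplicial Opposite

namespace Pool.Agent.SH

namespace NFmd

/-! ### Coefficients -/

theorem md_eq (p q : Qd) (h : md p = md q) : ∃ m : ℤ, (p : ℚ) = q + m := by
  have h1 : (QuotientAddGroup.mk (p : ℚ) : ℚ ⧸ AddSubgroup.zmultiples (1 : ℚ)) =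
      QuotientAddGroup.mk (q : ℚ) := congrArg Subtype.val h
  rw [QuotientAddGroup.eq_iff_sub_mem, AddSubgroup.mem_zmultiples_iff] at h1
  obtain ⟨m, hm⟩ := h1
  refine ⟨m, ?_⟩
  have : (m : ℚ) = p - q := by
    rw [← hm]
    simp
  rw [this]
  ring

theorem ex_sec (d : Dd) : ∃ q : Qd, md q = d ∧ (q : ℚ) < 1 := by
  obtain ⟨d, k, hk⟩ := d
  obtain ⟨r, rfl⟩ := QuotientAddGroup.mk_surjective d
  rw [← QuotientAddGroup.mk_nsmul, QuotientAddGroup.eq_zero_iff,
    AddSubgroup.mem_zmultiples_iff] at hk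
  obtain ⟨m, hm⟩ := hk
  have hm' : r * 2 ^ k = m := by
    have : (m : ℚ) = 2 ^ k * r := by
      have h2 := hm
      simp only [zsmul_eq_mul, mul_one, nsmul_eq_mul, Nat.cast_pow, Nat.cast_ofNat] at h2
      exact h2
    rw [this, mul_comm]
  have h3 : Int.fract r * 2 ^ k = ((m - ⌊r⌋ * 2 ^ k : ℤ) : ℚ) := by
    rw [Int.fract, sub_mul, hm']
    push_cast
    ring
  have h4 : (0 : ℤ) ≤ m - ⌊r⌋ * 2 ^ k := by
    have : (0 : ℚ) ≤ ((m - ⌊r⌋ * 2 ^ k : ℤ) : ℚ) := by
      rw [← h3]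
      exact mul_nonneg (Int.fract_nonneg r) (by positivity)
    exact_mod_cast this
  refine ⟨⟨Int.fract r, Int.fract_nonneg r, k, (m - ⌊r⌋ * 2 ^ k).toNat, ?_⟩, ?_,
    Int.fract_lt_one r⟩
  · rw [h3]
    have : (((m - ⌊r⌋ * 2 ^ k).toNat : ℤ) : ℚ) = ((m - ⌊r⌋ * 2 ^ k : ℤ) : ℚ) := by
      rw [Int.toNat_of_nonneg h4]
    rw [← this]
    exact Int.cast_natCast _
  · apply Subtype.ext
    show (QuotientAddGroup.mk (Int.fract r) : ℚ ⧸ AddSubgroup.zmultiples (1 : ℚ)) =
      QuotientAddGroup.mk r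
    rw [QuotientAddGroup.eq_iff_sub_mem, AddSubgroup.mem_zmultiples_iff]
    refine ⟨-⌊r⌋, ?_⟩
    rw [Int.fract]
    simp

/-- the representative in `[0, 1)` -/
noncomputable def sec (d : Dd) : Qd := (ex_sec d).choose

theorem md_sec (d : Dd) : md (sec d) = d := (ex_sec d).choose_spec.1

theorem sec_lt (d : Dd) : (sec d : ℚ) < 1 := (ex_sec d).choose_spec.2

theorem ex_fl (q : Qd) : ∃ z : Qd, z ∈ Nd ∧ q = z + sec (md q) := by
  obtain ⟨m, hm⟩ := md_eq q (sec (md q)) (md_sec (md q)).symm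
  have h0 : (-1 : ℚ) < m := by
    have h1 := sec_lt (md q)
    have h2 : (0 : ℚ) ≤ q := q.2.1
    rw [hm] at h2
    linarith
  have h0' : (0 : ℤ) ≤ m := by
    have : (-1 : ℤ) < m := by exact_mod_cast h0
    omega
  have hc : ((m.toNat : ℕ) : ℚ) = m := by
    have : (((m.toNat : ℕ) : ℤ) : ℚ) = ((m : ℤ) : ℚ) := by rw [Int.toNat_of_nonneg h0']
    rw [← this]
    exact (Int.cast_natCast _).symm
  refine ⟨⟨(m.toNat : ℚ), Nat.cast_nonneg _, 0, m.toNat, by simp⟩, ⟨m.toNat, rfl⟩, ?_⟩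
  apply Subtype.ext
  show (q : ℚ) = (m.toNat : ℚ) + (sec (md q) : ℚ)
  rw [hc, hm, add_comm]

/-- the integral part -/
noncomputable def fl (q : Qd) : Qd := (ex_fl q).choose

theorem fl_mem (q : Qd) : fl q ∈ Nd := (ex_fl q).choose_spec.1

theorem fl_add (q : Qd) : fl q + sec (md q) = q := (ex_fl q).choose_spec.2.symm

theorem Qd_cancel {a b c : Qd} (h : a + c = b + c) : a = b := by
  apply Subtype.ext
  have h1 : (a : ℚ) + c = b + c := congrArg Subtype.val h
  linarith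

theorem sum_zero {a b : Qd} (h : a + b = 0) : a = 0 ∧ b = 0 := by
  have h1 : (a : ℚ) + b = 0 := congrArg Subtype.val h
  have h2 : (0 : ℚ) ≤ a := a.2.1
  have h3 : (0 : ℚ) ≤ b := b.2.1
  constructor
  · apply Subtype.ext
    show (a : ℚ) = 0
    linarith
  · apply Subtype.ext
    show (b : ℚ) = 0
    linarith

theorem fl_zero : fl 0 = 0 := (sum_zero (fl_add 0)).1

theorem sec_zero : sec 0 = 0 := by
  have := (sum_zero (fl_add 0)).2
  rwa [map_zero] at this

/-! ### Simplicial sets -/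

variable {A : Type} [AddCommMonoid A] {A₀ : AddSubmonoid A} {X : SSet.{0}}

theorem fn_inj {Y W Z : X.Subcomplex} {n : SimplexCategoryᵒᵖ} {f g : (FM A A₀ Y W Z).obj n}
    (h : FM.fn f = FM.fn g) : f = g := Subtype.ext h

/-- addition -/
noncomputable def addm (A₀ : AddSubmonoid A) (Y W Z : X.Subcomplex) :
    FM A A₀ Y W Z ⊗ FM A A₀ Y W Z ⟶ FM A A₀ Y W Z where
  app n := TypeCat.ofHom (fun p => ⟨FM.fn p.1 + FM.fn p.2, by
    obtain ⟨⟨f, hf, hf'⟩, ⟨g, hg, hg'⟩⟩ := p
    refine ⟨fun x hx => ?_, fun x hx => ?_⟩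
    · by_cases h : f x = 0
      · refine hg x fun h' => hx ?_
        show f x + g x = 0
        rw [h, h', add_zero]
      · exact hf x h
    · exact A₀.add_mem (hf' x hx) (hg' x hx)⟩)
  naturality n m θ := by
    classical
    refine ConcreteCategory.hom_ext _ _ fun p => Subtype.ext ?_
    show ((FM.fn p.1).mapDomain (X.map θ)).filter (fun x => x ∉ Z.obj m) +
        ((FM.fn p.2).mapDomain (X.map θ)).filter (fun x => x ∉ Z.obj m) =
      ((FM.fn p.1 + FM.fn p.2).mapDomain (X.map θ)).filter (fun x => x ∉ Z.obj m)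
    rw [Finsupp.mapDomain_add, Finsupp.filter_add]

theorem epi_inj {m n : SimplexCategory} (a : m ⟶ n) (ha : Epi a) :
    ∃ s : n ⟶ m, s ≫ a = 𝟙 n := by
  have : IsSplitEpi a := by
    have := ha
    exact isSplitEpi_of_epi a
  exact ⟨section_ a, IsSplitEpi.id a⟩

theorem map_inj {m n : SimplexCategory} (a : m ⟶ n) (s : n ⟶ m) (hs : s ≫ a = 𝟙 n) :
    ∀ x : X.obj (op n), X.map s.op (X.map a.op x) = x := by
  intro x
  have : X.map a.op ≫ X.map s.op = 𝟙 _ := by
    rw [← X.map_comp, ← op_comp, hs, op_id, X.map_id]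
  exact ConcreteCategory.congr_hom this x

end NFmd

open NFmd

theorem n_fmd (h : WC_OPEN_Stmt) : N_FMD_Stmt := by
  intro P hP X Y W Z hF
  refine h P hP _ _ _ ?_
  intro n b _
  classical
  have hcx : ∀ x, (FM.fn b).mapRange sec sec_zero x ≠ 0 → x ∈ W.obj _ ∧ x ∉ Z.obj _ := by
    intro x hx
    rw [Finsupp.mapRange_apply] at hx
    have hb : FM.fn b x ≠ 0 := fun h0 => hx (by rw [h0, sec_zero])
    exact ⟨(b.2.1 x hb).1.1, (b.2.1 x hb).2⟩
  have hcy : ∀ x, x ∉ Y.obj _ → (FM.fn b).mapRange sec sec_zero x ∈ Nd := by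
    intro x hx
    rw [Finsupp.mapRange_apply]
    have hb : FM.fn b x = 0 := by
      by_contra h0
      exact hx (b.2.1 x h0).1.2
    rw [hb, sec_zero]
    exact Nd.zero_mem
  let c : (FM Qd Nd Y W Z).obj (op ⦋n⦌) := ⟨(FM.fn b).mapRange sec sec_zero, hcx, hcy⟩
  have hc : FM.fn c = (FM.fn b).mapRange sec sec_zero := rfl
  let i : FM Qd Nd ⊥ W Z ⟶ FM Qd Nd Y W Z :=
    FMmap Nd (𝟙 X) (bot_le : (⊥ : X.Subcomplex) ≤ Y) (le_refl W) (le_refl Z)
  have hi : ∀ (m : SimplexCategoryᵒᵖ) (z : (FM Qd Nd ⊥ W Z).obj m),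
      FM.fn (i.app m z) = FM.fn z := by
    intro m z
    show ((FM.fn z).mapDomain (id : X.obj m → X.obj m)).filter (fun x => x ∉ Z.obj m) = FM.fn z
    rw [Finsupp.mapDomain_id, Finsupp.filter_eq_self_iff]
    exact fun x hx => (z.2.1 x hx).2
  have hp : ∀ (m : SimplexCategoryᵒᵖ) (e : (FM Qd Nd Y W Z).obj m),
      FM.fn ((FMco Nd md md_Nd Y W Z).app m e) = (FM.fn e).mapRange md md.map_zero :=
    fun _ _ => rfl
  have hpc : (FMco Nd md md_Nd Y W Z).app _ c = b := by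
    apply fn_inj
    refine (hp _ _).trans ?_
    rw [hc]
    ext1 x
    rw [Finsupp.mapRange_apply, Finsupp.mapRange_apply, md_sec]
  refine ⟨FM Qd Nd ⊥ W Z, (i ⊗ₘ SSet.yonedaEquiv.symm c) ≫ addm Nd Y W Z, hF, ?_, ?_⟩
  · ext m p
    apply fn_inj
    obtain ⟨z, β⟩ := p
    show (FM.fn (i.app m z) + FM.fn ((SSet.yonedaEquiv.symm c).app m β)).mapRange md md.map_zero =
      FM.fn ((SSet.yonedaEquiv.symm b).app m β)
    rw [Finsupp.mapRange_add md.map_add, hi]
    have e1 : (FM.fn z).mapRange md md.map_zero = 0 := by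
      ext1 x
      rw [Finsupp.mapRange_apply]
      exact md_Nd _ (z.2.2 x (fun h => h))
    rw [e1, zero_add, ← hpc, ← SSet.yonedaEquiv_symm_comp]
    rfl
  · intro m a ha e he
    obtain ⟨s, hs⟩ := epi_inj a ha
    have hinj : Function.Injective (X.map a.op) :=
      Function.LeftInverse.injective (map_inj (X := X) a s hs)
    -- the values
    have hac : ∀ x, FM.fn ((FM Qd Nd Y W Z).map a.op c) x = sec (md (FM.fn e x)) := by
      intro x
      have h1 : md (FM.fn e x) =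
          ((FM.fn b).mapDomain (X.map a.op)).filter (fun x => x ∉ Z.obj (op ⦋m⦌)) x := by
        have h2 := congrArg (fun f => FM.fn f x) he
        exact h2
      rw [h1]
      show (((FM.fn b).mapRange sec sec_zero).mapDomain (X.map a.op)).filter
        (fun x => x ∉ Z.obj (op ⦋m⦌)) x = _
      rw [Finsupp.filter_apply, Finsupp.filter_apply]
      by_cases hx : x ∉ Z.obj (op ⦋m⦌)
      · rw [if_pos hx, if_pos hx]
        by_cases hr : x ∈ Set.range (X.map a.op)
        · obtain ⟨y, rfl⟩ := hr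
          rw [Finsupp.mapDomain_apply hinj, Finsupp.mapDomain_apply hinj, Finsupp.mapRange_apply]
        · rw [Finsupp.mapDomain_of_notMem_range _ _ hr, Finsupp.mapDomain_of_notMem_range _ _ hr, sec_zero]
      · rw [if_neg hx, if_neg hx, sec_zero]
    have hval : ∀ z : (FM Qd Nd ⊥ W Z).obj (op ⦋m⦌), ∀ x,
        FM.fn (((i ⊗ₘ SSet.yonedaEquiv.symm c) ≫ addm Nd Y W Z).app (op ⦋m⦌)
          ((z, SSet.stdSimplex.objEquiv.symm a) :
            (FM Qd Nd ⊥ W Z ⊗ Δ[n]).obj (op ⦋m⦌))) x =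
        FM.fn z x + sec (md (FM.fn e x)) := by
      intro z x
      rw [← hac]
      show FM.fn (i.app _ z) x + FM.fn ((SSet.yonedaEquiv.symm c).app (op ⦋m⦌)
        (SSet.stdSimplex.objEquiv.symm a)) x = _
      rw [hi]
      rfl
    refine ⟨⟨(FM.fn e).mapRange fl fl_zero, ?_, ?_⟩, ?_, ?_⟩
    · intro x hx
      rw [Finsupp.mapRange_apply] at hx
      exact e.2.1 x (fun h0 => hx (by
        show fl (FM.fn e x) = 0
        rw [show FM.fn e x = 0 from h0, fl_zero]))
    · intro x _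
      rw [Finsupp.mapRange_apply]
      exact fl_mem _
    · apply fn_inj
      ext1 x
      refine (hval _ x).trans ?_
      show (FM.fn e).mapRange fl fl_zero x + _ = _
      rw [Finsupp.mapRange_apply]
      exact fl_add _
    · intro z hz
      apply fn_inj
      ext1 x
      have h2 := hval z x
      rw [hz] at h2
      show FM.fn z x = (FM.fn e).mapRange fl fl_zero x
      rw [Finsupp.mapRange_apply]
      apply Qd_cancel (c := sec (md (FM.fn e x)))
      rw [← h2, fl_add]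

end Pool.Agent.SH
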