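import Pool.Agent.SH.StmtsN

/-!
# MP_2d0b73_an, Part III-N: quotients by free involutions
-/

set_option autoImplicit false

open CategoryTheory MonoidalCategory CartesianMonoidalCategory Simplicial Opposite

namespace Pool.Agent.SH.NInv

/-- The group of order two. -/
abbrev G2 : Type := Multiplicative (ZMod 2)

theorem G2_cases (g : G2) : g = 1 ∨ g = Multiplicative.ofAdd (1 : ZMod 2) := by
  revert g
  decide

theorem ofAdd_ne : (Multiplicative.ofAdd (1 : ZMod 2) : G2) ≠ 1 := by decide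

theorem ofAdd_mul : (Multiplicative.ofAdd (1 : ZMod 2) : G2) *
    Multiplicative.ofAdd (1 : ZMod 2) = 1 := by decide

/-- The action given by an involution. -/
def invAct (W : SSet.{0}) (τ : W ⟶ W) (hτ : τ ≫ τ = 𝟙 W) : Act G2 W where
  act g := if g = 1 then 𝟙 W else τ
  one := if_pos rfl
  mul g h := by
    rcases G2_cases g with rfl | rfl <;> rcases G2_cases h with rfl | rfl
    · rw [mul_one, if_pos rfl, Category.comp_id]
    · rw [one_mul, if_neg ofAdd_ne, if_pos rfl, Category.comp_id]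
    · rw [mul_one, if_neg ofAdd_ne, if_pos rfl, Category.id_comp]
    · rw [ofAdd_mul, if_pos rfl, if_neg ofAdd_ne, hτ]

theorem invAct_ap_one (W : SSet.{0}) (τ : W ⟶ W) (hτ : τ ≫ τ = 𝟙 W)
    {n : SimplexCategoryᵒᵖ} (x : W.obj n) : (invAct W τ hτ).ap 1 x = x :=
  (invAct W τ hτ).ap_one x

theorem invAct_ap (W : SSet.{0}) (τ : W ⟶ W) (hτ : τ ≫ τ = 𝟙 W)
    {n : SimplexCategoryᵒᵖ} (x : W.obj n) :
    (invAct W τ hτ).ap (Multiplicative.ofAdd (1 : ZMod 2)) x = τ.app n x := by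
  have h : (invAct W τ hτ).act (Multiplicative.ofAdd (1 : ZMod 2)) = τ := by
    change (if (Multiplicative.ofAdd (1 : ZMod 2) : G2) = 1 then 𝟙 W else τ) = τ
    rw [if_neg ofAdd_ne]
  rw [Act.ap, h]

theorem invAct_orbit (W : SSet.{0}) (τ : W ⟶ W) (hτ : τ ≫ τ = 𝟙 W)
    {n : SimplexCategoryᵒᵖ} (x y : W.obj n) :
    (∃ g, (invAct W τ hτ).ap g x = y) ↔ y = x ∨ y = τ.app n x := by
  constructor
  · rintro ⟨g, hg⟩
    rcases G2_cases g with rfl | rfl
    · rw [invAct_ap_one] at hg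
      exact Or.inl hg.symm
    · rw [invAct_ap] at hg
      exact Or.inr hg.symm
  · rintro (h | h)
    · exact ⟨1, by rw [invAct_ap_one, h]⟩
    · exact ⟨_, by rw [invAct_ap, h]⟩

theorem invAct_free (W : SSet.{0}) (τ : W ⟶ W) (hτ : τ ≫ τ = 𝟙 W)
    (h : ∀ (n : SimplexCategoryᵒᵖ) (x : W.obj n), τ.app n x ≠ x) : (invAct W τ hτ).Free := by
  intro n x g hg
  rcases G2_cases g with rfl | rfl
  · rfl
  · rw [invAct_ap] at hg
    exact absurd hg (h n x)

/-- The negation. -/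
def neg : EE Bool ⟶ EE Bool where
  app n := TypeCat.ofHom (fun (x : Fin (n.unop.len + 1) → Bool) i => !(x i))

theorem neg_neg : neg ≫ neg = 𝟙 (EE Bool) := by
  ext n x
  funext i
  change (!(!(x i))) = x i
  simp

theorem neg_ne (n : SimplexCategoryᵒᵖ) (x : (EE Bool).obj n) : neg.app n x ≠ x := by
  intro h
  have h0 := congrFun h (0 : Fin (n.unop.len + 1))
  change (!(x 0)) = x 0 at h0
  simp at h0

end Pool.Agent.SH.NInv

namespace Pool.Agent.SH

theorem n_inv (h1 : N_QEX_Stmt) (h2 : N_QDESC_Stmt) (h3 : N_EE_Stmt) (h4 : N_QPROJ_Stmt) :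
    N_INV_Stmt := by
  intro P hP hB V V' τ q hτ hfree hsurj hfib hV
  let a1 := NInv.invAct V τ hτ
  let a2 := NInv.invAct (EE Bool) NInv.neg NInv.neg_neg
  have f1 : a1.Free := NInv.invAct_free V τ hτ hfree
  have f2 : a2.Free := NInv.invAct_free (EE Bool) NInv.neg NInv.neg_neg NInv.neg_ne
  have q1 : IsQuo a1 q := ⟨hsurj, fun n x y => by
    rw [hfib, NInv.invAct_orbit]⟩
  obtain ⟨Q, qQ, hQ⟩ := h1 NInv.G2 (V ⊗ EE Bool) (a1.prod a2)
  obtain ⟨B, qB, hqB⟩ := h1 NInv.G2 (EE Bool) a2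
  have hAB : Acy P B := by
    apply hB B qB hqB.surj
    intro n x y
    rw [hqB.fib n x y]
    exact NInv.invAct_orbit (EE Bool) NInv.neg NInv.neg_neg x y
  have inv1 : ∀ g, a1.act g ≫ q = q := by
    intro g
    ext n x
    change q.app n (a1.ap g x) = q.app n x
    exact ((q1.fib n x (a1.ap g x)).2 ⟨g, rfl⟩).symm
  have inv2 : ∀ g, a2.act g ≫ qB = qB := by
    intro g
    ext n x
    change qB.app n (a2.ap g x) = qB.app n x
    exact ((hqB.fib n x (a2.ap g x)).2 ⟨g, rfl⟩).symm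
  obtain ⟨π1, hπ1⟩ := (h2 NInv.G2 (V ⊗ EE Bool) Q V' (a1.prod a2) qQ hQ).1
    (fst V (EE Bool) ≫ q) (by
      intro g
      change (a1.act g ⊗ₘ a2.act g) ≫ fst V (EE Bool) ≫ q = _
      rw [← Category.assoc, CartesianMonoidalCategory.tensorHom_fst, Category.assoc, inv1])
  obtain ⟨π2, hπ2⟩ := (h2 NInv.G2 (V ⊗ EE Bool) Q B (a1.prod a2) qQ hQ).1
    (snd V (EE Bool) ≫ qB) (by
      intro g
      change (a1.act g ⊗ₘ a2.act g) ≫ snd V (EE Bool) ≫ qB = _
      rw [← Category.assoc, CartesianMonoidalCategory.tensorHom_snd, Category.assoc, inv2])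
  have hp := h4 P hP NInv.G2 V (EE Bool) a1 a2 Q qQ hQ
  have hP1 : P π1 := hp.1 V' q π1 f1 q1 hπ1 (h3 P hP Bool ⟨true⟩)
  have hP2 : P π2 := hp.2 B qB π2 f2 hqB hπ2 hV
  have hAQ : P (toUnit Q) := by
    have h := hP.comp _ _ hP2 hAB
    rwa [comp_toUnit] at h
  have h := hP.cancelL π1 (toUnit V') hP1 (by rw [comp_toUnit]; exact hAQ)
  exact h

end Pool.Agent.SH
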