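import Pool.Agent.SH.StmtsN

/-!
# MP_2d0b73_an, part III-N, NN: the free commutative monoid on the sphere of dimension two
-/

set_option autoImplicit false

open CategoryTheory MonoidalCategory CartesianMonoidalCategory Simplicial Opposite

namespace Pool.Agent.SH

namespace NNn

variable {P : MorphismProperty SSet.{0}}

theorem acy_of_map (hP : WClass P) {X Y : SSet.{0}} (f : X ⟶ Y) (hf : P f) (hY : Acy P Y) :
    Acy P X := by
  have e : toUnit X = f ≫ toUnit Y := toUnit_unique _ _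
  unfold Acy
  rw [e]
  exact hP.comp f _ hf hY

theorem acy_of_map' (hP : WClass P) {X Y : SSet.{0}} (f : X ⟶ Y) (hf : P f) (hX : Acy P X) :
    Acy P Y := by
  have e : toUnit X = f ≫ toUnit Y := toUnit_unique _ _
  unfold Acy at hX
  rw [e] at hX
  exact hP.cancelL f _ hf hX

theorem NOs_mono {S : Type} [PartialOrder S] {U V : Set S} (h : U ⊆ V) : NOs U ≤ NOs V :=
  fun _ _ hx i => h (hx i)

theorem UZ_sub (e : Bool) : UZ ⊆ UC e := by
  intro x hx h
  rw [show x = 0 from hx, Sph.zero_def] at h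
  exact absurd h (by decide)

theorem US_sub (e : Bool) : US ⊆ UC e := fun _ hx h => absurd h hx

theorem UZ_sub_US : UZ ⊆ US := by
  intro x hx
  rw [show x = 0 from hx, Sph.zero_def]
  show (0 : Fin 3) ≠ Fin.last 2
  decide

theorem key (n : SimplexCategoryᵒᵖ) (x : Fin (n.unop.len + 1) →o Sph 2) :
    ((∀ i, x i ∈ UC true) ∧ ¬ ∀ i, x i ∈ US) ↔ ¬ ∀ i, x i ∈ UC false := by
  constructor
  · rintro ⟨h1, h2⟩ h3
    apply h2
    intro i hi
    have h4 := h1 i hi
    have h5 := h3 i hi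
    rw [h4] at h5
    exact absurd h5 (by decide)
  · intro h
    rw [not_forall] at h
    obtain ⟨i, hi⟩ := h
    have hi' : ¬ ((x i).lev = Fin.last 2 → (x i).sgn = false) := hi
    rw [Classical.not_imp] at hi'
    obtain ⟨h1, h2⟩ := hi'
    have h3 : (x i).sgn = true := by
      cases h4 : (x i).sgn with
      | false => exact absurd h4 h2
      | true => rfl
    refine ⟨?_, fun h4 => h4 i h1⟩
    intro j hj
    have h5 : x j = x i := by
      rcases le_total i j with h | h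
      · rcases x.monotone h with h6 | h6
        · rw [h1, hj] at h6
          exact absurd h6 (lt_irrefl _)
        · exact h6.symm
      · rcases x.monotone h with h6 | h6
        · rw [h1, hj] at h6
          exact absurd h6 (lt_irrefl _)
        · exact h6
    rw [h5]
    exact h3

end NNn

open NNn in
theorem n_nn (h1 : N_COEF_Stmt) (h2 : N_FMC_Stmt) (h3 : N_FMD_Stmt) (h4 : N_EXC_Stmt)
    (h5 : N_CONE_Stmt) (h6 : N_QY_Stmt) (h7 : N_DY_Stmt) : N_NN_Stmt := by
  intro P hP hAc hB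
  obtain ⟨e0⟩ := h1 (NO (Sph 2)) ⊤ (NOs UZ)
  refine acy_of_map hP e0.hom (hP.iso _ inferInstance) ?_
  -- (d)
  have eC : NOs (UC true) ⊓ NOs US = NOs US := inf_eq_right.2 (NOs_mono (US_sub true))
  have hd : Acy P (FM Qd Nd (NOs US) (NOs (UC true)) (NOs UZ)) := by
    refine acy_of_map hP _ (h3 P hP _ (NOs US) (NOs (UC true)) (NOs UZ) (h5 P hP Qd Nd true)) ?_
    rw [eC]
    exact h7 P hP hB
  -- (c)
  have hc : Acy P (FM Qd Nd (NOs US) (NOs (UC true)) (NOs US)) := by
    refine acy_of_map' hP _ (h2 P hP Qd Nd _ (NOs US) (NOs (UC true)) (NOs UZ) (NOs US)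
      (NOs_mono UZ_sub_US) ?_) hd
    rw [eC]
    exact hAc _ h6
  -- (b)
  have i1 := h4 Qd Nd (NO (Sph 2)) ⊥ (NOs US) (NOs (UC true)) (NOs (UC true)) (NOs US) (NOs US)
    bot_le le_rfl le_rfl (fun n x => Iff.rfl) (fun n x _ h => ⟨fun h' => h'.elim, fun h' => absurd h' h⟩)
  have hb1 : Acy P (FM Qd Nd (⊥ : (NO (Sph 2)).Subcomplex) (NOs (UC true)) (NOs US)) :=
    acy_of_map hP _ (hP.iso _ i1) hc
  have i2 := h4 Qd Nd (NO (Sph 2)) ⊥ ⊥ (NOs (UC true)) ⊤ (NOs US) (NOs (UC false))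
    le_rfl le_top (NOs_mono (US_sub false)) (fun n x => (key n x).trans (by
      constructor
      · intro h
        exact ⟨trivial, h⟩
      · intro h
        exact h.2)) (fun n x _ _ => Iff.rfl)
  have hb2 : Acy P (FM Qd Nd (⊥ : (NO (Sph 2)).Subcomplex) ⊤ (NOs (UC false))) :=
    acy_of_map' hP _ (hP.iso _ i2) hb1
  -- (a)
  refine acy_of_map hP _ (h2 P hP Qd Nd _ ⊥ ⊤ (NOs UZ) (NOs (UC false))
    (NOs_mono (UZ_sub false)) ?_) hb2
  rw [top_inf_eq]
  exact h5 P hP Qd Nd false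

end Pool.Agent.SH
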