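import Pool.Agent.SH.StmtsN

/-!
# (F7a) comparable order preserving maps induce homotopic maps of nerves
-/

set_option autoImplicit false

open CategoryTheory MonoidalCategory CartesianMonoidalCategory Simplicial Opposite

namespace Pool.Agent.SH

namespace NNoh

/-- The order preserving map of a simplex of `Δ[1]`. -/
noncomputable def tt {n : SimplexCategoryᵒᵖ} (t : (Δ[1] : SSet.{0}).obj n) :
    Fin (n.unop.len + 1) →o Fin 2 := (SSet.stdSimplex.objEquiv t).toOrderHom

theorem tt_map {n m : SimplexCategoryᵒᵖ} (θ : n ⟶ m) (t : (Δ[1] : SSet.{0}).obj n)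
    (i : Fin (m.unop.len + 1)) :
    tt ((Δ[1] : SSet.{0}).map θ t) i = tt t (θ.unop.toOrderHom i) := rfl

theorem tt_zero {X : SSet.{0}} {n : SimplexCategoryᵒᵖ} (x : X.obj n)
    (i : Fin (n.unop.len + 1)) : tt ((SSet.ι₀ (X := X)).app n x).2 i = 0 := rfl

theorem tt_one {X : SSet.{0}} {n : SimplexCategoryᵒᵖ} (x : X.obj n)
    (i : Fin (n.unop.len + 1)) : tt ((SSet.ι₁ (X := X)).app n x).2 i = 1 := rfl

variable {S S' : Type} [PartialOrder S] [PartialOrder S']

/-- The interpolation of `f ≤ g` along `t`. -/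
def mix (f g : S →o S') (h : f ≤ g) {n : ℕ} (x : Fin (n + 1) →o S) (t : Fin (n + 1) →o Fin 2) :
    Fin (n + 1) →o S' where
  toFun k := if t k = 0 then f (x k) else g (x k)
  monotone' a b hab := by
    by_cases hb : t b = 0
    · have ha : t a = 0 := by
        have h1 := t.monotone hab
        rw [hb] at h1
        exact le_antisymm h1 (Fin.zero_le _)
      show (if t a = 0 then f (x a) else g (x a)) ≤ (if t b = 0 then f (x b) else g (x b))
      rw [if_pos ha, if_pos hb]
      exact f.monotone (x.monotone hab)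
    · show (if t a = 0 then f (x a) else g (x a)) ≤ (if t b = 0 then f (x b) else g (x b))
      rw [if_neg hb]
      split_ifs
      · exact (h (x a)).trans (g.monotone (x.monotone hab))
      · exact g.monotone (x.monotone hab)

/-- The homotopy. -/
noncomputable def hty (f g : S →o S') (h : f ≤ g) : NO S ⊗ Δ[1] ⟶ NO S' where
  app n := TypeCat.ofHom (fun z => mix f g h z.1 (tt z.2))
  naturality n m θ := by
    ext z
    rfl

end NNoh

theorem n_noh : N_NOH_Stmt := by
  intro S S' _ _ f g h
  refine ⟨NNoh.hty f g h, ?_, ?_, ?_⟩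
  · ext n (x : Fin (n.unop.len + 1) →o S)
    refine OrderHom.ext _ _ (funext fun i => ?_)
    show (if NNoh.tt ((SSet.ι₀ (X := NO S)).app n x).2 i = 0 then f (x i) else g (x i)) = f (x i)
    rw [NNoh.tt_zero, if_pos rfl]
  · ext n (x : Fin (n.unop.len + 1) →o S)
    refine OrderHom.ext _ _ (funext fun i => ?_)
    show (if NNoh.tt ((SSet.ι₁ (X := NO S)).app n x).2 i = 0 then f (x i) else g (x i)) = g (x i)
    rw [NNoh.tt_one, if_neg (by decide)]
  · rintro n x t y hy i
    subst hy
    show (if NNoh.tt t i = 0 then f (x i) else g (x i)) = _ ∨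
      (if NNoh.tt t i = 0 then f (x i) else g (x i)) = _
    by_cases hc : NNoh.tt t i = 0
    · left
      rw [if_pos hc]
    · right
      rw [if_neg hc]

end Pool.Agent.SH
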