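import Pool.Agent.SH.StmtsN
import Pool.Agent.SH.StmtsTE

/-!
# MP_2d0b73_an, Part III-N: the open fibres of `(W × Y) / G ⟶ Y / G`
-/

set_option autoImplicit false

open CategoryTheory MonoidalCategory CartesianMonoidalCategory Simplicial Opposite

namespace Pool.Agent.SH

namespace NOrb

/-- The trivial action. -/
def triv (G : Type) [Group G] (W : SSet.{0}) : Act G W where
  act _ := 𝟙 W
  one := rfl
  mul _ _ := (Category.comp_id _).symm

theorem quo_whisker {G : Type} [Group G] {W V : SSet.{0}} {a : Act G W} {p : W ⟶ V}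
    (h : IsQuo a p) (D : SSet.{0}) : IsQuo (a.prod (triv G D)) (p ▷ D) where
  surj n := by
    rintro ⟨v, t⟩
    obtain ⟨w, hw⟩ := h.surj n v
    exact ⟨(w, t), Prod.ext hw rfl⟩
  fib n := by
    rintro ⟨x, t⟩ ⟨y, u⟩
    constructor
    · intro e
      have e1 : p.app n x = p.app n y := congrArg Prod.fst e
      have e2 : t = u := congrArg Prod.snd e
      obtain ⟨g, hg⟩ := (h.fib n x y).1 e1
      exact ⟨g, Prod.ext hg e2⟩
    · rintro ⟨g, hg⟩
      have e1 : a.ap g x = y := congrArg Prod.fst hg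
      have e2 : t = u := congrArg Prod.snd hg
      exact Prod.ext ((h.fib n x y).2 ⟨g, e1⟩) e2

theorem map_injective (Y : SSet.{0}) {m n : ℕ} (α : ⦋m⦌ ⟶ ⦋n⦌) (hα : Epi α) :
    Function.Injective (Y.map α.op) := by
  have hs : IsSplitEpi α := isSplitEpi_of_epi α
  intro x y hxy
  have key : ∀ z : Y _⦋n⦌, Y.map (section_ α).op (Y.map α.op z) = z := by
    intro z
    have : Y.map α.op ≫ Y.map (section_ α).op = 𝟙 _ := by
      rw [← Functor.map_comp, ← op_comp, IsSplitEpi.id, op_id, CategoryTheory.Functor.map_id]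
    exact ConcreteCategory.congr_hom this z
  rw [← key x, ← key y, hxy]

end NOrb

open NOrb in
theorem n_orb (h1 : WC_OPEN_Stmt) (h2 : N_QEX_Stmt) (h3 : N_QDESC_Stmt) : N_ORB_Stmt := by
  intro P hP G _ W Y a b E B q r π ha hq hr hqr hst
  refine h1 P hP E B π ?_
  intro n b0 _
  obtain ⟨y, hy⟩ := hr.surj (op ⦋n⦌) b0
  obtain ⟨F, p, hp⟩ := h2 (b.stab y) W (a.restr (b.stab y))
  have hw := quo_whisker hp (Δ[n] : SSet.{0})
  let yh : (Δ[n] : SSet.{0}) ⟶ Y := SSet.yonedaEquiv.symm y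
  have hyh : ∀ (m : ℕ) (α : ⦋m⦌ ⟶ ⦋n⦌),
      yh.app (op ⦋m⦌) (SSet.stdSimplex.objEquiv.symm α) = Y.map α.op y := by
    intro m α
    rfl
  let g0 : W ⊗ (Δ[n] : SSet.{0}) ⟶ E := W ◁ yh ≫ q
  have hinv : ∀ g, ((a.restr (b.stab y)).prod (triv (b.stab y) (Δ[n] : SSet.{0}))).act g ≫ g0 =
      g0 := by
    intro g
    apply NatTrans.ext
    funext k
    refine ConcreteCategory.hom_ext _ _ ?_
    rintro ⟨w, t⟩
    change q.app k (a.ap (g : G) w, yh.app k t) = q.app k (w, yh.app k t)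
    symm
    refine (hq.fib k _ _).2 ⟨g, ?_⟩
    refine Prod.ext rfl ?_
    change b.ap (g : G) (yh.app k t) = yh.app k t
    obtain ⟨k⟩ := k
    induction k using SimplexCategory.rec with | _ m
    obtain ⟨α, rfl⟩ := SSet.stdSimplex.objEquiv.symm.surjective t
    have e1 : yh.app (op ⦋m⦌) (SSet.stdSimplex.objEquiv.symm α) = Y.map α.op y := hyh m α
    rw [e1, b.ap_map]
    exact congrArg (Y.map α.op) g.2
  obtain ⟨φ, hφ⟩ := (h3 (b.stab y) _ _ E _ _ hw).1 g0 hinv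
  have hφ' : ∀ (k : SimplexCategoryᵒᵖ) (w : W.obj k) (t : (Δ[n] : SSet.{0}).obj k),
      φ.app k (p.app k w, t) = q.app k (w, yh.app k t) := by
    intro k w t
    let z : (W ⊗ (Δ[n] : SSet.{0})).obj k := (w, t)
    exact ConcreteCategory.congr_hom (C := Type) (NatTrans.congr_app hφ k) z
  refine ⟨F, φ, hst (op ⦋n⦌) y F p hp, ?_, ?_⟩
  · refine (h3 (b.stab y) _ _ B _ _ hw).2 _ _ ?_
    rw [← Category.assoc, hφ]
    change (W ◁ yh ≫ q) ≫ π = _
    rw [Category.assoc, hqr, whiskerLeft_snd_assoc, whiskerRight_snd_assoc]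
    congr 1
    apply NatTrans.ext
    funext k
    refine ConcreteCategory.hom_ext _ _ ?_
    intro t
    obtain ⟨k⟩ := k
    induction k using SimplexCategory.rec with | _ m
    obtain ⟨α, rfl⟩ := SSet.stdSimplex.objEquiv.symm.surjective t
    change r.app (op ⦋m⦌) (Y.map α.op y) = B.map α.op b0
    rw [← hy]
    exact NatTrans.naturality_apply r α.op y
  · intro m α hα e he
    obtain ⟨⟨w', y'⟩, rfl⟩ := hq.surj (op ⦋m⦌) e
    let z : (W ⊗ Y) _⦋m⦌ := (w', y')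
    have e1 : π.app (op ⦋m⦌) (q.app (op ⦋m⦌) (w', y')) = r.app (op ⦋m⦌) y' :=
      ConcreteCategory.congr_hom (C := Type) (NatTrans.congr_app hqr (op ⦋m⦌)) z
    have e2 : B.map α.op b0 = r.app (op ⦋m⦌) (Y.map α.op y) := by
      rw [← hy]
      exact (NatTrans.naturality_apply r α.op y).symm
    rw [e1, e2] at he
    obtain ⟨g, hg⟩ := (hr.fib _ _ _).1 he
    have e3 : q.app (op ⦋m⦌) (w', y') = q.app (op ⦋m⦌) (a.ap g w', Y.map α.op y) :=
      (hq.fib _ _ _).2 ⟨g, Prod.ext rfl hg⟩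
    refine ⟨p.app (op ⦋m⦌) (a.ap g w'), ?_, ?_⟩
    · change φ.app (op ⦋m⦌) (p.app (op ⦋m⦌) (a.ap g w'), SSet.stdSimplex.objEquiv.symm α) = _
      rw [hφ', hyh, e3]
    · intro f hf
      obtain ⟨w'', rfl⟩ := hp.surj (op ⦋m⦌) f
      change φ.app (op ⦋m⦌) (p.app (op ⦋m⦌) w'', SSet.stdSimplex.objEquiv.symm α) = _ at hf
      rw [hφ', hyh, e3] at hf
      obtain ⟨g', hg'⟩ := (hq.fib _ _ _).1 hf
      have e4 : a.ap g' w'' = a.ap g w' := congrArg Prod.fst hg'
      have e5 : b.ap g' (Y.map α.op y) = Y.map α.op y := congrArg Prod.snd hg'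
      rw [b.ap_map] at e5
      have e6 : b.ap g' y = y := map_injective Y α hα e5
      exact (hp.fib _ _ _).2 ⟨⟨g', e6⟩, e4⟩

end Pool.Agent.SH
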