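import Pool.Agent.SH.StmtsN

/-!
# MP_2d0b73_an, Part III-N: contractible pairs of posets (F7)
-/

set_option autoImplicit false

open CategoryTheory MonoidalCategory CartesianMonoidalCategory Simplicial Opposite

namespace Pool.Agent.SH

namespace NPctr

theorem acy_iso {P : MorphismProperty SSet.{0}} (hP : WClass P) {X X' : SSet.{0}} (e : X ≅ X')
    (h : Acy P X) : Acy P X' := by
  have h1 : e.inv ≫ toUnit X = toUnit X' := toUnit_unique _ _
  rw [Acy, ← h1]
  exact hP.comp _ _ (hP.iso _ inferInstance) h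

/-- The inclusion of a part of a poset. -/
def inc {S : Type} [PartialOrder S] (U : Set S) : U →o S where
  toFun x := x.1
  monotone' _ _ h := h

theorem mono_inc {S : Type} [PartialOrder S] (U : Set S) : Mono (NOmap (inc U)) := by
  have : ∀ n, Mono ((NOmap (inc U)).app n) := by
    intro n
    rw [CategoryTheory.mono_iff_injective]
    intro x y h
    apply OrderHom.ext
    funext k
    apply Subtype.ext
    have h' : (inc U).comp x = (inc U).comp y := h
    exact congrArg (fun z : Fin (n.unop.len + 1) →o S => z k) h'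
  exact NatTrans.mono_of_mono_app _

theorem range_inc {S : Type} [PartialOrder S] (U : Set S) :
    SSet.Subcomplex.range (NOmap (inc U)) = NOs U := by
  ext n x
  constructor
  · rintro ⟨y, rfl⟩ k
    exact (DFunLike.coe (F := Fin (n.unop.len + 1) →o U) y k).2
  · intro hx
    exact ⟨(⟨fun k => ⟨DFunLike.coe (F := Fin (n.unop.len + 1) →o S) x k, hx k⟩,
      fun a b h => OrderHom.monotone (α := Fin (n.unop.len + 1)) (β := S) x h⟩ :
      Fin (n.unop.len + 1) →o U), rfl⟩

theorem step (h3 : N_NOH_Stmt) {S : Type} [PartialOrder S] (U E : Set S)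
    (Y : (NO S).Subcomplex) (hY : Y = ⊥ ∨ Y = ⊤) (g g' : U →o U) (hle : g ≤ g')
    (hE : ∀ x : U, (x : S) ∈ E → ((g x : U) : S) ∈ E ∧ ((g' x : U) : S) ∈ E) :
    PHty (Y.preimage (NOmap (inc U))) ((NOs E).preimage (NOmap (inc U))) (NOmap g)
      (NOmap g') := by
  obtain ⟨h, h0, h1, hv⟩ := h3 U U g g' hle
  refine ⟨h, h0, h1, fun n x t => ⟨fun hx => ?_, fun hx k => ?_⟩⟩
  · rcases hY with rfl | rfl
    · exact absurd hx (fun h => h)
    · trivial
  · have hxk : ((DFunLike.coe (F := Fin (n.unop.len + 1) →o U) x k : U) : S) ∈ E := hx k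
    have hy := hv n x t (h.app n (x, t)) rfl k
    show ((DFunLike.coe (F := Fin (n.unop.len + 1) →o U) (h.app n (x, t)) k : U) : S) ∈ E
    rcases hy with hy | hy
    · rw [hy]
      exact (hE _ hxk).1
    · rw [hy]
      exact (hE _ hxk).2

end NPctr

/-- (F7) contractible pairs of posets. -/
theorem n_pctr (h1 : N_CTR_Stmt) (h2 : N_RES_Stmt) (h3 : N_NOH_Stmt) : N_PCTR_Stmt := by
  intro P hP A _ A₀ S _ U E f hf hfE Y hY
  have hmono := NPctr.mono_inc U
  obtain ⟨e⟩ := h2 A A₀ (NO S) (NO U) (NOmap (NPctr.inc U)) Y (NOs E) hmono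
  rw [NPctr.range_inc] at e
  refine NPctr.acy_iso hP e ?_
  have key : ∀ a b : U →o U, Relation.EqvGen (fun g g' : U →o U => g ≤ g' ∧
      ∀ x : U, (x : S) ∈ E → ((g x : U) : S) ∈ E ∧ ((g' x : U) : S) ∈ E) a b →
      Relation.EqvGen (PHty (Y.preimage (NOmap (NPctr.inc U)))
        ((NOs E).preimage (NOmap (NPctr.inc U)))) (NOmap a) (NOmap b) := by
    intro a b h
    induction h with
    | rel a b h => exact .rel _ _ (NPctr.step h3 U E Y hY a b h.1 h.2)
    | refl a => exact .refl _
    | symm a b _ ih => exact .symm _ _ ih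
    | trans a b c _ _ ih1 ih2 => exact .trans _ _ _ ih1 ih2
  refine h1 P hP A A₀ (NO U) _ _ (NOmap f) (key _ _ hf) ?_
  rintro n _ ⟨x, rfl⟩ k
  exact hfE (DFunLike.coe (F := Fin (n.unop.len + 1) →o U) x k)

end Pool.Agent.SH
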