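import Pool.Agent.SH.StmtsN

/-!
# MP_2d0b73_an, Part III-N: quotients of simplicial sets by group actions (N1, N2)
-/

set_option autoImplicit false

open CategoryTheory MonoidalCategory CartesianMonoidalCategory Simplicial Opposite

namespace Pool.Agent.SH

namespace NQex

variable {G : Type} [Group G] {W : SSet.{0}} (a : Act G W)

/-- the orbit relation -/
def st (n : SimplexCategoryᵒᵖ) : Setoid (W.obj n) where
  r x y := ∃ g, a.ap g x = y
  iseqv := ⟨fun x => ⟨1, a.ap_one x⟩,
    fun {x y} h => by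
      obtain ⟨g, h⟩ := h
      exact ⟨g⁻¹, by rw [← h, ← a.ap_mul, inv_mul_cancel, a.ap_one]⟩,
    fun {x y z} h h' => by
      obtain ⟨g, h⟩ := h
      obtain ⟨g', h'⟩ := h'
      exact ⟨g' * g, by rw [a.ap_mul, h, h']⟩⟩

/-- the operators on orbits -/
def op {n m : SimplexCategoryᵒᵖ} (θ : n ⟶ m) : Quotient (st a n) → Quotient (st a m) :=
  Quotient.map (fun x => W.map θ x) (by
    rintro x y ⟨g, h⟩
    exact ⟨g, by rw [a.ap_map, h]⟩)

/-- the quotient -/
def QQ : SSet.{0} where
  obj n := Quotient (st a n)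
  map θ := TypeCat.ofHom (op a θ)
  map_id n := by
    refine ConcreteCategory.hom_ext _ _ fun x => ?_
    obtain ⟨x, rfl⟩ := Quotient.exists_rep x
    show (Quotient.mk (st a n) (W.map (𝟙 n) x) : Quotient (st a n)) = Quotient.mk (st a n) x
    rw [W.map_id]
    rfl
  map_comp {n m k} θ η := by
    refine ConcreteCategory.hom_ext _ _ fun x => ?_
    obtain ⟨x, rfl⟩ := Quotient.exists_rep x
    show (Quotient.mk (st a k) (W.map (θ ≫ η) x) : Quotient (st a k)) =
      Quotient.mk (st a k) (W.map η (W.map θ x))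
    rw [W.map_comp]
    rfl

/-- the projection -/
def qq : W ⟶ QQ a where
  app n := TypeCat.ofHom (fun x => Quotient.mk (st a n) x)
  naturality _ _ _ := rfl

theorem isQuo : IsQuo a (qq a) where
  surj _ := fun x => Quotient.exists_rep x
  fib _ _ _ := ⟨fun h => Quotient.exact h, fun h => Quotient.sound h⟩

end NQex

theorem n_qex : N_QEX_Stmt := fun _ _ _ a => ⟨NQex.QQ a, NQex.qq a, NQex.isQuo a⟩

theorem n_qdesc : N_QDESC_Stmt := by
  intro G _ W V U a q hq
  refine ⟨fun f hf => ?_, fun f g h => ?_⟩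
  · have hinv : ∀ (n : SimplexCategoryᵒᵖ) (g : G) (x : W.obj n), f.app n (a.ap g x) = f.app n x := by
      intro n g x
      have h1 := congrArg (fun φ : W ⟶ U => φ.app n x) (hf g)
      exact h1
    have hwd : ∀ (n : SimplexCategoryᵒᵖ) (x y : W.obj n), q.app n x = q.app n y →
        f.app n x = f.app n y := by
      intro n x y h
      obtain ⟨g, rfl⟩ := (hq.fib n x y).1 h
      exact (hinv n g x).symm
    let F : ∀ n : SimplexCategoryᵒᵖ, V.obj n → U.obj n := fun n v =>
      f.app n (Function.surjInv (hq.surj n) v)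
    have hF : ∀ (n : SimplexCategoryᵒᵖ) (x : W.obj n), F n (q.app n x) = f.app n x := fun n x =>
      hwd n _ _ (Function.surjInv_eq (hq.surj n) (q.app n x))
    refine ⟨{ app := fun n => TypeCat.ofHom (F n), naturality := ?_ }, ?_⟩
    · intro n m θ
      refine ConcreteCategory.hom_ext _ _ fun v => ?_
      obtain ⟨x, rfl⟩ := hq.surj n v
      show F m (V.map θ (q.app n x)) = U.map θ (F n (q.app n x))
      rw [hF, ← NatTrans.naturality_apply q θ x, hF, NatTrans.naturality_apply f θ x]
    · refine NatTrans.ext (funext fun n => ConcreteCategory.hom_ext _ _ fun x => ?_)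
      exact hF n x
  · refine NatTrans.ext (funext fun n => ConcreteCategory.hom_ext _ _ fun v => ?_)
    obtain ⟨x, rfl⟩ := hq.surj n v
    exact congrArg (fun φ : W ⟶ U => φ.app n x) h

end Pool.Agent.SH
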