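import Pool.Agent.SH.StmtsN
import Pool.Agent.SH.StmtsTE

/-!
# MP_2d0b73_an, Part III-N: the projections of a quotient of a product by a diagonal action
-/

set_option autoImplicit false

open CategoryTheory MonoidalCategory CartesianMonoidalCategory Simplicial Opposite

namespace Pool.Agent.SH

namespace NQproj

theorem prod_ap {G : Type} [Group G] {W₁ W₂ : SSet.{0}} (a₁ : Act G W₁) (a₂ : Act G W₂) (g : G)
    {n : SimplexCategoryᵒᵖ} (x : W₁.obj n) (y : W₂.obj n) :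
    (a₁.prod a₂).ap g ((x, y) : (W₁ ⊗ W₂).obj n) = (a₁.ap g x, a₂.ap g y) := rfl

theorem symm_app {X : SSet.{0}} {n m : ℕ} (w : X _⦋n⦌) (a : ⦋m⦌ ⟶ ⦋n⦌) :
    (SSet.yonedaEquiv.symm w).app (op ⦋m⦌) (SSet.stdSimplex.objEquiv.symm a) = X.map a.op w := by
  exact SSet.yonedaEquiv_symm_app_objEquiv_symm w a

theorem first (h : WC_OPEN_Stmt) (P : MorphismProperty SSet.{0}) (hP : WClass P) (G : Type)
    [Group G] (W₁ W₂ : SSet.{0}) (a₁ : Act G W₁) (a₂ : Act G W₂) (Q : SSet.{0})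
    (q : W₁ ⊗ W₂ ⟶ Q) (hq : IsQuo (a₁.prod a₂) q) (V : SSet.{0}) (p : W₁ ⟶ V) (π : Q ⟶ V)
    (hf : a₁.Free) (hp : IsQuo a₁ p) (hπ : q ≫ π = fst W₁ W₂ ≫ p) (hW : Acy P W₂) : P π := by
  refine h P hP Q V π ?_
  intro n b _
  obtain ⟨w, hw⟩ := hp.surj (op ⦋n⦌) b
  have hφ : ∀ (m : ℕ) (a : ⦋m⦌ ⟶ ⦋n⦌) (f : W₂ _⦋m⦌),
      (lift (snd W₂ Δ[n] ≫ SSet.yonedaEquiv.symm w) (fst W₂ Δ[n]) ≫ q).app (op ⦋m⦌)
        (f, SSet.stdSimplex.objEquiv.symm a) = q.app (op ⦋m⦌) (W₁.map a.op w, f) := by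
    intro m a f
    rw [← symm_app w a]
    rfl
  refine ⟨W₂, lift (snd W₂ Δ[n] ≫ SSet.yonedaEquiv.symm w) (fst W₂ Δ[n]) ≫ q, hW, ?_, ?_⟩
  · rw [Category.assoc, hπ, ← Category.assoc, lift_fst, Category.assoc, ← hw]
    congr 1
    exact SSet.yonedaEquiv_symm_comp w p
  · intro m a _ e he
    have hpe : ∀ (x : W₁ _⦋m⦌) (y : W₂ _⦋m⦌), π.app (op ⦋m⦌) (q.app (op ⦋m⦌) (x, y)) =
        p.app (op ⦋m⦌) x := by
      intro x y
      exact congrArg (fun k : W₁ ⊗ W₂ ⟶ V => k.app (op ⦋m⦌) (x, y)) hπ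
    obtain ⟨⟨w', f'⟩, hwf⟩ := hq.surj (op ⦋m⦌) e
    have h1 : p.app (op ⦋m⦌) w' = p.app (op ⦋m⦌) (W₁.map a.op w) := by
      rw [← hpe w' f', hwf, he, ← hw]
      exact (NatTrans.naturality_apply p a.op w).symm
    obtain ⟨g, hg⟩ := (hp.fib (op ⦋m⦌) _ _).1 h1
    refine ⟨a₂.ap g f', ?_, ?_⟩
    · show (lift (snd W₂ Δ[n] ≫ SSet.yonedaEquiv.symm w) (fst W₂ Δ[n]) ≫ q).app (op ⦋m⦌)
        (a₂.ap g f', SSet.stdSimplex.objEquiv.symm a) = e
      rw [hφ, ← hwf]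
      refine ((hq.fib (op ⦋m⦌) _ _).2 ⟨g, ?_⟩).symm
      rw [prod_ap, hg]
    · intro f hfe
      have hfe' : (lift (snd W₂ Δ[n] ≫ SSet.yonedaEquiv.symm w) (fst W₂ Δ[n]) ≫ q).app (op ⦋m⦌)
        (f, SSet.stdSimplex.objEquiv.symm a) = e := hfe
      rw [hφ, ← hwf] at hfe'
      obtain ⟨g', hg'⟩ := (hq.fib (op ⦋m⦌) _ _).1 hfe'.symm
      rw [prod_ap] at hg'
      have e1 : a₁.ap g' w' = W₁.map a.op w := congrArg Prod.fst hg'
      have e2 : a₂.ap g' f' = f := congrArg Prod.snd hg'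
      have e3 : g' = g := by
        have e4 : a₁.ap (g⁻¹ * g') w' = w' := by
          rw [a₁.ap_mul, e1, ← hg, ← a₁.ap_mul, inv_mul_cancel, a₁.ap_one]
        have e5 := hf _ _ _ e4
        exact (inv_mul_eq_one.1 e5).symm
      rw [← e2, e3]

end NQproj

open NQproj in
theorem n_qproj (h : WC_OPEN_Stmt) : N_QPROJ_Stmt := by
  intro P hP G _ W₁ W₂ a₁ a₂ Q q hq
  constructor
  · intro V p π hf hp hπ hW
    exact first h P hP G W₁ W₂ a₁ a₂ Q q hq V p π hf hp hπ hW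
  · intro V p π hf hp hπ hW
    have hq' : IsQuo (a₂.prod a₁) (lift (snd W₂ W₁) (fst W₂ W₁) ≫ q) := by
      refine ⟨?_, ?_⟩
      · intro n e
        obtain ⟨⟨x, y⟩, hxy⟩ := hq.surj n e
        exact ⟨(y, x), hxy⟩
      · rintro n ⟨x, y⟩ ⟨x', y'⟩
        have h1 := hq.fib n (y, x) (y', x')
        refine Iff.trans h1 ?_
        constructor
        · rintro ⟨g, hg⟩
          refine ⟨g, ?_⟩
          rw [prod_ap] at hg ⊢
          have e1 : a₁.ap g y = y' := congrArg Prod.fst hg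
          have e2 : a₂.ap g x = x' := congrArg Prod.snd hg
          rw [e1, e2]
        · rintro ⟨g, hg⟩
          refine ⟨g, ?_⟩
          rw [prod_ap] at hg ⊢
          have e1 : a₂.ap g x = x' := congrArg Prod.fst hg
          have e2 : a₁.ap g y = y' := congrArg Prod.snd hg
          rw [e1, e2]
    refine first h P hP G W₂ W₁ a₂ a₁ Q _ hq' V p π hf hp ?_ hW
    rw [Category.assoc, hπ, ← Category.assoc, lift_snd]

end Pool.Agent.SH
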