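import Pool.Agent.SH.StmtsN

/-!
# MP_2d0b73_an, (F6): the simplicial set `FM` of a subcomplex
-/

set_option autoImplicit false

open CategoryTheory MonoidalCategory CartesianMonoidalCategory Simplicial Opposite

namespace Pool.Agent.SH

namespace NRes

theorem app_inj {X' X : SSet.{0}} (i : X' ⟶ X) (hi : Mono i) (n : SimplexCategoryᵒᵖ) :
    Function.Injective (i.app n) := by
  have h := (NatTrans.mono_iff_mono_app i).1 hi n
  exact (mono_iff_injective _).1 h

theorem mem_pre {X' X : SSet.{0}} (i : X' ⟶ X) (Z : X.Subcomplex) (n : SimplexCategoryᵒᵖ)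
    (x : X'.obj n) : x ∈ (Z.preimage i).obj n ↔ i.app n x ∈ Z.obj n := Iff.rfl

theorem mem_range {X' X : SSet.{0}} (i : X' ⟶ X) (n : SimplexCategoryᵒᵖ) (y : X.obj n) :
    y ∈ (SSet.Subcomplex.range i).obj n ↔ ∃ x, i.app n x = y := Iff.rfl

theorem top_le {X' X : SSet.{0}} (i : X' ⟶ X) :
    (⊤ : X'.Subcomplex) ≤ (SSet.Subcomplex.range i).preimage i := by
  intro n x _
  exact (mem_range i n _).2 ⟨x, rfl⟩

open scoped Classical in
theorem fm_fn {A : Type} [AddCommMonoid A] {X X' : SSet.{0}} (A₀ : AddSubmonoid A) (i : X' ⟶ X)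
    (Y Z : X.Subcomplex) (n : SimplexCategoryᵒᵖ)
    (f : (FM A A₀ (Y.preimage i) ⊤ (Z.preimage i)).obj n) :
    ((FMmap A₀ i (le_refl (Y.preimage i)) (top_le i) (le_refl (Z.preimage i))).app n f).1 =
      (f.1.mapDomain (i.app n)).filter (fun x => x ∉ Z.obj n) := rfl

theorem bij {A : Type} [AddCommMonoid A] {X X' : SSet.{0}} (A₀ : AddSubmonoid A) (i : X' ⟶ X)
    (hi : Mono i) (Y Z : X.Subcomplex) (n : SimplexCategoryᵒᵖ) :
    Function.Bijective ((FMmap A₀ i (le_refl (Y.preimage i)) (top_le i)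
      (le_refl (Z.preimage i))).app n) := by
  classical
  have hinj := app_inj i hi n
  constructor
  · intro f g hfg
    apply Subtype.ext
    ext x
    have h1 := congrArg (fun h : (FM A A₀ Y (SSet.Subcomplex.range i) Z).obj n => h.1 (i.app n x))
      hfg
    simp only [fm_fn] at h1
    rw [Finsupp.filter_apply, Finsupp.filter_apply] at h1
    by_cases hx : i.app n x ∉ Z.obj n
    · rw [if_pos hx, if_pos hx, Finsupp.mapDomain_apply hinj, Finsupp.mapDomain_apply hinj] at h1
      exact h1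
    · have h2 : ∀ k : (FM A A₀ (Y.preimage i) ⊤ (Z.preimage i)).obj n, k.1 x = 0 := by
        intro k
        by_contra hk
        exact hx (k.2.1 x hk).2
      rw [h2 f, h2 g]
  · intro g
    refine ⟨⟨g.1.comapDomain (i.app n) hinj.injOn, ?_, ?_⟩, ?_⟩
    · intro x hx
      rw [Finsupp.comapDomain_apply] at hx
      exact ⟨trivial, (g.2.1 _ hx).2⟩
    · intro x hx
      rw [Finsupp.comapDomain_apply]
      exact g.2.2 _ hx
    · apply Subtype.ext
      refine (fm_fn A₀ i Y Z n _).trans ?_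
      ext y
      rw [Finsupp.filter_apply]
      by_cases hy : y ∉ Z.obj n
      · rw [if_pos hy]
        by_cases hr : ∃ x, i.app n x = y
        · obtain ⟨x, rfl⟩ := hr
          rw [Finsupp.mapDomain_apply hinj]
          rfl
        · have h3 : y ∉ Set.range (i.app n) := fun ⟨x, hx⟩ => hr ⟨x, hx⟩
          rw [Finsupp.mapDomain_of_notMem_range _ _ h3]
          by_contra hg
          exact hr ((mem_range i n y).1 (g.2.1 y (Ne.symm hg)).1)
      · rw [if_neg hy]
        by_contra hg
        exact hy (g.2.1 y (Ne.symm hg)).2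

end NRes

open NRes in
theorem n_res : N_RES_Stmt := by
  intro A _ A₀ X X' i Y Z hi
  have h1 : ∀ n, IsIso ((FMmap A₀ i (le_refl (Y.preimage i)) (top_le i)
      (le_refl (Z.preimage i))).app n) := fun n => (isIso_iff_bijective _).2 (bij A₀ i hi Y Z n)
  have h2 : IsIso (FMmap A₀ i (le_refl (Y.preimage i)) (top_le i) (le_refl (Z.preimage i))) :=
    NatIso.isIso_of_isIso_app _
  exact ⟨asIso (FMmap A₀ i (le_refl (Y.preimage i)) (top_le i) (le_refl (Z.preimage i)))⟩

end Pool.Agent.SH
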