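import Pool.Agent.SH.StmtsN

/-!
# MP_2d0b73_an, Part III-N (N8): quotients of `EE (G ⧸ S)` with `S` of odd index

The averaged extra degeneracy `s[z] = ∑ x, [(x, z)]` on the `F₂`-chains of the quotient.
-/

set_option autoImplicit false

open CategoryTheory MonoidalCategory CartesianMonoidalCategory Simplicial Opposite

namespace Pool.Agent.SH.NSyl

section

variable {G : Type} [Group G] {X : Type} [MulAction G X] {V : SSet.{0}} (q : EE X ⟶ V)

/-- the map `q` on sequences -/
def qq (n : ℕ) (x : Fin (n + 1) → X) : V _⦋n⦌ := q.app (op ⦋n⦌) x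

theorem qq_delta (n : ℕ) (i : Fin (n + 2)) (x : Fin (n + 2) → X) :
    V.δ i (qq q (n + 1) x) = qq q n (fun j => x (i.succAbove j)) :=
  (NatTrans.naturality_apply q (SimplexCategory.δ i).op x).symm

theorem qq_smul (hq : IsQuo (EEact G X) q) (n : ℕ) (g : G) (x : Fin (n + 1) → X) :
    qq q n (fun i => g • x i) = qq q n x :=
  ((hq.fib (op ⦋n⦌) x (fun i => g • x i)).2 ⟨g, rfl⟩).symm

theorem qq_eq (hq : IsQuo (EEact G X) q) (n : ℕ) (x y : Fin (n + 1) → X)
    (h : qq q n x = qq q n y) : ∃ g : G, (fun i => g • x i) = y :=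
  (hq.fib (op ⦋n⦌) x y).1 h

theorem qq_surj (hq : IsQuo (EEact G X) q) (n : ℕ) : Function.Surjective (qq q n) :=
  hq.surj (op ⦋n⦌)

/-- the value of the averaged degeneracy on one sequence -/
noncomputable def sm [Fintype X] (n : ℕ) (y : Fin (n + 1) → X) (a : ZMod 2) :
    V _⦋n + 1⦌ →₀ ZMod 2 :=
  ∑ x : X, Finsupp.single (qq q (n + 1) (Fin.cons x y : Fin (n + 2) → X)) a

theorem cons_smul (n : ℕ) (g : G) (x : X) (y : Fin (n + 1) → X) :
    (Fin.cons (g • x) (fun i => g • y i) : Fin (n + 2) → X)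
      = fun i => g • (Fin.cons x y : Fin (n + 2) → X) i := by
  funext i
  refine Fin.cases ?_ (fun j => ?_) i
  · simp
  · simp

theorem sm_indep [Fintype X] (hq : IsQuo (EEact G X) q) (n : ℕ) (y y' : Fin (n + 1) → X)
    (h : qq q n y = qq q n y') (a : ZMod 2) : sm q n y a = sm q n y' a := by
  obtain ⟨g, rfl⟩ := qq_eq q hq n y y' h
  unfold sm
  rw [← Equiv.sum_comp (MulAction.toPerm g : Equiv.Perm X)
    (fun x => Finsupp.single (qq q (n + 1)
      (Fin.cons x (fun i => g • y i) : Fin (n + 2) → X)) a)]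
  refine Finset.sum_congr rfl fun x _ => ?_
  rw [MulAction.toPerm_apply, cons_smul, qq_smul q hq]

/-- the averaged degeneracy -/
noncomputable def av [Fintype X] (hq : IsQuo (EEact G X) q) (n : ℕ) (z : V _⦋n⦌ →₀ ZMod 2) :
    V _⦋n + 1⦌ →₀ ZMod 2 :=
  z.sum fun v a => sm q n (Function.surjInv (qq_surj q hq n) v) a

theorem sm_zero [Fintype X] (n : ℕ) (y : Fin (n + 1) → X) : sm q n y 0 = 0 := by
  unfold sm
  simp

theorem sm_add [Fintype X] (n : ℕ) (y : Fin (n + 1) → X) (a b : ZMod 2) :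
    sm q n y (a + b) = sm q n y a + sm q n y b := by
  unfold sm
  simp [Finsupp.single_add, Finset.sum_add_distrib]

theorem av_zero [Fintype X] (hq : IsQuo (EEact G X) q) (n : ℕ) : av q hq n 0 = 0 := by
  unfold av
  rw [Finsupp.sum_zero_index]

theorem dF_sm_zero [Fintype X] (n : ℕ) (y : Fin (n + 1) → X) (a : ZMod 2)
    (hX : (Fintype.card X : ZMod 2) = 1) :
    dF 0 (sm q n y a) = Finsupp.single (qq q n y) a := by
  unfold dF sm
  rw [Finsupp.mapDomain_finsetSum]
  have h : ∀ x : X, (Finsupp.single (qq q (n + 1) (Fin.cons x y : Fin (n + 2) → X)) a).mapDomain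
      (V.δ 0) = Finsupp.single (qq q n y) a := by
    intro x
    rw [Finsupp.mapDomain_single, qq_delta]
    congr 1
  rw [Finset.sum_congr rfl fun x _ => h x, Finset.sum_const, Finset.card_univ,
    Finsupp.smul_single, nsmul_eq_mul, hX, one_mul]

theorem dF_sm_succ [Fintype X] (n : ℕ) (i : Fin (n + 2)) (y : Fin (n + 2) → X) (a : ZMod 2) :
    dF i.succ (sm q (n + 1) y a) = sm q n (fun j => y (i.succAbove j)) a := by
  unfold dF sm
  rw [Finsupp.mapDomain_finsetSum]
  refine Finset.sum_congr rfl fun x _ => ?_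
  rw [Finsupp.mapDomain_single, qq_delta]
  congr 2
  funext j
  refine Fin.cases ?_ (fun k => ?_) j
  · simp
  · simp

theorem dF_av_zero [Fintype X] (hq : IsQuo (EEact G X) q) (n : ℕ) (z : V _⦋n⦌ →₀ ZMod 2)
    (hX : (Fintype.card X : ZMod 2) = 1) : dF 0 (av q hq n z) = z := by
  have h : dF 0 (av q hq n z) = z.sum fun v a =>
      dF 0 (sm q n (Function.surjInv (qq_surj q hq n) v) a) := by
    unfold av dF
    rw [Finsupp.sum, Finsupp.mapDomain_finsetSum]
    rfl
  rw [h]
  have h2 : ∀ (v : V _⦋n⦌) (a : ZMod 2),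
      dF 0 (sm q n (Function.surjInv (qq_surj q hq n) v) a) = Finsupp.single v a := by
    intro v a
    rw [dF_sm_zero q n _ a hX, Function.surjInv_eq (qq_surj q hq n) v]
  simp only [h2]
  exact Finsupp.sum_single z

theorem dF_av_succ [Fintype X] (hq : IsQuo (EEact G X) q) (n : ℕ) (i : Fin (n + 2))
    (z : V _⦋n + 1⦌ →₀ ZMod 2) : dF i.succ (av q hq (n + 1) z) = av q hq n (dF i z) := by
  have h : dF i.succ (av q hq (n + 1) z) = z.sum fun v a =>
      dF i.succ (sm q (n + 1) (Function.surjInv (qq_surj q hq (n + 1)) v) a) := by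
    unfold av dF
    rw [Finsupp.sum, Finsupp.mapDomain_finsetSum]
    rfl
  rw [h]
  have h2 : av q hq n (dF i z) = z.sum fun v a =>
      sm q n (Function.surjInv (qq_surj q hq n) (V.δ i v)) a := by
    unfold av dF
    rw [Finsupp.sum_mapDomain_index]
    · intro b
      exact sm_zero q n _
    · intro b m₁ m₂
      exact sm_add q n _ m₁ m₂
  rw [h2]
  unfold Finsupp.sum
  refine Finset.sum_congr rfl fun v _ => ?_
  dsimp only
  rw [dF_sm_succ]
  refine sm_indep q hq n _ _ ?_ _
  rw [← qq_delta, Function.surjInv_eq (qq_surj q hq (n + 1)) v,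
    Function.surjInv_eq (qq_surj q hq n) (V.δ i v)]

end

end Pool.Agent.SH.NSyl

namespace Pool.Agent.SH

open NSyl in
theorem n_syl : N_SYL_Stmt := by
  intro G _ _ S hS V q hq
  have : Fintype (G ⧸ S) := Fintype.ofFinite _
  have hX : (Fintype.card (G ⧸ S) : ZMod 2) = 1 := by
    rw [← Nat.card_eq_fintype_card]
    exact (ZMod.natCast_eq_one_iff_odd).2 hS
  refine ⟨⟨qq q 0 fun _ => QuotientGroup.mk 1⟩, ?_, ?_⟩
  · intro z hz
    have hsub : ∀ v w : V _⦋0⦌, v = w := by
      intro v w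
      obtain ⟨x, rfl⟩ := qq_surj q hq 0 v
      obtain ⟨y, rfl⟩ := qq_surj q hq 0 w
      obtain ⟨g, hg⟩ := MulAction.exists_smul_eq G (x 0) (y 0)
      rw [← qq_smul q hq 0 g x]
      congr 1
      funext i
      have hi : i = 0 := Fin.ext (by have := i.2; omega)
      rw [hi]
      exact hg
    have : Subsingleton (V _⦋0⦌) := ⟨hsub⟩
    have hz0 : z = 0 := by
      set v0 : V _⦋0⦌ := qq q 0 fun _ => QuotientGroup.mk 1 with hv0
      have e : z = Finsupp.single v0 (z v0) := by
        ext v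
        rw [Subsingleton.elim v v0]
        simp
      rw [e] at hz
      rw [Finsupp.sum_single_index rfl] at hz
      rw [e, hz, Finsupp.single_zero]
    refine ⟨0, ?_, ?_⟩
    · rw [hz0]
      exact Finsupp.mapDomain_zero
    · exact Finsupp.mapDomain_zero
  · intro n z hz
    refine ⟨av q hq (n + 1) z, dF_av_zero q hq (n + 1) z hX, fun i => ?_⟩
    rw [dF_av_succ, hz i, av_zero]

end Pool.Agent.SH
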