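import Pool.Agent.SH.StmtsN

/-!
# MP_2d0b73_an, Part III-N: quotients by free actions of finite `2`-groups
-/

set_option autoImplicit false

open CategoryTheory MonoidalCategory CartesianMonoidalCategory Simplicial Opposite

namespace Pool.Agent.SH

namespace NTwo

lemma app_comp {X Y Z : SSet.{0}} (f : X ⟶ Y) (g : Y ⟶ Z) (n : SimplexCategoryᵒᵖ) (x : X.obj n) :
    (f ≫ g).app n x = g.app n (f.app n x) := rfl

lemma app_eq {X Y : SSet.{0}} {f g : X ⟶ Y} (h : f = g) (n : SimplexCategoryᵒᵖ) (x : X.obj n) :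
    f.app n x = g.app n x := by rw [h]

lemma free_restr {G : Type} [Group G] {W : SSet.{0}} {a : Act G W} (h : a.Free)
    (H : Subgroup G) : (a.restr H).Free := by
  intro n x g hg
  exact Subtype.ext (h n x g hg)

/-- The case of the trivial group. -/
lemma base {P : MorphismProperty SSet.{0}} (hP : WClass P) (G : Type) [Group G]
    (hG : Nat.card G = 1) (W V : SSet.{0}) (a : Act G W) (q : W ⟶ V) (hq : IsQuo a q)
    (hW : Acy P W) : Acy P V := by
  have hsub : Subsingleton G := (Nat.card_eq_one_iff_unique.1 hG).1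
  have hiso : IsIso q := by
    rw [NatTrans.isIso_iff_isIso_app]
    intro n
    rw [isIso_iff_bijective]
    refine ⟨fun x y hxy => ?_, hq.surj n⟩
    obtain ⟨g, hg⟩ := (hq.fib n x y).1 hxy
    rw [Subsingleton.elim g 1, a.ap_one] at hg
    exact hg
  have h1 : P q := hP.iso q hiso
  have h2 : q ≫ toUnit V = toUnit W := Subsingleton.elim _ _
  refine hP.cancelL q (toUnit V) h1 ?_
  rw [h2]
  exact hW

end NTwo

theorem n_two (h1 : N_QEX_Stmt) (h2 : N_QDESC_Stmt) (h3 : N_INV_Stmt) : N_TWO_Stmt := by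
  intro P hP hB
  suffices H : ∀ (k : ℕ) (G : Type) [Group G], Nat.card G = 2 ^ k → ∀ (W V : SSet.{0})
      (a : Act G W) (q : W ⟶ V), a.Free → IsQuo a q → Acy P W → Acy P V from
    fun G _ k hk W V a q ha hq hW => H k G hk W V a q ha hq hW
  intro k
  induction k with
  | zero =>
    intro G _ hG W V a q _ hq hW
    exact NTwo.base hP G (by simpa using hG) W V a q hq hW
  | succ k ih =>
    intro G _ hG W V a q ha hq hW
    have : Fact (Nat.Prime 2) := ⟨Nat.prime_two⟩
    have : Finite G := Nat.finite_of_card_ne_zero (by rw [hG]; positivity)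
    obtain ⟨H, hH⟩ := Sylow.exists_subgroup_card_pow_prime (G := G) 2 (n := k)
      (by rw [hG]; exact pow_dvd_pow 2 (Nat.le_succ k))
    have hidx : H.index = 2 := by
      have h4 := H.card_mul_index
      rw [hH, hG, pow_succ] at h4
      exact Nat.eq_of_mul_eq_mul_left (by positivity) h4
    have hnorm : H.Normal := Subgroup.normal_of_index_eq_two hidx
    have hmul : ∀ x y : G, x * y ∈ H ↔ (x ∈ H ↔ y ∈ H) := fun x y =>
      Subgroup.mul_mem_iff_of_index_two hidx
    obtain ⟨c, hc⟩ : ∃ c, c ∉ H := by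
      by_contra hcon
      push Not at hcon
      have h4 : H = ⊤ := by
        rw [eq_top_iff]
        exact fun x _ => hcon x
      rw [h4, Subgroup.index_top] at hidx
      omega
    obtain ⟨V', q', hq'⟩ := h1 H W (a.restr H)
    have hV' : Acy P V' := ih H hH W V' (a.restr H) q' (NTwo.free_restr ha H) hq' hW
    obtain ⟨hd1, _⟩ := h2 H W V' V' (a.restr H) q' hq'
    obtain ⟨hd2, _⟩ := h2 H W V' V (a.restr H) q' hq'
    obtain ⟨_, hu⟩ := h2 H W V' V' (a.restr H) q' hq'
    have hfib : ∀ (n : SimplexCategoryᵒᵖ) (x : W.obj n) (g : G), g ∈ H →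
        q'.app n (a.ap g x) = q'.app n x := by
      intro n x g hg
      exact ((hq'.fib n x (a.ap g x)).2 ⟨⟨g, hg⟩, rfl⟩).symm
    obtain ⟨τ, hτ⟩ := hd1 (a.act c ≫ q') (by
      intro g
      ext n x
      show q'.app n (a.ap c (a.ap (g : G) x)) = q'.app n (a.ap c x)
      have h4 : a.ap c (a.ap (g : G) x) = a.ap (c * g * c⁻¹) (a.ap c x) := by
        rw [← a.ap_mul, ← a.ap_mul]
        congr 1
        group
      rw [h4]
      exact hfib n _ _ (hnorm.conj_mem g g.2 c))
    have hτ' : ∀ (n : SimplexCategoryᵒᵖ) (x : W.obj n),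
        τ.app n (q'.app n x) = q'.app n (a.ap c x) := fun n x => NTwo.app_eq hτ n x
    obtain ⟨r, hr⟩ := hd2 q (by
      intro g
      ext n x
      show q.app n (a.ap (g : G) x) = q.app n x
      exact ((hq.fib n x (a.ap (g : G) x)).2 ⟨g, rfl⟩).symm)
    have hr' : ∀ (n : SimplexCategoryᵒᵖ) (x : W.obj n), r.app n (q'.app n x) = q.app n x :=
      fun n x => NTwo.app_eq hr n x
    refine h3 P hP hB V' V τ r ?_ ?_ ?_ ?_ hV'
    · refine hu _ _ ?_
      ext n x
      show τ.app n (τ.app n (q'.app n x)) = q'.app n x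
      rw [hτ', hτ', ← a.ap_mul]
      exact hfib n x _ ((hmul c c).2 Iff.rfl)
    · intro n y hy
      obtain ⟨x, rfl⟩ := hq'.surj n y
      rw [hτ'] at hy
      obtain ⟨g, hg⟩ := (hq'.fib n _ _).1 hy
      have h4 : a.ap ((g : G) * c) x = x := by
        rw [a.ap_mul]
        exact hg
      have h5 := ha n x _ h4
      have h6 : c = (g : G)⁻¹ := (inv_eq_of_mul_eq_one_right h5).symm
      exact hc (h6 ▸ H.inv_mem g.2)
    · intro n y
      obtain ⟨x, rfl⟩ := hq.surj n y
      exact ⟨q'.app n x, hr' n x⟩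
    · intro n x y
      obtain ⟨x, rfl⟩ := hq'.surj n x
      obtain ⟨y, rfl⟩ := hq'.surj n y
      rw [hr', hr', hτ']
      constructor
      · intro h
        obtain ⟨g, hg⟩ := (hq.fib n x y).1 h
        by_cases hgH : g ∈ H
        · left
          rw [← hg]
          exact hfib n x g hgH
        · right
          have h4 : y = a.ap (g * c⁻¹) (a.ap c x) := by
            rw [← a.ap_mul, inv_mul_cancel_right, hg]
          rw [h4]
          refine hfib n _ _ ((hmul _ _).2 ⟨fun h => absurd h hgH, fun h => ?_⟩)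
          exact absurd ((inv_mem_iff).1 h) hc
      · rintro (h | h)
        · rw [← hr' n x, ← hr' n y, h]
        · rw [← hr' n x, ← hr' n y, h, hr', hr']
          exact (hq.fib n _ _).2 ⟨c, rfl⟩

end Pool.Agent.SH
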