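import Pool.Agent.SH.StmtsN

/-!
# MP_2d0b73_an, Part III-N, (F9): simplicial commutative monoids with bijective doubling
-/

set_option autoImplicit false

open CategoryTheory MonoidalCategory CartesianMonoidalCategory Simplicial Opposite

namespace Pool.Agent.SH

namespace NUd

/-- The product of the monoid algebra over `F₂`. -/
noncomputable def cp {M : Type} [AddCommMonoid M] (u v : M →₀ ZMod 2) : M →₀ ZMod 2 :=
  (AddMonoidAlgebra.ofCoeff u * AddMonoidAlgebra.ofCoeff v).coeff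

theorem cp_zero_left {M : Type} [AddCommMonoid M] (v : M →₀ ZMod 2) : cp 0 v = 0 := by
  have h : (AddMonoidAlgebra.ofCoeff (0 : M →₀ ZMod 2)) = 0 := rfl
  rw [cp, h, zero_mul]
  rfl

theorem cp_zero_right {M : Type} [AddCommMonoid M] (v : M →₀ ZMod 2) : cp v 0 = 0 := by
  have h : (AddMonoidAlgebra.ofCoeff (0 : M →₀ ZMod 2)) = 0 := rfl
  rw [cp, h, mul_zero]
  rfl

theorem cp_map {M N : Type} [AddCommMonoid M] [AddCommMonoid N] (f : M → N)
    (hf : ∀ x y, f (x + y) = f x + f y) (u v : M →₀ ZMod 2) :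
    (cp u v).mapDomain f = cp (u.mapDomain f) (v.mapDomain f) := by
  let g : AddHom M N := ⟨f, hf⟩
  exact congrArg AddMonoidAlgebra.coeff (AddMonoidAlgebra.mapDomain_mul (R := ZMod 2) g
    (AddMonoidAlgebra.ofCoeff u) (AddMonoidAlgebra.ofCoeff v))

theorem cp_self {M : Type} [AddCommMonoid M] (u : M →₀ ZMod 2) :
    cp u u = u.mapDomain (fun x => x + x) := by
  have h : ∀ v : AddMonoidAlgebra (ZMod 2) M,
      v * v = AddMonoidAlgebra.mapDomain (fun x => x + x) v := by
    intro v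
    induction v using AddMonoidAlgebra.induction_linear with
    | zero => simp
    | add f g hf hg =>
      have h2 : g * f + f * g = 0 := by
        rw [mul_comm g f]
        exact ZModModule.add_self _
      rw [AddMonoidAlgebra.mapDomain_add, ← hf, ← hg, add_mul, mul_add, mul_add]
      calc f * f + f * g + (g * f + g * g) = f * f + g * g + (g * f + f * g) := by ring
        _ = _ := by rw [h2, add_zero]
    | single a b =>
      have hb : b * b = b := by
        revert b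
        decide
      rw [AddMonoidAlgebra.mapDomain_single, AddMonoidAlgebra.single_mul_single, hb]
  exact congrArg AddMonoidAlgebra.coeff (h (AddMonoidAlgebra.ofCoeff u))

theorem add_self' {M : Type} (u : M →₀ ZMod 2) : u + u = 0 := ZModModule.add_self u

end NUd

open NUd in
theorem n_ud : N_UD_Stmt := by
  intro X inst hadd hbij n z hz
  classical
  -- halving
  let e : ∀ m, X.obj m ≃ X.obj m := fun m => Equiv.ofBijective _ (hbij m)
  have he : ∀ m (x : X.obj m), e m x = x + x := fun m x => rfl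
  have hnat : ∀ (m k : SimplexCategoryᵒᵖ) (θ : m ⟶ k) (x : X.obj m),
      X.map θ ((e m).symm x) = (e k).symm (X.map θ x) := by
    intro m k θ x
    rw [Equiv.eq_symm_apply, he, ← hadd, ← he, Equiv.apply_symm_apply]
  let z' : X _⦋n + 1⦌ →₀ ZMod 2 := z.mapDomain (e _).symm
  have hz'z : cp z' z' = z := by
    rw [cp_self, ← Finsupp.mapDomain_comp]
    have : (fun x : X _⦋n + 1⦌ => x + x) ∘ (e _).symm = id := by
      funext x
      exact (e _).apply_symm_apply x
    rw [this, Finsupp.mapDomain_id]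
  have hz' : ∀ i : Fin (n + 2), z'.mapDomain (X.δ i) = 0 := by
    intro i
    have h1 : (X.δ i : X _⦋n + 1⦌ → X _⦋n⦌) ∘ (e _).symm = (e _).symm ∘ (X.δ i) := by
      funext x
      exact hnat _ _ _ x
    rw [← Finsupp.mapDomain_comp, h1, Finsupp.mapDomain_comp]
    have h2 : z.mapDomain (X.δ i) = 0 := hz i
    rw [h2, Finsupp.mapDomain_zero]
  have hcp : ∀ (i : Fin (n + 3)) (u v : X _⦋n + 2⦌ →₀ ZMod 2),
      (cp u v).mapDomain (X.δ i) = cp (u.mapDomain (X.δ i)) (v.mapDomain (X.δ i)) :=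
    fun i u v => cp_map _ (fun x y => hadd _ _ _ x y) u v
  -- the operators
  have k00 : ∀ u : X _⦋n + 1⦌ →₀ ZMod 2,
      (u.mapDomain (X.σ (0 : Fin (n + 2)))).mapDomain (X.δ (0 : Fin (n + 3))) = u := by
    intro u
    rw [← Finsupp.mapDomain_comp]
    have h := X.δ_comp_σ_self (i := (0 : Fin (n + 2)))
    have : (X.δ (0 : Fin (n + 3)) : X _⦋n + 2⦌ → X _⦋n + 1⦌) ∘ (X.σ (0 : Fin (n + 2))) = id := by
      funext x
      exact ConcreteCategory.congr_hom h x
    rw [this, Finsupp.mapDomain_id]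
  have k01 : ∀ u : X _⦋n + 1⦌ →₀ ZMod 2,
      (u.mapDomain (X.σ (0 : Fin (n + 2)))).mapDomain (X.δ (1 : Fin (n + 3))) = u := by
    intro u
    rw [← Finsupp.mapDomain_comp]
    have h := X.δ_comp_σ_succ (i := (0 : Fin (n + 2)))
    have : (X.δ (1 : Fin (n + 3)) : X _⦋n + 2⦌ → X _⦋n + 1⦌) ∘ (X.σ (0 : Fin (n + 2))) = id := by
      funext x
      exact ConcreteCategory.congr_hom h x
    rw [this, Finsupp.mapDomain_id]
  have k11 : ∀ u : X _⦋n + 1⦌ →₀ ZMod 2,
      (u.mapDomain (X.σ (1 : Fin (n + 2)))).mapDomain (X.δ (1 : Fin (n + 3))) = u := by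
    intro u
    rw [← Finsupp.mapDomain_comp]
    have h := X.δ_comp_σ_self (i := (1 : Fin (n + 2)))
    have : (X.δ (1 : Fin (n + 3)) : X _⦋n + 2⦌ → X _⦋n + 1⦌) ∘ (X.σ (1 : Fin (n + 2))) = id := by
      funext x
      exact ConcreteCategory.congr_hom h x
    rw [this, Finsupp.mapDomain_id]
  have k10 : ∀ u : X _⦋n + 1⦌ →₀ ZMod 2, (∀ i : Fin (n + 2), u.mapDomain (X.δ i) = 0) →
      (u.mapDomain (X.σ (1 : Fin (n + 2)))).mapDomain (X.δ (0 : Fin (n + 3))) = 0 := by
    intro u hu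
    rw [← Finsupp.mapDomain_comp]
    have h := X.δ_comp_σ_of_le (i := (0 : Fin (n + 2))) (j := (0 : Fin (n + 1))) (Fin.zero_le _)
    have : (X.δ (0 : Fin (n + 3)) : X _⦋n + 2⦌ → X _⦋n + 1⦌) ∘ (X.σ (1 : Fin (n + 2))) =
        (X.σ (0 : Fin (n + 1))) ∘ (X.δ (0 : Fin (n + 2))) := by
      funext x
      exact ConcreteCategory.congr_hom h x
    rw [this, Finsupp.mapDomain_comp, hu, Finsupp.mapDomain_zero]
  have ki0 : ∀ u : X _⦋n + 1⦌ →₀ ZMod 2, (∀ i : Fin (n + 2), u.mapDomain (X.δ i) = 0) →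
      ∀ i : Fin (n + 2), 0 < i →
      (u.mapDomain (X.σ (0 : Fin (n + 2)))).mapDomain (X.δ i.succ) = 0 := by
    intro u hu i hi
    rw [← Finsupp.mapDomain_comp]
    have h := X.δ_comp_σ_of_gt (i := i) (j := (0 : Fin (n + 1))) hi
    have : (X.δ i.succ : X _⦋n + 2⦌ → X _⦋n + 1⦌) ∘ (X.σ (0 : Fin (n + 2))) =
        (X.σ (0 : Fin (n + 1))) ∘ (X.δ i) := by
      funext x
      exact ConcreteCategory.congr_hom h x
    rw [this, Finsupp.mapDomain_comp, hu, Finsupp.mapDomain_zero]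
  refine ⟨cp (z'.mapDomain (X.σ (0 : Fin (n + 2)))) (z'.mapDomain (X.σ (1 : Fin (n + 2)))) +
    z.mapDomain (X.σ (0 : Fin (n + 2))), ?_, fun i => ?_⟩
  · rw [dF, Finsupp.mapDomain_add, hcp, k00, k10 _ hz', cp_zero_right, zero_add, k00]
  · rcases Fin.eq_zero_or_eq_succ i with rfl | ⟨j, rfl⟩
    · have h1 : (Fin.succ (0 : Fin (n + 2))) = (1 : Fin (n + 3)) := rfl
      rw [h1, dF, Finsupp.mapDomain_add, hcp, k01, k11, hz'z, k01]
      exact add_self' z
    · rw [dF, Finsupp.mapDomain_add, hcp, ki0 _ hz' _ (Fin.succ_pos j), cp_zero_left, zero_add,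
        ki0 _ hz _ (Fin.succ_pos j)]

end Pool.Agent.SH
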