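import Mathlib
import Pool.Agent.SH.StmtsTE

/-!
# MP_2d0b73_an, block TE: skeletal induction (C5)
-/

open CategoryTheory MonoidalCategory Simplicial SSet HomotopicalAlgebra Opposite Limits
open SSet.modelCategoryQuillen

namespace Pool.Agent.SH

namespace SkInd

variable {B : SSet.{0}} {C : ∀ X : SSet.{0}, (X ⟶ B) → Prop}

/-- The skeleton, as a stage of the relative cell complex of `⊥ ⟶ X`. -/
noncomputable abbrev Sk (X : SSet.{0}) (n : ℕ) : X.Subcomplex :=
  skeletonOfMono (Subcomplex.ι (⊥ : X.Subcomplex)) n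

theorem Sk_zero (X : SSet.{0}) : Sk X 0 = ⊥ := by
  simp [Sk]

theorem Sk_eq_top (X : SSet.{0}) (d : ℕ) [X.HasDimensionLT d] : Sk X d = ⊤ := by
  apply le_antisymm le_top
  refine le_trans ?_ (skeleton_le_skeletonOfMono _ d)
  rw [Subcomplex.le_iff_contains_nonDegenerate]
  intro n x _
  exact X.mem_skeleton _ (X.dim_lt_of_nonDegenerate x d)

theorem C_of_eq_top
    (hiso : ∀ (X Y : SSet.{0}) (e : X ≅ Y) (f : Y ⟶ B), C X (e.hom ≫ f) → C Y f)
    (X : SSet.{0}) (S : X.Subcomplex) (hS : S = ⊤) (f : X ⟶ B) (h : C (S : SSet.{0}) (S.ι ≫ f)) :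
    C X f := by
  subst hS
  exact hiso _ _ (Subcomplex.topIso X) f h

theorem C_bot
    (hiso : ∀ (X Y : SSet.{0}) (e : X ≅ Y) (f : Y ⟶ B), C X (e.hom ≫ f) → C Y f)
    (hcop : ∀ (J : Type) (X : J → SSet.{0}) (f : ∀ j, X j ⟶ B), (∀ j, C (X j) (f j)) →
      C (∐ X) (Limits.Sigma.desc f))
    (X : SSet.{0}) (S : X.Subcomplex) (hS : S = ⊥) (f : (S : SSet.{0}) ⟶ B) :
    C (S : SSet.{0}) f := by
  subst hS
  have h := hcop Empty (fun j => j.elim) (fun j => j.elim) (fun j => j.elim)
  let h1 : IsInitial (∐ (fun j : Empty => (j.elim : SSet.{0}))) :=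
    IsInitial.ofUniqueHom (fun Z => Limits.Sigma.desc (fun j => j.elim))
      (fun Z m => Limits.Sigma.hom_ext _ _ (fun j => j.elim))
  let e : (∐ (fun j : Empty => (j.elim : SSet.{0}))) ≅ ((⊥ : X.Subcomplex) : SSet.{0}) :=
    h1.uniqueUpToIso Subcomplex.isInitialBot
  refine hiso _ _ e f ?_
  have h2 : e.hom ≫ f = Limits.Sigma.desc (fun j => j.elim) := h1.hom_ext _ _
  rw [h2]
  exact h

end SkInd

theorem sk_ind : SK_IND_Stmt := by
  intro B C hiso hsimp hcop hpush hseq
  have key : ∀ (n : ℕ) (X : SSet.{0}) (f : X ⟶ B),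
      C (SkInd.Sk X n : SSet.{0}) ((SkInd.Sk X n).ι ≫ f) := by
    intro n
    induction n with
    | zero =>
      intro X f
      exact SkInd.C_bot hiso hcop X _ (SkInd.Sk_zero X) _
    | succ n ih =>
      intro X f
      let i : ((⊥ : X.Subcomplex) : SSet.{0}) ⟶ X := Subcomplex.ι (⊥ : X.Subcomplex)
      have hp := (relativeCellComplexOfMono.isPushout i n).flip
      refine hpush _ _ _ _ _ _ _ _ ((SkInd.Sk X (n + 1)).ι ≫ f) hp inferInstance ?_ ?_ ?_
      · have h1 : ∀ c : relativeCellComplexOfMono.Cell i n,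
            C (∂Δ[n] : SSet.{0}) (c.ιSigmaBoundary ≫ relativeCellComplexOfMono.l i n ≫
              relativeCellComplexOfMono.b i n ≫ (SkInd.Sk X (n + 1)).ι ≫ f) := by
          intro c
          exact SkInd.C_of_eq_top hiso _ _ (SkInd.Sk_eq_top (∂Δ[n] : SSet.{0}) n) _ (ih _ _)
        have h2 := hcop _ _ _ h1
        have h3 : Limits.Sigma.desc (fun c : relativeCellComplexOfMono.Cell i n =>
            c.ιSigmaBoundary ≫ relativeCellComplexOfMono.l i n ≫
              relativeCellComplexOfMono.b i n ≫ (SkInd.Sk X (n + 1)).ι ≫ f) =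
            relativeCellComplexOfMono.l i n ≫
              relativeCellComplexOfMono.b i n ≫ (SkInd.Sk X (n + 1)).ι ≫ f := by
          apply Limits.Sigma.hom_ext
          intro c
          rw [Limits.Sigma.ι_desc]
        rw [h3] at h2
        exact h2
      · have h1 : ∀ c : relativeCellComplexOfMono.Cell i n,
            C Δ[n] (c.ιSigmaStdSimplex ≫
              relativeCellComplexOfMono.b i n ≫ (SkInd.Sk X (n + 1)).ι ≫ f) :=
          fun c => hsimp _ _
        have h2 := hcop _ _ _ h1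
        have h3 : Limits.Sigma.desc (fun c : relativeCellComplexOfMono.Cell i n =>
            c.ιSigmaStdSimplex ≫
              relativeCellComplexOfMono.b i n ≫ (SkInd.Sk X (n + 1)).ι ≫ f) =
              relativeCellComplexOfMono.b i n ≫ (SkInd.Sk X (n + 1)).ι ≫ f := by
          apply Limits.Sigma.hom_ext
          intro c
          rw [Limits.Sigma.ι_desc]
        rw [h3] at h2
        exact h2
      · exact ih X f
  intro X f
  let i : ((⊥ : X.Subcomplex) : SSet.{0}) ⟶ X := Subcomplex.ι (⊥ : X.Subcomplex)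
  exact hseq (relativeCellComplexOfMono i).F (Cocone.mk X (relativeCellComplexOfMono i).incl) f
    (relativeCellComplexOfMono i).isColimit (fun n => by
      change Mono (Subcomplex.homOfLE ((skeletonOfMono i).monotone (Nat.le_succ n)))
      infer_instance) (fun n => key n X f)

end Pool.Agent.SH
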