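import Mathlib
import Pool.Agent.SH.StmtsTE

/-!
# MP_2d0b73_an, block TE: cell form of the fibre lemma and open fibres (C12), (C13)
-/

open CategoryTheory MonoidalCategory Simplicial SSet HomotopicalAlgebra Opposite Limits
open SSet.modelCategoryQuillen

namespace Pool.Agent.SH

namespace WcCell

/-- Cell data for a map `p : E ⟶ B` in dimension `d`. -/
structure CD {E B : SSet.{0}} (p : E ⟶ B) (d : ℕ) where
  C : E.Subcomplex
  D : E.Subcomplex
  hC : ∀ (n : SimplexCategoryᵒᵖ) (e : E.obj n),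
    e ∈ C.obj n ↔ p.app n e ∈ (B.skeleton d).obj n
  hD : ∀ (n : SimplexCategoryᵒᵖ) (e : E.obj n),
    e ∈ D.obj n ↔ p.app n e ∈ (B.skeleton (d + 1)).obj n
  E' : B.nonDegenerate d → SSet.{0}
  q : ∀ b, E' b ⟶ Δ[d]
  φ : ∀ b, E' b ⟶ E
  hφ : ∀ b, φ b ≫ p = q b ≫ yonedaEquiv.symm b.1
  hu : ∀ (b : B.nonDegenerate d) (m : ℕ) (a : ⦋m⦌ ⟶ ⦋d⦌), Epi a → ∀ e : E _⦋m⦌,
    p.app _ e = B.map a.op b.1 →
      ∃! e' : (E' b) _⦋m⦌, (φ b).app _ e' = e ∧ (q b).app _ e' = stdSimplex.objEquiv.symm a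
  A : ∀ b, (E' b).Subcomplex
  hA : ∀ b (n : SimplexCategoryᵒᵖ) (e : (E' b).obj n),
    e ∈ (A b).obj n ↔ (q b).app n e ∈ (∂Δ[d] : (Δ[d] : SSet.{0}).Subcomplex).obj n

theorem preimage_yoneda {B : SSet.{0}} {d : ℕ} (b : B.nonDegenerate d) :
    (B.skeleton d).preimage (SSet.yonedaEquiv.symm b.1) = ∂Δ[d] := by
  rw [stdSimplex.eq_boundary_iff]
  refine ⟨?_, fun h ↦ ?_⟩
  · rw [Subcomplex.le_iff_contains_nonDegenerate]
    rintro n ⟨y, hy₁⟩ hy₂
    have : n < d := dim_lt_of_nonDegenerate (X := ∂Δ[d])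
      ⟨⟨y, hy₂⟩, (Subcomplex.mem_nonDegenerate_iff _ _).2 hy₁⟩ d
    rw [Subcomplex.preimage_obj, skeleton_obj_eq_top B this]
    exact Set.mem_univ _
  · have h1 := h.symm.le _ (show stdSimplex.objEquiv.symm (𝟙 ⦋d⦌) ∈ _ by simp)
    have h2 : b.1 ∈ (B.skeleton d).obj _ := by
      simpa using h1
    rw [mem_skeleton_obj_iff_of_nonDegenerate] at h2
    exact lt_irrefl _ h2

namespace CD

variable {E B : SSet.{0}} {p : E ⟶ B} {d : ℕ} (X : CD p d)

theorem hCD : X.C ≤ X.D := by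
  intro n e he
  rw [X.hD]
  rw [X.hC] at he
  exact B.skeleton.monotone (Nat.le_succ d) _ he

theorem hφapp (b : B.nonDegenerate d) (n : SimplexCategoryᵒᵖ) (e : (X.E' b).obj n) :
    p.app n ((X.φ b).app n e) = (SSet.yonedaEquiv.symm b.1 : Δ[d] ⟶ B).app n ((X.q b).app n e) :=
  congr($(X.hφ b).app n e)

theorem mem_A_iff (b : B.nonDegenerate d) (n : SimplexCategoryᵒᵖ) (e : (X.E' b).obj n) :
    e ∈ (X.A b).obj n ↔ (X.φ b).app n e ∈ X.C.obj n := by
  rw [X.hA, X.hC, X.hφapp, ← preimage_yoneda b]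
  rfl

theorem rangeA (b : B.nonDegenerate d) :
    Subcomplex.range ((X.A b).ι ≫ X.φ b) ≤ X.C := by
  rintro n _ ⟨e, rfl⟩
  exact (X.mem_A_iff b n e.1).1 e.2

theorem rangeE (b : B.nonDegenerate d) :
    Subcomplex.range (X.φ b) ≤ X.D := by
  rintro n _ ⟨e, rfl⟩
  rw [X.hD, X.hφapp]
  have h1 : Subcomplex.range (SSet.yonedaEquiv.symm b.1 : Δ[d] ⟶ B) ≤ B.skeleton (d + 1) := by
    rw [Subcomplex.range_eq_ofSimplex]
    simpa using B.ofSimplex_le_skeleton b.1 (Nat.lt_succ_self d)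
  exact h1 _ ⟨_, rfl⟩

/-- coproduct of the `E' b`. -/
noncomputable abbrev sE : SSet.{0} := ∐ fun b : B.nonDegenerate d => X.E' b

/-- coproduct of the `A b`. -/
noncomputable abbrev sA : SSet.{0} := ∐ fun b : B.nonDegenerate d => (X.A b : SSet.{0})

noncomputable abbrev ιE (b : B.nonDegenerate d) : X.E' b ⟶ X.sE :=
  Sigma.ι (fun b : B.nonDegenerate d => X.E' b) b

noncomputable abbrev ιA (b : B.nonDegenerate d) : (X.A b : SSet.{0}) ⟶ X.sA :=
  Sigma.ι (fun b : B.nonDegenerate d => (X.A b : SSet.{0})) b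

/-- left map. -/
noncomputable abbrev l : X.sA ⟶ X.sE := Limits.Sigma.map (fun b => (X.A b).ι)

/-- top map. -/
noncomputable abbrev t : X.sA ⟶ (X.C : SSet.{0}) :=
  Sigma.desc (fun b => Subcomplex.lift ((X.A b).ι ≫ X.φ b) (X.rangeA b))

/-- bottom map. -/
noncomputable abbrev bb : X.sE ⟶ (X.D : SSet.{0}) :=
  Sigma.desc (fun b => Subcomplex.lift (X.φ b) (X.rangeE b))

/-- right map. -/
abbrev r : (X.C : SSet.{0}) ⟶ (X.D : SSet.{0}) := Subcomplex.homOfLE X.hCD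

theorem ι_l (b : B.nonDegenerate d) : X.ιA b ≫ X.l = (X.A b).ι ≫ X.ιE b := by
  simp

theorem ι_bb_ι (b : B.nonDegenerate d) : X.ιE b ≫ X.bb ≫ X.D.ι = X.φ b := by
  simp

theorem ι_t_ι (b : B.nonDegenerate d) : X.ιA b ≫ X.t ≫ X.C.ι = (X.A b).ι ≫ X.φ b := by
  simp

theorem w : X.t ≫ X.r = X.l ≫ X.bb := by
  ext c : 1
  rw [← cancel_mono X.D.ι, Category.assoc, Category.assoc, Category.assoc, Category.assoc,
    Subcomplex.homOfLE_ι, X.ι_t_ι, ← Category.assoc, X.ι_l, Category.assoc, X.ι_bb_ι]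

theorem jointly_surjective {n : SimplexCategoryᵒᵖ} (a : X.sE.obj n) :
    ∃ (b : B.nonDegenerate d) (x : (X.E' b).obj n), (X.ιE b).app n x = a :=
  Cofan.inj_jointly_surjective_of_isColimit
    (isColimitCofanMkObjOfIsColimit ((CategoryTheory.evaluation _ _).obj _) _ _
      (coproductIsCoproduct _)) a

theorem bb_app (b : B.nonDegenerate d) (n : SimplexCategoryᵒᵖ) (x : (X.E' b).obj n) :
    (X.bb.app n ((X.ιE b).app n x)).1 = (X.φ b).app n x :=
  congr($(X.ι_bb_ι b).app n x)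

instance : Mono X.l := by
  unfold l
  infer_instance

set_option backward.isDefEq.respectTransparency.types false in
set_option backward.defeqAttrib.useBackward true in
theorem isPullback : IsPullback X.t X.l X.r X.bb where
  w := X.w
  isLimit' := ⟨evaluationJointlyReflectsLimits _ (fun ⟨⟨n⟩⟩ ↦ by
    refine (isLimitMapConePullbackConeEquiv _ _).2
      (IsPullback.isLimit ?_)
    dsimp
    rw [Types.isPullback_iff]
    refine ⟨NatTrans.congr_app X.w _,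
      fun x₁ x₂ ⟨_, h⟩ ↦ injective_of_mono (X.l.app (op ⦋n⦌)) h,
      fun ⟨x, hx⟩ y h ↦ ?_⟩
    rw [Subtype.ext_iff] at h
    obtain ⟨c, y, rfl⟩ := X.jointly_surjective y
    have h' : x = (X.φ c).app (op ⦋n⦌) y := by
      rw [← X.bb_app c (op ⦋n⦌) y]
      exact h
    subst h'
    refine ⟨(X.ιA c).app (op ⦋n⦌) ⟨y, (X.mem_A_iff c _ y).2 hx⟩, ?_, ?_⟩
    · rw [Subtype.ext_iff]
      exact congr($(X.ι_t_ι c).app _ ⟨y, _⟩)
    · exact congr($(X.ι_l c).app _ ⟨y, _⟩))⟩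

theorem exists_lift (n : ℕ) (x : E _⦋n⦌) (hx : x ∈ X.D.obj (op ⦋n⦌)) (hx' : x ∉ X.C.obj (op ⦋n⦌)) :
    ∃ (b : B.nonDegenerate d) (y : (X.E' b) _⦋n⦌), (X.φ b).app _ y = x := by
  rw [X.hD, skeleton_succ] at hx
  rw [X.hC] at hx'
  simp only [Subfunctor.max_obj, Subfunctor.iSup_obj, Set.mem_union, Set.mem_iUnion] at hx
  rcases hx with hx | ⟨b, hb⟩
  · exact absurd hx hx'
  · obtain ⟨f, hf⟩ := hb
    by_cases he : Epi f.unop
    · obtain ⟨e', ⟨h1, h2⟩, -⟩ := X.hu b n f.unop he x hf.symm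
      exact ⟨b, e', h1⟩
    · exfalso
      apply hx'
      have h3 : (stdSimplex.objEquiv.symm f.unop : Δ[d] _⦋n⦌) ∈
          (∂Δ[d] : (Δ[d] : SSet.{0}).Subcomplex).obj (op ⦋n⦌) := by
        rw [SimplexCategory.epi_iff_surjective] at he
        exact he
      rw [← preimage_yoneda b] at h3
      rw [← hf]
      exact h3

theorem union_range (n : ℕ) :
    Set.range (X.r.app (op ⦋n⦌)) ∪ Set.range (X.bb.app (op ⦋n⦌)) = Set.univ := by
  rw [Set.eq_univ_iff_forall]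
  rintro ⟨x, hx⟩
  by_cases h : x ∈ X.C.obj (op ⦋n⦌)
  · exact Or.inl ⟨⟨x, h⟩, rfl⟩
  · obtain ⟨b, y, rfl⟩ := X.exists_lift n x hx h
    exact Or.inr ⟨(X.ιE b).app _ y, Subtype.ext (X.bb_app b _ y)⟩

theorem aux {n : ℕ} (y : X.sE _⦋n⦌) (hy : y ∉ Set.range (X.l.app (op ⦋n⦌))) :
    ∃ (b : B.nonDegenerate d) (f : ⦋n⦌ ⟶ ⦋d⦌) (_ : Epi f) (e : (X.E' b) _⦋n⦌),
      (X.q b).app _ e = stdSimplex.objEquiv.symm f ∧ (X.ιE b).app _ e = y := by
  obtain ⟨b, e, rfl⟩ := X.jointly_surjective y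
  have hs : e ∉ (X.A b).obj _ :=
    fun hs ↦ hy (⟨(X.ιA b).app _ ⟨e, hs⟩, congr($(X.ι_l b).app _ ⟨e, _⟩)⟩)
  rw [X.hA] at hs
  refine ⟨b, stdSimplex.objEquiv ((X.q b).app _ e), ?_, e, by simp, rfl⟩
  simpa [SimplexCategory.epi_iff_surjective, boundary] using! hs

set_option backward.defeqAttrib.useBackward true in
theorem isPushout : IsPushout X.t X.l X.r X.bb where
  w := X.w
  isColimit' := ⟨evaluationJointlyReflectsColimits _ (fun ⟨⟨n⟩⟩ ↦ by
    refine (isColimitMapCoconePushoutCoconeEquiv _ _).2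
      (IsPushout.isColimit ?_)
    refine Types.isPushout_of_isPullback_of_mono' ?_ ?_ ?_
    · exact (X.isPullback).map ((evaluation _ _).obj _)
    · exact X.union_range _
    · dsimp
      intro x₁ x₂ hx₁ hx₂ h
      obtain ⟨c₁, f₁, _, e₁, h₁, rfl⟩ := X.aux x₁ hx₁
      obtain ⟨c₂, f₂, _, e₂, h₂, rfl⟩ := X.aux x₂ hx₂
      rw [Subtype.ext_iff] at h
      replace h : (X.φ c₁).app _ e₁ = (X.φ c₂).app _ e₂ := by
        rwa [← X.bb_app c₁ _ e₁, ← X.bb_app c₂ _ e₂]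
      have g₁ : p.app _ ((X.φ c₁).app _ e₁) = B.map f₁.op c₁.1 := by
        rw [X.hφapp, h₁]
        rfl
      have g₂ : p.app _ ((X.φ c₂).app _ e₂) = B.map f₂.op c₂.1 := by
        rw [X.hφapp, h₂]
        rfl
      have h3 : B.map f₁.op c₁.1 = B.map f₂.op c₂.1 := by
        rw [← g₁, ← g₂, h]
      obtain rfl : c₁ = c₂ :=
        B.unique_nonDegenerate_simplex _ f₁ c₁ rfl f₂ c₂ h3
      obtain rfl : f₁ = f₂ :=
        B.unique_nonDegenerate_map _ f₁ c₁ rfl f₂ c₁ h3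
      have := (X.hu c₁ n f₁ inferInstance _ g₁).unique ⟨rfl, h₁⟩ ⟨h.symm, h₂⟩
      rw [this])⟩

end CD

/-- The data for the identity of `B`. -/
noncomputable def base (B : SSet.{0}) (d : ℕ) : CD (𝟙 B) d where
  C := B.skeleton d
  D := B.skeleton (d + 1)
  hC := fun _ _ => Iff.rfl
  hD := fun _ _ => Iff.rfl
  E' := fun _ => Δ[d]
  q := fun _ => 𝟙 _
  φ := fun b => SSet.yonedaEquiv.symm b.1
  hφ := fun b => by rw [Category.comp_id, Category.id_comp]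
  hu := by
    intro b m a ha e he
    refine ⟨stdSimplex.objEquiv.symm a, ⟨?_, rfl⟩, fun e' he' => he'.2⟩
    exact he.symm
  A := fun _ => ∂Δ[d]
  hA := fun _ _ _ => Iff.rfl

theorem glueStep {P : MorphismProperty SSet.{0}} (hP : WClass P) {E E₂ B : SSet.{0}}
    {p : E ⟶ B} {p₂ : E₂ ⟶ B} {d : ℕ} (X : CD p d) (Y : CD p₂ d) (m : E ⟶ E₂)
    (b' : ∀ b, X.E' b ⟶ Y.E' b) (hb' : ∀ b, b' b ≫ Y.φ b = X.φ b ≫ m)
    (a' : ∀ b, (X.A b : SSet.{0}) ⟶ (Y.A b : SSet.{0}))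
    (ha' : ∀ b, a' b ≫ (Y.A b).ι = (X.A b).ι ≫ b' b)
    (c : (X.C : SSet.{0}) ⟶ (Y.C : SSet.{0})) (hc : c ≫ Y.C.ι = X.C.ι ≫ m)
    (g : (X.D : SSet.{0}) ⟶ (Y.D : SSet.{0})) (hg : g ≫ Y.D.ι = X.D.ι ≫ m)
    (h1 : ∀ b, P (a' b)) (h2 : ∀ b, P (b' b)) (h3 : P c) : P g := by
  have hι : ∀ j, X.ιA j ≫ Limits.Sigma.map a' = a' j ≫ Y.ιA j := fun j => by
    simp
  have hιE : ∀ j, X.ιE j ≫ Limits.Sigma.map b' = b' j ≫ Y.ιE j := fun j => by
    simp
  refine hP.glue X.l X.t X.bb X.r Y.l Y.t Y.bb Y.r (Limits.Sigma.map a') (Limits.Sigma.map b')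
    c g X.isPushout.flip Y.isPushout.flip
    inferInstance inferInstance ?_ ?_ ?_ ?_ (hP.copr _ _ _ _ h1)
    (hP.copr _ _ _ _ h2) h3
  · apply Limits.Sigma.hom_ext
    intro j
    change X.ιA j ≫ X.l ≫ Limits.Sigma.map b' = X.ιA j ≫ Limits.Sigma.map a' ≫ Y.l
    rw [← Category.assoc, X.ι_l, Category.assoc, hιE, ← Category.assoc (X.ιA j), hι,
      Category.assoc, Y.ι_l, ← Category.assoc, ← Category.assoc, ha']
  · apply Limits.Sigma.hom_ext
    intro j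
    change X.ιA j ≫ X.t ≫ c = X.ιA j ≫ Limits.Sigma.map a' ≫ Y.t
    rw [← cancel_mono Y.C.ι]
    simp only [Category.assoc]
    rw [hc, ← Category.assoc (X.ιA j) (Limits.Sigma.map a'), hι, Category.assoc, Y.ι_t_ι,
      ← Category.assoc (X.t),
      ← Category.assoc (X.ιA j), X.ι_t_ι, Category.assoc, ← hb', ← Category.assoc,
      ← Category.assoc, ha']
  · apply Limits.Sigma.hom_ext
    intro j
    change X.ιE j ≫ X.bb ≫ g = X.ιE j ≫ Limits.Sigma.map b' ≫ Y.bb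
    rw [← cancel_mono Y.D.ι]
    simp only [Category.assoc]
    rw [hg, ← Category.assoc (X.ιE j) (Limits.Sigma.map b'), hιE, Category.assoc, Y.ι_bb_ι,
      ← Category.assoc (X.bb),
      ← Category.assoc (X.ιE j), X.ι_bb_ι, hb']
  · rw [← cancel_mono Y.D.ι, Category.assoc, Category.assoc, hg, Subcomplex.homOfLE_ι, hc,
      ← Category.assoc, Subcomplex.homOfLE_ι]

theorem step {P : MorphismProperty SSet.{0}} (hP : WClass P) {E B : SSet.{0}} {p : E ⟶ B}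
    {d : ℕ} (X : CD p d) (hq : ∀ b, P (X.q b))
    (hb : ∀ b (g : (X.A b : SSet.{0}) ⟶ (∂Δ[d] : SSet.{0})),
      g ≫ (∂Δ[d] : (Δ[d] : SSet.{0}).Subcomplex).ι = (X.A b).ι ≫ X.q b → P g)
    (hc : ∀ g : (X.C : SSet.{0}) ⟶ (B.skeleton d : SSet.{0}),
      g ≫ (B.skeleton d).ι = X.C.ι ≫ p → P g)
    (g : (X.D : SSet.{0}) ⟶ (B.skeleton (d + 1) : SSet.{0}))
    (hg : g ≫ (B.skeleton (d + 1)).ι = X.D.ι ≫ p) : P g := by
  have hA : ∀ b, Subcomplex.range ((X.A b).ι ≫ X.q b) ≤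
      (∂Δ[d] : (Δ[d] : SSet.{0}).Subcomplex) := by
    rintro b n _ ⟨e, rfl⟩
    exact (X.hA b n e.1).1 e.2
  have hC : Subcomplex.range (X.C.ι ≫ p) ≤ B.skeleton d := by
    rintro n _ ⟨e, rfl⟩
    exact (X.hC n e.1).1 e.2
  exact glueStep hP X (base B d) p X.q (fun b => (X.hφ b).symm)
    (fun b => Subcomplex.lift ((X.A b).ι ≫ X.q b) (hA b)) (fun b => rfl)
    (Subcomplex.lift (X.C.ι ≫ p) hC) rfl g hg (fun b => hb b _ rfl) hq (hc _ rfl)

end WcCell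

namespace WcCell

theorem isIso_of_bot {E B : SSet.{0}} (S : E.Subcomplex) (T : B.Subcomplex) (hS : S = ⊥)
    (hT : T = ⊥) (g : (S : SSet.{0}) ⟶ (T : SSet.{0})) : IsIso g := by
  subst hS hT
  exact isIso_of_isInitial Subcomplex.isInitialBot Subcomplex.isInitialBot g

/-- The comparison `F ⊗ A ⟶ p^-1 A` for the projection `p : F ⊗ X ⟶ X`. -/
def cmp (F X : SSet.{0}) (A : X.Subcomplex) :
    F ⊗ (A : SSet.{0}) ⟶ (A.preimage (CartesianMonoidalCategory.snd F X) : SSet.{0}) :=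
  Subcomplex.lift (F ◁ A.ι) (by
    rintro n _ ⟨⟨x, a⟩, rfl⟩
    exact a.2)

theorem cmp_comp (F X : SSet.{0}) (A : X.Subcomplex) :
    cmp F X A ≫ A.fromPreimage (CartesianMonoidalCategory.snd F X) =
      CartesianMonoidalCategory.snd F (A : SSet.{0}) := by
  rw [← cancel_mono A.ι, Category.assoc, Subcomplex.fromPreimage_ι]
  change F ◁ A.ι ≫ CartesianMonoidalCategory.snd F X = _
  simp

theorem cmp_isIso (F X : SSet.{0}) (A : X.Subcomplex) : IsIso (cmp F X A) := by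
  refine ⟨CartesianMonoidalCategory.lift
    ((A.preimage (CartesianMonoidalCategory.snd F X)).ι ≫ CartesianMonoidalCategory.fst F X)
    (A.fromPreimage (CartesianMonoidalCategory.snd F X)), ?_, ?_⟩
  · ext n ⟨x, a⟩
    rfl
    rfl
  · rfl

end WcCell

theorem wc_cell (h1 : WC_PUSH_Stmt) (h2 : WC_USEQ_Stmt) : WC_CELL_Stmt := by
  intro P hP E B p H
  choose E' q φ hq hq' hφ hu using H
  have key : ∀ (n : ℕ) (g : ((B.skeleton n).preimage p : SSet.{0}) ⟶ (B.skeleton n : SSet.{0})),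
      g ≫ (B.skeleton n).ι = ((B.skeleton n).preimage p).ι ≫ p → P g := by
    intro n
    induction n with
    | zero =>
      intro g hg
      apply hP.iso
      have h0 : B.skeleton 0 = ⊥ := skeleton_zero B
      refine WcCell.isIso_of_bot _ _ ?_ h0 g
      rw [h0]
      rfl
    | succ n ih =>
      intro g hg
      let X : WcCell.CD p n :=
        { C := (B.skeleton n).preimage p
          D := (B.skeleton (n + 1)).preimage p
          hC := fun _ _ => Iff.rfl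
          hD := fun _ _ => Iff.rfl
          E' := fun b => E' n b.1 b.2
          q := fun b => q n b.1 b.2
          φ := fun b => φ n b.1 b.2
          hφ := fun b => hφ n b.1 b.2
          hu := fun b m a ha e he => hu n b.1 b.2 m a ha e he
          A := fun b => (∂Δ[n] : (Δ[n] : SSet.{0}).Subcomplex).preimage (q n b.1 b.2)
          hA := fun _ _ _ => Iff.rfl }
      refine WcCell.step hP X (fun b => hq n b.1 b.2) ?_ ih g hg
      intro b g hg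
      have h3 : g = (∂Δ[n] : (Δ[n] : SSet.{0}).Subcomplex).fromPreimage (q n b.1 b.2) := by
        rw [← cancel_mono (∂Δ[n] : (Δ[n] : SSet.{0}).Subcomplex).ι, hg]
        rfl
      rw [h3]
      exact hq' n b.1 b.2
  refine h2 P hP E B p ⟨fun n => (B.skeleton n).preimage p, ?_⟩ B.skeleton (fun n => le_refl _)
    ?_ B.iSup_skeleton key
  · intro m n hmn k e he
    exact B.skeleton.monotone hmn _ he
  · change ⨆ n, (B.skeleton n).preimage p = ⊤
    rw [← Subcomplex.preimage_iSup, B.iSup_skeleton]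
    rfl

theorem wc_open (h0 : WC_CELL_Stmt) (h1 : WC_PROD_Stmt) (h2 : WC_ACY_Stmt) : WC_OPEN_Stmt := by
  intro P hP E B p H
  apply h0 P hP E B p
  intro n b hb
  obtain ⟨F, φ, hF, hφ, hu⟩ := H n b hb
  refine ⟨F ⊗ Δ[n], CartesianMonoidalCategory.snd F Δ[n], φ, (h2 P hP F _ hF).1, ?_, hφ, ?_⟩
  · refine hP.cancelL (WcCell.cmp F Δ[n] (∂Δ[n] : (Δ[n] : SSet.{0}).Subcomplex)) _
      (hP.iso _ (WcCell.cmp_isIso _ _ _)) ?_
    rw [WcCell.cmp_comp]
    exact (h2 P hP F _ hF).1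
  · intro m a ha e he
    obtain ⟨f, hf, hf'⟩ := hu m a ha e he
    refine ⟨(f, stdSimplex.objEquiv.symm a), ⟨hf, rfl⟩, ?_⟩
    rintro ⟨f2, s⟩ ⟨h3, h4⟩
    have h5 : s = stdSimplex.objEquiv.symm a := h4
    subst h5
    rw [hf' f2 h3]

end Pool.Agent.SH
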