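import Mathlib
import Pool.Agent.SH.StmtsTE

/-!
# MP_2d0b73_an, block TE: products, pushout products and acyclic factors for a `WClass`
-/

open CategoryTheory MonoidalCategory Simplicial SSet HomotopicalAlgebra Opposite Limits
open SSet.modelCategoryQuillen

namespace Pool.Agent.SH

namespace WcProd

/-- `X ⊗ -` has a right adjoint. -/
theorem tensorLeft_isLeftAdjoint (X : SSet.{0}) : (tensorLeft X).IsLeftAdjoint :=
  (ihom.adjunction X).isLeftAdjoint

theorem mono_whiskerLeft (X : SSet.{0}) {A B : SSet.{0}} (i : A ⟶ B) (hi : Mono i) :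
    Mono (X ◁ i) := by
  refine ⟨fun {Z} u v h => ?_⟩
  refine CartesianMonoidalCategory.hom_ext _ _ ?_ ?_
  · have h1 := congrArg (fun w => w ≫ CartesianMonoidalCategory.fst X B) h
    simpa only [Category.assoc, CartesianMonoidalCategory.whiskerLeft_fst] using h1
  · have h1 := congrArg (fun w => w ≫ CartesianMonoidalCategory.snd X B) h
    simp only [Category.assoc, CartesianMonoidalCategory.whiskerLeft_snd] at h1
    rw [← Category.assoc, ← Category.assoc] at h1
    exact (cancel_mono i).1 h1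

theorem mono_whiskerRight (X : SSet.{0}) {A B : SSet.{0}} (i : A ⟶ B) (hi : Mono i) :
    Mono (i ▷ X) := by
  refine ⟨fun {Z} u v h => ?_⟩
  refine CartesianMonoidalCategory.hom_ext _ _ ?_ ?_
  · have h1 := congrArg (fun w => w ≫ CartesianMonoidalCategory.fst B X) h
    simp only [Category.assoc, CartesianMonoidalCategory.whiskerRight_fst] at h1
    rw [← Category.assoc, ← Category.assoc] at h1
    exact (cancel_mono i).1 h1
  · have h1 := congrArg (fun w => w ≫ CartesianMonoidalCategory.snd B X) h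
    simpa only [Category.assoc, CartesianMonoidalCategory.whiskerRight_snd] using h1

theorem whiskerRight_iso {P : MorphismProperty SSet.{0}} (hP : WClass P) {X Y : SSet.{0}}
    (f : X ⟶ Y) {K L : SSet.{0}} (e : K ≅ L) (h : P (f ▷ K)) : P (f ▷ L) := by
  have h1 : X ◁ e.inv ≫ f ▷ K ≫ Y ◁ e.hom = f ▷ L := by
    rw [← whisker_exchange, ← Category.assoc, ← MonoidalCategory.whiskerLeft_comp,
      e.inv_hom_id, MonoidalCategory.whiskerLeft_id, Category.id_comp]
  rw [← h1]
  exact hP.comp _ _ (hP.iso _ inferInstance) (hP.comp _ _ h (hP.iso _ inferInstance))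

theorem whiskerRight_stdSimplex {P : MorphismProperty SSet.{0}} (hP : WClass P)
    {X Y : SSet.{0}} (f : X ⟶ Y) (hf : P f) (n : ℕ) : P (f ▷ (Δ[n] : SSet.{0})) := by
  have h1 : f ▷ (Δ[n] : SSet.{0}) ≫ CartesianMonoidalCategory.fst Y (Δ[n] : SSet.{0}) =
      CartesianMonoidalCategory.fst X (Δ[n] : SSet.{0}) ≫ f :=
    CartesianMonoidalCategory.whiskerRight_fst _ _
  refine hP.cancelR _ _ (hP.proj Y n) ?_
  rw [h1]
  exact hP.comp _ _ (hP.proj X n) hf

theorem whiskerRight_sigma {P : MorphismProperty SSet.{0}} (hP : WClass P) {X Y : SSet.{0}}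
    (f : X ⟶ Y) (J : Type) (K : J → SSet.{0}) (h : ∀ j, P (f ▷ K j)) : P (f ▷ (∐ K)) := by
  have := tensorLeft_isLeftAdjoint X
  have := tensorLeft_isLeftAdjoint Y
  have h1 : P (Limits.Sigma.map (fun j => f ▷ K j)) := hP.copr J _ _ _ h
  have h2 : sigmaComparison (tensorLeft X) K ≫ f ▷ (∐ K) =
      Limits.Sigma.map (fun j => f ▷ K j) ≫ sigmaComparison (tensorLeft Y) K := by
    refine Limits.Sigma.hom_ext _ _ fun j => ?_
    have e1 : Limits.Sigma.ι (fun b => (tensorLeft X).obj (K b)) j ≫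
        sigmaComparison (tensorLeft X) K = X ◁ Limits.Sigma.ι K j :=
      ι_comp_sigmaComparison (tensorLeft X) K j
    have e2 : Limits.Sigma.ι (fun b => (tensorLeft Y).obj (K b)) j ≫
        sigmaComparison (tensorLeft Y) K = Y ◁ Limits.Sigma.ι K j :=
      ι_comp_sigmaComparison (tensorLeft Y) K j
    have e3 : Limits.Sigma.ι (fun b => X ⊗ K b) j ≫ Limits.Sigma.map (fun j => f ▷ K j) =
        f ▷ K j ≫ Limits.Sigma.ι (fun b => Y ⊗ K b) j :=
      Limits.Sigma.ι_map _ _
    have e4 : X ◁ Limits.Sigma.ι K j ≫ f ▷ (∐ K) = f ▷ K j ≫ Y ◁ Limits.Sigma.ι K j :=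
      whisker_exchange _ _
    calc Limits.Sigma.ι (fun b => (tensorLeft X).obj (K b)) j ≫
          sigmaComparison (tensorLeft X) K ≫ f ▷ (∐ K)
        = (Limits.Sigma.ι (fun b => (tensorLeft X).obj (K b)) j ≫
          sigmaComparison (tensorLeft X) K) ≫ f ▷ (∐ K) := (Category.assoc _ _ _).symm
      _ = f ▷ K j ≫ Y ◁ Limits.Sigma.ι K j := by rw [e1]; exact e4
      _ = f ▷ K j ≫ Limits.Sigma.ι (fun b => (tensorLeft Y).obj (K b)) j ≫
          sigmaComparison (tensorLeft Y) K := by rw [e2]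
      _ = (f ▷ K j ≫ Limits.Sigma.ι (fun b => (tensorLeft Y).obj (K b)) j) ≫
          sigmaComparison (tensorLeft Y) K := (Category.assoc _ _ _).symm
      _ = (Limits.Sigma.ι (fun b => X ⊗ K b) j ≫ Limits.Sigma.map (fun j => f ▷ K j)) ≫
          sigmaComparison (tensorLeft Y) K :=
            congrArg (fun w => w ≫ sigmaComparison (tensorLeft Y) K) e3.symm
      _ = _ := Category.assoc _ _ _
  have h3 : P (sigmaComparison (tensorLeft X) K) := hP.iso _ inferInstance
  have h4 : P (sigmaComparison (tensorLeft Y) K) := hP.iso _ inferInstance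
  refine hP.cancelL _ _ h3 ?_
  rw [h2]
  exact hP.comp _ _ h1 h4

theorem whiskerRight_pushout {P : MorphismProperty SSet.{0}} (hP : WClass P)
    {X Y : SSet.{0}} (f : X ⟶ Y) {A B C D : SSet.{0}} (i : A ⟶ B) (g : A ⟶ C) (i' : B ⟶ D)
    (g' : C ⟶ D) (sq : IsPushout i g i' g') (hi : Mono i) (hA : P (f ▷ A)) (hB : P (f ▷ B))
    (hC : P (f ▷ C)) : P (f ▷ D) := by
  have := tensorLeft_isLeftAdjoint X
  have := tensorLeft_isLeftAdjoint Y
  have sqX : IsPushout (X ◁ i) (X ◁ g) (X ◁ i') (X ◁ g') := sq.map (tensorLeft X)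
  have sqY : IsPushout (Y ◁ i) (Y ◁ g) (Y ◁ i') (Y ◁ g') := sq.map (tensorLeft Y)
  have mX : Mono (X ◁ i) := mono_whiskerLeft X i hi
  have mY : Mono (Y ◁ i) := mono_whiskerLeft Y i hi
  exact hP.glue _ _ _ _ _ _ _ _ (f ▷ A) (f ▷ B) (f ▷ C) (f ▷ D) sqX sqY mX mY
    (whisker_exchange _ _) (whisker_exchange _ _) (whisker_exchange _ _)
    (whisker_exchange _ _) hA hB hC

theorem whiskerRight_seq {P : MorphismProperty SSet.{0}} (hP : WClass P)
    {X Y : SSet.{0}} (f : X ⟶ Y) (F : ℕ ⥤ SSet.{0}) (c : Cocone F) (hc : IsColimit c)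
    (hm : ∀ n : ℕ, Mono (F.map (homOfLE (Nat.le_succ n)))) (h : ∀ n : ℕ, P (f ▷ F.obj n)) :
    P (f ▷ c.pt) := by
  have := tensorLeft_isLeftAdjoint X
  have := tensorLeft_isLeftAdjoint Y
  let α : F ⋙ tensorLeft X ⟶ F ⋙ tensorLeft Y :=
    { app := fun n => f ▷ F.obj n
      naturality := fun _ _ _ => whisker_exchange _ _ }
  refine hP.seq (F ⋙ tensorLeft X) (F ⋙ tensorLeft Y) α ((tensorLeft X).mapCocone c)
    ((tensorLeft Y).mapCocone c) (isColimitOfPreserves _ hc) (isColimitOfPreserves _ hc)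
    (fun n => mono_whiskerLeft X _ (hm n)) (fun n => mono_whiskerLeft Y _ (hm n)) h
    (f ▷ c.pt) (fun n => whisker_exchange _ _)

theorem whiskerRight_all (h1 : SK_IND_Stmt) {P : MorphismProperty SSet.{0}} (hP : WClass P)
    {X Y : SSet.{0}} (f : X ⟶ Y) (hf : P f) (K : SSet.{0}) : P (f ▷ K) :=
  h1 K (fun K' _ => P (f ▷ K'))
    (fun _ _ e _ h => whiskerRight_iso hP f e h)
    (fun n _ => whiskerRight_stdSimplex hP f hf n)
    (fun J K' _ h => whiskerRight_sigma hP f J K' h)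
    (fun _ _ _ _ i g i' g' _ sq hi hA hB hC =>
      whiskerRight_pushout hP f i g i' g' sq hi hA hB hC)
    (fun F c _ hc hm h => whiskerRight_seq hP f F c hc hm h)
    K (𝟙 K)

end WcProd

open WcProd

set_option linter.unusedVariables false in
/-- (C6) products. -/
theorem wc_prod (h1 : SK_IND_Stmt) (h2 : WC_PUSH_Stmt) : WC_PROD_Stmt := by
  intro P hP X Y K f hf
  have h3 : P (f ▷ K) := whiskerRight_all h1 hP f hf K
  refine ⟨h3, ?_⟩
  have h4 : (β_ K X).hom ≫ f ▷ K ≫ (β_ K Y).inv = K ◁ f := by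
    rw [← Category.assoc, ← BraidedCategory.braiding_naturality_right, Category.assoc,
      Iso.hom_inv_id, Category.comp_id]
  rw [← h4]
  exact hP.comp _ _ (hP.iso _ inferInstance) (hP.comp _ _ h3 (hP.iso _ inferInstance))

set_option linter.unusedVariables false in
/-- (C7) pushout products of subcomplexes. -/
theorem wc_pp (h1 : WC_PROD_Stmt) (h2 : WC_PUSH_Stmt) (h3 : WC_UNION_Stmt) : WC_PP_Stmt := by
  intro P hP X Y A B hA
  have hY : P (A.ι ▷ Y) := (h1 P hP _ _ Y A.ι hA).1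
  have hB : P (A.ι ▷ (B : SSet.{0})) := (h1 P hP _ _ (B : SSet.{0}) A.ι hA).1
  have hm : Mono (A.ι ▷ (B : SSet.{0})) := mono_whiskerRight _ _ inferInstance
  have h4 : P (Subcomplex.unionProd.ι₂ A B) :=
    (h2 P hP).1 _ _ _ _ _ _ _ _ (Subcomplex.unionProd.isPushout A B) hm hB
  refine hP.cancelL _ _ h4 ?_
  rw [Subcomplex.unionProd.ι₂_ι]
  exact hY

/-- (C11) acyclic factors. -/
theorem wc_acy (h1 : WC_PROD_Stmt) : WC_ACY_Stmt := by
  intro P hP F X hF
  have h2 := h1 P hP _ _ X _ hF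
  constructor
  · have h3 : CartesianMonoidalCategory.snd F X =
        CartesianMonoidalCategory.toUnit F ▷ X ≫ (λ_ X).hom := by
      rw [CartesianMonoidalCategory.leftUnitor_hom, CartesianMonoidalCategory.whiskerRight_snd]
    rw [h3]
    exact hP.comp _ _ h2.1 (hP.iso _ inferInstance)
  · have h3 : CartesianMonoidalCategory.fst X F =
        X ◁ CartesianMonoidalCategory.toUnit F ≫ (ρ_ X).hom := by
      rw [CartesianMonoidalCategory.rightUnitor_hom, CartesianMonoidalCategory.whiskerLeft_fst]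
    rw [h3]
    exact hP.comp _ _ h2.2 (hP.iso _ inferInstance)

end Pool.Agent.SH
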