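import Mathlib
import Pool.Agent.SH.StmtsTE

/-!
# MP_2d0b73_an, block TE: pushouts, homotopic maps, unions in a `WClass`
-/

open CategoryTheory MonoidalCategory Simplicial SSet HomotopicalAlgebra Opposite Limits
open SSet.modelCategoryQuillen

namespace Pool.Agent.SH

namespace WcPush

variable {P : MorphismProperty SSet.{0}}

theorem pid (hP : WClass P) (X : SSet.{0}) : P (𝟙 X) := hP.iso _ inferInstance

theorem pι₀ (hP : WClass P) (X : SSet.{0}) : P (ι₀ : X ⟶ X ⊗ Δ[1]) := by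
  refine hP.cancelR ι₀ (CartesianMonoidalCategory.fst X Δ[1]) (hP.proj X 1) ?_
  rw [ι₀_fst]
  exact pid hP X

theorem pι₁ (hP : WClass P) (X : SSet.{0}) : P (ι₁ : X ⟶ X ⊗ Δ[1]) := by
  refine hP.cancelR ι₁ (CartesianMonoidalCategory.fst X Δ[1]) (hP.proj X 1) ?_
  rw [ι₁_fst]
  exact pid hP X

theorem hty (hP : WClass P) {X Y : SSet.{0}} {f g : X ⟶ Y} (h : Hty f g) : P f ↔ P g := by
  obtain ⟨H, h0, h1⟩ := (Hty_iff f g).1 h
  have e0 : P f ↔ P H := by
    rw [← h0]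
    exact ⟨hP.cancelL _ _ (pι₀ hP X), hP.comp _ _ (pι₀ hP X)⟩
  have e1 : P g ↔ P H := by
    rw [← h1]
    exact ⟨hP.cancelL _ _ (pι₁ hP X), hP.comp _ _ (pι₁ hP X)⟩
  exact e0.trans e1.symm

theorem eqv (hP : WClass P) {X Y : SSet.{0}} {f g : X ⟶ Y}
    (h : Relation.EqvGen (Hty (A := X) (T := Y)) f g) : P f ↔ P g := by
  induction h with
  | rel f g h => exact hty hP h
  | refl f => exact Iff.rfl
  | symm f g _ ih => exact ih.symm
  | trans f g h _ _ ih1 ih2 => exact ih1.trans ih2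

theorem sq (X : SSet.{0}) (A B : X.Subcomplex) (h : A ⊔ B = ⊤) :
    IsPushout (Subcomplex.homOfLE (inf_le_left : A ⊓ B ≤ A))
      (Subcomplex.homOfLE (inf_le_right : A ⊓ B ≤ B)) A.ι B.ι := by
  have s : Subcomplex.BicartSq (A ⊓ B) A B ⊤ := { sup_eq := h, inf_eq := rfl }
  exact s.isPushout.of_iso (Iso.refl _) (Iso.refl _) (Iso.refl _) (Subcomplex.topIso X)
    rfl rfl rfl rfl

end WcPush

open WcPush

theorem wc_push : WC_PUSH_Stmt := by
  intro P hP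
  refine ⟨?_, ?_, ?_⟩
  · intro A B C D i f g j h hi hPi
    have s : IsPushout (𝟙 A) f f (𝟙 C) := IsPushout.of_horiz_isIso ⟨by simp⟩
    exact hP.glue (𝟙 A) f f (𝟙 C) i f g j (𝟙 A) i (𝟙 C) j s h inferInstance hi
      rfl (by simp) h.w.symm rfl (pid hP A) hPi (pid hP C)
  · intro A B C D i f g j h hi hPf
    have s : IsPushout i (𝟙 A) (𝟙 B) i := IsPushout.of_vert_isIso ⟨by simp⟩
    exact hP.glue i (𝟙 A) (𝟙 B) i i f g j (𝟙 A) (𝟙 B) f g s h hi hi
      (by simp) rfl rfl h.w (pid hP A) (pid hP B) hPf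
  · intro X Y f g h
    exact eqv hP h

theorem wc_heq : WC_HEQ_Stmt := by
  intro P hP X Y f g h1 h2
  have e1 : P (f ≫ g) := (eqv hP h1).2 (pid hP X)
  have e2 : P (g ≫ f) := (eqv hP h2).2 (pid hP Y)
  have e3 : P g := hP.six f g f e1 e2
  exact ⟨hP.cancelR f g e3 e1, e3⟩

theorem wc_union (h : WC_PUSH_Stmt) : WC_UNION_Stmt := by
  intro P hP X Y f A B A' B' hA hB hAB hAB' pA pB pI
  have _ := h
  have hI : A ⊓ B ≤ (A' ⊓ B').preimage f := le_inf (inf_le_left.trans hA) (inf_le_right.trans hB)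
  refine hP.glue _ _ _ _ _ _ _ _
    (Subcomplex.homOfLE hI ≫ (A' ⊓ B').fromPreimage f)
    (Subcomplex.homOfLE hA ≫ A'.fromPreimage f)
    (Subcomplex.homOfLE hB ≫ B'.fromPreimage f) f
    (sq X A B hAB) (sq Y A' B' hAB') inferInstance inferInstance rfl rfl rfl rfl
    (pI _ rfl) (pA _ rfl) (pB _ rfl)

end Pool.Agent.SH
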