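import Mathlib
import Pool.Agent.SH.StmtsTE

/-!
# MP_2d0b73_an, block TE: increasing unions and discrete bases
-/

open CategoryTheory MonoidalCategory Simplicial SSet HomotopicalAlgebra Opposite Limits
open SSet.modelCategoryQuillen

namespace Pool.Agent.SH

namespace WcUseq

/-- The sequence of the subcomplexes `A n`. -/
noncomputable def fun_ {X : SSet.{0}} (A : ℕ →o X.Subcomplex) : ℕ ⥤ SSet.{0} :=
  A.monotone.functor ⋙ SSet.Subcomplex.toSSetFunctor

/-- The cocone of the inclusions. -/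
noncomputable def coc {X : SSet.{0}} (A : ℕ →o X.Subcomplex) : Cocone (fun_ A) where
  pt := X
  ι := { app := fun n => (A n).ι
         naturality := fun _ _ _ => rfl }

/-- `X` is the colimit of an increasing sequence of subcomplexes with union `X`. -/
theorem coc_isColimit {X : SSet.{0}} (A : ℕ →o X.Subcomplex) (h : ⨆ n, A n = ⊤) :
    Nonempty (IsColimit (coc A)) := by
  refine ⟨evaluationJointlyReflectsColimits _ fun m => ?_⟩
  refine Types.FilteredColimit.isColimitOf' (F := fun_ A ⋙ (evaluation _ _).obj m) _ ?_ ?_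
  · intro x
    have hx : x ∈ (⨆ n, A n).obj m := by
      rw [h]
      exact trivial
    rw [Subfunctor.iSup_obj] at hx
    obtain ⟨n, hn⟩ := Set.mem_iUnion.1 hx
    exact ⟨n, ⟨x, hn⟩, rfl⟩
  · intro i x y hxy
    exact ⟨i, 𝟙 i, congrArg _ (Subtype.ext hxy)⟩

/-- Coproducts of simplicial sets, levelwise. -/
theorem isIso_desc {J : Type} {F : J → SSet.{0}} {E : SSet.{0}} (φ : ∀ j, F j ⟶ E)
    (h1 : ∀ (m : SimplexCategoryᵒᵖ) (e : E.obj m), ∃ (j : J) (x : (F j).obj m),
      (φ j).app m x = e)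
    (h2 : ∀ (m : SimplexCategoryᵒᵖ) (j : J), Function.Injective ((φ j).app m))
    (h3 : ∀ (m : SimplexCategoryᵒᵖ) (i j : J) (x : (F i).obj m) (y : (F j).obj m),
      (φ i).app m x = (φ j).app m y → i = j) : IsIso (Sigma.desc φ) := by
  refine (Cofan.nonempty_isColimit_iff_isIso_sigmaDesc (Cofan.mk E φ)).1
    ⟨evaluationJointlyReflectsColimits _ fun m => ?_⟩
  refine (isColimitMapCoconeCofanMkEquiv _ _ _).symm (Nonempty.some ?_)
  rw [Cofan.nonempty_isColimit_iff_bijective_fromSigma]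
  constructor
  · rintro ⟨i, x⟩ ⟨j, y⟩ hxy
    have hxy' : (φ i).app m x = (φ j).app m y := hxy
    obtain rfl := h3 m i j x y hxy'
    obtain rfl := h2 m i hxy'
    rfl
  · intro e
    obtain ⟨j, x, hx⟩ := h1 m e
    exact ⟨⟨j, x⟩, hx⟩

end WcUseq

theorem wc_useq : WC_USEQ_Stmt := by
  intro P hP X Y f A A' hA hu hu' hg
  obtain ⟨hc⟩ := WcUseq.coc_isColimit A hu
  obtain ⟨hc'⟩ := WcUseq.coc_isColimit A' hu'
  have hle : ∀ n, Subcomplex.range ((A n).ι ≫ f) ≤ A' n := by
    intro n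
    rw [← Subcomplex.preimage_eq_top_iff]
    rw [Subcomplex.preimage_comp]
    rw [eq_top_iff]
    intro m x _
    exact hA n m x.2
  let α : WcUseq.fun_ A ⟶ WcUseq.fun_ A' :=
    { app := fun n => Subcomplex.lift ((A n).ι ≫ f) (hle n)
      naturality := fun _ _ _ => rfl }
  refine hP.seq (WcUseq.fun_ A) (WcUseq.fun_ A') α (WcUseq.coc A) (WcUseq.coc A') hc hc'
    ?_ ?_ ?_ f ?_
  · intro n
    exact Subcomplex.mono_homOfLE (A.monotone (Nat.le_succ n))
  · intro n
    exact Subcomplex.mono_homOfLE (A'.monotone (Nat.le_succ n))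
  · intro n
    exact hg n _ rfl
  · intro n
    rfl

theorem wc_uacy : WC_UACY_Stmt := by
  intro P hP X A hu hA
  have hA' : ⨆ n, (OrderHom.const ℕ (⊤ : (𝟙_ SSet.{0}).Subcomplex)) n = ⊤ := by
    rw [eq_top_iff]
    exact le_iSup (fun n => (OrderHom.const ℕ (⊤ : (𝟙_ SSet.{0}).Subcomplex)) n) 0
  refine wc_useq P hP X (𝟙_ SSet.{0}) (CartesianMonoidalCategory.toUnit X) A
    (OrderHom.const ℕ (⊤ : (𝟙_ SSet.{0}).Subcomplex)) (fun n => le_top) hu hA' fun n g hg => ?_
  have h1 : P (⊤ : (𝟙_ SSet.{0}).Subcomplex).ι := by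
    refine hP.iso _ ?_
    rw [← Subcomplex.topIso_hom]
    infer_instance
  refine hP.cancelR g (⊤ : (𝟙_ SSet.{0}).Subcomplex).ι h1 ?_
  have h2 : g ≫ (⊤ : (𝟙_ SSet.{0}).Subcomplex).ι =
      CartesianMonoidalCategory.toUnit (A n : SSet.{0}) :=
    CartesianMonoidalCategory.toUnit_unique _ _
  rw [h2]
  exact hA n

theorem wc_disc : WC_DISC_Stmt := by
  intro P hP E B p hB hF
  choose F φ hφ1 hφ2 hφ3 using hF
  -- the operator `⦋m⦌ → ⦋0⦌` inverts all the vertices
  have hB' : ∀ (m : SimplexCategoryᵒᵖ) (v : ⦋0⦌ ⟶ m.unop) (y : B.obj m) (b : B _⦋0⦌),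
      B.map v.op y = b ↔ y = B.map (m.unop.const ⦋0⦌ 0).op b := by
    intro m v y b
    have h1 : B.map v.op (B.map (m.unop.const ⦋0⦌ 0).op b) = b := by
      have h2 : B.map (m.unop.const ⦋0⦌ 0).op ≫ B.map v.op = 𝟙 _ := by
        rw [← B.map_comp, ← op_comp]
        have h3 : v ≫ m.unop.const ⦋0⦌ 0 = 𝟙 ⦋0⦌ := Subsingleton.elim _ _
        rw [h3]
        exact B.map_id _
      exact congrArg (fun t => t b) h2
    constructor
    · intro h
      exact (hB _ _ v.op).1 (h.trans h1.symm)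
    · rintro rfl
      exact h1
  have key : ∀ (b : B _⦋0⦌) (m : SimplexCategoryᵒᵖ) (e : E.obj m),
      e ∈ Set.range ((φ b).app m) ↔ p.app m e = B.map (m.unop.const ⦋0⦌ 0).op b := by
    intro b m e
    induction m using Opposite.rec with
    | op m =>
      induction m using SimplexCategory.rec with
      | mk m =>
        refine (hφ3 b m e).trans ?_
        constructor
        · intro h
          exact (hB' _ (SimplexCategory.const ⦋0⦌ ⦋m⦌ 0) _ b).1 (h _)
        · intro h v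
          exact (hB' _ v _ b).2 h
  have hinj : ∀ (m : SimplexCategoryᵒᵖ) (b b' : B _⦋0⦌),
      B.map (m.unop.const ⦋0⦌ 0).op b = B.map (m.unop.const ⦋0⦌ 0).op b' → b = b' :=
    fun m b b' h => (hB _ _ _).1 h
  have he1 : IsIso (Sigma.desc φ) := by
    refine WcUseq.isIso_desc φ ?_ ?_ ?_
    · intro m e
      obtain ⟨b, hb⟩ := (hB _ m (m.unop.const ⦋0⦌ 0).op).2 (p.app m e)
      obtain ⟨x, hx⟩ := (key b m e).2 hb.symm
      exact ⟨b, x, hx⟩
    · intro m b
      induction m using Opposite.rec with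
      | op m =>
        induction m using SimplexCategory.rec with
        | mk m => exact hφ2 b m
    · intro m b b' x y hxy
      have h1 := (key b m ((φ b).app m x)).1 ⟨x, rfl⟩
      have h2 := (key b' m ((φ b').app m y)).1 ⟨y, rfl⟩
      rw [hxy] at h1
      exact hinj m b b' (h1.symm.trans h2)
  have ht : IsIso (Sigma.desc (fun b : B _⦋0⦌ => (SSet.const b : 𝟙_ SSet.{0} ⟶ B))) := by
    refine WcUseq.isIso_desc _ ?_ ?_ ?_
    · intro m e
      obtain ⟨b, hb⟩ := (hB _ m (m.unop.const ⦋0⦌ 0).op).2 e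
      exact ⟨b, PUnit.unit, hb⟩
    · intro m b x y _
      rfl
    · intro m b b' x y hxy
      exact hinj m b b' hxy
  have hcomm : Sigma.desc φ ≫ p =
      Limits.Sigma.map (fun b => CartesianMonoidalCategory.toUnit (F b)) ≫
        Sigma.desc (fun b : B _⦋0⦌ => (SSet.const b : 𝟙_ SSet.{0} ⟶ B)) := by
    refine Sigma.hom_ext _ _ fun b => ?_
    rw [Sigma.ι_desc_assoc, Sigma.ι_map_assoc, Sigma.ι_desc, SSet.comp_const]
    ext m x
    exact (key b m ((φ b).app m x)).1 ⟨x, rfl⟩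
  refine hP.cancelL (Sigma.desc φ) p (hP.iso _ he1) ?_
  rw [hcomm]
  exact hP.comp _ _ (hP.copr _ _ _ _ hφ1) (hP.iso _ ht)

end Pool.Agent.SH
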