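import Pool.Agent.SH.NMain
import Pool.Agent.SH.NBd
import Pool.Agent.SH.NBdq
import Pool.Agent.SH.NCone
import Pool.Agent.SH.NCtr
import Pool.Agent.SH.NDy
import Pool.Agent.SH.NEE
import Pool.Agent.SH.NExc
import Pool.Agent.SH.NFin
import Pool.Agent.SH.NFmc
import Pool.Agent.SH.NFmd
import Pool.Agent.SH.NInv
import Pool.Agent.SH.NNn
import Pool.Agent.SH.NNoh
import Pool.Agent.SH.NOrb
import Pool.Agent.SH.NPctr
import Pool.Agent.SH.NQex
import Pool.Agent.SH.NQproj
import Pool.Agent.SH.NQy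
import Pool.Agent.SH.NRes
import Pool.Agent.SH.NSyl
import Pool.Agent.SH.NTwo
import Pool.Agent.SH.NUd
import Pool.Agent.SH.F2Moore
import Pool.Agent.SH.SkInd
import Pool.Agent.SH.WcCell
import Pool.Agent.SH.WcProd
import Pool.Agent.SH.WcPush
import Pool.Agent.SH.WcUseq

/-!
# MP_2d0b73_an, Part III-N: `N_MAIN` without hypotheses
-/

set_option autoImplicit false

namespace Pool.Agent.SH

theorem wc_open_all : WC_OPEN_Stmt :=
  wc_open (wc_cell wc_push wc_useq) (wc_prod sk_ind wc_push) (wc_acy (wc_prod sk_ind wc_push))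

theorem n_two_all : N_TWO_Stmt :=
  n_two n_qex n_qdesc (n_inv n_qex n_qdesc (n_ee wc_heq) (n_qproj wc_open_all))

theorem n_fin_all : N_FIN_Stmt :=
  n_fin n_qex n_qdesc (n_ee wc_heq) (n_qproj wc_open_all) n_two_all
    (n_orb wc_open_all n_qex n_qdesc) n_syl

theorem n_pctr_all : N_PCTR_Stmt := n_pctr (n_ctr wc_heq) n_res n_noh

theorem n_nn_all : N_NN_Stmt :=
  n_nn n_coef (n_fmc wc_open_all) (n_fmd wc_open_all) n_exc
    (n_cone n_pctr_all (n_fmc wc_open_all)) (n_qy n_ud)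
    (n_dy (n_fmc wc_open_all) n_exc n_pctr_all
      (n_bd wc_uacy n_two_all (n_ee wc_heq) n_bdq))

/-- Part III-N, complete. -/
theorem n_main_all : N_MAIN_Stmt :=
  n_main wc_open_all wc_heq wc_uacy f2_moore n_fin_all n_nn_all

end Pool.Agent.SH
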