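import Pool.Agent.SH.StmtsI

/-!
# Module HEC: homotopy extension for spheres
-/

set_option autoImplicit false

open Set Topology

namespace Pool.Agent.SH

theorem HEC : Stmt_HEC := by
  intro N R Z _ _ _ B b₀ b₁ hB hb₀ hb₁ hne hnorm hanti
  obtain ⟨B0, hB0⟩ := ContinuousMap.exists_restrict_eq hB
    (⟨fun z => b₀ z, continuousOn_iff_continuous_domRestrict.mp hb₀⟩ : C(B, (Fin N → ℝ) × (Fin R → ℝ)))
  have hB0' : ∀ z ∈ B, B0 z = b₀ z := by
    intro z hz
    have h1 := congrArg (fun f : C(B, (Fin N → ℝ) × (Fin R → ℝ)) => f ⟨z, hz⟩) hB0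
    simpa using h1
  -- the straight line
  set F : Z × ℝ → (Fin N → ℝ) × (Fin R → ℝ) := fun x => (1 - x.2) • B0 x.1 + x.2 • b₁ x.1
    with hF
  have hFc : Continuous F := by
    have h1 := B0.continuous
    fun_prop
  set T : Set Z := Prod.fst '' ((univ ×ˢ Icc (0 : ℝ) 1) ∩ F ⁻¹' {0}) with hT
  have hTc : IsClosed T := by
    have h1 : IsCompact ((univ ×ˢ Icc (0 : ℝ) 1) ∩ F ⁻¹' {0} : Set (Z × ℝ)) :=
      (isCompact_univ.prod isCompact_Icc).inter_right (isClosed_singleton.preimage hFc)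
    exact (h1.image continuous_fst).isClosed
  have hdisj : Disjoint B T := by
    rw [Set.disjoint_left]
    rintro z hz ⟨⟨z', t⟩, ⟨⟨-, ht⟩, h0⟩, rfl⟩
    simp only [mem_preimage, mem_singleton_iff] at h0
    simp only at hz ht
    have h1 : (1 - t) • b₀ z' + t • b₁ z' = 0 := by
      rw [← hB0' z' hz]
      exact h0
    rcases ht.1.eq_or_lt with h2 | h2
    · rw [← h2] at h1
      simp only [sub_zero, one_smul, zero_smul, add_zero] at h1
      have h3 := hnorm z' hz
      rw [h1, norm_zero] at h3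
      exact zero_ne_one h3
    · apply hanti z' hz ((1 - t) / t) (div_nonneg (by linarith [ht.2]) h2.le)
      have h3 : t • b₁ z' = -((1 - t) • b₀ z') := by
        rw [eq_neg_iff_add_eq_zero, add_comm]
        exact h1
      calc b₁ z' = t⁻¹ • (t • b₁ z') := by rw [smul_smul, inv_mul_cancel₀ h2.ne', one_smul]
        _ = -(((1 - t) / t) • b₀ z') := by
          rw [h3, smul_neg, smul_smul]
          congr 2
          ring
  obtain ⟨u, hu0, hu1, hu⟩ := exists_continuous_zero_one_of_isClosed hB hTc hdisj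
  have hnz : ∀ z, F (z, u z) ≠ 0 := by
    intro z h
    by_cases hz : z ∈ T
    · have h1 : u z = 1 := hu1 hz
      rw [hF] at h
      simp only [h1, sub_self, zero_smul, one_smul, zero_add] at h
      exact hne z h
    · exact hz ⟨(z, u z), ⟨⟨mem_univ _, hu z⟩, h⟩, rfl⟩
  have hc : Continuous (fun z => F (z, u z)) :=
    hFc.comp (continuous_id.prodMk u.continuous)
  refine ⟨fun z => ‖F (z, u z)‖⁻¹ • F (z, u z), ?_, fun z => ?_, fun z hz => ?_⟩
  · exact (hc.norm.inv₀ fun z => norm_ne_zero_iff.mpr (hnz z)).smul hc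
  · rw [norm_smul, norm_inv, norm_norm, inv_mul_cancel₀ (norm_ne_zero_iff.mpr (hnz z))]
  · have h1 : u z = 0 := hu0 hz
    have h2 : F (z, u z) = b₀ z := by
      rw [hF]
      simp only [h1, sub_zero, one_smul, zero_smul, add_zero]
      exact hB0' z hz
    simp only [h2, hnorm z hz, inv_one, one_smul]

end Pool.Agent.SH
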