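import Pool.Agent.SH.StmtsI

/-!
# The iterated product theorem
-/

set_option autoImplicit false

open Set Topology

namespace Pool.Agent.SH

theorem Rz_comp_iff {P P' : Type} [PartialOrder P] [PartialOrder P'] (e : P ≃o P') (Q : Finset P')
    (p : P' → ℝ) : (fun a => p (e a)) ∈ Rz (Q.map e.symm.toEquiv.toEmbedding) ↔ p ∈ Rz Q := by
  constructor
  · rintro ⟨h1, h2, h3, h4⟩
    refine ⟨?_, ?_, ?_, ?_⟩
    · intro a
      have h5 : 0 ≤ p (e (e.symm a)) := h1 (e.symm a)
      rwa [e.apply_symm_apply] at h5
    · intro a ha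
      have h5 : p (e (e.symm a)) = 0 := h2 (e.symm a) (by
        intro h
        rw [Finset.mem_map] at h
        obtain ⟨b, hb, hb'⟩ := h
        have : b = a := e.symm.injective hb'
        exact ha (this ▸ hb))
      rwa [e.apply_symm_apply] at h5
    · rw [Finset.sum_map] at h3
      rw [← h3]
      refine Finset.sum_congr rfl fun a _ => ?_
      show p a = p (e (e.symm a))
      rw [e.apply_symm_apply]
    · intro a b ha hb
      have := h4 (e.symm a) (e.symm b)
        (by show p (e (e.symm a)) ≠ 0; rwa [e.apply_symm_apply])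
        (by show p (e (e.symm b)) ≠ 0; rwa [e.apply_symm_apply])
      simpa using this
  · rintro ⟨h1, h2, h3, h4⟩
    refine ⟨?_, ?_, ?_, ?_⟩
    · intro a
      exact h1 _
    · intro a ha
      refine h2 _ ?_
      intro h
      apply ha
      rw [Finset.mem_map]
      exact ⟨e a, h, e.symm_apply_apply a⟩
    · rw [Finset.sum_map]
      rw [← h3]
      refine Finset.sum_congr rfl fun a _ => ?_
      show p (e (e.symm a)) = p a
      rw [e.apply_symm_apply]
    · intro a b ha hb
      have := h4 (e a) (e b) ha hb
      simpa using this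

/-- The extension property is invariant under order isomorphisms. -/
theorem Ext.congr_order {Z P P' : Type} [TopologicalSpace Z] [PartialOrder P] [PartialOrder P']
    (e : P ≃o P') (h : Ext Z P) : Ext Z P' := by
  intro A Q f hA hf hfQ
  obtain ⟨R, g, hR, hg, hgR, hgA⟩ := h A (Q.map e.symm.toEquiv.toEmbedding)
    (fun z a => f z (e a)) hA (by
      rw [continuousOn_pi]
      intro a
      exact (continuous_apply (e a)).comp_continuousOn hf)
    (fun z hz => (Rz_comp_iff e Q (f z)).2 (hfQ z hz))
  refine ⟨R.map e.toEquiv.toEmbedding, fun z a => g z (e.symm a), ?_, ?_, ?_, ?_⟩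
  · intro a ha
    rw [Finset.mem_map]
    refine ⟨e.symm a, hR ?_, e.apply_symm_apply a⟩
    rw [Finset.mem_map]
    exact ⟨a, ha, rfl⟩
  · rw [continuous_pi_iff]
    intro a
    exact (continuous_apply _).comp hg
  · intro z
    exact (Rz_comp_iff e.symm R (g z)).2 (hgR z)
  · intro z hz
    ext a
    show g z (e.symm a) = f z a
    rw [hgA z hz]
    show f z (e (e.symm a)) = f z a
    rw [e.apply_symm_apply]

/-- The extension property is invariant under homeomorphisms. -/
theorem Ext.congr_homeo {Z Z' P : Type} [TopologicalSpace Z] [TopologicalSpace Z']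
    [PartialOrder P] (e : Z ≃ₜ Z') (h : Ext Z P) : Ext Z' P := by
  intro A Q f hA hf hfQ
  obtain ⟨R, g, hR, hg, hgR, hgA⟩ := h (e ⁻¹' A) Q (fun z => f (e z)) (hA.preimage e.continuous)
    (hf.comp e.continuous.continuousOn fun z hz => hz) (fun z hz => hfQ _ hz)
  refine ⟨R, fun z => g (e.symm z), hR, hg.comp e.symm.continuous, fun z => hgR _, ?_⟩
  intro z hz
  show g (e.symm z) = f z
  rw [hgA (e.symm z) (by
    show e (e.symm z) ∈ A
    rw [e.apply_symm_apply]
    exact hz)]
  show f (e (e.symm z)) = f z
  rw [e.apply_symm_apply]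

/-- No suspension. -/
def susZero (P : Type) [PartialOrder P] : P ≃o SusK P 0 where
  toFun := SusK.base
  invFun := fun x => match x with
    | SusK.base a => a
    | SusK.pole i _ => i.elim0
  left_inv := fun a => rfl
  right_inv := by
    rintro (a | ⟨i, e⟩)
    · rfl
    · exact i.elim0
  map_rel_iff' := Iff.rfl

/-- One more suspension. -/
def susSucc (P : Type) [PartialOrder P] (k : ℕ) : SusK (SusK P k) 1 ≃o SusK P (k + 1) where
  toFun := fun x => match x with
    | SusK.base (SusK.base a) => SusK.base a
    | SusK.base (SusK.pole i e) => SusK.pole i.castSucc e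
    | SusK.pole _ e => SusK.pole (Fin.last k) e
  invFun := fun x => match x with
    | SusK.base a => SusK.base (SusK.base a)
    | SusK.pole i e => if h : (i : ℕ) < k then SusK.base (SusK.pole ⟨i, h⟩ e) else SusK.pole 0 e
  left_inv := by
    rintro ((a | ⟨i, e⟩) | ⟨i, e⟩)
    · rfl
    · show (if h : ((i.castSucc : Fin (k + 1)) : ℕ) < k then
        (SusK.base (SusK.pole ⟨i.castSucc, h⟩ e) : SusK (SusK P k) 1) else SusK.pole 0 e) = _
      have h : ((i.castSucc : Fin (k + 1)) : ℕ) < k := i.2
      rw [dif_pos h]
      rfl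
    · show (if h : ((Fin.last k : Fin (k + 1)) : ℕ) < k then
        (SusK.base (SusK.pole ⟨Fin.last k, h⟩ e) : SusK (SusK P k) 1) else SusK.pole 0 e) = _
      have h : ¬ ((Fin.last k : Fin (k + 1)) : ℕ) < k := by simp
      rw [dif_neg h]
      have : i = 0 := Subsingleton.elim _ _
      rw [this]
  right_inv := by
    rintro (a | ⟨i, e⟩)
    · rfl
    · by_cases h : (i : ℕ) < k
      · simp only [h, dif_pos]
        rfl
      · simp only [h, dif_neg, not_false_eq_true]
        have : i = Fin.last k := by
          apply Fin.ext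
          have := i.2
          simp only [Fin.val_last]
          omega
        rw [this]
  map_rel_iff' := by
    rintro ((a | ⟨i, e⟩) | ⟨i, e⟩) ((b | ⟨j, e'⟩) | ⟨j, e'⟩)
    · exact Iff.rfl
    · exact Iff.rfl
    · exact Iff.rfl
    · exact Iff.rfl
    · show (i.castSucc < j.castSucc ∨ (i.castSucc = j.castSucc ∧ e = e')) ↔
        (i < j ∨ (i = j ∧ e = e'))
      simp
    · show (i.castSucc < Fin.last k ∨ (i.castSucc = Fin.last k ∧ e = e')) ↔ True
      simp [Fin.castSucc_lt_last]
    · exact Iff.rfl
    · show (Fin.last k < j.castSucc ∨ (Fin.last k = j.castSucc ∧ e = e')) ↔ False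
      have h1 : j.castSucc < Fin.last k := Fin.castSucc_lt_last j
      constructor
      · rintro (h | ⟨h, -⟩)
        · exact lt_asymm h h1
        · exact h1.ne' h
      · exact False.elim
    · show (Fin.last k < Fin.last k ∨ (Fin.last k = Fin.last k ∧ e = e')) ↔
        (i < j ∨ (i = j ∧ e = e'))
      have hi : i = 0 := Subsingleton.elim _ _
      have hj : j = 0 := Subsingleton.elim _ _
      subst hi
      subst hj
      simp

/-- The cube of dimension `k + 1`. -/
def cubeSucc (X : Type) [TopologicalSpace X] (k : ℕ) :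
    ((Fin k → Iv) × X) × Iv ≃ₜ (Fin (k + 1) → Iv) × X where
  toFun := fun z => (Fin.snoc (α := fun _ => Iv) z.1.1 z.2, z.1.2)
  invFun := fun z => ((fun i => z.1 i.castSucc, z.2), z.1 (Fin.last k))
  left_inv := by
    rintro ⟨⟨q, x⟩, t⟩
    simp
  right_inv := by
    rintro ⟨q, x⟩
    ext i
    · refine Fin.lastCases ?_ (fun j => ?_) i
      · simp
      · simp
    · rfl
  continuous_toFun := by
    refine Continuous.prodMk ?_ (continuous_snd.comp continuous_fst)
    rw [continuous_pi_iff]
    intro i
    refine Fin.lastCases ?_ (fun j => ?_) i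
    · simp only [Fin.snoc_last]
      exact continuous_snd
    · simp only [Fin.snoc_castSucc]
      exact (continuous_apply j).comp (continuous_fst.comp continuous_fst)
  continuous_invFun := by
    refine Continuous.prodMk (Continuous.prodMk ?_ continuous_snd) ?_
    · rw [continuous_pi_iff]
      intro i
      exact (continuous_apply i.castSucc).comp continuous_fst
    · exact (continuous_apply (Fin.last k)).comp continuous_fst

theorem ITX (hP : Stmt_PROD) : Stmt_ITX := by
  intro X _ _ _ P _ _ hExt k
  induction k with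
  | zero =>
    have h1 : Ext X (SusK P 0) := Ext.congr_order (susZero P) hExt
    exact Ext.congr_homeo ((Homeomorph.uniqueProd (Fin 0 → Iv) X).symm) h1
  | succ k ih =>
    haveI : Nonempty (SusK P k) := ⟨SusK.base (Classical.arbitrary P)⟩
    have h1 := hP ((Fin k → Iv) × X) (SusK P k) ih
    exact Ext.congr_homeo (cubeSucc X k) (Ext.congr_order (susSucc P k) h1)

end Pool.Agent.SH
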