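import Pool.Agent.SH.Top

/-!
# The product theorem
-/

set_option autoImplicit false

open Set Topology

namespace Pool.Agent.SH

section sus

variable {P : Type} [PartialOrder P]

theorem base_inj : Function.Injective (SusK.base : P → SusK P 1) := by
  intro a b h
  cases h
  rfl

/-- The upper pole. -/
def pT : SusK P 1 := SusK.pole 0 true

/-- The lower pole. -/
def pF : SusK P 1 := SusK.pole 0 false

open Classical in
/-- The suspension of a finite set. -/
noncomputable def Qh (Q : Finset P) : Finset (SusK P 1) :=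
  insert pT (insert pF (Q.map ⟨SusK.base, base_inj⟩))

open Classical in
/-- The upper cone. -/
noncomputable def QhT (Q : Finset P) : Finset (SusK P 1) := insert pT (Q.map ⟨SusK.base, base_inj⟩)

open Classical in
/-- The lower cone. -/
noncomputable def QhF (Q : Finset P) : Finset (SusK P 1) := insert pF (Q.map ⟨SusK.base, base_inj⟩)

theorem sus_cases (x : SusK P 1) : (∃ a, x = SusK.base a) ∨ x = pT ∨ x = pF := by
  cases x with
  | base a => exact Or.inl ⟨a, rfl⟩
  | pole i e =>
    have hi : i = 0 := Subsingleton.elim _ _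
    subst hi
    cases e with
    | true => exact Or.inr (Or.inl rfl)
    | false => exact Or.inr (Or.inr rfl)

theorem mem_Qh {Q : Finset P} {a : P} : (SusK.base a : SusK P 1) ∈ Qh Q ↔ a ∈ Q := by
  classical
  unfold Qh pT pF
  simp

theorem mem_QhT {Q : Finset P} {a : P} : (SusK.base a : SusK P 1) ∈ QhT Q ↔ a ∈ Q := by
  classical
  unfold QhT pT
  simp

theorem mem_QhF {Q : Finset P} {a : P} : (SusK.base a : SusK P 1) ∈ QhF Q ↔ a ∈ Q := by
  classical
  unfold QhF pF
  simp

theorem pT_mem_Qh (Q : Finset P) : pT ∈ Qh Q := by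
  classical
  unfold Qh
  exact Finset.mem_insert_self _ _

theorem pF_mem_Qh (Q : Finset P) : pF ∈ Qh Q := by
  classical
  unfold Qh
  exact Finset.mem_insert_of_mem (Finset.mem_insert_self _ _)

theorem pT_mem_QhT (Q : Finset P) : pT ∈ QhT Q := by
  classical
  unfold QhT
  exact Finset.mem_insert_self _ _

theorem pF_mem_QhF (Q : Finset P) : pF ∈ QhF Q := by
  classical
  unfold QhF
  exact Finset.mem_insert_self _ _

theorem pT_ne_pF : (pT : SusK P 1) ≠ pF := by
  intro h
  unfold pT pF at h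
  simp at h

theorem pT_notMem_map {Q : Finset P} : (pT : SusK P 1) ∉ Q.map ⟨SusK.base, base_inj⟩ := by
  unfold pT
  simp

theorem pF_notMem_map {Q : Finset P} : (pF : SusK P 1) ∉ Q.map ⟨SusK.base, base_inj⟩ := by
  unfold pF
  simp

theorem sum_Qh {Q : Finset P} (f : SusK P 1 → ℝ) :
    ∑ x ∈ Qh Q, f x = f pT + (f pF + ∑ a ∈ Q, f (SusK.base a)) := by
  classical
  unfold Qh
  rw [Finset.sum_insert, Finset.sum_insert pF_notMem_map, Finset.sum_map]
  · rfl
  · rw [Finset.mem_insert, not_or]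
    exact ⟨pT_ne_pF, pT_notMem_map⟩

theorem sum_QhT {Q : Finset P} (f : SusK P 1 → ℝ) :
    ∑ x ∈ QhT Q, f x = f pT + ∑ a ∈ Q, f (SusK.base a) := by
  classical
  unfold QhT
  rw [Finset.sum_insert pT_notMem_map, Finset.sum_map]
  rfl

theorem sum_QhF {Q : Finset P} (f : SusK P 1 → ℝ) :
    ∑ x ∈ QhF Q, f x = f pF + ∑ a ∈ Q, f (SusK.base a) := by
  classical
  unfold QhF
  rw [Finset.sum_insert pF_notMem_map, Finset.sum_map]
  rfl

theorem QhT_subset (Q : Finset P) : QhT Q ⊆ Qh Q := by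
  classical
  unfold QhT Qh
  exact Finset.insert_subset_insert _ (Finset.subset_insert _ _)

theorem QhF_subset (Q : Finset P) : QhF Q ⊆ Qh Q := by
  classical
  unfold QhF Qh
  exact Finset.subset_insert _ _

theorem Qh_mono {Q Q' : Finset P} (h : Q ⊆ Q') : Qh Q ⊆ Qh Q' := by
  classical
  unfold Qh
  exact Finset.insert_subset_insert _ (Finset.insert_subset_insert _ (Finset.map_subset_map.2 h))

theorem exists_Qh (R : Finset (SusK P 1)) : ∃ Q : Finset P, R ⊆ Qh Q := by
  classical
  refine ⟨R.preimage SusK.base base_inj.injOn, ?_⟩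
  intro x hx
  rcases sus_cases x with ⟨a, rfl⟩ | rfl | rfl
  · rw [mem_Qh, Finset.mem_preimage]
    exact hx
  · unfold Qh
    exact Finset.mem_insert_self _ _
  · unfold Qh
    exact Finset.mem_insert_of_mem (Finset.mem_insert_self _ _)

/-- The point with base part `c` and height `h`. -/
noncomputable def susf (c : P → ℝ) (h : ℝ) : SusK P 1 → ℝ
  | SusK.base a => c a
  | SusK.pole _ e => if e then max h 0 else max (-h) 0

@[simp] theorem susf_base (c : P → ℝ) (h : ℝ) (a : P) : susf c h (SusK.base a) = c a := rfl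

@[simp] theorem susf_pT (c : P → ℝ) (h : ℝ) : susf c h pT = max h 0 := rfl

@[simp] theorem susf_pF (c : P → ℝ) (h : ℝ) : susf c h pF = max (-h) 0 := by
  show (if false = true then max h 0 else max (-h) 0) = max (-h) 0
  simp

theorem max_add_max_neg (h : ℝ) : max h 0 + max (-h) 0 = |h| := by
  rcases le_total 0 h with h0 | h0
  · rw [max_eq_left h0, max_eq_right (by linarith), abs_of_nonneg h0, add_zero]
  · rw [max_eq_right h0, max_eq_left (by linarith), abs_of_nonpos h0, zero_add]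

theorem susf_mem {Q : Finset P} {c : P → ℝ} {h : ℝ} (h1 : ∀ a, 0 ≤ c a) (h2 : ∀ a, a ∉ Q → c a = 0)
    (h3 : ∑ a ∈ Q, c a = 1 - |h|) (h4 : ∀ a b, c a ≠ 0 → c b ≠ 0 → a ≤ b ∨ b ≤ a) :
    susf c h ∈ Rz (Qh Q) := by
  refine ⟨?_, ?_, ?_, ?_⟩
  · intro x
    rcases sus_cases x with ⟨a, rfl⟩ | rfl | rfl
    · exact h1 a
    · rw [susf_pT]
      exact le_max_right _ _
    · rw [susf_pF]
      exact le_max_right _ _
  · intro x hx
    rcases sus_cases x with ⟨a, rfl⟩ | rfl | rfl
    · exact h2 a fun ha => hx (mem_Qh.2 ha)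
    · exact absurd (pT_mem_Qh Q) hx
    · exact absurd (pF_mem_Qh Q) hx
  · rw [sum_Qh]
    simp only [susf_base, susf_pT, susf_pF]
    rw [h3, ← add_assoc, max_add_max_neg]
    ring
  · intro x y hx hy
    rcases sus_cases x with ⟨a, rfl⟩ | rfl | rfl
    · rcases sus_cases y with ⟨b, rfl⟩ | rfl | rfl
      · exact h4 a b hx hy
      · exact Or.inl trivial
      · exact Or.inl trivial
    · rcases sus_cases y with ⟨b, rfl⟩ | rfl | rfl
      · exact Or.inr trivial
      · exact Or.inl (le_refl _)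
      · exfalso
        rw [susf_pT] at hx
        rw [susf_pF] at hy
        rcases le_total 0 h with h0 | h0
        · exact hy (max_eq_right (by linarith))
        · exact hx (max_eq_right h0)
    · rcases sus_cases y with ⟨b, rfl⟩ | rfl | rfl
      · exact Or.inr trivial
      · exfalso
        rw [susf_pF] at hx
        rw [susf_pT] at hy
        rcases le_total 0 h with h0 | h0
        · exact hx (max_eq_right (by linarith))
        · exact hy (max_eq_right h0)
      · exact Or.inl (le_refl _)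

theorem mem_QhT_of {Q : Finset P} {p : SusK P 1 → ℝ} (hp : p ∈ Rz (Qh Q)) (h0 : p pF = 0) :
    p ∈ Rz (QhT Q) := by
  obtain ⟨h1, h2, h3, h4⟩ := hp
  refine ⟨h1, ?_, ?_, h4⟩
  · intro x hx
    rcases sus_cases x with ⟨a, rfl⟩ | rfl | rfl
    · exact h2 _ fun ha => hx (mem_QhT.2 (mem_Qh.1 ha))
    · exact absurd (pT_mem_QhT Q) hx
    · exact h0
  · rw [sum_QhT]
    rw [sum_Qh, h0] at h3
    linarith

theorem mem_QhF_of {Q : Finset P} {p : SusK P 1 → ℝ} (hp : p ∈ Rz (Qh Q)) (h0 : p pT = 0) :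
    p ∈ Rz (QhF Q) := by
  obtain ⟨h1, h2, h3, h4⟩ := hp
  refine ⟨h1, ?_, ?_, h4⟩
  · intro x hx
    rcases sus_cases x with ⟨a, rfl⟩ | rfl | rfl
    · exact h2 _ fun ha => hx (mem_QhF.2 (mem_Qh.1 ha))
    · exact h0
    · exact absurd (pF_mem_QhF Q) hx
  · rw [sum_QhF]
    rw [sum_Qh, h0] at h3
    linarith

theorem continuousOn_susf {Z : Type} [TopologicalSpace Z] {A : Set Z} {c : Z → P → ℝ} {h : Z → ℝ}
    (hc : ContinuousOn c A) (hh : ContinuousOn h A) : ContinuousOn (fun z => susf (c z) (h z)) A := by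
  rw [continuousOn_pi]
  intro x
  rcases sus_cases x with ⟨a, rfl⟩ | rfl | rfl
  · exact (continuous_apply a).comp_continuousOn hc
  · simp only [susf_pT]
    exact fun z hz => (hh z hz).max continuousWithinAt_const
  · simp only [susf_pF]
    exact fun z hz => (hh z hz).neg.max continuousWithinAt_const

end sus

theorem PROD (hW : Stmt_WALL) (hCon : Stmt_CON) (hHep : Stmt_HEP) : Stmt_PROD := by
  classical
  intro Z _ _ _ P _ _ hExt A R f hA hf hfR
  obtain ⟨Q, hRQ⟩ := exists_Qh R
  have hfQ : ∀ z ∈ A, f z ∈ Rz (Qh Q) := fun z hz => Rz_mono hRQ (hfR z hz)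
  -- height
  set h : Z × Iv → ℝ := fun z => f z pT - f z pF with hh
  have hhc : ContinuousOn h A :=
    ((continuous_apply _).comp_continuousOn hf).sub ((continuous_apply _).comp_continuousOn hf)
  have hpole : ∀ z ∈ A, f z pT = max (h z) 0 ∧ f z pF = max (-(h z)) 0 := by
    intro z hz
    have h1 := (hfQ z hz).1 pT
    have h2 := (hfQ z hz).1 pF
    have h3 : f z pT = 0 ∨ f z pF = 0 := by
      by_contra hn
      rw [not_or] at hn
      rcases (hfQ z hz).2.2.2 _ _ hn.1 hn.2 with h4 | h4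
      · unfold pT pF at h4
        simp at h4
      · unfold pT pF at h4
        simp at h4
    rw [hh]
    rcases h3 with h3 | h3
    · simp only [h3]
      rw [zero_sub, neg_neg]
      exact ⟨(max_eq_right (by linarith)).symm, (max_eq_left h2).symm⟩
    · simp only [h3]
      rw [sub_zero]
      exact ⟨(max_eq_left h1).symm, (max_eq_right (by linarith)).symm⟩
  have hsum : ∀ z ∈ A, ∑ a ∈ Q, f z (SusK.base a) = 1 - |h z| := by
    intro z hz
    have h1 := (hfQ z hz).2.2.1
    rw [sum_Qh, (hpole z hz).1, (hpole z hz).2] at h1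
    have h2 := max_add_max_neg (h z)
    linarith
  have hle1 : ∀ z ∈ A, |h z| ≤ 1 := by
    intro z hz
    have h1 := hsum z hz
    have h2 : 0 ≤ ∑ a ∈ Q, f z (SusK.base a) := Finset.sum_nonneg fun a _ => (hfQ z hz).1 _
    linarith
  have hfeq : ∀ z ∈ A, f z = susf (fun a => f z (SusK.base a)) (h z) := by
    intro z hz
    ext x
    rcases sus_cases x with ⟨a, rfl⟩ | rfl | rfl
    · rfl
    · rw [susf_pT]
      exact (hpole z hz).1
    · rw [susf_pF]
      exact (hpole z hz).2
  -- the closed sets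
  have hcl : ∀ C : Set ℝ, IsClosed C → IsClosed {z | z ∈ A ∧ h z ∈ C} := fun C hC =>
    hhc.preimage_isClosed_of_isClosed hA hC
  set Np : Set (Z × Iv) := {z | z ∈ A ∧ h z ∈ Ici (1 / 2 : ℝ)} with hNp
  set Nm : Set (Z × Iv) := {z | z ∈ A ∧ h z ∈ Iic (-(1 / 2) : ℝ)} with hNm
  set A₀ : Set (Z × Iv) := {z | z ∈ A ∧ h z ∈ Icc (-(1 / 2) : ℝ) (1 / 2)} with hA₀
  have hNpc : IsClosed Np := hcl _ isClosed_Ici
  have hNmc : IsClosed Nm := hcl _ isClosed_Iic
  have hA₀c : IsClosed A₀ := hcl _ isClosed_Icc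
  have hAcov : ∀ z ∈ A, z ∈ A₀ ∨ z ∈ Np ∨ z ∈ Nm := by
    intro z hz
    rcases le_total (1 / 2) (h z) with h1 | h1
    · exact Or.inr (Or.inl ⟨hz, h1⟩)
    · rcases le_total (h z) (-(1 / 2)) with h2 | h2
      · exact Or.inr (Or.inr ⟨hz, h2⟩)
      · exact Or.inl ⟨hz, h2, h1⟩
  have hdis : Disjoint Np Nm := by
    rw [Set.disjoint_left]
    rintro z ⟨_, h1⟩ ⟨_, h2⟩
    rw [mem_Ici] at h1
    rw [mem_Iic] at h2
    linarith
  -- the base coordinate
  set κ : Z × Iv → P → ℝ := fun z a => f z (SusK.base a) / (1 - |h z|) with hκ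
  have hA₀lt : ∀ z ∈ A₀, |h z| < 1 := by
    rintro z ⟨_, h1, h2⟩
    rw [abs_lt]
    constructor <;> linarith
  have hκc : ContinuousOn κ A₀ := by
    rw [continuousOn_pi]
    intro a
    have h1 : ContinuousOn (fun z => f z (SusK.base a)) A₀ :=
      ((continuous_apply _).comp_continuousOn hf).mono fun z hz => hz.1
    refine h1.div (continuousOn_const.sub (hhc.mono fun z hz => hz.1).abs) ?_
    intro z hz
    have := hA₀lt z hz
    linarith
  have hκQ : ∀ z ∈ A₀, κ z ∈ Rz Q := by
    intro z hz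
    have hz1 := hA₀lt z hz
    have hpos : 0 < 1 - |h z| := by linarith
    refine ⟨fun a => div_nonneg ((hfQ z hz.1).1 _) hpos.le, ?_, ?_, ?_⟩
    · intro a ha
      show f z (SusK.base a) / (1 - |h z|) = 0
      rw [(hfQ z hz.1).2.1 _ (fun h => ha (mem_Qh.1 h)), zero_div]
    · show ∑ a ∈ Q, f z (SusK.base a) / (1 - |h z|) = 1
      rw [← Finset.sum_div, hsum z hz.1, div_self hpos.ne']
    · intro a b ha hb
      refine (hfQ z hz.1).2.2.2 (SusK.base a) (SusK.base b) ?_ ?_
      · intro h0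
        exact ha (by show f z (SusK.base a) / (1 - |h z|) = 0; rw [h0, zero_div])
      · intro h0
        exact hb (by show f z (SusK.base b) / (1 - |h z|) = 0; rw [h0, zero_div])
  obtain ⟨Bp, Bm, Q', k, hBpc, hBmc, hBB, hNpBm, hNmBp, hQQ', hkc, hkQ, hkκ⟩ :=
    hW Z P hExt Np Nm A₀ Q κ hNpc hNmc hdis hA₀c hκc hκQ
  -- the new height
  obtain ⟨up, hup0, hup1, hup⟩ := exists_continuous_zero_one_of_isClosed hBmc hNpc hNpBm.symm
  obtain ⟨um, hum0, hum1, hum⟩ := exists_continuous_zero_one_of_isClosed hBpc hNmc hNmBp.symm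
  set H : Z × Iv → ℝ := fun z => up z - um z with hH
  have hHc : Continuous H := up.continuous.sub um.continuous
  have hHle : ∀ z, |H z| ≤ 1 := by
    intro z
    have h1 := hup z
    have h2 := hum z
    rw [abs_le]
    constructor
    · show -1 ≤ up z - um z
      linarith [h1.1, h2.2]
    · show up z - um z ≤ 1
      linarith [h1.2, h2.1]
  have hHBp : ∀ z ∈ Bp, 0 ≤ H z := by
    intro z hz
    have h1 : um z = 0 := hum0 hz
    show 0 ≤ up z - um z
    rw [h1, sub_zero]
    exact (hup z).1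
  have hHBm : ∀ z ∈ Bm, H z ≤ 0 := by
    intro z hz
    have h1 : up z = 0 := hup0 hz
    show up z - um z ≤ 0
    rw [h1, zero_sub]
    linarith [(hum z).1]
  have hHB : ∀ z ∈ Bp ∩ Bm, H z = 0 := fun z hz => le_antisymm (hHBm z hz.2) (hHBp z hz.1)
  have hBun : ∀ z, z ∈ Bp ∨ z ∈ Bm := fun z => by
    have : z ∈ Bp ∪ Bm := by rw [hBB]; exact mem_univ z
    exact this
  have hHNp : ∀ z ∈ Np, H z = 1 := by
    intro z hz
    have hzBm : z ∉ Bm := fun hm => Set.disjoint_left.1 hNpBm hz hm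
    have hzBp : z ∈ Bp := (hBun z).resolve_right hzBm
    have h1 : up z = 1 := hup1 hz
    have h2 : um z = 0 := hum0 hzBp
    show up z - um z = 1
    rw [h1, h2, sub_zero]
  have hHNm : ∀ z ∈ Nm, H z = -1 := by
    intro z hz
    have hzBp : z ∉ Bp := fun hm => Set.disjoint_left.1 hNmBp hz hm
    have hzBm : z ∈ Bm := (hBun z).resolve_left hzBp
    have h1 : um z = 1 := hum1 hz
    have h2 : up z = 0 := hup0 hzBm
    show up z - um z = -1
    rw [h1, h2, zero_sub]
  have hB0A : ∀ z ∈ A, z ∈ Bp ∩ Bm → z ∈ A₀ := by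
    intro z hz hzB
    rcases hAcov z hz with h1 | h1 | h1
    · exact h1
    · exact absurd hzB.2 (Set.disjoint_left.1 hNpBm h1)
    · exact absurd hzB.1 (Set.disjoint_left.1 hNmBp h1)
  -- the map on A ∪ B0
  set F₁ : Z × Iv → SusK P 1 → ℝ := fun z =>
    susf (fun a => (1 - |H z|) * (if z ∈ A then κ z a else k z a)) (H z) with hF₁
  have hF₁N : ∀ z, (z ∈ Np ∨ z ∈ Nm) → |H z| = 1 := by
    rintro z (h1 | h1)
    · rw [hHNp z h1, abs_one]
    · rw [hHNm z h1, abs_neg, abs_one]
  have hF₁Q : ∀ z, z ∈ A ∨ z ∈ Bp ∩ Bm → F₁ z ∈ Rz (Qh Q') := by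
    intro z hz
    by_cases hN : z ∈ Np ∨ z ∈ Nm
    · have h1 := hF₁N z hN
      have h2 : (fun a => (1 - |H z|) * (if z ∈ A then κ z a else k z a)) = fun _ => 0 := by
        ext a
        rw [h1]
        ring
      show susf (fun a => (1 - |H z|) * (if z ∈ A then κ z a else k z a)) (H z) ∈ Rz (Qh Q')
      rw [h2]
      refine susf_mem (fun _ => le_refl _) (fun _ _ => rfl) ?_ (fun a b ha => absurd rfl ha)
      rw [h1, Finset.sum_const_zero]
      ring
    · have hc : (fun a => if z ∈ A then κ z a else k z a) ∈ Rz Q' := by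
        by_cases hzA : z ∈ A
        · have h2 : z ∈ A₀ := (hAcov z hzA).resolve_right hN
          have h3 : (fun a => if z ∈ A then κ z a else k z a) = κ z := by
            ext a
            rw [if_pos hzA]
          rw [h3]
          exact Rz_mono hQQ' (hκQ z h2)
        · have h3 : (fun a => if z ∈ A then κ z a else k z a) = k z := by
            ext a
            rw [if_neg hzA]
          rw [h3]
          exact hkQ z (hz.resolve_left hzA)
      obtain ⟨c1, c2, c3, c4⟩ := hc
      have hpos : 0 ≤ 1 - |H z| := by linarith [hHle z]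
      refine susf_mem (fun a => mul_nonneg hpos (c1 a)) ?_ ?_ ?_
      · intro a ha
        have h5 : (if z ∈ A then κ z a else k z a) = 0 := c2 a ha
        show (1 - |H z|) * (if z ∈ A then κ z a else k z a) = 0
        rw [h5, mul_zero]
      · rw [← Finset.mul_sum, c3, mul_one]
      · intro a b ha hb
        exact c4 a b (right_ne_zero_of_mul ha) (right_ne_zero_of_mul hb)
  have hF₁c : ContinuousOn F₁ (A ∪ (Bp ∩ Bm)) := by
    have e : A ∪ (Bp ∩ Bm) = (A₀ ∪ Np ∪ Nm) ∪ (Bp ∩ Bm) := by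
      ext z
      constructor
      · rintro (hz | hz)
        · rcases hAcov z hz with h1 | h1 | h1
          · exact Or.inl (Or.inl (Or.inl h1))
          · exact Or.inl (Or.inl (Or.inr h1))
          · exact Or.inl (Or.inr h1)
        · exact Or.inr hz
      · rintro (((hz | hz) | hz) | hz)
        · exact Or.inl hz.1
        · exact Or.inl hz.1
        · exact Or.inl hz.1
        · exact Or.inr hz
    rw [e]
    have hA₀1 : ContinuousOn F₁ A₀ := by
      refine ContinuousOn.congr (f := fun z => susf (fun a => (1 - |H z|) * κ z a) (H z)) ?_ ?_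
      · refine continuousOn_susf ?_ hHc.continuousOn
        rw [continuousOn_pi]
        intro a
        exact (continuous_const.sub hHc.abs).continuousOn.mul
          ((continuous_apply a).comp_continuousOn hκc)
      · intro z hz
        show susf (fun a => (1 - |H z|) * (if z ∈ A then κ z a else k z a)) (H z) = _
        simp only [hz.1, if_true]
    have hNp1 : ContinuousOn F₁ Np := by
      refine ContinuousOn.congr (f := fun _ => susf (fun _ => 0) 1) continuousOn_const ?_
      intro z hz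
      show susf (fun a => (1 - |H z|) * (if z ∈ A then κ z a else k z a)) (H z) = _
      rw [hHNp z hz, abs_one]
      simp only [sub_self, zero_mul]
    have hNm1 : ContinuousOn F₁ Nm := by
      refine ContinuousOn.congr (f := fun _ => susf (fun _ => 0) (-1)) continuousOn_const ?_
      intro z hz
      show susf (fun a => (1 - |H z|) * (if z ∈ A then κ z a else k z a)) (H z) = _
      rw [hHNm z hz, abs_neg, abs_one]
      simp only [sub_self, zero_mul]
    have hB1 : ContinuousOn F₁ (Bp ∩ Bm) := by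
      refine ContinuousOn.congr (f := fun z => susf (k z) 0) (continuousOn_susf hkc
        continuousOn_const) ?_
      intro z hz
      show susf (fun a => (1 - |H z|) * (if z ∈ A then κ z a else k z a)) (H z) = _
      rw [hHB z hz, abs_zero]
      simp only [sub_zero, one_mul]
      congr 1
      ext a
      split_ifs with hzA
      · rw [hkκ z ⟨hB0A z hzA hz, hz⟩]
      · rfl
    exact ((hA₀1.union_of_isClosed hNp1 hA₀c hNpc).union_of_isClosed hNm1 (hA₀c.union hNpc)
      hNmc).union_of_isClosed hB1 ((hA₀c.union hNpc).union hNmc) (hBpc.inter hBmc)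
  have hABc : IsClosed (A ∪ (Bp ∩ Bm)) := hA.union (hBpc.inter hBmc)
  -- extension over the two halves
  obtain ⟨Gp, hGpc, hGpQ, hGp⟩ := hCon (Z × Iv) (SusK P 1) (QhT Q') pT
    ((A ∪ (Bp ∩ Bm)) ∩ Bp) F₁ (Finset.mem_insert_self _ _) (by
      intro x hx
      rcases sus_cases x with ⟨a, rfl⟩ | rfl | rfl
      · exact trivial
      · exact le_refl _
      · exfalso
        rcases Finset.mem_insert.1 hx with h1 | h1
        · exact pT_ne_pF h1.symm
        · exact pF_notMem_map h1)
    (hABc.inter hBpc) (hF₁c.mono inter_subset_left) (by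
      intro z hz
      refine mem_QhT_of (hF₁Q z hz.1) ?_
      show susf _ (H z) pF = 0
      rw [susf_pF]
      exact max_eq_right (by linarith [hHBp z hz.2]))
  obtain ⟨Gm, hGmc, hGmQ, hGm⟩ := hCon (Z × Iv) (SusK P 1) (QhF Q') pF
    ((A ∪ (Bp ∩ Bm)) ∩ Bm) F₁ (Finset.mem_insert_self _ _) (by
      intro x hx
      rcases sus_cases x with ⟨a, rfl⟩ | rfl | rfl
      · exact trivial
      · exfalso
        rcases Finset.mem_insert.1 hx with h1 | h1
        · exact pT_ne_pF h1
        · exact pT_notMem_map h1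
      · exact le_refl _)
    (hABc.inter hBmc) (hF₁c.mono inter_subset_left) (by
      intro z hz
      refine mem_QhF_of (hF₁Q z hz.1) ?_
      show susf _ (H z) pT = 0
      rw [susf_pT]
      exact max_eq_right (hHBm z hz.2))
  set G : Z × Iv → SusK P 1 → ℝ := fun z => if z ∈ Bp then Gp z else Gm z with hG
  have hGBp : ∀ z ∈ Bp, G z = Gp z := fun z hz => if_pos hz
  have hGBm : ∀ z ∈ Bm, G z = Gm z := by
    intro z hz
    by_cases h1 : z ∈ Bp
    · rw [hGBp z h1, hGp z ⟨Or.inr ⟨h1, hz⟩, h1⟩, hGm z ⟨Or.inr ⟨h1, hz⟩, hz⟩]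
    · exact if_neg h1
  have hGc : Continuous G := by
    rw [← continuousOn_univ, ← hBB]
    exact glue2 hBpc hBmc hGpc.continuousOn hGmc.continuousOn hGBp hGBm
  have hGQ : ∀ z, G z ∈ Rz (Qh Q') := by
    intro z
    rcases hBun z with h1 | h1
    · rw [hGBp z h1]
      exact Rz_mono (QhT_subset Q') (hGpQ z)
    · rw [hGBm z h1]
      exact Rz_mono (QhF_subset Q') (hGmQ z)
  have hGA : ∀ z ∈ A, G z = F₁ z := by
    intro z hz
    rcases hBun z with h1 | h1
    · rw [hGBp z h1, hGp z ⟨Or.inl hz, h1⟩]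
    · rw [hGBm z h1, hGm z ⟨Or.inl hz, h1⟩]
  -- the homotopy
  set Hs : (Z × Iv) × Set.Icc (0 : ℝ) 1 → ℝ := fun w => (1 - (w.2 : ℝ)) * h w.1 + w.2 * H w.1
    with hHs
  have hHsc : ContinuousOn Hs (A ×ˢ univ) := by
    have h1 : ContinuousOn (fun w : (Z × Iv) × Set.Icc (0 : ℝ) 1 => h w.1) (A ×ˢ univ) :=
      hhc.comp continuous_fst.continuousOn fun w hw => hw.1
    have h2 : Continuous fun w : (Z × Iv) × Set.Icc (0 : ℝ) 1 => (w.2 : ℝ) :=
      continuous_subtype_val.comp continuous_snd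
    exact ((continuous_const.sub h2).continuousOn.mul h1).add
      (h2.mul (hHc.comp continuous_fst)).continuousOn
  have hHsle : ∀ w ∈ A ×ˢ (univ : Set (Set.Icc (0 : ℝ) 1)), |Hs w| ≤ 1 := by
    rintro ⟨z, s⟩ ⟨hz, -⟩
    have h1 := hle1 z hz
    have h2 := hHle z
    have h3 := s.2.1
    have h4 := s.2.2
    show |(1 - (s : ℝ)) * h z + s * H z| ≤ 1
    refine (abs_add_le _ _).trans ?_
    rw [abs_mul, abs_mul, abs_of_nonneg h3, abs_of_nonneg (by linarith : 0 ≤ 1 - (s : ℝ))]
    nlinarith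
  set K : (Z × Iv) × Set.Icc (0 : ℝ) 1 → SusK P 1 → ℝ := fun w =>
    susf (fun a => if w.1 ∈ A₀ then (1 - |Hs w|) * κ w.1 a else
      (1 - (w.2 : ℝ)) * f w.1 (SusK.base a)) (Hs w) with hK
  have hHsN : ∀ z s, (z ∈ Np ∨ z ∈ Nm) → 1 - |Hs (z, s)| = (1 - (s : ℝ)) * (1 - |h z|) := by
    intro z s hz
    have h3 := s.2.1
    have h4 := s.2.2
    rcases hz with hz | hz
    · have h5 : (1 / 2 : ℝ) ≤ h z := hz.2
      have h6 := hHNp z hz
      have h7 : Hs (z, s) = (1 - (s : ℝ)) * h z + s := by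
        show (1 - (s : ℝ)) * h z + s * H z = _
        rw [h6, mul_one]
      have h8 : 0 ≤ (1 - (s : ℝ)) * h z := mul_nonneg (by linarith) (by linarith)
      rw [h7, abs_of_nonneg (by linarith), abs_of_nonneg (by linarith)]
      ring
    · have h5 : h z ≤ -(1 / 2 : ℝ) := hz.2
      have h6 := hHNm z hz
      have h7 : Hs (z, s) = (1 - (s : ℝ)) * h z - s := by
        show (1 - (s : ℝ)) * h z + s * H z = _
        rw [h6]
        ring
      have h8 : (1 - (s : ℝ)) * h z ≤ 0 := mul_nonpos_of_nonneg_of_nonpos (by linarith) (by linarith)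
      rw [h7, abs_of_nonpos (by linarith), abs_of_nonpos (by linarith)]
      ring
  have hKeq : ∀ z s, (z ∈ Np ∨ z ∈ Nm) → K (z, s) = susf (fun a => (1 - (s : ℝ)) *
      f z (SusK.base a)) (Hs (z, s)) := by
    intro z s hz
    show susf (fun a => if z ∈ A₀ then (1 - |Hs (z, s)|) * κ z a else
      (1 - (s : ℝ)) * f z (SusK.base a)) (Hs (z, s)) = _
    congr 1
    ext a
    split_ifs with h0
    · rw [hHsN z s hz]
      have h1 : 1 - |h z| ≠ 0 := by
        have := hA₀lt z h0
        linarith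
      show (1 - (s : ℝ)) * (1 - |h z|) * (f z (SusK.base a) / (1 - |h z|)) = _
      field_simp
    · rfl
  have hKQ : ∀ w ∈ A ×ˢ (univ : Set (Set.Icc (0 : ℝ) 1)), K w ∈ Rz (Qh Q') := by
    rintro ⟨z, s⟩ hw
    have hz : z ∈ A := hw.1
    have hpos : 0 ≤ 1 - |Hs (z, s)| := by linarith [hHsle _ hw]
    rcases hAcov z hz with h1 | h1
    · have e : K (z, s) = susf (fun a => (1 - |Hs (z, s)|) * κ z a) (Hs (z, s)) := by
        show susf (fun a => if z ∈ A₀ then (1 - |Hs (z, s)|) * κ z a else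
          (1 - (s : ℝ)) * f z (SusK.base a)) (Hs (z, s)) = _
        simp only [h1, if_true]
      rw [e]
      obtain ⟨c1, c2, c3, c4⟩ := Rz_mono hQQ' (hκQ z h1)
      refine susf_mem (fun a => mul_nonneg hpos (c1 a)) ?_ ?_ ?_
      · intro a ha
        show (1 - |Hs (z, s)|) * κ z a = 0
        rw [c2 a ha, mul_zero]
      · rw [← Finset.mul_sum, c3, mul_one]
      · intro a b ha hb
        exact c4 a b (right_ne_zero_of_mul ha) (right_ne_zero_of_mul hb)
    · rw [hKeq z s h1]
      have hs : 0 ≤ 1 - (s : ℝ) := by linarith [s.2.2]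
      refine susf_mem (fun a => mul_nonneg hs ((hfQ z hz).1 _)) ?_ ?_ ?_
      · intro a ha
        show (1 - (s : ℝ)) * f z (SusK.base a) = 0
        rw [(hfQ z hz).2.1 _ (fun h2 => ha (hQQ' (mem_Qh.1 h2))), mul_zero]
      · rw [← Finset.mul_sum, hHsN z s h1]
        congr 1
        rw [← hsum z hz]
        symm
        refine Finset.sum_subset hQQ' fun a _ ha => ?_
        exact (hfQ z hz).2.1 _ fun h2 => ha (mem_Qh.1 h2)
      · intro a b ha hb
        exact (hfQ z hz).2.2.2 (SusK.base a) (SusK.base b) (right_ne_zero_of_mul ha)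
          (right_ne_zero_of_mul hb)
  have hKc : ContinuousOn K (A ×ˢ univ) := by
    have e : A ×ˢ (univ : Set (Set.Icc (0 : ℝ) 1)) = (A₀ ×ˢ univ) ∪ ((Np ∪ Nm) ×ˢ univ) := by
      ext ⟨z, s⟩
      constructor
      · rintro ⟨hz, -⟩
        rcases hAcov z hz with h1 | h1
        · exact Or.inl ⟨h1, mem_univ _⟩
        · exact Or.inr ⟨h1, mem_univ _⟩
      · rintro (⟨hz, -⟩ | ⟨hz | hz, -⟩)
        · exact ⟨hz.1, mem_univ _⟩
        · exact ⟨hz.1, mem_univ _⟩
        · exact ⟨hz.1, mem_univ _⟩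
    rw [e]
    have hsub1 : A₀ ×ˢ (univ : Set (Set.Icc (0 : ℝ) 1)) ⊆ A ×ˢ univ := fun w hw => ⟨hw.1.1, hw.2⟩
    have hsub2 : (Np ∪ Nm) ×ˢ (univ : Set (Set.Icc (0 : ℝ) 1)) ⊆ A ×ˢ univ := by
      rintro w ⟨h1 | h1, h2⟩
      · exact ⟨h1.1, h2⟩
      · exact ⟨h1.1, h2⟩
    refine glue2 (hA₀c.prod isClosed_univ) ((hNpc.union hNmc).prod isClosed_univ)
      (f := fun w => susf (fun a => (1 - |Hs w|) * κ w.1 a) (Hs w))
      (g := fun w => susf (fun a => (1 - (w.2 : ℝ)) * f w.1 (SusK.base a)) (Hs w)) ?_ ?_ ?_ ?_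
    · refine continuousOn_susf ?_ (hHsc.mono hsub1)
      rw [continuousOn_pi]
      intro a
      refine (continuousOn_const.sub (hHsc.mono hsub1).abs).mul ?_
      exact ((continuous_apply a).comp_continuousOn hκc).comp continuous_fst.continuousOn
        fun w hw => hw.1
    · refine continuousOn_susf ?_ (hHsc.mono hsub2)
      rw [continuousOn_pi]
      intro a
      have h2 : Continuous fun w : (Z × Iv) × Set.Icc (0 : ℝ) 1 => (w.2 : ℝ) :=
        continuous_subtype_val.comp continuous_snd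
      refine (continuous_const.sub h2).continuousOn.mul ?_
      exact ((continuous_apply _).comp_continuousOn hf).comp continuous_fst.continuousOn
        fun w hw => (hsub2 hw).1
    · rintro ⟨z, s⟩ hw
      have h1 : z ∈ A₀ := hw.1
      show susf (fun a => if z ∈ A₀ then (1 - |Hs (z, s)|) * κ z a else
        (1 - (s : ℝ)) * f z (SusK.base a)) (Hs (z, s)) = _
      simp only [h1, if_true]
    · rintro ⟨z, s⟩ hw
      exact hKeq z s hw.1
  obtain ⟨g', hg'c, hg'Q, hg'⟩ := hHep (Z × Iv) (SusK P 1) (Qh Q') A K G hA hKc hKQ hGc hGQ (by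
    intro z hz
    rw [hGA z hz]
    have hs1 : Hs (z, 1) = H z := by
      show (1 - ((1 : Set.Icc (0 : ℝ) 1) : ℝ)) * h z + ((1 : Set.Icc (0 : ℝ) 1) : ℝ) * H z = H z
      simp
    rcases hAcov z hz with h1 | h1
    · show susf (fun a => (1 - |H z|) * (if z ∈ A then κ z a else k z a)) (H z) =
        susf (fun a => if z ∈ A₀ then (1 - |Hs (z, 1)|) * κ z a else
          (1 - ((1 : Set.Icc (0 : ℝ) 1) : ℝ)) * f z (SusK.base a)) (Hs (z, 1))
      rw [hs1]
      simp only [h1, hz, if_true]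
    · rw [hKeq z 1 h1, hs1]
      show susf (fun a => (1 - |H z|) * (if z ∈ A then κ z a else k z a)) (H z) = _
      rw [hF₁N z h1]
      congr 1
      ext a
      simp)
  refine ⟨Qh Q', g', hRQ.trans (Qh_mono hQQ'), hg'c, hg'Q, ?_⟩
  intro z hz
  rw [hg' z hz]
  have hs0 : Hs (z, 0) = h z := by
    show (1 - ((0 : Set.Icc (0 : ℝ) 1) : ℝ)) * h z + ((0 : Set.Icc (0 : ℝ) 1) : ℝ) * H z = h z
    simp
  rcases hAcov z hz with h1 | h1
  · rw [hfeq z hz]
    show susf (fun a => if z ∈ A₀ then (1 - |Hs (z, 0)|) * κ z a else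
      (1 - ((0 : Set.Icc (0 : ℝ) 1) : ℝ)) * f z (SusK.base a)) (Hs (z, 0)) = _
    rw [hs0]
    congr 1
    ext a
    rw [if_pos h1]
    have h2 : 1 - |h z| ≠ 0 := by
      have := hA₀lt z h1
      linarith
    show (1 - |h z|) * (f z (SusK.base a) / (1 - |h z|)) = f z (SusK.base a)
    field_simp
  · rw [hKeq z 0 h1, hs0]
    conv_rhs => rw [hfeq z hz]
    congr 1
    ext a
    simp

end Pool.Agent.SH
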