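import Pool.Agent.SH.StmtsI

/-!
# MP_2d0b73_an: module SCAN (the scanning map for labelled configurations)
-/

set_option autoImplicit false

open Set Topology

namespace Pool.Agent.SH

namespace SCAN

/-! ### Chains -/

theorem exists_top {P : Type} [PartialOrder P] (s : Finset P) (hs : s.Nonempty)
    (hc : ∀ a ∈ s, ∀ b ∈ s, a ≤ b ∨ b ≤ a) : ∃ m ∈ s, ∀ a ∈ s, a ≤ m := by
  obtain ⟨m, hm⟩ := s.exists_maximal hs
  refine ⟨m, hm.1, fun a ha => ?_⟩
  rcases hc a ha m hm.1 with h | h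
  · exact h
  · exact hm.2 ha h

theorem exists_bot {P : Type} [PartialOrder P] (s : Finset P) (hs : s.Nonempty)
    (hc : ∀ a ∈ s, ∀ b ∈ s, a ≤ b ∨ b ≤ a) : ∃ m ∈ s, ∀ a ∈ s, m ≤ a := by
  obtain ⟨m, hm⟩ := s.exists_minimal hs
  refine ⟨m, hm.1, fun a ha => ?_⟩
  rcases hc m hm.1 a ha with h | h
  · exact h
  · exact hm.2 ha h

theorem isClosed_Rz {P : Type} [PartialOrder P] (Q : Finset P) : IsClosed (Rz Q) := by
  have e : Rz Q = {p : P → ℝ | ∀ a, 0 ≤ p a} ∩ ({p | ∀ a, a ∉ Q → p a = 0} ∩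
      ({p | ∑ a ∈ Q, p a = 1} ∩ {p | ∀ a b, p a ≠ 0 → p b ≠ 0 → a ≤ b ∨ b ≤ a})) := rfl
  rw [e]
  refine IsClosed.inter ?_ (IsClosed.inter ?_ (IsClosed.inter ?_ ?_))
  · rw [Set.ofPred_forall]
    exact isClosed_iInter fun a => isClosed_le continuous_const (continuous_apply a)
  · rw [Set.ofPred_forall]
    refine isClosed_iInter fun a => ?_
    by_cases ha : a ∈ Q
    · simp [ha]
    · simp only [ha, not_false_eq_true, true_imp_iff]
      exact isClosed_eq (continuous_apply a) continuous_const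
  · exact isClosed_eq (continuous_finsetSum _ fun a _ => continuous_apply a) continuous_const
  · rw [Set.ofPred_forall]
    refine isClosed_iInter fun a => ?_
    rw [Set.ofPred_forall]
    refine isClosed_iInter fun b => ?_
    by_cases hab : a ≤ b ∨ b ≤ a
    · simp [hab]
    · have e2 : {p : P → ℝ | p a ≠ 0 → p b ≠ 0 → a ≤ b ∨ b ≤ a} =
          {p | p a = 0} ∪ {p | p b = 0} := by
        ext p
        simp only [hab, Set.mem_ofPred_eq, Set.mem_union]
        tauto
      rw [e2]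
      exact (isClosed_eq (continuous_apply a) continuous_const).union
        (isClosed_eq (continuous_apply b) continuous_const)

theorem supp_top {P : Type} [PartialOrder P] {Q : Finset P} {g : P → ℝ} (hg : g ∈ Rz Q) :
    ∃ m ∈ Q, g m ≠ 0 ∧ ∀ e ∈ Q, g e ≠ 0 → e ≤ m := by
  classical
  have hne : (Q.filter fun e => g e ≠ 0).Nonempty := by
    rw [Finset.nonempty_iff_ne_empty]
    intro h
    have h1 : ∑ a ∈ Q, g a = 0 := by
      refine Finset.sum_eq_zero fun a ha => ?_
      by_contra hne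
      have : a ∈ Q.filter fun e => g e ≠ 0 := Finset.mem_filter.2 ⟨ha, hne⟩
      rw [h] at this
      simp at this
    rw [hg.2.2.1] at h1
    exact one_ne_zero h1
  obtain ⟨m, hm, hm'⟩ := exists_top _ hne fun a ha b hb =>
    hg.2.2.2 a b (Finset.mem_filter.1 ha).2 (Finset.mem_filter.1 hb).2
  exact ⟨m, (Finset.mem_filter.1 hm).1, (Finset.mem_filter.1 hm).2,
    fun e he he' => hm' e (Finset.mem_filter.2 ⟨he, he'⟩)⟩

theorem supp_bot {P : Type} [PartialOrder P] {Q : Finset P} {g : P → ℝ} (hg : g ∈ Rz Q) :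
    ∃ m ∈ Q, g m ≠ 0 ∧ ∀ e ∈ Q, g e ≠ 0 → m ≤ e := by
  classical
  obtain ⟨m0, h0, h0', -⟩ := supp_top hg
  obtain ⟨m, hm, hm'⟩ := exists_bot (Q.filter fun e => g e ≠ 0)
    ⟨m0, Finset.mem_filter.2 ⟨h0, h0'⟩⟩ fun a ha b hb =>
    hg.2.2.2 a b (Finset.mem_filter.1 ha).2 (Finset.mem_filter.1 hb).2
  exact ⟨m, (Finset.mem_filter.1 hm).1, (Finset.mem_filter.1 hm).2,
    fun e he he' => hm' e (Finset.mem_filter.2 ⟨he, he'⟩)⟩

/-! ### Labels along chains -/

theorem lab_mono {S : Type} [PartialOrder S] [Zero S] {e' e'' e : LL S} (h1 : e' ≤ e'')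
    (h2 : e'' ≤ e) {c : ℕ →₀ ℕ} (hc : c ∈ e.C.support) :
    e'.C (res e'.J c) ≤ e''.C (res e''.J c) := by
  by_cases hb : res e''.J c ∈ e''.C.support
  · have := h1.2.1 _ hb
    rwa [res_res h1.1] at this
  · have h0 : e'.C (res e'.J c) = 0 := by
      by_contra hne
      obtain ⟨a, ha, ha'⟩ := h1.2.2 _ (Finsupp.mem_support_iff.2 hne)
      obtain ⟨a', ha2, rfl⟩ := h2.2.2 a ha
      rw [res_res h1.1] at ha'
      obtain ⟨j, hj⟩ := e'.ne
      have h7 : a' j = c j := by
        have := DFunLike.congr_fun ha' j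
        rwa [res_apply_mem hj, res_apply_mem hj] at this
      have h8 : a' = c := by
        by_contra hne'
        exact e.inj a' ha2 c hc hne' j (h2.1 (h1.1 hj)) h7
      exact hb (h8 ▸ ha)
    rw [h0, Finsupp.notMem_support_iff.1 hb]

/-! ### The map `F` -/

/-- The size of the transversal part. -/
noncomputable def rho {R : ℕ} (x : Fin 3 → ℝ) (v : Fin R → ℝ) : ℝ :=
  max (max |x 1| |x 2|) (max ‖v‖ (1 - x 0))

/-- The map `F`. -/
noncomputable def FF {R : ℕ} (x : Fin 3 → ℝ) (v : Fin R → ℝ) : (Fin 3 → ℝ) × (Fin R → ℝ) :=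
  (fun i => if i = 0 then max (1 - 4 * rho x v) (-1) else max (1 - 2 * rho x v) 0 * x i,
    fun j => max (1 - 2 * rho x v) 0 * v j)

theorem continuous_rho (R : ℕ) :
    Continuous fun q : (Fin 3 → ℝ) × (Fin R → ℝ) => rho q.1 q.2 := by
  unfold rho
  fun_prop

theorem continuous_FF (R : ℕ) :
    Continuous fun q : (Fin 3 → ℝ) × (Fin R → ℝ) => FF q.1 q.2 := by
  have h := continuous_rho R
  unfold FF
  refine Continuous.prodMk (continuous_pi fun i => ?_) (continuous_pi fun j => ?_)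
  · by_cases hi : i = 0
    · simp only [hi, if_true]
      exact (continuous_const.sub (continuous_const.mul h)).max continuous_const
    · simp only [hi, if_false]
      exact ((continuous_const.sub (continuous_const.mul h)).max continuous_const).mul
        ((continuous_apply i).comp continuous_fst)
  · exact ((continuous_const.sub (continuous_const.mul h)).max continuous_const).mul
      ((continuous_apply j).comp continuous_snd)

theorem FF_of_le {R : ℕ} {x : Fin 3 → ℝ} {v : Fin R → ℝ} (h : 1 / 2 ≤ rho x v) :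
    FF x v = me0 R := by
  have h1 : max (1 - 2 * rho x v) 0 = 0 := max_eq_right (by linarith)
  have h2 : max (1 - 4 * rho x v) (-1) = -1 := max_eq_right (by linarith)
  unfold FF me0
  rw [h1, h2]
  simp

theorem rho_ge_x0 {R : ℕ} (x : Fin 3 → ℝ) (v : Fin R → ℝ) : 1 - x 0 ≤ rho x v :=
  (le_max_right _ _).trans (le_max_right _ _)

theorem rho_ge_v {R : ℕ} (x : Fin 3 → ℝ) (v : Fin R → ℝ) : ‖v‖ ≤ rho x v :=
  (le_max_left _ _).trans (le_max_right _ _)

theorem rho_ge_x1 {R : ℕ} (x : Fin 3 → ℝ) (v : Fin R → ℝ) : |x 1| ≤ rho x v :=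
  (le_max_left _ _).trans (le_max_left _ _)

theorem rho_ge_x2 {R : ℕ} (x : Fin 3 → ℝ) (v : Fin R → ℝ) : |x 2| ≤ rho x v :=
  (le_max_right _ _).trans (le_max_left _ _)

/-- If `‖x‖ = 1` and `x_1 = x_2 = 0 < x_0` and `v = 0` then `rho = 0`. -/
theorem rho_eq_zero {R : ℕ} {x : Fin 3 → ℝ} {v : Fin R → ℝ} (hx : ‖x‖ = 1) (h0 : 0 < x 0)
    (h1 : x 1 = 0) (h2 : x 2 = 0) (hv : v = 0) : rho x v = 0 ∧ x 0 = 1 := by
  have h3 : |x 0| ≤ 1 := by
    have := norm_le_pi_norm x 0
    rwa [hx] at this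
  have h4 : x 0 = 1 := by
    apply le_antisymm ((le_abs_self _).trans h3)
    by_contra hlt
    push Not at hlt
    have h5 : ‖x‖ < 1 := by
      rw [pi_norm_lt_iff one_pos]
      intro i
      fin_cases i
      · show |x 0| < 1
        rw [abs_of_pos h0]
        exact hlt
      · show |x 1| < 1
        rw [h1, abs_zero]
        exact one_pos
      · show |x 2| < 1
        rw [h2, abs_zero]
        exact one_pos
    rw [hx] at h5
    exact lt_irrefl _ h5
  refine ⟨?_, h4⟩
  unfold rho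
  rw [h1, h2, h4, hv]
  simp

theorem x0_pos_of_rho {R : ℕ} {x : Fin 3 → ℝ} {v : Fin R → ℝ} (h : rho x v < 1 / 2) :
    0 < x 0 := by
  have := rho_ge_x0 x v
  linarith

theorem me0_ne (R : ℕ) : me0 R ≠ 0 := by
  intro h
  have h1 := congrFun (congrArg Prod.fst h) 0
  simp [me0] at h1

theorem FF_ne {R : ℕ} {x : Fin 3 → ℝ} (hx : ‖x‖ = 1) (v : Fin R → ℝ) : FF x v ≠ 0 := by
  intro h
  rcases le_or_gt (1 / 2) (rho x v) with h1 | h1
  · rw [FF_of_le h1] at h
    exact me0_ne R h
  · have hk : 0 < max (1 - 2 * rho x v) 0 := lt_max_of_lt_left (by linarith)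
    have hx1 : x 1 = 0 := by
      have := congrFun (congrArg Prod.fst h) 1
      simp only [FF, Prod.fst_zero, Pi.zero_apply] at this
      rw [if_neg (by decide)] at this
      exact (mul_eq_zero.1 this).resolve_left hk.ne'
    have hx2 : x 2 = 0 := by
      have := congrFun (congrArg Prod.fst h) 2
      simp only [FF, Prod.fst_zero, Pi.zero_apply] at this
      rw [if_neg (by decide)] at this
      exact (mul_eq_zero.1 this).resolve_left hk.ne'
    have hv : v = 0 := by
      funext j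
      have := congrFun (congrArg Prod.snd h) j
      simp only [FF, Prod.snd_zero, Pi.zero_apply] at this
      exact (mul_eq_zero.1 this).resolve_left hk.ne'
    have hr := (rho_eq_zero hx (x0_pos_of_rho h1) hx1 hx2 hv).1
    have h3 := congrFun (congrArg Prod.fst h) 0
    simp only [FF, if_true, hr, Prod.fst_zero, Pi.zero_apply] at h3
    norm_num at h3

theorem FF_anti {R : ℕ} {x : Fin 3 → ℝ} (hx : ‖x‖ = 1) {lam : ℝ} (hlam : 0 < lam)
    (r : Fin R → ℝ) {μ d : ℝ} (hμ : 0 ≤ μ) (hd : 0 < d) :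
    FF x (fun j => lam * r j) ≠ -(μ • ((d • x, r) : (Fin 3 → ℝ) × (Fin R → ℝ))) := by
  intro h
  set v : Fin R → ℝ := fun j => lam * r j with hvdef
  have hμd : 0 ≤ μ * d := mul_nonneg hμ hd.le
  have c0 : (FF x v).1 0 = -(μ * (d * x 0)) := by rw [h]; rfl
  have c1 : (FF x v).1 1 = -(μ * (d * x 1)) := by rw [h]; rfl
  have c2 : (FF x v).1 2 = -(μ * (d * x 2)) := by rw [h]; rfl
  have c3 : ∀ j, (FF x v).2 j = -(μ * r j) := fun j => by rw [h]; rfl
  rcases le_or_gt (1 / 2) (rho x v) with h1 | h1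
  · rw [FF_of_le h1] at c0 c1 c2 c3
    simp only [me0, if_true] at c0
    have e1 : (1 : Fin 3) ≠ 0 := by decide
    have e2 : (2 : Fin 3) ≠ 0 := by decide
    simp only [me0, if_neg e1] at c1
    simp only [me0, if_neg e2] at c2
    have hμ0 : μ ≠ 0 := by
      rintro rfl
      norm_num at c0
    have hpos : 0 < μ * d := lt_of_le_of_ne hμd (mul_ne_zero hμ0 hd.ne').symm
    have hx0 : 0 < x 0 := by
      have : μ * d * x 0 = 1 := by linarith
      by_contra hcon
      push Not at hcon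
      nlinarith
    have hx1 : x 1 = 0 := by
      have : μ * d * x 1 = 0 := by linarith
      exact (mul_eq_zero.1 this).resolve_left hpos.ne'
    have hx2 : x 2 = 0 := by
      have : μ * d * x 2 = 0 := by linarith
      exact (mul_eq_zero.1 this).resolve_left hpos.ne'
    have hv : v = 0 := by
      funext j
      have h2 := c3 j
      simp only [me0] at h2
      have h3 : μ * r j = 0 := by linarith
      have h4 : r j = 0 := (mul_eq_zero.1 h3).resolve_left hμ0
      simp [hvdef, h4]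
    have hr := (rho_eq_zero hx hx0 hx1 hx2 hv).1
    rw [hr] at h1
    norm_num at h1
  · have hk : 0 < max (1 - 2 * rho x v) 0 := lt_max_of_lt_left (by linarith)
    have hx1 : x 1 = 0 := by
      simp only [FF] at c1
      rw [if_neg (by decide)] at c1
      have : (max (1 - 2 * rho x v) 0 + μ * d) * x 1 = 0 := by linarith
      exact (mul_eq_zero.1 this).resolve_left (by positivity)
    have hx2 : x 2 = 0 := by
      simp only [FF] at c2
      rw [if_neg (by decide)] at c2
      have : (max (1 - 2 * rho x v) 0 + μ * d) * x 2 = 0 := by linarith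
      exact (mul_eq_zero.1 this).resolve_left (by positivity)
    have hv : v = 0 := by
      funext j
      have h2 := c3 j
      simp only [FF] at h2
      have h3 : (max (1 - 2 * rho x v) 0 * lam + μ) * r j = 0 := by
        have : v j = lam * r j := rfl
        rw [this] at h2
        linarith
      have h4 : r j = 0 := (mul_eq_zero.1 h3).resolve_left (by positivity)
      simp [hvdef, h4]
    obtain ⟨hr, hx0⟩ := rho_eq_zero hx (x0_pos_of_rho h1) hx1 hx2 hv
    simp only [FF, if_true, hr, hx0] at c0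
    norm_num at c0
    linarith

/-! ### Octahedral coordinates -/

theorem octa_ne {z : Sph 2 → ℝ} (hz : z ∈ Rz (Finset.univ : Finset (Sph 2))) : octa z ≠ 0 := by
  intro h
  obtain ⟨⟨i, b⟩, -, hm, -⟩ := supp_top hz
  have h1 : z ⟨i, true⟩ - z ⟨i, false⟩ = 0 := congrFun h i
  have hnc : ¬ ((⟨i, true⟩ : Sph 2) ≤ ⟨i, false⟩ ∨ (⟨i, false⟩ : Sph 2) ≤ ⟨i, true⟩) := by
    simp [Sph.le_iff]
  have h2 := hz.2.2.2 ⟨i, true⟩ ⟨i, false⟩
  cases b
  · by_cases h3 : z ⟨i, true⟩ = 0
    · rw [h3] at h1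
      apply hm
      linarith
    · exact hnc (h2 h3 hm)
  · by_cases h3 : z ⟨i, false⟩ = 0
    · rw [h3] at h1
      apply hm
      linarith
    · exact hnc (h2 hm h3)

/-- Normalised octahedral coordinates. -/
noncomputable def iota (z : Sph 2 → ℝ) : Fin 3 → ℝ := ‖octa z‖⁻¹ • octa z

theorem norm_iota {z : Sph 2 → ℝ} (hz : z ∈ Rz (Finset.univ : Finset (Sph 2))) :
    ‖iota z‖ = 1 := by
  unfold iota
  rw [norm_smul, norm_inv, norm_norm, inv_mul_cancel₀ (norm_ne_zero_iff.2 (octa_ne hz))]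

theorem continuous_octa : Continuous octa := by
  unfold octa
  exact continuous_pi fun i => (continuous_apply _).sub (continuous_apply _)

/-! ### Labels and positions of a track -/

/-- The labels of the track `c`. -/
noncomputable def zc (Q : Finset (LL (Sph 2))) (c : ℕ →₀ ℕ) (g : LL (Sph 2) → ℝ) : Sph 2 → ℝ :=
  fun σ => ∑ e ∈ Q, if e.C (res e.J c) = σ then g e else 0

/-- The position of the track `c`. -/
noncomputable def pc (Q : Finset (LL (Sph 2))) (R : ℕ) (c : ℕ →₀ ℕ) (g : LL (Sph 2) → ℝ) :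
    Fin R → ℝ :=
  fun j => ∑ e ∈ Q, if (j : ℕ) ∈ e.J then g e * c j else 0

/-- The contribution of the track `c`. -/
noncomputable def TT (Q : Finset (LL (Sph 2))) (R : ℕ) (lam : ℝ) (c : ℕ →₀ ℕ)
    (z : (LL (Sph 2) → ℝ) × (Fin R → Iv)) : (Fin 3 → ℝ) × (Fin R → ℝ) :=
  FF (iota (zc Q c z.1)) (fun j => lam * (z.2 j : ℝ) - pc Q R c z.1 j) - me0 R

/-- The scanning map for configurations which are faces of `e`. -/
noncomputable def sE (Q : Finset (LL (Sph 2))) (R : ℕ) (lam : ℝ) (e : LL (Sph 2))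
    (z : (LL (Sph 2) → ℝ) × (Fin R → Iv)) : (Fin 3 → ℝ) × (Fin R → ℝ) :=
  me0 R + ∑ c ∈ e.C.support, TT Q R lam c z

variable {Q : Finset (LL (Sph 2))} {R : ℕ} {lam : ℝ} {g : LL (Sph 2) → ℝ}

theorem continuous_zc (c : ℕ →₀ ℕ) : Continuous (zc Q c) := by
  refine continuous_pi fun σ => continuous_finsetSum _ fun e _ => ?_
  by_cases h : e.C (res e.J c) = σ
  · simp only [h, if_true]
    exact continuous_apply e
  · simp only [h, if_false]
    exact continuous_const

theorem continuous_pc (c : ℕ →₀ ℕ) : Continuous (pc Q R c) := by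
  refine continuous_pi fun j => continuous_finsetSum _ fun e _ => ?_
  by_cases h : (j : ℕ) ∈ e.J
  · simp only [h, if_true]
    exact (continuous_apply e).mul continuous_const
  · simp only [h, if_false]
    exact continuous_const

theorem zc_mem (hg : g ∈ Rz Q) {e : LL (Sph 2)} (he : ∀ e' ∈ Q, g e' ≠ 0 → e' ≤ e)
    {c : ℕ →₀ ℕ} (hc : c ∈ e.C.support) : zc Q c g ∈ Rz (Finset.univ : Finset (Sph 2)) := by
  have hex : ∀ σ, zc Q c g σ ≠ 0 → ∃ e' ∈ Q, g e' ≠ 0 ∧ e'.C (res e'.J c) = σ := by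
    intro σ hσ
    obtain ⟨e', he', hne⟩ := Finset.exists_ne_zero_of_sum_ne_zero hσ
    by_cases h : e'.C (res e'.J c) = σ
    · rw [if_pos h] at hne
      exact ⟨e', he', hne, h⟩
    · rw [if_neg h] at hne
      exact absurd rfl hne
  refine ⟨fun σ => ?_, fun σ h => absurd (Finset.mem_univ σ) h, ?_, ?_⟩
  · refine Finset.sum_nonneg fun e' _ => ?_
    split_ifs
    · exact hg.1 e'
    · exact le_rfl
  · unfold zc
    rw [Finset.sum_comm]
    rw [← hg.2.2.1]
    refine Finset.sum_congr rfl fun e' _ => ?_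
    rw [Finset.sum_ite_eq]
    simp
  · intro σ σ' h1 h2
    obtain ⟨e1, a1, b1, c1⟩ := hex σ h1
    obtain ⟨e2, a2, b2, c2⟩ := hex σ' h2
    rw [← c1, ← c2]
    rcases hg.2.2.2 e1 e2 b1 b2 with h | h
    · exact Or.inl (lab_mono h (he e2 a2 b2) hc)
    · exact Or.inr (lab_mono h (he e1 a1 b1) hc)

theorem TT_of_norm {c : ℕ →₀ ℕ} {r : Fin R → Iv}
    (h : 1 / 2 ≤ ‖fun j => lam * (r j : ℝ) - pc Q R c g j‖) : TT Q R lam c (g, r) = 0 := by
  unfold TT
  rw [FF_of_le (h.trans (rho_ge_v _ _)), sub_self]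

theorem TT_of_lab (hg : g ∈ Rz Q) {c : ℕ →₀ ℕ} {r : Fin R → Iv}
    (h : ∀ e ∈ Q, g e ≠ 0 → e.C (res e.J c) = 0) : TT Q R lam c (g, r) = 0 := by
  have h1 : zc Q c g ⟨0, true⟩ = 0 := by
    refine Finset.sum_eq_zero fun e he => ?_
    by_cases h0 : g e = 0
    · simp [h0]
    · rw [if_neg]
      rw [h e he h0, Sph.zero_def]
      intro h2
      cases h2
  have h2 : 0 ≤ zc Q c g ⟨0, false⟩ := by
    refine Finset.sum_nonneg fun e' _ => ?_
    split_ifs
    · exact hg.1 e'
    · exact le_rfl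
  have h3 : iota (zc Q c g) 0 ≤ 0 := by
    unfold iota
    rw [Pi.smul_apply, smul_eq_mul]
    refine mul_nonpos_of_nonneg_of_nonpos (by positivity) ?_
    unfold octa
    rw [h1]
    linarith
  unfold TT
  rw [FF_of_le, sub_self]
  have := rho_ge_x0 (iota (zc Q c g)) (fun j => lam * (r j : ℝ) - pc Q R c g j)
  linarith

theorem TT_res {m : LL (Sph 2)} (hm : ∀ e' ∈ Q, g e' ≠ 0 → e' ≤ m) (c : ℕ →₀ ℕ)
    (r : Fin R → Iv) : TT Q R lam c (g, r) = TT Q R lam (res m.J c) (g, r) := by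
  have e1 : zc Q c g = zc Q (res m.J c) g := by
    funext σ
    refine Finset.sum_congr rfl fun e he => ?_
    by_cases h0 : g e = 0
    · simp [h0]
    · rw [res_res (hm e he h0).1]
  have e2 : pc Q R c g = pc Q R (res m.J c) g := by
    funext j
    refine Finset.sum_congr rfl fun e he => ?_
    by_cases h0 : g e = 0
    · simp [h0]
    · by_cases hj : (j : ℕ) ∈ e.J
      · rw [if_pos hj, if_pos hj, res_apply_mem ((hm e he h0).1 hj)]
      · rw [if_neg hj, if_neg hj]
  unfold TT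
  rw [e1, e2]

theorem sE_indep (hg : g ∈ Rz Q) {m e : LL (Sph 2)} (hm : ∀ e' ∈ Q, g e' ≠ 0 → e' ≤ m)
    (hme : m ≤ e) (r : Fin R → Iv) : sE Q R lam e (g, r) = sE Q R lam m (g, r) := by
  classical
  unfold sE
  congr 1
  rw [← Finset.sum_filter_add_sum_filter_not e.C.support
    (fun c => res m.J c ∈ m.C.support)]
  have h2 : ∑ c ∈ e.C.support.filter (fun c => ¬ res m.J c ∈ m.C.support),
      TT Q R lam c (g, r) = 0 := by
    refine Finset.sum_eq_zero fun c hc => ?_
    rw [Finset.mem_filter] at hc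
    refine TT_of_lab hg fun e' he' hne => ?_
    have := lab_mono (hm e' he' hne) hme hc.1
    rw [Finsupp.notMem_support_iff.1 hc.2] at this
    exact Sph.eq_zero_of_le this
  rw [h2, add_zero]
  have himg : m.C.support =
      (e.C.support.filter (fun c => res m.J c ∈ m.C.support)).image (res m.J) := by
    ext b
    rw [Finset.mem_image]
    constructor
    · intro hb
      obtain ⟨a, ha, rfl⟩ := hme.2.2 b hb
      exact ⟨a, Finset.mem_filter.2 ⟨ha, hb⟩, rfl⟩
    · rintro ⟨a, ha, rfl⟩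
      exact (Finset.mem_filter.1 ha).2
  have hinj : Set.InjOn (res m.J)
      (e.C.support.filter (fun c => res m.J c ∈ m.C.support) : Finset (ℕ →₀ ℕ)) := by
    intro c hc c' hc' hcc
    have hc1 := (Finset.mem_filter.1 (Finset.mem_coe.1 hc)).1
    have hc2 := (Finset.mem_filter.1 (Finset.mem_coe.1 hc')).1
    by_contra hne
    obtain ⟨j, hj⟩ := m.ne
    have h7 : c j = c' j := by
      have := DFunLike.congr_fun hcc j
      rwa [res_apply_mem hj, res_apply_mem hj] at this
    exact e.inj c hc1 c' hc2 hne j (hme.1 hj) h7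
  conv_rhs => rw [himg]
  rw [Finset.sum_image hinj]
  exact Finset.sum_congr rfl fun c _ => TT_res hm c r

open Classical in
/-- The scanning map. -/
noncomputable def sS (Q : Finset (LL (Sph 2))) (R : ℕ) (lam : ℝ)
    (z : (LL (Sph 2) → ℝ) × (Fin R → Iv)) : (Fin 3 → ℝ) × (Fin R → ℝ) :=
  if h : ∃ e ∈ Q, ∀ e' ∈ Q, z.1 e' ≠ 0 → e' ≤ e then sE Q R lam h.choose z else 0

theorem sS_eq (hg : g ∈ Rz Q) {e : LL (Sph 2)} (heQ : e ∈ Q)
    (he : ∀ e' ∈ Q, g e' ≠ 0 → e' ≤ e) (r : Fin R → Iv) :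
    sS Q R lam (g, r) = sE Q R lam e (g, r) := by
  have h : ∃ e ∈ Q, ∀ e' ∈ Q, g e' ≠ 0 → e' ≤ e := ⟨e, heQ, he⟩
  obtain ⟨m, hmQ, hm0, hm⟩ := supp_top hg
  have h1 : sS Q R lam (g, r) = sE Q R lam h.choose (g, r) := dif_pos h
  rw [h1, sE_indep hg hm (h.choose_spec.2 m hmQ hm0) r, sE_indep hg hm (he m hmQ hm0) r]

/-- The closed pieces. -/
def KK (Q : Finset (LL (Sph 2))) (e : LL (Sph 2)) : Set (LL (Sph 2) → ℝ) :=
  {g | g ∈ Rz Q ∧ ∀ e' ∈ Q, g e' ≠ 0 → e' ≤ e}

theorem isClosed_KK (e : LL (Sph 2)) : IsClosed (KK Q e) := by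
  have e1 : KK Q e = Rz Q ∩ {g | ∀ e' ∈ Q, g e' ≠ 0 → e' ≤ e} := rfl
  rw [e1]
  refine (isClosed_Rz Q).inter ?_
  rw [Set.ofPred_forall]
  refine isClosed_iInter fun e' => ?_
  rw [Set.ofPred_forall]
  refine isClosed_iInter fun _ => ?_
  by_cases h : e' ≤ e
  · simp [h]
  · have e2 : {g : LL (Sph 2) → ℝ | g e' ≠ 0 → e' ≤ e} = {g | g e' = 0} := by
      ext g
      simp [h]
    rw [e2]
    exact isClosed_eq (continuous_apply e') continuous_const

theorem continuousOn_iota {c : ℕ →₀ ℕ} {e : LL (Sph 2)} (hc : c ∈ e.C.support) :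
    ContinuousOn (fun z : (LL (Sph 2) → ℝ) × (Fin R → Iv) => iota (zc Q c z.1))
      (KK Q e ×ˢ (univ : Set (Fin R → Iv))) := by
  have h1 : Continuous fun z : (LL (Sph 2) → ℝ) × (Fin R → Iv) => octa (zc Q c z.1) :=
    continuous_octa.comp ((continuous_zc c).comp continuous_fst)
  unfold iota
  refine ContinuousOn.smul (ContinuousOn.inv₀ h1.norm.continuousOn fun z hz => ?_)
    h1.continuousOn
  exact norm_ne_zero_iff.2 (octa_ne (zc_mem hz.1.1 hz.1.2 hc))

theorem continuous_arg (c : ℕ →₀ ℕ) : Continuous fun z : (LL (Sph 2) → ℝ) × (Fin R → Iv) =>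
    (fun j => lam * (z.2 j : ℝ) - pc Q R c z.1 j : Fin R → ℝ) := by
  refine continuous_pi fun j => (continuous_const.mul ?_).sub ?_
  · exact continuous_subtype_val.comp ((continuous_apply j).comp continuous_snd)
  · exact (continuous_apply j).comp ((continuous_pc c).comp continuous_fst)

theorem continuousOn_TT {c : ℕ →₀ ℕ} {e : LL (Sph 2)} (hc : c ∈ e.C.support) :
    ContinuousOn (TT Q R lam c) (KK Q e ×ˢ (univ : Set (Fin R → Iv))) := by
  have h2 := continuousOn_iota (Q := Q) (R := R) hc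
  have h3 := (continuous_arg (Q := Q) (R := R) (lam := lam) c).continuousOn
    (s := KK Q e ×ˢ (univ : Set (Fin R → Iv)))
  have h4 : ContinuousOn (fun z : (LL (Sph 2) → ℝ) × (Fin R → Iv) =>
      ((iota (zc Q c z.1), fun j => lam * (z.2 j : ℝ) - pc Q R c z.1 j) :
        (Fin 3 → ℝ) × (Fin R → ℝ))) (KK Q e ×ˢ (univ : Set (Fin R → Iv))) := h2.prodMk h3
  have h5 := (continuous_FF R).comp_continuousOn h4
  exact h5.sub continuousOn_const

theorem continuousOn_sE (e : LL (Sph 2)) :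
    ContinuousOn (sE Q R lam e) (KK Q e ×ˢ (univ : Set (Fin R → Iv))) := by
  have h : ContinuousOn (fun z => ∑ c ∈ e.C.support, TT Q R lam c z)
      (KK Q e ×ˢ (univ : Set (Fin R → Iv))) :=
    continuousOn_finsetSum _ fun c hc => continuousOn_TT hc
  exact continuousOn_const.add h

theorem continuousOn_sS : ContinuousOn (sS Q R lam) (Rz Q ×ˢ (univ : Set (Fin R → Iv))) := by
  have hcov : Rz Q ×ˢ (univ : Set (Fin R → Iv)) =
      ⋃ e : Q, KK Q e.1 ×ˢ (univ : Set (Fin R → Iv)) := by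
    ext z
    simp only [Set.mem_iUnion]
    constructor
    · rintro ⟨h1, h2⟩
      obtain ⟨m, hmQ, -, hm⟩ := supp_top h1
      exact ⟨⟨m, hmQ⟩, ⟨h1, hm⟩, h2⟩
    · rintro ⟨e, h1, h2⟩
      exact ⟨h1.1, h2⟩
  rw [hcov]
  refine LocallyFinite.continuousOn_iUnion (locallyFinite_of_finite _)
    (fun e => (isClosed_KK e.1).prod isClosed_univ) fun e => ?_
  refine (continuousOn_sE (Q := Q) (R := R) (lam := lam) e.1).congr fun z hz => ?_
  exact sS_eq hz.1.1 e.2 hz.1.2 z.2

/-! ### One particle -/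

theorem one_inj {s s' : Sph 2} (h : LL.one s = LL.one s') : s = s' := by
  have h1 : (LL.one s).C 0 = (LL.one s').C 0 := by rw [h]
  simpa [LL.one] using h1

theorem one_lab (s : Sph 2) : (LL.one s).C (res (LL.one s).J 0) = s := by
  have h1 : res (LL.one s).J 0 = 0 := Finsupp.filter_zero _
  rw [h1]
  simp [LL.one]

theorem push_one (h : Sph 2 → ℝ) (s : Sph 2) : push h (LL.one s) = h s := by
  classical
  unfold push
  rw [Finset.sum_eq_single s]
  · rw [if_pos rfl]
  · intro b _ hb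
    rw [if_neg fun h1 => hb (one_inj h1)]
  · intro h1
    exact absurd (Finset.mem_univ s) h1

theorem push_ne {h : Sph 2 → ℝ} {l : LL (Sph 2)} (hl : push h l ≠ 0) : ∃ s, l = LL.one s := by
  classical
  obtain ⟨s, -, hs⟩ := Finset.exists_ne_zero_of_sum_ne_zero hl
  by_cases h1 : LL.one s = l
  · exact ⟨s, h1.symm⟩
  · rw [if_neg h1] at hs
    exact absurd rfl hs

theorem zc_push {h : Sph 2 → ℝ} (hQ : push h ∈ Rz Q) : zc Q 0 (push h) = h := by
  funext σ
  unfold zc
  rw [Finset.sum_eq_single (LL.one σ)]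
  · rw [if_pos (one_lab σ), push_one]
  · intro e _ hne
    by_cases h0 : push h e = 0
    · simp [h0]
    · obtain ⟨s, rfl⟩ := push_ne h0
      rw [if_neg]
      rw [one_lab]
      rintro rfl
      exact hne rfl
  · intro h1
    rw [hQ.2.1 _ h1]
    simp

theorem sS_push {h : Sph 2 → ℝ} (hQ : push h ∈ Rz Q) (r : Fin R → Iv) :
    sS Q R lam (push h, r) = FF (iota h) (fun j => lam * (r j : ℝ)) := by
  obtain ⟨m, hmQ, hm0, hm⟩ := supp_top hQ
  obtain ⟨s, rfl⟩ := push_ne hm0
  rw [sS_eq hQ hmQ hm r]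
  have hT : TT Q R lam 0 (push h, r) = FF (iota h) (fun j => lam * (r j : ℝ)) - me0 R := by
    unfold TT
    rw [zc_push hQ]
    have hp : pc Q R 0 (push h) = 0 := by
      funext j
      simp [pc]
    simp only [hp, Pi.zero_apply, sub_zero]
  have hS : ∑ c ∈ (LL.one s).C.support, TT Q R lam c (push h, r) = TT Q R lam 0 (push h, r) := by
    by_cases hs : s = 0
    · have h1 : (LL.one s).C.support = ∅ := by simp [LL.one, hs]
      rw [h1, Finset.sum_empty]
      symm
      refine TT_of_lab hQ fun e he hne => ?_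
      obtain ⟨s', rfl⟩ := push_ne hne
      have h2 := hm _ he hne
      have h3 := (LL.le_iff _ _).1 h2
      rw [one_lab]
      by_contra hs'
      have h4 : (0 : ℕ →₀ ℕ) ∈ (LL.one s').C.support := by simp [LL.one, hs']
      obtain ⟨a, ha, -⟩ := h3.2.2 _ h4
      rw [h1] at ha
      simp at ha
    · have h1 : (LL.one s).C.support = {0} := by
        show (Finsupp.single (0 : ℕ →₀ ℕ) s).support = {0}
        exact Finsupp.support_single_ne_zero _ hs
      rw [h1, Finset.sum_singleton]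
  unfold sE
  rw [hS, hT]
  abel

end SCAN

open SCAN in
/-- SCAN. -/
theorem SCAN : Stmt_SCAN := by
  intro Q
  -- bounds for positions and times
  obtain ⟨A, hA⟩ : ∃ A : ℕ, ∀ e ∈ Q, ∀ c ∈ e.C.support, ∀ j, c j ≤ A := by
    refine ⟨Q.sup fun e => e.C.support.sup fun c => c.support.sup fun j => c j, ?_⟩
    intro e he c hc j
    by_cases hj : j ∈ c.support
    · have h1 : c j ≤ c.support.sup fun j => c j := Finset.le_sup (f := fun j => c j) hj
      have h2 : (c.support.sup fun j => c j) ≤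
          e.C.support.sup fun c => c.support.sup fun j => c j :=
        Finset.le_sup (f := fun c : ℕ →₀ ℕ => c.support.sup fun j => c j) hc
      have h3 : (e.C.support.sup fun c => c.support.sup fun j => c j) ≤
          Q.sup fun e => e.C.support.sup fun c => c.support.sup fun j => c j :=
        Finset.le_sup (f := fun e : LL (Sph 2) => e.C.support.sup fun c =>
          c.support.sup fun j => c j) he
      exact h1.trans (h2.trans h3)
    · rw [Finsupp.notMem_support_iff.1 hj]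
      exact Nat.zero_le _
  obtain ⟨R₀, hR₀⟩ : ∃ R₀ : ℕ, ∀ e ∈ Q, ∀ j ∈ e.J, j < R₀ := by
    refine ⟨(Q.sup fun e => e.J.sup id) + 1, ?_⟩
    intro e he j hj
    have h1 : j ≤ e.J.sup id := Finset.le_sup (f := id) hj
    have h2 : e.J.sup id ≤ Q.sup fun e => e.J.sup id :=
      Finset.le_sup (f := fun e : LL (Sph 2) => e.J.sup id) he
    omega
  refine ⟨R₀, fun R hR => ?_⟩
  let lam : ℝ := 2 * (A + 1)
  have hlam : 0 < lam := by positivity
  refine ⟨sS Q R lam, continuousOn_sS, ?_, ?_, ?_⟩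
  · -- no zeros
    rintro ⟨g, r⟩ ⟨hg, -⟩
    have hg' : g ∈ Rz Q := hg
    obtain ⟨m, hmQ, hm0, hm⟩ := supp_top hg'
    rw [sS_eq hg' hmQ hm r]
    obtain ⟨e1, he1Q, he10, he1⟩ := supp_bot hg'
    obtain ⟨j, hj⟩ := e1.ne
    have hjR : j < R := (hR₀ e1 he1Q j hj).trans_le hR
    have hp : ∀ c : ℕ →₀ ℕ, pc Q R c g ⟨j, hjR⟩ = c j := by
      intro c
      have h1 : pc Q R c g ⟨j, hjR⟩ = ∑ e ∈ Q, g e * c j := by
        refine Finset.sum_congr rfl fun e he => ?_
        by_cases h0 : g e = 0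
        · simp [h0]
        · rw [if_pos ((he1 e he h0).1 hj)]
      rw [h1, ← Finset.sum_mul, hg'.2.2.1, one_mul]
    by_cases hall : ∀ c ∈ m.C.support, TT Q R lam c (g, r) = 0
    · unfold sE
      rw [Finset.sum_eq_zero hall, add_zero]
      exact me0_ne R
    · push Not at hall
      obtain ⟨c, hc, hcne⟩ := hall
      have hlt : ∀ c : ℕ →₀ ℕ, TT Q R lam c (g, r) ≠ 0 →
          |lam * (r ⟨j, hjR⟩ : ℝ) - c j| < 1 / 2 := by
        intro c hne
        by_contra hcon
        push Not at hcon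
        apply hne
        apply TT_of_norm
        have h1 := norm_le_pi_norm (fun j => lam * (r j : ℝ) - pc Q R c g j) ⟨j, hjR⟩
        rw [hp c] at h1
        exact hcon.trans h1
      have hsingle : ∑ c ∈ m.C.support, TT Q R lam c (g, r) = TT Q R lam c (g, r) := by
        refine Finset.sum_eq_single c ?_ fun h => absurd hc h
        intro c' hc' hne
        by_contra hT
        have h1 := hlt c hcne
        have h2 := hlt c' hT
        have h3 : c' j ≠ c j := m.inj c' hc' c hc hne j ((hm e1 he1Q he10).1 hj)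
        have h4 : (1 : ℝ) ≤ |(c' j : ℝ) - c j| := by
          have h5 : (1 : ℤ) ≤ |(c' j : ℤ) - c j| := by
            apply Int.one_le_abs
            rw [sub_ne_zero]
            exact_mod_cast h3
          exact_mod_cast h5
        have h6 : |(c' j : ℝ) - c j| ≤ |lam * (r ⟨j, hjR⟩ : ℝ) - c j| +
            |lam * (r ⟨j, hjR⟩ : ℝ) - c' j| := by
          have e : (c' j : ℝ) - c j = (lam * (r ⟨j, hjR⟩ : ℝ) - c j) -
            (lam * (r ⟨j, hjR⟩ : ℝ) - c' j) := by ring
          rw [e]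
          exact abs_sub _ _
        linarith
      unfold sE
      rw [hsingle]
      unfold TT
      rw [add_sub_cancel]
      exact FF_ne (norm_iota (zc_mem hg' hm hc)) _
  · -- one particle
    intro h hh hQ r μ c hμ hc
    rw [sS_push hQ]
    have hn : 0 < ‖octa h‖ := norm_pos_iff.2 (octa_ne hh)
    have h1 : c • octa h = (c * ‖octa h‖) • iota h := by
      unfold iota
      rw [smul_smul, mul_assoc, mul_inv_cancel₀ hn.ne', mul_one]
    rw [h1]
    exact FF_anti (norm_iota hh) hlam _ hμ (by positivity)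
  · -- boundary
    rintro g hg r ⟨i, hi⟩
    obtain ⟨m, hmQ, hm0, hm⟩ := supp_top hg
    rw [sS_eq hg hmQ hm r]
    unfold sE
    rw [Finset.sum_eq_zero, add_zero]
    intro c hc
    apply TT_of_norm
    have h0 : 0 ≤ pc Q R c g i := by
      refine Finset.sum_nonneg fun e _ => ?_
      split_ifs
      · exact mul_nonneg (hg.1 e) (Nat.cast_nonneg _)
      · exact le_rfl
    have h1 : pc Q R c g i ≤ A := by
      have h2 : pc Q R c g i ≤ ∑ e ∈ Q, g e * A := by
        refine Finset.sum_le_sum fun e _ => ?_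
        have h3 : (c i : ℝ) ≤ A := by exact_mod_cast hA m hmQ c hc i
        split_ifs
        · exact mul_le_mul_of_nonneg_left h3 (hg.1 e)
        · exact mul_nonneg (hg.1 e) (Nat.cast_nonneg _)
      rwa [← Finset.sum_mul, hg.2.2.1, one_mul] at h2
    have h4 := norm_le_pi_norm (fun j => lam * (r j : ℝ) - pc Q R c g j) i
    refine le_trans ?_ h4
    have hA0 : (0 : ℝ) ≤ A := Nat.cast_nonneg _
    rw [Real.norm_eq_abs]
    rcases eq_or_eq_neg_of_abs_eq hi with h5 | h5
    · rw [h5, mul_one]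
      refine le_trans ?_ (le_abs_self _)
      show 1 / 2 ≤ 2 * ((A : ℝ) + 1) - pc Q R c g i
      linarith
    · rw [h5]
      refine le_trans ?_ (neg_le_abs _)
      show 1 / 2 ≤ -(2 * ((A : ℝ) + 1) * -1 - pc Q R c g i)
      linarith

end Pool.Agent.SH
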