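import Pool.Agent.SH.StmtsI

/-!
# SKE: compression by downward induction over the skeleta of the cube
-/

set_option autoImplicit false

open Set Topology

namespace Pool.Agent.SH

namespace SKE

variable {ι : Type}

theorem count1 {R : ℕ} (S : Finset ι) (A : Set (ι ⊕ Fin R)) (hA : ∀ j, Sum.inl j ∈ A → j ∈ S) :
    A.ncard ≤ S.card + R := by
  classical
  have hsub : A ⊆ ((S.disjSum (Finset.univ : Finset (Fin R)) : Finset (ι ⊕ Fin R)) :
      Set (ι ⊕ Fin R)) := by
    intro b hb
    rcases b with j | l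
    · exact Finset.mem_coe.2 (Finset.inl_mem_disjSum.2 (hA j hb))
    · exact Finset.mem_coe.2 (Finset.inr_mem_disjSum.2 (Finset.mem_univ _))
  have h1 := Set.ncard_le_ncard hsub (Finset.finite_toSet _)
  rw [Set.ncard_coe_finset, Finset.card_disjSum, Finset.card_univ, Fintype.card_fin] at h1
  exact h1

theorem count2 {R : ℕ} (S : Finset ι) (A : Set (ι ⊕ Fin R)) (hA : ∀ j, Sum.inl j ∈ A → j ∈ S)
    (b : ι ⊕ Fin R) (hb : ∀ j, b = Sum.inl j → j ∈ S) (hbA : b ∉ A) :
    A.ncard + 1 ≤ S.card + R := by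
  classical
  have hbS : b ∈ (S.disjSum (Finset.univ : Finset (Fin R)) : Finset (ι ⊕ Fin R)) := by
    rcases b with j | l
    · exact Finset.inl_mem_disjSum.2 (hb j rfl)
    · exact Finset.inr_mem_disjSum.2 (Finset.mem_univ _)
  have hsub : A ⊆ (((S.disjSum (Finset.univ : Finset (Fin R))).erase b : Finset (ι ⊕ Fin R)) :
      Set (ι ⊕ Fin R)) := by
    intro b' hb'
    refine Finset.mem_coe.2 (Finset.mem_erase.2 ⟨?_, ?_⟩)
    · rintro rfl
      exact hbA hb'
    · rcases b' with j | l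
      · exact Finset.inl_mem_disjSum.2 (hA j hb')
      · exact Finset.inr_mem_disjSum.2 (Finset.mem_univ _)
  have h1 := Set.ncard_le_ncard hsub (Finset.finite_toSet _)
  rw [Set.ncard_coe_finset, Finset.card_erase_of_mem hbS, Finset.card_disjSum, Finset.card_univ,
    Fintype.card_fin] at h1
  have h2 : 0 < (S.disjSum (Finset.univ : Finset (Fin R))).card := Finset.card_pos.2 ⟨b, hbS⟩
  rw [Finset.card_disjSum, Finset.card_univ, Fintype.card_fin] at h2
  omega

variable [Fintype ι]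

omit [Fintype ι] in
/-- If `‖w‖ = 1` some coordinate has absolute value `1`. -/
theorem exists_one {N R : ℕ} {w : (Fin N → ℝ) × (Fin R → ℝ)} (hw : ‖w‖ = 1) :
    (∃ a, ¬ |w.1 a| < 1) ∨ ∃ l, ¬ |w.2 l| < 1 := by
  by_contra hcon
  push Not at hcon
  have h1 : ‖w.1‖ < 1 := (pi_norm_lt_iff one_pos).2 fun a => hcon.1 a
  have h2 : ‖w.2‖ < 1 := (pi_norm_lt_iff one_pos).2 fun a => hcon.2 a
  rw [Prod.norm_def] at hw
  exact absurd hw (max_lt h1 h2).ne

theorem le_one {N R : ℕ} {w : (Fin N → ℝ) × (Fin R → ℝ)} (hw : ‖w‖ = 1) :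
    (∀ a, |w.1 a| ≤ 1) ∧ ∀ l, |w.2 l| ≤ 1 := by
  rw [Prod.norm_def] at hw
  constructor
  · intro a
    have h1 := norm_le_pi_norm w.1 a
    rw [Real.norm_eq_abs] at h1
    exact h1.trans ((le_max_left _ _).trans hw.le)
  · intro a
    have h1 := norm_le_pi_norm w.2 a
    rw [Real.norm_eq_abs] at h1
    exact h1.trans ((le_max_right _ _).trans hw.le)

/-- The coordinates `j` with `|p j| < 1`. -/
noncomputable def fr (p : ι → ℝ) : Finset ι := by
  classical
  exact Finset.univ.filter fun j => |p j| < 1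

omit [Fintype ι] in
theorem mem_fr [Fintype ι] {p : ι → ℝ} {j : ι} : j ∈ fr p ↔ |p j| < 1 := by
  classical
  unfold fr
  simp

/-- The equivalence of index sets. -/
def EE (k R m : ℕ) : Fin (k + R) ⊕ Fin m ≃ (Fin k ⊕ Fin m) ⊕ Fin R :=
  ((Equiv.sumCongr finSumFinEquiv.symm (Equiv.refl (Fin m))).trans
    (Equiv.sumAssoc (Fin k) (Fin R) (Fin m))).trans
    ((Equiv.sumCongr (Equiv.refl (Fin k)) (Equiv.sumComm (Fin R) (Fin m))).trans
      (Equiv.sumAssoc (Fin k) (Fin m) (Fin R)).symm)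

theorem EE_castAdd (k R m : ℕ) (j : Fin k) :
    EE k R m (Sum.inl (Fin.castAdd R j)) = Sum.inl (Sum.inl j) := by
  simp [EE]

theorem EE_natAdd (k R m : ℕ) (l : Fin R) :
    EE k R m (Sum.inl (Fin.natAdd k l)) = Sum.inr l := by
  simp [EE]

theorem EE_inr (k R m : ℕ) (v : Fin m) :
    EE k R m (Sum.inr v) = Sum.inl (Sum.inr v) := by
  simp [EE]

/-- One step on the level of a space `Z` with a map to a cube. -/
theorem step {Z : Type} [TopologicalSpace Z] (Φ : Z → ι → ℝ) (hΦ : Continuous Φ)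
    (hΦ1 : ∀ z j, |Φ z j| ≤ 1) (N R : ℕ) (hN : ∀ z, (fr (Φ z)).card ≤ N)
    (hw : ∀ (T : Finset ι) (hT : T.card = N),
      ∃ w : Z × (Fin R → Iv) → (Fin N → ℝ) × (Fin R → ℝ),
        ContinuousOn w ({z | ∀ j, j ∉ T → |Φ z j| = 1} ×ˢ univ) ∧
        (∀ z ∈ {z | ∀ j, j ∉ T → |Φ z j| = 1} ×ˢ (univ : Set (Fin R → Iv)), ‖w z‖ = 1) ∧
        ∀ z, (∀ j, j ∉ T → |Φ z j| = 1) → ∀ r : Fin R → Iv,
          ‖((fun a => Φ z ((T.equivFinOfCardEq hT).symm a : ι), fun i => (r i : ℝ)) :
            (Fin N → ℝ) × (Fin R → ℝ))‖ = 1 →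
          w (z, r) = (fun a => Φ z ((T.equivFinOfCardEq hT).symm a : ι), fun i => (r i : ℝ))) :
    ∃ G : Z × (Fin R → Iv) → (ι → ℝ) × (Fin R → ℝ), Continuous G ∧
      (∀ z j, |(G z).1 j| ≤ 1) ∧ (∀ z l, |(G z).2 l| ≤ 1) ∧
      (∀ z r j, |Φ z j| = 1 → (G (z, r)).1 j = Φ z j) ∧
      (∀ z (r : Fin R → Iv) l, |(r l : ℝ)| = 1 → (G (z, r)).2 l = r l) ∧
      ∀ z, {b : ι ⊕ Fin R | |Sum.elim (G z).1 (G z).2 b| < 1}.ncard + 1 ≤ N + R ∨
        ({b : ι ⊕ Fin R | |Sum.elim (G z).1 (G z).2 b| < 1}.ncard ≤ (fr (Φ z.1)).card + R ∧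
          (fr (Φ z.1)).card < N) := by
  classical
  choose w hwc hw1 hw2 using hw
  -- the values on the pieces
  let val : ∀ (T : Finset ι) (_ : T.card = N), Z × (Fin R → Iv) → (ι → ℝ) × (Fin R → ℝ) :=
    fun T hT z => (fun j => if h : j ∈ T then (w T hT z).1 (T.equivFinOfCardEq hT ⟨j, h⟩)
      else Φ z.1 j, (w T hT z).2)
  let val0 : Z × (Fin R → Iv) → (ι → ℝ) × (Fin R → ℝ) := fun z => (Φ z.1, fun i => (z.2 i : ℝ))
  let G : Z × (Fin R → Iv) → (ι → ℝ) × (Fin R → ℝ) := fun z =>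
    if h : (fr (Φ z.1)).card = N then val (fr (Φ z.1)) h z else val0 z
  have hG1 : ∀ z (h : (fr (Φ z.1)).card = N), G z = val (fr (Φ z.1)) h z := fun z h => dif_pos h
  have hG0 : ∀ z, (fr (Φ z.1)).card ≠ N → G z = val0 z := fun z h => dif_neg h
  -- points of `Y_T`
  have hsub : ∀ (T : Finset ι) (z : Z), (∀ j, j ∉ T → |Φ z j| = 1) → fr (Φ z) ⊆ T := by
    intro T z hz j hj
    by_contra hjT
    exact absurd (hz j hjT) (mem_fr.1 hj).ne
  have hself : ∀ z j, j ∉ fr (Φ z) → |Φ z j| = 1 := by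
    intro z j hj
    rw [mem_fr] at hj
    exact le_antisymm (hΦ1 z j) (not_lt.1 hj)
  -- the two definitions agree if a coordinate has absolute value one
  have hnormv : ∀ (T : Finset ι) (hT : T.card = N) (z : Z),
      ‖(fun a => Φ z ((T.equivFinOfCardEq hT).symm a : ι) : Fin N → ℝ)‖ ≤ 1 := by
    intro T hT z
    refine (pi_norm_le_iff_of_nonneg zero_le_one).2 fun a => ?_
    exact hΦ1 z _
  have hnormr : ∀ r : Fin R → Iv, ‖(fun i => (r i : ℝ) : Fin R → ℝ)‖ ≤ 1 := by
    intro r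
    refine (pi_norm_le_iff_of_nonneg zero_le_one).2 fun i => ?_
    exact abs_le.2 (r i).2
  have hagree : ∀ (T : Finset ι) (hT : T.card = N) (z : Z) (r : Fin R → Iv),
      (∀ j, j ∉ T → |Φ z j| = 1) → (fr (Φ z)).card ≠ N → val T hT (z, r) = val0 (z, r) := by
    intro T hT z r hz hc
    have hss : fr (Φ z) ⊂ T := by
      refine (Finset.ssubset_iff_subset_ne).2 ⟨hsub T z hz, ?_⟩
      intro h
      exact hc (by rw [h, hT])
    obtain ⟨j, hjT, hj⟩ := Finset.exists_of_ssubset hss
    have hj1 := hself z j hj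
    have hone : ‖((fun a => Φ z ((T.equivFinOfCardEq hT).symm a : ι), fun i => (r i : ℝ)) :
        (Fin N → ℝ) × (Fin R → ℝ))‖ = 1 := by
      rw [Prod.norm_def]
      refine le_antisymm (max_le (hnormv T hT z) (hnormr r)) (le_max_of_le_left ?_)
      have h1 := norm_le_pi_norm (fun a => Φ z ((T.equivFinOfCardEq hT).symm a : ι) : Fin N → ℝ)
        (T.equivFinOfCardEq hT ⟨j, hjT⟩)
      rw [Equiv.symm_apply_apply, Real.norm_eq_abs] at h1
      exact hj1.ge.trans h1
    have hval := hw2 T hT z hz r hone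
    refine Prod.ext ?_ ?_
    · funext i
      show (if h : i ∈ T then (w T hT (z, r)).1 (T.equivFinOfCardEq hT ⟨i, h⟩)
        else Φ z i) = Φ z i
      by_cases h : i ∈ T
      · rw [dif_pos h, hval]
        show Φ z ((T.equivFinOfCardEq hT).symm (T.equivFinOfCardEq hT ⟨i, h⟩) : ι) = Φ z i
        rw [Equiv.symm_apply_apply]
      · rw [dif_neg h]
    · show (w T hT (z, r)).2 = fun i => (r i : ℝ)
      rw [hval]
  have hGT : ∀ (T : Finset ι) (hT : T.card = N) (z : Z) (r : Fin R → Iv),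
      (∀ j, j ∉ T → |Φ z j| = 1) → G (z, r) = val T hT (z, r) := by
    intro T hT z r hz
    by_cases hc : (fr (Φ z)).card = N
    · have hTf : fr (Φ z) = T := Finset.eq_of_subset_of_card_le (hsub T z hz) (by rw [hc, hT])
      rw [hG1 (z, r) hc]
      subst hTf
      rfl
    · rw [hG0 (z, r) hc, hagree T hT z r hz hc]
  -- continuity
  have hcY : ∀ T : Finset ι, IsClosed {z : Z | ∀ j, j ∉ T → |Φ z j| = 1} := by
    intro T
    have : {z : Z | ∀ j, j ∉ T → |Φ z j| = 1} = ⋂ j, ⋂ (_ : j ∉ T), {z : Z | |Φ z j| = 1} := by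
      ext z
      simp
    rw [this]
    exact isClosed_iInter fun j => isClosed_iInter fun _ =>
      isClosed_eq (continuous_abs.comp ((continuous_apply j).comp hΦ)) continuous_const
  have hcL : IsClosed {z : Z | (fr (Φ z)).card < N} := by
    rw [← isOpen_compl_iff]
    have : {z : Z | (fr (Φ z)).card < N}ᶜ =
        ⋃ T : {T : Finset ι // T.card = N}, ⋂ j ∈ T.1, {z : Z | |Φ z j| < 1} := by
      ext z
      simp only [mem_compl_iff, Set.mem_ofPred_eq, not_lt, mem_iUnion, mem_iInter, Subtype.exists,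
        exists_prop]
      constructor
      · intro h
        obtain ⟨T, hT, hTc⟩ := Finset.exists_subset_card_eq h
        exact ⟨T, hTc, fun j hj => mem_fr.1 (hT hj)⟩
      · rintro ⟨T, hT, hz⟩
        rw [← hT]
        exact Finset.card_le_card fun j hj => mem_fr.2 (hz j hj)
    rw [this]
    refine isOpen_iUnion fun T => isOpen_biInter_finset fun j _ => ?_
    exact isOpen_lt (continuous_abs.comp ((continuous_apply j).comp hΦ)) continuous_const
  have hGc : Continuous G := by
    let C : Option {T : Finset ι // T.card = N} → Set (Z × (Fin R → Iv)) := fun o =>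
      match o with
      | none => {z : Z | (fr (Φ z)).card < N} ×ˢ univ
      | some T => {z : Z | ∀ j, j ∉ T.1 → |Φ z j| = 1} ×ˢ univ
    refine LocallyFinite.continuous (f := C) (locallyFinite_of_finite C) ?_ ?_ ?_
    · refine eq_univ_of_forall fun z => mem_iUnion.2 ?_
      by_cases hc : (fr (Φ z.1)).card = N
      · exact ⟨some ⟨_, hc⟩, fun j hj => hself z.1 j hj, trivial⟩
      · exact ⟨none, lt_of_le_of_ne (hN z.1) hc, trivial⟩
    · intro o
      rcases o with _ | T
      · exact hcL.prod isClosed_univ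
      · exact (hcY T.1).prod isClosed_univ
    · intro o
      rcases o with _ | T
      · have h0 : ContinuousOn val0 (C none) := by
          refine Continuous.continuousOn ?_
          exact (hΦ.comp continuous_fst).prodMk (continuous_pi fun i =>
            continuous_subtype_val.comp ((continuous_apply i).comp continuous_snd))
        refine h0.congr fun z hz => hG0 z ?_
        exact (show (fr (Φ z.1)).card < N from hz.1).ne
      · have h0 : ContinuousOn (val T.1 T.2) (C (some T)) := by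
          refine ContinuousOn.prodMk ?_ ?_
          · refine continuousOn_pi.2 fun j => ?_
            by_cases h : j ∈ T.1
            · have h1 : ContinuousOn (fun z => (w T.1 T.2 z).1
                  (T.1.equivFinOfCardEq T.2 ⟨j, h⟩)) (C (some T)) :=
                (continuous_apply _).comp_continuousOn
                  (continuous_fst.comp_continuousOn (hwc T.1 T.2))
              exact h1.congr fun z _ => dif_pos h
            · have h1 : Continuous (fun z : Z × (Fin R → Iv) => Φ z.1 j) :=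
                (continuous_apply j).comp (hΦ.comp continuous_fst)
              exact h1.continuousOn.congr fun z _ => dif_neg h
          · exact continuous_snd.comp_continuousOn (hwc T.1 T.2)
        exact h0.congr fun z hz => hGT T.1 T.2 z.1 z.2 hz.1
  refine ⟨G, hGc, ?_, ?_, ?_, ?_, ?_⟩
  · rintro ⟨z, r⟩ j
    by_cases hc : (fr (Φ z)).card = N
    · rw [hG1 (z, r) hc]
      show |if h : j ∈ fr (Φ z) then (w (fr (Φ z)) hc (z, r)).1
        ((fr (Φ z)).equivFinOfCardEq hc ⟨j, h⟩) else Φ z j| ≤ 1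
      by_cases h : j ∈ fr (Φ z)
      · rw [dif_pos h]
        exact (le_one (hw1 _ hc (z, r) ⟨hself z, trivial⟩)).1 _
      · rw [dif_neg h]
        exact hΦ1 z j
    · rw [hG0 (z, r) hc]
      exact hΦ1 z j
  · rintro ⟨z, r⟩ l
    by_cases hc : (fr (Φ z)).card = N
    · rw [hG1 (z, r) hc]
      exact (le_one (hw1 _ hc (z, r) ⟨hself z, trivial⟩)).2 _
    · rw [hG0 (z, r) hc]
      exact abs_le.2 (r l).2
  · intro z r j hj
    by_cases hc : (fr (Φ z)).card = N
    · rw [hG1 (z, r) hc]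
      have h : j ∉ fr (Φ z) := fun h => absurd hj (mem_fr.1 h).ne
      exact dif_neg h
    · rw [hG0 (z, r) hc]
  · intro z r l hl
    by_cases hc : (fr (Φ z)).card = N
    · rw [hG1 (z, r) hc]
      have hone : ‖((fun a => Φ z (((fr (Φ z)).equivFinOfCardEq hc).symm a : ι),
          fun i => (r i : ℝ)) : (Fin N → ℝ) × (Fin R → ℝ))‖ = 1 := by
        rw [Prod.norm_def]
        refine le_antisymm (max_le (hnormv _ hc z) (hnormr r)) (le_max_of_le_right ?_)
        have h1 := norm_le_pi_norm (fun i => (r i : ℝ) : Fin R → ℝ) l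
        rw [Real.norm_eq_abs] at h1
        exact hl.ge.trans h1
      show (w (fr (Φ z)) hc (z, r)).2 l = r l
      rw [hw2 _ hc z (hself z) r hone]
    · rw [hG0 (z, r) hc]
  · rintro ⟨z, r⟩
    by_cases hc : (fr (Φ z)).card = N
    · left
      have hA : ∀ j, Sum.inl j ∈ {b : ι ⊕ Fin R | |Sum.elim (G (z, r)).1 (G (z, r)).2 b| < 1} →
          j ∈ fr (Φ z) := by
        intro j hj
        have hj' : |(G (z, r)).1 j| < 1 := hj
        by_contra h
        rw [hG1 (z, r) hc] at hj'
        have h2 : (val (fr (Φ z)) hc (z, r)).1 j = Φ z j := dif_neg h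
        rw [h2] at hj'
        exact h (mem_fr.2 hj')
      rcases exists_one (hw1 _ hc (z, r) ⟨hself z, trivial⟩) with ⟨a, ha⟩ | ⟨l, hl⟩
      · have hmem := (((fr (Φ z)).equivFinOfCardEq hc).symm a).2
        have := count2 (fr (Φ z)) _ hA
          (Sum.inl (((fr (Φ z)).equivFinOfCardEq hc).symm a : ι)) (by
            intro j hj
            have := Sum.inl.inj hj
            rw [← this]
            exact hmem) (by
            intro hb
            have hb' : |(G (z, r)).1 (((fr (Φ z)).equivFinOfCardEq hc).symm a : ι)| < 1 := hb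
            rw [hG1 (z, r) hc] at hb'
            have h2 : (val (fr (Φ z)) hc (z, r)).1 (((fr (Φ z)).equivFinOfCardEq hc).symm a : ι) =
                (w (fr (Φ z)) hc (z, r)).1 ((fr (Φ z)).equivFinOfCardEq hc
                  ⟨(((fr (Φ z)).equivFinOfCardEq hc).symm a : ι), hmem⟩) := dif_pos hmem
            rw [h2] at hb'
            have h3 : (fr (Φ z)).equivFinOfCardEq hc
                ⟨(((fr (Φ z)).equivFinOfCardEq hc).symm a : ι), hmem⟩ = a :=
              Equiv.apply_symm_apply _ a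
            rw [h3] at hb'
            exact ha hb')
        rwa [hc] at this
      · have := count2 (fr (Φ z)) _ hA (Sum.inr l) (by intro j hj; cases hj) (by
            intro hb
            have hb' : |(G (z, r)).2 l| < 1 := hb
            rw [hG1 (z, r) hc] at hb'
            exact hl hb')
        rwa [hc] at this
    · right
      refine ⟨count1 _ _ ?_, lt_of_le_of_ne (hN z) hc⟩
      intro j hj
      have hj' : |(G (z, r)).1 j| < 1 := hj
      rw [hG0 (z, r) hc] at hj'
      exact mem_fr.2 hj'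

/-- The claim of the induction. -/
def Cl (X : Type) [TopologicalSpace X] (c m : ℕ) (φ : X → Fin m → ℝ) (i : ℕ) : Prop :=
  ∃ k₀ : ℕ, ∀ k, k₀ ≤ k →
    ∃ Φ : (Fin k → Iv) × X → (Fin k ⊕ Fin m) → ℝ, Continuous Φ ∧ (∀ z j, |Φ z j| ≤ 1) ∧
      (∀ (q : Fin k → Iv) (x : X) (j : Fin k), |(q j : ℝ)| = 1 → Φ (q, x) (Sum.inl j) = q j) ∧
      (∀ (q : Fin k → Iv) (x : X) (v : Fin m), |φ x v| = 1 → Φ (q, x) (Sum.inr v) = φ x v) ∧
      ∀ z, {j | |Φ z j| < 1}.ncard ≤ k + c + i

theorem ncard_fr (p : ι → ℝ) : {j | |p j| < 1}.ncard = (fr p).card := by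
  classical
  rw [← Set.ncard_coe_finset]
  congr 1
  ext j
  exact mem_fr.symm

theorem Cl_step (X : Type) [TopologicalSpace X] (c m : ℕ) (φ : X → Fin m → ℝ) (i : ℕ)
    (hX : StInes X c) (h : Cl X c m φ (i + 1)) : Cl X c m φ i := by
  classical
  obtain ⟨k, hk⟩ := h
  obtain ⟨Φ, hΦ, hΦ1, hq, hφ, hc⟩ := hk k le_rfl
  obtain ⟨N, hNdef⟩ : ∃ N, N = k + c + i + 1 := ⟨_, rfl⟩
  have hN : ∀ z, (fr (Φ z)).card ≤ N := by
    intro z
    have := hc z
    rw [ncard_fr] at this
    omega
  have hcY : ∀ T : Finset (Fin k ⊕ Fin m),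
      IsClosed {z : (Fin k → Iv) × X | ∀ j, j ∉ T → |Φ z j| = 1} := by
    intro T
    have : {z : (Fin k → Iv) × X | ∀ j, j ∉ T → |Φ z j| = 1} =
        ⋂ j, ⋂ (_ : j ∉ T), {z : (Fin k → Iv) × X | |Φ z j| = 1} := by
      ext z
      simp
    rw [this]
    exact isClosed_iInter fun j => isClosed_iInter fun _ =>
      isClosed_eq (continuous_abs.comp ((continuous_apply j).comp hΦ)) continuous_const
  have hT : ∀ T : {T : Finset (Fin k ⊕ Fin m) // T.card = N}, ∃ R₀ : ℕ, ∀ R, R₀ ≤ R →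
      ∃ w : ((Fin k → Iv) × X) × (Fin R → Iv) → (Fin N → ℝ) × (Fin R → ℝ),
        ContinuousOn w ({z | ∀ j, j ∉ T.1 → |Φ z j| = 1} ×ˢ univ) ∧
        (∀ z ∈ {z | ∀ j, j ∉ T.1 → |Φ z j| = 1} ×ˢ (univ : Set (Fin R → Iv)), ‖w z‖ = 1) ∧
        ∀ z, (∀ j, j ∉ T.1 → |Φ z j| = 1) → ∀ r : Fin R → Iv,
          ‖((fun a => Φ z ((T.1.equivFinOfCardEq T.2).symm a : Fin k ⊕ Fin m),
            fun i => (r i : ℝ)) : (Fin N → ℝ) × (Fin R → ℝ))‖ = 1 →
          w (z, r) = (fun a => Φ z ((T.1.equivFinOfCardEq T.2).symm a : Fin k ⊕ Fin m),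
            fun i => (r i : ℝ)) := by
    intro T
    exact hX k N {z | ∀ j, j ∉ T.1 → |Φ z j| = 1}
      (fun z a => Φ z ((T.1.equivFinOfCardEq T.2).symm a : Fin k ⊕ Fin m)) (by omega) (hcY T.1)
      (Continuous.continuousOn (continuous_pi fun a => (continuous_apply _).comp hΦ))
      (fun z _ => (pi_norm_le_iff_of_nonneg zero_le_one).2 fun a => hΦ1 z _)
  choose R₀ hR₀ using hT
  refine ⟨k + Finset.univ.sup R₀, ?_⟩
  intro k' hk'
  obtain ⟨R, rfl⟩ := Nat.exists_eq_add_of_le (show k ≤ k' by omega)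
  have hR : ∀ T, R₀ T ≤ R := fun T => by
    have : R₀ T ≤ Finset.univ.sup R₀ := Finset.le_sup (Finset.mem_univ T)
    omega
  obtain ⟨G, hGc, hG1, hG2, hG3, hG4, hG5⟩ := step Φ hΦ hΦ1 N R hN
    (fun T hT => hR₀ ⟨T, hT⟩ R (hR ⟨T, hT⟩))
  let pr : (Fin (k + R) → Iv) × X → ((Fin k → Iv) × X) × (Fin R → Iv) := fun z =>
    ((fun j => z.1 (Fin.castAdd R j), z.2), fun l => z.1 (Fin.natAdd k l))
  have hpr : Continuous pr :=
    ((continuous_pi fun j => (continuous_apply _).comp continuous_fst).prodMk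
      continuous_snd).prodMk (continuous_pi fun l => (continuous_apply _).comp continuous_fst)
  refine ⟨fun z b => Sum.elim (G (pr z)).1 (G (pr z)).2 (EE k R m b), ?_, ?_, ?_, ?_, ?_⟩
  · refine continuous_pi fun b => ?_
    rcases hb : EE k R m b with j | l
    · simp only [Sum.elim_inl]
      exact (continuous_apply j).comp (continuous_fst.comp (hGc.comp hpr))
    · simp only [Sum.elim_inr]
      exact (continuous_apply l).comp (continuous_snd.comp (hGc.comp hpr))
  · intro z b
    show |Sum.elim (G (pr z)).1 (G (pr z)).2 (EE k R m b)| ≤ 1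
    rcases EE k R m b with j | l
    · exact hG1 (pr z) j
    · exact hG2 (pr z) l
  · intro q x j hj
    refine Fin.addCases (motive := fun j => |(q j : ℝ)| = 1 →
      Sum.elim (G (pr (q, x))).1 (G (pr (q, x))).2 (EE k R m (Sum.inl j)) = q j) ?_ ?_ j hj
    · intro j0 hj0
      rw [EE_castAdd]
      have h1 := hq (fun j => q (Fin.castAdd R j)) x j0 hj0
      show (G (pr (q, x))).1 (Sum.inl j0) = _
      have h2 := hG3 (pr (q, x)).1 (pr (q, x)).2 (Sum.inl j0) (by
        show |Φ (fun j => q (Fin.castAdd R j), x) (Sum.inl j0)| = 1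
        rw [h1]; exact hj0)
      rw [show pr (q, x) = ((pr (q, x)).1, (pr (q, x)).2) from rfl, h2]
      exact h1
    · intro l hl
      rw [EE_natAdd]
      exact hG4 (pr (q, x)).1 (pr (q, x)).2 l hl
  · intro q x v hv
    show Sum.elim (G (pr (q, x))).1 (G (pr (q, x))).2 (EE k R m (Sum.inr v)) = _
    rw [EE_inr]
    have h1 := hφ (fun j => q (Fin.castAdd R j)) x v hv
    have h2 := hG3 (pr (q, x)).1 (pr (q, x)).2 (Sum.inr v) (by
      show |Φ (fun j => q (Fin.castAdd R j), x) (Sum.inr v)| = 1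
      rw [h1]; exact hv)
    show (G (pr (q, x))).1 (Sum.inr v) = _
    rw [show pr (q, x) = ((pr (q, x)).1, (pr (q, x)).2) from rfl, h2]
    exact h1
  · intro z
    have himg : {b | |Sum.elim (G (pr z)).1 (G (pr z)).2 (EE k R m b)| < 1} =
        (EE k R m).symm '' {b | |Sum.elim (G (pr z)).1 (G (pr z)).2 b| < 1} := by
      ext b
      constructor
      · intro hb
        exact ⟨EE k R m b, hb, Equiv.symm_apply_apply _ b⟩
      · rintro ⟨b', hb', rfl⟩
        show |Sum.elim (G (pr z)).1 (G (pr z)).2 (EE k R m ((EE k R m).symm b'))| < 1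
        rw [Equiv.apply_symm_apply]
        exact hb'
    rw [himg, Set.ncard_image_of_injective _ (EE k R m).symm.injective]
    rcases hG5 (pr z) with h | ⟨h, h'⟩ <;> omega

theorem Cl_top (X : Type) [TopologicalSpace X] (c m : ℕ) (φ : X → Fin m → ℝ) (hφ : Continuous φ)
    (hφ1 : ∀ x v, |φ x v| ≤ 1) : Cl X c m φ m := by
  refine ⟨0, fun k _ => ⟨fun z => Sum.elim (fun j => (z.1 j : ℝ)) (φ z.2), ?_, ?_, ?_, ?_, ?_⟩⟩
  · refine continuous_pi fun b => ?_
    rcases b with j | v
    · exact continuous_subtype_val.comp ((continuous_apply j).comp continuous_fst)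
    · exact (continuous_apply v).comp (hφ.comp continuous_snd)
  · intro z b
    rcases b with j | v
    · exact abs_le.2 (z.1 j).2
    · exact hφ1 z.2 v
  · intro q x j _
    rfl
  · intro q x v _
    rfl
  · intro z
    have h1 : {j | |Sum.elim (fun j => (z.1 j : ℝ)) (φ z.2) j| < 1}.ncard ≤
        (univ : Set (Fin k ⊕ Fin m)).ncard := Set.ncard_le_ncard (subset_univ _) finite_univ
    rw [Set.ncard_univ, Nat.card_eq_fintype_card, Fintype.card_sum, Fintype.card_fin,
      Fintype.card_fin] at h1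
    show {j | |Sum.elim (fun j => (z.1 j : ℝ)) (φ z.2) j| < 1}.ncard ≤ k + c + m
    omega

end SKE

open SKE in
theorem SKE : Stmt_SKE := by
  intro X _ _ _ c hX m φ hφ hφ1
  have key : ∀ d i, i + d = m → Cl X c m φ i := by
    intro d
    induction d with
    | zero =>
      intro i hi
      have : i = m := by omega
      rw [this]
      exact Cl_top X c m φ hφ hφ1
    | succ d ih =>
      intro i hi
      exact Cl_step X c m φ i hX (ih (i + 1) (by omega))
  exact key m 0 (by omega)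

end Pool.Agent.SH
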