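import Pool.Agent.SH.StmtsI

/-!
# Stable inessentiality from the extension property
-/

set_option autoImplicit false

open Set Topology

namespace Pool.Agent.SH

namespace STIaux

/-! ### Realizations -/

theorem rz_closed {P : Type} [PartialOrder P] (Q : Finset P) : IsClosed (Rz Q) := by
  have e : Rz Q = (⋂ a : P, {p : P → ℝ | 0 ≤ p a}) ∩ (⋂ a : P, ⋂ (_ : a ∉ Q), {p : P → ℝ | p a = 0}) ∩
      {p : P → ℝ | ∑ a ∈ Q, p a = 1} ∩
      (⋂ a : P, ⋂ b : P, ⋂ (_ : ¬ (a ≤ b ∨ b ≤ a)), {p : P → ℝ | p a * p b = 0}) := by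
    ext p
    simp only [Rz, mem_ofPred_eq, mem_inter_iff, mem_iInter, mul_eq_zero]
    constructor
    · rintro ⟨h1, h2, h3, h4⟩
      refine ⟨⟨⟨h1, h2⟩, h3⟩, fun a b hab => ?_⟩
      by_contra hne
      push Not at hne
      exact hab (h4 a b hne.1 hne.2)
    · rintro ⟨⟨⟨h1, h2⟩, h3⟩, h4⟩
      refine ⟨h1, h2, h3, fun a b ha hb => ?_⟩
      by_contra hne
      rcases h4 a b hne with h | h
      · exact ha h
      · exact hb h
  rw [e]
  refine IsClosed.inter (IsClosed.inter (IsClosed.inter ?_ ?_) ?_) ?_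
  · exact isClosed_iInter fun a => isClosed_le continuous_const (continuous_apply a)
  · exact isClosed_iInter fun a => isClosed_iInter fun _ =>
      isClosed_eq (continuous_apply a) continuous_const
  · exact isClosed_eq (continuous_finsetSum _ fun a _ => continuous_apply a) continuous_const
  · exact isClosed_iInter fun a => isClosed_iInter fun b => isClosed_iInter fun _ =>
      isClosed_eq ((continuous_apply a).mul (continuous_apply b)) continuous_const

theorem rz_le_one {P : Type} [PartialOrder P] {Q : Finset P} {p : P → ℝ} (hp : p ∈ Rz Q) (a : P) :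
    p a ≤ 1 := by
  obtain ⟨h1, h2, h3, -⟩ := hp
  by_cases ha : a ∈ Q
  · rw [← h3]
    exact Finset.single_le_sum (fun b _ => h1 b) ha
  · rw [h2 a ha]
    exact zero_le_one

theorem rz_compact {P : Type} [PartialOrder P] (Q : Finset P) : IsCompact (Rz Q) := by
  refine IsCompact.of_isClosed_subset (isCompact_univ_pi (s := fun _ : P => Icc (0 : ℝ) 1)
    fun _ => isCompact_Icc) (rz_closed Q) ?_
  intro p hp a _
  exact ⟨hp.1 a, rz_le_one hp a⟩

/-- A continuous factor times a bounded factor which is continuous off the zeros of the first. -/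
theorem cont_smul {Z E : Type} [TopologicalSpace Z] [NormedAddCommGroup E] [NormedSpace ℝ E]
    {m : Z → ℝ} {φ : Z → E} (hm : Continuous m) (hφ : ContinuousOn φ {z | m z ≠ 0}) (C : ℝ)
    (hC : ∀ z, m z ≠ 0 → ‖φ z‖ ≤ C) : Continuous fun z => m z • φ z := by
  have ho : IsOpen {z | m z ≠ 0} := isOpen_ne_fun hm continuous_const
  rw [continuous_iff_continuousAt]
  intro z
  by_cases hz : m z = 0
  · have h0 : m z • φ z = 0 := by rw [hz, zero_smul]
    rw [ContinuousAt, h0]
    have h1 : Filter.Tendsto (fun z => |m z| * |C|) (𝓝 z) (𝓝 0) := by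
      have : Continuous fun z => |m z| * |C| := (hm.abs).mul continuous_const
      have h2 := this.tendsto z
      simpa [hz] using h2
    refine squeeze_zero_norm (fun z' => ?_) h1
    by_cases hz' : m z' = 0
    · simp [hz']
    · rw [norm_smul, Real.norm_eq_abs]
      exact mul_le_mul_of_nonneg_left ((hC z' hz').trans (le_abs_self C)) (abs_nonneg _)
  · exact (hm.continuousAt).smul (hφ.continuousAt (ho.mem_nhds hz))

/-! ### Spheres -/

/-- The sign. -/
def sg (b : Bool) : ℝ := if b then 1 else -1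

theorem sum_sph {F : Sph 2 → ℝ} : ∑ s, F s = ∑ i : Fin 3, (F ⟨i, true⟩ + F ⟨i, false⟩) := by
  let e : Sph 2 ≃ Fin 3 × Bool :=
    { toFun := fun s => (s.lev, s.sgn)
      invFun := fun p => ⟨p.1, p.2⟩
      left_inv := fun s => rfl
      right_inv := fun p => rfl }
  rw [Fintype.sum_equiv e F (fun p => F ⟨p.1, p.2⟩) (fun s => rfl), Fintype.sum_prod_type]
  simp

theorem one_mono {s s' : Sph 2} (h : s ≤ s') : LL.one s ≤ LL.one s' := by
  classical
  rw [LL.le_iff]
  refine ⟨Finset.Subset.refl _, ?_, ?_⟩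
  · intro a ha
    have h0 : a = 0 := by simpa using Finsupp.support_single_subset ha
    subst h0
    have e : res (LL.one s).J (0 : ℕ →₀ ℕ) = 0 := res_eq_self (by simp)
    rw [e]
    change (Finsupp.single (0 : ℕ →₀ ℕ) s) 0 ≤ (Finsupp.single (0 : ℕ →₀ ℕ) s') 0
    simpa using h
  · intro b hb
    have hb' : b ∈ (Finsupp.single (0 : ℕ →₀ ℕ) s).support := hb
    have h0 : b = 0 := by simpa using Finsupp.support_single_subset hb'
    subst h0
    have hs : s ≠ 0 := by
      rw [Finsupp.mem_support_iff] at hb'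
      simpa using hb'
    have hs' : s' ≠ 0 := by
      rintro rfl
      exact hs (Sph.eq_zero_of_le h)
    refine ⟨0, ?_, res_eq_self (by simp)⟩
    change 0 ∈ (Finsupp.single (0 : ℕ →₀ ℕ) s').support
    rw [Finsupp.mem_support_iff]
    simpa using hs'

section

variable {M : ℕ}

/-- The `ℓ¹`-norm. -/
def n1 (t : Fin (3 + M) → ℝ) : ℝ := ∑ i, |t i|

/-- The weights of the levels. -/
noncomputable def W (t : Fin (3 + M) → ℝ) : Sph 2 ⊕ Fin M × Bool → ℝ
  | .inl s => max (sg s.sgn * t (Fin.castAdd M s.lev)) 0 / n1 t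
  | .inr p => max (sg p.2 * t (Fin.natAdd 3 p.1)) 0 / n1 t

/-- The vertices. -/
noncomputable def vtx : Sph 2 ⊕ Fin M × Bool → SusK (LL (Sph 2)) M
  | .inl s => .base (LL.one s)
  | .inr p => .pole p.1 p.2

open Classical in
/-- The point of the realization. -/
noncomputable def u (t : Fin (3 + M) → ℝ) (a : SusK (LL (Sph 2)) M) : ℝ :=
  ∑ b, if vtx b = a then W t b else 0

open Classical in
/-- The finite subposet. -/
noncomputable def Q0 (M : ℕ) : Finset (SusK (LL (Sph 2)) M) := Finset.univ.image vtx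

theorem n1_nonneg (t : Fin (3 + M) → ℝ) : 0 ≤ n1 t := Finset.sum_nonneg fun _ _ => abs_nonneg _

theorem n1_pos {t : Fin (3 + M) → ℝ} (ht : ‖t‖ = 1) : 0 < n1 t := by
  rcases (n1_nonneg t).lt_or_eq with h | h
  · exact h
  · exfalso
    have h1 : ∀ i, t i = 0 := by
      intro i
      have := (Finset.sum_eq_zero_iff_of_nonneg (fun i _ => abs_nonneg (t i))).1 h.symm i
        (Finset.mem_univ i)
      exact abs_eq_zero.1 this
    have h2 : t = 0 := funext h1
    rw [h2, norm_zero] at ht
    exact zero_ne_one ht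

theorem W_nonneg (t : Fin (3 + M) → ℝ) (b : Sph 2 ⊕ Fin M × Bool) : 0 ≤ W t b := by
  rcases b with s | p
  · exact div_nonneg (le_max_right _ _) (n1_nonneg t)
  · exact div_nonneg (le_max_right _ _) (n1_nonneg t)

theorem max_add (x : ℝ) : max (sg true * x) 0 + max (sg false * x) 0 = |x| := by
  simp only [sg]
  rcases le_total 0 x with h | h
  · simp [h, abs_of_nonneg h]
  · simp [h, abs_of_nonpos h]

theorem max_sub (x : ℝ) : max (sg true * x) 0 - max (sg false * x) 0 = x := by
  simp only [sg]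
  rcases le_total 0 x with h | h
  · simp [h]
  · simp [h]

theorem W_sum {t : Fin (3 + M) → ℝ} (ht : 0 < n1 t) : ∑ b, W t b = 1 := by
  rw [Fintype.sum_sum_type, sum_sph, Fintype.sum_prod_type]
  have h1 : ∀ i : Fin 3, W t (.inl ⟨i, true⟩) + W t (.inl ⟨i, false⟩) =
      |t (Fin.castAdd M i)| / n1 t := by
    intro i
    change max (sg true * _) 0 / n1 t + max (sg false * _) 0 / n1 t = _
    rw [← add_div, max_add]
  have h2 : ∀ i : Fin M, ∑ b : Bool, W t (.inr (i, b)) = |t (Fin.natAdd 3 i)| / n1 t := by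
    intro i
    rw [Fintype.sum_bool]
    change max (sg true * _) 0 / n1 t + max (sg false * _) 0 / n1 t = _
    rw [← add_div, max_add]
  rw [Finset.sum_congr rfl fun i _ => h1 i, Finset.sum_congr rfl fun i _ => h2 i,
    ← Finset.sum_div, ← Finset.sum_div, ← add_div]
  have h3 : n1 t = ∑ i : Fin 3, |t (Fin.castAdd M i)| + ∑ i : Fin M, |t (Fin.natAdd 3 i)| := by
    unfold n1
    rw [Fin.sum_univ_add]
  rw [← h3, div_self ht.ne']

theorem u_ne {t : Fin (3 + M) → ℝ} {a : SusK (LL (Sph 2)) M} (h : u t a ≠ 0) :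
    ∃ b, vtx b = a ∧ W t b ≠ 0 := by
  classical
  by_contra hne
  push Not at hne
  refine h (Finset.sum_eq_zero fun b _ => ?_)
  split_ifs with hb
  · exact hne b hb
  · rfl

theorem sg_eq {x : ℝ} {b b' : Bool} (h : max (sg b * x) 0 ≠ 0) (h' : max (sg b' * x) 0 ≠ 0) :
    b = b' := by
  have h1 : 0 < sg b * x := by
    by_contra hc
    exact h (max_eq_right (not_lt.1 hc))
  have h2 : 0 < sg b' * x := by
    by_contra hc
    exact h' (max_eq_right (not_lt.1 hc))
  cases b <;> cases b' <;> simp [sg] at h1 h2 ⊢ <;> linarith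

theorem W_sph {t : Fin (3 + M) → ℝ} {s s' : Sph 2} (h : W t (.inl s) ≠ 0)
    (h' : W t (.inl s') ≠ 0) : s ≤ s' ∨ s' ≤ s := by
  rcases lt_trichotomy s.lev s'.lev with hl | hl | hl
  · exact Or.inl (Or.inl hl)
  · left
    right
    have h1 : max (sg s.sgn * t (Fin.castAdd M s.lev)) 0 ≠ 0 := fun h0 => h (by simp [W, h0])
    have h2 : max (sg s'.sgn * t (Fin.castAdd M s.lev)) 0 ≠ 0 := fun h0 => h' (by
      simp [W, ← hl, h0])
    have h3 := sg_eq h1 h2
    cases s
    cases s'
    simp only at hl h3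
    rw [hl, h3]
  · exact Or.inr (Or.inl hl)

theorem u_mem {t : Fin (3 + M) → ℝ} (ht : ‖t‖ = 1) : u t ∈ Rz (Q0 M) := by
  classical
  refine ⟨fun a => Finset.sum_nonneg fun b _ => ?_, fun a ha => ?_, ?_, fun a a' ha ha' => ?_⟩
  · split_ifs
    · exact W_nonneg t b
    · exact le_refl _
  · by_contra h
    obtain ⟨b, rfl, -⟩ := u_ne h
    exact ha (Finset.mem_image_of_mem _ (Finset.mem_univ b))
  · unfold u
    rw [Finset.sum_comm, ← W_sum (n1_pos ht)]
    refine Finset.sum_congr rfl fun b _ => ?_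
    have hb : vtx b ∈ Q0 M := Finset.mem_image_of_mem _ (Finset.mem_univ b)
    rw [Finset.sum_ite_eq, if_pos hb]
  · obtain ⟨b, rfl, hb⟩ := u_ne ha
    obtain ⟨b', rfl, hb'⟩ := u_ne ha'
    rcases b with s | p
    · rcases b' with s' | p'
      · rcases W_sph hb hb' with h | h
        · exact Or.inl (show SusK.base _ ≤ SusK.base _ from (SusK.base_le_base _ _).2 (one_mono h))
        · exact Or.inr (show SusK.base _ ≤ SusK.base _ from (SusK.base_le_base _ _).2 (one_mono h))
      · exact Or.inl (show SusK.base _ ≤ SusK.pole _ _ from SusK.base_le_pole _ _ _)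
    · rcases b' with s' | p'
      · exact Or.inr (show SusK.base _ ≤ SusK.pole _ _ from SusK.base_le_pole _ _ _)
      · rcases lt_trichotomy p.1 p'.1 with hl | hl | hl
        · exact Or.inl ((SusK.pole_le_pole _ _ _ _).2 (Or.inl hl))
        · left
          have h1 : max (sg p.2 * t (Fin.natAdd 3 p.1)) 0 ≠ 0 := fun h0 => hb (by simp [W, h0])
          have h2 : max (sg p'.2 * t (Fin.natAdd 3 p.1)) 0 ≠ 0 := fun h0 => hb' (by
            simp [W, hl ▸ h0])
          exact (SusK.pole_le_pole _ _ _ _).2 (Or.inr ⟨hl, sg_eq h1 h2⟩)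
        · exact Or.inr ((SusK.pole_le_pole _ _ _ _).2 (Or.inl hl))

theorem u_pole (t : Fin (3 + M) → ℝ) (i : Fin M) (b : Bool) :
    u t (.pole i b) = W t (.inr (i, b)) := by
  classical
  unfold u
  rw [Finset.sum_eq_single (Sum.inr (i, b))]
  · exact if_pos rfl
  · intro b' _ hne
    rw [if_neg]
    intro h
    rcases b' with s | ⟨i', c⟩
    · change SusK.base _ = SusK.pole _ _ at h
      cases h
    · apply hne
      change SusK.pole i' c = SusK.pole i b at h
      injection h with h1 h2
      rw [h1, h2]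
  · intro h
    exact absurd (Finset.mem_univ _) h

/-- The weights on the sphere. -/
noncomputable def hh (t : Fin (3 + M) → ℝ) (s : Sph 2) : ℝ := W t (.inl s)

theorem u_base (t : Fin (3 + M) → ℝ) (l : LL (Sph 2)) : u t (.base l) = push (hh t) l := by
  classical
  unfold u push
  rw [Fintype.sum_sum_type]
  have h2 : ∑ p : Fin M × Bool, (if vtx (.inr p) = SusK.base l then W t (.inr p) else 0) = 0 := by
    refine Finset.sum_eq_zero fun p _ => ?_
    rw [if_neg]
    intro h
    change SusK.pole _ _ = SusK.base _ at h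
    cases h
  rw [h2, add_zero]
  refine Finset.sum_congr rfl fun s _ => ?_
  by_cases h : LL.one s = l
  · rw [if_pos (by rw [vtx, h]), if_pos h]
    rfl
  · rw [if_neg, if_neg h]
    intro h'
    apply h
    change SusK.base (LL.one s) = SusK.base l at h'
    injection h'

theorem cont_u {Z : Type} [TopologicalSpace Z] {K : Set Z} {v : Z → Fin (3 + M) → ℝ}
    (hv : ContinuousOn v K) (h1 : ∀ z ∈ K, ‖v z‖ = 1) : ContinuousOn (fun z => u (v z)) K := by
  classical
  rw [continuousOn_pi]
  intro a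
  refine continuousOn_finsetSum _ fun b _ => ?_
  split_ifs
  · have hn : ContinuousOn (fun z => n1 (v z)) K := by
      unfold n1
      exact continuousOn_finsetSum _ fun i _ => ((continuousOn_pi.1 hv) i).abs
    have hn0 : ∀ z ∈ K, n1 (v z) ≠ 0 := fun z hz => (n1_pos (h1 z hz)).ne'
    rcases b with s | p
    · exact ((continuousOn_const.mul ((continuousOn_pi.1 hv) _)).sup continuousOn_const).div hn hn0
    · exact ((continuousOn_const.mul ((continuousOn_pi.1 hv) _)).sup continuousOn_const).div hn hn0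
  · exact continuousOn_const

end

/-! ### The base part of a point of the suspension -/

section

variable {M : ℕ} (Qt : Finset (SusK (LL (Sph 2)) M))

open Classical in
/-- The base part. -/
noncomputable def Qb : Finset (LL (Sph 2)) :=
  Qt.preimage SusK.base fun a _ b _ h => by injection h

theorem mem_Qb {e : LL (Sph 2)} : e ∈ Qb Qt ↔ SusK.base e ∈ Qt := by
  classical
  unfold Qb
  exact Finset.mem_preimage

/-- The total weight of the base. -/
noncomputable def mm (p : SusK (LL (Sph 2)) M → ℝ) : ℝ := ∑ e ∈ Qb Qt, p (.base e)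

theorem cont_mm : Continuous (mm Qt) := by
  unfold mm
  exact continuous_finsetSum _ fun _ _ => continuous_apply _

/-- The weights of the base. -/
def gg (p : SusK (LL (Sph 2)) M → ℝ) (e : LL (Sph 2)) : ℝ := p (.base e)

theorem cont_gg : Continuous (gg (M := M)) := by
  unfold gg
  exact continuous_pi fun _ => continuous_apply _

variable {Qt}

theorem mm_nonneg {p : SusK (LL (Sph 2)) M → ℝ} (hp : p ∈ Rz Qt) : 0 ≤ mm Qt p :=
  Finset.sum_nonneg fun _ _ => hp.1 _

theorem gg_mem {p : SusK (LL (Sph 2)) M → ℝ} (hp : p ∈ Rz Qt) (h : mm Qt p ≠ 0) :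
    (mm Qt p)⁻¹ • gg p ∈ Rz (Qb Qt) := by
  have h0 := mm_nonneg hp
  refine ⟨fun a => mul_nonneg (inv_nonneg.2 h0) (hp.1 _), fun a ha => ?_, ?_, fun a b ha hb => ?_⟩
  · have : p (.base a) = 0 := hp.2.1 _ fun hc => ha ((mem_Qb Qt).2 hc)
    simp [gg, this]
  · have : ∑ a ∈ Qb Qt, ((mm Qt p)⁻¹ • gg p) a = (mm Qt p)⁻¹ * mm Qt p := by
      unfold mm
      rw [Finset.mul_sum]
      rfl
    rw [this, inv_mul_cancel₀ h]
  · have ha' : p (.base a) ≠ 0 := fun hc => ha (by simp [gg, hc])
    have hb' : p (.base b) ≠ 0 := fun hc => hb (by simp [gg, hc])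
    rcases hp.2.2.2 _ _ ha' hb' with h | h
    · exact Or.inl ((SusK.base_le_base _ _).1 h)
    · exact Or.inr ((SusK.base_le_base _ _).1 h)

theorem pole_ne {p : SusK (LL (Sph 2)) M → ℝ} (hp : p ∈ Rz Qt) (h : mm Qt p = 0) :
    ∃ i : Fin M, p (.pole i true) - p (.pole i false) ≠ 0 := by
  have h1 : ∀ e, p (.base e) = 0 := by
    intro e
    by_cases he : e ∈ Qb Qt
    · exact (Finset.sum_eq_zero_iff_of_nonneg (fun i _ => hp.1 _)).1 h e he
    · exact hp.2.1 _ fun hc => he ((mem_Qb Qt).2 hc)
  have h2 : ∃ a, p a ≠ 0 := by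
    by_contra hne
    push Not at hne
    have h3 := hp.2.2.1
    rw [Finset.sum_eq_zero fun a _ => hne a] at h3
    exact zero_ne_one h3
  obtain ⟨a, ha⟩ := h2
  cases a with
  | base e => exact absurd (h1 e) ha
  | pole i b =>
    refine ⟨i, ?_⟩
    have h4 : ∀ c, c ≠ b → p (.pole i c) = 0 := by
      intro c hc
      by_contra hne
      rcases hp.2.2.2 _ _ ha hne with h5 | h5
      · rcases (SusK.pole_le_pole _ _ _ _).1 h5 with h6 | h6
        · exact lt_irrefl _ h6
        · exact hc h6.2.symm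
      · rcases (SusK.pole_le_pole _ _ _ _).1 h5 with h6 | h6
        · exact lt_irrefl _ h6
        · exact hc h6.2
    cases b
    · rw [h4 true (by decide), zero_sub]
      exact neg_ne_zero.2 ha
    · rw [h4 false (by decide), sub_zero]
      exact ha

theorem hh_mem {t : Fin (3 + M) → ℝ} (ht : ‖t‖ = 1) (h0 : ∀ i : Fin M, t (Fin.natAdd 3 i) = 0) :
    hh t ∈ Rz (Finset.univ : Finset (Sph 2)) := by
  refine ⟨fun s => W_nonneg t _, fun s hs => absurd (Finset.mem_univ s) hs, ?_,
    fun a b ha hb => W_sph ha hb⟩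
  have h1 := W_sum (n1_pos ht)
  rw [Fintype.sum_sum_type] at h1
  have h2 : ∑ p : Fin M × Bool, W t (.inr p) = 0 := by
    refine Finset.sum_eq_zero fun p _ => ?_
    simp [W, h0]
  rw [h2, add_zero] at h1
  exact h1

theorem octa_hh (t : Fin (3 + M) → ℝ) (i : Fin 3) :
    octa (hh t) i = t (Fin.castAdd M i) / n1 t := by
  change max (sg true * _) 0 / n1 t - max (sg false * _) 0 / n1 t = _
  rw [← sub_div, max_sub]

theorem u_pole_sub (t : Fin (3 + M) → ℝ) (i : Fin M) :
    u t (.pole i true) - u t (.pole i false) = t (Fin.natAdd 3 i) / n1 t := by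
  rw [u_pole, u_pole]
  change max (sg true * _) 0 / n1 t - max (sg false * _) 0 / n1 t = _
  rw [← sub_div, max_sub]

theorem mm_u {t : Fin (3 + M) → ℝ} (h0 : ∀ i : Fin M, t (Fin.natAdd 3 i) = 0)
    (hp : u t ∈ Rz Qt) : mm Qt (u t) = 1 := by
  classical
  have h1 := hp.2.2.1
  have h2 : ∀ i b, u t (.pole i b) = 0 := by
    intro i b
    rw [u_pole]
    simp [W, h0]
  have h3 : mm Qt (u t) = ∑ a ∈ (Qb Qt).image SusK.base, u t a := by
    rw [Finset.sum_image fun a _ b _ h => by injection h]
    rfl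
  rw [h3, ← h1]
  refine Finset.sum_subset ?_ ?_
  · intro a ha
    obtain ⟨e, he, rfl⟩ := Finset.mem_image.1 ha
    exact (mem_Qb Qt).1 he
  · intro a ha hne
    cases a with
    | base e => exact absurd (Finset.mem_image_of_mem _ ((mem_Qb Qt).2 ha)) hne
    | pole i b => exact h2 i b

end

end STIaux

open STIaux

theorem STI (h1 : Stmt_SCAN) (h2 : Stmt_HEC) : Stmt_STI := by
  intro X _ _ _ hE k N Y v hN hY hv hv1
  obtain ⟨M, rfl⟩ : ∃ M, N = 3 + M := ⟨N - 3, by omega⟩
  have hkM : k ≤ M := by omega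
  let pr : (Fin M → Iv) × X → (Fin k → Iv) × X := fun z => (fun i => z.1 (Fin.castLE hkM i), z.2)
  let j : (Fin k → Iv) × X → (Fin M → Iv) × X :=
    fun y => (fun i => if h : i.1 < k then y.1 ⟨i.1, h⟩ else ⟨0, by norm_num⟩, y.2)
  have hprj : ∀ y, pr (j y) = y := by
    intro y
    refine Prod.ext ?_ rfl
    funext i
    change (if h : i.1 < k then y.1 ⟨i.1, h⟩ else _) = y.1 i
    rw [dif_pos i.2]
  have hpr : Continuous pr :=
    (continuous_pi fun i => (continuous_apply _).comp continuous_fst).prodMk continuous_snd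
  have hj : Continuous j := by
    refine (continuous_pi fun i => ?_).prodMk continuous_snd
    by_cases h : i.1 < k
    · simp only [h, dif_pos]
      exact (continuous_apply _).comp continuous_fst
    · simp only [h, dif_neg, not_false_iff]
      exact continuous_const
  have hK : IsClosed (Y ∩ (fun y => ‖v y‖) ⁻¹' {1}) :=
    hv.norm.preimage_isClosed_of_isClosed hY isClosed_singleton
  obtain ⟨Qt, U, hQt, hUc, hUR, hUA⟩ := hE M (pr ⁻¹' (Y ∩ (fun y => ‖v y‖) ⁻¹' {1})) (Q0 M)
    (fun z => u (v (pr z))) (hK.preimage hpr)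
    ((cont_u (hv.mono inter_subset_left) fun z hz => hz.2).comp hpr.continuousOn
      (mapsTo_preimage _ _)) (fun z hz => u_mem hz.2)
  obtain ⟨R₀, hR₀⟩ := h1 (Qb Qt)
  refine ⟨R₀, fun R hR => ?_⟩
  obtain ⟨s, hs1, hs2, hs3, hs4⟩ := hR₀ R hR
  obtain ⟨C, hC⟩ := ((rz_compact (Qb Qt)).prod (isCompact_univ (X := Fin R → Iv))).exists_bound_of_continuousOn hs1
  -- the scanned base
  let φ : ((Fin M → Iv) × X) × (Fin R → Iv) → (Fin 3 → ℝ) × (Fin R → ℝ) :=
    fun p => s ((mm Qt (U p.1))⁻¹ • gg (U p.1), p.2)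
  have hmc : Continuous fun p : ((Fin M → Iv) × X) × (Fin R → Iv) => mm Qt (U p.1) :=
    (cont_mm Qt).comp (hUc.comp continuous_fst)
  have hφm : ∀ p : ((Fin M → Iv) × X) × (Fin R → Iv), mm Qt (U p.1) ≠ 0 →
      ((mm Qt (U p.1))⁻¹ • gg (U p.1), p.2) ∈ Rz (Qb Qt) ×ˢ (univ : Set (Fin R → Iv)) :=
    fun p hp => ⟨gg_mem (hUR p.1) hp, mem_univ _⟩
  have hφ : ContinuousOn φ {p | mm Qt (U p.1) ≠ 0} := by
    refine hs1.comp (f := fun p : ((Fin M → Iv) × X) × (Fin R → Iv) =>
      ((mm Qt (U p.1))⁻¹ • gg (U p.1), p.2)) ?_ hφm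
    refine ContinuousOn.prodMk ?_ continuous_snd.continuousOn
    exact (hmc.continuousOn.inv₀ fun p hp => hp).smul
      (cont_gg.comp (hUc.comp continuous_fst)).continuousOn
  have hS : Continuous fun p => mm Qt (U p.1) • φ p :=
    cont_smul hmc hφ C fun p hp => hC _ (hφm p hp)
  let b₁' : ((Fin M → Iv) × X) × (Fin R → Iv) → (Fin (3 + M) → ℝ) × (Fin R → ℝ) := fun p =>
    (Fin.addCases (fun i => (mm Qt (U p.1) • φ p).1 i)
      (fun i => U p.1 (.pole i true) - U p.1 (.pole i false)), (mm Qt (U p.1) • φ p).2)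
  have hb₁' : Continuous b₁' := by
    refine (continuous_pi fun i => ?_).prodMk (continuous_snd.comp hS)
    refine Fin.addCases (fun i => ?_) (fun i => ?_) i
    · simp only [Fin.addCases_left]
      exact (continuous_apply i).comp (continuous_fst.comp hS)
    · simp only [Fin.addCases_right]
      exact ((continuous_apply _).comp (hUc.comp continuous_fst)).sub
        ((continuous_apply _).comp (hUc.comp continuous_fst))
  have hb₁'0 : ∀ p, b₁' p ≠ 0 := by
    intro p hp
    have e1 : ∀ i : Fin 3, (mm Qt (U p.1) • φ p).1 i = 0 := by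
      intro i
      have := congrFun (congrArg Prod.fst hp) (Fin.castAdd M i)
      simpa [b₁'] using this
    have e2 : ∀ i : Fin M, U p.1 (.pole i true) - U p.1 (.pole i false) = 0 := by
      intro i
      have := congrFun (congrArg Prod.fst hp) (Fin.natAdd 3 i)
      simpa [b₁'] using this
    have e3 : (mm Qt (U p.1) • φ p).2 = 0 := congrArg Prod.snd hp
    by_cases hm : mm Qt (U p.1) = 0
    · obtain ⟨i, hi⟩ := pole_ne (hUR p.1) hm
      exact hi (e2 i)
    · have e4 : mm Qt (U p.1) • φ p = 0 := Prod.ext (funext e1) e3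
      rcases smul_eq_zero.1 e4 with h | h
      · exact hm h
      · exact hs2 _ (hφm p hm) h
  -- the compact space
  have : CompactSpace Y := isCompact_iff_compactSpace.1 hY.isCompact
  have hvY : Continuous fun y : Y => v y := continuousOn_iff_continuous_domRestrict.1 hv
  have hinc : Continuous fun r : Fin R → Iv => (fun i => (r i : ℝ)) :=
    continuous_pi fun i => continuous_subtype_val.comp (continuous_apply i)
  let b₀ : Y × (Fin R → Iv) → (Fin (3 + M) → ℝ) × (Fin R → ℝ) :=
    fun p => (v p.1, fun i => (p.2 i : ℝ))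
  have hb₀ : Continuous b₀ := (hvY.comp continuous_fst).prodMk (hinc.comp continuous_snd)
  have hjY : Continuous fun p : Y × (Fin R → Iv) => ((j p.1, p.2) :
      ((Fin M → Iv) × X) × (Fin R → Iv)) :=
    (hj.comp (continuous_subtype_val.comp continuous_fst)).prodMk continuous_snd
  obtain ⟨w, hwc, hw1, hwB⟩ := h2 (3 + M) R (Y × (Fin R → Iv)) {p | ‖b₀ p‖ = 1} b₀
    (fun p => b₁' (j p.1, p.2)) (isClosed_eq hb₀.norm continuous_const) hb₀.continuousOn
    (hb₁'.comp hjY) (fun p => hb₁'0 _) (fun p hp => hp) (by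
      rintro ⟨y, r⟩ hp μ hμ heq
      have hp' : ‖(v y, fun i => (r i : ℝ))‖ = 1 := hp
      have e1 : ∀ i : Fin 3, (mm Qt (U (j y)) • φ (j y, r)).1 i =
          -(μ * v y (Fin.castAdd M i)) := by
        intro i
        have := congrFun (congrArg Prod.fst heq) (Fin.castAdd M i)
        simpa [b₁', b₀] using this
      have e2 : ∀ i : Fin M, U (j y) (.pole i true) - U (j y) (.pole i false) =
          -(μ * v y (Fin.natAdd 3 i)) := by
        intro i
        have := congrFun (congrArg Prod.fst heq) (Fin.natAdd 3 i)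
        simpa [b₁', b₀] using this
      have e3 : ∀ i : Fin R, (mm Qt (U (j y)) • φ (j y, r)).2 i = -(μ * (r i : ℝ)) := by
        intro i
        have := congrFun (congrArg Prod.snd heq) i
        simpa [b₁', b₀] using this
      by_cases hr : ∃ i, |(r i : ℝ)| = 1
      · -- a face of the new coordinates
        obtain ⟨i, hi⟩ := hr
        have e4 : (mm Qt (U (j y)) • φ (j y, r)).2 i = 0 := by
          by_cases hm : mm Qt (U (j y)) = 0
          · simp [hm]
          · have e5 : φ (j y, r) = me0 R := hs4 _ (hφm (j y, r) hm).1 r ⟨i, hi⟩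
            rw [e5]
            simp [me0]
        have e6 : μ = 0 := by
          rw [e3 i] at e4
          rcases mul_eq_zero.1 (neg_eq_zero.1 e4) with h | h
          · exact h
          · rw [h] at hi
            simp at hi
        refine hb₁'0 (j y, r) ?_
        refine heq.trans ?_
        rw [e6, zero_smul, neg_zero]
      · -- a face of the old coordinates
        have hr' : ‖(fun i => (r i : ℝ) : Fin R → ℝ)‖ < 1 := by
          rw [pi_norm_lt_iff zero_lt_one]
          intro i
          have h3 : |(r i : ℝ)| ≤ 1 := abs_le.2 ⟨(r i).2.1, (r i).2.2⟩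
          exact lt_of_le_of_ne h3 fun h => hr ⟨i, h⟩
        have hvy : ‖v y‖ = 1 := by
          rw [Prod.norm_def] at hp'
          rcases max_choice ‖v y‖ ‖(fun i => (r i : ℝ) : Fin R → ℝ)‖ with h | h
          · exact h.symm.trans hp'
          · exact absurd (h.symm.trans hp') hr'.ne
        have hn := n1_pos hvy
        have hjA : j y ∈ pr ⁻¹' (Y ∩ (fun y => ‖v y‖) ⁻¹' {1}) := by
          rw [mem_preimage, hprj]
          exact ⟨y.2, hvy⟩
        have hU : U (j y) = u (v y) := by
          rw [hUA _ hjA]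
          change u (v (pr (j y))) = _
          rw [hprj]
        have e4 : ∀ i : Fin M, v y (Fin.natAdd 3 i) = 0 := by
          intro i
          have h3 := e2 i
          rw [hU, u_pole_sub] at h3
          have h4 : v y (Fin.natAdd 3 i) * ((n1 (v y))⁻¹ + μ) = 0 := by
            rw [div_eq_mul_inv] at h3
            linarith
          rcases mul_eq_zero.1 h4 with h | h
          · exact h
          · have : 0 < (n1 (v y))⁻¹ + μ := add_pos_of_pos_of_nonneg (inv_pos.2 hn) hμ
            exact absurd h this.ne'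
        have hm1 : mm Qt (U (j y)) = 1 := by
          rw [hU]
          exact mm_u e4 (hU ▸ hUR (j y))
        have hgg : (mm Qt (U (j y)))⁻¹ • gg (U (j y)) = push (hh (v y)) := by
          rw [hm1, inv_one, one_smul, hU]
          funext l
          exact u_base _ l
        have hgm := (hφm (j y, r) (by rw [hm1]; exact one_ne_zero)).1
        have hpush : push (hh (v y)) ∈ Rz (Qb Qt) := by
          rw [← hgg]
          exact hgm
        refine hs3 (hh (v y)) (hh_mem hvy e4) hpush r μ (n1 (v y)) hμ hn ?_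
        have e5 : s (push (hh (v y)), r) = mm Qt (U (j y)) • φ (j y, r) := by
          rw [hm1, one_smul]
          change _ = s ((mm Qt (U (j y)))⁻¹ • gg (U (j y)), r)
          rw [hgg]
        rw [e5]
        refine Prod.ext (funext fun i => ?_) (funext fun i => ?_)
        · rw [e1 i]
          change _ = -(μ * (n1 (v y) * octa (hh (v y)) i))
          rw [octa_hh, mul_div_cancel₀ _ hn.ne']
        · rw [e3 i]
          rfl)
  classical
  refine ⟨fun z => if h : z.1 ∈ Y then w (⟨z.1, h⟩, z.2) else 0, ?_, ?_, ?_⟩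
  · rw [continuousOn_iff_continuous_domRestrict]
    have h3 : Continuous fun z : (Y ×ˢ (univ : Set (Fin R → Iv))) =>
        w (⟨z.1.1, z.2.1⟩, z.1.2) := by
      refine hwc.comp ?_
      exact ((continuous_fst.comp continuous_subtype_val).subtype_mk _).prodMk
        (continuous_snd.comp continuous_subtype_val)
    refine h3.congr fun z => ?_
    change _ = if h : z.1.1 ∈ Y then w (⟨z.1.1, h⟩, z.1.2) else 0
    rw [dif_pos z.2.1]
  · intro z hz
    change ‖if h : z.1 ∈ Y then w (⟨z.1, h⟩, z.2) else 0‖ = 1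
    rw [dif_pos hz.1]
    exact hw1 _
  · intro y hy r hr
    change (if h : y ∈ Y then w (⟨y, h⟩, r) else 0) = _
    rw [dif_pos hy]
    exact hwB (⟨y, hy⟩, r) hr

end Pool.Agent.SH
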