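import Pool.Agent.SH.Top

/-!
# Walls
-/

set_option autoImplicit false

open Set Topology

namespace Pool.Agent.SH

theorem WALL (hBox : Stmt_BOX) : Stmt_WALL := by
  classical
  intro Z _ _ _ P _ hExt Np Nm A Q κ hNp hNm hdis hA hκ hκQ
  letI := TopologicalSpace.metrizableSpaceMetric Z
  obtain ⟨η, hη, hbox⟩ := hBox Z P hExt A Q κ hA hκ hκQ
  obtain ⟨r₀, hr₀, hr₀'⟩ := Metric.exists_pos_forall_lt_edist hNp.isCompact hNm hdis
  obtain ⟨r, hr⟩ : ∃ r : ℝ, r = (r₀ : ℝ) := ⟨_, rfl⟩
  have hrpos : 0 < r := by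
    rw [hr]
    exact_mod_cast hr₀
  have hsep : ∀ x ∈ Np, ∀ y ∈ Nm, r < dist x y := by
    intro x hx y hy
    have := hr₀' x hx y hy
    rw [edist_dist] at this
    rw [ENNReal.lt_ofReal_iff_toReal_lt ENNReal.coe_ne_top] at this
    rw [hr]
    exact this
  -- the number of slabs
  obtain ⟨n, hn⟩ := exists_nat_gt (max 1 (max (2 / η) (4 / r)))
  have hn1 : (1 : ℝ) < n := lt_of_le_of_lt (le_max_left _ _) hn
  have hn2 : 2 / η < n := lt_of_le_of_lt ((le_max_left _ _).trans (le_max_right _ _)) hn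
  have hn3 : 4 / r < n := lt_of_le_of_lt ((le_max_right _ _).trans (le_max_right _ _)) hn
  have hn0 : (0 : ℝ) < n := by linarith
  have hnN : 0 < n := by exact_mod_cast hn0
  have hstepη : 2 / (n : ℝ) ≤ η := by
    rw [div_le_iff₀ hn0]
    rw [div_lt_iff₀ hη] at hn2
    linarith
  have hstepr : 2 * (2 / (n : ℝ)) < r := by
    rw [div_lt_iff₀ hrpos] at hn3
    have : 2 * (2 / (n : ℝ)) = 4 / n := by ring
    rw [this, div_lt_iff₀ hn0]
    linarith
  set t : ℕ → ℝ := fun i => -1 + i * (2 / (n : ℝ)) with ht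
  have htpos : 0 < 2 / (n : ℝ) := by positivity
  have htsucc : ∀ i, t (i + 1) = t i + 2 / (n : ℝ) := by
    intro i
    rw [ht]
    push_cast
    ring
  have htmono : ∀ i j, i ≤ j → t i ≤ t j := by
    intro i j hij
    have : (i : ℝ) ≤ j := by exact_mod_cast hij
    have := mul_le_mul_of_nonneg_right this htpos.le
    show -1 + (i : ℝ) * (2 / (n : ℝ)) ≤ -1 + j * (2 / (n : ℝ))
    linarith
  have htlt : ∀ i j, t i ≤ t j → i ≤ j := by
    intro i j hij
    by_contra hlt
    have h1 : j + 1 ≤ i := by omega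
    have h2 := htmono _ _ h1
    rw [htsucc] at h2
    linarith
  have htn : t n = 1 := by
    rw [ht]
    field_simp
    ring
  have ht0 : t 0 = -1 := by
    rw [ht]
    simp
  set S : ℕ → Set (Z × Iv) := fun i => {z | t i ≤ (z.2 : ℝ) ∧ (z.2 : ℝ) ≤ t (i + 1)} with hS
  have hv : Continuous fun z : Z × Iv => (z.2 : ℝ) := continuous_subtype_val.comp continuous_snd
  have hSc : ∀ i, IsClosed (S i) := fun i =>
    (isClosed_le continuous_const hv).inter (isClosed_le hv continuous_const)
  have hScov : ∀ z, ∃ i < n, z ∈ S i := by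
    intro z
    by_cases h1 : (z.2 : ℝ) = 1
    · refine ⟨n - 1, by omega, ?_⟩
      have h2 : n - 1 + 1 = n := by omega
      refine ⟨?_, ?_⟩
      · rw [h1, ← htn]
        exact htmono _ _ (by omega)
      · rw [h1, h2, htn]
    · have h2 : (z.2 : ℝ) < 1 := lt_of_le_of_ne z.2.2.2 h1
      have h3 : -1 ≤ (z.2 : ℝ) := z.2.2.1
      -- the last i with t i ≤ z.2
      have hex : ∃ i, (z.2 : ℝ) < t (i + 1) := by
        refine ⟨n - 1, ?_⟩
        have h4 : n - 1 + 1 = n := by omega
        rw [h4, htn]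
        exact h2
      set i := Nat.find hex with hi
      have hi1 : (z.2 : ℝ) < t (i + 1) := Nat.find_spec hex
      have hi2 : t i ≤ (z.2 : ℝ) := by
        rcases Nat.eq_zero_or_pos i with h0 | h0
        · rw [h0, ht0]
          exact h3
        · have h4 := Nat.find_min hex (m := i - 1) (by omega)
          have h5 : i - 1 + 1 = i := by omega
          rw [h5] at h4
          exact not_lt.1 h4
      refine ⟨i, ?_, hi2, hi1.le⟩
      by_contra hle
      have h4 := htmono n i (by omega)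
      rw [htn] at h4
      linarith
  have hSadj : ∀ i j, i < j → ∀ z, z ∈ S i → z ∈ S j → j = i + 1 ∧ (z.2 : ℝ) = t j := by
    intro i j hij z hzi hzj
    have h1 : t j ≤ t (i + 1) := hzj.1.trans hzi.2
    have h2 := htlt _ _ h1
    have h3 : j = i + 1 := by omega
    exact ⟨h3, le_antisymm (h3 ▸ hzi.2) hzj.1⟩
  -- thickenings
  set Mp : ℕ → Set Z := fun i => Prod.fst '' (Np ∩ S i) with hMp
  set Mm : ℕ → Set Z := fun i => Prod.fst '' (Nm ∩ S i) with hMm
  have hδ : 0 < r / 3 := by positivity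
  -- key separation
  have hkey : ∀ i j, i ≤ j + 1 → j ≤ i + 1 → ∀ x, x ∈ Metric.cthickening (r / 3) (Mp i) →
      x ∈ Metric.cthickening (r / 3) (Mm j) → False := by
    intro i j hij hji x hx hx'
    have h1 := Metric.cthickening_subset_thickening' (by positivity : 0 < r / 2) (by linarith) _ hx
    have h2 := Metric.cthickening_subset_thickening' (by positivity : 0 < r / 2) (by linarith) _ hx'
    rw [Metric.mem_thickening_iff] at h1 h2
    obtain ⟨_, ⟨z, hz, rfl⟩, h1⟩ := h1
    obtain ⟨_, ⟨z', hz', rfl⟩, h2⟩ := h2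
    have h3 := hsep z hz.1 z' hz'.1
    rw [Prod.dist_eq, lt_max_iff] at h3
    rcases h3 with h3 | h3
    · have := dist_triangle_left z.1 z'.1 x
      linarith
    · rw [Subtype.dist_eq, Real.dist_eq] at h3
      have e1 := hz.2.1
      have e2 := hz.2.2
      have e3 := hz'.2.1
      have e4 := hz'.2.2
      have e5 := htmono _ _ hij
      have e6 := htmono _ _ hji
      rw [htsucc] at e2 e4 e5 e6
      have e7 : |(z.2 : ℝ) - z'.2| ≤ 2 * (2 / (n : ℝ)) := by
        rw [abs_le]
        constructor <;> linarith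
      linarith
  -- the sets of the slabs
  set T : ℕ → Set Z := fun i =>
    if Even i then Metric.cthickening (r / 3) (Mp i) else Metric.cthickening (r / 3) (Mm i) with hT
  set U : ℕ → Set Z := fun i =>
    if Even i then (Metric.thickening (r / 3) (Mp i))ᶜ else (Metric.thickening (r / 3) (Mm i))ᶜ
    with hU
  set bp : ℕ → Set Z := fun i => if Even i then T i else U i with hbp
  set bm : ℕ → Set Z := fun i => if Even i then U i else T i with hbm
  have hTc : ∀ i, IsClosed (T i) := by
    intro i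
    rw [hT]
    by_cases h : Even i
    · simp only [h, if_true]
      exact Metric.isClosed_cthickening
    · simp only [h, if_false]
      exact Metric.isClosed_cthickening
  have hUc : ∀ i, IsClosed (U i) := by
    intro i
    rw [hU]
    by_cases h : Even i
    · simp only [h, if_true]
      exact Metric.isOpen_thickening.isClosed_compl
    · simp only [h, if_false]
      exact Metric.isOpen_thickening.isClosed_compl
  have hTU : ∀ i, ∀ x, x ∈ T i ∨ x ∈ U i := by
    intro i x
    rw [hT, hU]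
    by_cases h : Even i
    · simp only [h, if_true]
      by_cases hx : x ∈ Metric.thickening (r / 3) (Mp i)
      · exact Or.inl (Metric.thickening_subset_cthickening _ _ hx)
      · exact Or.inr hx
    · simp only [h, if_false]
      by_cases hx : x ∈ Metric.thickening (r / 3) (Mm i)
      · exact Or.inl (Metric.thickening_subset_cthickening _ _ hx)
      · exact Or.inr hx
  have hbpc : ∀ i, IsClosed (bp i) := by
    intro i
    by_cases h : Even i
    · simp only [hbp, h, if_true]
      exact hTc i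
    · simp only [hbp, h, if_false]
      exact hUc i
  have hbmc : ∀ i, IsClosed (bm i) := by
    intro i
    by_cases h : Even i
    · simp only [hbm, h, if_true]
      exact hUc i
    · simp only [hbm, h, if_false]
      exact hTc i
  have hbcov : ∀ i x, x ∈ bp i ∨ x ∈ bm i := by
    intro i x
    by_cases h : Even i
    · simp only [hbp, hbm, h, if_true]
      exact hTU i x
    · simp only [hbp, hbm, h, if_false]
      exact (hTU i x).symm
  have hbpm : ∀ i x, x ∈ bp i → x ∈ bm i → x ∈ T i ∩ U i := by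
    intro i x h1 h2
    by_cases h : Even i
    · simp only [hbp, hbm, h, if_true] at h1 h2
      exact ⟨h1, h2⟩
    · simp only [hbp, hbm, h, if_false] at h1 h2
      exact ⟨h2, h1⟩
  have hNpb : ∀ i, ∀ z ∈ Np, z ∈ S i → z.1 ∉ bm i := by
    intro i z hz hzi
    have hzM : z.1 ∈ Mp i := ⟨z, ⟨hz, hzi⟩, rfl⟩
    by_cases h : Even i
    · simp only [hbm, hU, h, if_true]
      intro h1
      exact h1 (Metric.self_subset_thickening hδ _ hzM)
    · simp only [hbm, hT, h, if_false]
      intro h1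
      exact hkey i i (by omega) (by omega) z.1 (Metric.self_subset_cthickening _ hzM) h1
  have hNmb : ∀ i, ∀ z ∈ Nm, z ∈ S i → z.1 ∉ bp i := by
    intro i z hz hzi
    have hzM : z.1 ∈ Mm i := ⟨z, ⟨hz, hzi⟩, rfl⟩
    by_cases h : Even i
    · simp only [hbp, hT, h, if_true]
      intro h1
      exact hkey i i (by omega) (by omega) z.1 h1 (Metric.self_subset_cthickening _ hzM)
    · simp only [hbp, hU, h, if_false]
      intro h1
      exact h1 (Metric.self_subset_thickening hδ _ hzM)
  have hwall : ∀ i x, x ∈ T i → x ∈ T (i + 1) → False := by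
    intro i x h1 h2
    by_cases h : Even i
    · have h' : ¬ Even (i + 1) := by
        rw [Nat.even_add_one, not_not]
        exact h
      simp only [hT, h, h', if_true, if_false] at h1 h2
      exact hkey i (i + 1) (by omega) (by omega) x h1 h2
    · have h' : Even (i + 1) := by
        rw [Nat.even_add_one]
        exact h
      simp only [hT, h, h', if_true, if_false] at h1 h2
      exact hkey (i + 1) i (by omega) (by omega) x h2 h1
  -- extension over the vertical walls
  have hb : ∀ i : Fin n, ∃ (Q' : Finset P) (g : Z × Iv → P → ℝ), Q ⊆ Q' ∧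
      ContinuousOn g (S i) ∧ (∀ z ∈ S i, g z ∈ Rz Q') ∧ ∀ z ∈ A, z ∈ S i → g z = κ z := by
    intro i
    obtain ⟨Q', g, h1, h2, h3, h4⟩ := hbox (t i) (t (i + 1)) (by rw [htsucc]; linarith)
    exact ⟨Q', g, h1, h2, fun z hz => h3 z hz.1 hz.2, fun z hz hzi => h4 z hz hzi.1 hzi.2⟩
  choose Qi gi hQi hgic hgiQ hgiκ using hb
  set V : Fin n → Set (Z × Iv) := fun i => {z | z ∈ S i ∧ z.1 ∈ T i ∩ U i} with hV
  have hVc : ∀ i, IsClosed (V i) := fun i =>
    (hSc i).inter (((hTc i).inter (hUc i)).preimage continuous_fst)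
  set Q₁ : Finset P := Q ∪ Finset.univ.biUnion Qi with hQ₁
  have hQQ₁ : Q ⊆ Q₁ := Finset.subset_union_left
  have hQiQ₁ : ∀ i, Qi i ⊆ Q₁ := by
    intro i a ha
    exact Finset.mem_union_right _ (Finset.mem_biUnion.2 ⟨i, Finset.mem_univ i, ha⟩)
  obtain ⟨κ₁, hκ₁, hκ₁c⟩ := glue_exists (ι := Option (Fin n))
    (fun o => match o with | none => A | some i => V i)
    (by
      rintro (_ | i)
      · exact hA
      · exact hVc i)
    (fun o => match o with | none => κ | some i => gi i)
    (by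
      rintro (_ | i)
      · exact hκ
      · exact (hgic i).mono fun z hz => hz.1)
    (by
      rintro (_ | i) (_ | j) z hz hz'
      · rfl
      · exact (hgiκ j z hz hz'.1).symm
      · exact hgiκ i z hz' hz.1
      · rcases lt_trichotomy i j with hij | rfl | hij
        · exfalso
          have h1 := (hSadj i j hij z hz.1 hz'.1).1
          exact hwall i z.1 hz.2.1 (h1 ▸ hz'.2.1)
        · rfl
        · exfalso
          have h1 := (hSadj j i hij z hz'.1 hz.1).1
          exact hwall j z.1 hz'.2.1 (h1 ▸ hz.2.1))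
  set AV : Set (Z × Iv) := ⋃ o : Option (Fin n), (match o with | none => A | some i => V i) with hAV
  have hAAV : A ⊆ AV := fun z hz => mem_iUnion.2 ⟨none, hz⟩
  have hVAV : ∀ i, V i ⊆ AV := fun i z hz => mem_iUnion.2 ⟨some i, hz⟩
  have hAVc : IsClosed AV := by
    refine isClosed_iUnion_of_finite ?_
    rintro (_ | i)
    · exact hA
    · exact hVc i
  have hκ₁Q : ∀ z ∈ AV, κ₁ z ∈ Rz Q₁ := by
    intro z hz
    obtain ⟨o, ho⟩ := mem_iUnion.1 hz
    have h1 := hκ₁ o z ho
    rcases o with _ | i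
    · rw [h1]
      exact Rz_mono hQQ₁ (hκQ z ho)
    · rw [h1]
      exact Rz_mono (hQiQ₁ i) (hgiQ i z ho.1)
  -- extension over the horizontal walls
  have htI : ∀ i : Fin n, t i ∈ Icc (-1 : ℝ) 1 := by
    intro i
    rw [← ht0, ← htn]
    exact ⟨htmono _ _ (by omega), htmono _ _ i.2.le⟩
  have hh : ∀ i : Fin n, ∃ (R : Finset P) (h : Z → P → ℝ), Q₁ ⊆ R ∧ Continuous h ∧
      (∀ x, h x ∈ Rz R) ∧ ∀ x, (x, (⟨t i, htI i⟩ : Iv)) ∈ AV → h x = κ₁ (x, ⟨t i, htI i⟩) := by
    intro i
    have hj : Continuous fun x : Z => (x, (⟨t i, htI i⟩ : Iv)) :=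
      continuous_id.prodMk continuous_const
    obtain ⟨R, h, h1, h2, h3, h4⟩ := hExt {x | (x, (⟨t i, htI i⟩ : Iv)) ∈ AV} Q₁
      (fun x => κ₁ (x, ⟨t i, htI i⟩)) (hAVc.preimage hj)
      (hκ₁c.comp hj.continuousOn fun x hx => hx) (fun x hx => hκ₁Q _ hx)
    exact ⟨R, h, h1, h2, h3, h4⟩
  choose R h hQR hhc hhR hhκ using hh
  set F : Fin n → Set (Z × Iv) := fun i => {z | (z.2 : ℝ) = t i} with hF
  have hFc : ∀ i, IsClosed (F i) := fun i => isClosed_eq hv continuous_const
  obtain ⟨g, hg, hgc⟩ := glue_exists (ι := Option (Fin n))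
    (fun o => match o with | none => AV | some i => F i)
    (by
      rintro (_ | i)
      · exact hAVc
      · exact hFc i)
    (fun o => match o with | none => κ₁ | some i => fun z => h i z.1)
    (by
      rintro (_ | i)
      · exact hκ₁c
      · exact ((hhc i).comp continuous_fst).continuousOn)
    (by
      have hcase : ∀ (i : Fin n) (z : Z × Iv), z ∈ AV → z ∈ F i → κ₁ z = h i z.1 := by
        rintro i ⟨x, s⟩ hz hz'
        have hs : s = ⟨t i, htI i⟩ := Subtype.ext hz'
        subst hs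
        exact (hhκ i x hz).symm
      rintro (_ | i) (_ | j) z hz hz'
      · rfl
      · exact hcase j z hz hz'
      · exact (hcase i z hz' hz).symm
      · have h1 : t i = t j := hz.symm.trans hz'
        have h2 : i = j := Fin.ext (le_antisymm (htlt _ _ h1.le) (htlt _ _ h1.ge))
        subst h2
        rfl)
  set Q' : Finset P := Q₁ ∪ Finset.univ.biUnion R with hQ'
  refine ⟨⋃ i : Fin n, {z | z ∈ S i ∧ z.1 ∈ bp i}, ⋃ i : Fin n, {z | z ∈ S i ∧ z.1 ∈ bm i}, Q', g,
    ?_, ?_, ?_, ?_, ?_, ?_, ?_, ?_, ?_⟩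
  · exact isClosed_iUnion_of_finite fun i => (hSc i).inter ((hbpc i).preimage continuous_fst)
  · exact isClosed_iUnion_of_finite fun i => (hSc i).inter ((hbmc i).preimage continuous_fst)
  · refine eq_univ_of_forall fun z => ?_
    obtain ⟨i, hi, hzi⟩ := hScov z
    rcases hbcov i z.1 with h1 | h1
    · exact Or.inl (mem_iUnion.2 ⟨⟨i, hi⟩, hzi, h1⟩)
    · exact Or.inr (mem_iUnion.2 ⟨⟨i, hi⟩, hzi, h1⟩)
  · rw [Set.disjoint_left]
    intro z hz hz'
    obtain ⟨i, h1, h2⟩ := mem_iUnion.1 hz'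
    exact hNpb i z hz h1 h2
  · rw [Set.disjoint_left]
    intro z hz hz'
    obtain ⟨i, h1, h2⟩ := mem_iUnion.1 hz'
    exact hNmb i z hz h1 h2
  · exact hQQ₁.trans Finset.subset_union_left
  all_goals
    have hcov : ∀ z, z ∈ (⋃ i : Fin n, {z | z ∈ S i ∧ z.1 ∈ bp i}) ∩
        (⋃ i : Fin n, {z | z ∈ S i ∧ z.1 ∈ bm i}) → z ∈ AV ∨ ∃ i, z ∈ F i := by
      rintro z ⟨h1, h2⟩
      obtain ⟨i, h1, h1'⟩ := mem_iUnion.1 h1
      obtain ⟨j, h2, h2'⟩ := mem_iUnion.1 h2
      rcases lt_trichotomy i j with hij | rfl | hij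
      · exact Or.inr ⟨j, (hSadj i j hij z h1 h2).2⟩
      · exact Or.inl (hVAV i ⟨h1, hbpm i z.1 h1' h2'⟩)
      · exact Or.inr ⟨i, (hSadj j i hij z h2 h1).2⟩
  · refine hgc.mono ?_
    intro z hz
    rcases hcov z hz with h1 | ⟨i, h1⟩
    · exact mem_iUnion.2 ⟨none, h1⟩
    · exact mem_iUnion.2 ⟨some i, h1⟩
  · intro z hz
    rcases hcov z hz with h1 | ⟨i, h1⟩
    · rw [hg none z h1]
      exact Rz_mono Finset.subset_union_left (hκ₁Q z h1)
    · rw [hg (some i) z h1]
      refine Rz_mono (fun a ha => ?_) (hhR i z.1)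
      exact Finset.mem_union_right _ (Finset.mem_biUnion.2 ⟨i, Finset.mem_univ i, ha⟩)
  · intro z hz
    rw [hg none z (hAAV hz.1)]
    exact hκ₁ none z hz.1

end Pool.Agent.SH
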