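import Pool.Agent.SH.RET
import Pool.Agent.SH.ANE
import Pool.Agent.SH.FAC
import Pool.Agent.SH.BOX
import Pool.Agent.SH.WALL
import Pool.Agent.SH.PROD
import Pool.Agent.SH.ITX
import Pool.Agent.SH.SCAN
import Pool.Agent.SH.HEC
import Pool.Agent.SH.STI
import Pool.Agent.SH.SKE
import Pool.Agent.SH.ITR

/-!
# The theorem of part I
-/

set_option autoImplicit false

open Set Topology

namespace Pool.Agent.SH

theorem allITX : Stmt_ITX :=
  ITX (PROD (WALL (BOX (FAC RET) (CLS RET) (HEP RET))) (CON RET) (HEP RET))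

theorem PARTI : Stmt_PARTI := by
  intro X _ _ _ hE
  haveI : Nonempty (LL (Sph 2)) := ⟨LL.one 0⟩
  exact ITR X 2 (SKE X 2 (STI SCAN HEC X (allITX X (LL (Sph 2)) hE)))

end Pool.Agent.SH
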