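import Mathlib
import Pool.Agent.SH.DefsTE

/-!
# MP_2d0b73_an, simplicial vector spaces over `F_2`: statements (helper26)
-/

open CategoryTheory MonoidalCategory Simplicial SSet HomotopicalAlgebra Opposite Limits

namespace Pool.Agent.SH

/-- The simplicial set underlying a simplicial `F_2`-vector space. -/
noncomputable abbrev toSS (M : SimplicialObject (ModuleCat.{0} (ZMod 2))) : SSet.{0} :=
  M ⋙ forget (ModuleCat.{0} (ZMod 2))

/-- (SV0) over a field, a monomorphic quasi-isomorphism of chain complexes splits. -/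
def SV_CH_Stmt : Prop :=
  ∀ (K L : ChainComplex (ModuleCat.{0} (ZMod 2)) ℕ) (φ : K ⟶ L), Mono φ → QuasiIso φ →
    ∃ r : L ⟶ K, φ ≫ r = 𝟙 K

/-- (SV1) maps to simplicial `F_2`-vector spaces extend along monomorphisms which are
`F_2`-homology isomorphisms. -/
def SV_EXT_Stmt : Prop :=
  ∀ (M : SimplicialObject (ModuleCat.{0} (ZMod 2))) (A B : SSet.{0}) (i : A ⟶ B), Mono i →
    F2Iso i → ∀ u : A ⟶ toSS M, ∃ v : B ⟶ toSS M, i ≫ v = u

/-- (SV1') the same for a simplicial set with a levelwise linear structure. -/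
def SV_EXT'_Stmt : Prop :=
  ∀ (V : SSet.{0}) (_ : ∀ n, AddCommGroup (V.obj n)) (_ : ∀ n, Module (ZMod 2) (V.obj n)),
    (∀ (m n : SimplexCategoryᵒᵖ) (a : m ⟶ n) (x y : V.obj m), V.map a (x + y) =
      V.map a x + V.map a y) →
    ∀ (A B : SSet.{0}) (i : A ⟶ B), Mono i →
    F2Iso i → ∀ u : A ⟶ V, ∃ v : B ⟶ V, i ≫ v = u

end Pool.Agent.SH
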