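import Mathlib
import Pool.Agent.SH.StmtsSV

/-!
# MP_2d0b73_an: over a field, a monomorphic quasi-isomorphism of chain complexes splits
-/

open CategoryTheory Limits

namespace Pool.Agent.SH

namespace SvCh

abbrev k2 : Type := ZMod 2

/-- elements as morphisms -/
noncomputable def el {M : ModuleCat.{0} k2} (x : M) : ModuleCat.of k2 k2 ⟶ M :=
  ModuleCat.ofHom (LinearMap.toSpanSingleton k2 M x)

theorem el_one {M : ModuleCat.{0} k2} (x : M) : (el x).hom (1 : k2) = x := by
  simp [el]

theorem hom_ext1 {M : ModuleCat.{0} k2} {f g : ModuleCat.of k2 k2 ⟶ M}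
    (h : f.hom (1 : k2) = g.hom (1 : k2)) : f = g := by
  apply ModuleCat.hom_ext
  exact LinearMap.ext_ring h

/-- injectivity on homology, elementwise -/
theorem inj_hom {K L : ChainComplex (ModuleCat.{0} k2) ℕ} (φ : K ⟶ L) (hφ : QuasiIso φ)
    (hinj : ∀ n, Function.Injective (φ.f n).hom) (n : ℕ) (x : K.X n)
    (hx : (φ.f n).hom x ∈ LinearMap.range (L.d (n + 1) n).hom) :
    x ∈ LinearMap.range (K.d (n + 1) n).hom := by
  -- x is a cycle
  have hcyc : ∀ j, (K.d n j).hom x = 0 := by
    intro j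
    apply hinj j
    obtain ⟨y, hy⟩ := hx
    have e1 : (φ.f j).hom ((K.d n j).hom x) = (L.d n j).hom ((φ.f n).hom x) := by
      have := congrArg (fun f => f.hom x) (φ.comm n j)
      exact this.symm
    rw [e1, ← hy, map_zero]
    have := congrArg (fun f => f.hom y) (L.d_comp_d (n + 1) n j)
    exact this
  have hc : el x ≫ K.d n ((ComplexShape.down ℕ).next n) = 0 := by
    apply hom_ext1
    have e1 : (el x ≫ K.d n ((ComplexShape.down ℕ).next n)).hom (1 : k2) =
      (K.d n ((ComplexShape.down ℕ).next n)).hom ((el x).hom (1 : k2)) := rfl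
    rw [e1, el_one, hcyc]
    rfl
  set z := K.liftCycles (el x) _ rfl hc with hz
  have hL : (el x ≫ φ.f n) ≫ L.pOpcycles n = 0 := by
    obtain ⟨y, hy⟩ := hx
    have e : el x ≫ φ.f n = el y ≫ L.d (n + 1) n := by
      apply hom_ext1
      have e1 : (el x ≫ φ.f n).hom (1 : k2) = (φ.f n).hom ((el x).hom (1 : k2)) := rfl
      have e2 : (el y ≫ L.d (n + 1) n).hom (1 : k2) =
        (L.d (n + 1) n).hom ((el y).hom (1 : k2)) := rfl
      rw [e1, e2, el_one, el_one, hy]
    rw [e, Category.assoc, L.d_pOpcycles, comp_zero]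
  have h1 : (z ≫ K.homologyπ n) ≫ HomologicalComplex.homologyMap φ n = 0 := by
    rw [← cancel_mono (L.homologyι n), zero_comp, Category.assoc, Category.assoc,
      HomologicalComplex.homologyι_naturality]
    rw [← hL, ← Category.assoc (K.homologyπ n), HomologicalComplex.homology_π_ι]
    rw [Category.assoc, HomologicalComplex.p_opcyclesMap, ← Category.assoc, hz,
      HomologicalComplex.liftCycles_i, Category.assoc]
  have h2 : z ≫ K.homologyπ n = 0 := by
    have : IsIso (HomologicalComplex.homologyMap φ n) := inferInstance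
    rw [← cancel_mono (HomologicalComplex.homologyMap φ n), h1, zero_comp]
  have h3 : el x ≫ K.pOpcycles n = 0 := by
    have e : el x ≫ K.pOpcycles n = (z ≫ K.homologyπ n) ≫ K.homologyι n := by
      rw [Category.assoc, HomologicalComplex.homology_π_ι, ← Category.assoc, hz,
        HomologicalComplex.liftCycles_i]
    rw [e, h2, zero_comp]
  have h4 : (K.pOpcycles n).hom x = 0 := by
    have h := congrArg (fun f => f.hom (1 : k2)) h3
    have e1 : (el x ≫ K.pOpcycles n).hom (1 : k2) =
      (K.pOpcycles n).hom ((el x).hom (1 : k2)) := rfl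
    have h' : (el x ≫ K.pOpcycles n).hom (1 : k2) = 0 := h
    rw [e1, el_one] at h'
    exact h'
  have h5 := (ShortComplex.moduleCat_pOpcycles_eq_zero_iff (K.sc n) x).1 h4
  obtain ⟨y, hy⟩ := h5
  have hprev : (ComplexShape.down ℕ).prev n = n + 1 := by simp
  have key : ∀ (i : ℕ) (y : K.X i), i = n + 1 → (K.d i n).hom y = x →
      x ∈ LinearMap.range (K.d (n + 1) n).hom := by
    rintro i y rfl h
    exact ⟨y, h⟩
  exact key _ y hprev hy

/-- the linear algebra step -/
theorem step {K L K' : Type} [AddCommGroup K] [Module k2 K] [AddCommGroup L] [Module k2 L]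
    [AddCommGroup K'] [Module k2 K'] (i : K →ₗ[k2] L) (hi : Function.Injective i)
    (dK : K →ₗ[k2] K') (g : L →ₗ[k2] K') (hg : g ∘ₗ i = dK)
    (hr : LinearMap.range g ≤ LinearMap.range dK) (E : Submodule k2 L)
    (hE : Disjoint E (LinearMap.range i)) (hgE : ∀ e ∈ E, g e = 0) :
    ∃ r : L →ₗ[k2] K, r ∘ₗ i = LinearMap.id ∧ (∀ e ∈ E, r e = 0) ∧ dK ∘ₗ r = g := by
  -- a retraction vanishing on `E`
  obtain ⟨r0, hr0, hr0E⟩ : ∃ r0 : L →ₗ[k2] K, r0 ∘ₗ i = LinearMap.id ∧ ∀ e ∈ E, r0 e = 0 := by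
    have hinj : Function.Injective (E.mkQ ∘ₗ i) := by
      rw [← LinearMap.ker_eq_bot, LinearMap.ker_eq_bot']
      intro x hx
      have : i x ∈ E := by simpa using hx
      have h0 : i x = 0 := by
        have := (Submodule.disjoint_def.1 hE) _ this ⟨x, rfl⟩
        exact this
      exact hi (by rw [h0, map_zero])
    obtain ⟨s, hs⟩ := LinearMap.exists_leftInverse_of_injective (E.mkQ ∘ₗ i)
      (LinearMap.ker_eq_bot.2 hinj)
    refine ⟨s ∘ₗ E.mkQ, by rw [LinearMap.comp_assoc, hs], ?_⟩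
    intro e he
    have : E.mkQ e = 0 := by simpa using he
    simp only [LinearMap.comp_apply, this, map_zero]
  obtain ⟨s, hs⟩ := LinearMap.exists_rightInverse_of_surjective dK.rangeRestrict
    (LinearMap.range_rangeRestrict dK)
  have hmem : ∀ l, (g - dK ∘ₗ r0) l ∈ LinearMap.range dK := by
    intro l
    refine Submodule.sub_mem _ (hr ⟨l, rfl⟩) ⟨r0 l, rfl⟩
  let e : L →ₗ[k2] LinearMap.range dK := LinearMap.codRestrict _ (g - dK ∘ₗ r0) hmem
  have hds : ∀ y : LinearMap.range dK, dK (s y) = y := by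
    intro y
    have := LinearMap.congr_fun hs y
    exact congrArg Subtype.val this
  have ei : ∀ x, e (i x) = 0 := by
    intro x
    apply Subtype.ext
    have h1 : g (i x) = dK x := LinearMap.congr_fun hg x
    have h2 : r0 (i x) = x := LinearMap.congr_fun hr0 x
    simp [e, h1, h2]
  refine ⟨r0 + s ∘ₗ e, ?_, ?_, ?_⟩
  · apply LinearMap.ext
    intro x
    have h2 : r0 (i x) = x := LinearMap.congr_fun hr0 x
    simp [h2, ei]
  · intro x hx
    have h1 : e x = 0 := by
      apply Subtype.ext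
      simp [e, hgE x hx, hr0E x hx]
    simp [hr0E x hx, h1]
  · apply LinearMap.ext
    intro x
    have : dK (s (e x)) = g x - dK (r0 x) := by rw [hds]; rfl
    simp only [LinearMap.comp_apply, LinearMap.add_apply, map_add, this]
    abel

end SvCh

open SvCh in
/-- (SV0). -/
theorem sv_ch : SV_CH_Stmt := by
  intro K L φ hmono hq
  have hinj : ∀ n, Function.Injective (φ.f n).hom := by
    intro n
    have : Mono (φ.f n) := inferInstance
    exact (ModuleCat.mono_iff_injective _).1 this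
  have hcomm : ∀ i j (x : K.X i), (L.d i j).hom ((φ.f i).hom x) = (φ.f j).hom ((K.d i j).hom x) := by
    intro i j x
    have := congrArg (fun f => f.hom x) (φ.comm i j)
    exact this
  -- complements of the boundaries of `K` in the boundaries of `L`
  have hEx : ∀ n, ∃ E : Submodule k2 (L.X n), E ≤ LinearMap.range (L.d (n + 1) n).hom ∧
      Disjoint E (LinearMap.range (φ.f n).hom) ∧
      LinearMap.range (L.d (n + 1) n).hom ≤
        E ⊔ (LinearMap.range (K.d (n + 1) n).hom).map (φ.f n).hom := by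
    intro n
    set B := LinearMap.range (L.d (n + 1) n).hom
    set B' := (LinearMap.range (K.d (n + 1) n).hom).map (φ.f n).hom
    have hB' : B' ≤ B := by
      rintro _ ⟨_, ⟨y, rfl⟩, rfl⟩
      exact ⟨(φ.f (n + 1)).hom y, hcomm _ _ _⟩
    obtain ⟨C, hC⟩ := Submodule.exists_isCompl (B'.comap B.subtype)
    refine ⟨C.map B.subtype, ?_, ?_, ?_⟩
    · rintro _ ⟨y, _, rfl⟩
      exact y.2
    · rw [Submodule.disjoint_def]
      rintro _ ⟨y, hy, rfl⟩ ⟨x, hx⟩
      have h1 : x ∈ LinearMap.range (K.d (n + 1) n).hom := by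
        apply inj_hom φ hq hinj n x
        rw [hx]
        exact y.2
      have h2 : y ∈ B'.comap B.subtype := by
        change B.subtype y ∈ B'
        rw [← hx]
        exact ⟨x, h1, rfl⟩
      have h3 : y = 0 := (Submodule.disjoint_def.1 hC.disjoint) y h2 hy
      rw [h3, map_zero]
    · intro b hb
      have : (⟨b, hb⟩ : B) ∈ (B'.comap B.subtype) ⊔ C := by
        rw [hC.sup_eq_top]; trivial
      obtain ⟨u, hu, v, hv, huv⟩ := Submodule.mem_sup.1 this
      refine Submodule.mem_sup.2 ⟨v, ⟨v, hv, rfl⟩, u, hu, ?_⟩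
      have := congrArg Subtype.val huv
      simpa [add_comm] using this
  choose E hE1 hE2 hE3 using hEx
  let P : ℕ → Type := fun n => {r : L.X n →ₗ[k2] K.X n // r ∘ₗ (φ.f n).hom = LinearMap.id ∧
    ∀ e ∈ E n, r e = 0}
  have hP : ∀ n (r : P n), ∀ b ∈ LinearMap.range (L.d (n + 1) n).hom,
      r.1 b ∈ LinearMap.range (K.d (n + 1) n).hom := by
    intro n r b hb
    obtain ⟨u, hu, v, ⟨w, hw, rfl⟩, rfl⟩ := Submodule.mem_sup.1 (hE3 n hb)
    rw [map_add, r.2.2 u hu, zero_add]
    have : r.1 ((φ.f n).hom w) = w := LinearMap.congr_fun r.2.1 w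
    rw [this]
    exact hw
  obtain ⟨r0, -⟩ : ∃ r0 : P 0, True := by
    obtain ⟨r, h1, h2, -⟩ := step (φ.f 0).hom (hinj 0) (0 : K.X 0 →ₗ[k2] K.X 0) 0
      (by simp) (by simp) (E 0) (hE2 0) (by simp)
    exact ⟨⟨r, h1, h2⟩, trivial⟩
  have hstep : ∀ n (r : P n), ∃ r' : P (n + 1),
      (K.d (n + 1) n).hom ∘ₗ r'.1 = r.1 ∘ₗ (L.d (n + 1) n).hom := by
    intro n r
    obtain ⟨r', h1, h2, h3⟩ := step (φ.f (n + 1)).hom (hinj (n + 1)) (K.d (n + 1) n).hom
      (r.1 ∘ₗ (L.d (n + 1) n).hom)
      (by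
        apply LinearMap.ext
        intro x
        have e1 : (L.d (n + 1) n).hom ((φ.f (n + 1)).hom x) =
          (φ.f n).hom ((K.d (n + 1) n).hom x) := hcomm _ _ _
        have e2 : r.1 ((φ.f n).hom ((K.d (n + 1) n).hom x)) = (K.d (n + 1) n).hom x :=
          LinearMap.congr_fun r.2.1 _
        simp only [LinearMap.comp_apply, e1, e2])
      (by
        rintro _ ⟨l, rfl⟩
        exact hP n r _ ⟨l, rfl⟩)
      (E (n + 1)) (hE2 (n + 1))
      (by
        intro e he
        obtain ⟨y, hy⟩ := hE1 (n + 1) he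
        have : (L.d (n + 1) n).hom e = 0 := by
          rw [← hy]
          have := congrArg (fun f => f.hom y) (L.d_comp_d (n + 1 + 1) (n + 1) n)
          exact this
        simp only [LinearMap.comp_apply, this, map_zero])
    exact ⟨⟨r', h1, h2⟩, h3⟩
  choose nxt hnxt using hstep
  let R : ∀ n, P n := fun n => Nat.rec r0 (fun n r => nxt n r) n
  have hR : ∀ n, (K.d (n + 1) n).hom ∘ₗ (R (n + 1)).1 = (R n).1 ∘ₗ (L.d (n + 1) n).hom :=
    fun n => hnxt n (R n)
  refine ⟨{ f := fun n => ModuleCat.ofHom (R n).1, comm' := ?_ }, ?_⟩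
  · rintro i j (rfl : j + 1 = i)
    apply ModuleCat.hom_ext
    exact hR j
  · ext n x
    exact LinearMap.congr_fun (R n).2.1 x

end Pool.Agent.SH
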