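import Mathlib
import Pool.Agent.SH.StmtsSV

/-!
# MP_2d0b73_an: extension of maps to simplicial vector spaces over `F_2`
-/

open CategoryTheory MonoidalCategory Simplicial SSet HomotopicalAlgebra Opposite Limits

namespace Pool.Agent.SH.SvExt

/-- The free simplicial module on a simplicial set. -/
noncomputable abbrev FS : SSet.{0} ⥤ SimplicialObject (ModuleCat.{0} (ZMod 2)) :=
  (sigmaConst ⋙ SimplicialObject.whiskering (Type) (ModuleCat.{0} (ZMod 2))).obj F2

noncomputable abbrev gen {A : SSet.{0}} {m : SimplexCategoryᵒᵖ} (x : A.obj m) :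
    F2 ⟶ (FS.obj A).obj m :=
  Sigma.ι (fun _ : A.obj m => F2) x

theorem gen_map {A : SSet.{0}} {m n : SimplexCategoryᵒᵖ} (a : m ⟶ n) (x : A.obj m) :
    gen x ≫ (FS.obj A).map a = gen (A.map a x) := by
  have h := Sigma.ι_comp_map' (f := fun _ : A.obj m => F2) (g := fun _ : A.obj n => F2)
    (fun y => A.map a y) (fun _ => 𝟙 F2) x
  rw [Category.id_comp] at h
  exact h

theorem gen_app {A B : SSet.{0}} (i : A ⟶ B) (m : SimplexCategoryᵒᵖ) (x : A.obj m) :
    gen x ≫ (FS.map i).app m = gen (i.app m x) := by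
  have h := Sigma.ι_comp_map' (f := fun _ : A.obj m => F2) (g := fun _ : B.obj m => F2)
    (fun y => i.app m y) (fun _ => 𝟙 F2) x
  rw [Category.id_comp] at h
  exact h

/-- The linear map from the coefficients with prescribed value at `1`. -/
noncomputable def toM (M : ModuleCat.{0} (ZMod 2)) (y : M) : F2 ⟶ M :=
  ModuleCat.ofHom (LinearMap.toSpanSingleton (ZMod 2) M y)

theorem toM_one (M : ModuleCat.{0} (ZMod 2)) (y : M) :
    (toM M y) (1 : ZMod 2) = y := by
  change (LinearMap.toSpanSingleton (ZMod 2) M y) 1 = y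
  simp

theorem hom_ext_one {M : ModuleCat.{0} (ZMod 2)} (f g : F2 ⟶ M)
    (h : f (1 : ZMod 2) = g (1 : ZMod 2)) : f = g := by
  apply ModuleCat.hom_ext
  apply LinearMap.ext_ring
  exact h

/-- Linear extension on one level. -/
noncomputable def linM {A : SSet.{0}} {m : SimplexCategoryᵒᵖ} (N : ModuleCat.{0} (ZMod 2))
    (g : A.obj m → N) : (FS.obj A).obj m ⟶ N :=
  Sigma.desc (fun x : A.obj m => toM N (g x))

theorem gen_linM {A : SSet.{0}} {m : SimplexCategoryᵒᵖ} (N : ModuleCat.{0} (ZMod 2))
    (g : A.obj m → N) (x : A.obj m) : gen x ≫ linM N g = toM N (g x) :=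
  Sigma.ι_desc _ _

theorem FS_hom_ext {A : SSet.{0}} {m : SimplexCategoryᵒᵖ} {N : ModuleCat.{0} (ZMod 2)}
    (f g : (FS.obj A).obj m ⟶ N) (h : ∀ x : A.obj m, gen x ≫ f = gen x ≫ g) : f = g :=
  Sigma.hom_ext _ _ h

/-- The linear extension of a map to a simplicial module. -/
noncomputable def lin (M : SimplicialObject (ModuleCat.{0} (ZMod 2))) {A : SSet.{0}}
    (u : A ⟶ toSS M) : FS.obj A ⟶ M where
  app m := linM (M.obj m) (fun x => u.app m x)
  naturality := by
    intro m n a
    apply FS_hom_ext
    intro x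
    rw [← Category.assoc, gen_map a x, gen_linM, ← Category.assoc, gen_linM]
    apply hom_ext_one
    rw [toM_one]
    have h2 : (toM (M.obj m) (u.app m x) ≫ M.map a) (1 : ZMod 2) =
        M.map a ((toM (M.obj m) (u.app m x)) (1 : ZMod 2)) := rfl
    rw [h2, toM_one]
    exact ConcreteCategory.congr_hom (u.naturality a) x

theorem gen_lin (M : SimplicialObject (ModuleCat.{0} (ZMod 2))) {A : SSet.{0}}
    (u : A ⟶ toSS M) (m : SimplexCategoryᵒᵖ) (x : A.obj m) :
    gen x ≫ (lin M u).app m = toM (M.obj m) (u.app m x) :=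
  gen_linM (M.obj m) (fun x => u.app m x) x

/-- The map of simplicial sets belonging to a map from the free simplicial module. -/
noncomputable def unlin (M : SimplicialObject (ModuleCat.{0} (ZMod 2))) {A : SSet.{0}}
    (w : FS.obj A ⟶ M) : A ⟶ toSS M where
  app m := ↾ (fun x : A.obj m => (((gen x ≫ w.app m) (1 : ZMod 2) : M.obj m)))
  naturality := by
    intro m n a
    apply ConcreteCategory.hom_ext
    intro x
    change ((gen (A.map a x) ≫ w.app n) (1 : ZMod 2) : M.obj n) =
      M.map a ((gen x ≫ w.app m) (1 : ZMod 2))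
    rw [← gen_map, Category.assoc, w.naturality]
    rfl

theorem mono_FS {A B : SSet.{0}} (i : A ⟶ B) [Mono i] : Mono (FS.map i) := by
  have hi : ∀ m, Mono (i.app m) := (NatTrans.mono_iff_mono_app i).1 inferInstance
  have h : ∀ m, Mono ((FS.map i).app m) := by
    intro m
    have := hi m
    change Mono ((sigmaConst.obj F2).map (i.app m))
    infer_instance
  exact NatTrans.mono_of_mono_app _

theorem quasi_N {A B : SSet.{0}} (i : A ⟶ B) (hi : F2Iso i) :
    QuasiIso ((AlgebraicTopology.normalizedMooreComplex (ModuleCat.{0} (ZMod 2))).map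
      (FS.map i)) := by
  have h1 : QuasiIso (chainComplexMap i F2) := by
    rw [quasiIso_iff]
    intro n
    rw [quasiIsoAt_iff_isIso_homologyMap]
    exact hi n
  have h2 : QuasiIso ((AlgebraicTopology.alternatingFaceMapComplex
      (ModuleCat.{0} (ZMod 2))).map (FS.map i)) := h1
  have h3 : ∀ Y : SimplicialObject (ModuleCat.{0} (ZMod 2)),
      QuasiIso ((AlgebraicTopology.inclusionOfMooreComplex (ModuleCat.{0} (ZMod 2))).app Y) :=
    fun Y => HomotopyEquiv.quasiIso_hom
      (AlgebraicTopology.DoldKan.homotopyEquivNormalizedMooreComplexAlternatingFaceMapComplex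
        (Y := Y))
  have h4 := h3 (FS.obj A)
  have h5 := h3 (FS.obj B)
  have h6 := (AlgebraicTopology.inclusionOfMooreComplex (ModuleCat.{0} (ZMod 2))).naturality
    (FS.map i)
  have h7 : QuasiIso ((AlgebraicTopology.normalizedMooreComplex
      (ModuleCat.{0} (ZMod 2))).map (FS.map i) ≫
      (AlgebraicTopology.inclusionOfMooreComplex (ModuleCat.{0} (ZMod 2))).app (FS.obj B)) := by
    rw [h6]
    infer_instance
  exact quasiIso_of_comp_right _
    ((AlgebraicTopology.inclusionOfMooreComplex (ModuleCat.{0} (ZMod 2))).app (FS.obj B))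

end Pool.Agent.SH.SvExt

namespace Pool.Agent.SH

theorem sv_ext (h : SV_CH_Stmt) : SV_EXT_Stmt := by
  intro M A B i hi hF u
  have h1 := SvExt.quasi_N i hF
  have h2 := SvExt.mono_FS i
  let E := Abelian.DoldKan.equivalence (A := ModuleCat.{0} (ZMod 2))
  have h3 : Mono (E.functor.map (SvExt.FS.map i)) := inferInstance
  obtain ⟨r, hr⟩ := h _ _ (E.functor.map (SvExt.FS.map i)) h3 h1
  obtain ⟨ρ, hρ⟩ := E.functor.map_surjective r
  have h4 : SvExt.FS.map i ≫ ρ = 𝟙 _ := by
    apply E.functor.map_injective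
    rw [CategoryTheory.Functor.map_comp, hρ, hr, CategoryTheory.Functor.map_id]
  refine ⟨SvExt.unlin M (ρ ≫ SvExt.lin M u), ?_⟩
  ext m x
  change ((SvExt.gen (i.app m x) ≫ (ρ ≫ SvExt.lin M u).app m) (1 : ZMod 2) : M.obj m) =
    u.app m x
  rw [← SvExt.gen_app]
  have h5 : (SvExt.gen x ≫ (SvExt.FS.map i).app m) ≫ (ρ ≫ SvExt.lin M u).app m =
      SvExt.toM (M.obj m) (u.app m x) := by
    rw [Category.assoc, ← NatTrans.comp_app, ← Category.assoc (SvExt.FS.map i), h4,
      Category.id_comp, SvExt.gen_lin]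
  rw [h5, SvExt.toM_one]

theorem sv_ext' (h : SV_EXT_Stmt) : SV_EXT'_Stmt := by
  intro V hV1 hV2 hV A B i hi hF u
  let M : SimplicialObject (ModuleCat.{0} (ZMod 2)) :=
    { obj := fun n => ModuleCat.of (ZMod 2) (V.obj n)
      map := fun {m n} a => ModuleCat.ofHom (AddMonoidHom.toZModLinearMap 2
        (AddMonoidHom.mk' (fun x : V.obj m => V.map a x) (fun x y => hV m n a x y)))
      map_id := by
        intro m
        apply ModuleCat.hom_ext
        apply LinearMap.ext
        intro x
        change V.map (𝟙 m) x = x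
        simp
      map_comp := by
        intro l m n a b
        apply ModuleCat.hom_ext
        apply LinearMap.ext
        intro x
        change V.map (a ≫ b) x = V.map b (V.map a x)
        simp }
  let u' : A ⟶ toSS M :=
    { app := fun m => ↾ (fun x : A.obj m => (u.app m x : V.obj m))
      naturality := by
        intro m n a
        apply ConcreteCategory.hom_ext
        intro x
        exact ConcreteCategory.congr_hom (u.naturality a) x }
  obtain ⟨v', hv'⟩ := h M A B i hi hF u'
  refine ⟨{ app := fun m => ↾ (fun y : B.obj m => (v'.app m y : V.obj m))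
            naturality := ?_ }, ?_⟩
  · intro m n a
    apply ConcreteCategory.hom_ext
    intro x
    exact ConcreteCategory.congr_hom (v'.naturality a) x
  · ext m x
    exact ConcreteCategory.congr_hom (congrArg (fun f => NatTrans.app f m) hv') x

end Pool.Agent.SH
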