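import Mathlib
import Pool.Agent.SH.StmtsTE

/-!
# MP_2d0b73_an, block TE: formal properties of `W T`
-/

open CategoryTheory MonoidalCategory Simplicial SSet HomotopicalAlgebra Opposite Limits
open SSet.modelCategoryQuillen

namespace Pool.Agent.SH

namespace Te23

/-! ## Formal part -/

theorem whisker_inv {X Y : SSet.{0}} (f : X ⟶ Y) [IsIso f] (K : SSet.{0}) :
    f ▷ K ≫ inv f ▷ K = 𝟙 _ := by
  rw [← MonoidalCategory.comp_whiskerRight, IsIso.hom_inv_id, MonoidalCategory.id_whiskerRight]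

theorem inv_whisker {X Y : SSet.{0}} (f : X ⟶ Y) [IsIso f] (K : SSet.{0}) :
    inv f ▷ K ≫ f ▷ K = 𝟙 _ := by
  rw [← MonoidalCategory.comp_whiskerRight, IsIso.inv_hom_id, MonoidalCategory.id_whiskerRight]

section Formal

variable {T : SSet.{0}}

theorem w_iso {X Y : SSet.{0}} (f : X ⟶ Y) (hf : IsIso f) : W T f := by
  constructor
  · intro K a
    refine ⟨inv f ▷ K ≫ a, ?_⟩
    rw [← Category.assoc, whisker_inv, Category.id_comp]
    exact Hty.refl a
  · intro K b b' h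
    have h2 := h.pre (inv f ▷ K)
    rwa [← Category.assoc, ← Category.assoc, inv_whisker, Category.id_comp,
      Category.id_comp] at h2

theorem w_cancelL {X Y Z : SSet.{0}} (f : X ⟶ Y) (g : Y ⟶ Z) (hf : W T f)
    (hfg : W T (f ≫ g)) : W T g := by
  constructor
  · intro K a
    obtain ⟨b, hb⟩ := hfg.1 K (f ▷ K ≫ a)
    refine ⟨b, hf.2 K _ _ ?_⟩
    rwa [MonoidalCategory.comp_whiskerRight, Category.assoc] at hb
  · intro K b b' h
    apply hfg.2 K
    rw [MonoidalCategory.comp_whiskerRight, Category.assoc, Category.assoc]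
    exact h.pre _

theorem w_six {X Y Z U : SSet.{0}} (f : X ⟶ Y) (g : Y ⟶ Z) (h : Z ⟶ U)
    (hfg : W T (f ≫ g)) (hgh : W T (g ≫ h)) : W T g := by
  constructor
  · intro K a
    obtain ⟨b, hb⟩ := hgh.1 K a
    refine ⟨h ▷ K ≫ b, ?_⟩
    rwa [MonoidalCategory.comp_whiskerRight, Category.assoc] at hb
  · intro K b b' hb
    apply hfg.2 K
    rw [MonoidalCategory.comp_whiskerRight, Category.assoc, Category.assoc]
    exact hb.pre _

variable (hE : ∀ A : SSet.{0}, Equivalence (Hty (A := A) (T := T)))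
include hE

theorem w_comp {X Y Z : SSet.{0}} (f : X ⟶ Y) (g : Y ⟶ Z) (hf : W T f) (hg : W T g) :
    W T (f ≫ g) := by
  constructor
  · intro K a
    obtain ⟨b, hb⟩ := hf.1 K a
    obtain ⟨c, hc⟩ := hg.1 K b
    refine ⟨c, ?_⟩
    rw [MonoidalCategory.comp_whiskerRight, Category.assoc]
    exact (hE _).trans (hc.pre (f ▷ K)) hb
  · intro K b b' h
    rw [MonoidalCategory.comp_whiskerRight, Category.assoc, Category.assoc] at h
    exact hg.2 K _ _ (hf.2 K _ _ h)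

theorem w_cancelR {X Y Z : SSet.{0}} (f : X ⟶ Y) (g : Y ⟶ Z) (hg : W T g)
    (hfg : W T (f ≫ g)) : W T f := by
  constructor
  · intro K a
    obtain ⟨b, hb⟩ := hfg.1 K a
    refine ⟨g ▷ K ≫ b, ?_⟩
    rwa [MonoidalCategory.comp_whiskerRight, Category.assoc] at hb
  · intro K b b' h
    obtain ⟨c, hc⟩ := hg.1 K b
    obtain ⟨c', hc'⟩ := hg.1 K b'
    have h1 : Hty ((f ≫ g) ▷ K ≫ c) ((f ≫ g) ▷ K ≫ c') := by
      rw [MonoidalCategory.comp_whiskerRight, Category.assoc, Category.assoc]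
      exact (hE _).trans (hc.pre _) ((hE _).trans h ((hE _).symm (hc'.pre _)))
    have h2 : Hty c c' := hfg.2 K _ _ h1
    exact (hE _).trans ((hE _).symm hc) ((hE _).trans (h2.pre (g ▷ K)) hc')

end Formal

/-! ## Products of homotopies -/

/-- Interchange of the last two factors. -/
noncomputable def swp (X K L : SSet.{0}) : (X ⊗ K) ⊗ L ⟶ (X ⊗ L) ⊗ K :=
  (α_ X K L).hom ≫ X ◁ (β_ K L).hom ≫ (α_ X L K).inv

theorem ι₀_swp (X K : SSet.{0}) : (ι₀ : X ⊗ K ⟶ (X ⊗ K) ⊗ Δ[1]) ≫ swp X K Δ[1] = ι₀ ▷ K := rfl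

theorem ι₁_swp (X K : SSet.{0}) : (ι₁ : X ⊗ K ⟶ (X ⊗ K) ⊗ Δ[1]) ≫ swp X K Δ[1] = ι₁ ▷ K := rfl

theorem hty_whisker {X Y : SSet.{0}} {f g : X ⟶ Y} (h : Hty f g) (K : SSet.{0}) :
    Hty (f ▷ K) (g ▷ K) := by
  obtain ⟨H, h0, h1⟩ := (Hty_iff f g).1 h
  refine (Hty_iff _ _).2 ⟨swp X K Δ[1] ≫ H ▷ K, ?_, ?_⟩
  · rw [← Category.assoc, ι₀_swp, ← MonoidalCategory.comp_whiskerRight, h0]
  · rw [← Category.assoc, ι₁_swp, ← MonoidalCategory.comp_whiskerRight, h1]

/-! ## The contraction of a simplex -/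

/-- The monotone map `0 ↦ 0`, `1 ↦ last`. -/
def cc (n : ℕ) : Fin 2 →o Fin (n + 1) where
  toFun := ![0, Fin.last n]
  monotone' := by
    intro a b hab
    fin_cases a <;> fin_cases b <;> simp_all

/-- The homotopy `Δ[n] ⊗ Δ[1] ⟶ Δ[n]` from the identity to the last vertex. -/
noncomputable def ctr (n : ℕ) : (Δ[n] : SSet.{0}) ⊗ Δ[1] ⟶ Δ[n] where
  app m := TypeCat.ofHom (fun x => stdSimplex.objMk (stdSimplex.asOrderHom x.1 ⊔
    (cc n).comp (stdSimplex.asOrderHom x.2)))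
  naturality := by
    intro a b f
    rfl

theorem ι₀_ctr (n : ℕ) : (ι₀ : (Δ[n] : SSet.{0}) ⟶ _) ≫ ctr n = 𝟙 _ := by
  ext m x
  induction m using Opposite.rec with
  | op m =>
  induction m using SimplexCategory.rec with
  | _ m =>
  apply SSet.stdSimplex.ext
  intro i
  change stdSimplex.asOrderHom x i ⊔ (0 : Fin (n + 1)) = stdSimplex.asOrderHom x i
  exact sup_eq_left.2 (Fin.zero_le _)

theorem ι₁_ctr (n : ℕ) : (ι₁ : (Δ[n] : SSet.{0}) ⟶ _) ≫ ctr n =
    SSet.const (stdSimplex.obj₀Equiv.{0}.symm (Fin.last n)) := by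
  ext m x
  induction m using Opposite.rec with
  | op m =>
  induction m using SimplexCategory.rec with
  | _ m =>
  apply SSet.stdSimplex.ext
  intro i
  change stdSimplex.asOrderHom x i ⊔ Fin.last n = Fin.last n
  exact sup_eq_right.2 (Fin.le_last _)

/-- The inclusion at the last vertex. -/
noncomputable def lst (X : SSet.{0}) (n : ℕ) : X ⟶ X ⊗ Δ[n] :=
  CartesianMonoidalCategory.lift (𝟙 X) (SSet.const (stdSimplex.obj₀Equiv.{0}.symm (Fin.last n)))

theorem lst_fst (X : SSet.{0}) (n : ℕ) :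
    lst X n ≫ CartesianMonoidalCategory.fst X (Δ[n] : SSet.{0}) = 𝟙 X := rfl

theorem hty_ctr (X : SSet.{0}) (n : ℕ) :
    Hty (𝟙 (X ⊗ (Δ[n] : SSet.{0}))) (CartesianMonoidalCategory.fst X (Δ[n] : SSet.{0}) ≫
      lst X n) := by
  refine (Hty_iff _ _).2 ⟨(α_ X Δ[n] Δ[1]).hom ≫ X ◁ ctr n, ?_, ?_⟩
  · have h1 : (ι₀ : X ⊗ (Δ[n] : SSet.{0}) ⟶ _) ≫ (α_ X Δ[n] Δ[1]).hom = X ◁ ι₀ := rfl
    rw [← Category.assoc, h1, ← MonoidalCategory.whiskerLeft_comp, ι₀_ctr,
      MonoidalCategory.whiskerLeft_id]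
  · have h1 : (ι₁ : X ⊗ (Δ[n] : SSet.{0}) ⟶ _) ≫ (α_ X Δ[n] Δ[1]).hom = X ◁ ι₁ := rfl
    rw [← Category.assoc, h1, ← MonoidalCategory.whiskerLeft_comp, ι₁_ctr]
    rfl

theorem w_proj {T : SSet.{0}} (hE : ∀ A : SSet.{0}, Equivalence (Hty (A := A) (T := T)))
    (X : SSet.{0}) (n : ℕ) : W T (CartesianMonoidalCategory.fst X (Δ[n] : SSet.{0})) := by
  constructor
  · intro K a
    refine ⟨lst X n ▷ K ≫ a, ?_⟩
    rw [← Category.assoc, ← MonoidalCategory.comp_whiskerRight]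
    have h1 := (hty_whisker (hty_ctr X n) K).post a
    rw [MonoidalCategory.id_whiskerRight, Category.id_comp] at h1
    exact (hE _).symm h1
  · intro K b b' h
    have h1 := h.pre (lst X n ▷ K)
    rwa [← Category.assoc, ← Category.assoc, ← MonoidalCategory.comp_whiskerRight, lst_fst,
      MonoidalCategory.id_whiskerRight, Category.id_comp, Category.id_comp] at h1

/-! ## Coproducts -/

section Sigma

variable {J : Type} (X : J → SSet.{0}) (K : SSet.{0})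

/-- The tensor product preserves coproducts. -/
noncomputable def isC : IsColimit ((tensorRight K).mapCocone
    (colimit.cocone (Discrete.functor X))) :=
  isColimitOfPreserves (tensorRight K) (colimit.isColimit (Discrete.functor X))

theorem sig_ext {Z : SSet.{0}} {u v : (∐ X) ⊗ K ⟶ Z}
    (h : ∀ j, Limits.Sigma.ι X j ▷ K ≫ u = Limits.Sigma.ι X j ▷ K ≫ v) : u = v :=
  (isC X K).hom_ext (fun j => h j.as)

theorem sig_desc {Z : SSet.{0}} (a : ∀ j, X j ⊗ K ⟶ Z) :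
    ∃ u : (∐ X) ⊗ K ⟶ Z, ∀ j, Limits.Sigma.ι X j ▷ K ≫ u = a j := by
  refine ⟨(isC X K).desc ⟨Z, { app := fun j => a j.as, naturality := ?_ }⟩, ?_⟩
  · rintro ⟨i⟩ ⟨j⟩ ⟨⟨h⟩⟩
    obtain rfl : i = j := h
    simp
  · intro j
    exact (isC X K).fac _ ⟨j⟩

end Sigma

theorem hty_sigma {J : Type} {X : J → SSet.{0}} {K T : SSet.{0}} {u v : (∐ X) ⊗ K ⟶ T}
    (h : ∀ j, Hty (Limits.Sigma.ι X j ▷ K ≫ u) (Limits.Sigma.ι X j ▷ K ≫ v)) : Hty u v := by
  choose H h0 h1 using fun j => (Hty_iff _ _).1 (h j)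
  obtain ⟨G, hG⟩ := sig_desc X (K ⊗ Δ[1]) (fun j => (α_ (X j) K Δ[1]).inv ≫ H j)
  have key : ∀ j, (Limits.Sigma.ι X j ▷ K) ▷ Δ[1] ≫ (α_ (∐ X) K Δ[1]).hom ≫ G = H j := by
    intro j
    rw [MonoidalCategory.associator_naturality_left_assoc, hG, Iso.hom_inv_id_assoc]
  refine (Hty_iff _ _).2 ⟨(α_ (∐ X) K Δ[1]).hom ≫ G, ?_, ?_⟩
  · apply sig_ext
    intro j
    rw [← h0 j, ← key j, ι₀_comp_assoc]
  · apply sig_ext
    intro j
    rw [← h1 j, ← key j, ι₁_comp_assoc]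

theorem w_sigma {T : SSet.{0}} {J : Type} {X Y : J → SSet.{0}} (f : ∀ j, X j ⟶ Y j)
    (hf : ∀ j, W T (f j)) : W T (Limits.Sigma.map f) := by
  have key : ∀ (j : J) (K : SSet.{0}), Limits.Sigma.ι X j ▷ K ≫ Limits.Sigma.map f ▷ K =
      f j ▷ K ≫ Limits.Sigma.ι Y j ▷ K := by
    intro j K
    rw [← MonoidalCategory.comp_whiskerRight, ← MonoidalCategory.comp_whiskerRight,
      Limits.Sigma.ι_map]
  constructor
  · intro K a
    choose b hb using fun j => (hf j).1 K (Limits.Sigma.ι X j ▷ K ≫ a)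
    obtain ⟨c, hc⟩ := sig_desc Y K b
    refine ⟨c, hty_sigma fun j => ?_⟩
    rw [← Category.assoc, key, Category.assoc, hc]
    exact hb j
  · intro K b b' h
    refine hty_sigma fun j => (hf j).2 K _ _ ?_
    have h1 := h.pre (Limits.Sigma.ι X j ▷ K)
    rwa [← Category.assoc, ← Category.assoc, key, Category.assoc, Category.assoc] at h1

end Te23

theorem te_23 (h1 : TE_HTY_Stmt) : TE_23_Stmt := by
  intro T hT
  have hE : ∀ A : SSet.{0}, Equivalence (Hty (A := A) (T := T)) := fun A => h1 A T hT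
  exact ⟨fun X Y f hf => Te23.w_iso f hf,
    fun X Y Z f g hf hg => Te23.w_comp hE f g hf hg,
    fun X Y Z f g hf hfg => Te23.w_cancelL f g hf hfg,
    fun X Y Z f g hg hfg => Te23.w_cancelR hE f g hg hfg,
    fun X Y Z U f g h hfg hgh => Te23.w_six f g h hfg hgh,
    fun X n => Te23.w_proj hE X n,
    fun J X Y f hf => Te23.w_sigma f hf⟩

end Pool.Agent.SH
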