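import Mathlib
import Pool.Agent.SH.StmtsTE
import Pool.Agent.SH.DefsT

/-!
# MP_2d0b73_an, block TE: acyclic simplicial sets, bridge to `TAcyclic`
-/

open CategoryTheory MonoidalCategory Simplicial SSet HomotopicalAlgebra Opposite Limits

namespace Pool.Agent.SH

namespace TeAcy

theorem lt_iff {T A B : SSet.{0}} (i : A ⟶ B) : LT T i ↔ Mono i ∧ REXTB T i := Iff.rfl

theorem rextb_of_rext {T A B : SSet.{0}} {i : A ⟶ B} (h : REXT T i) : REXTB T i := by
  intro n u v huv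
  exact h _ _ _ u v huv

instance mono_vert {X : SSet.{0}} (x : X _⦋0⦌) : Mono (vert x) :=
  stdSimplex.isTerminalObj₀.mono_from _

end TeAcy

/-- For a Kan complex `T` and a monomorphism `i`: `LT T i` iff `W T i`. -/
theorem lt_iff_w (hB : TE_BDRY_Stmt) (hE : TE_KEYE_Stmt) (hK : TE_KEY_Stmt)
    (T : SSet.{0}) (hT : SSet.KanComplex T) {A B : SSet.{0}} (i : A ⟶ B) :
    LT T i ↔ Mono i ∧ W T i := by
  constructor
  · rintro ⟨h1, h2⟩
    exact ⟨h1, hE T hT A B i (hB T A B i h2)⟩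
  · rintro ⟨h1, h2⟩
    exact ⟨h1, TeAcy.rextb_of_rext (hK T hT A B i h1 h2)⟩

/-- `X` is acyclic for `T` iff `X ⟶ pt` is a `T`-equivalence (and `X` is nonempty). -/
theorem tacyclic_iff (hB : TE_BDRY_Stmt) (hE : TE_KEYE_Stmt) (hK : TE_KEY_Stmt)
    (h23 : TE_23_Stmt) (T : SSet.{0}) (hT : SSet.KanComplex T) (X : SSet.{0}) :
    TAcyclic T X ↔ Nonempty (X _⦋0⦌) ∧ W T (CartesianMonoidalCategory.toUnit X) := by
  obtain ⟨h1, h2, h3, h4, -⟩ := h23 T hT
  have iso0 : IsIso (CartesianMonoidalCategory.toUnit (Δ[0] : SSet.{0})) :=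
    isIso_of_isTerminal stdSimplex.isTerminalObj₀
      SemiCartesianMonoidalCategory.isTerminalTensorUnit _
  have key : ∀ x : X _⦋0⦌, W T (vert x) ↔ W T (CartesianMonoidalCategory.toUnit X) := by
    intro x
    have e : vert x ≫ CartesianMonoidalCategory.toUnit X =
      CartesianMonoidalCategory.toUnit (Δ[0] : SSet.{0}) := CartesianMonoidalCategory.toUnit_unique _ _
    have e' : W T (vert x ≫ CartesianMonoidalCategory.toUnit X) := by
      rw [e]; exact h1 _ _ _ iso0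
    exact ⟨fun h => h3 _ _ _ _ _ h e', fun h => h4 _ _ _ _ _ h e'⟩
  constructor
  · rintro ⟨x, hx⟩
    exact ⟨⟨x⟩, (key x).1 ((lt_iff_w hB hE hK T hT _).1 hx).2⟩
  · rintro ⟨⟨x⟩, hx⟩
    exact ⟨x, (lt_iff_w hB hE hK T hT _).2 ⟨inferInstance, (key x).2 hx⟩⟩

end Pool.Agent.SH
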