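import Mathlib
import Pool.Agent.SH.StmtsTE

/-!
# MP_2d0b73_an, block TE: boundary inclusions suffice
-/

open CategoryTheory MonoidalCategory Simplicial SSet HomotopicalAlgebra Opposite Limits
open SSet.modelCategoryQuillen

namespace Pool.Agent.SH

namespace TeBdry

/-- Right lifting property of the restriction map `T^Y ⟶ T^X` for the boundary inclusions. -/
theorem rlp_I {T X Y : SSet.{0}} (i : X ⟶ Y) (h : REXTB T i) :
    I.rlp ((MonoidalClosed.pre i).app T) := by
  intro A B j hj
  obtain ⟨n⟩ := hj
  constructor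
  intro f g sq
  obtain ⟨w, hw1, hw2⟩ := h n (MonoidalClosed.uncurry f) (MonoidalClosed.uncurry g) (by
    rw [← MonoidalClosed.uncurry_natural_left, ← sq.w, MonoidalClosed.uncurry_pre_app])
  refine ⟨⟨MonoidalClosed.curry w, ?_, ?_⟩⟩
  · rw [← MonoidalClosed.curry_natural_left, hw1, MonoidalClosed.curry_uncurry]
  · rw [MonoidalClosed.curry_pre_app, hw2, MonoidalClosed.curry_uncurry]

end TeBdry

open TeBdry in
theorem te_bdry : TE_BDRY_Stmt := by
  intro T X Y i h K L j _ u v huv
  have h1 : (MorphismProperty.monomorphisms SSet.{0}).rlp ((MonoidalClosed.pre i).app T) := by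
    rw [SSet.rlp_monomorphisms]
    exact rlp_I i h
  have h2 : HasLiftingProperty j ((MonoidalClosed.pre i).app T) := h1 j (by
    rw [MorphismProperty.monomorphisms.iff]
    infer_instance)
  have sq : CommSq (MonoidalClosed.curry u) j ((MonoidalClosed.pre i).app T)
      (MonoidalClosed.curry v) := ⟨by
    rw [MonoidalClosed.curry_pre_app, ← MonoidalClosed.curry_natural_left, huv]⟩
  refine ⟨MonoidalClosed.uncurry sq.lift, ?_, ?_⟩
  · rw [← MonoidalClosed.uncurry_natural_left, sq.fac_left, MonoidalClosed.uncurry_curry]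
  · rw [← MonoidalClosed.uncurry_pre_app, sq.fac_right, MonoidalClosed.uncurry_curry]

end Pool.Agent.SH
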