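import Mathlib
import Pool.Agent.SH.StmtsTE

/-!
# MP_2d0b73_an, block TE: `F_2`-homology isomorphisms are `T`-equivalences (F2)
-/

open CategoryTheory MonoidalCategory Simplicial SSet HomotopicalAlgebra Opposite Limits
open SSet.modelCategoryQuillen

namespace Pool.Agent.SH

namespace TeF2

/-- The free end of the mapping cylinder is a monomorphism. -/
theorem mono_cyl {X Y M : SSet.{0}} {f : X ⟶ Y} {a : X ⊗ Δ[1] ⟶ M} {s : Y ⟶ M}
    (h : IsPushout (ι₁ : X ⟶ X ⊗ Δ[1]) f a s) : Mono (ι₀ ≫ a) := by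
  classical
  rw [NatTrans.mono_iff_mono_app]
  intro n
  have hn := h.map ((evaluation _ _).obj n)
  let p : (X ⊗ Δ[1] : SSet.{0}).obj n ⟶ Option (X.obj n) :=
    ↾fun z => if z = (ι₁ : X ⟶ X ⊗ Δ[1]).app n z.1 then none else some z.1
  let q : Y.obj n ⟶ Option (X.obj n) := ↾fun _ => none
  have hpq : (ι₁ : X ⟶ X ⊗ Δ[1]).app n ≫ p = f.app n ≫ q := by
    apply ConcreteCategory.hom_ext
    intro x
    change (if (ι₁ : X ⟶ X ⊗ Δ[1]).app n x = (ι₁ : X ⟶ X ⊗ Δ[1]).app n x then none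
      else some _) = none
    simp
  have e1 : a.app n ≫ hn.desc p q hpq = p := hn.inl_desc _ _ _
  rw [mono_iff_injective]
  intro x y hxy
  have h1 : ∀ x : X.obj n, hn.desc p q hpq ((ι₀ ≫ a).app n x) = some x := by
    intro x
    have h2 : hn.desc p q hpq ((ι₀ ≫ a).app n x) = p ((ι₀ : X ⟶ X ⊗ Δ[1]).app n x) :=
      ConcreteCategory.congr_hom e1 ((ι₀ : X ⟶ X ⊗ Δ[1]).app n x)
    rw [h2]
    change (if (ι₀ : X ⟶ X ⊗ Δ[1]).app n x = (ι₁ : X ⟶ X ⊗ Δ[1]).app n x then none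
      else some x) = some x
    rw [if_neg]
    intro h3
    obtain ⟨m⟩ := n
    induction m using SimplexCategory.rec with | _ m
    have h3' := congrArg Prod.snd h3
    have h4 := congrArg (fun z : (Δ[1] : SSet.{0}) _⦋m⦌ => z 0) h3'
    have h5 : (0 : Fin 2) = 1 :=
      (ι₀_app_snd_apply x 0).symm.trans (h4.trans (ι₁_app_snd_apply x 0))
    exact absurd h5 (by decide)
  have h5 := congrArg (hn.desc p q hpq) hxy
  rw [h1, h1] at h5
  exact Option.some.inj h5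

/-- Factorisation through the mapping cylinder. -/
theorem factor {X Y : SSet.{0}} (f : X ⟶ Y) :
    ∃ (M : SSet.{0}) (u : X ⟶ M) (r : M ⟶ Y), Mono u ∧ u ≫ r = f ∧
      ∀ P : MorphismProperty SSet.{0}, WClass P → P r := by
  let M : SSet.{0} := pushout (ι₁ : X ⟶ X ⊗ Δ[1]) f
  let a : X ⊗ Δ[1] ⟶ M := pushout.inl _ _
  let s : Y ⟶ M := pushout.inr _ _
  have h : IsPushout (ι₁ : X ⟶ X ⊗ Δ[1]) f a s := IsPushout.of_hasPushout _ _
  let r : M ⟶ Y := h.desc (CartesianMonoidalCategory.fst X Δ[1] ≫ f) (𝟙 Y) (by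
    rw [← Category.assoc, ι₁_fst, Category.id_comp, Category.comp_id])
  have hs : s ≫ r = 𝟙 Y := h.inr_desc _ _ _
  have ha : a ≫ r = CartesianMonoidalCategory.fst X Δ[1] ≫ f := h.inl_desc _ _ _
  refine ⟨M, ι₀ ≫ a, r, mono_cyl h, ?_, ?_⟩
  · rw [Category.assoc, ha, ← Category.assoc, ι₀_fst, Category.id_comp]
  · intro P hP
    have h1 : P (ι₁ : X ⟶ X ⊗ Δ[1]) := by
      refine hP.cancelR _ (CartesianMonoidalCategory.fst X Δ[1]) (hP.proj X 1) ?_
      rw [ι₁_fst]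
      exact hP.iso _ inferInstance
    have h2 : P s := by
      refine hP.glue (𝟙 X) f f (𝟙 Y) (ι₁ : X ⟶ X ⊗ Δ[1]) f a s (𝟙 X) ι₁ (𝟙 Y) s
        (IsPushout.of_horiz_isIso ⟨by simp⟩) h inferInstance ?_ (by simp) (by simp) h.w.symm
        (by simp) (hP.iso _ inferInstance) h1 (hP.iso _ inferInstance)
      exact mono_of_mono_fac (ι₁_fst X)
    refine hP.cancelL s r h2 ?_
    rw [hs]
    exact hP.iso _ inferInstance

section

variable {T : SSet.{0}} (h1 : F2_WC_Stmt)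
  (hT : ∀ (A B : SSet.{0}) (i : A ⟶ B), Mono i → F2Iso i → ∀ u : A ⟶ T, ∃ v : B ⟶ T, i ≫ v = u)

include h1 hT

theorem kan (h3 : WC_HORN_Stmt) : SSet.KanComplex T := by
  refine (isFibrant_iff _).2 ?_
  rw [fibration_iff]
  intro A B i hi
  simp only [J, MorphismProperty.iSup_iff] at hi
  obtain ⟨n, ⟨i⟩⟩ := hi
  refine ⟨fun {t _} _ ↦ ?_⟩
  obtain ⟨v, hv⟩ := hT _ _ Λ[n + 1, i].ι inferInstance (h3 F2Iso h1 n i) t
  exact ⟨⟨{
    l := v
    fac_left := hv
    fac_right := by subsingleton }⟩⟩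

theorem rext (h2 : WC_PP_Stmt) {X Y : SSet.{0}} (i : X ⟶ Y) [Mono i] (hi : F2Iso i) :
    REXT T i := by
  intro K L j _ u v huv
  let A := Subcomplex.range i
  let B := Subcomplex.range j
  let a : X ⟶ A := Subcomplex.toRange i
  let b : K ⟶ B := Subcomplex.toRange j
  have hai : a ≫ A.ι = i := rfl
  have hbj : b ≫ B.ι = j := rfl
  have ia : IsIso a := inferInstance
  have ib : IsIso b := inferInstance
  have hA : F2Iso A.ι := by
    refine h1.cancelL a A.ι (h1.iso _ ia) ?_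
    exact hi
  have hc : A.ι ▷ (B : SSet.{0}) ≫ Y ◁ inv b ≫ u = (A : SSet.{0}) ◁ B.ι ≫ inv a ▷ L ≫ v := by
    rw [← cancel_epi (a ▷ (B : SSet.{0})), ← cancel_epi (X ◁ b)]
    have e1 : X ◁ b ≫ a ▷ (B : SSet.{0}) ≫ A.ι ▷ (B : SSet.{0}) ≫ Y ◁ inv b ≫ u =
        i ▷ K ≫ u := by
      rw [← MonoidalCategory.comp_whiskerRight_assoc, hai, ← whisker_exchange_assoc,
        ← MonoidalCategory.whiskerLeft_comp_assoc, IsIso.hom_inv_id,
        MonoidalCategory.whiskerLeft_id, Category.id_comp]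
    have e2 : X ◁ b ≫ a ▷ (B : SSet.{0}) ≫ (A : SSet.{0}) ◁ B.ι ≫ inv a ▷ L ≫ v =
        X ◁ j ≫ v := by
      rw [← whisker_exchange_assoc, ← MonoidalCategory.comp_whiskerRight_assoc,
        IsIso.hom_inv_id, MonoidalCategory.id_whiskerRight, Category.id_comp,
        ← MonoidalCategory.whiskerLeft_comp_assoc, hbj]
    rw [e1, e2, huv]
  let w0 := (Subcomplex.unionProd.isPushout A B).desc (Y ◁ inv b ≫ u) (inv a ▷ L ≫ v) hc
  obtain ⟨w, hw⟩ := hT _ _ (A.unionProd B).ι inferInstance (h2 F2Iso h1 Y L A B hA) w0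
  have hw1 : Y ◁ B.ι ≫ w = Y ◁ inv b ≫ u := by
    rw [← Subcomplex.unionProd.ι₁_ι A B, Category.assoc, hw]
    exact (Subcomplex.unionProd.isPushout A B).inl_desc _ _ _
  have hw2 : A.ι ▷ L ≫ w = inv a ▷ L ≫ v := by
    rw [← Subcomplex.unionProd.ι₂_ι A B, Category.assoc, hw]
    exact (Subcomplex.unionProd.isPushout A B).inr_desc _ _ _
  refine ⟨w, ?_, ?_⟩
  · rw [← hbj, MonoidalCategory.whiskerLeft_comp, Category.assoc, hw1,
      ← MonoidalCategory.whiskerLeft_comp_assoc, IsIso.hom_inv_id,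
      MonoidalCategory.whiskerLeft_id, Category.id_comp]
  · rw [← hai, MonoidalCategory.comp_whiskerRight, Category.assoc, hw2,
      ← MonoidalCategory.comp_whiskerRight_assoc, IsIso.hom_inv_id,
      MonoidalCategory.id_whiskerRight, Category.id_comp]

end

end TeF2

open TeF2 in
theorem te_f2 (h1 : F2_WC_Stmt) (h2 : WC_PP_Stmt) (h3 : WC_HORN_Stmt) (h4 : TE_KEYE_Stmt)
    (h5 : TE_WT_Stmt) : TE_F2_Stmt := by
  intro T hT
  have hK : SSet.KanComplex T := kan h1 hT h3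
  refine ⟨hK, ?_⟩
  intro X Y f hf
  obtain ⟨M, u, r, hu, hur, hr⟩ := factor f
  have h6 : F2Iso u := by
    refine h1.cancelR u r (hr F2Iso h1) ?_
    rw [hur]
    exact hf
  have h7 : W T u := h4 T hK X M u (rext h1 hT h2 u h6)
  rw [← hur]
  exact (h5 T hK).comp u r h7 (hr _ (h5 T hK))

end Pool.Agent.SH
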