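import Mathlib
import Pool.Agent.SH.StmtsTE

/-!
# MP_2d0b73_an, block TE: the gluing lemma for `T`-equivalences
-/

open CategoryTheory MonoidalCategory Simplicial SSet HomotopicalAlgebra Opposite Limits
open SSet.modelCategoryQuillen

namespace Pool.Agent.SH

namespace TeGlue

/-! ### Factorization as a monomorphism followed by a trivial fibration -/

attribute [local instance] Cardinal.fact_isRegular_aleph0
  Cardinal.orderBotAleph0OrdToType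

theorem isSmall_I : MorphismProperty.IsSmall.{0} modelCategoryQuillen.I.{0} :=
  MorphismProperty.isSmall_ofHoms ..

attribute [local instance] isSmall_I

theorem isCard_I : MorphismProperty.IsCardinalForSmallObjectArgument
    modelCategoryQuillen.I.{0} Cardinal.aleph0.{0} where
  preservesColimit {A B X Y} i hi f hf := by
    have : IsFinitelyPresentable.{0} A := by
      obtain ⟨n⟩ := hi
      infer_instance
    infer_instance

theorem smallObj_I : MorphismProperty.HasSmallObjectArgument.{0} modelCategoryQuillen.I.{0} :=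
  ⟨.aleph0, inferInstance, inferInstance, isCard_I⟩

attribute [local instance] smallObj_I

theorem llp_mono :
    modelCategoryQuillen.I.{0}.rlp.llp ≤ MorphismProperty.monomorphisms SSet.{0} := by
  rw [MorphismProperty.llp_rlp_of_hasSmallObjectArgument, MorphismProperty.retracts_le_iff,
    MorphismProperty.transfiniteCompositions_le_iff, MorphismProperty.pushouts_le_iff,
    MorphismProperty.coproducts_le_iff]
  exact I_le_monomorphisms

/-- Every map is a monomorphism followed by a trivial fibration. -/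
theorem factor {U V : SSet.{0}} (u : U ⟶ V) : ∃ (M : SSet.{0}) (m : U ⟶ M) (q : M ⟶ V),
    Mono m ∧ (MorphismProperty.monomorphisms SSet.{0}).rlp q ∧ m ≫ q = u := by
  have F := MorphismProperty.factorizationData modelCategoryQuillen.I.{0}.rlp.llp
    modelCategoryQuillen.I.{0}.rlp u
  refine ⟨F.Z, F.i, F.p, llp_mono _ F.hi, ?_, F.fac⟩
  rw [rlp_monomorphisms]
  exact F.hp

/-! ### Maps over a trivial fibration are homotopic -/

theorem const_of_boundary {n : SimplexCategoryᵒᵖ} (t : (Δ[1] : SSet.{0}).obj n)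
    (ht : t ∈ (∂Δ[1] : (Δ[1] : SSet.{0}).Subcomplex).obj n) (i j : Fin (n.unop.len + 1)) :
    stdSimplex.asOrderHom t i = stdSimplex.asOrderHom t j := by
  by_contra h
  apply ht
  intro k
  have h1 : ∀ a b k : Fin 2, a ≠ b → a = k ∨ b = k := by decide
  rcases h1 _ _ k h with h2 | h2
  · exact ⟨i, h2⟩
  · exact ⟨j, h2⟩

open Classical in
/-- The map on `M ⊗ ∂Δ[1]` given by two maps. -/
noncomputable def endMap {M Y : SSet.{0}} (f g : M ⟶ Y) : M ⊗ (∂Δ[1] : SSet.{0}) ⟶ Y where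
  app n := ↾fun x => if stdSimplex.asOrderHom (x.2.1 : (Δ[1] : SSet.{0}).obj n) 0 = 0
    then f.app n x.1 else g.app n x.1
  naturality := by
    intro n m φ
    ext x
    have e : stdSimplex.asOrderHom
        (((∂Δ[1] : SSet.{0}).map φ x.2).1 : (Δ[1] : SSet.{0}).obj m) 0
      = stdSimplex.asOrderHom (x.2.1 : (Δ[1] : SSet.{0}).obj n) 0 := by
      have : stdSimplex.asOrderHom
          (((∂Δ[1] : SSet.{0}).map φ x.2).1 : (Δ[1] : SSet.{0}).obj m) 0 =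
         stdSimplex.asOrderHom (x.2.1 : (Δ[1] : SSet.{0}).obj n)
          (φ.unop.toOrderHom 0) := rfl
      rw [this]
      exact const_of_boundary _ x.2.2 _ _
    show (if stdSimplex.asOrderHom (((∂Δ[1] : SSet.{0}).map φ x.2).1 : (Δ[1] : SSet.{0}).obj m) 0
        = 0 then f.app m (M.map φ x.1) else g.app m (M.map φ x.1)) =
      Y.map φ (if stdSimplex.asOrderHom (x.2.1 : (Δ[1] : SSet.{0}).obj n) 0 = 0
        then f.app n x.1 else g.app n x.1)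
    rw [e]
    by_cases h : stdSimplex.asOrderHom (x.2.1 : (Δ[1] : SSet.{0}).obj n) 0 = 0
    · rw [if_pos h, if_pos h]
      exact NatTrans.naturality_apply f φ x.1
    · rw [if_neg h, if_neg h]
      exact NatTrans.naturality_apply g φ x.1

theorem zero_mem (n : SimplexCategoryᵒᵖ) {M : SSet.{0}} (x : M.obj n) :
    ((ι₀ : M ⟶ M ⊗ Δ[1]).app n x).2 ∈ (∂Δ[1] : (Δ[1] : SSet.{0}).Subcomplex).obj n := by
  intro h
  obtain ⟨i, hi⟩ := h 1
  have : stdSimplex.asOrderHom ((ι₀ : M ⟶ M ⊗ Δ[1]).app n x).2 i = 0 := rfl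
  rw [this] at hi
  exact absurd hi (by decide)

theorem one_mem (n : SimplexCategoryᵒᵖ) {M : SSet.{0}} (x : M.obj n) :
    ((ι₁ : M ⟶ M ⊗ Δ[1]).app n x).2 ∈ (∂Δ[1] : (Δ[1] : SSet.{0}).Subcomplex).obj n := by
  intro h
  obtain ⟨i, hi⟩ := h 0
  have : stdSimplex.asOrderHom ((ι₁ : M ⟶ M ⊗ Δ[1]).app n x).2 i = 1 := rfl
  rw [this] at hi
  exact absurd hi (by decide)

theorem mono_whiskerLeft (M : SSet.{0}) {A B : SSet.{0}} (i : A ⟶ B) [Mono i] :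
    Mono (M ◁ i) := by
  refine ⟨fun a b h => ?_⟩
  apply CartesianMonoidalCategory.hom_ext
  · have h1 := congrArg (fun k => k ≫ CartesianMonoidalCategory.fst M B) h
    simpa using h1
  · rw [← cancel_mono i]
    have h1 := congrArg (fun k => k ≫ CartesianMonoidalCategory.snd M B) h
    simpa using h1

/-- Two endomorphisms over the base of a trivial fibration are homotopic. -/
theorem exists_hty {M V : SSet.{0}} (q : M ⟶ V)
    (hq : (MorphismProperty.monomorphisms SSet.{0}).rlp q) (f g : M ⟶ M)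
    (hf : f ≫ q = q) (hg : g ≫ q = q) : ∃ h : M ⊗ Δ[1] ⟶ M, ι₀ ≫ h = f ∧ ι₁ ≫ h = g := by
  have hm : MorphismProperty.monomorphisms SSet.{0}
      (M ◁ (∂Δ[1] : (Δ[1] : SSet.{0}).Subcomplex).ι) := by
    exact mono_whiskerLeft M _
  have := hq _ hm
  have sq : CommSq (endMap f g) (M ◁ (∂Δ[1] : (Δ[1] : SSet.{0}).Subcomplex).ι) q
      (CartesianMonoidalCategory.fst M Δ[1] ≫ q) := by
    refine ⟨?_⟩
    ext n x
    show q.app n (if stdSimplex.asOrderHom (x.2.1 : (Δ[1] : SSet.{0}).obj n) 0 = 0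
        then f.app n x.1 else g.app n x.1) = q.app n x.1
    by_cases h : stdSimplex.asOrderHom (x.2.1 : (Δ[1] : SSet.{0}).obj n) 0 = 0
    · rw [if_pos h]
      exact congrArg (fun k : M ⟶ V => k.app n x.1) hf
    · rw [if_neg h]
      exact congrArg (fun k : M ⟶ V => k.app n x.1) hg
  refine ⟨sq.lift, ?_, ?_⟩
  · ext n x
    have h1 := congrArg (fun k : M ⊗ (∂Δ[1] : SSet.{0}) ⟶ M => k.app n
      (x, ⟨((ι₀ : M ⟶ M ⊗ Δ[1]).app n x).2, zero_mem n x⟩)) sq.fac_left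
    exact h1
  · ext n x
    have h1 := congrArg (fun k : M ⊗ (∂Δ[1] : SSet.{0}) ⟶ M => k.app n
      (x, ⟨((ι₁ : M ⟶ M ⊗ Δ[1]).app n x).2, one_mem n x⟩)) sq.fac_left
    exact h1

/-! ### The gluing lemma -/

/-- A trivial fibration with a section is a `T`-equivalence. -/
theorem triv_W (h3 : TE_23_Stmt) (T : SSet.{0}) (hT : SSet.KanComplex T) {M V : SSet.{0}}
    (q : M ⟶ V) (s : V ⟶ M) (hs : s ≫ q = 𝟙 V)
    (hq : (MorphismProperty.monomorphisms SSet.{0}).rlp q) : W T q := by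
  obtain ⟨iso, comp, cancelL, cancelR, six, proj, -⟩ := h3 T hT
  obtain ⟨h, h0, h1⟩ := exists_hty q hq (q ≫ s) (𝟙 M)
    (by rw [Category.assoc, hs, Category.comp_id]) (by rw [Category.id_comp])
  have p := proj M 1
  have w0 : W T (ι₀ : M ⟶ M ⊗ Δ[1]) := by
    refine cancelR _ _ _ _ _ p ?_
    rw [ι₀_fst]
    exact iso _ _ _ inferInstance
  have w1 : W T (ι₁ : M ⟶ M ⊗ Δ[1]) := by
    refine cancelR _ _ _ _ _ p ?_
    rw [ι₁_fst]
    exact iso _ _ _ inferInstance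
  have wh : W T h := by
    refine cancelL _ _ _ _ _ w1 ?_
    rw [h1]
    exact iso _ _ _ inferInstance
  have wqs : W T (q ≫ s) := by
    rw [← h0]
    exact comp _ _ _ _ _ w0 wh
  refine six _ _ _ _ s q s ?_ wqs
  rw [hs]
  exact iso _ _ _ inferInstance

/-- Pushouts of monomorphisms which are `T`-equivalences. -/
theorem push_W (h4 : TE_KEYE_Stmt) (h5 : TE_KEY_Stmt) (h6 : TE_RPUSH_Stmt) (T : SSet.{0})
    (hT : SSet.KanComplex T) {A B C D : SSet.{0}} (i : A ⟶ B) (f : A ⟶ C) (g : B ⟶ D)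
    (j : C ⟶ D) (h : IsPushout i f g j) (hi : Mono i) (w : W T i) : W T j :=
  h4 T hT _ _ j (h6 T _ _ _ _ i f g j h (h5 T hT _ _ i hi w))

/-- Change of one leg of a pushout by a `T`-equivalence under the corner. -/
theorem leg_W (h3 : TE_23_Stmt) (h4 : TE_KEYE_Stmt) (h5 : TE_KEY_Stmt) (h6 : TE_RPUSH_Stmt)
    (T : SSet.{0}) (hT : SSet.KanComplex T) {C U V E P₁ P₂ : SSet.{0}} (p : C ⟶ U)
    (p' : C ⟶ V) (u : U ⟶ V) (e : C ⟶ E) (a₁ : U ⟶ P₁) (b₁ : E ⟶ P₁) (a₂ : V ⟶ P₂)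
    (b₂ : E ⟶ P₂) (d : P₁ ⟶ P₂) (hP₁ : IsPushout p e a₁ b₁) (hP₂ : IsPushout p' e a₂ b₂)
    (hp' : Mono p') (hu : p ≫ u = p') (w : W T u) (hd₁ : a₁ ≫ d = u ≫ a₂)
    (hd₂ : b₁ ≫ d = b₂) : W T d := by
  obtain ⟨iso, comp, cancelL, cancelR, six, proj, -⟩ := h3 T hT
  obtain ⟨M, m, q, hm, hq, hmq⟩ := factor u
  have := hq _ (show MorphismProperty.monomorphisms SSet.{0} p' from hp')
  have sq : CommSq (p ≫ m) p' q (𝟙 V) := by
    refine ⟨?_⟩
    rw [Category.assoc, hmq, hu, Category.comp_id]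
  obtain ⟨s, hs₁, hs₂⟩ : ∃ s : V ⟶ M, p' ≫ s = p ≫ m ∧ s ≫ q = 𝟙 V :=
    ⟨sq.lift, sq.fac_left, sq.fac_right⟩
  have wq : W T q := triv_W h3 T hT q s hs₂ hq
  have wm : W T m := by
    refine cancelR _ _ _ _ _ wq ?_
    rw [hmq]
    exact w
  have ws : W T s := by
    refine cancelR _ _ _ _ _ wq ?_
    rw [hs₂]
    exact iso _ _ _ inferInstance
  have ms : Mono s := mono_of_mono_fac hs₂
  -- the third pushout
  obtain ⟨P₃, a₃, b₃, hP₃⟩ : ∃ (P₃ : SSet.{0}) (a₃ : M ⟶ P₃) (b₃ : E ⟶ P₃),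
      IsPushout (p ≫ m) e a₃ b₃ := ⟨_, _, _, IsPushout.of_hasPushout (p ≫ m) e⟩
  have c₁ : p ≫ (m ≫ a₃) = e ≫ b₃ := by rw [← Category.assoc, hP₃.w]
  obtain ⟨d₁, hd₁a, hd₁b⟩ : ∃ d₁ : P₁ ⟶ P₃, a₁ ≫ d₁ = m ≫ a₃ ∧ b₁ ≫ d₁ = b₃ :=
    ⟨hP₁.desc _ _ c₁, hP₁.inl_desc _ _ _, hP₁.inr_desc _ _ _⟩
  have c₂ : p' ≫ (s ≫ a₃) = e ≫ b₃ := by rw [← Category.assoc, hs₁, hP₃.w]
  obtain ⟨d₂, hd₂a, hd₂b⟩ : ∃ d₂ : P₂ ⟶ P₃, a₂ ≫ d₂ = s ≫ a₃ ∧ b₂ ≫ d₂ = b₃ :=
    ⟨hP₂.desc _ _ c₂, hP₂.inl_desc _ _ _, hP₂.inr_desc _ _ _⟩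
  have c₃ : (p ≫ m) ≫ (q ≫ a₂) = e ≫ b₂ := by
    rw [← hP₂.w, ← hu, ← hmq]
    simp only [Category.assoc]
  obtain ⟨d₃, hd₃a, hd₃b⟩ : ∃ d₃ : P₃ ⟶ P₂, a₃ ≫ d₃ = q ≫ a₂ ∧ b₃ ≫ d₃ = b₂ :=
    ⟨hP₃.desc _ _ c₃, hP₃.inl_desc _ _ _, hP₃.inr_desc _ _ _⟩
  have po₁ : IsPushout m a₁ a₃ d₁ := by
    refine IsPushout.of_left (h₁₁ := p) (h₂₁ := b₁) (v₁₁ := e) ?_ hd₁a.symm hP₁
    rw [hd₁b]
    exact hP₃
  have po₂ : IsPushout s a₂ a₃ d₂ := by
    refine IsPushout.of_left (h₁₁ := p') (h₂₁ := b₂) (v₁₁ := e) ?_ hd₂a.symm hP₂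
    rw [hd₂b, hs₁]
    exact hP₃
  have w₁ : W T d₁ := push_W h4 h5 h6 T hT _ _ _ _ po₁ hm wm
  have w₂ : W T d₂ := push_W h4 h5 h6 T hT _ _ _ _ po₂ ms ws
  have w₃ : W T d₃ := by
    refine cancelL _ _ _ _ _ w₂ ?_
    have : d₂ ≫ d₃ = 𝟙 P₂ := by
      apply hP₂.hom_ext
      · rw [← Category.assoc, hd₂a, Category.assoc, hd₃a, ← Category.assoc, hs₂,
          Category.id_comp, Category.comp_id]
      · rw [← Category.assoc, hd₂b, hd₃b, Category.comp_id]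
    rw [this]
    exact iso _ _ _ inferInstance
  have hd : d = d₁ ≫ d₃ := by
    apply hP₁.hom_ext
    · rw [hd₁, ← Category.assoc, hd₁a, Category.assoc, hd₃a, ← Category.assoc, hmq]
    · rw [hd₂, ← Category.assoc, hd₁b, hd₃b]
  rw [hd]
  exact comp _ _ _ _ _ w₁ w₃

theorem mono_pushout {A B C D : SSet.{0}} {i : A ⟶ B} {f : A ⟶ C} {g : B ⟶ D} {j : C ⟶ D}
    (h : IsPushout i f g j) (hi : Mono i) : Mono j :=
  MorphismProperty.of_isPushout (P := MorphismProperty.monomorphisms SSet.{0}) h.flip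
    (show MorphismProperty.monomorphisms SSet.{0} i from hi)

end TeGlue

open TeGlue in
theorem te_glue (h3 : TE_23_Stmt) (h4 : TE_KEYE_Stmt) (h5 : TE_KEY_Stmt) (h6 : TE_RPUSH_Stmt)
    (h7 : TE_LPR_Stmt) : TE_GLUE_Stmt := by
  intro T hT A B C D A' B' C' D' i f g j i' f' g' j' a b c d hP hP' hi hi' e₁ e₂ e₃ e₄ wa wb wc
  obtain ⟨iso, comp, cancelL, cancelR, six, proj, -⟩ := h3 T hT
  have mj : Mono j := mono_pushout hP hi
  -- first step: change of `C`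
  obtain ⟨D₁, dD, cC, hD₁⟩ : ∃ (D₁ : SSet.{0}) (dD : D ⟶ D₁) (cC : C' ⟶ D₁),
      IsPushout j c dD cC := ⟨_, _, _, IsPushout.of_hasPushout j c⟩
  have w₁ : W T dD := h7 T hT _ _ _ _ _ _ _ _ hD₁ mj wc
  have hbig : IsPushout i (f ≫ c) (g ≫ dD) cC := hP.paste_vert hD₁
  -- second step: change of `A`, `B`
  obtain ⟨U, bU, aU, hU⟩ : ∃ (U : SSet.{0}) (bU : B ⟶ U) (aU : A' ⟶ U),
      IsPushout i a bU aU := ⟨_, _, _, IsPushout.of_hasPushout i a⟩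
  have wbU : W T bU := h7 T hT _ _ _ _ _ _ _ _ hU hi wa
  obtain ⟨u, hu₁, hu₂⟩ : ∃ u : U ⟶ B', bU ≫ u = b ∧ aU ≫ u = i' :=
    ⟨hU.desc _ _ e₁, hU.inl_desc _ _ _, hU.inr_desc _ _ _⟩
  have wu : W T u := by
    refine cancelL _ _ _ _ _ wbU ?_
    rw [hu₁]
    exact wb
  have c₁ : i ≫ (g ≫ dD) = a ≫ (f' ≫ cC) := by
    rw [hbig.w, e₂, Category.assoc]
  obtain ⟨pU, hpU₁, hpU₂⟩ : ∃ pU : U ⟶ D₁, bU ≫ pU = g ≫ dD ∧ aU ≫ pU = f' ≫ cC :=
    ⟨hU.desc _ _ c₁, hU.inl_desc _ _ _, hU.inr_desc _ _ _⟩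
  have hP₁ : IsPushout aU f' pU cC := by
    refine IsPushout.of_top (h₁₁ := i) (v₁₁ := a) (v₁₂ := bU) ?_ hpU₂ hU
    rw [hpU₁, ← e₂]
    exact hbig
  obtain ⟨d', hd'₁, hd'₂⟩ : ∃ d' : D₁ ⟶ D', dD ≫ d' = d ∧ cC ≫ d' = j' :=
    ⟨hD₁.desc _ _ e₄, hD₁.inl_desc _ _ _, hD₁.inr_desc _ _ _⟩
  have hd'' : pU ≫ d' = u ≫ g' := by
    apply hU.hom_ext
    · rw [← Category.assoc, hpU₁, Category.assoc, hd'₁, e₃, ← Category.assoc, hu₁]
    · rw [← Category.assoc, hpU₂, Category.assoc, hd'₂, ← Category.assoc, hu₂, hP'.w]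
  have w₂ : W T d' := leg_W h3 h4 h5 h6 T hT aU i' u f' pU cC g' j' d' hP₁ hP' hi' hu₂ wu
    hd'' hd'₂
  rw [← hd'₁]
  exact comp _ _ _ _ _ w₁ w₂

end Pool.Agent.SH
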