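import Mathlib
import Pool.Agent.SH.StmtsTE

/-!
# MP_2d0b73_an, block TE: homotopy of maps to a Kan complex, homotopy extension
-/

open CategoryTheory MonoidalCategory Simplicial SSet HomotopicalAlgebra Opposite Limits
open SSet.modelCategoryQuillen CartesianMonoidalCategory

namespace Pool.Agent.SH

namespace TeHty

/-! ## Edges -/

section Edges

variable {M : SSet.{0}}

/-- There is an edge from `x` to `y`. -/
def Edg (x y : (Δ[0] : SSet.{0}) ⟶ M) : Prop :=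
  ∃ e : (Δ[1] : SSet.{0}) ⟶ M, stdSimplex.δ (1 : Fin 2) ≫ e = x ∧ stdSimplex.δ (0 : Fin 2) ≫ e = y

theorem δσ (j : Fin 2) (x : (Δ[0] : SSet.{0}) ⟶ M) :
    stdSimplex.δ j ≫ stdSimplex.σ (0 : Fin 1) ≫ x = x := by
  have h : stdSimplex.δ j ≫ stdSimplex.σ (0 : Fin 1) = 𝟙 (Δ[0] : SSet.{0}) :=
    stdSimplex.isTerminalObj₀.hom_ext _ _
  rw [← Category.assoc, h, Category.id_comp]

theorem edg_refl (x : (Δ[0] : SSet.{0}) ⟶ M) : Edg x x :=
  ⟨stdSimplex.σ 0 ≫ x, δσ 1 x, δσ 0 x⟩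

theorem d02 (φ : (Δ[2] : SSet.{0}) ⟶ M) :
    stdSimplex.δ (1 : Fin 2) ≫ stdSimplex.δ (0 : Fin 3) ≫ φ =
      stdSimplex.δ (0 : Fin 2) ≫ stdSimplex.δ (2 : Fin 3) ≫ φ := by
  have h : stdSimplex.δ (0 : Fin 2) ≫ stdSimplex.δ (2 : Fin 3) =
      stdSimplex.δ (1 : Fin 2) ≫ (stdSimplex.δ (0 : Fin 3) : (Δ[1] : SSet.{0}) ⟶ Δ[2]) :=
    stdSimplex.δ_comp_δ (i := (0 : Fin 2)) (j := (1 : Fin 2)) (by decide)
  rw [← Category.assoc, ← h, Category.assoc]

theorem d01 (φ : (Δ[2] : SSet.{0}) ⟶ M) :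
    stdSimplex.δ (0 : Fin 2) ≫ stdSimplex.δ (0 : Fin 3) ≫ φ =
      stdSimplex.δ (0 : Fin 2) ≫ stdSimplex.δ (1 : Fin 3) ≫ φ := by
  have h : stdSimplex.δ (0 : Fin 2) ≫ stdSimplex.δ (1 : Fin 3) =
      stdSimplex.δ (0 : Fin 2) ≫ (stdSimplex.δ (0 : Fin 3) : (Δ[1] : SSet.{0}) ⟶ Δ[2]) :=
    stdSimplex.δ_comp_δ (i := (0 : Fin 2)) (j := (0 : Fin 2)) (by decide)
  rw [← Category.assoc, ← h, Category.assoc]

theorem d12 (φ : (Δ[2] : SSet.{0}) ⟶ M) :
    stdSimplex.δ (1 : Fin 2) ≫ stdSimplex.δ (1 : Fin 3) ≫ φ =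
      stdSimplex.δ (1 : Fin 2) ≫ stdSimplex.δ (2 : Fin 3) ≫ φ := by
  have h : stdSimplex.δ (1 : Fin 2) ≫ stdSimplex.δ (2 : Fin 3) =
      stdSimplex.δ (1 : Fin 2) ≫ (stdSimplex.δ (1 : Fin 3) : (Δ[1] : SSet.{0}) ⟶ Δ[2]) :=
    stdSimplex.δ_comp_δ (i := (1 : Fin 2)) (j := (1 : Fin 2)) (by decide)
  rw [← Category.assoc, ← h, Category.assoc]

theorem edg_symm (hM : SSet.KanComplex M) {x y : (Δ[0] : SSet.{0}) ⟶ M} (h : Edg x y) :
    Edg y x := by
  obtain ⟨e, h1, h0⟩ := h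
  let f : ∀ (j : Fin 3) (_ : j ≠ 0), (Δ[1] : SSet.{0}) ⟶ M :=
    fun j _ => if j = 1 then stdSimplex.σ (0 : Fin 1) ≫ x else e
  have hf : horn.IsCompatible f := by
    rw [horn.isCompatible_iff]
    intro j k hj hk hjk
    fin_cases j
    · exact absurd rfl hj
    · fin_cases k
      · exact absurd rfl hk
      · exact absurd hjk (by decide)
      · change stdSimplex.δ (1 : Fin 2) ≫ stdSimplex.σ (0 : Fin 1) ≫ x =
          stdSimplex.δ (1 : Fin 2) ≫ e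
        rw [δσ, h1]
    · fin_cases k
      · exact absurd rfl hk
      · exact absurd hjk (by decide)
      · exact absurd hjk (by decide)
  obtain ⟨φ, hφ⟩ := hf.exists_lift_of_kanComplex
  have hφ1 : stdSimplex.δ (1 : Fin 3) ≫ φ = stdSimplex.σ (0 : Fin 1) ≫ x := hφ 1 (by decide)
  have hφ2 : stdSimplex.δ (2 : Fin 3) ≫ φ = e := hφ 2 (by decide)
  refine ⟨stdSimplex.δ (0 : Fin 3) ≫ φ, ?_, ?_⟩
  · rw [d02, hφ2, h0]
  · rw [d01, hφ1, δσ]

theorem edg_trans (hM : SSet.KanComplex M) {x y z : (Δ[0] : SSet.{0}) ⟶ M} (h : Edg x y)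
    (h' : Edg y z) : Edg x z := by
  obtain ⟨e, h1, h0⟩ := h
  obtain ⟨e', h1', h0'⟩ := h'
  let f : ∀ (j : Fin 3) (_ : j ≠ 1), (Δ[1] : SSet.{0}) ⟶ M :=
    fun j _ => if j = 0 then e' else e
  have hf : horn.IsCompatible f := by
    rw [horn.isCompatible_iff]
    intro j k hj hk hjk
    fin_cases j
    · fin_cases k
      · exact absurd hjk (by decide)
      · exact absurd rfl hk
      · change stdSimplex.δ (1 : Fin 2) ≫ e' = stdSimplex.δ (0 : Fin 2) ≫ e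
        rw [h1', h0]
    · exact absurd rfl hj
    · fin_cases k
      · exact absurd hjk (by decide)
      · exact absurd rfl hk
      · exact absurd hjk (by decide)
  obtain ⟨φ, hφ⟩ := hf.exists_lift_of_kanComplex
  have hφ0 : stdSimplex.δ (0 : Fin 3) ≫ φ = e' := hφ 0 (by decide)
  have hφ2 : stdSimplex.δ (2 : Fin 3) ≫ φ = e := hφ 2 (by decide)
  refine ⟨stdSimplex.δ (1 : Fin 3) ≫ φ, ?_, ?_⟩
  · rw [d12, hφ2, h1]
  · rw [← d01, hφ0, h0']

end Edges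

/-! ## Points of the mapping complex -/

section

variable {A B T : SSet.{0}}

/-- A map as a point of the mapping complex. -/
noncomputable def pt (f : A ⟶ T) : (Δ[0] : SSet.{0}) ⟶ (ihom A).obj T :=
  MonoidalClosed.curry (fst A (Δ[0] : SSet.{0}) ≫ f)

theorem pt_inj {f g : A ⟶ T} (h : pt f = pt g) : f = g := by
  have h1 : fst A (Δ[0] : SSet.{0}) ≫ f = fst A (Δ[0] : SSet.{0}) ≫ g :=
    MonoidalClosed.curry_injective h
  have h2 := congrArg (fun u => lift (𝟙 A) (stdSimplex.isTerminalObj₀.from A) ≫ u) h1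
  simpa using h2

theorem w1 (A : SSet.{0}) : A ◁ (stdSimplex.δ (1 : Fin 2)) = fst A (Δ[0] : SSet.{0}) ≫ ι₀ := by
  apply CartesianMonoidalCategory.hom_ext
  · simp
  · rw [Category.assoc, ι₀_snd, whiskerLeft_snd, stdSimplex.δ_one_eq_const]
    simp

theorem w0 (A : SSet.{0}) : A ◁ (stdSimplex.δ (0 : Fin 2)) = fst A (Δ[0] : SSet.{0}) ≫ ι₁ := by
  apply CartesianMonoidalCategory.hom_ext
  · simp
  · rw [Category.assoc, ι₁_snd, whiskerLeft_snd, stdSimplex.δ_zero_eq_const]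
    simp

theorem δ1_curry (h : A ⊗ (Δ[1] : SSet.{0}) ⟶ T) :
    stdSimplex.δ (1 : Fin 2) ≫ MonoidalClosed.curry h = pt (ι₀ ≫ h) := by
  rw [← MonoidalClosed.curry_natural_left, w1, Category.assoc]
  rfl

theorem δ0_curry (h : A ⊗ (Δ[1] : SSet.{0}) ⟶ T) :
    stdSimplex.δ (0 : Fin 2) ≫ MonoidalClosed.curry h = pt (ι₁ ≫ h) := by
  rw [← MonoidalClosed.curry_natural_left, w0, Category.assoc]
  rfl

theorem hty_iff_edg (f g : A ⟶ T) : Hty f g ↔ Edg (pt f) (pt g) := by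
  rw [Hty_iff]
  constructor
  · rintro ⟨h, h0, h1⟩
    exact ⟨MonoidalClosed.curry h, by rw [δ1_curry, h0], by rw [δ0_curry, h1]⟩
  · rintro ⟨e, h1, h0⟩
    obtain ⟨h, rfl⟩ : ∃ h, MonoidalClosed.curry h = e :=
      ⟨MonoidalClosed.uncurry e, MonoidalClosed.curry_uncurry e⟩
    rw [δ1_curry] at h1
    rw [δ0_curry] at h0
    exact ⟨h, pt_inj h1, pt_inj h0⟩

theorem pt_pre (i : A ⟶ B) (f : B ⟶ T) :
    pt f ≫ (MonoidalClosed.pre i).app T = pt (i ≫ f) := by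
  unfold pt
  rw [MonoidalClosed.curry_pre_app]
  congr 1

theorem hep (hT : SSet.KanComplex T) (i : A ⟶ B) [Mono i] (j : Fin 2)
    (f : B ⟶ T) (h : A ⊗ (Δ[1] : SSet.{0}) ⟶ T)
    (hj : stdSimplex.δ j ≫ MonoidalClosed.curry h = pt (i ≫ f)) :
    ∃ H : B ⊗ (Δ[1] : SSet.{0}) ⟶ T, stdSimplex.δ j ≫ MonoidalClosed.curry H = pt f ∧
      i ▷ (Δ[1] : SSet.{0}) ≫ H = h := by
  have hc : horn.IsCompatible (i := j + 1) (n := 0)
      (fun (_ : Fin 2) _ => pt f) := trivial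
  have hfib : Fibration ((MonoidalClosed.pre i).app T) := inferInstance
  obtain ⟨φ, hφ, hp⟩ := hc.exists_lift ((MonoidalClosed.pre i).app T)
    (MonoidalClosed.curry h) (by
      intro l hl
      have hl' : l = j := by
        revert hl
        fin_cases l <;> fin_cases j <;> simp
      subst hl'
      rw [hj]
      exact pt_pre i f)
  obtain ⟨H, rfl⟩ : ∃ H, MonoidalClosed.curry H = φ :=
    ⟨MonoidalClosed.uncurry φ, MonoidalClosed.curry_uncurry φ⟩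
  refine ⟨H, hφ j (by fin_cases j <;> decide), ?_⟩
  rw [MonoidalClosed.curry_pre_app] at hp
  exact MonoidalClosed.curry_injective hp

end

end TeHty

open TeHty

theorem te_hty : TE_HTY_Stmt := by
  intro A T hT
  have hM : SSet.KanComplex ((ihom A).obj T) := inferInstance
  refine ⟨fun f => Hty.refl f, fun {f g} h => ?_, fun {f g k} h h' => ?_⟩
  · rw [hty_iff_edg] at h ⊢
    exact edg_symm hM h
  · rw [hty_iff_edg] at h h' ⊢
    exact edg_trans hM h h'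

theorem te_hep : TE_HEP_Stmt := by
  intro T hT A B i hi
  constructor
  · intro f h hh
    obtain ⟨H, h1, h2⟩ := hep hT i 1 f h (by rw [δ1_curry, hh])
    rw [δ1_curry] at h1
    exact ⟨H, pt_inj h1, h2⟩
  · intro f h hh
    obtain ⟨H, h1, h2⟩ := hep hT i 0 f h (by rw [δ0_curry, hh])
    rw [δ0_curry] at h1
    exact ⟨H, pt_inj h1, h2⟩

end Pool.Agent.SH
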