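import Mathlib
import Pool.Agent.SH.StmtsTE

/-!
# MP_2d0b73_an, block TE: the key lemma (K5), (K6)
-/

open CategoryTheory MonoidalCategory Simplicial SSet HomotopicalAlgebra Opposite Limits
open SSet.modelCategoryQuillen

namespace Pool.Agent.SH

namespace TeKey

/-- Two copies of a simplicial set. -/
def Dbl (K : SSet.{0}) : SSet.{0} where
  obj n := K.obj n × Bool
  map f := TypeCat.ofHom fun x => (K.map f x.1, x.2)
  map_id := by intro n; ext x <;> simp
  map_comp := by intro a b c f g; ext x <;> simp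

/-- A map out of the two copies. -/
def dsc {Y K T : SSet.{0}} (b b' : Y ⊗ K ⟶ T) : Y ⊗ Dbl K ⟶ T where
  app n := TypeCat.ofHom fun x => bif x.2.2 then b'.app n (x.1, x.2.1) else b.app n (x.1, x.2.1)
  naturality := by
    intro m n f
    ext x
    obtain ⟨y, k, c⟩ := x
    cases c
    · exact ConcreteCategory.congr_hom (b.naturality f) (show (Y ⊗ K).obj m from (y, k))
    · exact ConcreteCategory.congr_hom (b'.naturality f) (show (Y ⊗ K).obj m from (y, k))

/-- The inclusion of the two ends of the cylinder. -/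
noncomputable def jD (K : SSet.{0}) : Dbl K ⟶ K ⊗ Δ[1] where
  app n := TypeCat.ofHom fun x => bif x.2 then (ι₁ : K ⟶ K ⊗ Δ[1]).app n x.1
    else (ι₀ : K ⟶ K ⊗ Δ[1]).app n x.1
  naturality := by
    intro m n f
    ext x
    obtain ⟨k, c⟩ := x
    cases c
    · exact ConcreteCategory.congr_hom ((ι₀ : K ⟶ K ⊗ Δ[1]).naturality f) k
    · exact ConcreteCategory.congr_hom ((ι₁ : K ⟶ K ⊗ Δ[1]).naturality f) k

instance (K : SSet.{0}) : Mono (jD K) := by
  have : ∀ n, Mono ((jD K).app n) := by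
    intro n
    rw [mono_iff_injective]
    rintro ⟨k, c⟩ ⟨k', c'⟩ h
    obtain ⟨n⟩ := n
    induction n using SimplexCategory.rec with | _ n
    cases c <;> cases c'
    · have h1 : k = k' := congrArg (fun z : (K ⊗ Δ[1] : SSet.{0}) _⦋n⦌ => z.1) h
      rw [h1]
    · exfalso
      have h1 := congrArg (fun z : (K ⊗ Δ[1] : SSet.{0}) _⦋n⦌ => z.2 0) h
      have h2 : (0 : Fin 2) = 1 := h1
      exact absurd h2 (by decide)
    · exfalso
      have h1 := congrArg (fun z : (K ⊗ Δ[1] : SSet.{0}) _⦋n⦌ => z.2 0) h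
      have h2 : (1 : Fin 2) = 0 := h1
      exact absurd h2 (by decide)
    · have h1 : k = k' := congrArg (fun z : (K ⊗ Δ[1] : SSet.{0}) _⦋n⦌ => z.1) h
      rw [h1]
  exact NatTrans.mono_of_mono_app _

/-- homotopies as maps on the other bracketing -/
theorem hty_iff' {Y K T : SSet.{0}} (b b' : Y ⊗ K ⟶ T) :
    Hty b b' ↔ ∃ h : Y ⊗ (K ⊗ Δ[1]) ⟶ T,
      Y ◁ (ι₀ : K ⟶ K ⊗ Δ[1]) ≫ h = b ∧ Y ◁ (ι₁ : K ⟶ K ⊗ Δ[1]) ≫ h = b' := by
  have e0 : (ι₀ : Y ⊗ K ⟶ (Y ⊗ K) ⊗ Δ[1]) ≫ (α_ Y K Δ[1]).hom =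
      Y ◁ (ι₀ : K ⟶ K ⊗ Δ[1]) := rfl
  have e1 : (ι₁ : Y ⊗ K ⟶ (Y ⊗ K) ⊗ Δ[1]) ≫ (α_ Y K Δ[1]).hom =
      Y ◁ (ι₁ : K ⟶ K ⊗ Δ[1]) := rfl
  rw [Hty_iff]
  constructor
  · rintro ⟨h, h0, h1⟩
    refine ⟨(α_ Y K Δ[1]).inv ≫ h, ?_, ?_⟩
    · rw [← e0, Category.assoc, Iso.hom_inv_id_assoc, h0]
    · rw [← e1, Category.assoc, Iso.hom_inv_id_assoc, h1]
  · rintro ⟨h, h0, h1⟩
    refine ⟨(α_ Y K Δ[1]).hom ≫ h, ?_, ?_⟩
    · rw [← Category.assoc, e0, h0]
    · rw [← Category.assoc, e1, h1]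

/-- homotopies and currying -/
theorem hty_curry {X K T : SSet.{0}} (f g : X ⊗ K ⟶ T) :
    Hty (MonoidalClosed.curry f) (MonoidalClosed.curry g) ↔ Hty f g := by
  rw [hty_iff', Hty_iff]
  constructor
  · rintro ⟨h, h0, h1⟩
    refine ⟨MonoidalClosed.uncurry h, ?_, ?_⟩
    · rw [← MonoidalClosed.uncurry_natural_left, h0, MonoidalClosed.uncurry_curry]
    · rw [← MonoidalClosed.uncurry_natural_left, h1, MonoidalClosed.uncurry_curry]
  · rintro ⟨h, h0, h1⟩
    refine ⟨MonoidalClosed.curry h, ?_, ?_⟩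
    · rw [← MonoidalClosed.curry_natural_left, h0]
    · rw [← MonoidalClosed.curry_natural_left, h1]

end TeKey

open TeKey

/-- (K5) -/
theorem te_keye (h1 : TE_HTY_Stmt) : TE_KEYE_Stmt := by
  have _ := h1
  intro T hT X Y i hi
  refine ⟨fun K a => ?_, fun K b b' h => ?_⟩
  · -- extension over the empty part
    have hne : ¬ SSet.Nonempty (Y ⊗ ((⊥ : K.Subcomplex) : SSet.{0})) := by
      rintro ⟨x⟩
      exact x.2.2
    have hne' : ¬ SSet.Nonempty (X ⊗ ((⊥ : K.Subcomplex) : SSet.{0})) := by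
      rintro ⟨x⟩
      exact x.2.2
    obtain ⟨w, _, hw⟩ := hi ((⊥ : K.Subcomplex) : SSet.{0}) K (⊥ : K.Subcomplex).ι
      ((isInitialOfNotNonempty hne).to T) a
      ((isInitialOfNotNonempty hne').hom_ext _ _)
    exact ⟨w, by rw [hw]; exact Hty.refl _⟩
  · rw [hty_iff'] at h
    obtain ⟨H, h0, h1'⟩ := h
    obtain ⟨w, hw1, _⟩ := hi (Dbl K) (K ⊗ Δ[1]) (jD K) (dsc b b') H (by
      ext n x
      obtain ⟨x, k, c⟩ := x
      cases c
      · exact (ConcreteCategory.congr_hom (NatTrans.congr_app h0 n)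
          (show (X ⊗ K).obj n from (x, k))).symm
      · exact (ConcreteCategory.congr_hom (NatTrans.congr_app h1' n)
          (show (X ⊗ K).obj n from (x, k))).symm)
    rw [hty_iff']
    refine ⟨w, ?_, ?_⟩
    · ext n x
      obtain ⟨y, k⟩ := x
      exact ConcreteCategory.congr_hom (NatTrans.congr_app hw1 n)
        (show (Y ⊗ Dbl K).obj n from (y, (k, false)))
    · ext n x
      obtain ⟨y, k⟩ := x
      exact ConcreteCategory.congr_hom (NatTrans.congr_app hw1 n)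
        (show (Y ⊗ Dbl K).obj n from (y, (k, true)))

/-- (K6) -/
theorem te_key (h1 : TE_HTY_Stmt) (h3 : TE_TRIV_Stmt) : TE_KEY_Stmt := by
  have _ := h1
  intro T hT X Y i hi hW K L j hj u v huv
  have hkan : SSet.KanComplex ((ihom X).obj T) := inferInstance
  have hfib : HomotopicalAlgebra.Fibration ((MonoidalClosed.pre i).app T) := inferInstance
  have hlift := h3 ((ihom Y).obj T) ((ihom X).obj T) ((MonoidalClosed.pre i).app T) hkan hfib
    (fun K a => by
      obtain ⟨b, hb⟩ := hW.1 K (MonoidalClosed.uncurry a)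
      refine ⟨MonoidalClosed.curry b, ?_⟩
      rw [MonoidalClosed.curry_pre_app, ← MonoidalClosed.curry_uncurry a, hty_curry]
      exact hb)
    (fun K b b' h => by
      rw [← MonoidalClosed.curry_uncurry b, ← MonoidalClosed.curry_uncurry b',
        MonoidalClosed.curry_pre_app, MonoidalClosed.curry_pre_app, hty_curry] at h
      rw [← MonoidalClosed.curry_uncurry b, ← MonoidalClosed.curry_uncurry b', hty_curry]
      exact hW.2 K _ _ h) K L j hj
  have sq : CommSq (MonoidalClosed.curry u) j ((MonoidalClosed.pre i).app T)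
      (MonoidalClosed.curry v) := ⟨by
    rw [MonoidalClosed.curry_pre_app, huv, MonoidalClosed.curry_natural_left]⟩
  refine ⟨MonoidalClosed.uncurry sq.lift, ?_, ?_⟩
  · rw [← MonoidalClosed.uncurry_natural_left, sq.fac_left, MonoidalClosed.uncurry_curry]
  · rw [← MonoidalClosed.uncurry_pre_app, sq.fac_right, MonoidalClosed.uncurry_curry]

end Pool.Agent.SH
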