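import Mathlib
import Pool.Agent.SH.StmtsTE

/-!
# MP_2d0b73_an, block TE, module SH_TE_LPR: left properness of the class of T-equivalences
-/

open CategoryTheory MonoidalCategory Simplicial SSet HomotopicalAlgebra Opposite Limits
open SSet.modelCategoryQuillen

namespace Pool.Agent.SH.TeLpr

/-- The inclusion of the end `k`. -/
noncomputable def en (k : Fin 2) (X : SSet.{0}) : X ⟶ X ⊗ Δ[1] :=
  CartesianMonoidalCategory.lift (𝟙 X) (const (stdSimplex.obj₀Equiv.{0}.symm k))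

theorem en_zero (X : SSet.{0}) : en 0 X = ι₀ := rfl

theorem en_one (X : SSet.{0}) : en 1 X = ι₁ := rfl

theorem horn_mem (k : Fin 2) : (stdSimplex.obj₀Equiv.{0}.symm k) ∈
    (Λ[1, k] : (Δ[1] : SSet.{0}).Subcomplex).obj (op ⦋0⦌) := by
  rw [mem_horn_iff_notMem_range]
  refine ⟨k + 1, ?_, ?_⟩
  · fin_cases k <;> simp
  · rintro ⟨i, hi⟩
    have : (stdSimplex.obj₀Equiv.{0}.symm k) i = k := rfl
    rw [this] at hi
    fin_cases k <;> simp at hi

/-- The vertex of the horn. -/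
noncomputable def hv (k : Fin 2) : ((Λ[1, k] : (Δ[1] : SSet.{0}).Subcomplex) : SSet.{0}) _⦋0⦌ :=
  ⟨stdSimplex.obj₀Equiv.{0}.symm k, horn_mem k⟩

theorem horn_sub (k : Fin 2) (m : SimplexCategoryᵒᵖ)
    (x y : ((Λ[1, k] : (Δ[1] : SSet.{0}).Subcomplex) : SSet.{0}).obj m) : x = y := by
  induction m using Opposite.rec with
  | _ m =>
  induction m using SimplexCategory.rec with
  | _ d =>
  have key : ∀ z : ((Λ[1, k] : (Δ[1] : SSet.{0}).Subcomplex) : SSet.{0}).obj (op ⦋d⦌),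
      ∀ i : Fin (d + 1), z.1 i = k := by
    intro z i
    have hz := z.2
    rw [mem_horn_iff_notMem_range] at hz
    obtain ⟨j, hj, h2⟩ := hz
    by_contra hne
    apply h2
    refine ⟨i, ?_⟩
    have hd : ∀ (a b c : Fin 2), b ≠ a → c ≠ a → c = b := by decide
    exact hd k j _ hj hne
  apply Subtype.ext
  apply SSet.stdSimplex.ext
  intro i
  rw [key x i, key y i]

/-- `X` is `X ⊗ Λ[1, k]`. -/
noncomputable def hiso (k : Fin 2) (X : SSet.{0}) :
    X ⊗ ((Λ[1, k] : (Δ[1] : SSet.{0}).Subcomplex) : SSet.{0}) ≅ X where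
  hom := CartesianMonoidalCategory.fst _ _
  inv := CartesianMonoidalCategory.lift (𝟙 X) (const (hv k))
  hom_inv_id := by
    apply CartesianMonoidalCategory.hom_ext
    · rfl
    · ext m x
      exact horn_sub k m _ _
  inv_hom_id := by
    ext m x
    rfl

theorem hiso_inv (k : Fin 2) (X : SSet.{0}) :
    (hiso k X).inv ≫ X ◁ (Λ[1, k] : (Δ[1] : SSet.{0}).Subcomplex).ι = en k X := rfl

theorem anodyne_en (k : Fin 2) (X : SSet.{0}) : anodyneExtensions (en k X) := by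
  rw [← hiso_inv]
  exact anodyneExtensions.comp_mem _ _ (.of_isIso _)
    ((anodyneExtensions.horn_ι k).whiskerLeft X)

theorem anodyne_kappa (k : Fin 2) {A B P : SSet.{0}} (i : A ⟶ B) [Mono i] (s : B ⟶ P)
    (t : A ⊗ Δ[1] ⟶ P) (hp : IsPushout i (en k A) s t) (κ : P ⟶ B ⊗ Δ[1])
    (h1 : s ≫ κ = en k B) (h2 : t ≫ κ = i ▷ Δ[1]) : anodyneExtensions κ := by
  let sq : (curriedTensor SSet.{0}).PushoutObjObj i
      (Λ[1, k] : (Δ[1] : SSet.{0}).Subcomplex).ι :=
    { pt := P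
      inl := (hiso k B).hom ≫ s
      inr := t
      isPushout := by
        refine IsPushout.of_iso hp (hiso k A).symm (hiso k B).symm (Iso.refl _) (Iso.refl _)
          ?_ ?_ ?_ ?_
        · rfl
        · rfl
        · simp
        · simp
      ι := κ
      inl_ι := by
        change ((hiso k B).hom ≫ s) ≫ κ = _
        rw [Category.assoc, h1]
        apply CartesianMonoidalCategory.hom_ext
        · rfl
        · ext m x
          have := horn_sub k m x.2 (((Λ[1, k] : (Δ[1] : SSet.{0}).Subcomplex) : SSet.{0}).map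
            (SimplexCategory.const m.unop ⦋0⦌ 0).op (hv k))
          change _ = x.2.1
          rw [this]
          rfl
      inr_ι := h2 }
  exact anodyneExtensions_pushoutObjObjι sq (anodyneExtensions.horn_ι k)

/-- Anodyne maps have the relative extension property. -/
theorem rext_anodyne {T : SSet.{0}} (hT : SSet.KanComplex T) {X Y : SSet.{0}} (i : X ⟶ Y)
    (hi : anodyneExtensions i) : REXT T i := by
  intro K L j hj u v huv
  let sq := Functor.PushoutObjObj.ofHasPushout (curriedTensor SSet.{0}) i j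
  have h1 : anodyneExtensions sq.ι := anodyneExtensions_pushoutObjObjι' sq hi
  obtain ⟨w, hw⟩ := Kan.ext hT sq.ι h1 (sq.isPushout.desc u v huv)
  refine ⟨w, ?_, ?_⟩
  · have : sq.inl ≫ sq.ι ≫ w = u := by rw [hw]; exact sq.isPushout.inl_desc _ _ _
    rw [← this, ← Category.assoc, sq.inl_ι]
    rfl
  · have : sq.inr ≫ sq.ι ≫ w = v := by rw [hw]; exact sq.isPushout.inr_desc _ _ _
    rw [← this, ← Category.assoc, sq.inr_ι]
    rfl

theorem mono_en (k : Fin 2) (X : SSet.{0}) : Mono (en k X) := by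
  have : en k X ≫ CartesianMonoidalCategory.fst X Δ[1] = 𝟙 X := rfl
  exact mono_of_mono_fac this

theorem en_snd_ne (A : SSet.{0}) (m : SimplexCategoryᵒᵖ) (a a' : A.obj m) :
    ((en 1 A).app m a).2 ≠ ((en 0 A).app m a').2 := by
  induction m using Opposite.rec with
  | _ m =>
  induction m using SimplexCategory.rec with
  | _ d =>
  intro h
  have h1 : (((en 1 A).app (op ⦋d⦌) a).2 : (Δ[1] : SSet.{0}) _⦋d⦌) 0 = 1 := rfl
  have h0 : (((en 0 A).app (op ⦋d⦌) a').2 : (Δ[1] : SSet.{0}) _⦋d⦌) 0 = 0 := rfl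
  rw [h, h0] at h1
  exact absurd h1 (by decide)

open Classical in
/-- The far end of the mapping cylinder is a monomorphism. -/
theorem mono_u {A C M : SSet.{0}} (f : A ⟶ C) (mi : C ⟶ M) (mr : A ⊗ Δ[1] ⟶ M)
    (hM : IsPushout f (en 0 A) mi mr) : Mono (en 1 A ≫ mr) := by
  have : ∀ m, Mono ((en 1 A ≫ mr).app m) := by
    intro m
    rw [mono_iff_injective]
    have hMm := hM.map ((evaluation SimplexCategoryᵒᵖ (Type)).obj m)
    let φC : C.obj m ⟶ (Option (A.obj m) : Type) := ↾(fun _ => none)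
    let φA : (A ⊗ Δ[1] : SSet.{0}).obj m ⟶ (Option (A.obj m) : Type) :=
      ↾(fun x => if ∃ a', x.2 = ((en 0 A).app m a').2 then none else some x.1)
    have hφ : f.app m ≫ φC = (en 0 A).app m ≫ φA := by
      apply ConcreteCategory.hom_ext
      intro a
      change none = if ∃ a', ((en 0 A).app m a).2 = ((en 0 A).app m a').2 then none
        else some ((en 0 A).app m a).1
      rw [if_pos ⟨a, rfl⟩]
    have hd : mr.app m ≫ hMm.desc φC φA hφ = φA := hMm.inr_desc _ _ _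
    intro a b hab
    have key : ∀ a : A.obj m, (hMm.desc φC φA hφ) ((en 1 A ≫ mr).app m a) = some a := by
      intro a
      have : (hMm.desc φC φA hφ) ((en 1 A ≫ mr).app m a) =
          (mr.app m ≫ hMm.desc φC φA hφ) ((en 1 A).app m a) := rfl
      rw [this, hd]
      change (if ∃ a', ((en 1 A).app m a).2 = ((en 0 A).app m a').2 then none
        else some ((en 1 A).app m a).1) = some a
      rw [if_neg (by rintro ⟨a', h⟩; exact en_snd_ne A m a a' h)]
      rfl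
    have h2 := key a
    rw [hab, key b] at h2
    exact (Option.some.inj h2).symm
  exact NatTrans.mono_of_mono_app _

end Pool.Agent.SH.TeLpr

namespace Pool.Agent.SH

open TeLpr

theorem te_lpr (h1 : TE_HTY_Stmt) (h2 : TE_HEP_Stmt) (h3 : TE_23_Stmt) (h4 : TE_KEYE_Stmt)
    (h5 : TE_KEY_Stmt) (h6 : TE_RPUSH_Stmt) : TE_LPR_Stmt := by
  intro T hT A B C D i f g j hD hi hf
  obtain ⟨hiso, hcomp, hcl, hcr, -⟩ := h3 T hT
  have hano : ∀ {X Y : SSet.{0}} (e : X ⟶ Y), anodyneExtensions e → W T e := fun e he =>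
    h4 T hT _ _ e (rext_anodyne hT e he)
  have hpush : ∀ {X Y X' Y' : SSet.{0}} (e : X ⟶ Y) (p : X ⟶ X') (q : Y ⟶ Y') (e' : X' ⟶ Y'),
      IsPushout e p q e' → Mono e → W T e → W T e' := fun e p q e' hp he hw =>
    h4 T hT _ _ e' (h6 T _ _ _ _ e p q e' hp (h5 T hT _ _ e he hw))
  -- the mapping cylinder
  let mi : C ⟶ pushout f (en 0 A) := pushout.inl f (en 0 A)
  let mr : A ⊗ Δ[1] ⟶ pushout f (en 0 A) := pushout.inr f (en 0 A)
  have hM : IsPushout f (en 0 A) mi mr := IsPushout.of_hasPushout _ _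
  have hre : f ≫ 𝟙 C = en 0 A ≫ CartesianMonoidalCategory.fst A Δ[1] ≫ f := by
    rw [Category.comp_id]; rfl
  let r : pushout f (en 0 A) ⟶ C := hM.desc (𝟙 C) (CartesianMonoidalCategory.fst A Δ[1] ≫ f) hre
  have hr1 : mi ≫ r = 𝟙 C := hM.inl_desc _ _ _
  have hr2 : mr ≫ r = CartesianMonoidalCategory.fst A Δ[1] ≫ f := hM.inr_desc _ _ _
  let u : A ⟶ pushout f (en 0 A) := en 1 A ≫ mr
  have hur : u ≫ r = f := by
    change (en 1 A ≫ mr) ≫ r = f
    rw [Category.assoc, hr2]; rfl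
  have hWmi : W T mi := hpush _ _ _ _ hM.flip (mono_en 0 A) (hano _ (anodyne_en 0 A))
  have hWr : W T r := hcl _ _ _ mi r hWmi (by rw [hr1]; exact hiso _ _ _ inferInstance)
  have hWu : W T u := hcr _ _ _ u r hWr (by rw [hur]; exact hf)
  have hmu : Mono u := mono_u f mi mr hM
  -- the pushout along `i`
  let s : B ⟶ pushout i u := pushout.inl i u
  let t : pushout f (en 0 A) ⟶ pushout i u := pushout.inr i u
  have hB' : IsPushout i u s t := IsPushout.of_hasPushout _ _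
  have hWs : W T s := hpush _ _ _ _ hB'.flip hmu hWu
  -- the pushout product
  let ps : B ⟶ pushout i (en 1 A) := pushout.inl i (en 1 A)
  let pt : A ⊗ Δ[1] ⟶ pushout i (en 1 A) := pushout.inr i (en 1 A)
  have hP : IsPushout i (en 1 A) ps pt := IsPushout.of_hasPushout _ _
  let κ : pushout i (en 1 A) ⟶ B ⊗ Δ[1] := hP.desc (en 1 B) (i ▷ Δ[1]) rfl
  have hκ1 : ps ≫ κ = en 1 B := hP.inl_desc _ _ _
  have hκ2 : pt ≫ κ = i ▷ Δ[1] := hP.inr_desc _ _ _
  have hκ : anodyneExtensions κ := anodyne_kappa 1 i ps pt hP κ hκ1 hκ2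
  have hP' : i ≫ s = en 1 A ≫ mr ≫ t := by rw [← Category.assoc]; exact hB'.w
  let pb : pushout i (en 1 A) ⟶ pushout i u := hP.desc s (mr ≫ t) hP'
  have hpb1 : ps ≫ pb = s := hP.inl_desc _ _ _
  have hpb2 : pt ≫ pb = mr ≫ t := hP.inr_desc _ _ _
  have hsq1 : IsPushout mr pt t pb := by
    refine IsPushout.of_left (h₁₁ := en 1 A) (h₂₁ := ps) (v₁₁ := i) ?_ hpb2.symm hP.flip
    rw [hpb1]
    exact hB'.flip
  have hsq2 : IsPushout (en 0 A ≫ pt) f pb (mi ≫ t) := hM.flip.paste_horiz hsq1.flip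
  -- `N`
  let nl : B ⊗ Δ[1] ⟶ pushout (i ≫ en 0 B) f := pushout.inl (i ≫ en 0 B) f
  let nr : C ⟶ pushout (i ≫ en 0 B) f := pushout.inr (i ≫ en 0 B) f
  have hN : IsPushout (i ≫ en 0 B) f nl nr := IsPushout.of_hasPushout _ _
  have hit : (en 0 A ≫ pt) ≫ κ = i ≫ en 0 B := by rw [Category.assoc, hκ2]; rfl
  have hbnw : (en 0 A ≫ pt) ≫ κ ≫ nl = f ≫ nr := by
    rw [← Category.assoc, hit, hN.w]
  let bn : pushout i u ⟶ pushout (i ≫ en 0 B) f := hsq2.desc (κ ≫ nl) nr hbnw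
  have hbn1 : pb ≫ bn = κ ≫ nl := hsq2.inl_desc _ _ _
  have hbn2 : (mi ≫ t) ≫ bn = nr := hsq2.inr_desc _ _ _
  have hsq3 : IsPushout κ pb nl bn := by
    refine IsPushout.of_left (h₁₁ := en 0 A ≫ pt) (h₂₁ := mi ≫ t) (v₁₁ := f) ?_ hbn1.symm hsq2
    rw [hit, hbn2]
    exact hN
  have hWbn : W T bn := h4 T hT _ _ bn (h6 T _ _ _ _ κ pb nl bn hsq3 (rext_anodyne hT κ hκ))
  have hdnw : i ≫ en 0 B ≫ nl = f ≫ nr := by rw [← Category.assoc, hN.w]
  let dn : D ⟶ pushout (i ≫ en 0 B) f := hD.desc (en 0 B ≫ nl) nr hdnw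
  have hdn1 : g ≫ dn = en 0 B ≫ nl := hD.inl_desc _ _ _
  have hdn2 : j ≫ dn = nr := hD.inr_desc _ _ _
  have hsq4 : IsPushout (en 0 B) g nl dn := by
    refine IsPushout.of_left (h₁₁ := i) (h₂₁ := j) (v₁₁ := f) ?_ hdn1.symm hD
    rw [hdn2]
    exact hN
  have hWdn : W T dn := hpush _ _ _ _ hsq4 (mono_en 0 B) (hano _ (anodyne_en 0 B))
  have hndw : (i ≫ en 0 B) ≫ CartesianMonoidalCategory.fst B Δ[1] ≫ g = f ≫ j := by
    rw [← hD.w]; rfl
  let nd : pushout (i ≫ en 0 B) f ⟶ D :=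
    hN.desc (CartesianMonoidalCategory.fst B Δ[1] ≫ g) j hndw
  have hnd1 : nl ≫ nd = CartesianMonoidalCategory.fst B Δ[1] ≫ g := hN.inl_desc _ _ _
  have hnd2 : nr ≫ nd = j := hN.inr_desc _ _ _
  have hid : dn ≫ nd = 𝟙 D := by
    apply hD.hom_ext
    · rw [← Category.assoc, hdn1, Category.assoc, hnd1]; rfl
    · rw [← Category.assoc, hdn2, hnd2, Category.comp_id]
  have hWnd : W T nd := hcl _ _ _ dn nd hWdn (by rw [hid]; exact hiso _ _ _ inferInstance)
  have hfin : s ≫ bn ≫ nd = g := by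
    rw [← hpb1, Category.assoc, ← Category.assoc pb, hbn1, Category.assoc, hnd1,
      ← Category.assoc, hκ1]
    rfl
  rw [← hfin]
  exact hcomp _ _ _ _ _ hWs (hcomp _ _ _ _ _ hWbn hWnd)

end Pool.Agent.SH
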