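import Mathlib
import Pool.Agent.SH.StmtsTE

/-!
# MP_2d0b73_an, block TE: relative extension, closure under pushouts and sequential composition
-/

open CategoryTheory MonoidalCategory Simplicial SSet HomotopicalAlgebra Opposite Limits
open SSet.modelCategoryQuillen

namespace Pool.Agent.SH

theorem te_rpush : TE_RPUSH_Stmt := by
  intro T A B C D i f g j sq hi K L k hk u v huv
  have hL : IsPushout (i ▷ L) (f ▷ L) (g ▷ L) (j ▷ L) := sq.map (tensorRight L)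
  have hK : IsPushout (i ▷ K) (f ▷ K) (g ▷ K) (j ▷ K) := sq.map (tensorRight K)
  have hc : i ▷ K ≫ (g ▷ K ≫ u) = A ◁ k ≫ (f ▷ L ≫ v) := by
    rw [← Category.assoc, hK.w, Category.assoc, huv, ← Category.assoc, ← Category.assoc,
      whisker_exchange]
  obtain ⟨w', h1, h2⟩ := hi K L k (g ▷ K ≫ u) (f ▷ L ≫ v) hc
  refine ⟨hL.desc w' v h2, ?_, hL.inr_desc _ _ _⟩
  apply hK.hom_ext
  · rw [← Category.assoc, ← whisker_exchange, Category.assoc, hL.inl_desc, h1]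
  · rw [← Category.assoc, ← whisker_exchange, Category.assoc, hL.inr_desc, huv]

namespace TeR

/-- The extensions over the stages `F n`. -/
theorem exists_seq (T : SSet.{0}) (F : ℕ ⥤ SSet.{0}) (c : Cocone F)
    (h : ∀ n : ℕ, REXT T (F.map (homOfLE (Nat.le_succ n)))) (K L : SSet.{0}) (k : K ⟶ L) [Mono k]
    (u : c.pt ⊗ K ⟶ T) (v : F.obj 0 ⊗ L ⟶ T) (huv : c.ι.app 0 ▷ K ≫ u = F.obj 0 ◁ k ≫ v) :
    ∃ w : ∀ n : ℕ, F.obj n ⊗ L ⟶ T, w 0 = v ∧
      (∀ n, F.obj n ◁ k ≫ w n = c.ι.app n ▷ K ≫ u) ∧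
      ∀ n, (F.map (homOfLE (Nat.le_succ n))) ▷ L ≫ w (n + 1) = w n := by
  have step : ∀ (n : ℕ) (a : F.obj n ⊗ L ⟶ T), F.obj n ◁ k ≫ a = c.ι.app n ▷ K ≫ u →
      ∃ b : F.obj (n + 1) ⊗ L ⟶ T, F.obj (n + 1) ◁ k ≫ b = c.ι.app (n + 1) ▷ K ≫ u ∧
        (F.map (homOfLE (Nat.le_succ n))) ▷ L ≫ b = a := by
    intro n a ha
    apply h n K L k
    rw [← Category.assoc, ← comp_whiskerRight, c.w, ha]
  choose b hb1 hb2 using step
  let w : ∀ n : ℕ, {a : F.obj n ⊗ L ⟶ T // F.obj n ◁ k ≫ a = c.ι.app n ▷ K ≫ u} := fun n =>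
    Nat.rec ⟨v, huv.symm⟩ (fun n a => ⟨b n a.1 a.2, hb1 n a.1 a.2⟩) n
  exact ⟨fun n => (w n).1, rfl, fun n => (w n).2, fun n => hb2 n (w n).1 (w n).2⟩

end TeR

theorem te_rseq : TE_RSEQ_Stmt := by
  intro T F c hc h K L k hk u v huv
  obtain ⟨w, h0, h1, h2⟩ := TeR.exists_seq T F c h K L k u v huv
  let α : F ⋙ tensorRight L ⟶ (Functor.const ℕ).obj T :=
    NatTrans.ofSequence (F := F ⋙ tensorRight L) (G := (Functor.const ℕ).obj T) w (by
      intro n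
      change (F.map (homOfLE (Nat.le_succ n))) ▷ L ≫ w (n + 1) = w n ≫ 𝟙 T
      rw [h2, Category.comp_id])
  have hα : ∀ n, α.app n = w n := fun n => rfl
  let s : Cocone (F ⋙ tensorRight L) := { pt := T, ι := α }
  have hcL : IsColimit ((tensorRight L).mapCocone c) := isColimitOfPreserves (tensorRight L) hc
  have hcK : IsColimit ((tensorRight K).mapCocone c) := isColimitOfPreserves (tensorRight K) hc
  have hd : ∀ n, (c.ι.app n) ▷ L ≫ hcL.desc s = w n := fun n => hcL.fac s n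
  refine ⟨hcL.desc s, ?_, ?_⟩
  · apply hcK.hom_ext
    intro n
    have he : F.obj n ◁ k ≫ (show F.obj n ⟶ c.pt from c.ι.app n) ▷ L =
        (show F.obj n ⟶ c.pt from c.ι.app n) ▷ K ≫ c.pt ◁ k :=
      whisker_exchange (show F.obj n ⟶ c.pt from c.ι.app n) k
    calc (c.ι.app n) ▷ K ≫ c.pt ◁ k ≫ hcL.desc s
        = ((show F.obj n ⟶ c.pt from c.ι.app n) ▷ K ≫ c.pt ◁ k) ≫ hcL.desc s :=
          (Category.assoc _ _ _).symm
      _ = (F.obj n ◁ k ≫ (show F.obj n ⟶ c.pt from c.ι.app n) ▷ L) ≫ hcL.desc s := by rw [he]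
      _ = F.obj n ◁ k ≫ (c.ι.app n) ▷ L ≫ hcL.desc s := Category.assoc _ _ _
      _ = F.obj n ◁ k ≫ w n := by rw [hd]
      _ = (c.ι.app n) ▷ K ≫ u := h1 n
  · exact (hd 0).trans h0

end Pool.Agent.SH
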