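import Mathlib
import Pool.Agent.SH.StmtsTE

open CategoryTheory MonoidalCategory Simplicial SSet HomotopicalAlgebra Opposite Limits
open SSet.modelCategoryQuillen

namespace Pool.Agent.SH.TeSeq

theorem cyl_phi {A G E C : Type} (e1 : E) (t : A ⟶ (A × E : Type)) (ht : ∀ a, t a = (a, e1))
    (α : A ⟶ G) (p : (A × E : Type) ⟶ C) (q : G ⟶ C) (h : IsPushout t α p q) :
    ∃ φ : C → G ⊕ (A × E), (∀ a, φ (p (a, e1)) = Sum.inl (α a)) ∧
      (∀ a e, e ≠ e1 → φ (p (a, e)) = Sum.inr (a, e)) ∧ (∀ g, φ (q g) = Sum.inl g) := by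
  classical
  let p' : (A × E : Type) ⟶ (G ⊕ (A × E) : Type) :=
    ↾ (fun x : A × E => if x.2 = e1 then (Sum.inl (α x.1) : G ⊕ (A × E)) else Sum.inr x)
  let q' : G ⟶ (G ⊕ (A × E) : Type) := ↾ (fun g : G => (Sum.inl g : G ⊕ (A × E)))
  have hw : t ≫ p' = α ≫ q' := by
    apply ConcreteCategory.hom_ext
    intro x
    have h1 : (t ≫ p') x = p' (t x) := rfl
    rw [h1, ht x]
    simp [p', q']
  have e1' := h.inl_desc p' q' hw
  have e2' := h.inr_desc p' q' hw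
  refine ⟨fun c => h.desc p' q' hw c, ?_, ?_, ?_⟩
  · intro a
    have := ConcreteCategory.congr_hom e1' ((a, e1) : A × E)
    refine Eq.trans this ?_
    simp [p']
  · intro a e he
    have := ConcreteCategory.congr_hom e1' ((a, e) : A × E)
    refine Eq.trans this ?_
    simp [p', he]
  · intro g
    exact ConcreteCategory.congr_hom e2' g

theorem inj_type {F F' G G' E C C' P : Type} (e0 e1 : E) (hne : e0 ≠ e1)
    (i : F ⟶ F') (hi : Function.Injective i) (j : G ⟶ G') (hj : Function.Injective j)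
    (a : F ⟶ G) (a' : F' ⟶ G')
    (t : F ⟶ (F × E : Type)) (ht : ∀ x, t x = (x, e1))
    (p : (F × E : Type) ⟶ C) (q : G ⟶ C) (hC : IsPushout t a p q)
    (t' : F' ⟶ (F' × E : Type)) (ht' : ∀ x, t' x = (x, e1))
    (p' : (F' × E : Type) ⟶ C') (q' : G' ⟶ C') (hC' : IsPushout t' a' p' q')
    (c : C ⟶ C') (hc1 : ∀ x e, c (p (x, e)) = p' (i x, e)) (hc2 : ∀ g, c (q g) = q' (j g))
    (u : F ⟶ C) (hu : ∀ x, u x = p (x, e0)) (l : F' ⟶ P) (r : C ⟶ P)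
    (hP : IsPushout i u l r) (v : P ⟶ C') (hv1 : ∀ x, v (l x) = p' (x, e0))
    (hv2 : ∀ y, v (r y) = c y) : Function.Injective v := by
  classical
  obtain ⟨φ, hφ1, hφ2, hφ3⟩ := cyl_phi e1 t' ht' a' p' q' hC'
  have hwC : ∀ x, p (x, e1) = q (a x) := by
    intro x
    have := ConcreteCategory.congr_hom hC.w x
    have h1 : p (t x) = q (a x) := this
    rw [ht x] at h1
    exact h1
  have hwP : ∀ x, l (i x) = r (p (x, e0)) := by
    intro x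
    have h1 : l (i x) = r (u x) := ConcreteCategory.congr_hom hP.w x
    rw [hu x] at h1
    exact h1
  have key : ∀ y : P, (∃ x : F', y = l x) ∨ (∃ (x : F) (e : E), e ≠ e1 ∧ y = r (p (x, e))) ∨
      ∃ g : G, y = r (q g) := by
    intro y
    rcases Types.eq_or_eq_of_isPushout hP y with ⟨x, hx⟩ | ⟨z, hz⟩
    · exact Or.inl ⟨x, hx.symm⟩
    · right
      rcases Types.eq_or_eq_of_isPushout hC z with ⟨⟨x, e⟩, hx⟩ | ⟨g, hg⟩
      · by_cases he : e = e1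
        · right
          refine ⟨a x, ?_⟩
          rw [← hz, ← hx, he, hwC]
        · left
          exact ⟨x, e, he, by rw [← hz, ← hx]⟩
      · right
        exact ⟨g, by rw [← hz, ← hg]⟩
  have val1 : ∀ x : F', φ (v (l x)) = Sum.inr (x, e0) := by
    intro x
    rw [hv1, hφ2 _ _ hne]
  have val2 : ∀ (x : F) (e : E), e ≠ e1 → φ (v (r (p (x, e)))) = Sum.inr (i x, e) := by
    intro x e he
    rw [hv2, hc1, hφ2 _ _ he]
  have val3 : ∀ g : G, φ (v (r (q g))) = Sum.inl (j g) := by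
    intro g
    rw [hv2, hc2, hφ3]
  intro y y' hyy
  have hyy' : φ (v y) = φ (v y') := by rw [hyy]
  rcases key y with ⟨x, rfl⟩ | ⟨x, e, he, rfl⟩ | ⟨g, rfl⟩ <;>
  rcases key y' with ⟨x', rfl⟩ | ⟨x', e', he', rfl⟩ | ⟨g', rfl⟩
  · rw [val1, val1] at hyy'
    have h1 := Sum.inr.inj hyy'
    rw [(Prod.mk.inj h1).1]
  · rw [val1, val2 _ _ he'] at hyy'
    have h1 := Prod.mk.inj (Sum.inr.inj hyy')
    rw [h1.1, hwP, h1.2]
  · rw [val1, val3] at hyy'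
    exact absurd hyy' (by simp)
  · rw [val1, val2 _ _ he] at hyy'
    have h1 := Prod.mk.inj (Sum.inr.inj hyy')
    rw [← h1.1, hwP, h1.2]
  · rw [val2 _ _ he, val2 _ _ he'] at hyy'
    have h1 := Prod.mk.inj (Sum.inr.inj hyy')
    rw [hi h1.1, h1.2]
  · rw [val2 _ _ he, val3] at hyy'
    exact absurd hyy' (by simp)
  · rw [val1, val3] at hyy'
    exact absurd hyy' (by simp)
  · rw [val2 _ _ he', val3] at hyy'
    exact absurd hyy' (by simp)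
  · rw [val3, val3] at hyy'
    rw [hj (Sum.inl.inj hyy')]

theorem inj_type' {F G E C : Type} (e0 e1 : E) (hne : e0 ≠ e1) (a : F ⟶ G)
    (t : F ⟶ (F × E : Type)) (ht : ∀ x, t x = (x, e1))
    (p : (F × E : Type) ⟶ C) (q : G ⟶ C) (hC : IsPushout t a p q)
    (u : F ⟶ C) (hu : ∀ x, u x = p (x, e0)) : Function.Injective u := by
  obtain ⟨φ, hφ1, hφ2, hφ3⟩ := cyl_phi e1 t ht a p q hC
  intro x x' hx
  have h1 : φ (u x) = φ (u x') := by rw [hx]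
  rw [hu, hu, hφ2 _ _ hne, hφ2 _ _ hne] at h1
  exact (Prod.mk.inj (Sum.inr.inj h1)).1

/-- The end `0` of the interval in level `m`. -/
noncomputable def E0 (m : SimplexCategoryᵒᵖ) : (Δ[1] : SSet.{0}).obj m :=
  (SSet.const (X := Δ[0]) (stdSimplex.obj₀Equiv.{0}.symm (0 : Fin 2)) :
    (Δ[0] : SSet.{0}) ⟶ Δ[1]).app m (stdSimplex.objEquiv.symm (SimplexCategory.const _ _ 0))

noncomputable def E1 (m : SimplexCategoryᵒᵖ) : (Δ[1] : SSet.{0}).obj m :=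
  (SSet.const (X := Δ[0]) (stdSimplex.obj₀Equiv.{0}.symm (1 : Fin 2)) :
    (Δ[0] : SSet.{0}) ⟶ Δ[1]).app m (stdSimplex.objEquiv.symm (SimplexCategory.const _ _ 0))

theorem ι₀_app_eq {X : SSet.{0}} (m : SimplexCategoryᵒᵖ) (x : X.obj m) :
    (ι₀ : X ⟶ X ⊗ Δ[1]).app m x = ((x, E0 m) : X.obj m × (Δ[1] : SSet.{0}).obj m) := rfl

theorem ι₁_app_eq {X : SSet.{0}} (m : SimplexCategoryᵒᵖ) (x : X.obj m) :
    (ι₁ : X ⟶ X ⊗ Δ[1]).app m x = ((x, E1 m) : X.obj m × (Δ[1] : SSet.{0}).obj m) := rfl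

theorem E_ne (m : SimplexCategoryᵒᵖ) : E0 m ≠ E1 m := by
  obtain ⟨n, hn⟩ : ∃ n : ℕ, m = op ⦋n⦌ := ⟨m.unop.len, rfl⟩
  subst hn
  intro h
  have h0 : (E0 (op ⦋n⦌) : (Δ[1] : SSet.{0}) _⦋n⦌) (0 : Fin (n + 1)) = 0 := rfl
  have h1 : (E1 (op ⦋n⦌) : (Δ[1] : SSet.{0}) _⦋n⦌) (0 : Fin (n + 1)) = 1 := rfl
  rw [h, h1] at h0
  exact absurd h0 (by decide)


theorem mono_v {F F' G G' C C' P : SSet.{0}} (i : F ⟶ F') [Mono i] (j : G ⟶ G') [Mono j]
    (a : F ⟶ G) (a' : F' ⟶ G') (p : F ⊗ Δ[1] ⟶ C) (q : G ⟶ C) (hC : IsPushout ι₁ a p q)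
    (p' : F' ⊗ Δ[1] ⟶ C') (q' : G' ⟶ C') (hC' : IsPushout ι₁ a' p' q')
    (c : C ⟶ C') (hc1 : p ≫ c = i ▷ _ ≫ p') (hc2 : q ≫ c = j ≫ q')
    (l : F' ⟶ P) (r : C ⟶ P) (hP : IsPushout i (ι₀ ≫ p) l r) (v : P ⟶ C')
    (hv1 : l ≫ v = ι₀ ≫ p') (hv2 : r ≫ v = c) : Mono v := by
  rw [NatTrans.mono_iff_mono_app]
  intro m
  rw [mono_iff_injective]
  have h1 := hC.map ((evaluation SimplexCategoryᵒᵖ Type).obj m : SSet.{0} ⥤ Type)
  have h2 := hC'.map ((evaluation SimplexCategoryᵒᵖ Type).obj m : SSet.{0} ⥤ Type)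
  have h3 := hP.map ((evaluation SimplexCategoryᵒᵖ Type).obj m : SSet.{0} ⥤ Type)
  have hi : Function.Injective (i.app m) := by
    rw [← mono_iff_injective]; infer_instance
  have hj : Function.Injective (j.app m) := by
    rw [← mono_iff_injective]; infer_instance
  refine inj_type (E0 m) (E1 m) (E_ne m) (i.app m) hi (j.app m) hj (a.app m) (a'.app m)
    ((ι₁ : F ⟶ F ⊗ Δ[1]).app m) (fun x => ι₁_app_eq m x) (p.app m) (q.app m) h1
    ((ι₁ : F' ⟶ F' ⊗ Δ[1]).app m) (fun x => ι₁_app_eq m x) (p'.app m) (q'.app m) h2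
    (c.app m) ?_ ?_ ((ι₀ ≫ p).app m) ?_ (l.app m) (r.app m) h3 (v.app m) ?_ ?_
  · intro x e
    have := ConcreteCategory.congr_hom (congrArg (fun f => NatTrans.app f m) hc1)
      ((x, e) : F.obj m × (Δ[1] : SSet.{0}).obj m)
    exact this
  · intro g
    exact ConcreteCategory.congr_hom (congrArg (fun f => NatTrans.app f m) hc2) g
  · intro x
    rfl
  · intro x
    exact ConcreteCategory.congr_hom (congrArg (fun f => NatTrans.app f m) hv1) x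
  · intro y
    exact ConcreteCategory.congr_hom (congrArg (fun f => NatTrans.app f m) hv2) y

theorem mono_u {F G C : SSet.{0}} (a : F ⟶ G) (p : F ⊗ Δ[1] ⟶ C) (q : G ⟶ C)
    (hC : IsPushout ι₁ a p q) : Mono (ι₀ ≫ p) := by
  rw [NatTrans.mono_iff_mono_app]
  intro m
  rw [mono_iff_injective]
  have h1 := hC.map ((evaluation SimplexCategoryᵒᵖ Type).obj m : SSet.{0} ⥤ Type)
  exact inj_type' (E0 m) (E1 m) (E_ne m) (a.app m) ((ι₁ : F ⟶ F ⊗ Δ[1]).app m)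
    (fun x => ι₁_app_eq m x) (p.app m) (q.app m) h1 ((ι₀ ≫ p).app m) (fun x => rfl)

theorem W_iota1 (h3 : TE_23_Stmt) (T : SSet.{0}) (hT : SSet.KanComplex T) (X : SSet.{0}) :
    W T (ι₁ : X ⟶ X ⊗ Δ[1]) := by
  obtain ⟨a1, a2, a3, a4, a5, a6, a7⟩ := h3 T hT
  apply a4 _ _ _ (ι₁ : X ⟶ X ⊗ Δ[1]) (CartesianMonoidalCategory.fst X Δ[1]) (a6 X 1)
  rw [ι₁_fst]
  exact a1 _ _ _ inferInstance

/-- Cylinder facts: for a pushout of the end `1` along `f`, the retraction is in `W T`. -/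
theorem W_cyl (h3 : TE_23_Stmt) (h4 : TE_KEYE_Stmt) (h5 : TE_KEY_Stmt) (h6 : TE_RPUSH_Stmt)
    (T : SSet.{0}) (hT : SSet.KanComplex T) {X XI Y C : SSet.{0}} (e : X ⟶ XI) [Mono e]
    (he : W T e) (f : X ⟶ Y) (p : XI ⟶ C) (q : Y ⟶ C) (hC : IsPushout e f p q)
    (r : C ⟶ Y) (hr : q ≫ r = 𝟙 Y) : W T r := by
  obtain ⟨a1, a2, a3, a4, a5, a6, a7⟩ := h3 T hT
  have h7 : REXT T e := h5 T hT _ _ e inferInstance he
  have h8 : REXT T q := h6 T _ _ _ _ e f p q hC h7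
  have h9 : W T q := h4 T hT _ _ q h8
  apply a3 _ _ _ q r h9
  rw [hr]
  exact a1 _ _ _ inferInstance

/-- The functor `F ⊗ Δ[1]`. -/
noncomputable abbrev FI (F : ℕ ⥤ SSet.{0}) : ℕ ⥤ SSet.{0} := F ⋙ tensorRight Δ[1]

noncomputable def i0 (F : ℕ ⥤ SSet.{0}) : F ⟶ FI F where
  app n := ι₀
  naturality := by
    intro m n f
    exact (ι₀_comp (F.map f)).symm

noncomputable def i1 (F : ℕ ⥤ SSet.{0}) : F ⟶ FI F where
  app n := ι₁
  naturality := by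
    intro m n f
    exact (ι₁_comp (F.map f)).symm

noncomputable def pr (F : ℕ ⥤ SSet.{0}) : FI F ⟶ F where
  app n := CartesianMonoidalCategory.fst (F.obj n) Δ[1]
  naturality := by
    intro m n f
    exact CartesianMonoidalCategory.whiskerRight_fst _ _

theorem i0_pr (F : ℕ ⥤ SSet.{0}) : i0 F ≫ pr F = 𝟙 F := by
  ext n : 2
  exact ι₀_fst _

theorem i1_pr (F : ℕ ⥤ SSet.{0}) : i1 F ≫ pr F = 𝟙 F := by
  ext n : 2
  exact ι₁_fst _

/-- The cylinder functor. -/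
noncomputable abbrev CC {F G : ℕ ⥤ SSet.{0}} (α : F ⟶ G) : ℕ ⥤ SSet.{0} :=
  pushout (i1 F) α

noncomputable abbrev uF {F G : ℕ ⥤ SSet.{0}} (α : F ⟶ G) : F ⟶ CC α :=
  i0 F ≫ pushout.inl (i1 F) α

noncomputable abbrev rF {F G : ℕ ⥤ SSet.{0}} (α : F ⟶ G) : CC α ⟶ G :=
  pushout.desc (pr F ≫ α) (𝟙 G) (by
    rw [← Category.assoc, i1_pr, Category.id_comp, Category.comp_id])

theorem uF_rF {F G : ℕ ⥤ SSet.{0}} (α : F ⟶ G) : uF α ≫ rF α = α := by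
  rw [uF, rF, Category.assoc, pushout.inl_desc, ← Category.assoc, i0_pr, Category.id_comp]

theorem inr_rF {F G : ℕ ⥤ SSet.{0}} (α : F ⟶ G) : pushout.inr (i1 F) α ≫ rF α = 𝟙 G := by
  rw [rF, pushout.inr_desc]

theorem CC_sq {F G : ℕ ⥤ SSet.{0}} (α : F ⟶ G) (n : ℕ) :
    IsPushout (ι₁ : F.obj n ⟶ F.obj n ⊗ Δ[1]) (α.app n) ((pushout.inl (i1 F) α).app n)
      ((pushout.inr (i1 F) α).app n) :=
  (IsPushout.of_hasPushout (i1 F) α).map ((evaluation ℕ SSet.{0}).obj n)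

instance mono_ι₁ (X : SSet.{0}) : Mono (ι₁ : X ⟶ X ⊗ Δ[1]) :=
  mono_of_mono_fac (ι₁_fst X)

theorem W_uF (h3 : TE_23_Stmt) (h4 : TE_KEYE_Stmt) (h5 : TE_KEY_Stmt) (h6 : TE_RPUSH_Stmt)
    (T : SSet.{0}) (hT : SSet.KanComplex T) {F G : ℕ ⥤ SSet.{0}} (α : F ⟶ G) (n : ℕ)
    (hα : W T (α.app n)) : W T ((uF α).app n) := by
  have h9 : W T ((rF α).app n) := by
    apply W_cyl h3 h4 h5 h6 T hT (ι₁ : F.obj n ⟶ F.obj n ⊗ Δ[1]) (W_iota1 h3 T hT _)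
      (α.app n) _ _ (CC_sq α n) ((rF α).app n)
    rw [← NatTrans.comp_app, inr_rF, NatTrans.id_app]
  obtain ⟨a1, a2, a3, a4, a5, a6, a7⟩ := h3 T hT
  apply a4 _ _ _ ((uF α).app n) ((rF α).app n) h9
  rw [← NatTrans.comp_app, uF_rF]
  exact hα

theorem mono_uF {F G : ℕ ⥤ SSet.{0}} (α : F ⟶ G) (n : ℕ) : Mono ((uF α).app n) :=
  mono_u (α.app n) _ _ (CC_sq α n)


/-- The inclusion of the relative cylinder has the extension property. -/
theorem step_REXT (h3 : TE_23_Stmt) (h4 : TE_KEYE_Stmt) (h5 : TE_KEY_Stmt) (h6 : TE_RPUSH_Stmt)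
    (T : SSet.{0}) (hT : SSet.KanComplex T) {F G : ℕ ⥤ SSet.{0}} (α : F ⟶ G)
    (hF : ∀ n : ℕ, Mono (F.map (homOfLE (Nat.le_succ n))))
    (hG : ∀ n : ℕ, Mono (G.map (homOfLE (Nat.le_succ n))))
    (hα : ∀ n : ℕ, W T (α.app n)) (n : ℕ) (P : SSet.{0}) (l : F.obj (n + 1) ⟶ P)
    (r : (CC α).obj n ⟶ P)
    (hP : IsPushout (F.map (homOfLE (Nat.le_succ n))) ((uF α).app n) l r)
    (v : P ⟶ (CC α).obj (n + 1)) (hv1 : l ≫ v = (uF α).app (n + 1))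
    (hv2 : r ≫ v = (CC α).map (homOfLE (Nat.le_succ n))) : REXT T v := by
  have hFn := hF n
  have hGn := hG n
  have hm : Mono v := by
    refine mono_v (F.map (homOfLE (Nat.le_succ n))) (G.map (homOfLE (Nat.le_succ n)))
      (α.app n) (α.app (n + 1)) _ _ (CC_sq α n) _ _ (CC_sq α (n + 1))
      ((CC α).map (homOfLE (Nat.le_succ n))) ?_ ?_ l r hP v hv1 hv2
    · exact ((pushout.inl (i1 F) α).naturality (homOfLE (Nat.le_succ n))).symm
    · exact ((pushout.inr (i1 F) α).naturality (homOfLE (Nat.le_succ n))).symm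
  apply h5 T hT _ _ v hm
  obtain ⟨a1, a2, a3, a4, a5, a6, a7⟩ := h3 T hT
  have hu := mono_uF α n
  have h7 : REXT T ((uF α).app n) :=
    h5 T hT _ _ _ hu (W_uF h3 h4 h5 h6 T hT α n (hα n))
  have h8 : REXT T l := h6 T _ _ _ _ _ _ _ _ hP.flip h7
  have h9 : W T l := h4 T hT _ _ l h8
  apply a3 _ _ _ l v h9
  rw [hv1]
  exact W_uF h3 h4 h5 h6 T hT α (n + 1) (hα (n + 1))

section Extend

variable {F G : ℕ ⥤ SSet.{0}} (α : F ⟶ G) (T : SSet.{0}) {K L : SSet.{0}} (j : K ⟶ L)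
  (uK : colimit (CC α) ⊗ K ⟶ T) (vL : colimit F ⊗ L ⟶ T)

/-- Solutions of the extension problem on level `n`. -/
def Sol (n : ℕ) : Type :=
  {w : (CC α).obj n ⊗ L ⟶ T //
    (CC α).obj n ◁ j ≫ w = (colimit.ι (CC α) n) ▷ K ≫ uK ∧
    ((uF α).app n) ▷ L ≫ w = (colimit.ι F n) ▷ L ≫ vL}

theorem compat (hc : colimMap (uF α) ▷ K ≫ uK = colimit F ◁ j ≫ vL) (n : ℕ) :
    ((uF α).app n) ▷ K ≫ (colimit.ι (CC α) n) ▷ K ≫ uK =
      F.obj n ◁ j ≫ (colimit.ι F n) ▷ L ≫ vL := by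
  rw [← comp_whiskerRight_assoc, ← ι_colimMap, comp_whiskerRight_assoc, hc,
    ← whisker_exchange_assoc]

theorem sol_zero (hc : colimMap (uF α) ▷ K ≫ uK = colimit F ◁ j ≫ vL) [Mono j]
    (h : REXT T ((uF α).app 0)) : Nonempty (Sol α T j uK vL 0) := by
  obtain ⟨w, h1, h2⟩ := h K L j ((colimit.ι (CC α) 0) ▷ K ≫ uK) ((colimit.ι F 0) ▷ L ≫ vL)
    (compat α T j uK vL hc 0)
  exact ⟨⟨w, h1, h2⟩⟩

theorem sol_step (hc : colimMap (uF α) ▷ K ≫ uK = colimit F ◁ j ≫ vL) [Mono j]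
    (h : ∀ (n : ℕ) (P : SSet.{0}) (l : F.obj (n + 1) ⟶ P)
      (r : (CC α).obj n ⟶ P), IsPushout (F.map (homOfLE (Nat.le_succ n))) ((uF α).app n) l r →
      ∀ (v : P ⟶ (CC α).obj (n + 1)), l ≫ v = (uF α).app (n + 1) →
      r ≫ v = (CC α).map (homOfLE (Nat.le_succ n)) → REXT T v) (n : ℕ)
    (s : Sol α T j uK vL n) : ∃ s' : Sol α T j uK vL (n + 1),
      ((CC α).map (homOfLE (Nat.le_succ n))) ▷ L ≫ s'.1 = s.1 := by
  obtain ⟨w, hw1, hw2⟩ := s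
  let l := pushout.inl (F.map (homOfLE (Nat.le_succ n))) ((uF α).app n)
  let r := pushout.inr (F.map (homOfLE (Nat.le_succ n))) ((uF α).app n)
  have hP : IsPushout (F.map (homOfLE (Nat.le_succ n))) ((uF α).app n) l r :=
    IsPushout.of_hasPushout _ _
  have hnat : F.map (homOfLE (Nat.le_succ n)) ≫ (uF α).app (n + 1) =
      (uF α).app n ≫ (CC α).map (homOfLE (Nat.le_succ n)) := (uF α).naturality _
  let v := hP.desc ((uF α).app (n + 1)) ((CC α).map (homOfLE (Nat.le_succ n))) hnat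
  have hv1 : l ≫ v = (uF α).app (n + 1) := hP.inl_desc _ _ hnat
  have hv2 : r ≫ v = (CC α).map (homOfLE (Nat.le_succ n)) := hP.inr_desc _ _ hnat
  have hR : REXT T v := h n _ l r hP v hv1 hv2
  have hPL := hP.map (tensorRight L)
  have hPK := hP.map (tensorRight K)
  have hd : (tensorRight L).map (F.map (homOfLE (Nat.le_succ n))) ≫
      ((colimit.ι F (n + 1)) ▷ L ≫ vL) = (tensorRight L).map ((uF α).app n) ≫ w := by
    change (F.map (homOfLE (Nat.le_succ n))) ▷ L ≫ ((colimit.ι F (n + 1)) ▷ L ≫ vL) =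
      ((uF α).app n) ▷ L ≫ w
    rw [hw2, ← comp_whiskerRight_assoc, colimit.w]
  let d := hPL.desc ((colimit.ι F (n + 1)) ▷ L ≫ vL) w hd
  have hd1 : l ▷ L ≫ d = (colimit.ι F (n + 1)) ▷ L ≫ vL := hPL.inl_desc _ _ hd
  have hd2 : r ▷ L ≫ d = w := hPL.inr_desc _ _ hd
  have hcomp : v ▷ K ≫ ((colimit.ι (CC α) (n + 1)) ▷ K ≫ uK) =
      (pushout (F.map (homOfLE (Nat.le_succ n))) ((uF α).app n)) ◁ j ≫ d := by
    apply hPK.hom_ext
    · change l ▷ K ≫ _ = l ▷ K ≫ _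
      rw [← comp_whiskerRight_assoc, hv1, compat α T j uK vL hc (n + 1),
        ← whisker_exchange_assoc, hd1]
    · change r ▷ K ≫ _ = r ▷ K ≫ _
      rw [← comp_whiskerRight_assoc, hv2, ← comp_whiskerRight_assoc, colimit.w,
        ← whisker_exchange_assoc, hd2, hw1]
  obtain ⟨w', h1, h2⟩ := hR K L j _ d hcomp
  refine ⟨⟨w', h1, ?_⟩, ?_⟩
  · rw [← hv1, comp_whiskerRight_assoc, h2, hd1]
  · rw [← hv2, comp_whiskerRight_assoc, h2, hd2]

theorem sol_glue (s : ∀ n, Sol α T j uK vL n)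
    (hs : ∀ n, ((CC α).map (homOfLE (Nat.le_succ n))) ▷ L ≫ (s (n + 1)).1 = (s n).1) :
    ∃ w : colimit (CC α) ⊗ L ⟶ T, colimit (CC α) ◁ j ≫ w = uK ∧
      colimMap (uF α) ▷ L ≫ w = vL := by
  let nt : CC α ⋙ tensorRight L ⟶ (Functor.const ℕ).obj T :=
    NatTrans.ofSequence (fun n => (s n).1) (by
      intro n
      refine Eq.trans (hs n) ?_
      exact (Category.comp_id _).symm)
  let hL := isColimitOfPreserves (tensorRight L) (colimit.isColimit (CC α))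
  let hK := isColimitOfPreserves (tensorRight K) (colimit.isColimit (CC α))
  let hFL := isColimitOfPreserves (tensorRight L) (colimit.isColimit F)
  let w := hL.desc ⟨T, nt⟩
  have hw : ∀ n, (colimit.ι (CC α) n) ▷ L ≫ w = (s n).1 := fun n => hL.fac ⟨T, nt⟩ n
  refine ⟨w, ?_, ?_⟩
  · apply hK.hom_ext
    intro n
    change (colimit.ι (CC α) n) ▷ K ≫ _ = (colimit.ι (CC α) n) ▷ K ≫ _
    rw [← whisker_exchange_assoc, hw n, (s n).2.1]
  · apply hFL.hom_ext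
    intro n
    change (colimit.ι F n) ▷ L ≫ _ = (colimit.ι F n) ▷ L ≫ _
    rw [← comp_whiskerRight_assoc, ι_colimMap, comp_whiskerRight_assoc, hw n, (s n).2.2]

end Extend

theorem colim_uF_REXT (h3 : TE_23_Stmt) (h4 : TE_KEYE_Stmt) (h5 : TE_KEY_Stmt)
    (h6 : TE_RPUSH_Stmt)
    (T : SSet.{0}) (hT : SSet.KanComplex T) {F G : ℕ ⥤ SSet.{0}} (α : F ⟶ G)
    (hF : ∀ n : ℕ, Mono (F.map (homOfLE (Nat.le_succ n))))
    (hG : ∀ n : ℕ, Mono (G.map (homOfLE (Nat.le_succ n))))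
    (hα : ∀ n : ℕ, W T (α.app n)) : REXT T (colimMap (uF α)) := by
  intro K L j _ uK vL hc
  have hu := mono_uF α 0
  have h7 : REXT T ((uF α).app 0) :=
    h5 T hT _ _ _ hu (W_uF h3 h4 h5 h6 T hT α 0 (hα 0))
  obtain ⟨s0⟩ := sol_zero α T j uK vL hc h7
  have hstep := sol_step α T j uK vL hc
    (fun n P l r hP v hv1 hv2 => step_REXT h3 h4 h5 h6 T hT α hF hG hα n P l r hP v hv1 hv2)
  choose f hf using hstep
  exact sol_glue α T j uK vL (fun n => Nat.rec s0 (fun n s => f n s) n) (fun n => hf n _)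

/-- The colimit of the functor `F ⊗ Δ[1]`. -/
noncomputable def eI (F : ℕ ⥤ SSet.{0}) : colimit (FI F) ≅ colimit F ⊗ Δ[1] :=
  (colimit.isColimit (FI F)).coconePointUniqueUpToIso
    (isColimitOfPreserves (tensorRight Δ[1]) (colimit.isColimit F))

theorem ι_eI (F : ℕ ⥤ SSet.{0}) (n : ℕ) :
    colimit.ι (FI F) n ≫ (eI F).hom = colimit.ι F n ▷ Δ[1] :=
  IsColimit.comp_coconePointUniqueUpToIso_hom _ _ n

theorem i1_eI (F : ℕ ⥤ SSet.{0}) : colimMap (i1 F) ≫ (eI F).hom = ι₁ := by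
  apply colimit.hom_ext
  intro n
  rw [← Category.assoc, ι_colimMap, Category.assoc, ι_eI]
  exact ι₁_comp _

theorem W_colim_i1 (h3 : TE_23_Stmt) (T : SSet.{0}) (hT : SSet.KanComplex T)
    (F : ℕ ⥤ SSet.{0}) : W T (colimMap (i1 F)) := by
  obtain ⟨a1, a2, a3, a4, a5, a6, a7⟩ := h3 T hT
  apply a4 _ _ _ (colimMap (i1 F)) (eI F).hom (a1 _ _ _ inferInstance)
  rw [i1_eI]
  exact W_iota1 h3 T hT _

theorem mono_colim_i1 (F : ℕ ⥤ SSet.{0}) : Mono (colimMap (i1 F)) :=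
  mono_of_mono_fac (i1_eI F)

theorem W_colim (h3 : TE_23_Stmt) (h4 : TE_KEYE_Stmt) (h5 : TE_KEY_Stmt)
    (h6 : TE_RPUSH_Stmt)
    (T : SSet.{0}) (hT : SSet.KanComplex T) {F G : ℕ ⥤ SSet.{0}} (α : F ⟶ G)
    (hF : ∀ n : ℕ, Mono (F.map (homOfLE (Nat.le_succ n))))
    (hG : ∀ n : ℕ, Mono (G.map (homOfLE (Nat.le_succ n))))
    (hα : ∀ n : ℕ, W T (α.app n)) : W T (colimMap α) := by
  have hu : W T (colimMap (uF α)) :=
    h4 T hT _ _ _ (colim_uF_REXT h3 h4 h5 h6 T hT α hF hG hα)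
  have hsq : IsPushout (colimMap (i1 F)) (colimMap α) (colimMap (pushout.inl (i1 F) α))
      (colimMap (pushout.inr (i1 F) α)) :=
    (IsPushout.of_hasPushout (i1 F) α).map (colim : (ℕ ⥤ SSet.{0}) ⥤ SSet.{0})
  have hcomp : ∀ {A B C : ℕ ⥤ SSet.{0}} (x : A ⟶ B) (y : B ⟶ C),
      colimMap (x ≫ y) = colimMap x ≫ colimMap y := fun x y =>
    (colim : (ℕ ⥤ SSet.{0}) ⥤ SSet.{0}).map_comp x y
  have hr : W T (colimMap (rF α)) := by
    have := mono_colim_i1 F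
    apply W_cyl h3 h4 h5 h6 T hT (colimMap (i1 F)) (W_colim_i1 h3 T hT F) _ _ _ hsq
    rw [← hcomp, inr_rF]
    exact (colim : (ℕ ⥤ SSet.{0}) ⥤ SSet.{0}).map_id G
  obtain ⟨a1, a2, a3, a4, a5, a6, a7⟩ := h3 T hT
  have h := a2 _ _ _ _ _ hu hr
  rw [← hcomp, uF_rF] at h
  exact h

end Pool.Agent.SH.TeSeq

namespace Pool.Agent.SH

set_option linter.unusedVariables false in
theorem te_seq (h1 : TE_HTY_Stmt) (h3 : TE_23_Stmt) (h4 : TE_KEYE_Stmt) (h5 : TE_KEY_Stmt)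
    (h6 : TE_RPUSH_Stmt) (h7 : TE_GLUE_Stmt) : TE_SEQ_Stmt := by
  intro T hT F G α cF cG hcF hcG hF hG hα f hf
  have hW := TeSeq.W_colim h3 h4 h5 h6 T hT α hF hG hα
  let e1 : cF.pt ≅ colimit F := hcF.coconePointUniqueUpToIso (colimit.isColimit F)
  let e2 : cG.pt ≅ colimit G := hcG.coconePointUniqueUpToIso (colimit.isColimit G)
  have he1 : ∀ n, cF.ι.app n ≫ e1.hom = colimit.ι F n := fun n =>
    IsColimit.comp_coconePointUniqueUpToIso_hom _ _ n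
  have he2 : ∀ n, cG.ι.app n ≫ e2.hom = colimit.ι G n := fun n =>
    IsColimit.comp_coconePointUniqueUpToIso_hom _ _ n
  have hfe : f = e1.hom ≫ colimMap α ≫ e2.inv := by
    apply hcF.hom_ext
    intro n
    rw [hf n, ← Category.assoc, he1 n, ← Category.assoc, ι_colimMap, Category.assoc, ← he2 n,
      Category.assoc, Iso.hom_inv_id, Category.comp_id]
  obtain ⟨a1, a2, a3, a4, a5, a6, a7⟩ := h3 T hT
  rw [hfe]
  exact a2 _ _ _ _ _ (a1 _ _ _ inferInstance) (a2 _ _ _ _ _ hW (a1 _ _ _ inferInstance))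

end Pool.Agent.SH
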