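import Mathlib
import Pool.Agent.SH.StmtsTE

/-!
# MP_2d0b73_an, block TE: fibrations bijective on homotopy classes are trivial fibrations
-/

open CategoryTheory MonoidalCategory Simplicial SSet HomotopicalAlgebra Opposite Limits
open SSet.modelCategoryQuillen

namespace Pool.Agent.SH

namespace TeTriv

set_option maxHeartbeats 400000

/-- Lifting against the pushout product of a monomorphism and an anodyne map. -/
lemma rel_lift {A X E B C D : SSet.{0}} (i : A ⟶ X) [Mono i] (p : E ⟶ B)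
    (hp : HomotopicalAlgebra.Fibration p) (a : C ⟶ D) (ha : anodyneExtensions a)
    (f : X ⊗ C ⟶ E) (h : A ⊗ D ⟶ E) (l : X ⊗ D ⟶ B)
    (h1 : i ▷ C ≫ f = A ◁ a ≫ h) (h2 : X ◁ a ≫ l = f ≫ p) (h3 : i ▷ D ≫ l = h ≫ p) :
    ∃ H : X ⊗ D ⟶ E, X ◁ a ≫ H = f ∧ i ▷ D ≫ H = h ∧ H ≫ p = l := by
  let sq := Functor.PushoutObjObj.ofHasPushout (curriedTensor SSet.{0}) i a
  have hι : anodyneExtensions sq.ι := anodyneExtensions_pushoutObjObjι sq ha
  have hl : HasLiftingProperty sq.ι p := by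
    apply hι
    rw [← HomotopicalAlgebra.fibration_iff]
    exact hp
  have e1 : sq.inl ≫ sq.isPushout.desc f h h1 = f := sq.isPushout.inl_desc _ _ _
  have e2 : sq.inr ≫ sq.isPushout.desc f h h1 = h := sq.isPushout.inr_desc _ _ _
  have e3 : sq.inl ≫ sq.ι = X ◁ a := sq.inl_ι
  have e4 : sq.inr ≫ sq.ι = i ▷ D := sq.inr_ι
  have hsq : CommSq (sq.isPushout.desc f h h1) sq.ι p l := by
    refine ⟨sq.hom_ext ?_ ?_⟩
    · rw [← Category.assoc, ← Category.assoc, e1, e3, h2]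
    · rw [← Category.assoc, ← Category.assoc, e2, e4, h3]
  refine ⟨hsq.lift, ?_, ?_, hsq.fac_right⟩
  · rw [← e3, Category.assoc, hsq.fac_left, e1]
  · rw [← e4, Category.assoc, hsq.fac_left, e2]

/-- The horn `Λ[1, 0]` is the vertex `0`. -/
lemma fst_ι₀ (A : SSet.{0}) :
    CartesianMonoidalCategory.fst A (Λ[1, 0] : SSet.{0}) ≫ ι₀ =
      A ◁ (Λ[1, 0] : (Δ[1] : SSet.{0}).Subcomplex).ι := by
  refine CartesianMonoidalCategory.hom_ext _ _ rfl ?_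
  ext ⟨m⟩ ⟨x, s, hs⟩
  induction m using SimplexCategory.rec with | _ m
  ext k
  have h1 := (mem_horn_iff_notMem_range (n := 1) s 0).1 hs
  obtain ⟨j, hj, hj'⟩ := h1
  have hj1 : j = 1 := by
    fin_cases j
    · exact absurd rfl hj
    · rfl
  subst hj1
  have h2 : s k ≠ 1 := fun h => hj' ⟨k, h⟩
  have h3 : s k = 0 := by
    generalize s k = t at h2
    fin_cases t
    · rfl
    · exact absurd rfl h2
  show _ = ((s k : Fin 2) : ℕ)
  rw [h3]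
  rfl

/-- The vertex `0` of the horn. -/
noncomputable def v0 : (Λ[1, 0] : SSet.{0}) _⦋0⦌ :=
  ⟨stdSimplex.obj₀Equiv.{0}.symm 0, by
    rw [mem_horn_iff_notMem_range]
    refine ⟨1, by decide, ?_⟩
    rintro ⟨k, hk⟩
    have h0 : (stdSimplex.obj₀Equiv.{0}.symm 0 : Δ[1] _⦋0⦌) k = 0 := rfl
    rw [h0] at hk
    exact absurd hk (by decide)⟩

/-- The map `X ⟶ X ⊗ Λ[1, 0]`. -/
noncomputable def ιh (X : SSet.{0}) : X ⟶ X ⊗ (Λ[1, 0] : SSet.{0}) :=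
  CartesianMonoidalCategory.lift (𝟙 X) (SSet.const v0)

lemma ιh_fst (X : SSet.{0}) : ιh X ≫ CartesianMonoidalCategory.fst X _ = 𝟙 X :=
  CartesianMonoidalCategory.lift_fst _ _

lemma ιh_ι₀ (X : SSet.{0}) :
    ιh X ≫ X ◁ (Λ[1, 0] : (Δ[1] : SSet.{0}).Subcomplex).ι = ι₀ := by
  rw [← fst_ι₀, ← Category.assoc, ιh_fst, Category.id_comp]

/-- Relative homotopy lifting. -/
lemma rel0 {A X E B : SSet.{0}} (i : A ⟶ X) [Mono i] (p : E ⟶ B)
    (hp : HomotopicalAlgebra.Fibration p) (f : X ⟶ E) (h : A ⊗ Δ[1] ⟶ E) (l : X ⊗ Δ[1] ⟶ B)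
    (h1 : ι₀ ≫ h = i ≫ f) (h2 : ι₀ ≫ l = f ≫ p) (h3 : i ▷ Δ[1] ≫ l = h ≫ p) :
    ∃ H : X ⊗ Δ[1] ⟶ E, ι₀ ≫ H = f ∧ i ▷ Δ[1] ≫ H = h ∧ H ≫ p = l := by
  have k1 : i ▷ (Λ[1, 0] : SSet.{0}) ≫ CartesianMonoidalCategory.fst X _ ≫ f =
      A ◁ (Λ[1, 0] : (Δ[1] : SSet.{0}).Subcomplex).ι ≫ h := by
    rw [← fst_ι₀, Category.assoc, h1]
    rfl
  have k2 : X ◁ (Λ[1, 0] : (Δ[1] : SSet.{0}).Subcomplex).ι ≫ l =
      (CartesianMonoidalCategory.fst X _ ≫ f) ≫ p := by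
    rw [← fst_ι₀, Category.assoc, h2, Category.assoc]
  obtain ⟨H, e1, e2, e3⟩ := rel_lift i p hp (Λ[1, 0] : (Δ[1] : SSet.{0}).Subcomplex).ι
    (anodyneExtensions.horn_ι 0) (CartesianMonoidalCategory.fst X _ ≫ f) h l k1 k2 h3
  refine ⟨H, ?_, e2, e3⟩
  rw [← ιh_ι₀, Category.assoc, e1, ← Category.assoc, ιh_fst, Category.id_comp]

/-- Homotopy lifting. -/
lemma lift0 {X E B : SSet.{0}} (p : E ⟶ B) (hp : HomotopicalAlgebra.Fibration p)
    (f : X ⟶ E) (l : X ⊗ Δ[1] ⟶ B) (h2 : ι₀ ≫ l = f ≫ p) :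
    ∃ H : X ⊗ Δ[1] ⟶ E, ι₀ ≫ H = f ∧ H ≫ p = l := by
  have ha : anodyneExtensions (X ◁ (Λ[1, 0] : (Δ[1] : SSet.{0}).Subcomplex).ι) :=
    (anodyneExtensions.horn_ι 0).whiskerLeft X
  have hl : HasLiftingProperty (X ◁ (Λ[1, 0] : (Δ[1] : SSet.{0}).Subcomplex).ι) p := by
    apply ha
    rw [← HomotopicalAlgebra.fibration_iff]
    exact hp
  have hsq : CommSq (CartesianMonoidalCategory.fst X _ ≫ f)
      (X ◁ (Λ[1, 0] : (Δ[1] : SSet.{0}).Subcomplex).ι) p l := by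
    refine ⟨?_⟩
    rw [← fst_ι₀, Category.assoc, Category.assoc, h2]
  refine ⟨hsq.lift, ?_, hsq.fac_right⟩
  rw [← ιh_ι₀, Category.assoc, hsq.fac_left, ← Category.assoc, ιh_fst, Category.id_comp]

/-! ### The two points -/

/-- The two ends of `Δ[1]`, as a discrete simplicial set. -/
def Two : SSet.{0} := (Functor.const _).obj Bool

/-- The inclusion of the two ends. -/
noncomputable def cTwo : Two ⟶ Δ[1] where
  app n := ↾fun b => cond b ((SSet.const (X := Δ[0]) (stdSimplex.obj₀Equiv.{0}.symm 1)).app n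
      (stdSimplex.objEquiv.symm (SimplexCategory.const n.unop ⦋0⦌ 0)))
    ((SSet.const (X := Δ[0]) (stdSimplex.obj₀Equiv.{0}.symm 0)).app n
      (stdSimplex.objEquiv.symm (SimplexCategory.const n.unop ⦋0⦌ 0)))
  naturality := by
    intro m n f
    ext b
    cases b <;> rfl

lemma cTwo_app (n : SimplexCategoryᵒᵖ) (b : Bool) :
    cTwo.app n b = cond b ((ι₁ (X := Two)).app n b).2 ((ι₀ (X := Two)).app n b).2 := by
  cases b <;> rfl

instance : Mono cTwo := by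
  have h : ∀ n : SimplexCategoryᵒᵖ, Mono (cTwo.app n) := by
    intro ⟨n⟩
    induction n using SimplexCategory.rec with | _ n
    rw [mono_iff_injective]
    intro b b' hb
    have h1 : ∀ c : Bool, (cTwo.app (op ⦋n⦌) c : Δ[1] _⦋n⦌) 0 = cond c 1 0 := by
      intro c
      cases c <;> rfl
    have h2 := congrArg (fun s : Δ[1] _⦋n⦌ => s 0) hb
    simp only [h1] at h2
    cases b <;> cases b' <;> first | rfl | exact absurd h2 (by decide)
  exact NatTrans.mono_of_mono_app _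

instance (E : SSet.{0}) : Mono (E ◁ cTwo) := by
  refine ⟨fun {Z} f g h => CartesianMonoidalCategory.hom_ext _ _ ?_ ?_⟩
  · exact congrArg (fun k => k ≫ CartesianMonoidalCategory.fst E Δ[1]) h
  · rw [← cancel_mono cTwo]
    exact congrArg (fun k => k ≫ CartesianMonoidalCategory.snd E Δ[1]) h

/-- A map out of `(E ⊗ Two) ⊗ D`. -/
def two {E D F : SSet.{0}} (g : Bool → (E ⊗ D ⟶ F)) : (E ⊗ Two) ⊗ D ⟶ F where
  app n := ↾fun x => (g x.1.2).app n (x.1.1, x.2)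
  naturality := by
    intro m n f
    ext x
    exact ConcreteCategory.congr_hom ((g x.1.2).naturality f) ((x.1.1, x.2) : (E ⊗ D).obj m)

/-- The inclusion of a point. -/
def tp (b : Bool) (E : SSet.{0}) : E ⟶ E ⊗ Two where
  app n := ↾fun x => (x, b)
  naturality := by
    intro m n f
    rfl

lemma tp_two {E D F : SSet.{0}} (g : Bool → (E ⊗ D ⟶ F)) (b : Bool) :
    tp b E ▷ D ≫ two g = g b := rfl

lemma tp_c0 (E : SSet.{0}) : tp false E ≫ E ◁ cTwo = ι₀ := rfl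

lemma tp_c1 (E : SSet.{0}) : tp true E ≫ E ◁ cTwo = ι₁ := rfl

/-- Maps out of `E ⊗ Two`. -/
lemma two_ext {E F : SSet.{0}} {f g : E ⊗ Two ⟶ F} (h : ∀ b, tp b E ≫ f = tp b E ≫ g) :
    f = g := by
  ext n ⟨x, b⟩
  exact congrArg (fun k : E ⟶ F => k.app n x) (h b)

/-- Maps out of `(E ⊗ Two) ⊗ D`. -/
lemma two_ext' {E D F : SSet.{0}} {f g : (E ⊗ Two) ⊗ D ⟶ F}
    (h : ∀ b, tp b E ▷ D ≫ f = tp b E ▷ D ≫ g) : f = g := by
  ext n ⟨⟨x, b⟩, y⟩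
  exact congrArg (fun k : E ⊗ D ⟶ F => k.app n (x, y)) (h b)

end TeTriv

theorem te_triv (_ : TE_HTY_Stmt) (_ : TE_HEP_Stmt) : TE_TRIV_Stmt := by
  intro E B p hB hp hs hi K L j hj
  -- a strict section
  obtain ⟨s0, H0⟩ := hs B (𝟙 B)
  obtain ⟨h, hh0, hh1⟩ := (Hty_iff _ _).1 H0
  obtain ⟨H, e0, e1⟩ := TeTriv.lift0 p hp s0 h hh0
  obtain ⟨s, hsdef⟩ : ∃ s : B ⟶ E, s = ι₁ ≫ H := ⟨_, rfl⟩
  have sp : s ≫ p = 𝟙 B := by rw [hsdef, Category.assoc, e1, hh1]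
  -- a homotopy from `p ≫ s` to the identity
  have hG : Hty (p ≫ s) (𝟙 E) := by
    refine hi E _ _ ?_
    rw [Category.assoc, sp, Category.comp_id, Category.id_comp]
    exact Hty.refl p
  obtain ⟨G, g0, g1⟩ := (Hty_iff _ _).1 hG
  -- the fibrewise homotopy
  have k1 : ι₀ ≫ TeTriv.two (fun b => cond b G (G ≫ p ≫ s)) =
      E ◁ TeTriv.cTwo ≫ CartesianMonoidalCategory.fst E Δ[1] ≫ p ≫ s := by
    refine TeTriv.two_ext fun b => ?_
    have e : TeTriv.tp b E ≫ ι₀ = ι₀ ≫ TeTriv.tp b E ▷ Δ[1] := rfl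
    have e' : TeTriv.tp b E ≫ E ◁ TeTriv.cTwo ≫ CartesianMonoidalCategory.fst E Δ[1] ≫ p ≫ s =
      p ≫ s := rfl
    rw [e', ← Category.assoc, e, Category.assoc, TeTriv.tp_two]
    cases b
    · show ι₀ ≫ G ≫ p ≫ s = p ≫ s
      rw [← Category.assoc, g0, Category.assoc, ← Category.assoc s, sp, Category.id_comp]
    · exact g0
  have k2 : ι₀ ≫ CartesianMonoidalCategory.fst E Δ[1] ▷ Δ[1] ≫ G ≫ p =
      (CartesianMonoidalCategory.fst E Δ[1] ≫ p ≫ s) ≫ p := by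
    rw [← Category.assoc, ι₀_comp, Category.assoc, ← Category.assoc ι₀, g0]
    simp only [Category.assoc, sp, Category.comp_id]
  have k3 : (E ◁ TeTriv.cTwo) ▷ Δ[1] ≫ CartesianMonoidalCategory.fst E Δ[1] ▷ Δ[1] ≫ G ≫ p =
      TeTriv.two (fun b => cond b G (G ≫ p ≫ s)) ≫ p := by
    refine TeTriv.two_ext' fun b => ?_
    have e : TeTriv.tp b E ▷ Δ[1] ≫ (E ◁ TeTriv.cTwo) ▷ Δ[1] ≫
      CartesianMonoidalCategory.fst E Δ[1] ▷ Δ[1] ≫ G ≫ p = G ≫ p := rfl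
    rw [e, ← Category.assoc, TeTriv.tp_two]
    cases b
    · show G ≫ p = (G ≫ p ≫ s) ≫ p
      simp only [Category.assoc, sp, Category.comp_id]
    · rfl
  obtain ⟨T, t1, t2, t3⟩ := TeTriv.rel0 (E ◁ TeTriv.cTwo) p hp _ _ _ k1 k2 k3
  obtain ⟨G2, hG2⟩ : ∃ G2 : E ⊗ Δ[1] ⟶ E, G2 = ι₁ ≫ T := ⟨_, rfl⟩
  have a : ∀ b : Bool, TeTriv.tp b E ≫ (E ◁ TeTriv.cTwo) ≫ G2 =
      ι₁ ≫ (cond b G (G ≫ p ≫ s) : E ⊗ Δ[1] ⟶ E) := by
    intro b
    have e : TeTriv.tp b E ≫ (E ◁ TeTriv.cTwo) ≫ ι₁ = ι₁ ≫ TeTriv.tp b E ▷ Δ[1] ≫ (E ◁ TeTriv.cTwo) ▷ Δ[1] :=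
      rfl
    rw [hG2, ← Category.assoc (E ◁ TeTriv.cTwo), ← Category.assoc, e, Category.assoc,
      Category.assoc, t2, TeTriv.tp_two]
  have a0 : ι₀ ≫ G2 = p ≫ s := by
    have h0 := a false
    rw [← Category.assoc, TeTriv.tp_c0] at h0
    rw [h0]
    show ι₁ ≫ G ≫ p ≫ s = p ≫ s
    rw [← Category.assoc, g1, Category.id_comp]
  have a1 : ι₁ ≫ G2 = 𝟙 E := by
    have h0 := a true
    rw [← Category.assoc, TeTriv.tp_c1] at h0
    rw [h0]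
    exact g1
  have a2 : G2 ≫ p = CartesianMonoidalCategory.fst E Δ[1] ≫ p := by
    rw [hG2, Category.assoc, t3, ← Category.assoc, ι₁_comp, Category.assoc,
      ← Category.assoc ι₁, g1, Category.id_comp]
  refine ⟨fun {k l} sq => ?_⟩
  have w := sq.w
  obtain ⟨D, d1, d2, d3⟩ := TeTriv.rel0 j p hp (l ≫ s) (k ▷ Δ[1] ≫ G2)
    (CartesianMonoidalCategory.fst L Δ[1] ≫ l) (by
      rw [← Category.assoc, ι₀_comp, Category.assoc, a0, ← Category.assoc, w, Category.assoc])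
    (by
      rw [← Category.assoc, ι₀_fst, Category.id_comp, Category.assoc, sp, Category.comp_id])
    (by
      rw [Category.assoc, a2]
      have e : k ▷ Δ[1] ≫ CartesianMonoidalCategory.fst E Δ[1] ≫ p =
        CartesianMonoidalCategory.fst K Δ[1] ≫ k ≫ p := rfl
      rw [e, w]
      rfl)
  refine ⟨⟨⟨ι₁ ≫ D, ?_, ?_⟩⟩⟩
  · rw [← Category.assoc, ← ι₁_comp, Category.assoc, d2, ← Category.assoc, ι₁_comp,
      Category.assoc, a1, Category.comp_id]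
  · rw [Category.assoc, d3, ← Category.assoc, ι₁_fst, Category.id_comp]

end Pool.Agent.SH
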