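import Mathlib
import Pool.Agent.SH.StmtsTE

/-!
# MP_2d0b73_an, block TE: the class `W T` is a `WClass`
-/

open CategoryTheory MonoidalCategory Simplicial SSet HomotopicalAlgebra Opposite Limits
open SSet.modelCategoryQuillen

namespace Pool.Agent.SH

theorem te_wt (h3 : TE_23_Stmt) (h7 : TE_GLUE_Stmt) (h8 : TE_SEQ_Stmt) : TE_WT_Stmt := by
  intro T hT
  obtain ⟨a1, a2, a3, a4, a5, a6, a7⟩ := h3 T hT
  exact
    { iso := fun f hf => a1 _ _ f hf
      comp := fun f g hf hg => a2 _ _ _ f g hf hg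
      cancelL := fun f g hf hfg => a3 _ _ _ f g hf hfg
      cancelR := fun f g hg hfg => a4 _ _ _ f g hg hfg
      six := fun f g h hfg hgh => a5 _ _ _ _ f g h hfg hgh
      proj := fun X n => a6 X n
      glue := fun i f g j i' f' g' j' a b c d hp hp' hi hi' e1 e2 e3 e4 ha hb hc =>
        h7 T hT _ _ _ _ _ _ _ _ i f g j i' f' g' j' a b c d hp hp' hi hi' e1 e2 e3 e4 ha hb hc
      copr := fun J X Y f hf => a7 J X Y f hf
      seq := fun F G α cF cG hF hG hFm hGm hα f hf =>
        h8 T hT F G α cF cG hF hG hFm hGm hα f hf }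

end Pool.Agent.SH
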