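import Mathlib
import Pool.Agent.SH.StmtsTE

/-!
# MP_2d0b73_an, block TE: the fibre lemma (C9)
-/

open CategoryTheory MonoidalCategory Simplicial SSet HomotopicalAlgebra Opposite Limits
open SSet.modelCategoryQuillen

namespace Pool.Agent.SH.WcFib

/-- Colimits are universal in `Type`. -/
theorem type_univ {J : Type} [Category.{0} J] {F F' : J ⥤ Type} {c : Cocone F}
    (hc : IsColimit c) (c' : Cocone F') (α : F' ⟶ F) (f : c'.pt ⟶ c.pt)
    (h : ∀ j, IsPullback (c'.ι.app j) (α.app j) f (c.ι.app j)) : Nonempty (IsColimit c') := by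
  classical
  have hw : ∀ j (z : F'.obj j), f (c'.ι.app j z) = c.ι.app j (α.app j z) := fun j z =>
    ConcreteCategory.congr_hom ((Types.isPullback_iff _ _ _ _).1 (h j)).1 z
  have hinj : ∀ j (z w : F'.obj j), c'.ι.app j z = c'.ι.app j w → α.app j z = α.app j w →
      z = w := fun j z w h1 h2 => ((Types.isPullback_iff _ _ _ _).1 (h j)).2.1 z w ⟨h1, h2⟩
  have hex : ∀ j (x : c'.pt) (y : F.obj j), f x = c.ι.app j y →
      ∃ z : F'.obj j, c'.ι.app j z = x ∧ α.app j z = y := fun j x y hxy =>
    ((Types.isPullback_iff _ _ _ _).1 (h j)).2.2 x y hxy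
  have hsurj : ∀ x : c'.pt, ∃ j, ∃ z : F'.obj j, c'.ι.app j z = x := by
    intro x
    obtain ⟨j, y, hy⟩ := Types.jointly_surjective_of_isColimit hc (f x)
    obtain ⟨z, hz, -⟩ := hex j x y hy.symm
    exact ⟨j, z, hz⟩
  choose L hL1 hL2 using hex
  have hnat : ∀ {j k : J} (u : j ⟶ k) (x : c'.pt) (y : F.obj j) (hxy : f x = c.ι.app j y)
      (hxy' : f x = c.ι.app k (F.map u y)),
      L k x (F.map u y) hxy' = F'.map u (L j x y hxy) := by
    intro j k u x y hxy hxy'
    apply hinj k
    · rw [hL1 k x _ hxy']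
      have h1 := ConcreteCategory.congr_hom (c'.w u) (L j x y hxy)
      exact (hL1 j x y hxy).symm.trans h1.symm
    · rw [hL2 k x _ hxy']
      have h1 := ConcreteCategory.congr_hom (α.naturality u) (L j x y hxy)
      have h2 : α.app k (F'.map u (L j x y hxy)) = F.map u (α.app j (L j x y hxy)) := h1
      rw [h2, hL2 j x y hxy]
  have hwell : ∀ (s : Cocone F') j k (z : F'.obj j) (w : F'.obj k),
      c'.ι.app j z = c'.ι.app k w → s.ι.app j z = s.ι.app k w := by
    intro s j k z w hzw
    let Φ : Cocone F :=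
      { pt := c'.pt → Option s.pt
        ι :=
          { app := fun j => ↾(fun y x => if hx : f x = c.ι.app j y then
              some (s.ι.app j (L j x y hx)) else none)
            naturality := by
              intro j k u
              ext y
              funext x
              have hck : c.ι.app k (F.map u y) = c.ι.app j y :=
                ConcreteCategory.congr_hom (c.w u) y
              change (if hx : f x = c.ι.app k (F.map u y) then
                some (s.ι.app k (L k x (F.map u y) hx)) else none) =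
                (if hx : f x = c.ι.app j y then some (s.ι.app j (L j x y hx)) else none)
              by_cases hxy : f x = c.ι.app j y
              · have hxy' : f x = c.ι.app k (F.map u y) := hxy.trans hck.symm
                rw [dif_pos hxy, dif_pos hxy', hnat u x y hxy hxy']
                have h1 : s.ι.app k (F'.map u (L j x y hxy)) = s.ι.app j (L j x y hxy) :=
                  ConcreteCategory.congr_hom (s.w u) (L j x y hxy)
                rw [h1]
              · have hxy' : ¬ f x = c.ι.app k (F.map u y) := fun hh => hxy (hh.trans hck)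
                rw [dif_neg hxy, dif_neg hxy'] } }
    have hkey : ∀ (j : J) (z : F'.obj j),
        (hc.desc Φ) (f (c'.ι.app j z)) (c'.ι.app j z) = some (s.ι.app j z) := by
      intro j z
      rw [hw j z]
      have h1 := ConcreteCategory.congr_hom (hc.fac Φ j) (α.app j z)
      have h2 : (hc.desc Φ) (c.ι.app j (α.app j z)) = Φ.ι.app j (α.app j z) := h1
      rw [h2]
      change (if hx : f (c'.ι.app j z) = c.ι.app j (α.app j z) then
        some (s.ι.app j (L j (c'.ι.app j z) (α.app j z) hx)) else none) = _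
      rw [dif_pos (hw j z), hinj j _ _ (hL1 j _ _ (hw j z)) (hL2 j _ _ (hw j z))]
    have h1 := hkey j z
    have h2 := hkey k w
    rw [hzw] at h1
    exact Option.some.inj (h1.symm.trans h2)
  refine ⟨IsColimit.ofExistsUnique fun s => ?_⟩
  choose J0 Z0 hZ0 using hsurj
  refine ⟨↾(fun x => s.ι.app (J0 x) (Z0 x)), ?_, ?_⟩
  · intro j
    ext z
    exact hwell s _ _ _ _ (hZ0 _)
  · intro m hm
    ext x
    have h1 := ConcreteCategory.congr_hom (hm (J0 x)) (Z0 x)
    have h2 : m (c'.ι.app (J0 x) (Z0 x)) = s.ι.app (J0 x) (Z0 x) := h1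
    rw [hZ0 x] at h2
    exact h2

/-- Colimits are universal in simplicial sets. -/
theorem sset_univ {J : Type} [Category.{0} J] {F F' : J ⥤ SSet.{0}} {c : Cocone F}
    (hc : IsColimit c) (c' : Cocone F') (α : F' ⟶ F) (f : c'.pt ⟶ c.pt)
    (h : ∀ j, IsPullback (c'.ι.app j) (α.app j) f (c.ι.app j)) : Nonempty (IsColimit c') := by
  have hn : ∀ n : SimplexCategoryᵒᵖ,
      Nonempty (IsColimit (((CategoryTheory.evaluation _ _).obj n).mapCocone c')) := fun n =>
    type_univ (isColimitOfPreserves ((CategoryTheory.evaluation _ _).obj n) hc)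
      (((CategoryTheory.evaluation _ _).obj n).mapCocone c')
      (Functor.whiskerRight α ((CategoryTheory.evaluation _ _).obj n)) (f.app n)
      (fun j => (h j).map ((CategoryTheory.evaluation _ _).obj n))
  exact ⟨evaluationJointlyReflectsColimits _ fun n => (hn n).some⟩

/-- Monomorphisms are stable under pullback. -/
theorem mono_of_isPullback {A X Y Z : SSet.{0}} {f : A ⟶ X} {g : A ⟶ Y} {h : X ⟶ Z} {i : Y ⟶ Z}
    (H : IsPullback f g h i) (hi : Mono i) : Mono f := by
  constructor
  intro T u v huv
  refine H.hom_ext huv ?_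
  rw [← cancel_mono i, Category.assoc, Category.assoc, ← H.w, reassoc_of% huv]

end Pool.Agent.SH.WcFib

namespace Pool.Agent.SH

theorem wc_fib (h : SK_IND_Stmt) : WC_FIB_Stmt := by
  intro P hP E B p hfib
  have key := h B (fun X f => ∀ (Z : SSet.{0}) (a : Z ⟶ E) (q : Z ⟶ X), IsPullback a q p f → P q)
    ?_ ?_ ?_ ?_ ?_ B (𝟙 B)
  · exact key E (𝟙 E) p (IsPullback.of_horiz_isIso ⟨by simp⟩)
  · intro X Y e f hX Z a q hq
    have h1 : IsPullback a (q ≫ e.inv) p (e.hom ≫ f) :=
      IsPullback.of_iso hq (Iso.refl _) (Iso.refl _) e.symm (Iso.refl _) (by simp) (by simp)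
        (by simp) (by simp)
    have h2 := hP.comp _ _ (hX Z a _ h1) (hP.iso e.hom inferInstance)
    rwa [Category.assoc, e.inv_hom_id, Category.comp_id] at h2
  · intro n b Z a q hq
    have h1 := hP.comp _ _ (hP.iso hq.isoPullback.hom inferInstance) (hfib n b)
    rwa [hq.isoPullback_hom_snd] at h1
  · intro J X f hX Z a q hq
    have sq : ∀ j, IsPullback (pullback.fst q (Limits.Sigma.ι X j))
        (pullback.snd q (Limits.Sigma.ι X j)) q (Limits.Sigma.ι X j) := fun j =>
      IsPullback.of_hasPullback _ _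
    have hPj : ∀ j, P (pullback.snd q (Limits.Sigma.ι X j)) := by
      intro j
      have h1 := (sq j).paste_horiz hq
      rw [Limits.Sigma.ι_desc] at h1
      exact hX j _ _ _ h1
    have hcop := hP.copr J _ _ _ hPj
    obtain ⟨hcol⟩ := WcFib.sset_univ (coproductIsCoproduct X)
      (Cofan.mk Z (fun j => pullback.fst q (Limits.Sigma.ι X j)))
      (Discrete.natTrans fun j => pullback.snd q (Limits.Sigma.ι X j.as)) q
      (fun j => sq j.as)
    let e := (coproductIsCoproduct (fun j => pullback q (Limits.Sigma.ι X j))).coconePointUniqueUpToIso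
      hcol
    have he : ∀ j, Limits.Sigma.ι (fun j => pullback q (Limits.Sigma.ι X j)) j ≫ e.hom =
        pullback.fst q (Limits.Sigma.ι X j) := fun j =>
      IsColimit.comp_coconePointUniqueUpToIso_hom _ _ (Discrete.mk j)
    have heq : e.hom ≫ q = Limits.Sigma.map (fun j => pullback.snd q (Limits.Sigma.ι X j)) := by
      apply Limits.Sigma.hom_ext
      intro j
      rw [reassoc_of% (he j), (sq j).w, Limits.Sigma.ι_map]
    exact hP.cancelL e.hom q (hP.iso e.hom inferInstance) (by rw [heq]; exact hcop)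
  · intro A X Y Z i g i' g' f hpo hmono hA hX hY W a q hq
    have sX : IsPullback (pullback.fst q i') (pullback.snd q i') q i' :=
      IsPullback.of_hasPullback _ _
    have sY : IsPullback (pullback.fst q g') (pullback.snd q g') q g' :=
      IsPullback.of_hasPullback _ _
    obtain ⟨WA, u, v, sA⟩ : ∃ (WA : SSet.{0}) (u : WA ⟶ W) (v : WA ⟶ A),
      IsPullback u v q (i ≫ i') := ⟨_, _, _, IsPullback.of_hasPullback _ _⟩
    let iW : WA ⟶ pullback q i' := sX.lift u (v ≫ i) (by rw [sA.w, Category.assoc])
    let gW : WA ⟶ pullback q g' := sY.lift u (v ≫ g) (by rw [sA.w, Category.assoc, hpo.w])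
    have iW1 : iW ≫ pullback.fst q i' = u := sX.lift_fst _ _ _
    have iW2 : iW ≫ pullback.snd q i' = v ≫ i := sX.lift_snd _ _ _
    have gW1 : gW ≫ pullback.fst q g' = u := sY.lift_fst _ _ _
    have gW2 : gW ≫ pullback.snd q g' = v ≫ g := sY.lift_snd _ _ _
    have sAi : IsPullback iW v (pullback.snd q i') i := by
      refine IsPullback.of_right ?_ iW2 sX
      rw [iW1]
      exact sA
    have sAg : IsPullback gW v (pullback.snd q g') g := by
      refine IsPullback.of_right ?_ gW2 sY
      rw [gW1, ← hpo.w]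
      exact sA
    have hpoW : IsPushout iW gW (pullback.fst q i') (pullback.fst q g') :=
      ((Adhesive.van_kampen hpo) iW gW (pullback.fst q i') (pullback.fst q g')
        v (pullback.snd q i') (pullback.snd q g') q sAi sAg ⟨sX.w⟩ ⟨sY.w⟩
        ⟨by rw [iW1, gW1]⟩).2 ⟨sX, sY⟩
    have hA' : P v := by
      have h1 := sA.paste_horiz hq
      rw [Category.assoc] at h1
      exact hA _ _ _ h1
    exact hP.glue iW gW _ _ i g i' g' _ _ _ q hpoW hpo
      (WcFib.mono_of_isPullback sAi hmono) hmono iW2 gW2 sX.w sY.w hA'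
      (hX _ _ _ (sX.paste_horiz hq)) (hY _ _ _ (sY.paste_horiz hq))
  · intro F c f hc hmono hF Z a q hq
    let α₀ := (Functor.const ℕ).map q
    have sq : ∀ n : ℕ, IsPullback ((pullback.fst α₀ c.ι).app n) ((pullback.snd α₀ c.ι).app n) q
        (c.ι.app n) := fun n =>
      (IsPullback.of_hasPullback α₀ c.ι).map ((CategoryTheory.evaluation ℕ SSet.{0}).obj n)
    obtain ⟨hcol⟩ := WcFib.sset_univ hc ⟨Z, pullback.fst α₀ c.ι⟩ (pullback.snd α₀ c.ι) q sq
    have hmonoG : ∀ n : ℕ, Mono ((pullback α₀ c.ι).map (homOfLE (Nat.le_succ n))) := by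
      intro n
      constructor
      intro T u v huv
      refine (sq n).hom_ext ?_ ?_
      · have h1 := (pullback.fst α₀ c.ι).naturality (homOfLE (Nat.le_succ n))
        have h2 : (pullback α₀ c.ι).map (homOfLE (Nat.le_succ n)) ≫
            (pullback.fst α₀ c.ι).app (n + 1) = (pullback.fst α₀ c.ι).app n :=
          h1.trans (Category.comp_id _)
        rw [← h2, reassoc_of% huv]
      · have hm := hmono n
        rw [← cancel_mono (F.map (homOfLE (Nat.le_succ n))), Category.assoc, Category.assoc,
          ← (pullback.snd α₀ c.ι).naturality (homOfLE (Nat.le_succ n)), reassoc_of% huv]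
    have hPn : ∀ n : ℕ, P ((pullback.snd α₀ c.ι).app n) := fun n =>
      hF n _ _ _ ((sq n).paste_horiz hq)
    exact hP.seq (pullback α₀ c.ι) F (pullback.snd α₀ c.ι) ⟨Z, pullback.fst α₀ c.ι⟩ c hcol hc
      hmonoG hmono hPn q (fun n => (sq n).w)

end Pool.Agent.SH
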