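import Mathlib
import Pool.Agent.SH.StmtsTE

/-!
# MP_2d0b73_an, block TE: horn inclusions belong to every WClass
-/

open CategoryTheory MonoidalCategory Simplicial SSet HomotopicalAlgebra Opposite Limits
open SSet.modelCategoryQuillen

namespace Pool.Agent.SH

namespace WcHorn

/-- The monotone map interpolating between `g₀ ∘ θ` and `g₁ ∘ θ`. -/
def mixHom {a N : ℕ} (g₀ g₁ : Fin (N + 1) →o Fin (N + 1)) (hg : ∀ x, g₀ x ≤ g₁ x)
    (θ : Fin (a + 1) →o Fin (N + 1)) (φ : Fin (a + 1) →o Fin 2) :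
    Fin (a + 1) →o Fin (N + 1) where
  toFun j := if φ j = 0 then g₀ (θ j) else g₁ (θ j)
  monotone' := by
    intro j k hjk
    have h1 : θ j ≤ θ k := θ.monotone hjk
    have h2 : φ j ≤ φ k := φ.monotone hjk
    by_cases hk : φ k = 0
    · have hj : φ j = 0 := by
        rw [hk] at h2
        exact Fin.le_zero_iff.1 h2
      simp only [hj, hk, if_true]
      exact g₀.monotone h1
    · by_cases hj : φ j = 0
      · simp only [hj, hk, if_true, if_false]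
        exact (g₀.monotone h1).trans (hg _)
      · simp only [hj, hk, if_false]
        exact g₁.monotone h1

/-- The homotopy on `Δ[N]`. -/
noncomputable def mix {N : ℕ} (g₀ g₁ : Fin (N + 1) →o Fin (N + 1)) (hg : ∀ x, g₀ x ≤ g₁ x) :
    (Δ[N] : SSet.{0}) ⊗ Δ[1] ⟶ (Δ[N] : SSet.{0}) where
  app n := ↾fun x => stdSimplex.objMk
    (mixHom g₀ g₁ hg (stdSimplex.asOrderHom x.1) (stdSimplex.asOrderHom x.2))
  naturality := by
    intro a b f
    ext x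
    rfl

/-- A subcomplex of `Δ[N]` stable under replacing some of the vertices by `i`. -/
def Stab {N : ℕ} (A : (Δ[N] : SSet.{0}).Subcomplex) (i : Fin (N + 1)) : Prop :=
  ∀ (m : SimplexCategoryᵒᵖ) (θ θ' : (Δ[N] : SSet.{0}).obj m), θ ∈ A.obj m →
    (∀ j, stdSimplex.asOrderHom θ' j = stdSimplex.asOrderHom θ j ∨
      stdSimplex.asOrderHom θ' j = i) → θ' ∈ A.obj m

/-- The monotone map `max (-) i`. -/
def maxI {N : ℕ} (i : Fin (N + 1)) : Fin (N + 1) →o Fin (N + 1) where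
  toFun x := max x i
  monotone' := by
    intro x y hxy
    exact max_le_max hxy le_rfl

theorem stab_mix {N : ℕ} (A : (Δ[N] : SSet.{0}).Subcomplex) (i : Fin (N + 1)) (hA : Stab A i)
    (g₀ g₁ : Fin (N + 1) →o Fin (N + 1)) (hg : ∀ x, g₀ x ≤ g₁ x)
    (h0 : ∀ x, g₀ x = x ∨ g₀ x = i) (h1 : ∀ x, g₁ x = x ∨ g₁ x = i) :
    Subcomplex.range (A.ι ▷ (Δ[1] : SSet.{0}) ≫ mix g₀ g₁ hg) ≤ A := by
  intro m y hy
  obtain ⟨x, rfl⟩ := hy
  refine hA m x.1.1 _ x.1.2 ?_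
  intro j
  change (if stdSimplex.asOrderHom x.2 j = 0 then g₀ (stdSimplex.asOrderHom x.1.1 j)
    else g₁ (stdSimplex.asOrderHom x.1.1 j)) = _ ∨
    (if stdSimplex.asOrderHom x.2 j = 0 then g₀ (stdSimplex.asOrderHom x.1.1 j)
    else g₁ (stdSimplex.asOrderHom x.1.1 j)) = _
  split_ifs
  · exact h0 _
  · exact h1 _

/-- The endomorphism of `Δ[N]` given by a monotone map. -/
noncomputable def endo {N : ℕ} (g : Fin (N + 1) →o Fin (N + 1)) :
    (Δ[N] : SSet.{0}) ⟶ (Δ[N] : SSet.{0}) :=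
  SSet.stdSimplex.map (SimplexCategory.Hom.mk g)

theorem mix_zero {N : ℕ} (g₀ g₁ : Fin (N + 1) →o Fin (N + 1)) (hg : ∀ x, g₀ x ≤ g₁ x) :
    ι₀ ≫ mix g₀ g₁ hg = endo g₀ := by
  ext m x
  rfl

theorem mix_one {N : ℕ} (g₀ g₁ : Fin (N + 1) →o Fin (N + 1)) (hg : ∀ x, g₀ x ≤ g₁ x) :
    ι₁ ≫ mix g₀ g₁ hg = endo g₁ := by
  ext m x
  rfl

theorem hty_sub {N : ℕ} (A : (Δ[N] : SSet.{0}).Subcomplex) (i : Fin (N + 1)) (hA : Stab A i)
    (g₀ g₁ : Fin (N + 1) →o Fin (N + 1)) (hg : ∀ x, g₀ x ≤ g₁ x)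
    (h0 : ∀ x, g₀ x = x ∨ g₀ x = i) (h1 : ∀ x, g₁ x = x ∨ g₁ x = i)
    (f₀ f₁ : (A : SSet.{0}) ⟶ A) (hf0 : f₀ ≫ A.ι = A.ι ≫ endo g₀)
    (hf1 : f₁ ≫ A.ι = A.ι ≫ endo g₁) : Hty f₀ f₁ := by
  refine (Hty_iff _ _).2 ⟨Subcomplex.lift (A.ι ▷ (Δ[1] : SSet.{0}) ≫ mix g₀ g₁ hg)
    (stab_mix A i hA g₀ g₁ hg h0 h1), ?_, ?_⟩
  · rw [← cancel_mono A.ι, Category.assoc, Subcomplex.lift_ι, hf0, ι₀_comp_assoc, mix_zero]
  · rw [← cancel_mono A.ι, Category.assoc, Subcomplex.lift_ι, hf1, ι₁_comp_assoc, mix_one]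

/-- A stable subcomplex containing the vertex `i` is contractible in the sense of `P`. -/
theorem unit_mem (h : WC_HEQ_Stmt) (P : MorphismProperty SSet.{0}) (hP : WClass P) {N : ℕ}
    (A : (Δ[N] : SSet.{0}).Subcomplex) (i : Fin (N + 1)) (hA : Stab A i)
    (hi : stdSimplex.obj₀Equiv.symm i ∈ A.obj (op ⦋0⦌)) :
    P (CartesianMonoidalCategory.toUnit (A : SSet.{0})) := by
  have hm : ∃ f : (A : SSet.{0}) ⟶ A, f ≫ A.ι = A.ι ≫ endo (maxI i) := by
    refine ⟨Subcomplex.lift (A.ι ≫ endo (maxI i)) ?_, Subcomplex.lift_ι _ _⟩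
    intro m y hy
    obtain ⟨x, rfl⟩ := hy
    refine hA m x.1 _ x.2 ?_
    intro j
    change max (stdSimplex.asOrderHom x.1 j) i = _ ∨ max (stdSimplex.asOrderHom x.1 j) i = _
    rcases max_choice (stdSimplex.asOrderHom x.1 j) i with h1 | h1
    · exact Or.inl h1
    · exact Or.inr h1
  obtain ⟨f, hf⟩ := hm
  have hmax : ∀ x : Fin (N + 1), maxI i x = x ∨ maxI i x = i := fun x => max_choice x i
  have e1 : Hty (𝟙 (A : SSet.{0})) f := by
    refine hty_sub A i hA OrderHom.id (maxI i) (fun x => le_max_left _ _)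
      (fun x => Or.inl rfl) hmax _ _ ?_ hf
    have h2 : (endo OrderHom.id : (Δ[N] : SSet.{0}) ⟶ Δ[N]) = 𝟙 _ := stdSimplex.map_id _
    rw [Category.id_comp, h2, Category.comp_id]
  have e2 : Hty (SSet.const (⟨stdSimplex.obj₀Equiv.symm i, hi⟩ : (A : SSet.{0}) _⦋0⦌)) f := by
    refine hty_sub A i hA (OrderHom.const _ i) (maxI i) (fun x => le_max_right _ _)
      (fun x => Or.inr rfl) hmax _ _ ?_ hf
    rfl
  refine (h P hP _ _ (CartesianMonoidalCategory.toUnit (A : SSet.{0}))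
    (SSet.const (⟨stdSimplex.obj₀Equiv.symm i, hi⟩ : (A : SSet.{0}) _⦋0⦌)) ?_ ?_).1
  · rw [SSet.comp_const]
    exact (Relation.EqvGen.rel _ _ e2).trans _ _ _ ((Relation.EqvGen.rel _ _ e1).symm _ _)
  · rw [CartesianMonoidalCategory.toUnit_unique (SSet.const
      (⟨stdSimplex.obj₀Equiv.symm i, hi⟩ : (A : SSet.{0}) _⦋0⦌) ≫
        CartesianMonoidalCategory.toUnit (A : SSet.{0})) (𝟙 _)]
    exact Relation.EqvGen.refl _

theorem stab_horn {N : ℕ} (i : Fin (N + 1)) : Stab (Λ[N, i]) i := by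
  intro m θ θ' hθ h
  rw [mem_horn_iff] at hθ ⊢
  intro h1
  apply hθ
  rw [Set.eq_univ_iff_forall] at h1 ⊢
  intro x
  rcases h1 x with ⟨j, hj⟩ | hx
  · rcases h j with h2 | h2
    · exact Or.inl ⟨j, h2.symm.trans hj⟩
    · exact Or.inr (by rw [Set.mem_singleton_iff, ← hj, h2])
  · exact Or.inr hx

theorem vertex_horn {n : ℕ} (i : Fin (n + 2)) :
    (stdSimplex.obj₀Equiv.symm i : (Δ[n + 1] : SSet.{0}) _⦋0⦌) ∈ (Λ[n + 1, i]).obj (op ⦋0⦌) := by
  rw [mem_horn_iff]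
  intro h1
  rw [Set.eq_univ_iff_forall] at h1
  have h2 : ∀ x : Fin (n + 2), x = i := by
    intro x
    rcases h1 x with ⟨j, hj⟩ | hx
    · exact hj.symm
    · exact hx
  have h3 := (h2 0).trans (h2 (Fin.last (n + 1))).symm
  have h4 := congrArg Fin.val h3
  simp at h4

theorem unit_simplex (P : MorphismProperty SSet.{0}) (hP : WClass P) (N : ℕ) :
    P (CartesianMonoidalCategory.toUnit (Δ[N] : SSet.{0})) := by
  have h1 := hP.comp (λ_ (Δ[N] : SSet.{0})).inv _ (hP.iso _ inferInstance)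
    (hP.proj (𝟙_ SSet.{0}) N)
  rwa [CartesianMonoidalCategory.toUnit_unique ((λ_ (Δ[N] : SSet.{0})).inv ≫
    CartesianMonoidalCategory.fst (𝟙_ SSet.{0}) (Δ[N] : SSet.{0}))
    (CartesianMonoidalCategory.toUnit (Δ[N] : SSet.{0}))] at h1

end WcHorn

open WcHorn in
/-- (C8) horn inclusions. -/
theorem wc_horn (h : WC_HEQ_Stmt) : WC_HORN_Stmt := by
  intro P hP n i
  refine hP.cancelR _ (CartesianMonoidalCategory.toUnit (Δ[n + 1] : SSet.{0}))
    (unit_simplex P hP (n + 1)) ?_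
  rw [CartesianMonoidalCategory.toUnit_unique ((Λ[n + 1, i] :
    (Δ[n + 1] : SSet.{0}).Subcomplex).ι ≫ CartesianMonoidalCategory.toUnit (Δ[n + 1] : SSet.{0}))
    (CartesianMonoidalCategory.toUnit (Λ[n + 1, i] : SSet.{0}))]
  exact unit_mem h P hP _ i (stab_horn i) (vertex_horn i)

end Pool.Agent.SH
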