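import Mathlib
import Pool.Agent.SH.Te23
import Pool.Agent.SH.TeBdry
import Pool.Agent.SH.TeF2
import Pool.Agent.SH.TeGlue
import Pool.Agent.SH.TeHty
import Pool.Agent.SH.TeKey
import Pool.Agent.SH.TeLpr
import Pool.Agent.SH.TeR
import Pool.Agent.SH.TeSeq
import Pool.Agent.SH.TeTriv
import Pool.Agent.SH.TeWT
import Pool.Agent.SH.TeAcy
import Pool.Agent.SH.WcCell
import Pool.Agent.SH.WcFib
import Pool.Agent.SH.WcHorn
import Pool.Agent.SH.WcProd
import Pool.Agent.SH.WcPush
import Pool.Agent.SH.WcUseq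
import Pool.Agent.SH.SkInd
import Pool.Agent.SH.SvCh
import Pool.Agent.SH.SvExt
import Pool.Agent.SH.F2WC
import Pool.Agent.SH.F2Moore

/-!
# MP_2d0b73_an, block TE: all theorems without hypotheses
-/

open CategoryTheory MonoidalCategory Simplicial SSet HomotopicalAlgebra Opposite Limits

namespace Pool.Agent.SH.TE

theorem hty : TE_HTY_Stmt := te_hty
theorem hep : TE_HEP_Stmt := te_hep
theorem bdry : TE_BDRY_Stmt := te_bdry
theorem triv : TE_TRIV_Stmt := te_triv hty hep
theorem keye : TE_KEYE_Stmt := te_keye hty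
theorem key : TE_KEY_Stmt := te_key hty triv
theorem rpush : TE_RPUSH_Stmt := te_rpush
theorem rseq : TE_RSEQ_Stmt := te_rseq
theorem t23 : TE_23_Stmt := te_23 hty
theorem lpr : TE_LPR_Stmt := te_lpr hty hep t23 keye key rpush
theorem glue : TE_GLUE_Stmt := te_glue t23 keye key rpush lpr
theorem seq : TE_SEQ_Stmt := te_seq hty t23 keye key rpush glue
theorem wt : TE_WT_Stmt := te_wt t23 glue seq
theorem push : WC_PUSH_Stmt := wc_push
theorem heq : WC_HEQ_Stmt := wc_heq
theorem union : WC_UNION_Stmt := wc_union push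
theorem useq : WC_USEQ_Stmt := wc_useq
theorem skind : SK_IND_Stmt := sk_ind
theorem prod : WC_PROD_Stmt := wc_prod skind push
theorem pp : WC_PP_Stmt := wc_pp prod push union
theorem horn : WC_HORN_Stmt := wc_horn heq
theorem fib : WC_FIB_Stmt := wc_fib skind
theorem acy : WC_ACY_Stmt := wc_acy prod
theorem cell : WC_CELL_Stmt := wc_cell push useq
theorem open' : WC_OPEN_Stmt := wc_open cell prod acy
theorem uacy : WC_UACY_Stmt := wc_uacy
theorem disc : WC_DISC_Stmt := wc_disc
theorem f2wc : F2_WC_Stmt := f2_wc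
theorem f2 : TE_F2_Stmt := te_f2 f2wc pp horn keye wt
theorem moore : F2_MOORE_Stmt := f2_moore
theorem svch : SV_CH_Stmt := sv_ch
theorem svext : SV_EXT_Stmt := sv_ext svch
theorem svext' : SV_EXT'_Stmt := sv_ext' svext

theorem lt_iff_w (T : SSet.{0}) (hT : SSet.KanComplex T) {A B : SSet.{0}} (i : A ⟶ B) :
    LT T i ↔ Mono i ∧ W T i := Pool.Agent.SH.lt_iff_w bdry keye key T hT i
theorem tacyclic_iff (T : SSet.{0}) (hT : SSet.KanComplex T) (X : SSet.{0}) :
    TAcyclic T X ↔ Nonempty (X _⦋0⦌) ∧ W T (CartesianMonoidalCategory.toUnit X) :=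
  Pool.Agent.SH.tacyclic_iff bdry keye key t23 T hT X
theorem w_class (T : SSet.{0}) (hT : SSet.KanComplex T) : WClass (W T) := wt T hT

end Pool.Agent.SH.TE
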