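import Mathlib
import Pool.Agent.SH.StmtsV

/-!
# MP_2d0b73_an, block III-T, module TT_COA: the coaugmentation of the resolution
-/

open CategoryTheory Simplicial SSet Opposite MonoidalCategory

noncomputable section

namespace Pool.Agent.SH.TT

namespace COA

/-- The iterated unit. -/
def u (A : Pointed.{0}) (s : ℕ) : iob RM A 0 ⟶ iob RM A (s + 1) :=
  Fm RM A (s + 1) 0 (emp (s + 1))

theorem u_nat {A B : Pointed.{0}} (f : A ⟶ B) (s : ℕ) :
    (it RM 0).map f ≫ u B s = u A s ≫ (it RM (s + 1)).map f :=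
  Fm_nat RM f (s + 1) 0 (emp (s + 1))

theorem u_cof (A : Pointed.{0}) (s : ℕ) (i : Fin (s + 2)) :
    u A s ≫ ((reso RM).map (SimplexCategory.δ i)).app A = u A (s + 1) := by
  have h := Fm_comp RM A (s + 2) (s + 1) 0 (emp (s + 1)) (SimplexCategory.δ i).toOrderHom
  have h2 : (SimplexCategory.δ i).toOrderHom.comp (emp (s + 1)) = emp (s + 2) := by
    ext j
    exact j.elim0
  rw [h2] at h
  exact h

theorem u_zero (A : Pointed.{0}) : u A 0 = et RM A 0 := by
  have h : Fm RM A 0 0 (emp 0) = 𝟙 _ := by unfold Fm; rfl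
  rw [u, Fm_zero, h, Category.id_comp]

theorem et_zero (A : Pointed.{0}) (a : A.X) : (et RM A 0).toFun a = brk A.point a := by
  rfl

end COA

open COA

theorem tt_coa : Stmt_COA := by
  intro m
  refine ⟨{ f := fun s k x _ => (u ((Sph m).obj k) s).toFun x
            nat := ?_
            cof := ?_ }, ?_, ?_⟩
  · intro s k l α z t
    exact congrFun (congrArg Pointed.Hom.toFun (u_nat ((Sph m).map α) s)) z
  · intro s i k z t
    exact (congrFun (congrArg Pointed.Hom.toFun (u_cof ((Sph m).obj k) s i)) z).symm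
  · intro k x t
    have h := congrFun (congrArg Pointed.Hom.toFun (u_zero ((Sph m).obj k))) x
    exact h.trans (et_zero ((Sph m).obj k) x)
  · intro s k t
    exact (u ((Sph m).obj k) s).map_point

end Pool.Agent.SH.TT
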