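import Mathlib
import Pool.Agent.SH.StmtsV

/-!
# MP_2d0b73_an, block III-T (TT): the cone lemma
-/

open CategoryTheory Simplicial SSet Opposite MonoidalCategory

noncomputable section

namespace Pool.Agent.SH.TT

namespace CONE

/-! ### Faces and degeneracies of simplicial vector spaces -/

/-- The face `d_i`. -/
def fc (V : SV) {n : ℕ} (i : Fin (n + 2)) : V.obj (bx (n + 1)) →ₗ[ZMod 2] V.obj (bx n) :=
  (V.map (dop i)).hom

/-- The degeneracy `s_i`. -/
def dg (V : SV) {n : ℕ} (i : Fin (n + 1)) : V.obj (bx n) →ₗ[ZMod 2] V.obj (bx (n + 1)) :=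
  (V.map (sop i)).hom

theorem fc_def (V : SV) {n : ℕ} (i : Fin (n + 2)) (x : V.obj (bx (n + 1))) :
    V.map (dop i) x = fc V i x := rfl

theorem fc_fc (V : SV) {n : ℕ} {i j : Fin (n + 2)} (h : i ≤ j) (x : V.obj (bx (n + 2))) :
    fc V i (fc V j.succ x) = fc V j (fc V i.castSucc x) :=
  congrArg (fun φ : V.obj (bx (n + 2)) ⟶ V.obj (bx n) => φ.hom x)
    (SimplicialObject.δ_comp_δ V h)

theorem fc_dg_le (V : SV) {n : ℕ} {i : Fin (n + 2)} {j : Fin (n + 1)} (h : i ≤ j.castSucc)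
    (x : V.obj (bx (n + 1))) : fc V i.castSucc (dg V j.succ x) = dg V j (fc V i x) :=
  congrArg (fun φ : V.obj (bx (n + 1)) ⟶ V.obj (bx (n + 1)) => φ.hom x)
    (SimplicialObject.δ_comp_σ_of_le V h)

theorem fc_dg_self (V : SV) {n : ℕ} (i : Fin (n + 1)) (x : V.obj (bx n)) :
    fc V i.castSucc (dg V i x) = x :=
  congrArg (fun φ : V.obj (bx n) ⟶ V.obj (bx n) => φ.hom x) (SimplicialObject.δ_comp_σ_self V)

theorem aself {V : SV} {k : Dop} (x : V.obj k) : x + x = 0 := by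
  have h : (2 : ZMod 2) • x = 0 := by
    have h2 : (2 : ZMod 2) = 0 := by decide
    rw [h2, zero_smul]
  rwa [two_smul] at h

/-- Last horn filler. -/
theorem horn (V : SV) (n : ℕ) (y : Fin (n + 2) → V.obj (bx (n + 1)))
    (hy : ∀ i j : Fin (n + 1), i ≤ j →
      fc V i.castSucc (y j.succ) = fc V j.castSucc (y i.castSucc)) :
    ∃ w : V.obj (bx (n + 2)), ∀ i : Fin (n + 2), fc V i.castSucc w = y i := by
  have key : ∀ m : ℕ, m ≤ n + 2 → ∃ w : V.obj (bx (n + 2)), ∀ i : Fin (n + 2), (i : ℕ) < m →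
      fc V i.castSucc w = y i := by
    intro m
    induction m with
    | zero =>
      intro _
      exact ⟨0, fun i hi => absurd hi (Nat.not_lt_zero _)⟩
    | succ m ih =>
      intro hm
      obtain ⟨w, hw⟩ := ih (by omega)
      obtain ⟨j, hj⟩ : ∃ j : Fin (n + 2), (j : ℕ) = m := ⟨⟨m, by omega⟩, rfl⟩
      refine ⟨w + dg V j (y j + fc V j.castSucc w), fun i hi => ?_⟩
      rw [map_add]
      rcases Nat.lt_succ_iff_lt_or_eq.1 hi with h | h
      · have h1 : fc V i.castSucc (dg V j (y j + fc V j.castSucc w)) = 0 := by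
          have hj0 : j ≠ 0 := by
            intro h0
            rw [h0] at hj
            simp only [Fin.val_zero] at hj
            omega
          obtain ⟨j', rfl⟩ := Fin.exists_succ_eq.2 hj0
          have hle : i ≤ j'.castSucc := by
            rw [Fin.le_def]
            simp only [Fin.val_succ] at hj
            simp only [Fin.val_castSucc]
            omega
          rw [fc_dg_le V hle, map_add]
          have hi0 : i ≠ Fin.last (n + 1) := by
            intro h0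
            rw [h0] at hle
            rw [Fin.le_def] at hle
            simp only [Fin.val_last, Fin.val_castSucc] at hle
            omega
          obtain ⟨i', rfl⟩ := Fin.exists_castSucc_eq.2 hi0
          have hle' : i' ≤ j' := by
            rw [Fin.le_def] at hle ⊢
            simpa using hle
          have e1 := fc_fc V hle w
          rw [show (j'.castSucc).succ = (j'.succ).castSucc from Fin.succ_castSucc j', hw _ h] at e1
          rw [hy i' j' hle', e1, aself, map_zero]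
        rw [h1, add_zero]
        exact hw i h
      · have hij : i = j := Fin.ext (h.trans hj.symm)
        subst hij
        rw [fc_dg_self]
        have h2 := aself (fc V i.castSucc w)
        calc fc V i.castSucc w + (y i + fc V i.castSucc w)
            = y i + (fc V i.castSucc w + fc V i.castSucc w) := by abel
          _ = y i := by rw [h2, add_zero]
  obtain ⟨w, hw⟩ := key (n + 2) le_rfl
  exact ⟨w, fun i => hw i i.2⟩

/-! ### Moore cycles and boundaries -/

theorem mbd_zero (V : SV) (t : ℕ) : MBd V t 0 := ⟨0, map_zero _, fun _ => map_zero _⟩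

theorem mbd_add {V : SV} {t : ℕ} {a b : V.obj (bx t)} (ha : MBd V t a) (hb : MBd V t b) :
    MBd V t (a + b) := by
  obtain ⟨w, h1, h2⟩ := ha
  obtain ⟨v, h3, h4⟩ := hb
  refine ⟨w + v, ?_, fun i => ?_⟩
  · rw [map_add, h1, h3]
  · rw [map_add, h2, h4, add_zero]

theorem mbd_sum {V : SV} {t : ℕ} {J : Type} (s : Finset J) (a : J → V.obj (bx t))
    (h : ∀ j ∈ s, MBd V t (a j)) : MBd V t (∑ j ∈ s, a j) := by
  classical
  induction s using Finset.induction_on with
  | empty => rw [Finset.sum_empty]; exact mbd_zero V t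
  | insert j s hj ih =>
    rw [Finset.sum_insert hj]
    exact mbd_add (h j (Finset.mem_insert_self j s))
      (ih fun i hi => h i (Finset.mem_insert_of_mem hi))

theorem mcyc_add {V : SV} {t : ℕ} {a b : V.obj (bx t)} (ha : MCyc V t a) (hb : MCyc V t b) :
    MCyc V t (a + b) := by
  intro k α hα
  rw [map_add, ha k α hα, hb k α hα, add_zero]

theorem mcyc_sum {V : SV} {t : ℕ} {J : Type} (s : Finset J) (a : J → V.obj (bx t))
    (h : ∀ j ∈ s, MCyc V t (a j)) : MCyc V t (∑ j ∈ s, a j) := by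
  intro k α hα
  rw [map_sum]
  exact Finset.sum_eq_zero fun j hj => h j hj k α hα

theorem mcyc_cof {D : CoV} {s t : ℕ} {z : (D.V s).obj (bx t)} (hz : MCyc (D.V s) t z)
    (i : Fin (s + 2)) : MCyc (D.V (s + 1)) t (D.cof s i (bx t) z) := by
  intro k α hα
  rw [← D.cof_nat, hz k α hα, D.cof_zero]

theorem mcyc_dl {D : CoV} {s t : ℕ} {z : (D.V s).obj (bx t)} (hz : MCyc (D.V s) t z) :
    MCyc (D.V (s + 1)) t (D.dl s z) :=
  mcyc_sum _ _ fun i _ => mcyc_cof hz i

theorem mcyc_of_mbd (hMB : Stmt_MB) {V : SV} {t : ℕ} {z : V.obj (bx t)} (h : MBd V t z) :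
    MCyc V t z := by
  cases t with
  | zero => exact hMB.1 V z
  | succ t =>
    rw [hMB.2.1]
    intro i
    obtain ⟨w, h1, h2⟩ := h
    have e := fc_fc V (Fin.zero_le i) w
    have h3 : fc V i.succ w = 0 := h2 i
    rw [h3, map_zero] at e
    rw [← h1]
    exact e.symm

theorem cof_fc (D : CoV) (s : ℕ) (i : Fin (s + 2)) {n : ℕ} (j : Fin (n + 2))
    (x : (D.V s).obj (bx (n + 1))) :
    D.cof s i (bx n) (fc (D.V s) j x) = fc (D.V (s + 1)) j (D.cof s i (bx (n + 1)) x) :=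
  D.cof_nat s i (dop j) x

/-! ### The double sum of the cofaces -/

/-- The involution. -/
def inv2 (n : ℕ) (p : Fin (n + 1) × Fin (n + 2)) : Fin (n + 1) × Fin (n + 2) :=
  if h : p.2 ≤ p.1.castSucc then
    (p.2.castLT (lt_of_le_of_lt (Fin.le_def.1 h) p.1.2), p.1.succ)
  else (p.2.pred (fun h0 => h (by rw [h0]; exact Fin.zero_le _)), p.1.castSucc)

theorem inv2_pos {n : ℕ} (i j : Fin (n + 1)) (h : j ≤ i) :
    inv2 n (i, j.castSucc) = (j, i.succ) := by
  have h1 : j.castSucc ≤ i.castSucc := by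
    rw [Fin.le_def] at h ⊢
    simpa using h
  unfold inv2
  rw [dif_pos h1]
  rfl

theorem inv2_neg {n : ℕ} (i j : Fin (n + 1)) (h : i ≤ j) :
    inv2 n (i, j.succ) = (j, i.castSucc) := by
  have h1 : ¬ j.succ ≤ i.castSucc := by
    rw [Fin.le_def] at h ⊢
    simp only [Fin.val_succ, Fin.val_castSucc]
    omega
  unfold inv2
  rw [dif_neg h1]
  rfl

theorem cases2 {n : ℕ} (p : Fin (n + 1) × Fin (n + 2)) :
    (∃ i j : Fin (n + 1), j ≤ i ∧ p = (i, j.castSucc)) ∨
    (∃ i j : Fin (n + 1), i ≤ j ∧ p = (i, j.succ)) := by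
  obtain ⟨i, j⟩ := p
  rcases le_or_gt (j : ℕ) (i : ℕ) with h | h
  · left
    refine ⟨i, ⟨j, lt_of_le_of_lt h i.2⟩, ?_, ?_⟩
    · rw [Fin.le_def]; exact h
    · rfl
  · right
    refine ⟨i, ⟨j - 1, by omega⟩, ?_, ?_⟩
    · rw [Fin.le_def]
      show (i : ℕ) ≤ (j : ℕ) - 1
      omega
    · refine Prod.ext rfl (Fin.ext ?_)
      show (j : ℕ) = (j : ℕ) - 1 + 1
      omega

theorem cof_sum (D : CoV) (s : ℕ) (k : Dop) (x : (D.V s).obj k) :
    ∑ i : Fin (s + 2), ∑ j : Fin (s + 3), D.cof (s + 1) j k (D.cof s i k x) = 0 := by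
  rw [← Finset.sum_product', Finset.univ_product_univ]
  have hsw : ∀ p : Fin (s + 2) × Fin (s + 3),
      D.cof (s + 1) (inv2 (s + 1) p).2 k (D.cof s (inv2 (s + 1) p).1 k x) =
        D.cof (s + 1) p.2 k (D.cof s p.1 k x) := by
    intro p
    rcases cases2 p with ⟨i, j, h, rfl⟩ | ⟨i, j, h, rfl⟩
    · rw [inv2_pos i j h]
      exact D.cof_cof s j i h k x
    · rw [inv2_neg i j h]
      exact (D.cof_cof s i j h k x).symm
  refine Finset.sum_involution (fun p _ => inv2 (s + 1) p) ?_ ?_ ?_ ?_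
  · intro p _
    show D.cof (s + 1) p.2 k (D.cof s p.1 k x) +
      D.cof (s + 1) (inv2 (s + 1) p).2 k (D.cof s (inv2 (s + 1) p).1 k x) = 0
    rw [hsw p, aself]
  · intro p _ _ hp
    rcases cases2 p with ⟨i, j, h, rfl⟩ | ⟨i, j, h, rfl⟩
    · rw [inv2_pos i j h] at hp
      have h1 := congrArg (fun q : Fin (s + 2) × Fin (s + 3) => (q.2 : ℕ)) hp
      simp only [Fin.val_succ, Fin.val_castSucc] at h1
      rw [Fin.le_def] at h
      omega
    · rw [inv2_neg i j h] at hp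
      have h1 := congrArg (fun q : Fin (s + 2) × Fin (s + 3) => (q.2 : ℕ)) hp
      simp only [Fin.val_succ, Fin.val_castSucc] at h1
      rw [Fin.le_def] at h
      omega
  · intro p _
    exact Finset.mem_univ _
  · intro p _
    rcases cases2 p with ⟨i, j, h, rfl⟩ | ⟨i, j, h, rfl⟩
    · rw [inv2_pos i j h, inv2_neg j i h]
    · rw [inv2_neg i j h, inv2_pos j i h]

/-! ### The step -/

/-- What is used of the previous stage. -/
def Q1 (D : CoV) (s : ℕ) (H : (D.V s).obj (bx (s + 1))) : Prop :=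
  ∀ i j : Fin (s + 1), i ≤ j →
    D.cof s j.succ (bx s) (fc (D.V s) i.castSucc H) =
      D.cof s i.castSucc (bx s) (fc (D.V s) j.castSucc H)

/-- Fill the horn given by the faces `c_i H`. -/
theorem fill {D : CoV} {s : ℕ} {H : (D.V s).obj (bx (s + 1))} (hH : Q1 D s H) :
    ∃ H' : (D.V (s + 1)).obj (bx (s + 2)), ∀ i : Fin (s + 2),
      fc (D.V (s + 1)) i.castSucc H' = D.cof s i (bx (s + 1)) H := by
  refine horn (D.V (s + 1)) s (fun i => D.cof s i (bx (s + 1)) H) fun i j hij => ?_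
  rw [← cof_fc, ← cof_fc]
  exact hH i j hij

section step

variable {D : CoV} {f : ∀ s : ℕ, (D.V s).obj (bx s)}
  (hf : ∀ (s : ℕ) (i : Fin (s + 2)), (D.V (s + 1)).map (dop i) (f (s + 1)) =
        D.cof s i (bx s) (f s))

include hf

/-- The obstruction is a Moore cycle. -/
theorem mcyc_z (hMB : Stmt_MB) {s : ℕ} {H : (D.V s).obj (bx (s + 1))}
    (hl : fc (D.V s) (Fin.last (s + 1)) H = f s)
    {H' : (D.V (s + 1)).obj (bx (s + 2))}
    (hH' : ∀ i : Fin (s + 2), fc (D.V (s + 1)) i.castSucc H' = D.cof s i (bx (s + 1)) H) :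
    MCyc (D.V (s + 1)) (s + 1) (f (s + 1) + fc (D.V (s + 1)) (Fin.last (s + 2)) H') := by
  rw [hMB.2.1]
  intro i
  rw [map_add, hf s i]
  have e := fc_fc (D.V (s + 1)) (Fin.le_last i) H'
  rw [Fin.succ_last] at e
  have e2 : (D.V (s + 1)).map (dop i) (fc (D.V (s + 1)) (Fin.last (s + 2)) H') =
      D.cof s i (bx s) (f s) := by
    refine e.trans ?_
    rw [hH' i, ← cof_fc, hl]
  rw [e2, aself]

/-- The sum of the cofaces of the obstruction is a Moore boundary. -/
theorem mbd_dl_z (hMB : Stmt_MB) (hA : HAdd D) {s : ℕ} {H : (D.V s).obj (bx (s + 1))}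
    (hl : fc (D.V s) (Fin.last (s + 1)) H = f s)
    {H' : (D.V (s + 1)).obj (bx (s + 2))}
    (hH' : ∀ i : Fin (s + 2), fc (D.V (s + 1)) i.castSucc H' = D.cof s i (bx (s + 1)) H) :
    MBd (D.V (s + 2)) (s + 1)
      (D.dl (s + 1) (f (s + 1) + fc (D.V (s + 1)) (Fin.last (s + 2)) H')) := by
  set z : (D.V (s + 1)).obj (bx (s + 1)) := f (s + 1) + fc (D.V (s + 1)) (Fin.last (s + 2)) H'
    with hz
  have hzc : MCyc (D.V (s + 1)) (s + 1) z := mcyc_z hf hMB hl hH'
  -- (a) additivity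
  have ha : MBd (D.V (s + 2)) (s + 1) (∑ j : Fin (s + 3),
      (D.cof (s + 1) j (bx (s + 1)) (fc (D.V (s + 1)) (Fin.last (s + 2)) H') +
        D.cof (s + 1) j (bx (s + 1)) (f (s + 1)) + D.cof (s + 1) j (bx (s + 1)) z)) := by
    refine mbd_sum _ _ fun j _ => ?_
    have h1 := hA (s + 1) j (s + 1) (f (s + 1)) z hzc
    have h2 : f (s + 1) + z = fc (D.V (s + 1)) (Fin.last (s + 2)) H' := by
      rw [hz, ← add_assoc, aself, zero_add]
    rw [h2] at h1
    exact h1
  -- (b) the cofaces of f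
  have hb : ∑ j : Fin (s + 3), D.cof (s + 1) j (bx (s + 1)) (f (s + 1)) =
      ∑ j : Fin (s + 3), fc (D.V (s + 2)) j (f (s + 2)) :=
    Finset.sum_congr rfl fun j _ => (hf (s + 1) j).symm
  -- (c) the cofaces of H'
  set G : (D.V (s + 2)).obj (bx (s + 2)) := ∑ j : Fin (s + 3), D.cof (s + 1) j (bx (s + 2)) H'
    with hG
  have hfG : ∀ i : Fin (s + 3), fc (D.V (s + 2)) i G =
      ∑ j : Fin (s + 3), D.cof (s + 1) j (bx (s + 1)) (fc (D.V (s + 1)) i H') := by
    intro i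
    rw [hG, map_sum]
    exact Finset.sum_congr rfl fun j _ => (cof_fc D (s + 1) j i H').symm
  have hc : ∑ i : Fin (s + 3), fc (D.V (s + 2)) i G =
      ∑ j : Fin (s + 3), D.cof (s + 1) j (bx (s + 1))
        (fc (D.V (s + 1)) (Fin.last (s + 2)) H') := by
    rw [Fin.sum_univ_castSucc, hfG (Fin.last (s + 2))]
    have h0 : ∑ i : Fin (s + 2), fc (D.V (s + 2)) i.castSucc G = 0 := by
      rw [← cof_sum D s (bx (s + 1)) H]
      refine Finset.sum_congr rfl fun i _ => ?_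
      rw [hfG i.castSucc]
      exact Finset.sum_congr rfl fun j _ => by rw [hH' i]
    rw [h0, zero_add]
  -- the sum form
  have hd : ∑ i : Fin (s + 3), fc (D.V (s + 2)) i (f (s + 2) + G) =
      ∑ j : Fin (s + 3), D.cof (s + 1) j (bx (s + 1)) (f (s + 1)) +
      ∑ j : Fin (s + 3), D.cof (s + 1) j (bx (s + 1))
        (fc (D.V (s + 1)) (Fin.last (s + 2)) H') := by
    rw [hb, ← hc, ← Finset.sum_add_distrib]
    exact Finset.sum_congr rfl fun i _ => map_add _ _ _
  rw [Finset.sum_add_distrib, Finset.sum_add_distrib] at ha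
  have hdl : D.dl (s + 1) z = ∑ j : Fin (s + 3), D.cof (s + 1) j (bx (s + 1)) z := rfl
  rw [hdl]
  set A := ∑ j : Fin (s + 3), D.cof (s + 1) j (bx (s + 1)) (f (s + 1))
  set B := ∑ j : Fin (s + 3), D.cof (s + 1) j (bx (s + 1))
        (fc (D.V (s + 1)) (Fin.last (s + 2)) H')
  set C := ∑ j : Fin (s + 3), D.cof (s + 1) j (bx (s + 1)) z with hC
  have hCc : MCyc (D.V (s + 2)) (s + 1) C := mcyc_sum _ _ fun j _ => mcyc_cof hzc j
  have hAB : MCyc (D.V (s + 2)) (s + 1) (A + B) := by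
    have h1 := mcyc_add (mcyc_of_mbd hMB ha) hCc
    have h2 : B + A + C + C = A + B := by
      have hC2 := aself C
      calc B + A + C + C = A + B + (C + C) := by abel
        _ = A + B := by rw [hC2, add_zero]
    rwa [h2] at h1
  have hABb : MBd (D.V (s + 2)) (s + 1) (A + B) :=
    (hMB.2.2 _ _ _ hAB).1.2 ⟨f (s + 2) + G, hd⟩
  have h3 := mbd_add ha hABb
  have h4 : B + A + C + (A + B) = C := by
    have hA2 := aself A
    have hB2 := aself B
    calc B + A + C + (A + B) = (A + A) + (B + B) + C := by abel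
      _ = C := by rw [hA2, hB2, add_zero, zero_add]
  rwa [h4] at h3

/-- The step of the construction. -/
theorem step (hMB : Stmt_MB) (hA : HAdd D) (hE : ExC D 0) {s : ℕ}
    {H : (D.V s).obj (bx (s + 1))} (hH : Q1 D s H)
    (hl : fc (D.V s) (Fin.last (s + 1)) H = f s) :
    ∃ (H₂ : (D.V s).obj (bx (s + 1))) (H₃ : (D.V (s + 1)).obj (bx (s + 2))),
      (∀ i : Fin (s + 2), fc (D.V s) i H₂ = fc (D.V s) i H) ∧
      (∀ i : Fin (s + 2), fc (D.V (s + 1)) i.castSucc H₃ = D.cof s i (bx (s + 1)) H₂) ∧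
      fc (D.V (s + 1)) (Fin.last (s + 2)) H₃ = f (s + 1) ∧ Q1 D (s + 1) H₃ := by
  obtain ⟨H', hH'⟩ := fill hH
  obtain ⟨y, hy, hyb⟩ := (hE (s + 1) (Nat.zero_le _)).2 s _ (mcyc_z hf hMB hl hH')
    (mbd_dl_z hf hMB hA hl hH')
  have hyf : ∀ i : Fin (s + 2), fc (D.V s) i y = 0 := fun i => (hMB.2.1 _ _ _).1 hy i
  have hH₂f : ∀ i : Fin (s + 2), fc (D.V s) i (H + y) = fc (D.V s) i H := by
    intro i
    rw [map_add, hyf i, add_zero]
  have hH₂ : Q1 D s (H + y) := by
    intro i j hij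
    rw [hH₂f, hH₂f]
    exact hH i j hij
  have hl₂ : fc (D.V s) (Fin.last (s + 1)) (H + y) = f s := by rw [hH₂f, hl]
  obtain ⟨H'', hH''⟩ := fill hH₂
  set z : (D.V (s + 1)).obj (bx (s + 1)) := f (s + 1) + fc (D.V (s + 1)) (Fin.last (s + 2)) H'
    with hz
  set z₂ : (D.V (s + 1)).obj (bx (s + 1)) := f (s + 1) + fc (D.V (s + 1)) (Fin.last (s + 2)) H''
    with hz₂
  have hzc : MCyc (D.V (s + 1)) (s + 1) z := mcyc_z hf hMB hl hH'
  have hz₂c : MCyc (D.V (s + 1)) (s + 1) z₂ := mcyc_z hf hMB hl₂ hH''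
  set e : Fin (s + 2) → (D.V (s + 1)).obj (bx (s + 1)) := fun i =>
    D.cof s i (bx (s + 1)) (H + y) + D.cof s i (bx (s + 1)) H with he
  have hec : ∀ i, MCyc (D.V (s + 1)) (s + 1) (e i) := by
    intro i
    rw [hMB.2.1]
    intro k
    show fc (D.V (s + 1)) k (D.cof s i (bx (s + 1)) (H + y) + D.cof s i (bx (s + 1)) H) = 0
    rw [map_add, ← cof_fc, ← cof_fc, hH₂f, aself]
  -- sum form
  have hsum : ∑ i : Fin (s + 3), fc (D.V (s + 1)) i (H' + H'') = (∑ i, e i) + (z + z₂) := by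
    rw [Fin.sum_univ_castSucc]
    have h1 : ∑ i : Fin (s + 2), fc (D.V (s + 1)) i.castSucc (H' + H'') = ∑ i, e i := by
      refine Finset.sum_congr rfl fun i _ => ?_
      rw [map_add, hH' i, hH'' i, he]
      exact add_comm _ _
    have h2 : fc (D.V (s + 1)) (Fin.last (s + 2)) (H' + H'') = z + z₂ := by
      rw [map_add, hz, hz₂]
      have h3 := aself (f (s + 1))
      calc fc (D.V (s + 1)) (Fin.last (s + 2)) H' + fc (D.V (s + 1)) (Fin.last (s + 2)) H''
          = 0 + (fc (D.V (s + 1)) (Fin.last (s + 2)) H' +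
            fc (D.V (s + 1)) (Fin.last (s + 2)) H'') := by rw [zero_add]
        _ = (f (s + 1) + f (s + 1)) + (fc (D.V (s + 1)) (Fin.last (s + 2)) H' +
            fc (D.V (s + 1)) (Fin.last (s + 2)) H'') := by rw [h3]
        _ = _ := by abel
    rw [h1, h2]
  have hb1 : MBd (D.V (s + 1)) (s + 1) ((∑ i, e i) + (z + z₂)) :=
    (hMB.2.2 _ _ _ (mcyc_add (mcyc_sum _ _ fun i _ => hec i) (mcyc_add hzc hz₂c))).1.2
      ⟨H' + H'', hsum⟩
  -- e_i is c_i y up to boundaries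
  have hb2 : MBd (D.V (s + 1)) (s + 1) (∑ i, (e i + D.cof s i (bx (s + 1)) y)) :=
    mbd_sum _ _ fun i _ => hA s i (s + 1) H y hy
  have hz₂b : MBd (D.V (s + 1)) (s + 1) z₂ := by
    have h1 := mbd_add (mbd_add hb1 hb2) hyb
    have hs : ∑ i, (e i + D.cof s i (bx (s + 1)) y) =
        ∑ i, e i + ∑ i : Fin (s + 2), D.cof s i (bx (s + 1)) y := Finset.sum_add_distrib
    have hdl : D.dl s y = ∑ i : Fin (s + 2), D.cof s i (bx (s + 1)) y := rfl
    rw [hs, hdl] at h1
    have h2 := aself (∑ i, e i)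
    have h3 := aself z
    have h4 := aself (∑ i : Fin (s + 2), D.cof s i (bx (s + 1)) y)
    have h5 : (∑ i, e i) + (z + z₂) + ((∑ i, e i) + ∑ i : Fin (s + 2),
        D.cof s i (bx (s + 1)) y) + (z + ∑ i : Fin (s + 2), D.cof s i (bx (s + 1)) y) = z₂ := by
      calc (∑ i, e i) + (z + z₂) + ((∑ i, e i) + ∑ i : Fin (s + 2),
            D.cof s i (bx (s + 1)) y) + (z + ∑ i : Fin (s + 2), D.cof s i (bx (s + 1)) y)
          = ((∑ i, e i) + (∑ i, e i)) + (z + z) + (∑ i : Fin (s + 2),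
            D.cof s i (bx (s + 1)) y + ∑ i : Fin (s + 2), D.cof s i (bx (s + 1)) y) + z₂ := by
              abel
        _ = z₂ := by rw [h2, h3, h4, add_zero, add_zero, zero_add]
    rwa [h5] at h1
  obtain ⟨v, hv1, hv2⟩ := (hMB.2.2 _ _ _ hz₂c).2.1 hz₂b
  have hv1' : fc (D.V (s + 1)) (Fin.last (s + 2)) v = z₂ := hv1
  have hv2' : ∀ i : Fin (s + 2), fc (D.V (s + 1)) i.castSucc v = 0 := hv2
  have hH₃ : ∀ i : Fin (s + 2), fc (D.V (s + 1)) i.castSucc (H'' + v) =
      D.cof s i (bx (s + 1)) (H + y) := by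
    intro i
    rw [map_add, hH'' i, hv2' i, add_zero]
  refine ⟨H + y, H'' + v, hH₂f, hH₃, ?_, ?_⟩
  · rw [map_add, hv1', hz₂]
    have h1 := aself (fc (D.V (s + 1)) (Fin.last (s + 2)) H'')
    calc fc (D.V (s + 1)) (Fin.last (s + 2)) H'' +
          (f (s + 1) + fc (D.V (s + 1)) (Fin.last (s + 2)) H'')
        = f (s + 1) + (fc (D.V (s + 1)) (Fin.last (s + 2)) H'' +
          fc (D.V (s + 1)) (Fin.last (s + 2)) H'') := by abel
      _ = f (s + 1) := by rw [h1, add_zero]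
  · intro i j hij
    rw [hH₃, hH₃]
    exact D.cof_cof s i j hij _ _

end step

end CONE

open CONE in
/-- The cone lemma. -/
theorem tt_cone : Stmt_CONE := by
  intro hMB D hA hE f hf
  -- the initial stage
  obtain ⟨H₀, hl₀, h₀⟩ : ∃ H₀ : (D.V 0).obj (bx 1), fc (D.V 0) (Fin.last 1) H₀ = f 0 ∧
      fc (D.V 0) (Fin.castSucc (0 : Fin 1)) H₀ = 0 := by
    have h1 : MBd (D.V 1) 0 (D.dl 0 (f 0)) := by
      refine (hMB.2.2 _ _ _ (hMB.1 _ _)).1.2 ⟨f 1, ?_⟩
      exact Finset.sum_congr rfl fun i _ => hf 0 i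
    have h2 := (hE 0 le_rfl).1 (f 0) (hMB.1 _ _) h1
    obtain ⟨w, hw1, hw2⟩ := (hMB.2.2 _ _ _ (hMB.1 _ _)).2.1 h2
    exact ⟨w, hw1, hw2 0⟩
  have hQ₀ : Q1 D 0 H₀ := by
    intro i j _
    have hi : i = 0 := Fin.ext (by omega)
    have hj : j = 0 := Fin.ext (by omega)
    subst hi hj
    rw [h₀, D.cof_zero, D.cof_zero]
  let St : ℕ → Type := fun s => {H : (D.V s).obj (bx (s + 1)) //
    Q1 D s H ∧ fc (D.V s) (Fin.last (s + 1)) H = f s}
  have hstep : ∀ (s : ℕ) (H : St s), ∃ (H₂ : (D.V s).obj (bx (s + 1))) (H₃ : St (s + 1)),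
      (∀ i : Fin (s + 2), fc (D.V s) i H₂ = fc (D.V s) i H.1) ∧
      (∀ i : Fin (s + 2), fc (D.V (s + 1)) i.castSucc H₃.1 = D.cof s i (bx (s + 1)) H₂) := by
    intro s H
    obtain ⟨H₂, H₃, h1, h2, h3, h4⟩ := step hf hMB hA hE H.2.1 H.2.2
    exact ⟨H₂, ⟨H₃, h4, h3⟩, h1, h2⟩
  choose c nx hc hn using hstep
  let sq : ∀ s : ℕ, St s := fun s => Nat.rec (motive := fun s => St s) ⟨H₀, hQ₀, hl₀⟩ nx s
  have hsq : ∀ s, sq (s + 1) = nx s (sq s) := fun s => rfl
  refine ⟨fun s => c s (sq s), ?_, ?_, fun s => ⟨fun i => ?_, ?_⟩⟩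
  · exact (hc 0 (sq 0) 0).trans h₀
  · exact (hc 0 (sq 0) 1).trans hl₀
  · refine (hc (s + 1) (sq (s + 1)) i.castSucc).trans ?_
    rw [hsq]
    exact hn s (sq s) i
  · exact (hc (s + 1) (sq (s + 1)) (Fin.last (s + 2))).trans (sq (s + 1)).2.2

end Pool.Agent.SH.TT
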