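import Mathlib
import Pool.Agent.SH.StmtsV

/-!
# MP_2d0b73_an, block III-T (TT): transfer of exactness along an acyclic extension
-/

set_option autoImplicit false

open CategoryTheory Simplicial SSet Opposite

namespace Pool.Agent.SH.TT

namespace CONP

theorem two {M : ModuleCat.{0} (ZMod 2)} (x : M) : x + x = 0 := by
  rw [← two_smul (ZMod 2)]
  have h : (2 : ZMod 2) = 0 := rfl
  rw [h, zero_smul]

theorem map_zero' {A B : Type*} [AddCommGroup A] [AddCommGroup B] (f : A → B)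
    (h : ∀ a b, f (a + b) = f a + f b) : f 0 = 0 := (AddMonoidHom.mk' f h).map_zero

theorem dd0 (V : SV) (t : ℕ) (w : V.obj (bx (t + 2)))
    (h : ∀ i : Fin (t + 2), V.map (dop i.succ) w = 0) (i : Fin (t + 2)) :
    V.map (dop i) (V.map (dop 0) w) = 0 := by
  have h1 : (dop (0 : Fin (t + 3)) ≫ dop i : bx (t + 2) ⟶ bx t) = dop i.succ ≫ dop 0 := by
    have h2 := SimplexCategory.δ_comp_δ (n := t) (i := 0) (j := i) (Fin.zero_le _)
    exact (congrArg Quiver.Hom.op h2).symm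
  have h3 : V.map (dop i) (V.map (dop 0) w) = V.map (dop (0 : Fin (t + 3)) ≫ dop i) w := by
    rw [V.map_comp]
    rfl
  have h4 : V.map (dop i.succ ≫ dop 0) w = V.map (dop 0) (V.map (dop i.succ) w) := by
    rw [V.map_comp]
    rfl
  rw [h3, h1, h4, h i, map_zero]

theorem dl_zero (D : CoV) (s : ℕ) (k : Dop) : D.dl s (0 : (D.V s).obj k) = 0 :=
  Finset.sum_eq_zero fun i _ => D.cof_zero s i k

theorem dl_nat (D : CoV) (s : ℕ) {k l : Dop} (α : k ⟶ l) (x : (D.V s).obj k) :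
    (D.V (s + 1)).map α (D.dl s x) = D.dl s ((D.V s).map α x) := by
  unfold CoV.dl
  rw [map_sum]
  exact Finset.sum_congr rfl fun i _ => (D.cof_nat s i α x).symm

theorem dl_mor {F E : CoV} (j : ∀ (s : ℕ) (k : Dop), (F.V s).obj k → (E.V s).obj k)
    (hj : ∀ s k a b, j s k (a + b) = j s k a + j s k b)
    (hc : ∀ (s : ℕ) (i : Fin (s + 2)) (k : Dop) (x : (F.V s).obj k),
      j (s + 1) k (F.cof s i k x) = E.cof s i k (j s k x)) (s : ℕ) (k : Dop)
    (x : (F.V s).obj k) : j (s + 1) k (F.dl s x) = E.dl s (j s k x) := by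
  unfold CoV.dl
  have h := map_sum (AddMonoidHom.mk' (j (s + 1) k) (hj (s + 1) k))
    (fun i => F.cof s i k x) Finset.univ
  refine h.trans (Finset.sum_congr rfl fun i _ => ?_)
  exact hc s i k x

end CONP

open CONP in
/-- TT_CONP: transfer of exactness along an acyclic extension. -/
theorem tt_conp : Stmt_CONP := by
  intro hMB F E B τ j p hj hp hinj hker hjn hpn hjc hpc hac hlift hB
  have j0 : ∀ s k, j s k 0 = 0 := fun s k => map_zero' _ (hj s k)
  have p0 : ∀ s k, p s k 0 = 0 := fun s k => map_zero' _ (hp s k)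
  have hpj : ∀ s k y, p s k (j s k y) = 0 := fun s k y => (hker s k _).2 ⟨y, rfl⟩
  have jdl := dl_mor j hj hjc
  have pdl := dl_mor p hp hpc
  -- all faces vanish: Moore cycles
  have cyc : ∀ (V : SV) (t : ℕ) (z : V.obj (bx (t + 1))), V.map (dop 0) z = 0 →
      (∀ i : Fin (t + 1), V.map (dop i.succ) z = 0) → MCyc V (t + 1) z := by
    intro V t z h0 h1
    rw [hMB.2.1]
    intro i
    rcases Fin.eq_zero_or_eq_succ i with rfl | ⟨i, rfl⟩
    · exact h0
    · exact h1 i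
  -- steps (1) and (2)
  have main : ∀ (s t : ℕ) (z : (F.V s).obj (bx t)), MCyc (F.V s) t z →
      MBd (F.V (s + 1)) t (F.dl s z) → ∃ x : (E.V s).obj (bx (t + 1)),
        (E.V s).map (dop 0) x = j s _ z ∧ (∀ i : Fin (t + 1), (E.V s).map (dop i.succ) x = 0) ∧
        MCyc (B.V s) (t + 1) (p s _ x) ∧ MBd (B.V (s + 1)) (t + 1) (B.dl s (p s _ x)) := by
    intro s t z hz hb
    obtain ⟨v, hv0, hv⟩ := hb
    have hjz : MCyc (E.V s) t (j s _ z) := by
      intro k α hα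
      rw [← hjn, hz k α hα, j0]
    obtain ⟨x, hx0, hx⟩ := hac s t _ hjz
    have hcx : MCyc (B.V s) (t + 1) (p s _ x) := by
      refine cyc _ _ _ ?_ fun i => ?_
      · rw [← hpn, hx0, hpj]
      · rw [← hpn, hx i, p0]
    refine ⟨x, hx0, hx, hcx, ?_⟩
    have hy : MCyc (E.V (s + 1)) (t + 1) (E.dl s x + j (s + 1) _ v) := by
      refine cyc _ _ _ ?_ fun i => ?_
      · rw [map_add, dl_nat, hx0, ← jdl, ← hv0, ← hjn, two]
      · rw [map_add, dl_nat, hx i, dl_zero, ← hjn, hv i, j0, add_zero]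
    obtain ⟨ω, hω0, hω⟩ := hac (s + 1) (t + 1) _ hy
    refine ⟨p (s + 1) _ ω, ?_, fun i => ?_⟩
    · rw [← hpn, hω0, hp, hpj, add_zero, pdl]
    · rw [← hpn, hω i, p0]
  intro t ht
  refine ⟨fun z hz hb => ?_, fun s z hz hb => ?_⟩
  · obtain ⟨x, hx0, hx, hcx, hbx⟩ := main 0 t z hz hb
    obtain ⟨w, hw0, hw⟩ := (hB (t + 1) (by omega)).1 _ hcx hbx
    obtain ⟨w', hpw, hw'⟩ := hlift 0 (t + 1) w hw
    have h1 : p 0 _ (x + (E.V 0).map (dop 0) w') = 0 := by
      rw [hp, hpn, hpw, hw0, two]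
    obtain ⟨v, hv⟩ := (hker 0 _ _).1 h1
    refine ⟨v, hinj 0 _ ?_, fun i => hinj 0 _ ?_⟩
    · rw [hjn, hv, map_add, hx0, dd0 _ _ _ hw', add_zero]
    · rw [hjn, hv, map_add, hx i, dd0 _ _ _ hw', add_zero, j0]
  · obtain ⟨x, hx0, hx, hcx, hbx⟩ := main (s + 1) t z hz hb
    obtain ⟨y, hy, w, hw0, hw⟩ := (hB (t + 1) (by omega)).2 s _ hcx hbx
    obtain ⟨w', hpw, hw'⟩ := hlift (s + 1) (t + 1) w hw
    have hyf := (hMB.2.1 _ _ _).1 hy
    obtain ⟨y', hpy, hy'⟩ := hlift s t y fun i => hyf i.succ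
    have h0 : p s _ ((E.V s).map (dop 0) y') = 0 := by
      rw [hpn, hpy, hyf 0]
    obtain ⟨u, hu⟩ := (hker s _ _).1 h0
    have hcu : MCyc (F.V s) t u := by
      rcases t with _ | t
      · exact hMB.1 _ _
      · rw [hMB.2.1]
        intro i
        apply hinj s
        rw [hjn, hu, dd0 _ _ _ hy', j0]
    have h1 : p (s + 1) _ (x + E.dl s y' + (E.V (s + 1)).map (dop 0) w') = 0 := by
      rw [hp, hp, hpn, hpw, hw0, pdl, hpy, two]
    obtain ⟨v, hv⟩ := (hker (s + 1) _ _).1 h1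
    refine ⟨u, hcu, v, hinj (s + 1) _ ?_, fun i => hinj (s + 1) _ ?_⟩
    · rw [hjn, hv, map_add, map_add, hx0, dl_nat, dd0 _ _ _ hw', add_zero, hj, jdl, hu]
    · rw [hjn, hv, map_add, map_add, hx i, dl_nat, hy' i, dl_zero, dd0 _ _ _ hw', add_zero,
        add_zero, j0]

end Pool.Agent.SH.TT
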