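import Mathlib
import Pool.Agent.SH.StmtsV

/-!
# MP_2d0b73_an, block III-T: the levels of the resolution are finite
-/

open CategoryTheory Opposite

noncomputable section

namespace Pool.Agent.SH.TT

namespace FIN

theorem finite_hom (m : ℕ) (k : Dop) : Finite (bx m ⟶ k) := by
  have h : Function.Injective (fun t : bx m ⟶ k =>
      (fun i => t.unop.toOrderHom i : Fin (k.unop.len + 1) → Fin (m + 1))) := by
    intro t t' h
    apply Quiver.Hom.unop_inj
    apply SimplexCategory.Hom.ext
    apply OrderHom.ext
    exact h
  exact Finite.of_injective _ h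

theorem finite_augK (A : Type) [Finite A] : Finite (AugK A) := by
  have : Finite (A →₀ ZMod 2) := Finite.of_injective (fun f : A →₀ ZMod 2 => (f : A → ZMod 2))
    DFunLike.coe_injective
  infer_instance

theorem finite_it (A : Pointed.{0}) [Finite A.X] : ∀ s : ℕ, Finite ((it RM s).obj A).X
  | 0 => (inferInstance : Finite A.X)
  | s + 1 => by
    have h := finite_it A s
    exact finite_augK ((it RM s).obj A).X

end FIN

theorem tt_fin : Stmt_FIN := by
  intro m s k
  have h := FIN.finite_hom m k
  have h1 : Finite ((Sph m).obj k).X :=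
    (inferInstance : Finite (Option {t : bx m ⟶ k // ¬ Bdy t}))
  have h2 := FIN.finite_it ((Sph m).obj k) s
  exact FIN.finite_augK ((it RM s).obj ((Sph m).obj k)).X

end Pool.Agent.SH.TT
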