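import Mathlib
import Pool.Agent.SH.StmtsV

/-!
# MP_2d0b73_an, block III-T, module TT_HADD: additivity from a loop coordinate
-/

open CategoryTheory Simplicial SSet Opposite MonoidalCategory

noncomputable section

namespace Pool.Agent.SH.TT

namespace HADD

/-! ### Characteristic two -/

theorem add_self' {M : ModuleCat.{0} (ZMod 2)} (x : M) : x + x = 0 := by
  have h : (2 : ZMod 2) • x = x + x := two_smul _ x
  rw [← h, show (2 : ZMod 2) = 0 from rfl, zero_smul]

/-! ### The cross term of a coface -/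

variable (D : CoV) (s : ℕ) (i : Fin (s + 2))

/-- The cross term. -/
def cr (k : Dop) (x x' : (D.V s).obj k) : (D.V (s + 1)).obj k :=
  D.cof s i k (x + x') + D.cof s i k x + D.cof s i k x'

theorem cr_nat {k l : Dop} (α : k ⟶ l) (x x' : (D.V s).obj k) :
    cr D s i l ((D.V s).map α x) ((D.V s).map α x') = (D.V (s + 1)).map α (cr D s i k x x') := by
  unfold cr
  rw [← map_add ((D.V s).map α).hom, D.cof_nat, D.cof_nat, D.cof_nat, map_add, map_add]

theorem cr_zero_right (k : Dop) (x : (D.V s).obj k) : cr D s i k x 0 = 0 := by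
  unfold cr
  rw [add_zero, D.cof_zero, add_zero, add_self']

theorem cr_zero_left (k : Dop) (x : (D.V s).obj k) : cr D s i k 0 x = 0 := by
  unfold cr
  rw [zero_add, D.cof_zero, add_zero, add_self']

/-! ### The contraction of the simplex to its vertex `0` -/

variable {n : ℕ}

/-- The contraction. -/
def kap {k : Dop} (ρ : (Δ[n] : SSet.{0}).obj k) (u : bx 1 ⟶ k) : (Δ[n] : SSet.{0}).obj k :=
  stdSimplex.objEquiv.symm (SimplexCategory.Hom.mk
    { toFun := fun m => if u.unop.toOrderHom m = 0 then 0 else (stdSimplex.asOrderHom ρ) m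
      monotone' := by
        intro a b hab
        have h1 := u.unop.toOrderHom.monotone hab
        have h2 := (stdSimplex.asOrderHom ρ).monotone hab
        by_cases hb : u.unop.toOrderHom b = 0
        · have ha : u.unop.toOrderHom a = 0 := by
            rw [hb] at h1
            exact le_antisymm h1 (Fin.zero_le _)
          simp only [ha, hb, if_true]
          exact le_rfl
        · by_cases ha : u.unop.toOrderHom a = 0
          · simp only [ha, if_true]
            exact Fin.zero_le _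
          · simp only [ha, hb, if_false]
            exact h2 })

theorem kap_nat {k l : Dop} (α : k ⟶ l) (ρ : (Δ[n] : SSet.{0}).obj k) (u : bx 1 ⟶ k) :
    kap ((Δ[n] : SSet.{0}).map α ρ) (u ≫ α) = (Δ[n] : SSet.{0}).map α (kap ρ u) := rfl

theorem kap_one {k : Dop} (ρ : (Δ[n] : SSet.{0}).obj k) (u : bx 1 ⟶ k)
    (hu : ∀ m, u.unop.toOrderHom m ≠ 0) : kap ρ u = ρ := by
  apply stdSimplex.objEquiv.injective
  unfold kap
  rw [Equiv.apply_symm_apply]
  ext m : 3
  show (if u.unop.toOrderHom m = 0 then 0 else (stdSimplex.asOrderHom ρ) m) =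
    (stdSimplex.asOrderHom ρ) m
  rw [if_neg (hu m)]

theorem kap_zero {k : Dop} (ρ : (Δ[n] : SSet.{0}).obj k) (u : bx 1 ⟶ k) (hn : 1 ≤ n)
    (hu : ∀ m, u.unop.toOrderHom m = 0) : kap ρ u ∈ (∂Δ[n] : (Δ[n] : SSet.{0}).Subcomplex).obj k := by
  show ¬ Function.Surjective (stdSimplex.asOrderHom (kap ρ u))
  intro hs
  obtain ⟨m, hm⟩ := hs (Fin.last n)
  have h1 : stdSimplex.asOrderHom (kap ρ u) m = 0 := by
    show (if u.unop.toOrderHom m = 0 then 0 else (stdSimplex.asOrderHom ρ) m) = 0
    rw [if_pos (hu m)]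
  rw [h1] at hm
  have h2 := congrArg Fin.val hm
  simp only [Fin.val_zero, Fin.val_last] at h2
  omega

/-! ### The maps to the interval -/

/-- The map `[t] → [1]` with the value `0` at the first `j` elements. -/
def vv (t j : ℕ) : bx 1 ⟶ bx t :=
  Quiver.Hom.op (V := SimplexCategory) (X := ⦋t⦌) (Y := ⦋1⦌) (SimplexCategory.Hom.mk
    { toFun := fun m => if m.val < j then (0 : Fin 2) else 1
      monotone' := by
        intro a b hab
        have h1 : a.val ≤ b.val := hab
        by_cases hb : b.val < j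
        · have ha : a.val < j := lt_of_le_of_lt h1 hb
          simp only [ha, hb, if_true]
          exact le_rfl
        · simp only [hb, if_false]
          exact Fin.le_last _ })

theorem vv_apply (t j : ℕ) (m : Fin (t + 1)) :
    (vv t j).unop.toOrderHom m = if m.val < j then (0 : Fin 2) else 1 := rfl

/-- The restriction of the maps to the interval along a face. -/
theorem vv_dop {t : ℕ} (j : ℕ) (i : Fin (t + 2)) (h : i.val = j ∨ i.val = j + 1) :
    vv (t + 1) (j + 1) ≫ dop i = vv t i.val := by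
  apply Quiver.Hom.unop_inj
  ext m : 3
  show (if (i.succAbove m).val < j + 1 then (0 : Fin 2) else 1) =
    if m.val < i.val then (0 : Fin 2) else 1
  have h1 : (i.succAbove m).val < j + 1 ↔ m.val < i.val := by
    by_cases hm : m.castSucc < i
    · rw [Fin.succAbove_of_castSucc_lt _ _ hm]
      have h2 : m.val < i.val := hm
      simp only [Fin.val_castSucc]
      omega
    · rw [Fin.succAbove_of_le_castSucc _ _ (not_lt.mp hm)]
      have h2 : ¬ m.val < i.val := hm
      simp only [Fin.val_succ]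
      omega
  simp only [h1]

theorem sop_dop_id {t : ℕ} (j : Fin (t + 1)) (i : Fin (t + 2))
    (h : i.val = j.val ∨ i.val = j.val + 1) : sop j ≫ dop i = 𝟙 (bx t) := by
  apply Quiver.Hom.unop_inj
  show SimplexCategory.δ i ≫ SimplexCategory.σ j = 𝟙 _
  rcases h with h | h
  · exact SimplexCategory.δ_comp_σ_self' (Fin.ext h)
  · exact SimplexCategory.δ_comp_σ_succ' (Fin.ext h)

theorem sop_dop_bdy {t : ℕ} (j : Fin (t + 1)) (i : Fin (t + 2))
    (h : ¬ (i.val = j.val ∨ i.val = j.val + 1)) : Bdy (sop j ≫ dop i) := by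
  intro hs
  have hval : ∀ m : Fin (t + 1), (sop j ≫ dop i).unop.toOrderHom m =
      j.predAbove (i.succAbove m) := fun m => rfl
  have hj := j.isLt
  have hi := i.isLt
  by_cases hlt : i.val < j.val
  · obtain ⟨m, hm⟩ := hs (⟨i.val, by omega⟩ : Fin (t + 1))
    rw [hval] at hm
    have h2 := congrArg Fin.val hm
    by_cases hm1 : m.castSucc < i
    · rw [Fin.succAbove_of_castSucc_lt _ _ hm1, Fin.predAbove_of_le_castSucc] at h2
      · have h3 : m.val < i.val := hm1
        simp only [Fin.coe_castPred, Fin.val_castSucc] at h2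
        omega
      · have h3 : m.val < i.val := hm1
        show m.val ≤ j.val
        omega
    · have h3 : ¬ m.val < i.val := hm1
      rw [Fin.succAbove_of_le_castSucc _ _ (not_lt.mp hm1)] at h2
      by_cases hm2 : j.castSucc < m.succ
      · rw [Fin.predAbove_of_castSucc_lt _ _ hm2] at h2
        have h4 : j.val < m.val + 1 := hm2
        simp only [Fin.pred_succ] at h2
        omega
      · rw [Fin.predAbove_of_le_castSucc _ _ (not_lt.mp hm2)] at h2
        simp only [Fin.coe_castPred, Fin.val_succ] at h2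
        omega
  · obtain ⟨m, hm⟩ := hs (⟨i.val - 1, by omega⟩ : Fin (t + 1))
    rw [hval] at hm
    have h2 := congrArg Fin.val hm
    by_cases hm1 : m.castSucc < i
    · have h3 : m.val < i.val := hm1
      rw [Fin.succAbove_of_castSucc_lt _ _ hm1] at h2
      by_cases hm2 : j.castSucc < m.castSucc
      · rw [Fin.predAbove_of_castSucc_lt _ _ hm2] at h2
        have h4 : j.val < m.val := hm2
        simp only [Fin.val_pred, Fin.val_castSucc] at h2
        omega
      · rw [Fin.predAbove_of_le_castSucc _ _ (not_lt.mp hm2)] at h2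
        have h4 : ¬ j.val < m.val := hm2
        simp only [Fin.coe_castPred, Fin.val_castSucc] at h2
        omega
    · have h3 : ¬ m.val < i.val := hm1
      rw [Fin.succAbove_of_le_castSucc _ _ (not_lt.mp hm1)] at h2
      by_cases hm2 : j.castSucc < m.succ
      · rw [Fin.predAbove_of_castSucc_lt _ _ hm2] at h2
        simp only [Fin.pred_succ] at h2
        omega
      · have h4 : ¬ j.val < m.val + 1 := hm2
        omega

/-! ### The prism -/

variable {t : ℕ}

/-- The term of the prism. -/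
def T (a y : (MapP (Δ[n] : SSet.{0}) ∂Δ[n] (D.V s)).obj (bx t)) (k : Dop)
    (ρ : (Δ[n] : SSet.{0}).obj k) (u : bx 1 ⟶ k) (σ : bx t ⟶ k) : (D.V (s + 1)).obj k :=
  cr D s i k (MapP.ev a k ρ σ) (MapP.ev y k (kap ρ u) σ)

/-- The prism. -/
def prism (a y : (MapP (Δ[n] : SSet.{0}) ∂Δ[n] (D.V s)).obj (bx t)) :
    (MapP (Δ[n] : SSet.{0}) ∂Δ[n] (D.V (s + 1))).obj (bx (t + 1)) :=
  MapP.mk (fun k ρ σ => ∑ j : Fin (t + 1), T D s i a y k ρ (vv (t + 1) (j.val + 1) ≫ σ)
      (sop j ≫ σ))
    (by
      intro k l α ρ σ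
      rw [map_sum]
      refine Finset.sum_congr rfl fun j _ => ?_
      unfold T
      rw [← cr_nat]
      congr 1
      · rw [← Category.assoc, MapP.nat]
      · rw [← Category.assoc, ← Category.assoc, kap_nat, MapP.nat])
    (by
      intro k ρ σ hρ
      refine Finset.sum_eq_zero fun j _ => ?_
      unfold T
      rw [MapP.van a ρ _ hρ, cr_zero_left])

theorem ev_bdy {V : SV} {q : ℕ} {y : (MapP (Δ[n] : SSet.{0}) ∂Δ[n] V).obj (bx q)}
    (hy : MCyc (MapP (Δ[n] : SSet.{0}) ∂Δ[n] V) q y) {k l : Dop} (α : bx q ⟶ k) (hα : Bdy α)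
    (ρ : (Δ[n] : SSet.{0}).obj l) (σ : k ⟶ l) : MapP.ev y l ρ (α ≫ σ) = 0 := by
  have h1 := hy k α hα
  rw [← MapP.ev_map, h1, MapP.ev_zero]

/-- The faces of the terms. -/
theorem T_face {a y : (MapP (Δ[n] : SSet.{0}) ∂Δ[n] (D.V s)).obj (bx t)}
    (hy : MCyc (MapP (Δ[n] : SSet.{0}) ∂Δ[n] (D.V s)) t y) (e : Fin (t + 2)) (j : Fin (t + 1))
    (k : Dop) (ρ : (Δ[n] : SSet.{0}).obj k) (σ : bx t ⟶ k) :
    T D s i a y k ρ (vv (t + 1) (j.val + 1) ≫ dop e ≫ σ) (sop j ≫ dop e ≫ σ) =
      if e.val = j.val ∨ e.val = j.val + 1 then T D s i a y k ρ (vv t e.val ≫ σ) σ else 0 := by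
  by_cases h : e.val = j.val ∨ e.val = j.val + 1
  · rw [if_pos h, ← Category.assoc, vv_dop j.val e h, ← Category.assoc, sop_dop_id j e h,
      Category.id_comp]
  · rw [if_neg h]
    unfold T
    rw [← Category.assoc (sop j), ev_bdy hy _ (sop_dop_bdy j e h), cr_zero_right]

/-- The cross term of the coface of `MapP`. -/
def crM (a y : (MapP (Δ[n] : SSet.{0}) ∂Δ[n] (D.V s)).obj (bx t)) :
    (MapP (Δ[n] : SSet.{0}) ∂Δ[n] (D.V (s + 1))).obj (bx t) :=
  (D.mp (Δ[n] : SSet.{0}) ∂Δ[n]).cof s i (bx t) (a + y) +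
    (D.mp (Δ[n] : SSet.{0}) ∂Δ[n]).cof s i (bx t) a + (D.mp (Δ[n] : SSet.{0}) ∂Δ[n]).cof s i (bx t) y

theorem ev_crM (a y : (MapP (Δ[n] : SSet.{0}) ∂Δ[n] (D.V s)).obj (bx t)) (k : Dop)
    (ρ : (Δ[n] : SSet.{0}).obj k) (σ : bx t ⟶ k) : MapP.ev (crM D s i a y) k ρ σ =
      cr D s i k (MapP.ev a k ρ σ) (MapP.ev y k ρ σ) := rfl

theorem ev_face (a y : (MapP (Δ[n] : SSet.{0}) ∂Δ[n] (D.V s)).obj (bx t)) (e : Fin (t + 2))
    (k : Dop) (ρ : (Δ[n] : SSet.{0}).obj k) (σ : bx t ⟶ k) :
    MapP.ev ((MapP (Δ[n] : SSet.{0}) ∂Δ[n] (D.V (s + 1))).map (dop e) (prism D s i a y)) k ρ σ =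
      ∑ j : Fin (t + 1), T D s i a y k ρ (vv (t + 1) (j.val + 1) ≫ dop e ≫ σ)
        (sop j ≫ dop e ≫ σ) := rfl

theorem main (hn : 1 ≤ n) (a y : (MapP (Δ[n] : SSet.{0}) ∂Δ[n] (D.V s)).obj (bx t))
    (hy' : MCyc (MapP (Δ[n] : SSet.{0}) ∂Δ[n] (D.V s)) t y) :
    MBd (MapP (Δ[n] : SSet.{0}) ∂Δ[n] (D.V (s + 1))) t (crM D s i a y) := by
  refine ⟨prism D s i a y, ?_, ?_⟩
  · apply MapP.ext
    intro k ρ σ
    rw [ev_face, ev_crM, Finset.sum_congr rfl fun j _ => T_face D s i hy' 0 j k ρ σ,
      Finset.sum_eq_single 0]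
    · rw [if_pos (Or.inl (by simp))]
      unfold T
      rw [kap_one]
      · intro m
        show (if (σ.unop.toOrderHom m).val < 0 then (0 : Fin 2) else 1) ≠ 0
        rw [if_neg (Nat.not_lt_zero _)]
        decide
    · intro j _ hj
      rw [if_neg]
      rintro (h | h)
      · exact hj (Fin.ext h.symm)
      · simp at h
    · intro h
      exact absurd (Finset.mem_univ _) h
  · intro e
    apply MapP.ext
    intro k ρ σ
    rw [ev_face, Finset.sum_congr rfl fun j _ => T_face D s i hy' e.succ j k ρ σ, MapP.ev_zero]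
    by_cases he : e.val = t
    · refine Finset.sum_eq_zero fun j _ => ?_
      by_cases h : e.succ.val = j.val ∨ e.succ.val = j.val + 1
      · rw [if_pos h]
        unfold T
        rw [MapP.van y _ _ (kap_zero ρ _ hn ?_), cr_zero_right]
        intro m
        show (if (σ.unop.toOrderHom m).val < e.succ.val then (0 : Fin 2) else 1) = 0
        rw [if_pos]
        have h2 := (σ.unop.toOrderHom m).isLt
        rw [Fin.val_succ, he]
        exact h2
      · rw [if_neg h]
    · have het : e.val < t := by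
        have := e.isLt
        omega
      have hne : e ≠ (⟨e.val + 1, by omega⟩ : Fin (t + 1)) := by
        intro h
        have := congrArg Fin.val h
        simp at this
      rw [Fintype.sum_eq_add e (⟨e.val + 1, by omega⟩ : Fin (t + 1)) hne]
      · rw [if_pos (Or.inr (by simp)), if_pos (Or.inl (by simp)), add_self']
      · rintro j ⟨h1, h2⟩
        rw [if_neg]
        rintro (h | h)
        · apply h2
          apply Fin.ext
          simp only [Fin.val_succ] at h
          exact h.symm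
        · apply h1
          apply Fin.ext
          simp only [Fin.val_succ] at h
          omega

end HADD

theorem tt_hadd : Stmt_HADD := by
  intro D n hn s i t a y hy
  exact HADD.main D s i hn a y hy

end Pool.Agent.SH.TT
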