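import Mathlib
import Pool.Agent.SH.StmtsV

/-!
# MP_2d0b73_an, block III-T (TT): Moore cycles and boundaries (module SH_TT_MB)

The projector `PInfty` of Mathlib (Dold-Kan) gives the first face form, its application to the
opposite simplicial object the last face form.
-/

open CategoryTheory Simplicial SSet Opposite AlgebraicTopology

noncomputable section

namespace Pool.Agent.SH.TT

namespace MB

theorem smul_eq {V : SV} {k : Dop} (i : ℕ) (x : V.obj k) : ((-1 : ℤ) ^ i) • x = x := by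
  rcases neg_one_pow_eq_or ℤ i with h | h
  · rw [h, one_smul]
  · rw [h, neg_smul, one_smul, ZModModule.neg_eq_self]

theorem zero_cyc (V : SV) (z : V.obj (bx 0)) : MCyc V 0 z := by
  intro k α hα
  exfalso
  apply hα
  intro i
  exact ⟨0, Subsingleton.elim (α := Fin 1) _ _⟩

theorem cyc_iff (V : SV) (t : ℕ) (z : V.obj (bx (t + 1))) :
    MCyc V (t + 1) z ↔ ∀ i : Fin (t + 2), V.map (dop i) z = 0 := by
  constructor
  · intro h i
    apply h
    intro hs
    obtain ⟨j, hj⟩ := hs i
    exact Fin.succAbove_ne i j hj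
  · intro h k α hα
    obtain ⟨i, θ, hθ⟩ := SimplexCategory.eq_comp_δ_of_not_surjective α.unop hα
    have e : α = dop i ≫ θ.op := congrArg Quiver.Hom.op hθ
    rw [e, V.map_comp, ModuleCat.comp_apply, h i, map_zero]

/-- The projector fixes the Moore cycles. -/
theorem P_eq (V : SV) (t : ℕ) (z : V.obj (bx t)) (h : MCyc V t z) :
    (DoldKan.PInfty.f t : V.obj (bx t) ⟶ V.obj (bx t)) z = z := by
  cases t with
  | zero =>
    rw [DoldKan.PInfty_f_0]
    rfl
  | succ t =>
    rw [DoldKan.PInfty_f]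
    let φ : ModuleCat.of (ZMod 2) (ZMod 2) ⟶ V.obj (bx (t + 1)) :=
      ModuleCat.ofHom (LinearMap.toSpanSingleton (ZMod 2) _ z)
    have hφ : φ (1 : ZMod 2) = z := one_smul (ZMod 2) z
    have hv : DoldKan.HigherFacesVanish (t + 1) φ := by
      intro j _
      ext
      show V.map (dop j.succ) (φ (1 : ZMod 2)) = 0
      rw [hφ]
      exact (cyc_iff V t z).1 h j.succ
    have h1 := hv.comp_P_eq_self
    have h2 : (φ ≫ (DoldKan.P (t + 1)).f (t + 1)) (1 : ZMod 2) = φ (1 : ZMod 2) := by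
      rw [h1]
    rw [ModuleCat.comp_apply, hφ] at h2
    exact h2

theorem P_van (V : SV) (t : ℕ) (w : V.obj (bx (t + 1))) (i : Fin (t + 1)) :
    V.map (dop i.succ) ((DoldKan.PInfty.f (t + 1) : V.obj (bx (t + 1)) ⟶ V.obj (bx (t + 1))) w)
      = 0 := by
  rw [DoldKan.PInfty_f]
  have h1 := (DoldKan.HigherFacesVanish.of_P (X := V) (t + 1) t) i (by omega)
  have h2 : ((DoldKan.P (X := V) (t + 1)).f (t + 1) ≫ V.δ i.succ) w = 0 := by
    rw [h1]
    rfl
  exact h2

theorem d_eq (V : SV) (t : ℕ) (w : V.obj (bx (t + 1))) :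
    ((AlternatingFaceMapComplex.obj V).d (t + 1) t : V.obj (bx (t + 1)) ⟶ V.obj (bx t)) w =
      ∑ i : Fin (t + 2), V.map (dop i) w := by
  rw [AlternatingFaceMapComplex.obj_d_eq]
  have h1 : (∑ i : Fin (t + 2), ((-1 : ℤ) ^ (i : ℕ)) • V.δ i) w =
      ∑ i : Fin (t + 2), ((-1 : ℤ) ^ (i : ℕ)) • (V.δ i w) := by
    have h0 := ModuleCat.hom_sum (fun i : Fin (t + 2) => ((-1 : ℤ) ^ (i : ℕ)) • V.δ i)
      Finset.univ
    refine (LinearMap.congr_fun h0 w).trans ?_
    rw [LinearMap.sum_apply]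
    rfl
  rw [h1]
  exact Finset.sum_congr rfl fun i _ => smul_eq i _

/-- Sum form implies first face form. -/
theorem to_first (V : SV) (t : ℕ) (z : V.obj (bx t)) (hz : MCyc V t z)
    (w : V.obj (bx (t + 1))) (hw : ∑ i : Fin (t + 2), V.map (dop i) w = z) : MBd V t z := by
  refine ⟨(DoldKan.PInfty.f (t + 1) : V.obj (bx (t + 1)) ⟶ V.obj (bx (t + 1))) w, ?_,
    fun i => P_van V t w i⟩
  have hc : (DoldKan.PInfty.f (t + 1) : V.obj (bx (t + 1)) ⟶ V.obj (bx (t + 1))) ≫
      (AlternatingFaceMapComplex.obj V).d (t + 1) t =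
      (AlternatingFaceMapComplex.obj V).d (t + 1) t ≫ DoldKan.PInfty.f t :=
    (DoldKan.PInfty (X := V)).comm (t + 1) t
  have h1 : ((AlternatingFaceMapComplex.obj V).d (t + 1) t :
      V.obj (bx (t + 1)) ⟶ V.obj (bx t))
      ((DoldKan.PInfty.f (t + 1) : V.obj (bx (t + 1)) ⟶ V.obj (bx (t + 1))) w) =
      (DoldKan.PInfty.f t : V.obj (bx t) ⟶ V.obj (bx t))
      (((AlternatingFaceMapComplex.obj V).d (t + 1) t :
      V.obj (bx (t + 1)) ⟶ V.obj (bx t)) w) := by
    have h2 := congrArg (fun f : V.obj (bx (t + 1)) ⟶ V.obj (bx t) => f w) hc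
    exact h2
  rw [d_eq, d_eq, hw, P_eq V t z hz, Fin.sum_univ_succ] at h1
  rw [← h1]
  have h3 : ∑ i : Fin (t + 1), V.map (dop i.succ)
      ((DoldKan.PInfty.f (t + 1) : V.obj (bx (t + 1)) ⟶ V.obj (bx (t + 1))) w) = 0 :=
    Finset.sum_eq_zero fun i _ => P_van V t w i
  rw [h3, add_zero]

theorem of_first (V : SV) (t : ℕ) (z : V.obj (bx t)) (h : MBd V t z) :
    ∃ w : V.obj (bx (t + 1)), ∑ i : Fin (t + 2), V.map (dop i) w = z := by
  obtain ⟨w, h1, h2⟩ := h
  refine ⟨w, ?_⟩
  rw [Fin.sum_univ_succ, h1, Finset.sum_eq_zero fun i _ => h2 i, add_zero]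

theorem of_last (V : SV) (t : ℕ) (z : V.obj (bx t))
    (h : ∃ w : V.obj (bx (t + 1)), V.map (dop (Fin.last (t + 1))) w = z ∧
      ∀ i : Fin (t + 1), V.map (dop i.castSucc) w = 0) :
    ∃ w : V.obj (bx (t + 1)), ∑ i : Fin (t + 2), V.map (dop i) w = z := by
  obtain ⟨w, h1, h2⟩ := h
  refine ⟨w, ?_⟩
  rw [Fin.sum_univ_castSucc, h1, Finset.sum_eq_zero fun i _ => h2 i, zero_add]

/-- The opposite simplicial object. -/
def opV (V : SV) : SV := SimplicialObject.opFunctor.obj V

theorem opV_map (V : SV) (t : ℕ) (i : Fin (t + 2)) (w : V.obj (bx (t + 1))) :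
    (opV V).map (dop i) (show (opV V).obj (bx (t + 1)) from w) =
      (show (opV V).obj (bx t) from V.map (dop i.rev) w) := by
  have h := SimplicialObject.opFunctor_obj_δ V i
  have h2 := congrArg (fun f : (opV V).obj (bx (t + 1)) ⟶ (opV V).obj (bx t) =>
    f (show (opV V).obj (bx (t + 1)) from w)) h
  exact h2

theorem opV_cyc (V : SV) (t : ℕ) (z : V.obj (bx t)) (h : MCyc V t z) :
    MCyc (opV V) t (show (opV V).obj (bx t) from z) := by
  cases t with
  | zero => exact zero_cyc _ _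
  | succ t =>
    rw [cyc_iff] at h ⊢
    intro i
    rw [opV_map, h]
    rfl

/-- Sum form implies last face form. -/
theorem to_last (V : SV) (t : ℕ) (z : V.obj (bx t)) (hz : MCyc V t z)
    (w : V.obj (bx (t + 1))) (hw : ∑ i : Fin (t + 2), V.map (dop i) w = z) :
    ∃ w : V.obj (bx (t + 1)), V.map (dop (Fin.last (t + 1))) w = z ∧
      ∀ i : Fin (t + 1), V.map (dop i.castSucc) w = 0 := by
  have h1 : ∑ i : Fin (t + 2), (opV V).map (dop i) (show (opV V).obj (bx (t + 1)) from w) =
      (show (opV V).obj (bx t) from z) := by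
    simp only [opV_map]
    rw [← hw]
    exact Equiv.sum_comp Fin.revPerm (fun i => V.map (dop i) w)
  obtain ⟨w', h2, h3⟩ := to_first (opV V) t _ (opV_cyc V t z hz) _ h1
  refine ⟨(show V.obj (bx (t + 1)) from w'), ?_, ?_⟩
  · have h4 := opV_map V t 0 (show V.obj (bx (t + 1)) from w')
    rw [Fin.rev_zero] at h4
    exact h4.symm.trans h2
  · intro i
    have h4 := opV_map V t i.rev.succ (show V.obj (bx (t + 1)) from w')
    rw [Fin.rev_succ, Fin.rev_rev] at h4
    exact h4.symm.trans (h3 i.rev)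

/-! ### Filling of last horns -/

theorem face_sop_self (V : SV) {n : ℕ} (i : Fin (n + 1)) (x : V.obj (bx n)) :
    V.map (dop i.castSucc) (V.map (sop i) x) = x := by
  have h := congrArg (fun f : V.obj (bx n) ⟶ V.obj (bx n) => f x) (V.δ_comp_σ_self (i := i))
  exact h

theorem face_sop (V : SV) {n : ℕ} {i : Fin (n + 2)} {j : Fin (n + 1)} (h : i ≤ j.castSucc)
    (x : V.obj (bx (n + 1))) :
    V.map (dop i.castSucc) (V.map (sop j.succ) x) = V.map (sop j) (V.map (dop i) x) := by
  have h2 := congrArg (fun f : V.obj (bx (n + 1)) ⟶ V.obj (bx (n + 1)) => f x)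
    (V.δ_comp_σ_of_le h)
  exact h2

theorem face_face (V : SV) {n : ℕ} {i j : Fin (n + 2)} (h : i ≤ j) (x : V.obj (bx (n + 2))) :
    V.map (dop i) (V.map (dop j.succ) x) = V.map (dop j) (V.map (dop i.castSucc) x) := by
  have h2 := congrArg (fun f : V.obj (bx (n + 2)) ⟶ V.obj (bx n) => f x) (V.δ_comp_δ h)
  exact h2

end MB

open MB in
/-- Filling of the last horn in dimension one. -/
theorem tt_horn_zero (V : SV) (y : Fin 1 → V.obj (bx 0)) :
    ∃ w : V.obj (bx 1), ∀ i : Fin 1, V.map (dop i.castSucc) w = y i := by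
  refine ⟨V.map (sop 0) (y 0), fun i => ?_⟩
  obtain rfl : i = 0 := Subsingleton.elim _ _
  exact face_sop_self V 0 (y 0)

open MB in
/-- Filling of the last horn. -/
theorem tt_horn (V : SV) (m : ℕ) (y : Fin (m + 2) → V.obj (bx (m + 1)))
    (h : ∀ i j : Fin (m + 1), i ≤ j →
      V.map (dop i.castSucc) (y j.succ) = V.map (dop j.castSucc) (y i.castSucc)) :
    ∃ w : V.obj (bx (m + 2)), ∀ i : Fin (m + 2), V.map (dop i.castSucc) w = y i := by
  have key : ∀ n : ℕ, ∀ hn : n < m + 2, ∃ w : V.obj (bx (m + 2)),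
      ∀ i : Fin (m + 2), (i : ℕ) ≤ n → V.map (dop i.castSucc) w = y i := by
    intro n
    induction n with
    | zero =>
      intro _
      refine ⟨V.map (sop 0) (y 0), fun i hi => ?_⟩
      obtain rfl : i = 0 := Fin.ext (Nat.le_zero.1 hi)
      exact face_sop_self V 0 (y 0)
    | succ n ih =>
      intro hn
      obtain ⟨w, hw⟩ := ih (by omega)
      let j : Fin (m + 1) := ⟨n, by omega⟩
      refine ⟨w + V.map (sop j.succ) (y j.succ + V.map (dop j.succ.castSucc) w), ?_⟩
      intro i hi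
      rcases Nat.lt_or_ge (i : ℕ) (n + 1) with hi' | hi'
      · have hij : (⟨i, by omega⟩ : Fin (m + 1)) ≤ j := by
          show (i : ℕ) ≤ n
          omega
        have hi2 : i = (⟨i, by omega⟩ : Fin (m + 1)).castSucc := rfl
        have h1 := h _ _ hij
        have h2 : V.map (dop i.castSucc) w = y i := hw i (by omega)
        have h3 : V.map (dop i) (V.map (dop j.castSucc.succ) w) =
            V.map (dop j.castSucc) (V.map (dop i.castSucc) w) := face_face V (by
              show (i : ℕ) ≤ n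
              omega) w
        rw [map_add, face_sop V (by
            show (i : ℕ) ≤ n
            omega), map_add]
        rw [← Fin.succ_castSucc, h3, h2]
        rw [← hi2] at h1
        rw [h1, ZModModule.add_self, map_zero, add_zero]
      · have hi3 : i = j.succ := Fin.ext (by
          show (i : ℕ) = n + 1
          omega)
        rw [hi3, map_add, face_sop_self, add_comm (y j.succ), ← add_assoc, ZModModule.add_self,
          zero_add]
  obtain ⟨w, hw⟩ := key (m + 1) (by omega)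
  exact ⟨w, fun i => hw i (by omega)⟩

open MB in
theorem tt_mb : Stmt_MB := by
  refine ⟨zero_cyc, cyc_iff, fun V t z hz => ⟨⟨of_first V t z, ?_⟩, ⟨?_, ?_⟩⟩⟩
  · rintro ⟨w, hw⟩
    exact to_first V t z hz w hw
  · intro h
    obtain ⟨w, hw⟩ := of_first V t z h
    exact to_last V t z hz w hw
  · intro h
    obtain ⟨w, hw⟩ := of_last V t z h
    exact to_first V t z hz w hw

end Pool.Agent.SH.TT
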