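import Mathlib
import Pool.Agent.SH.StmtsV

/-!
# MP_2d0b73_an, block III-T (TT): null homotopies from the cone lemma
-/

open CategoryTheory Simplicial SSet Opposite MonoidalCategory

noncomputable section

namespace Pool.Agent.SH.TT.NUL

/-! ### Exactness -/

theorem exc_mono {D : CoV} (h : ExC D 0) : ExC D 1 := fun t _ => h t (Nat.zero_le t)

theorem exc_all (hTR : ∀ (D : CoV) (n : ℕ), ExC (D.mp (Δ[n] : SSet.{0}) ∂Δ[n]) 1 →
      ExC (D.mp (Δ[n + 1] : SSet.{0}) ∂Δ[n + 1]) 0)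
    (hT0 : ∀ D : CoV, ExC D 1 → ExC (D.mp (Δ[0] : SSet.{0}) ∂Δ[0]) 1)
    (D : CoV) (h : ExC D 1) : ∀ n : ℕ, ExC (D.mp (Δ[n] : SSet.{0}) ∂Δ[n]) 1 := by
  intro n
  induction n with
  | zero => exact hT0 D h
  | succ n ih => exact exc_mono (hTR D n ih)

/-! ### The combinatorial map -/

/-- the simplex `(t, a)` of the cone on `Δ^s`, with last vertex the cone point -/
def kap {s : ℕ} {l : Dop} (a : bx 1 ⟶ l) (t : bx s ⟶ l) : bx (s + 1) ⟶ l :=
  Quiver.Hom.op (X := l.unop) (Y := ⦋s + 1⦌)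
  (SimplexCategory.Hom.mk (a := l.unop) (b := ⦋s + 1⦌)
    { toFun := fun i => if a.unop.toOrderHom i = 0 then (t.unop.toOrderHom i).castSucc
        else Fin.last (s + 1)
      monotone' := by
        intro i j hij
        dsimp only
        have ha := a.unop.toOrderHom.monotone hij
        have ht := t.unop.toOrderHom.monotone hij
        by_cases h1 : a.unop.toOrderHom j = 0
        · have h2 : a.unop.toOrderHom i = 0 := by
            rw [h1] at ha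
            exact Fin.le_zero_iff.1 ha
          rw [if_pos h1, if_pos h2]
          exact Fin.castSucc_le_castSucc_iff.2 ht
        · rw [if_neg h1]
          exact Fin.le_last _ })

theorem kap_apply {s : ℕ} {l : Dop} (a : bx 1 ⟶ l) (t : bx s ⟶ l) (i : Fin (l.unop.len + 1)) :
    (kap a t).unop.toOrderHom i = if a.unop.toOrderHom i = 0 then
      (t.unop.toOrderHom i).castSucc else Fin.last (s + 1) := rfl

theorem dext {p q : Dop} {f g : p ⟶ q}
    (h : ∀ i : Fin (q.unop.len + 1), f.unop.toOrderHom i = g.unop.toOrderHom i) : f = g := by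
  apply Quiver.Hom.unop_inj
  apply SimplexCategory.Hom.ext
  apply OrderHom.ext
  funext i
  exact h i

theorem kap_comp {s : ℕ} {l m : Dop} (a : bx 1 ⟶ l) (t : bx s ⟶ l) (α : l ⟶ m) :
    kap (a ≫ α) (t ≫ α) = kap a t ≫ α := by
  apply dext
  intro i
  rfl

theorem kap_dop {s : ℕ} {l : Dop} (a : bx 1 ⟶ l) (t : bx s ⟶ l) (i : Fin (s + 2)) :
    kap a (dop i ≫ t) = dop i.castSucc ≫ kap a t := by
  apply dext
  intro j
  rw [kap_apply]
  show _ = i.castSucc.succAbove ((kap a t).unop.toOrderHom j)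
  rw [kap_apply]
  by_cases h : a.unop.toOrderHom j = 0
  · rw [if_pos h, if_pos h]
    show (i.succAbove (t.unop.toOrderHom j)).castSucc = _
    rw [Fin.castSucc_succAbove_castSucc]
  · rw [if_neg h, if_neg h]
    rw [Fin.succAbove_ne_last_last (Fin.castSucc_lt_last i).ne]

theorem kap_zero {s : ℕ} {l : Dop} (a : bx 1 ⟶ l) (t : bx s ⟶ l)
    (h : ∀ i, a.unop.toOrderHom i = 0) : kap a t = dop (Fin.last (s + 1)) ≫ t := by
  apply dext
  intro j
  rw [kap_apply, if_pos (h j)]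
  show _ = (Fin.last (s + 1)).succAbove (t.unop.toOrderHom j)
  rw [Fin.succAbove_last]

/-- the last vertex -/
def lv (s : ℕ) : bx (s + 1) ⟶ bx 0 :=
  (SimplexCategory.const ⦋0⦌ ⦋s + 1⦌ (Fin.last (s + 1))).op

/-- the map from the vertex -/
def ct (l : Dop) : bx 0 ⟶ l := (SimplexCategory.const l.unop ⦋0⦌ 0).op

theorem kap_one {s : ℕ} {l : Dop} (a : bx 1 ⟶ l) (t : bx s ⟶ l)
    (h : ∀ i, a.unop.toOrderHom i = 1) : kap a t = lv s ≫ ct l := by
  apply dext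
  intro j
  rw [kap_apply, if_neg (by rw [h j]; decide)]
  rfl

theorem lv_zero : lv 0 = dop 0 := by
  apply dext
  intro j
  show Fin.last 1 = (0 : Fin 2).succAbove j
  have hj : j = (0 : Fin 1) := Subsingleton.elim (α := Fin 1) _ _
  rw [hj]
  rfl

theorem lv_succ (s : ℕ) : lv (s + 1) = dop (Fin.castSucc 0) ≫ lv s := by
  apply dext
  intro j
  show Fin.last (s + 2) = (Fin.castSucc (0 : Fin (s + 2))).succAbove (Fin.last (s + 1))
  rw [Fin.succAbove_ne_last_last (Fin.castSucc_lt_last _).ne]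

end Pool.Agent.SH.TT.NUL

namespace Pool.Agent.SH.TT

open NUL

theorem tt_nul : Stmt_NUL := by
  intro hMB hCONE hHADD _ hTR hT0 D W W₀ hEx n hn x hnat hbd
  obtain ⟨n, rfl⟩ : ∃ n', n = n' + 1 := ⟨n - 1, by omega⟩
  have hE : ExC ((D.mp W W₀).mp (Δ[n + 1] : SSet.{0}) ∂Δ[n + 1]) 0 :=
    hTR _ n (exc_all hTR hT0 _ hEx n)
  have hH : HAdd ((D.mp W W₀).mp (Δ[n + 1] : SSet.{0}) ∂Δ[n + 1]) := hHADD _ (n + 1) (by omega)
  -- values of `x`
  let X : ∀ k : Dop, W.obj k → (Δ[n + 1] : SSet.{0}).obj k → TotS D k := x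
  have hXnat : ∀ {k l : Dop} (α : k ⟶ l) (c : W.obj k) (ρ : (Δ[n + 1] : SSet.{0}).obj k)
      (s : ℕ) (m : Dop) (z : l ⟶ m) (t : bx s ⟶ m),
      (X l (W.map α c) ((Δ[n + 1] : SSet.{0}).map α ρ)).f s m z t = (X k c ρ).f s m (α ≫ z) t := by
    intro k l α c ρ s m z t
    have h := hnat α c ρ
    exact congrArg (fun (u : TotS D l) => u.f s m z t) h
  have hXbd : ∀ (k : Dop) (c : W.obj k) (ρ : (Δ[n + 1] : SSet.{0}).obj k),
      (c ∈ W₀.obj k ∨ ρ ∈ (∂Δ[n + 1] : (Δ[n + 1] : SSet.{0}).Subcomplex).obj k) →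
      ∀ (s : ℕ) (m : Dop) (z : k ⟶ m) (t : bx s ⟶ m), (X k c ρ).f s m z t = 0 := by
    intro k c ρ h s m z t
    have h := hbd k c ρ h
    exact congrArg (fun (u : TotS D k) => u.f s m z t) h
  -- the simplices `f s`
  let g : ∀ (s : ℕ) (k : Dop) (_ : (Δ[n + 1] : SSet.{0}).obj k) (_ : bx s ⟶ k),
      ((D.mp W W₀).V s).obj k := fun s k ρ σ =>
    MapP.mk (Z := W) (Z₀ := W₀) (V := D.V s) (q := k)
      (fun l c τ => (X l c ((Δ[n + 1] : SSet.{0}).map τ ρ)).f s l (𝟙 l) (σ ≫ τ))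
      (by
        intro l l' α c τ
        have e : (Δ[n + 1] : SSet.{0}).map (τ ≫ α) ρ
            = (Δ[n + 1] : SSet.{0}).map α ((Δ[n + 1] : SSet.{0}).map τ ρ) := by
          rw [Functor.map_comp_apply]
        rw [e, hXnat α c _ s l' (𝟙 l') _, Category.comp_id, ← Category.assoc,
          ← (X l c ((Δ[n + 1] : SSet.{0}).map τ ρ)).nat s α (𝟙 l) (σ ≫ τ), Category.id_comp])
      (fun l c τ h => hXbd l c _ (Or.inl h) s l (𝟙 l) _)
  let f : ∀ s : ℕ, (((D.mp W W₀).mp (Δ[n + 1] : SSet.{0}) ∂Δ[n + 1]).V s).obj (bx s) := fun s =>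
    MapP.mk (Z := (Δ[n + 1] : SSet.{0})) (Z₀ := ∂Δ[n + 1]) (V := (D.mp W W₀).V s) (q := bx s)
      (g s)
      (by
        intro k k' α ρ σ
        apply MapP.ext
        intro l c τ
        show (X l c ((Δ[n + 1] : SSet.{0}).map τ ((Δ[n + 1] : SSet.{0}).map α ρ))).f s l (𝟙 l)
            ((σ ≫ α) ≫ τ)
          = (X l c ((Δ[n + 1] : SSet.{0}).map (α ≫ τ) ρ)).f s l (𝟙 l) (σ ≫ α ≫ τ)
        rw [Functor.map_comp_apply, Category.assoc])
      (by
        intro k ρ σ h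
        apply MapP.ext
        intro l c τ
        exact hXbd l c _ (Or.inr ((∂Δ[n + 1] : (Δ[n + 1] : SSet.{0}).Subcomplex).map τ h))
          s l (𝟙 l) _)
  have hf : ∀ (s : ℕ) (i : Fin (s + 2)),
      (((D.mp W W₀).mp (Δ[n + 1] : SSet.{0}) ∂Δ[n + 1]).V (s + 1)).map (dop i) (f (s + 1)) =
        ((D.mp W W₀).mp (Δ[n + 1] : SSet.{0}) ∂Δ[n + 1]).cof s i (bx s) (f s) := by
    intro s i
    apply MapP.ext
    intro k ρ σ
    apply MapP.ext
    intro l c τ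
    show (X l c ((Δ[n + 1] : SSet.{0}).map τ ρ)).f (s + 1) l (𝟙 l) ((dop i ≫ σ) ≫ τ)
      = D.cof s i l ((X l c ((Δ[n + 1] : SSet.{0}).map τ ρ)).f s l (𝟙 l) (σ ≫ τ))
    rw [Category.assoc]
    exact (X l c ((Δ[n + 1] : SSet.{0}).map τ ρ)).cof s i l (𝟙 l) (σ ≫ τ)
  obtain ⟨H, h00, h01, hHs⟩ := hCONE hMB _ hH hE f hf
  -- the value of `H`
  let K : ∀ (s : ℕ) (l : Dop) (_ : W.obj l) (_ : (Δ[n + 1] : SSet.{0}).obj l)
      (_ : bx (s + 1) ⟶ l), (D.V s).obj l := fun s l c ρ u =>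
    MapP.ev (Z := W) (Z₀ := W₀) (V := D.V s)
      (MapP.ev (Z := (Δ[n + 1] : SSet.{0})) (Z₀ := ∂Δ[n + 1]) (V := (D.mp W W₀).V s) (H s) l ρ u)
      l c (𝟙 l)
  have hKnat : ∀ (s : ℕ) {l m : Dop} (α : l ⟶ m) (c : W.obj l)
      (ρ : (Δ[n + 1] : SSet.{0}).obj l) (u : bx (s + 1) ⟶ l),
      K s m (W.map α c) ((Δ[n + 1] : SSet.{0}).map α ρ) (u ≫ α) = (D.V s).map α (K s l c ρ u) := by
    intro s l m α c ρ u
    have h1 := MapP.nat (Z := (Δ[n + 1] : SSet.{0})) (Z₀ := ∂Δ[n + 1]) (V := (D.mp W W₀).V s)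
      (H s) α ρ u
    have h2 := MapP.nat (Z := W) (Z₀ := W₀) (V := D.V s)
      (MapP.ev (Z := (Δ[n + 1] : SSet.{0})) (Z₀ := ∂Δ[n + 1]) (V := (D.mp W W₀).V s) (H s) l ρ u)
      α c (𝟙 l)
    show MapP.ev (Z := W) (Z₀ := W₀) (V := D.V s)
      (MapP.ev (Z := (Δ[n + 1] : SSet.{0})) (Z₀ := ∂Δ[n + 1]) (V := (D.mp W W₀).V s) (H s) m
        ((Δ[n + 1] : SSet.{0}).map α ρ) (u ≫ α)) m (W.map α c) (𝟙 m) = _
    rw [h1]
    rw [← h2]
    show MapP.ev (Z := W) (Z₀ := W₀) (V := D.V s) _ m (W.map α c) (α ≫ 𝟙 m) = _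
    rw [Category.comp_id, Category.id_comp]
  have hKvan : ∀ (s : ℕ) (l : Dop) (c : W.obj l) (ρ : (Δ[n + 1] : SSet.{0}).obj l)
      (u : bx (s + 1) ⟶ l),
      (c ∈ W₀.obj l ∨ ρ ∈ (∂Δ[n + 1] : (Δ[n + 1] : SSet.{0}).Subcomplex).obj l) →
      K s l c ρ u = 0 := by
    intro s l c ρ u h
    rcases h with h | h
    · exact MapP.van _ c (𝟙 l) h
    · have h1 := MapP.van (Z := (Δ[n + 1] : SSet.{0})) (Z₀ := ∂Δ[n + 1])
        (V := (D.mp W W₀).V s) (H s) ρ u h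
      show MapP.ev (Z := W) (Z₀ := W₀) (V := D.V s)
        (MapP.ev (Z := (Δ[n + 1] : SSet.{0})) (Z₀ := ∂Δ[n + 1]) (V := (D.mp W W₀).V s) (H s) l
          ρ u) l c (𝟙 l) = _
      rw [h1]
      rfl
  have hKcof : ∀ (s : ℕ) (i : Fin (s + 2)) (l : Dop) (c : W.obj l)
      (ρ : (Δ[n + 1] : SSet.{0}).obj l) (u : bx (s + 1) ⟶ l),
      K (s + 1) l c ρ (dop i.castSucc ≫ u) = D.cof s i l (K s l c ρ u) := by
    intro s i l c ρ u
    have h := (hHs s).1 i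
    exact congrArg (fun G => MapP.ev (Z := W) (Z₀ := W₀) (V := D.V (s + 1))
      (MapP.ev (Z := (Δ[n + 1] : SSet.{0})) (Z₀ := ∂Δ[n + 1]) (V := (D.mp W W₀).V (s + 1)) G l
          ρ u) l c (𝟙 l)) h
  have hKlast : ∀ (s : ℕ) (l : Dop) (c : W.obj l)
      (ρ : (Δ[n + 1] : SSet.{0}).obj l) (t : bx s ⟶ l),
      K s l c ρ (dop (Fin.last (s + 1)) ≫ t) = (X l c ρ).f s l (𝟙 l) t := by
    intro s l c ρ t
    have h : (((D.mp W W₀).mp (Δ[n + 1] : SSet.{0}) ∂Δ[n + 1]).V s).map (dop (Fin.last (s + 1)))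
        (H s) = f s := by
      cases s with
      | zero => exact h01
      | succ s => exact (hHs s).2
    have h2 := congrArg (fun G => MapP.ev (Z := W) (Z₀ := W₀) (V := D.V s)
      (MapP.ev (Z := (Δ[n + 1] : SSet.{0})) (Z₀ := ∂Δ[n + 1]) (V := (D.mp W W₀).V s) G l
          ρ t) l c (𝟙 l)) h
    refine h2.trans ?_
    show (X l c ((Δ[n + 1] : SSet.{0}).map (𝟙 l) ρ)).f s l (𝟙 l) (t ≫ 𝟙 l) = _
    rw [Category.comp_id, Functor.map_id_apply]
  have hlv : ∀ s : ℕ, (((D.mp W W₀).mp (Δ[n + 1] : SSet.{0}) ∂Δ[n + 1]).V s).map (lv s) (H s)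
      = 0 := by
    intro s
    induction s with
    | zero => rw [lv_zero]; exact h00
    | succ s ih =>
      have h1 := (hHs s).1 0
      have h2 := ((D.mp W W₀).mp (Δ[n + 1] : SSet.{0}) ∂Δ[n + 1]).cof_nat s 0 (lv s) (H s)
      rw [ih, ((D.mp W W₀).mp (Δ[n + 1] : SSet.{0}) ∂Δ[n + 1]).cof_zero, ← h1] at h2
      rw [lv_succ, Functor.map_comp]
      exact h2.symm
  have hKone : ∀ (s : ℕ) (l : Dop) (c : W.obj l)
      (ρ : (Δ[n + 1] : SSet.{0}).obj l), K s l c ρ (lv s ≫ ct l) = 0 := by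
    intro s l c ρ
    exact congrArg (fun G => MapP.ev (Z := W) (Z₀ := W₀) (V := D.V s)
      (MapP.ev (Z := (Δ[n + 1] : SSet.{0})) (Z₀ := ∂Δ[n + 1]) (V := (D.mp W W₀).V s) G l
          ρ (ct l)) l c (𝟙 l)) (hlv s)
  -- the homotopy
  let h : ∀ k : Dop, W.obj k → (Δ[n + 1] : SSet.{0}).obj k → (bx 1 ⟶ k) → TotS D k :=
    fun k c ρ e =>
    { f := fun s l z t => K s l (W.map z c) ((Δ[n + 1] : SSet.{0}).map z ρ) (kap (e ≫ z) t)
      nat := by
        intro s l m α z t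
        rw [Functor.map_comp_apply, Functor.map_comp_apply, ← Category.assoc,
          kap_comp]
        exact hKnat s α _ _ _
      cof := by
        intro s i l z t
        rw [kap_dop]
        exact hKcof s i l _ _ _ }
  refine ⟨h, ?_, ?_, ?_, ?_⟩
  · intro k l α c ρ e
    apply TotS.ext
    funext s m z t
    show K s m (W.map z (W.map α c)) ((Δ[n + 1] : SSet.{0}).map z ((Δ[n + 1] : SSet.{0}).map α ρ))
        (kap ((e ≫ α) ≫ z) t)
      = K s m (W.map (α ≫ z) c) ((Δ[n + 1] : SSet.{0}).map (α ≫ z) ρ) (kap (e ≫ α ≫ z) t)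
    rw [Functor.map_comp_apply, Functor.map_comp_apply, Category.assoc]
  · intro k c ρ e hc
    apply TotS.ext
    funext s m z t
    refine hKvan s m _ _ _ ?_
    rcases hc with hc | hc
    · exact Or.inl (W₀.map z hc)
    · exact Or.inr ((∂Δ[n + 1] : (Δ[n + 1] : SSet.{0}).Subcomplex).map z hc)
  · intro k c ρ e he
    apply TotS.ext
    funext s m z t
    show K s m (W.map z c) ((Δ[n + 1] : SSet.{0}).map z ρ) (kap (e ≫ z) t) = (X k c ρ).f s m z t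
    rw [kap_zero (e ≫ z) t (fun i => he _), hKlast, hXnat z c ρ s m (𝟙 m) t, Category.comp_id]
  · intro k c ρ e he
    apply TotS.ext
    funext s m z t
    show K s m (W.map z c) ((Δ[n + 1] : SSet.{0}).map z ρ) (kap (e ≫ z) t) = 0
    rw [kap_one (e ≫ z) t (fun i => he _), hKone]

end Pool.Agent.SH.TT
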