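import Mathlib
import Pool.Agent.SH.StmtsV

/-!
# MP_2d0b73_an, block III-T, OMC: loop spaces inherit compactness
-/

open CategoryTheory Simplicial SSet Opposite MonoidalCategory

noncomputable section

namespace Pool.Agent.SH.TT

namespace OMC

theorem bdy_comp {n : ℕ} {k l : Dop} {e : bx n ⟶ k} (h : Bdy e) (α : k ⟶ l) : Bdy (e ≫ α) := by
  intro hs
  apply h
  intro i
  obtain ⟨j, hj⟩ := hs i
  exact ⟨α.unop.toOrderHom j, hj⟩

/-- The cylinder `B × Δ^1`. -/
def cyl (B : SSet.{0}) : SSet.{0} where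
  obj k := B.obj k × (bx 1 ⟶ k)
  map {k l} α := TypeCat.ofHom (fun x => (B.map α x.1, x.2 ≫ α))
  map_id k := by
    ext x
    · simp
    · simp
  map_comp α β := by
    ext x
    · simp
    · simp

/-- The projection of the cylinder. -/
def pr (B : SSet.{0}) : cyl B ⟶ B where
  app k := TypeCat.ofHom (fun x => x.1)
  naturality k l α := rfl

/-- The part of the cylinder over `A` and over the ends. -/
def csub {B : SSet.{0}} (A : B.Subcomplex) : (cyl B).Subcomplex where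
  obj k := Set.ofPred (fun x : B.obj k × (bx 1 ⟶ k) => x.1 ∈ A.obj k ∨ Bdy x.2)
  map {k l} α := by
    rintro x (h | h)
    · exact Or.inl (A.map α h)
    · exact Or.inr (bdy_comp h α)

variable {Y : SSet.{0}} {b : Base Y}

open Classical in
/-- The map on the part of the cylinder. -/
def cmap {B : SSet.{0}} {A : B.Subcomplex} (u : (A : SSet.{0}) ⟶ Om Y b) :
    (csub A : SSet.{0}) ⟶ Y where
  app k := TypeCat.ofHom (fun x => if h : x.1.1 ∈ A.obj k then
    (FamL.ofHom u).f k ⟨x.1.1, h⟩ x.1.2 else b.pt k)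
  naturality k l α := by
    refine ConcreteCategory.hom_ext _ _ fun x => ?_
    obtain ⟨⟨z, e⟩, hx⟩ := x
    show (if h : B.map α z ∈ A.obj l then
      (FamL.ofHom u).f l ⟨B.map α z, h⟩ (e ≫ α) else b.pt l) =
      Y.map α (if h : z ∈ A.obj k then (FamL.ofHom u).f k ⟨z, h⟩ e else b.pt k)
    by_cases h : z ∈ A.obj k
    · have h2 : B.map α z ∈ A.obj l := A.map α h
      rw [dif_pos h, dif_pos h2]
      exact (FamL.ofHom u).nat α ⟨z, h⟩ e
    · rw [dif_neg h, b.nat]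
      have he : Bdy e := by
        rcases hx with h' | h'
        · exact absurd h' h
        · exact h'
      by_cases h' : B.map α z ∈ A.obj l
      · rw [dif_pos h']
        exact (FamL.ofHom u).bd l _ _ (bdy_comp he α)
      · rw [dif_neg h']

theorem cmap_pos {B : SSet.{0}} {A : B.Subcomplex} (u : (A : SSet.{0}) ⟶ Om Y b) {k : Dop}
    (x : (csub A : SSet.{0}).obj k) (h : x.1.1 ∈ A.obj k) :
    (cmap u).app k x = (FamL.ofHom u).f k ⟨x.1.1, h⟩ x.1.2 := dif_pos h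

theorem cmap_bdy {B : SSet.{0}} {A : B.Subcomplex} (u : (A : SSet.{0}) ⟶ Om Y b) {k : Dop}
    (x : (csub A : SSet.{0}).obj k) (h : Bdy x.1.2) : (cmap u).app k x = b.pt k := by
  by_cases h' : x.1.1 ∈ A.obj k
  · rw [cmap_pos u x h']
    exact (FamL.ofHom u).bd k _ _ h
  · exact dif_neg h'

/-- The map on a subcomplex of the cylinder over `F`. -/
def fmap {B : SSet.{0}} {F : B.Subcomplex} (w : (F : SSet.{0}) ⟶ Om Y b)
    (F' : (cyl B).Subcomplex) (h : ∀ k, ∀ x ∈ F'.obj k, x.1 ∈ F.obj k) :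
    (F' : SSet.{0}) ⟶ Y where
  app k := TypeCat.ofHom (fun x => (FamL.ofHom w).f k ⟨x.1.1, h k _ x.2⟩ x.1.2)
  naturality k l α := by
    refine ConcreteCategory.hom_ext _ _ fun x => ?_
    obtain ⟨⟨z, e⟩, hx⟩ := x
    exact (FamL.ofHom w).nat α ⟨z, h k _ hx⟩ e

theorem main (Y : SSet.{0}) (b : Base Y) (hY : TCompact Y) : TCompact (Om Y b) := by
  intro B A u hu
  obtain ⟨W, hW⟩ := hY (cyl B) (csub A) (cmap u) (by
    intro F' hF'
    obtain ⟨w, hw⟩ := hu (Subcomplex.range (F'.ι ≫ pr B)) inferInstance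
    have hmem : ∀ k, ∀ x ∈ F'.obj k, x.1 ∈ (Subcomplex.range (F'.ι ≫ pr B)).obj k :=
      fun k x hx => ⟨⟨x, hx⟩, rfl⟩
    refine ⟨fmap w F' hmem, ?_⟩
    ext k x
    obtain ⟨⟨z, e⟩, hx1, hx2⟩ := x
    show (FamL.ofHom w).f k ⟨z, hmem k _ hx2⟩ e = (cmap u).app k ⟨(z, e), hx1⟩
    by_cases h : z ∈ A.obj k
    · rw [cmap_pos u ⟨(z, e), hx1⟩ h]
      have h1 := NatTrans.congr_app hw k
      have h2 := ConcreteCategory.congr_hom h1 ⟨z, h, hmem k _ hx2⟩
      exact congrArg (fun s : OmS Y b k => s.f k (𝟙 k) e) h2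
    · have he : Bdy e := by
        rcases hx1 with h' | h'
        · exact absurd h' h
        · exact h'
      rw [cmap_bdy u ⟨(z, e), hx1⟩ he]
      exact (FamL.ofHom w).bd k _ _ he)
  have hW' : ∀ (k : Dop) (x : (csub A : SSet.{0}).obj k), W.app k x.1 = (cmap u).app k x :=
    fun k x => ConcreteCategory.congr_hom (NatTrans.congr_app hW k) x
  let G : FamL Y b B :=
    { f := fun k z e => W.app k ((z, e) : B.obj k × (bx 1 ⟶ k))
      nat := fun {k l} α z e => NatTrans.naturality_apply W α ((z, e) : B.obj k × (bx 1 ⟶ k))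
      bd := fun k z e h => (hW' k ⟨(z, e), Or.inr h⟩).trans (cmap_bdy u _ h) }
  refine ⟨G.toHom, ?_⟩
  ext q z
  apply OmS.ext
  funext k σ e
  show W.app k ((B.map σ z.1, e) : B.obj k × (bx 1 ⟶ k)) = (u.app q z : OmS Y b q).f k σ e
  have h1 := hW' k ⟨(B.map σ z.1, e), Or.inl (A.map σ z.2)⟩
  refine h1.trans ?_
  rw [cmap_pos u ⟨(B.map σ z.1, e), Or.inl (A.map σ z.2)⟩ (A.map σ z.2)]
  have h2 : (u.app k ((A : SSet.{0}).map σ z) : OmS Y b k) = (Om Y b).map σ (u.app q z) :=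
    NatTrans.naturality_apply u σ z
  have h3 := congrArg (fun s : OmS Y b k => s.f k (𝟙 k) e) h2
  refine Eq.trans h3 ?_
  show (u.app q z : OmS Y b q).f k (σ ≫ 𝟙 k) e = _
  rw [Category.comp_id]

end OMC

theorem tt_omc : Stmt_OMC := OMC.main

end Pool.Agent.SH.TT
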