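import Mathlib
import Pool.Agent.SH.StmtsV

/-!
# MP_2d0b73_an, block III-T: module TT_OMW

`W` is acyclic for the loop space of `Y` (extension property of `Y` and relative null homotopies).
-/

set_option autoImplicit false

open CategoryTheory Simplicial SSet Opposite MonoidalCategory

noncomputable section

namespace Pool.Agent.SH.TT

namespace OMW

/-- Constant morphisms. -/
def cst (k : Dop) (j : Fin 2) : bx 1 ⟶ k := (SimplexCategory.const k.unop ⦋1⦌ j).op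

theorem cst_apply (k : Dop) (j : Fin 2) (i : Fin (k.unop.len + 1)) :
    (cst k j).unop.toOrderHom i = j := rfl

theorem ext1 {k : Dop} {e e' : bx 1 ⟶ k}
    (h : ∀ i, e.unop.toOrderHom i = e'.unop.toOrderHom i) : e = e' := by
  apply Quiver.Hom.unop_inj
  apply SimplexCategory.Hom.ext
  exact OrderHom.ext _ _ (funext h)

theorem comp_apply {k l : Dop} (e : bx 1 ⟶ k) (α : k ⟶ l) (i : Fin (l.unop.len + 1)) :
    (e ≫ α).unop.toOrderHom i = e.unop.toOrderHom (α.unop.toOrderHom i) := rfl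

theorem cst_comp {k l : Dop} (α : k ⟶ l) (j : Fin 2) : cst k j ≫ α = cst l j :=
  ext1 fun _ => rfl

theorem bdy_iff {k : Dop} (e : bx 1 ⟶ k) : Bdy e ↔ e = cst k 0 ∨ e = cst k 1 := by
  constructor
  · intro h
    by_contra hc
    push Not at hc
    apply h
    have h0 : ∃ i, e.unop.toOrderHom i = 0 := by
      by_contra h0
      push Not at h0
      apply hc.2
      apply ext1
      intro i
      have h1 := h0 i
      have h2 : ∀ a : Fin 2, a ≠ 0 → a = 1 := by decide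
      exact h2 _ h1
    have h1 : ∃ i, e.unop.toOrderHom i = 1 := by
      by_contra h0
      push Not at h0
      apply hc.1
      apply ext1
      intro i
      have h1 := h0 i
      have h2 : ∀ a : Fin 2, a ≠ 1 → a = 0 := by decide
      exact h2 _ h1
    intro a
    have h3 : ∀ a : Fin 2, a = 0 ∨ a = 1 := by decide
    rcases h3 a with h | h
    · obtain ⟨i, hi⟩ := h0
      exact ⟨i, hi.trans h.symm⟩
    · obtain ⟨i, hi⟩ := h1
      exact ⟨i, hi.trans h.symm⟩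
  · rintro (rfl | rfl) h
    · obtain ⟨i, hi⟩ := h 1
      have h2 : (0 : Fin 2) = 1 := hi
      exact absurd h2 (by decide)
    · obtain ⟨i, hi⟩ := h 0
      have h2 : (1 : Fin 2) = 0 := hi
      exact absurd h2 (by decide)

theorem cst_ne {k : Dop} : cst k 1 ≠ cst k 0 := by
  intro h
  have h1 : (cst k 1).unop.toOrderHom 0 = (cst k 0).unop.toOrderHom 0 := by rw [h]
  have h2 : (1 : Fin 2) = 0 := h1
  exact absurd h2 (by decide)

/-- Minimum. -/
def mn {k : Dop} (e τ : bx 1 ⟶ k) : bx 1 ⟶ k :=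
  Quiver.Hom.op (X := k.unop) (Y := ⦋1⦌)
    (SimplexCategory.Hom.mk (e.unop.toOrderHom ⊓ τ.unop.toOrderHom))

theorem mn_apply {k : Dop} (e τ : bx 1 ⟶ k) (i : Fin (k.unop.len + 1)) :
    (mn e τ).unop.toOrderHom i = e.unop.toOrderHom i ⊓ τ.unop.toOrderHom i := rfl

theorem mn_comp {k l : Dop} (e τ : bx 1 ⟶ k) (α : k ⟶ l) :
    mn (e ≫ α) (τ ≫ α) = mn e τ ≫ α := ext1 fun _ => rfl

theorem mn_one {k : Dop} (e : bx 1 ⟶ k) : mn e (cst k 1) = e := by
  apply ext1
  intro i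
  rw [mn_apply, cst_apply]
  have h : ∀ a : Fin 2, a ⊓ 1 = a := by decide
  exact h _

theorem mn_zero {k : Dop} (e : bx 1 ⟶ k) : mn e (cst k 0) = cst k 0 := by
  apply ext1
  intro i
  rw [mn_apply, cst_apply]
  have h : ∀ a : Fin 2, a ⊓ 0 = 0 := by decide
  exact h _

theorem zero_mn {k : Dop} (e : bx 1 ⟶ k) : mn (cst k 0) e = cst k 0 := by
  apply ext1
  intro i
  rw [mn_apply, cst_apply]
  have h : ∀ a : Fin 2, 0 ⊓ a = 0 := by decide
  exact h _

theorem mem_horn {k : Dop} (j : Fin 2) (x : (Δ[1] : SSet.{0}).obj k) :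
    x ∈ (Λ[0 + 1, j] : (Δ[0 + 1] : SSet.{0}).Subcomplex).obj k ↔
      (stdSimplex.objEquiv x).op = cst k j := by
  rw [mem_horn_iff]
  constructor
  · intro h
    apply ext1
    intro i
    by_contra hc
    apply h
    rw [Set.eq_univ_iff_forall]
    intro a
    by_cases ha : a = j
    · exact Or.inr ha
    · refine Or.inl ⟨i, ?_⟩
      have h2 : ∀ a b c : Fin 2, a ≠ c → b ≠ c → b = a := by decide
      exact h2 _ _ j ha hc
  · intro h h1
    rw [Set.eq_univ_iff_forall] at h1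
    have h2 : ∀ j : Fin 2, ∃ a : Fin 2, a ≠ j := by decide
    obtain ⟨a, ha⟩ := h2 j
    rcases h1 a with ⟨i, hi⟩ | h3
    · apply ha
      have h4 : (cst k j).unop.toOrderHom i = a := by
        rw [← h]; exact hi
      exact h4.symm
    · exact ha h3

theorem xpf (hPP : Stmt_PP) (hH : Stmt_HORN) {Y : SSet.{0}} (hY : XP Y) (Q : SSet.{0})
    (A B : Q.Subcomplex) (hAB : A ≤ B) (j : Fin 2)
    (g : ∀ k : Dop, Q.obj k → (bx 1 ⟶ k) → Y.obj k)
    (hg : ∀ {k l : Dop} (α : k ⟶ l) (q : Q.obj k) (τ : bx 1 ⟶ k),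
      (q ∈ A.obj k ∨ (q ∈ B.obj k ∧ τ = cst k j)) →
        g l (Q.map α q) (τ ≫ α) = Y.map α (g k q τ)) :
    ∃ g' : ∀ k : Dop, Q.obj k → (bx 1 ⟶ k) → Y.obj k,
      (∀ {k l : Dop} (α : k ⟶ l) (q : Q.obj k) (τ : bx 1 ⟶ k), q ∈ B.obj k →
        g' l (Q.map α q) (τ ≫ α) = Y.map α (g' k q τ)) ∧
      (∀ (k : Dop) (q : Q.obj k) (τ : bx 1 ⟶ k),
        (q ∈ A.obj k ∨ (q ∈ B.obj k ∧ τ = cst k j)) → g' k q τ = g k q τ) := by
  classical
  have hF : F2Iso ((Λ[0 + 1, j] : (Δ[0 + 1] : SSet.{0}).Subcomplex).unionProd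
      (A.preimage B.ι)).ι := hPP _ _ _ _ (hH 0 j)
  let u : (((Λ[0 + 1, j] : (Δ[0 + 1] : SSet.{0}).Subcomplex).unionProd
      (A.preimage B.ι) : (Δ[0 + 1] ⊗ (B : SSet.{0})).Subcomplex) : SSet.{0}) ⟶ Y :=
    { app := fun k => TypeCat.ofHom (fun s => g k s.1.2.1 (stdSimplex.objEquiv s.1.1).op)
      naturality := by
        intro k l α
        ext s
        have hs := (Subcomplex.mem_unionProd_iff _ _ s.1).1 s.2
        have h1 := hg α s.1.2.1 (stdSimplex.objEquiv s.1.1).op (by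
          rcases hs with h | h
          · exact Or.inl h
          · exact Or.inr ⟨s.1.2.2, (mem_horn j s.1.1).1 h⟩)
        exact h1 }
  obtain ⟨v, hv⟩ := hY _ _ hF u
  refine ⟨fun k q τ => if h : q ∈ B.obj k then
    v.app k (stdSimplex.objEquiv.symm τ.unop, ⟨q, h⟩) else g k q τ, ?_, ?_⟩
  · intro k l α q τ hq
    have hq' : Q.map α q ∈ B.obj l := B.map α hq
    show (if h : Q.map α q ∈ B.obj l then
      v.app l (stdSimplex.objEquiv.symm (τ ≫ α).unop, ⟨Q.map α q, h⟩) else g l (Q.map α q) (τ ≫ α)) =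
      Y.map α (if h : q ∈ B.obj k then
        v.app k (stdSimplex.objEquiv.symm τ.unop, ⟨q, h⟩) else g k q τ)
    rw [dif_pos hq, dif_pos hq']
    exact NatTrans.naturality_apply v α
      ((stdSimplex.objEquiv.symm τ.unop, ⟨q, hq⟩) : ((Δ[0 + 1] : SSet.{0}) ⊗ (B : SSet.{0})).obj k)
  · intro k q τ hq
    have hqB : q ∈ B.obj k := by
      rcases hq with h | h
      · exact hAB k h
      · exact h.1
    show (if h : q ∈ B.obj k then
        v.app k (stdSimplex.objEquiv.symm τ.unop, ⟨q, h⟩) else g k q τ) = g k q τ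
    rw [dif_pos hqB]
    have hmem : ((stdSimplex.objEquiv.symm τ.unop, ⟨q, hqB⟩) :
        ((Δ[0 + 1] : SSet.{0}) ⊗ (B : SSet.{0})).obj k) ∈
        ((Λ[0 + 1, j] : (Δ[0 + 1] : SSet.{0}).Subcomplex).unionProd (A.preimage B.ι)).obj k := by
      refine (Subcomplex.mem_unionProd_iff _ _ _).2 ?_
      rcases hq with h | h
      · exact Or.inl h
      · exact Or.inr ((mem_horn j _).2 h.2)
    have h1 := congrArg (fun f => f.app k ⟨_, hmem⟩) hv
    exact h1


/-- The product with the interval. -/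
def QQ (Z : SSet.{0}) : SSet.{0} where
  obj k := Z.obj k × (bx 1 ⟶ k)
  map {k l} α := TypeCat.ofHom (fun x => (Z.map α x.1, x.2 ≫ α))
  map_id k := by
    ext x
    all_goals simp
  map_comp α β := by
    ext x
    all_goals simp

theorem bdy_comp {k l : Dop} {e : bx 1 ⟶ k} (h : Bdy e) (α : k ⟶ l) : Bdy (e ≫ α) := by
  rw [bdy_iff] at h ⊢
  rcases h with rfl | rfl
  · exact Or.inl (cst_comp α 0)
  · exact Or.inr (cst_comp α 1)

/-- The part `z ∈ Z₀` or `e = 0`. -/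
def D0 {Z : SSet.{0}} (Z₀ : Z.Subcomplex) : (QQ Z).Subcomplex where
  obj k := {x | x.1 ∈ Z₀.obj k ∨ x.2 = cst k 0}
  map {k l} α := by
    rintro x (h | h)
    · exact Or.inl (Z₀.map α h)
    · refine Or.inr ?_
      show x.2 ≫ α = cst l 0
      have h' : x.2 = cst k 0 := h
      rw [h']
      exact cst_comp α 0

/-- The part `z ∈ Z₀` or `e` constant. -/
def D1 {Z : SSet.{0}} (Z₀ : Z.Subcomplex) : (QQ Z).Subcomplex where
  obj k := {x | x.1 ∈ Z₀.obj k ∨ Bdy x.2}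
  map {k l} α := by
    rintro x (h | h)
    · exact Or.inl (Z₀.map α h)
    · exact Or.inr (bdy_comp h α)

theorem D0_le {Z : SSet.{0}} (Z₀ : Z.Subcomplex) : D0 Z₀ ≤ D1 Z₀ := by
  rintro k x (h | h)
  · exact Or.inl h
  · exact Or.inr ((bdy_iff _).2 (Or.inl h))

theorem core (hPP : Stmt_PP) (hH : Stmt_HORN) {Y : SSet.{0}} (b : Base Y) (hY : XP Y)
    (Z : SSet.{0}) (Z₀ : Z.Subcomplex)
    (hN : ∀ x : ∀ k : Dop, Z.obj k → Y.obj k,
      (∀ {k l : Dop} (α : k ⟶ l) (z : Z.obj k), x l (Z.map α z) = Y.map α (x k z)) →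
      (∀ (k : Dop) (z : Z.obj k), z ∈ Z₀.obj k → x k z = b.pt k) →
      ∃ h : ∀ k : Dop, Z.obj k → (bx 1 ⟶ k) → Y.obj k,
        (∀ {k l : Dop} (α : k ⟶ l) (z : Z.obj k) (e : bx 1 ⟶ k),
          h l (Z.map α z) (e ≫ α) = Y.map α (h k z e)) ∧
        (∀ (k : Dop) (z : Z.obj k) (e : bx 1 ⟶ k), z ∈ Z₀.obj k → h k z e = b.pt k) ∧
        (∀ (k : Dop) (z : Z.obj k), h k z (cst k 0) = x k z) ∧
        (∀ (k : Dop) (z : Z.obj k), h k z (cst k 1) = b.pt k))
    (P : ∀ k : Dop, Z.obj k → (bx 1 ⟶ k) → Y.obj k)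
    (hP : ∀ {k l : Dop} (α : k ⟶ l) (z : Z.obj k) (e : bx 1 ⟶ k), z ∈ Z₀.obj k →
      P l (Z.map α z) (e ≫ α) = Y.map α (P k z e))
    (hPb : ∀ (k : Dop) (z : Z.obj k) (e : bx 1 ⟶ k), z ∈ Z₀.obj k → Bdy e → P k z e = b.pt k) :
    ∃ R : ∀ k : Dop, Z.obj k → (bx 1 ⟶ k) → Y.obj k,
      (∀ {k l : Dop} (α : k ⟶ l) (z : Z.obj k) (e : bx 1 ⟶ k),
        R l (Z.map α z) (e ≫ α) = Y.map α (R k z e)) ∧
      (∀ (k : Dop) (z : Z.obj k) (e : bx 1 ⟶ k), Bdy e → R k z e = b.pt k) ∧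
      (∀ (k : Dop) (z : Z.obj k) (e : bx 1 ⟶ k), z ∈ Z₀.obj k → R k z e = P k z e) := by
  classical
  -- the extended partial function
  let p : ∀ k : Dop, (QQ Z).obj k → Y.obj k := fun k q =>
    if q.1 ∈ Z₀.obj k then P k q.1 q.2 else b.pt k
  have p0 : ∀ (k : Dop) (z : Z.obj k) (e : bx 1 ⟶ k), z ∈ Z₀.obj k → p k (z, e) = P k z e :=
    fun k z e h => if_pos h
  have pb : ∀ (k : Dop) (z : Z.obj k) (e : bx 1 ⟶ k), Bdy e → p k (z, e) = b.pt k := by
    intro k z e he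
    by_cases h : z ∈ Z₀.obj k
    · rw [p0 k z e h]; exact hPb k z e h he
    · exact if_neg h
  have pn : ∀ {k l : Dop} (α : k ⟶ l) (z : Z.obj k) (e : bx 1 ⟶ k), z ∈ Z₀.obj k ∨ Bdy e →
      p l (Z.map α z, e ≫ α) = Y.map α (p k (z, e)) := by
    intro k l α z e h
    rcases h with h | h
    · rw [p0 k z e h, p0 l _ _ (Z₀.map α h)]; exact hP α z e h
    · rw [pb k z e h, pb l _ _ (bdy_comp h α), b.nat]
  -- step 1, 2
  obtain ⟨G', G'n, G'e⟩ := xpf hPP hH hY (QQ Z) (D0 Z₀) (D1 Z₀) (D0_le Z₀) 1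
    (fun k q τ => p k (q.1, mn q.2 τ)) (by
      rintro k l α ⟨z, e⟩ τ h
      have h1 : z ∈ Z₀.obj k ∨ Bdy (mn e τ) := by
        rcases h with (h | h) | ⟨h | h, h'⟩
        · exact Or.inl h
        · refine Or.inr ?_
          have h' : e = cst k 0 := h
          rw [h', zero_mn]
          exact (bdy_iff _).2 (Or.inl rfl)
        · exact Or.inl h
        · refine Or.inr ?_
          rw [h', mn_one]
          exact h
      have h2 := pn α z (mn e τ) h1
      rw [← mn_comp] at h2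
      exact h2)
  -- `P0 = G'` at the end 0
  have G00 : ∀ (k : Dop) (z : Z.obj k) (e : bx 1 ⟶ k), z ∈ Z₀.obj k ∨ e = cst k 0 →
      G' k (z, e) (cst k 0) = b.pt k := by
    intro k z e h
    rw [G'e k (z, e) (cst k 0) (Or.inl h)]
    show p k (z, mn e (cst k 0)) = b.pt k
    rw [mn_zero]
    exact pb k z _ ((bdy_iff _).2 (Or.inl rfl))
  -- step 3
  obtain ⟨h, hn, h0, hx, h1⟩ := hN (fun k z => G' k (z, cst k 1) (cst k 0)) (by
      intro k l α z
      have h1 := G'n α (z, cst k 1) (cst k 0) (Or.inr ((bdy_iff _).2 (Or.inr rfl)))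
      show G' l (Z.map α z, cst l 1) (cst l 0) = _
      rw [← h1, cst_comp]
      show _ = G' l (Z.map α z, cst k 1 ≫ α) (cst l 0)
      rw [cst_comp]) (fun k z hz => G00 k z _ (Or.inl hz))
  -- step 4
  let J : ∀ k : Dop, (QQ Z).obj k → (bx 1 ⟶ k) → Y.obj k := fun k q σ =>
    if q ∈ (D0 Z₀).obj k then b.pt k else h k q.1 σ
  have J0 : ∀ (k : Dop) (z : Z.obj k) (e σ : bx 1 ⟶ k), z ∈ Z₀.obj k ∨ e = cst k 0 →
      J k (z, e) σ = b.pt k := fun k z e σ hh => if_pos hh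
  have J1 : ∀ (k : Dop) (z : Z.obj k) (σ : bx 1 ⟶ k), J k (z, cst k 1) σ = h k z σ := by
    intro k z σ
    by_cases hz : z ∈ Z₀.obj k
    · rw [J0 k z _ σ (Or.inl hz), h0 k z σ hz]
    · exact if_neg (fun hh => by
        rcases hh with hh | hh
        · exact hz hh
        · exact cst_ne hh)
  have Jn : ∀ {k l : Dop} (α : k ⟶ l) (z : Z.obj k) (e σ : bx 1 ⟶ k), z ∈ Z₀.obj k ∨ Bdy e →
      J l (Z.map α z, e ≫ α) (σ ≫ α) = Y.map α (J k (z, e) σ) := by
    intro k l α z e σ hh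
    by_cases h2 : z ∈ Z₀.obj k ∨ e = cst k 0
    · rw [J0 k z e σ h2, b.nat]
      exact if_pos ((D0 Z₀).map α (show (z, e) ∈ (D0 Z₀).obj k from h2))
    · have h3 : e = cst k 1 := by
        rcases hh with hh | hh
        · exact absurd (Or.inl hh) h2
        · rcases (bdy_iff _).1 hh with h4 | h4
          · exact absurd (Or.inr h4) h2
          · exact h4
      rw [h3, J1, cst_comp, J1]
      exact hn α z σ
  have J00 : ∀ (k : Dop) (z : Z.obj k) (e : bx 1 ⟶ k), z ∈ Z₀.obj k ∨ Bdy e →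
      J k (z, e) (cst k 0) = G' k (z, e) (cst k 0) := by
    intro k z e hh
    by_cases h2 : z ∈ Z₀.obj k ∨ e = cst k 0
    · rw [J0 k z e _ h2, G00 k z e h2]
    · have h3 : e = cst k 1 := by
        rcases hh with hh | hh
        · exact absurd (Or.inl hh) h2
        · rcases (bdy_iff _).1 hh with h4 | h4
          · exact absurd (Or.inr h4) h2
          · exact h4
      rw [h3, J1, hx]
  have J01 : ∀ (k : Dop) (z : Z.obj k) (e : bx 1 ⟶ k), z ∈ Z₀.obj k ∨ Bdy e →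
      J k (z, e) (cst k 1) = b.pt k := by
    intro k z e hh
    by_cases h2 : z ∈ Z₀.obj k ∨ e = cst k 0
    · rw [J0 k z e _ h2]
    · have h3 : e = cst k 1 := by
        rcases hh with hh | hh
        · exact absurd (Or.inl hh) h2
        · rcases (bdy_iff _).1 hh with h4 | h4
          · exact absurd (Or.inr h4) h2
          · exact h4
      rw [h3, J1, h1]
  -- step 5
  let U : ∀ k : Dop, (QQ Z).obj k → (bx 1 ⟶ k) → Y.obj k := fun k q σ =>
    if q ∈ (D1 Z₀).obj k then J k q σ else b.pt k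
  have U0 : ∀ (k : Dop) (z : Z.obj k) (e σ : bx 1 ⟶ k), z ∈ Z₀.obj k ∨ Bdy e →
      U k (z, e) σ = J k (z, e) σ := fun k z e σ hh => if_pos hh
  have U1 : ∀ (k : Dop) (z : Z.obj k) (e : bx 1 ⟶ k), U k (z, e) (cst k 1) = b.pt k := by
    intro k z e
    by_cases hh : z ∈ Z₀.obj k ∨ Bdy e
    · rw [U0 k z e _ hh, J01 k z e hh]
    · exact if_neg hh
  obtain ⟨K, Kn, Ke⟩ := xpf hPP hH hY (QQ Z) (D1 Z₀) ⊤ le_top 1 U (by
      rintro k l α ⟨z, e⟩ σ hh
      by_cases h2 : z ∈ Z₀.obj k ∨ Bdy e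
      · rw [U0 k z e σ h2, ← Jn α z e σ h2]
        exact U0 l _ _ _ ((D1 Z₀).map α (show (z, e) ∈ (D1 Z₀).obj k from h2))
      · have hσ : σ = cst k 1 := by
          rcases hh with hh | hh
          · exact absurd hh h2
          · exact hh.2
        rw [hσ, cst_comp, U1, b.nat]
        exact U1 l _ _)
  have K0 : ∀ (k : Dop) (z : Z.obj k) (e : bx 1 ⟶ k), z ∈ Z₀.obj k ∨ Bdy e →
      K k (z, e) (cst k 0) = G' k (z, e) (cst k 0) := by
    intro k z e hh
    rw [Ke k (z, e) (cst k 0) (Or.inl hh), U0 k z e _ hh]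
    exact J00 k z e hh
  have K0n : ∀ {k l : Dop} (α : k ⟶ l) (q : (QQ Z).obj k),
      K l ((QQ Z).map α q) (cst l 0) = Y.map α (K k q (cst k 0)) := by
    intro k l α q
    have h2 := Kn α q (cst k 0) trivial
    rw [cst_comp] at h2
    exact h2
  -- step 6
  let V : ∀ k : Dop, (QQ Z).obj k → (bx 1 ⟶ k) → Y.obj k := fun k q τ =>
    if q ∈ (D1 Z₀).obj k then G' k q τ else K k q (cst k 0)
  have V0 : ∀ (k : Dop) (z : Z.obj k) (e τ : bx 1 ⟶ k), z ∈ Z₀.obj k ∨ Bdy e →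
      V k (z, e) τ = G' k (z, e) τ := fun k z e σ hh => if_pos hh
  have V1 : ∀ (k : Dop) (z : Z.obj k) (e : bx 1 ⟶ k),
      V k (z, e) (cst k 0) = K k (z, e) (cst k 0) := by
    intro k z e
    by_cases hh : z ∈ Z₀.obj k ∨ Bdy e
    · rw [V0 k z e _ hh, K0 k z e hh]
    · exact if_neg hh
  obtain ⟨L, Ln, Le⟩ := xpf hPP hH hY (QQ Z) (D1 Z₀) ⊤ le_top 0 V (by
      rintro k l α ⟨z, e⟩ τ hh
      by_cases h2 : z ∈ Z₀.obj k ∨ Bdy e
      · rw [V0 k z e τ h2, ← G'n α (z, e) τ h2]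
        exact V0 l _ _ _ ((D1 Z₀).map α (show (z, e) ∈ (D1 Z₀).obj k from h2))
      · have hτ : τ = cst k 0 := by
          rcases hh with hh | hh
          · exact absurd hh h2
          · exact hh.2
        rw [hτ, cst_comp, V1]
        exact (V1 l _ _).trans (K0n α (z, e)))
  have L1 : ∀ (k : Dop) (z : Z.obj k) (e : bx 1 ⟶ k), z ∈ Z₀.obj k ∨ Bdy e →
      L k (z, e) (cst k 1) = p k (z, e) := by
    intro k z e hh
    rw [Le k (z, e) (cst k 1) (Or.inl hh), V0 k z e _ hh,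
      G'e k (z, e) (cst k 1) (Or.inr ⟨hh, rfl⟩)]
    show p k (z, mn e (cst k 1)) = _
    rw [mn_one]
  refine ⟨fun k z e => L k (z, e) (cst k 1), ?_, ?_, ?_⟩
  · intro k l α z e
    have h2 := Ln α (z, e) (cst k 1) trivial
    rw [cst_comp] at h2
    exact h2
  · intro k z e he
    show L k (z, e) (cst k 1) = _
    rw [L1 k z e (Or.inr he), pb k z e he]
  · intro k z e hz
    show L k (z, e) (cst k 1) = _
    rw [L1 k z e (Or.inl hz), p0 k z e hz]


theorem pt0 {k : Dop} (a c : (Δ[0] : SSet.{0}).obj k) : a = c := by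
  apply stdSimplex.objEquiv.injective
  apply SimplexCategory.Hom.ext
  refine OrderHom.ext _ _ (funext fun i => ?_)
  exact Subsingleton.elim (α := Fin 1) _ _

/-- The simplices of the point. -/
def st (k : Dop) : (Δ[0] : SSet.{0}).obj k :=
  stdSimplex.objEquiv.symm (SimplexCategory.const k.unop ⦋0⦌ 0)

theorem vert_st {W : SSet.{0}} (w : W _⦋0⦌) (k : Dop) :
    (vert w).app k (st k) = W.map (SimplexCategory.const k.unop ⦋0⦌ 0).op w := rfl

theorem mem_up {W : SSet.{0}} (W₀ : W.Subcomplex) (n : ℕ) {k : Dop} (c : W.obj k)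
    (ρ : (Δ[n] : SSet.{0}).obj k) :
    ((c, ρ) : (W ⊗ (Δ[n] : SSet.{0})).obj k) ∈
      (W₀.unionProd (∂Δ[n] : (Δ[n] : SSet.{0}).Subcomplex)).obj k ↔
      c ∈ W₀.obj k ∨ ρ ∈ (∂Δ[n] : (Δ[n] : SSet.{0}).Subcomplex).obj k := by
  refine (Subcomplex.mem_unionProd_iff _ _ _).trans ?_
  exact or_comm

theorem hom_ext (hR : Stmt_REP) {Y : SSet.{0}} {b : Base Y} {Z : SSet.{0}} {φ ψ : Z ⟶ Om Y b}
    (h : ∀ k z e, (FamL.ofHom φ).f k z e = (FamL.ofHom ψ).f k z e) : φ = ψ := by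
  rw [← hR.2.2.2 Y b Z φ, ← hR.2.2.2 Y b Z ψ]
  congr 1
  apply FamL.ext
  funext k z e
  exact h k z e

end OMW

open OMW in
/-- `W` is acyclic for the loop space of `Y`. -/
theorem tt_omw : Stmt_OMW := by
  classical
  intro hPP hH hR Y b hY W w W₀ hW hN n u v huv
  rcases Nat.eq_zero_or_pos n with rfl | hn
  · -- the boundary is empty
    let r : W ⟶ Δ[0] :=
      { app := fun k => TypeCat.ofHom (fun _ => st k)
        naturality := by
          intro k l α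
          ext c
          exact pt0 _ _ }
    refine ⟨r ▷ Δ[0] ≫ v, ?_, ?_⟩
    · apply NatTrans.ext
      funext k
      ext z
      exfalso
      apply z.2.2
      intro a
      refine ⟨0, ?_⟩
      exact Subsingleton.elim (α := Fin 1) _ _
    · have h1 : vert w ≫ r = 𝟙 _ := by
        apply NatTrans.ext
        funext k
        ext z
        exact pt0 _ _
      rw [← Category.assoc, ← comp_whiskerRight, h1, id_whiskerRight, Category.id_comp]
  · have hov : ∀ (k : Dop) (ρ : (Δ[n] : SSet.{0}).obj k)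
        (h : ρ ∈ (∂Δ[n] : (Δ[n] : SSet.{0}).Subcomplex).obj k) (c : W.obj k), c ∈ W₀.obj k →
        ∀ e : bx 1 ⟶ k, (FamL.ofHom u).f k (c, ⟨ρ, h⟩) e = (FamL.ofHom v).f k (st k, ρ) e := by
      intro k ρ h c hc e
      have h1 := congrArg (fun f => (FamL.ofHom f).f k (st k, ⟨ρ, h⟩) e) huv
      have h2 : c = (vert w).app k (st k) := by rw [vert_st]; exact (hW k c).1 hc
      rw [h2]
      exact h1
    let P : ∀ k : Dop, (W ⊗ (Δ[n] : SSet.{0})).obj k → (bx 1 ⟶ k) → Y.obj k := fun k z e =>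
      if z.1 ∈ W₀.obj k then (FamL.ofHom v).f k (st k, z.2) e
      else if h : z.2 ∈ (∂Δ[n] : (Δ[n] : SSet.{0}).Subcomplex).obj k then
        (FamL.ofHom u).f k (z.1, ⟨z.2, h⟩) e
      else b.pt k
    have P0 : ∀ (k : Dop) (c : W.obj k) (ρ : (Δ[n] : SSet.{0}).obj k) (e : bx 1 ⟶ k),
        c ∈ W₀.obj k → P k (c, ρ) e = (FamL.ofHom v).f k (st k, ρ) e :=
      fun k c ρ e h => if_pos h
    have P1 : ∀ (k : Dop) (c : W.obj k) (ρ : (Δ[n] : SSet.{0}).obj k)
        (h : ρ ∈ (∂Δ[n] : (Δ[n] : SSet.{0}).Subcomplex).obj k) (e : bx 1 ⟶ k),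
        P k (c, ρ) e = (FamL.ofHom u).f k (c, ⟨ρ, h⟩) e := by
      intro k c ρ h e
      by_cases hc : c ∈ W₀.obj k
      · rw [P0 k c ρ e hc, hov k ρ h c hc e]
      · exact (if_neg hc).trans (dif_pos h)
    obtain ⟨R, Rn, Rb, Re⟩ := core hPP hH b hY (W ⊗ (Δ[n] : SSet.{0}))
      (W₀.unionProd (∂Δ[n] : (Δ[n] : SSet.{0}).Subcomplex)) (by
        intro x hx1 hx2
        obtain ⟨h, h1, h2, h3, h4⟩ := hN n hn (fun k c ρ => x k (c, ρ))
          (fun α c ρ => hx1 α (c, ρ)) (fun k c ρ hc => hx2 k (c, ρ) ((mem_up W₀ n c ρ).2 hc))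
        refine ⟨fun k z e => h k z.1 z.2 e, fun α z e => h1 α z.1 z.2 e, ?_, ?_, ?_⟩
        · rintro k ⟨c, ρ⟩ e hz
          exact h2 k c ρ e ((mem_up W₀ n c ρ).1 hz)
        · intro k z
          exact h3 k z.1 z.2 _ (fun _ => rfl)
        · intro k z
          exact h4 k z.1 z.2 _ (fun _ => rfl)) P (by
        rintro k l α ⟨c, ρ⟩ e hz
        rcases ((mem_up W₀ n c ρ).1 hz).symm with hz' | hz'
        · have hz2 : (Δ[n] : SSet.{0}).map α ρ ∈
              (∂Δ[n] : (Δ[n] : SSet.{0}).Subcomplex).obj l :=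
            (∂Δ[n] : (Δ[n] : SSet.{0}).Subcomplex).map α hz'
          rw [P1 k c ρ hz' e]
          have h1 := (FamL.ofHom u).nat α (c, ⟨ρ, hz'⟩) e
          rw [← h1]
          exact P1 l (W.map α c) ((Δ[n] : SSet.{0}).map α ρ) hz2 (e ≫ α)
        · rw [P0 k c ρ e hz']
          have h1 := (FamL.ofHom v).nat α (st k, ρ) e
          rw [← h1]
          refine (P0 l (W.map α c) ((Δ[n] : SSet.{0}).map α ρ) (e ≫ α) (W₀.map α hz')).trans ?_
          have h2 : (st l : (Δ[0] : SSet.{0}).obj l) = (Δ[0] : SSet.{0}).map α (st k) := pt0 _ _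
          rw [h2]
          rfl) (by
        rintro k ⟨c, ρ⟩ e hz he
        rcases ((mem_up W₀ n c ρ).1 hz).symm with hz | hz
        · rw [P1 k c ρ hz e]
          exact (FamL.ofHom u).bd k _ e he
        · rw [P0 k c ρ e hz]
          exact (FamL.ofHom v).bd k _ e he)
    let F : FamL Y b (W ⊗ (Δ[n] : SSet.{0})) :=
      { f := R
        nat := fun α z e => Rn α z e
        bd := fun k z e he => Rb k z e he }
    refine ⟨F.toHom, ?_, ?_⟩
    · apply hom_ext hR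
      intro k z e
      show (FamL.ofHom F.toHom).f k (z.1, z.2.1) e = _
      rw [hR.2.2.1]
      show R k (z.1, z.2.1) e = _
      rw [Re k (z.1, z.2.1) e ((mem_up W₀ n _ _).2 (Or.inr z.2.2))]
      exact P1 k z.1 z.2.1 z.2.2 e
    · apply hom_ext hR
      intro k z e
      show (FamL.ofHom F.toHom).f k ((vert w).app k z.1, z.2) e = _
      rw [hR.2.2.1]
      show R k ((vert w).app k z.1, z.2) e = _
      have h1 : z.1 = st k := pt0 _ _
      have h2 : (vert w).app k z.1 ∈ W₀.obj k := by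
        rw [h1, vert_st]
        exact (hW k _).2 rfl
      rw [Re k ((vert w).app k z.1, z.2) e ((mem_up W₀ n _ _).2 (Or.inl h2))]
      refine (P0 k _ z.2 e h2).trans ?_
      rw [← h1]
      rfl

end Pool.Agent.SH.TT
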