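import Mathlib
import Pool.Agent.SH.StmtsV

/-!
# MP_2d0b73_an, module SH_TT_OMX: loop spaces inherit the extension property
-/

open CategoryTheory Simplicial SSet Opposite MonoidalCategory

noncomputable section

namespace Pool.Agent.SH.TT

namespace TTOmX

/-- A simplex of `Δ[1]` as a morphism. -/
def toE {k : Dop} (t : (Δ[1] : SSet.{0}).obj k) : bx 1 ⟶ k := (stdSimplex.objEquiv t).op

/-- A morphism as a simplex of `Δ[1]`. -/
def ofE {k : Dop} (e : bx 1 ⟶ k) : (Δ[1] : SSet.{0}).obj k := stdSimplex.objEquiv.symm e.unop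

theorem toE_ofE {k : Dop} (e : bx 1 ⟶ k) : toE (ofE e) = e := by
  unfold toE ofE
  rw [Equiv.apply_symm_apply]
  rfl

theorem toE_map {k l : Dop} (α : k ⟶ l) (t : (Δ[1] : SSet.{0}).obj k) :
    toE ((Δ[1] : SSet.{0}).map α t) = toE t ≫ α := rfl

theorem ofE_map {k l : Dop} (α : k ⟶ l) (e : bx 1 ⟶ k) :
    ofE (e ≫ α) = (Δ[1] : SSet.{0}).map α (ofE e) := rfl

theorem bdy_toE {k : Dop} (t : (Δ[1] : SSet.{0}).obj k)
    (h : t ∈ (∂Δ[1] : (Δ[1] : SSet.{0}).Subcomplex).obj k) : Bdy (toE t) := h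

theorem ofE_bdy {k : Dop} (e : bx 1 ⟶ k) (h : Bdy e) :
    ofE e ∈ (∂Δ[1] : (Δ[1] : SSet.{0}).Subcomplex).obj k := h

variable {Y : SSet.{0}} {b : Base Y} {B : SSet.{0}}

open Classical in
/-- The values of the map on the union. -/
def val (A : B.Subcomplex) (F : FamL Y b (A : SSet.{0})) (k : Dop) (z : B.obj k)
    (e : bx 1 ⟶ k) : Y.obj k :=
  if h : z ∈ A.obj k then F.f k ⟨z, h⟩ e else b.pt k

theorem val_pos (A : B.Subcomplex) (F : FamL Y b (A : SSet.{0})) (k : Dop) (z : B.obj k)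
    (e : bx 1 ⟶ k) (h : z ∈ A.obj k) : val A F k z e = F.f k ⟨z, h⟩ e := by
  unfold val
  rw [dif_pos h]

theorem val_bdy (A : B.Subcomplex) (F : FamL Y b (A : SSet.{0})) (k : Dop) (z : B.obj k)
    (e : bx 1 ⟶ k) (h : Bdy e) : val A F k z e = b.pt k := by
  unfold val
  split_ifs with h'
  · exact F.bd k _ e h
  · rfl

theorem val_nat (A : B.Subcomplex) (F : FamL Y b (A : SSet.{0})) {k l : Dop} (α : k ⟶ l)
    (z : B.obj k) (e : bx 1 ⟶ k) (h : Bdy e ∨ z ∈ A.obj k) :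
    val A F l (B.map α z) (e ≫ α) = Y.map α (val A F k z e) := by
  rcases h with h | h
  · have h2 : Bdy (e ≫ α) := by
      intro hs
      apply h
      intro i
      obtain ⟨j, hj⟩ := hs i
      exact ⟨α.unop.toOrderHom j, hj⟩
    rw [val_bdy A F l _ _ h2, val_bdy A F k _ _ h, b.nat]
  · have h2 : B.map α z ∈ A.obj l := A.map α h
    rw [val_pos A F l _ _ h2, val_pos A F k _ _ h, ← F.nat α ⟨z, h⟩ e]
    rfl

/-- The map on the union. -/
def ext0 (A : B.Subcomplex) (F : FamL Y b (A : SSet.{0})) :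
    (A.unionProd (∂Δ[1] : (Δ[1] : SSet.{0}).Subcomplex) : SSet.{0}) ⟶ Y where
  app k := TypeCat.ofHom (fun x => val A F k x.1.1 (toE x.1.2))
  naturality {k l} α := by
    ext x
    refine val_nat A F α x.1.1 (toE x.1.2) ?_
    rcases (Subcomplex.mem_unionProd_iff _ _ _).1 x.2 with h | h
    · exact Or.inl (bdy_toE _ h)
    · exact Or.inr h

end TTOmX

open TTOmX in
theorem tt_omx : Stmt_OMX := by
  intro hPP Y b hY B A hA u
  obtain ⟨w, hw⟩ := hY (B ⊗ (Δ[1] : SSet.{0}))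
    (A.unionProd (∂Δ[1] : (Δ[1] : SSet.{0}).Subcomplex)) (hPP _ _ _ _ hA)
    (ext0 A (FamL.ofHom u))
  have hw' : ∀ (k : Dop) (z : B.obj k) (e : bx 1 ⟶ k), (Bdy e ∨ z ∈ A.obj k) →
      w.app k (z, ofE e) = val A (FamL.ofHom u) k z e := by
    intro k z e h
    have hm : ((z, ofE e) : (B ⊗ (Δ[1] : SSet.{0})).obj k) ∈
        (A.unionProd (∂Δ[1] : (Δ[1] : SSet.{0}).Subcomplex)).obj k := by
      refine (Subcomplex.mem_unionProd_iff _ _ _).2 ?_
      rcases h with h | h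
      · exact Or.inl (ofE_bdy e h)
      · exact Or.inr h
    have := ConcreteCategory.congr_hom (C := Type) (NatTrans.congr_app hw k)
      (⟨(z, ofE e), hm⟩ : (A.unionProd (∂Δ[1] : (Δ[1] : SSet.{0}).Subcomplex) : SSet.{0}).obj k)
    exact this
  let G : FamL Y b B :=
    { f := fun k z e => w.app k (z, ofE e)
      nat := by
        intro k l α z e
        exact NatTrans.naturality_apply w α ((z, ofE e) : (B ⊗ (Δ[1] : SSet.{0})).obj k)
      bd := by
        intro k z e h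
        rw [hw' k z e (Or.inl h), val_bdy _ _ _ _ _ h] }
  refine ⟨G.toHom, ?_⟩
  apply NatTrans.ext
  funext q
  refine ConcreteCategory.hom_ext _ _ ?_
  intro z
  refine OmS.ext ?_
  funext k σ e
  show w.app k (B.map σ z.1, ofE e) = (u.app q z : OmS Y b q).f k σ e
  rw [hw' k _ e (Or.inr (A.map σ z.2)), val_pos _ _ _ _ _ (A.map σ z.2)]
  have h : (u.app k ((A : SSet.{0}).map σ z) : OmS Y b k) = (Om Y b).map σ (u.app q z) :=
    NatTrans.naturality_apply u σ z
  have h2 : (u.app k ((A : SSet.{0}).map σ z) : OmS Y b k).f k (𝟙 k) e =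
      (u.app q z : OmS Y b q).f k (σ ≫ 𝟙 k) e := by
    rw [h]
    rfl
  rw [Category.comp_id] at h2
  exact h2

end Pool.Agent.SH.TT
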