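import Mathlib
import Pool.Agent.SH.StmtsV

/-!
# MP_2d0b73_an, block III-T, module TT_REP: maps into `Tot D` and into loop spaces are families
-/

open CategoryTheory Simplicial SSet Opposite MonoidalCategory

noncomputable section

namespace Pool.Agent.SH.TT

namespace REP

theorem map_comp_apply' (Z : SSet.{0}) {k l m : Dop} (σ : k ⟶ l) (τ : l ⟶ m) (z : Z.obj k) :
    Z.map (σ ≫ τ) z = Z.map τ (Z.map σ z) := by simp

theorem map_id_apply' (Z : SSet.{0}) {k : Dop} (z : Z.obj k) : Z.map (𝟙 k) z = z := by simp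

end REP

open REP

/-! ### `Tot` -/

theorem Tot.map_f {D : CoV} {q r : Dop} (β : q ⟶ r) (x : (Tot D).obj q) (s : ℕ) (k : Dop)
    (z : r ⟶ k) (t : bx s ⟶ k) :
    ((Tot D).map β x : TotS D r).f s k z t = (x : TotS D q).f s k (β ≫ z) t := rfl

theorem Om.map_f {Y : SSet.{0}} {b : Base Y} {q r : Dop} (β : q ⟶ r) (x : (Om Y b).obj q)
    (k : Dop) (z : r ⟶ k) (e : bx 1 ⟶ k) :
    ((Om Y b).map β x : OmS Y b r).f k z e = (x : OmS Y b q).f k (β ≫ z) e := rfl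

theorem Fam.toHom_f {D : CoV} {Z : SSet.{0}} (F : Fam D Z) (q : Dop) (z : Z.obj q) (s : ℕ)
    (k : Dop) (σ : q ⟶ k) (t : bx s ⟶ k) :
    ((F.toHom).app q z : TotS D q).f s k σ t = F.f s k (Z.map σ z) t := rfl

theorem Fam.ofHom_f {D : CoV} {Z : SSet.{0}} (φ : Z ⟶ Tot D) (s : ℕ) (k : Dop) (z : Z.obj k)
    (t : bx s ⟶ k) :
    (Fam.ofHom φ).f s k z t = (φ.app k z : TotS D k).f s k (𝟙 k) t := rfl

theorem Fam.ofHom_comp {D : CoV} {Z Z' : SSet.{0}} (g : Z' ⟶ Z) (φ : Z ⟶ Tot D) (s : ℕ)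
    (k : Dop) (z : Z'.obj k) (t : bx s ⟶ k) :
    (Fam.ofHom (g ≫ φ)).f s k z t = (Fam.ofHom φ).f s k (g.app k z) t := rfl

/-- The values of a map to `Tot D` are determined by its family. -/
theorem Fam.app_f {D : CoV} {Z : SSet.{0}} (φ : Z ⟶ Tot D) (q : Dop) (z : Z.obj q) (s : ℕ)
    (k : Dop) (σ : q ⟶ k) (t : bx s ⟶ k) :
    (φ.app q z : TotS D q).f s k σ t = (Fam.ofHom φ).f s k (Z.map σ z) t := by
  have h : (φ.app k (Z.map σ z) : TotS D k) = (Tot D).map σ (φ.app q z) :=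
    NatTrans.naturality_apply φ σ z
  rw [Fam.ofHom_f, h, Tot.map_f, Category.comp_id]

theorem Fam.hom_ext {D : CoV} {Z : SSet.{0}} {φ ψ : Z ⟶ Tot D}
    (h : (Fam.ofHom φ).f = (Fam.ofHom ψ).f) : φ = ψ := by
  ext q z
  apply TotS.ext
  funext s k σ t
  have e1 := Fam.app_f φ q z s k σ t
  rw [h] at e1
  exact e1.trans (Fam.app_f ψ q z s k σ t).symm

theorem Fam.hom_ext_iff {D : CoV} {Z : SSet.{0}} (φ ψ : Z ⟶ Tot D) :
    φ = ψ ↔ (Fam.ofHom φ).f = (Fam.ofHom ψ).f :=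
  ⟨fun h => by rw [h], Fam.hom_ext⟩

theorem Fam.ofHom_toHom {D : CoV} {Z : SSet.{0}} (F : Fam D Z) : Fam.ofHom F.toHom = F := by
  apply Fam.ext
  funext s k z t
  rw [Fam.ofHom_f, Fam.toHom_f, map_id_apply']

theorem Fam.toHom_ofHom {D : CoV} {Z : SSet.{0}} (φ : Z ⟶ Tot D) : (Fam.ofHom φ).toHom = φ := by
  apply Fam.hom_ext
  rw [Fam.ofHom_toHom]

theorem Fam.ofHom_const {D : CoV} {Z : SSet.{0}} (φ : Z ⟶ Tot D) :
    (Fam.ofHom φ).f = (fun _ _ _ _ => 0) ↔ ∀ (q : Dop) (z : Z.obj q), φ.app q z = Tot.zero D q := by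
  constructor
  · intro h q z
    apply TotS.ext
    funext s k σ t
    rw [Fam.app_f, h]
    rfl
  · intro h
    funext s k z t
    rw [Fam.ofHom_f, h]
    rfl

/-! ### Loop spaces -/

theorem FamL.toHom_f {Y : SSet.{0}} {b : Base Y} {Z : SSet.{0}} (F : FamL Y b Z) (q : Dop)
    (z : Z.obj q) (k : Dop) (σ : q ⟶ k) (e : bx 1 ⟶ k) :
    ((F.toHom).app q z : OmS Y b q).f k σ e = F.f k (Z.map σ z) e := rfl

theorem FamL.ofHom_f {Y : SSet.{0}} {b : Base Y} {Z : SSet.{0}} (φ : Z ⟶ Om Y b) (k : Dop)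
    (z : Z.obj k) (e : bx 1 ⟶ k) :
    (FamL.ofHom φ).f k z e = (φ.app k z : OmS Y b k).f k (𝟙 k) e := rfl

theorem FamL.ofHom_comp {Y : SSet.{0}} {b : Base Y} {Z Z' : SSet.{0}} (g : Z' ⟶ Z)
    (φ : Z ⟶ Om Y b) (k : Dop) (z : Z'.obj k) (e : bx 1 ⟶ k) :
    (FamL.ofHom (g ≫ φ)).f k z e = (FamL.ofHom φ).f k (g.app k z) e := rfl

/-- The values of a map to a loop space are determined by its family. -/
theorem FamL.app_f {Y : SSet.{0}} {b : Base Y} {Z : SSet.{0}} (φ : Z ⟶ Om Y b) (q : Dop)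
    (z : Z.obj q) (k : Dop) (σ : q ⟶ k) (e : bx 1 ⟶ k) :
    (φ.app q z : OmS Y b q).f k σ e = (FamL.ofHom φ).f k (Z.map σ z) e := by
  have h : (φ.app k (Z.map σ z) : OmS Y b k) = (Om Y b).map σ (φ.app q z) :=
    NatTrans.naturality_apply φ σ z
  rw [FamL.ofHom_f, h, Om.map_f, Category.comp_id]

theorem FamL.hom_ext {Y : SSet.{0}} {b : Base Y} {Z : SSet.{0}} {φ ψ : Z ⟶ Om Y b}
    (h : (FamL.ofHom φ).f = (FamL.ofHom ψ).f) : φ = ψ := by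
  ext q z
  apply OmS.ext
  funext k σ e
  have e1 := FamL.app_f φ q z k σ e
  rw [h] at e1
  exact e1.trans (FamL.app_f ψ q z k σ e).symm

theorem FamL.hom_ext_iff {Y : SSet.{0}} {b : Base Y} {Z : SSet.{0}} (φ ψ : Z ⟶ Om Y b) :
    φ = ψ ↔ (FamL.ofHom φ).f = (FamL.ofHom ψ).f :=
  ⟨fun h => by rw [h], FamL.hom_ext⟩

theorem FamL.ofHom_toHom {Y : SSet.{0}} {b : Base Y} {Z : SSet.{0}} (F : FamL Y b Z) :
    FamL.ofHom F.toHom = F := by
  apply FamL.ext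
  funext k z e
  rw [FamL.ofHom_f, FamL.toHom_f, map_id_apply']

theorem FamL.toHom_ofHom {Y : SSet.{0}} {b : Base Y} {Z : SSet.{0}} (φ : Z ⟶ Om Y b) :
    (FamL.ofHom φ).toHom = φ := by
  apply FamL.hom_ext
  rw [FamL.ofHom_toHom]

theorem tt_rep : Stmt_REP :=
  ⟨fun _ _ F => Fam.ofHom_toHom F, fun _ _ φ => Fam.toHom_ofHom φ,
    fun _ _ _ F => FamL.ofHom_toHom F, fun _ _ _ φ => FamL.toHom_ofHom φ⟩

end Pool.Agent.SH.TT
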