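import Mathlib
import Pool.Agent.SH.StmtsV

open CategoryTheory Simplicial SSet Opposite MonoidalCategory

noncomputable section

namespace Pool.Agent.SH.TT

namespace SE

variable {B L : SSet.{0}} {A : B.Subcomplex} {K : L.Subcomplex} {V : SV}

/-- The map defined by a partially natural function. -/
def phi (u : ∀ k : Dop, B.obj k → L.obj k → V.obj k)
    (hu : ∀ {k l : Dop} (α : k ⟶ l) (b : B.obj k) (x : L.obj k), b ∈ A.obj k ∨ x ∈ K.obj k →
        u l (B.map α b) (L.map α x) = V.map α (u k b x)) :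
    ((A.unionProd K : (B ⊗ L).Subcomplex) : SSet.{0}) ⟶ US V where
  app k := TypeCat.ofHom (fun p => u k p.1.1 p.1.2)
  naturality {k l} α := by
    ext p
    exact hu α p.1.1 p.1.2 ((Subcomplex.mem_unionProd_iff _ _ _).1 p.2).symm

end SE

theorem tt_se : Stmt_SE := by
  intro hPP hSV B L A K V hA u hu
  obtain ⟨v, hv⟩ := hSV _ _ (A.unionProd K).ι inferInstance (hPP B L A K hA) V (SE.phi u hu)
  refine ⟨fun k b x => v.app k ((b, x) : (B ⊗ L).obj k), ?_, ?_⟩
  · intro k l α b x
    exact NatTrans.naturality_apply v α ((b, x) : (B ⊗ L).obj k)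
  · intro k b x hbx
    have h1 := ConcreteCategory.congr_hom (congr_app hv k)
      ⟨((b, x) : (B ⊗ L).obj k), (Subcomplex.mem_unionProd_iff _ _ _).2 hbx.symm⟩
    exact h1

end Pool.Agent.SH.TT
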