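import Mathlib
import Pool.Agent.SH.StmtsV

/-!
# MP_2d0b73_an, block III-T: TT_TOTC, compactness of `Tot D` for levelwise finite `D`
-/

open CategoryTheory Simplicial SSet Opposite MonoidalCategory

noncomputable section

namespace Pool.Agent.SH.TT

namespace TOTC

/-- The index set of the coordinates. -/
abbrev Idx (B : SSet.{0}) : Type := Σ (s : ℕ) (k : Dop), B.obj k × (bx s ⟶ k)

/-- The coordinate. -/
abbrev ix {B : SSet.{0}} (s : ℕ) (k : Dop) (z : B.obj k) (t : bx s ⟶ k) : Idx B :=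
  ⟨s, k, z, t⟩

/-- The values at a coordinate. -/
abbrev El (D : CoV) (B : SSet.{0}) (i : Idx B) : Type := (D.V i.1).obj i.2.1

/-- The families satisfying the conditions at the simplices of `F`. -/
def Good (D : CoV) (B : SSet.{0}) (A : B.Subcomplex) (u : (A : SSet.{0}) ⟶ Tot D)
    (F : B.Subcomplex) : Set (∀ i : Idx B, El D B i) :=
  {g | (∀ (s : ℕ) (k l : Dop) (α : k ⟶ l) (z : B.obj k) (t : bx s ⟶ k), z ∈ F.obj k →
      g (ix s l (B.map α z) (t ≫ α)) = (D.V s).map α (g (ix s k z t))) ∧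
    (∀ (s : ℕ) (i : Fin (s + 2)) (k : Dop) (z : B.obj k) (t : bx s ⟶ k), z ∈ F.obj k →
      g (ix (s + 1) k z (dop i ≫ t)) = D.cof s i k (g (ix s k z t))) ∧
    ∀ (s : ℕ) (k : Dop) (z : B.obj k) (t : bx s ⟶ k) (hA : z ∈ A.obj k), z ∈ F.obj k →
      g (ix s k z t) = (Fam.ofHom u).f s k ⟨z, hA⟩ t}

theorem good_anti (D : CoV) (B : SSet.{0}) (A : B.Subcomplex) (u : (A : SSet.{0}) ⟶ Tot D)
    {F F' : B.Subcomplex} (h : F ≤ F') : Good D B A u F' ⊆ Good D B A u F := by
  rintro g ⟨h1, h2, h3⟩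
  exact ⟨fun s k l α z t hz => h1 s k l α z t (h k hz),
    fun s i k z t hz => h2 s i k z t (h k hz),
    fun s k z t hA hz => h3 s k z t hA (h k hz)⟩

theorem good_nonempty (D : CoV) (B : SSet.{0}) (A : B.Subcomplex) (u : (A : SSet.{0}) ⟶ Tot D)
    (F : B.Subcomplex) (w : (F : SSet.{0}) ⟶ Tot D)
    (hw : SSet.Subcomplex.homOfLE (inf_le_right : A ⊓ F ≤ F) ≫ w =
      SSet.Subcomplex.homOfLE (inf_le_left : A ⊓ F ≤ A) ≫ u) :
    (Good D B A u F).Nonempty := by
  classical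
  refine ⟨fun i => if h : i.2.2.1 ∈ F.obj i.2.1 then
    (Fam.ofHom w).f i.1 i.2.1 ⟨i.2.2.1, h⟩ i.2.2.2 else 0, ?_, ?_, ?_⟩
  · intro s k l α z t hz
    have hz' : B.map α z ∈ F.obj l := F.map α hz
    simp only [dif_pos hz, dif_pos hz']
    exact (Fam.ofHom w).nat s α ⟨z, hz⟩ t
  · intro s i k z t hz
    simp only [dif_pos hz]
    exact (Fam.ofHom w).cof s i k ⟨z, hz⟩ t
  · intro s k z t hA hz
    simp only [dif_pos hz]
    have h1 : w.app k ⟨z, hz⟩ = u.app k ⟨z, hA⟩ := by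
      have h2 := congrArg (fun φ => φ.app k ⟨z, ⟨hA, hz⟩⟩) hw
      exact h2
    show (w.app k ⟨z, hz⟩ : TotS D k).f s k (𝟙 k) t = (u.app k ⟨z, hA⟩ : TotS D k).f s k (𝟙 k) t
    rw [h1]

theorem good_closed (D : CoV) (B : SSet.{0}) [∀ i, TopologicalSpace (El D B i)]
    [∀ i, DiscreteTopology (El D B i)] (A : B.Subcomplex)
    (u : (A : SSet.{0}) ⟶ Tot D) (F : B.Subcomplex) : IsClosed (Good D B A u F) := by
  have c1 : ∀ (i j : Idx B) (φ : El D B j → El D B i),
      IsClosed (setOf fun g : (∀ i' : Idx B, El D B i') => g i = φ (g j)) := fun i j φ =>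
    isClosed_eq (continuous_apply i) (continuous_of_discreteTopology.comp (continuous_apply j))
  have e : Good D B A u F =
      (⋂ (s : ℕ) (k : Dop) (l : Dop) (α : k ⟶ l) (z : B.obj k) (t : bx s ⟶ k)
        (_ : z ∈ F.obj k), {g | g (ix s l (B.map α z) (t ≫ α)) = (D.V s).map α (g (ix s k z t))}) ∩
      ((⋂ (s : ℕ) (i : Fin (s + 2)) (k : Dop) (z : B.obj k) (t : bx s ⟶ k)
        (_ : z ∈ F.obj k), {g | g (ix (s + 1) k z (dop i ≫ t)) = D.cof s i k (g (ix s k z t))}) ∩
      (⋂ (s : ℕ) (k : Dop) (z : B.obj k) (t : bx s ⟶ k) (hA : z ∈ A.obj k)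
        (_ : z ∈ F.obj k), {g | g (ix s k z t) = (Fam.ofHom u).f s k ⟨z, hA⟩ t})) := by
    ext g
    simp only [Good, Set.mem_inter_iff, Set.mem_iInter, Set.mem_setOf_eq]
  rw [e]
  refine IsClosed.inter ?_ (IsClosed.inter ?_ ?_)
  · refine isClosed_iInter fun s => isClosed_iInter fun k => isClosed_iInter fun l =>
      isClosed_iInter fun α => isClosed_iInter fun z => isClosed_iInter fun t =>
      isClosed_iInter fun _ => ?_
    exact c1 (ix s l (B.map α z) (t ≫ α)) (ix s k z t) (fun x => (D.V s).map α x)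
  · refine isClosed_iInter fun s => isClosed_iInter fun i => isClosed_iInter fun k =>
      isClosed_iInter fun z => isClosed_iInter fun t => isClosed_iInter fun _ => ?_
    exact c1 (ix (s + 1) k z (dop i ≫ t)) (ix s k z t) (fun x => D.cof s i k x)
  · refine isClosed_iInter fun s => isClosed_iInter fun k => isClosed_iInter fun z =>
      isClosed_iInter fun t => isClosed_iInter fun hA => isClosed_iInter fun _ => ?_
    exact c1 (ix s k z t) (ix s k z t) (fun _ => (Fam.ofHom u).f s k ⟨z, hA⟩ t)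

theorem sup_finite {B : SSet.{0}} {F F' : B.Subcomplex} (h : (F : SSet.{0}).Finite)
    (h' : (F' : SSet.{0}).Finite) : ((F ⊔ F' : B.Subcomplex) : SSet.{0}).Finite := by
  have e : F ⊔ F' = ⨆ b : Bool, (if b then F' else F) := by
    rw [iSup_bool_eq]
    simp [sup_comm]
  rw [e, finite_iSup_iff]
  intro b
  cases b
  · exact h
  · exact h'

theorem exists_good (D : CoV) (hD : ∀ (s : ℕ) (k : Dop), Finite ((D.V s).obj k))
    (B : SSet.{0}) (A : B.Subcomplex) (u : (A : SSet.{0}) ⟶ Tot D)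
    (h : ∀ F : B.Subcomplex, (F : SSet.{0}).Finite → (Good D B A u F).Nonempty) :
    ∃ g, ∀ F : B.Subcomplex, (F : SSet.{0}).Finite → g ∈ Good D B A u F := by
  let _ : ∀ i : Idx B, TopologicalSpace (El D B i) := fun _ => ⊥
  have : ∀ i : Idx B, DiscreteTopology (El D B i) := fun _ => ⟨rfl⟩
  have : ∀ i : Idx B, Finite (El D B i) := fun i => hD _ _
  have : ∀ i : Idx B, CompactSpace (El D B i) := fun i => Finite.compactSpace
  have : CompactSpace (∀ i : Idx B, El D B i) := Pi.compactSpace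
  let J : Type := {F : B.Subcomplex // (F : SSet.{0}).Finite}
  have : Nonempty J := ⟨⟨⊥, by
    have := (finite_iSup_iff (X := B) (ι := Empty) (fun e => e.elim)).2 (fun e => e.elim)
    rw [iSup_of_empty] at this
    exact this⟩⟩
  have hne : (⋂ F : J, Good D B A u F.1).Nonempty := by
    refine IsCompact.nonempty_iInter_of_directed_nonempty_isCompact_isClosed
      (fun F : J => Good D B A u F.1) ?_ (fun F => h F.1 F.2)
      (fun F => (good_closed D B A u F.1).isCompact) (fun F => good_closed D B A u F.1)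
    rintro ⟨F, hF⟩ ⟨F', hF'⟩
    exact ⟨⟨F ⊔ F', sup_finite hF hF'⟩, good_anti D B A u le_sup_left,
      good_anti D B A u le_sup_right⟩
  obtain ⟨g, hg⟩ := hne
  rw [Set.mem_iInter] at hg
  exact ⟨g, fun F hF => hg ⟨F, hF⟩⟩

theorem exists_finite {B : SSet.{0}} {k : Dop} (z : B.obj k) :
    ∃ F : B.Subcomplex, (F : SSet.{0}).Finite ∧ z ∈ F.obj k := by
  obtain ⟨k⟩ := k
  induction k using SimplexCategory.rec with | _ n
  exact ⟨SSet.Subcomplex.ofSimplex z, inferInstance, SSet.Subcomplex.mem_ofSimplex_obj z⟩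

end TOTC

open TOTC in
theorem tt_totc : Stmt_TOTC := by
  intro D hD B A u hF
  obtain ⟨g, hg⟩ := exists_good D hD B A u (fun F hFf => by
    obtain ⟨w, hw⟩ := hF F hFf
    exact good_nonempty D B A u F w hw)
  let Φ : Fam D B :=
    { f := fun s k z t => g (ix s k z t)
      nat := by
        intro s k l α z t
        obtain ⟨F, hFf, hz⟩ := exists_finite z
        exact (hg F hFf).1 s k l α z t hz
      cof := by
        intro s i k z t
        obtain ⟨F, hFf, hz⟩ := exists_finite z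
        exact (hg F hFf).2.1 s i k z t hz }
  refine ⟨Φ.toHom, ?_⟩
  ext k z
  apply TotS.ext
  funext s l σ t
  obtain ⟨z, hA⟩ := z
  show g (ix s l (B.map σ z) t) = (u.app k ⟨z, hA⟩ : TotS D k).f s l σ t
  obtain ⟨F, hFf, hz⟩ := exists_finite (B.map σ z)
  rw [(hg F hFf).2.2 s l (B.map σ z) t (A.map σ hA) hz]
  show (u.app l ((A : SSet.{0}).map σ ⟨z, hA⟩) : TotS D l).f s l (𝟙 l) t = _
  have h : (u.app l ((A : SSet.{0}).map σ ⟨z, hA⟩) : TotS D l) =
      (Tot D).map σ (u.app k ⟨z, hA⟩) := NatTrans.naturality_apply u σ ⟨z, hA⟩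
  rw [h]
  show (u.app k ⟨z, hA⟩ : TotS D k).f s l (σ ≫ 𝟙 l) t = _
  rw [Category.comp_id]

end Pool.Agent.SH.TT
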