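import Mathlib
import Pool.Agent.SH.StmtsV

/-!
# MP_2d0b73_an, block III-T, TOTX: the extension property of `Tot D`
-/

open CategoryTheory Simplicial SSet Opposite MonoidalCategory

noncomputable section

namespace Pool.Agent.SH.TT

namespace TOTX

theorem bdy_comp {n : ℕ} {k l : Dop} {e : bx n ⟶ k} (h : Bdy e) (α : k ⟶ l) : Bdy (e ≫ α) := by
  intro hs
  apply h
  intro i
  obtain ⟨j, hj⟩ := hs i
  exact ⟨α.unop.toOrderHom j, hj⟩

/-- The simplex as a simplicial set without universe lifts. -/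
def Ls (s : ℕ) : SSet.{0} where
  obj k := (bx s ⟶ k)
  map {k l} α := TypeCat.ofHom (fun t => t ≫ α)
  map_id k := by
    ext x
    simp
  map_comp α β := by
    ext x
    simp

/-- Its boundary. -/
def Ks (s : ℕ) : (Ls s).Subcomplex where
  obj k := Set.ofPred (fun t : bx s ⟶ k => Bdy t)
  map {k l} α := by
    rintro x h
    exact bdy_comp h α

theorem exists_face {s : ℕ} {k : Dop} {t : bx (s + 1) ⟶ k} (h : Bdy t) :
    ∃ (i : Fin (s + 2)) (t' : bx s ⟶ k), dop i ≫ t' = t := by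
  obtain ⟨i, θ, hθ⟩ := SimplexCategory.eq_comp_δ_of_not_surjective t.unop h
  refine ⟨i, θ.op, ?_⟩
  apply Quiver.Hom.unop_inj
  exact hθ.symm

theorem bdy_face {s : ℕ} {k : Dop} (i : Fin (s + 2)) (t' : bx s ⟶ k) : Bdy (dop i ≫ t') := by
  intro hs
  obtain ⟨j, hj⟩ := hs i
  exact Fin.succAbove_ne i _ hj

theorem not_bdy_zero {k : Dop} (t : bx 0 ⟶ k) : ¬ Bdy t := by
  intro h
  apply h
  intro i
  exact ⟨0, Subsingleton.elim (α := Fin 1) _ _⟩

theorem face_inj {s : ℕ} {k : Dop} (i : Fin (s + 2)) {t t' : bx s ⟶ k}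
    (h : dop i ≫ t = dop i ≫ t') : t = t' := by
  apply Quiver.Hom.unop_inj
  have h1 : t.unop ≫ SimplexCategory.δ i = t'.unop ≫ SimplexCategory.δ i :=
    congrArg Quiver.Hom.unop h
  exact (cancel_mono (SimplexCategory.δ i)).1 h1

/-- Two faces of a simplex meet in a face. -/
theorem face_face {s : ℕ} {k : Dop} (i j : Fin (s + 2)) (hij : i ≤ j) {t t' : bx (s + 1) ⟶ k}
    (h : dop i.castSucc ≫ t = dop j.succ ≫ t') :
    ∃ t'' : bx s ⟶ k, t = dop j ≫ t'' ∧ t' = dop i ≫ t'' := by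
  have h1 : t.unop ≫ SimplexCategory.δ i.castSucc = t'.unop ≫ SimplexCategory.δ j.succ :=
    congrArg Quiver.Hom.unop h
  have h2 : ∀ x, t.unop.toOrderHom x ≠ j := by
    intro x hx
    have h3 := congrArg (fun f => SimplexCategory.Hom.toOrderHom f x) h1
    have h4 : Fin.succAbove i.castSucc (t.unop.toOrderHom x) =
        Fin.succAbove j.succ (t'.unop.toOrderHom x) := h3
    rw [hx, Fin.succAbove_of_le_castSucc i.castSucc j (Fin.castSucc_le_castSucc_iff.2 hij)] at h4
    exact Fin.succAbove_ne j.succ _ h4.symm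
  obtain ⟨θ, hθ⟩ := SimplexCategory.eq_comp_δ_of_not_surjective' t.unop j h2
  refine ⟨θ.op, ?_, ?_⟩
  · apply Quiver.Hom.unop_inj
    exact hθ
  · apply Quiver.Hom.unop_inj
    show t'.unop = θ ≫ SimplexCategory.δ i
    rw [← cancel_mono (SimplexCategory.δ j.succ), ← h1, hθ, Category.assoc, Category.assoc,
      SimplexCategory.δ_comp_δ hij]

variable {D : CoV} {B : SSet.{0}}

/-- Independence of the choice of the face. -/
def Ind (D : CoV) (B : SSet.{0}) (s : ℕ) (f : ∀ k : Dop, B.obj k → (bx s ⟶ k) → (D.V s).obj k) :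
    Prop :=
  ∀ (i j : Fin (s + 2)) (k : Dop) (b : B.obj k) (t t' : bx s ⟶ k),
    dop i ≫ t = dop j ≫ t' → D.cof s i k (f k b t) = D.cof s j k (f k b t')

theorem ind_zero (f : ∀ k : Dop, B.obj k → (bx 0 ⟶ k) → (D.V 0).obj k) : Ind D B 0 f := by
  have key : ∀ (k : Dop) (t t' : bx 0 ⟶ k), dop (0 : Fin 2) ≫ t ≠ dop (1 : Fin 2) ≫ t' := by
    intro k t t' h
    have h1 : t.unop ≫ SimplexCategory.δ 0 = t'.unop ≫ SimplexCategory.δ 1 :=
      congrArg Quiver.Hom.unop h
    have h3 := congrArg (fun f => SimplexCategory.Hom.toOrderHom f 0) h1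
    have h4 : Fin.succAbove (0 : Fin 2) (t.unop.toOrderHom 0) =
        Fin.succAbove (1 : Fin 2) (t'.unop.toOrderHom 0) := h3
    have h5 : ∀ a b : Fin 1, Fin.succAbove (0 : Fin 2) a ≠ Fin.succAbove (1 : Fin 2) b := by
      decide
    exact h5 _ _ h4
  intro i j k b t t' h
  have hij : ∀ i j : Fin 2, i = j ∨ (i = 0 ∧ j = 1) ∨ (i = 1 ∧ j = 0) := by decide
  rcases hij i j with rfl | ⟨rfl, rfl⟩ | ⟨rfl, rfl⟩
  · rw [face_inj i h]
  · exact absurd h (key k t t')
  · exact absurd h.symm (key k t' t)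

theorem ind_succ {s : ℕ} (f : ∀ k : Dop, B.obj k → (bx s ⟶ k) → (D.V s).obj k)
    (g : ∀ k : Dop, B.obj k → (bx (s + 1) ⟶ k) → (D.V (s + 1)).obj k)
    (hfg : ∀ (i : Fin (s + 2)) (k : Dop) (b : B.obj k) (t : bx s ⟶ k),
      g k b (dop i ≫ t) = D.cof s i k (f k b t)) : Ind D B (s + 1) g := by
  have key : ∀ (i j : Fin (s + 2)) (_ : i ≤ j) (k : Dop) (b : B.obj k) (t t' : bx (s + 1) ⟶ k),
      dop i.castSucc ≫ t = dop j.succ ≫ t' →
      D.cof (s + 1) i.castSucc k (g k b t) = D.cof (s + 1) j.succ k (g k b t') := by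
    intro i j hij k b t t' h
    obtain ⟨t'', rfl, rfl⟩ := face_face i j hij h
    rw [hfg, hfg, D.cof_cof s i j hij]
  intro i j k b t t' h
  rcases lt_trichotomy i j with hij | hij | hij
  · obtain ⟨j', rfl⟩ := Fin.exists_succ_eq.2 (Fin.ne_zero_of_lt hij)
    have hi : i ≠ Fin.last (s + 2) := fun hi => absurd hij (by
      rw [hi]
      exact not_lt.2 (Fin.le_last _))
    obtain ⟨i', rfl⟩ := Fin.exists_castSucc_eq.2 hi
    exact key i' j' (by
      rw [Fin.le_def]
      have : i'.1 < j'.1 + 1 := hij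
      omega) k b t t' h
  · subst hij
    rw [face_inj i h]
  · obtain ⟨i', rfl⟩ := Fin.exists_succ_eq.2 (Fin.ne_zero_of_lt hij)
    have hj : j ≠ Fin.last (s + 2) := fun hj => absurd hij (by
      rw [hj]
      exact not_lt.2 (Fin.le_last _))
    obtain ⟨j', rfl⟩ := Fin.exists_castSucc_eq.2 hj
    exact (key j' i' (by
      rw [Fin.le_def]
      have : j'.1 < i'.1 + 1 := hij
      omega) k b t' t h.symm).symm

/-- An element of the subcomplex. -/
def inA (A : B.Subcomplex) {k : Dop} (b : B.obj k) (h : b ∈ A.obj k) : (A : SSet.{0}).obj k :=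
  ⟨b, h⟩

/-- A natural function of level `s`, extending the given one over `A`. -/
structure St (D : CoV) (B : SSet.{0}) (A : B.Subcomplex) (U : Fam D (A : SSet.{0})) (s : ℕ) where
  /-- the function -/
  f : ∀ k : Dop, B.obj k → (bx s ⟶ k) → (D.V s).obj k
  nat : ∀ {k l : Dop} (α : k ⟶ l) (b : B.obj k) (t : bx s ⟶ k),
    f l (B.map α b) (t ≫ α) = (D.V s).map α (f k b t)
  ext : ∀ (k : Dop) (b : B.obj k) (h : b ∈ A.obj k) (t : bx s ⟶ k),
    f k b t = U.f s k (inA A b h) t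
  ind : Ind D B s f

variable {A : B.Subcomplex} (U : Fam D (A : SSet.{0}))

theorem U_nat (s : ℕ) {k l : Dop} (α : k ⟶ l) (b : B.obj k) (h : b ∈ A.obj k) (t : bx s ⟶ k) :
    U.f s l (inA A (B.map α b) (A.map α h)) (t ≫ α) = (D.V s).map α (U.f s k (inA A b h) t) :=
  U.nat s α (inA A b h) t

open Classical in
theorem st_zero (hSE : Stmt_SE) (hPP : Stmt_PP) (hSV : Stmt_SV1) (hA : F2Iso A.ι) :
    Nonempty (St D B A U 0) := by
  obtain ⟨w, hw, hw'⟩ := hSE hPP hSV B (Ls 0) A (Ks 0) (D.V 0) hA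
    (fun k b x => if h : b ∈ A.obj k then U.f 0 k (inA A b h) x else 0) (by
      intro k l α b x hbx
      rcases hbx with hb | hx
      · have hb' : B.map α b ∈ A.obj l := A.map α hb
        show (if h : B.map α b ∈ A.obj l then U.f 0 l (inA A (B.map α b) h) (x ≫ α) else 0) =
          (D.V 0).map α (if h : b ∈ A.obj k then U.f 0 k (inA A b h) x else 0)
        rw [dif_pos hb', dif_pos hb]
        exact U_nat U 0 α b hb x
      · exact absurd hx (not_bdy_zero x))
  refine ⟨⟨w, fun α b t => hw α b t, fun k b h t => ?_, ind_zero w⟩⟩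
  rw [hw' k b t (Or.inl h), dif_pos h]

open Classical in
/-- The prescribed function of level `s + 1`. -/
def pres {s : ℕ} (S : St D B A U s) (k : Dop) (b : B.obj k) (x : bx (s + 1) ⟶ k) :
    (D.V (s + 1)).obj k :=
  if h : b ∈ A.obj k then U.f (s + 1) k (inA A b h) x
  else if hx : Bdy x then D.cof s (exists_face hx).choose k
    (S.f k b (exists_face hx).choose_spec.choose) else 0

theorem pres_A {s : ℕ} (S : St D B A U s) (k : Dop) (b : B.obj k) (h : b ∈ A.obj k)
    (x : bx (s + 1) ⟶ k) : pres U S k b x = U.f (s + 1) k (inA A b h) x := dif_pos h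

theorem pres_K {s : ℕ} (S : St D B A U s) (k : Dop) (b : B.obj k) (i : Fin (s + 2))
    (t : bx s ⟶ k) : pres U S k b (dop i ≫ t) = D.cof s i k (S.f k b t) := by
  by_cases h : b ∈ A.obj k
  · rw [pres_A U S k b h, U.cof, S.ext k b h]
  · have hx : Bdy (dop i ≫ t) := bdy_face i t
    unfold pres
    rw [dif_neg h, dif_pos hx]
    exact S.ind _ _ k b _ _ (exists_face hx).choose_spec.choose_spec

theorem st_succ (hSE : Stmt_SE) (hPP : Stmt_PP) (hSV : Stmt_SV1) (hA : F2Iso A.ι) {s : ℕ}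
    (S : St D B A U s) : ∃ S' : St D B A U (s + 1), ∀ (i : Fin (s + 2)) (k : Dop) (b : B.obj k)
      (t : bx s ⟶ k), S'.f k b (dop i ≫ t) = D.cof s i k (S.f k b t) := by
  have key : ∀ {k l : Dop} (α : k ⟶ l) (b : B.obj k) (x : bx (s + 1) ⟶ k),
      b ∈ A.obj k ∨ Bdy x →
      pres U S l (B.map α b) (x ≫ α) = (D.V (s + 1)).map α (pres U S k b x) := by
    intro k l α b x hbx
    rcases hbx with hb | hx
    · have hb' : B.map α b ∈ A.obj l := A.map α hb
      rw [pres_A U S l _ hb', pres_A U S k b hb]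
      exact U_nat U (s + 1) α b hb x
    · obtain ⟨i, t, hit⟩ := exists_face (t := x) hx
      subst hit
      rw [Category.assoc, pres_K, pres_K, S.nat, D.cof_nat]
  obtain ⟨w, hw, hw'⟩ := hSE hPP hSV B (Ls (s + 1)) A (Ks (s + 1)) (D.V (s + 1)) hA
    (fun k b x => pres U S k b x) (fun α b x h => key α b x h)
  have hc : ∀ (i : Fin (s + 2)) (k : Dop) (b : B.obj k) (t : bx s ⟶ k),
      w k b (dop i ≫ t) = D.cof s i k (S.f k b t) := by
    intro i k b t
    refine (hw' k b (dop i ≫ t) (Or.inr (bdy_face i t))).trans ?_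
    exact pres_K U S k b i t
  refine ⟨⟨w, fun α b t => hw α b t, fun k b h t => ?_, ind_succ S.f w hc⟩, hc⟩
  refine (hw' k b t (Or.inl h)).trans ?_
  exact pres_A U S k b h t

/-- The sequence of extensions. -/
def seq (hSE : Stmt_SE) (hPP : Stmt_PP) (hSV : Stmt_SV1) (hA : F2Iso A.ι) (s : ℕ) :
    St D B A U s :=
  Nat.rec (motive := fun s => St D B A U s) (st_zero U hSE hPP hSV hA).some
    (fun _ S => (st_succ U hSE hPP hSV hA S).choose) s

theorem seq_cof (hSE : Stmt_SE) (hPP : Stmt_PP) (hSV : Stmt_SV1) (hA : F2Iso A.ι) (s : ℕ)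
    (i : Fin (s + 2)) (k : Dop) (b : B.obj k) (t : bx s ⟶ k) :
    (seq U hSE hPP hSV hA (s + 1)).f k b (dop i ≫ t) =
      D.cof s i k ((seq U hSE hPP hSV hA s).f k b t) :=
  (st_succ U hSE hPP hSV hA (seq U hSE hPP hSV hA s)).choose_spec i k b t

end TOTX

theorem tt_totx : Stmt_TOTX := by
  intro hSE hPP hSV D B A hA u
  let F : Fam D B :=
    { f := fun s k b t => (TOTX.seq (Fam.ofHom u) hSE hPP hSV hA s).f k b t
      nat := fun s {k l} α b t => (TOTX.seq (Fam.ofHom u) hSE hPP hSV hA s).nat α b t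
      cof := fun s i k b t => TOTX.seq_cof (Fam.ofHom u) hSE hPP hSV hA s i k b t }
  refine ⟨F.toHom, ?_⟩
  ext k x
  apply TotS.ext
  funext s l σ t
  show (TOTX.seq (Fam.ofHom u) hSE hPP hSV hA s).f l (B.map σ x.1) t =
    (u.app k x : TotS D k).f s l σ t
  have hx : B.map σ x.1 ∈ A.obj l := A.map σ x.2
  rw [(TOTX.seq (Fam.ofHom u) hSE hPP hSV hA s).ext l _ hx]
  have h1 : (Fam.ofHom u).f s l ((A : SSet.{0}).map σ x) t = (u.app k x : TotS D k).f s l σ t := by
    show (u.app l ((A : SSet.{0}).map σ x) : TotS D l).f s l (𝟙 l) t = _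
    have h2 : (u.app l ((A : SSet.{0}).map σ x) : TotS D l) = (Tot D).map σ (u.app k x) :=
      NatTrans.naturality_apply u σ x
    rw [h2]
    show (u.app k x : TotS D k).f s l (σ ≫ 𝟙 l) t = _
    rw [Category.comp_id]
  exact h1

end Pool.Agent.SH.TT
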