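import Mathlib
import Pool.Agent.SH.StmtsV

/-!
# MP_2d0b73_an, module SH_TT_TR: exactness for the mapping objects of `(Δ^n, ∂Δ^n)`
-/

open CategoryTheory Simplicial SSet Opposite MonoidalCategory

noncomputable section

namespace Pool.Agent.SH.TT

namespace TTTr

variable {n : ℕ} {k l : Dop}

/-! ### Simplices of the standard simplex as morphisms -/

/-- A simplex of `Δ[n]` as a morphism. -/
def toE (t : (Δ[n] : SSet.{0}).obj k) : bx n ⟶ k := (stdSimplex.objEquiv t).op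

/-- A morphism as a simplex of `Δ[n]`. -/
def ofE (e : bx n ⟶ k) : (Δ[n] : SSet.{0}).obj k := stdSimplex.objEquiv.symm e.unop

theorem toE_ofE (e : bx n ⟶ k) : toE (ofE e) = e := by
  unfold toE ofE
  rw [Equiv.apply_symm_apply]
  rfl

theorem ofE_toE (t : (Δ[n] : SSet.{0}).obj k) : ofE (toE t) = t :=
  stdSimplex.objEquiv.symm_apply_apply t

theorem toE_map (α : k ⟶ l) (t : (Δ[n] : SSet.{0}).obj k) :
    toE ((Δ[n] : SSet.{0}).map α t) = toE t ≫ α := rfl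

theorem ofE_map (α : k ⟶ l) (e : bx n ⟶ k) :
    ofE (e ≫ α) = (Δ[n] : SSet.{0}).map α (ofE e) := rfl

/-- The simplex misses the vertex `i`. -/
def Ms (i : Fin (n + 1)) (θ : bx n ⟶ k) : Prop := ∀ j, θ.unop.toOrderHom j ≠ i

theorem bdy_iff (θ : bx n ⟶ k) : Bdy θ ↔ ∃ i, Ms i θ := by
  unfold Bdy Ms Function.Surjective
  push Not
  rfl

theorem mem_bd_iff (t : (Δ[n] : SSet.{0}).obj k) :
    t ∈ (∂Δ[n] : (Δ[n] : SSet.{0}).Subcomplex).obj k ↔ ∃ i, Ms i (toE t) :=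
  (Iff.rfl : _ ↔ Bdy (toE t)).trans (bdy_iff (toE t))

theorem mem_horn_iff' (t : (Δ[n] : SSet.{0}).obj k) (i : Fin (n + 1)) :
    t ∈ (Λ[n, i] : (Δ[n] : SSet.{0}).Subcomplex).obj k ↔ ∃ j, j ≠ i ∧ Ms j (toE t) := by
  rw [mem_horn_iff]
  constructor
  · intro h
    rw [Ne, Set.eq_univ_iff_forall, not_forall] at h
    obtain ⟨j, hj⟩ := h
    refine ⟨j, fun h1 => hj (Or.inr h1), fun a ha => hj (Or.inl ⟨a, ha⟩)⟩
  · rintro ⟨j, hj, h1⟩ h2
    rw [Set.eq_univ_iff_forall] at h2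
    rcases h2 j with ⟨a, ha⟩ | h3
    · exact h1 a ha
    · exact hj h3

theorem Ms.comp {i : Fin (n + 1)} {θ : bx n ⟶ k} (h : Ms i θ) (α : k ⟶ l) : Ms i (θ ≫ α) :=
  fun j => h (α.unop.toOrderHom j)

theorem ms_self (i : Fin (n + 2)) (θ : bx n ⟶ k) : Ms i (dop i ≫ θ) :=
  fun j => Fin.succAbove_ne i (θ.unop.toOrderHom j)

theorem ms_factor {i : Fin (n + 2)} {θ : bx (n + 1) ⟶ k} (h : Ms i θ) :
    ∃ θ' : bx n ⟶ k, dop i ≫ θ' = θ := by
  obtain ⟨θ', h'⟩ := SimplexCategory.eq_comp_δ_of_not_surjective' θ.unop i h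
  refine ⟨θ'.op, ?_⟩
  apply Quiver.Hom.unop_inj
  exact h'.symm

theorem ms_dop (i : Fin (n + 2)) (j : Fin (n + 1)) (θ : bx n ⟶ k) :
    Ms (i.succAbove j) (dop i ≫ θ) ↔ Ms j θ := by
  constructor
  · intro h a ha
    apply h a
    show i.succAbove (θ.unop.toOrderHom a) = i.succAbove j
    rw [ha]
  · intro h a ha
    exact h a (Fin.succAbove_right_injective (p := i) ha)

theorem dop_inj {i : Fin (n + 2)} {θ θ' : bx n ⟶ k} (h : dop i ≫ θ = dop i ≫ θ') : θ = θ' := by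
  apply Quiver.Hom.unop_inj
  have h2 : θ.unop ≫ SimplexCategory.δ i = θ'.unop ≫ SimplexCategory.δ i := congrArg (·.unop) h
  exact (cancel_mono (SimplexCategory.δ i)).1 h2

/-! ### Extension by zero from a face -/

open Classical in
/-- The function with the values `g` on the face `i` and `0` otherwise. -/
def exf {α : Type} [Zero α] (i : Fin (n + 2)) (g : (bx n ⟶ k) → α) (θ : bx (n + 1) ⟶ k) : α :=
  if h : ∃ θ', dop i ≫ θ' = θ then g h.choose else 0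

theorem exf_dop {α : Type} [Zero α] (i : Fin (n + 2)) (g : (bx n ⟶ k) → α) (θ : bx n ⟶ k) :
    exf i g (dop i ≫ θ) = g θ := by
  have h : ∃ θ', dop i ≫ θ' = dop i ≫ θ := ⟨θ, rfl⟩
  unfold exf
  rw [dif_pos h]
  exact congrArg g (dop_inj h.choose_spec)

theorem exf_not {α : Type} [Zero α] (i : Fin (n + 2)) (g : (bx n ⟶ k) → α)
    (θ : bx (n + 1) ⟶ k) (h : ¬ Ms i θ) : exf i g θ = 0 := by
  unfold exf
  rw [dif_neg]
  rintro ⟨θ', rfl⟩
  exact h (ms_self i θ')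

theorem exf_zero {α : Type} [Zero α] (i : Fin (n + 2)) (g : (bx n ⟶ k) → α)
    (hg : ∀ θ, g θ = 0) (θ : bx (n + 1) ⟶ k) : exf i g θ = 0 := by
  unfold exf
  split_ifs with h
  · exact hg _
  · rfl

/-- The value is zero on the simplices missing a vertex other than `i`. -/
theorem exf_ms {α : Type} [Zero α] (i : Fin (n + 2)) (g : (bx n ⟶ k) → α)
    (hg : ∀ θ : bx n ⟶ k, Bdy θ → g θ = 0) (θ : bx (n + 1) ⟶ k) (j : Fin (n + 2)) (hj : j ≠ i)
    (h : Ms j θ) : exf i g θ = 0 := by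
  by_cases hi : Ms i θ
  · obtain ⟨θ', rfl⟩ := ms_factor hi
    obtain ⟨j', rfl⟩ := Fin.exists_succAbove_eq hj
    rw [exf_dop]
    exact hg θ' ((bdy_iff θ').2 ⟨j', (ms_dop i j' θ').1 h⟩)
  · exact exf_not i g θ hi

theorem exf_nat {V : SV} (i : Fin (n + 2)) (α : k ⟶ l) (g : (bx n ⟶ k) → V.obj k)
    (g' : (bx n ⟶ l) → V.obj l) (hg : ∀ θ, g' (θ ≫ α) = V.map α (g θ))
    (hg' : ∀ θ : bx n ⟶ l, Bdy θ → g' θ = 0) (θ : bx (n + 1) ⟶ k) (h : Bdy θ) :
    exf i g' (θ ≫ α) = V.map α (exf i g θ) := by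
  by_cases hi : Ms i θ
  · obtain ⟨θ', rfl⟩ := ms_factor hi
    rw [exf_dop, Category.assoc, exf_dop, hg]
  · rw [exf_not i g θ hi, map_zero]
    obtain ⟨j, hj⟩ := (bdy_iff θ).1 h
    have hji : j ≠ i := by
      rintro rfl
      exact hi hj
    exact exf_ms i g' hg' _ j hji (hj.comp α)

/-! ### Transfer of exactness along isomorphisms -/

theorem exc_transfer (D D' : CoV) (τ : ℕ)
    (φ : ∀ (s : ℕ) (k : Dop), (D.V s).obj k → (D'.V s).obj k)
    (hadd : ∀ s k a b, φ s k (a + b) = φ s k a + φ s k b)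
    (hnat : ∀ (s : ℕ) {k l : Dop} (α : k ⟶ l) (x : (D.V s).obj k),
      φ s l ((D.V s).map α x) = (D'.V s).map α (φ s k x))
    (hcof : ∀ (s : ℕ) (i : Fin (s + 2)) (k : Dop) (x : (D.V s).obj k),
      φ (s + 1) k (D.cof s i k x) = D'.cof s i k (φ s k x))
    (hbij : ∀ s k, Function.Bijective (φ s k)) (h : ExC D τ) : ExC D' τ := by
  have h0 : ∀ s k, φ s k 0 = 0 := fun s k => by
    have := hadd s k 0 0
    rw [add_zero] at this
    exact left_eq_add.1 this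
  have hcyc : ∀ s t z, MCyc (D'.V s) t (φ s _ z) ↔ MCyc (D.V s) t z := by
    intro s t z
    unfold MCyc
    constructor
    · intro h1 k α hα
      apply (hbij s k).1
      rw [hnat, h1 k α hα, h0]
    · intro h1 k α hα
      rw [← hnat, h1 k α hα, h0]
  have hbd : ∀ s t z, MBd (D'.V s) t (φ s _ z) ↔ MBd (D.V s) t z := by
    intro s t z
    unfold MBd
    constructor
    · rintro ⟨w', h1, h2⟩
      obtain ⟨w, rfl⟩ := (hbij s _).2 w'
      refine ⟨w, ?_, fun i => ?_⟩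
      · apply (hbij s _).1
        rw [hnat, h1]
      · apply (hbij s _).1
        rw [hnat, h2 i, h0]
    · rintro ⟨w, h1, h2⟩
      refine ⟨φ s _ w, ?_, fun i => ?_⟩
      · rw [← hnat, h1]
      · rw [← hnat, h2 i, h0]
  have hdl : ∀ s k (z : (D.V s).obj k), D'.dl s (φ s _ z) = φ (s + 1) _ (D.dl s z) := by
    intro s k z
    unfold CoV.dl
    have h1 := map_sum (AddMonoidHom.mk' (φ (s + 1) k) (hadd (s + 1) k))
      (fun i : Fin (s + 2) => D.cof s i k z) Finset.univ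
    refine Eq.trans ?_ h1.symm
    exact Finset.sum_congr rfl fun i _ => (hcof s i k z).symm
  intro t ht
  obtain ⟨hA, hB⟩ := h t ht
  constructor
  · intro z' hz hz2
    obtain ⟨z, rfl⟩ := (hbij 0 _).2 z'
    rw [hcyc] at hz
    rw [hdl, hbd] at hz2
    rw [hbd]
    exact hA z hz hz2
  · intro s z' hz hz2
    obtain ⟨z, rfl⟩ := (hbij (s + 1) _).2 z'
    rw [hcyc] at hz
    rw [hdl, hbd] at hz2
    obtain ⟨y, hy, hy2⟩ := hB s z hz hz2
    refine ⟨φ s _ y, (hcyc s t y).2 hy, ?_⟩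
    rw [hdl, ← hadd, hbd]
    exact hy2

/-! ### First part -/

/-- The simplices of the point. -/
theorem pt_eq (a b : (Δ[0] : SSet.{0}).obj k) : a = b := by
  rw [← ofE_toE a, ← ofE_toE b]
  congr 1
  apply Quiver.Hom.unop_inj
  apply SimplexCategory.Hom.ext
  ext j
  exact congrArg Fin.val (Subsingleton.elim (α := Fin 1) _ _)

theorem not_bd0 (a : (Δ[0] : SSet.{0}).obj k) :
    a ∉ (∂Δ[0] : (Δ[0] : SSet.{0}).Subcomplex).obj k := by
  intro h
  obtain ⟨i, hi⟩ := (mem_bd_iff a).1 h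
  exact hi 0 (Subsingleton.elim (α := Fin 1) _ _)

/-- The constant simplex of the point. -/
def pt (k : Dop) : (Δ[0] : SSet.{0}).obj k := ofE (SimplexCategory.const k.unop ⦋0⦌ 0).op

theorem part1 (D : CoV) (h : ExC D 1) : ExC (D.mp (Δ[0] : SSet.{0}) ∂Δ[0]) 1 := by
  refine exc_transfer D _ 1 (fun s k x => MapP.mk (fun l _ σ => (D.V s).map σ x) ?_ ?_)
    ?_ ?_ ?_ ?_ h
  · intro l r α _ σ
    rw [Functor.map_comp]
    rfl
  · intro l z σ hz
    exact absurd hz (not_bd0 z)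
  · intro s k a b
    refine MapP.ext fun l z σ => ?_
    exact map_add _ _ _
  · intro s k l α x
    refine MapP.ext fun r z σ => ?_
    show (D.V s).map σ ((D.V s).map α x) = (D.V s).map (α ≫ σ) x
    rw [Functor.map_comp]
    rfl
  · intro s i k x
    refine MapP.ext fun r z σ => ?_
    exact (D.cof_nat s i σ x).symm
  · intro s k
    constructor
    · intro a b hab
      have h1 := congrArg (fun g => MapP.ev (Z₀ := ∂Δ[0]) (V := D.V s) g k (pt k) (𝟙 k)) hab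
      have h2 : (D.V s).map (𝟙 k) a = (D.V s).map (𝟙 k) b := h1
      rw [CategoryTheory.Functor.map_id] at h2
      exact h2
    · intro g
      refine ⟨MapP.ev g k (pt k) (𝟙 k), ?_⟩
      refine MapP.ext fun r z σ => ?_
      show (D.V s).map σ (MapP.ev g k (pt k) (𝟙 k)) = MapP.ev g r z σ
      rw [← MapP.nat g σ (pt k) (𝟙 k), Category.id_comp]
      exact congrArg (fun a => MapP.ev g r a σ) (pt_eq _ _)

/-! ### Second part -/

section
variable {V : SV}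

/-- The inclusion. -/
def jj {q : Dop} (g : (MapP (Δ[n + 1] : SSet.{0}) ∂Δ[n + 1] V).obj q) :
    (MapP (Δ[n + 1] : SSet.{0}) Λ[n + 1, Fin.last (n + 1)] V).obj q :=
  MapP.mk (fun k z σ => MapP.ev g k z σ) (fun α z σ => MapP.nat g α z σ) (fun k z σ h => by
    obtain ⟨j, -, hj⟩ := (mem_horn_iff' z _).1 h
    exact MapP.van g z σ ((mem_bd_iff z).2 ⟨j, hj⟩))

theorem last_mem_horn {i : Fin (n + 1)} {θ : bx n ⟶ k} (h : Ms i θ) :
    ofE (dop (Fin.last (n + 1)) ≫ θ) ∈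
      (Λ[n + 1, Fin.last (n + 1)] : (Δ[n + 1] : SSet.{0}).Subcomplex).obj k := by
  rw [mem_horn_iff']
  refine ⟨(Fin.last (n + 1)).succAbove i, Fin.succAbove_ne _ _, ?_⟩
  rw [toE_ofE, ms_dop]
  exact h

/-- The restriction to the last face. -/
def pp {q : Dop} (g : (MapP (Δ[n + 1] : SSet.{0}) Λ[n + 1, Fin.last (n + 1)] V).obj q) :
    (MapP (Δ[n] : SSet.{0}) ∂Δ[n] V).obj q :=
  MapP.mk (fun k z σ => MapP.ev g k (ofE (dop (Fin.last (n + 1)) ≫ toE z)) σ)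
    (fun {k l} α z σ => by
      rw [← MapP.nat g α, ← ofE_map, Category.assoc]
      rfl)
    (fun k z σ h => by
      obtain ⟨i, hi⟩ := (mem_bd_iff z).1 h
      exact MapP.van g _ σ (last_mem_horn hi))

theorem pp_zero_iff {q : Dop}
    (g : (MapP (Δ[n + 1] : SSet.{0}) Λ[n + 1, Fin.last (n + 1)] V).obj q) :
    pp g = 0 ↔ ∃ y, jj y = g := by
  constructor
  · intro h
    refine ⟨MapP.mk (fun k z σ => MapP.ev g k z σ) (fun α z σ => MapP.nat g α z σ)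
      (fun k z σ hz => ?_), MapP.ext fun k z σ => rfl⟩
    obtain ⟨j, hj⟩ := (mem_bd_iff z).1 hz
    by_cases hl : j = Fin.last (n + 1)
    · subst hl
      obtain ⟨θ', hθ⟩ := ms_factor hj
      have h1 := congrArg (fun g => MapP.ev (Z₀ := ∂Δ[n]) (V := V) g k (ofE θ') σ) h
      have h2 : MapP.ev g k (ofE (dop (Fin.last (n + 1)) ≫ toE (ofE θ'))) σ = 0 := h1
      rw [toE_ofE, hθ, ofE_toE] at h2
      exact h2
    · exact MapP.van g z σ ((mem_horn_iff' z _).2 ⟨j, hl, hj⟩)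
  · rintro ⟨y, rfl⟩
    refine MapP.ext fun k z σ => ?_
    show MapP.ev y k (ofE (dop (Fin.last (n + 1)) ≫ toE z)) σ = 0
    refine MapP.van y _ σ ((mem_bd_iff _).2 ⟨Fin.last (n + 1), ?_⟩)
    rw [toE_ofE]
    exact ms_self _ _

/-- The mapping object of the horn is acyclic. -/
theorem acyc (hSE : Stmt_SE) (hPP : Stmt_PP) (hSV : Stmt_SV1) (hH : Stmt_HORN) (t : ℕ)
    (z : (MapP (Δ[n + 1] : SSet.{0}) Λ[n + 1, Fin.last (n + 1)] V).obj (bx t))
    (hz : MCyc _ t z) : MBd _ t z := by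
  have hz' : ∀ (k : Dop) (ρ : (Δ[n + 1] : SSet.{0}).obj k) (θ : bx t ⟶ k), Bdy θ →
      MapP.ev z k ρ θ = 0 := by
    intro k ρ θ h
    have h1 := congrArg (fun g => MapP.ev (Z₀ := Λ[n + 1, Fin.last (n + 1)]) (V := V) g k ρ (𝟙 k))
      (hz k θ h)
    have h2 : MapP.ev z k ρ (θ ≫ 𝟙 k) = 0 := h1
    rw [Category.comp_id] at h2
    exact h2
  obtain ⟨w, hw1, hw2⟩ := hSE hPP hSV (Δ[n + 1] : SSet.{0}) (Δ[t + 1] : SSet.{0})
    Λ[n + 1, Fin.last (n + 1)] ∂Δ[t + 1] V (hH n (Fin.last (n + 1)))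
    (fun k ρ x => exf 0 (fun θ => MapP.ev z k ρ θ) (toE x)) (by
      intro k l α ρ x h
      rcases h with h | h
      · rw [exf_zero, exf_zero, map_zero]
        · intro θ
          exact MapP.van z ρ θ h
        · intro θ
          exact MapP.van z _ θ (Subfunctor.map _ α h)
      · refine exf_nat 0 α _ _ (fun θ => ?_) (fun θ hθ => hz' l _ θ hθ) (toE x) h
        exact MapP.nat z α ρ θ)
  refine ⟨MapP.mk (fun k ρ θ => w k ρ (ofE θ)) (fun α ρ θ => hw1 α ρ (ofE θ))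
    (fun k ρ θ h => ?_), ?_, fun i => ?_⟩
  · rw [hw2 k ρ _ (Or.inl h)]
    exact exf_zero _ _ (fun θ => MapP.van z ρ θ h) _
  · refine MapP.ext fun k ρ σ => ?_
    show w k ρ (ofE (dop 0 ≫ σ)) = MapP.ev z k ρ σ
    rw [hw2 k ρ _ (Or.inr ((mem_bd_iff _).2 ⟨0, by rw [toE_ofE]; exact ms_self _ _⟩)), toE_ofE,
      exf_dop]
  · refine MapP.ext fun k ρ σ => ?_
    show w k ρ (ofE (dop i.succ ≫ σ)) = 0
    rw [hw2 k ρ _ (Or.inr ((mem_bd_iff _).2 ⟨i.succ, by rw [toE_ofE]; exact ms_self _ _⟩)), toE_ofE]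
    exact exf_ms 0 _ (fun θ hθ => hz' k ρ θ hθ) _ i.succ (Fin.succ_ne_zero i) (ms_self _ _)

/-- Lifting from the last face. -/
theorem lifting (hSE : Stmt_SE) (hPP : Stmt_PP) (hSV : Stmt_SV1) (hH : Stmt_HORN) (t : ℕ)
    (x : (MapP (Δ[n] : SSet.{0}) ∂Δ[n] V).obj (bx (t + 1)))
    (hx : ∀ i : Fin (t + 1), (MapP (Δ[n] : SSet.{0}) ∂Δ[n] V).map (dop i.succ) x = 0) :
    ∃ y : (MapP (Δ[n + 1] : SSet.{0}) Λ[n + 1, Fin.last (n + 1)] V).obj (bx (t + 1)),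
      pp y = x ∧ ∀ i : Fin (t + 1), (MapP (Δ[n + 1] : SSet.{0}) Λ[n + 1, Fin.last (n + 1)] V).map
        (dop i.succ) y = 0 := by
  have hx' : ∀ (k : Dop) (ρ : (Δ[n] : SSet.{0}).obj k) (θ : bx (t + 1) ⟶ k) (j : Fin (t + 2)),
      j ≠ 0 → Ms j θ → MapP.ev x k ρ θ = 0 := by
    intro k ρ θ j hj hθ
    obtain ⟨i, rfl⟩ := Fin.exists_succ_eq.2 hj
    obtain ⟨θ', rfl⟩ := ms_factor hθ
    exact congrArg (fun g => MapP.ev (Z₀ := ∂Δ[n]) (V := V) g k ρ θ') (hx i)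
  have hbd : ∀ (k : Dop) (ρ : bx n ⟶ k) (θ : bx (t + 1) ⟶ k), Bdy ρ →
      MapP.ev x k (ofE ρ) θ = 0 := by
    intro k ρ θ h
    refine MapP.van x _ θ ?_
    rw [mem_bd_iff, toE_ofE]
    exact (bdy_iff ρ).1 h
  obtain ⟨w, hw1, hw2⟩ := hSE hPP hSV (Δ[t + 1] : SSet.{0}) (Δ[n + 1] : SSet.{0})
    Λ[t + 1, 0] ∂Δ[n + 1] V (hH t 0)
    (fun k θ ρ => exf (Fin.last (n + 1)) (fun ρ' => MapP.ev x k (ofE ρ') (toE θ)) (toE ρ)) (by
      intro k l α θ ρ h
      rcases h with h | h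
      · rw [exf_zero, exf_zero, map_zero]
        · intro ρ'
          obtain ⟨j, hj, hj2⟩ := (mem_horn_iff' θ 0).1 h
          exact hx' k _ _ j hj hj2
        · intro ρ'
          obtain ⟨j, hj, hj2⟩ := (mem_horn_iff' θ 0).1 h
          exact hx' l _ _ j hj (hj2.comp α)
      · refine exf_nat (Fin.last (n + 1)) α _ _ (fun ρ' => ?_) (fun ρ' hρ => hbd l ρ' _ hρ)
          (toE ρ) h
        exact MapP.nat x α (ofE ρ') (toE θ))
  refine ⟨MapP.mk (fun k ρ θ => w k (ofE θ) ρ) (fun α ρ θ => hw1 α (ofE θ) ρ)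
    (fun k ρ θ h => ?_), ?_, fun i => ?_⟩
  · obtain ⟨j, hj, hj2⟩ := (mem_horn_iff' ρ _).1 h
    rw [hw2 k _ ρ (Or.inr ((mem_bd_iff ρ).2 ⟨j, hj2⟩))]
    exact exf_ms _ _ (fun ρ' hρ => hbd k ρ' _ hρ) _ j hj hj2
  · refine MapP.ext fun k ρ σ => ?_
    show w k (ofE σ) (ofE (dop (Fin.last (n + 1)) ≫ toE ρ)) = MapP.ev x k ρ σ
    rw [hw2 k _ _ (Or.inr ((mem_bd_iff _).2 ⟨Fin.last (n + 1), by rw [toE_ofE]; exact ms_self _ _⟩)),
      toE_ofE (dop (Fin.last (n + 1)) ≫ toE ρ), exf_dop, ofE_toE, toE_ofE]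
  · refine MapP.ext fun k ρ σ => ?_
    show w k (ofE (dop i.succ ≫ σ)) ρ = 0
    rw [hw2 k _ _ (Or.inl ((mem_horn_iff' _ _).2 ⟨i.succ, Fin.succ_ne_zero i, by
      rw [toE_ofE]; exact ms_self _ _⟩))]
    refine exf_zero _ _ (fun ρ' => ?_) _
    rw [toE_ofE]
    exact hx' k _ _ i.succ (Fin.succ_ne_zero i) (ms_self _ _)

end

end TTTr

open TTTr in
theorem tt_tr : Stmt_TR := by
  intro hMB hCON hSE hPP hSV hH
  refine ⟨part1, fun D n hB => ?_⟩
  refine hCON hMB (D.mp (Δ[n + 1] : SSet.{0}) ∂Δ[n + 1])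
    (D.mp (Δ[n + 1] : SSet.{0}) Λ[n + 1, Fin.last (n + 1)]) (D.mp (Δ[n] : SSet.{0}) ∂Δ[n]) 0
    (fun s k g => jj g) (fun s k g => pp g) ?_ ?_ ?_ ?_ ?_ ?_ ?_ ?_ ?_ ?_ hB
  · intro s k a b
    exact MapP.ext fun r z σ => rfl
  · intro s k a b
    exact MapP.ext fun r z σ => rfl
  · intro s k a b hab
    refine MapP.ext fun r z σ => ?_
    exact congrArg (fun g => MapP.ev (Z₀ := Λ[n + 1, Fin.last (n + 1)]) (V := D.V s) g r z σ) hab
  · intro s k x
    exact pp_zero_iff x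
  · intro s k l α x
    exact MapP.ext fun r z σ => rfl
  · intro s k l α x
    exact MapP.ext fun r z σ => rfl
  · intro s i k x
    exact MapP.ext fun r z σ => rfl
  · intro s i k x
    exact MapP.ext fun r z σ => rfl
  · intro s t z hz
    exact acyc hSE hPP hSV hH t z hz
  · intro s t x hx
    exact lifting hSE hPP hSV hH t x hx

end Pool.Agent.SH.TT
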