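import Mathlib
import Pool.Agent.SH.StmtsV

/-!
# MP_2d0b73_an, block III-T: the extension property for arbitrary monomorphisms
-/

open CategoryTheory Simplicial SSet Opposite MonoidalCategory

noncomputable section

namespace Pool.Agent.SH.TT

namespace XPM

theorem f2_iso {X Y : SSet.{0}} (f : X ⟶ Y) (hf : IsIso f) : F2Iso f := by
  intro n
  refine ⟨SSet.homologyMap (inv f) F2 n, ?_, ?_⟩
  · rw [← SSet.homologyMap_comp, IsIso.hom_inv_id, SSet.homologyMap_id]
  · rw [← SSet.homologyMap_comp, IsIso.inv_hom_id, SSet.homologyMap_id]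

theorem f2_cancel {X Y Z : SSet.{0}} (f : X ⟶ Y) (g : Y ⟶ Z) (hf : F2Iso f)
    (hg : F2Iso (f ≫ g)) : F2Iso g := by
  intro n
  have h1 := hf n
  have h2 := hg n
  rw [SSet.homologyMap_comp] at h2
  exact IsIso.of_isIso_comp_left (SSet.homologyMap f F2 n) (SSet.homologyMap g F2 n)

end XPM

theorem tt_xpm : Stmt_XPM := by
  intro Y hY A B i hi hF u
  have hiso : IsIso (Subcomplex.toRange i) := inferInstance
  have h1 : Subcomplex.toRange i ≫ (Subcomplex.range i).ι = i := Subcomplex.toRange_ι i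
  have h2 : F2Iso (Subcomplex.range i).ι := by
    refine XPM.f2_cancel (Subcomplex.toRange i) _ (XPM.f2_iso _ hiso) ?_
    rw [h1]
    exact hF
  obtain ⟨v, hv⟩ := hY B (Subcomplex.range i) h2 (inv (Subcomplex.toRange i) ≫ u)
  refine ⟨v, ?_⟩
  have h3 : i ≫ v = (Subcomplex.toRange i ≫ (Subcomplex.range i).ι) ≫ v := by rw [h1]
  rw [h3, Category.assoc, hv, IsIso.hom_inv_id_assoc]

end Pool.Agent.SH.TT
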