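import Mathlib
import Pool.Agent.SH.StmtsV
import Pool.Agent.SH.TEall

/-!
# MP_2d0b73_an, block III-T: the inputs from block TE

`Stmt_PP`, `Stmt_HORN`, `Stmt_SV1` of `StmtsV.lean` as consequences of `TEall.lean`.
-/

open CategoryTheory Simplicial SSet Opposite MonoidalCategory

noncomputable section

namespace Pool.Agent.SH.TT

/-- Pushout products of `F_2`-homology isomorphisms. -/
theorem pp : Stmt_PP := fun X Y A B h => TE.pp F2Iso TE.f2wc X Y A B h

/-- Horn inclusions are `F_2`-homology isomorphisms. -/
theorem horn : Stmt_HORN := fun n i => TE.horn F2Iso TE.f2wc n i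

/-- Extension of maps into simplicial vector spaces. -/
theorem sv1 : Stmt_SV1 := fun A B i hi h V u => TE.svext V A B i hi h u

end Pool.Agent.SH.TT
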