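import Pool.Agent.SH.TTAsm
import Pool.Agent.SH.TTRep
import Pool.Agent.SH.TTSE
import Pool.Agent.SH.TTTotX
import Pool.Agent.SH.TTOmX
import Pool.Agent.SH.TTXpm
import Pool.Agent.SH.TTTotC
import Pool.Agent.SH.TTOmC
import Pool.Agent.SH.TTMB
import Pool.Agent.SH.TTCone
import Pool.Agent.SH.TTHadd
import Pool.Agent.SH.TTConp
import Pool.Agent.SH.TTTr
import Pool.Agent.SH.TTNul
import Pool.Agent.SH.TTOmW
import Pool.Agent.SH.TTFin
import Pool.Agent.SH.TTCoa
import Pool.Agent.SH.Ess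
import Pool.Agent.SH.VInp

/-!
# MP_2d0b73_an, block III-T: final assembly, modulo the algebraic input `Stmt_EX`
-/

set_option autoImplicit false

namespace Pool.Agent.SH.TT

theorem ttFinal (hEX : Stmt_EX) : Stmt_TT :=
  TTASM pp horn sv1 tt_rep tt_se tt_totx tt_omx tt_xpm tt_totc tt_omc tt_mb tt_cone tt_hadd
    tt_conp tt_tr tt_nul tt_omw tt_fin (ess tt_coa) hEX TE.f2 TE.bdry TE.keye TE.t23

end Pool.Agent.SH.TT
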