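import Pool.Agent.SH.MAIN
import Pool.Agent.SH.FIN
import Pool.Agent.SH.LEB
import Pool.Agent.SH.BAD
import Pool.Agent.SH.MAPD
import Pool.Agent.SH.PARTI
import Pool.Agent.SH.AllII
import Pool.Agent.SH.TEall
import Pool.Agent.SH.NAll
import Pool.Agent.SH.ASM3
import Pool.Agent.SH.TTFinal
import Pool.Agent.SH.S.AllV
import Pool.Agent.SH.Q.All
import Pool.Agent.SH.L.AllL
import Pool.Agent.SH.L.XPoly
import Pool.Agent.SH.L.XTrans

/-!
# MP_2d0b73_an: final assembly
-/

namespace Pool.Agent.SH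

/-- Cohomology rings of simplicial vector spaces with finite levels are polynomial. -/
theorem polyGen_all (V : SHS.SV) (hV : V.LF) (h0 : ∀ x : V.X 0, x = 0) :
    SHQ.PolyGen V.toSS := by
  obtain ⟨I, x, hx⟩ := SHS.All.lbe V hV
  have hm : ∀ n : ℕ, ∃ μ : Multiset ℕ → SHS.H (SHS.EM n).toSS, 1 ≤ n → SHS.MuFam n μ := by
    intro n
    rcases Nat.eq_zero_or_pos n with h | h
    · exact ⟨fun _ => 0, fun h' => absurd h' (by omega)⟩
    · obtain ⟨μ, hμ⟩ := SHS.All.mu n h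
      exact ⟨μ, fun _ => hμ⟩
  choose μ hμ using hm
  exact SHL.polyGen_conv (SHS.All.poly V hV h0 x hx μ hμ)

theorem stmt_EX_all : TT.Stmt_EX :=
  SHL.stmt_EX_of_link SHL.All.link_all polyGen_all (SHQ.fin_all (ZMod 2))

/-- PART III. -/
theorem partIII_all : Stmt_PARTIII :=
  ASM3 TE.f2 TE.wt TE.key n_main_all (TT.ttFinal stmt_EX_all)

/-- The main theorem. -/
theorem main_all : Stmt_MAIN := MAIN (FIN LEB BAD MAPD) PARTI (partII partIII_all)

end Pool.Agent.SH
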