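import Pool.Agent.SH.StmtsT

/-!
# MP_2d0b73_an, PART II: composition of `LT` maps
-/

noncomputable section

namespace Pool.Agent.SH

open CategoryTheory Simplicial MonoidalCategory Limits Opposite

theorem LTA : Stmt_LTA := by
  intro T A B C i j hi hj
  have := hi.1
  have := hj.1
  refine ⟨mono_comp i j, ?_⟩
  intro n u v huv
  obtain ⟨w1, h1, h2⟩ := hi.2 n (j ▷ (∂Δ[n] : SSet.{0}) ≫ u) v (by
    rw [← MonoidalCategory.comp_whiskerRight_assoc, huv])
  obtain ⟨w, h3, h4⟩ := hj.2 n u w1 h1.symm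
  refine ⟨w, h3, ?_⟩
  rw [MonoidalCategory.comp_whiskerRight, Category.assoc, h4, h2]

end Pool.Agent.SH
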