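import Pool.Agent.SH.StmtsT

/-!
# MP_2d0b73_an, PART II: whole nerves and their parts
-/

noncomputable section

namespace Pool.Agent.SH

open CategoryTheory Simplicial MonoidalCategory Limits Opposite

namespace LTZ

theorem isIso_ι {X : SSet.{0}} (S : X.Subcomplex) (hS : S = ⊤) : IsIso S.ι := by
  subst hS
  infer_instance

theorem subN_univ (R : Type) [Preorder R] : (subN (Set.univ : Set R)) = ⊤ := by
  ext n x
  exact ⟨fun _ => trivial, fun _ i => trivial⟩

theorem sub_one {R : Type} [PartialOrder R] (a : R) (n : SimplexCategoryᵒᵖ) :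
    Subsingleton ((subN {a} : (NP R).Subcomplex).toSSet.obj n) := by
  constructor
  rintro ⟨x, hx⟩ ⟨y, hy⟩
  apply Subtype.ext
  refine CategoryTheory.Functor.ext (fun i => ?_) (fun _ _ _ => Subsingleton.elim _ _)
  exact (hx i).trans (hy i).symm

end LTZ

theorem LTZ (h1 : Stmt_LTX) : Stmt_LTZ := by
  intro T R _
  have hU : IsIso (subN (Set.univ : Set R)).ι := LTZ.isIso_ι _ (LTZ.subN_univ R)
  have part : ∀ A : Set R, LTS T (subN A) (subN Set.univ) ↔ LT T (subN A).ι := by
    intro A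
    constructor
    · rintro ⟨h, hh⟩
      refine h1 T _ _ _ _ _ _ (Iso.refl _) (asIso (subN (Set.univ : Set R)).ι) ?_ hh
      rw [Iso.refl_hom, Category.id_comp]
      rfl
    · intro hh
      have h : subN A ≤ subN Set.univ := fun n x _ i => trivial
      refine ⟨h, ?_⟩
      refine h1 T _ _ _ _ _ _ (Iso.refl _) (asIso (subN (Set.univ : Set R)).ι).symm ?_ hh
      rw [Iso.refl_hom, Category.id_comp, Iso.symm_hom, asIso_inv, IsIso.eq_comp_inv]
      rfl
  refine ⟨part, ?_⟩
  rintro ⟨x, hx⟩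
  refine ⟨x.obj 0, trivial, ?_⟩
  rw [part]
  have hr : SSet.Subcomplex.range (vert x) ≤ subN {x.obj 0} := by
    rw [vert, SSet.Subcomplex.range_eq_ofSimplex, SSet.Subcomplex.ofSimplex_le_iff]
    intro i
    have : i = 0 := Subsingleton.elim (α := Fin 1) _ _
    rw [this]
    rfl
  let v : (Δ[0] : SSet.{0}) ⟶ (subN {x.obj 0} : (NP R).Subcomplex).toSSet :=
    SSet.Subcomplex.lift (vert x) hr
  have hv : IsIso v := by
    rw [NatTrans.isIso_iff_isIso_app]
    intro n
    rw [isIso_iff_bijective]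
    have := LTZ.sub_one (x.obj 0) n
    have h2 : Subsingleton (n.unop ⟶ ⦋0⦌) := inferInstance
    have h3 : Subsingleton ((Δ[0] : SSet.{0}).obj n) :=
      SSet.stdSimplex.objEquiv.injective.subsingleton
    refine ⟨fun a b _ => Subsingleton.elim (α := (Δ[0] : SSet.{0}).obj n) a b, fun b =>
      ⟨SSet.stdSimplex.objEquiv.symm (SimplexCategory.const _ _ 0),
        Subsingleton.elim (α := (subN {x.obj 0} : (NP R).Subcomplex).toSSet.obj n) _ _⟩⟩
  refine h1 T _ _ _ _ _ _ (asIso v) (Iso.refl _) ?_ hx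
  rw [Iso.refl_hom, Category.comp_id]
  rfl

end Pool.Agent.SH
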