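import Pool.Agent.SH.StmtsR

/-!
# The main theorem from its parts
-/

set_option autoImplicit false

open Set Topology Filter

namespace Pool.Agent.SH

/-- The constant sofic approximation sequence of the trivial group. -/
def trivSofic : SoficSeq Unit where
  d := fun i => i + 1
  σ := fun _ _ => 1
  tendsto_d := tendsto_add_atTop_nat 1
  mul := by
    intro s t
    refine tendsto_const_nhds.congr fun i => ?_
    have h1 : {v : Fin (i + 1) | (1 : Equiv.Perm (Fin (i + 1))) v =
        (1 : Equiv.Perm (Fin (i + 1))) ((1 : Equiv.Perm (Fin (i + 1))) v)} = univ := by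
      ext v
      simp
    show (1 : ℝ) = ({v : Fin (i + 1) | (1 : Equiv.Perm (Fin (i + 1))) v =
        (1 : Equiv.Perm (Fin (i + 1))) ((1 : Equiv.Perm (Fin (i + 1))) v)}.ncard : ℝ) /
        ((i + 1 : ℕ) : ℝ)
    rw [h1, Set.ncard_univ, Nat.card_eq_fintype_card, Fintype.card_fin]
    rw [div_self]
    positivity
  free := by
    intro s t hst
    exact absurd (Subsingleton.elim s t) hst

theorem dimLE_of_cov {K : Type} [TopologicalSpace K] {n : ℕ} (h : CovDimLE K n) : DimLE K n := by
  intro ι _ U hU hcov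
  obtain ⟨V, hV, hVU, hVn⟩ := h (Set.range U) ⟨Set.finite_range U, by
    rintro _ ⟨i, rfl⟩
    exact hU i, by
    refine eq_univ_of_forall fun x => ?_
    obtain ⟨i, hi⟩ := hcov x
    exact ⟨U i, ⟨i, rfl⟩, hi⟩⟩
  haveI : Finite V := hV.1
  refine ⟨V, inferInstance, fun v => v.1, fun v => hV.2.1 v.1 v.2, ?_, ?_, ?_⟩
  · intro x
    have : x ∈ ⋃₀ V := by
      rw [hV.2.2]
      exact mem_univ x
    obtain ⟨v, hv, hx⟩ := this
    exact ⟨⟨v, hv⟩, hx⟩
  · intro v
    obtain ⟨_, ⟨i, rfl⟩, hi⟩ := hVU v.1 v.2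
    exact ⟨i, hi⟩
  · intro x
    refine le_trans ?_ (hVn x)
    have h1 : {v | v ∈ V ∧ x ∈ v} = Subtype.val '' {a : V | x ∈ a.1} := by
      ext v
      constructor
      · rintro ⟨hv, hx⟩
        exact ⟨⟨v, hv⟩, hx, rfl⟩
      · rintro ⟨a, ha, rfl⟩
        exact ⟨a.2, ha⟩
    rw [h1, Set.ncard_image_of_injective _ Subtype.val_injective]

theorem infDim_of {K : Type} [TopologicalSpace K] (h : ∀ n, ¬ DimLE K n) : InfDim K :=
  fun n hn => h n (dimLE_of_cov hn)

theorem nonempty_of_dim {K : Type} [TopologicalSpace K] (h : ∀ n, ¬ DimLE K n) : Nonempty K := by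
  by_contra hne
  rw [not_nonempty_iff] at hne
  refine h 0 ?_
  intro ι _ U _ _
  refine ⟨Empty, inferInstance, fun e => e.elim, fun e => e.elim, fun x => (hne.false x).elim,
    fun e => e.elim, fun x => (hne.false x).elim⟩

theorem MAIN (hFin : Stmt_FIN) (hP : Stmt_PARTI) (hC : Stmt_CPT) : Stmt_MAIN := by
  obtain ⟨K, tK, cK, mK, hE, hD⟩ := hC
  have hne : Nonempty K := nonempty_of_dim hD
  have hI : InfDim K := infDim_of hD
  have hb : ∀ (G : Type) [Group G] (S : SoficSeq G) (ρ : FullShift G K → FullShift G K → ℝ),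
      IsCompatMetric ρ → mdim ρ S ≤ ((3 : ℝ) : EReal) := by
    intro G _ S ρ hρ
    have := hFin K 3 (hP K hE) G S ρ hρ
    exact_mod_cast this
  refine ⟨⟨K, tK, cK, mK, hI, hb⟩, ?_⟩
  intro hQ
  haveI : CompactSpace (FullShift Unit K) := inferInstanceAs (CompactSpace (Unit → K))
  haveI : TopologicalSpace.MetrizableSpace (FullShift Unit K) :=
    inferInstanceAs (TopologicalSpace.MetrizableSpace (Unit → K))
  set m := TopologicalSpace.metrizableSpaceMetric (FullShift Unit K) with hm
  have hρ : IsCompatMetric (fun x y => m.dist x y) := ⟨m, rfl, fun x y => rfl⟩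
  have h1 := hQ Unit trivSofic K hI (fun x y => m.dist x y) hρ
  have h2 := hb Unit trivSofic (fun x y => m.dist x y) hρ
  rw [h1] at h2
  exact absurd h2 (not_le.2 (EReal.coe_lt_top _))

end Pool.Agent.SH
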