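import Pool.Agent.SH.StmtsN
import Pool.Agent.SH.StmtsTE
import Pool.Agent.SH.N.N3

/-!
# MP_2d0b73_an, Part III-N: the labelled configurations are acyclic
-/

set_option autoImplicit false

open CategoryTheory MonoidalCategory CartesianMonoidalCategory Simplicial Opposite

namespace Pool.Agent.SH

theorem acy_of_ac2 (hM : F2_MOORE_Stmt) {P : MorphismProperty SSet.{0}}
    (hF : ∀ (X Y : SSet.{0}) (f : X ⟶ Y), F2Iso f → P f) (X : SSet.{0}) (h : Ac2 X) :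
    Acy P X := by
  refine hF _ _ _ (hM X h.ne h.zero ?_)
  intro n z hz
  obtain ⟨w, h0, h1⟩ := h.succ n z hz
  refine ⟨w, h0, ?_⟩
  intro i hi
  obtain ⟨j, rfl⟩ := Fin.exists_succ_eq.2 hi
  exact h1 j

theorem n_main (hO : WC_OPEN_Stmt) (hH : WC_HEQ_Stmt) (hU : WC_UACY_Stmt)
    (hM : F2_MOORE_Stmt) (hfin : N_FIN_Stmt) (hnn : N_NN_Stmt) : N_MAIN_Stmt := by
  intro P hP hF hB
  have hA : ∀ X : SSet.{0}, Ac2 X → Acy P X := acy_of_ac2 hM hF
  have hG : GrpAcy P := by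
    intro G _ _ V F a q ha hq hV
    exact hfin P hP hA hB G V F a q ha hq hV
  have h0 : ∀ s : Sph 2, s ≤ 0 → s = 0 := fun s hs => Sph.eq_zero_of_le hs
  have h1 : P (pmap h0) := pmap_mem hO hH hU hP hG h0
  have h2 : P (toUnit (FM ℕ ⊤ ⊤ ⊤ (NOs (UZ : Set (Sph 2))))) := hnn P hP hA hB
  have e : pmap h0 ≫ toUnit _ = toUnit (NO (LL (Sph 2))) := toUnit_unique _ _
  show P (toUnit (NO (LL (Sph 2))))
  rw [← e]
  exact hP.comp _ _ h1 h2

end Pool.Agent.SH
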