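import Pool.Agent.SH.StmtsN

/-!
# MP_2d0b73_an, Part III-N, module N_QY: the dyadic coefficients on the circle

`FM Qd Nd (NOs US) (NOs US) (NOs UZ)` is `F₂`-acyclic: it is a simplicial commutative monoid in which
multiplication by two is bijective (positive degrees), and its vertices are connected (degree zero).
-/

set_option autoImplicit false

open CategoryTheory MonoidalCategory CartesianMonoidalCategory Simplicial Opposite

namespace Pool.Agent.SH

namespace NQy

/-! ### Degree zero, for any simplicial set -/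

section zero

variable {X : SSet.{0}}

/-- the relation generated by the edges, in chain form -/
def Rl (m m' : X _⦋0⦌) : Prop :=
  ∃ w : X _⦋1⦌ →₀ ZMod 2, dF 0 w = Finsupp.single m 1 + Finsupp.single m' 1 ∧ dF 1 w = 0

theorem dF_add {n : ℕ} (i : Fin (n + 2)) (z w : X _⦋n + 1⦌ →₀ ZMod 2) :
    dF i (z + w) = dF i z + dF i w := Finsupp.mapDomain_add

theorem dF_single {n : ℕ} (i : Fin (n + 2)) (x : X _⦋n + 1⦌) (a : ZMod 2) :
    dF i (Finsupp.single x a) = Finsupp.single (X.δ i x) a := Finsupp.mapDomain_single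

theorem dF_zero {n : ℕ} (i : Fin (n + 2)) : dF i (0 : X _⦋n + 1⦌ →₀ ZMod 2) = 0 :=
  Finsupp.mapDomain_zero

theorem two_eq {T : Type} (f : T →₀ ZMod 2) : f + f = 0 := by
  ext x
  rw [Finsupp.add_apply, CharTwo.add_self_eq_zero]
  rfl

theorem Rl.refl (m : X _⦋0⦌) : Rl m m := ⟨0, by rw [dF_zero, two_eq], dF_zero 1⟩

theorem Rl.symm {m m' : X _⦋0⦌} (h : Rl m m') : Rl m' m := by
  obtain ⟨w, h0, h1⟩ := h
  exact ⟨w, by rw [h0, add_comm], h1⟩

theorem Rl.trans {m m' m'' : X _⦋0⦌} (h : Rl m m') (h' : Rl m' m'') : Rl m m'' := by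
  obtain ⟨w, h0, h1⟩ := h
  obtain ⟨w', h0', h1'⟩ := h'
  refine ⟨w + w', ?_, by rw [dF_add, h1, h1', add_zero]⟩
  rw [dF_add, h0, h0']
  calc Finsupp.single m (1 : ZMod 2) + Finsupp.single m' 1 +
        (Finsupp.single m' 1 + Finsupp.single m'' 1)
      = Finsupp.single m (1 : ZMod 2) + (Finsupp.single m' 1 + Finsupp.single m' 1) +
          Finsupp.single m'' 1 := by abel
    _ = Finsupp.single m (1 : ZMod 2) + Finsupp.single m'' 1 := by rw [two_eq, add_zero]

theorem δσ0 (x : X _⦋0⦌) : X.δ 0 (X.σ 0 x) = x := by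
  have h : X.σ (0 : Fin 1) ≫ X.δ (0 : Fin 2) = 𝟙 _ := X.δ_comp_σ_self
  exact ConcreteCategory.congr_hom h x

theorem δσ1 (x : X _⦋0⦌) : X.δ 1 (X.σ 0 x) = x := by
  have h : X.σ (0 : Fin 1) ≫ X.δ (1 : Fin 2) = 𝟙 _ := X.δ_comp_σ_succ
  exact ConcreteCategory.congr_hom h x

theorem edge (e : X _⦋1⦌) : Rl (X.δ 0 e) (X.δ 1 e) := by
  refine ⟨Finsupp.single e 1 + Finsupp.single (X.σ 0 (X.δ 1 e)) 1, ?_, ?_⟩
  · rw [dF_add, dF_single, dF_single, δσ0]
  · rw [dF_add, dF_single, dF_single, δσ1, two_eq]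

theorem conn (o : X _⦋0⦌) (h : ∀ m, Rl m o) (z : X _⦋0⦌ →₀ ZMod 2)
    (hz : z.sum (fun _ a => a) = 0) : ∃ w : X _⦋1⦌ →₀ ZMod 2, dF 0 w = z ∧ dF 1 w = 0 := by
  have key : ∀ z : X _⦋0⦌ →₀ ZMod 2, ∃ w : X _⦋1⦌ →₀ ZMod 2,
      dF 0 w = z + Finsupp.single o (z.sum (fun _ a => a)) ∧ dF 1 w = 0 := by
    intro z
    induction z using Finsupp.induction_linear with
    | zero => exact ⟨0, by simp [dF_zero], dF_zero 1⟩
    | add f g hf hg =>
      obtain ⟨w, h0, h1⟩ := hf
      obtain ⟨w', h0', h1'⟩ := hg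
      refine ⟨w + w', ?_, by rw [dF_add, h1, h1', add_zero]⟩
      rw [dF_add, h0, h0', Finsupp.sum_add_index' (fun _ => rfl) (fun _ _ _ => rfl),
        Finsupp.single_add]
      abel
    | single m a =>
      rw [Finsupp.sum_single_index rfl]
      have ha : a = 0 ∨ a = 1 := by
        revert a
        decide
      rcases ha with rfl | rfl
      · exact ⟨0, by simp [dF_zero], dF_zero 1⟩
      · exact h m
  obtain ⟨w, h0, h1⟩ := key z
  refine ⟨w, ?_, h1⟩
  rw [h0, hz, Finsupp.single_zero, add_zero]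

end zero

/-! ### The monoid structure -/

section monoid

variable {A : Type} [AddCommMonoid A] {A₀ : AddSubmonoid A} {X : SSet.{0}} {Y W Z : X.Subcomplex}

/-- the simplices of `FM`, as a submonoid -/
def Sb (A₀ : AddSubmonoid A) (Y W Z : X.Subcomplex) (n : SimplexCategoryᵒᵖ) :
    AddSubmonoid (X.obj n →₀ A) where
  carrier := {f | (∀ x, f x ≠ 0 → x ∈ W.obj n ∧ x ∉ Z.obj n) ∧ ∀ x, x ∉ Y.obj n → f x ∈ A₀}
  zero_mem' := ⟨fun _ hx => absurd rfl hx, fun _ _ => A₀.zero_mem⟩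
  add_mem' := by
    rintro f g ⟨hf, hf'⟩ ⟨hg, hg'⟩
    refine ⟨fun x hx => ?_, fun x hx => A₀.add_mem (hf' x hx) (hg' x hx)⟩
    by_cases h : f x = 0
    · refine hg x fun h' => hx ?_
      rw [Finsupp.add_apply, h, h', add_zero]
    · exact hf x h

/-- the addition -/
noncomputable instance inst (n : SimplexCategoryᵒᵖ) : AddCommMonoid ((FM A A₀ Y W Z).obj n) :=
  inferInstanceAs (AddCommMonoid (Sb A₀ Y W Z n))

theorem add_fn {n : SimplexCategoryᵒᵖ} (f g : (FM A A₀ Y W Z).obj n) :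
    FM.fn (f + g) = FM.fn f + FM.fn g := rfl

theorem zero_fn {n : SimplexCategoryᵒᵖ} :
    FM.fn (0 : (FM A A₀ Y W Z).obj n) = 0 := rfl

theorem fn_inj {n : SimplexCategoryᵒᵖ} {f g : (FM A A₀ Y W Z).obj n}
    (h : FM.fn f = FM.fn g) : f = g := Subtype.ext h

theorem map_add {n m : SimplexCategoryᵒᵖ} (θ : n ⟶ m) (f g : (FM A A₀ Y W Z).obj n) :
    (FM A A₀ Y W Z).map θ (f + g) = (FM A A₀ Y W Z).map θ f + (FM A A₀ Y W Z).map θ g := by
  classical
  refine fn_inj ?_
  show ((FM.fn f + FM.fn g).mapDomain (X.map θ)).filter (fun x => x ∉ Z.obj m) =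
    ((FM.fn f).mapDomain (X.map θ)).filter (fun x => x ∉ Z.obj m) +
        ((FM.fn g).mapDomain (X.map θ)).filter (fun x => x ∉ Z.obj m)
  rw [Finsupp.mapDomain_add, Finsupp.filter_add]

open scoped Classical in
/-- the function with one value -/
noncomputable def sg (n : SimplexCategoryᵒᵖ) (x : X.obj n) (hx : x ∈ W.obj n) (q : A) :
    (FM A A₀ W W Z).obj n :=
  ⟨(Finsupp.single x q).filter (fun x => x ∉ Z.obj n), by
    refine ⟨fun y hy => ?_, fun y hy => ?_⟩
    · rw [Finsupp.filter_apply] at hy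
      by_cases h : y ∉ Z.obj n
      · rw [if_pos h, Finsupp.single_apply] at hy
        split_ifs at hy with h'
        · rw [← h'] at h ⊢
          exact ⟨hx, h⟩
        · exact absurd rfl hy
      · rw [if_neg h] at hy
        exact absurd rfl hy
    · rw [Finsupp.filter_apply]
      by_cases h : y ∉ Z.obj n
      · rw [if_pos h, Finsupp.single_apply]
        split_ifs with h'
        · rw [← h'] at hy
          exact absurd hx hy
        · exact A₀.zero_mem
      · rw [if_neg h]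
        exact A₀.zero_mem⟩

theorem sg_map {n m : SimplexCategoryᵒᵖ} (θ : n ⟶ m) (x : X.obj n) (hx : x ∈ W.obj n) (q : A)
    (y : X.obj m) (hy : X.map θ x = y) :
    (FM A A₀ W W Z).map θ (sg n x hx q) = sg m y (by rw [← hy]; exact W.map θ hx) q := by
  classical
  subst hy
  refine fn_inj ?_
  show (((Finsupp.single x q).filter (fun x => x ∉ Z.obj n)).mapDomain (X.map θ)).filter
      (fun x => x ∉ Z.obj m) = (Finsupp.single (X.map θ x) q).filter (fun x => x ∉ Z.obj m)
  rw [FM_filter, Finsupp.mapDomain_single]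

theorem sg_zero {n : SimplexCategoryᵒᵖ} (x : X.obj n) (hx : x ∈ W.obj n) (hz : x ∈ Z.obj n)
    (q : A) : (sg n x hx q : (FM A A₀ W W Z).obj n) = 0 := by
  classical
  refine fn_inj ?_
  show (Finsupp.single x q).filter (fun x => x ∉ Z.obj n) = 0
  exact Finsupp.filter_single_of_neg _ (not_not.2 hz)

theorem sg_fn {n : SimplexCategoryᵒᵖ} (x : X.obj n) (hx : x ∈ W.obj n) (hz : x ∉ Z.obj n)
    (q : A) : FM.fn (sg n x hx q : (FM A A₀ W W Z).obj n) = Finsupp.single x q := by
  classical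
  show (Finsupp.single x q).filter (fun x => x ∉ Z.obj n) = _
  exact Finsupp.filter_single_of_pos _ hz

end monoid

/-! ### The dyadic coefficients on the circle -/

/-- half of a dyadic number -/
def half (q : Qd) : Qd := ⟨(q : ℚ) / 2, by
  obtain ⟨hq, k, m, h⟩ := q.2
  refine ⟨div_nonneg hq (by norm_num), k + 1, m, ?_⟩
  rw [← h]
  ring⟩

theorem half_zero : half 0 = 0 := by
  apply Subtype.ext
  show (0 : ℚ) / 2 = 0
  norm_num

theorem half_add (q : Qd) : half q + half q = q := by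
  apply Subtype.ext
  show (q : ℚ) / 2 + (q : ℚ) / 2 = q
  ring

theorem add_self_inj {p q : Qd} (h : p + p = q + q) : p = q := by
  apply Subtype.ext
  have h' : (p : ℚ) + p = q + q := congrArg Subtype.val h
  linarith

/-- the simplicial set -/
noncomputable abbrev CX : SSet.{0} := FM Qd Nd (NOs US) (NOs US) (NOs UZ)

theorem bij (n : SimplexCategoryᵒᵖ) : Function.Bijective (fun x : CX.obj n => x + x) := by
  constructor
  · intro f g h
    have h' : FM.fn f + FM.fn f = FM.fn g + FM.fn g := congrArg FM.fn h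
    refine fn_inj (Finsupp.ext fun x => ?_)
    exact add_self_inj (DFunLike.congr_fun h' x)
  · intro g
    refine ⟨⟨(FM.fn g).mapRange half half_zero, fun x hx => ?_, fun x hx => ?_⟩, ?_⟩
    · rw [Finsupp.mapRange_apply] at hx
      refine g.2.1 x fun h => hx ?_
      show half (g.1 x) = 0
      rw [h, half_zero]
    · rw [Finsupp.mapRange_apply]
      have h : g.1 x = 0 := by
        by_contra h
        exact hx (g.2.1 x h).1
      show half (g.1 x) ∈ Nd
      rw [h, half_zero]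
      exact Nd.zero_mem
    · refine fn_inj (Finsupp.ext fun x => ?_)
      exact half_add (FM.fn g x)

/-- the vertices of the nerve -/
def cst (v : Sph 2) : (NO (Sph 2)).obj (op ⦋0⦌) := (OrderHom.const _ v : Fin (0 + 1) →o Sph 2)

theorem eq_cst (x : (NO (Sph 2)).obj (op ⦋0⦌)) : ∃ v, x = cst v := by
  refine ⟨(show Fin (0 + 1) →o Sph 2 from x) 0, ?_⟩
  refine OrderHom.ext (α := Fin (0 + 1)) _ _ (funext fun i => ?_)
  have hi : i = (0 : Fin 1) := Subsingleton.elim (α := Fin 1) _ _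
  subst hi
  rfl

/-- the edges of the nerve -/
def ed (a b : Sph 2) (h : a ≤ b) : (NO (Sph 2)).obj (op ⦋1⦌) :=
  (⟨fun i => if i = 0 then a else b, by
    intro i j hij
    show (if i = 0 then a else b) ≤ (if j = 0 then a else b)
    by_cases h1 : i = 0
    · rw [if_pos h1]
      split_ifs
      · exact le_refl a
      · exact h
    · have h2 : j ≠ 0 := by
        rintro rfl
        exact h1 (le_antisymm hij (Fin.zero_le i))
      rw [if_neg h1, if_neg h2]⟩ : Fin (1 + 1) →o Sph 2)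

theorem δ0_ed (a b : Sph 2) (h : a ≤ b) : (NO (Sph 2)).δ (0 : Fin 2) (ed a b h) = cst b := by
  refine OrderHom.ext (α := Fin (0 + 1)) _ _ (funext fun i => ?_)
  show (if (SimplexCategory.δ (0 : Fin 2)).toOrderHom i = 0 then a else b) = b
  have : (SimplexCategory.δ (0 : Fin 2)).toOrderHom i ≠ 0 := by
    have hi : i = (0 : Fin 1) := Subsingleton.elim (α := Fin 1) _ _
    subst hi
    decide
  rw [if_neg this]

theorem δ1_ed (a b : Sph 2) (h : a ≤ b) : (NO (Sph 2)).δ (1 : Fin 2) (ed a b h) = cst a := by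
  refine OrderHom.ext (α := Fin (0 + 1)) _ _ (funext fun i => ?_)
  show (if (SimplexCategory.δ (1 : Fin 2)).toOrderHom i = 0 then a else b) = a
  have : (SimplexCategory.δ (1 : Fin 2)).toOrderHom i = 0 := by
    have hi : i = (0 : Fin 1) := Subsingleton.elim (α := Fin 1) _ _
    subst hi
    decide
  rw [if_pos this]

theorem cst_mem {U : Set (Sph 2)} {v : Sph 2} : cst v ∈ (NOs U).obj (op ⦋0⦌) ↔ v ∈ U :=
  ⟨fun h => h 0, fun h _ => h⟩

theorem ed_mem {U : Set (Sph 2)} {a b : Sph 2} (h : a ≤ b) (ha : a ∈ U) (hb : b ∈ U) :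
    ed a b h ∈ (NOs U).obj (op ⦋1⦌) := by
  intro i
  show (if i = 0 then a else b) ∈ U
  split_ifs
  · exact ha
  · exact hb

/-- an edge between two vertices of `CX` -/
theorem step (m : CX _⦋0⦌) (a b : Sph 2) (h : a ≤ b) (ha : a ∈ US) (hb : b ∈ US) (q : Qd) :
    Rl (m + sg (op ⦋0⦌) (cst b) (cst_mem.2 hb) q) (m + sg (op ⦋0⦌) (cst a) (cst_mem.2 ha) q) := by
  have e := edge (CX.σ 0 m + sg (op ⦋1⦌) (ed a b h) (ed_mem h ha hb) q : CX _⦋1⦌)
  have e0 : CX.δ 0 (CX.σ 0 m + sg (op ⦋1⦌) (ed a b h) (ed_mem h ha hb) q : CX _⦋1⦌) =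
      m + sg (op ⦋0⦌) (cst b) (cst_mem.2 hb) q := by
    refine (map_add _ _ _).trans ?_
    congr 1
    · exact δσ0 m
    · exact sg_map _ _ _ _ _ (δ0_ed a b h)
  have e1 : CX.δ 1 (CX.σ 0 m + sg (op ⦋1⦌) (ed a b h) (ed_mem h ha hb) q : CX _⦋1⦌) =
      m + sg (op ⦋0⦌) (cst a) (cst_mem.2 ha) q := by
    refine (map_add _ _ _).trans ?_
    congr 1
    · exact δσ1 m
    · exact sg_map _ _ _ _ _ (δ1_ed a b h)
  rw [e0, e1] at e
  exact e

theorem zero_US : (0 : Sph 2) ∈ US := by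
  show (0 : Sph 2).lev ≠ Fin.last 2
  decide

theorem step1 (m : CX _⦋0⦌) (s : Bool) (hs : (⟨1, s⟩ : Sph 2) ∈ US) (q : Qd) :
    Rl (m + sg (op ⦋0⦌) (cst ⟨1, s⟩) (cst_mem.2 hs) q) m := by
  have e := step m 0 ⟨1, s⟩ (Or.inl (by show (0 : Fin 3) < 1; decide)) zero_US hs q
  have hz : cst 0 ∈ (NOs UZ).obj (op ⦋0⦌) := cst_mem.2 rfl
  rw [sg_zero (cst 0) (cst_mem.2 zero_US) hz q, add_zero] at e
  exact e

theorem lev_cases : ∀ l : Fin 3, l ≠ Fin.last 2 → l = 0 ∨ l = 1 := by decide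

theorem step2 (m : CX _⦋0⦌) (v : Sph 2) (hv : v ∈ US) (q : Qd) :
    Rl (m + sg (op ⦋0⦌) (cst v) (cst_mem.2 hv) q) m := by
  have h1 : (⟨1, false⟩ : Sph 2) ∈ US := by
    show (1 : Fin 3) ≠ Fin.last 2
    decide
  obtain ⟨l, s⟩ := v
  have hl : l ≠ Fin.last 2 := hv
  have hl' : l = 0 ∨ l = 1 := lev_cases l hl
  rcases hl' with rfl | rfl
  · exact (step m ⟨0, s⟩ ⟨1, false⟩ (Or.inl (by show (0 : Fin 3) < 1; decide)) hv h1 q).symm.trans
      (step1 m false h1 q)
  · exact step1 m s hv q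

theorem all_zero (m : CX _⦋0⦌) : Rl m 0 := by
  classical
  have key : ∀ (f : (NO (Sph 2)).obj (op ⦋0⦌) →₀ Qd) (m : CX _⦋0⦌), FM.fn m = f → Rl m 0 := by
    intro f
    induction f using Finsupp.induction with
    | zero =>
      intro m hm
      have : m = 0 := fn_inj hm
      rw [this]
      exact Rl.refl 0
    | single_add a b f ha hb ih =>
      intro m hm
      have hfa : f a = 0 := Finsupp.notMem_support_iff.1 ha
      have hma : m.1 a ≠ 0 := by
        show FM.fn m a ≠ 0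
        rw [hm, Finsupp.add_apply, hfa, Finsupp.single_eq_same, add_zero]
        exact hb
      obtain ⟨haW, haZ⟩ := m.2.1 a hma
      have hf : ∀ x, f x ≠ 0 → m.1 x ≠ 0 := by
        intro x hx
        have hxa : x ≠ a := fun h => hx (by rw [h, hfa])
        show FM.fn m x ≠ 0
        rw [hm, Finsupp.add_apply, Finsupp.single_eq_of_ne hxa, zero_add]
        exact hx
      let g : CX _⦋0⦌ := ⟨f, fun x hx => m.2.1 x (hf x hx), fun x hx => by
        have : f x = 0 := by
          by_contra h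
          exact hx (m.2.1 x (hf x h)).1
        rw [this]
        exact Nd.zero_mem⟩
      obtain ⟨v, rfl⟩ := eq_cst a
      have hv : v ∈ US := cst_mem.1 haW
      have hmg : m = g + sg (op ⦋0⦌) (cst v) (cst_mem.2 hv) b := by
        refine fn_inj ?_
        rw [add_fn, sg_fn _ _ haZ, hm, add_comm]
        rfl
      rw [hmg]
      exact (step2 g v hv b).trans (ih g rfl)
  exact key _ m rfl

end NQy

open NQy in
/-- (F10) the dyadic coefficients on the circle. -/
theorem n_qy (h : N_UD_Stmt) : N_QY_Stmt where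
  ne := ⟨(0 : CX _⦋0⦌)⟩
  zero := fun z hz => conn 0 all_zero z hz
  succ := h CX (fun n => inst n) (fun _ _ θ x y => NQy.map_add θ x y) bij

end Pool.Agent.SH
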