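import Pool.Agent.SH.DefsI

/-!
# MP_2d0b73_an: statements of part I and the interface to part II

Part I: `Ext X (LL (Sph 2)) → DBound X 3`.  Part II: a compactum `X` with `Ext X (LL (Sph 2))` which
is infinite-dimensional.
-/

set_option autoImplicit false

open Set Topology

namespace Pool.Agent.SH

/-! ### Part I, tools for realizations -/

/-- The `ε`-neighbourhood of the realization, in the coordinates of `Q`. -/
def NB {P : Type} [PartialOrder P] (Q : Finset P) (ε : ℝ) : Set (P → ℝ) :=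
  {p | ∃ p' ∈ Rz Q, ∀ a ∈ Q, |p a - p' a| < ε}

/-- RET: neighbourhood retraction. -/
def Stmt_RET : Prop := ∀ (P : Type) [PartialOrder P] (Q : Finset P), ∃ ε : ℝ, 0 < ε ∧
  ∃ r : (P → ℝ) → P → ℝ, ContinuousOn r (NB Q ε) ∧ (∀ p ∈ NB Q ε, r p ∈ Rz Q) ∧
    (∀ p ∈ Rz Q, r p = p) ∧ ∀ δ : ℝ, 0 < δ → ∃ η : ℝ, 0 < η ∧ η ≤ ε ∧ ∀ p, ∀ p' ∈ Rz Q,
      (∀ a ∈ Q, |p a - p' a| < η) → ∀ a ∈ Q, |r p a - p' a| < δ

/-- HEP: homotopy extension for maps to the realization of a finite poset. -/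
def Stmt_HEP : Prop := ∀ (Z : Type) [TopologicalSpace Z] [CompactSpace Z]
  [TopologicalSpace.MetrizableSpace Z] (P : Type) [PartialOrder P] (Q : Finset P) (A : Set Z)
  (H : Z × Set.Icc (0 : ℝ) 1 → P → ℝ) (g : Z → P → ℝ), IsClosed A → ContinuousOn H (A ×ˢ univ) →
  (∀ z ∈ A ×ˢ univ, H z ∈ Rz Q) → Continuous g → (∀ z, g z ∈ Rz Q) →
  (∀ z ∈ A, g z = H (z, 1)) → ∃ g' : Z → P → ℝ, Continuous g' ∧ (∀ z, g' z ∈ Rz Q) ∧
    ∀ z ∈ A, g' z = H (z, 0)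

/-- CLS: close maps to the realization of a finite poset are homotopic. -/
def Stmt_CLS : Prop := ∀ (P : Type) [PartialOrder P] (Q : Finset P), ∃ ε : ℝ, 0 < ε ∧
  ∀ (Z : Type) [TopologicalSpace Z] (A : Set Z) (f g : Z → P → ℝ), ContinuousOn f A →
  ContinuousOn g A → (∀ z ∈ A, f z ∈ Rz Q) → (∀ z ∈ A, g z ∈ Rz Q) →
  (∀ z ∈ A, ∀ a ∈ Q, |f z a - g z a| < ε) →
  ∃ H : Z × Set.Icc (0 : ℝ) 1 → P → ℝ, ContinuousOn H (A ×ˢ univ) ∧
    (∀ z ∈ A ×ˢ univ, H z ∈ Rz Q) ∧ ∀ z ∈ A, H (z, 0) = f z ∧ H (z, 1) = g z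

/-- FAC: a map whose oscillation on the fibres of a surjection of compacta is small factors
approximately. -/
def Stmt_FAC : Prop := ∀ (P : Type) [PartialOrder P] (Q : Finset P) (ε : ℝ), 0 < ε →
  ∃ η : ℝ, 0 < η ∧ ∀ (A B : Type) [TopologicalSpace A] [CompactSpace A]
  [TopologicalSpace.MetrizableSpace A] [TopologicalSpace B] [CompactSpace B]
  [TopologicalSpace.MetrizableSpace B] (pr : A → B) (f : A → P → ℝ), Continuous pr →
  Function.Surjective pr → Continuous f → (∀ z, f z ∈ Rz Q) →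
  (∀ z z', pr z = pr z' → ∀ a ∈ Q, |f z a - f z' a| < η) →
  ∃ f' : B → P → ℝ, Continuous f' ∧ (∀ b, f' b ∈ Rz Q) ∧
    ∀ z, ∀ a ∈ Q, |f z a - f' (pr z) a| < ε

/-- CON: the realization of a finite poset with a greatest element is an absolute extensor. -/
def Stmt_CON : Prop := ∀ (Z : Type) [TopologicalSpace Z] [CompactSpace Z]
  [TopologicalSpace.MetrizableSpace Z] (P : Type) [PartialOrder P] (Q : Finset P) (t : P)
  (A : Set Z) (f : Z → P → ℝ), t ∈ Q → (∀ a ∈ Q, a ≤ t) → IsClosed A → ContinuousOn f A →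
  (∀ z ∈ A, f z ∈ Rz Q) → ∃ g : Z → P → ℝ, Continuous g ∧ (∀ z, g z ∈ Rz Q) ∧ ∀ z ∈ A, g z = f z

/-! ### Part I, the product theorem -/

/-- BOX: extension over thin slabs. -/
def Stmt_BOX : Prop := ∀ (Z : Type) [TopologicalSpace Z] [CompactSpace Z]
  [TopologicalSpace.MetrizableSpace Z] (P : Type) [PartialOrder P], Ext Z P →
  ∀ (A : Set (Z × Iv)) (Q : Finset P) (κ : Z × Iv → P → ℝ), IsClosed A → ContinuousOn κ A →
  (∀ z ∈ A, κ z ∈ Rz Q) → ∃ η : ℝ, 0 < η ∧ ∀ a b : ℝ, b ≤ a + η → ∃ (Q' : Finset P)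
    (g : Z × Iv → P → ℝ), Q ⊆ Q' ∧ ContinuousOn g {z | a ≤ (z.2 : ℝ) ∧ (z.2 : ℝ) ≤ b} ∧
    (∀ z : Z × Iv, a ≤ (z.2 : ℝ) → (z.2 : ℝ) ≤ b → g z ∈ Rz Q') ∧
    ∀ z ∈ A, a ≤ (z.2 : ℝ) → (z.2 : ℝ) ≤ b → g z = κ z

/-- WALL: a wall which separates `Np` and `Nm` and to which `κ` extends. -/
def Stmt_WALL : Prop := ∀ (Z : Type) [TopologicalSpace Z] [CompactSpace Z]
  [TopologicalSpace.MetrizableSpace Z] (P : Type) [PartialOrder P], Ext Z P →
  ∀ (Np Nm A : Set (Z × Iv)) (Q : Finset P) (κ : Z × Iv → P → ℝ), IsClosed Np → IsClosed Nm →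
  Disjoint Np Nm → IsClosed A → ContinuousOn κ A → (∀ z ∈ A, κ z ∈ Rz Q) →
  ∃ (Bp Bm : Set (Z × Iv)) (Q' : Finset P) (g : Z × Iv → P → ℝ), IsClosed Bp ∧ IsClosed Bm ∧
    Bp ∪ Bm = univ ∧ Disjoint Np Bm ∧ Disjoint Nm Bp ∧ Q ⊆ Q' ∧ ContinuousOn g (Bp ∩ Bm) ∧
    (∀ z ∈ Bp ∩ Bm, g z ∈ Rz Q') ∧ ∀ z ∈ A ∩ (Bp ∩ Bm), g z = κ z

/-- PROD: the product theorem. -/
def Stmt_PROD : Prop := ∀ (Z : Type) [TopologicalSpace Z] [CompactSpace Z]
  [TopologicalSpace.MetrizableSpace Z] (P : Type) [PartialOrder P] [Nonempty P],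
  Ext Z P → Ext (Z × Iv) (SusK P 1)

/-- ITX: the iterated product theorem. -/
def Stmt_ITX : Prop := ∀ (X : Type) [TopologicalSpace X] [CompactSpace X]
  [TopologicalSpace.MetrizableSpace X] (P : Type) [PartialOrder P] [Nonempty P],
  Ext X P → ∀ k : ℕ, Ext ((Fin k → Iv) × X) (SusK P k)

/-! ### Part I, scanning -/

/-- Octahedral coordinates of a point of the sphere. -/
def octa (h : Sph 2 → ℝ) : Fin 3 → ℝ := fun i => h ⟨i, true⟩ - h ⟨i, false⟩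

open Classical in
/-- The point of the realization of `LL` given by a point of the sphere (one particle). -/
noncomputable def push (h : Sph 2 → ℝ) (l : LL (Sph 2)) : ℝ := ∑ s, if LL.one s = l then h s else 0

/-- `- e_0`. -/
def me0 (R : ℕ) : (Fin 3 → ℝ) × (Fin R → ℝ) := (fun i => if i = 0 then -1 else 0, fun _ => 0)

/-- SCAN: the scanning map. -/
def Stmt_SCAN : Prop := ∀ Q : Finset (LL (Sph 2)), ∃ R₀ : ℕ, ∀ R, R₀ ≤ R →
  ∃ s : (LL (Sph 2) → ℝ) × (Fin R → Iv) → (Fin 3 → ℝ) × (Fin R → ℝ),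
    ContinuousOn s (Rz Q ×ˢ univ) ∧ (∀ z ∈ Rz Q ×ˢ univ, s z ≠ 0) ∧
    (∀ h ∈ Rz (Finset.univ : Finset (Sph 2)), push h ∈ Rz Q → ∀ (r : Fin R → Iv) (μ c : ℝ),
      0 ≤ μ → 0 < c → s (push h, r) ≠ -(μ • ((c • octa h, fun i => (r i : ℝ)) :
        (Fin 3 → ℝ) × (Fin R → ℝ)))) ∧
    ∀ g ∈ Rz Q, ∀ r : Fin R → Iv, (∃ i, |(r i : ℝ)| = 1) → s (g, r) = me0 R

/-- HEC: homotopy extension for spheres, non-antipodal form. -/
def Stmt_HEC : Prop := ∀ (N R : ℕ) (Z : Type) [TopologicalSpace Z] [CompactSpace Z]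
  [TopologicalSpace.MetrizableSpace Z] (B : Set Z) (b₀ b₁ : Z → (Fin N → ℝ) × (Fin R → ℝ)),
  IsClosed B → ContinuousOn b₀ B → Continuous b₁ → (∀ z, b₁ z ≠ 0) → (∀ z ∈ B, ‖b₀ z‖ = 1) →
  (∀ z ∈ B, ∀ μ : ℝ, 0 ≤ μ → b₁ z ≠ -(μ • b₀ z)) →
  ∃ w : Z → (Fin N → ℝ) × (Fin R → ℝ), Continuous w ∧ (∀ z, ‖w z‖ = 1) ∧ ∀ z ∈ B, w z = b₀ z

/-- STI: stable inessentiality from the extension property. -/
def Stmt_STI : Prop := ∀ (X : Type) [TopologicalSpace X] [CompactSpace X]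
  [TopologicalSpace.MetrizableSpace X], (∀ k, Ext ((Fin k → Iv) × X) (SusK (LL (Sph 2)) k)) →
  StInes X 2

/-! ### Part I, compression and iteration -/

/-- SKE: compression by downward induction over the skeleta. -/
def Stmt_SKE : Prop := ∀ (X : Type) [TopologicalSpace X] [CompactSpace X]
  [TopologicalSpace.MetrizableSpace X] (c : ℕ), StInes X c → StSkel X c

/-- ITR: the recursion for the covers of `X^n`. -/
def Stmt_ITR : Prop := ∀ (X : Type) [TopologicalSpace X] [CompactSpace X]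
  [TopologicalSpace.MetrizableSpace X] (c : ℕ), StSkel X c → DBound X (c + 1)

/-- The theorem of part I. -/
def Stmt_PARTI : Prop := ∀ (X : Type) [TopologicalSpace X] [CompactSpace X]
  [TopologicalSpace.MetrizableSpace X], Ext X (LL (Sph 2)) → DBound X 3

/-! ### Part II -/

/-- The theorem of part II (it uses part III): the compactum. -/
def Stmt_CPT : Prop := ∃ (X : Type) (_ : TopologicalSpace X) (_ : CompactSpace X)
  (_ : TopologicalSpace.MetrizableSpace X), Ext X (LL (Sph 2)) ∧ ∀ n, ¬ DimLE X n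

end Pool.Agent.SH
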