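import Pool.Agent.SH.StmtsII
import Pool.Agent.SH.StmtsI
import Pool.Agent.SH.StmtsT

noncomputable section

namespace Pool.Agent.SH

theorem PARTII (h1 : Stmt_GXM) (h2 : Stmt_GWE) : Stmt_PARTII := by
  intro L _ _ _ hE
  have h3 : ∀ M : ℕ, ∃ (X : Type) (_ : TopologicalSpace X), CompactSpace X ∧
      TopologicalSpace.MetrizableSpace X ∧ Ext X L ∧ BigCov X M := by
    intro M
    obtain ⟨X, _, hc, hm, he, hb⟩ := h1 (M + 3) L (hE (M + 3) (by omega)).some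
    refine ⟨X, inferInstance, hc, hm, he, ?_⟩
    obtain ⟨ι, hι, U, hU, hcov, hV⟩ := hb
    refine ⟨ι, hι, U, hU, hcov, ?_⟩
    intro κ _ V hVo hVc hVr
    obtain ⟨x, hx⟩ := hV κ V hVo hVc hVr
    exact ⟨x, by omega⟩
  choose X hT hc hm he hb using h3
  obtain ⟨K, _, hKc, hKm, hKe, hKb⟩ := h2 L X hc hm he hb
  refine ⟨K, inferInstance, hKc, hKm, hKe, ?_⟩
  intro n hn
  obtain ⟨ι, hι, U, hU, hcov, hV⟩ := hKb (n + 1)
  obtain ⟨κ, hκ, W, hWo, hWc, hWr, hWn⟩ := hn ι U hU hcov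
  obtain ⟨x, hx⟩ := hV κ W hWo hWc hWr
  have := hWn x
  omega

instance : Countable (Sph 2) := inferInstance

theorem countable_LL : Countable (LL (Sph 2)) := by
  have h : Function.Injective (fun x : LL (Sph 2) => (x.J, x.C)) := by
    intro x y hxy
    simp only [Prod.mk.injEq] at hxy
    exact LL.ext' hxy.1 hxy.2
  exact h.countable

theorem CPT (h1 : Stmt_PARTII) (h2 : Stmt_BRIDGE) (h3 : Stmt_PARTIII) : Stmt_CPT := by
  have := countable_LL
  have : Nonempty (LL (Sph 2)) := ⟨LL.one 0⟩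
  obtain ⟨K, i1, i2, i3, hE, hD⟩ := h1 (LL (Sph 2)) (by
    intro M hM
    obtain ⟨T, e, hK, hC, hA, he⟩ := h3 M hM
    exact h2 M (LL (Sph 2)) T e hK hC hA he)
  exact ⟨K, i1, i2, i3, hE, hD⟩

end Pool.Agent.SH
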