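import Pool.Agent.SH.DefsR
import Pool.Agent.SH.StmtsI

/-!
# MP_2d0b73_an: from `DBound K c` to `mdim (K^G) ≤ c`
-/

set_option autoImplicit false

open Set Topology Filter

namespace Pool.Agent.SH

/-- LEB: reduction of a cover of the full shift to a cover of the alphabet. -/
def Stmt_LEB : Prop := ∀ (K : Type) [TopologicalSpace K] [CompactSpace K]
  [TopologicalSpace.MetrizableSpace K] [Nonempty K] (G : Type) [Group G]
  (ρ : FullShift G K → FullShift G K → ℝ) (U : Set (Set (FullShift G K))), IsCompatMetric ρ →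
  IsFCover U → ∃ (F : Finset G) (ι : Type) (_ : Finite ι) (V : ι → Set K) (τ : ℝ), 0 < τ ∧
    (∀ i, IsOpen (V i)) ∧ (∀ k, ∃ i, k ∈ V i) ∧ ∀ c : G → ι, ∃ u ∈ U, ∀ x : FullShift G K,
      (∀ s ∈ F, ∃ y : FullShift G K, ρ y (s • x) < 2 * τ ∧ y 1 ∈ V (c s)) → x ∈ u

/-- BAD: few bad vertices. -/
def Stmt_BAD : Prop := ∀ (X G : Type) [Group G] [MulAction G X] (ρ : X → X → ℝ) (F : Finset G)
  (δ τ : ℝ) (d : ℕ) (σ : G → Equiv.Perm (Fin d)), (∀ x y, 0 ≤ ρ x y) → 0 < δ → 0 < τ →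
  ∀ φ ∈ SMap ρ F δ σ,
    ({v | τ < ∑ s ∈ F, ρ (φ (σ s v)) (s • φ v)}.ncard : ℝ) ≤ F.card * δ / τ * d

/-- MAPD: the bound for one map `σ`. -/
def Stmt_MAPD : Prop := ∀ (K : Type) [TopologicalSpace K] [CompactSpace K]
  [TopologicalSpace.MetrizableSpace K] [Nonempty K] (G : Type) [Group G]
  (ρ : FullShift G K → FullShift G K → ℝ) (U : Set (Set (FullShift G K))), IsCompatMetric ρ →
  IsFCover U → ∀ (F : Finset G) (ι : Type) [Finite ι] (V : ι → Set K) (τ : ℝ), 0 < τ →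
  (∀ c : G → ι, ∃ u ∈ U, ∀ x : FullShift G K,
    (∀ s ∈ F, ∃ y : FullShift G K, ρ y (s • x) < 2 * τ ∧ y 1 ∈ V (c s)) → x ∈ u) →
  ∀ (δ : ℝ) (d N b : ℕ) (σ : G → Equiv.Perm (Fin d)), 0 < δ →
  (∀ φ ∈ SMap ρ F δ σ, {v | τ < ∑ s ∈ F, ρ (φ (σ s v)) (s • φ v)}.ncard ≤ b) →
  (∃ (κ : Type) (_ : Finite κ) (W : κ → Set (Fin d → K)), (∀ a, IsOpen (W a)) ∧
    (∀ x, ∃ a, x ∈ W a) ∧ (∀ a, ∃ i : Fin d → ι, ∀ x ∈ W a, ∀ j, x j ∈ V (i j)) ∧
    ∀ x, {a | x ∈ W a}.ncard ≤ N) →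
  DD (SMap ρ F δ σ) (powCover U d) ≤ (((N : ℝ) + b * (U.ncard + 1) : ℝ) : EReal)

/-- FIN: the upper bound for sofic mean dimension. -/
def Stmt_FIN : Prop := ∀ (K : Type) [TopologicalSpace K] [CompactSpace K]
  [TopologicalSpace.MetrizableSpace K] [Nonempty K] (c : ℕ), DBound K c →
  ∀ (G : Type) [Group G] (S : SoficSeq G) (ρ : FullShift G K → FullShift G K → ℝ),
    IsCompatMetric ρ → mdim ρ S ≤ ((c : ℝ) : EReal)

/-- The theorem: there is an infinite-dimensional compact metrizable `K` such that the sofic mean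
dimension of `K^G` is at most `3` for all countable sofic groups `G` and all sofic approximation
sequences. -/
def Stmt_MAIN : Prop := (∃ (K : Type) (_ : TopologicalSpace K) (_ : CompactSpace K)
    (_ : TopologicalSpace.MetrizableSpace K), InfDim K ∧
    ∀ (G : Type) [Group G] (S : SoficSeq G) (ρ : FullShift G K → FullShift G K → ℝ),
      IsCompatMetric ρ → mdim ρ S ≤ ((3 : ℝ) : EReal)) ∧ ¬ Q1

end Pool.Agent.SH
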