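import Pool.Agent.SH.TTFinal
import Pool.Agent.SH.L.AllL
import Pool.Agent.SH.L.XTrans
import Pool.Agent.SH.L.XPoly
import Pool.Agent.SH.S.AllV
import Pool.Agent.SH.Q.All

/-!
# MP_2d0b73_an, block III-T: `Stmt_EX` and `Stmt_TT` without hypotheses
-/

set_option autoImplicit false

namespace Pool.Agent.SH.TT

open Pool.Agent in
theorem polyAll (V : SHS.SV) (hV : V.LF) (h0 : ∀ x : V.X 0, x = 0) : SHQ.PolyGen V.toSS := by
  obtain ⟨I, x, hx⟩ := SHS.All.lbe V hV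
  have hmu : ∀ n : ℕ, ∃ μ : Multiset ℕ → SHS.H (SHS.EM n).toSS, 1 ≤ n → SHS.MuFam n μ := by
    intro n
    by_cases hn : 1 ≤ n
    · obtain ⟨μ, hμ⟩ := SHS.All.mu n hn
      exact ⟨μ, fun _ => hμ⟩
    · exact ⟨fun _ => 0, fun h => absurd h hn⟩
  choose μ hμ using hmu
  exact SHL.polyGen_conv (SHS.All.poly V hV h0 x hx μ hμ)

/-- The algebraic input. -/
theorem stmtEX : Stmt_EX :=
  SHL.stmt_EX_of_link SHL.All.link_all polyAll (SHQ.fin_all (ZMod 2))

/-- Block III-T. -/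
theorem tt : Stmt_TT := ttFinal stmtEX

end Pool.Agent.SH.TT

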