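import Pool.Agent.SH.StmtsV
import Pool.Agent.SH.ASM3

/-!
# MP_2d0b73_an, block III-T: assembly
-/

set_option autoImplicit false

open CategoryTheory MonoidalCategory CartesianMonoidalCategory Simplicial Opposite

noncomputable section

namespace Pool.Agent.SH.TT

/-- A Boolean as an element of `Z/2`. -/
def b2 (b : Bool) : ZMod 2 := if b then 1 else 0

theorem b2_add_cases (a b c : Bool) : (b2 a + b2 b) + (b2 b + b2 c) = b2 a + b2 c := by
  revert a b c
  decide

/-- The map `EE Bool ⟶ BZ`. -/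
def eeBZ : EE Bool ⟶ BZ where
  app k := TypeCat.ofHom (fun (x : Fin (k.unop.len + 1) → Bool) =>
    ⟨fun i j => b2 (x i) + b2 (x j), fun _ _ _ => b2_add_cases _ _ _⟩)
  naturality _ _ _ := rfl

theorem eeBZ_apply (k : Dop) (x : Fin (k.unop.len + 1) → Bool) :
    ((eeBZ.app k x : BZ.obj k)).1 = fun i j => b2 (x i) + b2 (x j) := rfl

theorem eeBZ_surj (k : Dop) : Function.Surjective (eeBZ.app k) := by
  rintro ⟨c, hc⟩
  refine ⟨fun i => decide (c 0 i = 1), ?_⟩
  apply Subtype.ext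
  rw [eeBZ_apply]
  funext i j
  show b2 (decide (c 0 i = 1)) + b2 (decide (c 0 j = 1)) = c i j
  have h00 : c 0 0 = 0 := by
    have := hc 0 0 0
    generalize c 0 0 = a at this
    revert a
    decide
  have h1 := hc 0 i j
  have h2 : ∀ a : ZMod 2, b2 (decide (a = 1)) = a := by decide
  rw [h2, h2, ← h1]
  have h3 : ∀ a b : ZMod 2, a + (a + b) = b := by decide
  exact h3 _ _

theorem eeBZ_fib (k : Dop) (x y : Fin (k.unop.len + 1) → Bool) :
    eeBZ.app k x = eeBZ.app k y ↔ y = x ∨ y = fun i => !(x i) := by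
  constructor
  · intro h
    have h1 : (fun i j => b2 (x i) + b2 (x j)) = fun i j => b2 (y i) + b2 (y j) := by
      have := congrArg (fun c : BZ.obj k => c.1) h
      exact this
    have h2 : ∀ i j, b2 (x i) + b2 (x j) = b2 (y i) + b2 (y j) := fun i j =>
      congrFun (congrFun h1 i) j
    have key : ∀ a b c d : Bool, b2 a + b2 b = b2 c + b2 d → c = a → d = b := by decide
    have key2 : ∀ a b c d : Bool, b2 a + b2 b = b2 c + b2 d → c = !a → d = !b := by decide
    have hd : ∀ a b : Bool, a = b ∨ a = !b := by decide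
    rcases hd (y 0) (x 0) with h0 | h0
    · left
      funext j
      exact key _ _ _ _ (h2 0 j) h0
    · right
      funext j
      exact key2 _ _ _ _ (h2 0 j) h0
  · rintro (rfl | rfl)
    · rfl
    · apply Subtype.ext
      rw [eeBZ_apply, eeBZ_apply]
      funext i j
      have : ∀ a b : Bool, b2 a + b2 b = b2 (!a) + b2 (!b) := by decide
      exact this _ _

theorem bInput_of_BZ (P : MorphismProperty SSet.{0}) (hiso : ∀ {X Y : SSet.{0}} (f : X ⟶ Y),
    IsIso f → P f) (hcomp : ∀ {X Y Z : SSet.{0}} (f : X ⟶ Y) (g : Y ⟶ Z), P f → P g → P (f ≫ g))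
    (h : P (toUnit BZ)) : BInput P := by
  intro V q hq hf
  have hcl : ∀ (k : Dop) (v : V.obj k), ∃ x, q.app k x = v := fun k v => hq k v
  choose s hs using hcl
  have hind : ∀ (k : Dop) (x y : (EE Bool).obj k), q.app k x = q.app k y →
      eeBZ.app k x = eeBZ.app k y := by
    intro k x y hxy
    exact (eeBZ_fib k x y).2 ((hf k x y).1 hxy)
  let φ : V ⟶ BZ :=
    { app := fun k => TypeCat.ofHom (fun v => eeBZ.app k (s k v))
      naturality := by
        intro k l α
        ext v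
        show eeBZ.app l (s l (V.map α v)) = BZ.map α (eeBZ.app k (s k v))
        have h1 : BZ.map α (eeBZ.app k (s k v)) = eeBZ.app l ((EE Bool).map α (s k v)) := by
          exact (NatTrans.naturality_apply eeBZ α (s k v)).symm
        rw [h1]
        apply hind
        rw [hs]
        have h2 := NatTrans.naturality_apply q α (s k v)
        rw [h2, hs] }
  have hφ : IsIso φ := by
    rw [NatTrans.isIso_iff_isIso_app]
    intro k
    rw [isIso_iff_bijective]
    constructor
    · intro v w hvw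
      have h1 := (eeBZ_fib k (s k v) (s k w)).1 hvw
      have h2 := (hf k (s k v) (s k w)).2 h1
      rw [hs, hs] at h2
      exact h2
    · intro c
      obtain ⟨x, hx⟩ := eeBZ_surj k c
      refine ⟨q.app k x, ?_⟩
      show eeBZ.app k (s k (q.app k x)) = c
      rw [← hx]
      apply hind
      rw [hs]
  have h3 : toUnit V = φ ≫ toUnit BZ := toUnit_unique _ _
  show P (toUnit V)
  rw [h3]
  exact hcomp _ _ (hiso _ hφ) h

/-- The assembly of block III-T. -/
theorem TTASM (hPP : Stmt_PP) (hHORN : Stmt_HORN) (hSV1 : Stmt_SV1)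
    (hREP : Stmt_REP) (hSE : Stmt_SE) (hTOTX : Stmt_TOTX) (hOMX : Stmt_OMX) (hXPM : Stmt_XPM)
    (hTOTC : Stmt_TOTC) (hOMC : Stmt_OMC) (hMB : Stmt_MB) (hCONE : Stmt_CONE)
    (hHADD : Stmt_HADD) (hCONP : Stmt_CONP) (hTR : Stmt_TR) (hNUL : Stmt_NUL) (hOMW : Stmt_OMW)
    (hFIN : Stmt_FIN) (hESS : Stmt_ESS) (hEX : Stmt_EX)
    (h1 : TE_F2_Stmt) (hBD : TE_BDRY_Stmt) (hKE : TE_KEYE_Stmt) (h23 : TE_23_Stmt) : Stmt_TT := by
  intro M hM
  obtain ⟨e, he⟩ := hESS M (by omega)
  have hxp : XP (Tot (XD (M + 1))) := hTOTX hSE hPP hSV1 _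
  have hxo : XP (Target (XD (M + 1))) := hOMX hPP _ _ hxp
  have hL := hXPM _ hxo
  obtain ⟨hK, hF⟩ := h1 _ hL
  refine ⟨Target (XD (M + 1)), e, hL, ?_, ?_, he⟩
  · exact hOMC _ _ (hTOTC _ (fun s k => hFIN (M + 1) s k))
  · obtain ⟨t0, t1⟩ := hTR hMB hCONP hSE hPP hSV1 hHORN
    have hrn : ∀ n : ℕ, 1 ≤ n → RelNull (Tot (XD (M + 1))) (Tot.base _) BZ BZ.b0 n :=
      hNUL hMB hCONE hHADD hREP t1 t0 _ _ _ (hEX (M + 1) (by omega))
    have hb : ∀ (k : Dop) (c : BZ.obj k), c ∈ BZ.b0.obj k ↔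
        c = BZ.map (SimplexCategory.const k.unop ⦋0⦌ 0).op BZ.v := by
      intro k c
      constructor
      · intro h
        apply Subtype.ext
        exact h
      · intro h
        rw [h]
        rfl
    have hr := hOMW hPP hHORN hREP _ _ hxp BZ BZ.v BZ.b0 hb hrn
    have hw : W (Target (XD (M + 1))) (vert BZ.v) := hKE _ hK _ _ _ (hBD _ _ _ _ hr)
    obtain ⟨c1, c2, c3, c4, -⟩ := h23 _ hK
    have hu : IsIso (vert BZ.v ≫ toUnit BZ) := by
      have e : vert BZ.v ≫ toUnit BZ = toUnit Δ[0] := toUnit_unique _ _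
      rw [e]
      exact Limits.isIso_of_isTerminal SSet.stdSimplex.isTerminalObj₀ isTerminalTensorUnit _
    have hw2 : W (Target (XD (M + 1))) (toUnit BZ) := c3 _ _ _ (vert BZ.v) _ hw (c1 _ _ _ hu)
    exact bInput_of_BZ _ (fun f hf => c1 _ _ f hf) (fun f g => c2 _ _ _ f g) hw2

end Pool.Agent.SH.TT
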