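import Mathlib

/-! Additive operations on symmetric powers over `ZMod 2`, evaluated on `B (F_2^d)`.
Part 1: polynomials, linear substitutions, natural operations, the Yoneda lemma. -/

namespace SHU
open MvPolynomial

/-- polynomials in `d` variables over `F_2` (the cohomology of `B (F_2^d)`) -/
abbrev Pl (d : ℕ) := MvPolynomial (Fin d) (ZMod 2)

/-- linear substitution `X_j ↦ ∑ i, L j i X_i` -/
noncomputable def lin {d' d : ℕ} (L : Fin d' → Fin d → ZMod 2) : Pl d' →ₐ[ZMod 2] Pl d :=
  aeval (fun j => ∑ i, C (L j i) * X i)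

theorem lin_X {d' d : ℕ} (L : Fin d' → Fin d → ZMod 2) (j : Fin d') :
    lin L (X j) = ∑ i, C (L j i) * X i := by simp [lin]

theorem rename_eq_lin {d' d : ℕ} (π : Fin d' → Fin d) (x : Pl d') :
    rename π x = lin (fun j i => if π j = i then 1 else 0) x := by
  have : (rename π : Pl d' →ₐ[ZMod 2] Pl d) = lin (fun j i => if π j = i then 1 else 0) := by
    apply MvPolynomial.algHom_ext
    intro j
    rw [lin_X, rename_X, Finset.sum_eq_single (π j)]
    · simp
    · intro b _ hb
      rw [if_neg (fun h => hb h.symm)]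
      simp
    · simp
  rw [this]

/-- the universal product `X_0 ⋯ X_{m-1}` -/
noncomputable def Un (m : ℕ) : Pl m := ∏ i, X i

theorem exists_pi {α : Type*} (m : ℕ) (e : α →₀ ℕ) (h : e.degree = m) :
    ∃ π : Fin m → α, ∑ k, Finsupp.single (π k) 1 = e := by
  classical
  induction m generalizing e with
  | zero =>
    refine ⟨Fin.elim0, ?_⟩
    rw [Finsupp.degree_eq_zero_iff] at h
    simp [h]
  | succ m ih =>
    have hne : e ≠ 0 := by
      rintro rfl
      simp at h
    obtain ⟨i, hi⟩ := Finsupp.ne_iff.mp hne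
    have hi' : 1 ≤ e i := Nat.one_le_iff_ne_zero.mpr (by simpa using hi)
    have hle : Finsupp.single i 1 ≤ e := by
      rw [Finsupp.single_le_iff]
      exact hi'
    have hsplit : Finsupp.single i 1 + (e - Finsupp.single i 1) = e := add_tsub_cancel_of_le hle
    have hd : (e - Finsupp.single i 1).degree = m := by
      have := congrArg Finsupp.degree hsplit
      rw [map_add, h, Finsupp.degree_single] at this
      omega
    obtain ⟨π, hπ⟩ := ih _ hd
    refine ⟨Fin.cons i π, ?_⟩
    rw [Fin.sum_univ_succ]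
    simp only [Fin.cons_zero, Fin.cons_succ]
    rw [hπ, hsplit]

theorem exists_perm {α : Type*} {m : ℕ} (π π' : Fin m → α)
    (h : ∑ k, Finsupp.single (π k) (1 : ℕ) = ∑ k, Finsupp.single (π' k) 1) :
    ∃ σ : Equiv.Perm (Fin m), π' = π ∘ σ := by
  classical
  have hc : ∀ c : α, Nonempty ({a // π' a = c} ≃ {a // π a = c}) := by
    intro c
    rw [← Fintype.card_eq]
    have h1 := DFunLike.congr_fun h c
    rw [Finsupp.finsetSum_apply, Finsupp.finsetSum_apply] at h1
    simp only [Finsupp.single_apply] at h1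
    rw [Fintype.card_subtype, Fintype.card_subtype]
    simpa [Finset.sum_ite] using h1.symm
  refine ⟨Equiv.ofFiberEquiv (fun c => Classical.choice (hc c)), ?_⟩
  funext a
  simp only [Function.comp_apply]
  exact (Equiv.ofFiberEquiv_map _ a).symm

theorem rename_Un {m d : ℕ} (π : Fin m → Fin d) :
    rename π (Un m) = monomial (∑ k, Finsupp.single (π k) 1) (1 : ZMod 2) := by
  rw [Un, map_prod]
  simp only [rename_X]
  rw [monomial_sum_one]
  rfl

/-- natural additive operations `S^m → S^n` -/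
structure IsNP (m n : ℕ) (f : ∀ d, Pl d →ₗ[ZMod 2] Pl d) : Prop where
  nat : ∀ {d' d : ℕ} (L : Fin d' → Fin d → ZMod 2) (x : Pl d'), f d (lin L x) = lin L (f d' x)
  dom : ∀ d x, f d x = f d (homogeneousComponent m x)
  cod : ∀ d x, (f d x).IsHomogeneous n

theorem IsNP.ren {m n : ℕ} {f : ∀ d, Pl d →ₗ[ZMod 2] Pl d} (hf : IsNP m n f) {d' d : ℕ}
    (π : Fin d' → Fin d) (x : Pl d') : f d (rename π x) = rename π (f d' x) := by
  rw [rename_eq_lin, rename_eq_lin, hf.nat]

theorem IsNP.mono {m n : ℕ} {f : ∀ d, Pl d →ₗ[ZMod 2] Pl d} (hf : IsNP m n f) {d : ℕ}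
    (π : Fin m → Fin d) :
    f d (monomial (∑ k, Finsupp.single (π k) 1) (1 : ZMod 2)) = rename π (f m (Un m)) := by
  rw [← rename_Un, hf.ren]

theorem IsNP.ext {m n : ℕ} {f g : ∀ d, Pl d →ₗ[ZMod 2] Pl d} (hf : IsNP m n f) (hg : IsNP m n g)
    (h : f m (Un m) = g m (Un m)) : f = g := by
  classical
  funext d
  refine LinearMap.ext fun x => ?_
  rw [hf.dom, hg.dom, homogeneousComponent_apply, map_sum, map_sum]
  refine Finset.sum_congr rfl fun e he => ?_
  rw [Finset.mem_filter] at he
  obtain ⟨π, hπ⟩ := exists_pi m e he.2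
  have hmon : (monomial e (coeff e x) : Pl d) = (coeff e x) • monomial e (1 : ZMod 2) := by
    rw [smul_monomial, smul_eq_mul, mul_one]
  rw [hmon, map_smul, map_smul, ← hπ, hf.mono, hg.mono, h]

end SHU
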