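import Pool.Agent.SH.UA1

/-! Part 2: every symmetric matrix gives a natural operation (Milnor coaction). -/

namespace SHU
open MvPolynomial

/-- exponent type of a tuple -/
noncomputable def ty {m : ℕ} (a : Fin m → ℕ) : ℕ →₀ ℕ := ∑ i, Finsupp.single (a i) 1

/-- exponent vector `(2^{a_1}, …, 2^{a_m})` -/
noncomputable def xp {m : ℕ} (a : Fin m → ℕ) : Fin m →₀ ℕ := ∑ i, Finsupp.single i (2 ^ (a i))

theorem xp_apply {m : ℕ} (a : Fin m → ℕ) (i : Fin m) : xp a i = 2 ^ (a i) := by
  classical
  rw [xp, Finsupp.finsetSum_apply]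
  simp [Finsupp.single_apply]

theorem xp_degree {m : ℕ} (a : Fin m → ℕ) : (xp a).degree = ∑ i, 2 ^ (a i) := by
  rw [xp, map_sum]
  simp

theorem xp_inj {m : ℕ} {a b : Fin m → ℕ} (h : xp a = xp b) : a = b := by
  funext i
  have := DFunLike.congr_fun h i
  rw [xp_apply, xp_apply] at this
  exact Nat.pow_right_injective (le_refl 2) this

/-- the generating ring map `X_i ↦ ∑ r < N, t_r X_i^(2^r)` -/
noncomputable def Th (N d : ℕ) : Pl d →ₐ[ZMod 2] MvPolynomial ℕ (Pl d) :=
  aeval (fun i => ∑ r ∈ Finset.range N, X r * C (X i ^ (2 ^ r)))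

theorem zmod2_sq (c : ZMod 2) : c ^ 2 = c := by
  revert c
  decide

theorem zmod2_pow (c : ZMod 2) (r : ℕ) : c ^ (2 ^ r) = c := by
  induction r with
  | zero => simp
  | succ r ih => rw [pow_succ, pow_mul, ih, zmod2_sq]

theorem Th_X (N : ℕ) (d : ℕ) (i : Fin d) :
    Th N d (X i) = ∑ r ∈ Finset.range N, X r * C (X i ^ (2 ^ r)) := by
  simp [Th]

theorem Th_C (N : ℕ) (d : ℕ) (c : ZMod 2) : Th N d (C c) = C (C c) := by
  have h1 : (C c : Pl d) = algebraMap (ZMod 2) (Pl d) c := rfl
  rw [h1, AlgHom.commutes]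
  rfl

theorem lin_X_pow {d' d : ℕ} (L : Fin d' → Fin d → ZMod 2) (j : Fin d') (r : ℕ) :
    lin L (X j ^ (2 ^ r)) = ∑ i, C (L j i) * X i ^ (2 ^ r) := by
  rw [map_pow, lin_X]
  have : CharP (Pl d) 2 := inferInstance
  have : ExpChar (Pl d) 2 := ExpChar.prime Nat.prime_two
  rw [sum_pow_char_pow]
  refine Finset.sum_congr rfl fun i _ => ?_
  rw [mul_pow, ← C_pow, zmod2_pow]

theorem Th_lin (N : ℕ) {d' d : ℕ} (L : Fin d' → Fin d → ZMod 2) (x : Pl d') :
    Th N d (lin L x) = mapAlgHom (lin L) (Th N d' x) := by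
  have h : (Th N d).comp (lin L) = (mapAlgHom (lin L)).comp (Th N d') := by
    apply MvPolynomial.algHom_ext
    intro j
    rw [AlgHom.comp_apply, AlgHom.comp_apply, lin_X, Th_X, map_sum, map_sum]
    have h1 : ∀ i, Th N d (C (L j i) * X i) =
        ∑ r ∈ Finset.range N, C (C (L j i)) * (X r * C (X i ^ (2 ^ r))) := by
      intro i
      rw [map_mul, Th_C, Th_X, Finset.mul_sum]
    simp only [h1]
    rw [Finset.sum_comm]
    refine Finset.sum_congr rfl fun r _ => ?_
    rw [map_mul]
    have h2 : mapAlgHom (σ := ℕ) (lin L) (X r) = X r := by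
      simp
    have h3 : mapAlgHom (σ := ℕ) (lin L) (C (X j ^ (2 ^ r))) = C (lin L (X j ^ (2 ^ r))) := by
      simp
    rw [h2, h3, lin_X_pow, map_sum, Finset.mul_sum]
    refine Finset.sum_congr rfl fun i _ => ?_
    rw [C_mul]
    ring
  exact DFunLike.congr_fun h x

theorem coeff_Th_lin (N : ℕ) {d' d : ℕ} (L : Fin d' → Fin d → ZMod 2) (x : Pl d') (M : ℕ →₀ ℕ) :
    coeff M (Th N d (lin L x)) = lin L (coeff M (Th N d' x)) := by
  rw [Th_lin, mapAlgHom_apply]
  exact coeff_map _ _ _

theorem hc_lin (m : ℕ) {d' d : ℕ} (L : Fin d' → Fin d → ZMod 2) (x : Pl d') :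
    homogeneousComponent m (lin L x) = lin L (homogeneousComponent m x) := by
  have key : ∀ (i : ℕ) (y : Pl d'), y.IsHomogeneous i → (lin L y).IsHomogeneous i := by
    intro i y hy
    have := hy.aeval (S := ZMod 2) (fun j => ∑ i, C (L j i) * X i) (n := 1) (fun j => by
      apply IsHomogeneous.sum
      intro i _
      exact isHomogeneous_C_mul_X _ _)
    simpa [lin] using this
  conv_lhs => rw [← sum_homogeneousComponent x]
  rw [map_sum, map_sum]
  by_cases hm : m ∈ Finset.range (x.totalDegree + 1)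
  · rw [Finset.sum_eq_single m]
    · exact homogeneousComponent_eq_self (key _ _ (homogeneousComponent_isHomogeneous _ _))
    · intro b _ hb
      rw [homogeneousComponent_of_mem (key _ _ (homogeneousComponent_isHomogeneous b x))]
      rw [if_neg (Ne.symm hb)]
    · intro h
      exact absurd hm h
  · rw [Finset.sum_eq_zero]
    · rw [homogeneousComponent_eq_zero]
      · simp
      · rw [Finset.mem_range] at hm
        omega
    · intro b hb
      rw [homogeneousComponent_of_mem (key _ _ (homogeneousComponent_isHomogeneous b x))]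
      rw [if_neg]
      rintro rfl
      exact hm hb

/-- the finite set of exponent types used -/
noncomputable def Ty (N m : ℕ) : Finset (ℕ →₀ ℕ) :=
  by
    classical
    exact (Fintype.piFinset (fun _ : Fin m => Finset.range N)).image ty

/-- the natural operation attached to a matrix `q` -/
noncomputable def op (N m : ℕ) (q : (ℕ →₀ ℕ) → ZMod 2) (d : ℕ) : Pl d →ₗ[ZMod 2] Pl d :=
  (∑ M ∈ Ty N m, q M • (((lcoeff (Pl d) M).restrictScalars (ZMod 2)).comp (Th N d).toLinearMap)).comp
    (homogeneousComponent m)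

theorem op_apply (N m : ℕ) (q : (ℕ →₀ ℕ) → ZMod 2) (d : ℕ) (x : Pl d) :
    op N m q d x = ∑ M ∈ Ty N m, q M • coeff M (Th N d (homogeneousComponent m x)) := by
  rw [op, LinearMap.comp_apply, LinearMap.sum_apply]
  rfl

theorem Un_hom (m : ℕ) : (Un m).IsHomogeneous m := by
  have := IsHomogeneous.prod Finset.univ (fun i : Fin m => (X i : Pl m)) (fun _ => 1)
    (fun i _ => isHomogeneous_X _ i)
  simpa [Un] using this

theorem Th_Un (N m : ℕ) : Th N m (Un m) =
    ∑ a ∈ Fintype.piFinset (fun _ : Fin m => Finset.range N),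
      monomial (ty a) (monomial (xp a) (1 : ZMod 2)) := by
  classical
  rw [Un, map_prod]
  have hX : ∀ (i : Fin m), Th N m (X i) = ∑ r ∈ Finset.range N, X r * C (X i ^ (2 ^ r)) := by
    intro i
    simp [Th]
  simp only [hX]
  rw [Finset.prod_univ_sum]
  refine Finset.sum_congr rfl fun a _ => ?_
  rw [Finset.prod_mul_distrib, ← map_prod]
  have h1 : ∏ i, (X (a i) : MvPolynomial ℕ (Pl m)) = monomial (ty a) 1 := by
    rw [ty, monomial_sum_one]
    rfl
  have h2 : ∏ i, (X i : Pl m) ^ (2 ^ (a i)) = monomial (xp a) 1 := by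
    rw [xp, monomial_sum_one]
    refine Finset.prod_congr rfl fun i _ => ?_
    rw [X_pow_eq_monomial]
  rw [h1, h2, mul_comm, C_mul_monomial, mul_one]

theorem op_Un (N m : ℕ) (q : (ℕ →₀ ℕ) → ZMod 2) :
    op N m q m (Un m) = ∑ a ∈ Fintype.piFinset (fun _ : Fin m => Finset.range N),
      q (ty a) • monomial (xp a) (1 : ZMod 2) := by
  classical
  rw [op_apply, homogeneousComponent_eq_self (Un_hom m), Th_Un]
  simp only [coeff_sum, coeff_monomial]
  simp only [Finset.smul_sum]
  rw [Finset.sum_comm]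
  refine Finset.sum_congr rfl fun a ha => ?_
  rw [Finset.sum_eq_single (ty a)]
  · rw [if_pos rfl]
  · intro b _ hb
    rw [if_neg (fun h => hb h.symm), smul_zero]
  · intro h
    exfalso
    apply h
    rw [Ty, Finset.mem_image]
    exact ⟨a, ha, rfl⟩

theorem op_nat (N m : ℕ) (q : (ℕ →₀ ℕ) → ZMod 2) {d' d : ℕ} (L : Fin d' → Fin d → ZMod 2)
    (x : Pl d') : op N m q d (lin L x) = lin L (op N m q d' x) := by
  rw [op_apply, op_apply, map_sum]
  refine Finset.sum_congr rfl fun M _ => ?_
  rw [hc_lin, coeff_Th_lin, map_smul]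

theorem op_dom (N m : ℕ) (q : (ℕ →₀ ℕ) → ZMod 2) (d : ℕ) (x : Pl d) :
    op N m q d x = op N m q d (homogeneousComponent m x) := by
  rw [op_apply, op_apply, homogeneousComponent_eq_self (homogeneousComponent_isHomogeneous m x)]

theorem op_IsNP (N m n : ℕ) (q : (ℕ →₀ ℕ) → ZMod 2)
    (hq : ∀ a : Fin m → ℕ, q (ty a) ≠ 0 → ∑ i, 2 ^ (a i) = n) : IsNP m n (op N m q) where
  nat := fun L x => op_nat N m q L x
  dom := fun d x => op_dom N m q d x
  cod := by
    classical
    intro d x
    rw [op_dom, homogeneousComponent_apply, map_sum]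
    apply IsHomogeneous.sum
    intro e he
    rw [Finset.mem_filter] at he
    obtain ⟨π, hπ⟩ := exists_pi m e he.2
    have hmon : (monomial e (coeff e x) : Pl d) = (coeff e x) • monomial e (1 : ZMod 2) := by
      rw [smul_monomial, smul_eq_mul, mul_one]
    rw [hmon, map_smul, ← hπ, ← rename_Un, rename_eq_lin, op_nat, ← rename_eq_lin]
    rw [smul_eq_C_mul]
    apply IsHomogeneous.C_mul
    apply IsHomogeneous.rename_isHomogeneous
    rw [op_Un]
    apply IsHomogeneous.sum
    intro a _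
    by_cases h : q (ty a) = 0
    · rw [h, zero_smul]
      exact isHomogeneous_zero _ _ _
    · rw [smul_eq_C_mul]
      apply IsHomogeneous.C_mul
      apply isHomogeneous_monomial
      rw [xp_degree]
      exact hq a h

end SHU
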