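import Pool.Agent.SH.UA3

/-! Part 4: the operations `θ^k = ` sum of all monomials of degree `2^k`. -/

namespace SHU
open MvPolynomial

theorem powers_ms (K : ℕ) (n : ℕ) : ∀ s : Multiset ℕ, Multiset.card s = n →
    (s.map (fun v => 2 ^ v)).sum = 2 ^ K → ∀ v ∈ s, K < v + n := by
  induction n with
  | zero =>
    intro s hs _ v hv
    rw [Multiset.card_eq_zero] at hs
    simp [hs] at hv
  | succ n ih =>
    intro s hs hsum
    have hne : s ≠ 0 := by
      rintro rfl
      simp at hs
    obtain ⟨v, hv, hmin⟩ : ∃ v ∈ s, ∀ w ∈ s, v ≤ w := by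
      obtain ⟨v, hv⟩ := Multiset.exists_mem_of_ne_zero hne
      have : ∃ v, v ∈ s := ⟨v, hv⟩
      classical
      refine ⟨Nat.find this, Nat.find_spec this, fun w hw => Nat.find_min' this hw⟩
    suffices h : K < v + (n + 1) by
      intro w hw
      have := hmin w hw
      omega
    obtain ⟨s', rfl⟩ := Multiset.exists_cons_of_mem hv
    rw [Multiset.card_cons] at hs
    rw [Multiset.map_cons, Multiset.sum_cons] at hsum
    by_cases hs' : s' = 0
    · subst hs'
      simp only [Multiset.map_zero, Multiset.sum_zero, add_zero] at hsum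
      have := Nat.pow_right_injective (le_refl 2) hsum
      omega
    · have hvs : v ∈ s' := by
        by_contra hcon
        have hdvd : 2 ^ (v + 1) ∣ (s'.map (fun v => 2 ^ v)).sum := by
          apply Multiset.dvd_sum
          intro a ha
          rw [Multiset.mem_map] at ha
          obtain ⟨w, hw, rfl⟩ := ha
          apply pow_dvd_pow
          have h1 := hmin w (Multiset.mem_cons_of_mem hw)
          have h2 : w ≠ v := by
            rintro rfl
            exact hcon hw
          omega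
        obtain ⟨w, hw⟩ := Multiset.exists_mem_of_ne_zero hs'
        have hpos : 0 < (s'.map (fun v => 2 ^ v)).sum := by
          have h1 : 2 ^ w ≤ (s'.map (fun v => 2 ^ v)).sum :=
            Multiset.single_le_sum (fun _ _ => Nat.zero_le _) _ (Multiset.mem_map_of_mem _ hw)
          have h2 : 0 < 2 ^ w := by positivity
          omega
        have hK : v < K := by
          by_contra hK
          have : 2 ^ K ≤ 2 ^ v := Nat.pow_le_pow_right (by norm_num) (by omega)
          omega
        have h3 : 2 ^ (v + 1) ∣ 2 ^ K := pow_dvd_pow _ (by omega)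
        have h4 : 2 ^ (v + 1) ∣ 2 ^ v := by
          have := (Nat.dvd_add_left hdvd).mp (by rw [hsum]; exact h3)
          exact this
        have h5 := Nat.le_of_dvd (by positivity) h4
        have h6 : 2 ^ v < 2 ^ (v + 1) := Nat.pow_lt_pow_right (by norm_num) (by omega)
        omega
      obtain ⟨s'', rfl⟩ := Multiset.exists_cons_of_mem hvs
      have := ih ((v + 1) ::ₘ s'') (by
        rw [Multiset.card_cons] at hs ⊢
        omega) (by
        rw [Multiset.map_cons, Multiset.sum_cons] at hsum ⊢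
        rw [← hsum, pow_succ]
        ring) (v + 1) (Multiset.mem_cons_self _ _)
      omega

theorem powers_fin {K m : ℕ} (c : Fin m → ℕ) (h : ∑ i, 2 ^ (c i) = 2 ^ K) (i : Fin m) :
    K < c i + m := by
  apply powers_ms K m (Finset.univ.val.map c)
  · simp
  · rw [Multiset.map_map]
    exact h
  · exact Multiset.mem_map_of_mem _ (Finset.mem_univ_val i)

/-- ring map `X_i ↦ ∑ r ≤ k, X_i^(2^r)` -/
noncomputable def Tr (k d : ℕ) : Pl d →ₐ[ZMod 2] Pl d :=
  aeval (fun i => ∑ r ∈ Finset.range (k + 1), X i ^ (2 ^ r))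

theorem Tr_X (k d : ℕ) (i : Fin d) : Tr k d (X i) = ∑ r ∈ Finset.range (k + 1), X i ^ (2 ^ r) := by
  simp [Tr]

theorem alg_C {d : ℕ} {A : Type*} [CommRing A] [Algebra (ZMod 2) A] (f : Pl d →ₐ[ZMod 2] A)
    (c : ZMod 2) : f (C c) = algebraMap (ZMod 2) A c := by
  have h1 : (C c : Pl d) = algebraMap (ZMod 2) (Pl d) c := rfl
  rw [h1, AlgHom.commutes]

theorem Tr_lin (k : ℕ) {d' d : ℕ} (L : Fin d' → Fin d → ZMod 2) (x : Pl d') :
    Tr k d (lin L x) = lin L (Tr k d' x) := by
  have h : (Tr k d).comp (lin L) = (lin L).comp (Tr k d') := by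
    apply MvPolynomial.algHom_ext
    intro j
    rw [AlgHom.comp_apply, AlgHom.comp_apply, lin_X, Tr_X, map_sum, map_sum]
    simp only [map_mul, Tr_X, lin_X_pow, alg_C, Finset.mul_sum]
    rw [Finset.sum_comm]
    rfl
  exact DFunLike.congr_fun h x

/-- `θ^k` on `S^m` -/
noncomputable def th (m k d : ℕ) : Pl d →ₗ[ZMod 2] Pl d :=
  (homogeneousComponent (2 ^ k)).comp ((Tr k d).toLinearMap.comp (homogeneousComponent m))

theorem th_apply (m k d : ℕ) (x : Pl d) :
    th m k d x = homogeneousComponent (2 ^ k) (Tr k d (homogeneousComponent m x)) := rfl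

theorem th_IsNP (m k : ℕ) : IsNP m (2 ^ k) (th m k) where
  nat := fun L x => by
    rw [th_apply, th_apply, hc_lin, Tr_lin, hc_lin]
  dom := fun d x => by
    rw [th_apply, th_apply, homogeneousComponent_eq_self (homogeneousComponent_isHomogeneous m x)]
  cod := fun d x => homogeneousComponent_isHomogeneous _ _

theorem X_pow_prod {m : ℕ} (a : Fin m → ℕ) :
    ∏ i, (X i : Pl m) ^ (2 ^ (a i)) = monomial (xp a) 1 := by
  rw [xp, monomial_sum_one]
  refine Finset.prod_congr rfl fun i _ => ?_
  rw [X_pow_eq_monomial]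

theorem Tr_xp (k m : ℕ) (a : Fin m → ℕ) : Tr k m (monomial (xp a) 1) =
    ∑ b ∈ Fintype.piFinset (fun _ : Fin m => Finset.range (k + 1)),
      monomial (xp (fun i => a i + b i)) 1 := by
  classical
  rw [← X_pow_prod, map_prod]
  have h : ∀ i, Tr k m (X i ^ (2 ^ (a i))) =
      ∑ r ∈ Finset.range (k + 1), (X i : Pl m) ^ (2 ^ (a i + r)) := by
    intro i
    rw [map_pow, Tr_X]
    have : CharP (Pl m) 2 := inferInstance
    have : ExpChar (Pl m) 2 := ExpChar.prime Nat.prime_two
    rw [sum_pow_char_pow]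
    refine Finset.sum_congr rfl fun r _ => ?_
    rw [← pow_mul]
    congr 1
    rw [pow_add]
    ring
  simp only [h]
  rw [Finset.prod_univ_sum]
  refine Finset.sum_congr rfl fun b _ => ?_
  rw [X_pow_prod]

open Classical in
theorem hc_Tr_xp (k m : ℕ) (a : Fin m → ℕ) :
    homogeneousComponent (2 ^ k) (Tr k m (monomial (xp a) 1)) =
    ∑ b ∈ (Fintype.piFinset (fun _ : Fin m => Finset.range (k + 1))).filter
      (fun b => ∑ i, 2 ^ (a i + b i) = 2 ^ k),
      monomial (xp (fun i => a i + b i)) 1 := by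
  rw [Tr_xp, map_sum, Finset.sum_filter]
  refine Finset.sum_congr rfl fun b _ => ?_
  have hm : (monomial (xp (fun i => a i + b i)) (1 : ZMod 2)).IsHomogeneous
      (∑ i, 2 ^ (a i + b i)) := by
    apply isHomogeneous_monomial
    rw [xp_degree]
  rw [homogeneousComponent_of_mem hm]
  by_cases h : ∑ i, 2 ^ (a i + b i) = 2 ^ k
  · rw [if_pos h, if_pos h.symm]
  · rw [if_neg h, if_neg (fun h' => h h'.symm)]

theorem Un_xp (m : ℕ) : Un m = monomial (xp (fun _ : Fin m => 0)) 1 := by
  rw [← X_pow_prod, Un]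
  simp

theorem hc_Tr_shift (k m : ℕ) (a : Fin m → ℕ)
    (ha : ∀ c : Fin m → ℕ, ∑ i, 2 ^ (c i) = 2 ^ k → ∀ i, a i ≤ c i) :
    homogeneousComponent (2 ^ k) (Tr k m (monomial (xp a) 1)) =
    homogeneousComponent (2 ^ k) (Tr k m (Un m)) := by
  classical
  rw [Un_xp, hc_Tr_xp, hc_Tr_xp]
  simp only [zero_add]
  refine Finset.sum_nbij' (fun b i => a i + b i) (fun c i => c i - a i) ?_ ?_ ?_ ?_ ?_
  · intro b hb
    rw [Finset.mem_filter] at hb ⊢
    refine ⟨?_, hb.2⟩
    rw [Fintype.mem_piFinset]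
    intro i
    rw [Finset.mem_range]
    have h2 : 2 ^ (a i + b i) ≤ ∑ i, 2 ^ (a i + b i) :=
      Finset.single_le_sum (f := fun i => 2 ^ (a i + b i)) (fun _ _ => Nat.zero_le _)
        (Finset.mem_univ i)
    rw [hb.2] at h2
    have := (Nat.pow_le_pow_iff_right (by norm_num : 1 < 2)).mp h2
    omega
  · intro c hc
    rw [Finset.mem_filter] at hc ⊢
    have h1 := ha c hc.2
    constructor
    · rw [Fintype.mem_piFinset]
      intro i
      have h3 := Fintype.mem_piFinset.mp hc.1 i
      rw [Finset.mem_range] at h3 ⊢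
      omega
    · rw [← hc.2]
      refine Finset.sum_congr rfl fun i _ => ?_
      change 2 ^ (a i + (c i - a i)) = 2 ^ (c i)
      rw [Nat.add_sub_cancel' (h1 i)]
  · intro b _
    funext i
    simp
  · intro c hc
    rw [Finset.mem_filter] at hc
    funext i
    have := ha c hc.2 i
    simp only
    omega
  · intro b _
    rfl

/-- the specialisation `ε` -/
noncomputable def ev (m n : ℕ) (f : ∀ d, Pl d →ₗ[ZMod 2] Pl d) : ZMod 2 :=
  coeff (Finsupp.single 0 n) (f 1 (X 0 ^ m))

theorem rename_xp {m : ℕ} (a : Fin m → ℕ) :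
    rename (fun _ => 0 : Fin m → Fin 1) (monomial (xp a) (1 : ZMod 2)) =
      X 0 ^ (∑ i, 2 ^ (a i)) := by
  rw [← X_pow_prod, map_prod]
  simp only [map_pow, rename_X]
  rw [Finset.prod_pow_eq_pow_sum]

theorem rename_Un_one (m : ℕ) : rename (fun _ => 0 : Fin m → Fin 1) (Un m) = X 0 ^ m := by
  rw [Un_xp, rename_xp]
  simp

theorem hom_one (n : ℕ) (y : Pl 1) (hy : y.IsHomogeneous n) :
    y = coeff (Finsupp.single 0 n) y • X 0 ^ n := by
  classical
  rw [X_pow_eq_monomial, smul_monomial, smul_eq_mul, mul_one]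
  ext e
  rw [coeff_monomial]
  split_ifs with h
  · rw [h]
  · by_contra hc
    apply h
    have h1 : e.degree = n := by
      rw [Finsupp.degree_eq_weight_one]
      exact hy hc
    rw [Finsupp.degree_eq_sum] at h1
    ext
    simp at h1
    simp [h1]

theorem IsNP.ev_eq {m n : ℕ} {f : ∀ d, Pl d →ₗ[ZMod 2] Pl d} (hf : IsNP m n f) :
    f 1 (X 0 ^ m) = ev m n f • X 0 ^ n := hom_one n _ (hf.cod 1 _)

theorem IsNP.comp {l m n : ℕ} {f g : ∀ d, Pl d →ₗ[ZMod 2] Pl d} (hf : IsNP m n f)
    (hg : IsNP l m g) : IsNP l n (fun d => (f d).comp (g d)) where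
  nat := fun L x => by
    simp only [LinearMap.comp_apply]
    rw [hg.nat, hf.nat]
  dom := fun d x => by
    simp only [LinearMap.comp_apply]
    rw [hg.dom]
  cod := fun d x => hf.cod d _

theorem IsNP.smul {m n : ℕ} {f : ∀ d, Pl d →ₗ[ZMod 2] Pl d} (hf : IsNP m n f) (c : ZMod 2) :
    IsNP m n (fun d => c • f d) where
  nat := fun L x => by
    simp only [LinearMap.smul_apply]
    rw [hf.nat, map_smul]
  dom := fun d x => by
    simp only [LinearMap.smul_apply]
    rw [hf.dom]
  cod := fun d x => by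
    simp only [LinearMap.smul_apply]
    rw [smul_eq_C_mul]
    exact (hf.cod d x).C_mul c

theorem IsNP.ev_mt {m n : ℕ} {f : ∀ d, Pl d →ₗ[ZMod 2] Pl d} (hf : IsNP m n f) (N : ℕ)
    (hN : n ≤ N) : ev m n f = ∑ a ∈ Fintype.piFinset (fun _ : Fin m => Finset.range N),
      mt m f (ty a) := by
  classical
  rw [ev, ← rename_Un_one, hf.ren, hf.Un_eq N hN, map_sum, coeff_sum]
  refine Finset.sum_congr rfl fun a _ => ?_
  rw [map_smul, rename_xp, coeff_smul, smul_eq_mul]
  by_cases h : mt m f (ty a) = 0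
  · rw [h, zero_mul]
  · rw [hf.mt_ty_sum a h, X_pow_eq_monomial, coeff_monomial, if_pos rfl, mul_one]

/-- the key identity `θ^k ∘ ψ = ε(ψ) θ^k` for `k` large -/
theorem th_comp {m n : ℕ} {f : ∀ d, Pl d →ₗ[ZMod 2] Pl d} (hf : IsNP m n f) (k : ℕ)
    (hk : m + n ≤ k) (d : ℕ) (x : Pl d) : th n k d (f d x) = ev m n f • th m k d x := by
  classical
  have h : (fun d => (th n k d).comp (f d)) = (fun d => ev m n f • th m k d) := by
    apply ((th_IsNP n k).comp hf).ext ((th_IsNP m k).smul _)
    simp only [LinearMap.comp_apply, LinearMap.smul_apply]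
    rw [hf.ev_mt (k + 1) (by omega), hf.Un_eq (k + 1) (by omega), map_sum, Finset.sum_smul]
    refine Finset.sum_congr rfl fun a ha => ?_
    rw [map_smul]
    by_cases h : mt m f (ty a) = 0
    · rw [h, zero_smul, zero_smul]
    · congr 1
      have hn := hf.mt_ty_sum a h
      have hm : (monomial (xp a) (1 : ZMod 2)).IsHomogeneous n := by
        apply isHomogeneous_monomial
        rw [xp_degree, hn]
      rw [th_apply, homogeneousComponent_eq_self hm, th_apply,
        homogeneousComponent_eq_self (Un_hom m)]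
      apply hc_Tr_shift
      intro c hc i
      have h1 := powers_fin c hc i
      have h2 : 2 ^ (a i) ≤ ∑ i, 2 ^ (a i) :=
        Finset.single_le_sum (f := fun i => 2 ^ (a i)) (fun _ _ => Nat.zero_le _)
          (Finset.mem_univ i)
      have h3 : a i < 2 ^ (a i) := Nat.lt_two_pow_self
      omega
  have := congrFun h d
  have := DFunLike.congr_fun this x
  simpa using this

end SHU
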