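import Pool.Agent.SH.UA4

/-! Part 5: `ε(θ^k) = 1` and `θ^{k+1} = Sq_0 θ^k`. -/

namespace SHU
open MvPolynomial

/-- squaring, as a linear map -/
noncomputable def sqL (d : ℕ) : Pl d →ₗ[ZMod 2] Pl d where
  toFun x := x ^ 2
  map_add' x y := by
    have : CharP (Pl d) 2 := inferInstance
    have : ExpChar (Pl d) 2 := ExpChar.prime Nat.prime_two
    exact add_pow_expChar x y 2
  map_smul' c x := by
    rw [smul_pow, zmod2_sq]
    rfl

theorem sqL_apply (d : ℕ) (x : Pl d) : sqL d x = x ^ 2 := rfl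

theorem sqL_inj (d : ℕ) {x : Pl d} (h : sqL d x = 0) : x = 0 := by
  rw [sqL_apply] at h
  exact pow_eq_zero_iff (by norm_num) |>.mp h

theorem sqL_hom {d n : ℕ} {x : Pl d} (h : x.IsHomogeneous n) : (sqL d x).IsHomogeneous (2 * n) := by
  rw [sqL_apply, mul_comm]
  exact h.pow 2

theorem IsNP.sq {m n : ℕ} {f : ∀ d, Pl d →ₗ[ZMod 2] Pl d} (hf : IsNP m n f) :
    IsNP m (2 * n) (fun d => (sqL d).comp (f d)) where
  nat := fun L x => by
    simp only [LinearMap.comp_apply]
    rw [hf.nat, sqL_apply, sqL_apply, map_pow]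
  dom := fun d x => by
    simp only [LinearMap.comp_apply]
    rw [hf.dom]
  cod := fun d x => sqL_hom (hf.cod d x)

theorem sq_th (m k : ℕ) (hk : m ≤ k + 1) (d : ℕ) (x : Pl d) :
    sqL d (th m k d x) = th m (k + 1) d x := by
  classical
  have h : (fun d => (sqL d).comp (th m k d)) = th m (k + 1) := by
    have h1 := (th_IsNP m k).sq
    rw [show 2 * 2 ^ k = 2 ^ (k + 1) by rw [pow_succ]; ring] at h1
    apply h1.ext (th_IsNP m (k + 1))
    rw [LinearMap.comp_apply, th_apply, th_apply, homogeneousComponent_eq_self (Un_hom m), Un_xp,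
      hc_Tr_xp, hc_Tr_xp, map_sum]
    simp only [zero_add]
    refine Finset.sum_nbij' (fun b i => b i + 1) (fun c i => c i - 1) ?_ ?_ ?_ ?_ ?_
    · intro b hb
      rw [Finset.mem_filter] at hb ⊢
      constructor
      · rw [Fintype.mem_piFinset]
        intro i
        have h3 := Fintype.mem_piFinset.mp hb.1 i
        rw [Finset.mem_range] at h3 ⊢
        omega
      · simp only [pow_succ]
        rw [← Finset.sum_mul, hb.2]
    · intro c hc
      rw [Finset.mem_filter] at hc ⊢
      have h1 : ∀ i, 1 ≤ c i := by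
        intro i
        have := powers_fin c hc.2 i
        omega
      constructor
      · rw [Fintype.mem_piFinset]
        intro i
        have h3 := Fintype.mem_piFinset.mp hc.1 i
        rw [Finset.mem_range] at h3 ⊢
        have := h1 i
        omega
      · have h4 : (∑ i, 2 ^ (c i - 1)) * 2 = 2 ^ k * 2 := by
          rw [Finset.sum_mul, ← pow_succ, ← hc.2]
          refine Finset.sum_congr rfl fun i _ => ?_
          rw [← pow_succ, Nat.sub_add_cancel (h1 i)]
        exact Nat.eq_of_mul_eq_mul_right (by norm_num) h4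
    · intro b _
      funext i
      simp
    · intro c hc
      rw [Finset.mem_filter] at hc
      funext i
      have := powers_fin c hc.2 i
      simp only
      omega
    · intro b _
      rw [sqL_apply, monomial_pow, one_pow]
      have h5 : 2 • xp (fun i => b i) = xp (fun i => b i + 1) := by
        ext i
        rw [Finsupp.smul_apply, xp_apply, xp_apply, pow_succ, smul_eq_mul, mul_comm]
      rw [h5]
  exact DFunLike.congr_fun (congrFun h d) x

/-- `P_k = ∑ r ≤ k, X^(2^r)` in one variable -/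
noncomputable def PP (k : ℕ) : Pl 1 := ∑ r ∈ Finset.range (k + 1), X 0 ^ (2 ^ r)

theorem PP_sq (k : ℕ) : PP k ^ 2 = PP k + X 0 + X 0 ^ (2 ^ (k + 1)) := by
  have h1 : PP k ^ 2 = ∑ r ∈ Finset.range (k + 1), (X 0 : Pl 1) ^ (2 ^ (r + 1)) := by
    rw [← sqL_apply, PP, map_sum]
    refine Finset.sum_congr rfl fun r _ => ?_
    rw [sqL_apply, ← pow_mul, ← pow_succ]
  have h2 : (∑ r ∈ Finset.range (k + 1), (X 0 : Pl 1) ^ (2 ^ (r + 1))) + X 0 =
      PP k + X 0 ^ (2 ^ (k + 1)) := by
    rw [PP, ← Finset.sum_range_succ (fun r => (X 0 : Pl 1) ^ (2 ^ r)),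
      Finset.sum_range_succ' (fun r => (X 0 : Pl 1) ^ (2 ^ r))]
    simp
  have h3 : (X 0 : Pl 1) + X 0 = 0 := CharTwo.add_self_eq_zero _
  calc PP k ^ 2 = PP k ^ 2 + (X 0 + X 0) := by rw [h3, add_zero]
    _ = (PP k ^ 2 + X 0) + X 0 := by ring
    _ = (PP k + X 0 ^ (2 ^ (k + 1))) + X 0 := by rw [h1, h2]
    _ = _ := by ring

theorem PP_coeff_zero (k m : ℕ) (hm : m < k) :
    coeff (Finsupp.single 0 (2 ^ k - 1)) (PP k ^ m) = 0 := by
  classical
  have h1 : PP k ^ m = ∏ _i : Fin m, PP k := by simp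
  rw [h1]
  simp only [PP]
  rw [Finset.prod_univ_sum, coeff_sum, Finset.sum_eq_zero]
  intro b _
  rw [Finset.prod_pow_eq_pow_sum, X_pow_eq_monomial, coeff_monomial, if_neg]
  intro h
  have h2 := DFunLike.congr_fun h 0
  simp only [Finsupp.single_eq_same] at h2
  have h3 : 0 < 2 ^ k := by positivity
  have h4 : ∑ i, 2 ^ ((Fin.cons 0 b : Fin (m + 1) → ℕ) i) = 2 ^ k := by
    rw [Fin.sum_univ_succ]
    simp only [Fin.cons_zero, Fin.cons_succ, pow_zero]
    omega
  have h5 := powers_fin _ h4 0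
  simp only [Fin.cons_zero] at h5
  omega

theorem PP_coeff_one (k m : ℕ) (hm : m ≤ k) :
    coeff (Finsupp.single 0 (2 ^ k)) (PP k ^ (m + 1)) = 1 := by
  classical
  induction m with
  | zero =>
    rw [zero_add, pow_one, PP, coeff_sum, Finset.sum_eq_single k]
    · rw [X_pow_eq_monomial, coeff_monomial, if_pos rfl]
    · intro b _ hb
      rw [X_pow_eq_monomial, coeff_monomial, if_neg]
      intro h
      have h2 := DFunLike.congr_fun h 0
      simp only [Finsupp.single_eq_same] at h2
      exact hb (Nat.pow_right_injective (le_refl 2) h2)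
    · intro h
      exfalso
      apply h
      simp
  | succ m ih =>
    have h1 : PP k ^ (m + 1 + 1) = PP k ^ (m + 1) + PP k ^ m * X 0 +
        PP k ^ m * X 0 ^ (2 ^ (k + 1)) := by
      have : PP k ^ (m + 1 + 1) = PP k ^ m * PP k ^ 2 := by ring
      rw [this, PP_sq]
      ring
    rw [h1, coeff_add, coeff_add, ih (by omega)]
    have h3 : 0 < 2 ^ k := by positivity
    have h2 : (Finsupp.single 0 (2 ^ k) : Fin 1 →₀ ℕ) =
        Finsupp.single 0 (2 ^ k - 1) + Finsupp.single 0 1 := by
      rw [← Finsupp.single_add]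
      congr 1
      omega
    have h4 : coeff (Finsupp.single 0 (2 ^ k)) (PP k ^ m * X 0) = 0 := by
      rw [h2, coeff_mul_X, PP_coeff_zero k m (by omega)]
    have h5 : coeff (Finsupp.single 0 (2 ^ k)) (PP k ^ m * X 0 ^ (2 ^ (k + 1))) = 0 := by
      rw [X_pow_eq_monomial, coeff_mul_monomial', if_neg]
      rw [Finsupp.single_le_iff, Finsupp.single_eq_same]
      have : 2 ^ k < 2 ^ (k + 1) := Nat.pow_lt_pow_right (by norm_num) (by omega)
      omega
    rw [h4, h5, add_zero, add_zero]

theorem ev_th (m k : ℕ) (hm : 0 < m) (hk : m ≤ k + 1) : ev m (2 ^ k) (th m k) = 1 := by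
  rw [ev, th_apply]
  have h1 : (X 0 ^ m : Pl 1).IsHomogeneous m := by
    simpa using (isHomogeneous_X_pow (R := ZMod 2) (0 : Fin 1) m)
  rw [homogeneousComponent_eq_self h1, coeff_homogeneousComponent, if_pos (by simp), map_pow, Tr_X]
  obtain ⟨m', rfl⟩ : ∃ m', m = m' + 1 := ⟨m - 1, by omega⟩
  exact PP_coeff_one k m' (by omega)

end SHU
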