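import Pool.Agent.SH.UA5

/-! Part 6: the functors `E^t(B^d;V) = ∏_j Hom(X^j, S^{j-t}(d))`, natural transformations into
polynomials, and their decomposition. -/

namespace SHU
open MvPolynomial

universe u

theorem isHom_iff {d n : ℕ} (y : Pl d) :
    y.IsHomogeneous n ↔ ∀ e, coeff e y ≠ 0 → e.degree = n := by
  constructor
  · intro h e he
    rw [Finsupp.degree_eq_weight_one]
    exact h he
  · intro h e he
    have := h e he
    rw [Finsupp.degree_eq_weight_one] at this
    exact this

theorem lin_hom {d' d n : ℕ} (L : Fin d' → Fin d → ZMod 2) {y : Pl d'} (h : y.IsHomogeneous n) :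
    (lin L y).IsHomogeneous n := by
  rw [← homogeneousComponent_eq_self h, ← hc_lin]
  exact homogeneousComponent_isHomogeneous _ _

section defs
variable (X : ℕ → Type u) [∀ j, AddCommGroup (X j)] [∀ j, Module (ZMod 2) (X j)]

/-- `ES X t d = ∏_j Hom(X^j, S^{j-t}(d))`; it is `E^t(B^d;V) = π_t Map(B(F_2^d),V)` if `X^j` is the
space of linear classes of degree `j` of `V` -/
def ES (t d : ℕ) : Submodule (ZMod 2) (∀ j, X j →ₗ[ZMod 2] Pl d) where
  carrier := {c | ∀ j x e, coeff e (c j x) ≠ 0 → e.degree + t = j}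
  add_mem' := by
    intro a b ha hb j x e he
    simp only [Pi.add_apply, LinearMap.add_apply, coeff_add] at he
    by_cases h : coeff e (a j x) = 0
    · rw [h, zero_add] at he
      exact hb j x e he
    · exact ha j x e h
  zero_mem' := by
    intro j x e he
    simp at he
  smul_mem' := by
    intro c a ha j x e he
    simp only [Pi.smul_apply, LinearMap.smul_apply, coeff_smul, smul_eq_mul] at he
    exact ha j x e (right_ne_zero_of_mul he)

variable {X}

theorem ES_hom {t d j : ℕ} (c : ES X t d) (h : t ≤ j) (x : X j) :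
    (c.1 j x).IsHomogeneous (j - t) := by
  rw [isHom_iff]
  intro e he
  have := c.2 j x e he
  omega

theorem ES_zero {t d j : ℕ} (c : ES X t d) (h : j < t) (x : X j) : c.1 j x = 0 := by
  ext e
  rw [coeff_zero]
  by_contra hc
  have := c.2 j x e hc
  omega

theorem ES_ext {t d : ℕ} {c c' : ES X t d} (h : ∀ j x, c.1 j x = c'.1 j x) : c = c' := by
  apply Subtype.ext
  funext j
  exact LinearMap.ext (h j)

/-- substitution -/
noncomputable def subs {t d' d : ℕ} (L : Fin d' → Fin d → ZMod 2) (c : ES X t d') : ES X t d :=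
  ⟨fun j => (lin L).toLinearMap.comp (c.1 j), by
    intro j x e he
    rw [LinearMap.comp_apply, AlgHom.toLinearMap_apply] at he
    by_cases htj : t ≤ j
    · have := (isHom_iff _).mp (lin_hom L (ES_hom c htj x)) e he
      omega
    · exfalso
      apply he
      rw [ES_zero c (by omega) x, map_zero, coeff_zero]⟩

theorem subs_apply {t d' d : ℕ} (L : Fin d' → Fin d → ZMod 2) (c : ES X t d') (j : ℕ) (x : X j) :
    (subs L c).1 j x = lin L (c.1 j x) := rfl

/-- natural additive transformations `E^t(B^d;V) → S^n(d)` -/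
structure IsPN (t n : ℕ) (p : ∀ d, ES X t d →ₗ[ZMod 2] Pl d) : Prop where
  nat : ∀ {d' d : ℕ} (L : Fin d' → Fin d → ZMod 2) (c : ES X t d'), p d (subs L c) = lin L (p d' c)
  cod : ∀ d c, (p d c).IsHomogeneous n
  cont : ∀ d (c : ES X t d), (∀ j ≤ n + t, c.1 j = 0) → p d c = 0

end defs

section two
variable {X : ℕ → Type u} [∀ j, AddCommGroup (X j)] [∀ j, Module (ZMod 2) (X j)]
variable {Y : ℕ → Type u} [∀ j, AddCommGroup (Y j)] [∀ j, Module (ZMod 2) (Y j)]

/-- natural additive transformations `E^t(B^d;V) → E^t(B^d;V')` -/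
structure IsNT (t : ℕ) (α : ∀ d, ES X t d →ₗ[ZMod 2] ES Y t d) : Prop where
  nat : ∀ {d' d : ℕ} (L : Fin d' → Fin d → ZMod 2) (c : ES X t d'),
    α d (subs L c) = subs L (α d' c)
  cont : ∀ d (c : ES X t d) (N : ℕ), (∀ j ≤ N, c.1 j = 0) → ∀ j ≤ N, (α d c).1 j = 0

theorem IsPN.comp {t n : ℕ} {p : ∀ d, ES Y t d →ₗ[ZMod 2] Pl d} (hp : IsPN t n p)
    {α : ∀ d, ES X t d →ₗ[ZMod 2] ES Y t d} (hα : IsNT t α) :
    IsPN t n (fun d => (p d).comp (α d)) where
  nat := fun L c => by
    simp only [LinearMap.comp_apply]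
    rw [hα.nat, hp.nat]
  cod := fun d c => hp.cod d _
  cont := fun d c hc => hp.cont d _ (hα.cont d c _ hc)

end two

section one
variable {X : ℕ → Type u} [∀ j, AddCommGroup (X j)] [∀ j, Module (ZMod 2) (X j)]

theorem IsPN.add {t n : ℕ} {p q : ∀ d, ES X t d →ₗ[ZMod 2] Pl d} (hp : IsPN t n p)
    (hq : IsPN t n q) : IsPN t n (fun d => p d + q d) where
  nat := fun L c => by
    simp only [LinearMap.add_apply]
    rw [hp.nat, hq.nat, map_add]
  cod := fun d c => (hp.cod d c).add (hq.cod d c)
  cont := fun d c hc => by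
    simp only [LinearMap.add_apply]
    rw [hp.cont d c hc, hq.cont d c hc, add_zero]

theorem IsPN.zero (t n : ℕ) : IsPN (X := X) t n (fun d => 0) where
  nat := fun L c => by simp
  cod := fun d c => isHomogeneous_zero _ _ _
  cont := fun d c hc => rfl

theorem IsPN.sum {t n : ℕ} {ι : Type*} (s : Finset ι) (p : ι → ∀ d, ES X t d →ₗ[ZMod 2] Pl d)
    (hp : ∀ i ∈ s, IsPN t n (p i)) : IsPN t n (fun d => ∑ i ∈ s, p i d) := by
  classical
  induction s using Finset.induction_on with
  | empty => simpa using IsPN.zero t n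
  | insert a s ha ih =>
    simp only [Finset.sum_insert ha]
    exact (hp a (Finset.mem_insert_self a s)).add
      (ih (fun i hi => hp i (Finset.mem_insert_of_mem hi)))

theorem IsPN.smul {t n : ℕ} {p : ∀ d, ES X t d →ₗ[ZMod 2] Pl d} (hp : IsPN t n p) (a : ZMod 2) :
    IsPN t n (fun d => a • p d) where
  nat := fun L c => by
    simp only [LinearMap.smul_apply]
    rw [hp.nat, map_smul]
  cod := fun d c => by
    simp only [LinearMap.smul_apply, smul_eq_C_mul]
    exact (hp.cod d c).C_mul a
  cont := fun d c hc => by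
    simp only [LinearMap.smul_apply]
    rw [hp.cont d c hc, smul_zero]

/-- evaluation at a linear class `x` of degree `j` -/
noncomputable def pr (t j : ℕ) (x : X j) (d : ℕ) : ES X t d →ₗ[ZMod 2] Pl d where
  toFun c := c.1 j x
  map_add' _ _ := rfl
  map_smul' _ _ := rfl

theorem pr_apply (t j : ℕ) (x : X j) (d : ℕ) (c : ES X t d) : pr t j x d c = c.1 j x := rfl

theorem pr_IsPN {t j m : ℕ} (h : m + t = j) (x : X j) : IsPN t m (pr t j x) where
  nat := fun L c => rfl
  cod := fun d c => by
    have := ES_hom c (show t ≤ j by omega) x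
    rwa [show j - t = m by omega] at this
  cont := fun d c hc => by
    rw [pr_apply, hc j (by omega)]
    rfl

theorem IsNP.comp_pn {t m n : ℕ} {f : ∀ d, Pl d →ₗ[ZMod 2] Pl d} (hf : IsNP m n f)
    (hmn : m ≤ n ∨ f = fun d => 0)
    {p : ∀ d, ES X t d →ₗ[ZMod 2] Pl d} (hp : IsPN t m p) :
    IsPN t n (fun d => (f d).comp (p d)) where
  nat := fun L c => by
    simp only [LinearMap.comp_apply]
    rw [hp.nat, hf.nat]
  cod := fun d c => hf.cod d _
  cont := fun d c hc => by
    simp only [LinearMap.comp_apply]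
    rcases hmn with h | h
    · rw [hp.cont d c (fun j hj => hc j (by omega)), map_zero]
    · rw [h]
      rfl

theorem IsNP.le_or {m n : ℕ} {f : ∀ d, Pl d →ₗ[ZMod 2] Pl d} (hf : IsNP m n f) :
    m ≤ n ∨ f = fun d => 0 := by
  by_cases h : m ≤ n
  · exact Or.inl h
  · right
    have h0 : IsNP m n (fun d => (0 : Pl d →ₗ[ZMod 2] Pl d)) :=
      { nat := fun L x => by simp
        dom := fun d x => rfl
        cod := fun d x => isHomogeneous_zero _ _ _ }
    apply hf.ext h0
    rw [hf.Un_eq n (le_refl n), LinearMap.zero_apply, Finset.sum_eq_zero]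
    intro a _
    by_cases hq : mt m f (ty a) = 0
    · rw [hq, zero_smul]
    · exfalso
      have h1 := hf.mt_ty_sum a hq
      have h2 : ∑ _i : Fin m, 1 ≤ ∑ i, 2 ^ (a i) :=
        Finset.sum_le_sum (fun i _ => Nat.one_le_two_pow)
      simp at h2
      omega

theorem IsNP.comp_pn' {t m n : ℕ} {f : ∀ d, Pl d →ₗ[ZMod 2] Pl d} (hf : IsNP m n f)
    {p : ∀ d, ES X t d →ₗ[ZMod 2] Pl d} (hp : IsPN t m p) :
    IsPN t n (fun d => (f d).comp (p d)) := hf.comp_pn hf.le_or hp

/-- homogeneous part of degree `j - t` -/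
noncomputable def hcT (t j : ℕ) (d : ℕ) : Pl d →ₗ[ZMod 2] Pl d :=
  if t ≤ j then homogeneousComponent (j - t) else 0

/-- the element `f ⊗ ξ` of `ES` -/
noncomputable def El (t j : ℕ) (ξ : X j →ₗ[ZMod 2] ZMod 2) (d : ℕ) : Pl d →ₗ[ZMod 2] ES X t d where
  toFun f := ⟨Pi.single j (ξ.smulRight (hcT t j d f)), by
    classical
    intro j' x e he
    by_cases hj : j' = j
    · subst hj
      rw [Pi.single_eq_same, LinearMap.smulRight_apply, coeff_smul, smul_eq_mul] at he
      have h1 := right_ne_zero_of_mul he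
      rw [hcT] at h1
      split_ifs at h1 with h
      · rw [coeff_homogeneousComponent] at h1
        split_ifs at h1 with h2
        · omega
        · exact absurd rfl h1
      · exact absurd rfl h1
    · rw [Pi.single_eq_of_ne hj] at he
      simp at he⟩
  map_add' f g := by
    apply Subtype.ext
    simp only [map_add, Submodule.coe_add]
    rw [← Pi.single_add]
    congr 1
    ext1 x
    simp
  map_smul' a f := by
    apply Subtype.ext
    simp only [map_smul, Submodule.coe_smul, RingHom.id_apply]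
    rw [← Pi.single_smul]
    congr 1
    ext1 x
    rw [LinearMap.smulRight_apply, LinearMap.smul_apply, LinearMap.smulRight_apply, smul_comm]

theorem El_same (t j : ℕ) (ξ : X j →ₗ[ZMod 2] ZMod 2) (d : ℕ) (f : Pl d) (x : X j) :
    (El t j ξ d f).1 j x = ξ x • hcT t j d f := by
  change (Pi.single j (ξ.smulRight (hcT t j d f)) : ∀ j, X j →ₗ[ZMod 2] Pl d) j x = _
  rw [Pi.single_eq_same]
  rfl

theorem El_ne (t j : ℕ) (ξ : X j →ₗ[ZMod 2] ZMod 2) (d : ℕ) (f : Pl d) (j' : ℕ) (h : j' ≠ j)
    (x : X j') : (El t j ξ d f).1 j' x = 0 := by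
  change (Pi.single j (ξ.smulRight (hcT t j d f)) : ∀ j, X j →ₗ[ZMod 2] Pl d) j' x = _
  rw [Pi.single_eq_of_ne h]
  rfl

theorem hcT_lin (t j : ℕ) {d' d : ℕ} (L : Fin d' → Fin d → ZMod 2) (f : Pl d') :
    hcT t j d (lin L f) = lin L (hcT t j d' f) := by
  unfold hcT
  split_ifs
  · exact hc_lin _ L f
  · simp

theorem El_lin (t j : ℕ) (ξ : X j →ₗ[ZMod 2] ZMod 2) {d' d : ℕ} (L : Fin d' → Fin d → ZMod 2)
    (f : Pl d') : El t j ξ d (lin L f) = subs L (El t j ξ d' f) := by
  apply ES_ext
  intro j' x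
  rw [subs_apply]
  by_cases h : j' = j
  · subst h
    rw [El_same, El_same, hcT_lin, map_smul]
  · rw [El_ne _ _ _ _ _ _ h, El_ne _ _ _ _ _ _ h, map_zero]

theorem psi_IsNP {t n m j : ℕ} (hj : m + t = j) {p : ∀ d, ES X t d →ₗ[ZMod 2] Pl d}
    (hp : IsPN t n p) (ξ : X j →ₗ[ZMod 2] ZMod 2) : IsNP m n (fun d => (p d).comp (El t j ξ d)) where
  nat := fun L x => by
    simp only [LinearMap.comp_apply]
    rw [El_lin, hp.nat]
  dom := fun d x => by
    simp only [LinearMap.comp_apply]
    congr 1
    apply ES_ext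
    intro j' y
    by_cases h : j' = j
    · subst h
      rw [El_same, El_same]
      congr 1
      rw [hcT, if_pos (by omega), show j' - t = m by omega]
      rw [homogeneousComponent_eq_self (homogeneousComponent_isHomogeneous m x)]
    · rw [El_ne _ _ _ _ _ _ h, El_ne _ _ _ _ _ _ h]
  cod := fun d x => hp.cod d _

/-- decomposition of a natural transformation -/
theorem IsPN.decomp [∀ j, Module.Finite (ZMod 2) (X j)] {t n : ℕ}
    {p : ∀ d, ES X t d →ₗ[ZMod 2] Pl d} (hp : IsPN t n p) (d : ℕ) (c : ES X t d) :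
    p d c = ∑ m ∈ Finset.range (n + 1), ∑ i,
      p d (El t (m + t) ((Module.finBasis (ZMod 2) (X (m + t))).coord i) d
        (c.1 (m + t) (Module.finBasis (ZMod 2) (X (m + t)) i))) := by
  classical
  simp only [← map_sum]
  rw [← sub_eq_zero, ← map_sub]
  apply hp.cont
  intro j hj
  apply LinearMap.ext
  intro x
  rw [LinearMap.zero_apply]
  have hval : ∀ (s : ES X t d) (j : ℕ) (x : X j), (s.1 j x) = pr t j x d s := fun _ _ _ => rfl
  rw [hval, map_sub, map_sum]
  simp only [map_sum]
  simp only [pr_apply]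
  by_cases htj : t ≤ j
  · obtain ⟨m, rfl⟩ : ∃ m, j = m + t := ⟨j - t, by omega⟩
    rw [Finset.sum_eq_single m]
    · simp only [El_same]
      have h1 : ∀ i, hcT t (m + t) d (c.1 (m + t) (Module.finBasis (ZMod 2) (X (m + t)) i)) =
          c.1 (m + t) (Module.finBasis (ZMod 2) (X (m + t)) i) := by
        intro i
        rw [hcT, if_pos (by omega)]
        exact homogeneousComponent_eq_self (ES_hom c (by omega) _)
      simp only [h1]
      have h2 := (Module.finBasis (ZMod 2) (X (m + t))).sum_repr x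
      conv_lhs => rw [← h2]
      rw [map_sum]
      simp only [map_smul]
      rw [sub_eq_zero]
      refine Finset.sum_congr rfl fun i _ => ?_
      rw [h2, Module.Basis.coord_apply]
    · intro b _ hb
      apply Finset.sum_eq_zero
      intro i _
      apply El_ne
      omega
    · intro h
      exfalso
      apply h
      rw [Finset.mem_range]
      omega
  · rw [ES_zero c (by omega), zero_sub, neg_eq_zero]
    apply Finset.sum_eq_zero
    intro m _
    apply Finset.sum_eq_zero
    intro i _
    apply El_ne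
    omega

end one

end SHU
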