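import Pool.Agent.SH.UA6

/-! Part 7: the retract argument. -/

namespace SHU
open MvPolynomial

universe u

theorem exists_lim : ∃ Λ : (ℕ → ZMod 2) →ₗ[ZMod 2] ZMod 2,
    (∀ a b : ℕ → ZMod 2, (∃ N, ∀ k ≥ N, a k = b k) → Λ a = Λ b) ∧ ∀ c, Λ (fun _ => c) = c := by
  let Z0 : Submodule (ZMod 2) (ℕ → ZMod 2) :=
    { carrier := {a | ∃ N, ∀ k ≥ N, a k = 0}
      add_mem' := by
        rintro a b ⟨N, hN⟩ ⟨M, hM⟩
        exact ⟨max N M, fun k hk => by
          rw [Pi.add_apply, hN k (le_trans (le_max_left _ _) hk),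
            hM k (le_trans (le_max_right _ _) hk), add_zero]⟩
      zero_mem' := ⟨0, fun _ _ => rfl⟩
      smul_mem' := by
        rintro c a ⟨N, hN⟩
        exact ⟨N, fun k hk => by rw [Pi.smul_apply, hN k hk, smul_zero]⟩ }
  have h1 : (fun _ => (1 : ZMod 2)) ∉ Z0 := by
    rintro ⟨N, hN⟩
    exact one_ne_zero (hN N (le_refl N))
  obtain ⟨Λ, hΛ1, hΛ⟩ := Submodule.exists_le_ker_of_notMem h1
  have h2 : Λ (fun _ => (1 : ZMod 2)) = 1 := by
    revert hΛ1
    generalize Λ (fun _ => (1 : ZMod 2)) = y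
    revert y
    decide
  refine ⟨Λ, ?_, ?_⟩
  · rintro a b ⟨N, hN⟩
    have : a - b ∈ Z0 := ⟨N, fun k hk => by rw [Pi.sub_apply, hN k hk, sub_self]⟩
    have h3 := hΛ this
    rw [LinearMap.mem_ker, map_sub, sub_eq_zero] at h3
    exact h3
  · intro c
    have : (fun _ : ℕ => c) = c • (fun _ : ℕ => (1 : ZMod 2)) := by
      funext k
      simp
    rw [this, map_smul, h2, smul_eq_mul, mul_one]

theorem exists_factor {A B : Type*} [AddCommGroup A] [Module (ZMod 2) A] [AddCommGroup B]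
    [Module (ZMod 2) B] (f : A →ₗ[ZMod 2] B) (φ : A →ₗ[ZMod 2] ZMod 2)
    (h : ∀ a, f a = 0 → φ a = 0) : ∃ ψ : B →ₗ[ZMod 2] ZMod 2, ∀ a, ψ (f a) = φ a := by
  have h1 : φ ∈ (LinearMap.ker f).dualAnnihilator := by
    rw [Submodule.mem_dualAnnihilator]
    intro a ha
    exact h a ha
  rw [← LinearMap.range_dualMap_eq_dualAnnihilator_ker] at h1
  obtain ⟨ψ, hψ⟩ := h1
  refine ⟨ψ, fun a => ?_⟩
  rw [← hψ]
  rfl

section
variable {X : ℕ → Type u} [∀ j, AddCommGroup (X j)] [∀ j, Module (ZMod 2) (X j)]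

/-- the space `P^n_t(V)` -/
def PNm (X : ℕ → Type u) [∀ j, AddCommGroup (X j)] [∀ j, Module (ZMod 2) (X j)] (t n : ℕ) :
    Submodule (ZMod 2) (∀ d, ES X t d →ₗ[ZMod 2] Pl d) where
  carrier := {p | IsPN t n p}
  add_mem' := fun ha hb => ha.add hb
  zero_mem' := IsPN.zero t n
  smul_mem' := fun c _ ha => ha.smul c

theorem thpr_IsPN (t j : ℕ) (x : X j) (k : ℕ) :
    IsPN t (2 ^ k) (fun d => (th (j - t) k d).comp (pr t j x d)) := by
  by_cases h : t ≤ j
  · exact (th_IsNP (j - t) k).comp_pn' (pr_IsPN (by omega) x)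
  · have h0 : (fun d => (th (j - t) k d).comp (pr t j x d)) = fun d => 0 := by
      funext d
      apply LinearMap.ext
      intro c
      rw [LinearMap.comp_apply, pr_apply, ES_zero c (by omega), map_zero, LinearMap.zero_apply]
    rw [h0]
    exact IsPN.zero t _

/-- `θ^k ∘ pr_x` as an element of `P^{2^k}_t` -/
noncomputable def thpr (t j k : ℕ) (x : X j) : PNm X t (2 ^ k) :=
  ⟨fun d => (th (j - t) k d).comp (pr t j x d), thpr_IsPN t j x k⟩

theorem thpr_add (t j k : ℕ) (x y : X j) : thpr t j k (x + y) = thpr t j k x + thpr t j k y := by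
  apply Subtype.ext
  funext d
  apply LinearMap.ext
  intro c
  change th (j - t) k d (c.1 j (x + y)) = th (j - t) k d (c.1 j x) + th (j - t) k d (c.1 j y)
  rw [map_add, map_add]

theorem thpr_smul (t j k : ℕ) (a : ZMod 2) (x : X j) :
    thpr t j k (a • x) = a • thpr t j k x := by
  apply Subtype.ext
  funext d
  apply LinearMap.ext
  intro c
  change th (j - t) k d (c.1 j (a • x)) = a • th (j - t) k d (c.1 j x)
  rw [map_smul, map_smul]

theorem thpr_zero (t j k : ℕ) (h : j < t) (x : X j) : thpr t j k x = 0 := by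
  apply Subtype.ext
  funext d
  apply LinearMap.ext
  intro c
  change th (j - t) k d (c.1 j x) = 0
  rw [ES_zero c h, map_zero]

/-- the element defined by a family of functionals on `P^{2^k}_t` -/
noncomputable def yel (t : ℕ) (Λ : (ℕ → ZMod 2) →ₗ[ZMod 2] ZMod 2)
    (ψ : ∀ k, PNm X t (2 ^ k) →ₗ[ZMod 2] ZMod 2) : ES X t 1 :=
  ⟨fun j =>
    { toFun := fun x => Λ (fun k => ψ k (thpr t j k x)) • (MvPolynomial.X 0 : Pl 1) ^ (j - t)
      map_add' := by
        intro x y
        rw [← add_smul, ← map_add]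
        congr 2
        funext k
        rw [thpr_add, map_add]
        rfl
      map_smul' := by
        intro a x
        rw [RingHom.id_apply, ← smul_assoc, ← map_smul]
        congr 2
        funext k
        rw [thpr_smul, map_smul]
        rfl }, by
    classical
    intro j x e he
    change coeff e (Λ (fun k => ψ k (thpr t j k x)) • (MvPolynomial.X 0 : Pl 1) ^ (j - t)) ≠ 0 at he
    by_cases h : j < t
    · exfalso
      apply he
      have h1 : (fun k => ψ k (thpr t j k x)) = (0 : ℕ → ZMod 2) := by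
        funext k
        rw [thpr_zero t j k h, map_zero]
        rfl
      rw [h1, map_zero, zero_smul, coeff_zero]
    · rw [coeff_smul, smul_eq_mul] at he
      have h1 := right_ne_zero_of_mul he
      rw [X_pow_eq_monomial, coeff_monomial] at h1
      split_ifs at h1 with h2
      · rw [← h2, Finsupp.degree_single]
        omega
      · exact absurd rfl h1⟩

theorem yel_apply (t : ℕ) (Λ : (ℕ → ZMod 2) →ₗ[ZMod 2] ZMod 2)
    (ψ : ∀ k, PNm X t (2 ^ k) →ₗ[ZMod 2] ZMod 2) (j : ℕ) (x : X j) :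
    (yel t Λ ψ).1 j x = Λ (fun k => ψ k (thpr t j k x)) • (MvPolynomial.X 0 : Pl 1) ^ (j - t) := rfl

/-- `θ^k ∘ p` as an element of `P^{2^k}_t` -/
noncomputable def thp {t n : ℕ} (k : ℕ) {p : ∀ d, ES X t d →ₗ[ZMod 2] Pl d} (hp : IsPN t n p) :
    PNm X t (2 ^ k) :=
  ⟨fun d => (th n k d).comp (p d), (th_IsNP n k).comp_pn' hp⟩

/-- the Yoneda type property of `yel` -/
theorem yel_prop [∀ j, Module.Finite (ZMod 2) (X j)] (t : ℕ)
    (Λ : (ℕ → ZMod 2) →ₗ[ZMod 2] ZMod 2)
    (hΛ : ∀ a b : ℕ → ZMod 2, (∃ N, ∀ k ≥ N, a k = b k) → Λ a = Λ b)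
    (ψ : ∀ k, PNm X t (2 ^ k) →ₗ[ZMod 2] ZMod 2) {n : ℕ}
    {p : ∀ d, ES X t d →ₗ[ZMod 2] Pl d} (hp : IsPN t n p) :
    p 1 (yel t Λ ψ) = Λ (fun k => ψ k (thp k hp)) • (MvPolynomial.X 0 : Pl 1) ^ n := by
  classical
  rw [hp.decomp 1]
  have hR : Λ (fun k => ψ k (thp k hp)) =
      ∑ m ∈ Finset.range (n + 1), ∑ i,
        ev m n (fun d => (p d).comp (El t (m + t) ((Module.finBasis (ZMod 2) (X (m + t))).coord i) d)) *
          Λ (fun k => ψ k (thpr t (m + t) k (Module.finBasis (ZMod 2) (X (m + t)) i))) := by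
    have h1 : ∀ (m : ℕ) (i : Fin (Module.finrank (ZMod 2) (X (m + t)))),
        ev m n (fun d => (p d).comp (El t (m + t) ((Module.finBasis (ZMod 2) (X (m + t))).coord i) d)) *
          Λ (fun k => ψ k (thpr t (m + t) k (Module.finBasis (ZMod 2) (X (m + t)) i))) =
        Λ (ev m n (fun d => (p d).comp (El t (m + t) ((Module.finBasis (ZMod 2) (X (m + t))).coord i) d)) •
          (fun k => ψ k (thpr t (m + t) k (Module.finBasis (ZMod 2) (X (m + t)) i)))) := by
      intro m i
      rw [map_smul, smul_eq_mul]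
    simp only [h1]
    simp only [← map_sum]
    apply hΛ
    refine ⟨2 * n, fun k hk => ?_⟩
    rw [Finset.sum_apply]
    simp only [Finset.sum_apply, Pi.smul_apply]
    simp only [← map_smul, ← map_sum]
    congr 1
    apply Subtype.ext
    funext d
    apply LinearMap.ext
    intro c
    have h2 : ∀ (s : PNm X t (2 ^ k)), (s.1 d) c = (LinearMap.applyₗ c ∘ₗ
      (LinearMap.proj d : (∀ d, ES X t d →ₗ[ZMod 2] Pl d) →ₗ[ZMod 2] _) ∘ₗ
        (PNm X t (2 ^ k)).subtype) s := fun _ => rfl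
    rw [h2, h2, map_sum]
    simp only [map_sum]
    simp only [← h2]
    change th n k d (p d c) = _
    rw [hp.decomp d c, map_sum]
    refine Finset.sum_congr rfl fun m hm => ?_
    rw [map_sum]
    refine Finset.sum_congr rfl fun i _ => ?_
    rw [Finset.mem_range] at hm
    have h3 := th_comp (psi_IsNP (show m + t = m + t from rfl) hp
      ((Module.finBasis (ZMod 2) (X (m + t))).coord i)) k (by omega) d
      (c.1 (m + t) (Module.finBasis (ZMod 2) (X (m + t)) i))
    rw [LinearMap.comp_apply] at h3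
    rw [h3]
    change _ = ev m n (fun d => (p d).comp
      (El t (m + t) ((Module.finBasis (ZMod 2) (X (m + t))).coord i) d)) •
      th (m + t - t) k d (c.1 (m + t) (Module.finBasis (ZMod 2) (X (m + t)) i))
    rw [Nat.add_sub_cancel]
  rw [hR, Finset.sum_smul]
  refine Finset.sum_congr rfl fun m _ => ?_
  rw [Finset.sum_smul]
  refine Finset.sum_congr rfl fun i _ => ?_
  have h4 := (psi_IsNP (show m + t = m + t from rfl) hp
      ((Module.finBasis (ZMod 2) (X (m + t))).coord i)).ev_eq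
  rw [LinearMap.comp_apply] at h4
  rw [yel_apply, Nat.add_sub_cancel, map_smul, map_smul, h4, smul_smul, mul_comm]

end

section
variable {W : ℕ → Type u} [∀ j, AddCommGroup (W j)] [∀ j, Module (ZMod 2) (W j)]
variable {X : ℕ → Type u} [∀ j, AddCommGroup (X j)] [∀ j, Module (ZMod 2) (X j)]
variable {Y : ℕ → Type u} [∀ j, AddCommGroup (Y j)] [∀ j, Module (ZMod 2) (Y j)]

/-- THE RETRACT LEMMA: exactness on `P^n_t` for `n = 2^k` large gives exactness of
`E^t(B;-)` (reduced part). -/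
theorem retract_lemma [∀ j, Module.Finite (ZMod 2) (W j)] (t : ℕ)
    (α : ∀ d, ES W t d →ₗ[ZMod 2] ES X t d) (hα : IsNT t α)
    (β : ∀ d, ES X t d →ₗ[ZMod 2] ES Y t d)
    (k0 : ℕ) (hex : ∀ k ≥ k0, ∀ p : ∀ d, ES X t d →ₗ[ZMod 2] Pl d, IsPN t (2 ^ k) p →
      (∀ d c, p d (α d c) = 0) → ∃ r : ∀ d, ES Y t d →ₗ[ZMod 2] Pl d, ∀ d c, p d c = r d (β d c))
    (z : ES X t 1) (hz : z.1 t = 0) (hβz : β 1 z = 0) :
    ∃ y : ES W t 1, y.1 t = 0 ∧ α 1 y = z := by
  classical
  obtain ⟨Λ, hΛ, hΛc⟩ := exists_lim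
  -- precomposition with `α`
  let pull : ∀ k, PNm X t (2 ^ k) →ₗ[ZMod 2] PNm W t (2 ^ k) := fun k =>
    { toFun := fun p => ⟨fun d => (p.1 d).comp (α d), IsPN.comp p.2 hα⟩
      map_add' := fun p q => rfl
      map_smul' := fun a p => rfl }
  let φ : ∀ k, PNm X t (2 ^ k) →ₗ[ZMod 2] ZMod 2 := fun k =>
    { toFun := fun p => coeff (Finsupp.single 0 (2 ^ k)) (p.1 1 z)
      map_add' := fun p q => rfl
      map_smul' := fun a p => rfl }
  have hψ : ∀ k, ∃ ψ : PNm W t (2 ^ k) →ₗ[ZMod 2] ZMod 2, k0 ≤ k → ∀ p, ψ (pull k p) = φ k p := by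
    intro k
    by_cases hk : k0 ≤ k
    · obtain ⟨ψ, hψ⟩ := exists_factor (pull k) (φ k) (by
        intro p hp
        obtain ⟨r, hr⟩ := hex k hk p.1 p.2 (by
          intro d c
          have h1 := congrArg Subtype.val hp
          have h2 := congrFun h1 d
          exact DFunLike.congr_fun h2 c)
        change coeff (Finsupp.single 0 (2 ^ k)) (p.1 1 z) = 0
        rw [hr, hβz, map_zero, coeff_zero])
      exact ⟨ψ, fun _ => hψ⟩
    · exact ⟨0, fun h => absurd h hk⟩
  choose ψ hψ using hψ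
  have hred : (yel t Λ ψ).1 t = 0 := by
    apply LinearMap.ext
    intro x
    rw [yel_apply]
    have h1 : (fun k => ψ k (thpr t t k x)) = (0 : ℕ → ZMod 2) := by
      funext k
      have h2 : thpr t t k x = 0 := by
        apply Subtype.ext
        funext d
        apply LinearMap.ext
        intro c
        change th (t - t) k d (c.1 t x) = 0
        rw [Nat.sub_self, th_apply, homogeneousComponent_zero, alg_C]
        apply homogeneousComponent_eq_zero
        rw [MvPolynomial.algebraMap_eq, totalDegree_C]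
        positivity
      rw [h2, map_zero]
      rfl
    rw [h1, map_zero, zero_smul]
    rfl
  refine ⟨yel t Λ ψ, hred, ?_⟩
  apply ES_ext
  intro j x
  rcases lt_trichotomy j t with h | h | h
  · rw [ES_zero _ h, ES_zero _ h]
  · subst h
    rw [hz]
    have h1 := hα.cont 1 (yel j Λ ψ) j (fun i hi => by
      rcases Nat.lt_or_eq_of_le hi with h2 | h2
      · apply LinearMap.ext
        intro x
        rw [ES_zero _ h2]
        rfl
      · subst h2
        exact hred) j (le_refl j)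
    rw [h1]
  · have hp := pr_IsPN (X := X) (show (j - t) + t = j by omega) x
    have hpα := hp.comp hα
    have h1 := yel_prop t Λ hΛ ψ hpα
    rw [LinearMap.comp_apply, pr_apply] at h1
    rw [h1]
    -- value of `z`
    have h2 : z.1 j x = coeff (Finsupp.single 0 (j - t)) (z.1 j x) • MvPolynomial.X 0 ^ (j - t) :=
      hom_one _ _ (ES_hom z (by omega) x)
    conv_rhs => rw [h2]
    congr 1
    rw [← hΛc (coeff (Finsupp.single 0 (j - t)) (z.1 j x))]
    apply hΛ
    refine ⟨max k0 (j - t), fun k hk => ?_⟩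
    have hk1 : k0 ≤ k := le_trans (le_max_left _ _) hk
    have hk2 : j - t ≤ k := le_trans (le_max_right _ _) hk
    have h3 : thp k hpα = pull k (thp k hp) := rfl
    rw [h3, hψ k hk1]
    change coeff (Finsupp.single 0 (2 ^ k)) (th (j - t) k 1 (z.1 j x)) = _
    rw [h2, map_smul, (th_IsNP (j - t) k).ev_eq, ev_th (j - t) k (by omega) (by omega), one_smul,
      coeff_smul, X_pow_eq_monomial, coeff_monomial, if_pos rfl, smul_eq_mul, mul_one,
      coeff_smul, X_pow_eq_monomial, coeff_monomial, if_pos rfl, smul_eq_mul, mul_one]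

end
end SHU
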