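import Pool.Agent.SH.UA7

/-! Part 8: the loop step. -/

namespace SHU
open MvPolynomial

universe u

/-- coefficient of `X_0^1` -/
noncomputable def co1 (d : ℕ) : Pl (d + 1) →ₗ[ZMod 2] Pl d :=
  ((Polynomial.lcoeff (Pl d) 1).restrictScalars (ZMod 2)).comp
    (finSuccEquiv (ZMod 2) d).toAlgHom.toLinearMap

theorem co1_apply (d : ℕ) (y : Pl (d + 1)) :
    co1 d y = (finSuccEquiv (ZMod 2) d y).coeff 1 := rfl

theorem coeff_co1 (d : ℕ) (y : Pl (d + 1)) (e : Fin d →₀ ℕ) :
    coeff e (co1 d y) = coeff (Finsupp.cons 1 e) y := by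
  rw [co1_apply, finSuccEquiv_coeff_coeff]

theorem cons_degree {d : ℕ} (a : ℕ) (e : Fin d →₀ ℕ) :
    (Finsupp.cons a e).degree = a + e.degree := by
  rw [Finsupp.degree_eq_sum, Finsupp.degree_eq_sum, Fin.sum_univ_succ]
  simp

theorem fse_rename_succ (d : ℕ) (y : Pl d) :
    finSuccEquiv (ZMod 2) d (rename Fin.succ y) = Polynomial.C y := by
  have h : ((finSuccEquiv (ZMod 2) d).toAlgHom.comp (rename Fin.succ) :
      Pl d →ₐ[ZMod 2] Polynomial (Pl d)) = Polynomial.CAlgHom (R := ZMod 2) (A := Pl d) := by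
    apply MvPolynomial.algHom_ext
    intro j
    simp [finSuccEquiv_X_succ]
  have := DFunLike.congr_fun h y
  simpa using this

theorem co1_X_rename (d : ℕ) (y : Pl d) : co1 d (X 0 * rename Fin.succ y) = y := by
  rw [co1_apply, map_mul, fse_rename_succ, finSuccEquiv_X_zero, Polynomial.coeff_X_mul,
    Polynomial.coeff_C_zero]

theorem co1_hom {d n : ℕ} {y : Pl (d + 1)} (h : y.IsHomogeneous (n + 1)) :
    (co1 d y).IsHomogeneous n := by
  rw [isHom_iff] at h ⊢
  intro e he
  rw [coeff_co1] at he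
  have := h _ he
  rw [cons_degree] at this
  omega

/-- `1 ⊕ L` -/
def L1 {d' d : ℕ} (L : Fin d' → Fin d → ZMod 2) : Fin (d' + 1) → Fin (d + 1) → ZMod 2 :=
  Fin.cons (fun i => if i = 0 then 1 else 0) (fun j => Fin.cons 0 (L j))

theorem lin_L1_zero {d' d : ℕ} (L : Fin d' → Fin d → ZMod 2) : lin (L1 L) (X 0) = X 0 := by
  rw [lin_X, Fin.sum_univ_succ, Finset.sum_eq_zero]
  · simp [L1]
  · intro i _
    simp [L1, Fin.succ_ne_zero]

theorem lin_L1_rename {d' d : ℕ} (L : Fin d' → Fin d → ZMod 2) (y : Pl d') :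
    lin (L1 L) (rename Fin.succ y) = rename Fin.succ (lin L y) := by
  have h : ((lin (L1 L)).comp (rename Fin.succ) : Pl d' →ₐ[ZMod 2] Pl (d + 1)) =
      (rename Fin.succ).comp (lin L) := by
    apply MvPolynomial.algHom_ext
    intro j
    rw [AlgHom.comp_apply, AlgHom.comp_apply, rename_X, lin_X, lin_X, Fin.sum_univ_succ, map_sum]
    simp only [L1, Fin.cons_succ, Fin.cons_zero, C_0, zero_mul, zero_add, map_mul, rename_C,
      rename_X]
  exact DFunLike.congr_fun h y

theorem fse_lin_L1 {d' d : ℕ} (L : Fin d' → Fin d → ZMod 2) (y : Pl (d' + 1)) :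
    finSuccEquiv (ZMod 2) d (lin (L1 L) y) =
      Polynomial.mapAlgHom (lin L) (finSuccEquiv (ZMod 2) d' y) := by
  have h : ((finSuccEquiv (ZMod 2) d).toAlgHom.comp (lin (L1 L)) :
      Pl (d' + 1) →ₐ[ZMod 2] Polynomial (Pl d)) =
      (Polynomial.mapAlgHom (lin L)).comp (finSuccEquiv (ZMod 2) d').toAlgHom := by
    apply MvPolynomial.algHom_ext
    intro j
    refine Fin.cases ?_ (fun j => ?_) j
    · have h1 : finSuccEquiv (ZMod 2) d (lin (L1 L) (X 0)) = Polynomial.X := by
        rw [lin_L1_zero, finSuccEquiv_X_zero]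
      simpa [finSuccEquiv_X_zero] using h1
    · have h1 : finSuccEquiv (ZMod 2) d (lin (L1 L) (X j.succ)) = Polynomial.C (lin L (X j)) := by
        have : (X j.succ : Pl (d' + 1)) = rename Fin.succ (X j) := by rw [rename_X]
        rw [this, lin_L1_rename, fse_rename_succ]
      simpa [finSuccEquiv_X_succ] using h1
  have := DFunLike.congr_fun h y
  simpa using this

theorem co1_lin {d' d : ℕ} (L : Fin d' → Fin d → ZMod 2) (y : Pl (d' + 1)) :
    co1 d (lin (L1 L) y) = lin L (co1 d' y) := by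
  rw [co1_apply, co1_apply, fse_lin_L1]
  simp

section
variable {X : ℕ → Type u} [∀ j, AddCommGroup (X j)] [∀ j, Module (ZMod 2) (X j)]

/-- `h ↦ X_0 · h` -/
noncomputable def iota (t d : ℕ) : ES X (t + 1) d →ₗ[ZMod 2] ES X t (d + 1) where
  toFun c := ⟨fun j => ((LinearMap.mulLeft (ZMod 2) (MvPolynomial.X 0 : Pl (d + 1))).comp
    (rename Fin.succ : Pl d →ₐ[ZMod 2] Pl (d + 1)).toLinearMap).comp (c.1 j), by
    intro j x e he
    change coeff e (MvPolynomial.X 0 * rename Fin.succ (c.1 j x)) ≠ 0 at he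
    by_cases h : t + 1 ≤ j
    · have h1 : ((MvPolynomial.X 0 : Pl (d + 1)) * rename Fin.succ (c.1 j x)).IsHomogeneous
          (1 + (j - (t + 1))) :=
        (isHomogeneous_X _ _).mul ((ES_hom c h x).rename_isHomogeneous)
      have := (isHom_iff _).mp h1 e he
      omega
    · exfalso
      apply he
      rw [ES_zero c (by omega), map_zero, mul_zero, coeff_zero]⟩
  map_add' c c' := by
    apply Subtype.ext
    funext j
    exact LinearMap.comp_add _ _ _
  map_smul' a c := by
    apply Subtype.ext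
    funext j
    exact LinearMap.comp_smul _ _ _

theorem iota_apply (t d : ℕ) (c : ES X (t + 1) d) (j : ℕ) (x : X j) :
    (iota t d c).1 j x = MvPolynomial.X 0 * rename Fin.succ (c.1 j x) := rfl

/-- restriction of the variable `X_0` to the circle -/
noncomputable def DD (t d : ℕ) : ES X t (d + 1) →ₗ[ZMod 2] ES X (t + 1) d where
  toFun c := ⟨fun j => (co1 d).comp (c.1 j), by
    intro j x e he
    change coeff e (co1 d (c.1 j x)) ≠ 0 at he
    rw [coeff_co1] at he
    have := c.2 j x _ he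
    rw [cons_degree] at this
    omega⟩
  map_add' c c' := by
    apply Subtype.ext
    funext j
    exact LinearMap.comp_add _ _ _
  map_smul' a c := by
    apply Subtype.ext
    funext j
    exact LinearMap.comp_smul _ _ _

theorem DD_apply (t d : ℕ) (c : ES X t (d + 1)) (j : ℕ) (x : X j) :
    (DD t d c).1 j x = co1 d (c.1 j x) := rfl

theorem DD_iota (t d : ℕ) (c : ES X (t + 1) d) : DD t d (iota t d c) = c := by
  apply ES_ext
  intro j x
  rw [DD_apply, iota_apply, co1_X_rename]

theorem iota_subs {t d' d : ℕ} (L : Fin d' → Fin d → ZMod 2) (c : ES X (t + 1) d') :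
    iota t d (subs L c) = subs (L1 L) (iota t d' c) := by
  apply ES_ext
  intro j x
  rw [iota_apply, subs_apply, subs_apply, iota_apply, map_mul, lin_L1_zero, lin_L1_rename]

/-- the loop `σ p` of a natural transformation -/
noncomputable def sg (t : ℕ) (p : ∀ d, ES X t d →ₗ[ZMod 2] Pl d) (d : ℕ) :
    ES X (t + 1) d →ₗ[ZMod 2] Pl d := (co1 d).comp ((p (d + 1)).comp (iota t d))

theorem sg_apply (t : ℕ) (p : ∀ d, ES X t d →ₗ[ZMod 2] Pl d) (d : ℕ) (c : ES X (t + 1) d) :
    sg t p d c = co1 d (p (d + 1) (iota t d c)) := rfl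

theorem sg_IsPN {t n : ℕ} {p : ∀ d, ES X t d →ₗ[ZMod 2] Pl d} (hp : IsPN t (n + 1) p) :
    IsPN (t + 1) n (sg t p) where
  nat := fun L c => by
    rw [sg_apply, sg_apply, iota_subs, hp.nat, co1_lin]
  cod := fun d c => co1_hom (hp.cod _ _)
  cont := fun d c hc => by
    rw [sg_apply, hp.cont, map_zero]
    intro j hj
    apply LinearMap.ext
    intro x
    rw [iota_apply, hc j (by omega), LinearMap.zero_apply, map_zero, mul_zero]
    rfl

/-- a natural operation does not create `X_0^1` -/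
theorem IsNP.co1_zero {m n d : ℕ} {f : ∀ d, Pl d →ₗ[ZMod 2] Pl d} (hf : IsNP m n f)
    (y : Pl (d + 1)) (hy : co1 d y = 0) : co1 d (f (d + 1) y) = 0 := by
  classical
  rw [hf.dom, homogeneousComponent_apply, map_sum, map_sum]
  apply Finset.sum_eq_zero
  intro e he
  rw [Finset.mem_filter] at he
  obtain ⟨π, hπ⟩ := exists_pi m e he.2
  have he0 : e 0 ≠ 1 := by
    intro h0
    rw [mem_support_iff] at he
    apply he.1
    have h1 := Finsupp.cons_tail e
    rw [h0] at h1
    rw [← h1, ← coeff_co1, hy, coeff_zero]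
  have hmon : (monomial e (coeff e y) : Pl (d + 1)) =
      (coeff e y) • monomial e (1 : ZMod 2) := by
    rw [smul_monomial, smul_eq_mul, mul_one]
  rw [hmon, map_smul, map_smul]
  suffices hs : co1 d (f (d + 1) (monomial e (1 : ZMod 2))) = 0 by rw [hs, smul_zero]
  rw [← hπ, hf.mono, hf.Un_eq n (le_refl n), map_sum, map_sum]
  apply Finset.sum_eq_zero
  intro a _
  rw [map_smul, map_smul]
  have hz : co1 d (rename π (monomial (xp a) (1 : ZMod 2))) = 0 := by
    ext e'
    rw [coeff_co1, rename_monomial, coeff_monomial, if_neg, coeff_zero]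
    intro h
    have h1 := DFunLike.congr_fun h 0
    rw [Finsupp.cons_zero, xp, Finsupp.mapDomain_finsetSum, Finsupp.finsetSum_apply] at h1
    simp only [Finsupp.mapDomain_single, Finsupp.single_apply] at h1
    have h2 : e 0 = ∑ k, if π k = 0 then 1 else 0 := by
      rw [← hπ, Finsupp.finsetSum_apply]
      simp only [Finsupp.single_apply]
    have h3 : e 0 ≤ 1 := by
      refine le_trans (le_of_eq h2) (le_trans ?_ (le_of_eq h1))
      apply Finset.sum_le_sum
      intro k _
      split_ifs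
      · exact Nat.one_le_two_pow
      · exact le_refl _
    have h4 : e 0 = 0 := by omega
    rw [h4] at h2
    have h5 : ∀ k, π k ≠ 0 := by
      intro k hk
      have h6 : (if π k = 0 then 1 else 0) ≤ ∑ k, if π k = 0 then 1 else 0 :=
        Finset.single_le_sum (f := fun k => if π k = 0 then 1 else 0)
          (fun _ _ => Nat.zero_le _) (Finset.mem_univ k)
      rw [if_pos hk, ← h2] at h6
      omega
    rw [Finset.sum_eq_zero] at h1
    · omega
    · intro k _
      rw [if_neg (h5 k)]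
  rw [hz, smul_zero]

theorem IsPN.co1_zero [∀ j, Module.Finite (ZMod 2) (X j)] {t n : ℕ}
    {p : ∀ d, ES X t d →ₗ[ZMod 2] Pl d} (hp : IsPN t n p) (d : ℕ) (h : ES X t (d + 1))
    (hh : DD t d h = 0) : co1 d (p (d + 1) h) = 0 := by
  rw [hp.decomp, map_sum]
  apply Finset.sum_eq_zero
  intro m _
  rw [map_sum]
  apply Finset.sum_eq_zero
  intro i _
  have h1 := (psi_IsNP (show m + t = m + t from rfl) hp
    ((Module.finBasis (ZMod 2) (X (m + t))).coord i)).co1_zero
    (h.1 (m + t) (Module.finBasis (ZMod 2) (X (m + t)) i)) (by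
      rw [← DD_apply, hh]
      rfl)
  exact h1

end

section
variable {X : ℕ → Type u} [∀ j, AddCommGroup (X j)] [∀ j, Module (ZMod 2) (X j)]
variable {Y : ℕ → Type u} [∀ j, AddCommGroup (Y j)] [∀ j, Module (ZMod 2) (Y j)]

/-- compatibility of the transformations for `t` and `t + 1` -/
def Compat (t : ℕ) (α : ∀ d, ES X t d →ₗ[ZMod 2] ES Y t d)
    (α' : ∀ d, ES X (t + 1) d →ₗ[ZMod 2] ES Y (t + 1) d) : Prop :=
  ∀ d (c : ES X t (d + 1)), α' d (DD t d c) = DD t d (α (d + 1) c)

theorem sg_comp [∀ j, Module.Finite (ZMod 2) (Y j)] {t n : ℕ}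
    {α : ∀ d, ES X t d →ₗ[ZMod 2] ES Y t d} {α' : ∀ d, ES X (t + 1) d →ₗ[ZMod 2] ES Y (t + 1) d}
    (hc : Compat t α α') {p : ∀ d, ES Y t d →ₗ[ZMod 2] Pl d} (hp : IsPN t n p) (d : ℕ)
    (c : ES X (t + 1) d) : sg t (fun d => (p d).comp (α d)) d c = sg t p d (α' d c) := by
  rw [sg_apply, sg_apply, LinearMap.comp_apply, ← sub_eq_zero, ← map_sub, ← map_sub]
  apply hp.co1_zero
  rw [map_sub, ← hc, DD_iota, DD_iota, sub_self]

end

end SHU
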