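import Pool.Agent.SH.UA8

/-! Part 9: surjectivity and kernel of the loop map, the loop lemma. -/

namespace SHU
open MvPolynomial

universe u

theorem ty_cons {m : ℕ} (a0 : ℕ) (a : Fin m → ℕ) :
    ty (Fin.cons a0 a : Fin (m + 1) → ℕ) = Finsupp.single a0 1 + ty a := by
  rw [ty, Fin.sum_univ_succ]
  simp only [Fin.cons_zero, Fin.cons_succ]
  rfl

theorem co1_xp {m : ℕ} (a : Fin (m + 1) → ℕ) :
    co1 m (monomial (xp a) (1 : ZMod 2)) =
      if a 0 = 0 then monomial (xp (fun i => a i.succ)) 1 else 0 := by
  classical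
  have hx : xp a = Finsupp.cons (2 ^ (a 0)) (xp (fun i => a i.succ)) := by
    ext i
    refine Fin.cases ?_ (fun i => ?_) i
    · rw [Finsupp.cons_zero, xp_apply]
    · rw [Finsupp.cons_succ, xp_apply, xp_apply]
  ext e
  rw [coeff_co1, coeff_monomial, hx]
  by_cases h : a 0 = 0
  · rw [if_pos h, coeff_monomial, h, pow_zero]
    by_cases h2 : xp (fun i => a i.succ) = e
    · rw [h2, if_pos rfl, if_pos rfl]
    · rw [if_neg h2, if_neg]
      intro h3
      apply h2
      have := congrArg Finsupp.tail h3
      simpa using this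
  · rw [if_neg h, if_neg, coeff_zero]
    intro h3
    have h4 := DFunLike.congr_fun h3 0
    rw [Finsupp.cons_zero, Finsupp.cons_zero] at h4
    have h5 : 1 < 2 ^ (a 0) := Nat.one_lt_two_pow h
    omega

/-- the loop of a natural operation -/
noncomputable def sgn (m : ℕ) (f : ∀ d, Pl d →ₗ[ZMod 2] Pl d) (d : ℕ) : Pl d →ₗ[ZMod 2] Pl d where
  toFun y := co1 d (f (d + 1) (X 0 * rename Fin.succ (homogeneousComponent m y)))
  map_add' x y := by
    rw [map_add, map_add, mul_add, map_add, map_add]
  map_smul' a y := by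
    rw [map_smul, map_smul, mul_smul_comm, map_smul, map_smul, RingHom.id_apply]

theorem sgn_apply (m : ℕ) (f : ∀ d, Pl d →ₗ[ZMod 2] Pl d) (d : ℕ) (y : Pl d) :
    sgn m f d y = co1 d (f (d + 1) (X 0 * rename Fin.succ (homogeneousComponent m y))) := rfl

theorem IsNP.sgn {m n : ℕ} {f : ∀ d, Pl d →ₗ[ZMod 2] Pl d} (hf : IsNP (m + 1) (n + 1) f) :
    IsNP m n (sgn m f) where
  nat := fun {d' d} L x => by
    rw [sgn_apply, sgn_apply, ← co1_lin, ← hf.nat, map_mul (lin (L1 L)), lin_L1_zero,
      lin_L1_rename, hc_lin]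
  dom := fun d x => by
    rw [sgn_apply, sgn_apply,
      homogeneousComponent_eq_self (homogeneousComponent_isHomogeneous m x)]
  cod := fun d x => co1_hom (hf.cod _ _)

theorem op_surj {m n : ℕ} {f : ∀ d, Pl d →ₗ[ZMod 2] Pl d} (hf : IsNP m n f) :
    ∃ g : ∀ d, Pl d →ₗ[ZMod 2] Pl d, IsNP (m + 1) (n + 1) g ∧
      ∀ d (y : Pl d), y.IsHomogeneous m → co1 d (g (d + 1) (X 0 * rename Fin.succ y)) = f d y := by
  classical
  let q : (ℕ →₀ ℕ) → ZMod 2 := fun M =>
    if 1 ≤ M 0 then mt m f (M - Finsupp.single 0 1) else 0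
  have hq : ∀ a : Fin m → ℕ, q (ty (Fin.cons 0 a : Fin (m + 1) → ℕ)) = mt m f (ty a) := by
    intro a
    simp only [q]
    rw [ty_cons, if_pos, add_tsub_cancel_left]
    rw [Finsupp.add_apply, Finsupp.single_eq_same]
    omega
  have hg : IsNP (m + 1) (n + 1) (op (n + 1) (m + 1) q) := by
    apply op_IsNP
    intro a ha
    -- some entry vanishes
    have h0 : 1 ≤ (ty a) 0 := by
      by_contra hc
      apply ha
      simp only [q]
      rw [if_neg hc]
    obtain ⟨i, hi⟩ : ∃ i, a i = 0 := by
      by_contra hc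
      push Not at hc
      rw [ty, Finsupp.finsetSum_apply, Finset.sum_eq_zero] at h0
      · omega
      · intro i _
        rw [Finsupp.single_apply, if_neg (hc i)]
    have h1 : ∃ b : Fin m → ℕ, ty (Fin.cons 0 b : Fin (m + 1) → ℕ) = ty a ∧
        ∑ i, 2 ^ (a i) = 1 + ∑ i, 2 ^ (b i) := by
      refine ⟨fun j => a (i.succAbove j), ?_, ?_⟩
      · rw [ty_cons, ty, ty, Fin.sum_univ_succAbove _ i, hi]
      · rw [Fin.sum_univ_succAbove _ i, hi, pow_zero]
    obtain ⟨b, hb, hab⟩ := h1
    rw [← hb, hq] at ha
    rw [hab, hf.mt_ty_sum b ha]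
    omega
  refine ⟨op (n + 1) (m + 1) q, hg, ?_⟩
  have key := hg.sgn.ext hf (by
    rw [sgn_apply, homogeneousComponent_eq_self (Un_hom m), ← Un_succ, op_Un, map_sum]
    simp only [map_smul, co1_xp]
    rw [hf.Un_eq (n + 1) (by omega)]
    simp only [smul_ite, smul_zero]
    rw [← Finset.sum_filter]
    refine Finset.sum_nbij' (fun a i => a i.succ) (fun b => Fin.cons 0 b) ?_ ?_ ?_ ?_ ?_
    · intro a ha
      rw [Finset.mem_filter, Fintype.mem_piFinset] at ha
      rw [Fintype.mem_piFinset]
      intro i
      exact ha.1 i.succ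
    · intro b hb
      rw [Fintype.mem_piFinset] at hb
      rw [Finset.mem_filter, Fintype.mem_piFinset]
      refine ⟨fun i => ?_, by simp⟩
      refine Fin.cases ?_ (fun i => ?_) i
      · simp
      · simpa using hb i
    · intro a ha
      rw [Finset.mem_filter] at ha
      funext i
      refine Fin.cases ?_ (fun i => ?_) i
      · simp [ha.2]
      · simp
    · intro b _
      funext i
      simp
    · intro a ha
      rw [Finset.mem_filter] at ha
      have : a = Fin.cons 0 (fun i => a i.succ) := by
        funext i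
        refine Fin.cases ?_ (fun i => ?_) i
        · simp [ha.2]
        · simp
      rw [this, hq]
      simp)
  intro d y hy
  have h1 := DFunLike.congr_fun (congrFun key d) y
  rw [sgn_apply, homogeneousComponent_eq_self hy] at h1
  exact h1

/-- kernel of the loop map on operations, even degree -/
theorem op_ker_even {m n : ℕ} (hn : 0 < n) {f : ∀ d, Pl d →ₗ[ZMod 2] Pl d} (hf : IsNP m (2 * n) f)
    (h : ∀ m', m = m' + 1 → ∀ d (y : Pl d), y.IsHomogeneous m' →
      co1 d (f (d + 1) (X 0 * rename Fin.succ y)) = 0) :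
    ∃ g : ∀ d, Pl d →ₗ[ZMod 2] Pl d, IsNP m n g ∧ ∀ d y, f d y = sqL d (g d y) := by
  classical
  have hpos : ∀ a : Fin m → ℕ, mt m f (ty a) ≠ 0 → ∀ i, 1 ≤ a i := by
    intro a ha i
    by_contra hc
    have hai : a i = 0 := by omega
    obtain ⟨m', rfl⟩ : ∃ m', m = m' + 1 := ⟨m - 1, by have := i.pos; omega⟩
    have h1 := h m' rfl m' (Un m') (Un_hom m')
    rw [← Un_succ, hf.Un_eq (2 * n) (le_refl _), map_sum] at h1
    simp only [map_smul, co1_xp] at h1
    -- look at the coefficient of the tuple with `a i` removed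
    have h2 := congrArg (coeff (xp (fun j => a (i.succAbove j)))) h1
    rw [coeff_sum, coeff_zero] at h2
    simp only [coeff_smul, smul_eq_mul] at h2
    have hty : ty (Fin.cons 0 (fun j => a (i.succAbove j)) : Fin (m' + 1) → ℕ) = ty a := by
      rw [ty_cons, ty, ty, Fin.sum_univ_succAbove _ i, hai]
    rw [Finset.sum_eq_single (Fin.cons 0 (fun j => a (i.succAbove j)) : Fin (m' + 1) → ℕ)] at h2
    · rw [hty] at h2
      simp only [Fin.cons_zero, Fin.cons_succ, if_true, coeff_monomial] at h2
      apply ha
      simpa using h2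
    · intro b _ hb
      by_cases hb0 : b 0 = 0
      · rw [if_pos hb0, coeff_monomial, if_neg, mul_zero]
        intro hx
        apply hb
        have h3 := xp_inj hx
        funext j
        refine Fin.cases ?_ (fun j => ?_) j
        · simp [hb0]
        · have := congrFun h3 j
          simpa using this
      · rw [if_neg hb0, coeff_zero, mul_zero]
    · intro hnm
      exfalso
      apply hnm
      rw [Fintype.mem_piFinset]
      have hs := hf.mt_ty_sum a ha
      have hlt : ∀ j, a j < 2 * n := by
        intro j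
        have h2 : 2 ^ (a j) ≤ ∑ i, 2 ^ (a i) :=
          Finset.single_le_sum (f := fun i => 2 ^ (a i)) (fun _ _ => Nat.zero_le _)
            (Finset.mem_univ j)
        have h3 : a j < 2 ^ (a j) := Nat.lt_two_pow_self
        omega
      intro j
      rw [Finset.mem_range]
      refine Fin.cases ?_ (fun j => ?_) j
      · simp
        omega
      · simpa using hlt (i.succAbove j)
  let q : (ℕ →₀ ℕ) → ZMod 2 := fun M => mt m f (M.mapDomain Nat.succ)
  have hq : ∀ a : Fin m → ℕ, q (ty a) = mt m f (ty (fun i => a i + 1)) := by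
    intro a
    simp only [q]
    congr 1
    rw [ty, ty, Finsupp.mapDomain_finsetSum]
    simp only [Finsupp.mapDomain_single]
  have hg : IsNP m n (op (2 * n) m q) := by
    apply op_IsNP
    intro a ha
    rw [hq] at ha
    have := hf.mt_ty_sum _ ha
    simp only [pow_succ] at this
    rw [← Finset.sum_mul] at this
    omega
  refine ⟨op (2 * n) m q, hg, ?_⟩
  have key : f = fun d => (sqL d).comp (op (2 * n) m q d) := by
    apply hf.ext hg.sq
    rw [LinearMap.comp_apply, op_Un, hf.Un_eq (2 * n) (le_refl _), map_sum]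
    simp only [map_smul, hq]
    have hsq : ∀ a : Fin m → ℕ, sqL m (monomial (xp a) 1) = monomial (xp (fun i => a i + 1)) 1 := by
      intro a
      rw [sqL_apply, monomial_pow, one_pow]
      have h5 : 2 • xp a = xp (fun i => a i + 1) := by
        ext i
        rw [Finsupp.smul_apply, xp_apply, xp_apply, pow_succ, smul_eq_mul, mul_comm]
      rw [h5]
    simp only [hsq]
    symm
    have e1 : ∀ (s : Finset (Fin m → ℕ)) (F : (Fin m → ℕ) → Pl m),
        ∑ a ∈ s, F a = ∑ a ∈ s with F a ≠ 0, F a := by
      intro s F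
      rw [Finset.sum_filter]
      refine Finset.sum_congr rfl fun a _ => ?_
      split_ifs with h
      · rfl
      · push Not at h
        exact h
    rw [e1 _ (fun a => mt m f (ty (fun i => a i + 1)) • monomial (xp (fun i => a i + 1)) 1),
      e1 _ (fun a => mt m f (ty a) • monomial (xp a) 1)]
    refine Finset.sum_nbij' (fun b i => b i + 1) (fun c i => c i - 1) ?_ ?_ ?_ ?_ ?_
    · intro b hb
      rw [Finset.mem_filter] at hb ⊢
      refine ⟨?_, hb.2⟩
      rw [Fintype.mem_piFinset]
      intro j
      rw [Finset.mem_range]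
      have h1 : mt m f (ty (fun i => b i + 1)) ≠ 0 := by
        intro h1
        apply hb.2
        rw [h1, zero_smul]
      have hs := hf.mt_ty_sum _ h1
      have h2 : 2 ^ (b j + 1) ≤ ∑ i, 2 ^ (b i + 1) :=
        Finset.single_le_sum (f := fun i => 2 ^ (b i + 1)) (fun _ _ => Nat.zero_le _)
          (Finset.mem_univ j)
      have h3 : b j + 1 < 2 ^ (b j + 1) := Nat.lt_two_pow_self
      omega
    · intro c hc
      rw [Finset.mem_filter] at hc
      have h1 : mt m f (ty c) ≠ 0 := by
        intro h1
        apply hc.2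
        rw [h1, zero_smul]
      have h2 := hpos c h1
      have h3 : (fun i => c i - 1 + 1) = c := by
        funext i
        have := h2 i
        omega
      rw [Finset.mem_filter]
      constructor
      · rw [Fintype.mem_piFinset]
        intro j
        have := Fintype.mem_piFinset.mp hc.1 j
        rw [Finset.mem_range] at this ⊢
        omega
      · rw [h3]
        exact hc.2
    · intro b _
      funext i
      simp
    · intro c hc
      rw [Finset.mem_filter] at hc
      have h1 : mt m f (ty c) ≠ 0 := by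
        intro h1
        apply hc.2
        rw [h1, zero_smul]
      have h2 := hpos c h1
      funext i
      have := h2 i
      simp only
      omega
    · intro b _
      rfl
  intro d y
  exact DFunLike.congr_fun (congrFun key d) y

/-- kernel of the loop map on operations, odd degree -/
theorem op_ker_odd {m n : ℕ} {f : ∀ d, Pl d →ₗ[ZMod 2] Pl d} (hf : IsNP m (2 * n + 1) f)
    (h : ∀ m', m = m' + 1 → ∀ d (y : Pl d), y.IsHomogeneous m' →
      co1 d (f (d + 1) (X 0 * rename Fin.succ y)) = 0) : ∀ d y, f d y = 0 := by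
  classical
  have h0 : IsNP m (2 * n + 1) (fun d => (0 : Pl d →ₗ[ZMod 2] Pl d)) :=
    { nat := fun L x => by simp
      dom := fun d x => rfl
      cod := fun d x => isHomogeneous_zero _ _ _ }
  have key : f = fun d => 0 := by
    apply hf.ext h0
    rw [hf.Un_eq (2 * n + 1) (le_refl _), LinearMap.zero_apply]
    apply Finset.sum_eq_zero
    intro a _
    by_cases ha : mt m f (ty a) = 0
    · rw [ha, zero_smul]
    · exfalso
      have hs := hf.mt_ty_sum a ha
      obtain ⟨i, hai⟩ : ∃ i, a i = 0 := by
        by_contra hc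
        push Not at hc
        have : 2 ∣ ∑ i, 2 ^ (a i) := by
          apply Finset.dvd_sum
          intro i _
          exact dvd_pow_self 2 (hc i)
        omega
      obtain ⟨m', rfl⟩ : ∃ m', m = m' + 1 := ⟨m - 1, by have := i.pos; omega⟩
      have h1 := h m' rfl m' (Un m') (Un_hom m')
      rw [← Un_succ] at h1
      have hx : xp (Fin.cons 0 (fun j => a (i.succAbove j)) : Fin (m' + 1) → ℕ) =
          Finsupp.cons 1 (xp (fun j => a (i.succAbove j))) := by
        ext j
        refine Fin.cases ?_ (fun j => ?_) j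
        · simp [xp_apply]
        · simp [xp_apply]
      have hty : ty (Fin.cons 0 (fun j => a (i.succAbove j)) : Fin (m' + 1) → ℕ) = ty a := by
        rw [ty_cons, ty, ty, Fin.sum_univ_succAbove _ i, hai]
      apply ha
      rw [← hty, hf.mt_ty, hx, ← coeff_co1, h1, coeff_zero]
  intro d y
  rw [key]
  rfl

end SHU
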